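import Mathlib
import Pool.Agent.Lib.MP_8d161d_ag.Alg

section

/-!
Analytic part: a maximum principle of Ahlfors-Schwarz type, proved with the maximum modulus
principle only.
-/

open Filter Topology Metric

namespace Pool.Agent.Lib.GGL

lemma exp_half_le {s : ℝ} (hs0 : 0 ≤ s) (hs1 : s ≤ 1) : Real.exp (s / 2) ≤ 1 + s := by
  rw [← Real.le_log_iff_exp_le (by linarith)]
  have h := Real.one_sub_inv_le_log_of_pos (show (0:ℝ) < 1 + s by linarith)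
  refine le_trans ?_ h
  rw [div_le_iff₀ (by norm_num)]
  have : (1 + s)⁻¹ ≤ 1 - s / 2 := by
    rw [inv_le_iff_one_le_mul₀ (by linarith)]
    nlinarith
  linarith

lemma one_le_mul_exp {a : ℝ} (ha : a ≤ 1 / 2) : 1 ≤ (1 - a) * Real.exp (a + 2 * a ^ 2) := by
  have h1 : (0:ℝ) < 1 - a := by linarith
  have h := Real.one_sub_inv_le_log_of_pos h1
  have h2 : -(a + 2 * a ^ 2) ≤ Real.log (1 - a) := by
    refine le_trans ?_ h
    have : (1 - a)⁻¹ ≤ 1 + (a + 2 * a ^ 2) := by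
      rw [inv_le_iff_one_le_mul₀ h1]
      nlinarith [sq_nonneg a, mul_nonneg (sq_nonneg a) (show (0:ℝ) ≤ 1 - 2 * a by linarith)]
    linarith
  have h3 : Real.exp (-(a + 2 * a ^ 2)) ≤ 1 - a := by
    rw [← Real.le_log_iff_exp_le h1]
    exact h2
  calc (1:ℝ) = Real.exp (-(a + 2 * a ^ 2)) * Real.exp (a + 2 * a ^ 2) := by
        rw [← Real.exp_add]; simp
    _ ≤ (1 - a) * Real.exp (a + 2 * a ^ 2) := by
        gcongr

/-- norm of a point of a circle -/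
lemma norm_sq_circle (z₁ z : ℂ) :
    ‖z‖ ^ 2 = ‖z₁‖ ^ 2 + 2 * ((starRingEnd ℂ) z₁ * (z - z₁)).re + ‖z - z₁‖ ^ 2 := by
  have h1 : z = z₁ + (z - z₁) := by ring
  conv_lhs => rw [h1]
  rw [← Complex.normSq_eq_norm_sq, ← Complex.normSq_eq_norm_sq, ← Complex.normSq_eq_norm_sq,
    Complex.normSq_add]
  have h2 : (z₁ * (starRingEnd ℂ) (z - z₁)).re = ((starRingEnd ℂ) z₁ * (z - z₁)).re := by
    simp only [Complex.mul_re, Complex.conj_re, Complex.conj_im]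
    ring
  rw [h2]
  ring

/-- the key estimate on a small circle -/
lemma circle_estimate {κ : ℕ} {R D r A : ℝ} (hD0 : 0 < D) (hDR : D ≤ R ^ 2)
    (hr0 : 0 < r) (hrR : r ≤ R) (hr4 : 3 * R * r / D ≤ 1 / 2) (hA : |A| ≤ R * r)
    {p p₁ : ℝ} (hp : 0 ≤ p)
    (h : p * (D * (1 - (2 * A + r ^ 2) / D)) ^ (2 * κ) ≤ p₁ * D ^ (2 * κ)) :
    p * Real.exp (-(4 * κ / D) * A) ≤ p₁ * Real.exp (38 * κ * (R ^ 2 / D ^ 2) * r ^ 2) := by
  set a : ℝ := (2 * A + r ^ 2) / D with ha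
  have habs : |a| ≤ 3 * R * r / D := by
    rw [ha, abs_div, abs_of_pos hD0]
    gcongr
    calc |2 * A + r ^ 2| ≤ |2 * A| + |r ^ 2| := abs_add_le _ _
      _ = 2 * |A| + r ^ 2 := by rw [abs_mul, abs_of_pos (by positivity : (0:ℝ) < r ^ 2)]; norm_num
      _ ≤ 2 * (R * r) + r * r := by nlinarith
      _ ≤ 2 * (R * r) + R * r := by gcongr
      _ = 3 * R * r := by ring
  have ha1 : a ≤ 1 / 2 := (le_abs_self a).trans (habs.trans hr4)
  have ha2 : a ^ 2 ≤ 9 * (R ^ 2 / D ^ 2) * r ^ 2 := by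
    calc a ^ 2 = |a| ^ 2 := (sq_abs a).symm
      _ ≤ (3 * R * r / D) ^ 2 := by gcongr
      _ = 9 * (R ^ 2 / D ^ 2) * r ^ 2 := by ring
  have k1 : p ≤ p₁ * Real.exp (2 * κ * (a + 2 * a ^ 2)) := by
    rw [mul_pow, ← mul_assoc, mul_comm p (D ^ (2 * κ)), mul_assoc,
      mul_comm p₁ (D ^ (2 * κ))] at h
    have h2 : p * (1 - a) ^ (2 * κ) ≤ p₁ := le_of_mul_le_mul_left h (by positivity)
    have h3 := one_le_mul_exp ha1
    have h4 : 1 ≤ (1 - a) ^ (2 * κ) * Real.exp (2 * κ * (a + 2 * a ^ 2)) := by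
      have h5 : Real.exp (2 * κ * (a + 2 * a ^ 2)) = Real.exp (a + 2 * a ^ 2) ^ (2 * κ) := by
        rw [← Real.exp_nat_mul]
        push_cast
        rfl
      rw [h5, ← mul_pow]
      exact one_le_pow₀ h3
    calc p = p * 1 := (mul_one _).symm
      _ ≤ p * ((1 - a) ^ (2 * κ) * Real.exp (2 * κ * (a + 2 * a ^ 2))) := by gcongr
      _ = p * (1 - a) ^ (2 * κ) * Real.exp (2 * κ * (a + 2 * a ^ 2)) := by ring
      _ ≤ p₁ * Real.exp (2 * κ * (a + 2 * a ^ 2)) := by gcongr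
  have hp₁ : 0 ≤ p₁ := by
    by_contra hneg
    push Not at hneg
    have : p₁ * Real.exp (2 * κ * (a + 2 * a ^ 2)) < 0 :=
      mul_neg_of_neg_of_pos hneg (Real.exp_pos _)
    linarith
  calc p * Real.exp (-(4 * κ / D) * A)
      ≤ p₁ * Real.exp (2 * κ * (a + 2 * a ^ 2)) * Real.exp (-(4 * κ / D) * A) := by gcongr
    _ = p₁ * Real.exp (2 * κ * (a + 2 * a ^ 2) + -(4 * κ / D) * A) := by
          rw [Real.exp_add]; ring
    _ ≤ p₁ * Real.exp (38 * κ * (R ^ 2 / D ^ 2) * r ^ 2) := by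
          gcongr
          have e1 : 2 * κ * a + -(4 * κ / D) * A = 2 * κ * (r ^ 2 / D) := by
            rw [ha]; ring
          have e2 : r ^ 2 / D ≤ R ^ 2 / D ^ 2 * r ^ 2 := by
            rw [div_mul_eq_mul_div, div_le_div_iff₀ hD0 (by positivity)]
            have : r ^ 2 * D ^ 2 = (r ^ 2 * D) * D := by ring
            rw [this]
            have h9 : (r ^ 2 * D) * D ≤ (r ^ 2 * D) * R ^ 2 := by gcongr
            calc (r ^ 2 * D) * D ≤ (r ^ 2 * D) * R ^ 2 := h9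
              _ = R ^ 2 * r ^ 2 * D := by ring
          have e4 : (κ:ℝ) * (r ^ 2 / D) ≤ κ * (R ^ 2 / D ^ 2 * r ^ 2) := by gcongr
          have e5 : (κ:ℝ) * a ^ 2 ≤ κ * (9 * (R ^ 2 / D ^ 2) * r ^ 2) := by gcongr
          linarith

lemma exists_radius {ε R D : ℝ} {z₁ : ℂ} (hε : 0 < ε) (hz₁ : ‖z₁‖ < R) (hD0 : 0 < D) :
    ∃ r > 0, r < ε ∧ ‖z₁‖ + r < R ∧ r ≤ R ∧ 3 * R * r / D ≤ 1 / 2 := by
  have hR : 0 < R := lt_of_le_of_lt (norm_nonneg _) hz₁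
  have c1 : 0 < R - ‖z₁‖ := by linarith
  refine ⟨min (ε / 2) (min ((R - ‖z₁‖) / 2) (D / (6 * R))), ?_, ?_, ?_, ?_, ?_⟩
  · positivity
  · exact lt_of_le_of_lt (min_le_left _ _) (by linarith)
  · have := (min_le_right (ε / 2) (min ((R - ‖z₁‖) / 2) (D / (6 * R)))).trans (min_le_left _ _)
    linarith
  · have := (min_le_right (ε / 2) (min ((R - ‖z₁‖) / 2) (D / (6 * R)))).trans (min_le_left _ _)
    linarith [norm_nonneg z₁]
  · have h1 := (min_le_right (ε / 2) (min ((R - ‖z₁‖) / 2) (D / (6 * R)))).trans (min_le_right _ _)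
    rw [div_le_iff₀ hD0]
    calc 3 * R * _ ≤ 3 * R * (D / (6 * R)) := by gcongr
      _ = 1 / 2 * D := by field_simp; norm_num

lemma local_bound_aux {P : ℂ → ℝ} {κ : ℕ} {R c₀ : ℝ} {z₁ : ℂ} (hz₁ : ‖z₁‖ < R)
    {g : ℂ → ℂ} (hg : AnalyticAt ℂ g z₁) (hPz₁ : 0 < P z₁) (hg1 : ‖g z₁‖ = P z₁)
    (hP : ∀ᶠ z in 𝓝 z₁, ‖g z‖ * Real.exp (c₀ * ‖z - z₁‖ ^ 2) ≤ P z)
    (hmax : ∀ z, ‖z‖ ≤ R →
      P z * (R ^ 2 - ‖z‖ ^ 2) ^ (2 * κ) ≤ P z₁ * (R ^ 2 - ‖z₁‖ ^ 2) ^ (2 * κ)) :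
    c₀ ≤ 38 * κ * (R ^ 2 / (R ^ 2 - ‖z₁‖ ^ 2) ^ 2) := by
  have hR : 0 < R := lt_of_le_of_lt (norm_nonneg _) hz₁
  obtain ⟨D, hD⟩ : ∃ D, D = R ^ 2 - ‖z₁‖ ^ 2 := ⟨_, rfl⟩
  have hD0 : 0 < D := by
    rw [hD]
    nlinarith [norm_nonneg z₁]
  have hDR : D ≤ R ^ 2 := by
    rw [hD]
    nlinarith [norm_nonneg z₁]
  rw [← hD] at hmax ⊢
  by_contra hcon
  push Not at hcon
  have hev4 : ∀ᶠ z in 𝓝 z₁, AnalyticAt ℂ g z := hg.eventually_analyticAt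
  obtain ⟨ε, hε, hball⟩ := Metric.eventually_nhds_iff_ball.mp (hev4.and hP)
  obtain ⟨r, hr0, hr1, hr2, hr3, hr4⟩ := exists_radius hε hz₁ hD0
  -- the comparison function
  let F : ℂ → ℂ := fun z => g z *
    Complex.exp (-((4 * κ / D : ℝ) : ℂ) * ((starRingEnd ℂ) z₁ * (z - z₁)))
  have hnF : ∀ z, ‖F z‖ = ‖g z‖ *
      Real.exp (-(4 * κ / D) * ((starRingEnd ℂ) z₁ * (z - z₁)).re) := by
    intro z
    simp only [F, norm_mul, Complex.norm_exp]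
    congr 2
    rw [← Complex.ofReal_neg, Complex.re_ofReal_mul]
  have hnFz₁ : ‖F z₁‖ = P z₁ := by
    rw [hnF, sub_self, mul_zero, Complex.zero_re, mul_zero, Real.exp_zero, mul_one, hg1]
  obtain ⟨c, hc⟩ : ∃ c : ℝ, c = r ^ 2 * (c₀ - 38 * κ * (R ^ 2 / D ^ 2)) := ⟨_, rfl⟩
  have hc0 : 0 < c := by
    rw [hc]
    have h2 : 0 < c₀ - 38 * κ * (R ^ 2 / D ^ 2) := by
      linarith
    positivity
  have hsph : ∀ z ∈ sphere z₁ r, ‖F z‖ ≤ P z₁ * Real.exp (-c) := by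
    intro z hz
    rw [mem_sphere, dist_eq_norm] at hz
    have hzball : z ∈ ball z₁ ε := by
      rw [mem_ball, dist_eq_norm, hz]; exact hr1
    obtain ⟨-, g6⟩ := hball z hzball
    rw [hz] at g6
    have hnz := norm_sq_circle z₁ z
    rw [hz] at hnz
    have hAle : |((starRingEnd ℂ) z₁ * (z - z₁)).re| ≤ R * r := by
      calc |((starRingEnd ℂ) z₁ * (z - z₁)).re| ≤ ‖(starRingEnd ℂ) z₁ * (z - z₁)‖ :=
            Complex.abs_re_le_norm _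
        _ = ‖z₁‖ * r := by rw [norm_mul, Complex.norm_conj, hz]
        _ ≤ R * r := by gcongr
    have hzR : ‖z‖ < R := by
      calc ‖z‖ = ‖z₁ + (z - z₁)‖ := by congr 1; ring
        _ ≤ ‖z₁‖ + ‖z - z₁‖ := norm_add_le _ _
        _ = ‖z₁‖ + r := by rw [hz]
        _ < R := hr2
    have h1 := hmax z hzR.le
    have hRz : R ^ 2 - ‖z‖ ^ 2 =
        D * (1 - (2 * ((starRingEnd ℂ) z₁ * (z - z₁)).re + r ^ 2) / D) := by
      rw [hnz]
      generalize ((starRingEnd ℂ) z₁ * (z - z₁)).re = A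
      rw [mul_sub, mul_one, mul_div_cancel₀ _ hD0.ne', hD]
      ring
    rw [hRz] at h1
    have hPz : 0 ≤ P z := le_trans (by positivity) g6
    have h2 := circle_estimate hD0 hDR hr0 hr3 hr4 hAle hPz h1
    rw [hnF]
    have h3 : ‖g z‖ ≤ P z * Real.exp (-(c₀ * r ^ 2)) := by
      calc ‖g z‖ = ‖g z‖ * Real.exp (c₀ * r ^ 2) * Real.exp (-(c₀ * r ^ 2)) := by
            rw [mul_assoc, ← Real.exp_add]; simp
        _ ≤ P z * Real.exp (-(c₀ * r ^ 2)) := by gcongr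
    calc ‖g z‖ * Real.exp (-(4 * κ / D) * ((starRingEnd ℂ) z₁ * (z - z₁)).re)
        ≤ (P z * Real.exp (-(c₀ * r ^ 2))) *
          Real.exp (-(4 * κ / D) * ((starRingEnd ℂ) z₁ * (z - z₁)).re) := by gcongr
      _ = (P z * Real.exp (-(4 * κ / D) * ((starRingEnd ℂ) z₁ * (z - z₁)).re)) *
          Real.exp (-(c₀ * r ^ 2)) := by ring
      _ ≤ (P z₁ * Real.exp (38 * κ * (R ^ 2 / D ^ 2) * r ^ 2)) *
          Real.exp (-(c₀ * r ^ 2)) := by gcongr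
      _ = P z₁ * Real.exp (-c) := by
          rw [mul_assoc, ← Real.exp_add, hc]
          congr 2
          ring
  have hdiff : DiffContOnCl ℂ F (ball z₁ r) := by
    apply DifferentiableOn.diffContOnCl
    rw [closure_ball _ hr0.ne']
    intro z hz
    rw [mem_closedBall, dist_eq_norm] at hz
    have hzball : z ∈ ball z₁ ε := by
      rw [mem_ball, dist_eq_norm]; linarith
    obtain ⟨g4, -⟩ := hball z hzball
    have q1 := g4.differentiableAt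
    apply DifferentiableAt.differentiableWithinAt
    simp only [F]
    fun_prop
  have hfin := Complex.norm_le_of_forall_mem_frontier_norm_le isBounded_ball hdiff
    (C := P z₁ * Real.exp (-c)) (by
      intro z hz
      rw [frontier_ball _ hr0.ne'] at hz
      exact hsph z hz) (z := z₁) (subset_closure (mem_ball_self hr0))
  rw [hnFz₁] at hfin
  have : Real.exp (-c) < 1 := by
    rw [Real.exp_lt_one_iff]
    linarith
  nlinarith

section vec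

variable {E : Type*} [NormedAddCommGroup E] [InnerProductSpace ℂ E]

lemma eventually_norm_ge {v : ℂ → E} {z₁ : ℂ} {b : E} (hv : HasDerivAt v b z₁) (hv0 : v z₁ = 0) :
    ∀ᶠ z in 𝓝 z₁, ‖b‖ / 2 * ‖z - z₁‖ ≤ ‖v z‖ := by
  rcases eq_or_ne b 0 with hb | hb
  · refine Filter.Eventually.of_forall fun z => ?_
    rw [hb, norm_zero, zero_div, zero_mul]
    exact norm_nonneg _
  have h := hasDerivAt_iff_isLittleO.mp hv
  have hb' : 0 < ‖b‖ / 2 := by positivity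
  filter_upwards [h.def hb'] with z hz
  rw [hv0, sub_zero] at hz
  have h1 : ‖(z - z₁) • b‖ = ‖z - z₁‖ * ‖b‖ := norm_smul _ _
  have h2 : ‖(z - z₁) • b‖ ≤ ‖v z‖ + ‖v z - (z - z₁) • b‖ := by
    calc ‖(z - z₁) • b‖ = ‖v z - (v z - (z - z₁) • b)‖ := by congr 1; abel
      _ ≤ _ := norm_sub_le _ _
  rw [h1] at h2
  linarith

lemma local_bound {P : ℂ → ℝ} {κ N : ℕ} {R : ℝ} {z₁ : ℂ} (hz₁ : ‖z₁‖ < R)
    {σ : ℂ → ℂ} (hσ : AnalyticAt ℂ σ z₁) {x : ℂ → E} (hx : AnalyticAt ℂ x z₁) (hx0 : x z₁ ≠ 0)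
    (hPz₁ : 0 < P z₁)
    (hP : ∀ᶠ z in 𝓝 z₁, P z = ‖σ z‖ ^ 2 * (‖x z‖ ^ 2) ^ N)
    (hmax : ∀ z, ‖z‖ ≤ R →
      P z * (R ^ 2 - ‖z‖ ^ 2) ^ (2 * κ) ≤ P z₁ * (R ^ 2 - ‖z₁‖ ^ 2) ^ (2 * κ)) :
    ∃ β : ℂ, N * (‖deriv x z₁ - β • x z₁‖ / ‖x z₁‖) ^ 2 ≤
      304 * κ * (R ^ 2 / (R ^ 2 - ‖z₁‖ ^ 2) ^ 2) := by
  obtain ⟨a, ha⟩ : ∃ a, a = x z₁ := ⟨_, rfl⟩
  rw [← ha] at hx0
  have hna : 0 < ‖a‖ := norm_pos_iff.mpr hx0
  let ℓ : E →L[ℂ] ℂ := ((‖a‖ ^ 2 : ℝ) : ℂ)⁻¹ • innerSL ℂ a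
  have hℓ : ∀ v, ℓ v = ((‖a‖ ^ 2 : ℝ) : ℂ)⁻¹ * inner ℂ a v := fun v => rfl
  have hna' : ((‖a‖ ^ 2 : ℝ) : ℂ) ≠ 0 := by
    exact_mod_cast (by positivity : (‖a‖ ^ 2 : ℝ) ≠ 0)
  have hℓa : ℓ a = 1 := by
    have h1 : inner ℂ a a = ((‖a‖ ^ 2 : ℝ) : ℂ) := by
      rw [inner_self_eq_norm_sq_to_K]
      push_cast
      rfl
    rw [hℓ, h1, inv_mul_cancel₀ hna']
  have hx' : HasDerivAt x (deriv x z₁) z₁ := hx.differentiableAt.hasDerivAt
  have hh' : HasDerivAt (fun z => ℓ (x z)) (ℓ (deriv x z₁)) z₁ :=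
    ℓ.hasFDerivAt.comp_hasDerivAt z₁ hx'
  have hh1 : ℓ (x z₁) = 1 := by rw [← ha, hℓa]
  have hinv : HasDerivAt (fun z => (ℓ (x z))⁻¹) (-ℓ (deriv x z₁)) z₁ := by
    have := hh'.inv (by rw [hh1]; exact one_ne_zero)
    rw [hh1, one_pow, div_one] at this
    exact this
  have hv : HasDerivAt (fun z => (ℓ (x z))⁻¹ • x z - a) (deriv x z₁ - ℓ (deriv x z₁) • a) z₁ := by
    have h2 := (hinv.smul hx').sub_const a
    have h3 : deriv x z₁ - ℓ (deriv x z₁) • a =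
        (ℓ (x z₁))⁻¹ • deriv x z₁ + -ℓ (deriv x z₁) • x z₁ := by
      rw [hh1, inv_one, one_smul, ← ha, neg_smul]
      abel
    rw [h3]
    exact h2
  obtain ⟨b, hb⟩ : ∃ b, b = deriv x z₁ - ℓ (deriv x z₁) • a := ⟨_, rfl⟩
  rw [← hb] at hv
  refine ⟨ℓ (deriv x z₁), ?_⟩
  rw [← ha, ← hb]
  obtain ⟨t, ht⟩ : ∃ t, t = ‖b‖ / ‖a‖ := ⟨_, rfl⟩
  have ht0 : 0 ≤ t := by rw [ht]; positivity
  rw [← ht]
  have key : N * t ^ 2 / 8 ≤ 38 * κ * (R ^ 2 / (R ^ 2 - ‖z₁‖ ^ 2) ^ 2) := by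
    have hhan : AnalyticAt ℂ (fun z => ℓ (x z)) z₁ := (ℓ.analyticAt _).comp hx
    have hPz := hP.self_of_nhds
    refine local_bound_aux hz₁ (g := fun z => σ z ^ 2 * (ℓ (x z) ^ 2 * ((‖a‖ ^ 2 : ℝ) : ℂ)) ^ N)
      ?_ hPz₁ ?_ ?_ hmax
    · exact (hσ.pow 2).mul (((hhan.pow 2).mul analyticAt_const).pow N)
    · rw [hPz, hh1, ← ha]
      simp
    · have hne : ∀ᶠ z in 𝓝 z₁, ℓ (x z) ≠ 0 := by
        apply hhan.continuousAt.eventually_ne
        rw [hh1]; exact one_ne_zero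
      have hsmall : ∀ᶠ z in 𝓝 z₁, t ^ 2 / 4 * ‖z - z₁‖ ^ 2 ≤ 1 := by
        have hc : ContinuousAt (fun z : ℂ => t ^ 2 / 4 * ‖z - z₁‖ ^ 2) z₁ := by fun_prop
        have h0 : (fun z : ℂ => t ^ 2 / 4 * ‖z - z₁‖ ^ 2) z₁ < 1 := by simp
        filter_upwards [hc.eventually_lt_const h0] with z hz using hz.le
      have hge := eventually_norm_ge hv (by
        rw [hh1, inv_one, one_smul, ← ha, sub_self])
      filter_upwards [hP, hne, hsmall, hge] with z g1 g2 g3 g4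
      rw [g1]
      obtain ⟨v, hvz⟩ : ∃ v, v = (ℓ (x z))⁻¹ • x z - a := ⟨_, rfl⟩
      rw [← hvz] at g4
      have e1 : x z = ℓ (x z) • (a + v) := by
        rw [hvz, add_sub_cancel, smul_smul, mul_inv_cancel₀ g2, one_smul]
      have e2 : ℓ v = 0 := by
        rw [hvz, map_sub, map_smul, hℓa, smul_eq_mul, inv_mul_cancel₀ g2, sub_self]
      have e3 : inner ℂ a v = 0 := by
        rw [hℓ] at e2
        refine (mul_eq_zero.mp e2).resolve_left ?_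
        simpa using hx0
      have e4 : ‖a + v‖ ^ 2 = ‖a‖ ^ 2 + ‖v‖ ^ 2 := by
        have := norm_add_sq_eq_norm_sq_add_norm_sq_of_inner_eq_zero a v e3
        nlinarith
      have e5 : ‖x z‖ ^ 2 = ‖ℓ (x z)‖ ^ 2 * ‖a‖ ^ 2 * (1 + ‖v‖ ^ 2 / ‖a‖ ^ 2) := by
        conv_lhs => rw [e1]
        rw [norm_smul, mul_pow, e4]
        field_simp
      have e6 : t ^ 2 / 4 * ‖z - z₁‖ ^ 2 ≤ ‖v‖ ^ 2 / ‖a‖ ^ 2 := by
        rw [le_div_iff₀ (by positivity)]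
        calc t ^ 2 / 4 * ‖z - z₁‖ ^ 2 * ‖a‖ ^ 2 = (‖b‖ / 2 * ‖z - z₁‖) ^ 2 := by
              rw [ht]; field_simp; ring
          _ ≤ ‖v‖ ^ 2 := by gcongr
      have e7 : Real.exp (N * t ^ 2 / 8 * ‖z - z₁‖ ^ 2) ≤ (1 + ‖v‖ ^ 2 / ‖a‖ ^ 2) ^ N := by
        calc Real.exp (N * t ^ 2 / 8 * ‖z - z₁‖ ^ 2)
            = Real.exp ((t ^ 2 / 4 * ‖z - z₁‖ ^ 2) / 2) ^ N := by
              rw [← Real.exp_nat_mul]
              congr 1
              ring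
          _ ≤ (1 + t ^ 2 / 4 * ‖z - z₁‖ ^ 2) ^ N := by
              gcongr
              exact exp_half_le (by positivity) g3
          _ ≤ (1 + ‖v‖ ^ 2 / ‖a‖ ^ 2) ^ N := by gcongr
      rw [e5, norm_mul, norm_pow, norm_pow, norm_mul, norm_pow, Complex.norm_real,
        Real.norm_of_nonneg (by positivity), mul_pow _ (1 + ‖v‖ ^ 2 / ‖a‖ ^ 2) N, ← mul_assoc]
      gcongr
  linarith

theorem growth {P : ℂ → ℝ} (hPc : Continuous P) (hP0 : ∀ z, 0 ≤ P z) {κ N : ℕ} (hN : 0 < N)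
    (hκ : 0 < κ) (C₁ : ℝ)
    (hloc : ∀ z₁, 0 < P z₁ → ∃ (σ : ℂ → ℂ) (x : ℂ → E), AnalyticAt ℂ σ z₁ ∧ AnalyticAt ℂ x z₁ ∧
      x z₁ ≠ 0 ∧ (∀ᶠ z in 𝓝 z₁, P z = ‖σ z‖ ^ 2 * (‖x z‖ ^ 2) ^ N) ∧
      ∀ β : ℂ, P z₁ ≤ C₁ * (‖deriv x z₁ - β • x z₁‖ / ‖x z₁‖) ^ (2 * κ)) :
    ∀ z, P z = 0 := by
  intro z₀
  by_contra hne
  have hpos : 0 < P z₀ := lt_of_le_of_ne (hP0 z₀) (Ne.symm hne)
  -- the main estimate
  have main : ∀ R : ℝ, ‖z₀‖ < R →
      P z₀ * (R ^ 2 - ‖z₀‖ ^ 2) ^ (2 * κ) ≤ C₁ * (304 * κ * R ^ 2) ^ κ := by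
    intro R hR
    have hR0 : 0 < R := lt_of_le_of_lt (norm_nonneg _) hR
    obtain ⟨z₁, hz₁, hmax⟩ := (isCompact_closedBall (0:ℂ) R).exists_isMaxOn
      ⟨0, mem_closedBall_self hR0.le⟩
      (f := fun z => P z * (R ^ 2 - ‖z‖ ^ 2) ^ (2 * κ)) (by fun_prop)
    have hmax' : ∀ z, ‖z‖ ≤ R →
        P z * (R ^ 2 - ‖z‖ ^ 2) ^ (2 * κ) ≤ P z₁ * (R ^ 2 - ‖z₁‖ ^ 2) ^ (2 * κ) := by
      intro z hz
      exact hmax (by simpa using hz)
    have h0 := hmax' z₀ hR.le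
    have hD₀ : 0 < R ^ 2 - ‖z₀‖ ^ 2 := by
      nlinarith [norm_nonneg z₀]
    have hval : 0 < P z₁ * (R ^ 2 - ‖z₁‖ ^ 2) ^ (2 * κ) :=
      lt_of_lt_of_le (by positivity) h0
    have hPz₁ : 0 < P z₁ := by
      rcases (hP0 z₁).lt_or_eq with h | h
      · exact h
      · rw [← h, zero_mul] at hval
        exact absurd hval (lt_irrefl _)
    have hz₁' : ‖z₁‖ < R := by
      have h1 : ‖z₁‖ ≤ R := by simpa using hz₁
      rcases h1.lt_or_eq with h | h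
      · exact h
      · rw [h, sub_self, zero_pow (by omega), mul_zero] at hval
        exact absurd hval (lt_irrefl _)
    have hD : 0 < R ^ 2 - ‖z₁‖ ^ 2 := by
      nlinarith [norm_nonneg z₁]
    obtain ⟨σ, x, hσ, hx, hx0, hP, hest⟩ := hloc z₁ hPz₁
    obtain ⟨β, hβ⟩ := local_bound hz₁' hσ hx hx0 hPz₁ hP hmax'
    obtain ⟨t, ht⟩ : ∃ t, t = ‖deriv x z₁ - β • x z₁‖ / ‖x z₁‖ := ⟨_, rfl⟩
    have hest' := hest β
    rw [← ht] at hβ hest'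
    have hC₁ : 0 ≤ C₁ := by
      by_contra hneg
      push Not at hneg
      have : C₁ * t ^ (2 * κ) ≤ 0 :=
        mul_nonpos_of_nonpos_of_nonneg hneg.le (by rw [pow_mul]; positivity)
      linarith
    have hN1 : (1:ℝ) ≤ N := by exact_mod_cast hN
    have ht2 : t ^ 2 ≤ 304 * κ * (R ^ 2 / (R ^ 2 - ‖z₁‖ ^ 2) ^ 2) := by
      calc t ^ 2 = 1 * t ^ 2 := (one_mul _).symm
        _ ≤ N * t ^ 2 := by gcongr
        _ ≤ _ := hβ
    calc P z₀ * (R ^ 2 - ‖z₀‖ ^ 2) ^ (2 * κ) ≤ P z₁ * (R ^ 2 - ‖z₁‖ ^ 2) ^ (2 * κ) := h0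
      _ ≤ (C₁ * (t ^ 2) ^ κ) * (R ^ 2 - ‖z₁‖ ^ 2) ^ (2 * κ) := by
          rw [← pow_mul]
          gcongr
      _ ≤ (C₁ * (304 * κ * (R ^ 2 / (R ^ 2 - ‖z₁‖ ^ 2) ^ 2)) ^ κ) *
          (R ^ 2 - ‖z₁‖ ^ 2) ^ (2 * κ) := by
          gcongr
      _ = C₁ * (304 * κ * R ^ 2) ^ κ := by
          rw [pow_mul (R ^ 2 - ‖z₁‖ ^ 2) 2 κ, mul_assoc, ← mul_pow]
          congr 2
          field_simp
  -- let the radius tend to infinity
  obtain ⟨R, hR1, hR2, hR3⟩ : ∃ R : ℝ, ‖z₀‖ < R ∧ 1 ≤ R ∧ 2 * ‖z₀‖ ^ 2 ≤ R ^ 2 ∧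
      C₁ * (1216 * κ) ^ κ < P z₀ * R := by
    refine ⟨max (2 * ‖z₀‖ + 1) (|C₁ * (1216 * κ) ^ κ| / P z₀ + 1), ?_, ?_, ?_, ?_⟩
    · have := le_max_left (2 * ‖z₀‖ + 1) (|C₁ * (1216 * κ) ^ κ| / P z₀ + 1)
      linarith [norm_nonneg z₀]
    · have := le_max_left (2 * ‖z₀‖ + 1) (|C₁ * (1216 * κ) ^ κ| / P z₀ + 1)
      linarith [norm_nonneg z₀]
    · have := le_max_left (2 * ‖z₀‖ + 1) (|C₁ * (1216 * κ) ^ κ| / P z₀ + 1)
      nlinarith [norm_nonneg z₀]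
    · have h1 := le_max_right (2 * ‖z₀‖ + 1) (|C₁ * (1216 * κ) ^ κ| / P z₀ + 1)
      calc C₁ * (1216 * κ) ^ κ ≤ |C₁ * (1216 * κ) ^ κ| := le_abs_self _
        _ < P z₀ * (|C₁ * (1216 * κ) ^ κ| / P z₀ + 1) := by
            rw [mul_add, mul_div_cancel₀ _ hpos.ne', mul_one]
            linarith
        _ ≤ _ := by gcongr
  have h1 := main R hR1
  have h2 : P z₀ * (R ^ 2 / 2) ^ (2 * κ) ≤ C₁ * (304 * κ * R ^ 2) ^ κ := by
    refine le_trans ?_ h1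
    gcongr
    linarith [hR3.1]
  have h3 : P z₀ * (R ^ 2) ^ κ ≤ C₁ * (1216 * κ) ^ κ := by
    have e1 : P z₀ * (R ^ 2 / 2) ^ (2 * κ) = (P z₀ * (R ^ 2) ^ κ) * (R ^ 2 / 4) ^ κ := by
      rw [pow_mul, mul_assoc, ← mul_pow]
      congr 2
      ring
    have e2 : C₁ * (304 * κ * R ^ 2) ^ κ = (C₁ * (1216 * κ) ^ κ) * (R ^ 2 / 4) ^ κ := by
      rw [mul_assoc C₁, ← mul_pow]
      congr 2
      ring
    rw [e1, e2] at h2
    exact le_of_mul_le_mul_right h2 (by positivity)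
  have h4 : R ≤ (R ^ 2) ^ κ := by
    calc R = R ^ 1 := (pow_one R).symm
      _ ≤ R ^ (2 * κ) := pow_le_pow_right₀ hR2 (by omega)
      _ = (R ^ 2) ^ κ := pow_mul _ _ _
  have h5 : P z₀ * R ≤ P z₀ * (R ^ 2) ^ κ := by gcongr
  linarith [hR3.2]

end vec

end Pool.Agent.Lib.GGL
end

section

/-!
Local structure of the determinant of one-jets along a curve.
-/

open Filter Topology Metric

namespace Pool.Agent.Lib.GGL

lemma exists_root {g : ℂ → ℂ} {z₁ : ℂ} (hg : AnalyticAt ℂ g z₁) (h0 : g z₁ ≠ 0) {m : ℕ}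
    (hm : 0 < m) : ∃ r : ℂ → ℂ, AnalyticAt ℂ r z₁ ∧ ∀ᶠ z in 𝓝 z₁, r z ^ m = g z := by
  obtain ⟨c, hc⟩ := IsAlgClosed.exists_pow_nat_eq (g z₁) hm
  have h1 : AnalyticAt ℂ (fun z => g z / g z₁) z₁ := hg.div analyticAt_const h0
  have h2 : g z₁ / g z₁ ∈ Complex.slitPlane := by
    rw [div_self h0]; exact Complex.one_mem_slitPlane
  have h3 : AnalyticAt ℂ (fun z => Complex.log (g z / g z₁)) z₁ := h1.clog h2
  refine ⟨fun z => c * Complex.exp (Complex.log (g z / g z₁) / m), ?_, ?_⟩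
  · exact analyticAt_const.mul ((h3.div analyticAt_const (by exact_mod_cast hm.ne')).cexp)
  · have h4 : ∀ᶠ z in 𝓝 z₁, g z ≠ 0 := hg.continuousAt.eventually_ne h0
    filter_upwards [h4] with z hz
    rw [mul_pow, hc, ← Complex.exp_nat_mul, mul_div_cancel₀ _ (by exact_mod_cast hm.ne'),
      Complex.exp_log (div_ne_zero hz h0), mul_div_cancel₀ _ h0]

section analytic

variable {n : ℕ}

lemma analyticAt_dotProduct {y : ℂ → Fin (n + 1) → ℂ} {z₁ : ℂ} (hy : AnalyticAt ℂ y z₁)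
    (v : Fin (n + 1) → ℂ) : AnalyticAt ℂ (fun z => v ⬝ᵥ y z) z₁ := by
  simp only [dotProduct]
  apply Finset.analyticAt_fun_sum
  intro i _
  exact analyticAt_const.mul ((analyticAt_pi_iff.mp hy) i)

lemma analyticAt_linear {y : ℂ → Fin (n + 1) → ℂ} {z₁ : ℂ} (hy : AnalyticAt ℂ y z₁)
    (a : (Fin (n + 1) → ℂ) →ₗ[ℂ] ℂ) : AnalyticAt ℂ (fun z => a (y z)) z₁ := by
  have h : (fun z => a (y z)) = (LinearMap.toContinuousLinearMap a) ∘ y := rfl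
  rw [h]
  exact ((LinearMap.toContinuousLinearMap a).analyticAt _).comp hy

lemma analyticAt_det {B : Type*} [Fintype B] [DecidableEq B] {A : ℂ → Matrix B B ℂ} {z₁ : ℂ}
    (hA : ∀ i j, AnalyticAt ℂ (fun z => A z i j) z₁) : AnalyticAt ℂ (fun z => (A z).det) z₁ := by
  simp only [Matrix.det_apply']
  apply Finset.analyticAt_fun_sum
  intro σ _
  apply analyticAt_const.mul
  apply Finset.analyticAt_fun_prod
  intro i _
  exact hA _ _

lemma deriv_dotProduct {y : ℂ → Fin (n + 1) → ℂ} {z : ℂ} (hy : AnalyticAt ℂ y z)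
    (v : Fin (n + 1) → ℂ) : deriv (fun z => v ⬝ᵥ y z) z = v ⬝ᵥ deriv y z := by
  have h1 : HasDerivAt y (deriv y z) z := hy.differentiableAt.hasDerivAt
  have h2 := hasDerivAt_pi.mp h1
  apply HasDerivAt.deriv
  simp only [dotProduct]
  apply HasDerivAt.fun_sum
  intro i _
  exact (h2 i).const_mul _

/-- divisibility of `δ_j(y, y')` -/
lemma exists_eps {v : Fin (n + 1) → ℂ} {y : ℂ → Fin (n + 1) → ℂ} {z₁ : ℂ}
    (hy : AnalyticAt ℂ y z₁) {μ : ℕ} {g : ℂ → ℂ} (hg : AnalyticAt ℂ g z₁)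
    (h : ∀ᶠ z in 𝓝 z₁, v ⬝ᵥ y z = (z - z₁) ^ μ * g z) :
    ∃ ε : ℂ → Fin (n + 1) → ℂ, AnalyticAt ℂ ε z₁ ∧
      ∀ᶠ z in 𝓝 z₁, dlt v (y z) (deriv y z) = (z - z₁) ^ (μ - 1) • ε z := by
  have hdl : ∀ᶠ z in 𝓝 z₁, v ⬝ᵥ deriv y z = deriv (fun z => (z - z₁) ^ μ * g z) z := by
    have h1 : (fun z => v ⬝ᵥ y z) =ᶠ[𝓝 z₁] fun z => (z - z₁) ^ μ * g z := h
    filter_upwards [h1.deriv, hy.eventually_analyticAt] with z h2 h3
    rw [← h2, deriv_dotProduct h3]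
  have hyd : AnalyticAt ℂ (deriv y) z₁ := hy.deriv
  have hgd : AnalyticAt ℂ (deriv g) z₁ := hg.deriv
  have hsub : AnalyticAt ℂ (fun z => z - z₁) z₁ := analyticAt_id.sub analyticAt_const
  rcases Nat.eq_zero_or_pos μ with hμ | hμ
  · subst hμ
    refine ⟨fun z => g z • deriv y z - deriv g z • y z, (hg.smul hyd).sub (hgd.smul hy), ?_⟩
    filter_upwards [h, hdl] with z h1 h2
    simp only [pow_zero, one_mul] at h1 h2
    rw [dlt, h1, h2]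
    simp
  · refine ⟨fun z => ((z - z₁) * g z) • deriv y z - (μ * g z + (z - z₁) * deriv g z) • y z,
      ((hsub.mul hg).smul hyd).sub
        (((analyticAt_const.mul hg).add (hsub.mul hgd)).smul hy), ?_⟩
    filter_upwards [h, hdl, hg.eventually_analyticAt] with z h1 h2 h3
    have h4 : HasDerivAt (fun z => (z - z₁) ^ μ * g z)
        (μ * (z - z₁) ^ (μ - 1) * g z + (z - z₁) ^ μ * deriv g z) z := by
      have h5 : HasDerivAt (fun z => (z - z₁) ^ μ) (μ * (z - z₁) ^ (μ - 1)) z := by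
        have h7 := ((hasDerivAt_id z).sub_const z₁).pow μ
        have h8 : (μ * (z - z₁) ^ (μ - 1) : ℂ) = μ * (id z - z₁) ^ (μ - 1) * 1 := by
          rw [mul_one, id]
        rw [h8]
        exact h7
      exact h5.mul h3.differentiableAt.hasDerivAt
    rw [h4.deriv] at h2
    have h6 : (z - z₁) ^ μ = (z - z₁) ^ (μ - 1) * (z - z₁) := by
      rw [← pow_succ]
      congr 1
      omega
    rw [dlt, h1, h2, h6, smul_sub, smul_smul, smul_smul]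
    congr 2 <;> ring

end analytic

section local_structure

variable {n : ℕ} {H : Type*} [Fintype H] [DecidableEq H] (p : H → Fin (n + 1) → ℂ)

/-- Local structure of the determinant along a curve. -/
theorem local_structure {m : ℕ} (hm : 0 < m) (𝓑 : Finset (Finset H))
    (hcov : ∀ y : Fin (n + 1) → ℂ, y ≠ 0 → ∃ B ∈ 𝓑, ∀ j, p j ⬝ᵥ y = 0 → j ∈ B)
    (G : (Fin (n + 1) → ℂ) → (Fin (n + 1) → ℂ) → ℂ)
    (hG : ∀ B ∈ 𝓑, ∃ a : B → B → ((Fin (n + 1) → ℂ) →ₗ[ℂ] ℂ), ∀ y w,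
            G y w = Matrix.det (Matrix.of fun i j : B => a i j (dlt (p j) y w)))
    {z₁ : ℂ} {y : ℂ → Fin (n + 1) → ℂ} (hy : AnalyticAt ℂ y z₁) (hy0 : y z₁ ≠ 0)
    (htop : ∀ j, analyticOrderAt (fun z => p j ⬝ᵥ y z) z₁ ≠ ⊤)
    (hord : ∀ j, analyticOrderAt (fun z => p j ⬝ᵥ y z) z₁ = 0 ∨
      (m : ℕ∞) ≤ analyticOrderAt (fun z => p j ⬝ᵥ y z) z₁) :
    ∃ σ : ℂ → ℂ, AnalyticAt ℂ σ z₁ ∧
      (∀ᶠ z in 𝓝 z₁, G (y z) (deriv y z) ^ m = σ z * (∏ j, p j ⬝ᵥ y z) ^ (m - 1)) ∧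
      (σ z₁ ≠ 0 → ∃ x : ℂ → EuclideanSpace ℂ H, AnalyticAt ℂ x z₁ ∧
        ∀ᶠ z in 𝓝 z₁, ∀ j, p j ⬝ᵥ y z = x z j ^ m ∧
          p j ⬝ᵥ deriv y z = m * x z j ^ (m - 1) * deriv x z j) := by
  have hl : ∀ j, AnalyticAt ℂ (fun z => p j ⬝ᵥ y z) z₁ := fun j => analyticAt_dotProduct hy _
  have h1 : ∀ j, ∃ (μ : ℕ) (g : ℂ → ℂ), AnalyticAt ℂ g z₁ ∧ g z₁ ≠ 0 ∧
      (∀ᶠ z in 𝓝 z₁, p j ⬝ᵥ y z = (z - z₁) ^ μ * g z) ∧ (μ = 0 ∨ m ≤ μ) := by
    intro j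
    obtain ⟨g, hg1, hg2, hg3⟩ := (hl j).analyticOrderAt_ne_top.mp (htop j)
    refine ⟨analyticOrderNatAt (fun z => p j ⬝ᵥ y z) z₁, g, hg1, hg2, ?_, ?_⟩
    · filter_upwards [hg3] with z hz
      rw [hz, smul_eq_mul]
    · have h2 := Nat.cast_analyticOrderNatAt (htop j)
      rcases hord j with h | h
      · left
        rw [h] at h2
        exact_mod_cast h2
      · right
        rw [← h2] at h
        exact_mod_cast h
  choose μ g hg hg0 hlg hμ using h1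
  choose ε hε hδ using fun j => exists_eps (v := p j) hy (hg j) (hlg j)
  obtain ⟨B, hB, hBz⟩ := hcov (y z₁) hy0
  obtain ⟨a, ha⟩ := hG B hB
  have hμB : ∀ j, j ∉ B → μ j = 0 := by
    intro j hj
    by_contra hne
    apply hj
    apply hBz
    rw [(hlg j).self_of_nhds, sub_self, zero_pow hne, zero_mul]
  obtain ⟨Gt, hGt⟩ : ∃ Gt : ℂ → ℂ, Gt = fun z =>
    Matrix.det (Matrix.of fun i j : B => a i j (ε j z)) := ⟨_, rfl⟩
  have hGtan : AnalyticAt ℂ Gt z₁ := by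
    rw [hGt]
    apply analyticAt_det
    intro i j
    simp only [Matrix.of_apply]
    exact analyticAt_linear (hε j) _
  have hsub : AnalyticAt ℂ (fun z => z - z₁) z₁ := analyticAt_id.sub analyticAt_const
  have hgprod : AnalyticAt ℂ (fun z => ∏ j, g j z) z₁ := by
    apply Finset.analyticAt_fun_prod
    intro j _
    exact hg j
  have hgprod0 : (∏ j, g j z₁) ≠ 0 := Finset.prod_ne_zero_iff.mpr fun j _ => hg0 j
  refine ⟨fun z => (z - z₁) ^ (∑ j, (μ j - m)) * Gt z ^ m / (∏ j, g j z) ^ (m - 1), ?_, ?_, ?_⟩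
  · exact ((hsub.pow _).mul (hGtan.pow _)).div (hgprod.pow _) (pow_ne_zero _ hgprod0)
  · have hall1 : ∀ᶠ z in 𝓝 z₁, ∀ j, p j ⬝ᵥ y z = (z - z₁) ^ μ j * g j z := by
      rw [Filter.eventually_all]; exact hlg
    have hall2 : ∀ᶠ z in 𝓝 z₁, ∀ j, dlt (p j) (y z) (deriv y z) =
        (z - z₁) ^ (μ j - 1) • ε j z := by
      rw [Filter.eventually_all]; exact hδ
    have hall3 : ∀ᶠ z in 𝓝 z₁, (∏ j, g j z) ≠ 0 := hgprod.continuousAt.eventually_ne hgprod0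
    filter_upwards [hall1, hall2, hall3] with z g1 g2 g3
    have e1 : G (y z) (deriv y z) = (z - z₁) ^ (∑ j, (μ j - 1)) * Gt z := by
      rw [ha, hGt]
      have e2 : (Matrix.of fun i j : B => a i j (dlt (p j) (y z) (deriv y z))) =
          Matrix.of fun i j : B => (z - z₁) ^ (μ j - 1) *
            (Matrix.of fun i j : B => a i j (ε j z)) i j := by
        ext i j
        simp only [Matrix.of_apply]
        rw [g2, map_smul, smul_eq_mul]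
      rw [e2, Matrix.det_mul_row]
      congr 1
      rw [Finset.prod_pow_eq_pow_sum]
      congr 1
      rw [Finset.sum_coe_sort B (fun j => μ j - 1)]
      apply Finset.sum_subset (Finset.subset_univ _)
      intro j _ hj
      rw [hμB j hj, Nat.zero_sub]
    rw [e1]
    have e3 : (∏ j, p j ⬝ᵥ y z) = (z - z₁) ^ (∑ j, μ j) * ∏ j, g j z := by
      rw [← Finset.prod_pow_eq_pow_sum, ← Finset.prod_mul_distrib]
      exact Finset.prod_congr rfl fun j _ => g1 j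
    rw [e3, mul_pow, mul_pow, ← pow_mul, ← pow_mul]
    have e4 : (∑ j, (μ j - 1)) * m = (∑ j, (μ j - m)) + (∑ j, μ j) * (m - 1) := by
      rw [Finset.sum_mul, Finset.sum_mul, ← Finset.sum_add_distrib]
      refine Finset.sum_congr rfl fun j _ => ?_
      rcases hμ j with h | h
      · rw [h]; simp
      · obtain ⟨t, ht⟩ := Nat.exists_eq_add_of_le h
        obtain ⟨m', rfl⟩ : ∃ m', m = m' + 1 := ⟨m - 1, by omega⟩
        rw [ht]
        have h5 : m' + 1 + t - 1 = m' + t := by omega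
        have h6 : m' + 1 + t - (m' + 1) = t := by omega
        rw [h5, h6, Nat.add_sub_cancel]
        ring
    rw [e4, pow_add]
    field_simp
  · intro hσ
    have e0 : ∑ j, (μ j - m) = 0 := by
      by_contra hne
      apply hσ
      beta_reduce
      rw [sub_self, zero_pow hne, zero_mul, zero_div]
    have e1 : ∀ j, μ j = μ j / m * m := by
      intro j
      have h2 : μ j - m = 0 := by
        have := (Finset.sum_eq_zero_iff.mp e0) j (Finset.mem_univ _)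
        exact this
      rcases hμ j with h | h
      · rw [h]; simp
      · have h3 : μ j = m := by omega
        rw [h3, Nat.div_self hm, one_mul]
    choose r hr hrg using fun j => exists_root (hg j) (hg0 j) hm
    obtain ⟨x, hx⟩ : ∃ x : ℂ → EuclideanSpace ℂ H, x = fun z =>
      WithLp.toLp 2 (fun j => (z - z₁) ^ (μ j / m) * r j z) := ⟨_, rfl⟩
    have hxan : AnalyticAt ℂ x z₁ := by
      have h1 : AnalyticAt ℂ (fun z => fun j => (z - z₁) ^ (μ j / m) * r j z) z₁ := by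
        rw [analyticAt_pi_iff]
        intro j
        exact (hsub.pow _).mul (hr j)
      have h2 : x = (EuclideanSpace.equiv H ℂ).symm ∘
        (fun z => fun j => (z - z₁) ^ (μ j / m) * r j z) := by
        rw [hx]; rfl
      rw [h2]
      exact (((EuclideanSpace.equiv H ℂ).symm : (H → ℂ) →L[ℂ] EuclideanSpace ℂ H).analyticAt
        _).comp h1
    have hxj : ∀ z j, x z j = (z - z₁) ^ (μ j / m) * r j z := by
      intro z j
      rw [hx]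
    have hpow : ∀ j, ∀ᶠ z in 𝓝 z₁, p j ⬝ᵥ y z = x z j ^ m := by
      intro j
      filter_upwards [hlg j, hrg j] with z g1 g2
      rw [g1, hxj, mul_pow, g2, ← pow_mul, ← e1]
    refine ⟨x, hxan, ?_⟩
    rw [Filter.eventually_all]
    intro j
    have h5 : (fun z => p j ⬝ᵥ y z) =ᶠ[𝓝 z₁] fun z => x z j ^ m := hpow j
    filter_upwards [hpow j, h5.deriv, hxan.eventually_analyticAt, hy.eventually_analyticAt]
      with z g1 g2 g3 g4
    refine ⟨g1, ?_⟩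
    rw [← deriv_dotProduct g4, g2]
    have h6 : HasDerivAt x (deriv x z) z := g3.differentiableAt.hasDerivAt
    have h7 : HasDerivAt (fun z => x z j) (deriv x z j) z := by
      have := (EuclideanSpace.proj (𝕜 := ℂ) j).hasFDerivAt.comp_hasDerivAt z h6
      exact this
    exact (h7.pow m).deriv

end local_structure

end Pool.Agent.Lib.GGL
end
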