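import Mathlib
import Pool.Agent.Lib.MP_8d161d_ag.VG.VDefs

section

/-!
Transcendence degree of the generic one-jet.
-/

open Filter Topology MvPolynomial Module

namespace Pool.Agent.Lib.GGL.VG

section T14aux

variable {σ : Type*} [Fintype σ] {K : Type*} [Field K] {E : Type*} [Field E] [Algebra K E]

/-- The directional derivative of `G` at `y` in the direction `Z`. -/
noncomputable def t14D (y Z : σ → E) (G : MvPolynomial σ K) : E :=
  ∑ j, aeval y (pderiv j G) * Z j

lemma t14D_add (y Z : σ → E) (G H : MvPolynomial σ K) :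
    t14D y Z (G + H) = t14D y Z G + t14D y Z H := by
  simp only [t14D, map_add, add_mul, Finset.sum_add_distrib]

lemma t14D_mul (y Z : σ → E) (G H : MvPolynomial σ K) :
    t14D y Z (G * H) = aeval y G * t14D y Z H + aeval y H * t14D y Z G := by
  simp only [t14D, Derivation.leibniz, smul_eq_mul, map_add, map_mul, add_mul,
    Finset.sum_add_distrib, Finset.mul_sum]
  congr 1 <;> exact Finset.sum_congr rfl fun j _ => by ring

lemma t14D_C (y Z : σ → E) (c : K) : t14D y Z (C c) = 0 := by
  simp [t14D]

lemma t14D_X (y Z : σ → E) (i : σ) : t14D y Z (X i : MvPolynomial σ K) = Z i := by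
  classical
  simp only [t14D, pderiv_X]
  rw [Finset.sum_eq_single i]
  · simp
  · intro j _ hj
    rw [Pi.single_eq_of_ne (Ne.symm hj)]
    simp
  · simp

lemma t14D_X_pow (y Z : σ → E) (i : σ) (n : ℕ) :
    t14D y Z ((X i : MvPolynomial σ K) ^ n) = n * y i ^ (n - 1) * Z i := by
  induction n with
  | zero => simpa using t14D_C y Z (1 : K)
  | succ n ih =>
    rw [pow_succ, t14D_mul, ih, t14D_X, map_pow, aeval_X]
    rcases n with _ | n
    · simp
    · simp only [Nat.add_sub_cancel]
      push_cast
      ring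

/-- The chain rule. -/
lemma t14_hasDerivAt {K : Type*} [Field K] [Algebra K ℂ] {γ : ℂ → σ → ℂ} {v : σ → ℂ} {z : ℂ}
    (hγ : HasDerivAt γ v z) (G : MvPolynomial σ K) :
    HasDerivAt (fun t => aeval (γ t) G) (t14D (γ z) v G) z := by
  have hj := hasDerivAt_pi.mp hγ
  induction G using MvPolynomial.induction_on with
  | C c =>
    rw [t14D_C]
    simp only [algHom_C]
    exact hasDerivAt_const _ _
  | add p q hp hq =>
    rw [t14D_add]
    simp only [map_add]
    exact hp.add hq
  | mul_X p i hp =>
    rw [t14D_mul, t14D_X]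
    simp only [map_mul, aeval_X]
    exact (hp.mul (hj i)).congr_deriv (by ring)

/-- Implicit differentiation. -/
lemma t14_implicit [CharZero E] {y Z : σ → E}
    (hD : ∀ G : MvPolynomial σ K, aeval y G = 0 → t14D y Z G = 0) (B : Finset σ) (i : σ)
    (F : Subalgebra K E) (hF : ∀ x ∈ F, x⁻¹ ∈ F) (hyF : ∀ j ∈ B, y j ∈ F) (hZF : ∀ j ∈ B, Z j ∈ F)
    (hyi : y i ∈ F)
    (hi : IsAlgebraic (Algebra.adjoin K (Set.range fun b : B => y b)) (y i)) : Z i ∈ F := by
  classical
  set φ : MvPolynomial B K →ₐ[K] E := aeval (fun b : B => y b) with hφ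
  rw [Algebra.adjoin_range_eq_range_aeval] at hi
  change IsAlgebraic φ.range (y i) at hi
  -- a polynomial of minimal degree
  have hex : ∃ n : ℕ, ∃ g : Polynomial φ.range, g ≠ 0 ∧ g.natDegree = n ∧
      Polynomial.aeval (y i) g = 0 := by
    obtain ⟨g, hg, hg'⟩ := hi
    exact ⟨g.natDegree, g, hg, rfl, hg'⟩
  obtain ⟨g, hg0, hgn, hgy⟩ := Nat.find_spec hex
  have hmin : ∀ g' : Polynomial φ.range, g' ≠ 0 → g'.natDegree < g.natDegree →
      Polynomial.aeval (y i) g' ≠ 0 := by
    intro g' hg' hlt h0
    rw [hgn] at hlt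
    exact Nat.find_min hex hlt ⟨g', hg', rfl, h0⟩
  have hdeg : g.natDegree ≠ 0 := by
    intro h0
    rw [Polynomial.eq_C_of_natDegree_eq_zero h0] at hgy hg0
    rw [Polynomial.aeval_C] at hgy
    apply hg0
    have : g.coeff 0 = 0 := by
      apply (FaithfulSMul.algebraMap_injective φ.range E)
      rw [hgy, map_zero]
    rw [this, map_zero]
  have hder : Polynomial.aeval (y i) (Polynomial.derivative g) ≠ 0 := by
    apply hmin
    · intro h0
      exact hdeg (Polynomial.derivative_eq_zero.mp h0)
    · exact Polynomial.natDegree_derivative_lt hdeg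
  -- lift it
  obtain ⟨G₁, hG₁⟩ := Polynomial.map_surjective (φ.rangeRestrict : MvPolynomial B K →+* φ.range)
    φ.rangeRestrict_surjective g
  let ρ : MvPolynomial B K →+* MvPolynomial σ K := (rename (Subtype.val : B → σ)).toRingHom
  have hρ : ∀ c, aeval y (ρ c) = φ c := by
    intro c
    change aeval y (rename (Subtype.val : B → σ) c) = φ c
    rw [aeval_rename, hφ]
    rfl
  have hφF : ∀ c, φ c ∈ F := by
    intro c
    induction c using MvPolynomial.induction_on with
    | C c =>
      rw [hφ, algHom_C]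
      exact F.algebraMap_mem c
    | add p q hp hq =>
      rw [map_add]
      exact F.add_mem hp hq
    | mul_X p j hp =>
      rw [map_mul]
      refine F.mul_mem hp ?_
      rw [hφ, aeval_X]
      exact hyF j j.2
  have hDF : ∀ c, t14D y Z (ρ c) ∈ F := by
    intro c
    induction c using MvPolynomial.induction_on with
    | C c =>
      have : ρ (C c) = C c := by
        change rename (Subtype.val : B → σ) (C c) = C c
        rw [rename_C]
      rw [this, t14D_C]
      exact F.zero_mem
    | add p q hp hq =>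
      rw [map_add, t14D_add]
      exact F.add_mem hp hq
    | mul_X p j hp =>
      have : ρ (X j) = X (j : σ) := by
        change rename (Subtype.val : B → σ) (X j) = X (j : σ)
        rw [rename_X]
      rw [map_mul, t14D_mul, this, t14D_X, hρ, aeval_X]
      exact F.add_mem (F.mul_mem (hφF p) (hZF j j.2)) (F.mul_mem (hyF j j.2) hp)
  have hmain : ∀ H : Polynomial (MvPolynomial B K), ∃ r ∈ F,
      t14D y Z (Polynomial.eval₂ ρ (X i) H) =
        r + Polynomial.eval₂ (φ : MvPolynomial B K →+* E) (y i) (Polynomial.derivative H) * Z i := by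
    intro H
    induction H using Polynomial.induction_on' with
    | add p q hp hq =>
      obtain ⟨r, hr, h1⟩ := hp
      obtain ⟨r', hr', h2⟩ := hq
      refine ⟨r + r', F.add_mem hr hr', ?_⟩
      rw [Polynomial.eval₂_add, t14D_add, h1, h2, map_add, Polynomial.eval₂_add]
      ring
    | monomial n c =>
      refine ⟨y i ^ n * t14D y Z (ρ c), F.mul_mem (F.pow_mem hyi n) (hDF c), ?_⟩
      rw [Polynomial.eval₂_monomial, t14D_mul, t14D_X_pow, hρ, map_pow, aeval_X,
        Polynomial.derivative_monomial, Polynomial.eval₂_monomial, map_mul, map_natCast]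
      change _ = y i ^ n * t14D y Z (ρ c) + φ c * (n : E) * y i ^ (n - 1) * Z i
      ring
  have heval : ∀ H : Polynomial (MvPolynomial B K),
      Polynomial.eval₂ (φ : MvPolynomial B K →+* E) (y i) H =
        Polynomial.aeval (y i) (Polynomial.map (φ.rangeRestrict : MvPolynomial B K →+* φ.range) H) := by
    intro H
    rw [Polynomial.aeval_def, Polynomial.eval₂_map]
    rfl
  have hG0 : aeval y (Polynomial.eval₂ ρ (X i) G₁) = 0 := by
    have h1 : aeval y (Polynomial.eval₂ ρ (X i) G₁) =
        Polynomial.eval₂ (φ : MvPolynomial B K →+* E) (y i) G₁ := by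
      have h2 := Polynomial.hom_eval₂ G₁ ρ ((aeval y : MvPolynomial σ K →ₐ[K] E) : MvPolynomial σ K →+* E) (X i)
      have h3 : (((aeval y : MvPolynomial σ K →ₐ[K] E) : MvPolynomial σ K →+* E).comp ρ) =
          (φ : MvPolynomial B K →+* E) := by
        apply RingHom.ext
        intro c
        exact hρ c
      rw [h3] at h2
      simp only [RingHom.coe_coe, aeval_X] at h2
      exact h2
    rw [h1, heval, hG₁, hgy]
  obtain ⟨r, hr, h1⟩ := hmain G₁
  rw [hD _ hG0, heval, ← Polynomial.derivative_map, hG₁] at h1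
  have hdF : Polynomial.aeval (y i) (Polynomial.derivative g) ∈ F := by
    rw [← hG₁, Polynomial.derivative_map, ← heval, Polynomial.eval₂_eq_sum_range]
    exact F.sum_mem fun n _ => F.mul_mem (hφF _) (F.pow_mem hyi n)
  have h2 : Z i = -r * (Polynomial.aeval (y i) (Polynomial.derivative g))⁻¹ := by
    field_simp
    linear_combination -h1
  rw [h2]
  exact F.mul_mem (F.neg_mem hr) (hF _ hdF)

end T14aux

theorem trdeg_tangent {M D : ℕ} {Y : ℂ → ℂ → Fin (M + 1) → ℂ} (hY : LiftFamily Y)
    {K : Type*} [Field K] [Algebra K ℂ]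
    {w : (Fin (M + 1) → ℂ) × (Fin (M + 1) → ℂ)} (hw : w ∈ jets Y) (hw0 : w.1 ≠ 0)
    (hgen : ∀ G : MvPolynomial (Fin (M + 1) ⊕ Fin (M + 1)) K,
      aeval (Sum.elim w.1 w.2) G = 0 → ∀ w' ∈ jets Y, aeval (Sum.elim w'.1 w'.2) G = 0)
    (hD : TrdegLE K w.1 D) : TrdegLE K (Sum.elim w.1 w.2) (2 * D) := by
  classical
  obtain ⟨z, a, b, s, hwz⟩ := hw
  -- the relation
  have hrel : ∀ G : MvPolynomial (Fin (M + 1)) K, aeval w.1 G = 0 → t14D w.1 w.2 G = 0 := by
    intro G hG
    have h1 : ∀ w' ∈ jets Y, aeval w'.1 G = 0 := by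
      intro w' hw'
      have h2 := hgen (rename Sum.inl G) (by
        rw [aeval_rename, Sum.elim_comp_inl]
        exact hG) w' hw'
      rwa [aeval_rename, Sum.elim_comp_inl] at h2
    let γ : ℂ → Fin (M + 1) → ℂ := fun t => (a * Complex.exp (s * (t - z))) • Y z t
    have h3 : ∀ᶠ t in 𝓝 z, aeval (γ t) G = 0 := by
      filter_upwards [hY.2.2 z] with t ⟨l, hl1, hl2, hl3⟩
      have h4 : Y t t = l t • Y z t := hl3.self_of_nhds
      have h5 : γ t = (a * Complex.exp (s * (t - z)) * (l t)⁻¹) • Y t t := by
        rw [h4, smul_smul, mul_assoc, inv_mul_cancel₀ hl2, mul_one]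
      rw [h5]
      exact h1 ((a * Complex.exp (s * (t - z)) * (l t)⁻¹) • Y t t, (0 : ℂ) • (deriv (Y t) t + (0 : ℂ) • Y t t))
        ⟨t, _, 0, 0, rfl⟩
    have hYd : HasDerivAt (Y z) (deriv (Y z) z) z := (hY.1 z).differentiableAt.hasDerivAt
    have hγ : HasDerivAt γ (a • (deriv (Y z) z + s • Y z z)) z := by
      have h6 : HasDerivAt (fun t : ℂ => a * Complex.exp (s * (t - z))) (a * s) z := by
        have h7 : HasDerivAt (fun t : ℂ => s * (t - z)) s z := by
          simpa using ((hasDerivAt_id z).sub_const z).const_mul s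
        have h8 := (h7.cexp).const_mul a
        simpa using h8
      refine (h6.smul hYd).congr_deriv ?_
      simp only [sub_self, mul_zero, Complex.exp_zero, mul_one]
      module
    have h4 := t14_hasDerivAt hγ G
    have h5 : HasDerivAt (fun t => aeval (γ t) G) 0 z :=
      (hasDerivAt_const z (0 : ℂ)).congr_of_eventuallyEq h3
    have h6 : t14D (γ z) (a • (deriv (Y z) z + s • Y z z)) G = 0 := h4.unique h5
    have h7 : γ z = w.1 := by
      simp [γ, hwz]
    rw [h7] at h6
    have ha : a ≠ 0 := by
      rintro rfl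
      apply hw0
      rw [hwz]
      simp
    have h8 : w.2 = (b / a) • (a • (deriv (Y z) z + s • Y z z)) := by
      rw [smul_smul, div_mul_cancel₀ _ ha, hwz]
    have h9 : t14D w.1 w.2 G = (b / a) * t14D w.1 (a • (deriv (Y z) z + s • Y z z)) G := by
      conv_lhs => rw [h8]
      simp only [t14D, Finset.mul_sum]
      apply Finset.sum_congr rfl
      intro j _
      rw [Pi.smul_apply, smul_eq_mul]
      ring
    rw [h9, h6, mul_zero]
  -- the matroid
  let Mt := AlgebraicIndependent.matroid K ℂ
  obtain ⟨X₀, hX₀⟩ := Mt.exists_isBasis (Set.range w.1) (Set.subset_univ _)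
  have hX₀' := AlgebraicIndependent.matroid_isBasis_iff.mp hX₀
  have hX₀fin : X₀ ⊆ Set.range w.1 := hX₀.subset
  -- indices
  obtain ⟨B, hBinj, hBX⟩ : ∃ B : Finset (Fin (M + 1)), Set.InjOn w.1 B ∧
      w.1 '' (B : Set (Fin (M + 1))) = X₀ := by
    obtain ⟨B', hB'1, hB'2⟩ := Set.exists_image_eq_injOn_of_subset_range hX₀fin
    refine ⟨B'.toFinset, ?_, ?_⟩
    · rwa [Set.coe_toFinset]
    · rwa [Set.coe_toFinset]
  have hrange : Set.range (fun b : B => w.1 b) = X₀ := by
    rw [← hBX]
    ext x
    simp
  have hBind : AlgebraicIndependent K (fun b : B => w.1 b) := by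
    have h1 : AlgebraicIndepOn K id X₀ := AlgebraicIndependent.matroid_indep_iff.mp hX₀.indep
    have h2 := h1.comp (fun b : B => (⟨w.1 b, by rw [← hrange]; exact ⟨b, rfl⟩⟩ : X₀)) (by
      intro b b' hbb'
      have h3 : w.1 b = w.1 b' := congrArg Subtype.val hbb'
      exact Subtype.ext (hBinj b.2 b'.2 h3))
    exact h2
  have hBcard : B.card ≤ D := hD B hBind
  -- the closure
  obtain ⟨T, hT⟩ : ∃ T : Set ℂ, T = w.1 '' (B : Set (Fin (M + 1))) ∪ w.2 '' (B : Set (Fin (M + 1))) :=
    ⟨_, rfl⟩
  let F : Subalgebra K ℂ := (Subalgebra.algebraicClosure (Algebra.adjoin K T) ℂ).restrictScalars K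
  have hFcl : (F : Set ℂ) = Mt.closure T := by
    rw [AlgebraicIndependent.matroid_closure_eq]
    rfl
  have hTF : T ⊆ F := by
    rw [hFcl]
    exact Mt.subset_closure T (Set.subset_univ _)
  have hFinv : ∀ x ∈ F, x⁻¹ ∈ F := by
    intro x hx
    have h1 : IsAlgebraic (Algebra.adjoin K T) x := hx
    exact h1.inv
  have hyF : ∀ i, w.1 i ∈ F := by
    intro i
    have h1 : w.1 i ∈ Mt.closure X₀ :=
      hX₀.subset_closure ⟨i, rfl⟩
    have h2 : Mt.closure X₀ ⊆ Mt.closure T := by
      apply Mt.closure_subset_closure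
      rw [← hBX, hT]
      exact Set.subset_union_left
    have h3 := h2 h1
    rw [← hFcl] at h3
    exact h3
  have hZF : ∀ i, w.2 i ∈ F := by
    intro i
    apply t14_implicit hrel B i F hFinv (fun j _ => hyF j) _ (hyF i)
    · rw [hrange]
      exact hX₀'.2.2 (w.1 i) ⟨i, rfl⟩
    · intro j hj
      apply hTF
      rw [hT]
      exact Or.inr ⟨j, hj, rfl⟩
  intro C hC
  have hCinj : Function.Injective (fun c : C => Sum.elim w.1 w.2 c) := hC.injective
  have h1 : Mt.Indep (Set.range (fun c : C => Sum.elim w.1 w.2 c)) := by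
    rw [AlgebraicIndependent.matroid_indep_iff]
    exact hC.to_subtype_range
  have h2 : (C.card : ℕ∞) = (Set.range (fun c : C => Sum.elim w.1 w.2 c)).encard := by
    rw [← Set.image_univ, hCinj.encard_image, Set.encard_univ, ENat.card_eq_coe_fintype_card,
      Fintype.card_coe]
  have h3 : Set.range (fun c : C => Sum.elim w.1 w.2 c) ⊆ Mt.closure T := by
    rw [← hFcl]
    rintro x ⟨⟨c, hc⟩, rfl⟩
    rcases c with c | c
    · exact hyF c
    · exact hZF c
  have h4 : (C.card : ℕ∞) ≤ ((2 * D : ℕ) : ℕ∞) := by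
    calc (C.card : ℕ∞) = (Set.range (fun c : C => Sum.elim w.1 w.2 c)).encard := h2
      _ ≤ Mt.eRk (Mt.closure T) := h1.encard_le_eRk_of_subset h3
      _ = Mt.eRk T := Mt.eRk_closure_eq T
      _ ≤ T.encard := Mt.eRk_le_encard T
      _ ≤ (w.1 '' (B : Set (Fin (M + 1)))).encard + (w.2 '' (B : Set (Fin (M + 1)))).encard := by
        rw [hT]
        exact Set.encard_union_le _ _
      _ ≤ (B : Set (Fin (M + 1))).encard + (B : Set (Fin (M + 1))).encard :=
        add_le_add (Set.encard_image_le _ _) (Set.encard_image_le _ _)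
      _ = ((B.card + B.card : ℕ) : ℕ∞) := by
        rw [Set.encard_coe_eq_coe_finsetCard]
        push_cast
        rfl
      _ ≤ ((2 * D : ℕ) : ℕ∞) := by
        exact_mod_cast (by omega : B.card + B.card ≤ 2 * D)
  exact_mod_cast h4

end Pool.Agent.Lib.GGL.VG
end

section

/-!
Independent blocks, and the field of definition.
-/

open Filter Topology MvPolynomial Module

namespace Pool.Agent.Lib.GGL.VG

theorem exists_indep_blocks {K E σ : Type*} [Field K] [Field E] [Algebra K E] [Finite σ]
    {N M D : ℕ} {P : Fin N × Fin M → E} (hP : AlgebraicIndependent K P) {w : σ → E}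
    (hw : TrdegLE K w D) :
    ∃ (A : Finset (Fin N)) (F : Subalgebra K E), N ≤ A.card + D ∧ (∀ i, w i ∈ F) ∧
      AlgebraicIndependent F (fun x : A × Fin M => P (x.1, x.2)) := by
  classical
  let MM := AlgebraicIndependent.matroid K E
  obtain ⟨X₀, hX₀⟩ := MM.exists_isBasis (Set.range w) (Set.subset_univ _)
  have hX₀' := AlgebraicIndependent.matroid_isBasis_iff.mp hX₀
  have hSind : MM.Indep (Set.range P) := by
    rw [AlgebraicIndependent.matroid_indep_iff]
    exact hP.to_subtype_range
  obtain ⟨J, hJ, hXJ⟩ := hX₀.indep.subset_isBasis_of_subset (X := X₀ ∪ Set.range P)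
    Set.subset_union_left (Set.subset_univ _)
  have hJind : AlgebraicIndepOn K id J := AlgebraicIndependent.matroid_indep_iff.mp hJ.indep
  have hcard : (Set.range P).encard ≤ J.encard := by
    rw [hJ.encard_eq_eRk]
    exact hSind.encard_le_eRk_of_subset Set.subset_union_right
  have hPinj : Function.Injective P := hP.injective
  -- the basis has at most `D` members
  have hX₀card : X₀.encard ≤ D := by
    have hfin : X₀.Finite := (Set.finite_range w).subset hX₀'.2.1
    rcases isEmpty_or_nonempty σ with hσ | hσ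
    · have h0 : X₀ = ∅ := by
        rw [Set.eq_empty_iff_forall_notMem]
        intro x hx
        obtain ⟨i, -⟩ := hX₀'.2.1 hx
        exact hσ.elim i
      rw [h0, Set.encard_empty]
      exact zero_le
    have hex : ∀ x, ∃ i, x ∈ X₀ → w i = x := by
      intro x
      by_cases hx : x ∈ X₀
      · obtain ⟨i, hi⟩ := hX₀'.2.1 hx
        exact ⟨i, fun _ => hi⟩
      · exact ⟨Classical.arbitrary σ, fun h => absurd h hx⟩
    choose u hu using hex
    have hinj : Set.InjOn u X₀ := by
      intro a ha b hb h
      rw [← hu a ha, ← hu b hb, h]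
    have hB := hw (hfin.toFinset.image u) (by
      have h1 : AlgebraicIndepOn K id X₀ := hX₀'.1
      let e : {x // x ∈ hfin.toFinset.image u} → X₀ := fun b => ⟨w b, by
        obtain ⟨b, hb⟩ := b
        rw [Finset.mem_image] at hb
        obtain ⟨a, ha, rfl⟩ := hb
        have ha' : a ∈ X₀ := by simpa using ha
        simpa [hu a ha'] using ha'⟩
      have he : Function.Injective e := by
        rintro ⟨b, hb⟩ ⟨b', hb'⟩ h
        have h2 : w b = w b' := congrArg (fun t : X₀ => (t : E)) h
        rw [Finset.mem_image] at hb hb'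
        obtain ⟨a, ha, rfl⟩ := hb
        obtain ⟨a', ha', rfl⟩ := hb'
        have ha1 : a ∈ X₀ := by simpa using ha
        have ha2 : a' ∈ X₀ := by simpa using ha'
        rw [hu a ha1, hu a' ha2] at h2
        subst h2
        rfl
      exact h1.comp e he)
    rw [Finset.card_image_of_injOn (by simpa using hinj)] at hB
    rw [hfin.encard_eq_coe_toFinset_card]
    exact_mod_cast hB
  -- the good indices
  obtain ⟨T, hT⟩ : ∃ T : Finset (Fin N × Fin M),
      T = Finset.univ.filter fun t => P t ∉ X₀ ∧ P t ∈ J := ⟨_, rfl⟩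
  have hJsub : J ⊆ X₀ ∪ P '' (T : Set (Fin N × Fin M)) := by
    intro x hx
    by_cases hx0 : x ∈ X₀
    · exact Or.inl hx0
    · right
      rcases hJ.subset hx with h | h
      · exact absurd h hx0
      · obtain ⟨t, rfl⟩ := h
        exact ⟨t, by rw [hT]; simp [hx0, hx], rfl⟩
  have hTcard : Fintype.card (Fin N × Fin M) ≤ D + T.card := by
    have h1 : ((Fintype.card (Fin N × Fin M) : ℕ) : ℕ∞) = (Set.range P).encard := by
      rw [← Set.image_univ, hPinj.encard_image, Set.encard_univ, ENat.card_eq_coe_fintype_card]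
    have h2 : ((Fintype.card (Fin N × Fin M) : ℕ) : ℕ∞) ≤ (D : ℕ∞) + (T.card : ℕ∞) := by
      rw [h1]
      calc (Set.range P).encard ≤ J.encard := hcard
        _ ≤ (X₀ ∪ P '' (T : Set (Fin N × Fin M))).encard := Set.encard_le_encard hJsub
        _ ≤ X₀.encard + (P '' (T : Set (Fin N × Fin M))).encard := Set.encard_union_le _ _
        _ ≤ D + T.card := by
          gcongr
          exact (Set.encard_image_le _ _).trans (Set.encard_coe_eq_coe_finsetCard T).le
    exact_mod_cast h2
  obtain ⟨A, hA⟩ : ∃ A : Finset (Fin N), A = Finset.univ.filter fun j => ∀ i, (j, i) ∈ T :=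
    ⟨_, rfl⟩
  have hAmem : ∀ j ∈ A, ∀ i, P (j, i) ∉ X₀ ∧ P (j, i) ∈ J := by
    intro j hj i
    rw [hA, Finset.mem_filter] at hj
    have := hj.2 i
    rw [hT, Finset.mem_filter] at this
    exact this.2
  have hAcard : N ≤ A.card + D := by
    have h1 : Aᶜ ⊆ Tᶜ.image Prod.fst := by
      intro j hj
      rw [Finset.mem_compl, hA, Finset.mem_filter] at hj
      push Not at hj
      obtain ⟨i, hi⟩ := hj (Finset.mem_univ _)
      rw [Finset.mem_image]
      exact ⟨(j, i), Finset.mem_compl.mpr hi, rfl⟩
    have h2 : Aᶜ.card ≤ Tᶜ.card := (Finset.card_le_card h1).trans Finset.card_image_le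
    rw [Finset.card_compl, Finset.card_compl, Fintype.card_fin] at h2
    have h3 := Finset.card_le_univ A
    rw [Fintype.card_fin] at h3
    have h4 := Finset.card_le_univ T
    omega
  have hind : AlgebraicIndependent (Algebra.adjoin K X₀) (fun x : A × Fin M => P (x.1, x.2)) := by
    have h1 := AlgebraicIndependent.adjoin_of_disjoint (x := fun i : J => (i : E)) hJind
      (s := {i : J | (i : E) ∈ X₀}) (t := {i : J | (i : E) ∉ X₀}) (by
        rw [Set.disjoint_left]
        intro i h1 h2
        exact h2 h1)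
    have h2 : (fun i : J => (i : E)) '' {i : J | (i : E) ∈ X₀} = X₀ := by
      ext x
      constructor
      · rintro ⟨i, hi, rfl⟩
        exact hi
      · intro hx
        exact ⟨⟨x, hXJ hx⟩, hx, rfl⟩
    rw [h2] at h1
    exact h1.comp (fun x : A × Fin M => ⟨⟨P (x.1, x.2), (hAmem x.1 x.1.2 x.2).2⟩,
      (hAmem x.1 x.1.2 x.2).1⟩) (by
        rintro ⟨j, i⟩ ⟨j', i'⟩ h
        have h3 : P ((j : Fin N), i) = P ((j' : Fin N), i') :=
          congrArg (fun t => (t.1 : E)) h
        have h4 := hPinj h3
        rw [Prod.mk.injEq] at h4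
        exact Prod.ext (Subtype.ext h4.1) h4.2)
  refine ⟨A, (Subalgebra.algebraicClosure (Algebra.adjoin K X₀) E).restrictScalars K, hAcard,
    ?_, ?_⟩
  · intro i
    exact hX₀'.2.2 (w i) ⟨i, rfl⟩
  · exact hind.subalgebraAlgebraicClosure

theorem exists_field {M n : ℕ} (I : Ideal (MvPolynomial (Fin (M + 1)) ℂ))
    (hI : Algebra.trdeg ℂ (MvPolynomial (Fin (M + 1)) ℂ ⧸ I) ≤ n) :
    ∃ K : Subfield ℂ, Countable K ∧ ∀ y : Fin (M + 1) → ℂ, (∀ g ∈ I, eval y g = 0) →
      TrdegLE K y n := by
  classical
  have hnot : ∀ B : Finset (Fin (M + 1)), n < B.card → ∃ G : MvPolynomial B ℂ, G ≠ 0 ∧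
      rename (fun b : B => (b : Fin (M + 1))) G ∈ I := by
    intro B hB
    by_contra hcon
    push Not at hcon
    have hind : AlgebraicIndependent ℂ
        (fun b : B => Ideal.Quotient.mk I (X (b : Fin (M + 1)))) := by
      rw [algebraicIndependent_iff]
      intro G hG
      by_contra h0
      apply hcon G h0
      rw [← Ideal.Quotient.eq_zero_iff_mem, ← hG]
      have h1 : (Ideal.Quotient.mkₐ ℂ I).comp (rename (fun b : B => (b : Fin (M + 1)))) =
          aeval (fun b : B => Ideal.Quotient.mk I (X (b : Fin (M + 1)))) := by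
        ext b
        simp
      exact DFunLike.congr_fun h1 G
    have h2 := hind.lift_cardinalMk_le_trdeg
    have h3 := h2.trans (Cardinal.lift_le.mpr hI)
    simp at h3
    omega
  choose! G hG0 hGI using hnot
  let S : Set ℂ := ⋃ B : Finset (Fin (M + 1)), ((G B).coeffs : Set ℂ)
  have hS : S.Countable := Set.countable_iUnion fun B => (G B).coeffs.countable_toSet
  refine ⟨Subfield.closure S, ?_, ?_⟩
  · rw [← Cardinal.mk_le_aleph0_iff]
    refine (Subfield.cardinalMk_closure_le_max S).trans ?_
    rw [max_le_iff]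
    exact ⟨Cardinal.mk_le_aleph0_iff.mpr hS.to_subtype, le_rfl⟩
  · intro y hy B' hB'
    by_contra hlt
    push Not at hlt
    obtain ⟨B, hBB', hB⟩ := Finset.exists_subset_card_eq (show n + 1 ≤ B'.card from hlt)
    have hBn : n < B.card := by omega
    have hind : AlgebraicIndependent (Subfield.closure S) (fun b : B => y b) :=
      hB'.comp (fun b : B => ⟨b.1, hBB' b.2⟩) (by
        intro a b h
        exact Subtype.ext (congrArg (fun t : B' => (t : Fin (M + 1))) h))
    have hmem : G B ∈ Set.range (MvPolynomial.map (algebraMap (Subfield.closure S) ℂ)) := by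
      rw [mem_range_map_iff_coeffs_subset]
      intro z hz
      exact ⟨⟨z, Subfield.subset_closure (Set.mem_iUnion.mpr ⟨B, hz⟩)⟩, rfl⟩
    obtain ⟨H, hH⟩ := hmem
    have h1 : aeval (fun b : B => y b) H = 0 := by
      have h2 := hy _ (hGI B hBn)
      rw [eval_rename, ← hH, eval_map] at h2
      exact h2
    have h3 := (algebraicIndependent_iff.mp hind) H h1
    apply hG0 B hBn
    rw [← hH, h3, map_zero]

end Pool.Agent.Lib.GGL.VG
end

section

/-!
Growth of spans of monomials.
-/

open Filter Topology MvPolynomial Module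
open scoped Pointwise

namespace Pool.Agent.Lib.GGL.VG

section aux

variable {K E : Type*} [Field K] [Field E] [Algebra K E]

lemma smr {M N P : Submodule K E} (h : N ≤ P) : M * N ≤ M * P := mul_le_mul' le_rfl h

lemma sml {M N P : Submodule K E} (h : M ≤ P) : M * N ≤ P * N := mul_le_mul' h le_rfl

lemma sub_pow_mono {A : Submodule K E} (hA : 1 ≤ A) {d e : ℕ} (h : d ≤ e) : A ^ d ≤ A ^ e := by
  induction e, h using Nat.le_induction with
  | base => exact le_rfl
  | succ n _ ih =>
    refine ih.trans ?_
    calc A ^ n = A ^ n * 1 := (mul_one _).symm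
      _ ≤ A ^ n * A := smr hA
      _ = A ^ (n + 1) := (pow_succ _ _).symm

lemma one_le_span_insert (s : Set E) : (1 : Submodule K E) ≤ Submodule.span K (insert 1 s) := by
  rw [Submodule.one_le]
  exact Submodule.subset_span (Set.mem_insert _ _)

lemma mem_adjoin_filtered {s : Set E} {x : E} (hx : x ∈ Algebra.adjoin K s) :
    ∃ d : ℕ, x ∈ (Submodule.span K (insert 1 s)) ^ d := by
  have h1 := one_le_span_insert (K := K) s
  induction hx using Algebra.adjoin_induction with
  | mem x hx =>
    exact ⟨1, by rw [pow_one]; exact Submodule.subset_span (Set.mem_insert_of_mem _ hx)⟩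
  | algebraMap r =>
    refine ⟨0, ?_⟩
    rw [pow_zero]
    exact Submodule.mem_one.2 ⟨r, rfl⟩
  | add x y _ _ hx hy =>
    obtain ⟨d, hd⟩ := hx
    obtain ⟨e, he⟩ := hy
    exact ⟨max d e, add_mem (sub_pow_mono h1 (le_max_left _ _) hd)
      (sub_pow_mono h1 (le_max_right _ _) he)⟩
  | mul x y _ _ hx hy =>
    obtain ⟨d, hd⟩ := hx
    obtain ⟨e, he⟩ := hy
    exact ⟨d + e, by rw [pow_add]; exact Submodule.mul_mem_mul hd he⟩

/-- The span of the monomials with exponents at most `n`. -/
def box {σ : Type*} [Fintype σ] (w : σ → E) (n : ℕ) : Submodule K E :=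
  Submodule.span K (Set.range (fun a : σ → Fin (n + 1) => ∏ b, w b ^ (a b : ℕ)))

lemma pow_le_box {σ : Type*} [Fintype σ] (w : σ → E) (n : ℕ) :
    (Submodule.span K (insert 1 (Set.range w))) ^ n ≤ box (K := K) w n := by
  classical
  induction n with
  | zero =>
    rw [pow_zero, Submodule.one_le]
    apply Submodule.subset_span
    exact ⟨fun _ => 0, by simp⟩
  | succ n ih =>
    rw [pow_succ]
    refine (sml ih).trans ?_
    unfold box
    rw [Submodule.span_mul_span, Submodule.span_le]
    rintro _ ⟨_, ⟨a, rfl⟩, y, hy, rfl⟩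
    apply Submodule.subset_span
    rcases hy with rfl | ⟨b, rfl⟩
    · refine ⟨fun b => (a b).castSucc, ?_⟩
      simp
    · refine ⟨fun c => if c = b then ⟨(a b : ℕ) + 1, by have := (a b).2; omega⟩
        else (a c).castSucc, ?_⟩
      change ∏ c, w c ^ ((if c = b then (⟨(a b : ℕ) + 1, _⟩ : Fin (n + 1 + 1))
        else (a c).castSucc : Fin (n + 1 + 1)) : ℕ) = (∏ c, w c ^ (a c : ℕ)) * w b
      rw [← Finset.mul_prod_erase Finset.univ _ (Finset.mem_univ b),
        ← Finset.mul_prod_erase Finset.univ (fun c => w c ^ (a c : ℕ)) (Finset.mem_univ b)]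
      have e1 : ∏ c ∈ Finset.univ.erase b, w c ^ ((if c = b then
          (⟨(a b : ℕ) + 1, by have := (a b).2; omega⟩ : Fin (n + 1 + 1))
          else (a c).castSucc : Fin (n + 1 + 1)) : ℕ) =
          ∏ c ∈ Finset.univ.erase b, w c ^ (a c : ℕ) := by
        apply Finset.prod_congr rfl
        intro c hc
        rw [if_neg (Finset.ne_of_mem_erase hc)]
        simp
      rw [e1, if_pos rfl]
      simp only [pow_succ]
      ring

lemma box_fg {σ : Type*} [Fintype σ] (w : σ → E) (n : ℕ) : (box (K := K) w n).FG :=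
  Submodule.fg_span (Set.finite_range _)

lemma finrank_box_mul {σ : Type*} [Fintype σ] (w : σ → E) (n : ℕ) (s : Finset E) :
    finrank K (box (K := K) w n * Submodule.span K (s : Set E) : Submodule K E) ≤
      (n + 1) ^ (Fintype.card σ) * s.card := by
  classical
  have h1 : (box (K := K) w n * Submodule.span K (s : Set E) : Submodule K E) =
      Submodule.span K (((Finset.univ.image (fun a : σ → Fin (n + 1) => ∏ b, w b ^ (a b : ℕ))) * s :
        Finset E) : Set E) := by
    unfold box
    rw [Submodule.span_mul_span, Finset.coe_mul, Finset.coe_image, Finset.coe_univ,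
      Set.image_univ]
  rw [h1]
  refine (finrank_span_finset_le_card _).trans ?_
  refine Finset.card_mul_le.trans ?_
  apply Nat.mul_le_mul_right
  refine Finset.card_image_le.trans ?_
  simp

/-- An integral element over the algebra generated by `A1`. -/
lemma integral_module {s : Set E} {v : E} (hv : IsIntegral (Algebra.adjoin K s) v) :
    ∃ (W : Submodule K E) (δ : ℕ), W.FG ∧ 1 ≤ W ∧
      Submodule.span K {v} * W ≤ (Submodule.span K (insert 1 s)) ^ δ * W := by
  classical
  have hA1 := one_le_span_insert (K := K) s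
  set A1 := Submodule.span K (insert 1 s) with hA1def
  obtain ⟨p, hp, hpv⟩ := hv
  have hdeg : 0 < p.natDegree := by
    by_contra h
    have h0 : p.natDegree = 0 := by omega
    have h1 : p = 1 := Polynomial.eq_one_of_monic_natDegree_zero hp h0
    rw [h1, Polynomial.eval₂_one] at hpv
    exact one_ne_zero hpv
  -- a uniform bound for the coefficients
  have hcoef : ∀ l : ℕ, ∃ d : ℕ, ((p.coeff l : Algebra.adjoin K s) : E) ∈ A1 ^ d := fun l =>
    mem_adjoin_filtered (p.coeff l).2
  choose d hd using hcoef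
  set δ := (Finset.range p.natDegree).sup d with hδ
  have hcoefδ : ∀ l < p.natDegree, ((p.coeff l : Algebra.adjoin K s) : E) ∈ A1 ^ δ := by
    intro l hl
    exact sub_pow_mono hA1 (Finset.le_sup (f := d) (Finset.mem_range.2 hl)) (hd l)
  refine ⟨Submodule.span K (Set.range (fun l : Fin p.natDegree => v ^ (l : ℕ))), δ,
    Submodule.fg_span (Set.finite_range _), ?_, ?_⟩
  · rw [Submodule.one_le]
    exact Submodule.subset_span ⟨⟨0, hdeg⟩, by simp⟩
  · set W := Submodule.span K (Set.range (fun l : Fin p.natDegree => v ^ (l : ℕ))) with hW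
    have hone : (1 : E) ∈ A1 ^ δ := by
      have := sub_pow_mono hA1 (Nat.zero_le δ)
      rw [pow_zero] at this
      exact Submodule.one_le.1 this
    conv_lhs => rw [hW]
    rw [Submodule.span_mul_span, Submodule.span_le]
    rintro _ ⟨x, hx, _, ⟨l, rfl⟩, rfl⟩
    rw [Set.mem_singleton_iff] at hx
    subst hx
    change x * x ^ (l : ℕ) ∈ A1 ^ δ * W
    by_cases hl : (l : ℕ) + 1 < p.natDegree
    · have h1 : x * x ^ (l : ℕ) = 1 * x ^ ((⟨(l : ℕ) + 1, hl⟩ : Fin p.natDegree) : ℕ) := by
        rw [one_mul]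
        change x * x ^ (l : ℕ) = x ^ ((l : ℕ) + 1)
        rw [pow_succ]; ring
      rw [h1]
      exact Submodule.mul_mem_mul hone (Submodule.subset_span ⟨_, rfl⟩)
    · have hl' : (l : ℕ) + 1 = p.natDegree := by have := l.2; omega
      have h1 : x * x ^ (l : ℕ) = x ^ p.natDegree := by
        have h3 : x ^ p.natDegree = x ^ ((l : ℕ) + 1) := by congr 1; exact hl'.symm
        rw [h3, pow_succ]; ring
      rw [h1]
      have h2 : x ^ p.natDegree = - ∑ i ∈ Finset.range p.natDegree,
          ((p.coeff i : Algebra.adjoin K s) : E) * x ^ i := by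
        rw [Polynomial.eval₂_eq_sum_range, Finset.sum_range_succ, hp.coeff_natDegree, map_one,
          one_mul] at hpv
        rw [eq_neg_iff_add_eq_zero, add_comm]
        exact hpv
      rw [h2]
      apply neg_mem
      apply sum_mem
      intro i hi
      rw [Finset.mem_range] at hi
      exact Submodule.mul_mem_mul (hcoefδ i hi) (Submodule.subset_span ⟨⟨i, hi⟩, rfl⟩)

end aux

theorem hilb {K E σ : Type*} [Field K] [Field E] [Algebra K E] [Finite σ] {w : σ → E} {D : ℕ}
    (h : TrdegLE K w D) : ∃ C : ℕ, ∀ r : ℕ,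
    finrank K ((Submodule.span K (insert 1 (Set.range w))) ^ r : Submodule K E) ≤
      C * (r + 1) ^ D := by
  classical
  have _ := Fintype.ofFinite σ
  -- a maximal algebraically independent subfamily
  obtain ⟨B, hB, hBmax⟩ := Finset.exists_max_image
    ((Finset.univ : Finset (Finset σ)).filter
      (fun B : Finset σ => AlgebraicIndependent K (fun b : B => w b))) Finset.card
    ⟨∅, by
      rw [Finset.mem_filter]
      refine ⟨Finset.mem_univ _, ?_⟩
      have he : IsEmpty {x : σ // x ∈ (∅ : Finset σ)} := ⟨fun x => absurd x.2 (Finset.notMem_empty _)⟩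
      rw [algebraicIndependent_empty_type_iff]
      exact (algebraMap K E).injective⟩
  rw [Finset.mem_filter] at hB
  have hBD : B.card ≤ D := h B hB.2
  have hBi : AlgebraicIndepOn K w (B : Set σ) := hB.2
  have halg : ∀ i, IsAlgebraic (Algebra.adjoin K (w '' (B : Set σ))) (w i) := by
    intro i
    by_cases hi : i ∈ B
    · exact isAlgebraic_algebraMap
        (⟨w i, Algebra.subset_adjoin ⟨i, hi, rfl⟩⟩ : Algebra.adjoin K (w '' (B : Set σ)))
    · by_contra hc
      have h1 : AlgebraicIndepOn K w (insert i (B : Set σ)) := hBi.insert hc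
      have h2 : AlgebraicIndepOn K w ((insert i B : Finset σ) : Set σ) := by
        rw [Finset.coe_insert]; exact h1
      have h3 := hBmax (insert i B) (by
        rw [Finset.mem_filter]
        exact ⟨Finset.mem_univ _, h2⟩)
      rw [Finset.card_insert_of_notMem hi] at h3
      omega
  set s : Set E := w '' (B : Set σ) with hs
  choose y hy0 hyint using fun i => (halg i).exists_integral_multiple
  set g : Algebra.adjoin K s := ∏ i, y i with hg
  have hg0 : g ≠ 0 := Finset.prod_ne_zero_iff.2 fun i _ => hy0 i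
  have hgE : (g : E) ≠ 0 := by
    intro h0
    exact hg0 (Subtype.ext h0)
  have hgint : ∀ i, IsIntegral (Algebra.adjoin K s) ((g : E) * w i) := by
    intro i
    have h1 : (g : E) * w i = (∏ j ∈ Finset.univ.erase i, y j) • (y i • w i) := by
      rw [← mul_smul, Finset.prod_erase_mul _ _ (Finset.mem_univ i)]
      rfl
    rw [h1]
    exact (hyint i).smul _
  choose W δ hWfg hW1 hWv using fun i => integral_module (hgint i)
  have hA1 := one_le_span_insert (K := K) s
  set A1 := Submodule.span K (insert 1 s) with hA1def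
  obtain ⟨d0, hd0⟩ := mem_adjoin_filtered (K := K) (s := s) g.2
  set δ' := max d0 (Finset.univ.sup δ) with hδ'
  set WW : Submodule K E := ∏ i, W i with hWW
  have hWW1 : 1 ≤ WW := by
    rw [hWW]
    apply Finset.prod_induction (s := Finset.univ) W (fun M => 1 ≤ M)
    · intro a b ha hb
      calc (1 : Submodule K E) = 1 * 1 := (mul_one _).symm
        _ ≤ a * b := mul_le_mul' ha hb
    · exact le_rfl
    · intro i _
      exact hW1 i
  have hWWfg : WW.FG := by
    rw [hWW]
    apply Finset.prod_induction (s := Finset.univ) W (fun M => M.FG)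
    · intro a b ha hb
      exact ha.mul hb
    · rw [Submodule.one_eq_span]
      exact Submodule.fg_span (Set.finite_singleton _)
    · intro i _
      exact hWfg i
  have hvW : ∀ i, Submodule.span K {(g : E) * w i} * WW ≤ A1 ^ δ' * WW := by
    intro i
    rw [hWW, ← Finset.mul_prod_erase Finset.univ W (Finset.mem_univ i), ← mul_assoc,
      ← mul_assoc]
    apply sml
    refine (hWv i).trans ?_
    apply sml
    apply sub_pow_mono hA1
    exact (Finset.le_sup (f := δ) (Finset.mem_univ i)).trans (le_max_right _ _)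
  have hgW : Submodule.span K {(g : E)} * WW ≤ A1 ^ δ' * WW := by
    apply sml
    rw [Submodule.span_singleton_le_iff_mem]
    exact sub_pow_mono hA1 (le_max_left _ _) hd0
  set P : Submodule K E := Submodule.span K (insert (g : E) (Set.range (fun i => (g : E) * w i)))
    with hP
  have hPW : P * WW ≤ A1 ^ δ' * WW := by
    rw [Submodule.mul_le]
    intro m hm n hn
    rw [hP] at hm
    induction hm using Submodule.span_induction with
    | mem x hx =>
      rcases hx with rfl | ⟨i, rfl⟩
      · exact hgW (Submodule.mul_mem_mul (Submodule.mem_span_singleton_self _) hn)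
      · exact hvW i (Submodule.mul_mem_mul (Submodule.mem_span_singleton_self _) hn)
    | zero => rw [zero_mul]; exact zero_mem _
    | add x y _ _ hx hy => rw [add_mul]; exact add_mem hx hy
    | smul c x _ hx => rw [smul_mul_assoc]; exact Submodule.smul_mem _ _ hx
  have hPr : ∀ r : ℕ, P ^ r * WW ≤ A1 ^ (δ' * r) * WW := by
    intro r
    induction r with
    | zero => simp
    | succ r ih =>
      calc P ^ (r + 1) * WW = P ^ r * (P * WW) := by rw [pow_succ, mul_assoc]
        _ ≤ P ^ r * (A1 ^ δ' * WW) := smr hPW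
        _ = A1 ^ δ' * (P ^ r * WW) := by
            rw [← mul_assoc, ← mul_assoc, mul_comm (P ^ r)]
        _ ≤ A1 ^ δ' * (A1 ^ (δ' * r) * WW) := smr ih
        _ = A1 ^ (δ' * (r + 1)) * WW := by
            rw [← mul_assoc, ← pow_add]
            congr 2
            ring
  obtain ⟨t, ht⟩ := hWWfg
  have hA1box : ∀ n : ℕ, A1 ^ n ≤ box (K := K) (fun b : B => w b) n := by
    intro n
    have h1 : Set.range (fun b : B => w b) = s := by
      rw [hs, Set.image_eq_range]
      rfl
    have h2 := pow_le_box (K := K) (fun b : B => w b) n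
    rw [h1] at h2
    exact h2
  refine ⟨(δ' + 1) ^ D * t.card, fun r => ?_⟩
  set U : Submodule K E := Submodule.span K (insert 1 (Set.range w)) with hU
  have hgU : Submodule.span K {(g : E)} * U = P := by
    rw [hU, hP, Submodule.span_mul_span]
    congr 1
    rw [Set.singleton_mul, Set.image_insert_eq, mul_one, ← Set.range_comp]
    rfl
  have hmem : ∀ x ∈ U ^ r, (g : E) ^ r * x ∈ P ^ r := by
    intro x hx
    rw [← hgU, mul_pow]
    apply Submodule.mul_mem_mul _ hx
    exact Submodule.pow_mem_pow _ (Submodule.mem_span_singleton_self _) r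
  have hle : P ^ r ≤ box (K := K) (fun b : B => w b) (δ' * r) * Submodule.span K (t : Set E) := by
    calc P ^ r = P ^ r * 1 := (mul_one _).symm
      _ ≤ P ^ r * WW := smr hWW1
      _ ≤ A1 ^ (δ' * r) * WW := hPr r
      _ ≤ box (K := K) (fun b : B => w b) (δ' * r) * WW :=
          sml (hA1box _)
      _ = box (K := K) (fun b : B => w b) (δ' * r) * Submodule.span K (t : Set E) := by rw [ht]
  have hfg : (box (K := K) (fun b : B => w b) (δ' * r) * Submodule.span K (t : Set E)).FG :=
    (box_fg _ _).mul (Submodule.fg_span t.finite_toSet)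
  have hfd : FiniteDimensional K
      (box (K := K) (fun b : B => w b) (δ' * r) * Submodule.span K (t : Set E) : Submodule K E) :=
    Module.Finite.iff_fg.2 hfg
  let f : (U ^ r : Submodule K E) →ₗ[K]
      (box (K := K) (fun b : B => w b) (δ' * r) * Submodule.span K (t : Set E) : Submodule K E) :=
    (LinearMap.mulLeft K ((g : E) ^ r)).restrict (fun x hx => hle (hmem x hx))
  have hf : Function.Injective f := by
    intro x x' hxx
    have h1 := congrArg Subtype.val hxx
    change (g : E) ^ r * (x : E) = (g : E) ^ r * (x' : E) at h1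
    exact Subtype.ext (mul_left_cancel₀ (pow_ne_zero r hgE) h1)
  have h1 := LinearMap.finrank_le_finrank_of_injective hf
  refine h1.trans ((finrank_box_mul _ _ _).trans ?_)
  rw [Fintype.card_coe]
  calc (δ' * r + 1) ^ B.card * t.card ≤ ((δ' + 1) * (r + 1)) ^ B.card * t.card := by
        apply Nat.mul_le_mul_right
        apply Nat.pow_le_pow_left
        nlinarith
    _ ≤ ((δ' + 1) * (r + 1)) ^ D * t.card := by
        apply Nat.mul_le_mul_right
        exact Nat.pow_le_pow_right (by positivity) hBD
    _ = (δ' + 1) ^ D * t.card * (r + 1) ^ D := by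
        rw [mul_pow]; ring

end Pool.Agent.Lib.GGL.VG
end
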