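import Mathlib
import Pool.Agent.Lib.MP_8d161d_ag.VG.VDefs

section

/-!
A pigeonhole lemma on scales.
-/

open Filter Topology MvPolynomial Module

namespace Pool.Agent.Lib.GGL.VG

theorem scale {h : ℕ → ℕ} {C D a ρ : ℕ} (h1 : ∀ r, 1 ≤ h r) (hC : ∀ r, h r ≤ C * (r + 1) ^ D)
    (ha : 2 ≤ a) (hρ : a ^ D < ρ) (R : ℕ) : ∃ r ≥ R, h (a * r) < ρ * h r := by
  by_contra hcon
  push Not at hcon
  set R' := max R 1 with hR'
  have hR'1 : 1 ≤ R' := le_max_right _ _
  have hRR' : R ≤ R' := le_max_left _ _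
  have hge : ∀ t : ℕ, R' ≤ a ^ t * R' := fun t =>
    Nat.le_mul_of_pos_left _ (pow_pos (by omega) t)
  have key : ∀ t : ℕ, ρ ^ t ≤ h (a ^ t * R') := by
    intro t
    induction t with
    | zero => simpa using h1 _
    | succ t ih =>
      have h2 := hcon (a ^ t * R') (hRR'.trans (hge t))
      calc ρ ^ (t + 1) = ρ * ρ ^ t := by ring
        _ ≤ ρ * h (a ^ t * R') := Nat.mul_le_mul_left _ ih
        _ ≤ h (a * (a ^ t * R')) := h2
        _ = h (a ^ (t + 1) * R') := by congr 1; ring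
  have key2 : ∀ t : ℕ, ρ ^ t ≤ (C * (2 * R') ^ D) * (a ^ D) ^ t := by
    intro t
    calc ρ ^ t ≤ h (a ^ t * R') := key t
      _ ≤ C * (a ^ t * R' + 1) ^ D := hC _
      _ ≤ C * (2 * (a ^ t * R')) ^ D := by
          apply Nat.mul_le_mul_left
          apply Nat.pow_le_pow_left
          have := hge t
          omega
      _ = (C * (2 * R') ^ D) * (a ^ D) ^ t := by
          rw [← pow_mul, mul_comm D t, pow_mul, mul_assoc C, ← mul_pow]
          congr 2
          ring
  have hm : 0 < a ^ D := pow_pos (by omega) D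
  set m := a ^ D with hmdef
  set C' := C * (2 * R') ^ D with hC'
  have h3 := key2 (m * C')
  have h4 : (m + 1) ^ (m * C') ≤ C' * m ^ (m * C') :=
    (Nat.pow_le_pow_left (by omega) _).trans h3
  have h5 : (1 + (m * C' : ℕ) * (1 / (m : ℝ))) ≤ (1 + 1 / (m : ℝ)) ^ (m * C') :=
    one_add_mul_le_pow (by have : (0 : ℝ) ≤ 1 / m := by positivity
                           linarith) _
  have hm' : (0 : ℝ) < m := by exact_mod_cast hm
  have h6 : ((m : ℝ) + 1) ^ (m * C') ≤ C' * (m : ℝ) ^ (m * C') := by exact_mod_cast h4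
  have h7 : (1 + 1 / (m : ℝ)) ^ (m * C') = ((m : ℝ) + 1) ^ (m * C') / (m : ℝ) ^ (m * C') := by
    rw [← div_pow]
    congr 1
    field_simp
  have h8 : (1 + 1 / (m : ℝ)) ^ (m * C') ≤ C' := by
    rw [h7, div_le_iff₀ (pow_pos hm' _)]
    exact h6
  have h9 : (1 + (m * C' : ℕ) * (1 / (m : ℝ))) = 1 + C' := by
    push_cast
    field_simp
  rw [h9] at h5
  linarith

end Pool.Agent.Lib.GGL.VG
end

section

/-!
Counting exponents.
-/

open Filter Topology MvPolynomial Module

namespace Pool.Agent.Lib.GGL.VG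

/-- the simplex with a slack variable -/
def simplexEquiv (q T : ℕ) :
    {f : Fin q → Fin (T + 1) // ∑ j, (f j : ℕ) ≤ T} ≃ {P : Fin (q + 1) → ℕ // ∑ i, P i = T} where
  toFun f := ⟨Fin.cons (T - ∑ j, (f.1 j : ℕ)) fun j => (f.1 j : ℕ), by
    rw [Fin.sum_univ_succ]
    simp only [Fin.cons_zero, Fin.cons_succ]
    exact Nat.sub_add_cancel f.2⟩
  invFun P := ⟨fun j => ⟨P.1 j.succ, by
      have h1 := P.2
      rw [Fin.sum_univ_succ] at h1
      have h2 : P.1 j.succ ≤ ∑ i : Fin q, P.1 i.succ :=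
        Finset.single_le_sum (f := fun i : Fin q => P.1 i.succ) (fun _ _ => Nat.zero_le _)
          (Finset.mem_univ j)
      omega⟩, by
      have h1 := P.2
      rw [Fin.sum_univ_succ] at h1
      simp only
      omega⟩
  left_inv f := by
    apply Subtype.ext
    funext j
    apply Fin.ext
    simp
  right_inv P := by
    apply Subtype.ext
    funext j
    have h1 := P.2
    rw [Fin.sum_univ_succ] at h1
    refine Fin.cases ?_ (fun i => ?_) j
    · simp only [Fin.cons_zero]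
      omega
    · simp

theorem card_simplex (q T : ℕ) :
    Fintype.card {f : Fin q → Fin (T + 1) // ∑ j, (f j : ℕ) ≤ T} = (T + q).choose q := by
  classical
  rw [Fintype.card_congr ((simplexEquiv q T).trans (Sym.equivNatSumOfFintype (Fin (q + 1)) T).symm),
    Sym.card_sym_eq_choose, Fintype.card_fin]
  have h : q + 1 + T - 1 = T + q := by omega
  rw [h]
  exact (Nat.choose_symm_add (a := T) (b := q))

theorem box_sum {q r : ℕ} (hr : 1 ≤ r) :
    (120 * r * (1 - Real.exp (-3))) ^ q ≤ ∑ β : Fin q → Fin (2 * (180 * r) + 1),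
      Real.exp (-(1 / (120 * r))) ^ (∑ j, (β j : ℕ)) := by
  have hr0 : (0 : ℝ) < r := by exact_mod_cast hr
  set x : ℝ := Real.exp (-(1 / (120 * r))) with hx
  have hx0 : 0 < x := Real.exp_pos _
  have hx1 : x < 1 := by
    rw [hx, Real.exp_lt_one_iff]
    have : (0 : ℝ) < 1 / (120 * r) := by positivity
    linarith
  have h1 : ∑ β : Fin q → Fin (2 * (180 * r) + 1), x ^ (∑ j, (β j : ℕ)) =
      (∑ a : Fin (2 * (180 * r) + 1), x ^ (a : ℕ)) ^ q := by
    have h2 := Finset.sum_pow' (Finset.univ : Finset (Fin (2 * (180 * r) + 1)))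
      (fun a => x ^ (a : ℕ)) q
    rw [h2, Fintype.piFinset_univ]
    refine Finset.sum_congr rfl fun β _ => ?_
    rw [Finset.prod_pow_eq_pow_sum]
  rw [h1]
  refine pow_le_pow_left₀ ?_ ?_ q
  · have : Real.exp (-3) ≤ 1 := Real.exp_le_one_iff.2 (by norm_num)
    have : 0 ≤ 1 - Real.exp (-3) := by linarith
    positivity
  · rw [Fin.sum_univ_eq_sum_range (fun a => x ^ a), geom_sum_eq hx1.ne]
    have h3 : x ^ (2 * (180 * r) + 1) ≤ Real.exp (-3) := by
      rw [hx, ← Real.exp_nat_mul]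
      apply Real.exp_le_exp.2
      push_cast
      rw [mul_neg, neg_le_neg_iff]
      rw [mul_one_div, le_div_iff₀ (by positivity)]
      linarith
    have h4 : 1 - x ≤ 1 / (120 * r) := by
      have := Real.add_one_le_exp (-(1 / (120 * (r : ℝ))))
      rw [← hx] at this
      linarith
    have h5 : 0 < 1 - x := by linarith
    have h6 : (x ^ (2 * (180 * r) + 1) - 1) / (x - 1) =
        (1 - x ^ (2 * (180 * r) + 1)) / (1 - x) := by
      rw [← neg_sub 1 x, ← neg_sub 1 (x ^ _), neg_div_neg_eq]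
    rw [h6, le_div_iff₀ h5]
    have h7 : 0 ≤ 1 - Real.exp (-3) := by
      have : Real.exp (-3) ≤ 1 := Real.exp_le_one_iff.2 (by norm_num)
      linarith
    calc 120 * r * (1 - Real.exp (-3)) * (1 - x)
        ≤ 120 * r * (1 - Real.exp (-3)) * (1 / (120 * r)) :=
          mul_le_mul_of_nonneg_left h4 (by positivity)
      _ = 1 - Real.exp (-3) := by field_simp
      _ ≤ _ := by linarith

theorem exists_window_nat {q r : ℕ} (hq : 1 ≤ q) (hr : 1 ≤ r) : ∃ i : ℕ, i ≤ 180 ∧
    Real.exp ((i : ℝ) * q / 60) * (120 * r * (1 - Real.exp (-3))) ^ q ≤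
      181 * ((Fintype.card {β : Fin q → Fin (2 * (180 * r) + 1) //
        2 * i * q * r ≤ ∑ j, (β j : ℕ) ∧ ∑ j, (β j : ℕ) < 2 * (i + 1) * q * r} : ℕ) : ℝ) := by
  classical
  have hr0 : (0 : ℝ) < r := by exact_mod_cast hr
  by_contra hcon
  push Not at hcon
  set S : (Fin q → Fin (2 * (180 * r) + 1)) → ℕ := fun β => ∑ j, (β j : ℕ) with hS
  set x : ℝ := Real.exp (-(1 / (120 * r))) with hx
  have hbox := box_sum (q := q) hr
  have hSle : ∀ β, S β ≤ 360 * (q * r) := by
    intro β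
    have h1 : S β ≤ ∑ _j : Fin q, 360 * r := Finset.sum_le_sum fun j _ => by
      have := (β j).isLt
      omega
    rw [Finset.sum_const, Finset.card_univ, Fintype.card_fin, smul_eq_mul] at h1
    calc S β ≤ q * (360 * r) := h1
      _ = 360 * (q * r) := by ring
  -- split in windows
  have hmaps : ∀ β ∈ (Finset.univ : Finset (Fin q → Fin (2 * (180 * r) + 1))),
      S β / (2 * (q * r)) ∈ Finset.range 181 := by
    intro β _
    rw [Finset.mem_range, Nat.div_lt_iff_lt_mul (by positivity)]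
    have := hSle β
    have h2 : 1 ≤ q * r := Nat.mul_pos hq hr
    nlinarith
  rw [← Finset.sum_fiberwise_of_maps_to hmaps] at hbox
  have hwin : ∀ i ∈ Finset.range 181, ∑ β with S β / (2 * (q * r)) = i, x ^ (S β) <
      (120 * r * (1 - Real.exp (-3))) ^ q / 181 := by
    intro i hi
    have hi' : i ≤ 180 := by
      have := Finset.mem_range.1 hi
      omega
    have h1 := hcon i hi'
    have hcard : ((Fintype.card {β : Fin q → Fin (2 * (180 * r) + 1) //
        2 * i * q * r ≤ ∑ j, (β j : ℕ) ∧ ∑ j, (β j : ℕ) < 2 * (i + 1) * q * r} : ℕ) : ℝ) =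
        ((Finset.univ.filter fun β => S β / (2 * (q * r)) = i).card : ℝ) := by
      rw [Fintype.card_subtype]
      congr 2
      ext β
      simp only [Finset.mem_filter, Finset.mem_univ, true_and]
      rw [Nat.div_eq_iff (by positivity)]
      constructor
      · rintro ⟨h3, h4⟩
        constructor
        · simp only [hS]; nlinarith
        · have : 2 * (i + 1) * q * r = i * (2 * (q * r)) + 2 * (q * r) := by ring
          simp only [hS]
          omega
      · rintro ⟨h3, h4⟩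
        constructor
        · simp only [hS] at h3; nlinarith
        · have : 2 * (i + 1) * q * r = i * (2 * (q * r)) + 2 * (q * r) := by ring
          have h5 : 0 < q * r := Nat.mul_pos hq hr
          simp only [hS] at h4
          omega
    rw [hcard] at h1
    have h2 : ∑ β with S β / (2 * (q * r)) = i, x ^ (S β) ≤
        ∑ β with S β / (2 * (q * r)) = i, Real.exp (-(i * q / 60)) := by
      refine Finset.sum_le_sum fun β hβ => ?_
      rw [Finset.mem_filter, Nat.div_eq_iff (by positivity)] at hβ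
      have h3 : i * (2 * (q * r)) ≤ S β := by
        have := hβ.2.1
        nlinarith
      rw [hx, ← Real.exp_nat_mul]
      apply Real.exp_le_exp.2
      rw [mul_neg, neg_le_neg_iff, mul_one_div, le_div_iff₀ (by positivity)]
      have h4 : (i : ℝ) * (2 * (q * r)) ≤ S β := by exact_mod_cast h3
      calc (i : ℝ) * q / 60 * (120 * r) = i * (2 * (q * r)) := by ring
        _ ≤ S β := h4
    refine lt_of_le_of_lt h2 ?_
    rw [Finset.sum_const, nsmul_eq_mul, lt_div_iff₀ (by norm_num)]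
    have h5 : Real.exp (-(i * q / 60)) * Real.exp (i * q / 60) = 1 := by
      rw [← Real.exp_add, neg_add_cancel, Real.exp_zero]
    have h6 := mul_lt_mul_of_pos_left h1 (Real.exp_pos (-(i * q / 60 : ℝ)))
    calc ((Finset.univ.filter fun β => S β / (2 * (q * r)) = i).card : ℝ) *
          Real.exp (-(i * q / 60)) * 181
        = Real.exp (-(i * q / 60)) * (181 *
          ((Finset.univ.filter fun β => S β / (2 * (q * r)) = i).card : ℝ)) := by ring
      _ < Real.exp (-(i * q / 60)) *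
          (Real.exp (i * q / 60) * (120 * r * (1 - Real.exp (-3))) ^ q) := h6
      _ = (120 * r * (1 - Real.exp (-3))) ^ q := by rw [← mul_assoc, h5, one_mul]
  have hlt := Finset.sum_lt_sum_of_nonempty (s := Finset.range 181) ⟨0, by simp⟩ hwin
  rw [Finset.sum_const, Finset.card_range, nsmul_eq_mul] at hlt
  have h8 : ((181 : ℕ) : ℝ) * ((120 * r * (1 - Real.exp (-3))) ^ q / 181) =
      (120 * r * (1 - Real.exp (-3))) ^ q := by
    push_cast
    ring
  rw [h8] at hlt
  exact absurd hlt (not_lt.2 hbox)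

theorem exists_window {q r : ℕ} (hq : 1 ≤ q) (hr : 1 ≤ r) : ∃ i ≤ 180,
    Real.exp (i * q / 60) * (120 * r * (1 - Real.exp (-3))) ^ q ≤
      181 * (Fintype.card {β : Fin q → Fin (2 * (180 * r) + 1) //
        2 * i * q * r ≤ ∑ j, (β j : ℕ) ∧ ∑ j, (β j : ℕ) < 2 * (i + 1) * q * r} : ℝ) := by
  obtain ⟨i, hi, h⟩ := exists_window_nat hq hr
  refine ⟨(i : ℝ), by exact_mod_cast hi, ?_⟩
  refine h.trans (le_of_eq ?_)
  congr 2
  refine Fintype.card_congr (Equiv.subtypeEquivRight fun β => ?_)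
  constructor
  · rintro ⟨h1, h2⟩
    exact ⟨by exact_mod_cast h1, by exact_mod_cast h2⟩
  · rintro ⟨h1, h2⟩
    exact ⟨by exact_mod_cast h1, by exact_mod_cast h2⟩

theorem window_large {q D : ℕ} (hD : 1 ≤ D) (hq : 182 ^ (D + 1) * 10 ^ q ≤ 17 ^ q) :
    ∀ r ≥ 60, ∃ i ≤ 180, (182 ^ D + 1) * ((i + 6) * q * r + 2 * q).choose q ≤
      Fintype.card {β : Fin q → Fin (2 * (180 * r) + 1) //
        2 * i * q * r ≤ ∑ j, (β j : ℕ) ∧ ∑ j, (β j : ℕ) < 2 * (i + 1) * q * r} := by
  intro r hr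
  have hq1 : 1 ≤ q := by
    rcases Nat.eq_zero_or_pos q with h | h
    · subst h
      exfalso
      have : 1 < 182 ^ (D + 1) := Nat.one_lt_pow (by omega) (by norm_num)
      omega
    · exact h
  obtain ⟨i, hi, hw⟩ := exists_window_nat hq1 (show 1 ≤ r by omega)
  refine ⟨i, hi, ?_⟩
  set N := Fintype.card {β : Fin q → Fin (2 * (180 * r) + 1) //
        2 * i * q * r ≤ ∑ j, (β j : ℕ) ∧ ∑ j, (β j : ℕ) < 2 * (i + 1) * q * r} with hN
  have hr0 : (60 : ℝ) ≤ r := by exact_mod_cast hr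
  have he1 := Real.exp_one_gt_d9
  have hexp3 : Real.exp (-3) ≤ 1 / 20 := by
    rw [Real.exp_neg, inv_eq_one_div]
    apply one_div_le_one_div_of_le (by norm_num)
    have h1 : Real.exp 3 = Real.exp 1 ^ 3 := by
      rw [← Real.exp_nat_mul]; norm_num
    rw [h1]
    calc (20 : ℝ) ≤ 2.7182818283 ^ 3 := by norm_num
      _ ≤ Real.exp 1 ^ 3 := pow_le_pow_left₀ (by norm_num) he1.le 3
  have hexp10 : (9 : ℝ) / 10 ≤ Real.exp (-(1 / 10)) := by
    have := Real.add_one_le_exp (-(1 / 10) : ℝ)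
    linarith
  -- lower bound for the number of exponents in the window
  set a : ℝ := ((i : ℝ) + 6) * r with ha
  have ha360 : 360 ≤ a := by
    have : (0 : ℝ) ≤ i := by positivity
    nlinarith
  have h1 : (17 / 10 * (Real.exp 1 * (a + 2))) ^ q ≤ 181 * (N : ℝ) := by
    refine le_trans ?_ hw
    have h2 : Real.exp ((i : ℝ) * q / 60) =
        (Real.exp (((i : ℝ) + 6) / 60) * Real.exp (-(1 / 10))) ^ q := by
      rw [← Real.exp_add, ← Real.exp_nat_mul]
      congr 1
      ring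
    rw [h2, ← mul_pow]
    refine pow_le_pow_left₀ (by positivity) ?_ q
    have h3 : Real.exp 1 * (((i : ℝ) + 6) / 60) ≤ Real.exp (((i : ℝ) + 6) / 60) := by
      have h4 := Real.add_one_le_exp (((i : ℝ) + 6) / 60 - 1)
      have h5 : Real.exp (((i : ℝ) + 6) / 60) =
          Real.exp 1 * Real.exp (((i : ℝ) + 6) / 60 - 1) := by
        rw [← Real.exp_add]
        congr 1
        ring
      rw [h5]
      exact mul_le_mul_of_nonneg_left (by linarith) (Real.exp_pos _).le
    have h6 : 17 / 10 * (a + 2) ≤ 171 / 100 * a := by linarith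
    have hi0 : (0 : ℝ) ≤ i := by positivity
    calc 17 / 10 * (Real.exp 1 * (a + 2)) = Real.exp 1 * (17 / 10 * (a + 2)) := by ring
      _ ≤ Real.exp 1 * (171 / 100 * a) := mul_le_mul_of_nonneg_left h6 (Real.exp_pos _).le
      _ = (Real.exp 1 * (((i : ℝ) + 6) / 60)) * (9 / 10) * (120 * r * (19 / 20)) := by
          rw [ha]; ring
      _ ≤ (Real.exp (((i : ℝ) + 6) / 60)) * Real.exp (-(1 / 10)) *
          (120 * r * (1 - Real.exp (-3))) := by
          gcongr
          linarith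
  -- upper bound for the binomial coefficient
  have h2 : ((((i + 6) * q * r + 2 * q).choose q : ℕ) : ℝ) ≤ (Real.exp 1 * (a + 2)) ^ q := by
    have h3 := Nat.choose_le_pow_div (α := ℝ) q ((i + 6) * q * r + 2 * q)
    refine h3.trans ?_
    have h4 : (((i + 6) * q * r + 2 * q : ℕ) : ℝ) = q * (a + 2) := by
      rw [ha]; push_cast; ring
    have h5 : (q : ℝ) ^ q / (q.factorial : ℝ) ≤ Real.exp 1 ^ q := by
      rw [← Real.exp_nat_mul, mul_one]
      exact Real.pow_div_factorial_le_exp (q : ℝ) (by positivity) q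
    rw [h4, mul_pow, mul_pow, mul_comm ((q : ℝ) ^ q), mul_div_assoc, mul_comm]
    exact mul_le_mul_of_nonneg_right h5 (by positivity)
  -- conclusion
  have h3 : (181 : ℝ) * (182 ^ D + 1) ≤ (17 / 10) ^ q := by
    have h4 : (182 : ℝ) ^ (D + 1) * 10 ^ q ≤ 17 ^ q := by exact_mod_cast hq
    have h5 : (182 : ℝ) ^ (D + 1) ≤ (17 / 10) ^ q := by
      rw [div_pow, le_div_iff₀ (by positivity)]
      exact h4
    have h6 : (182 : ℝ) ≤ 182 ^ D := by
      calc (182 : ℝ) = 182 ^ 1 := (pow_one _).symm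
        _ ≤ 182 ^ D := pow_le_pow_right₀ (by norm_num) hD
    rw [pow_succ] at h5
    linarith
  have h4 : (181 : ℝ) * ((182 ^ D + 1) * (((i + 6) * q * r + 2 * q).choose q : ℕ)) ≤
      181 * (N : ℝ) := by
    calc (181 : ℝ) * ((182 ^ D + 1) * (((i + 6) * q * r + 2 * q).choose q : ℕ))
        = (181 * (182 ^ D + 1)) * (((i + 6) * q * r + 2 * q).choose q : ℕ) := by ring
      _ ≤ (17 / 10) ^ q * (Real.exp 1 * (a + 2)) ^ q :=
          mul_le_mul h3 h2 (by positivity) (by positivity)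
      _ = (17 / 10 * (Real.exp 1 * (a + 2))) ^ q := (mul_pow _ _ _).symm
      _ ≤ 181 * (N : ℝ) := h1
  have h5 : ((182 : ℝ) ^ D + 1) * (((i + 6) * q * r + 2 * q).choose q : ℕ) ≤ N := by linarith
  exact_mod_cast h5

end Pool.Agent.Lib.GGL.VG
end

section

/-!
Clearing denominators.
-/

open Filter Topology MvPolynomial Module

namespace Pool.Agent.Lib.GGL.VG

theorem BiHom.aeval {K E τ ι : Type*} [Field K] [Field E] [Algebra K E]
    {Q : MvPolynomial (τ ⊕ (ι ⊕ ι)) K} {i j : ℕ} (h : BiHom Q i j) (p : τ → E) (y Z : ι → E)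
    (a b : E) : MvPolynomial.aeval (Sum.elim p (Sum.elim (a • y) (b • Z))) Q =
      a ^ i * b ^ j * MvPolynomial.aeval (Sum.elim p (Sum.elim y Z)) Q := by
  rw [MvPolynomial.aeval_def, MvPolynomial.aeval_def, MvPolynomial.eval₂_eq, MvPolynomial.eval₂_eq,
    Finset.mul_sum]
  refine Finset.sum_congr rfl fun m hm => ?_
  have hw := h (MvPolynomial.mem_support_iff.1 hm)
  -- the weight
  have key : ∏ x ∈ m.support, Sum.elim p (Sum.elim (a • y) (b • Z)) x ^ m x =
      a ^ i * b ^ j * ∏ x ∈ m.support, Sum.elim p (Sum.elim y Z) x ^ m x := by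
    have h1 : ∀ x : τ ⊕ (ι ⊕ ι), Sum.elim p (Sum.elim (a • y) (b • Z)) x =
        (a ^ ((Sum.elim (fun _ => ((0, 0) : ℕ × ℕ))
          (Sum.elim (fun _ => ((1, 0) : ℕ × ℕ)) fun _ => ((0, 1) : ℕ × ℕ)) : τ ⊕ (ι ⊕ ι) → ℕ × ℕ) x).1 *
        b ^ ((Sum.elim (fun _ => ((0, 0) : ℕ × ℕ))
          (Sum.elim (fun _ => ((1, 0) : ℕ × ℕ)) fun _ => ((0, 1) : ℕ × ℕ)) : τ ⊕ (ι ⊕ ι) → ℕ × ℕ) x).2) *
        Sum.elim p (Sum.elim y Z) x := by
      rintro (x | x | x) <;> simp
    rw [Finset.prod_congr rfl fun x _ => by rw [h1 x, mul_pow], Finset.prod_mul_distrib]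
    congr 1
    have h2 : ∀ x, ((a ^ ((Sum.elim (fun _ => ((0, 0) : ℕ × ℕ))
          (Sum.elim (fun _ => ((1, 0) : ℕ × ℕ)) fun _ => ((0, 1) : ℕ × ℕ)) : τ ⊕ (ι ⊕ ι) → ℕ × ℕ) x).1 *
        b ^ ((Sum.elim (fun _ => ((0, 0) : ℕ × ℕ))
          (Sum.elim (fun _ => ((1, 0) : ℕ × ℕ)) fun _ => ((0, 1) : ℕ × ℕ)) : τ ⊕ (ι ⊕ ι) → ℕ × ℕ) x).2) : E) ^ m x
        = a ^ (m x • (Sum.elim (fun _ => ((0, 0) : ℕ × ℕ))
          (Sum.elim (fun _ => ((1, 0) : ℕ × ℕ)) fun _ => ((0, 1) : ℕ × ℕ)) : τ ⊕ (ι ⊕ ι) → ℕ × ℕ) x).1 *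
          b ^ (m x • (Sum.elim (fun _ => ((0, 0) : ℕ × ℕ))
          (Sum.elim (fun _ => ((1, 0) : ℕ × ℕ)) fun _ => ((0, 1) : ℕ × ℕ)) : τ ⊕ (ι ⊕ ι) → ℕ × ℕ) x).2 := by
      intro x
      rw [mul_pow, ← pow_mul, ← pow_mul]
      simp [mul_comm]
    rw [Finset.prod_congr rfl fun x _ => h2 x, Finset.prod_mul_distrib, Finset.prod_pow_eq_pow_sum,
      Finset.prod_pow_eq_pow_sum]
    rw [Finsupp.weight_apply, Finsupp.sum] at hw
    have e1 := congrArg Prod.fst hw
    have e2 := congrArg Prod.snd hw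
    rw [Prod.fst_sum] at e1
    rw [Prod.snd_sum] at e2
    rw [e1, e2]
  rw [key]
  ring

theorem BiHom.mulAux {K τ ι : Type*} [CommSemiring K] {Q Q' : MvPolynomial (τ ⊕ (ι ⊕ ι)) K}
    {i j i' j' : ℕ} (h : BiHom Q i j) (h' : BiHom Q' i' j') : BiHom (Q * Q') (i + i') (j + j') := by
  have := IsWeightedHomogeneous.mul h h'
  simpa [BiHom] using this

theorem BiHom.addAux {K τ ι : Type*} [CommSemiring K] {Q Q' : MvPolynomial (τ ⊕ (ι ⊕ ι)) K}
    {i j : ℕ} (h : BiHom Q i j) (h' : BiHom Q' i j) : BiHom (Q + Q') i j :=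
  IsWeightedHomogeneous.add h h'

theorem biHom_zeroAux {K τ ι : Type*} [CommSemiring K] (i j : ℕ) :
    BiHom (0 : MvPolynomial (τ ⊕ (ι ⊕ ι)) K) i j :=
  isWeightedHomogeneous_zero _ _ _

theorem biHom_renameAux {K τ ι : Type*} [CommSemiring K] (D : MvPolynomial τ K) :
    BiHom (rename (Sum.inl : τ → τ ⊕ (ι ⊕ ι)) D) 0 0 := by
  induction D using MvPolynomial.induction_on with
  | C a => 
    rw [rename_C]
    exact isWeightedHomogeneous_C _ _
  | add p q hp hq => 
    rw [map_add]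
    exact hp.addAux hq
  | mul_X p n hp => 
    rw [map_mul, rename_X]
    have h1 : BiHom (X (Sum.inl n) : MvPolynomial (τ ⊕ (ι ⊕ ι)) K) 0 0 := 
      isWeightedHomogeneous_X _ _ (Sum.inl n)
    simpa using hp.mulAux h1

/-- The elements with a denominator in the first group of variables. -/
def ClAux {K E τ ι : Type*} [Field K] [Field E] [Algebra K E] (p : τ → E) (y Z : ι → E) (i j : ℕ)
    (c : E) : Prop :=
  ∃ (D : MvPolynomial τ K) (Q : MvPolynomial (τ ⊕ (ι ⊕ ι)) K), MvPolynomial.aeval p D ≠ 0 ∧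
    BiHom Q i j ∧ MvPolynomial.aeval (Sum.elim p (Sum.elim y Z)) Q = MvPolynomial.aeval p D * c

section

variable {K E τ ι : Type*} [Field K] [Field E] [Algebra K E] {p : τ → E} {y Z : ι → E}

theorem aeval_renAux (D : MvPolynomial τ K) :
    MvPolynomial.aeval (Sum.elim p (Sum.elim y Z)) (rename (Sum.inl : τ → τ ⊕ (ι ⊕ ι)) D) =
      MvPolynomial.aeval p D := by
  rw [aeval_rename]
  rfl

theorem ClAux.zero (i j : ℕ) : ClAux (K := K) p y Z i j 0 :=
  ⟨1, 0, by simp, biHom_zeroAux _ _, by simp⟩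

theorem ClAux.add {i j : ℕ} {c c' : E} (h : ClAux (K := K) p y Z i j c) (h' : ClAux (K := K) p y Z i j c') :
    ClAux (K := K) p y Z i j (c + c') := by
  obtain ⟨D, Q, hD, hQ, e⟩ := h
  obtain ⟨D', Q', hD', hQ', e'⟩ := h'
  refine ⟨D * D', rename Sum.inl D' * Q + rename Sum.inl D * Q', ?_, ?_, ?_⟩
  · rw [map_mul]
    exact mul_ne_zero hD hD'
  · have h1 := (biHom_renameAux (ι := ι) D').mulAux hQ
    have h2 := (biHom_renameAux (ι := ι) D).mulAux hQ'
    simp only [zero_add] at h1 h2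
    exact h1.addAux h2
  · rw [map_add, map_mul, map_mul, map_mul, aeval_renAux, aeval_renAux, e, e']
    ring

theorem ClAux.mul {i j i' j' : ℕ} {c c' : E} (h : ClAux (K := K) p y Z i j c)
    (h' : ClAux (K := K) p y Z i' j' c') : ClAux (K := K) p y Z (i + i') (j + j') (c * c') := by
  obtain ⟨D, Q, hD, hQ, e⟩ := h
  obtain ⟨D', Q', hD', hQ', e'⟩ := h'
  refine ⟨D * D', Q * Q', ?_, hQ.mulAux hQ', ?_⟩
  · rw [map_mul]
    exact mul_ne_zero hD hD'
  · rw [map_mul, map_mul, e, e']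
    ring

theorem ClAux.of_field {c : E} (hc : c ∈ IntermediateField.adjoin K (Set.range p)) :
    ClAux (K := K) p y Z 0 0 c := by
  rw [IntermediateField.mem_adjoin_range_iff] at hc
  obtain ⟨r, s, e⟩ := hc
  by_cases hs : MvPolynomial.aeval p s = 0
  · rw [hs, div_zero] at e
    rw [e]
    exact ClAux.zero 0 0
  · refine ⟨s, rename Sum.inl r, hs, biHom_renameAux r, ?_⟩
    rw [aeval_renAux, e, mul_div_cancel₀ _ hs]

theorem ClAux.smul {i j : ℕ} {c : E} (r : IntermediateField.adjoin K (Set.range p))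
    (h : ClAux (K := K) p y Z i j c) : ClAux (K := K) p y Z i j (r • c) := by
  have h1 := (ClAux.of_field (y := y) (Z := Z) r.2).mul h
  simp only [zero_add] at h1
  exact h1

theorem ClAux.span_y {c : E}
    (hc : c ∈ Submodule.span (IntermediateField.adjoin K (Set.range p)) (Set.range y)) :
    ClAux (K := K) p y Z 1 0 c := by
  induction hc using Submodule.span_induction with
  | mem x hx =>
    obtain ⟨m, rfl⟩ := hx
    refine ⟨1, X (Sum.inr (Sum.inl m)), by simp, ?_, by simp⟩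
    exact isWeightedHomogeneous_X _ _ (Sum.inr (Sum.inl m))
  | zero => exact ClAux.zero 1 0
  | add x z _ _ hx hz => exact hx.add hz
  | smul r x _ hx => exact hx.smul r

theorem ClAux.span_Z {c : E}
    (hc : c ∈ Submodule.span (IntermediateField.adjoin K (Set.range p)) (Set.range Z)) :
    ClAux (K := K) p y Z 0 1 c := by
  induction hc using Submodule.span_induction with
  | mem x hx =>
    obtain ⟨m, rfl⟩ := hx
    refine ⟨1, X (Sum.inr (Sum.inr m)), by simp, ?_, by simp⟩
    exact isWeightedHomogeneous_X _ _ (Sum.inr (Sum.inr m))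
  | zero => exact ClAux.zero 0 1
  | add x z _ _ hx hz => exact hx.add hz
  | smul r x _ hx => exact hx.smul r

theorem ClAux.one_mem {c : E}
    (hc : c ∈ (1 : Submodule (IntermediateField.adjoin K (Set.range p)) E)) :
    ClAux (K := K) p y Z 0 0 c := by
  rw [Submodule.mem_one] at hc
  obtain ⟨r, rfl⟩ := hc
  exact ClAux.of_field r.2

theorem ClAux.pow_y (i : ℕ) : ∀ {c : E},
    c ∈ (Submodule.span (IntermediateField.adjoin K (Set.range p)) (Set.range y)) ^ i →
    ClAux (K := K) p y Z i 0 c := by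
  induction i with
  | zero =>
    intro c hc
    rw [pow_zero] at hc
    exact ClAux.one_mem hc
  | succ i ih =>
    intro c hc
    rw [pow_succ] at hc
    exact Submodule.mul_induction_on hc (fun a ha b hb => (ih ha).mul (ClAux.span_y hb))
      fun a b ha hb => ha.add hb

theorem ClAux.pow_Z (j : ℕ) : ∀ {c : E},
    c ∈ (Submodule.span (IntermediateField.adjoin K (Set.range p)) (Set.range Z)) ^ j →
    ClAux (K := K) p y Z 0 j c := by
  induction j with
  | zero =>
    intro c hc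
    rw [pow_zero] at hc
    exact ClAux.one_mem hc
  | succ j ih =>
    intro c hc
    rw [pow_succ] at hc
    refine Submodule.mul_induction_on hc (fun a ha b hb => ?_) fun a b ha hb => ha.add hb
    have := (ih ha).mul (ClAux.span_Z (y := y) hb)
    simpa using this

theorem ClAux.of_mem {i j : ℕ} {c : E}
    (hc : c ∈ (Submodule.span (IntermediateField.adjoin K (Set.range p)) (Set.range y)) ^ i *
      (Submodule.span (IntermediateField.adjoin K (Set.range p)) (Set.range Z)) ^ j) :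
    ClAux (K := K) p y Z i j c := by
  refine Submodule.mul_induction_on hc (fun a ha b hb => ?_) fun a b ha hb => ha.add hb
  have := (ClAux.pow_y (Z := Z) i ha).mul (ClAux.pow_Z (y := y) j hb)
  simpa using this

end

theorem clear {K E τ ι A : Type*} [Field K] [Field E] [Algebra K E] [Finite A]
    (p : τ → E) (y Z : ι → E) (i j : A → ℕ) (c : A → E)
    (hc : ∀ a, c a ∈ (Submodule.span (IntermediateField.adjoin K (Set.range p)) (Set.range y)) ^ i a *
      (Submodule.span (IntermediateField.adjoin K (Set.range p)) (Set.range Z)) ^ j a) :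
    ∃ (d : E) (Q : A → MvPolynomial (τ ⊕ (ι ⊕ ι)) K), d ≠ 0 ∧
      ∀ a, BiHom (Q a) (i a) (j a) ∧
        MvPolynomial.aeval (Sum.elim p (Sum.elim y Z)) (Q a) = d * c a := by
  classical
  cases nonempty_fintype A
  choose D Q hD hQ e using fun a => ClAux.of_mem (hc a)
  refine ⟨∏ a, MvPolynomial.aeval p (D a),
    fun a => rename Sum.inl (∏ b ∈ Finset.univ.erase a, D b) * Q a,
    Finset.prod_ne_zero_iff.2 fun a _ => hD a, fun a => ⟨?_, ?_⟩⟩
  · have h1 := (biHom_renameAux (ι := ι) (∏ b ∈ Finset.univ.erase a, D b)).mulAux (hQ a)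
    simpa using h1
  · rw [map_mul, aeval_renAux, e a, map_prod,
      ← Finset.mul_prod_erase Finset.univ (fun b => MvPolynomial.aeval p (D b)) (Finset.mem_univ a)]
    ring

end Pool.Agent.Lib.GGL.VG
end

section

/-!
Transfer of polynomial identities from the generic point.
-/

open Filter Topology MvPolynomial Module

namespace Pool.Agent.Lib.GGL.VG

lemma aeval_sum {K E τ σ : Type*} [CommRing K] [CommRing E] [Algebra K E] (p : τ → E) (w : σ → E)
    (Q : MvPolynomial (τ ⊕ σ) K) :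
    aeval (Sum.elim p w) Q =
      eval p (MvPolynomial.map (aeval w : MvPolynomial σ K →ₐ[K] E).toRingHom
        (sumAlgEquiv K τ σ Q)) := by
  have h1 : (aeval (Sum.elim p w) : MvPolynomial (τ ⊕ σ) K →ₐ[K] E).toRingHom =
      ((eval p).comp (MvPolynomial.map (aeval w : MvPolynomial σ K →ₐ[K] E).toRingHom)).comp
        (sumAlgEquiv K τ σ).toAlgHom.toRingHom := by
    apply MvPolynomial.ringHom_ext
    · intro r
      simp
    · intro i
      rcases i with i | i
      · simp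
      · simp
  exact congrArg (fun f => f Q) (DFunLike.coe_injective.eq_iff.mpr h1)

theorem transfer {K E τ σ : Type*} [Field K] [Field E] [Algebra K E] {w : σ → E} {p : τ → E}
    {F : Subalgebra K E} (hw : ∀ i, w i ∈ F) (hp : AlgebraicIndependent F p)
    {Q : MvPolynomial (τ ⊕ σ) K} (hQ : aeval (Sum.elim p w) Q = 0) {w' : σ → E}
    (hw' : ∀ G : MvPolynomial σ K, aeval w G = 0 → aeval w' G = 0) (p' : τ → E) :
    aeval (Sum.elim p' w') Q = 0 := by
  obtain ⟨w₀, hw₀⟩ : ∃ w₀ : σ → F, ∀ i, (w₀ i : E) = w i := ⟨fun i => ⟨w i, hw i⟩, fun i => rfl⟩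
  obtain ⟨Q', hQ'⟩ : ∃ Q' : MvPolynomial τ (MvPolynomial σ K), Q' = sumAlgEquiv K τ σ Q := ⟨_, rfl⟩
  obtain ⟨P₀, hP₀⟩ : ∃ P₀ : MvPolynomial τ F, P₀ =
    MvPolynomial.map (aeval w₀ : MvPolynomial σ K →ₐ[K] F).toRingHom Q' := ⟨_, rfl⟩
  have hcoe : ∀ G : MvPolynomial σ K, ((aeval w₀ G : F) : E) = aeval w G := by
    intro G
    have h1 : (F.val.comp (aeval w₀ : MvPolynomial σ K →ₐ[K] F)) =
        (aeval w : MvPolynomial σ K →ₐ[K] E) := by
      apply MvPolynomial.algHom_ext
      intro i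
      simp [hw₀]
    exact congrArg (fun f => f G) (DFunLike.coe_injective.eq_iff.mpr h1)
  have h1 : MvPolynomial.map (algebraMap F E) P₀ =
      MvPolynomial.map (aeval w : MvPolynomial σ K →ₐ[K] E).toRingHom Q' := by
    rw [hP₀, MvPolynomial.map_map]
    ext m
    rw [coeff_map, coeff_map]
    exact hcoe _
  have h2 : aeval p P₀ = 0 := by
    rw [aeval_def, ← eval_map, h1, hQ', ← aeval_sum]
    exact hQ
  have h3 : P₀ = 0 := (algebraicIndependent_iff.mp hp) _ h2
  have h4 : MvPolynomial.map (aeval w' : MvPolynomial σ K →ₐ[K] E).toRingHom Q' = 0 := by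
    ext m
    rw [coeff_map, coeff_zero]
    apply hw'
    rw [← hcoe]
    have h5 := congrArg (coeff m) h3
    rw [hP₀, coeff_map, coeff_zero] at h5
    have h6 : (aeval w₀ (coeff m Q') : F) = 0 := h5
    rw [h6]
    rfl
  rw [aeval_sum, ← hQ', h4, map_zero]

end Pool.Agent.Lib.GGL.VG
end
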