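import Mathlib
import Pool.Agent.Lib.MP_8d161d_ag.VG.VDefs
import Pool.Agent.Lib.MP_8d161d_ag.Mg.G002

section

/-!
Existence of a family of coefficients (a lemma of Siegel type).
-/

open Filter Topology MvPolynomial Module

namespace Pool.Agent.Lib.GGL.VG

/-- The submodule `U₁ ^ s * U₂ ^ t` is finitely generated. -/
theorem fam_fg {K E : Type*} [Field K] [Field E] [Algebra K E] {U₁ U₂ : Submodule K E}
    (h₁ : U₁.FG) (h₂ : U₂.FG) (s t : ℕ) : (U₁ ^ s * U₂ ^ t : Submodule K E).FG :=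
  (h₁.pow s).mul (h₂.pow t)

theorem fam_finrank_mono {K E : Type*} [Field K] [Field E] [Algebra K E] {U₁ U₂ : Submodule K E}
    (h₁ : U₁.FG) (h₂ : U₂.FG) (h₁0 : U₁ ≠ ⊥) (h₂0 : U₂ ≠ ⊥) {s t s' t' : ℕ} (hs : s ≤ s')
    (ht : t ≤ t') : finrank K (U₁ ^ s * U₂ ^ t : Submodule K E) ≤
      finrank K (U₁ ^ s' * U₂ ^ t' : Submodule K E) := by
  obtain ⟨u, hu, hu0⟩ := Submodule.exists_mem_ne_zero_of_ne_bot h₁0
  obtain ⟨v, hv, hv0⟩ := Submodule.exists_mem_ne_zero_of_ne_bot h₂0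
  have hfin : Module.Finite K (U₁ ^ s' * U₂ ^ t' : Submodule K E) :=
    Module.Finite.iff_fg.mpr (fam_fg h₁ h₂ s' t')
  set w : E := u ^ (s' - s) * v ^ (t' - t) with hw
  have hw0 : w ≠ 0 := mul_ne_zero (pow_ne_zero _ hu0) (pow_ne_zero _ hv0)
  have hmem : ∀ x ∈ (U₁ ^ s * U₂ ^ t : Submodule K E), w * x ∈ (U₁ ^ s' * U₂ ^ t' : Submodule K E) := by
    intro x hx
    have h3 : w ∈ (U₁ ^ (s' - s) * U₂ ^ (t' - t) : Submodule K E) :=
      Submodule.mul_mem_mul (Submodule.pow_mem_pow _ hu _) (Submodule.pow_mem_pow _ hv _)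
    have h4 := Submodule.mul_mem_mul h3 hx
    have h5 : (U₁ ^ (s' - s) * U₂ ^ (t' - t)) * (U₁ ^ s * U₂ ^ t) =
        (U₁ ^ s' * U₂ ^ t' : Submodule K E) := by
      calc (U₁ ^ (s' - s) * U₂ ^ (t' - t)) * (U₁ ^ s * U₂ ^ t) =
          U₁ ^ (s' - s + s) * U₂ ^ (t' - t + t) := by ring
        _ = _ := by rw [Nat.sub_add_cancel hs, Nat.sub_add_cancel ht]
    rwa [h5] at h4
  let f : (U₁ ^ s * U₂ ^ t : Submodule K E) →ₗ[K] (U₁ ^ s' * U₂ ^ t' : Submodule K E) :=
    { toFun := fun x => ⟨w * x.1, hmem x.1 x.2⟩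
      map_add' := fun x y => by
        ext
        simp [mul_add]
      map_smul' := fun c x => by
        ext
        simp }
  apply LinearMap.finrank_le_finrank_of_injective (f := f)
  intro x y hxy
  have h6 : w * x.1 = w * y.1 := congrArg Subtype.val hxy
  exact Subtype.ext (mul_left_cancel₀ hw0 h6)

theorem fam_finrank_pos {K E : Type*} [Field K] [Field E] [Algebra K E] {U₁ U₂ : Submodule K E}
    (h₁ : U₁.FG) (h₂ : U₂.FG) (h₁0 : U₁ ≠ ⊥) (h₂0 : U₂ ≠ ⊥) (s t : ℕ) :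
    1 ≤ finrank K (U₁ ^ s * U₂ ^ t : Submodule K E) := by
  refine le_trans ?_ (fam_finrank_mono h₁ h₂ h₁0 h₂0 (Nat.zero_le s) (Nat.zero_le t))
  rw [pow_zero, pow_zero, mul_one]
  have h : Module.Finite K (1 : Submodule K E) := by
    apply Module.Finite.iff_fg.mpr
    have := fam_fg h₁ h₂ 0 0
    rwa [pow_zero, pow_zero, mul_one] at this
  rw [Nat.one_le_iff_ne_zero]
  intro h0
  rw [Submodule.finrank_eq_zero] at h0
  have h1 : (1 : E) ∈ (1 : Submodule K E) := Submodule.one_le.mp le_rfl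
  rw [h0, Submodule.mem_bot] at h1
  exact one_ne_zero h1

theorem fam_prod_mem {K E : Type*} [Field K] [Field E] [Algebra K E] {U : Submodule K E} {q : ℕ}
    (x : Fin q → E) (hx : ∀ j, x j ∈ U) (e : Fin q → ℕ) (s : Finset (Fin q)) :
    ∏ j ∈ s, x j ^ e j ∈ U ^ (∑ j ∈ s, e j) := by
  classical
  induction s using Finset.induction_on with
  | empty => simp
  | insert a s ha ih =>
    rw [Finset.prod_insert ha, Finset.sum_insert ha, pow_add]
    exact Submodule.mul_mem_mul (Submodule.pow_mem_pow _ (hx a) _) ih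

theorem fam_lead_mem {K E : Type*} [Field K] [Field E] [Algebra K E] {q : ℕ}
    {U₁ U₂ : Submodule K E} {l b : Fin q → E} (hl : ∀ j, l j ∈ U₁) (hb : ∀ j, b j ∈ U₂)
    {r i : ℕ} (c : (Fin q → Fin (2 * (180 * r) + 1)) → E)
    (hc1 : ∀ β, c β ≠ 0 → 2 * i * q * r ≤ ∑ j, (β j : ℕ) ∧ ∑ j, (β j : ℕ) < 2 * (i + 1) * q * r)
    (hc2 : ∀ β, c β ∈ U₁ ^ (∑ j, (β j : ℕ) / 2 + 2 * q * r + q - i * q * r) *
        U₂ ^ (2 * (i + 2) * q * r - ∑ j, (β j : ℕ))) (f : Fin q → ℕ) :
    lead (180 * r) f l b c ∈ U₁ ^ (182 * q * r + q - i * q * r) *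
      U₂ ^ (2 * (i + 2) * q * r - ∑ j, f j) := by
  unfold lead
  apply Submodule.sum_mem
  intro γ _
  by_cases h0 : c γ = 0
  · rw [h0, zero_mul]
    exact Submodule.zero_mem _
  obtain ⟨hw1, hw2⟩ := hc1 γ h0
  by_cases hf : ∀ j, f j ≤ (γ j : ℕ)
  swap
  · push Not at hf
    obtain ⟨j, hj⟩ := hf
    have : ∏ j, ((((γ j : ℕ).choose (f j) : ℕ) : E) * b j ^ ((γ j : ℕ) - f j) *
        l j ^ (180 * r - (γ j : ℕ) / 2)) = 0 := by
      apply Finset.prod_eq_zero (Finset.mem_univ j)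
      rw [Nat.choose_eq_zero_of_lt hj]
      simp
    rw [this, mul_zero]
    exact Submodule.zero_mem _
  rw [Finset.prod_mul_distrib, Finset.prod_mul_distrib]
  have e1 : ∏ j, b j ^ ((γ j : ℕ) - f j) ∈ U₂ ^ (∑ j, ((γ j : ℕ) - f j)) :=
    fam_prod_mem b hb _ _
  have e2 : ∏ j, l j ^ (180 * r - (γ j : ℕ) / 2) ∈ U₁ ^ (∑ j, (180 * r - (γ j : ℕ) / 2)) :=
    fam_prod_mem l hl _ _
  have e3 : ∏ j, ((((γ j : ℕ).choose (f j) : ℕ) : E)) =
      ((∏ j, ((γ j : ℕ).choose (f j)) : ℕ) : E) := by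
    push_cast
    rfl
  have s1 : ∑ j, ((γ j : ℕ) - f j) = ∑ j, (γ j : ℕ) - ∑ j, f j := by
    rw [Finset.sum_tsub_distrib _ fun j _ => hf j]
  have hγ : ∀ j, (γ j : ℕ) / 2 ≤ 180 * r := by
    intro j
    have := (γ j).isLt
    omega
  have s2 : ∑ j, (180 * r - (γ j : ℕ) / 2) = q * (180 * r) - ∑ j, (γ j : ℕ) / 2 := by
    rw [Finset.sum_tsub_distrib _ fun j _ => hγ j]
    simp
  have s3 : ∑ j, (γ j : ℕ) / 2 ≤ q * (180 * r) := by
    have := Finset.sum_le_sum fun j (_ : j ∈ (Finset.univ : Finset (Fin q))) => hγ j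
    simpa using this
  have s4 : ∑ j, f j ≤ ∑ j, (γ j : ℕ) := Finset.sum_le_sum fun j _ => hf j
  have s5 : ∑ j, (γ j : ℕ) ≤ 2 * ∑ j, (γ j : ℕ) / 2 + q := by
    have h1 : ∀ j, (γ j : ℕ) ≤ 2 * ((γ j : ℕ) / 2) + 1 := fun j => by omega
    have := Finset.sum_le_sum fun j (_ : j ∈ (Finset.univ : Finset (Fin q))) => h1 j
    rw [Finset.sum_add_distrib, ← Finset.mul_sum] at this
    simpa using this
  rw [e3]
  have e4 : c γ * (((∏ j, ((γ j : ℕ).choose (f j)) : ℕ) : E) * ∏ j, b j ^ ((γ j : ℕ) - f j)) *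
      ∏ j, l j ^ (180 * r - (γ j : ℕ) / 2) = (∏ j, ((γ j : ℕ).choose (f j))) •
        (c γ * ((∏ j, b j ^ ((γ j : ℕ) - f j)) * ∏ j, l j ^ (180 * r - (γ j : ℕ) / 2))) := by
    rw [nsmul_eq_mul]
    ring
  rw [← mul_assoc, e4]
  apply Submodule.smul_of_tower_mem
  have e5 := Submodule.mul_mem_mul (hc2 γ) (Submodule.mul_mem_mul e1 e2)
  have e6 : U₁ ^ (∑ j, (γ j : ℕ) / 2 + 2 * q * r + q - i * q * r) *
      U₂ ^ (2 * (i + 2) * q * r - ∑ j, (γ j : ℕ)) *
      (U₂ ^ (∑ j, ((γ j : ℕ) - f j)) * U₁ ^ (∑ j, (180 * r - (γ j : ℕ) / 2))) =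
      U₁ ^ ((∑ j, (γ j : ℕ) / 2 + 2 * q * r + q - i * q * r) +
        (∑ j, (180 * r - (γ j : ℕ) / 2))) *
      U₂ ^ ((2 * (i + 2) * q * r - ∑ j, (γ j : ℕ)) + (∑ j, ((γ j : ℕ) - f j))) := by
    rw [pow_add, pow_add]
    ring
  rw [e6, s1, s2] at e5
  have e7 : (∑ j, (γ j : ℕ) / 2 + 2 * q * r + q - i * q * r) +
      (q * (180 * r) - ∑ j, (γ j : ℕ) / 2) = 182 * q * r + q - i * q * r := by
    have a1 : 2 * i * q * r = 2 * (i * q * r) := by ring
    have a2 : 182 * q * r = q * (180 * r) + 2 * q * r := by ring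
    have a3 : 2 * q * r = 2 * (q * r) := by ring
    rw [a1] at hw1
    omega
  have e8 : (2 * (i + 2) * q * r - ∑ j, (γ j : ℕ)) + (∑ j, (γ j : ℕ) - ∑ j, f j) =
      2 * (i + 2) * q * r - ∑ j, f j := by
    have a1 : 2 * (i + 1) * q * r ≤ 2 * (i + 2) * q * r := by
      have : 2 * (i + 2) * q * r = 2 * (i + 1) * q * r + 2 * q * r := by ring
      omega
    omega
  rwa [e7, e8] at e5

theorem exists_family {K E : Type*} [Field K] [Field E] [Algebra K E] {q D C : ℕ}
    (hD : 1 ≤ D) (hq : 182 ^ (D + 1) * 10 ^ q ≤ 17 ^ q)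
    {U₁ U₂ : Submodule K E} (h₁ : U₁.FG) (h₂ : U₂.FG) (h₁0 : U₁ ≠ ⊥) (h₂0 : U₂ ≠ ⊥)
    (hC : ∀ r, finrank K (U₁ ^ r * U₂ ^ r : Submodule K E) ≤ C * (r + 1) ^ D)
    {l b : Fin q → E} (hl : ∀ j, l j ∈ U₁) (hb : ∀ j, b j ∈ U₂) :
    ∃ r i : ℕ, 1 ≤ r ∧ i ≤ 180 ∧ ∃ c : (Fin q → Fin (2 * (180 * r) + 1)) → E, c ≠ 0 ∧
      (∀ β, c β ≠ 0 → 2 * i * q * r ≤ ∑ j, (β j : ℕ) ∧ ∑ j, (β j : ℕ) < 2 * (i + 1) * q * r) ∧
      (∀ β, c β ∈ U₁ ^ (∑ j, (β j : ℕ) / 2 + 2 * q * r + q - i * q * r) *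
        U₂ ^ (2 * (i + 2) * q * r - ∑ j, (β j : ℕ))) ∧
      ∀ f : Fin q → ℕ, ∑ j, f j ≤ (i + 6) * q * r + q → lead (180 * r) f l b c = 0 := by
  classical
  -- the choice of r
  obtain ⟨H, hH⟩ : ∃ H : ℕ → ℕ, ∀ r, H r =
    finrank K (U₁ ^ (2 * q * r) * U₂ ^ (2 * q * r) : Submodule K E) := ⟨_, fun r => rfl⟩
  have hH1 : ∀ r, 1 ≤ H r := fun r => by
    rw [hH]
    exact fam_finrank_pos h₁ h₂ h₁0 h₂0 _ _
  have hH2 : ∀ r, H r ≤ C * (2 * q + 1) ^ D * (r + 1) ^ D := by
    intro r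
    rw [hH]
    refine (hC _).trans ?_
    have h3 : C * (2 * q + 1) ^ D * (r + 1) ^ D = C * ((2 * q + 1) * (r + 1)) ^ D := by
      rw [mul_pow, mul_assoc]
    rw [h3]
    apply Nat.mul_le_mul_left
    apply Nat.pow_le_pow_left
    nlinarith
  obtain ⟨r, hr, hHr⟩ := scale hH1 hH2 (a := 182) (ρ := 182 ^ D + 1) (by norm_num)
    (Nat.lt_succ_self _) 60
  have hr1 : 1 ≤ r := by omega
  obtain ⟨i, hi, hwin⟩ := window_large hD hq r hr
  refine ⟨r, i, hr1, hi, ?_⟩
  -- abbreviations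
  let W := {β : Fin q → Fin (2 * (180 * r) + 1) //
        2 * i * q * r ≤ ∑ j, (β j : ℕ) ∧ ∑ j, (β j : ℕ) < 2 * (i + 1) * q * r}
  let T := (i + 6) * q * r + q
  let F := {f : Fin q → Fin (T + 1) // ∑ j, (f j : ℕ) ≤ T}
  let S : W → Submodule K E := fun β =>
    U₁ ^ (∑ j, (β.1 j : ℕ) / 2 + 2 * q * r + q - i * q * r) *
        U₂ ^ (2 * (i + 2) * q * r - ∑ j, (β.1 j : ℕ))
  let R : F → Submodule K E := fun f =>
    U₁ ^ (182 * q * r + q - i * q * r) * U₂ ^ (2 * (i + 2) * q * r - ∑ j, (f.1 j : ℕ))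
  have hSfin : ∀ β, Module.Finite K (S β) := fun β =>
    Module.Finite.iff_fg.mpr (fam_fg h₁ h₂ _ _)
  have hRfin : ∀ f, Module.Finite K (R f) := fun f =>
    Module.Finite.iff_fg.mpr (fam_fg h₁ h₂ _ _)
  let ext : (∀ β : W, S β) → (Fin q → Fin (2 * (180 * r) + 1)) → E := fun v β =>
    if h : 2 * i * q * r ≤ ∑ j, (β j : ℕ) ∧ ∑ j, (β j : ℕ) < 2 * (i + 1) * q * r then
      (v ⟨β, h⟩ : E) else 0
  have hext1 : ∀ v β, ext v β ≠ 0 →
      2 * i * q * r ≤ ∑ j, (β j : ℕ) ∧ ∑ j, (β j : ℕ) < 2 * (i + 1) * q * r := by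
    intro v β h
    by_contra hcon
    exact h (dif_neg hcon)
  have hext2 : ∀ v β, ext v β ∈ U₁ ^ (∑ j, (β j : ℕ) / 2 + 2 * q * r + q - i * q * r) *
        U₂ ^ (2 * (i + 2) * q * r - ∑ j, (β j : ℕ)) := by
    intro v β
    by_cases h : 2 * i * q * r ≤ ∑ j, (β j : ℕ) ∧ ∑ j, (β j : ℕ) < 2 * (i + 1) * q * r
    · have : ext v β = (v ⟨β, h⟩ : E) := dif_pos h
      rw [this]
      exact (v ⟨β, h⟩).2
    · have : ext v β = 0 := dif_neg h
      rw [this]
      exact Submodule.zero_mem _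
  have hext3 : ∀ v (β : W), ext v β.1 = (v β : E) := by
    intro v β
    exact dif_pos β.2
  have hext_add : ∀ v w β, ext (v + w) β = ext v β + ext w β := by
    intro v w β
    by_cases h : 2 * i * q * r ≤ ∑ j, (β j : ℕ) ∧ ∑ j, (β j : ℕ) < 2 * (i + 1) * q * r
    · have h1 : ∀ v : (∀ β : W, S β), ext v β = (v ⟨β, h⟩ : E) := fun v => dif_pos h
      rw [h1, h1, h1]
      rfl
    · have h1 : ∀ v : (∀ β : W, S β), ext v β = 0 := fun v => dif_neg h
      rw [h1, h1, h1, add_zero]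
  have hext_smul : ∀ (k : K) v β, ext (k • v) β = k • ext v β := by
    intro k v β
    by_cases h : 2 * i * q * r ≤ ∑ j, (β j : ℕ) ∧ ∑ j, (β j : ℕ) < 2 * (i + 1) * q * r
    · have h1 : ∀ v : (∀ β : W, S β), ext v β = (v ⟨β, h⟩ : E) := fun v => dif_pos h
      rw [h1, h1]
      rfl
    · have h1 : ∀ v : (∀ β : W, S β), ext v β = 0 := fun v => dif_neg h
      rw [h1, h1, smul_zero]
  let Φ : (∀ β : W, S β) →ₗ[K] (∀ f : F, R f) :=
    { toFun := fun v f => ⟨lead (180 * r) (fun j => (f.1 j : ℕ)) l b (ext v),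
        fam_lead_mem hl hb (ext v) (hext1 v) (hext2 v) fun j => (f.1 j : ℕ)⟩
      map_add' := fun v w => by
        funext f
        apply Subtype.ext
        change lead _ _ _ _ _ = lead _ _ _ _ _ + lead _ _ _ _ _
        unfold lead
        rw [← Finset.sum_add_distrib]
        refine Finset.sum_congr rfl fun γ _ => ?_
        rw [hext_add, add_mul]
      map_smul' := fun k v => by
        funext f
        apply Subtype.ext
        change lead _ _ _ _ _ = k • lead _ _ _ _ _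
        unfold lead
        rw [Finset.smul_sum]
        refine Finset.sum_congr rfl fun γ _ => ?_
        rw [hext_smul, smul_mul_assoc] }
  have hdim : finrank K (∀ f : F, R f) < finrank K (∀ β : W, S β) := by
    rw [Module.finrank_pi_fintype, Module.finrank_pi_fintype]
    have b1 : ∑ f : F, finrank K (R f) ≤ Fintype.card F * H (182 * r) := by
      have : ∀ f : F, finrank K (R f) ≤ H (182 * r) := by
        intro f
        rw [hH]
        apply fam_finrank_mono h₁ h₂ h₁0 h₂0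
        · have : 2 * q * (182 * r) = 364 * (q * r) := by ring
          have h2 : 182 * q * r = 182 * (q * r) := by ring
          have h3 : q ≤ q * r := Nat.le_mul_of_pos_right q hr1
          omega
        · have h1 : 2 * (i + 2) * q * r ≤ 2 * q * (182 * r) := by
            have : 2 * (i + 2) * q * r = (2 * (i + 2)) * (q * r) := by ring
            rw [this]
            have : 2 * q * (182 * r) = 364 * (q * r) := by ring
            rw [this]
            apply Nat.mul_le_mul_right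
            omega
          omega
      refine (Finset.sum_le_sum fun f _ => this f).trans ?_
      simp
    have b2 : Fintype.card W * H r ≤ ∑ β : W, finrank K (S β) := by
      have : ∀ β : W, H r ≤ finrank K (S β) := by
        intro β
        rw [hH]
        obtain ⟨hw1, hw2⟩ := β.2
        have s5 : ∑ j, (β.1 j : ℕ) ≤ 2 * ∑ j, (β.1 j : ℕ) / 2 + q := by
          have h1 : ∀ j, (β.1 j : ℕ) ≤ 2 * ((β.1 j : ℕ) / 2) + 1 := fun j => by omega
          have := Finset.sum_le_sum fun j (_ : j ∈ (Finset.univ : Finset (Fin q))) => h1 j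
          rw [Finset.sum_add_distrib, ← Finset.mul_sum] at this
          simpa using this
        apply fam_finrank_mono h₁ h₂ h₁0 h₂0
        · have a1 : 2 * i * q * r = 2 * (i * q * r) := by ring
          have a2 : 2 * (i * q * r) ≤ ∑ j, (β.1 j : ℕ) := a1 ▸ hw1
          omega
        · have a1 : 2 * (i + 2) * q * r = 2 * (i + 1) * q * r + 2 * q * r := by ring
          omega
      have h2 := Finset.sum_le_sum fun β (_ : β ∈ (Finset.univ : Finset W)) => this β
      simpa using h2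
    have b3 : Fintype.card F = ((i + 6) * q * r + 2 * q).choose q := by
      have := card_simplex q T
      have h2 : T + q = (i + 6) * q * r + 2 * q := by
        show (i + 6) * q * r + q + q = _
        ring
      rw [h2] at this
      exact this
    have b4 : 0 < Fintype.card F := by
      rw [b3]
      apply Nat.choose_pos
      omega
    calc ∑ f : F, finrank K (R f) ≤ Fintype.card F * H (182 * r) := b1
      _ < Fintype.card F * ((182 ^ D + 1) * H r) := Nat.mul_lt_mul_of_pos_left hHr b4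
      _ = ((182 ^ D + 1) * Fintype.card F) * H r := by ring
      _ ≤ Fintype.card W * H r := by
          apply Nat.mul_le_mul_right
          rw [b3]
          exact hwin
      _ ≤ _ := b2
  have hker : LinearMap.ker Φ ≠ ⊥ := LinearMap.ker_ne_bot_of_finrank_lt hdim
  obtain ⟨v, hv, hv0⟩ := Submodule.exists_mem_ne_zero_of_ne_bot hker
  rw [LinearMap.mem_ker] at hv
  refine ⟨ext v, ?_, hext1 v, hext2 v, ?_⟩
  · intro h0
    apply hv0
    funext β
    apply Subtype.ext
    rw [← hext3 v β, h0]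
    rfl
  · intro f hf
    have hfj : ∀ j, f j < T + 1 := by
      intro j
      have h1 : f j ≤ ∑ j, f j := Finset.single_le_sum (fun j _ => Nat.zero_le _) (Finset.mem_univ j)
      exact Nat.lt_succ_of_le (h1.trans hf)
    have h2 := congrFun hv ⟨fun j => ⟨f j, hfj j⟩, hf⟩
    exact congrArg Subtype.val h2

end Pool.Agent.Lib.GGL.VG
end

section

/-!
Lexicographic Taylor coefficients.
-/

open Filter Topology MvPolynomial Module

namespace Pool.Agent.Lib.GGL.VG

lemma sum_cons {A : Type*} [AddCommMonoid A] {q k : ℕ} (F : (Fin (q + 1) → Fin (k + 1)) → A) :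
    ∑ γ, F γ = ∑ γ : Fin q → Fin (k + 1), ∑ e : Fin (k + 1), F (Fin.cons e γ) := by
  rw [← (Fin.consEquiv (fun _ : Fin (q + 1) => Fin (k + 1))).sum_comp, Fintype.sum_prod_type,
    Finset.sum_comm]
  rfl

theorem lead_succ {A : Type*} [CommRing A] {q k : ℕ} (K : ℕ) (g : Fin (q + 1) → ℕ)
    (l b : Fin (q + 1) → A) (c : (Fin (q + 1) → Fin (k + 1)) → A) :
    lead K g l b c = lead K (Fin.tail g) (Fin.tail l) (Fin.tail b) (tay K (l 0) (b 0) (g 0) c) := by
  rw [lead, sum_cons, lead]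
  refine Finset.sum_congr rfl fun γ _ => ?_
  rw [tay, Finset.sum_mul]
  refine Finset.sum_congr rfl fun e _ => ?_
  rw [Fin.prod_univ_succ]
  simp only [Fin.cons_zero, Fin.cons_succ, Fin.tail]
  ring

lemma exists_tay {E : Type*} [Field E] {q k : ℕ} (K : ℕ) {l : E} (hl : l ≠ 0) (b : E)
    {c : (Fin (q + 1) → Fin (k + 1)) → E} (hc : c ≠ 0) : ∃ f, tay K l b f c ≠ 0 := by
  classical
  obtain ⟨γ, hγ⟩ := Function.ne_iff.mp hc
  rw [Pi.zero_apply] at hγ
  obtain ⟨S, hS⟩ : ∃ S : Finset (Fin (k + 1)),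
    S = Finset.univ.filter fun e => c (Fin.cons e (Fin.tail γ)) ≠ 0 := ⟨_, rfl⟩
  have hmem : γ 0 ∈ S := by
    rw [hS, Finset.mem_filter]
    refine ⟨Finset.mem_univ _, ?_⟩
    rw [Fin.cons_self_tail]
    exact hγ
  obtain ⟨e, he⟩ : ∃ e, e = S.max' ⟨_, hmem⟩ := ⟨_, rfl⟩
  have he1 : e ∈ S := by rw [he]; exact S.max'_mem _
  have he2 : ∀ e' ∈ S, e' ≤ e := by rw [he]; exact fun e' h => S.le_max' _ h
  refine ⟨e, fun h0 => ?_⟩
  have h1 := congrFun h0 (Fin.tail γ)
  rw [tay, Pi.zero_apply, Finset.sum_eq_single e] at h1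
  · rw [Nat.choose_self, Nat.cast_one, mul_one, Nat.sub_self, pow_zero, mul_one] at h1
    rw [hS, Finset.mem_filter] at he1
    exact he1.2 ((mul_eq_zero.mp h1).resolve_right (pow_ne_zero _ hl))
  · intro e' _ hne
    rcases lt_or_gt_of_ne hne with h | h
    · rw [Nat.choose_eq_zero_of_lt (by exact_mod_cast h)]
      simp
    · have : c (Fin.cons e' (Fin.tail γ)) = 0 := by
        by_contra hcon
        have := he2 e' (by rw [hS, Finset.mem_filter]; exact ⟨Finset.mem_univ _, hcon⟩)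
        exact absurd this (not_le.mpr h)
      rw [this]
      ring
  · intro h
    exact absurd (Finset.mem_univ _) h

theorem exists_good {E : Type*} [Field E] {q k : ℕ} (K : ℕ) {l : Fin q → E} (hl : ∀ j, l j ≠ 0)
    (b : Fin q → E) {c : (Fin q → Fin (k + 1)) → E} (hc : c ≠ 0) :
    ∃ g : Fin q → ℕ, Good K q g l b c ∧ lead K g l b c ≠ 0 := by
  classical
  induction q with
  | zero =>
    refine ⟨Fin.elim0, trivial, ?_⟩
    obtain ⟨γ, hγ⟩ := Function.ne_iff.mp hc
    rw [lead, Fintype.sum_eq_single γ (fun γ' h => absurd (Subsingleton.elim γ' γ) h)]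
    simpa using hγ
  | succ q ih =>
    have hex := exists_tay K (hl 0) (b 0) hc
    obtain ⟨f, hf1, hf2⟩ : ∃ f, tay K (l 0) (b 0) f c ≠ 0 ∧
        ∀ f' < f, tay K (l 0) (b 0) f' c = 0 :=
      ⟨Nat.find hex, Nat.find_spec hex, fun f' h => not_not.mp (Nat.find_min hex h)⟩
    obtain ⟨g, hg1, hg2⟩ := ih (l := Fin.tail l) (fun j => hl j.succ) (Fin.tail b) hf1
    refine ⟨Fin.cons f g, ⟨?_, ?_⟩, ?_⟩
    · intro f' hf' γ
      rw [Fin.cons_zero] at hf'
      rw [hf2 f' hf']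
      rfl
    · rw [Fin.tail_cons, Fin.cons_zero]
      exact hg1
    · rw [lead_succ, Fin.tail_cons, Fin.cons_zero]
      exact hg2

lemma map_tay {A B : Type*} [CommRing A] [CommRing B] (φ : A →+* B) {q k : ℕ} (K : ℕ) (l b : A)
    (f : ℕ) (c : (Fin (q + 1) → Fin (k + 1)) → A) (γ : Fin q → Fin (k + 1)) :
    φ (tay K l b f c γ) = tay K (φ l) (φ b) f (fun γ => φ (c γ)) γ := by
  simp [tay]

lemma map_lead {A B : Type*} [CommRing A] [CommRing B] (φ : A →+* B) {q k : ℕ} (K : ℕ)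
    (g : Fin q → ℕ) (l b : Fin q → A) (c : (Fin q → Fin (k + 1)) → A) :
    φ (lead K g l b c) = lead K g (fun j => φ (l j)) (fun j => φ (b j)) (fun γ => φ (c γ)) := by
  simp [lead]

theorem Good.map {A B B' : Type*} [CommRing A] [CommRing B] [CommRing B'] (φ : A →+* B)
    (ψ : A →+* B') (hφψ : ∀ a, φ a = 0 → ψ a = 0) {q k : ℕ} {K : ℕ} {g : Fin q → ℕ}
    {l b : Fin q → A} {c : (Fin q → Fin (k + 1)) → A}
    (h : Good K q g (fun j => φ (l j)) (fun j => φ (b j)) (fun γ => φ (c γ))) :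
    Good K q g (fun j => ψ (l j)) (fun j => ψ (b j)) (fun γ => ψ (c γ)) := by
  induction q with
  | zero => trivial
  | succ q ih =>
    obtain ⟨h1, h2⟩ := h
    refine ⟨fun f hf γ => ?_, ?_⟩
    · rw [← map_tay]
      apply hφψ
      rw [map_tay]
      exact h1 f hf γ
    · have h3 : tay K (ψ (l 0)) (ψ (b 0)) (g 0) (fun γ => ψ (c γ)) =
          fun γ => ψ (tay K (l 0) (b 0) (g 0) c γ) := by
        funext γ
        rw [map_tay]
      have h4 : tay K (φ (l 0)) (φ (b 0)) (g 0) (fun γ => φ (c γ)) =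
          fun γ => φ (tay K (l 0) (b 0) (g 0) c γ) := by
        funext γ
        rw [map_tay]
      rw [h3]
      rw [h4] at h2
      exact ih (l := Fin.tail l) (b := Fin.tail b) h2

end Pool.Agent.Lib.GGL.VG
end

section

/-!
The bound for the first Taylor coefficient.
-/

open Filter Topology MvPolynomial Module

namespace Pool.Agent.Lib.GGL.VG

lemma one_var {F h G : ℂ → ℂ} {m K2 : ℕ} {x0 : ℂ} {C : ℝ} (hF : Differentiable ℂ F)
    (hh : Differentiable ℂ h) (hG : Differentiable ℂ G) (hx0 : x0 ≠ 0)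
    (hid : ∀ u, x0 + u ≠ 0 → (x0 + u) ^ K2 * F u = h u ^ m * G u) (hne : h (-x0) ≠ 0)
    (hbig : ∀ u, ‖u‖ = 3 → 1 ≤ ‖h u‖) (hC : ∀ u, ‖u‖ = 3 → ‖F u‖ ≤ C) :
    ‖G 0‖ ≤ C * ‖x0‖ ^ K2 := by
  classical
  obtain ⟨Q, hQ⟩ : ∃ Q : ℂ → ℂ, Q = fun u => if u = -x0 then F u / h u ^ m else
    G u / (x0 + u) ^ K2 := ⟨_, rfl⟩
  have hQ1 : ∀ u, h u ≠ 0 → Q u = F u / h u ^ m := by
    intro u hu
    rw [hQ]
    by_cases h1 : u = -x0
    · simp only [h1, if_true]
    · have h2 : x0 + u ≠ 0 := by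
        intro h3
        apply h1
        linear_combination h3
      simp only [h1, if_false]
      rw [div_eq_div_iff (pow_ne_zero _ h2) (pow_ne_zero _ hu)]
      linear_combination -hid u h2
  have hQ2 : ∀ u, u ≠ -x0 → Q u = G u / (x0 + u) ^ K2 := by
    intro u hu
    rw [hQ]
    simp only [hu, if_false]
  have hQd : Differentiable ℂ Q := by
    intro u
    by_cases h1 : u = -x0
    · have h2 : ∀ᶠ w in 𝓝 u, h w ≠ 0 := by
        apply (hh u).continuousAt.eventually_ne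
        rw [h1]
        exact hne
      have h3 : Q =ᶠ[𝓝 u] fun w => F w / h w ^ m := by
        filter_upwards [h2] with w hw using hQ1 w hw
      refine DifferentiableAt.congr_of_eventuallyEq ?_ h3
      refine (hF u).fun_div ((hh u).fun_pow m) ?_
      rw [h1]
      exact pow_ne_zero _ hne
    · have h2 : ∀ᶠ w in 𝓝 u, w ≠ -x0 := eventually_ne_nhds h1
      have h3 : Q =ᶠ[𝓝 u] fun w => G w / (x0 + w) ^ K2 := by
        filter_upwards [h2] with w hw using hQ2 w hw
      refine DifferentiableAt.congr_of_eventuallyEq ?_ h3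
      refine (hG u).fun_div ?_ ?_
      · fun_prop
      · apply pow_ne_zero
        intro h4
        apply h1
        linear_combination h4
  have hmax : ‖Q 0‖ ≤ C := by
    refine Complex.norm_le_of_forall_mem_frontier_norm_le (U := Metric.ball 0 3)
      Metric.isBounded_ball hQd.diffContOnCl ?_ (subset_closure (Metric.mem_ball_self (by norm_num)))
    intro u hu
    rw [frontier_ball _ (by norm_num), mem_sphere_zero_iff_norm] at hu
    have h1 : 1 ≤ ‖h u‖ := hbig u hu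
    have h2 : h u ≠ 0 := by
      intro h3
      rw [h3, norm_zero] at h1
      linarith
    rw [hQ1 u h2, norm_div, norm_pow]
    have h3 : 1 ≤ ‖h u‖ ^ m := one_le_pow₀ h1
    have h4 := hC u hu
    calc ‖F u‖ / ‖h u‖ ^ m ≤ ‖F u‖ / 1 := by gcongr
      _ ≤ C := by rw [div_one]; exact h4
  have h0 : (0:ℂ) ≠ -x0 := by
    intro h
    apply hx0
    linear_combination h
  rw [hQ2 0 h0, add_zero, norm_div, norm_pow, div_le_iff₀ (by positivity)] at hmax
  exact hmax

lemma quad_big {κ x0 v0 u : ℂ} {κ₀ : ℝ} (hκ : ‖κ‖ ≤ κ₀) (hx : ‖x0‖ ≤ 1) (hv : ‖v0‖ ≤ 1)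
    (hu : ‖u‖ = 3) :
    1 ≤ ‖u * ((2 * (3 + 5 * κ₀ : ℝ) - κ) * u + 2 * (x0 * (3 + 5 * κ₀ : ℝ) + v0 - κ * x0))‖ := by
  have hκ₀ : 0 ≤ κ₀ := (norm_nonneg _).trans hκ
  rw [norm_mul, hu]
  obtain ⟨B, hB⟩ : ∃ B : ℝ, B = 3 + 5 * κ₀ := ⟨_, rfl⟩
  rw [← hB]
  have h1 : 2 * B - κ₀ ≤ ‖2 * (B : ℂ) - κ‖ := by
    have h2 : ‖2 * (B : ℂ)‖ = 2 * B := by
      rw [norm_mul, Complex.norm_real, Real.norm_of_nonneg (by rw [hB]; positivity)]
      norm_num
    have := norm_sub_norm_le (2 * (B : ℂ)) κ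
    linarith
  have h2 : ‖2 * (x0 * B + v0 - κ * x0)‖ ≤ 2 * (B + 1 + κ₀) := by
    rw [norm_mul]
    have h3 : ‖x0 * B + v0 - κ * x0‖ ≤ ‖x0‖ * B + ‖v0‖ + ‖κ‖ * ‖x0‖ := by
      calc ‖x0 * B + v0 - κ * x0‖ ≤ ‖x0 * B + v0‖ + ‖κ * x0‖ := norm_sub_le _ _
        _ ≤ ‖x0 * B‖ + ‖v0‖ + ‖κ * x0‖ := by gcongr; exact norm_add_le _ _
        _ = ‖x0‖ * B + ‖v0‖ + ‖κ‖ * ‖x0‖ := by
          rw [norm_mul, norm_mul, Complex.norm_real, Real.norm_of_nonneg (by rw [hB]; positivity)]
    have h4 : ‖x0‖ * B ≤ B := by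
      have : 0 ≤ B := by rw [hB]; positivity
      nlinarith
    have h5 : ‖κ‖ * ‖x0‖ ≤ κ₀ * 1 := by gcongr
    have h6 : ‖(2:ℂ)‖ = 2 := by norm_num
    rw [h6]
    linarith
  have h3 : ‖(2 * (B : ℂ) - κ) * u‖ = ‖2 * (B : ℂ) - κ‖ * 3 := by rw [norm_mul, hu]
  have h4 := norm_sub_norm_le ((2 * (B : ℂ) - κ) * u) (-(2 * (x0 * B + v0 - κ * x0)))
  rw [norm_neg, sub_neg_eq_add, h3] at h4
  nlinarith

theorem bound {q K : ℕ} (c : (Fin q → Fin (2 * K + 1)) → (Fin q → ℂ) → ℂ)
    (hc : ∀ γ, Differentiable ℂ (c γ)) (g : Fin q → ℕ) {κ : ℂ} {θ : Fin q → ℂ}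
    (hθ : ∀ j, θ j ≠ 0) {κ₀ C : ℝ} (hκ : ‖κ‖ ≤ κ₀)
    (hgood : ∀ X : Fin q → ℂ, (∀ j, X j ≠ 0) →
      Good K q g (fun j => X j ^ 2) (fun j => θ j + κ * X j ^ 2) (fun γ => c γ X))
    (hbd : ∀ X V : Fin q → ℂ, (∀ j, X j ≠ 0) → (∀ j, ‖X j‖ ≤ 4) →
      (∀ j, ‖V j‖ ≤ 10 + 15 * κ₀) →
      ‖∑ γ, c γ X * ∏ j, ((2 * V j) ^ (γ j : ℕ) * X j ^ ((γ j : ℕ) % 2))‖ ≤ C)
    (x v : Fin q → ℂ) (hx0 : ∀ j, x j ≠ 0) (hx : ∀ j, ‖x j‖ ≤ 1) (hv : ∀ j, ‖v j‖ ≤ 1)
    (hxv : ∀ j, 2 * x j * v j = θ j + κ * x j ^ 2) :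
    ‖lead K g (fun j => x j ^ 2) (fun j => θ j + κ * x j ^ 2) (fun γ => c γ x)‖ ≤
      C * ∏ j, ‖x j‖ ^ (2 * K) := by
  have hκ₀ : 0 ≤ κ₀ := (norm_nonneg _).trans hκ
  induction q generalizing C with
  | zero =>
    have h1 := hbd x v (fun j => j.elim0) (fun j => j.elim0) (fun j => j.elim0)
    simpa [lead] using h1
  | succ q ih =>
    obtain ⟨B, hB⟩ : ∃ B : ℝ, B = 3 + 5 * κ₀ := ⟨_, rfl⟩
    have hB0 : 0 ≤ B := by rw [hB]; positivity
    -- the new coefficients
    obtain ⟨c', hc'⟩ : ∃ c' : (Fin q → Fin (2 * K + 1)) → (Fin q → ℂ) → ℂ, c' = fun γ X =>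
      tay K (x 0 ^ 2) (θ 0 + κ * x 0 ^ 2) (g 0) (fun γ => c γ (Fin.cons (x 0) X)) γ := ⟨_, rfl⟩
    have hconsd : ∀ X : Fin q → ℂ, Differentiable ℂ fun u : ℂ =>
        (Fin.cons (x 0 + u) X : Fin (q + 1) → ℂ) := by
      intro X
      rw [differentiable_pi]
      intro j
      refine Fin.cases ?_ (fun j => ?_) j
      · simp only [Fin.cons_zero]
        fun_prop
      · simp only [Fin.cons_succ]
        fun_prop
    have hconsd' : Differentiable ℂ fun X : Fin q → ℂ =>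
        (Fin.cons (x 0) X : Fin (q + 1) → ℂ) := by
      rw [differentiable_pi]
      intro j
      refine Fin.cases ?_ (fun j => ?_) j
      · simp only [Fin.cons_zero]
        fun_prop
      · simp only [Fin.cons_succ]
        fun_prop
    have hcomp : ∀ γ, Differentiable ℂ fun X : Fin q → ℂ =>
        c γ (Fin.cons (x 0) X : Fin (q + 1) → ℂ) := fun γ => (hc γ).comp hconsd'
    have hc'd : ∀ γ, Differentiable ℂ (c' γ) := by
      intro γ
      rw [hc']
      unfold tay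
      fun_prop
    have hgood' : ∀ X : Fin q → ℂ, (∀ j, X j ≠ 0) →
        Good K q (Fin.tail g) (fun j => X j ^ 2) (fun j => Fin.tail θ j + κ * X j ^ 2)
          (fun γ => c' γ X) := by
      intro X hX
      have h1 := (hgood (Fin.cons (x 0) X) (by
        intro j
        refine Fin.cases ?_ (fun j => ?_) j
        · rw [Fin.cons_zero]; exact hx0 0
        · rw [Fin.cons_succ]; exact hX j)).2
      rw [hc']
      exact h1
    have hbd' : ∀ X V : Fin q → ℂ, (∀ j, X j ≠ 0) → (∀ j, ‖X j‖ ≤ 4) →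
        (∀ j, ‖V j‖ ≤ 10 + 15 * κ₀) →
        ‖∑ γ, c' γ X * ∏ j, ((2 * V j) ^ (γ j : ℕ) * X j ^ ((γ j : ℕ) % 2))‖ ≤
          C * ‖x 0‖ ^ (2 * K) := by
      intro X V hX0 hX4 hV
      obtain ⟨w, hw⟩ : ∃ w : (Fin q → Fin (2 * K + 1)) → ℂ, w = fun γ =>
        ∏ j, ((2 * V j) ^ (γ j : ℕ) * X j ^ ((γ j : ℕ) % 2)) := ⟨_, rfl⟩
      obtain ⟨A, hA⟩ : ∃ A : Fin (2 * K + 1) → ℂ → ℂ, A = fun e u =>
        ∑ γ : Fin q → Fin (2 * K + 1), c (Fin.cons e γ) (Fin.cons (x 0 + u) X) * w γ := ⟨_, rfl⟩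
      have hAd : ∀ e, Differentiable ℂ (A e) := by
        intro e
        rw [hA]
        have h1 : ∀ γ, Differentiable ℂ fun u : ℂ =>
          c γ (Fin.cons (x 0 + u) X : Fin (q + 1) → ℂ) := fun γ => (hc γ).comp (hconsd X)
        fun_prop
      -- the functions of u
      obtain ⟨F, hF⟩ : ∃ F : ℂ → ℂ, F = fun u => ∑ e : Fin (2 * K + 1), A e u *
        ((2 * (v 0 + B * u)) ^ (e : ℕ) * (x 0 + u) ^ ((e : ℕ) % 2)) := ⟨_, rfl⟩
      obtain ⟨τ, hτ⟩ : ∃ τ : ℕ → ℂ → ℂ, τ = fun f u => ∑ e : Fin (2 * K + 1), A e u *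
        (((e : ℕ).choose f : ℕ) : ℂ) * (θ 0 + κ * (x 0 + u) ^ 2) ^ ((e : ℕ) - f) *
          ((x 0 + u) ^ 2) ^ (K - (e : ℕ) / 2) := ⟨_, rfl⟩
      obtain ⟨h, hh⟩ : ∃ h : ℂ → ℂ, h = fun u => 2 * (x 0 + u) * (v 0 + B * u) -
        (θ 0 + κ * (x 0 + u) ^ 2) := ⟨_, rfl⟩
      obtain ⟨G, hG⟩ : ∃ G : ℂ → ℂ, G = fun u => ∑ f ∈ Finset.range (2 * K + 1),
        if g 0 ≤ f then h u ^ (f - g 0) * τ f u else 0 := ⟨_, rfl⟩
      have hFd : Differentiable ℂ F := by rw [hF]; fun_prop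
      have hhd : Differentiable ℂ h := by rw [hh]; fun_prop
      have hτd : ∀ f, Differentiable ℂ (τ f) := by intro f; rw [hτ]; fun_prop
      have hGd : Differentiable ℂ G := by
        rw [hG]
        refine Differentiable.fun_sum fun f _ => ?_
        split_ifs
        · have := hτd f
          fun_prop
        · fun_prop
      -- expansion
      have hexp : ∀ u, (x 0 + u) ^ (2 * K) * F u =
          ∑ f ∈ Finset.range (2 * K + 1), h u ^ f * τ f u := by
        intro u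
        have h1 : ∀ e : Fin (2 * K + 1), (x 0 + u) ^ (2 * K) *
            ((2 * (v 0 + B * u)) ^ (e : ℕ) * (x 0 + u) ^ ((e : ℕ) % 2)) =
            (2 * (x 0 + u) * (v 0 + B * u)) ^ (e : ℕ) * ((x 0 + u) ^ 2) ^ (K - (e : ℕ) / 2) := by
          intro e
          have h2 : 2 * K + (e : ℕ) % 2 = (e : ℕ) + 2 * (K - (e : ℕ) / 2) := by
            have := e.2
            omega
          generalize x 0 + u = y
          generalize v 0 + B * u = b
          have h3 : 2 * y * b = (2 * b) * y := by ring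
          rw [h3]
          generalize 2 * b = a
          rw [mul_pow, ← pow_mul]
          calc _ = a ^ (e : ℕ) * y ^ (2 * K + (e : ℕ) % 2) := by
                rw [pow_add]; ring
            _ = _ := by rw [h2, pow_add]; ring
        have h4 : ∀ e : Fin (2 * K + 1), (2 * (x 0 + u) * (v 0 + B * u)) ^ (e : ℕ) =
            ∑ f ∈ Finset.range (2 * K + 1), h u ^ f *
              (θ 0 + κ * (x 0 + u) ^ 2) ^ ((e : ℕ) - f) * (((e : ℕ).choose f : ℕ) : ℂ) := by
          intro e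
          have h5 : 2 * (x 0 + u) * (v 0 + B * u) = h u + (θ 0 + κ * (x 0 + u) ^ 2) := by
            rw [hh]; ring
          rw [h5, add_pow]
          refine Finset.sum_subset ?_ ?_
          · intro f hf
            rw [Finset.mem_range] at hf ⊢
            have := e.2
            omega
          · intro f _ hf
            rw [Finset.mem_range, not_lt] at hf
            rw [Nat.choose_eq_zero_of_lt (by omega)]
            simp
        rw [hF]
        beta_reduce
        rw [Finset.mul_sum]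
        calc ∑ e : Fin (2 * K + 1), (x 0 + u) ^ (2 * K) * (A e u *
              ((2 * (v 0 + B * u)) ^ (e : ℕ) * (x 0 + u) ^ ((e : ℕ) % 2)))
            = ∑ e : Fin (2 * K + 1), A e u * (((x 0 + u) ^ 2) ^ (K - (e : ℕ) / 2) *
              ∑ f ∈ Finset.range (2 * K + 1), h u ^ f *
              (θ 0 + κ * (x 0 + u) ^ 2) ^ ((e : ℕ) - f) * (((e : ℕ).choose f : ℕ) : ℂ)) := by
                refine Finset.sum_congr rfl fun e _ => ?_
                rw [← h4 e, mul_comm (((x 0 + u) ^ 2) ^ (K - (e : ℕ) / 2)), ← h1 e]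
                ring
          _ = ∑ e : Fin (2 * K + 1), ∑ f ∈ Finset.range (2 * K + 1), h u ^ f * (A e u *
              (((e : ℕ).choose f : ℕ) : ℂ) * (θ 0 + κ * (x 0 + u) ^ 2) ^ ((e : ℕ) - f) *
              ((x 0 + u) ^ 2) ^ (K - (e : ℕ) / 2)) := by
                refine Finset.sum_congr rfl fun e _ => ?_
                rw [Finset.mul_sum, Finset.mul_sum]
                refine Finset.sum_congr rfl fun f _ => ?_
                ring
          _ = _ := by
                rw [Finset.sum_comm]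
                refine Finset.sum_congr rfl fun f _ => ?_
                rw [hτ, Finset.mul_sum]
      -- the Taylor coefficients
      have hτtay : ∀ f u, τ f u = ∑ γ : Fin q → Fin (2 * K + 1),
          tay K ((x 0 + u) ^ 2) (θ 0 + κ * (x 0 + u) ^ 2) f
            (fun γ => c γ (Fin.cons (x 0 + u) X)) γ * w γ := by
        intro f u
        rw [hτ, hA]
        simp only [tay]
        rw [Finset.sum_congr rfl fun γ _ => Finset.sum_mul _ _ _, Finset.sum_comm]
        refine Finset.sum_congr rfl fun e _ => ?_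
        rw [Finset.sum_mul, Finset.sum_mul, Finset.sum_mul]
        refine Finset.sum_congr rfl fun γ _ => ?_
        ring
      have hvan : ∀ f < g 0, ∀ u, x 0 + u ≠ 0 → τ f u = 0 := by
        intro f hf u hu
        rw [hτtay]
        have h1 := (hgood (Fin.cons (x 0 + u) X) (by
          intro j
          refine Fin.cases ?_ (fun j => ?_) j
          · rw [Fin.cons_zero]; exact hu
          · rw [Fin.cons_succ]; exact hX0 j)).1 f hf
        refine Finset.sum_eq_zero fun γ _ => ?_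
        have h2 := h1 γ
        simp only [Fin.cons_zero] at h2
        rw [h2, zero_mul]
      have hid : ∀ u, x 0 + u ≠ 0 → (x 0 + u) ^ (2 * K) * F u = h u ^ g 0 * G u := by
        intro u hu
        rw [hexp, hG, Finset.mul_sum]
        refine Finset.sum_congr rfl fun f _ => ?_
        split_ifs with h1
        · rw [← mul_assoc, ← pow_add]
          congr 2
          omega
        · rw [hvan f (by omega) u hu]
          simp
      have hne : h (-x 0) ≠ 0 := by
        rw [hh]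
        simp only [add_neg_cancel]
        simpa using hθ 0
      have hhu : ∀ u, h u = u * ((2 * (3 + 5 * κ₀ : ℝ) - κ) * u +
          2 * (x 0 * (3 + 5 * κ₀ : ℝ) + v 0 - κ * x 0)) := by
        intro u
        rw [hh, ← hB]
        linear_combination hxv 0
      have hbig : ∀ u, ‖u‖ = 3 → 1 ≤ ‖h u‖ := by
        intro u hu
        rw [hhu]
        exact quad_big hκ (hx 0) (hv 0) hu
      have hFC : ∀ u, ‖u‖ = 3 → ‖F u‖ ≤ C := by
        intro u hu
        have h1 := hbd (Fin.cons (x 0 + u) X) (Fin.cons (v 0 + B * u) V) (by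
          intro j
          refine Fin.cases ?_ (fun j => ?_) j
          · rw [Fin.cons_zero]
            intro h2
            have h3 : ‖u‖ = ‖x 0‖ := by
              have : u = -x 0 := by linear_combination h2
              rw [this, norm_neg]
            have := hx 0
            linarith
          · rw [Fin.cons_succ]; exact hX0 j) (by
          intro j
          refine Fin.cases ?_ (fun j => ?_) j
          · rw [Fin.cons_zero]
            have := norm_add_le (x 0) u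
            have := hx 0
            linarith
          · rw [Fin.cons_succ]; exact hX4 j) (by
          intro j
          refine Fin.cases ?_ (fun j => ?_) j
          · rw [Fin.cons_zero]
            have h2 := norm_add_le (v 0) (B * u)
            have h3 := hv 0
            rw [norm_mul, Complex.norm_real, Real.norm_of_nonneg hB0, hu] at h2
            linarith
          · rw [Fin.cons_succ]; exact hV j)
        have h2 : F u = ∑ γ : Fin (q + 1) → Fin (2 * K + 1),
            c γ (Fin.cons (x 0 + u) X) * ∏ j, ((2 * (Fin.cons (v 0 + B * u) V : Fin (q + 1) → ℂ) j) ^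
              (γ j : ℕ) * (Fin.cons (x 0 + u) X : Fin (q + 1) → ℂ) j ^ ((γ j : ℕ) % 2)) := by
          rw [sum_cons, hF, hA]
          beta_reduce
          rw [Finset.sum_comm]
          refine Finset.sum_congr rfl fun e _ => ?_
          rw [Finset.sum_mul]
          refine Finset.sum_congr rfl fun γ _ => ?_
          rw [Fin.prod_univ_succ, hw]
          simp only [Fin.cons_zero, Fin.cons_succ]
          ring
        rw [h2]
        exact h1
      have hfin := one_var hFd hhd hGd (hx0 0) hid hne hbig hFC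
      have hG0 : G 0 = ∑ γ, c' γ X * w γ := by
        have h1 : h 0 = 0 := by rw [hhu, zero_mul]
        have h2 : G 0 = τ (g 0) 0 := by
          rw [hG]
          beta_reduce
          rw [h1]
          by_cases h3 : g 0 ∈ Finset.range (2 * K + 1)
          · rw [Finset.sum_eq_single (g 0)]
            · simp
            · intro f _ hf
              split_ifs with h4
              · rw [zero_pow (by omega), zero_mul]
              · rfl
            · intro h4
              exact absurd h3 h4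
          · rw [Finset.mem_range, not_lt] at h3
            rw [Finset.sum_eq_zero]
            · rw [hτ]
              symm
              refine Finset.sum_eq_zero fun e _ => ?_
              have := e.2
              rw [Nat.choose_eq_zero_of_lt (by omega)]
              simp
            · intro f hf
              rw [Finset.mem_range] at hf
              rw [if_neg (by omega)]
        rw [h2, hτtay, hc']
        simp only [add_zero]
      have h5 : ∑ γ, c' γ X * ∏ j, ((2 * V j) ^ (γ j : ℕ) * X j ^ ((γ j : ℕ) % 2)) = G 0 := by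
        rw [hG0, hw]
      rw [h5]
      exact hfin
    have hfin := ih c' hc'd (Fin.tail g) (θ := Fin.tail θ) (fun j => hθ j.succ)
      hgood' hbd' (Fin.tail x) (Fin.tail v) (fun j => hx0 j.succ) (fun j => hx j.succ)
      (fun j => hv j.succ) (fun j => hxv j.succ)
    rw [lead_succ, Fin.prod_univ_succ]
    have h1 : (fun γ => c' γ (Fin.tail x)) = tay K (x 0 ^ 2) (θ 0 + κ * x 0 ^ 2) (g 0)
        (fun γ => c γ x) := by
      funext γ
      rw [hc']
      beta_reduce
      rw [Fin.cons_self_tail]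
    rw [h1] at hfin
    calc _ ≤ C * ‖x 0‖ ^ (2 * K) * ∏ j, ‖Fin.tail x j‖ ^ (2 * K) := hfin
      _ = _ := by
        rw [mul_assoc]
        rfl

end Pool.Agent.Lib.GGL.VG
end
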