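import Mathlib
import Pool.Agent.Lib.MP_8d161d_ag.SM.Defs

section

/-!
Lexicographic Taylor coefficients, logarithmic version.
-/

open Filter Topology MvPolynomial Module

namespace Pool.Agent.Lib.GGL.SM

lemma b1_sum_cons {A : Type*} [AddCommMonoid A] {q k : ℕ}
    (F : (Fin (q + 1) → Fin (k + 1)) → A) :
    ∑ γ, F γ = ∑ γ : Fin q → Fin (k + 1), ∑ e : Fin (k + 1), F (Fin.cons e γ) := by
  rw [← (Fin.consEquiv (fun _ : Fin (q + 1) => Fin (k + 1))).sum_comp, Fintype.sum_prod_type,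
    Finset.sum_comm]
  rfl

theorem leadL_succ {A : Type*} [CommRing A] {q K : ℕ} (g : Fin (q + 1) → ℕ)
    (l b : Fin (q + 1) → A) (c : (Fin (q + 1) → Fin (K + 1)) → A) :
    leadL g l b c = leadL (Fin.tail g) (Fin.tail l) (Fin.tail b) (tayL (l 0) (b 0) (g 0) c) := by
  rw [leadL, b1_sum_cons, leadL]
  refine Finset.sum_congr rfl fun γ _ => ?_
  rw [tayL, Finset.sum_mul]
  refine Finset.sum_congr rfl fun e _ => ?_
  rw [Fin.prod_univ_succ]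
  simp only [Fin.cons_zero, Fin.cons_succ, Fin.tail]
  ring

lemma b1_exists_tay {E : Type*} [Field E] {q K : ℕ} {l : E} (hl : l ≠ 0) (b : E)
    {c : (Fin (q + 1) → Fin (K + 1)) → E} (hc : c ≠ 0) : ∃ f, tayL l b f c ≠ 0 := by
  classical
  obtain ⟨γ, hγ⟩ := Function.ne_iff.mp hc
  rw [Pi.zero_apply] at hγ
  obtain ⟨S, hS⟩ : ∃ S : Finset (Fin (K + 1)),
    S = Finset.univ.filter fun e => c (Fin.cons e (Fin.tail γ)) ≠ 0 := ⟨_, rfl⟩
  have hmem : γ 0 ∈ S := by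
    rw [hS, Finset.mem_filter]
    refine ⟨Finset.mem_univ _, ?_⟩
    rw [Fin.cons_self_tail]
    exact hγ
  obtain ⟨e, he⟩ : ∃ e, e = S.max' ⟨_, hmem⟩ := ⟨_, rfl⟩
  have he1 : e ∈ S := by rw [he]; exact S.max'_mem _
  have he2 : ∀ e' ∈ S, e' ≤ e := by rw [he]; exact fun e' h => S.le_max' _ h
  refine ⟨e, fun h0 => ?_⟩
  have h1 := congrFun h0 (Fin.tail γ)
  rw [tayL, Pi.zero_apply, Finset.sum_eq_single e] at h1
  · rw [Nat.choose_self, Nat.cast_one, mul_one, Nat.sub_self, pow_zero, mul_one] at h1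
    rw [hS, Finset.mem_filter] at he1
    exact he1.2 ((mul_eq_zero.mp h1).resolve_right (pow_ne_zero _ hl))
  · intro e' _ hne
    rcases lt_or_gt_of_ne hne with h | h
    · rw [Nat.choose_eq_zero_of_lt (by exact_mod_cast h)]
      simp
    · have : c (Fin.cons e' (Fin.tail γ)) = 0 := by
        by_contra hcon
        have := he2 e' (by rw [hS, Finset.mem_filter]; exact ⟨Finset.mem_univ _, hcon⟩)
        exact absurd this (not_le.mpr h)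
      rw [this]
      ring
  · intro h
    exact absurd (Finset.mem_univ _) h

theorem exists_goodL {E : Type*} [Field E] {q K : ℕ} {l : Fin q → E} (hl : ∀ j, l j ≠ 0)
    (b : Fin q → E) {c : (Fin q → Fin (K + 1)) → E} (hc : c ≠ 0) :
    ∃ g : Fin q → ℕ, GoodL q g l b c ∧ leadL g l b c ≠ 0 := by
  classical
  induction q with
  | zero =>
    refine ⟨Fin.elim0, trivial, ?_⟩
    obtain ⟨γ, hγ⟩ := Function.ne_iff.mp hc
    rw [leadL, Fintype.sum_eq_single γ (fun γ' h => absurd (Subsingleton.elim γ' γ) h)]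
    simpa using hγ
  | succ q ih =>
    have hex := b1_exists_tay (hl 0) (b 0) hc
    obtain ⟨f, hf1, hf2⟩ : ∃ f, tayL (l 0) (b 0) f c ≠ 0 ∧
        ∀ f' < f, tayL (l 0) (b 0) f' c = 0 :=
      ⟨Nat.find hex, Nat.find_spec hex, fun f' h => not_not.mp (Nat.find_min hex h)⟩
    obtain ⟨g, hg1, hg2⟩ := ih (l := Fin.tail l) (fun j => hl j.succ) (Fin.tail b) hf1
    refine ⟨Fin.cons f g, ⟨?_, ?_⟩, ?_⟩
    · intro f' hf' γ
      rw [Fin.cons_zero] at hf'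
      rw [hf2 f' hf']
      rfl
    · rw [Fin.tail_cons, Fin.cons_zero]
      exact hg1
    · rw [leadL_succ, Fin.tail_cons, Fin.cons_zero]
      exact hg2

lemma b1_map_tay {A B : Type*} [CommRing A] [CommRing B] (φ : A →+* B) {q K : ℕ} (l b : A)
    (f : ℕ) (c : (Fin (q + 1) → Fin (K + 1)) → A) (γ : Fin q → Fin (K + 1)) :
    φ (tayL l b f c γ) = tayL (φ l) (φ b) f (fun γ => φ (c γ)) γ := by
  simp [tayL]

theorem map_leadL {A B : Type*} [CommRing A] [CommRing B] (φ : A →+* B) {q K : ℕ}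
    (g : Fin q → ℕ) (l b : Fin q → A) (c : (Fin q → Fin (K + 1)) → A) :
    φ (leadL g l b c) = leadL g (fun j => φ (l j)) (fun j => φ (b j)) (fun γ => φ (c γ)) := by
  simp [leadL]

theorem leadL_smul {A : Type*} [CommRing A] {q K : ℕ} (g : Fin q → ℕ) (l b : Fin q → A) (d : A)
    (c : (Fin q → Fin (K + 1)) → A) :
    leadL g l b (fun γ => d * c γ) = d * leadL g l b c := by
  rw [leadL, leadL, Finset.mul_sum]
  exact Finset.sum_congr rfl fun γ _ => mul_assoc _ _ _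

theorem GoodL.map {A B B' : Type*} [CommRing A] [CommRing B] [CommRing B'] (φ : A →+* B)
    (ψ : A →+* B') (hφψ : ∀ a, φ a = 0 → ψ a = 0) {q K : ℕ} {g : Fin q → ℕ}
    {l b : Fin q → A} {c : (Fin q → Fin (K + 1)) → A}
    (h : GoodL q g (fun j => φ (l j)) (fun j => φ (b j)) (fun γ => φ (c γ))) :
    GoodL q g (fun j => ψ (l j)) (fun j => ψ (b j)) (fun γ => ψ (c γ)) := by
  induction q with
  | zero => trivial
  | succ q ih =>
    obtain ⟨h1, h2⟩ := h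
    refine ⟨fun f hf γ => ?_, ?_⟩
    · rw [← b1_map_tay]
      apply hφψ
      rw [b1_map_tay]
      exact h1 f hf γ
    · have h3 : tayL (ψ (l 0)) (ψ (b 0)) (g 0) (fun γ => ψ (c γ)) =
          fun γ => ψ (tayL (l 0) (b 0) (g 0) c γ) := by
        funext γ
        rw [b1_map_tay]
      have h4 : tayL (φ (l 0)) (φ (b 0)) (g 0) (fun γ => φ (c γ)) =
          fun γ => φ (tayL (l 0) (b 0) (g 0) c γ) := by
        funext γ
        rw [b1_map_tay]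
      rw [h3]
      rw [h4] at h2
      exact ih (l := Fin.tail l) (b := Fin.tail b) h2

end Pool.Agent.Lib.GGL.SM
end

section

/-!
The local inequality between orders of vanishing.
-/

open Filter Topology MvPolynomial Module

namespace Pool.Agent.Lib.GGL.SM

/-- An inequality between absolute values gives an inequality between orders. -/
theorem order_ineq {q K s : ℕ} {F : ℂ → ℂ} {h : Fin q → ℂ → ℂ} {z₀ : ℂ}
    (hF : AnalyticAt ℂ F z₀) (hh : ∀ j, AnalyticAt ℂ (h j) z₀)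
    (hF0 : analyticOrderAt F z₀ ≠ ⊤) (hh0 : ∀ j, analyticOrderAt (h j) z₀ ≠ ⊤) {C : ℝ}
    (hb : ∀ᶠ z in 𝓝[≠] z₀, ‖F z‖ * ‖z - z₀‖ ^ s ≤ C * ∏ j, ‖h j z‖ ^ K) :
    K * ∑ j, analyticOrderNatAt (h j) z₀ ≤ analyticOrderNatAt F z₀ + s := by
  by_contra hcon
  push Not at hcon
  obtain ⟨F1, hF1, hF10, hF1e⟩ := (hF.analyticOrderAt_ne_top).1 hF0
  have hex : ∀ j, ∃ g : ℂ → ℂ, AnalyticAt ℂ g z₀ ∧ g z₀ ≠ 0 ∧
      ∀ᶠ z in 𝓝 z₀, h j z = (z - z₀) ^ analyticOrderNatAt (h j) z₀ • g z := fun j =>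
    ((hh j).analyticOrderAt_ne_top).1 (hh0 j)
  choose g hg hg0 hge using hex
  obtain ⟨a, ha⟩ : ∃ a, a = analyticOrderNatAt F z₀ := ⟨_, rfl⟩
  obtain ⟨m, hm⟩ : ∃ m : Fin q → ℕ, m = fun j => analyticOrderNatAt (h j) z₀ := ⟨_, rfl⟩
  obtain ⟨d, hd⟩ : ∃ d, K * ∑ j, analyticOrderNatAt (h j) z₀ = a + s + (d + 1) := by
    rw [← ha] at hcon
    exact ⟨K * ∑ j, analyticOrderNatAt (h j) z₀ - (a + s) - 1, by omega⟩
  have hge' : ∀ᶠ z in 𝓝 z₀, ∀ j, h j z = (z - z₀) ^ analyticOrderNatAt (h j) z₀ • g j z := by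
    rw [Filter.eventually_all]
    exact hge
  have hmain : ∀ᶠ z in 𝓝[≠] z₀, ‖F1 z‖ ≤ C * ‖z - z₀‖ ^ (d + 1) * ∏ j, ‖g j z‖ ^ K := by
    filter_upwards [hb, hge'.filter_mono nhdsWithin_le_nhds,
      hF1e.filter_mono nhdsWithin_le_nhds, self_mem_nhdsWithin] with z h1 h2 h3 h4
    have hz : 0 < ‖z - z₀‖ := norm_pos_iff.2 (sub_ne_zero.2 h4)
    rw [h3, smul_eq_mul, norm_mul, norm_pow, ← ha] at h1
    have h5 : ∏ j, ‖h j z‖ ^ K = ‖z - z₀‖ ^ (a + s + (d + 1)) * ∏ j, ‖g j z‖ ^ K := by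
      have h6 : ∀ j, ‖h j z‖ ^ K =
          ‖z - z₀‖ ^ (K * analyticOrderNatAt (h j) z₀) * ‖g j z‖ ^ K := by
        intro j
        rw [h2 j, smul_eq_mul, norm_mul, norm_pow, mul_pow, ← pow_mul, mul_comm K]
      rw [Finset.prod_congr rfl fun j _ => h6 j, Finset.prod_mul_distrib,
        Finset.prod_pow_eq_pow_sum, ← Finset.mul_sum, hd]
    rw [h5] at h1
    have h7 : ‖z - z₀‖ ^ (a + s) * ‖F1 z‖ ≤
        ‖z - z₀‖ ^ (a + s) * (C * ‖z - z₀‖ ^ (d + 1) * ∏ j, ‖g j z‖ ^ K) := by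
      calc ‖z - z₀‖ ^ (a + s) * ‖F1 z‖ = ‖z - z₀‖ ^ a * ‖F1 z‖ * ‖z - z₀‖ ^ s := by ring
        _ ≤ C * (‖z - z₀‖ ^ (a + s + (d + 1)) * ∏ j, ‖g j z‖ ^ K) := h1
        _ = _ := by ring
    exact le_of_mul_le_mul_left h7 (by positivity)
  have hlim1 : Tendsto (fun z => ‖F1 z‖) (𝓝[≠] z₀) (𝓝 ‖F1 z₀‖) :=
    (hF1.continuousAt.norm.tendsto).mono_left nhdsWithin_le_nhds
  have hlim2 : Tendsto (fun z => C * ‖z - z₀‖ ^ (d + 1) * ∏ j, ‖g j z‖ ^ K) (𝓝[≠] z₀)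
      (𝓝 (C * ‖z₀ - z₀‖ ^ (d + 1) * ∏ j, ‖g j z₀‖ ^ K)) := by
    have hc : ContinuousAt (fun z => C * ‖z - z₀‖ ^ (d + 1) * ∏ j, ‖g j z‖ ^ K) z₀ := by
      refine ContinuousAt.mul (by fun_prop) ?_
      refine tendsto_finsetProd _ fun j _ => ?_
      exact ((hg j).continuousAt.norm).pow K
    exact hc.tendsto.mono_left nhdsWithin_le_nhds
  have := le_of_tendsto_of_tendsto hlim1 hlim2 hmain
  rw [sub_self, norm_zero, zero_pow (by omega), mul_zero, zero_mul] at this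
  exact hF10 (norm_le_zero_iff.1 this)

end Pool.Agent.Lib.GGL.SM
end

section

/-!
The local inequality between orders of vanishing.
-/

open Filter Topology MvPolynomial Module

namespace Pool.Agent.Lib.GGL.SM

lemma b8_order {F : ℂ → ℂ} (hF : Differentiable ℂ F) (hF0 : ∃ z, F z ≠ 0) (z₀ : ℂ) :
    analyticOrderAt F z₀ ≠ ⊤ := by
  intro h
  obtain ⟨z, hz⟩ := hF0
  apply hz
  rw [analyticOrderAt_eq_top] at h
  have h1 : AnalyticOnNhd ℂ F Set.univ := fun x _ => hF.analyticAt x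
  exact h1.eqOn_zero_of_preconnected_of_eventuallyEq_zero isPreconnected_univ
    (Set.mem_univ z₀) h (Set.mem_univ z)

lemma b8_hasDerivAt {M : ℕ} (p : Fin (M + 1) → ℂ) {Y : ℂ → Fin (M + 1) → ℂ}
    (hY : Differentiable ℂ Y) (z : ℂ) :
    HasDerivAt (fun z => p ⬝ᵥ Y z) (p ⬝ᵥ deriv Y z) z := by
  have h1 : ∀ i, HasDerivAt (fun z => Y z i) (deriv Y z i) z :=
    hasDerivAt_pi.1 (hY z).hasDerivAt
  exact HasDerivAt.fun_sum fun i _ => (h1 i).const_mul (p i)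

lemma b8_logDeriv {h : ℂ → ℂ} {z₀ : ℂ} (hh : AnalyticAt ℂ h z₀) (h0 : analyticOrderAt h z₀ ≠ ⊤) :
    ∃ D : ℝ, 0 ≤ D ∧ ∀ᶠ z in 𝓝[≠] z₀,
      ‖deriv h z / h z‖ * ‖z - z₀‖ ^ (open Classical in if h z₀ = 0 then 1 else 0) ≤ D := by
  obtain ⟨g, hg, hg0, hge⟩ := (hh.analyticOrderAt_ne_top).1 h0
  obtain ⟨m, hm⟩ : ∃ m, m = analyticOrderNatAt h z₀ := ⟨_, rfl⟩
  rw [← hm] at hge
  have hgc : ContinuousAt (fun z => ‖deriv g z / g z‖) z₀ :=
    ((hg.deriv.continuousAt).div hg.continuousAt hg0).norm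
  have hgb : ∀ᶠ z in 𝓝 z₀, ‖deriv g z / g z‖ < ‖deriv g z₀ / g z₀‖ + 1 :=
    hgc.eventually_lt continuousAt_const (lt_add_one _)
  have hld : ∀ᶠ z in 𝓝[≠] z₀, deriv h z / h z = m / (z - z₀) + deriv g z / g z := by
    filter_upwards [hge.eventually_nhds.filter_mono nhdsWithin_le_nhds,
      (hg.continuousAt.eventually_ne hg0).filter_mono nhdsWithin_le_nhds,
      hg.eventually_analyticAt.filter_mono nhdsWithin_le_nhds, self_mem_nhdsWithin]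
      with z h1 h2 h3 h4
    have hz : z - z₀ ≠ 0 := sub_ne_zero.2 h4
    have h5 : h z = (z - z₀) ^ m * g z := h1.self_of_nhds
    have h6 : HasDerivAt (fun w => (w - z₀) ^ m * g w)
        ((m * (z - z₀) ^ (m - 1) * 1) * g z + (z - z₀) ^ m * deriv g z) z :=
      (((hasDerivAt_id z).sub_const z₀).pow m).mul h3.differentiableAt.hasDerivAt
    have h7 : deriv h z = (m * (z - z₀) ^ (m - 1) * 1) * g z + (z - z₀) ^ m * deriv g z := by
      have h8 : h =ᶠ[𝓝 z] fun w => (w - z₀) ^ m * g w := h1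
      rw [h8.deriv_eq]
      exact h6.deriv
    rw [h7, h5]
    rcases Nat.eq_zero_or_pos m with hm0 | hm0
    · rw [hm0]
      simp
    · obtain ⟨k, rfl⟩ : ∃ k, m = k + 1 := ⟨m - 1, by omega⟩
      rw [Nat.add_sub_cancel]
      field_simp
      ring
  have hsm : ∀ᶠ z in 𝓝[≠] z₀, ‖z - z₀‖ < 1 := by
    have : ContinuousAt (fun z => ‖z - z₀‖) z₀ := by fun_prop
    exact (this.eventually_lt continuousAt_const (by simp)).filter_mono nhdsWithin_le_nhds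
  by_cases hz0 : h z₀ = 0
  · refine ⟨m + (‖deriv g z₀ / g z₀‖ + 1), by positivity, ?_⟩
    filter_upwards [hld, hgb.filter_mono nhdsWithin_le_nhds, hsm, self_mem_nhdsWithin]
      with z h1 h2 h3 h4
    have hz : 0 < ‖z - z₀‖ := norm_pos_iff.2 (sub_ne_zero.2 h4)
    rw [if_pos hz0, pow_one, h1]
    calc ‖(m : ℂ) / (z - z₀) + deriv g z / g z‖ * ‖z - z₀‖
        ≤ (‖(m : ℂ) / (z - z₀)‖ + ‖deriv g z / g z‖) * ‖z - z₀‖ := by
          gcongr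
          exact norm_add_le _ _
      _ = m + ‖deriv g z / g z‖ * ‖z - z₀‖ := by
          rw [norm_div, Complex.norm_natCast]
          field_simp
      _ ≤ m + (‖deriv g z₀ / g z₀‖ + 1) * 1 := by
          gcongr
      _ = _ := by ring
  · have hm0 : m = 0 := by
      by_contra hne
      apply hz0
      have h1 : h z₀ = (z₀ - z₀) ^ m • g z₀ := hge.self_of_nhds
      rw [h1, sub_self, zero_pow hne, zero_smul]
    refine ⟨‖deriv g z₀ / g z₀‖ + 1, by positivity, ?_⟩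
    filter_upwards [hld, hgb.filter_mono nhdsWithin_le_nhds] with z h1 h2
    rw [if_neg hz0, pow_zero, mul_one, h1, hm0]
    simp only [Nat.cast_zero, zero_div, zero_add]
    exact h2.le

/-- The local form of the inequality `point_ineq` along a curve. -/
theorem local_order {q K M τ L m : ℕ} (g : Fin q → ℕ) (p : Fin q → Fin (M + 1) → ℂ)
    {Y : ℂ → Fin (M + 1) → ℂ} (hY : Differentiable ℂ Y) (h0 : ∀ z, Y z ≠ 0)
    {F : ℂ → ℂ} (hF : Differentiable ℂ F) (hF0 : ∃ z, F z ≠ 0)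
    (hp : ∀ j, ∃ z, p j ⬝ᵥ Y z ≠ 0) {C : ℝ} (z₀ : ℂ)
    (hb : ∀ᶠ z in 𝓝[≠] z₀, ∀ i, Y z i ≠ 0 → ‖Y z‖ = ‖Y z i‖ → 
      ‖F z‖ * ‖Y z‖ ^ τ ≤ C * ‖Y z‖ ^ L * (∏ j, ‖p j ⬝ᵥ Y z‖ ^ K) *
        (1 + ‖deriv Y z - (deriv Y z i / Y z i) • Y z‖ / ‖Y z‖) ^ m *
        ∏ j, max (1 + ‖deriv Y z - (deriv Y z i / Y z i) • Y z‖ / ‖Y z‖)
          ‖(p j ⬝ᵥ deriv Y z) / (p j ⬝ᵥ Y z) - deriv Y z i / Y z i‖ ^ (K - g j)) :
    K * ∑ j, analyticOrderNatAt (fun z => p j ⬝ᵥ Y z) z₀ ≤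
      analyticOrderNatAt F z₀ + ∑ j, (open Classical in if p j ⬝ᵥ Y z₀ = 0 then K - g j else 0) := by
  classical
  have hd : ∀ j, Differentiable ℂ fun z => p j ⬝ᵥ Y z := fun j z =>
    (b8_hasDerivAt (p j) hY z).differentiableAt
  have hder : ∀ j z, deriv (fun z => p j ⬝ᵥ Y z) z = p j ⬝ᵥ deriv Y z := fun j z =>
    (b8_hasDerivAt (p j) hY z).deriv
  have hex : ∀ j, ∃ D : ℝ, 0 ≤ D ∧ ∀ᶠ z in 𝓝[≠] z₀,
      ‖(p j ⬝ᵥ deriv Y z) / (p j ⬝ᵥ Y z)‖ * ‖z - z₀‖ ^ (if p j ⬝ᵥ Y z₀ = 0 then 1 else 0) ≤ D := by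
    intro j
    obtain ⟨D, hD, h1⟩ := b8_logDeriv ((hd j).analyticAt z₀) (b8_order (hd j) (hp j) z₀)
    refine ⟨D, hD, ?_⟩
    filter_upwards [h1] with z hz
    rw [hder] at hz
    exact hz
  choose D hD hDe using hex
  have hDe' : ∀ᶠ z in 𝓝[≠] z₀, ∀ j, ‖(p j ⬝ᵥ deriv Y z) / (p j ⬝ᵥ Y z)‖ *
      ‖z - z₀‖ ^ (if p j ⬝ᵥ Y z₀ = 0 then 1 else 0) ≤ D j := by
    rw [Filter.eventually_all]
    exact hDe
  have hy0 : 0 < ‖Y z₀‖ := norm_pos_iff.2 (h0 z₀)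
  obtain ⟨c, hc, hcdef⟩ : ∃ c : ℝ, 0 < c ∧ c = ‖Y z₀‖ / 2 := ⟨_, by positivity, rfl⟩
  obtain ⟨B0, hB0, hB0def⟩ : ∃ B0 : ℝ, 0 < B0 ∧ B0 = ‖Y z₀‖ + 1 := ⟨_, by positivity, rfl⟩
  obtain ⟨B1, hB1, hB1def⟩ : ∃ B1 : ℝ, 0 < B1 ∧ B1 = ‖deriv Y z₀‖ + 1 := ⟨_, by positivity, rfl⟩
  have hYc : ContinuousAt (fun z => ‖Y z‖) z₀ := (hY z₀).continuousAt.norm
  have hDc : ContinuousAt (fun z => ‖deriv Y z‖) z₀ :=
    ((hY.analyticAt z₀).deriv.continuousAt).norm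
  have e1 : ∀ᶠ z in 𝓝[≠] z₀, c < ‖Y z‖ :=
    (continuousAt_const.eventually_lt hYc (by rw [hcdef]; linarith)).filter_mono
      nhdsWithin_le_nhds
  have e2 : ∀ᶠ z in 𝓝[≠] z₀, ‖Y z‖ < B0 :=
    (hYc.eventually_lt continuousAt_const (by rw [hB0def]; linarith)).filter_mono
      nhdsWithin_le_nhds
  have e3 : ∀ᶠ z in 𝓝[≠] z₀, ‖deriv Y z‖ < B1 :=
    (hDc.eventually_lt continuousAt_const (by rw [hB1def]; linarith)).filter_mono
      nhdsWithin_le_nhds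
  have e4 : ∀ᶠ z in 𝓝[≠] z₀, ‖z - z₀‖ < 1 := by
    have : ContinuousAt (fun z => ‖z - z₀‖) z₀ := by fun_prop
    exact (this.eventually_lt continuousAt_const (by simp)).filter_mono nhdsWithin_le_nhds
  obtain ⟨B, hB, hBdef⟩ : ∃ B : ℝ, 0 < B ∧ B = B1 / c := ⟨_, by positivity, rfl⟩
  refine order_ineq (hF.analyticAt z₀) (fun j => (hd j).analyticAt z₀) (b8_order hF hF0 z₀)
    (fun j => b8_order (hd j) (hp j) z₀)
    (C := |C| * B0 ^ L * (1 + 2 * B) ^ m * (∏ j, (1 + 2 * B + D j) ^ (K - g j)) / c ^ τ) ?_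
  filter_upwards [hb, hDe', e1, e2, e3, e4] with z h1 h2 h3 h4 h5 h6
  obtain ⟨i, hi⟩ : ∃ i, ‖Y z‖ = ‖Y z i‖ := by
    obtain ⟨i, _, hi⟩ := Finset.exists_max_image Finset.univ (fun i => ‖Y z i‖)
      Finset.univ_nonempty
    refine ⟨i, le_antisymm ?_ (norm_le_pi_norm _ i)⟩
    rw [pi_norm_le_iff_of_nonneg (norm_nonneg _)]
    exact fun k => hi k (Finset.mem_univ k)
  have hyz : 0 < ‖Y z‖ := norm_pos_iff.2 (h0 z)
  have hiz : Y z i ≠ 0 := by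
    rw [← norm_pos_iff, ← hi]
    exact hyz
  have h7 := h1 i hiz hi
  have hk : ‖deriv Y z i / Y z i‖ ≤ B := by
    rw [norm_div, ← hi, hBdef]
    gcongr
    exact (norm_le_pi_norm _ i).trans h5.le
  have hδ : ‖deriv Y z - (deriv Y z i / Y z i) • Y z‖ / ‖Y z‖ ≤ 2 * B := by
    rw [div_le_iff₀ hyz]
    calc ‖deriv Y z - (deriv Y z i / Y z i) • Y z‖
        ≤ ‖deriv Y z‖ + ‖deriv Y z i / Y z i‖ * ‖Y z‖ := by
          refine (norm_sub_le _ _).trans ?_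
          rw [norm_smul]
      _ ≤ B * ‖Y z‖ + B * ‖Y z‖ := by
          gcongr
          rw [hBdef, div_mul_eq_mul_div, le_div_iff₀ hc]
          gcongr
      _ = _ := by ring
  obtain ⟨δ, hδdef⟩ : ∃ δ, δ = ‖deriv Y z - (deriv Y z i / Y z i) • Y z‖ / ‖Y z‖ := ⟨_, rfl⟩
  rw [← hδdef] at h7 hδ
  have hδ0 : 0 ≤ δ := by
    rw [hδdef]
    positivity
  have hmax : ∀ j, max (1 + δ) ‖(p j ⬝ᵥ deriv Y z) / (p j ⬝ᵥ Y z) - deriv Y z i / Y z i‖ ^
      (K - g j) * ‖z - z₀‖ ^ (if p j ⬝ᵥ Y z₀ = 0 then K - g j else 0) ≤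
      (1 + 2 * B + D j) ^ (K - g j) := by
    intro j
    have h8 : ‖z - z₀‖ ^ (if p j ⬝ᵥ Y z₀ = 0 then K - g j else 0) =
        (‖z - z₀‖ ^ (if p j ⬝ᵥ Y z₀ = 0 then 1 else 0)) ^ (K - g j) := by
      split_ifs <;> simp
    rw [h8, ← mul_pow]
    have h9 : ‖z - z₀‖ ^ (if p j ⬝ᵥ Y z₀ = 0 then 1 else 0) ≤ 1 :=
      pow_le_one₀ (norm_nonneg _) h6.le
    have h9' : 0 ≤ ‖z - z₀‖ ^ (if p j ⬝ᵥ Y z₀ = 0 then 1 else 0) := by positivity
    have h10 := h2 j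
    gcongr
    rw [max_mul_of_nonneg _ _ h9']
    refine max_le ?_ ?_
    · calc (1 + δ) * ‖z - z₀‖ ^ (if p j ⬝ᵥ Y z₀ = 0 then 1 else 0) ≤ (1 + 2 * B) * 1 := by
            gcongr
        _ ≤ 1 + 2 * B + D j := by
            have := hD j
            linarith
    · calc ‖(p j ⬝ᵥ deriv Y z) / (p j ⬝ᵥ Y z) - deriv Y z i / Y z i‖ *
            ‖z - z₀‖ ^ (if p j ⬝ᵥ Y z₀ = 0 then 1 else 0)
          ≤ (‖(p j ⬝ᵥ deriv Y z) / (p j ⬝ᵥ Y z)‖ + ‖deriv Y z i / Y z i‖) *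
            ‖z - z₀‖ ^ (if p j ⬝ᵥ Y z₀ = 0 then 1 else 0) := by
            gcongr
            exact norm_sub_le _ _
        _ ≤ D j + B * 1 := by
            rw [add_mul]
            gcongr
        _ ≤ 1 + 2 * B + D j := by linarith
  have hprod : (∏ j, max (1 + δ) ‖(p j ⬝ᵥ deriv Y z) / (p j ⬝ᵥ Y z) - deriv Y z i / Y z i‖ ^
      (K - g j)) * ‖z - z₀‖ ^ (∑ j, if p j ⬝ᵥ Y z₀ = 0 then K - g j else 0) ≤
      ∏ j, (1 + 2 * B + D j) ^ (K - g j) := by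
    rw [← Finset.prod_pow_eq_pow_sum, ← Finset.prod_mul_distrib]
    refine Finset.prod_le_prod (fun j _ => ?_) fun j _ => hmax j
    positivity
  rw [← mul_div_right_comm, le_div_iff₀ (by positivity)]
  obtain ⟨s, hs⟩ : ∃ s, s = ∑ j, if p j ⬝ᵥ Y z₀ = 0 then K - g j else 0 := ⟨_, rfl⟩
  rw [← hs] at hprod ⊢
  obtain ⟨P, hP⟩ : ∃ P, P = ∏ j, max (1 + δ)
    ‖(p j ⬝ᵥ deriv Y z) / (p j ⬝ᵥ Y z) - deriv Y z i / Y z i‖ ^ (K - g j) := ⟨_, rfl⟩
  rw [← hP] at hprod h7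
  have hP0 : 0 ≤ P := by
    rw [hP]
    positivity
  have hH : 0 ≤ ∏ j, ‖p j ⬝ᵥ Y z‖ ^ K := by positivity
  calc ‖F z‖ * ‖z - z₀‖ ^ s * c ^ τ ≤ ‖F z‖ * ‖z - z₀‖ ^ s * ‖Y z‖ ^ τ := by
        gcongr
    _ = (‖F z‖ * ‖Y z‖ ^ τ) * ‖z - z₀‖ ^ s := by ring
    _ ≤ (C * ‖Y z‖ ^ L * (∏ j, ‖p j ⬝ᵥ Y z‖ ^ K) * (1 + δ) ^ m * P) * ‖z - z₀‖ ^ s := by
        gcongr
    _ = C * (‖Y z‖ ^ L * (∏ j, ‖p j ⬝ᵥ Y z‖ ^ K) * (1 + δ) ^ m * (P * ‖z - z₀‖ ^ s)) := by ring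
    _ ≤ |C| * (‖Y z‖ ^ L * (∏ j, ‖p j ⬝ᵥ Y z‖ ^ K) * (1 + δ) ^ m * (P * ‖z - z₀‖ ^ s)) := by
        gcongr
        exact le_abs_self C
    _ ≤ |C| * (B0 ^ L * (∏ j, ‖p j ⬝ᵥ Y z‖ ^ K) * (1 + 2 * B) ^ m *
          ∏ j, (1 + 2 * B + D j) ^ (K - g j)) := by
        gcongr
    _ = _ := by ring

end Pool.Agent.Lib.GGL.SM
end

section

/-!
Jensen's formula for the comparison of zeros.
-/

open Filter Topology MvPolynomial Module

namespace Pool.Agent.Lib.GGL.SM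

lemma b9_order {F : ℂ → ℂ} (hF : Differentiable ℂ F) (hF0 : ∃ z, F z ≠ 0) (z₀ : ℂ) :
    analyticOrderAt F z₀ ≠ ⊤ := by
  intro h
  obtain ⟨z, hz⟩ := hF0
  apply hz
  rw [analyticOrderAt_eq_top] at h
  have h1 : AnalyticOnNhd ℂ F Set.univ := fun x _ => hF.analyticAt x
  exact h1.eqOn_zero_of_preconnected_of_eventuallyEq_zero isPreconnected_univ
    (Set.mem_univ z₀) h (Set.mem_univ z)

lemma b9_div {F : ℂ → ℂ} (hF : Differentiable ℂ F) (hF0 : ∃ z, F z ≠ 0) {U : Set ℂ} {u : ℂ}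
    (hu : u ∈ U) : MeromorphicOn.divisor F U u = (analyticOrderNatAt F u : ℤ) := by
  rw [MeromorphicOn.AnalyticOnNhd.divisor_apply (fun x _ => hF.analyticAt x) hu]
  obtain ⟨n, hn⟩ := ENat.ne_top_iff_exists.1 (b9_order hF hF0 u)
  unfold analyticOrderNatAt
  rw [← hn]
  rfl

lemma b9_zero {F : ℂ → ℂ} (hF : Differentiable ℂ F) (hF0 : ∃ z, F z ≠ 0) (u : ℂ) :
    analyticOrderNatAt F u = 0 ↔ F u ≠ 0 := by
  rw [← (hF.analyticAt u).analyticOrderAt_eq_zero]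
  obtain ⟨n, hn⟩ := ENat.ne_top_iff_exists.1 (b9_order hF hF0 u)
  unfold analyticOrderNatAt
  rw [← hn]
  simp

lemma b9_finite {F : ℂ → ℂ} (hF : Differentiable ℂ F) (hF0 : ∃ z, F z ≠ 0) (r : ℝ) :
    {u : ℂ | ‖u‖ ≤ r ∧ F u = 0}.Finite := by
  refine ((MeromorphicOn.divisor F (Metric.closedBall (0 : ℂ) r)).finiteSupport
    (isCompact_closedBall 0 r)).subset ?_
  rintro u ⟨h1, h2⟩
  rw [Function.mem_support, b9_div hF hF0 (by simpa using h1)]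
  intro h3
  have h4 : analyticOrderNatAt F u = 0 := by exact_mod_cast h3
  exact (b9_zero hF hF0 u).1 h4 h2

lemma b9_jensen {F : ℂ → ℂ} (hF : Differentiable ℂ F) (hF0 : ∃ z, F z ≠ 0) {r : ℝ} (hr : 1 ≤ r)
    {T : Finset ℂ} (hT : ∀ u ∈ T, u ≠ 0 ∧ ‖u‖ ≤ r)
    (hT2 : ∀ u, u ≠ 0 → ‖u‖ ≤ r → F u = 0 → u ∈ T) :
    Real.circleAverage (fun z => Real.log ‖F z‖) 0 r =
      ∑ u ∈ T, (analyticOrderNatAt F u : ℝ) * Real.log (r / ‖u‖) +
        (analyticOrderNatAt F 0 : ℝ) * Real.log r +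
        Real.log ‖meromorphicTrailingCoeffAt F 0‖ := by
  have hr0 : 0 < r := by linarith
  have h1 := MeromorphicOn.circleAverage_log_norm (c := 0) (R := r) (f := F) hr0.ne'
    (fun x _ => (hF.analyticAt x).meromorphicAt)
  rw [h1, abs_of_pos hr0, b9_div hF hF0 (by simp [hr0.le])]
  congr 2
  rw [finsum_eq_sum_of_support_subset (s := T)]
  · refine Finset.sum_congr rfl fun u hu => ?_
    rw [b9_div hF hF0 (by simpa using (hT u hu).2), zero_sub, norm_neg, div_eq_mul_inv]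
    simp
  · intro u hu
    rw [Function.mem_support] at hu
    have h2 : u ≠ 0 := by
      rintro rfl
      apply hu
      simp
    have h3 : u ∈ Metric.closedBall (0 : ℂ) r := by
      by_contra h3
      apply hu
      rw [Function.locallyFinsuppWithin.apply_eq_zero_of_notMem _ h3]
      simp
    refine hT2 u h2 (by simpa using h3) ?_
    by_contra h4
    apply hu
    rw [b9_div hF hF0 h3, (b9_zero hF hF0 u).2 h4]
    simp

open Classical in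
lemma b9_count {h : ℂ → ℂ} {r : ℝ} {T : Finset ℂ} (hT : ∀ u ∈ T, u ≠ 0 ∧ ‖u‖ ≤ r)
    (hT2 : ∀ u, u ≠ 0 → ‖u‖ ≤ r → h u = 0 → u ∈ T) :
    count1 h r = ∑ u ∈ T, (if h u = 0 then Real.log (r / ‖u‖) else 0) +
      (if h 0 = 0 then Real.log r else 0) := by
  unfold count1
  congr 1
  have h1 : {z : ℂ | h z = 0 ∧ z ≠ 0 ∧ ‖z‖ ≤ r} = ↑(T.filter fun z => h z = 0) := by
    ext z
    simp only [Set.mem_ofPred_eq, Finset.coe_filter]
    constructor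
    · rintro ⟨h1, h2, h3⟩
      exact ⟨hT2 z h2 h3 h1, h1⟩
    · rintro ⟨h1, h2⟩
      exact ⟨h2, (hT z h1).1, (hT z h1).2⟩
  rw [h1, finsum_mem_coe_finset, Finset.sum_filter]

theorem jensen_compare {q K : ℕ} {F : ℂ → ℂ} {h : Fin q → ℂ → ℂ} (hF : Differentiable ℂ F)
    (hh : ∀ j, Differentiable ℂ (h j)) (hF0 : ∃ z, F z ≠ 0) (hh0 : ∀ j, ∃ z, h j z ≠ 0)
    (a : Fin q → ℕ)
    (hord : ∀ z₀, K * ∑ j, analyticOrderNatAt (h j) z₀ ≤
      analyticOrderNatAt F z₀ + ∑ j, (open Classical in if h j z₀ = 0 then a j else 0)) :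
    ∃ C : ℝ, ∀ r : ℝ, 1 ≤ r →
      K * ∑ j, Real.circleAverage (fun z => Real.log ‖h j z‖) 0 r ≤
        Real.circleAverage (fun z => Real.log ‖F z‖) 0 r + ∑ j, a j * count1 (h j) r + C := by
  classical
  refine ⟨K * (∑ j, Real.log ‖meromorphicTrailingCoeffAt (h j) 0‖) -
    Real.log ‖meromorphicTrailingCoeffAt F 0‖, fun r hr => ?_⟩
  have hr0 : 0 < r := by linarith
  obtain ⟨T, hT, hTF, hTh⟩ : ∃ T : Finset ℂ, (∀ u ∈ T, u ≠ 0 ∧ ‖u‖ ≤ r) ∧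
      (∀ u, u ≠ 0 → ‖u‖ ≤ r → F u = 0 → u ∈ T) ∧
      ∀ j u, u ≠ 0 → ‖u‖ ≤ r → h j u = 0 → u ∈ T := by
    have h1 := b9_finite hF hF0 r
    have h2 : ∀ j, {u : ℂ | ‖u‖ ≤ r ∧ h j u = 0}.Finite := fun j => b9_finite (hh j) (hh0 j) r
    refine ⟨(h1.toFinset ∪ Finset.univ.biUnion fun j => (h2 j).toFinset).filter (· ≠ 0),
      ?_, ?_, ?_⟩
    · intro u hu
      simp only [Finset.mem_filter, Finset.mem_union, Set.Finite.mem_toFinset,
        Finset.mem_biUnion, Finset.mem_univ, true_and] at hu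
      obtain ⟨h3 | ⟨j, h3⟩, h4⟩ := hu
      · exact ⟨h4, h3.1⟩
      · exact ⟨h4, h3.1⟩
    · intro u h3 h4 h5
      simp only [Finset.mem_filter, Finset.mem_union, Set.Finite.mem_toFinset]
      exact ⟨Or.inl ⟨h4, h5⟩, h3⟩
    · intro j u h3 h4 h5
      simp only [Finset.mem_filter, Finset.mem_union, Set.Finite.mem_toFinset,
        Finset.mem_biUnion, Finset.mem_univ, true_and]
      exact ⟨Or.inr ⟨j, h4, h5⟩, h3⟩
  rw [b9_jensen hF hF0 hr hT hTF]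
  have h1 : ∀ j, Real.circleAverage (fun z => Real.log ‖h j z‖) 0 r =
      ∑ u ∈ T, (analyticOrderNatAt (h j) u : ℝ) * Real.log (r / ‖u‖) +
        (analyticOrderNatAt (h j) 0 : ℝ) * Real.log r +
        Real.log ‖meromorphicTrailingCoeffAt (h j) 0‖ := fun j =>
    b9_jensen (hh j) (hh0 j) hr hT (hTh j)
  have h2 : ∀ j, count1 (h j) r = ∑ u ∈ T, (if h j u = 0 then Real.log (r / ‖u‖) else 0) +
      (if h j 0 = 0 then Real.log r else 0) := fun j => b9_count hT (hTh j)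
  simp only [h1, h2]
  have hlr : 0 ≤ Real.log r := Real.log_nonneg hr
  have hlu : ∀ u ∈ T, 0 ≤ Real.log (r / ‖u‖) := by
    intro u hu
    obtain ⟨h3, h4⟩ := hT u hu
    apply Real.log_nonneg
    rw [one_le_div (norm_pos_iff.2 h3)]
    exact h4
  have hord' : ∀ u : ℂ, (K : ℝ) * ∑ j, (analyticOrderNatAt (h j) u : ℝ) ≤
      analyticOrderNatAt F u + ∑ j, (if h j u = 0 then (a j : ℝ) else 0) := by
    intro u
    have := hord u
    have h5 : ((K * ∑ j, analyticOrderNatAt (h j) u : ℕ) : ℝ) ≤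
        ((analyticOrderNatAt F u + ∑ j, (if h j u = 0 then a j else 0) : ℕ) : ℝ) := by
      exact_mod_cast this
    push_cast at h5
    exact h5
  have e1 : (K : ℝ) * ∑ j, (∑ u ∈ T, (analyticOrderNatAt (h j) u : ℝ) * Real.log (r / ‖u‖) +
        (analyticOrderNatAt (h j) 0 : ℝ) * Real.log r +
        Real.log ‖meromorphicTrailingCoeffAt (h j) 0‖) =
      ∑ u ∈ T, ((K : ℝ) * ∑ j, (analyticOrderNatAt (h j) u : ℝ)) * Real.log (r / ‖u‖) +
      ((K : ℝ) * ∑ j, (analyticOrderNatAt (h j) 0 : ℝ)) * Real.log r +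
      K * ∑ j, Real.log ‖meromorphicTrailingCoeffAt (h j) 0‖ := by
    rw [Finset.sum_add_distrib, Finset.sum_add_distrib, Finset.sum_comm, mul_add, mul_add,
      Finset.mul_sum, ← Finset.sum_mul, ← mul_assoc]
    congr 2
    refine Finset.sum_congr rfl fun u _ => ?_
    rw [← Finset.sum_mul, mul_assoc]
  have e2 : ∑ j, (a j : ℝ) * (∑ u ∈ T, (if h j u = 0 then Real.log (r / ‖u‖) else 0) +
      (if h j 0 = 0 then Real.log r else 0)) =
      ∑ u ∈ T, (∑ j, (if h j u = 0 then (a j : ℝ) else 0)) * Real.log (r / ‖u‖) +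
      (∑ j, (if h j 0 = 0 then (a j : ℝ) else 0)) * Real.log r := by
    simp only [mul_add]
    rw [Finset.sum_add_distrib]
    congr 1
    · simp only [Finset.mul_sum]
      rw [Finset.sum_comm]
      refine Finset.sum_congr rfl fun u _ => ?_
      rw [Finset.sum_mul]
      refine Finset.sum_congr rfl fun j _ => ?_
      split_ifs <;> simp
    · rw [Finset.sum_mul]
      refine Finset.sum_congr rfl fun j _ => ?_
      split_ifs <;> simp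
  rw [e1, e2]
  have e3 : ∑ u ∈ T, ((K : ℝ) * ∑ j, (analyticOrderNatAt (h j) u : ℝ)) * Real.log (r / ‖u‖) ≤
      ∑ u ∈ T, (analyticOrderNatAt F u : ℝ) * Real.log (r / ‖u‖) +
      ∑ u ∈ T, (∑ j, (if h j u = 0 then (a j : ℝ) else 0)) * Real.log (r / ‖u‖) := by
    rw [← Finset.sum_add_distrib]
    refine Finset.sum_le_sum fun u hu => ?_
    rw [← add_mul]
    exact mul_le_mul_of_nonneg_right (hord' u) (hlu u hu)
  have e4 := mul_le_mul_of_nonneg_right (hord' 0) hlr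
  rw [add_mul] at e4
  linarith

end Pool.Agent.Lib.GGL.SM
end
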