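import Mathlib
import Pool.Agent.Lib.MP_8d161d_ag.SM.Defs
import Pool.Agent.Lib.MP_8d161d_ag.Mg.G012
import Pool.Agent.Lib.MP_8d161d_ag.SM.B9a
import Pool.Agent.Lib.MP_8d161d_ag.SM.E4

section

/-!
The estimate for one block of hyperplanes.
-/

open Filter Topology MvPolynomial Module

namespace Pool.Agent.Lib.GGL.SM

lemma b10_hasDerivAt {M : ℕ} (p : Fin (M + 1) → ℂ) {Y : ℂ → Fin (M + 1) → ℂ}
    (hY : Differentiable ℂ Y) (z : ℂ) :
    HasDerivAt (fun z => p ⬝ᵥ Y z) (p ⬝ᵥ deriv Y z) z := by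
  have h1 : ∀ i, HasDerivAt (fun z => Y z i) (deriv Y z i) z :=
    hasDerivAt_pi.1 (hY z).hasDerivAt
  exact HasDerivAt.fun_sum fun i _ => (h1 i).const_mul (p i)

/-- The estimate for one block. -/
theorem block_estimate {q K M τ L m : ℕ} (g : Fin q → ℕ) (p : Fin q → Fin (M + 1) → ℂ)
    {Y : ℂ → Fin (M + 1) → ℂ} (hY : Differentiable ℂ Y) (h0 : ∀ z, Y z ≠ 0)
    {F : ℂ → ℂ} (hF : Differentiable ℂ F) (hF0 : ∃ z, F z ≠ 0)
    (hp : ∀ j, ∃ z, p j ⬝ᵥ Y z ≠ 0) {C : ℝ} (hC : 0 ≤ C) {S : Set ℂ}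
    (hS : ∀ z₁, ∀ᶠ z in 𝓝[≠] z₁, z ∉ S)
    (hb : ∀ z, z ∉ S → F z ≠ 0 ∧ (∀ j, p j ⬝ᵥ Y z ≠ 0) ∧
      (∀ i, (∃ z', Y z' i ≠ 0) → Y z i ≠ 0) ∧
        ∀ i, Y z i ≠ 0 → ‖Y z‖ = ‖Y z i‖ → 
      ‖F z‖ * ‖Y z‖ ^ τ ≤ C * ‖Y z‖ ^ L * (∏ j, ‖p j ⬝ᵥ Y z‖ ^ K) *
        (1 + ‖deriv Y z - (deriv Y z i / Y z i) • Y z‖ / ‖Y z‖) ^ m *
        ∏ j, max (1 + ‖deriv Y z - (deriv Y z i / Y z i) • Y z‖ / ‖Y z‖)
          ‖(p j ⬝ᵥ deriv Y z) / (p j ⬝ᵥ Y z) - deriv Y z i / Y z i‖ ^ (K - g j)) :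
    ∃ C' : ℝ, ∀ r β : ℝ, 1 ≤ r → 0 ≤ β → (∀ z, ‖z‖ = r →
      (∀ i i', (∃ z', Y z' i ≠ 0) → (∃ z', Y z' i' ≠ 0) →
        ‖deriv Y z i / Y z i - deriv Y z i' / Y z i'‖ ≤ Real.exp β) ∧
      ∀ i j, (∃ z', Y z' i ≠ 0) →
        ‖(p j ⬝ᵥ deriv Y z) / (p j ⬝ᵥ Y z) - deriv Y z i / Y z i‖ ≤ Real.exp β) →
      ((τ : ℝ) - L) * height Y r ≤ ∑ j, ((K - g j : ℕ) : ℝ) * count1 (fun z => p j ⬝ᵥ Y z) r +
        C' * (β + 1) := by
  have hd : ∀ j, Differentiable ℂ fun z => p j ⬝ᵥ Y z := fun j z =>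
    (b10_hasDerivAt (p j) hY z).differentiableAt
  obtain ⟨C₁, hC₁⟩ := jensen_compare (K := K) hF hd hF0 hp (fun j => K - g j) (fun z₀ =>
    local_order (τ := τ) (L := L) (m := m) (C := C) g p hY h0 hF hF0 hp z₀
      ((hS z₀).mono fun z hz i hi hi2 => (hb z hz).2.2.2 i hi hi2))
  obtain ⟨n, hn⟩ : ∃ n : ℕ, n = m + ∑ j, (K - g j) := ⟨_, rfl⟩
  refine ⟨|Real.log C| + |C₁| + n, fun r β hr hβ hlog => ?_⟩
  have hr0 : 0 < r := by linarith
  have hE : 1 ≤ Real.exp β := Real.one_le_exp hβ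
  -- the pointwise inequality
  have hpt : ∀ z, ‖z‖ = r → z ∉ S → Real.log ‖F z‖ + (τ : ℝ) * Real.log ‖Y z‖ ≤
      Real.log C + (L : ℝ) * Real.log ‖Y z‖ + (K : ℝ) * (∑ j, Real.log ‖p j ⬝ᵥ Y z‖) +
        n * (1 + β) := by
    intro z hzr hzS
    obtain ⟨g1, g2, g3, g4⟩ := hb z hzS
    obtain ⟨i, hi⟩ : ∃ i, ‖Y z‖ = ‖Y z i‖ := by
      obtain ⟨i, _, hi⟩ := Finset.exists_max_image Finset.univ (fun i => ‖Y z i‖)
        Finset.univ_nonempty
      refine ⟨i, le_antisymm ?_ (norm_le_pi_norm _ i)⟩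
      rw [pi_norm_le_iff_of_nonneg (norm_nonneg _)]
      exact fun k => hi k (Finset.mem_univ k)
    have hyz : 0 < ‖Y z‖ := norm_pos_iff.2 (h0 z)
    have hiz : Y z i ≠ 0 := by
      rw [← norm_pos_iff, ← hi]
      exact hyz
    have h7 := g4 i hiz hi
    obtain ⟨δ, hδdef⟩ : ∃ δ, δ = ‖deriv Y z - (deriv Y z i / Y z i) • Y z‖ / ‖Y z‖ := ⟨_, rfl⟩
    rw [← hδdef] at h7
    have hδ0 : 0 ≤ δ := by
      rw [hδdef]
      positivity
    have hδ : δ ≤ Real.exp β := by
      rw [hδdef, div_le_iff₀ hyz, pi_norm_le_iff_of_nonneg (by positivity)]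
      intro k
      show ‖deriv Y z k - (deriv Y z i / Y z i) * Y z k‖ ≤ _
      by_cases hk : ∃ z', Y z' k ≠ 0
      · have hkz : Y z k ≠ 0 := g3 k hk
        have h8 := (hlog z hzr).1 k i hk ⟨z, hiz⟩
        have h9 : deriv Y z k - (deriv Y z i / Y z i) * Y z k =
            (deriv Y z k / Y z k - deriv Y z i / Y z i) * Y z k := by
          rw [sub_mul, div_mul_cancel₀ _ hkz]
        rw [h9, norm_mul]
        exact mul_le_mul h8 (norm_le_pi_norm _ k) (norm_nonneg _) (by positivity)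
      · push Not at hk
        have h8 : deriv Y z k = 0 := by
          have h9 : HasDerivAt (fun z => Y z k) (deriv Y z k) z :=
            hasDerivAt_pi.1 (hY z).hasDerivAt k
          have h10 : (fun z => Y z k) = fun _ => 0 := funext hk
          rw [h10] at h9
          exact h9.unique (hasDerivAt_const z 0)
        rw [h8, hk z, mul_zero, sub_zero, norm_zero]
        positivity
    have hE2 : 1 + δ ≤ 2 * Real.exp β := by linarith
    have hmax : ∀ j, max (1 + δ) ‖(p j ⬝ᵥ deriv Y z) / (p j ⬝ᵥ Y z) - deriv Y z i / Y z i‖ ≤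
        2 * Real.exp β := by
      intro j
      refine max_le hE2 (((hlog z hzr).2 i j ⟨z, hiz⟩).trans ?_)
      linarith
    have hFz : 0 < ‖F z‖ := norm_pos_iff.2 g1
    have hH : ∀ j, 0 < ‖p j ⬝ᵥ Y z‖ := fun j => norm_pos_iff.2 (g2 j)
    have hHp : 0 < ∏ j, ‖p j ⬝ᵥ Y z‖ ^ K := Finset.prod_pos fun j _ => pow_pos (hH j) _
    have h8 : ‖F z‖ * ‖Y z‖ ^ τ ≤ C * ‖Y z‖ ^ L * (∏ j, ‖p j ⬝ᵥ Y z‖ ^ K) *
        (2 * Real.exp β) ^ n := by
      refine h7.trans ?_
      rw [hn, pow_add, ← mul_assoc, ← Finset.prod_pow_eq_pow_sum]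
      gcongr with j _
      exact hmax j
    have hCpos : 0 < C := by
      rcases hC.lt_or_eq with h | h
      · exact h
      · exfalso
        rw [← h, zero_mul, zero_mul, zero_mul] at h8
        have := mul_pos hFz (pow_pos hyz τ)
        linarith
    have h9 := Real.log_le_log (by positivity) h8
    rw [Real.log_mul hFz.ne' (by positivity), Real.log_pow,
      Real.log_mul (by positivity) (by positivity), Real.log_mul (by positivity) hHp.ne',
      Real.log_mul hCpos.ne' (by positivity), Real.log_pow, Real.log_pow,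
      Real.log_mul (by norm_num) (by positivity), Real.log_exp, Real.log_prod
        (fun j _ => (pow_pos (hH j) K).ne')] at h9
    have h10 : ∑ j, Real.log (‖p j ⬝ᵥ Y z‖ ^ K) = (K : ℝ) * ∑ j, Real.log ‖p j ⬝ᵥ Y z‖ := by
      rw [Finset.mul_sum]
      exact Finset.sum_congr rfl fun j _ => Real.log_pow _ _
    rw [h10] at h9
    have h11 : Real.log 2 ≤ 1 := by
      have := Real.log_two_lt_d9
      linarith
    have h12 : (n : ℝ) * (Real.log 2 + β) ≤ n * (1 + β) := by gcongr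
    linarith
  -- integrability
  have iY : CircleIntegrable (fun z => Real.log ‖Y z‖) 0 r := by
    apply ContinuousOn.circleIntegrable'
    intro z _
    exact ((hY z).continuousAt.norm.log (norm_pos_iff.2 (h0 z)).ne').continuousWithinAt
  have iA : ∀ A : ℂ → ℂ, Differentiable ℂ A → CircleIntegrable (fun z => Real.log ‖A z‖) 0 r :=
    fun A hA => MeromorphicOn.circleIntegrable_log_norm fun x _ =>
      (hA.analyticAt x).meromorphicAt
  have iH : ∀ j, CircleIntegrable (fun z => Real.log ‖p j ⬝ᵥ Y z‖) 0 r := fun j => iA _ (hd j)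
  have iS : CircleIntegrable (fun z => ∑ j, Real.log ‖p j ⬝ᵥ Y z‖) 0 r :=
    CircleIntegrable.fun_sum _ fun j _ => iH j
  have i1 : CircleIntegrable (fun z => (τ : ℝ) * Real.log ‖Y z‖) 0 r := iY.const_fun_smul
  have i2 : CircleIntegrable (fun z => (L : ℝ) * Real.log ‖Y z‖) 0 r := iY.const_fun_smul
  have i3 : CircleIntegrable (fun z => (K : ℝ) * ∑ j, Real.log ‖p j ⬝ᵥ Y z‖) 0 r :=
    iS.const_fun_smul
  have i4 : CircleIntegrable (fun _ : ℂ => Real.log C) 0 r := circleIntegrable_const _ _ _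
  have i5 : CircleIntegrable (fun _ : ℂ => (n : ℝ) * (1 + β)) 0 r := circleIntegrable_const _ _ _
  have hmono := circleAverage_mono_ae hr0 ((iA F hF).fun_add i1)
    (((i4.fun_add i2).fun_add i3).fun_add i5) hS hpt
  rw [Real.circleAverage_fun_add (iA F hF) i1,
    Real.circleAverage_fun_add ((i4.fun_add i2).fun_add i3) i5,
    Real.circleAverage_fun_add (i4.fun_add i2) i3, Real.circleAverage_fun_add i4 i2,
    Real.circleAverage_const, Real.circleAverage_const] at hmono
  have a1 : ∀ (c : ℝ) (f : ℂ → ℝ), Real.circleAverage (fun z => c * f z) 0 r =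
      c * Real.circleAverage f 0 r := fun c f => Real.circleAverage_fun_smul (a := c) (f := f)
  rw [a1, a1, a1, Real.circleAverage_fun_sum fun j _ => iH j] at hmono
  have hj := hC₁ r hr
  have hT : height Y r = Real.circleAverage (fun z => Real.log ‖Y z‖) 0 r := rfl
  rw [hT]
  have c1 : Real.log C ≤ |Real.log C| * (β + 1) := by
    calc Real.log C ≤ |Real.log C| * 1 := by rw [mul_one]; exact le_abs_self _
      _ ≤ _ := by
        gcongr
        linarith
  have c2 : C₁ ≤ |C₁| * (β + 1) := by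
    calc C₁ ≤ |C₁| * 1 := by rw [mul_one]; exact le_abs_self _
      _ ≤ _ := by
        gcongr
        linarith
  linarith

end Pool.Agent.Lib.GGL.SM
end

section

/-!
The bound for the first Taylor coefficient, in one variable.
-/

open Filter Topology MvPolynomial Module

namespace Pool.Agent.Lib.GGL.SM

lemma b2_div {F h G : ℂ → ℂ} {m K : ℕ} {r C c : ℝ} (hr : 0 < r) (hc : 0 < c)
    (hF : Differentiable ℂ F) (hh : Differentiable ℂ h) (hG : Differentiable ℂ G)
    (hid : ∀ X, X ≠ 0 → X ^ K * F X = h X ^ m * G X) (hne : h 0 ≠ 0)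
    (hbig : ∀ X, ‖X‖ = r → c ≤ ‖h X‖) (hC : ∀ X, ‖X‖ = r → ‖F X‖ ≤ C) {x : ℂ} (hx0 : x ≠ 0)
    (hx : ‖x‖ < r) : ‖G x‖ ≤ C / c ^ m * ‖x‖ ^ K := by
  classical
  obtain ⟨Q, hQ⟩ : ∃ Q : ℂ → ℂ, Q = fun u => if u = 0 then F u / h u ^ m else
    G u / u ^ K := ⟨_, rfl⟩
  have hQ1 : ∀ u, h u ≠ 0 → Q u = F u / h u ^ m := by
    intro u hu
    rw [hQ]
    by_cases h1 : u = 0
    · simp only [h1, if_true]
    · simp only [h1, if_false]
      rw [div_eq_div_iff (pow_ne_zero _ h1) (pow_ne_zero _ hu)]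
      linear_combination -hid u h1
  have hQ2 : ∀ u, u ≠ 0 → Q u = G u / u ^ K := by
    intro u hu
    rw [hQ]
    simp only [hu, if_false]
  have hQd : Differentiable ℂ Q := by
    intro u
    by_cases h1 : u = 0
    · have h2 : ∀ᶠ w in 𝓝 u, h w ≠ 0 := by
        apply (hh u).continuousAt.eventually_ne
        rw [h1]
        exact hne
      have h3 : Q =ᶠ[𝓝 u] fun w => F w / h w ^ m := by
        filter_upwards [h2] with w hw using hQ1 w hw
      refine DifferentiableAt.congr_of_eventuallyEq ?_ h3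
      refine (hF u).fun_div ((hh u).fun_pow m) ?_
      rw [h1]
      exact pow_ne_zero _ hne
    · have h2 : ∀ᶠ w in 𝓝 u, w ≠ 0 := eventually_ne_nhds h1
      have h3 : Q =ᶠ[𝓝 u] fun w => G w / w ^ K := by
        filter_upwards [h2] with w hw using hQ2 w hw
      refine DifferentiableAt.congr_of_eventuallyEq ?_ h3
      refine (hG u).fun_div ?_ ?_
      · fun_prop
      · exact pow_ne_zero _ h1
  have hmax : ‖Q x‖ ≤ C / c ^ m := by
    refine Complex.norm_le_of_forall_mem_frontier_norm_le (U := Metric.ball 0 r)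
      Metric.isBounded_ball hQd.diffContOnCl ?_ (subset_closure ?_)
    · intro u hu
      rw [frontier_ball _ hr.ne', mem_sphere_zero_iff_norm] at hu
      have h1 : c ≤ ‖h u‖ := hbig u hu
      have h2 : h u ≠ 0 := by
        intro h3
        rw [h3, norm_zero] at h1
        linarith
      rw [hQ1 u h2, norm_div, norm_pow]
      have h4 := hC u hu
      have h5 : 0 ≤ C := (norm_nonneg _).trans h4
      gcongr
    · rw [mem_ball_zero_iff]
      exact hx
  rw [hQ2 x hx0, norm_div, norm_pow, div_le_iff₀ (by positivity)] at hmax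
  exact hmax

/-- The expansion in powers of `X * (V - κ) - θ`. -/
lemma b2_expand {K : ℕ} (a : Fin (K + 1) → ℂ) (X V D b : ℂ) (h : X * V = D + b) :
    X ^ K * ∑ e : Fin (K + 1), a e * V ^ (e : ℕ) =
      ∑ f ∈ Finset.range (K + 1), D ^ f * ∑ e : Fin (K + 1), a e *
        (((e : ℕ).choose f : ℕ) : ℂ) * b ^ ((e : ℕ) - f) * X ^ (K - (e : ℕ)) := by
  have h1 : ∀ e : Fin (K + 1), X ^ K * (a e * V ^ (e : ℕ)) =
      ∑ f ∈ Finset.range (K + 1), D ^ f * (a e * (((e : ℕ).choose f : ℕ) : ℂ) *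
        b ^ ((e : ℕ) - f) * X ^ (K - (e : ℕ))) := by
    intro e
    have he : (e : ℕ) ≤ K := Nat.lt_succ_iff.mp e.2
    have h2 : X ^ K = X ^ (e : ℕ) * X ^ (K - (e : ℕ)) := by
      rw [← pow_add]
      congr 1
      omega
    have h3 : X ^ K * (a e * V ^ (e : ℕ)) = a e * X ^ (K - (e : ℕ)) * (D + b) ^ (e : ℕ) := by
      rw [h2, ← h, mul_pow]
      ring
    rw [h3, add_pow, Finset.mul_sum]
    have hsub : Finset.range ((e : ℕ) + 1) ⊆ Finset.range (K + 1) := by
      apply Finset.range_subset_range.mpr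
      omega
    rw [← Finset.sum_subset hsub]
    · refine Finset.sum_congr rfl fun f _ => ?_
      ring
    · intro f _ hf
      rw [Finset.mem_range, not_lt] at hf
      rw [Nat.choose_eq_zero_of_lt (by omega)]
      simp
  rw [Finset.mul_sum]
  simp_rw [h1]
  rw [Finset.sum_comm]
  refine Finset.sum_congr rfl fun f _ => ?_
  rw [Finset.mul_sum]

theorem one_var_log {K g : ℕ} {A : Fin (K + 1) → ℂ → ℂ} (hA : ∀ e, Differentiable ℂ (A e))
    {κ θ x : ℂ} {κ₀ ρ C : ℝ} (hκ : ‖κ‖ ≤ κ₀) (hθ : θ ≠ 0) (hx0 : x ≠ 0) (hρ : 1 ≤ ρ)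
    (hx : ‖x‖ ≤ ρ)
    (hvan : ∀ f < g, ∀ X : ℂ, X ≠ 0 → ∑ e : Fin (K + 1), A e X * (((e : ℕ).choose f : ℕ) : ℂ) *
      (θ + κ * X) ^ ((e : ℕ) - f) * X ^ (K - (e : ℕ)) = 0)
    (hbd : ∀ X V : ℂ, X ≠ 0 → ‖X‖ ≤ 2 * ρ →
      ‖∑ e : Fin (K + 1), A e X * V ^ (e : ℕ)‖ ≤ C * max 1 ‖V‖ ^ K) :
    ‖∑ e : Fin (K + 1), A e x * (((e : ℕ).choose g : ℕ) : ℂ) *
      (θ + κ * x) ^ ((e : ℕ) - g) * x ^ (K - (e : ℕ))‖ ≤
      C * (2 * (κ₀ + 1)) ^ K * ‖x‖ ^ K * max 1 ‖θ / x‖ ^ (K - g) := by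
  have hκ₀ : 0 ≤ κ₀ := (norm_nonneg _).trans hκ
  have hC : 0 ≤ C := by
    have h1 := hbd x 0 hx0 (by linarith)
    have h2 := (norm_nonneg _).trans h1
    simpa using h2
  obtain ⟨τ, hτ⟩ : ∃ τ : ℕ → ℂ → ℂ, τ = fun f X => ∑ e : Fin (K + 1), A e X *
    (((e : ℕ).choose f : ℕ) : ℂ) * (θ + κ * X) ^ ((e : ℕ) - f) * X ^ (K - (e : ℕ)) := ⟨_, rfl⟩
  have hτd : ∀ f, Differentiable ℂ (τ f) := by
    intro f
    rw [hτ]
    fun_prop
  have hgoal : ‖τ g x‖ ≤ C * (2 * (κ₀ + 1)) ^ K * ‖x‖ ^ K * max 1 ‖θ / x‖ ^ (K - g) := by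
    by_cases hgK : K < g
    · have h1 : τ g x = 0 := by
        rw [hτ]
        refine Finset.sum_eq_zero fun e _ => ?_
        rw [Nat.choose_eq_zero_of_lt (by have := e.2; omega)]
        simp
      rw [h1, norm_zero]
      positivity
    · push Not at hgK
      obtain ⟨t, ht⟩ : ∃ t : ℝ, t = max 1 (2 * ‖θ / x‖) := ⟨_, rfl⟩
      have ht1 : 1 ≤ t := by rw [ht]; exact le_max_left _ _
      have ht2 : 2 * ‖θ / x‖ ≤ t := by rw [ht]; exact le_max_right _ _
      have ht0 : 0 < t := by linarith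
      have hxn : 0 < ‖x‖ := norm_pos_iff.mpr hx0
      have hθn : ‖θ‖ ≤ t * ρ := by
        rw [norm_div] at ht2
        have h1 : ‖θ‖ = ‖θ‖ / ‖x‖ * ‖x‖ := by field_simp
        have h2 : ‖θ‖ / ‖x‖ ≤ t := by
          have : 0 ≤ ‖θ‖ / ‖x‖ := by positivity
          linarith
        rw [h1]
        gcongr
      obtain ⟨G, hG⟩ : ∃ G : ℂ → ℂ → ℂ, G = fun X V => ∑ f ∈ Finset.range (K + 1),
        if g ≤ f then (X * (V - κ) - θ) ^ (f - g) * τ f X else 0 := ⟨_, rfl⟩
      have hid : ∀ X V : ℂ, X ≠ 0 → X ^ K * ∑ e : Fin (K + 1), A e X * V ^ (e : ℕ) =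
          (X * (V - κ) - θ) ^ g * G X V := by
        intro X V hX
        rw [b2_expand (fun e => A e X) X V (X * (V - κ) - θ) (θ + κ * X) (by ring), hG,
          Finset.mul_sum]
        refine Finset.sum_congr rfl fun f _ => ?_
        by_cases hf : g ≤ f
        · rw [if_pos hf, ← mul_assoc, ← pow_add, hτ]
          congr 2
          omega
        · rw [if_neg hf, hvan f (not_le.mp hf) X hX]
          simp
      -- Step 1
      have step1 : ∀ V : ℂ, ‖V - κ‖ = t → ‖G x V‖ ≤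
          C * (κ₀ + 1) ^ K * t ^ (K - g) * ‖x‖ ^ K := by
        intro V hV
        have h1 := b2_div (F := fun X => ∑ e : Fin (K + 1), A e X * V ^ (e : ℕ))
          (h := fun X => X * (V - κ) - θ) (G := fun X => G X V) (m := g) (K := K)
          (r := 2 * ρ) (C := C * ((κ₀ + 1) * t) ^ K) (c := t) (by linarith) ht0
          (by fun_prop) (by fun_prop)
          (by
            rw [hG]
            apply Differentiable.fun_sum
            intro f _
            by_cases hf : g ≤ f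
            · simp only [hf, if_true]
              have := hτd f
              fun_prop
            · simp only [hf, if_false]
              fun_prop)
          (fun X hX => hid X V hX) (by simpa using hθ) (by
            intro X hX
            have h2 : ‖X * (V - κ)‖ = 2 * ρ * t := by rw [norm_mul, hX, hV]
            have h3 := norm_sub_norm_le (X * (V - κ)) θ
            have h4 : t ≤ ρ * t := by nlinarith
            nlinarith) (by
            intro X hX
            have hX0 : X ≠ 0 := by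
              rw [← norm_pos_iff, hX]
              linarith
            refine (hbd X V hX0 hX.le).trans ?_
            have h2 : ‖V‖ ≤ κ₀ + t := by
              have h3 : V = κ + (V - κ) := by ring
              calc ‖V‖ = ‖κ + (V - κ)‖ := by rw [← h3]
                _ ≤ ‖κ‖ + ‖V - κ‖ := norm_add_le _ _
                _ ≤ κ₀ + t := by rw [hV]; linarith
            have h3 : max 1 ‖V‖ ≤ (κ₀ + 1) * t := by
              apply max_le
              · nlinarith
              · nlinarith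
            gcongr) hx0 (by linarith)
        refine h1.trans (le_of_eq ?_)
        have h2 : t ^ K = t ^ (K - g) * t ^ g := by
          rw [← pow_add]
          congr 1
          omega
        rw [mul_pow, h2]
        field_simp
      -- Step 2
      have step2 : ‖G x (κ + θ / x)‖ ≤ C * (κ₀ + 1) ^ K * t ^ (K - g) * ‖x‖ ^ K := by
        have hd : Differentiable ℂ fun V => G x V := by
          rw [hG]
          apply Differentiable.fun_sum
          intro f _
          by_cases hf : g ≤ f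
          · simp only [hf, if_true]
            fun_prop
          · simp only [hf, if_false]
            fun_prop
        refine Complex.norm_le_of_forall_mem_frontier_norm_le (U := Metric.ball κ t)
          (f := fun V => G x V) Metric.isBounded_ball hd.diffContOnCl ?_ ?_
        · intro V hV
          rw [frontier_ball _ ht0.ne', mem_sphere_iff_norm] at hV
          exact step1 V hV
        · rw [closure_ball _ ht0.ne', mem_closedBall_iff_norm]
          have h1 : κ + θ / x - κ = θ / x := by ring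
          rw [h1]
          have : 0 ≤ ‖θ / x‖ := norm_nonneg _
          linarith
      have hval : G x (κ + θ / x) = τ g x := by
        rw [hG]
        have h1 : x * (κ + θ / x - κ) - θ = 0 := by
          field_simp
          ring
        simp only [h1]
        rw [Finset.sum_eq_single g]
        · simp
        · intro f _ hfg
          by_cases hf : g ≤ f
          · rw [if_pos hf, zero_pow (by omega), zero_mul]
          · rw [if_neg hf]
        · intro h2
          exact absurd (Finset.mem_range.mpr (by omega)) h2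
      rw [hval] at step2
      refine step2.trans ?_
      have h1 : t ≤ 2 * max 1 ‖θ / x‖ := by
        rw [ht]
        apply max_le
        · have := le_max_left 1 ‖θ / x‖
          linarith
        · have := le_max_right 1 ‖θ / x‖
          linarith
      have h2 : t ^ (K - g) ≤ 2 ^ K * max 1 ‖θ / x‖ ^ (K - g) := by
        calc t ^ (K - g) ≤ (2 * max 1 ‖θ / x‖) ^ (K - g) := by gcongr
          _ = 2 ^ (K - g) * max 1 ‖θ / x‖ ^ (K - g) := mul_pow _ _ _
          _ ≤ 2 ^ K * max 1 ‖θ / x‖ ^ (K - g) := by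
            gcongr
            · norm_num
            · omega
      calc C * (κ₀ + 1) ^ K * t ^ (K - g) * ‖x‖ ^ K ≤
          C * (κ₀ + 1) ^ K * (2 ^ K * max 1 ‖θ / x‖ ^ (K - g)) * ‖x‖ ^ K := by gcongr
        _ = C * (2 * (κ₀ + 1)) ^ K * ‖x‖ ^ K * max 1 ‖θ / x‖ ^ (K - g) := by
          rw [mul_pow]
          ring
  rw [hτ] at hgoal
  exact hgoal

end Pool.Agent.Lib.GGL.SM
end

section

/-!
The bound for the first Taylor coefficient.
-/

open Filter Topology MvPolynomial Module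

namespace Pool.Agent.Lib.GGL.SM

theorem b3_sum_cons {q : ℕ} {α : Type*} [Fintype α] (F : (Fin (q + 1) → α) → ℂ) :
    ∑ γ, F γ = ∑ e : α, ∑ γ : Fin q → α, F (Fin.cons e γ) := by
  rw [← (Fin.consEquiv fun _ : Fin (q + 1) => α).sum_comp, Fintype.sum_prod_type]
  rfl

theorem bound_log {q K : ℕ} (c : (Fin q → Fin (K + 1)) → (Fin q → ℂ) → ℂ)
    (hc : ∀ γ, Differentiable ℂ (c γ)) (g : Fin q → ℕ) {κ : ℂ} {θ : Fin q → ℂ}
    (hθ : ∀ j, θ j ≠ 0) {κ₀ ρ C : ℝ} (hκ : ‖κ‖ ≤ κ₀) (hρ : 1 ≤ ρ)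
    (hgood : ∀ X : Fin q → ℂ, (∀ j, X j ≠ 0) →
      GoodL q g (fun j => X j) (fun j => θ j + κ * X j) (fun γ => c γ X))
    (hbd : ∀ X V : Fin q → ℂ, (∀ j, X j ≠ 0) → (∀ j, ‖X j‖ ≤ 2 * ρ) →
      ‖∑ γ, c γ X * ∏ j, V j ^ (γ j : ℕ)‖ ≤ C * ∏ j, max 1 ‖V j‖ ^ K)
    (x : Fin q → ℂ) (hx0 : ∀ j, x j ≠ 0) (hx : ∀ j, ‖x j‖ ≤ ρ) :
    ‖leadL g (fun j => x j) (fun j => θ j + κ * x j) (fun γ => c γ x)‖ ≤
      C * (2 * (κ₀ + 1)) ^ (q * K) * ∏ j, (‖x j‖ ^ K * max 1 ‖θ j / x j‖ ^ (K - g j)) := by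
  induction q generalizing C with
  | zero =>
    have h1 := hbd x x hx0 (fun j => j.elim0)
    simpa [leadL] using h1
  | succ q ih =>
    obtain ⟨c', hc'⟩ : ∃ c' : (Fin q → Fin (K + 1)) → (Fin q → ℂ) → ℂ, c' = fun γ X =>
      tayL (x 0) (θ 0 + κ * x 0) (g 0) (fun γ => c γ (Fin.cons (x 0) X)) γ := ⟨_, rfl⟩
    have hconsd : ∀ X : Fin q → ℂ, Differentiable ℂ fun u : ℂ =>
        (Fin.cons u X : Fin (q + 1) → ℂ) := by
      intro X
      rw [differentiable_pi]
      intro j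
      refine Fin.cases ?_ (fun j => ?_) j
      · simp only [Fin.cons_zero]
        fun_prop
      · simp only [Fin.cons_succ]
        fun_prop
    have hconsd' : Differentiable ℂ fun X : Fin q → ℂ =>
        (Fin.cons (x 0) X : Fin (q + 1) → ℂ) := by
      rw [differentiable_pi]
      intro j
      refine Fin.cases ?_ (fun j => ?_) j
      · simp only [Fin.cons_zero]
        fun_prop
      · simp only [Fin.cons_succ]
        fun_prop
    have hcomp : ∀ γ, Differentiable ℂ fun X : Fin q → ℂ =>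
        c γ (Fin.cons (x 0) X : Fin (q + 1) → ℂ) := fun γ => (hc γ).comp hconsd'
    have hc'd : ∀ γ, Differentiable ℂ (c' γ) := by
      intro γ
      rw [hc']
      unfold tayL
      fun_prop
    have hgood' : ∀ X : Fin q → ℂ, (∀ j, X j ≠ 0) →
        GoodL q (Fin.tail g) (fun j => X j) (fun j => Fin.tail θ j + κ * X j)
          (fun γ => c' γ X) := by
      intro X hX
      have h1 := (hgood (Fin.cons (x 0) X) (by
        intro j
        refine Fin.cases ?_ (fun j => ?_) j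
        · rw [Fin.cons_zero]; exact hx0 0
        · rw [Fin.cons_succ]; exact hX j)).2
      rw [hc']
      exact h1
    have hbd' : ∀ X V : Fin q → ℂ, (∀ j, X j ≠ 0) → (∀ j, ‖X j‖ ≤ 2 * ρ) →
        ‖∑ γ, c' γ X * ∏ j, V j ^ (γ j : ℕ)‖ ≤
          (C * (2 * (κ₀ + 1)) ^ K * ‖x 0‖ ^ K * max 1 ‖θ 0 / x 0‖ ^ (K - g 0)) *
            ∏ j, max 1 ‖V j‖ ^ K := by
      intro X V hX0 hX2
      obtain ⟨w, hw⟩ : ∃ w : (Fin q → Fin (K + 1)) → ℂ, w = fun γ =>
        ∏ j, V j ^ (γ j : ℕ) := ⟨_, rfl⟩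
      obtain ⟨A, hA⟩ : ∃ A : Fin (K + 1) → ℂ → ℂ, A = fun e u =>
        ∑ γ : Fin q → Fin (K + 1), c (Fin.cons e γ) (Fin.cons u X) * w γ := ⟨_, rfl⟩
      have hAd : ∀ e, Differentiable ℂ (A e) := by
        intro e
        rw [hA]
        have h1 : ∀ γ, Differentiable ℂ fun u : ℂ =>
          c γ (Fin.cons u X : Fin (q + 1) → ℂ) := fun γ => (hc γ).comp (hconsd X)
        fun_prop
      have hτtay : ∀ f u, ∑ e : Fin (K + 1), A e u * (((e : ℕ).choose f : ℕ) : ℂ) *
          (θ 0 + κ * u) ^ ((e : ℕ) - f) * u ^ (K - (e : ℕ)) =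
          ∑ γ : Fin q → Fin (K + 1), tayL u (θ 0 + κ * u) f
            (fun γ => c γ (Fin.cons u X)) γ * w γ := by
        intro f u
        rw [hA]
        simp only [tayL]
        rw [Finset.sum_congr rfl fun γ _ => Finset.sum_mul _ _ _, Finset.sum_comm]
        refine Finset.sum_congr rfl fun e _ => ?_
        rw [Finset.sum_mul, Finset.sum_mul, Finset.sum_mul]
        refine Finset.sum_congr rfl fun γ _ => ?_
        ring
      have hvan : ∀ f < g 0, ∀ u : ℂ, u ≠ 0 → ∑ e : Fin (K + 1),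
          A e u * (((e : ℕ).choose f : ℕ) : ℂ) *
          (θ 0 + κ * u) ^ ((e : ℕ) - f) * u ^ (K - (e : ℕ)) = 0 := by
        intro f hf u hu
        rw [hτtay]
        have h1 := (hgood (Fin.cons u X) (by
          intro j
          refine Fin.cases ?_ (fun j => ?_) j
          · rw [Fin.cons_zero]; exact hu
          · rw [Fin.cons_succ]; exact hX0 j)).1 f hf
        refine Finset.sum_eq_zero fun γ _ => ?_
        have h2 := h1 γ
        simp only [Fin.cons_zero] at h2
        rw [h2, zero_mul]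
      have hone : ∀ u v : ℂ, u ≠ 0 → ‖u‖ ≤ 2 * ρ →
          ‖∑ e : Fin (K + 1), A e u * v ^ (e : ℕ)‖ ≤
            (C * ∏ j, max 1 ‖V j‖ ^ K) * max 1 ‖v‖ ^ K := by
        intro u v hu0 hu
        have h1 := hbd (Fin.cons u X) (Fin.cons v V) (by
          intro j
          refine Fin.cases ?_ (fun j => ?_) j
          · rw [Fin.cons_zero]; exact hu0
          · rw [Fin.cons_succ]; exact hX0 j) (by
          intro j
          refine Fin.cases ?_ (fun j => ?_) j
          · rw [Fin.cons_zero]; exact hu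
          · rw [Fin.cons_succ]; exact hX2 j)
        have h2 : ∑ e : Fin (K + 1), A e u * v ^ (e : ℕ) = ∑ γ : Fin (q + 1) → Fin (K + 1),
            c γ (Fin.cons u X) * ∏ j, (Fin.cons v V : Fin (q + 1) → ℂ) j ^ (γ j : ℕ) := by
          rw [b3_sum_cons, hA]
          refine Finset.sum_congr rfl fun e _ => ?_
          beta_reduce
          rw [Finset.sum_mul]
          refine Finset.sum_congr rfl fun γ _ => ?_
          rw [Fin.prod_univ_succ, hw]
          simp only [Fin.cons_zero, Fin.cons_succ]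
          ring
        rw [h2]
        refine h1.trans_eq ?_
        rw [Fin.prod_univ_succ]
        simp only [Fin.cons_zero, Fin.cons_succ]
        ring
      have hfin := one_var_log hAd hκ (hθ 0) (hx0 0) hρ (hx 0) hvan hone
      rw [hτtay] at hfin
      have h5 : ∑ γ, c' γ X * ∏ j, V j ^ (γ j : ℕ) = ∑ γ : Fin q → Fin (K + 1),
          tayL (x 0) (θ 0 + κ * x 0) (g 0) (fun γ => c γ (Fin.cons (x 0) X)) γ * w γ := by
        rw [hc', hw]
      rw [h5]
      refine hfin.trans_eq ?_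
      ring
    have hfin := ih c' hc'd (Fin.tail g) (θ := Fin.tail θ) (fun j => hθ j.succ)
      hgood' hbd' (Fin.tail x) (fun j => hx0 j.succ) (fun j => hx j.succ)
    rw [leadL_succ, Fin.prod_univ_succ]
    have h1 : (fun γ => c' γ (Fin.tail x)) = tayL (x 0) (θ 0 + κ * x 0) (g 0)
        (fun γ => c γ x) := by
      funext γ
      rw [hc']
      beta_reduce
      rw [Fin.cons_self_tail]
    rw [h1] at hfin
    refine hfin.trans_eq ?_
    have h2 : (2 * (κ₀ + 1)) ^ ((q + 1) * K) =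
        (2 * (κ₀ + 1)) ^ K * (2 * (κ₀ + 1)) ^ (q * K) := by
      rw [← pow_add]
      congr 1
      ring
    rw [h2]
    simp only [Fin.tail]
    ring

end Pool.Agent.Lib.GGL.SM
end

section

/-!
Factoring out the zeros in a closed disc.
-/

open Filter Topology MeasureTheory

namespace Pool.Agent.Lib.GGL.SM

theorem e6a_order_ne_top {A : ℂ → ℂ} (hA : Differentiable ℂ A) (hne : ∃ z, A z ≠ 0) (a : ℂ) :
    analyticOrderAt A a ≠ ⊤ := by
  obtain ⟨z, hz⟩ := hne
  have hU : AnalyticOnNhd ℂ A Set.univ := fun x _ => hA.analyticAt x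
  have h1 : analyticOrderAt A z ≠ ⊤ := by
    rw [((hA.analyticAt z).analyticOrderAt_eq_zero).2 hz]
    exact ENat.zero_ne_top
  exact hU.analyticOrderAt_ne_top_of_isPreconnected isPreconnected_univ (Set.mem_univ z)
    (Set.mem_univ a) h1

/-- Dividing by the power of `z - a`. -/
theorem e6a_divide {g : ℂ → ℂ} (hg : Differentiable ℂ g) {a : ℂ}
    (ha : analyticOrderAt g a ≠ ⊤) :
    ∃ g1 : ℂ → ℂ, Differentiable ℂ g1 ∧ g1 a ≠ 0 ∧
      ∀ z, g z = (z - a) ^ analyticOrderNatAt g a * g1 z := by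
  set m := analyticOrderNatAt g a with hm
  obtain ⟨h, hh, hha, heq⟩ := ((hg.analyticAt a).analyticOrderAt_eq_natCast (n := m)).1
    (Nat.cast_analyticOrderNatAt ha).symm
  classical
  set g1 : ℂ → ℂ := fun z => if z = a then h a else g z / (z - a) ^ m with hg1
  have h1 : g1 =ᶠ[𝓝 a] h := by
    filter_upwards [heq] with z hz
    by_cases hza : z = a
    · simp only [hg1, hza, if_true]
    · simp only [hg1, if_neg hza]
      rw [hz, smul_eq_mul, mul_comm, mul_div_assoc, div_self (pow_ne_zero _ (sub_ne_zero.2 hza)),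
        mul_one]
  refine ⟨g1, ?_, ?_, ?_⟩
  · intro z
    by_cases hza : z = a
    · subst hza
      exact (hh.differentiableAt).congr_of_eventuallyEq h1
    · have h2 : g1 =ᶠ[𝓝 z] fun w => g w / (w - a) ^ m := by
        filter_upwards [isOpen_ne.mem_nhds hza] with w hw
        simp only [hg1, if_neg (show ¬ w = a from hw)]
      refine DifferentiableAt.congr_of_eventuallyEq ?_ h2
      exact (hg z).div (by fun_prop) (pow_ne_zero _ (sub_ne_zero.2 hza))
  · simp only [hg1, if_true]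
    exact hha
  · intro z
    by_cases hza : z = a
    · subst hza
      have h3 := heq.self_of_nhds
      simp only [hg1, if_true]
      rw [h3, smul_eq_mul]
    · simp only [hg1, if_neg hza]
      rw [mul_div_cancel₀ _ (pow_ne_zero _ (sub_ne_zero.2 hza))]

theorem e6a_ind {A : ℂ → ℂ} (hA : Differentiable ℂ A) (hne : ∃ z, A z ≠ 0) (s : Finset ℂ) :
    ∃ g : ℂ → ℂ, Differentiable ℂ g ∧ (∀ a ∈ s, g a ≠ 0) ∧
      ∀ z, A z = (∏ a ∈ s, (z - a) ^ analyticOrderNatAt A a) * g z := by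
  classical
  induction s using Finset.induction_on with
  | empty => exact ⟨A, hA, by simp, by simp⟩
  | insert b s hb ih =>
    obtain ⟨g, hg, hgs, hgA⟩ := ih
    set P : ℂ → ℂ := fun z => ∏ a ∈ s, (z - a) ^ analyticOrderNatAt A a with hP
    have hPd : Differentiable ℂ P := by
      simp only [hP]
      fun_prop
    have hPb : P b ≠ 0 := by
      simp only [hP]
      rw [Finset.prod_ne_zero_iff]
      intro a ha
      exact pow_ne_zero _ (sub_ne_zero.2 (fun h => hb (h ▸ ha)))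
    have hAP : A = P * g := funext hgA
    have hord : analyticOrderAt A b = analyticOrderAt g b := by
      rw [hAP, analyticOrderAt_mul (hPd.analyticAt b) (hg.analyticAt b),
        ((hPd.analyticAt b).analyticOrderAt_eq_zero).2 hPb, zero_add]
    have hgt : analyticOrderAt g b ≠ ⊤ := by rw [← hord]; exact e6a_order_ne_top hA hne b
    obtain ⟨g1, hg1, hg1b, hg1e⟩ := e6a_divide hg hgt
    have hnat : analyticOrderNatAt g b = analyticOrderNatAt A b := by
      unfold analyticOrderNatAt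
      rw [hord]
    rw [hnat] at hg1e
    refine ⟨g1, hg1, ?_, ?_⟩
    · intro a ha
      rcases Finset.mem_insert.1 ha with rfl | ha
      · exact hg1b
      · intro h0
        exact hgs a ha (by rw [hg1e a, h0, mul_zero])
    · intro z
      rw [Finset.prod_insert hb, hgA z, hg1e z]
      ring

theorem exists_factor {A : ℂ → ℂ} (hA : Differentiable ℂ A) (hne : ∃ z, A z ≠ 0) (ρ : ℝ) :
    ∃ (s : Finset ℂ) (g : ℂ → ℂ), (∀ a, a ∈ s ↔ A a = 0 ∧ ‖a‖ ≤ ρ) ∧ Differentiable ℂ g ∧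
      (∀ z, ‖z‖ ≤ ρ → g z ≠ 0) ∧
      (∀ z, A z = (∏ a ∈ s, (z - a) ^ analyticOrderNatAt A a) * g z) ∧
      zc A ρ = ∑ a ∈ s, (analyticOrderNatAt A a : ℝ) := by
  set s : Finset ℂ := (zeros_finite hA hne ρ).toFinset with hs
  have hmem : ∀ a, a ∈ s ↔ A a = 0 ∧ ‖a‖ ≤ ρ := by
    intro a
    rw [hs, Set.Finite.mem_toFinset]
    simp
  obtain ⟨g, hg, hgs, hgA⟩ := e6a_ind hA hne s
  refine ⟨s, g, hmem, hg, ?_, hgA, ?_⟩
  · intro z hz h0
    have h1 : A z = 0 := by rw [hgA z, h0, mul_zero]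
    exact hgs z ((hmem z).2 ⟨h1, hz⟩) h0
  · unfold zc
    apply finsum_mem_eq_sum_of_inter_support_eq
    ext a
    simp only [Set.mem_inter_iff, Function.mem_support, ne_eq, Nat.cast_eq_zero,
      mem_closedBall_zero_iff, Finset.mem_coe, hmem]
    constructor
    · rintro ⟨h1, h2⟩
      exact ⟨⟨apply_eq_zero_of_analyticOrderNatAt_ne_zero h2, h1⟩, h2⟩
    · rintro ⟨⟨h1, h2⟩, h3⟩
      exact ⟨h2, h3⟩

end Pool.Agent.Lib.GGL.SM
end
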