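import Mathlib
import Pool.Agent.Lib.MP_8d161d_ag.VG.VDefs
import Pool.Agent.Lib.MP_8d161d_ag.Mg.G003
import Pool.Agent.Lib.MP_8d161d_ag.Cover
import Pool.Agent.Lib.MP_8d161d_ag.SM.Defs
import Pool.Agent.Lib.MP_8d161d_ag.Mg.G013

section

/-!
Uniform bounds at a point.
-/

open Filter Topology MvPolynomial Module

namespace Pool.Agent.Lib.GGL.VG

theorem uniform_sep {E F : Type*} [NormedAddCommGroup E] [NormedSpace ℂ E] [FiniteDimensional ℂ E]
    [NormedAddCommGroup F] [NormedSpace ℂ F] {T : Set E} (hT : IsClosed T)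
    (hcone : ∀ y ∈ T, ∀ a : ℂ, a • y ∈ T) (L : E →ₗ[ℂ] F) (hL : ∀ y ∈ T, L y = 0 → y = 0) :
    ∃ c > 0, ∀ y ∈ T, c * ‖y‖ ≤ ‖L y‖ := by
  have : ProperSpace E := FiniteDimensional.proper ℂ E
  have hLc : Continuous L := L.continuous_of_finiteDimensional
  have hcomp : IsCompact (T ∩ Metric.sphere (0 : E) 1) :=
    (isCompact_sphere (0 : E) 1).inter_left hT
  have hnorm : ∀ y ∈ T, y ≠ 0 → (((‖y‖⁻¹ : ℝ) : ℂ) • y) ∈ T ∩ Metric.sphere (0 : E) 1 := by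
    intro y hy hy0
    refine ⟨hcone y hy _, ?_⟩
    rw [mem_sphere_zero_iff_norm, norm_smul, Complex.norm_real, norm_inv, norm_norm]
    exact inv_mul_cancel₀ (norm_ne_zero_iff.2 hy0)
  rcases (T ∩ Metric.sphere (0 : E) 1).eq_empty_or_nonempty with hem | hne
  · refine ⟨1, one_pos, ?_⟩
    intro y hy
    by_cases hy0 : y = 0
    · simp [hy0]
    · have := hnorm y hy hy0
      rw [hem] at this
      exact absurd this (Set.notMem_empty _)
  · obtain ⟨y0, hy0, hmin⟩ := hcomp.exists_isMinOn hne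
      (continuous_norm.comp hLc).continuousOn
    have hpos : 0 < ‖L y0‖ := by
      rw [norm_pos_iff]
      intro h
      have h1 := hL y0 hy0.1 h
      have h2 := hy0.2
      rw [h1, mem_sphere_zero_iff_norm, norm_zero] at h2
      exact zero_ne_one h2
    refine ⟨‖L y0‖, hpos, ?_⟩
    intro y hy
    by_cases hy1 : y = 0
    · simp [hy1]
    · have h1 := hmin (hnorm y hy hy1)
      simp only [Function.comp, Set.mem_setOf_eq, map_smul, norm_smul, Complex.norm_real, norm_inv,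
        norm_norm] at h1
      have h2 : 0 < ‖y‖ := norm_pos_iff.2 hy1
      calc ‖L y0‖ * ‖y‖ ≤ (‖y‖⁻¹ * ‖L y‖) * ‖y‖ := by gcongr
        _ = ‖L y‖ := by field_simp

lemma dot_add_single {M : ℕ} (p y : Fin (M + 1) → ℂ) (i : Fin (M + 1)) (a : ℂ) :
    (p + a • (Pi.single i (1 : ℂ) : Fin (M + 1) → ℂ)) ⬝ᵥ y = p ⬝ᵥ y + a * y i := by
  rw [add_dotProduct, smul_dotProduct, single_dotProduct, one_mul, smul_eq_mul]

lemma eval_pt_continuous {q M : ℕ} {S : Type*} [TopologicalSpace S]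
    (c : MvPolynomial ((Fin q × Fin (M + 1)) ⊕ (Fin (M + 1) ⊕ Fin (M + 1))) ℂ)
    {f : S → Fin q → Fin (M + 1) → ℂ} {y Z : S → Fin (M + 1) → ℂ} (hf : Continuous f)
    (hy : Continuous y) (hZ : Continuous Z) :
    Continuous fun s => eval (pt (f s) (y s) (Z s)) c := by
  have h1 : Continuous fun s => pt (f s) (y s) (Z s) := by
    rw [continuous_pi_iff]
    rintro (a | (a | a))
    · simp only [pt, Sum.elim_inl]
      fun_prop
    · simp only [pt, Sum.elim_inl, Sum.elim_inr]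
      fun_prop
    · simp only [pt, Sum.elim_inr]
      fun_prop
  exact (MvPolynomial.continuous_eval c).comp h1

lemma eval_pt_differentiable {q M : ℕ} {E : Type*} [NormedAddCommGroup E] [NormedSpace ℂ E]
    (c : MvPolynomial ((Fin q × Fin (M + 1)) ⊕ (Fin (M + 1) ⊕ Fin (M + 1))) ℂ)
    {f : E → Fin q → Fin (M + 1) → ℂ} {y Z : Fin (M + 1) → ℂ} (hf : ∀ j k, Differentiable ℂ
      fun s => f s j k) :
    Differentiable ℂ fun s => eval (pt (f s) y Z) c := by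
  induction c using MvPolynomial.induction_on with
  | C a => simp only [eval_C]; fun_prop
  | add a b ha hb => simp only [map_add]; fun_prop
  | mul_X a n ha =>
    simp only [map_mul, eval_X]
    refine ha.fun_mul ?_
    rcases n with a | (a | a)
    · simp only [pt, Sum.elim_inl]
      exact hf _ _
    · simp only [pt, Sum.elim_inl, Sum.elim_inr]
      fun_prop
    · simp only [pt, Sum.elim_inr]
      fun_prop

theorem point_bound {q K M : ℕ} (p : Fin q → Fin (M + 1) → ℂ)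
    (c : (Fin q → Fin (2 * K + 1)) →
      MvPolynomial ((Fin q × Fin (M + 1)) ⊕ (Fin (M + 1) ⊕ Fin (M + 1))) ℂ)
    (g : Fin q → ℕ) (R : ℝ) :
    ∃ C : ℝ, ∀ (y Z : Fin (M + 1) → ℂ) (i : Fin (M + 1)),
      (∀ p' : Fin q → Fin (M + 1) → ℂ, Good K q g (fun j => p' j ⬝ᵥ y) (fun j => p' j ⬝ᵥ Z)
        (fun γ => eval (pt p' y Z) (c γ))) →
      ‖y‖ ≤ R → ‖Z‖ ≤ R → 1 ≤ R * ‖y i‖ →
      (∀ j, (p j ⬝ᵥ Z) * y i - Z i * (p j ⬝ᵥ y) ≠ 0) →
      ∀ x v : Fin q → ℂ, (∀ j, p j ⬝ᵥ y = x j ^ 2) → (∀ j, p j ⬝ᵥ Z = 2 * x j * v j) →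
        (∀ j, x j ≠ 0) → (∀ j, ‖x j‖ ≤ 1) → (∀ j, ‖v j‖ ≤ 1) →
        ‖lead K g (fun j => p j ⬝ᵥ y) (fun j => p j ⬝ᵥ Z) (fun γ => eval (pt p y Z) (c γ))‖ ≤
          C * ∏ j, ‖x j‖ ^ (2 * K) := by
  classical
  -- the function on the parameter space
  obtain ⟨P, hP⟩ : ∃ P : Fin (M + 1) → (Fin q → ℂ) → (Fin (M + 1) → ℂ) → ℂ → Fin q →
      Fin (M + 1) → ℂ, P = fun i X y t j =>
        p j + ((X j ^ 2 - p j ⬝ᵥ y) * t) • (Pi.single i (1 : ℂ) : Fin (M + 1) → ℂ) := ⟨_, rfl⟩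
  obtain ⟨Ξ, hΞ⟩ : ∃ Ξ : Fin (M + 1) → ((Fin q → ℂ) × (Fin q → ℂ) × (Fin (M + 1) → ℂ) ×
      (Fin (M + 1) → ℂ) × ℂ) → ℂ, Ξ = fun i s =>
        ∑ γ, eval (pt (P i s.1 s.2.2.1 s.2.2.2.2) s.2.2.1 s.2.2.2.1) (c γ) *
          ∏ j, ((2 * s.2.1 j) ^ (γ j : ℕ) * s.1 j ^ ((γ j : ℕ) % 2)) := ⟨_, rfl⟩
  have hdc : ∀ j, Continuous fun y : Fin (M + 1) → ℂ => p j ⬝ᵥ y := by
    intro j
    unfold dotProduct
    fun_prop
  have hΞc : ∀ i, Continuous (Ξ i) := by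
    intro i
    rw [hΞ]
    refine continuous_finsetSum _ fun γ _ => Continuous.mul ?_ ?_
    · refine eval_pt_continuous _ ?_ (by fun_prop) (by fun_prop)
      rw [hP]
      rw [continuous_pi_iff]
      intro j
      have h1 : Continuous fun a : (Fin q → ℂ) × (Fin q → ℂ) × (Fin (M + 1) → ℂ) ×
          (Fin (M + 1) → ℂ) × ℂ => p j ⬝ᵥ a.2.2.1 := (hdc j).comp (by fun_prop)
      fun_prop
    · fun_prop
  obtain ⟨ρ, hρ⟩ : ∃ ρ : ℝ, ρ = max (max 4 (10 + 15 * (R * R))) R := ⟨_, rfl⟩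
  have hbdd : ∀ i, ∃ C, ∀ s ∈ Metric.closedBall (0 : (Fin q → ℂ) × (Fin q → ℂ) ×
      (Fin (M + 1) → ℂ) × (Fin (M + 1) → ℂ) × ℂ) ρ, ‖Ξ i s‖ ≤ C := fun i =>
    (isCompact_closedBall _ _).exists_bound_of_continuousOn (hΞc i).continuousOn
  choose C hC using hbdd
  refine ⟨∑ i, |C i|, ?_⟩
  intro y Z i hgood hy hZ hyi hne x v hpy hpZ hx0 hx1 hv1
  have hyi0 : y i ≠ 0 := by
    intro h
    rw [h, norm_zero, mul_zero] at hyi
    linarith
  have hyi' : 0 < ‖y i‖ := norm_pos_iff.2 hyi0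
  have hR : 0 < R := by
    by_contra h
    push Not at h
    have := mul_nonpos_of_nonpos_of_nonneg h hyi'.le
    linarith
  obtain ⟨t, ht⟩ : ∃ t : ℂ, t = (y i)⁻¹ := ⟨_, rfl⟩
  have htR : ‖t‖ ≤ R := by
    rw [ht, norm_inv, inv_le_iff_one_le_mul₀ hyi']
    exact hyi
  have hty : t * y i = 1 := by rw [ht]; exact inv_mul_cancel₀ hyi0
  have hZi : ‖Z i‖ ≤ R := (norm_le_pi_norm Z i).trans hZ
  have hκ : ‖t * Z i‖ ≤ R * R := by
    rw [norm_mul]
    gcongr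
  -- apply the bound
  have h1 := bound (κ := t * Z i) (θ := fun j => p j ⬝ᵥ Z - t * Z i * (p j ⬝ᵥ y))
    (κ₀ := R * R) (C := C i) (fun γ X => eval (pt (P i X y t) y Z) (c γ)) (by
      intro γ
      refine eval_pt_differentiable _ ?_
      intro j k
      rw [hP]
      simp only [Pi.add_apply, Pi.smul_apply, smul_eq_mul]
      fun_prop) g (by
      intro j h
      apply hne j
      have h2 : (p j ⬝ᵥ Z) * y i - Z i * (p j ⬝ᵥ y) =
          (p j ⬝ᵥ Z - t * Z i * (p j ⬝ᵥ y)) * y i := by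
        linear_combination (Z i * (p j ⬝ᵥ y)) * hty
      rw [h2, h, zero_mul]) hκ (by
      intro X hX
      have h2 := hgood (P i X y t)
      have h3 : (fun j => P i X y t j ⬝ᵥ y) = fun j => X j ^ 2 := by
        funext j
        rw [hP]
        beta_reduce
        rw [dot_add_single]
        linear_combination (X j ^ 2 - p j ⬝ᵥ y) * hty
      have h4 : (fun j => P i X y t j ⬝ᵥ Z) =
          fun j => (p j ⬝ᵥ Z - t * Z i * (p j ⬝ᵥ y)) + t * Z i * X j ^ 2 := by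
        funext j
        rw [hP]
        beta_reduce
        rw [dot_add_single]
        ring
      rw [h3, h4] at h2
      exact h2) (by
      intro X V hX hX4 hV
      have h2 := hC i (X, V, y, Z, t) (by
        rw [mem_closedBall_zero_iff]
        have hρ4 : 4 ≤ ρ := by rw [hρ]; exact (le_max_left _ _).trans (le_max_left _ _)
        have hρV : 10 + 15 * (R * R) ≤ ρ := by
          rw [hρ]; exact (le_max_right _ _).trans (le_max_left _ _)
        have hρR : R ≤ ρ := by rw [hρ]; exact le_max_right _ _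
        have hρ0 : 0 ≤ ρ := by linarith
        simp only [Prod.norm_def, sup_le_iff]
        refine ⟨?_, ?_, hy.trans hρR, hZ.trans hρR, htR.trans hρR⟩
        · rw [pi_norm_le_iff_of_nonneg hρ0]
          exact fun j => (hX4 j).trans hρ4
        · rw [pi_norm_le_iff_of_nonneg hρ0]
          exact fun j => (hV j).trans hρV)
      rw [hΞ] at h2
      exact h2) x v hx0 hx1 hv1 (by
      intro j
      beta_reduce
      rw [← hpy j, ← hpZ j]
      ring)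
  have hPx : P i x y t = p := by
    rw [hP]
    funext j
    beta_reduce
    rw [hpy j, sub_self, zero_mul, zero_smul, add_zero]
  have h5 : (fun j => x j ^ 2) = fun j => p j ⬝ᵥ y := by
    funext j
    rw [hpy j]
  have h6 : (fun j => (p j ⬝ᵥ Z - t * Z i * (p j ⬝ᵥ y)) + t * Z i * x j ^ 2) =
      fun j => p j ⬝ᵥ Z := by
    funext j
    rw [hpy j]
    ring
  rw [h5, h6] at h1
  simp only [hPx] at h1
  refine h1.trans ?_
  gcongr
  · exact (le_abs_self _).trans (Finset.single_le_sum (f := fun i => |C i|)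
      (fun i _ => abs_nonneg _) (Finset.mem_univ i))

end Pool.Agent.Lib.GGL.VG
end

section

/-!
The bound in a scale invariant form.
-/

open Filter Topology MvPolynomial Module

namespace Pool.Agent.Lib.GGL.VG

theorem scaled_bound {q K M A B τ : ℕ} (hdeg : q * K = A + B + τ)
    (p : Fin q → Fin (M + 1) → ℂ) {W : Set ((Fin (M + 1) → ℂ) × (Fin (M + 1) → ℂ))}
    (hW : ∀ y Z, (y, Z) ∈ W → ∀ a b s : ℂ, (a • y, b • (Z + s • y)) ∈ W)
    {c₀ : ℝ} (hc₀ : 0 < c₀) (hsep : ∀ y Z, (y, Z) ∈ W → c₀ * ‖y‖ ≤ ‖fun j => p j ⬝ᵥ y‖ ∧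
      c₀ * ‖Z‖ ≤ ‖fun j => p j ⬝ᵥ Z‖)
    (c : (Fin q → Fin (2 * K + 1)) →
      MvPolynomial ((Fin q × Fin (M + 1)) ⊕ (Fin (M + 1) ⊕ Fin (M + 1))) ℂ)
    (g : Fin q → ℕ)
    (hgood : ∀ p' : Fin q → Fin (M + 1) → ℂ, ∀ y Z, (y, Z) ∈ W →
      Good K q g (fun j => p' j ⬝ᵥ y) (fun j => p' j ⬝ᵥ Z) (fun γ => eval (pt p' y Z) (c γ)))
    (hhom : ∀ (y Z : Fin (M + 1) → ℂ) (a b : ℂ),
      lead K g (fun j => p j ⬝ᵥ (a • y)) (fun j => p j ⬝ᵥ (b • Z))
        (fun γ => eval (pt p (a • y) (b • Z)) (c γ)) = a ^ A * b ^ B *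
      lead K g (fun j => p j ⬝ᵥ y) (fun j => p j ⬝ᵥ Z) (fun γ => eval (pt p y Z) (c γ))) :
    ∃ C : ℝ, 0 ≤ C ∧ ∀ y Z, (y, Z) ∈ W →
      (∀ i j, y i ≠ 0 → (p j ⬝ᵥ Z) * y i - Z i * (p j ⬝ᵥ y) ≠ 0) →
      ∀ x v : EuclideanSpace ℂ (Fin q), x ≠ 0 → (∀ j, p j ⬝ᵥ y = x j ^ 2) →
        (∀ j, p j ⬝ᵥ Z = 2 * x j * v j) → (∀ j, x j ≠ 0) →
        ‖lead K g (fun j => p j ⬝ᵥ y) (fun j => p j ⬝ᵥ Z) (fun γ => eval (pt p y Z) (c γ))‖ *
          ‖x‖ ^ (B + 2 * τ) ≤ C * (∏ j, ‖x j‖ ^ (2 * K)) * ‖v‖ ^ B := by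
  classical
  obtain ⟨R, hR⟩ : ∃ R : ℝ, R = 2 / c₀ + ∑ j, ∑ i, ‖p j i‖ := ⟨_, rfl⟩
  have hsum0 : 0 ≤ ∑ j, ∑ i, ‖p j i‖ :=
    Finset.sum_nonneg fun j _ => Finset.sum_nonneg fun i _ => norm_nonneg _
  obtain ⟨C, hC⟩ := point_bound p c g R
  refine ⟨|C|, abs_nonneg _, ?_⟩
  intro y Z hyZ hne x v hx hpy hpZ hx0
  -- an index
  obtain ⟨j0⟩ : Nonempty (Fin q) := by
    by_contra h
    rw [not_nonempty_iff] at h
    exact hx (Subsingleton.elim _ _)
  -- the largest coordinate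
  obtain ⟨i, hi⟩ : ∃ i, ‖y‖ = ‖y i‖ := by
    obtain ⟨i, _, hi⟩ := Finset.exists_max_image (Finset.univ : Finset (Fin (M + 1)))
      (fun i => ‖y i‖) Finset.univ_nonempty
    refine ⟨i, le_antisymm ?_ (norm_le_pi_norm y i)⟩
    rw [pi_norm_le_iff_of_nonneg (norm_nonneg _)]
    exact fun k => hi k (Finset.mem_univ k)
  have hy0 : y ≠ 0 := by
    intro h
    have h1 := hpy j0
    rw [h, dotProduct_zero] at h1
    exact hx0 j0 (pow_eq_zero_iff two_ne_zero |>.1 h1.symm)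
  have hyi : y i ≠ 0 := by
    rw [← norm_ne_zero_iff, ← hi, norm_ne_zero_iff]
    exact hy0
  have hv : v ≠ 0 := by
    intro h
    have h1 : (fun j => p j ⬝ᵥ Z) = 0 := by
      funext j
      rw [hpZ j, h]
      simp
    have h2 := (hsep y Z hyZ).2
    rw [h1, norm_zero] at h2
    have h3 : ‖Z‖ = 0 := by
      have := norm_nonneg Z
      nlinarith
    rw [norm_eq_zero] at h3
    apply hne i j0 hyi
    rw [h3]
    simp
  obtain ⟨a, ha⟩ : ∃ a : ℝ, a = ‖x‖ := ⟨_, rfl⟩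
  obtain ⟨b, hb⟩ : ∃ b : ℝ, b = ‖v‖ := ⟨_, rfl⟩
  have ha0 : 0 < a := by rw [ha]; exact norm_pos_iff.2 hx
  have hb0 : 0 < b := by rw [hb]; exact norm_pos_iff.2 hv
  have haC : (a : ℂ) ≠ 0 := by exact_mod_cast ha0.ne'
  have hbC : (b : ℂ) ≠ 0 := by exact_mod_cast hb0.ne'
  have hxj : ∀ j, ‖x j‖ ≤ a := fun j => by rw [ha]; exact PiLp.norm_apply_le x j
  have hvj : ∀ j, ‖v j‖ ≤ b := fun j => by rw [hb]; exact PiLp.norm_apply_le v j
  -- the rescaled point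
  obtain ⟨lam, hlam⟩ : ∃ lam : ℂ, lam = ((a : ℂ) ^ 2)⁻¹ := ⟨_, rfl⟩
  obtain ⟨mu, hmu⟩ : ∃ mu : ℂ, mu = ((a : ℂ) * b)⁻¹ := ⟨_, rfl⟩
  have hlam0 : lam ≠ 0 := by rw [hlam]; exact inv_ne_zero (pow_ne_zero _ haC)
  have hmu0 : mu ≠ 0 := by rw [hmu]; exact inv_ne_zero (mul_ne_zero haC hbC)
  have hlamn : ‖lam‖ = (a ^ 2)⁻¹ := by
    rw [hlam, norm_inv, norm_pow, Complex.norm_real, Real.norm_of_nonneg ha0.le]
  have hmun : ‖mu‖ = (a * b)⁻¹ := by
    rw [hmu, norm_inv, norm_mul, Complex.norm_real, Complex.norm_real,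
      Real.norm_of_nonneg ha0.le, Real.norm_of_nonneg hb0.le]
  have hmem : (lam • y, mu • Z) ∈ W := by
    have := hW y Z hyZ lam mu 0
    rwa [zero_smul, add_zero] at this
  have hpy' : ∀ j, p j ⬝ᵥ (lam • y) = (x j / a) ^ 2 := by
    intro j
    rw [dotProduct_smul, hpy j, hlam, smul_eq_mul]
    field_simp
  have hpZ' : ∀ j, p j ⬝ᵥ (mu • Z) = 2 * (x j / a) * (v j / b) := by
    intro j
    rw [dotProduct_smul, hpZ j, hmu, smul_eq_mul]
    field_simp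
  have hx1 : ∀ j, ‖x j / a‖ ≤ 1 := by
    intro j
    rw [norm_div, Complex.norm_real, Real.norm_of_nonneg ha0.le, div_le_one ha0]
    exact hxj j
  have hv1 : ∀ j, ‖v j / b‖ ≤ 1 := by
    intro j
    rw [norm_div, Complex.norm_real, Real.norm_of_nonneg hb0.le, div_le_one hb0]
    exact hvj j
  have hc2 : 0 < 2 / c₀ := by positivity
  have hyR : ‖lam • y‖ ≤ R := by
    have h1 := (hsep _ _ hmem).1
    have h2 : ‖fun j => p j ⬝ᵥ (lam • y)‖ ≤ 1 := by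
      rw [pi_norm_le_iff_of_nonneg zero_le_one]
      intro j
      rw [hpy' j, norm_pow]
      exact pow_le_one₀ (norm_nonneg _) (hx1 j)
    have h3 : ‖lam • y‖ ≤ 1 / c₀ := by
      rw [le_div_iff₀ hc₀]
      linarith
    have h4 : 1 / c₀ ≤ 2 / c₀ := by gcongr; norm_num
    rw [hR]
    linarith
  have hZR : ‖mu • Z‖ ≤ R := by
    have h1 := (hsep _ _ hmem).2
    have h2 : ‖fun j => p j ⬝ᵥ (mu • Z)‖ ≤ 2 := by
      rw [pi_norm_le_iff_of_nonneg (by norm_num)]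
      intro j
      rw [hpZ' j, norm_mul, norm_mul]
      have h5 := hx1 j
      have h6 := hv1 j
      have h7 : ‖x j / a‖ * ‖v j / b‖ ≤ 1 * 1 := by gcongr
      have h8 : ‖(2 : ℂ)‖ = 2 := by norm_num
      rw [h8]
      linarith
    have h3 : ‖mu • Z‖ ≤ 2 / c₀ := by
      rw [le_div_iff₀ hc₀]
      linarith
    rw [hR]
    linarith
  have hiR : 1 ≤ R * ‖(lam • y) i‖ := by
    have h1 : ∑ j, ‖x j‖ ^ 2 = a ^ 2 := by
      rw [ha, EuclideanSpace.norm_sq_eq]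
    have h2 : ∑ j, ‖p j ⬝ᵥ (lam • y)‖ = 1 := by
      have h3 : ∀ j, ‖p j ⬝ᵥ (lam • y)‖ = ‖x j‖ ^ 2 / a ^ 2 := by
        intro j
        rw [hpy' j, norm_pow, norm_div, Complex.norm_real, Real.norm_of_nonneg ha0.le, div_pow]
      rw [Finset.sum_congr rfl fun j _ => h3 j, ← Finset.sum_div, h1, div_self (by positivity)]
    have h4 : ∀ k, ‖(lam • y) k‖ ≤ ‖(lam • y) i‖ := by
      intro k
      rw [Pi.smul_apply, Pi.smul_apply, norm_smul, norm_smul, ← hi]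
      gcongr
      exact norm_le_pi_norm y k
    have h5 : ∀ j, ‖p j ⬝ᵥ (lam • y)‖ ≤ (∑ k, ‖p j k‖) * ‖(lam • y) i‖ := by
      intro j
      unfold dotProduct
      rw [Finset.sum_mul]
      refine (norm_sum_le _ _).trans (Finset.sum_le_sum fun k _ => ?_)
      rw [norm_mul]
      gcongr
      exact h4 k
    have h6 : 1 ≤ (∑ j, ∑ k, ‖p j k‖) * ‖(lam • y) i‖ := by
      rw [← h2, Finset.sum_mul]
      exact Finset.sum_le_sum fun j _ => h5 j
    have h7 : 0 ≤ 2 / c₀ * ‖(lam • y) i‖ := by positivity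
    rw [hR, add_mul]
    linarith
  have hmain := hC (lam • y) (mu • Z) i (fun p' => hgood p' _ _ hmem) hyR hZR hiR (by
    intro j h
    apply hne i j hyi
    have h1 : (p j ⬝ᵥ (mu • Z)) * (lam • y) i - (mu • Z) i * (p j ⬝ᵥ (lam • y)) =
        (lam * mu) * ((p j ⬝ᵥ Z) * y i - Z i * (p j ⬝ᵥ y)) := by
      rw [dotProduct_smul, dotProduct_smul, Pi.smul_apply, Pi.smul_apply, smul_eq_mul,
        smul_eq_mul, smul_eq_mul, smul_eq_mul]
      ring
    rw [h1] at h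
    exact (mul_eq_zero.1 h).resolve_left (mul_ne_zero hlam0 hmu0))
    (fun j => x j / a) (fun j => v j / b) hpy' hpZ' (fun j => div_ne_zero (hx0 j) haC) hx1 hv1
  rw [hhom, norm_mul, norm_mul, norm_pow, norm_pow, hlamn, hmun] at hmain
  obtain ⟨L, hL⟩ : ∃ L : ℝ, L = ‖lead K g (fun j => p j ⬝ᵥ y) (fun j => p j ⬝ᵥ Z)
    (fun γ => eval (pt p y Z) (c γ))‖ := ⟨_, rfl⟩
  rw [← hL] at hmain ⊢
  rw [← ha, ← hb]
  have hprod : ∏ j, ‖x j / a‖ ^ (2 * K) = (∏ j, ‖x j‖ ^ (2 * K)) / a ^ (2 * (q * K)) := by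
    have h1 : ∀ j, ‖x j / a‖ ^ (2 * K) = ‖x j‖ ^ (2 * K) / a ^ (2 * K) := by
      intro j
      rw [norm_div, Complex.norm_real, Real.norm_of_nonneg ha0.le, div_pow]
    rw [Finset.prod_congr rfl fun j _ => h1 j, Finset.prod_div_distrib, Finset.prod_const,
      Finset.card_univ, Fintype.card_fin, ← pow_mul]
    congr 2
    ring
  rw [hprod] at hmain
  have hP0 : 0 ≤ ∏ j, ‖x j‖ ^ (2 * K) := Finset.prod_nonneg fun j _ => by positivity
  have key : L * a ^ (B + 2 * τ) =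
      (((a ^ 2)⁻¹) ^ A * ((a * b)⁻¹) ^ B * L) * (a ^ (2 * (q * K)) * b ^ B) := by
    rw [hdeg]
    have h1 : a ^ (2 * (A + B + τ)) = (a ^ 2) ^ A * a ^ B * a ^ (B + 2 * τ) := by
      rw [← pow_mul, ← pow_add, ← pow_add]
      congr 1
      ring
    rw [h1, mul_inv, mul_pow, inv_pow, inv_pow, inv_pow]
    field_simp
  rw [key]
  calc (((a ^ 2)⁻¹) ^ A * ((a * b)⁻¹) ^ B * L) * (a ^ (2 * (q * K)) * b ^ B)
      ≤ (C * ((∏ j, ‖x j‖ ^ (2 * K)) / a ^ (2 * (q * K)))) * (a ^ (2 * (q * K)) * b ^ B) := by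
        gcongr
    _ ≤ (|C| * ((∏ j, ‖x j‖ ^ (2 * K)) / a ^ (2 * (q * K)))) * (a ^ (2 * (q * K)) * b ^ B) := by
        gcongr
        exact le_abs_self _
    _ = |C| * (∏ j, ‖x j‖ ^ (2 * K)) * b ^ B := by
        field_simp

end Pool.Agent.Lib.GGL.VG
end

section

/-!
The main analytic argument.
-/

open Filter Topology MvPolynomial Module

namespace Pool.Agent.Lib.GGL.VG

lemma sq_deriv {f : ℂ → ℂ} {z₁ : ℂ} (hf : AnalyticAt ℂ f z₁) (htop : analyticOrderAt f z₁ ≠ ⊤)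
    (hord : analyticOrderAt f z₁ = 0 ∨ (2 : ℕ∞) ≤ analyticOrderAt f z₁) :
    ∃ h : ℂ → ℂ, AnalyticAt ℂ h z₁ ∧ (∀ᶠ z in 𝓝 z₁, deriv f z ^ 2 = f z * h z) ∧
      ((3 : ℕ∞) ≤ analyticOrderAt f z₁ → h z₁ = 0) := by
  obtain ⟨n, hn⟩ := ENat.ne_top_iff_exists.mp htop
  obtain ⟨u, hu1, hu2, hu3⟩ := (hf.analyticOrderAt_eq_natCast).mp hn.symm
  rcases Nat.eq_zero_or_pos n with h0 | hpos
  · subst h0
    have hf0 : f z₁ ≠ 0 := by
      rw [hu3.self_of_nhds]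
      simpa using hu2
    refine ⟨fun z => deriv f z ^ 2 / f z, (hf.deriv.pow 2).div hf hf0, ?_, ?_⟩
    · filter_upwards [hf.continuousAt.eventually_ne hf0] with z hz
      field_simp
    · intro h3
      rw [← hn] at h3
      exact absurd h3 (by norm_num)
  · have hn2 : 2 ≤ n := by
      rw [← hn] at hord
      rcases hord with h | h
      · have : n = 0 := by exact_mod_cast h
        omega
      · exact_mod_cast h
    refine ⟨fun z => (z - z₁) ^ (n - 2) * (n * u z + (z - z₁) * deriv u z) ^ 2 / u z, ?_, ?_, ?_⟩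
    · refine AnalyticAt.div ?_ hu1 hu2
      have h1 : AnalyticAt ℂ (fun z : ℂ => z - z₁) z₁ := by fun_prop
      have h2 := hu1.deriv
      fun_prop
    · filter_upwards [hu3.eventually_nhds, hu1.eventually_analyticAt,
        hu1.continuousAt.eventually_ne hu2] with z g1 g2 g3
      have h1 : deriv f z = n * (z - z₁) ^ (n - 1) * u z + (z - z₁) ^ n * deriv u z := by
        have h2 : f =ᶠ[𝓝 z] fun w => (w - z₁) ^ n • u w := g1
        rw [h2.deriv_eq]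
        have h3 : HasDerivAt (fun w : ℂ => (w - z₁) ^ n) (n * (z - z₁) ^ (n - 1) * 1) z :=
          ((hasDerivAt_id z).sub_const z₁).pow n
        have h4 := (h3.fun_mul g2.differentiableAt.hasDerivAt).deriv
        simp only [smul_eq_mul]
        rw [h4]
        ring
      rw [h1, g1.self_of_nhds, smul_eq_mul]
      obtain ⟨m, rfl⟩ : ∃ m, n = m + 2 := ⟨n - 2, by omega⟩
      have e1 : m + 2 - 1 = m + 1 := by omega
      have e2 : m + 2 - 2 = m := by omega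
      rw [e1, e2]
      field_simp
      ring
    · intro h3
      rw [← hn] at h3
      have hn3 : 3 ≤ n := by exact_mod_cast h3
      simp only [sub_self]
      rw [zero_pow (by omega)]
      simp

lemma exists_sqrt {f : ℂ → ℂ} {z₁ : ℂ} (hf : AnalyticAt ℂ f z₁) (htop : analyticOrderAt f z₁ ≠ ⊤)
    (hord : analyticOrderAt f z₁ = 0 ∨ (2 : ℕ∞) ≤ analyticOrderAt f z₁)
    (h3 : ¬ (3 : ℕ∞) ≤ analyticOrderAt f z₁) :
    ∃ x : ℂ → ℂ, AnalyticAt ℂ x z₁ ∧ ∀ᶠ z in 𝓝 z₁, f z = x z ^ 2 := by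
  obtain ⟨n, hn⟩ := ENat.ne_top_iff_exists.mp htop
  obtain ⟨u, hu1, hu2, hu3⟩ := (hf.analyticOrderAt_eq_natCast).mp hn.symm
  obtain ⟨r, hr1, hr2⟩ := exists_root hu1 hu2 (m := 2) (by norm_num)
  rw [← hn] at hord h3
  have hn' : n = 0 ∨ n = 2 := by
    rcases hord with h | h
    · left; exact_mod_cast h
    · right
      have h4 : 2 ≤ n := by exact_mod_cast h
      have h5 : ¬ 3 ≤ n := by
        intro h6
        apply h3
        exact_mod_cast h6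
      omega
  rcases hn' with rfl | rfl
  · refine ⟨r, hr1, ?_⟩
    filter_upwards [hu3, hr2] with z g1 g2
    rw [g1, g2]
    simp
  · refine ⟨fun z => (z - z₁) * r z, ?_, ?_⟩
    · have h1 : AnalyticAt ℂ (fun z : ℂ => z - z₁) z₁ := by fun_prop
      fun_prop
    · filter_upwards [hu3, hr2] with z g1 g2
      rw [g1, mul_pow, g2, smul_eq_mul]

lemma ext_of_bound {f g : ℂ → ℂ} {z₁ : ℂ} (hf : AnalyticAt ℂ f z₁) (hg : AnalyticAt ℂ g z₁)
    (htop : analyticOrderAt g z₁ ≠ ⊤) {C : ℝ} (hb : ∀ᶠ z in 𝓝[≠] z₁, ‖f z‖ ≤ C * ‖g z‖) :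
    ∃ s : ℂ → ℂ, AnalyticAt ℂ s z₁ ∧ ∀ᶠ z in 𝓝 z₁, f z = s z * g z := by
  obtain ⟨n, hn⟩ := ENat.ne_top_iff_exists.mp htop
  obtain ⟨u, hu1, hu2, hu3⟩ := (hg.analyticOrderAt_eq_natCast).mp hn.symm
  by_cases hfn : (n : ℕ∞) ≤ analyticOrderAt f z₁
  · obtain ⟨v, hv1, hv2⟩ := (natCast_le_analyticOrderAt hf).mp hfn
    refine ⟨fun z => v z / u z, hv1.div hu1 hu2, ?_⟩
    filter_upwards [hv2, hu3, hu1.continuousAt.eventually_ne hu2] with z g1 g2 g3
    rw [g1, g2, smul_eq_mul, smul_eq_mul]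
    field_simp
  · exfalso
    push Not at hfn
    obtain ⟨m, hm⟩ := ENat.ne_top_iff_exists.mp hfn.ne_top
    rw [← hm] at hfn
    have hmn : m < n := by exact_mod_cast hfn
    obtain ⟨v, hv1, hv2, hv3⟩ := (hf.analyticOrderAt_eq_natCast).mp hm.symm
    have h1 : ∀ᶠ z in 𝓝[≠] z₁, ‖v z‖ ≤ C * (‖z - z₁‖ ^ (n - m) * ‖u z‖) := by
      filter_upwards [hb, hu3.filter_mono nhdsWithin_le_nhds, hv3.filter_mono nhdsWithin_le_nhds,
        self_mem_nhdsWithin] with z g1 g2 g3 g4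
      have h2 : 0 < ‖z - z₁‖ ^ m := by
        apply pow_pos
        exact norm_pos_iff.mpr (sub_ne_zero.mpr g4)
      rw [g2, g3, norm_smul, norm_smul, norm_pow, norm_pow] at g1
      have h3 : ‖z - z₁‖ ^ n = ‖z - z₁‖ ^ m * ‖z - z₁‖ ^ (n - m) := by
        rw [← pow_add]; congr 1; omega
      rw [h3] at g1
      refine le_of_mul_le_mul_left ?_ h2
      calc ‖z - z₁‖ ^ m * ‖v z‖ ≤ _ := g1
        _ = _ := by ring
    have h2 : Tendsto (fun z => ‖v z‖) (𝓝[≠] z₁) (𝓝 ‖v z₁‖) :=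
      (hv1.continuousAt.norm.tendsto).mono_left nhdsWithin_le_nhds
    have h3 : Tendsto (fun z => C * (‖z - z₁‖ ^ (n - m) * ‖u z‖)) (𝓝[≠] z₁) (𝓝 0) := by
      have h4 : ContinuousAt (fun z => C * (‖z - z₁‖ ^ (n - m) * ‖u z‖)) z₁ := by
        have := hu1.continuousAt
        fun_prop
      have h5 := h4.tendsto.mono_left (nhdsWithin_le_nhds (s := {z₁}ᶜ))
      simp only [sub_self, norm_zero] at h5
      rw [zero_pow (by omega)] at h5
      simpa using h5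
    have h4 := le_of_tendsto_of_tendsto h2 h3 h1
    exact absurd (norm_le_zero_iff.mp h4) hv2

lemma offDiag_eq (q : ℕ) : (Finset.univ : Finset (Fin q)).offDiag =
    ((Finset.univ : Finset (Fin q)) ×ˢ (Finset.univ : Finset (Fin q))).filter
      fun x => x.1 ≠ x.2 := by
  ext x
  simp [Finset.mem_offDiag]

lemma prod_offDiag_fst {q : ℕ} (f : Fin q → ℝ) :
    ∏ x ∈ (Finset.univ : Finset (Fin q)).offDiag, f x.1 = (∏ j, f j) ^ (q - 1) := by
  rw [offDiag_eq, Finset.prod_filter, Finset.prod_product, ← Finset.prod_pow]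
  refine Finset.prod_congr rfl fun i _ => ?_
  rw [← Finset.prod_filter]
  dsimp only
  rw [Finset.prod_const, Finset.filter_ne, Finset.card_erase_of_mem
    (Finset.mem_univ _), Finset.card_univ, Fintype.card_fin]

lemma prod_offDiag_snd {q : ℕ} (f : Fin q → ℝ) :
    ∏ x ∈ (Finset.univ : Finset (Fin q)).offDiag, f x.2 = (∏ j, f j) ^ (q - 1) := by
  rw [offDiag_eq, Finset.prod_filter, Finset.prod_product_right, ← Finset.prod_pow]
  refine Finset.prod_congr rfl fun i _ => ?_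
  rw [← Finset.prod_filter]
  dsimp only
  rw [Finset.prod_const, Finset.filter_ne', Finset.card_erase_of_mem
    (Finset.mem_univ _), Finset.card_univ, Fintype.card_fin]

/-- the Wronskian of two functions -/
noncomputable def wr (f g : ℂ → ℂ) (z : ℂ) : ℂ := f z * deriv g z - g z * deriv f z

lemma local_V {q K τ e a : ℕ} (hq : 2 ≤ q) {l : Fin q → ℂ → ℂ} {g : ℂ → ℂ} {z₁ : ℂ}
    (hl : ∀ j, AnalyticAt ℂ (l j) z₁) (hg : AnalyticAt ℂ g z₁)
    (htop : ∀ j, analyticOrderAt (l j) z₁ ≠ ⊤)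
    (hord : ∀ j, analyticOrderAt (l j) z₁ = 0 ∨ (2 : ℕ∞) ≤ analyticOrderAt (l j) z₁)
    (hne : ∃ j, l j z₁ ≠ 0) {C : ℝ} (hC : 0 ≤ C)
    (hbd : ∀ᶠ z in 𝓝[≠] z₁, ∀ x v : EuclideanSpace ℂ (Fin q), (∀ j, l j z = x j ^ 2) →
      (∀ j, deriv (l j) z = 2 * x j * v j) →
      ‖g z‖ * ‖x‖ ^ (e + 2 * τ) ≤ C * (∏ j, ‖x j‖ ^ (2 * K)) * ‖v‖ ^ e) :
    ∃ σ : ℂ → ℂ, AnalyticAt ℂ σ z₁ ∧
      (∀ᶠ z in 𝓝[≠] z₁, ‖σ z‖ * (∏ j, ‖l j z‖) ^ (a * K + 2 * (q - 1)) =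
        ‖g z‖ ^ a * ∏ x ∈ (Finset.univ : Finset (Fin q)).offDiag, ‖wr (l x.1) (l x.2) z‖ ^ 2) ∧
      (σ z₁ ≠ 0 → ∀ j, ∃ x : ℂ → ℂ, AnalyticAt ℂ x z₁ ∧ ∀ᶠ z in 𝓝 z₁, l j z = x z ^ 2) := by
  choose h hh1 hh2 hh3 using fun j => sq_deriv (hl j) (htop j) (hord j)
  -- the quotient of g
  obtain ⟨D, hD⟩ : ∃ D : ℂ → ℂ, D = fun z => (∏ j, l j z) ^ K := ⟨_, rfl⟩
  have hlne : ∀ᶠ z in 𝓝[≠] z₁, ∀ j, l j z ≠ 0 := by
    rw [Filter.eventually_all]
    intro j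
    rcases (hl j).eventually_eq_zero_or_eventually_ne_zero with h | h
    · exact absurd (analyticOrderAt_eq_top.mpr h) (htop j)
    · exact h
  have hDan : AnalyticAt ℂ D z₁ := by
    rw [hD]
    exact (Finset.analyticAt_fun_prod _ fun j _ => hl j).pow K
  have hDtop : analyticOrderAt D z₁ ≠ ⊤ := by
    intro h0
    have h1 := analyticOrderAt_eq_top.mp h0
    have h2 : ∀ᶠ z in 𝓝[≠] z₁, False := by
      filter_upwards [hlne, h1.filter_mono nhdsWithin_le_nhds] with z g1 g2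
      rw [hD] at g2
      exact pow_ne_zero K (Finset.prod_ne_zero_iff.mpr fun j _ => g1 j) g2
    rw [Filter.eventually_const] at h2
    exact h2
  obtain ⟨j₀, hj₀⟩ := hne
  obtain ⟨s, hs1, hs2⟩ : ∃ s : ℂ → ℂ, AnalyticAt ℂ s z₁ ∧ ∀ᶠ z in 𝓝 z₁, g z = s z * D z := by
    -- bounds near z₁
    obtain ⟨c, hc0, hc⟩ : ∃ c > 0, ∀ᶠ z in 𝓝 z₁, c ≤ ‖l j₀ z‖ := by
      refine ⟨‖l j₀ z₁‖ / 2, by have := norm_pos_iff.mpr hj₀; positivity, ?_⟩
      have h1 : ContinuousAt (fun z => ‖l j₀ z‖) z₁ := (hl j₀).continuousAt.norm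
      have h2 : ‖l j₀ z₁‖ / 2 < ‖l j₀ z₁‖ := by
        have := norm_pos_iff.mpr hj₀
        linarith
      filter_upwards [h1.eventually_const_lt h2] with z hz using hz.le
    obtain ⟨B, hB0, hB⟩ : ∃ B : ℝ, 0 ≤ B ∧ ∀ᶠ z in 𝓝 z₁, ∑ j, ‖h j z‖ / 4 ≤ B ^ 2 := by
      have h1 : ContinuousAt (fun z => ∑ j, ‖h j z‖ / 4) z₁ := by
        refine tendsto_finsetSum _ fun j _ => ?_
        exact ((hh1 j).continuousAt.norm.div_const 4)
      refine ⟨∑ j, ‖h j z₁‖ / 4 + 1, by positivity, ?_⟩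
      have h0 : 0 ≤ ∑ j, ‖h j z₁‖ / 4 := by positivity
      have h2 : ∑ j, ‖h j z₁‖ / 4 < (∑ j, ‖h j z₁‖ / 4 + 1) ^ 2 := by nlinarith
      filter_upwards [h1.eventually_lt_const h2] with z hz using hz.le
    refine ext_of_bound hg hDan hDtop (C := C * B ^ e / (Real.sqrt c) ^ (e + 2 * τ)) ?_
    filter_upwards [hbd, hlne, hc.filter_mono nhdsWithin_le_nhds, hB.filter_mono nhdsWithin_le_nhds,
      (Filter.eventually_all.mpr hh2).filter_mono nhdsWithin_le_nhds] with z g1 g2 g3 g4 g5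
    have hxex : ∀ j, ∃ x : ℂ, l j z = x ^ 2 := fun j => by
      obtain ⟨x, hx⟩ := IsAlgClosed.exists_pow_nat_eq (l j z) (n := 2) (by norm_num)
      exact ⟨x, hx.symm⟩
    choose x hx using hxex
    have hx0 : ∀ j, x j ≠ 0 := by
      intro j h0
      apply g2 j
      rw [hx j, h0]
      simp
    have h1 := g1 (WithLp.toLp 2 x) (WithLp.toLp 2 fun j => deriv (l j) z / (2 * x j)) hx (by
      intro j
      have := hx0 j
      simp only
      field_simp)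
    have h2 : ∀ j, ‖x j‖ ^ 2 = ‖l j z‖ := fun j => by rw [hx j, norm_pow]
    have h3 : ∏ j, ‖(WithLp.toLp 2 x : EuclideanSpace ℂ (Fin q)) j‖ ^ (2 * K) = ‖D z‖ := by
      rw [hD]
      simp only [norm_pow, norm_prod]
      rw [← Finset.prod_pow]
      refine Finset.prod_congr rfl fun j _ => ?_
      rw [pow_mul, h2]
    have h4 : Real.sqrt c ≤ ‖(WithLp.toLp 2 x : EuclideanSpace ℂ (Fin q))‖ := by
      rw [EuclideanSpace.norm_eq]
      apply Real.sqrt_le_sqrt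
      refine le_trans g3 ?_
      rw [← h2]
      exact Finset.single_le_sum (f := fun j => ‖x j‖ ^ 2) (fun j _ => by positivity)
        (Finset.mem_univ j₀)
    have h5 : ‖(WithLp.toLp 2 (fun j => deriv (l j) z / (2 * x j)) :
        EuclideanSpace ℂ (Fin q))‖ ≤ B := by
      apply le_of_sq_le_sq _ hB0
      rw [EuclideanSpace.norm_sq_eq]
      refine le_trans (le_of_eq (Finset.sum_congr rfl fun j _ => ?_)) g4
      simp only
      have h6 : ‖deriv (l j) z‖ ^ 2 = ‖x j‖ ^ 2 * ‖h j z‖ := by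
        rw [← norm_pow, g5 j, norm_mul, h2]
      rw [norm_div, div_pow, h6, norm_mul, mul_pow]
      have h7 : ‖x j‖ ≠ 0 := norm_ne_zero_iff.mpr (hx0 j)
      have h8 : ‖(2:ℂ)‖ = 2 := by norm_num
      rw [h8]
      field_simp
      norm_num
    rw [h3] at h1
    have h6 : 0 < (Real.sqrt c) ^ (e + 2 * τ) := pow_pos (Real.sqrt_pos.mpr hc0) _
    rw [div_mul_eq_mul_div, le_div_iff₀ h6]
    calc ‖g z‖ * Real.sqrt c ^ (e + 2 * τ)
        ≤ ‖g z‖ * ‖(WithLp.toLp 2 x : EuclideanSpace ℂ (Fin q))‖ ^ (e + 2 * τ) := by gcongr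
      _ ≤ _ := h1
      _ ≤ C * ‖D z‖ * B ^ e := by gcongr
      _ = _ := by ring
  -- the quotients of the Wronskians
  obtain ⟨O, hO⟩ : ∃ O : Fin q × Fin q → ℂ → ℂ, O = fun x z => l x.1 z * h x.2 z + l x.2 z * h x.1 z -
    2 * deriv (l x.1) z * deriv (l x.2) z := ⟨_, rfl⟩
  have hOan : ∀ x, AnalyticAt ℂ (O x) z₁ := by
    intro x
    rw [hO]
    have h1 := hl x.1
    have h2 := hl x.2
    have h3 := hh1 x.1
    have h4 := hh1 x.2
    have h5 := h1.deriv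
    have h6 := h2.deriv
    fun_prop
  have hOid : ∀ᶠ z in 𝓝 z₁, ∀ x, wr (l x.1) (l x.2) z ^ 2 = l x.1 z * l x.2 z * O x z := by
    filter_upwards [Filter.eventually_all.mpr hh2] with z hz x
    rw [hO, wr]
    linear_combination (l x.1 z) ^ 2 * hz x.2 + (l x.2 z) ^ 2 * hz x.1
  refine ⟨fun z => s z ^ a * ∏ x ∈ (Finset.univ : Finset (Fin q)).offDiag, O x z, ?_, ?_, ?_⟩
  · exact (hs1.pow a).mul (Finset.analyticAt_fun_prod _ fun x _ => hOan x)
  · filter_upwards [hs2.filter_mono nhdsWithin_le_nhds, hOid.filter_mono nhdsWithin_le_nhds]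
      with z g1 g2
    have h1 : ∏ x ∈ (Finset.univ : Finset (Fin q)).offDiag, ‖wr (l x.1) (l x.2) z‖ ^ 2 =
        (∏ j, ‖l j z‖) ^ (2 * (q - 1)) *
          ∏ x ∈ (Finset.univ : Finset (Fin q)).offDiag, ‖O x z‖ := by
      have h2 : ∀ x ∈ (Finset.univ : Finset (Fin q)).offDiag, ‖wr (l x.1) (l x.2) z‖ ^ 2 =
          ‖l x.1 z‖ * ‖l x.2 z‖ * ‖O x z‖ := fun x _ => by
        rw [← norm_pow, g2 x, norm_mul, norm_mul]
      rw [Finset.prod_congr rfl h2, Finset.prod_mul_distrib, Finset.prod_mul_distrib]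
      congr 1
      rw [prod_offDiag_fst (fun j => ‖l j z‖), prod_offDiag_snd (fun j => ‖l j z‖), ← pow_add,
        ← two_mul]
    rw [h1, g1, hD]
    simp only [norm_mul, norm_pow, norm_prod]
    ring
  · intro hσ j
    apply exists_sqrt (hl j) (htop j) (hord j)
    intro h3
    apply hσ
    obtain ⟨i, hij⟩ : ∃ i : Fin q, i ≠ j := by
      have : Nontrivial (Fin q) := Fin.nontrivial_iff_two_le.mpr hq
      exact exists_ne j
    beta_reduce
    rw [Finset.prod_eq_zero (i := (i, j)) (by simp [hij]) ?_, mul_zero]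
    have h1 : l j z₁ = 0 := by
      by_contra h0
      rw [((hl j).analyticOrderAt_eq_zero).mpr h0] at h3
      exact absurd h3 (by norm_num)
    have h2 : deriv (l j) z₁ = 0 := by
      have := (hh2 j).self_of_nhds
      rw [h1, zero_mul] at this
      exact pow_eq_zero_iff (two_ne_zero) |>.mp this
    rw [hO]
    simp only
    rw [h1, h2, hh3 j h3]
    ring

section main

variable {q M : ℕ} (p : Fin q → Fin (M + 1) → ℂ)

/-- the Wronskian of two of the linear forms -/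
def Wr (y w : Fin (M + 1) → ℂ) (x : Fin q × Fin q) : ℂ :=
  (p x.1 ⬝ᵥ y) * (p x.2 ⬝ᵥ w) - (p x.2 ⬝ᵥ y) * (p x.1 ⬝ᵥ w)

/-- the invariant function -/
noncomputable def Phi (a K N : ℕ) (g : ℂ) (y w : Fin (M + 1) → ℂ) : ℝ :=
  (‖g‖ ^ a * (∏ x ∈ (Finset.univ : Finset (Fin q)).offDiag, ‖Wr p y w x‖ ^ 2) /
    (∏ j, ‖p j ⬝ᵥ y‖) ^ (a * K + 2 * (q - 1))) ^ 2 * (∑ j, ‖p j ⬝ᵥ y‖) ^ (2 * N)

lemma Wr_smul (y w : Fin (M + 1) → ℂ) (l s : ℂ) (x : Fin q × Fin q) :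
    Wr p (l • y) (l • w + s • y) x = l ^ 2 * Wr p y w x := by
  simp only [Wr, dotProduct_smul, dotProduct_add, smul_eq_mul]
  ring

lemma card_offDiag (q : ℕ) : ((Finset.univ : Finset (Fin q)).offDiag).card = q * (q - 1) := by
  rw [Finset.offDiag_card, Finset.card_univ, Fintype.card_fin, Nat.mul_sub, mul_one]

lemma Phi_smul {a K N d : ℕ} (hN : a * d + 4 * (q * (q - 1)) + N = q * (a * K + 2 * (q - 1)))
    (y w : Fin (M + 1) → ℂ) {l : ℂ} (hl : l ≠ 0) (s g : ℂ) :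
    Phi p a K N (l ^ d * g) (l • y) (l • w + s • y) = Phi p a K N g y w := by
  unfold Phi
  obtain ⟨ρ, hρ⟩ : ∃ ρ : ℝ, ρ = ‖l‖ := ⟨_, rfl⟩
  have hρ0 : 0 < ρ := by rw [hρ]; exact norm_pos_iff.mpr hl
  have h1 : ∀ j, ‖p j ⬝ᵥ (l • y)‖ = ρ * ‖p j ⬝ᵥ y‖ := fun j => by
    rw [dotProduct_smul, norm_smul, hρ]
  have h2 : ∀ x, ‖Wr p (l • y) (l • w + s • y) x‖ ^ 2 = ρ ^ 4 * ‖Wr p y w x‖ ^ 2 := fun x => by
    rw [Wr_smul, norm_mul, norm_pow, hρ]; ring
  rw [Finset.prod_congr rfl fun x _ => h2 x, Finset.prod_congr rfl fun j _ => h1 j,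
    Finset.sum_congr rfl fun j _ => h1 j, Finset.prod_mul_distrib, Finset.prod_mul_distrib,
    Finset.prod_const, Finset.prod_const, card_offDiag, Finset.card_univ, Fintype.card_fin,
    ← Finset.mul_sum, norm_mul, norm_pow, ← hρ, mul_pow, mul_pow, mul_pow]
  have h3 : (ρ ^ d) ^ a * (ρ ^ 4) ^ (q * (q - 1)) * ρ ^ N = (ρ ^ q) ^ (a * K + 2 * (q - 1)) := by
    simp only [← pow_mul, ← pow_add]
    congr 1
    rw [← hN]
    ring
  have h4 : ρ ^ (2 * N) = (ρ ^ N) ^ 2 := by rw [← pow_mul, mul_comm]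
  rw [h4, ← h3]
  have h5 : 0 < (ρ ^ d) ^ a := by positivity
  have h6 : 0 < (ρ ^ 4) ^ (q * (q - 1)) := by positivity
  have h7 : 0 < ρ ^ N := by positivity
  generalize (ρ ^ d) ^ a = A at *
  generalize (ρ ^ 4) ^ (q * (q - 1)) = A' at *
  generalize ρ ^ N = A'' at *
  generalize (∏ j, ‖p j ⬝ᵥ y‖) ^ (a * K + 2 * (q - 1)) = D
  generalize ∏ x ∈ (Finset.univ : Finset (Fin q)).offDiag, ‖Wr p y w x‖ ^ 2 = X
  have key : A * ‖g‖ ^ a * (A' * X) / (A * A' * A'' * D) = A''⁻¹ * (‖g‖ ^ a * X / D) := by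
    by_cases hD : D = 0
    · rw [hD]; simp
    · field_simp
  rw [key, mul_pow]
  field_simp

end main

lemma analyticAt_eval2 {M : ℕ} {F F' : ℂ → Fin (M + 1) → ℂ} {z₀ : ℂ} (hF : AnalyticAt ℂ F z₀)
    (hF' : AnalyticAt ℂ F' z₀) (Q : MvPolynomial (Fin (M + 1) ⊕ Fin (M + 1)) ℂ) :
    AnalyticAt ℂ (fun z => eval (Sum.elim (F z) (F' z)) Q) z₀ := by
  have := AnalyticAt.aeval_mvPolynomial (𝕜 := ℂ) (A := ℂ)
    (f := fun z => Sum.elim (F z) (F' z)) (z := z₀)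
    (fun i => by
      rcases i with i | i
      · exact (analyticAt_pi_iff.mp hF) i
      · exact (analyticAt_pi_iff.mp hF') i) Q
  exact this

theorem caseV {q M K τ e d : ℕ} (hq : 2 ≤ q) (hτ : 1 ≤ τ) (hd : q * K = d + τ)
    (p : Fin q → Fin (M + 1) → ℂ) (G : MvPolynomial (Fin (M + 1) ⊕ Fin (M + 1)) ℂ)
    {Y : ℂ → ℂ → Fin (M + 1) → ℂ} (hY : LiftFamily Y)
    (hG : ∀ z₁, ∀ᶠ z in 𝓝 z₁, ∀ a s : ℂ, a ≠ 0 →
      eval (Sum.elim (a • Y z₁ z) (a • deriv (Y z₁) z + s • Y z₁ z)) G =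
        a ^ d * eval (Sum.elim (Y z₁ z) (deriv (Y z₁) z)) G)
    {C : ℝ} (hC : 0 ≤ C) (hbd : ∀ z₁, ∀ᶠ z in 𝓝[≠] z₁, ∀ x v : EuclideanSpace ℂ (Fin q),
      (∀ j, p j ⬝ᵥ Y z₁ z = x j ^ 2) → (∀ j, p j ⬝ᵥ deriv (Y z₁) z = 2 * x j * v j) → ∀ β : ℂ,
      ‖eval (Sum.elim (Y z₁ z) (deriv (Y z₁) z)) G‖ * ‖x‖ ^ (e + 2 * τ) ≤
        C * (∏ j, ‖x j‖ ^ (2 * K)) * ‖v - β • x‖ ^ e)
    (hsep : ∀ z₁, ∃ j, p j ⬝ᵥ Y z₁ z₁ ≠ 0)
    (htop : ∀ j z₁, analyticOrderAt (fun z => p j ⬝ᵥ Y z₁ z) z₁ ≠ ⊤)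
    (hord : ∀ j z₁, analyticOrderAt (fun z => p j ⬝ᵥ Y z₁ z) z₁ = 0 ∨
      (2 : ℕ∞) ≤ analyticOrderAt (fun z => p j ⬝ᵥ Y z₁ z) z₁)
    {z₀ : ℂ} (hG₀ : eval (Sum.elim (Y z₀ z₀) (deriv (Y z₀) z₀)) G ≠ 0)
    (hW₀ : ∀ i j, i ≠ j → (p i ⬝ᵥ Y z₀ z₀) * (p j ⬝ᵥ deriv (Y z₀) z₀) -
      (p j ⬝ᵥ Y z₀ z₀) * (p i ⬝ᵥ deriv (Y z₀) z₀) ≠ 0) : False := by
  classical
  obtain ⟨hYan, hY0, hYc⟩ := hY
  -- numbers
  obtain ⟨a, ha⟩ : ∃ a, a = 2 * (q * (q - 1)) + 1 := ⟨_, rfl⟩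
  obtain ⟨N₂, hN₂, hN₂0⟩ : ∃ N₂, N₂ + 2 * (q * (q - 1)) = a * τ ∧ 0 < N₂ := by
    have h1 : 2 * (q * (q - 1)) + 1 ≤ a * τ := by
      calc 2 * (q * (q - 1)) + 1 = a * 1 := by rw [ha, mul_one]
        _ ≤ a * τ := by gcongr
    exact ⟨a * τ - 2 * (q * (q - 1)), by omega, by omega⟩
  have hN : a * d + 4 * (q * (q - 1)) + N₂ = q * (a * K + 2 * (q - 1)) := by
    have h1 : q * (a * K + 2 * (q - 1)) = a * (q * K) + 2 * (q * (q - 1)) := by ring
    rw [h1, hd, mul_add, ← hN₂]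
    ring
  have hcard0 : 0 < q * (q - 1) := Nat.mul_pos (by omega) (by omega)
  -- the function off the hyperplanes
  obtain ⟨P₀, hP₀⟩ : ∃ P₀ : ℂ → ℝ, P₀ = fun z => Phi p a K N₂
    (eval (Sum.elim (Y z z) (deriv (Y z) z)) G) (Y z z) (deriv (Y z) z) := ⟨_, rfl⟩
  have hP₀loc : ∀ z₁, ∀ᶠ z in 𝓝 z₁, P₀ z = Phi p a K N₂
      (eval (Sum.elim (Y z₁ z) (deriv (Y z₁) z)) G) (Y z₁ z) (deriv (Y z₁) z) := by
    intro z₁
    filter_upwards [hYc z₁, (hYan z₁).eventually_analyticAt, hG z₁]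
      with z ⟨l, hl1, hl2, hl3⟩ han hGz
    rw [hP₀]
    have h1 : Y z z = l z • Y z₁ z := hl3.self_of_nhds
    have h2 : deriv (Y z) z = l z • deriv (Y z₁) z + deriv l z • Y z₁ z := by
      have h3 : Y z =ᶠ[𝓝 z] fun w => l w • Y z₁ w := hl3
      rw [h3.deriv_eq]
      exact (hl1.differentiableAt.hasDerivAt.smul han.differentiableAt.hasDerivAt).deriv
    beta_reduce
    rw [h1, h2, hGz _ _ hl2, Phi_smul p hN _ _ hl2]
  have hlan : ∀ z₁ j, AnalyticAt ℂ (fun z => p j ⬝ᵥ Y z₁ z) z₁ := fun z₁ j =>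
    analyticAt_dotProduct (hYan z₁) _
  have hlne : ∀ z₁, ∀ᶠ z in 𝓝[≠] z₁, ∀ j, p j ⬝ᵥ Y z₁ z ≠ 0 := by
    intro z₁
    rw [Filter.eventually_all]
    intro j
    rcases (hlan z₁ j).eventually_eq_zero_or_eventually_ne_zero with h | h
    · exact absurd (analyticOrderAt_eq_top.mpr h) (htop j z₁)
    · exact h
  choose σ hσan hσG hσx using fun z₁ => local_V (a := a) hq (l := fun j z => p j ⬝ᵥ Y z₁ z)
    (g := fun z => eval (Sum.elim (Y z₁ z) (deriv (Y z₁) z)) G) (hlan z₁)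
    (analyticAt_eval2 (hYan z₁) (hYan z₁).deriv G) (fun j => htop j z₁) (fun j => hord j z₁)
    (hsep z₁) hC (e := e) (τ := τ) (K := K) (by
      filter_upwards [hbd z₁, (hYan z₁).eventually_analyticAt.filter_mono nhdsWithin_le_nhds]
        with z g1 g2 x v g3 g4
      have h1 := g1 x v g3 (fun j => by rw [← deriv_dotProduct g2, g4 j]) 0
      rwa [zero_smul, sub_zero] at h1)
  have hσG' : ∀ z₁, ∀ᶠ z in 𝓝[≠] z₁, ‖σ z₁ z‖ * (∏ j, ‖p j ⬝ᵥ Y z₁ z‖) ^ (a * K + 2 * (q - 1)) =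
      ‖eval (Sum.elim (Y z₁ z) (deriv (Y z₁) z)) G‖ ^ a *
        ∏ x ∈ (Finset.univ : Finset (Fin q)).offDiag, ‖Wr p (Y z₁ z) (deriv (Y z₁) z) x‖ ^ 2 := by
    intro z₁
    filter_upwards [hσG z₁, (hYan z₁).eventually_analyticAt.filter_mono nhdsWithin_le_nhds]
      with z g1 g2
    rw [g1]
    congr 1
    refine Finset.prod_congr rfl fun x _ => ?_
    rw [wr, deriv_dotProduct g2, deriv_dotProduct g2, Wr]
  obtain ⟨c, hc⟩ : ∃ c : ℂ → ℂ → ℝ, c = fun z₁ z => ‖σ z₁ z‖ ^ 2 *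
    (∑ j, ‖p j ⬝ᵥ Y z₁ z‖) ^ (2 * N₂) := ⟨_, rfl⟩
  have hccont : ∀ z₁, ∀ᶠ z in 𝓝 z₁, ContinuousAt (c z₁) z := by
    intro z₁
    filter_upwards [(hσan z₁).eventually_analyticAt, (hYan z₁).eventually_analyticAt]
      with z h1 h2
    rw [hc]
    have h3 : ContinuousAt (σ z₁) z := h1.continuousAt
    have h4 : ∀ j, ContinuousAt (fun z => p j ⬝ᵥ Y z₁ z) z := fun j =>
      (analyticAt_dotProduct h2 _).continuousAt
    have h6 : ContinuousAt (fun z => ∑ j, ‖p j ⬝ᵥ Y z₁ z‖) z :=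
      tendsto_finsetSum _ fun j _ => (h4 j).norm
    exact ((h3.norm).pow 2).mul (h6.pow _)
  have hcP : ∀ z₁, ∀ᶠ z in 𝓝[≠] z₁, P₀ z = c z₁ z := by
    intro z₁
    filter_upwards [hlne z₁, (hP₀loc z₁).filter_mono nhdsWithin_le_nhds, hσG' z₁] with z h1 h2 h3
    rw [h2, hc, Phi, ← h3]
    have h4 : 0 < (∏ j, ‖p j ⬝ᵥ Y z₁ z‖) ^ (a * K + 2 * (q - 1)) := by
      apply pow_pos
      exact Finset.prod_pos fun j _ => norm_pos_iff.mpr (h1 j)
    rw [mul_div_assoc, div_self h4.ne', mul_one]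
  obtain ⟨P, hPcont, hPc⟩ := glue P₀ fun z₁ => ⟨c z₁, hccont z₁, hcP z₁⟩
  have hPz : ∀ z₁, ∀ᶠ z in 𝓝 z₁, P z = c z₁ z := fun z₁ => hPc z₁ _ (hccont z₁) (hcP z₁)
  have hPnonneg : ∀ z, 0 ≤ P z := by
    intro z
    rw [(hPz z).self_of_nhds, hc]
    positivity
  -- application of the growth lemma
  obtain ⟨κ, hκ⟩ : ∃ κ, κ = e * a + 2 * (q * (q - 1)) := ⟨_, rfl⟩
  have hzero : ∀ z, P z = 0 := by
    refine growth (E := EuclideanSpace ℂ (Fin q)) hPcont hPnonneg (κ := κ) (N := 2 * N₂)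
      (by omega) (by rw [hκ]; omega) ((C ^ a * 16 ^ (q * (q - 1))) ^ 2) ?_
    intro z₁ hz₁
    have h1 := (hPz z₁).self_of_nhds
    have hσ0 : σ z₁ z₁ ≠ 0 := by
      intro h
      rw [h1, hc] at hz₁
      simp [h] at hz₁
    choose X hX1 hX2 using hσx z₁ hσ0
    obtain ⟨x, hx⟩ : ∃ x : ℂ → EuclideanSpace ℂ (Fin q), x = fun z =>
      WithLp.toLp 2 (fun j => X j z) := ⟨_, rfl⟩
    have hxj : ∀ z j, x z j = X j z := by
      intro z j
      rw [hx]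
    have hxan : AnalyticAt ℂ x z₁ := by
      have g1 : AnalyticAt ℂ (fun z => fun j => X j z) z₁ := by
        rw [analyticAt_pi_iff]
        exact hX1
      have g2 : x = (EuclideanSpace.equiv (Fin q) ℂ).symm ∘ (fun z => fun j => X j z) := by
        rw [hx]; rfl
      rw [g2]
      exact (((EuclideanSpace.equiv (Fin q) ℂ).symm :
        (Fin q → ℂ) →L[ℂ] EuclideanSpace ℂ (Fin q)).analyticAt _).comp g1
    have hxl : ∀ᶠ z in 𝓝 z₁, ∀ j, p j ⬝ᵥ Y z₁ z = x z j ^ 2 := by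
      rw [Filter.eventually_all]
      intro j
      filter_upwards [hX2 j] with z hz
      rw [hz, hxj]
    have hxd : ∀ᶠ z in 𝓝 z₁, ∀ j, p j ⬝ᵥ deriv (Y z₁) z = 2 * x z j * deriv x z j := by
      filter_upwards [hxl.eventually_nhds, hxan.eventually_analyticAt,
        (hYan z₁).eventually_analyticAt] with z g1 g2 g3 j
      have g4 : (fun z => p j ⬝ᵥ Y z₁ z) =ᶠ[𝓝 z] fun z => x z j ^ 2 := by
        filter_upwards [g1] with w hw using hw j
      rw [← deriv_dotProduct g3, g4.deriv_eq]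
      have h6 : HasDerivAt x (deriv x z) z := g2.differentiableAt.hasDerivAt
      have h7 : HasDerivAt (fun z => x z j) (deriv x z j) z := by
        have := (EuclideanSpace.proj (𝕜 := ℂ) j).hasFDerivAt.comp_hasDerivAt z h6
        exact this
      rw [(h7.fun_pow 2).deriv]
      norm_num
    have hnorm : ∀ z, (∀ j, p j ⬝ᵥ Y z₁ z = x z j ^ 2) →
        ∑ j, ‖p j ⬝ᵥ Y z₁ z‖ = ‖x z‖ ^ 2 := by
      intro z hz
      rw [EuclideanSpace.norm_sq_eq]
      refine Finset.sum_congr rfl fun j _ => ?_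
      rw [hz j, norm_pow]
    have hx0 : x z₁ ≠ 0 := by
      intro h0
      obtain ⟨j, hj⟩ := hsep z₁
      apply hj
      rw [hxl.self_of_nhds j, h0]
      simp
    refine ⟨σ z₁, x, hσan z₁, hxan, hx0, ?_, ?_⟩
    · filter_upwards [hPz z₁, hxl] with z g1 g2
      rw [g1, hc]
      beta_reduce
      rw [hnorm z g2]
    · intro β
      have hx0' : ∀ᶠ z in 𝓝 z₁, x z ≠ 0 := hxan.continuousAt.eventually_ne hx0
      have hineq : ∀ᶠ z in 𝓝[≠] z₁, P z ≤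
          (C ^ a * 16 ^ (q * (q - 1))) ^ 2 * (‖deriv x z - β • x z‖ / ‖x z‖) ^ (2 * κ) := by
        filter_upwards [hlne z₁, (hPz z₁).filter_mono nhdsWithin_le_nhds,
          hσG' z₁, hxl.filter_mono nhdsWithin_le_nhds, hxd.filter_mono nhdsWithin_le_nhds,
          hx0'.filter_mono nhdsWithin_le_nhds, hbd z₁] with z g1 g2 g3 g4 g4' g5 g6
        rw [g2, hc]
        beta_reduce
        rw [hnorm z g4]
        have g7 := g6 (x z) (deriv x z) g4 g4' β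
        obtain ⟨δ, hδ⟩ : ∃ δ, δ = ‖deriv x z - β • x z‖ := ⟨_, rfl⟩
        obtain ⟨ν, hν⟩ : ∃ ν, ν = ‖x z‖ := ⟨_, rfl⟩
        have hδ0 : 0 ≤ δ := by rw [hδ]; positivity
        have hν0 : 0 < ν := by rw [hν]; exact norm_pos_iff.mpr g5
        rw [← hδ, ← hν] at g7
        rw [← hδ, ← hν]
        obtain ⟨Γ, hΓ⟩ : ∃ Γ, Γ = ‖eval (Sum.elim (Y z₁ z) (deriv (Y z₁) z)) G‖ := ⟨_, rfl⟩
        rw [← hΓ] at g7 g3
        have hΓ0 : 0 ≤ Γ := by rw [hΓ]; positivity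
        have g8 : ∏ j, ‖x z j‖ ^ (2 * K) = (∏ j, ‖p j ⬝ᵥ Y z₁ z‖) ^ K := by
          rw [← Finset.prod_pow]
          refine Finset.prod_congr rfl fun j _ => ?_
          rw [g4 j, norm_pow, pow_mul]
        have g9 : ∏ x ∈ (Finset.univ : Finset (Fin q)).offDiag,
            ‖Wr p (Y z₁ z) (deriv (Y z₁) z) x‖ ^ 2 ≤ (16 * ν ^ 2 * δ ^ 2) ^ (q * (q - 1)) *
              (∏ j, ‖p j ⬝ᵥ Y z₁ z‖) ^ (2 * (q - 1)) := by
          have k1 : ∀ y ∈ (Finset.univ : Finset (Fin q)).offDiag,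
              ‖Wr p (Y z₁ z) (deriv (Y z₁) z) y‖ ^ 2 ≤
                (16 * ν ^ 2 * δ ^ 2) * (‖p y.1 ⬝ᵥ Y z₁ z‖ * ‖p y.2 ⬝ᵥ Y z₁ z‖) := by
            intro y _
            have k2 : Wr p (Y z₁ z) (deriv (Y z₁) z) y = 2 * (x z y.1 * x z y.2) *
                (x z y.1 * (deriv x z - β • x z) y.2 - x z y.2 * (deriv x z - β • x z) y.1) := by
              rw [Wr, g4, g4, g4', g4']
              simp only [PiLp.sub_apply, PiLp.smul_apply, smul_eq_mul]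
              ring
            have k3 : ∀ j, ‖(deriv x z - β • x z) j‖ ≤ δ := fun j => by
              rw [hδ]; exact PiLp.norm_apply_le _ j
            have k4 : ∀ j, ‖x z j‖ ≤ ν := fun j => by
              rw [hν]; exact PiLp.norm_apply_le _ j
            have k5 : ‖x z y.1 * (deriv x z - β • x z) y.2 - x z y.2 * (deriv x z - β • x z) y.1‖ ≤
                2 * (ν * δ) := by
              calc _ ≤ ‖x z y.1 * (deriv x z - β • x z) y.2‖ +
                    ‖x z y.2 * (deriv x z - β • x z) y.1‖ := norm_sub_le _ _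
                _ ≤ ν * δ + ν * δ := by
                    rw [norm_mul, norm_mul]
                    gcongr
                    · exact k4 _
                    · exact k3 _
                    · exact k4 _
                    · exact k3 _
                _ = 2 * (ν * δ) := by ring
            rw [k2, norm_mul, norm_mul, norm_mul, g4, g4, norm_pow, norm_pow]
            have k6 : ‖(2:ℂ)‖ = 2 := by norm_num
            rw [k6]
            calc (2 * (‖x z y.1‖ * ‖x z y.2‖) * _) ^ 2 ≤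
                (2 * (‖x z y.1‖ * ‖x z y.2‖) * (2 * (ν * δ))) ^ 2 := by gcongr
              _ = _ := by ring
          calc _ ≤ ∏ y ∈ (Finset.univ : Finset (Fin q)).offDiag,
                (16 * ν ^ 2 * δ ^ 2) * (‖p y.1 ⬝ᵥ Y z₁ z‖ * ‖p y.2 ⬝ᵥ Y z₁ z‖) :=
                  Finset.prod_le_prod (fun y _ => by positivity) k1
            _ = _ := by
              generalize 16 * ν ^ 2 * δ ^ 2 = B₁
              rw [Finset.prod_mul_distrib, Finset.prod_mul_distrib, Finset.prod_const, card_offDiag,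
                prod_offDiag_fst (fun j => ‖p j ⬝ᵥ Y z₁ z‖),
                prod_offDiag_snd (fun j => ‖p j ⬝ᵥ Y z₁ z‖), ← pow_add, ← two_mul]
        obtain ⟨Q₁, hQ₁⟩ : ∃ Q₁, Q₁ = ∏ j, ‖p j ⬝ᵥ Y z₁ z‖ := ⟨_, rfl⟩
        have hQ₁0 : 0 < Q₁ := by
          rw [hQ₁]
          exact Finset.prod_pos fun j _ => norm_pos_iff.mpr (g1 j)
        rw [g8, ← hQ₁] at g7
        rw [← hQ₁] at g3 g9
        -- the estimate for σ
        have g10 : ‖σ z₁ z‖ * ν ^ (a * (e + 2 * τ)) ≤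
            C ^ a * δ ^ (e * a) * (16 * ν ^ 2 * δ ^ 2) ^ (q * (q - 1)) := by
          have m1 : 0 < Q₁ ^ (a * K + 2 * (q - 1)) := by positivity
          refine le_of_mul_le_mul_right ?_ m1
          calc ‖σ z₁ z‖ * ν ^ (a * (e + 2 * τ)) * Q₁ ^ (a * K + 2 * (q - 1))
              = (‖σ z₁ z‖ * Q₁ ^ (a * K + 2 * (q - 1))) * ν ^ (a * (e + 2 * τ)) := by ring
            _ = (Γ * ν ^ (e + 2 * τ)) ^ a *
                ∏ x ∈ (Finset.univ : Finset (Fin q)).offDiag,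
                  ‖Wr p (Y z₁ z) (deriv (Y z₁) z) x‖ ^ 2 := by
                  rw [g3, mul_pow, ← pow_mul, mul_comm (e + 2 * τ) a]
                  ring
            _ ≤ (C * Q₁ ^ K * δ ^ e) ^ a * ((16 * ν ^ 2 * δ ^ 2) ^ (q * (q - 1)) *
                Q₁ ^ (2 * (q - 1))) := by
                  gcongr
            _ = _ := by
                  rw [mul_pow, mul_pow, ← pow_mul, ← pow_mul, pow_add, mul_comm K a]
                  ring
        have g11 : ‖σ z₁ z‖ * ν ^ (2 * N₂) ≤ C ^ a * 16 ^ (q * (q - 1)) * (δ / ν) ^ κ := by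
          have m1 : 0 < ν ^ κ := by positivity
          refine le_of_mul_le_mul_right ?_ m1
          have m2 : 0 < ν ^ (2 * (q * (q - 1))) := by positivity
          refine le_of_mul_le_mul_right ?_ m2
          calc ‖σ z₁ z‖ * ν ^ (2 * N₂) * ν ^ κ * ν ^ (2 * (q * (q - 1)))
              = ‖σ z₁ z‖ * ν ^ (a * (e + 2 * τ)) := by
                have m3 : a * (e + 2 * τ) = 2 * N₂ + κ + 2 * (q * (q - 1)) := by
                  rw [hκ, mul_add]
                  have : a * (2 * τ) = 2 * (a * τ) := by ring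
                  rw [this, ← hN₂]
                  ring
                rw [m3, pow_add, pow_add]
                ring
            _ ≤ _ := g10
            _ = _ := by
                rw [div_pow, mul_pow, mul_pow, ← pow_mul, ← pow_mul, hκ, pow_add, pow_add]
                field_simp
        calc ‖σ z₁ z‖ ^ 2 * (ν ^ 2) ^ (2 * N₂) = (‖σ z₁ z‖ * ν ^ (2 * N₂)) ^ 2 := by
              rw [mul_pow, ← pow_mul, ← pow_mul, mul_comm 2 (2 * N₂)]
          _ ≤ (C ^ a * 16 ^ (q * (q - 1)) * (δ / ν) ^ κ) ^ 2 := by gcongr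
          _ = _ := by
              rw [mul_pow, ← pow_mul, mul_comm κ 2]
      have hcont : ContinuousAt (fun z => (C ^ a * 16 ^ (q * (q - 1))) ^ 2 *
          (‖deriv x z - β • x z‖ / ‖x z‖) ^ (2 * κ)) z₁ := by
        have h2 : ContinuousAt x z₁ := hxan.continuousAt
        have h3 : ContinuousAt (deriv x) z₁ := hxan.deriv.continuousAt
        have h4 : ‖x z₁‖ ≠ 0 := norm_ne_zero_iff.mpr hx0
        exact continuousAt_const.mul (((h3.sub (h2.const_smul β)).norm.div h2.norm h4).pow _)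
      exact le_of_tendsto_of_tendsto (hPcont.continuousAt.tendsto.mono_left nhdsWithin_le_nhds)
        (hcont.tendsto.mono_left nhdsWithin_le_nhds) hineq
  -- contradiction
  have h1 : ∀ᶠ z in 𝓝[≠] z₀, False := by
    have hGan : AnalyticAt ℂ (fun z => eval (Sum.elim (Y z₀ z) (deriv (Y z₀) z)) G) z₀ :=
      analyticAt_eval2 (hYan z₀) (hYan z₀).deriv G
    have hWan : ∀ x : Fin q × Fin q,
        AnalyticAt ℂ (fun z => Wr p (Y z₀ z) (deriv (Y z₀) z) x) z₀ := by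
      intro x
      have e1 := hlan z₀ x.1
      have e2 := hlan z₀ x.2
      have e3 := analyticAt_dotProduct (hYan z₀).deriv (p x.1)
      have e4 := analyticAt_dotProduct (hYan z₀).deriv (p x.2)
      exact (e1.mul e4).sub (e2.mul e3)
    have hW1 : ∀ᶠ z in 𝓝 z₀, ∀ x ∈ (Finset.univ : Finset (Fin q)).offDiag,
        Wr p (Y z₀ z) (deriv (Y z₀) z) x ≠ 0 := by
      rw [Filter.eventually_all_finset]
      intro x hx
      refine (hWan x).continuousAt.eventually_ne ?_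
      exact hW₀ x.1 x.2 (by simpa [Finset.mem_offDiag] using hx)
    filter_upwards [hlne z₀, (hPz z₀).filter_mono nhdsWithin_le_nhds, hσG' z₀,
      (hGan.continuousAt.eventually_ne hG₀).filter_mono nhdsWithin_le_nhds,
      hW1.filter_mono nhdsWithin_le_nhds] with z g1 g2 g3 g4 g5
    rw [hzero z, hc] at g2
    have h3 : σ z₀ z ≠ 0 := by
      intro h
      rw [h, norm_zero, zero_mul] at g3
      have h4 : 0 < ‖eval (Sum.elim (Y z₀ z) (deriv (Y z₀) z)) G‖ ^ a *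
          ∏ x ∈ (Finset.univ : Finset (Fin q)).offDiag,
            ‖Wr p (Y z₀ z) (deriv (Y z₀) z) x‖ ^ 2 := by
        apply mul_pos
        · exact pow_pos (norm_pos_iff.mpr g4) _
        · exact Finset.prod_pos fun x hx => pow_pos (norm_pos_iff.mpr (g5 x hx)) _
      exact absurd g3 h4.ne
    have h4 : 0 < ∑ j, ‖p j ⬝ᵥ Y z₀ z‖ := by
      refine Finset.sum_pos (fun j _ => norm_pos_iff.mpr (g1 j)) ?_
      exact ⟨⟨0, by omega⟩, Finset.mem_univ _⟩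
    have h5 : 0 < ‖σ z₀ z‖ ^ 2 * (∑ j, ‖p j ⬝ᵥ Y z₀ z‖) ^ (2 * N₂) := by
      have := norm_pos_iff.mpr h3
      positivity
    exact absurd g2 h5.ne
  rw [Filter.eventually_const] at h1
  exact h1

end Pool.Agent.Lib.GGL.VG
end

section

/-!
Uniform bounds at a point, logarithmic version.
-/

open Filter Topology MvPolynomial Module

namespace Pool.Agent.Lib.GGL.SM

open VG

theorem point_bound_log {q K M : ℕ} (p : Fin q → Fin (M + 1) → ℂ)
    (c : (Fin q → Fin (K + 1)) →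
      MvPolynomial ((Fin q × Fin (M + 1)) ⊕ (Fin (M + 1) ⊕ Fin (M + 1))) ℂ)
    (g : Fin q → ℕ) (R : ℝ) :
    ∃ C : ℝ, 0 ≤ C ∧ ∀ (y Z : Fin (M + 1) → ℂ) (i : Fin (M + 1)),
      (∀ p' : Fin q → Fin (M + 1) → ℂ, GoodL q g (fun j => p' j ⬝ᵥ y) (fun j => p' j ⬝ᵥ Z)
        (fun γ => eval (pt p' y Z) (c γ))) →
      ‖y‖ ≤ R → ‖Z‖ ≤ R → 1 ≤ R * ‖y i‖ → (∀ j, p j ⬝ᵥ y ≠ 0) →
      (∀ j, (p j ⬝ᵥ Z) * y i - Z i * (p j ⬝ᵥ y) ≠ 0) →
      ‖leadL g (fun j => p j ⬝ᵥ y) (fun j => p j ⬝ᵥ Z) (fun γ => eval (pt p y Z) (c γ))‖ ≤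
        C * ∏ j, (‖p j ⬝ᵥ y‖ ^ K *
          max 1 ‖(p j ⬝ᵥ Z) / (p j ⬝ᵥ y) - Z i / y i‖ ^ (K - g j)) := by
  classical
  -- the function on the parameter space
  obtain ⟨P, hP⟩ : ∃ P : Fin (M + 1) → (Fin q → ℂ) → (Fin (M + 1) → ℂ) → ℂ → Fin q →
      Fin (M + 1) → ℂ, P = fun i X y t j =>
        p j + ((X j - p j ⬝ᵥ y) * t) • (Pi.single i (1 : ℂ) : Fin (M + 1) → ℂ) := ⟨_, rfl⟩
  obtain ⟨Ξ, hΞ⟩ : ∃ Ξ : Fin (M + 1) → (Fin q → Fin (K + 1)) → ((Fin q → ℂ) ×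
      (Fin (M + 1) → ℂ) × (Fin (M + 1) → ℂ) × ℂ) → ℂ, Ξ = fun i γ s =>
        eval (pt (P i s.1 s.2.1 s.2.2.2) s.2.1 s.2.2.1) (c γ) := ⟨_, rfl⟩
  have hdc : ∀ j, Continuous fun y : Fin (M + 1) → ℂ => p j ⬝ᵥ y := by
    intro j
    unfold dotProduct
    fun_prop
  have hΞc : ∀ i γ, Continuous (Ξ i γ) := by
    intro i γ
    rw [hΞ]
    refine eval_pt_continuous _ ?_ (by fun_prop) (by fun_prop)
    rw [hP]
    rw [continuous_pi_iff]
    intro j
    have h1 : Continuous fun a : (Fin q → ℂ) × (Fin (M + 1) → ℂ) ×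
        (Fin (M + 1) → ℂ) × ℂ => p j ⬝ᵥ a.2.1 := (hdc j).comp (by fun_prop)
    fun_prop
  obtain ⟨S, hS⟩ : ∃ S : ℝ, S = ∑ j, ∑ k, ‖p j k‖ := ⟨_, rfl⟩
  have hS0 : 0 ≤ S := by
    rw [hS]
    exact Finset.sum_nonneg fun j _ => Finset.sum_nonneg fun k _ => norm_nonneg _
  obtain ⟨ρ, hρ⟩ : ∃ ρ : ℝ, ρ = 1 + S * |R| := ⟨_, rfl⟩
  have hρ1 : 1 ≤ ρ := by rw [hρ]; have := mul_nonneg hS0 (abs_nonneg R); linarith
  obtain ⟨ρ', hρ'⟩ : ∃ ρ' : ℝ, ρ' = max (2 * ρ) R := ⟨_, rfl⟩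
  have hbdd : ∀ i γ, ∃ C, ∀ s ∈ Metric.closedBall (0 : (Fin q → ℂ) ×
      (Fin (M + 1) → ℂ) × (Fin (M + 1) → ℂ) × ℂ) ρ', ‖Ξ i γ s‖ ≤ C := fun i γ =>
    (isCompact_closedBall _ _).exists_bound_of_continuousOn (hΞc i γ).continuousOn
  choose D hD using hbdd
  obtain ⟨C0, hC0⟩ : ∃ C0 : ℝ, C0 = ∑ i, ∑ γ, |D i γ| := ⟨_, rfl⟩
  have hC00 : 0 ≤ C0 := by
    rw [hC0]
    exact Finset.sum_nonneg fun j _ => Finset.sum_nonneg fun k _ => abs_nonneg _
  refine ⟨C0 * (2 * (R * R + 1)) ^ (q * K),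
    mul_nonneg hC00 (pow_nonneg (by nlinarith [mul_self_nonneg R]) _), ?_⟩
  intro y Z i hgood hy hZ hyi hpy0 hne
  have hyi0 : y i ≠ 0 := by
    intro h
    rw [h, norm_zero, mul_zero] at hyi
    linarith
  have hyi' : 0 < ‖y i‖ := norm_pos_iff.2 hyi0
  have hR : 0 < R := by
    by_contra h
    push Not at h
    have := mul_nonpos_of_nonpos_of_nonneg h hyi'.le
    linarith
  obtain ⟨t, ht⟩ : ∃ t : ℂ, t = (y i)⁻¹ := ⟨_, rfl⟩
  have htR : ‖t‖ ≤ R := by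
    rw [ht, norm_inv, inv_le_iff_one_le_mul₀ hyi']
    exact hyi
  have hty : t * y i = 1 := by rw [ht]; exact inv_mul_cancel₀ hyi0
  have hZi : ‖Z i‖ ≤ R := (norm_le_pi_norm Z i).trans hZ
  have hκ : ‖t * Z i‖ ≤ R * R := by
    rw [norm_mul]
    gcongr
  have hxρ : ∀ j, ‖p j ⬝ᵥ y‖ ≤ ρ := by
    intro j
    have h1 : ‖p j ⬝ᵥ y‖ ≤ (∑ k, ‖p j k‖) * R := by
      unfold dotProduct
      rw [Finset.sum_mul]
      refine (norm_sum_le _ _).trans (Finset.sum_le_sum fun k _ => ?_)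
      rw [norm_mul]
      exact mul_le_mul_of_nonneg_left ((norm_le_pi_norm y k).trans hy) (norm_nonneg _)
    have h2 : (∑ k, ‖p j k‖) ≤ S := by
      rw [hS]
      exact Finset.single_le_sum (f := fun j => ∑ k, ‖p j k‖)
        (fun j _ => Finset.sum_nonneg fun k _ => norm_nonneg _) (Finset.mem_univ j)
    calc ‖p j ⬝ᵥ y‖ ≤ (∑ k, ‖p j k‖) * R := h1
      _ ≤ S * |R| := mul_le_mul h2 (le_abs_self R) hR.le hS0
      _ ≤ ρ := by rw [hρ]; linarith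
  -- apply the bound
  have h1 := bound_log (κ := t * Z i) (θ := fun j => p j ⬝ᵥ Z - t * Z i * (p j ⬝ᵥ y))
    (κ₀ := R * R) (ρ := ρ) (C := C0) (fun γ X => eval (pt (P i X y t) y Z) (c γ)) (by
      intro γ
      refine eval_pt_differentiable _ ?_
      intro j k
      rw [hP]
      simp only [Pi.add_apply, Pi.smul_apply, smul_eq_mul]
      fun_prop) g (by
      intro j h
      apply hne j
      have h2 : (p j ⬝ᵥ Z) * y i - Z i * (p j ⬝ᵥ y) =
          (p j ⬝ᵥ Z - t * Z i * (p j ⬝ᵥ y)) * y i := by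
        linear_combination (Z i * (p j ⬝ᵥ y)) * hty
      rw [h2, h, zero_mul]) hκ hρ1 (by
      intro X hX
      have h2 := hgood (P i X y t)
      have h3 : (fun j => P i X y t j ⬝ᵥ y) = fun j => X j := by
        funext j
        rw [hP]
        beta_reduce
        rw [dot_add_single]
        linear_combination (X j - p j ⬝ᵥ y) * hty
      have h4 : (fun j => P i X y t j ⬝ᵥ Z) =
          fun j => (p j ⬝ᵥ Z - t * Z i * (p j ⬝ᵥ y)) + t * Z i * X j := by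
        funext j
        rw [hP]
        beta_reduce
        rw [dot_add_single]
        ring
      rw [h3, h4] at h2
      exact h2) (by
      intro X V hX hX2
      have h2 : ∀ γ, ‖eval (pt (P i X y t) y Z) (c γ)‖ ≤ |D i γ| := by
        intro γ
        have h3 := hD i γ (X, y, Z, t) (by
          rw [mem_closedBall_zero_iff]
          have h4 : 2 * ρ ≤ ρ' := by rw [hρ']; exact le_max_left _ _
          have h5 : R ≤ ρ' := by rw [hρ']; exact le_max_right _ _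
          have hρ0 : 0 ≤ ρ' := by linarith
          simp only [Prod.norm_def, sup_le_iff]
          refine ⟨?_, hy.trans h5, hZ.trans h5, htR.trans h5⟩
          rw [pi_norm_le_iff_of_nonneg hρ0]
          exact fun j => (hX2 j).trans h4)
        rw [hΞ] at h3
        exact h3.trans (le_abs_self _)
      have h6 : ∀ γ : Fin q → Fin (K + 1), ‖∏ j, V j ^ (γ j : ℕ)‖ ≤ ∏ j, max 1 ‖V j‖ ^ K := by
        intro γ
        rw [norm_prod]
        apply Finset.prod_le_prod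
        · intro j _
          exact norm_nonneg _
        · intro j _
          rw [norm_pow]
          calc ‖V j‖ ^ (γ j : ℕ) ≤ max 1 ‖V j‖ ^ (γ j : ℕ) :=
                pow_le_pow_left₀ (norm_nonneg _) (le_max_right _ _) _
            _ ≤ max 1 ‖V j‖ ^ K :=
                pow_le_pow_right₀ (le_max_left _ _) (Nat.lt_succ_iff.1 (γ j).2)
      have h7 : 0 ≤ ∏ j, max 1 ‖V j‖ ^ K :=
        Finset.prod_nonneg fun j _ => pow_nonneg (zero_le_one.trans (le_max_left _ _)) _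
      calc ‖∑ γ, eval (pt (P i X y t) y Z) (c γ) * ∏ j, V j ^ (γ j : ℕ)‖
          ≤ ∑ γ, ‖eval (pt (P i X y t) y Z) (c γ) * ∏ j, V j ^ (γ j : ℕ)‖ := norm_sum_le _ _
        _ ≤ ∑ γ, |D i γ| * ∏ j, max 1 ‖V j‖ ^ K := by
            apply Finset.sum_le_sum
            intro γ _
            rw [norm_mul]
            exact mul_le_mul (h2 γ) (h6 γ) (norm_nonneg _) (abs_nonneg _)
        _ = (∑ γ, |D i γ|) * ∏ j, max 1 ‖V j‖ ^ K := by rw [Finset.sum_mul]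
        _ ≤ C0 * ∏ j, max 1 ‖V j‖ ^ K := by
            apply mul_le_mul_of_nonneg_right _ h7
            rw [hC0]
            exact Finset.single_le_sum (f := fun i => ∑ γ, |D i γ|)
              (fun i _ => Finset.sum_nonneg fun γ _ => abs_nonneg _) (Finset.mem_univ i))
    (fun j => p j ⬝ᵥ y) hpy0 hxρ
  have hPx : P i (fun j => p j ⬝ᵥ y) y t = p := by
    rw [hP]
    funext j
    beta_reduce
    rw [sub_self, zero_mul, zero_smul, add_zero]
  have h6 : (fun j => (p j ⬝ᵥ Z - t * Z i * (p j ⬝ᵥ y)) + t * Z i * (p j ⬝ᵥ y)) =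
      fun j => p j ⬝ᵥ Z := by
    funext j
    ring
  rw [h6] at h1
  simp only [hPx] at h1
  refine h1.trans (le_of_eq ?_)
  congr 1
  apply Finset.prod_congr rfl
  intro j _
  have h7 : (p j ⬝ᵥ Z - t * Z i * (p j ⬝ᵥ y)) / (p j ⬝ᵥ y) =
      (p j ⬝ᵥ Z) / (p j ⬝ᵥ y) - Z i / y i := by
    rw [sub_div, mul_div_assoc, div_self (hpy0 j), ht]
    ring
  rw [h7]

end Pool.Agent.Lib.GGL.SM
end
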