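import Mathlib
import Pool.Agent.Lib.MP_8d161d_ag.VG.VDefs
import Pool.Agent.Lib.MP_8d161d_ag.Cover
import Pool.Agent.Lib.MP_8d161d_ag.SM.Defs

section

/-!
The top coefficient in the direction of the base point.
-/

open Filter Topology MvPolynomial Module

namespace Pool.Agent.Lib.GGL.VG

/-- iterated derivatives of a polynomial -/
lemma t11_iteratedDeriv (P : Polynomial ℂ) (k : ℕ) :
    iteratedDeriv k (fun z => P.eval z) = fun z => (Polynomial.derivative^[k] P).eval z := by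
  induction k with
  | zero => simp
  | succ k ih =>
    rw [iteratedDeriv_succ, ih]
    funext z
    rw [Polynomial.deriv, Function.iterate_succ_apply']

/-- Cauchy's estimate for polynomials -/
lemma t11_cauchy (P : Polynomial ℂ) (m : ℕ) {ρ C : ℝ} (hρ : 0 < ρ)
    (h : ∀ z : ℂ, ‖z‖ = ρ → ‖P.eval z‖ ≤ C) : ‖P.coeff m‖ * ρ ^ m ≤ C := by
  have h1 := Complex.norm_iteratedDeriv_le_of_forall_mem_sphere_norm_le (c := 0) (R := ρ) (C := C)
    (f := fun z => P.eval z) m hρ P.differentiable.diffContOnCl (by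
      intro z hz
      exact h z (by simpa using hz))
  rw [t11_iteratedDeriv] at h1
  simp only [← Polynomial.coeff_zero_eq_eval_zero] at h1
  rw [Polynomial.coeff_iterate_derivative, zero_add, Nat.descFactorial_self, nsmul_eq_mul,
    norm_mul, Complex.norm_natCast, mul_div_assoc] at h1
  have h2 : (0 : ℝ) < m.factorial := by positivity
  have h3 := le_of_mul_le_mul_left h1 h2
  rwa [le_div_iff₀ (by positivity)] at h3

/-- the top coefficient is invariant under translation -/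
lemma t11_coeff_comp (P : Polynomial ℂ) (m : ℕ) (h : P.natDegree ≤ m) (c : ℂ) :
    (Polynomial.taylor c P).coeff m = P.coeff m := by
  rw [Polynomial.taylor_coeff]
  have h1 : Polynomial.hasseDeriv m P = Polynomial.C (P.coeff m) := by
    ext n
    rw [Polynomial.hasseDeriv_coeff, Polynomial.coeff_C]
    rcases n with _ | n
    · simp
    · rw [if_neg (by omega), Polynomial.coeff_eq_zero_of_natDegree_lt (by omega), mul_zero]
  rw [h1, Polynomial.eval_C]

/-- The polynomial `Q (y, Z + s y)` in `s`. -/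
noncomputable def t11P {M : ℕ} (Q : MvPolynomial (Fin (M + 1) ⊕ Fin (M + 1)) ℂ) :
    Polynomial (MvPolynomial (Fin (M + 1) ⊕ Fin (M + 1)) ℂ) :=
  aeval (Sum.elim (fun i => Polynomial.C (X (Sum.inl i)))
    (fun i => Polynomial.C (X (Sum.inr i)) + Polynomial.X * Polynomial.C (X (Sum.inl i)))) Q

lemma t11P_eval {M : ℕ} (Q : MvPolynomial (Fin (M + 1) ⊕ Fin (M + 1)) ℂ)
    (y Z : Fin (M + 1) → ℂ) (s : ℂ) :
    ((t11P Q).map (eval (Sum.elim y Z))).eval s = eval (Sum.elim y (Z + s • y)) Q := by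
  induction Q using MvPolynomial.induction_on with
  | C c =>
    simp only [t11P, algHom_C, eval_C]
    rw [Polynomial.algebraMap_apply, Polynomial.map_C, Polynomial.eval_C, algebraMap_eq, eval_C]
  | add p q hp hq =>
    simp only [t11P, map_add, Polynomial.map_add, Polynomial.eval_add] at hp hq ⊢
    rw [hp, hq]
  | mul_X p i hp =>
    simp only [t11P, map_mul, Polynomial.map_mul, Polynomial.eval_mul, aeval_X, eval_X] at hp ⊢
    rw [hp]
    congr 1
    rcases i with i | i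
    · simp
    · simp only [Sum.elim_inr, Polynomial.map_add, Polynomial.map_mul, Polynomial.map_C,
        Polynomial.map_X, Polynomial.eval_add, Polynomial.eval_mul, Polynomial.eval_C,
        Polynomial.eval_X, eval_X, Sum.elim_inl, Pi.add_apply, Pi.smul_apply, smul_eq_mul]

theorem top_coeff {q K M A B τ : ℕ}
    (p : Fin q → Fin (M + 1) → ℂ) {W : Set ((Fin (M + 1) → ℂ) × (Fin (M + 1) → ℂ))}
    (hW : ∀ y Z, (y, Z) ∈ W → ∀ a b s : ℂ, (a • y, b • (Z + s • y)) ∈ W)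
    (Q : MvPolynomial (Fin (M + 1) ⊕ Fin (M + 1)) ℂ)
    (hhom : ∀ (y Z : Fin (M + 1) → ℂ) (a b : ℂ), eval (Sum.elim (a • y) (b • Z)) Q =
      a ^ A * b ^ B * eval (Sum.elim y Z) Q)
    {C : ℝ} (hC : 0 ≤ C) (hbd : ∀ y Z, (y, Z) ∈ W →
      (∀ i j, y i ≠ 0 → (p j ⬝ᵥ Z) * y i - Z i * (p j ⬝ᵥ y) ≠ 0) →
      ∀ x v : EuclideanSpace ℂ (Fin q), x ≠ 0 → (∀ j, p j ⬝ᵥ y = x j ^ 2) →
        (∀ j, p j ⬝ᵥ Z = 2 * x j * v j) → (∀ j, x j ≠ 0) →
        ‖eval (Sum.elim y Z) Q‖ * ‖x‖ ^ (B + 2 * τ) ≤ C * (∏ j, ‖x j‖ ^ (2 * K)) * ‖v‖ ^ B)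
    (hne : ∃ y Z, (y, Z) ∈ W ∧ eval (Sum.elim y Z) Q ≠ 0) :
    ∃ (e : ℕ) (G : MvPolynomial (Fin (M + 1) ⊕ Fin (M + 1)) ℂ) (C' : ℝ), 0 ≤ C' ∧
      (∀ y Z, (y, Z) ∈ W → ∀ a s : ℂ, a ≠ 0 → eval (Sum.elim (a • y) (a • Z + s • y)) G =
        a ^ (A + B) * eval (Sum.elim y Z) G) ∧
      (∀ (y Z : Fin (M + 1) → ℂ) (b : ℂ), b ≠ 0 →
        eval (Sum.elim y (b • Z)) G = b ^ e * eval (Sum.elim y Z) G) ∧
      (∃ y Z, (y, Z) ∈ W ∧ eval (Sum.elim y Z) G ≠ 0) ∧
      ∀ y Z, (y, Z) ∈ W →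
        (∀ i j, y i ≠ 0 → (p j ⬝ᵥ Z) * y i - Z i * (p j ⬝ᵥ y) ≠ 0) →
        (∃ i j, (p i ⬝ᵥ Z) * (p j ⬝ᵥ y) - (p j ⬝ᵥ Z) * (p i ⬝ᵥ y) ≠ 0) →
        ∀ x v : EuclideanSpace ℂ (Fin q), x ≠ 0 → (∀ j, p j ⬝ᵥ y = x j ^ 2) →
          (∀ j, p j ⬝ᵥ Z = 2 * x j * v j) → (∀ j, x j ≠ 0) → ∀ β : ℂ,
          ‖eval (Sum.elim y Z) G‖ * ‖x‖ ^ (e + 2 * τ) ≤
            C' * (∏ j, ‖x j‖ ^ (2 * K)) * ‖v - β • x‖ ^ e := by
  classical
  -- the specialised polynomials
  let P : (Fin (M + 1) → ℂ) → (Fin (M + 1) → ℂ) → Polynomial ℂ :=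
    fun y Z => (t11P Q).map (eval (Sum.elim y Z))
  have hPe : ∀ y Z s, (P y Z).eval s = eval (Sum.elim y (Z + s • y)) Q := fun y Z s =>
    t11P_eval Q y Z s
  have hPc : ∀ y Z i, (P y Z).coeff i = eval (Sum.elim y Z) ((t11P Q).coeff i) := fun y Z i =>
    Polynomial.coeff_map _ _
  -- the top index
  obtain ⟨m, hm1, hm2⟩ : ∃ m : ℕ, (∃ y Z, (y, Z) ∈ W ∧ (P y Z).coeff m ≠ 0) ∧
      ∀ i, m < i → ∀ y Z, (y, Z) ∈ W → (P y Z).coeff i = 0 := by
    let I : Finset ℕ := (Finset.range ((t11P Q).natDegree + 1)).filter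
      fun i => ∃ y Z, (y, Z) ∈ W ∧ (P y Z).coeff i ≠ 0
    have hI : I.Nonempty := by
      obtain ⟨y, Z, hyZ, hne⟩ := hne
      refine ⟨0, Finset.mem_filter.mpr ⟨by simp, y, Z, hyZ, ?_⟩⟩
      rw [Polynomial.coeff_zero_eq_eval_zero, hPe, zero_smul, add_zero]
      exact hne
    refine ⟨I.max' hI, (Finset.mem_filter.mp (I.max'_mem hI)).2, ?_⟩
    intro i hi y Z hyZ
    by_contra h0
    have h1 : i ∈ I := by
      refine Finset.mem_filter.mpr ⟨?_, y, Z, hyZ, h0⟩
      rw [Finset.mem_range]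
      by_contra h2
      apply h0
      rw [hPc, Polynomial.coeff_eq_zero_of_natDegree_lt (by omega), map_zero]
    exact absurd (I.le_max' i h1) (by omega)
  have hdeg : ∀ y Z, (y, Z) ∈ W → (P y Z).natDegree ≤ m := by
    intro y Z hyZ
    rw [Polynomial.natDegree_le_iff_coeff_eq_zero]
    intro i hi
    exact hm2 i hi y Z hyZ
  -- translation
  have htr : ∀ y Z, (y, Z) ∈ W → ∀ c : ℂ, (P y (Z + c • y)).coeff m = (P y Z).coeff m := by
    intro y Z hyZ c
    have h1 : P y (Z + c • y) = Polynomial.taylor c (P y Z) := by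
      apply Polynomial.funext
      intro s
      rw [hPe, Polynomial.taylor_eval, hPe]
      congr 3
      module
    rw [h1]
    exact t11_coeff_comp _ m (hdeg y Z hyZ) c
  -- scaling
  have hsc : ∀ y Z, ∀ a b : ℂ, ∀ i, b ^ i * (P (a • y) (b • Z)).coeff i =
      a ^ (A + i) * b ^ B * (P y Z).coeff i := by
    intro y Z a b i
    have h1 : (P (a • y) (b • Z)).comp (Polynomial.C b * Polynomial.X) =
        Polynomial.C (a ^ A * b ^ B) * (P y Z).comp (Polynomial.C a * Polynomial.X) := by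
      apply Polynomial.funext
      intro s
      simp only [Polynomial.eval_comp, Polynomial.eval_mul, Polynomial.eval_C, Polynomial.eval_X]
      rw [hPe, hPe, ← hhom]
      congr 3
      module
    have h2 := congrArg (fun p => p.coeff i) h1
    simp only [Polynomial.coeff_C_mul, Polynomial.comp_C_mul_X_coeff] at h2
    rw [pow_add]
    linear_combination h2
  have hmB : m ≤ B := by
    by_contra hlt
    obtain ⟨y, Z, hyZ, hG⟩ := hm1
    apply hG
    have h1 : ∀ b : ℂ, b ≠ 0 → b ^ (m - B) * (P y (b • Z)).coeff m = (P y Z).coeff m := by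
      intro b hb
      have h2 := hsc y Z 1 b m
      rw [one_smul, one_pow, one_mul] at h2
      have h3 : b ^ m = b ^ B * b ^ (m - B) := by
        rw [← pow_add]
        congr 1
        omega
      rw [h3, mul_assoc] at h2
      exact mul_left_cancel₀ (pow_ne_zero B hb) h2
    have hcont : Continuous fun b : ℂ => b ^ (m - B) * (P y (b • Z)).coeff m := by
      apply (continuous_pow _).mul
      simp only [hPc]
      have h4 : Continuous fun b : ℂ => (Sum.elim y (b • Z) : Fin (M + 1) ⊕ Fin (M + 1) → ℂ) := by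
        apply continuous_pi
        rintro (i | i)
        · exact continuous_const
        · exact continuous_id.mul continuous_const
      exact (MvPolynomial.continuous_eval ((t11P Q).coeff m)).comp h4
    have h5 := Continuous.ext_on (s := {(0 : ℂ)}ᶜ) (dense_compl_singleton (0 : ℂ)) hcont
      (continuous_const (y := (P y Z).coeff m)) (fun b hb => h1 b hb)
    have h6 := congrFun h5 0
    rw [zero_pow (by omega), zero_mul] at h6
    exact h6.symm
  refine ⟨B - m, (t11P Q).coeff m, C * 2 ^ (B - m), by positivity, ?_, ?_, ?_, ?_⟩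
  · intro y Z hyZ a s ha
    have h1 : (a • y, a • Z) ∈ W := by
      have := hW y Z hyZ a a 0
      rwa [zero_smul, add_zero] at this
    have h2 := htr (a • y) (a • Z) h1 (s / a)
    rw [smul_smul, div_mul_cancel₀ _ ha] at h2
    rw [← hPc, ← hPc, h2]
    have h3 := hsc y Z a a m
    have h4 : a ^ m ≠ 0 := pow_ne_zero m ha
    apply mul_left_cancel₀ h4
    rw [h3, pow_add, pow_add]
    ring
  · intro y Z b hb
    have h2 := hsc y Z 1 b m
    rw [one_smul, one_pow, one_mul] at h2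
    have h3 : b ^ B = b ^ m * b ^ (B - m) := by
      rw [← pow_add]
      congr 1
      omega
    rw [h3, mul_assoc] at h2
    rw [← hPc, ← hPc]
    exact mul_left_cancel₀ (pow_ne_zero m hb) h2
  · obtain ⟨y, Z, hyZ, hG⟩ := hm1
    exact ⟨y, Z, hyZ, by rwa [← hPc]⟩
  · intro y Z hyZ hnd ⟨i₀, j₀, hij⟩ x v hx hpx hpv hxj β
    rw [← hPc]
    set Pr : ℝ := ∏ j, ‖x j‖ ^ (2 * K) with hPr
    have hPr0 : 0 ≤ Pr := by positivity
    have hN : 0 < ‖x‖ := norm_pos_iff.mpr hx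
    have hu : v - β • x ≠ 0 := by
      intro h0
      have h1 : v = β • x := sub_eq_zero.mp h0
      apply hij
      rw [hpv, hpv, hpx, hpx, h1]
      simp only [PiLp.smul_apply, smul_eq_mul]
      ring
    have hU : 0 < ‖v - β • x‖ := norm_pos_iff.mpr hu
    set N := ‖x‖ with hNdef
    set U := ‖v - β • x‖ with hUdef
    obtain ⟨e, he⟩ : ∃ e, B = e + m := ⟨B - m, by omega⟩
    have hBm : B - m = e := by omega
    rw [hBm]
    -- the bound on the circle
    have key : ∀ s : ℂ, ‖(P y Z).eval s‖ * N ^ (B + 2 * τ) ≤ C * Pr * ‖v + (s / 2) • x‖ ^ B := by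
      intro s
      rw [hPe]
      apply hbd y (Z + s • y)
      · have := hW y Z hyZ 1 1 s
        rwa [one_smul, one_smul] at this
      · intro i j hi
        have h1 := hnd i j hi
        rw [dotProduct_add, dotProduct_smul, Pi.add_apply, Pi.smul_apply, smul_eq_mul, smul_eq_mul]
        intro h2
        apply h1
        linear_combination h2
      · exact hx
      · exact hpx
      · intro j
        rw [dotProduct_add, dotProduct_smul, hpv, hpx, PiLp.add_apply, PiLp.smul_apply, smul_eq_mul,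
          smul_eq_mul]
        ring
      · exact hxj
    have hρ : 0 < 2 * U / N := by positivity
    have hNB : 0 < N ^ (B + 2 * τ) := by positivity
    have h1 := t11_cauchy (Polynomial.taylor (-2 * β) (P y Z)) m hρ
      (C := C * Pr * (2 * U) ^ B / N ^ (B + 2 * τ)) (by
        intro z hz
        rw [Polynomial.taylor_eval, le_div_iff₀ hNB]
        refine (key _).trans ?_
        apply mul_le_mul_of_nonneg_left _ (by positivity)
        apply pow_le_pow_left₀ (norm_nonneg _)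
        have h2 : v + ((z + -2 * β) / 2) • x = (v - β • x) + (z / 2) • x := by module
        rw [h2]
        refine (norm_add_le _ _).trans ?_
        rw [norm_smul, norm_div, hz, ← hUdef, ← hNdef]
        have h3 : ‖(2 : ℂ)‖ = 2 := by simp
        rw [h3]
        have h4 : 2 * U / N / 2 * N = U := by field_simp
        rw [h4]
        linarith)
    rw [t11_coeff_comp _ m (hdeg y Z hyZ)] at h1
    have hρm : 0 < (2 * U / N) ^ m := by positivity
    rw [← le_div_iff₀ hρm] at h1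
    calc ‖(P y Z).coeff m‖ * N ^ (e + 2 * τ)
        ≤ (C * Pr * (2 * U) ^ B / N ^ (B + 2 * τ) / (2 * U / N) ^ m) * N ^ (e + 2 * τ) :=
          mul_le_mul_of_nonneg_right h1 (by positivity)
      _ = C * 2 ^ e * Pr * U ^ e := by
          have h5 : N ^ (B + 2 * τ) = N ^ (e + 2 * τ) * N ^ m := by
            rw [he, ← pow_add]
            congr 1
            omega
          have h6 : (2 * U) ^ B = 2 ^ e * U ^ e * (2 * U) ^ m := by
            rw [he, pow_add, mul_pow]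
          rw [h5, h6, div_pow]
          field_simp

end Pool.Agent.Lib.GGL.VG
end

section

/-!
Generic points of the space of one-jets of a curve.
-/

open Filter Topology MvPolynomial Module

namespace Pool.Agent.Lib.GGL.VG

/-- The set of all one-jets with the same projective one-jet as `(y, y')`. -/
def jset {M : ℕ} (y y' : Fin (M + 1) → ℂ) : Set ((Fin (M + 1) → ℂ) × (Fin (M + 1) → ℂ)) :=
  {w | ∃ a b s : ℂ, w = (a • y, b • (y' + s • y))}

lemma jset_smul {M : ℕ} (y y' : Fin (M + 1) → ℂ) {l : ℂ} (hl : l ≠ 0) (μ : ℂ) :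
    jset (l • y) (l • y' + μ • y) = jset y y' := by
  ext w
  constructor
  · rintro ⟨a, b, s, rfl⟩
    refine ⟨a * l, b * l, (μ + s * l) / l, ?_⟩
    ext i
    · simp only [Pi.smul_apply, smul_eq_mul]
      ring
    · simp only [Pi.smul_apply, Pi.add_apply, smul_eq_mul]
      field_simp
      ring
  · rintro ⟨a, b, s, rfl⟩
    refine ⟨a / l, b / l, s - μ / l, ?_⟩
    ext i
    · simp only [Pi.smul_apply, smul_eq_mul]
      field_simp
    · simp only [Pi.smul_apply, Pi.add_apply, smul_eq_mul]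
      field_simp
      ring

lemma jset_transfer {M : ℕ} {Y : ℂ → ℂ → Fin (M + 1) → ℂ} (hY : LiftFamily Y) (z₁ : ℂ) :
    ∀ᶠ z in 𝓝 z₁, jset (Y z z) (deriv (Y z) z) = jset (Y z₁ z) (deriv (Y z₁) z) := by
  obtain ⟨hYan, hY0, hYc⟩ := hY
  filter_upwards [hYc z₁, (hYan z₁).eventually_analyticAt] with z ⟨l, hl1, hl2, hl3⟩ han
  have h1 : Y z z = l z • Y z₁ z := hl3.self_of_nhds
  have h2 : deriv (Y z) z = l z • deriv (Y z₁) z + deriv l z • Y z₁ z := by
    have h3 : Y z =ᶠ[𝓝 z] fun w => l w • Y z₁ w := hl3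
    rw [h3.deriv_eq]
    exact (hl1.differentiableAt.hasDerivAt.smul han.differentiableAt.hasDerivAt).deriv
  rw [h1, h2]
  exact jset_smul _ _ hl2 _

lemma mem_jets_iff {M : ℕ} {Y : ℂ → ℂ → Fin (M + 1) → ℂ}
    {w : (Fin (M + 1) → ℂ) × (Fin (M + 1) → ℂ)} :
    w ∈ jets Y ↔ ∃ z, w ∈ jset (Y z z) (deriv (Y z) z) := Iff.rfl

lemma analyticAt_jet {M : ℕ} {y : ℂ → Fin (M + 1) → ℂ} {z : ℂ} (hy : AnalyticAt ℂ y z)
    (a b s : ℂ) (G : MvPolynomial (Fin (M + 1) ⊕ Fin (M + 1)) ℂ) :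
    AnalyticAt ℂ (fun z => eval (Sum.elim (a • y z) (b • (deriv y z + s • y z))) G) z := by
  have h1 : ∀ i, AnalyticAt ℂ (fun z => y z i) z := fun i => (analyticAt_pi_iff.mp hy) i
  have h2 : ∀ i, AnalyticAt ℂ (fun z => deriv y z i) z :=
    fun i => (analyticAt_pi_iff.mp hy.deriv) i
  have := AnalyticAt.aeval_mvPolynomial (𝕜 := ℂ) (A := ℂ)
    (f := fun z => Sum.elim (a • y z) (b • (deriv y z + s • y z))) (z := z) ?_ G
  · exact this
  · rintro (i | i)
    · exact analyticAt_const.mul (h1 i)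
    · exact analyticAt_const.mul ((h2 i).add (analyticAt_const.mul (h1 i)))

/-- The local dichotomy. -/
lemma jets_local {M : ℕ} {Y : ℂ → ℂ → Fin (M + 1) → ℂ} (hY : LiftFamily Y)
    (G : MvPolynomial (Fin (M + 1) ⊕ Fin (M + 1)) ℂ) (z₁ : ℂ) :
    (∀ᶠ z in 𝓝 z₁, ∀ w ∈ jset (Y z z) (deriv (Y z) z),
      eval (Sum.elim w.1 w.2) G = 0) ∨ (∀ᶠ z in 𝓝[≠] z₁, ¬ ∀ w ∈ jset (Y z z) (deriv (Y z) z),
      eval (Sum.elim w.1 w.2) G = 0) := by
  obtain ⟨ε, hε, hball⟩ := Metric.eventually_nhds_iff_ball.mp (hY.1 z₁).eventually_analyticAt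
  obtain ⟨F, hF⟩ : ∃ F : ℂ → ℂ → ℂ → ℂ → ℂ, F = fun a b s z =>
    eval (Sum.elim (a • Y z₁ z) (b • (deriv (Y z₁) z + s • Y z₁ z))) G := ⟨_, rfl⟩
  have hFv : ∀ a b s z, F a b s z =
      eval (Sum.elim (a • Y z₁ z) (b • (deriv (Y z₁) z + s • Y z₁ z))) G := by
    intro a b s z
    rw [hF]
  have hFan : ∀ a b s z, AnalyticAt ℂ (Y z₁) z → AnalyticAt ℂ (F a b s) z := by
    intro a b s z hz
    rw [hF]
    exact analyticAt_jet hz a b s G
  clear hF
  by_cases h : ∃ a b s : ℂ, ¬ ∀ᶠ z in 𝓝 z₁, F a b s z = 0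
  · right
    obtain ⟨a, b, s, habs⟩ := h
    have h1 := ((hFan a b s z₁ (hY.1 z₁)).eventually_eq_zero_or_eventually_ne_zero
      ).resolve_left habs
    filter_upwards [h1, (jset_transfer hY z₁).filter_mono nhdsWithin_le_nhds] with z hz1 hz2 hz3
    rw [hz2] at hz3
    have h4 : (a • Y z₁ z, b • (deriv (Y z₁) z + s • Y z₁ z)) ∈
        jset (Y z₁ z) (deriv (Y z₁) z) := ⟨a, b, s, rfl⟩
    have h5 := hz3 _ h4
    rw [← hFv a b s z] at h5
    exact hz1 h5
  · left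
    have h' : ∀ a b s : ℂ, ∀ᶠ z in 𝓝 z₁, F a b s z = 0 := by
      intro a b s
      by_contra h1
      exact h ⟨a, b, s, h1⟩
    have h1 : ∀ z ∈ Metric.ball z₁ ε, ∀ a b s : ℂ, F a b s z = 0 := by
      intro z hz a b s
      have h2 : AnalyticOnNhd ℂ (F a b s) (Metric.ball z₁ ε) := fun x hx => hFan a b s x (hball x hx)
      exact h2.eqOn_zero_of_preconnected_of_eventuallyEq_zero
        (convex_ball z₁ ε).isPreconnected (Metric.mem_ball_self hε) (h' a b s) hz
    filter_upwards [Metric.ball_mem_nhds z₁ hε, jset_transfer hY z₁] with z hz1 hz2 w hw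
    rw [hz2] at hw
    obtain ⟨a, b, s, hw⟩ := hw
    have h5 := h1 z hz1 a b s
    rw [hFv] at h5
    rw [hw]
    exact h5

theorem jets_dichotomy {M : ℕ} {Y : ℂ → ℂ → Fin (M + 1) → ℂ} (hY : LiftFamily Y)
    (G : MvPolynomial (Fin (M + 1) ⊕ Fin (M + 1)) ℂ) :
    (∀ w ∈ jets Y, eval (Sum.elim w.1 w.2) G = 0) ∨
      ∀ z₁, ∀ᶠ z in 𝓝[≠] z₁, ∃ a b s : ℂ,
        eval (Sum.elim (a • Y z z) (b • (deriv (Y z) z + s • Y z z))) G ≠ 0 := by
  -- the local dichotomy
  have hloc : ∀ z₁, (∀ᶠ z in 𝓝 z₁, ∀ w ∈ jset (Y z z) (deriv (Y z) z),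
      eval (Sum.elim w.1 w.2) G = 0) ∨ (∀ᶠ z in 𝓝[≠] z₁, ¬ ∀ w ∈ jset (Y z z) (deriv (Y z) z),
      eval (Sum.elim w.1 w.2) G = 0) := fun z₁ => jets_local hY G z₁
  let A : Set ℂ := {z₁ | ∀ᶠ z in 𝓝 z₁, ∀ w ∈ jset (Y z z) (deriv (Y z) z),
      eval (Sum.elim w.1 w.2) G = 0}
  have hAo : IsOpen A := by
    rw [isOpen_iff_mem_nhds]
    intro z₁ hz₁
    exact (eventually_eventually_nhds (x := z₁)).mpr hz₁
  have hAc : IsOpen Aᶜ := by
    rw [isOpen_iff_mem_nhds]
    intro z₁ hz₁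
    have h1 := (hloc z₁).resolve_left hz₁
    rw [eventually_nhdsWithin_iff] at h1
    have h2 := (eventually_eventually_nhds (x := z₁)).mpr h1
    filter_upwards [h2] with z hz hzA
    rcases eq_or_ne z z₁ with rfl | hne
    · exact hz₁ hzA
    · have h3 : ∀ᶠ w in 𝓝 z, w ≠ z₁ := eventually_ne_nhds hne
      obtain ⟨x, hx1, hx2, hx3⟩ := (hz.and (h3.and hzA)).exists
      exact hx1 hx2 hx3
  have hclopen : IsClopen A := ⟨isOpen_compl_iff.mp hAc, hAo⟩
  rcases isClopen_iff.mp hclopen with h | h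
  · right
    intro z₁
    have h1 : z₁ ∉ A := by rw [h]; exact Set.notMem_empty _
    filter_upwards [(hloc z₁).resolve_left h1] with z hz
    push Not at hz
    obtain ⟨w, ⟨a, b, s, rfl⟩, hw⟩ := hz
    exact ⟨a, b, s, hw⟩
  · left
    intro w hw
    obtain ⟨z, hz⟩ := mem_jets_iff.mp hw
    have h1 : z ∈ A := by rw [h]; exact Set.mem_univ _
    exact Eventually.self_of_nhds h1 w hz

theorem mem_jets {M : ℕ} {Y : ℂ → ℂ → Fin (M + 1) → ℂ} (hY : LiftFamily Y) (z₁ : ℂ) :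
    ∀ᶠ z in 𝓝 z₁, ∀ a b s : ℂ, (a • Y z₁ z, b • (deriv (Y z₁) z + s • Y z₁ z)) ∈ jets Y := by
  filter_upwards [jset_transfer hY z₁] with z hz a b s
  rw [mem_jets_iff]
  refine ⟨z, ?_⟩
  rw [hz]
  exact ⟨a, b, s, rfl⟩

/-- A set without accumulation points is countable. -/
lemma countable_of_isolated {S : Set ℂ} (h : ∀ z₁, ∀ᶠ z in 𝓝[≠] z₁, z ∉ S) : S.Countable := by
  have h1 : ∀ z₁, {z | z ≠ z₁ → z ∉ S} ∈ 𝓝 z₁ := fun z₁ =>
    eventually_nhdsWithin_iff.mp (h z₁)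
  obtain ⟨t, ht, hcov⟩ := TopologicalSpace.countable_cover_nhds h1
  refine ht.mono fun z hz => ?_
  have h2 : z ∈ ⋃ x ∈ t, {z | z ≠ x → z ∉ S} := by rw [hcov]; exact Set.mem_univ _
  obtain ⟨x, hx, hzx⟩ := Set.mem_iUnion₂.mp h2
  rcases eq_or_ne z x with rfl | hne
  · exact hx
  · exact absurd hz (hzx hne)

/-- A nonzero entire function has countably many zeros. -/
lemma countable_zeros {F : ℂ → ℂ} (hF : ∀ z, AnalyticAt ℂ F z) (hne : ∃ x, F x ≠ 0) :
    {z | F z = 0}.Countable := by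
  refine countable_of_isolated fun z₁ => ?_
  refine ((hF z₁).eventually_eq_zero_or_eventually_ne_zero).resolve_left fun h => ?_
  obtain ⟨x, hx⟩ := hne
  have h2 : AnalyticOnNhd ℂ F Set.univ := fun z _ => hF z
  exact hx (h2.eqOn_zero_of_preconnected_of_eventuallyEq_zero isPreconnected_univ
    (Set.mem_univ z₁) h (Set.mem_univ x))

/-- A common non-zero of countably many nonzero entire functions. -/
lemma exists_common {ι : Type*} [Countable ι] {F : ι → ℂ → ℂ} (hF : ∀ i z, AnalyticAt ℂ (F i) z)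
    (hne : ∀ i, ∃ x, F i x ≠ 0) : ∃ x, ∀ i, F i x ≠ 0 := by
  have h1 : (⋃ i, {z | F i z = 0}).Countable :=
    Set.countable_iUnion fun i => countable_zeros (hF i) (hne i)
  obtain ⟨x, hx⟩ : ∃ x, x ∉ ⋃ i, {z | F i z = 0} := by
    by_contra h
    push Not at h
    have h2 : (⋃ i, {z | F i z = 0}) = Set.univ := Set.eq_univ_of_forall h
    rw [h2] at h1
    exact not_countable_complex h1
  refine ⟨x, fun i hi => hx ?_⟩
  exact Set.mem_iUnion.mpr ⟨i, hi⟩

lemma analyticAt_eval_comp {σ : Type*} {f : ℂ → σ → ℂ} {z : ℂ}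
    (hf : ∀ i, AnalyticAt ℂ (fun z => f z i) z) (G : MvPolynomial σ ℂ) :
    AnalyticAt ℂ (fun z => eval (f z) G) z :=
  AnalyticAt.aeval_mvPolynomial (𝕜 := ℂ) (A := ℂ) (f := f) (z := z) hf G

/-- A common non-zero `(a, b, s)`. -/
lemma exists_common_three {M : ℕ} {ι : Type*} [Countable ι]
    (G : ι → MvPolynomial (Fin (M + 1) ⊕ Fin (M + 1)) ℂ) (y y' : Fin (M + 1) → ℂ)
    (hne : ∀ i, ∃ a b s : ℂ, eval (Sum.elim (a • y) (b • (y' + s • y))) (G i) ≠ 0) :
    ∃ a b s : ℂ, ∀ i, eval (Sum.elim (a • y) (b • (y' + s • y))) (G i) ≠ 0 := by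
  choose a₀ b₀ s₀ h0 using hne
  obtain ⟨a, ha⟩ := exists_common (F := fun i a =>
    eval (Sum.elim (a • y) (b₀ i • (y' + s₀ i • y))) (G i)) (by
      intro i z
      refine analyticAt_eval_comp ?_ _
      rintro (j | j)
      · exact analyticAt_id.mul analyticAt_const
      · exact analyticAt_const) (fun i => ⟨a₀ i, h0 i⟩)
  obtain ⟨b, hb⟩ := exists_common (F := fun i b =>
    eval (Sum.elim (a • y) (b • (y' + s₀ i • y))) (G i)) (by
      intro i z
      refine analyticAt_eval_comp ?_ _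
      rintro (j | j)
      · exact analyticAt_const
      · exact analyticAt_id.mul analyticAt_const) (fun i => ⟨b₀ i, ha i⟩)
  obtain ⟨s, hs⟩ := exists_common (F := fun i s =>
    eval (Sum.elim (a • y) (b • (y' + s • y))) (G i)) (by
      intro i z
      refine analyticAt_eval_comp ?_ _
      rintro (j | j)
      · exact analyticAt_const
      · exact analyticAt_const.mul (analyticAt_const.add (analyticAt_id.mul analyticAt_const)))
        (fun i => ⟨s₀ i, hb i⟩)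
  exact ⟨a, b, s, hs⟩

theorem exists_generic {M : ℕ} {Y : ℂ → ℂ → Fin (M + 1) → ℂ} (hY : LiftFamily Y)
    (K : Type*) [Field K] [Algebra K ℂ] [Countable K] :
    ∃ w ∈ jets Y, ∀ G : MvPolynomial (Fin (M + 1) ⊕ Fin (M + 1)) K,
      aeval (Sum.elim w.1 w.2) G = 0 → ∀ w' ∈ jets Y, aeval (Sum.elim w'.1 w'.2) G = 0 := by
  have hev : ∀ (x : (Fin (M + 1) ⊕ Fin (M + 1)) → ℂ)
      (G : MvPolynomial (Fin (M + 1) ⊕ Fin (M + 1)) K),
      aeval x G = eval x (MvPolynomial.map (algebraMap K ℂ) G) := by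
    intro x G
    rw [MvPolynomial.eval_map, aeval_def]
  let ι := {G : MvPolynomial (Fin (M + 1) ⊕ Fin (M + 1)) K //
    ¬ ∀ w ∈ jets Y, aeval (Sum.elim w.1 w.2) G = 0}
  have hc : Countable (MvPolynomial (Fin (M + 1) ⊕ Fin (M + 1)) K) := by
    rw [← Cardinal.mk_le_aleph0_iff]
    refine MvPolynomial.cardinalMk_le_max_lift.trans ?_
    simp only [max_le_iff]
    refine ⟨⟨?_, ?_⟩, le_rfl⟩
    · rw [Cardinal.lift_le_aleph0, Cardinal.mk_le_aleph0_iff]
      infer_instance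
    · rw [Cardinal.lift_le_aleph0, Cardinal.mk_le_aleph0_iff]
      infer_instance
  have hι : Countable ι := Subtype.countable
  let G' : ι → MvPolynomial (Fin (M + 1) ⊕ Fin (M + 1)) ℂ := fun i =>
    MvPolynomial.map (algebraMap K ℂ) i.1
  have hdich : ∀ i : ι, ∀ z₁, ∀ᶠ z in 𝓝[≠] z₁, ∃ a b s : ℂ,
        eval (Sum.elim (a • Y z z) (b • (deriv (Y z) z + s • Y z z))) (G' i) ≠ 0 := by
    intro i
    refine (jets_dichotomy hY (G' i)).resolve_left fun h => i.2 fun w hw => ?_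
    rw [hev]
    exact h w hw
  have hcount : (⋃ i : ι, {z | ¬ ∃ a b s : ℂ,
        eval (Sum.elim (a • Y z z) (b • (deriv (Y z) z + s • Y z z))) (G' i) ≠ 0}).Countable := by
    refine Set.countable_iUnion fun i => countable_of_isolated fun z₁ => ?_
    filter_upwards [hdich i z₁] with z hz hz'
    exact hz' hz
  obtain ⟨z₀, hz₀⟩ : ∃ z₀, z₀ ∉ ⋃ i : ι, {z | ¬ ∃ a b s : ℂ,
        eval (Sum.elim (a • Y z z) (b • (deriv (Y z) z + s • Y z z))) (G' i) ≠ 0} := by
    by_contra h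
    rw [not_exists] at h
    rw [Set.eq_univ_of_forall fun z => not_not.mp (h z)] at hcount
    exact not_countable_complex hcount
  have h1 : ∀ i : ι, ∃ a b s : ℂ,
      eval (Sum.elim (a • Y z₀ z₀) (b • (deriv (Y z₀) z₀ + s • Y z₀ z₀))) (G' i) ≠ 0 := by
    intro i
    by_contra h
    exact hz₀ (Set.mem_iUnion.mpr ⟨i, h⟩)
  obtain ⟨a, b, s, habs⟩ := exists_common_three G' (Y z₀ z₀) (deriv (Y z₀) z₀) h1
  refine ⟨(a • Y z₀ z₀, b • (deriv (Y z₀) z₀ + s • Y z₀ z₀)), ⟨z₀, a, b, s, rfl⟩, ?_⟩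
  intro G hG
  by_contra h
  apply habs ⟨G, h⟩
  rw [hev] at hG
  exact hG

end Pool.Agent.Lib.GGL.VG
end

section

/-!
The top coefficient in the direction of the base point, logarithmic version.
-/

open Filter Topology MvPolynomial Module

namespace Pool.Agent.Lib.GGL.SM

open VG

theorem top_coeff_log {q K M A B τ : ℕ} (g : Fin q → ℕ)
    (p : Fin q → Fin (M + 1) → ℂ) {W : Set ((Fin (M + 1) → ℂ) × (Fin (M + 1) → ℂ))}
    (hW : ∀ y Z, (y, Z) ∈ W → ∀ a b s : ℂ, (a • y, b • (Z + s • y)) ∈ W)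
    (Q : MvPolynomial (Fin (M + 1) ⊕ Fin (M + 1)) ℂ)
    (hhom : ∀ (y Z : Fin (M + 1) → ℂ) (a b : ℂ), eval (Sum.elim (a • y) (b • Z)) Q =
      a ^ A * b ^ B * eval (Sum.elim y Z) Q)
    {C : ℝ} (hC : 0 ≤ C) (hbd : ∀ y Z, (y, Z) ∈ W → ∀ i, y i ≠ 0 → ‖y‖ = ‖y i‖ →
      (∀ j, p j ⬝ᵥ y ≠ 0) → (∀ j, (p j ⬝ᵥ Z) * y i - Z i * (p j ⬝ᵥ y) ≠ 0) →
      ∀ μ : ℝ, 0 < μ → ‖Z‖ ≤ 2 * μ * ‖y‖ →
        ‖eval (Sum.elim y Z) Q‖ * ‖y‖ ^ τ ≤ C * μ ^ B * ∏ j, (‖p j ⬝ᵥ y‖ ^ K *
            max 1 (‖(p j ⬝ᵥ Z) / (p j ⬝ᵥ y) - Z i / y i‖ / μ) ^ (K - g j)))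
    (hne : ∃ y Z, (y, Z) ∈ W ∧ eval (Sum.elim y Z) Q ≠ 0) :
    ∃ (e : ℕ) (G : MvPolynomial (Fin (M + 1) ⊕ Fin (M + 1)) ℂ), 
      (∀ y Z, (y, Z) ∈ W → ∀ a s : ℂ, a ≠ 0 → eval (Sum.elim (a • y) (a • Z + s • y)) G =
        a ^ (A + B) * eval (Sum.elim y Z) G) ∧
      (∀ (y Z : Fin (M + 1) → ℂ) (b : ℂ), b ≠ 0 →
        eval (Sum.elim y (b • Z)) G = b ^ e * eval (Sum.elim y Z) G) ∧
      (∃ y Z, (y, Z) ∈ W ∧ eval (Sum.elim y Z) G ≠ 0) ∧
      ∀ y Z, (y, Z) ∈ W → ∀ i, y i ≠ 0 → ‖y‖ = ‖y i‖ →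
        (∀ j, p j ⬝ᵥ y ≠ 0) → (∀ j, (p j ⬝ᵥ Z) * y i - Z i * (p j ⬝ᵥ y) ≠ 0) →
        ∀ δ : ℝ, 0 < δ → ‖Z - (Z i / y i) • y‖ = δ * ‖y‖ →
          ‖eval (Sum.elim y Z) G‖ * ‖y‖ ^ τ ≤ C * δ ^ e * ∏ j, (‖p j ⬝ᵥ y‖ ^ K *
            max 1 (‖(p j ⬝ᵥ Z) / (p j ⬝ᵥ y) - Z i / y i‖ / δ) ^ (K - g j)) := by
  classical
  -- the specialised polynomials
  let P : (Fin (M + 1) → ℂ) → (Fin (M + 1) → ℂ) → Polynomial ℂ :=
    fun y Z => (t11P Q).map (eval (Sum.elim y Z))
  have hPe : ∀ y Z s, (P y Z).eval s = eval (Sum.elim y (Z + s • y)) Q := fun y Z s =>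
    t11P_eval Q y Z s
  have hPc : ∀ y Z i, (P y Z).coeff i = eval (Sum.elim y Z) ((t11P Q).coeff i) := fun y Z i =>
    Polynomial.coeff_map _ _
  -- the top index
  obtain ⟨m, hm1, hm2⟩ : ∃ m : ℕ, (∃ y Z, (y, Z) ∈ W ∧ (P y Z).coeff m ≠ 0) ∧
      ∀ i, m < i → ∀ y Z, (y, Z) ∈ W → (P y Z).coeff i = 0 := by
    let I : Finset ℕ := (Finset.range ((t11P Q).natDegree + 1)).filter
      fun i => ∃ y Z, (y, Z) ∈ W ∧ (P y Z).coeff i ≠ 0
    have hI : I.Nonempty := by
      obtain ⟨y, Z, hyZ, hne⟩ := hne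
      refine ⟨0, Finset.mem_filter.mpr ⟨by simp, y, Z, hyZ, ?_⟩⟩
      rw [Polynomial.coeff_zero_eq_eval_zero, hPe, zero_smul, add_zero]
      exact hne
    refine ⟨I.max' hI, (Finset.mem_filter.mp (I.max'_mem hI)).2, ?_⟩
    intro i hi y Z hyZ
    by_contra h0
    have h1 : i ∈ I := by
      refine Finset.mem_filter.mpr ⟨?_, y, Z, hyZ, h0⟩
      rw [Finset.mem_range]
      by_contra h2
      apply h0
      rw [hPc, Polynomial.coeff_eq_zero_of_natDegree_lt (by omega), map_zero]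
    exact absurd (I.le_max' i h1) (by omega)
  have hdeg : ∀ y Z, (y, Z) ∈ W → (P y Z).natDegree ≤ m := by
    intro y Z hyZ
    rw [Polynomial.natDegree_le_iff_coeff_eq_zero]
    intro i hi
    exact hm2 i hi y Z hyZ
  -- translation
  have htr : ∀ y Z, (y, Z) ∈ W → ∀ c : ℂ, (P y (Z + c • y)).coeff m = (P y Z).coeff m := by
    intro y Z hyZ c
    have h1 : P y (Z + c • y) = Polynomial.taylor c (P y Z) := by
      apply Polynomial.funext
      intro s
      rw [hPe, Polynomial.taylor_eval, hPe]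
      congr 3
      module
    rw [h1]
    exact t11_coeff_comp _ m (hdeg y Z hyZ) c
  -- scaling
  have hsc : ∀ y Z, ∀ a b : ℂ, ∀ i, b ^ i * (P (a • y) (b • Z)).coeff i =
      a ^ (A + i) * b ^ B * (P y Z).coeff i := by
    intro y Z a b i
    have h1 : (P (a • y) (b • Z)).comp (Polynomial.C b * Polynomial.X) =
        Polynomial.C (a ^ A * b ^ B) * (P y Z).comp (Polynomial.C a * Polynomial.X) := by
      apply Polynomial.funext
      intro s
      simp only [Polynomial.eval_comp, Polynomial.eval_mul, Polynomial.eval_C, Polynomial.eval_X]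
      rw [hPe, hPe, ← hhom]
      congr 3
      module
    have h2 := congrArg (fun p => p.coeff i) h1
    simp only [Polynomial.coeff_C_mul, Polynomial.comp_C_mul_X_coeff] at h2
    rw [pow_add]
    linear_combination h2
  have hmB : m ≤ B := by
    by_contra hlt
    obtain ⟨y, Z, hyZ, hG⟩ := hm1
    apply hG
    have h1 : ∀ b : ℂ, b ≠ 0 → b ^ (m - B) * (P y (b • Z)).coeff m = (P y Z).coeff m := by
      intro b hb
      have h2 := hsc y Z 1 b m
      rw [one_smul, one_pow, one_mul] at h2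
      have h3 : b ^ m = b ^ B * b ^ (m - B) := by
        rw [← pow_add]
        congr 1
        omega
      rw [h3, mul_assoc] at h2
      exact mul_left_cancel₀ (pow_ne_zero B hb) h2
    have hcont : Continuous fun b : ℂ => b ^ (m - B) * (P y (b • Z)).coeff m := by
      apply (continuous_pow _).mul
      simp only [hPc]
      have h4 : Continuous fun b : ℂ => (Sum.elim y (b • Z) : Fin (M + 1) ⊕ Fin (M + 1) → ℂ) := by
        apply continuous_pi
        rintro (i | i)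
        · exact continuous_const
        · exact continuous_id.mul continuous_const
      exact (MvPolynomial.continuous_eval ((t11P Q).coeff m)).comp h4
    have h5 := Continuous.ext_on (s := {(0 : ℂ)}ᶜ) (dense_compl_singleton (0 : ℂ)) hcont
      (continuous_const (y := (P y Z).coeff m)) (fun b hb => h1 b hb)
    have h6 := congrFun h5 0
    rw [zero_pow (by omega), zero_mul] at h6
    exact h6.symm
  refine ⟨B - m, (t11P Q).coeff m, ?_, ?_, ?_, ?_⟩
  · intro y Z hyZ a s ha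
    have h1 : (a • y, a • Z) ∈ W := by
      have := hW y Z hyZ a a 0
      rwa [zero_smul, add_zero] at this
    have h2 := htr (a • y) (a • Z) h1 (s / a)
    rw [smul_smul, div_mul_cancel₀ _ ha] at h2
    rw [← hPc, ← hPc, h2]
    have h3 := hsc y Z a a m
    have h4 : a ^ m ≠ 0 := pow_ne_zero m ha
    apply mul_left_cancel₀ h4
    rw [h3, pow_add, pow_add]
    ring
  · intro y Z b hb
    have h2 := hsc y Z 1 b m
    rw [one_smul, one_pow, one_mul] at h2
    have h3 : b ^ B = b ^ m * b ^ (B - m) := by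
      rw [← pow_add]
      congr 1
      omega
    rw [h3, mul_assoc] at h2
    rw [← hPc, ← hPc]
    exact mul_left_cancel₀ (pow_ne_zero m hb) h2
  · obtain ⟨y, Z, hyZ, hG⟩ := hm1
    exact ⟨y, Z, hyZ, by rwa [← hPc]⟩
  · intro y Z hyZ i hyi hyn hpy hnd δ hδ hZδ
    rw [← hPc]
    obtain ⟨κ, hκ⟩ : ∃ κ : ℂ, κ = Z i / y i := ⟨_, rfl⟩
    obtain ⟨Pr, hPr⟩ : ∃ Pr : ℝ, Pr = ∏ j, (‖p j ⬝ᵥ y‖ ^ K *
      max 1 (‖(p j ⬝ᵥ Z) / (p j ⬝ᵥ y) - Z i / y i‖ / δ) ^ (K - g j)) := ⟨_, rfl⟩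
    rw [← hPr]
    rw [← hκ] at hZδ
    have hN : 0 < ‖y‖ := by
      rw [hyn]
      exact norm_pos_iff.mpr hyi
    have hNτ : 0 < ‖y‖ ^ τ := by positivity
    have hδm : 0 < δ ^ m := by positivity
    have hBm : δ ^ B = δ ^ (B - m) * δ ^ m := by
      rw [← pow_add]
      congr 1
      omega
    have h1 := t11_cauchy (Polynomial.taylor (-κ) (P y Z)) m hδ
      (C := C * δ ^ B * Pr / ‖y‖ ^ τ) (by
        intro s hs
        rw [Polynomial.taylor_eval, le_div_iff₀ hNτ, hPe]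
        have h2 : (y, Z + (s + -κ) • y) ∈ W := by
          have := hW y Z hyZ 1 1 (s + -κ)
          rwa [one_smul, one_smul] at this
        have h3 : ∀ j, p j ⬝ᵥ (Z + (s + -κ) • y) = p j ⬝ᵥ Z + (s + -κ) * (p j ⬝ᵥ y) := by
          intro j
          rw [dotProduct_add, dotProduct_smul, smul_eq_mul]
        have h4 : (Z + (s + -κ) • y) i = Z i + (s + -κ) * y i := by
          rw [Pi.add_apply, Pi.smul_apply, smul_eq_mul]
        have h5 := hbd y (Z + (s + -κ) • y) h2 i hyi hyn hpy (by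
          intro j
          rw [h3, h4]
          intro h5
          apply hnd j
          linear_combination h5) δ hδ (by
          have h6 : Z + (s + -κ) • y = (Z - κ • y) + s • y := by module
          rw [h6]
          refine (norm_add_le _ _).trans ?_
          rw [hZδ, norm_smul, hs]
          linarith)
        refine h5.trans (le_of_eq ?_)
        rw [hPr]
        congr 1
        refine Finset.prod_congr rfl fun j _ => ?_
        congr 5
        rw [h3, h4]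
        have h7 := hpy j
        field_simp
        ring)
    rw [t11_coeff_comp _ m (hdeg y Z hyZ)] at h1
    rw [le_div_iff₀ hNτ, hBm] at h1
    have h8 : ‖(P y Z).coeff m‖ * ‖y‖ ^ τ * δ ^ m ≤ C * δ ^ (B - m) * Pr * δ ^ m := by
      calc ‖(P y Z).coeff m‖ * ‖y‖ ^ τ * δ ^ m = ‖(P y Z).coeff m‖ * δ ^ m * ‖y‖ ^ τ := by ring
        _ ≤ _ := h1
        _ = _ := by ring
    exact le_of_mul_le_mul_right h8 hδm

end Pool.Agent.Lib.GGL.SM
end
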