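import Mathlib
import Pool.Agent.Lib.MP_8d161d_ag.VG.VDefs
import Pool.Agent.Lib.MP_8d161d_ag.Mg.G001
import Pool.Agent.Lib.MP_8d161d_ag.Mg.G003
import Pool.Agent.Lib.MP_8d161d_ag.Mg.G002
import Pool.Agent.Lib.MP_8d161d_ag.Cover
import Pool.Agent.Lib.MP_8d161d_ag.Core
import Pool.Agent.Lib.MP_8d161d_ag.Mg.G005
import Pool.Agent.Lib.MP_8d161d_ag.Mg.G006
import Pool.Agent.Lib.MP_8d161d_ag.SM.Defs

section

/-!
The algebraic certificate.
-/

open Filter Topology MvPolynomial Module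

namespace Pool.Agent.Lib.GGL.VG

lemma TrdegLE.of_subfield {K E σ : Type*} [Field K] [Field E] [Algebra K E] {w : σ → E} {D : ℕ}
    (h : TrdegLE K w D) (K₁ : IntermediateField K E) : TrdegLE K₁ w D := by
  intro B hB
  exact h B (hB.restrictScalars (algebraMap K K₁).injective)

lemma dot_ne_zero {K E τ : Type*} [Field K] [Field E] [Algebra K E] {F : Subalgebra K E}
    {ι : Type*} [Fintype ι] {p : τ × ι → E} (hp : AlgebraicIndependent F p) {y : ι → E}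
    (hy : ∀ i, y i ∈ F) (hy0 : y ≠ 0) (j : τ) : ∑ i, p (j, i) * y i ≠ 0 := by
  classical
  intro h0
  apply hy0
  obtain ⟨P, hP⟩ : ∃ P : MvPolynomial (τ × ι) F, P = ∑ i, C (⟨y i, hy i⟩ : F) * X (j, i) :=
    ⟨_, rfl⟩
  have h1 : aeval p P = 0 := by
    rw [hP, map_sum, ← h0]
    refine Finset.sum_congr rfl fun i _ => ?_
    rw [map_mul, aeval_X, aeval_C, mul_comm]
    rfl
  have h2 : P = 0 := (algebraicIndependent_iff.mp hp) P h1
  funext i
  have h3 := congrArg (coeff (Finsupp.single (j, i) 1)) h2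
  rw [hP, coeff_sum, Finset.sum_eq_single i] at h3
  · rw [coeff_C_mul, coeff_X, if_pos rfl, mul_one, coeff_zero] at h3
    exact congrArg Subtype.val h3
  · intro k _ hk
    rw [coeff_C_mul, coeff_X, if_neg, mul_zero]
    intro h4
    have h5 := Finsupp.single_left_injective (one_ne_zero) h4
    exact hk (Prod.ext_iff.mp h5).2
  · intro h
    exact absurd (Finset.mem_univ _) h

/-- the linear forms in the parameter space -/
noncomputable def lR (K : Type*) [Field K] {q M : ℕ} (j : Fin q) :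
    MvPolynomial ((Fin q × Fin (M + 1)) ⊕ (Fin (M + 1) ⊕ Fin (M + 1))) K :=
  ∑ i, X (Sum.inl (j, i)) * X (Sum.inr (Sum.inl i))

/-- the derivatives of the linear forms in the parameter space -/
noncomputable def bR (K : Type*) [Field K] {q M : ℕ} (j : Fin q) :
    MvPolynomial ((Fin q × Fin (M + 1)) ⊕ (Fin (M + 1) ⊕ Fin (M + 1))) K :=
  ∑ i, X (Sum.inl (j, i)) * X (Sum.inr (Sum.inr i))

lemma aeval_lR {K : Type*} [Field K] [Algebra K ℂ] {q M : ℕ} (p : Fin q → Fin (M + 1) → ℂ)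
    (y Z : Fin (M + 1) → ℂ) (j : Fin q) : aeval (pt p y Z) (lR K j) = p j ⬝ᵥ y := by
  simp [lR, pt, dotProduct]

lemma aeval_bR {K : Type*} [Field K] [Algebra K ℂ] {q M : ℕ} (p : Fin q → Fin (M + 1) → ℂ)
    (y Z : Fin (M + 1) → ℂ) (j : Fin q) : aeval (pt p y Z) (bR K j) = p j ⬝ᵥ Z := by
  simp [bR, pt, dotProduct]

lemma growth_bound {K₁ E σ : Type*} [Field K₁] [Field E] [Algebra K₁ E] [Finite σ]
    {y Z : σ → E} {D : ℕ} (h : TrdegLE K₁ (Sum.elim y Z) D) :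
    ∃ C : ℕ, ∀ r : ℕ, finrank K₁ ((Submodule.span K₁ (Set.range y)) ^ r *
      (Submodule.span K₁ (Set.range Z)) ^ r : Submodule K₁ E) ≤ C * (r + 1) ^ D := by
  obtain ⟨C, hC⟩ := hilb h
  refine ⟨C * 2 ^ D, fun r => ?_⟩
  obtain ⟨S, hS⟩ : ∃ S : Submodule K₁ E,
    S = Submodule.span K₁ (insert 1 (Set.range (Sum.elim y Z))) := ⟨_, rfl⟩
  have hfg : ∀ n, (S ^ n).FG := by
    intro n
    apply Submodule.FG.pow
    rw [hS]
    exact Submodule.fg_span ((Set.finite_range _).insert 1)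
  have h1 : Submodule.span K₁ (Set.range y) ≤ S := by
    rw [hS]
    apply Submodule.span_mono
    rintro _ ⟨i, rfl⟩
    exact Set.mem_insert_of_mem _ ⟨Sum.inl i, rfl⟩
  have h2 : Submodule.span K₁ (Set.range Z) ≤ S := by
    rw [hS]
    apply Submodule.span_mono
    rintro _ ⟨i, rfl⟩
    exact Set.mem_insert_of_mem _ ⟨Sum.inr i, rfl⟩
  have h3 : (Submodule.span K₁ (Set.range y)) ^ r * (Submodule.span K₁ (Set.range Z)) ^ r ≤
      S ^ (2 * r) := by
    rw [two_mul, pow_add]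
    exact mul_le_mul' (pow_le_pow_left' h1 r) (pow_le_pow_left' h2 r)
  have h4 : Module.Finite K₁ (S ^ (2 * r) : Submodule K₁ E) :=
    Module.Finite.iff_fg.mpr (hfg _)
  calc _ ≤ finrank K₁ (S ^ (2 * r) : Submodule K₁ E) := Submodule.finrank_mono h3
    _ ≤ C * (2 * r + 1) ^ D := by rw [hS]; exact hC _
    _ ≤ C * (2 * (r + 1)) ^ D := by gcongr; omega
    _ = C * 2 ^ D * (r + 1) ^ D := by rw [mul_pow]; ring

lemma lead_smul {A : Type*} [CommRing A] {q k : ℕ} (K : ℕ) (g : Fin q → ℕ) (l b : Fin q → A)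
    (c : (Fin q → Fin (k + 1)) → A) (d : A) :
    lead K g l b (fun γ => d * c γ) = d * lead K g l b c := by
  rw [lead, lead, Finset.mul_sum]
  refine Finset.sum_congr rfl fun γ _ => ?_
  ring

lemma sum_half_ge {q k : ℕ} (γ : Fin q → Fin (k + 1)) :
    ∑ j, (γ j : ℕ) ≤ 2 * (∑ j, (γ j : ℕ) / 2) + q := by
  calc ∑ j, (γ j : ℕ) ≤ ∑ j, (2 * ((γ j : ℕ) / 2) + 1) := Finset.sum_le_sum fun j _ => by omega
    _ = 2 * (∑ j, (γ j : ℕ) / 2) + q := by
      rw [Finset.sum_add_distrib, ← Finset.mul_sum]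
      simp

lemma Good.transfer {K : Type*} [Field K] [Algebra K ℂ] {q M k K₀ : ℕ}
    {p p' : Fin q → Fin (M + 1) → ℂ} {y₀ Z₀ y Z : Fin (M + 1) → ℂ}
    (h : ∀ P : MvPolynomial ((Fin q × Fin (M + 1)) ⊕ (Fin (M + 1) ⊕ Fin (M + 1))) K,
      aeval (pt p y₀ Z₀) P = 0 → aeval (pt p' y Z) P = 0) {g : Fin q → ℕ}
    {Q : (Fin q → Fin (k + 1)) →
      MvPolynomial ((Fin q × Fin (M + 1)) ⊕ (Fin (M + 1) ⊕ Fin (M + 1))) K}
    {c₀ : (Fin q → Fin (k + 1)) → ℂ} (hQ : ∀ γ, aeval (pt p y₀ Z₀) (Q γ) = c₀ γ)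
    (hg : Good K₀ q g (fun j => p j ⬝ᵥ y₀) (fun j => p j ⬝ᵥ Z₀) c₀) :
    Good K₀ q g (fun j => p' j ⬝ᵥ y) (fun j => p' j ⬝ᵥ Z)
      (fun γ => eval (pt p' y Z) (MvPolynomial.map (algebraMap K ℂ) (Q γ))) := by
  obtain ⟨φ, hφ⟩ : ∃ φ : MvPolynomial ((Fin q × Fin (M + 1)) ⊕ (Fin (M + 1) ⊕ Fin (M + 1))) K →+* ℂ,
    ∀ P, φ P = aeval (pt p y₀ Z₀) P := ⟨(aeval (pt p y₀ Z₀)).toRingHom, fun P => rfl⟩
  obtain ⟨ψ, hψ⟩ : ∃ ψ : MvPolynomial ((Fin q × Fin (M + 1)) ⊕ (Fin (M + 1) ⊕ Fin (M + 1))) K →+* ℂ,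
    ∀ P, ψ P = aeval (pt p' y Z) P := ⟨(aeval (pt p' y Z)).toRingHom, fun P => rfl⟩
  have h1 := Good.map φ ψ (fun a ha => by rw [hψ]; rw [hφ] at ha; exact h a ha)
    (K := K₀) (g := g) (l := lR K) (b := bR K) (c := Q) (by
      have h3 : (fun j => φ (lR K j)) = fun j => p j ⬝ᵥ y₀ :=
        funext fun j => by rw [hφ]; exact aeval_lR p y₀ Z₀ j
      have h4 : (fun j => φ (bR K j)) = fun j => p j ⬝ᵥ Z₀ :=
        funext fun j => by rw [hφ]; exact aeval_bR p y₀ Z₀ j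
      have h5 : (fun γ => φ (Q γ)) = c₀ := funext fun γ => by rw [hφ]; exact hQ γ
      rw [h3, h4, h5]
      exact hg)
  have h3 : (fun j => ψ (lR K j)) = fun j => p' j ⬝ᵥ y :=
    funext fun j => by rw [hψ]; exact aeval_lR p' y Z j
  have h4 : (fun j => ψ (bR K j)) = fun j => p' j ⬝ᵥ Z :=
    funext fun j => by rw [hψ]; exact aeval_bR p' y Z j
  have h5 : (fun γ => ψ (Q γ)) =
      fun γ => eval (pt p' y Z) (MvPolynomial.map (algebraMap K ℂ) (Q γ)) :=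
    funext fun γ => by rw [hψ, eval_map, aeval_def]
  rw [h3, h4, h5] at h1
  exact h1

lemma exists_family' {K E : Type*} [Field K] [Field E] [Algebra K E] {q D C : ℕ}
    (hD : 1 ≤ D) (hq : 182 ^ (D + 1) * 10 ^ q ≤ 17 ^ q)
    {U₁ U₂ : Submodule K E} (h₁ : U₁.FG) (h₂ : U₂.FG) (h₁0 : U₁ ≠ ⊥) (h₂0 : U₂ ≠ ⊥)
    (hC : ∀ r, finrank K (U₁ ^ r * U₂ ^ r : Submodule K E) ≤ C * (r + 1) ^ D)
    {l b : Fin q → E} (hl : ∀ j, l j ∈ U₁) (hb : ∀ j, b j ∈ U₂) :
    ∃ r i K₀ m : ℕ, K₀ = 180 * r ∧ m = i * q * r ∧ 1 ≤ r ∧ i ≤ 180 ∧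
      ∃ c : (Fin q → Fin (2 * K₀ + 1)) → E, c ≠ 0 ∧
      (∀ β, c β ≠ 0 → 2 * m ≤ ∑ j, (β j : ℕ) ∧ ∑ j, (β j : ℕ) < 2 * m + 2 * (q * r)) ∧
      (∀ β, c β ∈ U₁ ^ (∑ j, (β j : ℕ) / 2 + 2 * (q * r) + q - m) *
        U₂ ^ (2 * m + 4 * (q * r) - ∑ j, (β j : ℕ))) ∧
      ∀ f : Fin q → ℕ, ∑ j, f j ≤ m + 6 * (q * r) + q → lead K₀ f l b c = 0 := by
  obtain ⟨r, i, hr, hi, c, h1, h2, h3, h4⟩ := exists_family hD hq h₁ h₂ h₁0 h₂0 hC hl hb
  have e1 : (i + 6) * q * r = i * q * r + 6 * (q * r) := by ring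
  have e2 : 2 * (i + 1) * q * r = 2 * (i * q * r) + 2 * (q * r) := by ring
  have e3 : 2 * (i + 2) * q * r = 2 * (i * q * r) + 4 * (q * r) := by ring
  have e5 : 2 * i * q * r = 2 * (i * q * r) := by ring
  have e6 : 2 * q * r = 2 * (q * r) := by ring
  rw [e1] at h4
  rw [e3, e6] at h3
  rw [e2, e5] at h2
  exact ⟨r, i, _, _, rfl, rfl, hr, hi, c, h1, h2, h3, h4⟩

theorem exists_certificate {K : Type*} [Field K] [Algebra K ℂ] {q D M : ℕ} (hD : 1 ≤ D)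
    (hq : 182 ^ (D + 1) * 10 ^ q ≤ 17 ^ q) {p : Fin q → Fin (M + 1) → ℂ}
    {w : (Fin (M + 1) → ℂ) × (Fin (M + 1) → ℂ)} (hw1 : w.1 ≠ 0) (hw2 : w.2 ≠ 0)
    (htr : TrdegLE K (Sum.elim w.1 w.2) D) {F : Subalgebra K ℂ} (hF1 : ∀ i, w.1 i ∈ F)
    (hF2 : ∀ i, w.2 i ∈ F)
    (hp : AlgebraicIndependent F (fun x : Fin q × Fin (M + 1) => p x.1 x.2)) :
    ∃ (K₀ A B τ : ℕ) (c : (Fin q → Fin (2 * K₀ + 1)) →
      MvPolynomial ((Fin q × Fin (M + 1)) ⊕ (Fin (M + 1) ⊕ Fin (M + 1))) ℂ) (g : Fin q → ℕ),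
      1 ≤ τ ∧ q * K₀ = A + B + τ ∧
      (∀ y Z : Fin (M + 1) → ℂ, (∀ G : MvPolynomial (Fin (M + 1) ⊕ Fin (M + 1)) K,
        aeval (Sum.elim w.1 w.2) G = 0 → aeval (Sum.elim y Z) G = 0) →
        ∀ p' : Fin q → Fin (M + 1) → ℂ, Good K₀ q g (fun j => p' j ⬝ᵥ y) (fun j => p' j ⬝ᵥ Z)
          (fun γ => eval (pt p' y Z) (c γ))) ∧
      (∀ (y Z : Fin (M + 1) → ℂ) (a b : ℂ),
        lead K₀ g (fun j => p j ⬝ᵥ (a • y)) (fun j => p j ⬝ᵥ (b • Z))
          (fun γ => eval (pt p (a • y) (b • Z)) (c γ)) = a ^ A * b ^ B *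
        lead K₀ g (fun j => p j ⬝ᵥ y) (fun j => p j ⬝ᵥ Z) (fun γ => eval (pt p y Z) (c γ))) ∧
      lead K₀ g (fun j => p j ⬝ᵥ w.1) (fun j => p j ⬝ᵥ w.2)
        (fun γ => eval (pt p w.1 w.2) (c γ)) ≠ 0 := by
  classical
  obtain ⟨p₀, hp₀⟩ : ∃ p₀ : Fin q × Fin (M + 1) → ℂ, p₀ = fun x => p x.1 x.2 := ⟨_, rfl⟩
  rw [← hp₀] at hp
  have htr1 := htr.of_subfield (IntermediateField.adjoin K (Set.range p₀))
  obtain ⟨C₁, hC₁⟩ := growth_bound htr1
  obtain ⟨U₁, hU₁⟩ : ∃ U₁ : Submodule (IntermediateField.adjoin K (Set.range p₀)) ℂ,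
    U₁ = Submodule.span _ (Set.range w.1) := ⟨_, rfl⟩
  obtain ⟨U₂, hU₂⟩ : ∃ U₂ : Submodule (IntermediateField.adjoin K (Set.range p₀)) ℂ,
    U₂ = Submodule.span _ (Set.range w.2) := ⟨_, rfl⟩
  have hne : ∀ {v : Fin (M + 1) → ℂ}, v ≠ 0 → ∀ {U : Submodule
      (IntermediateField.adjoin K (Set.range p₀)) ℂ}, U = Submodule.span _ (Set.range v) →
      U ≠ ⊥ := by
    intro v hv U hU h0
    apply hv
    funext i
    rw [hU, Submodule.span_eq_bot] at h0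
    exact h0 _ ⟨i, rfl⟩
  have hmem : ∀ {v : Fin (M + 1) → ℂ} {U : Submodule
      (IntermediateField.adjoin K (Set.range p₀)) ℂ}, U = Submodule.span _ (Set.range v) →
      ∀ j, p j ⬝ᵥ v ∈ U := by
    intro v U hU j
    rw [hU, dotProduct]
    refine Submodule.sum_mem _ fun i _ => ?_
    have h1 : p j i ∈ IntermediateField.adjoin K (Set.range p₀) :=
      IntermediateField.subset_adjoin K _ ⟨(j, i), by rw [hp₀]⟩
    exact Submodule.smul_mem _ (⟨p j i, h1⟩ : IntermediateField.adjoin K (Set.range p₀))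
      (Submodule.subset_span ⟨i, rfl⟩)
  obtain ⟨r, i₀, K₀, m, hK₀, hm, hr, hi₀, c, hc0, hcs, hcm, hcv⟩ :=
    exists_family' (U₁ := U₁) (U₂ := U₂) hD hq
    (by rw [hU₁]; exact Submodule.fg_span (Set.finite_range _))
    (by rw [hU₂]; exact Submodule.fg_span (Set.finite_range _))
    (hne hw1 hU₁) (hne hw2 hU₂) (by rw [hU₁, hU₂]; exact hC₁)
    (hmem hU₁) (hmem hU₂)
  rw [hU₁, hU₂] at hcm
  obtain ⟨d, Q, hd, hQ⟩ := clear (K := K) p₀ w.1 w.2 _ _ c hcm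
  obtain ⟨Q', hQ'⟩ : ∃ Q' : (Fin q → Fin (2 * K₀ + 1)) →
      MvPolynomial ((Fin q × Fin (M + 1)) ⊕ (Fin (M + 1) ⊕ Fin (M + 1))) K,
      Q' = fun γ => if c γ = 0 then 0 else Q γ := ⟨_, rfl⟩
  have hQ'w : ∀ γ, aeval (pt p w.1 w.2) (Q' γ) = d * c γ := by
    intro γ
    rw [hQ']
    by_cases h : c γ = 0
    · simp [h]
    · simp only [h, if_false]
      have h1 := (hQ γ).2
      rw [hp₀] at h1
      exact h1
  have hl : ∀ j, p j ⬝ᵥ w.1 ≠ 0 := by
    intro j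
    have h1 := dot_ne_zero hp hF1 hw1 j
    rw [hp₀] at h1
    exact h1
  have hdc : (fun γ => d * c γ) ≠ 0 := by
    obtain ⟨γ, hγ⟩ := Function.ne_iff.mp hc0
    exact Function.ne_iff.mpr ⟨γ, mul_ne_zero hd hγ⟩
  obtain ⟨g, hg1, hg2⟩ := exists_good K₀ hl (fun j => p j ⬝ᵥ w.2) hdc
  -- the size of the exponent
  have hgT : m + 6 * (q * r) + q < ∑ j, g j := by
    by_contra hcon
    push Not at hcon
    apply hg2
    rw [lead_smul, hcv g hcon, mul_zero]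
  obtain ⟨β, hβ1, hβ2⟩ : ∃ β, c β ≠ 0 ∧ ∀ j, g j ≤ (β j : ℕ) := by
    rw [lead_smul] at hg2
    have h1 : lead K₀ g (fun j => p j ⬝ᵥ w.1) (fun j => p j ⬝ᵥ w.2) c ≠ 0 :=
      right_ne_zero_of_mul hg2
    obtain ⟨β, -, hβ⟩ := Finset.exists_ne_zero_of_sum_ne_zero h1
    refine ⟨β, left_ne_zero_of_mul hβ, fun j => ?_⟩
    by_contra hcon
    push Not at hcon
    apply right_ne_zero_of_mul hβ
    apply Finset.prod_eq_zero (Finset.mem_univ j)
    rw [Nat.choose_eq_zero_of_lt hcon]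
    simp
  have hgβ : ∑ j, g j < 2 * m + 2 * (q * r) :=
    lt_of_le_of_lt (Finset.sum_le_sum fun j _ => hβ2 j) (hcs β hβ1).2
  obtain ⟨qr, hqr⟩ : ∃ qr, qr = q * r := ⟨_, rfl⟩
  have e4 : m ≤ 180 * qr := by
    rw [hm, mul_assoc, hqr]
    gcongr
  have e6 : q * K₀ = 180 * qr := by
    rw [hK₀, hqr]
    ring
  rw [← hqr] at hcs hcm hcv hgT hgβ hQ
  clear hK₀ hm hqr
  refine ⟨K₀, 182 * qr + q - m, 2 * m + 4 * qr - ∑ j, g j,
    ∑ j, g j - (m + 6 * qr + q), fun γ => MvPolynomial.map (algebraMap K ℂ) (Q' γ), g,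
    by omega, ?_, ?_, ?_, ?_⟩
  · rw [e6]
    omega
  · intro y Z hyZ p'
    have h1 : ∀ P : MvPolynomial ((Fin q × Fin (M + 1)) ⊕ (Fin (M + 1) ⊕ Fin (M + 1))) K,
        aeval (pt p w.1 w.2) P = 0 → aeval (pt p' y Z) P = 0 := by
      intro P hP
      refine VG.transfer (F := F) (p := p₀) (w := Sum.elim w.1 w.2) ?_ hp ?_ hyZ _
      · rintro (i | i)
        · exact hF1 i
        · exact hF2 i
      · rw [hp₀]
        exact hP
    exact Good.transfer h1 hQ'w hg1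
  · intro y Z a b
    rw [lead, lead, Finset.mul_sum]
    refine Finset.sum_congr rfl fun γ _ => ?_
    by_cases hcγ : c γ = 0
    · rw [hQ']
      simp [hcγ]
    · by_cases hle : ∀ j, g j ≤ (γ j : ℕ)
      · have h1 := (hQ γ).1.aeval p₀ y Z a b
        have h2 : Q' γ = Q γ := by rw [hQ']; simp only [hcγ, if_false]
        have h3 : ∀ y Z : Fin (M + 1) → ℂ, eval (pt p y Z)
            (MvPolynomial.map (algebraMap K ℂ) (Q' γ)) =
            aeval (Sum.elim p₀ (Sum.elim y Z)) (Q γ) := by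
          intro y Z
          rw [h2, eval_map, aeval_def, hp₀]
          rfl
        rw [h3, h3, h1]
        have h4 : ∀ j, ((((γ j : ℕ).choose (g j) : ℕ) : ℂ) * (p j ⬝ᵥ (b • Z)) ^ ((γ j : ℕ) - g j) *
            (p j ⬝ᵥ (a • y)) ^ (K₀ - (γ j : ℕ) / 2)) =
            (b ^ ((γ j : ℕ) - g j) * a ^ (K₀ - (γ j : ℕ) / 2)) *
            ((((γ j : ℕ).choose (g j) : ℕ) : ℂ) * (p j ⬝ᵥ Z) ^ ((γ j : ℕ) - g j) *
            (p j ⬝ᵥ y) ^ (K₀ - (γ j : ℕ) / 2)) := by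
          intro j
          rw [dotProduct_smul, dotProduct_smul, smul_eq_mul, smul_eq_mul, mul_pow, mul_pow]
          ring
        rw [Finset.prod_congr rfl fun j _ => h4 j, Finset.prod_mul_distrib,
          Finset.prod_mul_distrib, Finset.prod_pow_eq_pow_sum, Finset.prod_pow_eq_pow_sum]
        have h5 : ∑ j, ((γ j : ℕ) - g j) + ∑ j, g j = ∑ j, (γ j : ℕ) := by
          rw [← Finset.sum_add_distrib]
          exact Finset.sum_congr rfl fun j _ => Nat.sub_add_cancel (hle j)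
        have h6 : ∑ j, (K₀ - (γ j : ℕ) / 2) + ∑ j, (γ j : ℕ) / 2 = 180 * qr := by
          rw [← Finset.sum_add_distrib]
          calc _ = ∑ _j : Fin q, K₀ := Finset.sum_congr rfl fun j _ => by
                have := (γ j).2
                omega
            _ = q * K₀ := by simp
            _ = _ := e6
        have h7 := hcs γ hcγ
        have h8 := sum_half_ge γ
        have h9 : ∑ j, (γ j : ℕ) / 2 + 2 * qr + q - m +
            ∑ j, (K₀ - (γ j : ℕ) / 2) = 182 * qr + q - m := by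
          omega
        have h10 : 2 * m + 4 * qr - ∑ j, (γ j : ℕ) + ∑ j, ((γ j : ℕ) - g j) =
            2 * m + 4 * qr - ∑ j, g j := by
          omega
        rw [← h9, ← h10, pow_add, pow_add]
        ring
      · push Not at hle
        obtain ⟨j, hj⟩ := hle
        rw [Finset.prod_eq_zero (Finset.mem_univ j), Finset.prod_eq_zero (Finset.mem_univ j)]
        · ring
        · rw [Nat.choose_eq_zero_of_lt hj]; simp
        · rw [Nat.choose_eq_zero_of_lt hj]; simp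
  · have h1 : (fun γ => eval (pt p w.1 w.2) (MvPolynomial.map (algebraMap K ℂ) (Q' γ))) =
        fun γ => d * c γ := by
      funext γ
      rw [eval_map, ← aeval_def]
      exact hQ'w γ
    rw [h1]
    exact hg2

end Pool.Agent.Lib.GGL.VG
end

section

/-!
The algebraic certificate at the generic point of a variety over `ℂ`.
-/

open Filter Topology MvPolynomial Module

namespace Pool.Agent.Lib.GGL.VG

lemma aeval_eq_eval' {σ : Type*} (x : σ → ℂ) (P : MvPolynomial σ ℂ) : aeval x P = eval x P := rfl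

lemma trdeg_of_rel {K E ι : Type*} [Field K] [Field E] [CharZero E] [Algebra K E] [Fintype ι]
    {y Z : ι → E} {D : ℕ}
    (hrel : ∀ G : MvPolynomial ι K, aeval y G = 0 → t14D y Z G = 0)
    (hD : TrdegLE K y D) : TrdegLE K (Sum.elim y Z) (2 * D) := by
  classical
  -- the matroid
  let Mt := AlgebraicIndependent.matroid K E
  obtain ⟨X₀, hX₀⟩ := Mt.exists_isBasis (Set.range y) (Set.subset_univ _)
  have hX₀' := AlgebraicIndependent.matroid_isBasis_iff.mp hX₀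
  have hX₀fin : X₀ ⊆ Set.range y := hX₀.subset
  -- indices
  obtain ⟨B, hBinj, hBX⟩ : ∃ B : Finset (ι), Set.InjOn y B ∧
      y '' (B : Set (ι)) = X₀ := by
    obtain ⟨B', hB'1, hB'2⟩ := Set.exists_image_eq_injOn_of_subset_range hX₀fin
    refine ⟨B'.toFinset, ?_, ?_⟩
    · rwa [Set.coe_toFinset]
    · rwa [Set.coe_toFinset]
  have hrange : Set.range (fun b : B => y b) = X₀ := by
    rw [← hBX]
    ext x
    simp
  have hBind : AlgebraicIndependent K (fun b : B => y b) := by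
    have h1 : AlgebraicIndepOn K id X₀ := AlgebraicIndependent.matroid_indep_iff.mp hX₀.indep
    have h2 := h1.comp (fun b : B => (⟨y b, by rw [← hrange]; exact ⟨b, rfl⟩⟩ : X₀)) (by
      intro b b' hbb'
      have h3 : y b = y b' := congrArg Subtype.val hbb'
      exact Subtype.ext (hBinj b.2 b'.2 h3))
    exact h2
  have hBcard : B.card ≤ D := hD B hBind
  -- the closure
  obtain ⟨T, hT⟩ : ∃ T : Set E, T = y '' (B : Set (ι)) ∪ Z '' (B : Set (ι)) :=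
    ⟨_, rfl⟩
  let F : Subalgebra K E := (Subalgebra.algebraicClosure (Algebra.adjoin K T) E).restrictScalars K
  have hFcl : (F : Set E) = Mt.closure T := by
    rw [AlgebraicIndependent.matroid_closure_eq]
    rfl
  have hTF : T ⊆ F := by
    rw [hFcl]
    exact Mt.subset_closure T (Set.subset_univ _)
  have hFinv : ∀ x ∈ F, x⁻¹ ∈ F := by
    intro x hx
    have h1 : IsAlgebraic (Algebra.adjoin K T) x := hx
    exact h1.inv
  have hyF : ∀ i, y i ∈ F := by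
    intro i
    have h1 : y i ∈ Mt.closure X₀ :=
      hX₀.subset_closure ⟨i, rfl⟩
    have h2 : Mt.closure X₀ ⊆ Mt.closure T := by
      apply Mt.closure_subset_closure
      rw [← hBX, hT]
      exact Set.subset_union_left
    have h3 := h2 h1
    rw [← hFcl] at h3
    exact h3
  have hZF : ∀ i, Z i ∈ F := by
    intro i
    apply t14_implicit hrel B i F hFinv (fun j _ => hyF j) _ (hyF i)
    · rw [hrange]
      exact hX₀'.2.2 (y i) ⟨i, rfl⟩
    · intro j hj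
      apply hTF
      rw [hT]
      exact Or.inr ⟨j, hj, rfl⟩
  intro C hC
  have hCinj : Function.Injective (fun c : C => Sum.elim y Z c) := hC.injective
  have h1 : Mt.Indep (Set.range (fun c : C => Sum.elim y Z c)) := by
    rw [AlgebraicIndependent.matroid_indep_iff]
    exact hC.to_subtype_range
  have h2 : (C.card : ℕ∞) = (Set.range (fun c : C => Sum.elim y Z c)).encard := by
    rw [← Set.image_univ, hCinj.encard_image, Set.encard_univ, ENat.card_eq_coe_fintype_card,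
      Fintype.card_coe]
  have h3 : Set.range (fun c : C => Sum.elim y Z c) ⊆ Mt.closure T := by
    rw [← hFcl]
    rintro x ⟨⟨c, hc⟩, rfl⟩
    rcases c with c | c
    · exact hyF c
    · exact hZF c
  have h4 : (C.card : ℕ∞) ≤ ((2 * D : ℕ) : ℕ∞) := by
    calc (C.card : ℕ∞) = (Set.range (fun c : C => Sum.elim y Z c)).encard := h2
      _ ≤ Mt.eRk (Mt.closure T) := h1.encard_le_eRk_of_subset h3
      _ = Mt.eRk T := Mt.eRk_closure_eq T
      _ ≤ T.encard := Mt.eRk_le_encard T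
      _ ≤ (y '' (B : Set (ι))).encard + (Z '' (B : Set (ι))).encard := by
        rw [hT]
        exact Set.encard_union_le _ _
      _ ≤ (B : Set (ι)).encard + (B : Set (ι)).encard :=
        add_le_add (Set.encard_image_le _ _) (Set.encard_image_le _ _)
      _ = ((B.card + B.card : ℕ) : ℕ∞) := by
        rw [Set.encard_coe_eq_coe_finsetCard]
        push_cast
        rfl
      _ ≤ ((2 * D : ℕ) : ℕ∞) := by
        exact_mod_cast (by omega : B.card + B.card ≤ 2 * D)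
  exact_mod_cast h4

lemma TrdegLE.specialize' {K E E' σ : Type*} [Field K] [Field E] [Algebra K E] [Field E']
    [Algebra K E'] {w : σ → E} {w' : σ → E'} {D : ℕ}
    (h : TrdegLE K w D) (hw : ∀ G : MvPolynomial σ K, aeval w G = 0 → aeval w' G = 0) :
    TrdegLE K w' D := by
  intro B hB
  apply h B
  rw [algebraicIndependent_iff] at hB ⊢
  intro P hP
  apply hB
  have h1 : aeval w (rename (fun b : B => (b : σ)) P) = 0 := by
    rw [aeval_rename]
    exact hP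
  have h2 := hw _ h1
  rw [aeval_rename] at h2
  exact h2

theorem transfer' {K E E' τ σ : Type*} [Field K] [Field E] [Algebra K E] [Field E']
    [Algebra K E'] {w : σ → E} {p : τ → E}
    {F : Subalgebra K E} (hw : ∀ i, w i ∈ F) (hp : AlgebraicIndependent F p)
    {Q : MvPolynomial (τ ⊕ σ) K} (hQ : aeval (Sum.elim p w) Q = 0) {w' : σ → E'}
    (hw' : ∀ G : MvPolynomial σ K, aeval w G = 0 → aeval w' G = 0) (p' : τ → E') :
    aeval (Sum.elim p' w') Q = 0 := by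
  obtain ⟨w₀, hw₀⟩ : ∃ w₀ : σ → F, ∀ i, (w₀ i : E) = w i := ⟨fun i => ⟨w i, hw i⟩, fun i => rfl⟩
  obtain ⟨Q', hQ'⟩ : ∃ Q' : MvPolynomial τ (MvPolynomial σ K), Q' = sumAlgEquiv K τ σ Q := ⟨_, rfl⟩
  obtain ⟨P₀, hP₀⟩ : ∃ P₀ : MvPolynomial τ F, P₀ =
    MvPolynomial.map (aeval w₀ : MvPolynomial σ K →ₐ[K] F).toRingHom Q' := ⟨_, rfl⟩
  have hcoe : ∀ G : MvPolynomial σ K, ((aeval w₀ G : F) : E) = aeval w G := by
    intro G
    have h1 : (F.val.comp (aeval w₀ : MvPolynomial σ K →ₐ[K] F)) =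
        (aeval w : MvPolynomial σ K →ₐ[K] E) := by
      apply MvPolynomial.algHom_ext
      intro i
      simp [hw₀]
    exact congrArg (fun f => f G) (DFunLike.coe_injective.eq_iff.mpr h1)
  have h1 : MvPolynomial.map (algebraMap F E) P₀ =
      MvPolynomial.map (aeval w : MvPolynomial σ K →ₐ[K] E).toRingHom Q' := by
    rw [hP₀, MvPolynomial.map_map]
    ext m
    rw [coeff_map, coeff_map]
    exact hcoe _
  have h2 : aeval p P₀ = 0 := by
    rw [aeval_def, ← eval_map, h1, hQ', ← aeval_sum]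
    exact hQ
  have h3 : P₀ = 0 := (algebraicIndependent_iff.mp hp) _ h2
  have h4 : MvPolynomial.map (aeval w' : MvPolynomial σ K →ₐ[K] E').toRingHom Q' = 0 := by
    ext m
    rw [coeff_map, coeff_zero]
    apply hw'
    rw [← hcoe]
    have h5 := congrArg (coeff m) h3
    rw [hP₀, coeff_map, coeff_zero] at h5
    have h6 : (aeval w₀ (coeff m Q') : F) = 0 := h5
    rw [h6]
    rfl
  rw [aeval_sum, ← hQ', h4, map_zero]

lemma aeval_lR' {K E : Type*} [Field K] [Field E] [Algebra K E] {q M : ℕ}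
    (p : Fin q → Fin (M + 1) → E) (y Z : Fin (M + 1) → E) (j : Fin q) :
    aeval (pt p y Z) (lR K j) = p j ⬝ᵥ y := by
  simp [lR, pt, dotProduct]

lemma aeval_bR' {K E : Type*} [Field K] [Field E] [Algebra K E] {q M : ℕ}
    (p : Fin q → Fin (M + 1) → E) (y Z : Fin (M + 1) → E) (j : Fin q) :
    aeval (pt p y Z) (bR K j) = p j ⬝ᵥ Z := by
  simp [bR, pt, dotProduct]

lemma Good.transfer' {E : Type*} [Field E] [Algebra ℂ E] {q M k K₀ : ℕ}
    {p : Fin q → Fin (M + 1) → E} {p' : Fin q → Fin (M + 1) → ℂ}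
    {y₀ Z₀ : Fin (M + 1) → E} {y Z : Fin (M + 1) → ℂ}
    (h : ∀ P : MvPolynomial ((Fin q × Fin (M + 1)) ⊕ (Fin (M + 1) ⊕ Fin (M + 1))) ℂ,
      aeval (pt p y₀ Z₀) P = 0 → aeval (pt p' y Z) P = 0) {g : Fin q → ℕ}
    {Q : (Fin q → Fin (k + 1)) →
      MvPolynomial ((Fin q × Fin (M + 1)) ⊕ (Fin (M + 1) ⊕ Fin (M + 1))) ℂ}
    {c₀ : (Fin q → Fin (k + 1)) → E} (hQ : ∀ γ, aeval (pt p y₀ Z₀) (Q γ) = c₀ γ)
    (hg : Good K₀ q g (fun j => p j ⬝ᵥ y₀) (fun j => p j ⬝ᵥ Z₀) c₀) :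
    Good K₀ q g (fun j => p' j ⬝ᵥ y) (fun j => p' j ⬝ᵥ Z)
      (fun γ => eval (pt p' y Z) (Q γ)) := by
  obtain ⟨φ, hφ⟩ : ∃ φ : MvPolynomial ((Fin q × Fin (M + 1)) ⊕ (Fin (M + 1) ⊕ Fin (M + 1))) ℂ →+* E,
    ∀ P, φ P = aeval (pt p y₀ Z₀) P := ⟨(aeval (pt p y₀ Z₀)).toRingHom, fun P => rfl⟩
  obtain ⟨ψ, hψ⟩ : ∃ ψ : MvPolynomial ((Fin q × Fin (M + 1)) ⊕ (Fin (M + 1) ⊕ Fin (M + 1))) ℂ →+* ℂ,
    ∀ P, ψ P = aeval (pt p' y Z) P := ⟨(aeval (pt p' y Z)).toRingHom, fun P => rfl⟩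
  have h1 := Good.map φ ψ (fun a ha => by rw [hψ]; rw [hφ] at ha; exact h a ha)
    (K := K₀) (g := g) (l := lR ℂ) (b := bR ℂ) (c := Q) (by
      have h3 : (fun j => φ (lR ℂ j)) = fun j => p j ⬝ᵥ y₀ :=
        funext fun j => by rw [hφ]; exact aeval_lR' p y₀ Z₀ j
      have h4 : (fun j => φ (bR ℂ j)) = fun j => p j ⬝ᵥ Z₀ :=
        funext fun j => by rw [hφ]; exact aeval_bR' p y₀ Z₀ j
      have h5 : (fun γ => φ (Q γ)) = c₀ := funext fun γ => by rw [hφ]; exact hQ γ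
      rw [h3, h4, h5]
      exact hg)
  have h3 : (fun j => ψ (lR ℂ j)) = fun j => p' j ⬝ᵥ y :=
    funext fun j => by rw [hψ]; exact aeval_lR' p' y Z j
  have h4 : (fun j => ψ (bR ℂ j)) = fun j => p' j ⬝ᵥ Z :=
    funext fun j => by rw [hψ]; exact aeval_bR' p' y Z j
  have h5 : (fun γ => ψ (Q γ)) = fun γ => eval (pt p' y Z) (Q γ) :=
    funext fun γ => by rw [hψ, aeval_eq_eval']
  rw [h3, h4, h5] at h1
  exact h1

theorem exists_certificate' {E : Type*} [Field E] [Algebra ℂ E] {q D M : ℕ} (hD : 1 ≤ D)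
    (hq : 182 ^ (D + 1) * 10 ^ q ≤ 17 ^ q) {p : Fin q → Fin (M + 1) → E}
    {y₀ Z₀ : Fin (M + 1) → E} (hw1 : y₀ ≠ 0) (hw2 : Z₀ ≠ 0)
    (htr : TrdegLE ℂ (Sum.elim y₀ Z₀) D) {F : Subalgebra ℂ E} (hF1 : ∀ i, y₀ i ∈ F)
    (hF2 : ∀ i, Z₀ i ∈ F)
    (hp : AlgebraicIndependent F (fun x : Fin q × Fin (M + 1) => p x.1 x.2)) :
    ∃ (K₀ A B τ : ℕ) (c : (Fin q → Fin (2 * K₀ + 1)) →
      MvPolynomial ((Fin q × Fin (M + 1)) ⊕ (Fin (M + 1) ⊕ Fin (M + 1))) ℂ) (g : Fin q → ℕ),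
      1 ≤ τ ∧ q * K₀ = A + B + τ ∧
      (∀ y Z : Fin (M + 1) → ℂ, (∀ G : MvPolynomial (Fin (M + 1) ⊕ Fin (M + 1)) ℂ,
        aeval (Sum.elim y₀ Z₀) G = 0 → aeval (Sum.elim y Z) G = 0) →
        ∀ p' : Fin q → Fin (M + 1) → ℂ, Good K₀ q g (fun j => p' j ⬝ᵥ y) (fun j => p' j ⬝ᵥ Z)
          (fun γ => eval (pt p' y Z) (c γ))) ∧
      (∀ (p' : Fin q → Fin (M + 1) → ℂ) (y Z : Fin (M + 1) → ℂ) (a b : ℂ),
        lead K₀ g (fun j => p' j ⬝ᵥ (a • y)) (fun j => p' j ⬝ᵥ (b • Z))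
          (fun γ => eval (pt p' (a • y) (b • Z)) (c γ)) = a ^ A * b ^ B *
        lead K₀ g (fun j => p' j ⬝ᵥ y) (fun j => p' j ⬝ᵥ Z)
          (fun γ => eval (pt p' y Z) (c γ))) ∧
      lead K₀ g (fun j => p j ⬝ᵥ y₀) (fun j => p j ⬝ᵥ Z₀)
        (fun γ => aeval (pt p y₀ Z₀) (c γ)) ≠ 0 := by
  classical
  obtain ⟨p₀, hp₀⟩ : ∃ p₀ : Fin q × Fin (M + 1) → E, p₀ = fun x => p x.1 x.2 := ⟨_, rfl⟩
  rw [← hp₀] at hp
  have htr1 := htr.of_subfield (IntermediateField.adjoin ℂ (Set.range p₀))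
  obtain ⟨C₁, hC₁⟩ := growth_bound htr1
  obtain ⟨U₁, hU₁⟩ : ∃ U₁ : Submodule (IntermediateField.adjoin ℂ (Set.range p₀)) E,
    U₁ = Submodule.span _ (Set.range y₀) := ⟨_, rfl⟩
  obtain ⟨U₂, hU₂⟩ : ∃ U₂ : Submodule (IntermediateField.adjoin ℂ (Set.range p₀)) E,
    U₂ = Submodule.span _ (Set.range Z₀) := ⟨_, rfl⟩
  have hne : ∀ {v : Fin (M + 1) → E}, v ≠ 0 → ∀ {U : Submodule
      (IntermediateField.adjoin ℂ (Set.range p₀)) E}, U = Submodule.span _ (Set.range v) →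
      U ≠ ⊥ := by
    intro v hv U hU h0
    apply hv
    funext i
    rw [hU, Submodule.span_eq_bot] at h0
    exact h0 _ ⟨i, rfl⟩
  have hmem : ∀ {v : Fin (M + 1) → E} {U : Submodule
      (IntermediateField.adjoin ℂ (Set.range p₀)) E}, U = Submodule.span _ (Set.range v) →
      ∀ j, p j ⬝ᵥ v ∈ U := by
    intro v U hU j
    rw [hU, dotProduct]
    refine Submodule.sum_mem _ fun i _ => ?_
    have h1 : p j i ∈ IntermediateField.adjoin ℂ (Set.range p₀) :=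
      IntermediateField.subset_adjoin ℂ _ ⟨(j, i), by rw [hp₀]⟩
    exact Submodule.smul_mem _ (⟨p j i, h1⟩ : IntermediateField.adjoin ℂ (Set.range p₀))
      (Submodule.subset_span ⟨i, rfl⟩)
  obtain ⟨r, i₀, K₀, m, hK₀, hm, hr, hi₀, c, hc0, hcs, hcm, hcv⟩ :=
    exists_family' (U₁ := U₁) (U₂ := U₂) hD hq
    (by rw [hU₁]; exact Submodule.fg_span (Set.finite_range _))
    (by rw [hU₂]; exact Submodule.fg_span (Set.finite_range _))
    (hne hw1 hU₁) (hne hw2 hU₂) (by rw [hU₁, hU₂]; exact hC₁)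
    (hmem hU₁) (hmem hU₂)
  rw [hU₁, hU₂] at hcm
  obtain ⟨d, Q, hd, hQ⟩ := clear (K := ℂ) p₀ y₀ Z₀ _ _ c hcm
  obtain ⟨Q', hQ'⟩ : ∃ Q' : (Fin q → Fin (2 * K₀ + 1)) →
      MvPolynomial ((Fin q × Fin (M + 1)) ⊕ (Fin (M + 1) ⊕ Fin (M + 1))) ℂ,
      Q' = fun γ => if c γ = 0 then 0 else Q γ := ⟨_, rfl⟩
  have hQ'w : ∀ γ, aeval (pt p y₀ Z₀) (Q' γ) = d * c γ := by
    intro γ
    rw [hQ']
    by_cases h : c γ = 0
    · simp [h]
    · simp only [h, if_false]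
      have h1 := (hQ γ).2
      rw [hp₀] at h1
      exact h1
  have hl : ∀ j, p j ⬝ᵥ y₀ ≠ 0 := by
    intro j
    have h1 := dot_ne_zero hp hF1 hw1 j
    rw [hp₀] at h1
    exact h1
  have hdc : (fun γ => d * c γ) ≠ 0 := by
    obtain ⟨γ, hγ⟩ := Function.ne_iff.mp hc0
    exact Function.ne_iff.mpr ⟨γ, mul_ne_zero hd hγ⟩
  obtain ⟨g, hg1, hg2⟩ := exists_good K₀ hl (fun j => p j ⬝ᵥ Z₀) hdc
  -- the size of the exponent
  have hgT : m + 6 * (q * r) + q < ∑ j, g j := by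
    by_contra hcon
    push Not at hcon
    apply hg2
    rw [lead_smul, hcv g hcon, mul_zero]
  obtain ⟨β, hβ1, hβ2⟩ : ∃ β, c β ≠ 0 ∧ ∀ j, g j ≤ (β j : ℕ) := by
    rw [lead_smul] at hg2
    have h1 : lead K₀ g (fun j => p j ⬝ᵥ y₀) (fun j => p j ⬝ᵥ Z₀) c ≠ 0 :=
      right_ne_zero_of_mul hg2
    obtain ⟨β, -, hβ⟩ := Finset.exists_ne_zero_of_sum_ne_zero h1
    refine ⟨β, left_ne_zero_of_mul hβ, fun j => ?_⟩
    by_contra hcon
    push Not at hcon
    apply right_ne_zero_of_mul hβ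
    apply Finset.prod_eq_zero (Finset.mem_univ j)
    rw [Nat.choose_eq_zero_of_lt hcon]
    simp
  have hgβ : ∑ j, g j < 2 * m + 2 * (q * r) :=
    lt_of_le_of_lt (Finset.sum_le_sum fun j _ => hβ2 j) (hcs β hβ1).2
  obtain ⟨qr, hqr⟩ : ∃ qr, qr = q * r := ⟨_, rfl⟩
  have e4 : m ≤ 180 * qr := by
    rw [hm, mul_assoc, hqr]
    gcongr
  have e6 : q * K₀ = 180 * qr := by
    rw [hK₀, hqr]
    ring
  rw [← hqr] at hcs hcm hcv hgT hgβ hQ
  clear hK₀ hm hqr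
  refine ⟨K₀, 182 * qr + q - m, 2 * m + 4 * qr - ∑ j, g j,
    ∑ j, g j - (m + 6 * qr + q), Q', g,
    by omega, ?_, ?_, ?_, ?_⟩
  · rw [e6]
    omega
  · intro y Z hyZ p'
    have h1 : ∀ P : MvPolynomial ((Fin q × Fin (M + 1)) ⊕ (Fin (M + 1) ⊕ Fin (M + 1))) ℂ,
        aeval (pt p y₀ Z₀) P = 0 → aeval (pt p' y Z) P = 0 := by
      intro P hP
      refine VG.transfer' (F := F) (p := p₀) (w := Sum.elim y₀ Z₀) ?_ hp ?_ hyZ _
      · rintro (i | i)
        · exact hF1 i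
        · exact hF2 i
      · rw [hp₀]
        exact hP
    exact Good.transfer' h1 hQ'w hg1
  · intro p' y Z a b
    rw [lead, lead, Finset.mul_sum]
    refine Finset.sum_congr rfl fun γ _ => ?_
    by_cases hcγ : c γ = 0
    · rw [hQ']
      simp [hcγ]
    · by_cases hle : ∀ j, g j ≤ (γ j : ℕ)
      · have h1 := (hQ γ).1.aeval (fun x : Fin q × Fin (M + 1) => p' x.1 x.2) y Z a b
        have h2 : Q' γ = Q γ := by rw [hQ']; simp only [hcγ, if_false]
        have h3 : ∀ y Z : Fin (M + 1) → ℂ, eval (pt p' y Z) (Q' γ) =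
            aeval (Sum.elim (fun x : Fin q × Fin (M + 1) => p' x.1 x.2) (Sum.elim y Z)) (Q γ) := by
          intro y Z
          rw [h2, aeval_eq_eval']
          rfl
        rw [h3, h3, h1]
        have h4 : ∀ j, ((((γ j : ℕ).choose (g j) : ℕ) : ℂ) * (p' j ⬝ᵥ (b • Z)) ^ ((γ j : ℕ) - g j) *
            (p' j ⬝ᵥ (a • y)) ^ (K₀ - (γ j : ℕ) / 2)) =
            (b ^ ((γ j : ℕ) - g j) * a ^ (K₀ - (γ j : ℕ) / 2)) *
            ((((γ j : ℕ).choose (g j) : ℕ) : ℂ) * (p' j ⬝ᵥ Z) ^ ((γ j : ℕ) - g j) *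
            (p' j ⬝ᵥ y) ^ (K₀ - (γ j : ℕ) / 2)) := by
          intro j
          rw [dotProduct_smul, dotProduct_smul, smul_eq_mul, smul_eq_mul, mul_pow, mul_pow]
          ring
        rw [Finset.prod_congr rfl fun j _ => h4 j, Finset.prod_mul_distrib,
          Finset.prod_mul_distrib, Finset.prod_pow_eq_pow_sum, Finset.prod_pow_eq_pow_sum]
        have h5 : ∑ j, ((γ j : ℕ) - g j) + ∑ j, g j = ∑ j, (γ j : ℕ) := by
          rw [← Finset.sum_add_distrib]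
          exact Finset.sum_congr rfl fun j _ => Nat.sub_add_cancel (hle j)
        have h6 : ∑ j, (K₀ - (γ j : ℕ) / 2) + ∑ j, (γ j : ℕ) / 2 = 180 * qr := by
          rw [← Finset.sum_add_distrib]
          calc _ = ∑ _j : Fin q, K₀ := Finset.sum_congr rfl fun j _ => by
                have := (γ j).2
                omega
            _ = q * K₀ := by simp
            _ = _ := e6
        have h7 := hcs γ hcγ
        have h8 := sum_half_ge γ
        have h9 : ∑ j, (γ j : ℕ) / 2 + 2 * qr + q - m +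
            ∑ j, (K₀ - (γ j : ℕ) / 2) = 182 * qr + q - m := by
          omega
        have h10 : 2 * m + 4 * qr - ∑ j, (γ j : ℕ) + ∑ j, ((γ j : ℕ) - g j) =
            2 * m + 4 * qr - ∑ j, g j := by
          omega
        rw [← h9, ← h10, pow_add, pow_add]
        ring
      · push Not at hle
        obtain ⟨j, hj⟩ := hle
        rw [Finset.prod_eq_zero (Finset.mem_univ j), Finset.prod_eq_zero (Finset.mem_univ j)]
        · ring
        · rw [Nat.choose_eq_zero_of_lt hj]; simp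
        · rw [Nat.choose_eq_zero_of_lt hj]; simp
  · have h1 : (fun γ => aeval (pt p y₀ Z₀) (Q' γ)) = fun γ => d * c γ := funext hQ'w
    rw [h1]
    exact hg2

end Pool.Agent.Lib.GGL.VG
end

section

/-!
Dimension count for general hyperplanes.
-/

open Filter Topology MvPolynomial Module

namespace Pool.Agent.Lib.GGL.VG

attribute [local instance] algebraMvPolynomial

/-- For general `p` the points at which all substitutions of `q` of the hyperplanes vanish are the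
points at which the polynomial vanishes identically. -/
theorem dim_count {σ : Type} [Finite σ] {q M N D : ℕ} (hN : q + D ≤ N)
    (𝔞 : Ideal (MvPolynomial σ ℂ))
    (htr : ∀ (L : Type) [Field L] [Algebra ℂ L] (w : σ → L), (∀ G ∈ 𝔞, aeval w G = 0) →
      TrdegLE ℂ w D)
    (Λ : MvPolynomial ((Fin q × Fin (M + 1)) ⊕ σ) ℂ) :
    ∃ Θ : MvPolynomial (Fin N × Fin (M + 1)) ℂ, Θ ≠ 0 ∧ ∀ p : Fin N → Fin (M + 1) → ℂ,
      eval (fun x : Fin N × Fin (M + 1) => p x.1 x.2) Θ ≠ 0 →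
      ∀ w : σ → ℂ, (∀ G ∈ 𝔞, eval w G = 0) →
      (∀ e : Fin q ↪ Fin N,
        eval (Sum.elim (fun x : Fin q × Fin (M + 1) => p (e x.1) x.2) w) Λ = 0) →
      ∀ p' : Fin q × Fin (M + 1) → ℂ, eval (Sum.elim p' w) Λ = 0 := by
  classical
  let A := MvPolynomial (Fin N × Fin (M + 1)) ℂ
  let k := FractionRing A
  let L := AlgebraicClosure k
  let σ' := (Fin q × Fin (M + 1)) ⊕ σ
  -- the generic hyperplanes
  obtain ⟨P, hP⟩ : ∃ P : Fin N × Fin (M + 1) → L, P = fun x => algebraMap A L (X x) := ⟨_, rfl⟩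
  have hAL : Function.Injective (algebraMap A L) := by
    rw [IsScalarTower.algebraMap_eq A k L]
    exact (algebraMap k L).injective.comp (IsFractionRing.injective A k)
  have hPind : AlgebraicIndependent ℂ P := by
    have h1 : AlgebraicIndependent ℂ (X : Fin N × Fin (M + 1) → A) :=
      MvPolynomial.algebraicIndependent_X _ _
    have h2 := h1.map' (f := IsScalarTower.toAlgHom ℂ A L) hAL
    rw [hP]
    exact h2
  -- the substituted polynomials
  obtain ⟨Λe, hΛe⟩ : ∃ Λe : (Fin q ↪ Fin N) → MvPolynomial σ' A, Λe = fun e =>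
    aeval (Sum.elim (fun x : Fin q × Fin (M + 1) => C (X (e x.1, x.2) : A))
      (fun s => X (Sum.inr s))) Λ := ⟨_, rfl⟩
  obtain ⟨S₀, hS₀⟩ : ∃ S₀ : Set (MvPolynomial σ' A), S₀ =
    {H | ∃ G ∈ 𝔞, H = MvPolynomial.map (algebraMap ℂ A) (rename Sum.inr G)} ∪
      Set.range Λe := ⟨_, rfl⟩
  obtain ⟨Λ₀, hΛ₀⟩ : ∃ Λ₀ : MvPolynomial σ' A, Λ₀ = MvPolynomial.map (algebraMap ℂ A) Λ :=
    ⟨_, rfl⟩
  -- evaluation at a point with values in `L`
  have hΦ : ∀ x : σ' → L, ∃ Φ : MvPolynomial σ' A →+* L,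
      (∀ H, Φ H = aeval x (MvPolynomial.map (algebraMap A k) H)) ∧
      (∀ G : MvPolynomial σ' ℂ, Φ (MvPolynomial.map (algebraMap ℂ A) G) = aeval x G) ∧
      (∀ G : MvPolynomial σ ℂ, Φ (MvPolynomial.map (algebraMap ℂ A) (rename Sum.inr G)) =
        aeval (fun s => x (Sum.inr s)) G) ∧
      ∀ e, Φ (Λe e) = aeval (Sum.elim (fun y : Fin q × Fin (M + 1) => P (e y.1, y.2))
        (fun s => x (Sum.inr s))) Λ := by
    intro x
    obtain ⟨Φ, hΦ1⟩ : ∃ Φ : MvPolynomial σ' A →+* L, ∀ H, Φ H =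
        aeval x (MvPolynomial.map (algebraMap A k) H) :=
      ⟨((aeval x : MvPolynomial σ' k →ₐ[k] L) : MvPolynomial σ' k →+* L).comp
        (MvPolynomial.map (algebraMap A k)), fun H => rfl⟩
    have hC : ∀ a : A, Φ (C a) = algebraMap A L a := by
      intro a
      rw [hΦ1, map_C, aeval_C, IsScalarTower.algebraMap_apply A k L]
    have hX : ∀ i, Φ (X i) = x i := by
      intro i
      rw [hΦ1, map_X, aeval_X]
    have hcC : ∀ a : ℂ, Φ (C (algebraMap ℂ A a)) = algebraMap ℂ L a := by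
      intro a
      rw [hC, ← IsScalarTower.algebraMap_apply ℂ A L]
    have h2 : ∀ G : MvPolynomial σ' ℂ, Φ (MvPolynomial.map (algebraMap ℂ A) G) = aeval x G := by
      intro G
      have h3 : Φ.comp (MvPolynomial.map (algebraMap ℂ A)) =
          ((aeval x : MvPolynomial σ' ℂ →ₐ[ℂ] L) : MvPolynomial σ' ℂ →+* L) := by
        apply MvPolynomial.ringHom_ext
        · intro a
          rw [RingHom.comp_apply, map_C, hcC]
          simp
        · intro i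
          rw [RingHom.comp_apply, map_X, hX]
          simp
      exact congrArg (fun f => f G) h3
    refine ⟨Φ, hΦ1, h2, ?_, ?_⟩
    · intro G
      rw [h2, aeval_rename]
      rfl
    · intro e
      rw [hΛe]
      have h3 : Φ.comp ((aeval (Sum.elim (fun x : Fin q × Fin (M + 1) => C (X (e x.1, x.2) : A))
          (fun s => X (Sum.inr s))) : MvPolynomial σ' ℂ →ₐ[ℂ] MvPolynomial σ' A) :
            MvPolynomial σ' ℂ →+* MvPolynomial σ' A) =
          ((aeval (Sum.elim (fun y : Fin q × Fin (M + 1) => P (e y.1, y.2))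
            (fun s => x (Sum.inr s))) : MvPolynomial σ' ℂ →ₐ[ℂ] L) : MvPolynomial σ' ℂ →+* L) := by
        apply MvPolynomial.ringHom_ext
        · intro a
          rw [RingHom.comp_apply]
          simp only [RingHom.coe_coe, algHom_C]
          rw [← hcC]
          rfl
        · rintro (i | i)
          · rw [RingHom.comp_apply]
            simp only [RingHom.coe_coe, aeval_X, Sum.elim_inl]
            rw [hC, hP]
          · rw [RingHom.comp_apply]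
            simp only [RingHom.coe_coe, aeval_X, Sum.elim_inr]
            rw [hX]
      exact congrArg (fun f => f Λ) h3
  -- Nullstellensatz
  obtain ⟨𝔡, h𝔡⟩ : ∃ 𝔡 : Ideal (MvPolynomial σ' A), 𝔡 = Ideal.span S₀ := ⟨_, rfl⟩
  have hrad : MvPolynomial.map (algebraMap A k) Λ₀ ∈
      (𝔡.map (algebraMap (MvPolynomial σ' A) (MvPolynomial σ' k))).radical := by
    rw [← vanishingIdeal_zeroLocus_eq_radical (K := L)]
    intro x hx
    obtain ⟨Φ, hΦ1, hΦ2, hΦ3, hΦ4⟩ := hΦ x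
    have hS : ∀ H ∈ S₀, Φ H = 0 := by
      intro H hH
      rw [hΦ1]
      apply hx
      apply Ideal.mem_map_of_mem
      rw [h𝔡]
      exact Ideal.subset_span hH
    have h1 : ∀ G ∈ 𝔞, aeval (fun s => x (Sum.inr s)) G = 0 := by
      intro G hG
      rw [← hΦ3]
      apply hS
      rw [hS₀]
      exact Or.inl ⟨G, hG, rfl⟩
    obtain ⟨A₁, F, hA₁, hF, hpA⟩ := exists_indep_blocks hPind (htr L _ h1)
    obtain ⟨e⟩ : Nonempty (Fin q ↪ A₁) := by
      apply Function.Embedding.nonempty_of_card_le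
      rw [Fintype.card_fin, Fintype.card_coe]
      omega
    obtain ⟨e', he'⟩ : ∃ e' : Fin q ↪ Fin N, ∀ j, e' j = e j :=
      ⟨e.trans (Function.Embedding.subtype _), fun j => rfl⟩
    have hpF : AlgebraicIndependent F (fun y : Fin q × Fin (M + 1) => P (e' y.1, y.2)) := by
      have h2 := hpA.comp (fun x : Fin q × Fin (M + 1) => (e x.1, x.2)) (by
        rintro ⟨x1, x2⟩ ⟨y1, y2⟩ h
        rw [Prod.mk.injEq] at h ⊢
        exact ⟨e.injective h.1, h.2⟩)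
      have h3 : (fun y : Fin q × Fin (M + 1) => P (e' y.1, y.2)) =
          (fun x : A₁ × Fin (M + 1) => P (x.1, x.2)) ∘
            (fun x : Fin q × Fin (M + 1) => (e x.1, x.2)) := by
        funext y
        rw [he']
        rfl
      rw [h3]
      exact h2
    have h2 : aeval (Sum.elim (fun y : Fin q × Fin (M + 1) => P (e' y.1, y.2))
        (fun s => x (Sum.inr s))) Λ = 0 := by
      rw [← hΦ4]
      apply hS
      rw [hS₀]
      exact Or.inr ⟨e', rfl⟩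
    have h3 := transfer' hF hpF h2 (w' := fun s => x (Sum.inr s)) (fun G hG => hG)
      (fun y => x (Sum.inl y))
    rw [← hΦ1, hΛ₀, hΦ2, ← h3]
    congr 2
    funext i
    rcases i with i | i
    · rfl
    · rfl
  obtain ⟨n, hn⟩ := hrad
  rw [IsLocalization.mem_map_algebraMap_iff
    ((nonZeroDivisors A).map (C (σ := σ') : A →+* MvPolynomial σ' A))
    (MvPolynomial σ' k)] at hn
  obtain ⟨⟨⟨H, hH⟩, ⟨_, ⟨Θ, hΘ, rfl⟩⟩⟩, hn⟩ := hn
  have hn2 : Λ₀ ^ n * C Θ = H := by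
    have hinj : Function.Injective (MvPolynomial.map (σ := σ') (algebraMap A k)) :=
      MvPolynomial.map_injective _ (IsFractionRing.injective A k)
    apply hinj
    rw [map_mul, map_pow]
    exact hn
  refine ⟨Θ, nonZeroDivisors.ne_zero hΘ, ?_⟩
  intro p hp w hw hall p'
  -- specialisation
  obtain ⟨ψ, hψ⟩ : ∃ ψ : MvPolynomial σ' A →+* ℂ, ψ =
    eval₂Hom (eval (fun x : Fin N × Fin (M + 1) => p x.1 x.2)) (Sum.elim p' w) := ⟨_, rfl⟩
  have hψC : ∀ a : A, ψ (C a) = eval (fun x : Fin N × Fin (M + 1) => p x.1 x.2) a := by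
    intro a
    rw [hψ]
    simp
  have hψX : ∀ i, ψ (X i) = Sum.elim p' w i := by
    intro i
    rw [hψ]
    simp
  have hψcC : ∀ a : ℂ, ψ (C (algebraMap ℂ A a)) = a := by
    intro a
    rw [hψC]
    exact eval_C a
  have hψ2 : ∀ G : MvPolynomial σ' ℂ, ψ (MvPolynomial.map (algebraMap ℂ A) G) =
      eval (Sum.elim p' w) G := by
    intro G
    have h3 : ψ.comp (MvPolynomial.map (algebraMap ℂ A)) = eval (Sum.elim p' w) := by
      apply MvPolynomial.ringHom_ext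
      · intro a
        rw [RingHom.comp_apply, map_C, hψcC, eval_C]
      · intro i
        rw [RingHom.comp_apply, map_X, hψX, eval_X]
    exact congrArg (fun f => f G) h3
  have hψS : ∀ H ∈ S₀, ψ H = 0 := by
    intro H hH
    rw [hS₀] at hH
    rcases hH with ⟨G, hG, rfl⟩ | ⟨e, rfl⟩
    · rw [hψ2, eval_rename]
      exact hw G hG
    · rw [hΛe, ← hall e]
      have h3 : ψ.comp ((aeval (Sum.elim (fun x : Fin q × Fin (M + 1) => C (X (e x.1, x.2) : A))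
          (fun s => X (Sum.inr s))) : MvPolynomial σ' ℂ →ₐ[ℂ] MvPolynomial σ' A) :
            MvPolynomial σ' ℂ →+* MvPolynomial σ' A) =
          eval (Sum.elim (fun x : Fin q × Fin (M + 1) => p (e x.1) x.2) w) := by
        apply MvPolynomial.ringHom_ext
        · intro a
          rw [RingHom.comp_apply]
          simp only [RingHom.coe_coe, algHom_C, eval_C]
          exact hψcC a
        · rintro (i | i)
          · rw [RingHom.comp_apply]
            simp only [RingHom.coe_coe, aeval_X, Sum.elim_inl, eval_X]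
            rw [hψC, eval_X]
          · rw [RingHom.comp_apply]
            simp only [RingHom.coe_coe, aeval_X, Sum.elim_inr, eval_X]
            rw [hψX, Sum.elim_inr]
      exact congrArg (fun f => f Λ) h3
  have hψH : ψ H = 0 := by
    have h4 : 𝔡 ≤ RingHom.ker ψ := by
      rw [h𝔡, Ideal.span_le]
      intro H hH
      exact hψS H hH
    exact h4 hH
  rw [← hn2, map_mul, map_pow, hψC, hΛ₀, hψ2] at hψH
  rcases mul_eq_zero.mp hψH with h5 | h5
  · exact by_contra fun h => pow_ne_zero n h h5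
  · exact absurd h5 hp

end Pool.Agent.Lib.GGL.VG
end

section

/-!
Curves with general tangency conditions.
-/

open Filter Topology MvPolynomial Module

namespace Pool.Agent.Lib.GGL.VG

/-- The one-jets of a holomorphic curve, up to scaling, with the vertical directions. -/
def jetc {M : ℕ} (Y : ℂ → ℂ → Fin (M + 1) → ℂ) : Set ((Fin (M + 1) → ℂ) × (Fin (M + 1) → ℂ)) :=
  {w | ∃ z a b s : ℂ, w = (a • Y z z, b • deriv (Y z) z + s • Y z z)}

lemma jets_subset_jetc {M : ℕ} (Y : ℂ → ℂ → Fin (M + 1) → ℂ) : jets Y ⊆ jetc Y := by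
  rintro w ⟨z, a, b, s, rfl⟩
  exact ⟨z, a, b, b * s, by rw [smul_add, smul_smul]⟩

lemma jetc_closed {M : ℕ} (Y : ℂ → ℂ → Fin (M + 1) → ℂ) (y Z : Fin (M + 1) → ℂ)
    (h : (y, Z) ∈ jetc Y) (a b s : ℂ) : (a • y, b • (Z + s • y)) ∈ jetc Y := by
  obtain ⟨z, a', b', s', h'⟩ := h
  rw [Prod.mk.injEq] at h'
  refine ⟨z, a * a', b * b', b * (s' + s * a'), ?_⟩
  rw [h'.1, h'.2, Prod.mk.injEq]
  exact ⟨by module, by module⟩

lemma continuous_eval_elim {M : ℕ} (G : MvPolynomial (Fin (M + 1) ⊕ Fin (M + 1)) ℂ)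
    {T : Type*} [TopologicalSpace T] {f g : T → Fin (M + 1) → ℂ} (hf : Continuous f)
    (hg : Continuous g) : Continuous fun t : T => eval (Sum.elim (f t) (g t)) G := by
  have h4 : Continuous fun t : T =>
      (Sum.elim (f t) (g t) : Fin (M + 1) ⊕ Fin (M + 1) → ℂ) := by
    apply continuous_pi
    rintro (i | i)
    · exact (continuous_apply i).comp hf
    · exact (continuous_apply i).comp hg
  exact (MvPolynomial.continuous_eval G).comp h4

lemma zero_on_jetc {M : ℕ} {Y : ℂ → ℂ → Fin (M + 1) → ℂ}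
    {G : MvPolynomial (Fin (M + 1) ⊕ Fin (M + 1)) ℂ}
    (h : ∀ w ∈ jets Y, eval (Sum.elim w.1 w.2) G = 0) :
    ∀ w ∈ jetc Y, eval (Sum.elim w.1 w.2) G = 0 := by
  rintro ⟨w1, w2⟩ ⟨z, a, b, s, hw⟩
  rw [Prod.mk.injEq] at hw
  obtain ⟨hw1, hw2⟩ := hw
  have h1 : ∀ b : ℂ, b ≠ 0 →
      eval (Sum.elim (a • Y z z) (b • deriv (Y z) z + s • Y z z)) G = 0 := by
    intro b hb
    refine h (a • Y z z, b • deriv (Y z) z + s • Y z z) ⟨z, a, b, s / b, ?_⟩
    rw [Prod.mk.injEq]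
    refine ⟨rfl, ?_⟩
    rw [smul_add, smul_smul, mul_div_cancel₀ _ hb]
  have hcont : Continuous fun b : ℂ =>
      eval (Sum.elim (a • Y z z) (b • deriv (Y z) z + s • Y z z)) G :=
    continuous_eval_elim G continuous_const (by fun_prop)
  have h5 : (fun b : ℂ => eval (Sum.elim (a • Y z z) (b • deriv (Y z) z + s • Y z z)) G) =
      fun _ => 0 := Continuous.ext_on (s := {(0 : ℂ)}ᶜ) (dense_compl_singleton (0 : ℂ))
    hcont continuous_const (fun b hb => h1 b hb)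
  show eval (Sum.elim w1 w2) G = 0
  rw [hw1, hw2]
  exact congrFun h5 b

lemma TrdegLE.specialize {K E σ : Type*} [Field K] [Field E] [Algebra K E] {w w' : σ → E} {D : ℕ}
    (h : TrdegLE K w D) (hw : ∀ G : MvPolynomial σ K, aeval w G = 0 → aeval w' G = 0) :
    TrdegLE K w' D := by
  intro B hB
  apply h B
  rw [algebraicIndependent_iff] at hB ⊢
  intro P hP
  apply hB
  have h1 : aeval w (rename (fun b : B => (b : σ)) P) = 0 := by
    rw [aeval_rename]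
    exact hP
  have h2 := hw _ h1
  rw [aeval_rename] at h2
  exact h2

/-- the substitution of the hyperplanes -/
noncomputable def subP {q M : ℕ} (p : Fin q → Fin (M + 1) → ℂ) :
    MvPolynomial ((Fin q × Fin (M + 1)) ⊕ (Fin (M + 1) ⊕ Fin (M + 1))) ℂ →ₐ[ℂ]
      MvPolynomial (Fin (M + 1) ⊕ Fin (M + 1)) ℂ :=
  aeval (Sum.elim (fun x => C (p x.1 x.2)) X)

lemma eval_subP {q M : ℕ} (p : Fin q → Fin (M + 1) → ℂ) (y Z : Fin (M + 1) → ℂ)
    (P : MvPolynomial ((Fin q × Fin (M + 1)) ⊕ (Fin (M + 1) ⊕ Fin (M + 1))) ℂ) :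
    eval (Sum.elim y Z) (subP p P) = eval (pt p y Z) P := by
  have h1 : (eval (Sum.elim y Z)).comp (subP p).toRingHom = eval (pt p y Z) := by
    apply MvPolynomial.ringHom_ext
    · intro r
      simp [subP]
    · rintro (i | i | i)
      · simp [subP, pt]
      · simp [subP, pt]
      · simp [subP, pt]
  exact congrArg (fun f => f P) h1

lemma exists_poly {q M k K₀ : ℕ} (p : Fin q → Fin (M + 1) → ℂ) (g : Fin q → ℕ)
    (c : (Fin q → Fin (k + 1)) →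
      MvPolynomial ((Fin q × Fin (M + 1)) ⊕ (Fin (M + 1) ⊕ Fin (M + 1))) ℂ) :
    ∃ Q : MvPolynomial (Fin (M + 1) ⊕ Fin (M + 1)) ℂ, ∀ y Z : Fin (M + 1) → ℂ,
      eval (Sum.elim y Z) Q = lead K₀ g (fun j => p j ⬝ᵥ y) (fun j => p j ⬝ᵥ Z)
        (fun γ => eval (pt p y Z) (c γ)) := by
  refine ⟨lead K₀ g (fun j => ∑ i, C (p j i) * X (Sum.inl i))
    (fun j => ∑ i, C (p j i) * X (Sum.inr i)) (fun γ => subP p (c γ)), fun y Z => ?_⟩
  rw [map_lead]
  simp only [eval_subP, map_sum, map_mul, eval_C, eval_X, Sum.elim_inl, Sum.elim_inr]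
  rfl

/-- A form that is compatible with the scalings vanishes on all jets or on almost none. -/
lemma eventually_ne {M : ℕ} {Y : ℂ → ℂ → Fin (M + 1) → ℂ} (hY : LiftFamily Y)
    (R : MvPolynomial (Fin (M + 1) ⊕ Fin (M + 1)) ℂ)
    (hR : ∀ y Z : Fin (M + 1) → ℂ, (y, Z) ∈ jetc Y → eval (Sum.elim y Z) R = 0 →
      ∀ a b s : ℂ, a ≠ 0 → b ≠ 0 → eval (Sum.elim (a • y) (b • (Z + s • y))) R = 0) :
    (∀ w ∈ jets Y, eval (Sum.elim w.1 w.2) R = 0) ∨
      ∀ z₁, ∀ᶠ z in 𝓝[≠] z₁, eval (Sum.elim (Y z₁ z) (deriv (Y z₁) z)) R ≠ 0 ∧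
        eval (Sum.elim (Y z z) (deriv (Y z) z)) R ≠ 0 := by
  -- vanishing for all `a`, `b`
  have key : ∀ y Z : Fin (M + 1) → ℂ, (y, Z) ∈ jetc Y → eval (Sum.elim y Z) R = 0 →
      ∀ a b s : ℂ, eval (Sum.elim (a • y) (b • (Z + s • y))) R = 0 := by
    intro y Z hyZ h0 a b s
    have h1 : ∀ b : ℂ, b ≠ 0 → ∀ a : ℂ, eval (Sum.elim (a • y) (b • (Z + s • y))) R = 0 := by
      intro b hb a
      have hcont : Continuous fun a : ℂ => eval (Sum.elim (a • y) (b • (Z + s • y))) R :=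
        continuous_eval_elim R (by fun_prop) continuous_const
      have h5 : (fun a : ℂ => eval (Sum.elim (a • y) (b • (Z + s • y))) R) =
          fun _ => 0 := Continuous.ext_on (s := {(0 : ℂ)}ᶜ) (dense_compl_singleton (0 : ℂ))
        hcont continuous_const (fun a ha => hR y Z hyZ h0 a b s ha hb)
      exact congrFun h5 a
    have hcont : Continuous fun b : ℂ => eval (Sum.elim (a • y) (b • (Z + s • y))) R :=
      continuous_eval_elim R continuous_const (by fun_prop)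
    have h5 : (fun b : ℂ => eval (Sum.elim (a • y) (b • (Z + s • y))) R) =
        fun _ => 0 := Continuous.ext_on (s := {(0 : ℂ)}ᶜ) (dense_compl_singleton (0 : ℂ))
      hcont continuous_const (fun b hb => h1 b hb a)
    exact congrFun h5 b
  rcases jets_dichotomy hY R with h | h
  · exact Or.inl h
  · right
    intro z₁
    filter_upwards [h z₁, (mem_jets hY z₁).filter_mono nhdsWithin_le_nhds,
      (jset_transfer hY z₁).filter_mono nhdsWithin_le_nhds] with z ⟨a, b, s, hz⟩ hz2 hz3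
    constructor
    · intro h0
      have h1 : (a • Y z z, b • (deriv (Y z) z + s • Y z z)) ∈
          jset (Y z z) (deriv (Y z) z) := ⟨a, b, s, rfl⟩
      rw [hz3] at h1
      obtain ⟨a', b', s', h2⟩ := h1
      rw [Prod.mk.injEq] at h2
      rw [h2.1, h2.2] at hz
      apply hz
      apply key _ _ _ h0
      have h3 := jets_subset_jetc Y (hz2 1 1 0)
      rwa [one_smul, one_smul, zero_smul, add_zero] at h3
    · intro h0
      apply hz
      apply key _ _ _ h0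
      exact ⟨z, 1, 1, 0, by rw [one_smul, one_smul, zero_smul, add_zero]⟩

lemma aeval_eq_eval_map {K σ : Type*} [Field K] [Algebra K ℂ] (x : σ → ℂ) (G : MvPolynomial σ K) :
    aeval x G = eval x (MvPolynomial.map (algebraMap K ℂ) G) := by
  rw [eval_map, aeval_def]

lemma closure_jetc_closed {M : ℕ} (Y : ℂ → ℂ → Fin (M + 1) → ℂ) (y Z : Fin (M + 1) → ℂ)
    (h : (y, Z) ∈ closure (jetc Y)) (a b s : ℂ) : (a • y, b • (Z + s • y)) ∈ closure (jetc Y) := by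
  have hcont : Continuous fun w : (Fin (M + 1) → ℂ) × (Fin (M + 1) → ℂ) =>
      (a • w.1, b • (w.2 + s • w.1)) := by fun_prop
  have h1 := map_mem_closure (f := fun w : (Fin (M + 1) → ℂ) × (Fin (M + 1) → ℂ) =>
      (a • w.1, b • (w.2 + s • w.1))) (t := jetc Y) hcont h
    (fun w hw => jetc_closed Y w.1 w.2 hw a b s)
  exact h1

lemma rel_on_closure {K : Type*} [Field K] [Algebra K ℂ] {M : ℕ} {Y : ℂ → ℂ → Fin (M + 1) → ℂ}
    {G : MvPolynomial (Fin (M + 1) ⊕ Fin (M + 1)) K}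
    (h : ∀ w' ∈ jets Y, aeval (Sum.elim w'.1 w'.2) G = 0) (y Z : Fin (M + 1) → ℂ)
    (hyZ : (y, Z) ∈ closure (jetc Y)) : aeval (Sum.elim y Z) G = 0 := by
  have h1 : ∀ w ∈ jetc Y,
      eval (Sum.elim w.1 w.2) (MvPolynomial.map (algebraMap K ℂ) G) = 0 := by
    apply zero_on_jetc
    intro w hw
    rw [← aeval_eq_eval_map]
    exact h w hw
  rw [aeval_eq_eval_map]
  obtain ⟨G', hG'⟩ : ∃ G', G' = MvPolynomial.map (algebraMap K ℂ) G := ⟨_, rfl⟩
  rw [← hG'] at h1 ⊢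
  have hcont : Continuous fun w : (Fin (M + 1) → ℂ) × (Fin (M + 1) → ℂ) =>
      eval (Sum.elim w.1 w.2) G' := continuous_eval_elim _ continuous_fst continuous_snd
  obtain ⟨T, hT⟩ : ∃ T : Set ((Fin (M + 1) → ℂ) × (Fin (M + 1) → ℂ)), T =
      {w | eval (Sum.elim w.1 w.2) G' = 0} := ⟨_, rfl⟩
  have hcl : IsClosed T := by
    rw [hT]
    exact isClosed_eq hcont continuous_const
  have h2 : (y, Z) ∈ T := by
    refine closure_minimal (fun w hw => ?_) hcl hyZ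
    rw [hT]
    exact h1 w hw
  rw [hT] at h2
  exact h2

/-- the determinant of two coordinates -/
noncomputable def minorP (K : Type*) [Field K] {M : ℕ} (a b : Fin (M + 1)) :
    MvPolynomial (Fin (M + 1) ⊕ Fin (M + 1)) K :=
  X (Sum.inl a) * X (Sum.inr b) - X (Sum.inl b) * X (Sum.inr a)

lemma aeval_minorP {K : Type*} [Field K] [Algebra K ℂ] {M : ℕ} (a b : Fin (M + 1))
    (y Z : Fin (M + 1) → ℂ) : aeval (Sum.elim y Z) (minorP K a b) = y a * Z b - y b * Z a := by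
  simp [minorP]

lemma exists_minor {M : ℕ} {y Z : Fin (M + 1) → ℂ} (h : LinearIndependent ℂ ![y, Z]) :
    ∃ a b, y a * Z b - y b * Z a ≠ 0 := by
  by_contra hcon
  push Not at hcon
  have hy0 : y ≠ 0 := by
    have := h.ne_zero 0
    simpa using this
  obtain ⟨a, ha⟩ : ∃ a, y a ≠ 0 := by
    by_contra h
    push Not at h
    exact hy0 (funext h)
  rw [LinearIndependent.pair_iff] at h
  have h1 := h (Z a) (-(y a)) (by
    funext b
    simp only [Pi.add_apply, Pi.smul_apply, smul_eq_mul, Pi.zero_apply]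
    linear_combination (-1 : ℂ) * hcon a b)
  exact ha (neg_eq_zero.mp h1.2)

lemma minor_dot {M : ℕ} (p y Z : Fin (M + 1) → ℂ) (i : Fin (M + 1)) :
    (p ⬝ᵥ Z) * y i - Z i * (p ⬝ᵥ y) = p ⬝ᵥ (fun k => Z k * y i - Z i * y k) := by
  simp only [dotProduct, Finset.sum_mul, Finset.mul_sum, ← Finset.sum_sub_distrib]
  exact Finset.sum_congr rfl fun k _ => by ring

lemma sep_minor {K : Type*} [Field K] [Algebra K ℂ] {q M : ℕ} {p : Fin q → Fin (M + 1) → ℂ}
    {F : Subalgebra K ℂ} (hp : AlgebraicIndependent F (fun x : Fin q × Fin (M + 1) => p x.1 x.2))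
    {y Z : Fin (M + 1) → ℂ} (hy : ∀ i, y i ∈ F) (hZ : ∀ i, Z i ∈ F) {a b : Fin (M + 1)}
    (hab : y a * Z b - y b * Z a ≠ 0) (j : Fin q) (i : Fin (M + 1)) (hi : y i ≠ 0) :
    (p j ⬝ᵥ Z) * y i - Z i * (p j ⬝ᵥ y) ≠ 0 := by
  rw [minor_dot]
  refine dot_ne_zero (K := K) hp (y := fun k => Z k * y i - Z i * y k)
    (fun k => F.sub_mem (F.mul_mem (hZ k) (hy i)) (F.mul_mem (hZ i) (hy k))) ?_ j
  intro h0
  apply hab
  have h1 : ∀ k, Z k * y i - Z i * y k = 0 := fun k => congrFun h0 k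
  have h2 : (y a * Z b - y b * Z a) * y i = 0 := by
    linear_combination (y a) * h1 b - (y b) * h1 a
  exact (mul_eq_zero.mp h2).resolve_right hi

lemma wronskian_ne {K : Type*} [Field K] [Algebra K ℂ] {q M : ℕ} {p : Fin q → Fin (M + 1) → ℂ}
    {F : Subalgebra K ℂ} (hp : AlgebraicIndependent F (fun x : Fin q × Fin (M + 1) => p x.1 x.2))
    {y Z : Fin (M + 1) → ℂ} (hy : ∀ i, y i ∈ F) (hZ : ∀ i, Z i ∈ F) {a b : Fin (M + 1)}
    (hab : y a * Z b - y b * Z a ≠ 0) {i j : Fin q} (hij : i ≠ j) :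
    (p i ⬝ᵥ y) * (p j ⬝ᵥ Z) - (p j ⬝ᵥ y) * (p i ⬝ᵥ Z) ≠ 0 := by
  intro h0
  apply hab
  have h1 : aeval (Sum.elim (fun x : Fin q × Fin (M + 1) => p x.1 x.2) (Sum.elim y Z))
      (lR K i * bR K j - lR K j * bR K i) = 0 := by
    have h2 := aeval_lR (K := K) p y Z
    have h3 := aeval_bR (K := K) p y Z
    unfold pt at h2 h3
    rw [map_sub, map_mul, map_mul, h2, h2, h3, h3, h0]
  have h4 := transfer (F := F) (w := Sum.elim y Z)
    (by rintro (k | k); exacts [hy k, hZ k]) hp h1 (w' := Sum.elim y Z) (fun G hG => hG)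
    (fun x => (Pi.single (if x.1 = i then a else b) (1 : ℂ) : Fin (M + 1) → ℂ) x.2)
  obtain ⟨p', hp'⟩ : ∃ p' : Fin q → Fin (M + 1) → ℂ,
    p' = fun l => (Pi.single (if l = i then a else b) (1 : ℂ)) := ⟨_, rfl⟩
  have h5 : aeval (pt p' y Z) (lR K i * bR K j - lR K j * bR K i) = 0 := by
    rw [hp']
    exact h4
  rw [map_sub, map_mul, map_mul, aeval_lR, aeval_lR, aeval_bR, aeval_bR, hp'] at h5
  simpa [hij.symm] using h5

/-- uniform separation by the chosen hyperplanes -/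
lemma sep_jetc {K : Type*} [Field K] [Algebra K ℂ] {q M N D : ℕ} {p : Fin N → Fin (M + 1) → ℂ}
    (hp : AlgebraicIndependent K (fun x : Fin N × Fin (M + 1) => p x.1 x.2)) (hqD : D < q)
    (e : Fin q → Fin N) (he : Function.Injective e) {Y : ℂ → ℂ → Fin (M + 1) → ℂ}
    (htr : ∀ y Z, (y, Z) ∈ closure (jetc Y) → TrdegLE K (Sum.elim y Z) D) :
    ∃ c₀ : ℝ, 0 < c₀ ∧ ∀ y Z, (y, Z) ∈ jetc Y →
      c₀ * ‖y‖ ≤ ‖fun j => p (e j) ⬝ᵥ y‖ ∧ c₀ * ‖Z‖ ≤ ‖fun j => p (e j) ⬝ᵥ Z‖ := by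
  -- the linear map
  have key : ∀ y Z, (y, Z) ∈ closure (jetc Y) →
      (y ≠ 0 → ∃ j, p (e j) ⬝ᵥ y ≠ 0) ∧ (Z ≠ 0 → ∃ j, p (e j) ⬝ᵥ Z ≠ 0) := by
    intro y Z hyZ
    obtain ⟨A, F, hA, hF, hpA⟩ := exists_indep_blocks hp (htr y Z hyZ)
    obtain ⟨j, hj⟩ : ∃ j, e j ∈ A := by
      by_contra hcon
      push Not at hcon
      have h1 : Disjoint (Finset.univ.map ⟨e, he⟩) A := by
        rw [Finset.disjoint_left]
        intro x hx
        obtain ⟨j, -, rfl⟩ := Finset.mem_map.mp hx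
        exact hcon j
      have h2 := Finset.card_union_of_disjoint h1
      have h3 := Finset.card_le_univ (Finset.univ.map ⟨e, he⟩ ∪ A)
      rw [h2, Finset.card_map, Finset.card_univ, Fintype.card_fin, Fintype.card_fin] at h3
      omega
    constructor
    · intro hy0
      exact ⟨j, dot_ne_zero hpA (y := y) (fun i => hF (Sum.inl i)) hy0 ⟨e j, hj⟩⟩
    · intro hZ0
      exact ⟨j, dot_ne_zero hpA (y := Z) (fun i => hF (Sum.inr i)) hZ0 ⟨e j, hj⟩⟩
  have hL : ∀ y : Fin (M + 1) → ℂ,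
      Matrix.mulVecLin (Matrix.of fun j => p (e j)) y = fun j => p (e j) ⬝ᵥ y := by
    intro y
    rfl
  obtain ⟨c₁, hc₁, h₁⟩ := uniform_sep (T := {y : Fin (M + 1) → ℂ | (y, 0) ∈ closure (jetc Y)})
    (isClosed_closure.preimage (by fun_prop))
    (fun y hy a => by
      have := closure_jetc_closed Y y 0 hy a 0 0
      rwa [zero_smul] at this)
    (Matrix.mulVecLin (Matrix.of fun j => p (e j)))
    (fun y hy h0 => by
      by_contra hy0
      obtain ⟨j, hj⟩ := (key y 0 hy).1 hy0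
      exact hj (congrFun h0 j))
  obtain ⟨c₂, hc₂, h₂⟩ := uniform_sep (T := {Z : Fin (M + 1) → ℂ | (0, Z) ∈ closure (jetc Y)})
    (isClosed_closure.preimage (by fun_prop))
    (fun Z hZ a => by
      have := closure_jetc_closed Y 0 Z hZ 0 a 0
      rwa [zero_smul, add_zero] at this)
    (Matrix.mulVecLin (Matrix.of fun j => p (e j)))
    (fun Z hZ h0 => by
      by_contra hZ0
      obtain ⟨j, hj⟩ := (key 0 Z hZ).2 hZ0
      exact hj (congrFun h0 j))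
  refine ⟨min c₁ c₂, lt_min hc₁ hc₂, fun y Z hyZ => ⟨?_, ?_⟩⟩
  · have h3 : (y, (0 : Fin (M + 1) → ℂ)) ∈ jetc Y := by
      have := jetc_closed Y y Z hyZ 1 0 0
      rwa [zero_smul, one_smul] at this
    have h4 := h₁ y (subset_closure h3)
    rw [hL] at h4
    exact le_trans (mul_le_mul_of_nonneg_right (min_le_left _ _) (norm_nonneg _)) h4
  · have h3 : ((0 : Fin (M + 1) → ℂ), Z) ∈ jetc Y := by
      have := jetc_closed Y y Z hyZ 0 1 0
      rwa [zero_smul, one_smul, add_zero] at this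
    have h4 := h₂ Z (subset_closure h3)
    rw [hL] at h4
    exact le_trans (mul_le_mul_of_nonneg_right (min_le_right _ _) (norm_nonneg _)) h4

/-- the linear form -/
noncomputable def lP {M : ℕ} (p : Fin (M + 1) → ℂ) : MvPolynomial (Fin (M + 1) ⊕ Fin (M + 1)) ℂ :=
  ∑ i, C (p i) * X (Sum.inl i)

/-- the derivative of the linear form -/
noncomputable def bP {M : ℕ} (p : Fin (M + 1) → ℂ) : MvPolynomial (Fin (M + 1) ⊕ Fin (M + 1)) ℂ :=
  ∑ i, C (p i) * X (Sum.inr i)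

lemma eval_lP {M : ℕ} (p y Z : Fin (M + 1) → ℂ) : eval (Sum.elim y Z) (lP p) = p ⬝ᵥ y := by
  simp [lP, dotProduct]

lemma eval_bP {M : ℕ} (p y Z : Fin (M + 1) → ℂ) : eval (Sum.elim y Z) (bP p) = p ⬝ᵥ Z := by
  simp [bP, dotProduct]

lemma eventually_lP {M : ℕ} {Y : ℂ → ℂ → Fin (M + 1) → ℂ} (hY : LiftFamily Y)
    (p : Fin (M + 1) → ℂ) {w : (Fin (M + 1) → ℂ) × (Fin (M + 1) → ℂ)} (hw : w ∈ jets Y)
    (h : p ⬝ᵥ w.1 ≠ 0) (z₁ : ℂ) : ∀ᶠ z in 𝓝[≠] z₁, p ⬝ᵥ Y z₁ z ≠ 0 := by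
  rcases eventually_ne hY (lP p) (fun y Z _ h0 a b s _ _ => by
    rw [eval_lP] at h0 ⊢
    rw [dotProduct_smul, h0, smul_zero]) with h1 | h1
  · have := h1 w hw
    rw [eval_lP] at this
    exact absurd this h
  · filter_upwards [h1 z₁] with z hz
    have h2 := hz.1
    rwa [eval_lP] at h2

lemma eventually_wr {M : ℕ} {Y : ℂ → ℂ → Fin (M + 1) → ℂ} (hY : LiftFamily Y)
    (p p' : Fin (M + 1) → ℂ) {w : (Fin (M + 1) → ℂ) × (Fin (M + 1) → ℂ)} (hw : w ∈ jets Y)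
    (h : (p ⬝ᵥ w.1) * (p' ⬝ᵥ w.2) - (p' ⬝ᵥ w.1) * (p ⬝ᵥ w.2) ≠ 0) (z₁ : ℂ) :
    ∀ᶠ z in 𝓝[≠] z₁,
      (p ⬝ᵥ Y z₁ z) * (p' ⬝ᵥ deriv (Y z₁) z) - (p' ⬝ᵥ Y z₁ z) * (p ⬝ᵥ deriv (Y z₁) z) ≠ 0 ∧
      (p ⬝ᵥ Y z z) * (p' ⬝ᵥ deriv (Y z) z) - (p' ⬝ᵥ Y z z) * (p ⬝ᵥ deriv (Y z) z) ≠ 0 := by
  have hev : ∀ y Z : Fin (M + 1) → ℂ, eval (Sum.elim y Z) (lP p * bP p' - lP p' * bP p) =
      (p ⬝ᵥ y) * (p' ⬝ᵥ Z) - (p' ⬝ᵥ y) * (p ⬝ᵥ Z) := by
    intro y Z
    rw [map_sub, map_mul, map_mul, eval_lP, eval_lP, eval_bP, eval_bP]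
  rcases eventually_ne hY (lP p * bP p' - lP p' * bP p) (fun y Z _ h0 a b s _ _ => by
    rw [hev] at h0 ⊢
    simp only [dotProduct_smul, dotProduct_add, smul_eq_mul]
    linear_combination (a * b) * h0) with h1 | h1
  · have := h1 w hw
    rw [hev] at this
    exact absurd this h
  · filter_upwards [h1 z₁] with z hz
    rw [hev, hev] at hz
    exact hz

lemma eventually_minor {M : ℕ} {Y : ℂ → ℂ → Fin (M + 1) → ℂ} (hY : LiftFamily Y)
    (p : Fin (M + 1) → ℂ) {w : (Fin (M + 1) → ℂ) × (Fin (M + 1) → ℂ)} (hw : w ∈ jets Y)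
    (i : Fin (M + 1)) (h : (p ⬝ᵥ w.2) * w.1 i - w.2 i * (p ⬝ᵥ w.1) ≠ 0) (z₁ : ℂ) :
    ∀ᶠ z in 𝓝[≠] z₁,
      (p ⬝ᵥ deriv (Y z₁) z) * Y z₁ z i - deriv (Y z₁) z i * (p ⬝ᵥ Y z₁ z) ≠ 0 := by
  have hev : ∀ y Z : Fin (M + 1) → ℂ,
      eval (Sum.elim y Z) (bP p * X (Sum.inl i) - X (Sum.inr i) * lP p) =
      (p ⬝ᵥ Z) * y i - Z i * (p ⬝ᵥ y) := by
    intro y Z
    rw [map_sub, map_mul, map_mul, eval_lP, eval_bP, eval_X, eval_X, Sum.elim_inl, Sum.elim_inr]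
  rcases eventually_ne hY (bP p * X (Sum.inl i) - X (Sum.inr i) * lP p)
    (fun y Z _ h0 a b s _ _ => by
      rw [hev] at h0 ⊢
      simp only [dotProduct_smul, dotProduct_add, smul_eq_mul, Pi.smul_apply, Pi.add_apply]
      linear_combination (a * b) * h0) with h1 | h1
  · have := h1 w hw
    rw [hev] at this
    exact absurd this h
  · filter_upwards [h1 z₁] with z hz
    rw [hev] at hz
    exact hz.1

theorem family_const {K : Type*} [Field K] [Algebra K ℂ] [Countable K] {n M N : ℕ}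
    (hN : 22 * n + 32 ≤ N) {p : Fin N → Fin (M + 1) → ℂ}
    (hp : AlgebraicIndependent K (fun x : Fin N × Fin (M + 1) => p x.1 x.2))
    {Y : ℂ → ℂ → Fin (M + 1) → ℂ} (hY : LiftFamily Y)
    (hV : ∀ z, ∀ a : ℂ, TrdegLE K (a • Y z z) (n + 1))
    (hord : ∀ j z₁, analyticOrderAt (fun z => p j ⬝ᵥ Y z₁ z) z₁ = 0 ∨
      (2 : ℕ∞) ≤ analyticOrderAt (fun z => p j ⬝ᵥ Y z₁ z) z₁) :
    ∀ z w, ∃ a : ℂ, a ≠ 0 ∧ Y z z = a • Y w w := by
  intro z w
  by_contra hcon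
  have hex : ∃ z₁, LinearIndependent ℂ ![Y z₁ z₁, deriv (Y z₁) z₁] := by
    by_contra h
    push Not at h
    exact hcon (hY.const h z w)
  clear hcon z w
  obtain ⟨z₁, hz₁⟩ := hex
  obtain ⟨a₀, b₀, hab₀⟩ := exists_minor hz₁
  obtain ⟨w, hw, hgen⟩ := exists_generic hY K
  have hab : w.1 a₀ * w.2 b₀ - w.1 b₀ * w.2 a₀ ≠ 0 := by
    intro h0
    apply hab₀
    have h1 := hgen (minorP K a₀ b₀) (by rw [aeval_minorP]; exact h0) (Y z₁ z₁, deriv (Y z₁) z₁)
      ⟨z₁, 1, 1, 0, by rw [one_smul, one_smul, zero_smul, add_zero]⟩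
    rw [aeval_minorP] at h1
    exact h1
  have hw1 : w.1 ≠ 0 := by
    intro h
    apply hab
    simp [h]
  have hw2 : w.2 ≠ 0 := by
    intro h
    apply hab
    simp [h]
  have htr1 : TrdegLE K w.1 (n + 1) := by
    obtain ⟨z, a, b, s, h⟩ := hw
    rw [h]
    exact hV z a
  have htr : TrdegLE K (Sum.elim w.1 w.2) (2 * (n + 1)) := trdeg_tangent hY hw hw1 hgen htr1
  have hrel : ∀ y Z : Fin (M + 1) → ℂ, (y, Z) ∈ closure (jetc Y) →
      ∀ G : MvPolynomial (Fin (M + 1) ⊕ Fin (M + 1)) K,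
        aeval (Sum.elim w.1 w.2) G = 0 → aeval (Sum.elim y Z) G = 0 := by
    intro y Z hyZ G hG
    exact rel_on_closure (hgen G hG) y Z hyZ
  have htrc : ∀ y Z, (y, Z) ∈ closure (jetc Y) →
      TrdegLE K (Sum.elim y Z) (2 * (n + 1)) := fun y Z hyZ => htr.specialize (hrel y Z hyZ)
  obtain ⟨A₁, F, hA, hF, hpA⟩ := exists_indep_blocks hp htr
  obtain ⟨q, hq⟩ : ∃ q, q = 10 * (2 * n + 3) := ⟨_, rfl⟩
  obtain ⟨e⟩ : Nonempty (Fin q ↪ A₁) := by
    apply Function.Embedding.nonempty_of_card_le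
    rw [Fintype.card_fin, Fintype.card_coe]
    omega
  have hpF : AlgebraicIndependent F (fun x : Fin q × Fin (M + 1) => p (e x.1) x.2) := by
    refine hpA.comp (fun x : Fin q × Fin (M + 1) => (e x.1, x.2)) ?_
    rintro ⟨x1, x2⟩ ⟨y1, y2⟩ h
    rw [Prod.mk.injEq] at h ⊢
    exact ⟨e.injective h.1, h.2⟩
  have hF1 : ∀ i, w.1 i ∈ F := fun i => hF (Sum.inl i)
  have hF2 : ∀ i, w.2 i ∈ F := fun i => hF (Sum.inr i)
  obtain ⟨c₀, hc₀, hsep⟩ := sep_jetc hp (D := 2 * (n + 1)) (q := q) (by omega)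
    (fun j => (e j : Fin N)) (fun i j h => e.injective (Subtype.ext h)) htrc
  obtain ⟨p', hp'⟩ : ∃ p' : Fin q → Fin (M + 1) → ℂ, p' = fun j => p (e j) := ⟨_, rfl⟩
  have hp'j : ∀ j, p (e j) = p' j := fun j => by rw [hp']
  simp only [hp'j] at hpF hsep
  have hord' : ∀ j z₁, analyticOrderAt (fun z => p' j ⬝ᵥ Y z₁ z) z₁ = 0 ∨
      (2 : ℕ∞) ≤ analyticOrderAt (fun z => p' j ⬝ᵥ Y z₁ z) z₁ := fun j z₁ => by
    rw [← hp'j]
    exact hord _ z₁
  have hnum : 182 ^ (2 * (n + 1) + 1) * 10 ^ q ≤ 17 ^ q := by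
    rw [hq, pow_mul, pow_mul, show 2 * (n + 1) + 1 = 2 * n + 3 by ring, ← mul_pow]
    exact Nat.pow_le_pow_left (by norm_num) _
  obtain ⟨K₀, A, B, τ, c, g, hτ, hdeg, hgood, hhom, hne⟩ := exists_certificate (by omega) hnum
    hw1 hw2 htr hF1 hF2 hpF
  -- the bound for the leading coefficient
  obtain ⟨Q, hQ⟩ := exists_poly (K₀ := K₀) p' g c
  have hW := jetc_closed Y
  obtain ⟨C, hC, hCb⟩ := scaled_bound hdeg p' hW hc₀ hsep c g
    (fun p'' y Z hyZ => hgood y Z (hrel y Z (subset_closure hyZ)) p'') hhom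
  have hwc : (w.1, w.2) ∈ jetc Y := jets_subset_jetc Y hw
  obtain ⟨f, G, C', hC', hcov, hhomZ, hneG, hbdG⟩ := top_coeff (K := K₀) (A := A) (B := B) (τ := τ)
    p' hW Q
    (fun y Z a b => by rw [hQ, hQ, hhom])
    hC (fun y Z hyZ h1 x v hx h2 h3 h4 => by
      rw [hQ]
      exact hCb y Z hyZ h1 x v hx h2 h3 h4)
    ⟨w.1, w.2, hwc, by rw [hQ]; exact hne⟩
  -- the exceptional points are isolated
  have hl : ∀ j z₁, ∀ᶠ z in 𝓝[≠] z₁, p' j ⬝ᵥ Y z₁ z ≠ 0 := fun j z₁ =>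
    eventually_lP hY (p' j) hw (dot_ne_zero hpF (y := w.1) hF1 hw1 j) z₁
  have hwr : ∀ i j, i ≠ j → ∀ z₁, ∀ᶠ z in 𝓝[≠] z₁,
      (p' i ⬝ᵥ Y z₁ z) * (p' j ⬝ᵥ deriv (Y z₁) z) -
        (p' j ⬝ᵥ Y z₁ z) * (p' i ⬝ᵥ deriv (Y z₁) z) ≠ 0 ∧
      (p' i ⬝ᵥ Y z z) * (p' j ⬝ᵥ deriv (Y z) z) -
        (p' j ⬝ᵥ Y z z) * (p' i ⬝ᵥ deriv (Y z) z) ≠ 0 := fun i j hij z₁ =>
    eventually_wr hY (p' i) (p' j) hw (wronskian_ne hpF hF1 hF2 hab hij) z₁
  have hmin : ∀ i j z₁, ∀ᶠ z in 𝓝[≠] z₁, Y z₁ z i ≠ 0 →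
      (p' j ⬝ᵥ deriv (Y z₁) z) * Y z₁ z i - deriv (Y z₁) z i * (p' j ⬝ᵥ Y z₁ z) ≠ 0 := by
    intro i j z₁
    by_cases hi : w.1 i = 0
    · have h1 := hgen (X (Sum.inl i)) (by rw [aeval_X, Sum.elim_inl]; exact hi)
      filter_upwards [(mem_jets hY z₁).filter_mono nhdsWithin_le_nhds] with z hz hne0
      exfalso
      apply hne0
      have h2 := h1 _ (hz 1 1 0)
      rw [aeval_X, Sum.elim_inl, one_smul] at h2
      exact h2
    · filter_upwards [eventually_minor hY (p' j) hw i (sep_minor hpF hF1 hF2 hab j i hi) z₁]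
        with z hz _
      exact hz
  have hmem : ∀ z₁, ∀ᶠ z in 𝓝 z₁, (Y z₁ z, deriv (Y z₁) z) ∈ jetc Y := by
    intro z₁
    filter_upwards [mem_jets hY z₁] with z hz
    have h3 := jets_subset_jetc Y (hz 1 1 0)
    rwa [one_smul, one_smul, zero_smul, add_zero] at h3
  have hGne : ∀ z₁, ∀ᶠ z in 𝓝[≠] z₁, eval (Sum.elim (Y z₁ z) (deriv (Y z₁) z)) G ≠ 0 ∧
      eval (Sum.elim (Y z z) (deriv (Y z) z)) G ≠ 0 := by
    rcases eventually_ne hY G (fun y Z hyZ h0 a b s ha hb => by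
      have h1 : b • (Z + s • y) = (b / a) • (a • Z + (a * s) • y) := by
        rw [smul_add, smul_add, smul_smul, smul_smul, smul_smul, div_mul_cancel₀ _ ha]
        congr 2
        field_simp
      rw [h1, hhomZ _ _ _ (div_ne_zero hb ha), hcov y Z hyZ a (a * s) ha, h0, mul_zero,
        mul_zero]) with h | h
    · exfalso
      obtain ⟨y, Z, hyZ, hne'⟩ := hneG
      exact hne' (zero_on_jetc h (y, Z) hyZ)
    · exact h
  obtain ⟨z₀, hG₀, hW₀⟩ : ∃ z₀, eval (Sum.elim (Y z₀ z₀) (deriv (Y z₀) z₀)) G ≠ 0 ∧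
      ∀ i j, i ≠ j → (p' i ⬝ᵥ Y z₀ z₀) * (p' j ⬝ᵥ deriv (Y z₀) z₀) -
        (p' j ⬝ᵥ Y z₀ z₀) * (p' i ⬝ᵥ deriv (Y z₀) z₀) ≠ 0 := by
    have h1 : ∀ᶠ z in 𝓝[≠] (0 : ℂ), ∀ i j, i ≠ j →
        (p' i ⬝ᵥ Y z z) * (p' j ⬝ᵥ deriv (Y z) z) -
        (p' j ⬝ᵥ Y z z) * (p' i ⬝ᵥ deriv (Y z) z) ≠ 0 := by
      rw [Filter.eventually_all]
      intro i
      rw [Filter.eventually_all]
      intro j
      by_cases hij : i = j
      · exact Filter.Eventually.of_forall fun z h => absurd hij h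
      · filter_upwards [hwr i j hij 0] with z hz _
        exact hz.2
    obtain ⟨z₀, h2, h3⟩ := ((hGne 0).and h1).exists
    exact ⟨z₀, h2.2, h3⟩
  have hq2 : 2 ≤ q := by omega
  refine caseV hq2 hτ (d := A + B) (e := f) (K := K₀) (by rw [hdeg]) p' G hY ?_ hC' ?_ ?_ ?_ hord' hG₀ hW₀
  · intro z₁
    filter_upwards [hmem z₁] with z hz a s ha
    exact hcov _ _ hz a s ha
  · intro z₁
    have h1 : ∀ᶠ z in 𝓝[≠] z₁, ∀ j, p' j ⬝ᵥ Y z₁ z ≠ 0 := by
      rw [Filter.eventually_all]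
      exact fun j => hl j z₁
    have h2 : ∀ᶠ z in 𝓝[≠] z₁, ∀ i j, Y z₁ z i ≠ 0 →
        (p' j ⬝ᵥ deriv (Y z₁) z) * Y z₁ z i - deriv (Y z₁) z i * (p' j ⬝ᵥ Y z₁ z) ≠ 0 := by
      rw [Filter.eventually_all]
      intro i
      rw [Filter.eventually_all]
      exact fun j => hmin i j z₁
    filter_upwards [h1, h2, (hmem z₁).filter_mono nhdsWithin_le_nhds,
      hwr ⟨0, by omega⟩ ⟨1, by omega⟩ (by simp) z₁] with z g1 g2 g3 g4 x v hx hv β
    have hxj : ∀ j, x j ≠ 0 := by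
      intro j h0
      apply g1 j
      rw [hx j, h0]
      ring
    have hx0 : x ≠ 0 := by
      rintro rfl
      exact hxj ⟨0, by omega⟩ rfl
    refine hbdG _ _ g3 g2 ⟨⟨1, by omega⟩, ⟨0, by omega⟩, ?_⟩ x v hx0 hx hv hxj β
    intro h0
    apply g4.1
    linear_combination h0
  · intro z₁
    by_contra hcon
    push Not at hcon
    have h1 := (hsep _ _ (hmem z₁).self_of_nhds).1
    have h2 : (fun j => p' j ⬝ᵥ Y z₁ z₁) = 0 := funext hcon
    rw [h2, norm_zero] at h1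
    have h3 : 0 < ‖Y z₁ z₁‖ := norm_pos_iff.mpr (hY.2.1 z₁)
    have h4 := mul_pos hc₀ h3
    linarith
  · intro j z₁
    rcases hY.top_or (p' j) with h | h
    · exact h z₁
    · exfalso
      obtain ⟨z, a, b, s, hw'⟩ := hw
      apply dot_ne_zero hpF (y := w.1) hF1 hw1 j
      have h1 : w.1 = a • Y z z := by rw [hw']
      have h2 : p' j ⬝ᵥ w.1 = 0 := by rw [h1, dotProduct_smul, h z, smul_zero]
      exact h2

end Pool.Agent.Lib.GGL.VG
end

section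

/-!
Good families of blocks: dimension count for general hyperplanes.
-/

open Filter Topology MvPolynomial Module

namespace Pool.Agent.Lib.GGL.SM

open VG

/-- For general `p` and every point `w` at which not all substitutions into `Λ` vanish there are
`N'` of the hyperplanes such that `Λ` does not vanish for any `q` of them. -/
theorem good_blocks {σ : Type} [Finite σ] {q M N N' D : ℕ} (hN : N' + D ≤ N)
    (𝔞 : Ideal (MvPolynomial σ ℂ))
    (htr : ∀ (L : Type) [Field L] [Algebra ℂ L] (w : σ → L), (∀ G ∈ 𝔞, aeval w G = 0) →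
      TrdegLE ℂ w D)
    (Λ : MvPolynomial ((Fin q × Fin (M + 1)) ⊕ σ) ℂ) :
    ∃ Θ : MvPolynomial (Fin N × Fin (M + 1)) ℂ, Θ ≠ 0 ∧ ∀ p : Fin N → Fin (M + 1) → ℂ,
      eval (fun x : Fin N × Fin (M + 1) => p x.1 x.2) Θ ≠ 0 →
      ∀ w : σ → ℂ, (∀ G ∈ 𝔞, eval w G = 0) →
      (∃ m, eval w (coeff m (sumAlgEquiv ℂ (Fin q × Fin (M + 1)) σ Λ)) ≠ 0) →
      ∃ e' : Fin N' ↪ Fin N, ∀ e : Fin q ↪ Fin N',
        eval (Sum.elim (fun x : Fin q × Fin (M + 1) => p (e' (e x.1)) x.2) w) Λ ≠ 0 := by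
  classical
  obtain ⟨Λ₂, hΛ₂⟩ : ∃ Λ₂ : MvPolynomial ((Fin N' × Fin (M + 1)) ⊕ σ) ℂ, Λ₂ =
    ∏ e : Fin q ↪ Fin N', rename (Sum.map (fun x : Fin q × Fin (M + 1) => (e x.1, x.2)) id) Λ :=
    ⟨_, rfl⟩
  have heval : ∀ (p' : Fin N' × Fin (M + 1) → ℂ) (w : σ → ℂ), eval (Sum.elim p' w) Λ₂ =
      ∏ e : Fin q ↪ Fin N', eval (Sum.elim (fun x : Fin q × Fin (M + 1) => p' (e x.1, x.2)) w) Λ := by
    intro p' w
    rw [hΛ₂, map_prod]
    refine Finset.prod_congr rfl fun e _ => ?_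
    rw [eval_rename]
    congr 2
    funext i
    rcases i with i | i
    · rfl
    · rfl
  obtain ⟨Θ, hΘ, h⟩ := dim_count (M := M) hN 𝔞 htr Λ₂
  refine ⟨Θ, hΘ, ?_⟩
  intro p hp w hw hm
  obtain ⟨m, hm⟩ := hm
  by_contra hcon
  push Not at hcon
  have h1 := h p hp w hw (by
    intro e'
    obtain ⟨e, he⟩ := hcon e'
    rw [heval]
    exact Finset.prod_eq_zero (Finset.mem_univ e) he)
  obtain ⟨P, hP⟩ : ∃ P : MvPolynomial (Fin q × Fin (M + 1)) ℂ, P =
    MvPolynomial.map (aeval w : MvPolynomial σ ℂ →ₐ[ℂ] ℂ).toRingHom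
      (sumAlgEquiv ℂ (Fin q × Fin (M + 1)) σ Λ) := ⟨_, rfl⟩
  have hP0 : P ≠ 0 := by
    intro h0
    apply hm
    have h5 := congrArg (coeff m) h0
    rw [hP, coeff_map, coeff_zero] at h5
    exact h5
  have hprod : (∏ e : Fin q ↪ Fin N',
      rename (fun x : Fin q × Fin (M + 1) => (e x.1, x.2)) P) ≠ 0 := by
    refine Finset.prod_ne_zero_iff.mpr fun e _ => ?_
    intro h0
    apply hP0
    have hinj : Function.Injective (fun x : Fin q × Fin (M + 1) => (e x.1, x.2)) := by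
      rintro ⟨x1, x2⟩ ⟨y1, y2⟩ h
      rw [Prod.mk.injEq] at h ⊢
      exact ⟨e.injective h.1, h.2⟩
    exact rename_injective _ hinj (by rw [h0, map_zero])
  apply hprod
  apply MvPolynomial.funext
  intro p'
  rw [map_zero, map_prod]
  have h2 := h1 p'
  rw [heval] at h2
  rw [← h2]
  refine Finset.prod_congr rfl fun e _ => ?_
  rw [eval_rename, hP]
  have h3 := VG.aeval_sum (K := ℂ) (p' ∘ fun x : Fin q × Fin (M + 1) => (e x.1, x.2)) w Λ
  rw [← h3]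
  rfl

end Pool.Agent.Lib.GGL.SM
end
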