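import Mathlib
import Pool.Agent.Lib.MP_8d161d_ag.SM.Defs

section

/-!
Counting: few exponents of small degree.
-/

open Filter Topology MvPolynomial Module

namespace Pool.Agent.Lib.GGL.SM

/-- One factor of the generating function. -/
theorem sum_exp_le (K : ℕ) (lam : ℝ) :
    ∑ i ∈ Finset.range (K + 1), Real.exp (-(lam * i)) ≤
      (K + 1) * Real.exp (-(lam * K / 2) + lam ^ 2 * K ^ 2 / 8) := by
  have h1 : ∑ i ∈ Finset.range (K + 1), Real.exp (-(lam * i)) =
      ∑ i ∈ Finset.range (K + 1), Real.exp (-(lam * ((K : ℝ) - i))) := by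
    rw [← Finset.sum_range_reflect]
    refine Finset.sum_congr rfl fun i hi => ?_
    rw [Finset.mem_range] at hi
    have h2 : ((K + 1 - 1 - i : ℕ) : ℝ) = (K : ℝ) - i := by
      rw [Nat.add_sub_cancel, Nat.cast_sub (by omega)]
    rw [h2]
  have h2 : 2 * ∑ i ∈ Finset.range (K + 1), Real.exp (-(lam * i)) =
      ∑ i ∈ Finset.range (K + 1), (Real.exp (-(lam * i)) + Real.exp (-(lam * ((K : ℝ) - i)))) := by
    rw [Finset.sum_add_distrib, ← h1]
    ring
  have h3 : ∀ i ∈ Finset.range (K + 1),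
      Real.exp (-(lam * i)) + Real.exp (-(lam * ((K : ℝ) - i))) ≤
        2 * Real.exp (-(lam * K / 2) + lam ^ 2 * K ^ 2 / 8) := by
    intro i hi
    rw [Finset.mem_range] at hi
    have hi0 : (0 : ℝ) ≤ i := Nat.cast_nonneg i
    have hiK : (i : ℝ) ≤ K := by exact_mod_cast Nat.lt_succ_iff.1 hi
    have h4 : Real.exp (-(lam * i)) + Real.exp (-(lam * ((K : ℝ) - i))) =
        2 * (Real.exp (-(lam * K / 2)) * Real.cosh (lam * (i - K / 2))) := by
      rw [Real.cosh_eq]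
      have e1 : Real.exp (-(lam * i)) =
          Real.exp (-(lam * K / 2)) * Real.exp (-(lam * (i - K / 2))) := by
        rw [← Real.exp_add]
        congr 1
        ring
      have e2 : Real.exp (-(lam * ((K : ℝ) - i))) =
          Real.exp (-(lam * K / 2)) * Real.exp (lam * (i - K / 2)) := by
        rw [← Real.exp_add]
        congr 1
        ring
      rw [e1, e2]
      ring
    rw [h4, Real.exp_add]
    refine mul_le_mul_of_nonneg_left (mul_le_mul_of_nonneg_left ?_ (Real.exp_pos _).le) (by norm_num)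
    refine (Real.cosh_le_exp_half_sq _).trans (Real.exp_le_exp.2 ?_)
    have h5 : ((i : ℝ) - K / 2) ^ 2 ≤ K ^ 2 / 4 := by nlinarith
    have h6 : (lam * ((i : ℝ) - K / 2)) ^ 2 / 2 = lam ^ 2 * ((i : ℝ) - K / 2) ^ 2 / 2 := by ring
    rw [h6]
    have h7 : 0 ≤ lam ^ 2 := sq_nonneg _
    nlinarith
  have h8 := Finset.sum_le_sum h3
  rw [← h2, Finset.sum_const, Finset.card_range, nsmul_eq_mul] at h8
  push_cast at h8
  linarith

/-- Chernoff's bound for the number of exponents of small degree. -/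
theorem card_small (q k r : ℕ) (hk : 1 ≤ k) (hr : 1 ≤ r) :
    (Fintype.card {f : Fin q → Fin (2 * k * r + 1) // ∑ j, (f j : ℕ) ≤ (k - 1) * q * r} : ℝ) ≤
      (2 * k * r + 1 : ℝ) ^ q * Real.exp (-(q / (2 * k ^ 2))) := by
  have hk0 : (0 : ℝ) < k := by exact_mod_cast hk
  have hr0 : (0 : ℝ) < r := by exact_mod_cast hr
  obtain ⟨lam, hlam⟩ : ∃ lam : ℝ, lam = 1 / (k ^ 2 * r) := ⟨_, rfl⟩
  have hlam0 : 0 < lam := by rw [hlam]; positivity
  obtain ⟨K, hK⟩ : ∃ K : ℕ, K = 2 * k * r := ⟨_, rfl⟩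
  have hKr : (K : ℝ) = 2 * k * r := by rw [hK]; push_cast; ring
  have h1 := sum_exp_le K lam
  -- the generating function
  have h2 : (∑ i ∈ Finset.range (K + 1), Real.exp (-(lam * i))) ^ q =
      ∑ f : Fin q → Fin (K + 1), Real.exp (-(lam * ((∑ j, (f j : ℕ) : ℕ) : ℝ))) := by
    rw [Finset.sum_range, Fintype.sum_pow]
    refine Finset.sum_congr rfl fun f _ => ?_
    rw [← Real.exp_sum]
    congr 1
    push_cast
    rw [Finset.mul_sum, Finset.sum_neg_distrib]
  have h3 : (Fintype.card {f : Fin q → Fin (K + 1) // ∑ j, (f j : ℕ) ≤ (k - 1) * q * r} : ℝ) *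
      Real.exp (-(lam * (((k - 1) * q * r : ℕ) : ℝ))) ≤
      (∑ i ∈ Finset.range (K + 1), Real.exp (-(lam * i))) ^ q := by
    rw [h2, Fintype.card_subtype]
    calc ((Finset.univ.filter fun f : Fin q → Fin (K + 1) =>
          ∑ j, (f j : ℕ) ≤ (k - 1) * q * r).card : ℝ) *
          Real.exp (-(lam * (((k - 1) * q * r : ℕ) : ℝ)))
        = ∑ f ∈ Finset.univ.filter fun f : Fin q → Fin (K + 1) =>
          ∑ j, (f j : ℕ) ≤ (k - 1) * q * r,
            Real.exp (-(lam * (((k - 1) * q * r : ℕ) : ℝ))) := by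
          rw [Finset.sum_const, nsmul_eq_mul]
      _ ≤ ∑ f ∈ Finset.univ.filter fun f : Fin q → Fin (K + 1) =>
          ∑ j, (f j : ℕ) ≤ (k - 1) * q * r,
            Real.exp (-(lam * ((∑ j, (f j : ℕ) : ℕ) : ℝ))) := by
          refine Finset.sum_le_sum fun f hf => ?_
          rw [Finset.mem_filter] at hf
          refine Real.exp_le_exp.2 (neg_le_neg (mul_le_mul_of_nonneg_left ?_ hlam0.le))
          exact_mod_cast hf.2
      _ ≤ ∑ f : Fin q → Fin (K + 1), Real.exp (-(lam * ((∑ j, (f j : ℕ) : ℕ) : ℝ))) :=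
          Finset.sum_le_sum_of_subset_of_nonneg (Finset.filter_subset _ _)
            fun _ _ _ => (Real.exp_pos _).le
  have h4 : (∑ i ∈ Finset.range (K + 1), Real.exp (-(lam * i))) ^ q ≤
      ((K + 1) * Real.exp (-(lam * K / 2) + lam ^ 2 * K ^ 2 / 8)) ^ q :=
    pow_le_pow_left₀ (Finset.sum_nonneg fun _ _ => (Real.exp_pos _).le) h1 q
  have h5 := h3.trans h4
  rw [mul_pow, ← Real.exp_nat_mul] at h5
  have h6 : (Fintype.card {f : Fin q → Fin (K + 1) // ∑ j, (f j : ℕ) ≤ (k - 1) * q * r} : ℝ) ≤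
      (K + 1) ^ q * (Real.exp (q * (-(lam * K / 2) + lam ^ 2 * K ^ 2 / 8)) *
        Real.exp (lam * (((k - 1) * q * r : ℕ) : ℝ))) := by
    have h7 : Real.exp (-(lam * (((k - 1) * q * r : ℕ) : ℝ))) *
        Real.exp (lam * (((k - 1) * q * r : ℕ) : ℝ)) = 1 := by
      rw [← Real.exp_add, neg_add_cancel, Real.exp_zero]
    calc (Fintype.card {f : Fin q → Fin (K + 1) // ∑ j, (f j : ℕ) ≤ (k - 1) * q * r} : ℝ)
        = (Fintype.card {f : Fin q → Fin (K + 1) // ∑ j, (f j : ℕ) ≤ (k - 1) * q * r} : ℝ) *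
          Real.exp (-(lam * (((k - 1) * q * r : ℕ) : ℝ))) *
          Real.exp (lam * (((k - 1) * q * r : ℕ) : ℝ)) := by
          exact (mul_assoc (Fintype.card {f : Fin q → Fin (K + 1) //
            ∑ j, (f j : ℕ) ≤ (k - 1) * q * r} : ℝ) _ _).symm ▸ (by rw [h7, mul_one])
      _ ≤ (K + 1) ^ q * Real.exp (q * (-(lam * K / 2) + lam ^ 2 * K ^ 2 / 8)) *
          Real.exp (lam * (((k - 1) * q * r : ℕ) : ℝ)) :=
          mul_le_mul_of_nonneg_right h5 (Real.exp_pos _).le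
      _ = _ := by ring
  rw [← Real.exp_add] at h6
  have h8 : (q : ℝ) * (-(lam * K / 2) + lam ^ 2 * K ^ 2 / 8) +
      lam * (((k - 1) * q * r : ℕ) : ℝ) = -(q / (2 * k ^ 2)) := by
    rw [Nat.cast_mul, Nat.cast_mul, Nat.cast_sub hk, hKr, hlam]
    push_cast
    field_simp
    ring
  rw [h8, hKr] at h6
  subst hK
  exact h6

end Pool.Agent.Lib.GGL.SM
end

section

/-!
Counting: few exponents of small degree.
-/

open Filter Topology MvPolynomial Module

namespace Pool.Agent.Lib.GGL.SM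

private theorem lin_le_exp {k : ℕ} (hk : 2 ≤ k) : (2 * k + 2 : ℝ) ≤ Real.exp k := by
  have h1 : (6 : ℝ) ≤ Real.exp 2 := by
    have h2 : Real.exp 2 = Real.exp 1 * Real.exp 1 := by
      rw [← Real.exp_add]
      norm_num
    have h3 := Real.exp_one_gt_d9
    rw [h2]
    nlinarith
  have h2 : Real.exp k = Real.exp 2 * Real.exp (k - 2) := by
    rw [← Real.exp_add]
    congr 1
    ring
  have h3 := Real.add_one_le_exp ((k : ℝ) - 2)
  have h4 : (2 : ℝ) ≤ k := by exact_mod_cast hk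
  rw [h2]
  nlinarith

theorem count_ok {n k r : ℕ} (hk : 2 ≤ k) (hr : 1 ≤ r) :
    (2 * k + 1) * ((2 * k + 2) ^ (2 * (n + 1)) + 1) * Fintype.card
      {f : Fin (8 * k ^ 3 * (n + 1)) → Fin (2 * k * r + 1) //
        ∑ j, (f j : ℕ) ≤ (k - 1) * (8 * k ^ 3 * (n + 1)) * r} ≤
      (2 * k * r + 1) ^ (8 * k ^ 3 * (n + 1)) := by
  have h1 := card_small (8 * k ^ 3 * (n + 1)) k r (by omega) hr
  obtain ⟨N, hN⟩ : ∃ N : ℕ, N = Fintype.card
      {f : Fin (8 * k ^ 3 * (n + 1)) → Fin (2 * k * r + 1) //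
        ∑ j, (f j : ℕ) ≤ (k - 1) * (8 * k ^ 3 * (n + 1)) * r} := ⟨_, rfl⟩
  rw [← hN] at h1 ⊢
  have hk0 : (0 : ℝ) < k := by exact_mod_cast (by omega : 0 < k)
  have hk2 : (2 : ℝ) ≤ k := by exact_mod_cast hk
  have h2 := lin_le_exp hk
  have h3 : ((8 * k ^ 3 * (n + 1) : ℕ) : ℝ) / (2 * k ^ 2) = 4 * k * (n + 1) := by
    push_cast
    field_simp
    ring
  rw [h3] at h1
  have h4 : (2 * k + 1 : ℝ) * ((2 * k + 2) ^ (2 * (n + 1)) + 1) ≤ Real.exp (4 * k * (n + 1)) := by
    have h5 : (2 * k + 2 : ℝ) ^ (2 * (n + 1)) ≤ Real.exp (2 * k * (n + 1)) := by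
      calc (2 * k + 2 : ℝ) ^ (2 * (n + 1)) ≤ (Real.exp k) ^ (2 * (n + 1)) :=
            pow_le_pow_left₀ (by positivity) h2 _
        _ = Real.exp (2 * k * (n + 1)) := by
            rw [← Real.exp_nat_mul]
            congr 1
            push_cast
            ring
    have h6 : (1 : ℝ) ≤ Real.exp (2 * k * (n + 1)) := Real.one_le_exp (by positivity)
    have h7 : (2 * k + 1 : ℝ) ≤ Real.exp k := by linarith
    have h8 : (2 : ℝ) ≤ Real.exp k := by linarith
    calc (2 * k + 1 : ℝ) * ((2 * k + 2) ^ (2 * (n + 1)) + 1)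
        ≤ Real.exp k * (Real.exp k * Real.exp (2 * k * (n + 1))) := by
          refine mul_le_mul h7 ?_ (by positivity) (Real.exp_pos _).le
          nlinarith
      _ = Real.exp (k + (k + 2 * k * (n + 1))) := by
          rw [Real.exp_add, Real.exp_add]
      _ ≤ Real.exp (4 * k * (n + 1)) := by
          refine Real.exp_le_exp.2 ?_
          have h9 : (0 : ℝ) ≤ n := Nat.cast_nonneg n
          nlinarith [mul_nonneg hk0.le h9]
  have h5 : ((2 * k + 1 : ℝ) * ((2 * k + 2) ^ (2 * (n + 1)) + 1)) * N ≤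
      (2 * k * r + 1 : ℝ) ^ (8 * k ^ 3 * (n + 1)) := by
    calc ((2 * k + 1 : ℝ) * ((2 * k + 2) ^ (2 * (n + 1)) + 1)) * N
        ≤ Real.exp (4 * k * (n + 1)) * ((2 * k * r + 1 : ℝ) ^ (8 * k ^ 3 * (n + 1)) *
          Real.exp (-(4 * k * (n + 1)))) := by
          refine mul_le_mul h4 h1 (Nat.cast_nonneg _) (Real.exp_pos _).le
      _ = (2 * k * r + 1 : ℝ) ^ (8 * k ^ 3 * (n + 1)) *
          (Real.exp (4 * k * (n + 1)) * Real.exp (-(4 * k * (n + 1)))) := by ring
      _ = (2 * k * r + 1 : ℝ) ^ (8 * k ^ 3 * (n + 1)) := by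
          rw [← Real.exp_add, add_neg_cancel, Real.exp_zero, mul_one]
  exact_mod_cast h5

end Pool.Agent.Lib.GGL.SM
end

section

/-!
A large window.
-/

open Filter Topology MvPolynomial Module

namespace Pool.Agent.Lib.GGL.SM

/-- One of the `2 k + 1` windows contains many exponents. -/
theorem window_log (q k r : ℕ) (hq : 1 ≤ q) (hr : 1 ≤ r) :
    ∃ i ≤ 2 * k, (2 * k * r + 1) ^ q ≤ (2 * k + 1) * Fintype.card
      {β : Fin q → Fin (2 * k * r + 1) // i * q * r ≤ ∑ j, (β j : ℕ) ∧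
        ∑ j, (β j : ℕ) < (i + 1) * q * r} := by
  classical
  have hqr : 0 < q * r := Nat.mul_pos hq hr
  have hmem : ∀ β ∈ (Finset.univ : Finset (Fin q → Fin (2 * k * r + 1))),
      (∑ j, (β j : ℕ)) / (q * r) ∈ Finset.range (2 * k + 1) := by
    intro β _
    rw [Finset.mem_range, Nat.div_lt_iff_lt_mul hqr]
    have h1 : ∑ j, (β j : ℕ) ≤ ∑ _j : Fin q, 2 * k * r :=
      Finset.sum_le_sum fun j _ => Nat.lt_succ_iff.1 (β j).2
    rw [Finset.sum_const, Finset.card_univ, Fintype.card_fin, smul_eq_mul] at h1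
    calc ∑ j, (β j : ℕ) ≤ q * (2 * k * r) := h1
      _ = 2 * k * (q * r) := by ring
      _ < (2 * k + 1) * (q * r) := by nlinarith
  have h1 := Finset.card_eq_sum_card_fiberwise hmem
  rw [Finset.card_univ, Fintype.card_fun, Fintype.card_fin, Fintype.card_fin] at h1
  by_contra hcon
  push Not at hcon
  have h2 : ∀ i ∈ Finset.range (2 * k + 1), (2 * k + 1) *
      (Finset.univ.filter fun β : Fin q → Fin (2 * k * r + 1) =>
        (∑ j, (β j : ℕ)) / (q * r) = i).card < (2 * k * r + 1) ^ q := by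
    intro i hi
    refine lt_of_le_of_lt ?_ (hcon i (Nat.lt_succ_iff.1 (Finset.mem_range.1 hi)))
    rw [Fintype.card_subtype]
    refine Nat.mul_le_mul_left _ (Finset.card_le_card fun β hβ => ?_)
    rw [Finset.mem_filter] at hβ ⊢
    refine ⟨hβ.1, ?_⟩
    have h3 := hβ.2
    constructor
    · have h4 := Nat.div_mul_le_self (∑ j, (β j : ℕ)) (q * r)
      rw [h3] at h4
      rw [mul_assoc]
      exact h4
    · have h5 := (Nat.div_lt_iff_lt_mul hqr).1 (lt_of_le_of_lt h3.le (Nat.lt_succ_self i))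
      exact h5.trans_eq (mul_assoc _ _ _).symm
  have h3 := Finset.sum_lt_sum_of_nonempty (s := Finset.range (2 * k + 1))
    (Finset.nonempty_range_iff.2 (by omega)) h2
  rw [← Finset.mul_sum, ← h1, Finset.sum_const, Finset.card_range, smul_eq_mul] at h3
  exact lt_irrefl _ h3

end Pool.Agent.Lib.GGL.SM
end
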