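import Mathlib
import Pool.Agent.Lib.MP_8d161d_ag.Mg.G003
import Pool.Agent.Lib.MP_8d161d_ag.SM.Defs
import Pool.Agent.Lib.MP_8d161d_ag.Mg.G010
import Pool.Agent.Lib.MP_8d161d_ag.Mg.G005

section

/-!
Existence of a family of coefficients, logarithmic version.
-/

open Filter Topology MvPolynomial Module

namespace Pool.Agent.Lib.GGL.SM

open VG

theorem a3_lead_mem {K E : Type*} [Field K] [Field E] [Algebra K E] {q : ℕ}
    {U₁ U₂ : Submodule K E} {l b : Fin q → E} (hl : ∀ j, l j ∈ U₁) (hb : ∀ j, b j ∈ U₂)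
    {k r i : ℕ} (c : (Fin q → Fin (2 * k * r + 1)) → E)
    (hc1 : ∀ β, c β ≠ 0 → i * q * r ≤ ∑ j, (β j : ℕ) ∧ ∑ j, (β j : ℕ) < (i + 1) * q * r)
    (hc2 : ∀ β, c β ∈ U₁ ^ (∑ j, (β j : ℕ) + q * r - i * q * r) *
        U₂ ^ ((i + 2) * q * r - ∑ j, (β j : ℕ))) (f : Fin q → ℕ) :
    leadL f l b c ∈ U₁ ^ (q * (2 * k * r) + q * r - i * q * r) *
      U₂ ^ ((i + 2) * q * r - ∑ j, f j) := by
  unfold leadL
  apply Submodule.sum_mem
  intro γ _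
  by_cases h0 : c γ = 0
  · rw [h0, zero_mul]
    exact Submodule.zero_mem _
  obtain ⟨hw1, hw2⟩ := hc1 γ h0
  by_cases hf : ∀ j, f j ≤ (γ j : ℕ)
  swap
  · push Not at hf
    obtain ⟨j, hj⟩ := hf
    have : ∏ j, ((((γ j : ℕ).choose (f j) : ℕ) : E) * b j ^ ((γ j : ℕ) - f j) *
        l j ^ (2 * k * r - (γ j : ℕ))) = 0 := by
      apply Finset.prod_eq_zero (Finset.mem_univ j)
      rw [Nat.choose_eq_zero_of_lt hj]
      simp
    rw [this, mul_zero]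
    exact Submodule.zero_mem _
  rw [Finset.prod_mul_distrib, Finset.prod_mul_distrib]
  have e1 : ∏ j, b j ^ ((γ j : ℕ) - f j) ∈ U₂ ^ (∑ j, ((γ j : ℕ) - f j)) :=
    fam_prod_mem b hb _ _
  have e2 : ∏ j, l j ^ (2 * k * r - (γ j : ℕ)) ∈ U₁ ^ (∑ j, (2 * k * r - (γ j : ℕ))) :=
    fam_prod_mem l hl _ _
  have e3 : ∏ j, ((((γ j : ℕ).choose (f j) : ℕ) : E)) =
      ((∏ j, ((γ j : ℕ).choose (f j)) : ℕ) : E) := by
    push_cast
    rfl
  have s1 : ∑ j, ((γ j : ℕ) - f j) = ∑ j, (γ j : ℕ) - ∑ j, f j := by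
    rw [Finset.sum_tsub_distrib _ fun j _ => hf j]
  have hγ : ∀ j, (γ j : ℕ) ≤ 2 * k * r := by
    intro j
    have := (γ j).isLt
    omega
  have s2 : ∑ j, (2 * k * r - (γ j : ℕ)) = q * (2 * k * r) - ∑ j, (γ j : ℕ) := by
    rw [Finset.sum_tsub_distrib _ fun j _ => hγ j]
    simp
  have s3 : ∑ j, (γ j : ℕ) ≤ q * (2 * k * r) := by
    have := Finset.sum_le_sum fun j (_ : j ∈ (Finset.univ : Finset (Fin q))) => hγ j
    simpa using this
  have s4 : ∑ j, f j ≤ ∑ j, (γ j : ℕ) := Finset.sum_le_sum fun j _ => hf j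
  rw [e3]
  have e4 : c γ * (((∏ j, ((γ j : ℕ).choose (f j)) : ℕ) : E) * ∏ j, b j ^ ((γ j : ℕ) - f j)) *
      ∏ j, l j ^ (2 * k * r - (γ j : ℕ)) = (∏ j, ((γ j : ℕ).choose (f j))) •
        (c γ * ((∏ j, b j ^ ((γ j : ℕ) - f j)) * ∏ j, l j ^ (2 * k * r - (γ j : ℕ)))) := by
    rw [nsmul_eq_mul]
    ring
  rw [← mul_assoc (c γ), e4]
  apply Submodule.smul_of_tower_mem
  have e5 := Submodule.mul_mem_mul (hc2 γ) (Submodule.mul_mem_mul e1 e2)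
  have e6 : U₁ ^ (∑ j, (γ j : ℕ) + q * r - i * q * r) *
      U₂ ^ ((i + 2) * q * r - ∑ j, (γ j : ℕ)) *
      (U₂ ^ (∑ j, ((γ j : ℕ) - f j)) * U₁ ^ (∑ j, (2 * k * r - (γ j : ℕ)))) =
      U₁ ^ ((∑ j, (γ j : ℕ) + q * r - i * q * r) +
        (∑ j, (2 * k * r - (γ j : ℕ)))) *
      U₂ ^ (((i + 2) * q * r - ∑ j, (γ j : ℕ)) + (∑ j, ((γ j : ℕ) - f j))) := by
    rw [pow_add, pow_add]
    ring
  rw [e6, s1, s2] at e5
  have e7 : (∑ j, (γ j : ℕ) + q * r - i * q * r) +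
      (q * (2 * k * r) - ∑ j, (γ j : ℕ)) = q * (2 * k * r) + q * r - i * q * r := by
    omega
  have e8 : ((i + 2) * q * r - ∑ j, (γ j : ℕ)) + (∑ j, (γ j : ℕ) - ∑ j, f j) =
      (i + 2) * q * r - ∑ j, f j := by
    have a1 : (i + 1) * q * r ≤ (i + 2) * q * r := by
      have : (i + 2) * q * r = (i + 1) * q * r + q * r := by ring
      omega
    omega
  rwa [e7, e8] at e5

theorem exists_family_log {K E : Type*} [Field K] [Field E] [Algebra K E] {q k D C : ℕ}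
    (hq : 1 ≤ q) (hk : 2 ≤ k)
    (hcount : ∀ r, 1 ≤ r → (2 * k + 1) * ((2 * k + 2) ^ D + 1) * Fintype.card
      {f : Fin q → Fin (2 * k * r + 1) // ∑ j, (f j : ℕ) ≤ (k - 1) * q * r} ≤
      (2 * k * r + 1) ^ q)
    {U₁ U₂ : Submodule K E} (h₁ : U₁.FG) (h₂ : U₂.FG) (h₁0 : U₁ ≠ ⊥) (h₂0 : U₂ ≠ ⊥)
    (hC : ∀ r, finrank K (U₁ ^ r * U₂ ^ r : Submodule K E) ≤ C * (r + 1) ^ D)
    {l b : Fin q → E} (hl : ∀ j, l j ∈ U₁) (hb : ∀ j, b j ∈ U₂) :
    ∃ r i : ℕ, 1 ≤ r ∧ i ≤ 2 * k ∧ ∃ c : (Fin q → Fin (2 * k * r + 1)) → E, c ≠ 0 ∧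
      (∀ β, c β ≠ 0 → i * q * r ≤ ∑ j, (β j : ℕ) ∧ ∑ j, (β j : ℕ) < (i + 1) * q * r) ∧
      (∀ β, c β ∈ U₁ ^ (∑ j, (β j : ℕ) + q * r - i * q * r) *
        U₂ ^ ((i + 2) * q * r - ∑ j, (β j : ℕ))) ∧
      ∀ f : Fin q → ℕ, ∑ j, f j ≤ (k - 1) * q * r → leadL f l b c = 0 := by
  classical
  -- the choice of r
  obtain ⟨H, hH⟩ : ∃ H : ℕ → ℕ, ∀ r, H r =
    finrank K (U₁ ^ (q * r) * U₂ ^ (q * r) : Submodule K E) := ⟨_, fun r => rfl⟩
  have hH1 : ∀ r, 1 ≤ H r := fun r => by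
    rw [hH]
    exact fam_finrank_pos h₁ h₂ h₁0 h₂0 _ _
  have hH2 : ∀ r, H r ≤ C * (q + 1) ^ D * (r + 1) ^ D := by
    intro r
    rw [hH]
    refine (hC _).trans ?_
    have h3 : C * (q + 1) ^ D * (r + 1) ^ D = C * ((q + 1) * (r + 1)) ^ D := by
      rw [mul_pow, mul_assoc]
    rw [h3]
    apply Nat.mul_le_mul_left
    apply Nat.pow_le_pow_left
    nlinarith
  obtain ⟨r, hr1, hHr⟩ := scale hH1 hH2 (a := 2 * k + 2) (ρ := (2 * k + 2) ^ D + 1) (by omega)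
    (Nat.lt_succ_self _) 1
  obtain ⟨i, hi, hwin⟩ := window_log q k r hq hr1
  refine ⟨r, i, hr1, hi, ?_⟩
  -- abbreviations
  let W := {β : Fin q → Fin (2 * k * r + 1) //
        i * q * r ≤ ∑ j, (β j : ℕ) ∧ ∑ j, (β j : ℕ) < (i + 1) * q * r}
  let F := {f : Fin q → Fin (2 * k * r + 1) // ∑ j, (f j : ℕ) ≤ (k - 1) * q * r}
  let S : W → Submodule K E := fun β =>
    U₁ ^ (∑ j, (β.1 j : ℕ) + q * r - i * q * r) *
        U₂ ^ ((i + 2) * q * r - ∑ j, (β.1 j : ℕ))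
  let R : F → Submodule K E := fun f =>
    U₁ ^ (q * (2 * k * r) + q * r - i * q * r) * U₂ ^ ((i + 2) * q * r - ∑ j, (f.1 j : ℕ))
  have hSfin : ∀ β, Module.Finite K (S β) := fun β =>
    Module.Finite.iff_fg.mpr (fam_fg h₁ h₂ _ _)
  have hRfin : ∀ f, Module.Finite K (R f) := fun f =>
    Module.Finite.iff_fg.mpr (fam_fg h₁ h₂ _ _)
  let ext : (∀ β : W, S β) → (Fin q → Fin (2 * k * r + 1)) → E := fun v β =>
    if h : i * q * r ≤ ∑ j, (β j : ℕ) ∧ ∑ j, (β j : ℕ) < (i + 1) * q * r then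
      (v ⟨β, h⟩ : E) else 0
  have hext1 : ∀ v β, ext v β ≠ 0 →
      i * q * r ≤ ∑ j, (β j : ℕ) ∧ ∑ j, (β j : ℕ) < (i + 1) * q * r := by
    intro v β h
    by_contra hcon
    exact h (dif_neg hcon)
  have hext2 : ∀ v β, ext v β ∈ U₁ ^ (∑ j, (β j : ℕ) + q * r - i * q * r) *
        U₂ ^ ((i + 2) * q * r - ∑ j, (β j : ℕ)) := by
    intro v β
    by_cases h : i * q * r ≤ ∑ j, (β j : ℕ) ∧ ∑ j, (β j : ℕ) < (i + 1) * q * r
    · have : ext v β = (v ⟨β, h⟩ : E) := dif_pos h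
      rw [this]
      exact (v ⟨β, h⟩).2
    · have : ext v β = 0 := dif_neg h
      rw [this]
      exact Submodule.zero_mem _
  have hext3 : ∀ v (β : W), ext v β.1 = (v β : E) := by
    intro v β
    exact dif_pos β.2
  have hext_add : ∀ v w β, ext (v + w) β = ext v β + ext w β := by
    intro v w β
    by_cases h : i * q * r ≤ ∑ j, (β j : ℕ) ∧ ∑ j, (β j : ℕ) < (i + 1) * q * r
    · have h1 : ∀ v : (∀ β : W, S β), ext v β = (v ⟨β, h⟩ : E) := fun v => dif_pos h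
      rw [h1, h1, h1]
      rfl
    · have h1 : ∀ v : (∀ β : W, S β), ext v β = 0 := fun v => dif_neg h
      rw [h1, h1, h1, add_zero]
  have hext_smul : ∀ (k : K) v β, ext (k • v) β = k • ext v β := by
    intro k' v β
    by_cases h : i * q * r ≤ ∑ j, (β j : ℕ) ∧ ∑ j, (β j : ℕ) < (i + 1) * q * r
    · have h1 : ∀ v : (∀ β : W, S β), ext v β = (v ⟨β, h⟩ : E) := fun v => dif_pos h
      rw [h1, h1]
      rfl
    · have h1 : ∀ v : (∀ β : W, S β), ext v β = 0 := fun v => dif_neg h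
      rw [h1, h1, smul_zero]
  let Φ : (∀ β : W, S β) →ₗ[K] (∀ f : F, R f) :=
    { toFun := fun v f => ⟨leadL (fun j => (f.1 j : ℕ)) l b (ext v),
        a3_lead_mem hl hb (ext v) (hext1 v) (hext2 v) fun j => (f.1 j : ℕ)⟩
      map_add' := fun v w => by
        funext f
        apply Subtype.ext
        change leadL _ _ _ _ = leadL _ _ _ _ + leadL _ _ _ _
        unfold leadL
        rw [← Finset.sum_add_distrib]
        refine Finset.sum_congr rfl fun γ _ => ?_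
        rw [hext_add, add_mul]
      map_smul' := fun k' v => by
        funext f
        apply Subtype.ext
        change leadL _ _ _ _ = k' • leadL _ _ _ _
        unfold leadL
        rw [Finset.smul_sum]
        refine Finset.sum_congr rfl fun γ _ => ?_
        rw [hext_smul, smul_mul_assoc] }
  have hdim : finrank K (∀ f : F, R f) < finrank K (∀ β : W, S β) := by
    rw [Module.finrank_pi_fintype, Module.finrank_pi_fintype]
    have b1 : ∑ f : F, finrank K (R f) ≤ Fintype.card F * H ((2 * k + 2) * r) := by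
      have : ∀ f : F, finrank K (R f) ≤ H ((2 * k + 2) * r) := by
        intro f
        rw [hH]
        have hx : q * ((2 * k + 2) * r) = q * (2 * k * r) + 2 * (q * r) := by ring
        apply fam_finrank_mono h₁ h₂ h₁0 h₂0
        · rw [hx]
          omega
        · have h1 : (i + 2) * q * r ≤ q * ((2 * k + 2) * r) := by
            have : q * ((2 * k + 2) * r) = (2 * k + 2) * q * r := by ring
            rw [this]
            apply Nat.mul_le_mul_right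
            apply Nat.mul_le_mul_right
            omega
          omega
      refine (Finset.sum_le_sum fun f _ => this f).trans ?_
      simp
    have b2 : Fintype.card W * H r ≤ ∑ β : W, finrank K (S β) := by
      have : ∀ β : W, H r ≤ finrank K (S β) := by
        intro β
        rw [hH]
        obtain ⟨hw1, hw2⟩ := β.2
        apply fam_finrank_mono h₁ h₂ h₁0 h₂0
        · omega
        · have a1 : (i + 2) * q * r = (i + 1) * q * r + q * r := by ring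
          omega
      have h2 := Finset.sum_le_sum fun β (_ : β ∈ (Finset.univ : Finset W)) => this β
      simpa using h2
    have b4 : 0 < Fintype.card F := by
      have : Nonempty F := ⟨⟨fun _ => 0, by simp⟩⟩
      exact Fintype.card_pos
    have b5 : ((2 * k + 2) ^ D + 1) * Fintype.card F ≤ Fintype.card W := by
      have h3 := (hcount r hr1).trans hwin
      rw [mul_assoc] at h3
      exact Nat.le_of_mul_le_mul_left h3 (by omega)
    calc ∑ f : F, finrank K (R f) ≤ Fintype.card F * H ((2 * k + 2) * r) := b1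
      _ < Fintype.card F * (((2 * k + 2) ^ D + 1) * H r) := Nat.mul_lt_mul_of_pos_left hHr b4
      _ = (((2 * k + 2) ^ D + 1) * Fintype.card F) * H r := by ring
      _ ≤ Fintype.card W * H r := Nat.mul_le_mul_right _ b5
      _ ≤ _ := b2
  have hker : LinearMap.ker Φ ≠ ⊥ := LinearMap.ker_ne_bot_of_finrank_lt hdim
  obtain ⟨v, hv, hv0⟩ := Submodule.exists_mem_ne_zero_of_ne_bot hker
  rw [LinearMap.mem_ker] at hv
  refine ⟨ext v, ?_, hext1 v, hext2 v, ?_⟩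
  · intro h0
    apply hv0
    funext β
    apply Subtype.ext
    rw [← hext3 v β, h0]
    rfl
  · intro f hf
    by_cases hfj : ∀ j, f j < 2 * k * r + 1
    · have h2 := congrFun hv ⟨fun j => ⟨f j, hfj j⟩, hf⟩
      exact congrArg Subtype.val h2
    · push Not at hfj
      obtain ⟨j, hj⟩ := hfj
      unfold leadL
      apply Finset.sum_eq_zero
      intro γ _
      have hz : ∏ j, ((((γ j : ℕ).choose (f j) : ℕ) : E) * b j ^ ((γ j : ℕ) - f j) *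
          l j ^ (2 * k * r - (γ j : ℕ))) = 0 := by
        apply Finset.prod_eq_zero (Finset.mem_univ j)
        rw [Nat.choose_eq_zero_of_lt (lt_of_lt_of_le (γ j).isLt hj)]
        simp
      rw [hz, mul_zero]

end Pool.Agent.Lib.GGL.SM
end

section

/-!
The bound in a scale invariant form, logarithmic version.
-/

open Filter Topology MvPolynomial Module

namespace Pool.Agent.Lib.GGL.SM

open VG

theorem scaled_bound_log {q K M A B τ : ℕ} (hdeg : q * K = A + B + τ)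
    (p : Fin q → Fin (M + 1) → ℂ) {W : Set ((Fin (M + 1) → ℂ) × (Fin (M + 1) → ℂ))}
    (hW : ∀ y Z, (y, Z) ∈ W → ∀ a b s : ℂ, (a • y, b • (Z + s • y)) ∈ W)
    (c : (Fin q → Fin (K + 1)) →
      MvPolynomial ((Fin q × Fin (M + 1)) ⊕ (Fin (M + 1) ⊕ Fin (M + 1))) ℂ)
    (g : Fin q → ℕ)
    (hgood : ∀ p' : Fin q → Fin (M + 1) → ℂ, ∀ y Z, (y, Z) ∈ W →
      GoodL q g (fun j => p' j ⬝ᵥ y) (fun j => p' j ⬝ᵥ Z) (fun γ => eval (pt p' y Z) (c γ)))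
    (hhom : ∀ (y Z : Fin (M + 1) → ℂ) (a b : ℂ),
      leadL g (fun j => p j ⬝ᵥ (a • y)) (fun j => p j ⬝ᵥ (b • Z))
        (fun γ => eval (pt p (a • y) (b • Z)) (c γ)) = a ^ A * b ^ B *
      leadL g (fun j => p j ⬝ᵥ y) (fun j => p j ⬝ᵥ Z) (fun γ => eval (pt p y Z) (c γ))) :
    ∃ C : ℝ, 0 ≤ C ∧ ∀ y Z, (y, Z) ∈ W → ∀ i, y i ≠ 0 → ‖y‖ = ‖y i‖ →
      (∀ j, p j ⬝ᵥ y ≠ 0) → (∀ j, (p j ⬝ᵥ Z) * y i - Z i * (p j ⬝ᵥ y) ≠ 0) →
      ∀ μ : ℝ, 0 < μ → ‖Z‖ ≤ 2 * μ * ‖y‖ →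
        ‖leadL g (fun j => p j ⬝ᵥ y) (fun j => p j ⬝ᵥ Z) (fun γ => eval (pt p y Z) (c γ))‖ *
          ‖y‖ ^ τ ≤ C * μ ^ B * ∏ j, (‖p j ⬝ᵥ y‖ ^ K *
            max 1 (‖(p j ⬝ᵥ Z) / (p j ⬝ᵥ y) - Z i / y i‖ / μ) ^ (K - g j)) := by
  obtain ⟨C, hC0, hC⟩ := point_bound_log p c g 2
  refine ⟨C, hC0, ?_⟩
  intro y Z hyZ i hyi hnorm hpy hne μ hμ hZ
  obtain ⟨a, ha⟩ : ∃ a : ℝ, a = ‖y‖ := ⟨_, rfl⟩
  have ha0 : 0 < a := by rw [ha, hnorm]; exact norm_pos_iff.2 hyi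
  have haC : (a : ℂ) ≠ 0 := by exact_mod_cast ha0.ne'
  have hμC : (μ : ℂ) ≠ 0 := by exact_mod_cast hμ.ne'
  obtain ⟨u, hu⟩ : ∃ u : ℂ, u = (a : ℂ)⁻¹ := ⟨_, rfl⟩
  obtain ⟨v, hv⟩ : ∃ v : ℂ, v = ((μ : ℂ) * a)⁻¹ := ⟨_, rfl⟩
  have hu0 : u ≠ 0 := by rw [hu]; exact inv_ne_zero haC
  have hv0 : v ≠ 0 := by rw [hv]; exact inv_ne_zero (mul_ne_zero hμC haC)
  have hun : ‖u‖ = a⁻¹ := by
    rw [hu, norm_inv, Complex.norm_real, Real.norm_of_nonneg ha0.le]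
  have hvn : ‖v‖ = (μ * a)⁻¹ := by
    rw [hv, norm_inv, norm_mul, Complex.norm_real, Complex.norm_real,
      Real.norm_of_nonneg ha0.le, Real.norm_of_nonneg hμ.le]
  have hmem : (u • y, v • Z) ∈ W := by
    have := hW y Z hyZ u v 0
    rwa [zero_smul, add_zero] at this
  have hy1 : ‖u • y‖ ≤ 2 := by
    rw [norm_smul, hun, ← ha, inv_mul_cancel₀ ha0.ne']
    norm_num
  have hZ1 : ‖v • Z‖ ≤ 2 := by
    rw [norm_smul, hvn, inv_mul_le_iff₀ (mul_pos hμ ha0), ha]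
    linarith
  have hyi1 : 1 ≤ 2 * ‖(u • y) i‖ := by
    rw [Pi.smul_apply, norm_smul, hun, ← hnorm, ← ha, inv_mul_cancel₀ ha0.ne']
    norm_num
  have hpy1 : ∀ j, p j ⬝ᵥ (u • y) ≠ 0 := by
    intro j
    rw [dotProduct_smul, smul_eq_mul]
    exact mul_ne_zero hu0 (hpy j)
  have hne1 : ∀ j, (p j ⬝ᵥ (v • Z)) * (u • y) i - (v • Z) i * (p j ⬝ᵥ (u • y)) ≠ 0 := by
    intro j
    have h1 : (p j ⬝ᵥ (v • Z)) * (u • y) i - (v • Z) i * (p j ⬝ᵥ (u • y)) =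
        u * v * ((p j ⬝ᵥ Z) * y i - Z i * (p j ⬝ᵥ y)) := by
      rw [dotProduct_smul, dotProduct_smul, Pi.smul_apply, Pi.smul_apply]
      simp only [smul_eq_mul]
      ring
    rw [h1]
    exact mul_ne_zero (mul_ne_zero hu0 hv0) (hne j)
  have h1 := hC (u • y) (v • Z) i (fun p' => hgood p' _ _ hmem) hy1 hZ1 hyi1 hpy1 hne1
  rw [hhom y Z u v, norm_mul, norm_mul, norm_pow, norm_pow, hun, hvn] at h1
  obtain ⟨L, hL⟩ : ∃ L : ℝ, L = ‖leadL g (fun j => p j ⬝ᵥ y) (fun j => p j ⬝ᵥ Z)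
    (fun γ => eval (pt p y Z) (c γ))‖ := ⟨_, rfl⟩
  rw [← hL] at h1 ⊢
  have h2 : ∏ j, (‖p j ⬝ᵥ (u • y)‖ ^ K *
      max 1 ‖(p j ⬝ᵥ (v • Z)) / (p j ⬝ᵥ (u • y)) - (v • Z) i / (u • y) i‖ ^ (K - g j)) =
      (a⁻¹) ^ (q * K) * ∏ j, (‖p j ⬝ᵥ y‖ ^ K *
            max 1 (‖(p j ⬝ᵥ Z) / (p j ⬝ᵥ y) - Z i / y i‖ / μ) ^ (K - g j)) := by
    have h3 : (a⁻¹) ^ (q * K) = ∏ _j : Fin q, (a⁻¹) ^ K := by
      rw [Finset.prod_const, Finset.card_univ, Fintype.card_fin, ← pow_mul, mul_comm]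
    rw [h3, ← Finset.prod_mul_distrib]
    apply Finset.prod_congr rfl
    intro j _
    have h4 : (p j ⬝ᵥ (v • Z)) / (p j ⬝ᵥ (u • y)) - (v • Z) i / (u • y) i =
        ((p j ⬝ᵥ Z) / (p j ⬝ᵥ y) - Z i / y i) / (μ : ℂ) := by
      rw [dotProduct_smul, dotProduct_smul, Pi.smul_apply, Pi.smul_apply]
      simp only [smul_eq_mul]
      have h5 := hpy j
      rw [hu, hv]
      field_simp
    rw [h4, norm_div, Complex.norm_real, Real.norm_of_nonneg hμ.le, dotProduct_smul, norm_smul,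
      hun, mul_pow]
    ring
  rw [h2] at h1
  set PR := ∏ j, (‖p j ⬝ᵥ y‖ ^ K *
            max 1 (‖(p j ⬝ᵥ Z) / (p j ⬝ᵥ y) - Z i / y i‖ / μ) ^ (K - g j)) with hPR
  rw [← ha]
  have h3 : L = a ^ A * (μ * a) ^ B * ((a⁻¹) ^ A * ((μ * a)⁻¹) ^ B * L) := by
    have h4 : a ^ A * (a⁻¹) ^ A = 1 := by rw [← mul_pow, mul_inv_cancel₀ ha0.ne', one_pow]
    have h5 : (μ * a) ^ B * ((μ * a)⁻¹) ^ B = 1 := by
      rw [← mul_pow, mul_inv_cancel₀ (mul_pos hμ ha0).ne', one_pow]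
    calc L = (a ^ A * (a⁻¹) ^ A) * ((μ * a) ^ B * ((μ * a)⁻¹) ^ B) * L := by
          rw [h4, h5]; ring
      _ = _ := by ring
  have h6 : a ^ A * (μ * a) ^ B * a ^ τ * (a⁻¹) ^ (q * K) = μ ^ B := by
    have h7 : a ^ (q * K) * (a⁻¹) ^ (q * K) = 1 := by
      rw [← mul_pow, mul_inv_cancel₀ ha0.ne', one_pow]
    calc a ^ A * (μ * a) ^ B * a ^ τ * (a⁻¹) ^ (q * K) =
          μ ^ B * (a ^ (A + B + τ) * (a⁻¹) ^ (q * K)) := by
          rw [mul_pow, pow_add, pow_add]; ring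
      _ = μ ^ B := by rw [← hdeg, h7, mul_one]
  calc L * a ^ τ = (a ^ A * (μ * a) ^ B * a ^ τ) * ((a⁻¹) ^ A * ((μ * a)⁻¹) ^ B * L) := by
        conv_lhs => rw [h3]
        ring
    _ ≤ (a ^ A * (μ * a) ^ B * a ^ τ) * (C * ((a⁻¹) ^ (q * K) * PR)) :=
        mul_le_mul_of_nonneg_left h1 (by positivity)
    _ = C * (a ^ A * (μ * a) ^ B * a ^ τ * (a⁻¹) ^ (q * K)) * PR := by ring
    _ = C * μ ^ B * PR := by rw [h6]

end Pool.Agent.Lib.GGL.SM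
end
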