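import Mathlib
import Pool.Agent.Lib.MP_8d161d_ag.SM.Defs
import Pool.Agent.Lib.MP_8d161d_ag.SM.E4
import Pool.Agent.Lib.MP_8d161d_ag.Mg.G013

section

/-!
The pointwise inequality along a curve.
-/

open Filter Topology MvPolynomial Module

namespace Pool.Agent.Lib.GGL.SM

theorem b7_dot_le {M : ℕ} (p Z : Fin (M + 1) → ℂ) : ‖p ⬝ᵥ Z‖ ≤ (∑ k, ‖p k‖) * ‖Z‖ := by
  unfold dotProduct
  rw [Finset.sum_mul]
  refine norm_sum_le_of_le _ fun k _ => ?_
  rw [norm_mul]
  exact mul_le_mul_of_nonneg_left (norm_le_pi_norm Z k) (norm_nonneg _)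

/-- The main real inequality. -/
theorem b7_prod {q K ν : ℕ} (g : Fin q → ℕ) (D t : Fin q → ℝ) {δ : ℝ} (hδ : 0 < δ)
    (J : Finset (Fin q)) (hJ : J.card ≤ ν) (hfar : ∀ j, j ∉ J → t j / δ ≤ D j) :
    δ ^ (ν * K) * ∏ j, max 1 (t j / δ) ^ (K - g j) ≤
      (∏ j, max 1 (D j) ^ K) * ((1 + δ) ^ (ν * K) * ∏ j, max (1 + δ) (t j) ^ (K - g j)) := by
  classical
  have h1 : 0 < 1 + δ := by linarith
  set x : ℝ := δ / (1 + δ) with hx
  have hx0 : 0 ≤ x := by positivity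
  have hx1 : x ≤ 1 := by
    rw [hx, div_le_one h1]
    linarith
  have hδx : δ = (1 + δ) * x := by
    rw [hx]
    field_simp
  have h2 : δ ^ (ν * K) ≤ (1 + δ) ^ (ν * K) * ∏ j, (if j ∈ J then x ^ K else 1) := by
    have h3 : ∏ j, (if j ∈ J then x ^ K else (1 : ℝ)) = x ^ (J.card * K) := by
      rw [Finset.prod_ite_mem, Finset.univ_inter, Finset.prod_const, ← pow_mul, mul_comm]
    rw [h3]
    calc δ ^ (ν * K) = (1 + δ) ^ (ν * K) * x ^ (ν * K) := by
          rw [← mul_pow, ← hδx]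
      _ ≤ _ := mul_le_mul_of_nonneg_left
          (pow_le_pow_of_le_one hx0 hx1 (Nat.mul_le_mul_right K hJ)) (by positivity)
  have h4 : ∀ j, (if j ∈ J then x ^ K else 1) * max 1 (t j / δ) ^ (K - g j) ≤
      max 1 (D j) ^ K * max (1 + δ) (t j) ^ (K - g j) := by
    intro j
    have hD1 : (1 : ℝ) ≤ max 1 (D j) ^ K := one_le_pow₀ (le_max_left _ _)
    have hm1 : (1 : ℝ) ≤ max (1 + δ) (t j) := (by linarith : (1 : ℝ) ≤ 1 + δ).trans
      (le_max_left _ _)
    have hmm : (1 : ℝ) ≤ max (1 + δ) (t j) ^ (K - g j) := one_le_pow₀ hm1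
    have hmx : (0 : ℝ) ≤ max 1 (t j / δ) := zero_le_one.trans (le_max_left _ _)
    by_cases hj : j ∈ J
    · rw [if_pos hj]
      have h5 : x ^ K ≤ x ^ (K - g j) := pow_le_pow_of_le_one hx0 hx1 (Nat.sub_le _ _)
      have h6 : x * max 1 (t j / δ) ≤ max (1 + δ) (t j) := by
        rw [mul_max_of_nonneg _ _ hx0, mul_one]
        refine max_le (hx1.trans hm1) ?_
        by_cases ht : 0 ≤ t j
        · have h7 : x * (t j / δ) = t j / (1 + δ) := by
            rw [hx]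
            field_simp
          rw [h7]
          exact (div_le_self ht (by linarith)).trans (le_max_right _ _)
        · have h7 : x * (t j / δ) ≤ 0 := mul_nonpos_of_nonneg_of_nonpos hx0
            (div_nonpos_of_nonpos_of_nonneg (le_of_not_ge ht) hδ.le)
          linarith
      calc x ^ K * max 1 (t j / δ) ^ (K - g j) ≤ x ^ (K - g j) * max 1 (t j / δ) ^ (K - g j) :=
            mul_le_mul_of_nonneg_right h5 (pow_nonneg hmx _)
        _ = (x * max 1 (t j / δ)) ^ (K - g j) := (mul_pow _ _ _).symm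
        _ ≤ max (1 + δ) (t j) ^ (K - g j) :=
            pow_le_pow_left₀ (mul_nonneg hx0 hmx) h6 _
        _ ≤ _ := le_mul_of_one_le_left (zero_le_one.trans hmm) hD1
    · rw [if_neg hj, one_mul]
      have h5 : max 1 (t j / δ) ≤ max 1 (D j) := max_le_max le_rfl (hfar j hj)
      calc max 1 (t j / δ) ^ (K - g j) ≤ max 1 (D j) ^ (K - g j) := pow_le_pow_left₀ hmx h5 _
        _ ≤ max 1 (D j) ^ K := pow_le_pow_right₀ (le_max_left _ _) (Nat.sub_le _ _)
        _ ≤ _ := le_mul_of_one_le_right (zero_le_one.trans hD1) hmm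
  calc δ ^ (ν * K) * ∏ j, max 1 (t j / δ) ^ (K - g j) ≤
        ((1 + δ) ^ (ν * K) * ∏ j, (if j ∈ J then x ^ K else 1)) *
          ∏ j, max 1 (t j / δ) ^ (K - g j) := by
        refine mul_le_mul_of_nonneg_right h2 (Finset.prod_nonneg fun j _ => ?_)
        exact pow_nonneg (zero_le_one.trans (le_max_left _ _)) _
    _ = (1 + δ) ^ (ν * K) * ∏ j, ((if j ∈ J then x ^ K else 1) *
          max 1 (t j / δ) ^ (K - g j)) := by
        rw [Finset.prod_mul_distrib]
        ring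
    _ ≤ (1 + δ) ^ (ν * K) * ∏ j, (max 1 (D j) ^ K * max (1 + δ) (t j) ^ (K - g j)) := by
        refine mul_le_mul_of_nonneg_left (Finset.prod_le_prod (fun j _ => ?_) fun j _ => h4 j)
          (by positivity)
        refine mul_nonneg ?_ (pow_nonneg (zero_le_one.trans (le_max_left _ _)) _)
        split_ifs
        · positivity
        · exact zero_le_one
    _ = _ := by
        rw [Finset.prod_mul_distrib]
        ring

/-- The inequality at one point `(y, Z)`; `G` and `w` are the values of the top coefficient and of a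
minor. -/
theorem point_ineq {q K M τ ν e : ℕ} (g : Fin q → ℕ) (p : Fin q → Fin (M + 1) → ℂ)
    {C c₁ : ℝ} (hC : 0 ≤ C) (hc₁ : 0 < c₁) :
    ∃ C' : ℝ, 0 ≤ C' ∧ ∀ (y Z : Fin (M + 1) → ℂ) (i : Fin (M + 1)) (G : ℂ) (a b : Fin (M + 1))
      (δ : ℝ), y i ≠ 0 → ‖y‖ = ‖y i‖ → (∀ j, p j ⬝ᵥ y ≠ 0) →
      {j | ‖p j ⬝ᵥ y‖ < c₁ * ‖y‖}.ncard ≤ ν → 0 < δ → ‖Z - (Z i / y i) • y‖ = δ * ‖y‖ →
      ‖G‖ * ‖y‖ ^ τ ≤ C * δ ^ e * ∏ j, (‖p j ⬝ᵥ y‖ ^ K *
          max 1 (‖(p j ⬝ᵥ Z) / (p j ⬝ᵥ y) - Z i / y i‖ / δ) ^ (K - g j)) →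
      ‖G‖ * ‖y a * Z b - y b * Z a‖ ^ (ν * K) * ‖y‖ ^ τ ≤
        C' * ‖y‖ ^ (2 * (ν * K)) * (∏ j, ‖p j ⬝ᵥ y‖ ^ K) * (1 + δ) ^ (e + ν * K) *
          ∏ j, max (1 + δ) ‖(p j ⬝ᵥ Z) / (p j ⬝ᵥ y) - Z i / y i‖ ^ (K - g j) := by
  classical
  set D : Fin q → ℝ := fun j => (∑ k, ‖p j k‖) / c₁ with hD
  have hDp : 0 ≤ ∏ j, max 1 (D j) ^ K :=
    Finset.prod_nonneg fun j _ => pow_nonneg (zero_le_one.trans (le_max_left _ _)) _
  refine ⟨C * 2 ^ (ν * K) * ∏ j, max 1 (D j) ^ K, by positivity, ?_⟩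
  intro y Z i G a b δ hyi hy hp hncard hδ hZ hG
  have hy0 : 0 < ‖y‖ := by
    rw [hy]
    exact norm_pos_iff.2 hyi
  set Z' : Fin (M + 1) → ℂ := Z - (Z i / y i) • y with hZ'
  set t : Fin q → ℝ := fun j => ‖(p j ⬝ᵥ Z) / (p j ⬝ᵥ y) - Z i / y i‖ with ht
  have hteq : ∀ j, t j = ‖p j ⬝ᵥ Z'‖ / ‖p j ⬝ᵥ y‖ := by
    intro j
    rw [ht, ← norm_div]
    beta_reduce
    congr 1
    rw [hZ', dotProduct_sub, dotProduct_smul, smul_eq_mul, sub_div, mul_div_cancel_right₀ _ (hp j)]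
  -- the minor
  have hminor : ‖y a * Z b - y b * Z a‖ ≤ 2 * δ * ‖y‖ ^ 2 := by
    have h1 : y a * Z b - y b * Z a = y a * Z' b - y b * Z' a := by
      simp only [hZ', Pi.sub_apply, Pi.smul_apply, smul_eq_mul]
      ring
    have h2 : ∀ a b : Fin (M + 1), ‖y a * Z' b‖ ≤ δ * ‖y‖ ^ 2 := by
      intro a b
      rw [norm_mul]
      calc ‖y a‖ * ‖Z' b‖ ≤ ‖y‖ * ‖Z'‖ :=
            mul_le_mul (norm_le_pi_norm y a) (norm_le_pi_norm Z' b) (norm_nonneg _)
              (norm_nonneg _)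
        _ = δ * ‖y‖ ^ 2 := by
            rw [hZ]
            ring
    rw [h1]
    calc ‖y a * Z' b - y b * Z' a‖ ≤ ‖y a * Z' b‖ + ‖y b * Z' a‖ := norm_sub_le _ _
      _ ≤ _ := by linarith [h2 a b, h2 b a]
  have hminor' : ‖y a * Z b - y b * Z a‖ ^ (ν * K) ≤
      2 ^ (ν * K) * δ ^ (ν * K) * ‖y‖ ^ (2 * (ν * K)) := by
    calc ‖y a * Z b - y b * Z a‖ ^ (ν * K) ≤ (2 * δ * ‖y‖ ^ 2) ^ (ν * K) :=
          pow_le_pow_left₀ (norm_nonneg _) hminor _
      _ = _ := by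
          rw [mul_pow, mul_pow, ← pow_mul]
  -- near and far
  set J : Finset (Fin q) := Finset.univ.filter fun j => ‖p j ⬝ᵥ y‖ < c₁ * ‖y‖ with hJ
  have hJc : J.card ≤ ν := by
    have h1 : {j | ‖p j ⬝ᵥ y‖ < c₁ * ‖y‖} = (J : Set (Fin q)) := by
      ext j
      simp [hJ]
    rw [h1, Set.ncard_coe_finset] at hncard
    exact hncard
  have hfar : ∀ j, j ∉ J → t j / δ ≤ D j := by
    intro j hj
    have h1 : c₁ * ‖y‖ ≤ ‖p j ⬝ᵥ y‖ := by
      by_contra h
      exact hj (Finset.mem_filter.2 ⟨Finset.mem_univ j, not_le.1 h⟩)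
    rw [hteq, div_le_iff₀ hδ, div_le_iff₀ (norm_pos_iff.2 (hp j))]
    calc ‖p j ⬝ᵥ Z'‖ ≤ (∑ k, ‖p j k‖) * ‖Z'‖ := b7_dot_le _ _
      _ = D j * δ * (c₁ * ‖y‖) := by
          rw [hZ, hD]
          field_simp
      _ ≤ D j * δ * ‖p j ⬝ᵥ y‖ := by
          refine mul_le_mul_of_nonneg_left h1 (mul_nonneg ?_ hδ.le)
          rw [hD]
          exact div_nonneg (Finset.sum_nonneg fun k _ => norm_nonneg _) hc₁.le
  have hmain := b7_prod (K := K) g D t hδ J hJc hfar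
  have hpK : 0 ≤ ∏ j, ‖p j ⬝ᵥ y‖ ^ K := Finset.prod_nonneg fun j _ => by positivity
  have hmxp : 0 ≤ ∏ j, max (1 + δ) (t j) ^ (K - g j) := Finset.prod_nonneg fun j _ =>
    pow_nonneg ((by linarith : (0 : ℝ) ≤ 1 + δ).trans (le_max_left _ _)) _
  have hδe : δ ^ e ≤ (1 + δ) ^ e := pow_le_pow_left₀ hδ.le (by linarith) _
  rw [Finset.prod_mul_distrib] at hG
  calc ‖G‖ * ‖y a * Z b - y b * Z a‖ ^ (ν * K) * ‖y‖ ^ τ =
        (‖G‖ * ‖y‖ ^ τ) * ‖y a * Z b - y b * Z a‖ ^ (ν * K) := by ring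
    _ ≤ (C * δ ^ e * ((∏ j, ‖p j ⬝ᵥ y‖ ^ K) * ∏ j, max 1 (t j / δ) ^ (K - g j))) *
        (2 ^ (ν * K) * δ ^ (ν * K) * ‖y‖ ^ (2 * (ν * K))) := by
        refine mul_le_mul hG hminor' (by positivity) ?_
        have : 0 ≤ ∏ j, max 1 (t j / δ) ^ (K - g j) := Finset.prod_nonneg fun j _ =>
          pow_nonneg (zero_le_one.trans (le_max_left _ _)) _
        positivity
    _ = (C * 2 ^ (ν * K) * ‖y‖ ^ (2 * (ν * K)) * (∏ j, ‖p j ⬝ᵥ y‖ ^ K)) * δ ^ e *
        (δ ^ (ν * K) * ∏ j, max 1 (t j / δ) ^ (K - g j)) := by ring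
    _ ≤ (C * 2 ^ (ν * K) * ‖y‖ ^ (2 * (ν * K)) * (∏ j, ‖p j ⬝ᵥ y‖ ^ K)) * (1 + δ) ^ e *
        ((∏ j, max 1 (D j) ^ K) * ((1 + δ) ^ (ν * K) *
          ∏ j, max (1 + δ) (t j) ^ (K - g j))) := by
        have hk : 0 ≤ C * 2 ^ (ν * K) * ‖y‖ ^ (2 * (ν * K)) * (∏ j, ‖p j ⬝ᵥ y‖ ^ K) := by
          positivity
        have h0 : 0 ≤ δ ^ (ν * K) * ∏ j, max 1 (t j / δ) ^ (K - g j) := by
          have : 0 ≤ ∏ j, max 1 (t j / δ) ^ (K - g j) := Finset.prod_nonneg fun j _ =>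
            pow_nonneg (zero_le_one.trans (le_max_left _ _)) _
          positivity
        refine mul_le_mul (mul_le_mul_of_nonneg_left hδe hk) hmain h0 (by positivity)
    _ = _ := by
        rw [pow_add]
        ring

end Pool.Agent.Lib.GGL.SM
end

section

/-!
Comparison of the height with a monotone function.
-/

open Filter Topology MeasureTheory

namespace Pool.Agent.Lib.GGL.SM

/-- Maximum principle for products of norms of rotated vector valued entire functions. -/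
theorem E3_maxPrinciple {M : ℕ} {Y : ℂ → Fin (M + 1) → ℂ} (hY : Differentiable ℂ Y)
    (N : ℕ) (ζ : ℕ → ℂ) {R B : ℝ}
    (hB : ∀ w : ℂ, ‖w‖ = R → ∏ k ∈ Finset.range N, ‖Y (w * ζ k)‖ ≤ B) (z : ℂ) (hz : ‖z‖ ≤ R) :
    ∏ k ∈ Finset.range N, ‖Y (z * ζ k)‖ ≤ B := by
  rcases eq_or_lt_of_le hz with h | h
  · exact hB z h
  have hex : ∀ k : ℕ, ∃ i : Fin (M + 1), ‖Y (z * ζ k)‖ = ‖Y (z * ζ k) i‖ := by
    intro k
    obtain ⟨i, -, hi⟩ := Finset.exists_max_image (Finset.univ : Finset (Fin (M + 1)))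
      (fun i => ‖Y (z * ζ k) i‖) Finset.univ_nonempty
    refine ⟨i, le_antisymm ?_ (norm_le_pi_norm _ i)⟩
    exact (pi_norm_le_iff_of_nonneg (norm_nonneg _)).2 fun j => hi j (Finset.mem_univ j)
  choose i hi using hex
  have hYc : ∀ k : ℕ, Differentiable ℂ (fun w : ℂ => Y (w * ζ k) (i k)) := by
    intro k
    have h1 : Differentiable ℂ (fun w : ℂ => Y (w * ζ k)) :=
      hY.comp (differentiable_id.mul_const (ζ k))
    exact differentiable_pi.1 h1 (i k)
  have hg : Differentiable ℂ (fun w : ℂ => ∏ k ∈ Finset.range N, Y (w * ζ k) (i k)) := by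
    apply Differentiable.fun_finsetProd
    intro k _
    exact hYc k
  have key : ‖(fun w : ℂ => ∏ k ∈ Finset.range N, Y (w * ζ k) (i k)) z‖ ≤ B := by
    have hR : R ≠ 0 := by
      have := norm_nonneg z
      intro h0
      rw [h0] at h
      linarith
    refine Complex.norm_le_of_forall_mem_frontier_norm_le (U := Metric.ball (0 : ℂ) R)
      Metric.isBounded_ball hg.diffContOnCl ?_ ?_
    · intro w hw
      rw [frontier_ball (0 : ℂ) hR, mem_sphere_zero_iff_norm] at hw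
      refine le_trans ?_ (hB w hw)
      rw [norm_prod]
      exact Finset.prod_le_prod (fun k _ => norm_nonneg _) fun k _ => norm_le_pi_norm _ _
    · apply subset_closure
      rw [mem_ball_zero_iff]
      exact h
  calc ∏ k ∈ Finset.range N, ‖Y (z * ζ k)‖ = ∏ k ∈ Finset.range N, ‖Y (z * ζ k) (i k)‖ :=
        Finset.prod_congr rfl fun k _ => hi k
    _ ≤ B := by
        rw [← norm_prod]
        exact key

/-- Riemann sums of a continuous periodic function. -/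
theorem E3_riemann {u : ℂ → ℝ} (hu : Continuous u) (r : ℝ) {ε : ℝ} (hε : 0 < ε) :
    ∃ N0 : ℕ, ∀ N : ℕ, N0 ≤ N → 0 < N → ∀ θ : ℝ,
      |∑ k ∈ Finset.range N, u (circleMap 0 r (θ + 2 * Real.pi * k / N)) -
        N * Real.circleAverage u 0 r| ≤ N * ε := by
  have hpi : 0 < Real.pi := Real.pi_pos
  set v : ℝ → ℝ := fun t => u (circleMap 0 r t) with hv
  have hvc : Continuous v := hu.comp (continuous_circleMap 0 r)
  have huc : UniformContinuous v := by
    have h1 : UniformContinuousOn u (Metric.closedBall (0 : ℂ) |r|) :=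
      (isCompact_closedBall (0 : ℂ) |r|).uniformContinuousOn_of_continuous hu.continuousOn
    have h2 : UniformContinuous (circleMap (0 : ℂ) r) := (lipschitzWith_circleMap 0 r).uniformContinuous
    rw [Metric.uniformContinuousOn_iff] at h1
    rw [Metric.uniformContinuous_iff] at h2 ⊢
    intro e he
    obtain ⟨d, hd, hd'⟩ := h1 e he
    obtain ⟨d2, hd2, hd2'⟩ := h2 d hd
    refine ⟨d2, hd2, fun {a b} hab => ?_⟩
    have hm : ∀ t : ℝ, circleMap 0 r t ∈ Metric.closedBall (0 : ℂ) |r| := by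
      intro t
      rw [mem_closedBall_zero_iff]
      simp
    exact hd' _ (hm a) _ (hm b) (hd2' hab)
  rw [Metric.uniformContinuous_iff] at huc
  obtain ⟨d, hd, hd'⟩ := huc ε hε
  obtain ⟨N0, hN0⟩ := exists_nat_gt (2 * Real.pi / d)
  refine ⟨N0, fun N hN hNpos θ => ?_⟩
  have hNr : (0 : ℝ) < N := by exact_mod_cast hNpos
  have hNd : 2 * Real.pi / N < d := by
    rw [div_lt_iff₀ hNr]
    rw [div_lt_iff₀ hd] at hN0
    have : (N0 : ℝ) ≤ N := by exact_mod_cast hN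
    nlinarith
  set a : ℕ → ℝ := fun k => θ + 2 * Real.pi * k / N with ha
  have hvint : ∀ x y : ℝ, IntervalIntegrable v volume x y := fun x y =>
    hvc.intervalIntegrable x y
  have hstep : ∀ k : ℕ, |(2 * Real.pi / N) * v (a k) - ∫ t in (a k)..(a (k + 1)), v t| ≤
      (2 * Real.pi / N) * ε := by
    intro k
    have hlen : a (k + 1) - a k = 2 * Real.pi / N := by
      simp only [ha]
      push_cast
      ring
    have hle : a k ≤ a (k + 1) := by
      have : 0 < 2 * Real.pi / N := by positivity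
      linarith
    have h1 : (2 * Real.pi / N) * v (a k) = ∫ t in (a k)..(a (k + 1)), v (a k) := by
      rw [intervalIntegral.integral_const, hlen, smul_eq_mul]
    rw [h1, ← intervalIntegral.integral_sub (by simp) (hvint _ _)]
    have h2 := intervalIntegral.norm_integral_le_of_norm_le_const (a := a k) (b := a (k + 1))
      (f := fun t => v (a k) - v t) (C := ε) ?_
    · rw [Real.norm_eq_abs, hlen, abs_of_pos (by positivity : 0 < 2 * Real.pi / (N : ℝ))] at h2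
      rw [mul_comm]
      exact h2
    · intro t ht
      rw [Set.uIoc_of_le hle] at ht
      have h3 : dist (a k) t < d := by
        rw [Real.dist_eq, abs_sub_comm, abs_of_nonneg (by linarith [ht.1])]
        linarith [ht.2]
      have := hd' h3
      rw [Real.dist_eq] at this
      rw [Real.norm_eq_abs]
      exact this.le
  have hsum : ∑ k ∈ Finset.range N, ∫ t in (a k)..(a (k + 1)), v t = ∫ t in (a 0)..(a N), v t :=
    intervalIntegral.sum_integral_adjacent_intervals fun k _ => hvint _ _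
  have ha0 : a 0 = θ := by simp [ha]
  have haN : a N = θ + 2 * Real.pi := by
    simp only [ha]
    field_simp
  have hper : Function.Periodic v (2 * Real.pi) := by
    intro t
    simp only [hv]
    rw [periodic_circleMap 0 r t]
  have hint : ∫ t in (a 0)..(a N), v t = 2 * Real.pi * Real.circleAverage u 0 r := by
    rw [ha0, haN, hper.intervalIntegral_add_eq θ 0, zero_add, Real.circleAverage_def, smul_eq_mul]
    field_simp
    rfl
  have htot : |∑ k ∈ Finset.range N, (2 * Real.pi / N) * v (a k) -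
      2 * Real.pi * Real.circleAverage u 0 r| ≤ 2 * Real.pi * ε := by
    rw [← hint, ← hsum, ← Finset.sum_sub_distrib]
    refine (Finset.abs_sum_le_sum_abs _ _).trans ((Finset.sum_le_sum fun k _ => hstep k).trans ?_)
    rw [Finset.sum_const, Finset.card_range, nsmul_eq_mul]
    have : (N : ℝ) * (2 * Real.pi / N * ε) = 2 * Real.pi * ε := by
      field_simp
    rw [this]
  rw [← Finset.mul_sum] at htot
  have hfac : (2 * Real.pi / N) * ∑ k ∈ Finset.range N, v (a k) -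
      2 * Real.pi * Real.circleAverage u 0 r =
      (2 * Real.pi / N) * (∑ k ∈ Finset.range N, v (a k) - N * Real.circleAverage u 0 r) := by
    field_simp
  rw [hfac, abs_mul, abs_of_pos (by positivity : 0 < 2 * Real.pi / (N : ℝ))] at htot
  have h5 : (2 * Real.pi / N) * |∑ k ∈ Finset.range N, v (a k) - N * Real.circleAverage u 0 r| ≤
      (2 * Real.pi / N) * (N * ε) := by
    refine htot.trans (le_of_eq ?_)
    field_simp
  exact le_of_mul_le_mul_left h5 (by positivity)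

/-- The height is a monotone function. -/
theorem E3_mono {M : ℕ} {Y : ℂ → Fin (M + 1) → ℂ} (hY : Differentiable ℂ Y)
    (h0 : ∀ z, Y z ≠ 0) {r R : ℝ} (hr : 0 ≤ r) (hrR : r ≤ R) : height Y r ≤ height Y R := by
  have hR : 0 ≤ R := hr.trans hrR
  have hu : Continuous (fun z => Real.log ‖Y z‖) :=
    Continuous.log (hY.continuous.norm) fun z => norm_ne_zero_iff.2 (h0 z)
  refine le_of_forall_pos_le_add fun ε hε => ?_
  obtain ⟨N1, hN1⟩ := E3_riemann hu r (half_pos hε)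
  obtain ⟨N2, hN2⟩ := E3_riemann hu R (half_pos hε)
  set N : ℕ := max (max N1 N2) 1 with hN
  have hNpos : 0 < N := by omega
  have hNr : (0 : ℝ) < N := by exact_mod_cast hNpos
  have e1 := fun θ => hN1 N (by omega) hNpos θ
  have e2 := fun θ => hN2 N (by omega) hNpos θ
  change ∀ θ : ℝ, |_ - N * height Y r| ≤ _ at e1
  change ∀ θ : ℝ, |_ - N * height Y R| ≤ _ at e2
  set ζ : ℕ → ℂ := fun k => Complex.exp ((2 * Real.pi * k / N : ℝ) * Complex.I) with hζ
  have hcm : ∀ (ρ θ : ℝ) (k : ℕ), circleMap 0 ρ (θ + 2 * Real.pi * k / N) =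
      circleMap 0 ρ θ * ζ k := by
    intro ρ θ k
    simp only [circleMap, hζ, zero_add]
    rw [mul_assoc (ρ : ℂ), ← Complex.exp_add]
    congr 2
    push_cast
    ring
  have hlog : ∀ w : ℂ, ∏ k ∈ Finset.range N, ‖Y (w * ζ k)‖ =
      Real.exp (∑ k ∈ Finset.range N, Real.log ‖Y (w * ζ k)‖) := by
    intro w
    rw [Real.exp_sum]
    refine Finset.prod_congr rfl fun k _ => ?_
    rw [Real.exp_log (norm_pos_iff.2 (h0 _))]
  have hbound : ∏ k ∈ Finset.range N, ‖Y ((r : ℂ) * ζ k)‖ ≤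
      Real.exp (N * height Y R + N * (ε / 2)) := by
    refine E3_maxPrinciple hY N ζ (R := R) ?_ (r : ℂ) ?_
    · intro w hw
      rw [hlog w, Real.exp_le_exp]
      have hw2 : w = circleMap 0 R (Complex.arg w) := by
        rw [circleMap, zero_add, ← hw]
        exact (Complex.norm_mul_exp_arg_mul_I w).symm
      have h := e2 (Complex.arg w)
      simp_rw [hcm, ← hw2] at h
      have := (abs_le.1 h).2
      linarith
    · rw [Complex.norm_real, Real.norm_eq_abs, abs_of_nonneg hr]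
      exact hrR
  rw [hlog, Real.exp_le_exp] at hbound
  have h := e1 0
  simp_rw [hcm] at h
  have hr0 : circleMap 0 r 0 = (r : ℂ) := by simp [circleMap]
  simp_rw [hr0] at h
  have h2 := (abs_le.1 h).1
  have h3 : (N : ℝ) * height Y r ≤ N * (height Y R + ε) := by linarith
  exact le_of_mul_le_mul_left h3 hNr

theorem height_comparison {M : ℕ} {Y : ℂ → Fin (M + 1) → ℂ} (hY : Differentiable ℂ Y)
    (h0 : ∀ z, Y z ≠ 0) :
    ∃ (Φ : ℝ → ℝ) (C : ℝ), MonotoneOn Φ (Set.Ici 1) ∧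
      ∀ r, 1 ≤ r → 1 ≤ Φ r ∧ |height Y r| ≤ Φ r ∧ Φ r ≤ C * (|height Y r| + 1) := by
  refine ⟨fun r => height Y r + 2 * |height Y 1| + 1, 2 * |height Y 1| + 1, ?_, ?_⟩
  · intro a ha b _ hab
    have := E3_mono hY h0 (zero_le_one.trans ha) hab
    simp only
    linarith
  · intro r hr
    have h1 := E3_mono hY h0 zero_le_one hr
    have h2 := neg_abs_le (height Y 1)
    have h3 := le_abs_self (height Y r)
    have h4 := abs_nonneg (height Y 1)
    have h5 := abs_nonneg (height Y r)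
    refine ⟨by linarith, ?_, ?_⟩
    · rw [abs_le]
      constructor <;> linarith
    · have : 0 ≤ |height Y 1| * |height Y r| := mul_nonneg h4 h5
      nlinarith

end Pool.Agent.Lib.GGL.SM
end

section

/-!
An exceptional set of finite measure: circles that stay away from a discrete set.
-/

open Filter Topology MeasureTheory

namespace Pool.Agent.Lib.GGL.SM

theorem sep_set {Z : Set ℂ} (hZ : ∀ t : ℝ, (Z ∩ Metric.closedBall 0 t).Finite) :
    ∃ E : Set ℝ, volume E < ⊤ ∧ ∀ r ∉ E, ∀ t : ℝ, ∀ a ∈ Z, ‖a‖ ≤ t →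
      1 / (1 + ((Z ∩ Metric.closedBall 0 t).ncard : ℝ)) ^ 2 ≤ |r - ‖a‖| := by
  set n : ℝ → ℕ := fun t => (Z ∩ Metric.closedBall 0 t).ncard with hn
  set F : ℕ → Set ℝ := fun j => {r | ∃ a ∈ Z, n ‖a‖ = j ∧ |r - ‖a‖| < 1 / (1 + (j : ℝ)) ^ 2}
    with hF
  have hinj : ∀ a ∈ Z, ∀ b ∈ Z, n ‖a‖ = n ‖b‖ → ¬ ‖a‖ < ‖b‖ := by
    intro a ha b hb hab hlt
    have h1 : Z ∩ Metric.closedBall 0 ‖a‖ ⊂ Z ∩ Metric.closedBall 0 ‖b‖ := by
      refine ⟨Set.inter_subset_inter_right _ (Metric.closedBall_subset_closedBall hlt.le), ?_⟩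
      intro h2
      have h3 := (h2 ⟨hb, by simp⟩).2
      rw [mem_closedBall_zero_iff] at h3
      linarith
    have h2 := Set.ncard_lt_ncard h1 (hZ _)
    simp only [hn] at hab
    omega
  have hvol : ∀ j, volume (F j) ≤ ENNReal.ofReal (2 / (1 + (j : ℝ)) ^ 2) := by
    intro j
    by_cases hj : ∃ a ∈ Z, n ‖a‖ = j
    · obtain ⟨a, ha, haj⟩ := hj
      have hsub : F j ⊆ Metric.ball ‖a‖ (1 / (1 + (j : ℝ)) ^ 2) := by
        rintro r ⟨b, hb, hbj, hr⟩
        have h1 : ‖b‖ = ‖a‖ := le_antisymm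
          (not_lt.mp (hinj a ha b hb (haj.trans hbj.symm)))
          (not_lt.mp (hinj b hb a ha (hbj.trans haj.symm)))
        rw [Metric.mem_ball, Real.dist_eq, ← h1]
        exact hr
      refine (measure_mono hsub).trans ?_
      rw [Real.volume_ball]
      apply ENNReal.ofReal_le_ofReal
      apply le_of_eq
      ring
    · have hempty : F j = ∅ := by
        rw [Set.eq_empty_iff_forall_notMem]
        rintro r ⟨b, hb, hbj, _⟩
        exact hj ⟨b, hb, hbj⟩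
      rw [hempty, measure_empty]
      exact zero_le
  refine ⟨⋃ j, F j, ?_, ?_⟩
  · refine (measure_iUnion_le _).trans_lt ?_
    refine (ENNReal.tsum_le_tsum hvol).trans_lt ?_
    have hs : Summable fun j : ℕ => 2 / (1 + (j : ℝ)) ^ 2 := by
      have h1 : Summable fun j : ℕ => 1 / ((j : ℝ)) ^ 2 :=
        Real.summable_one_div_nat_pow.mpr (by norm_num)
      have h2 := (summable_nat_add_iff 1).mpr h1
      have h3 := h2.mul_left 2
      refine h3.congr fun j => ?_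
      push_cast
      rw [add_comm (j : ℝ) 1]
      ring
    rw [← ENNReal.ofReal_tsum_of_nonneg (fun j => by positivity) hs]
    exact ENNReal.ofReal_lt_top
  · intro r hr t a ha hat
    rw [Set.mem_iUnion, not_exists] at hr
    have h1 := hr (n ‖a‖)
    simp only [hF, Set.mem_ofPred_eq, not_exists, not_and, not_lt] at h1
    have h2 := h1 a ha rfl
    refine le_trans ?_ h2
    have h3 : n ‖a‖ ≤ n t := Set.ncard_le_ncard
      (Set.inter_subset_inter_right _ (Metric.closedBall_subset_closedBall hat)) (hZ t)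
    have h4 : (n ‖a‖ : ℝ) ≤ (n t : ℝ) := by exact_mod_cast h3
    apply one_div_le_one_div_of_le
    · positivity
    · apply pow_le_pow_left₀ (by positivity)
      show 1 + (n ‖a‖ : ℝ) ≤ 1 + (n t : ℝ)
      linarith

end Pool.Agent.Lib.GGL.SM
end

section

/-!
The growth lemma of Borel.
-/

open Filter Topology MeasureTheory

namespace Pool.Agent.Lib.GGL.SM

theorem borel_growth {Φ : ℝ → ℝ} (hΦ : MonotoneOn Φ (Set.Ici 1)) (h1 : ∀ r, 1 ≤ r → 1 ≤ Φ r) :
    ∃ E : Set ℝ, volume E < ⊤ ∧ ∀ r, 1 ≤ r → r ∉ E → Φ (r + 1 / Φ r) ≤ 3 * Φ r := by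
  set F : ℕ → Set ℝ := fun n => {r | 1 ≤ r ∧ (3 : ℝ) ^ n ≤ Φ r ∧ Φ r < 3 ^ (n + 1) ∧
    3 * Φ r < Φ (r + 1 / Φ r)} with hF
  have key : ∀ n, ∀ r ∈ F n, ∀ r' ∈ F n, r - r' ≤ (1 / 3 : ℝ) ^ n := by
    rintro n r ⟨hr1, hr2, hr3, hr4⟩ r' ⟨hs1, hs2, hs3, hs4⟩
    by_contra hcon
    push Not at hcon
    have hpos : 0 < Φ r' := lt_of_lt_of_le one_pos (h1 r' hs1)
    have h2 : 1 / Φ r' ≤ (1 / 3 : ℝ) ^ n := by
      rw [one_div_pow]
      exact one_div_le_one_div_of_le (by positivity) hs2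
    have h3 : 0 < 1 / Φ r' := by positivity
    have h4 : Φ (r' + 1 / Φ r') ≤ Φ r := by
      apply hΦ
      · show 1 ≤ r' + 1 / Φ r'
        linarith
      · exact hr1
      · linarith
    have h5 : (3 : ℝ) ^ (n + 1) = 3 * 3 ^ n := by ring
    linarith
  have hvol : ∀ n, volume (F n) ≤ ENNReal.ofReal ((1 / 3 : ℝ) ^ n) := by
    intro n
    refine (Real.volume_le_diam _).trans ?_
    apply Metric.ediam_le
    intro r hr r' hr'
    rw [edist_dist, Real.dist_eq]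
    apply ENNReal.ofReal_le_ofReal
    rw [abs_le]
    have h2 := key n r hr r' hr'
    have h3 := key n r' hr' r hr
    constructor <;> linarith
  refine ⟨⋃ n, F n, ?_, ?_⟩
  · refine (measure_iUnion_le _).trans_lt ?_
    refine (ENNReal.tsum_le_tsum hvol).trans_lt ?_
    have hs : Summable fun n : ℕ => (1 / 3 : ℝ) ^ n :=
      summable_geometric_of_lt_one (by norm_num) (by norm_num)
    rw [← ENNReal.ofReal_tsum_of_nonneg (fun j => by positivity) hs]
    exact ENNReal.ofReal_lt_top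
  · intro r hr hrE
    by_contra hcon
    push Not at hcon
    obtain ⟨n, hn1, hn2⟩ := exists_nat_pow_near (h1 r hr) (by norm_num : (1 : ℝ) < 3)
    exact hrE (Set.mem_iUnion.mpr ⟨n, hr, hn1, hn2, hcon⟩)

end Pool.Agent.Lib.GGL.SM
end

section

/-!
The logarithmic derivative of a function without zeros.
-/

open Filter Topology MeasureTheory

namespace Pool.Agent.Lib.GGL.SM

/-- norm bound for circle averages -/
theorem e5_norm_circleAverage_le {F : ℂ → ℂ} {G : ℂ → ℝ} {ρ C : ℝ} (hρ : 0 < ρ)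
    (hG : CircleIntegrable G 0 ρ) (h : ∀ ζ : ℂ, ‖ζ‖ = ρ → ‖F ζ‖ ≤ C * G ζ) :
    ‖Real.circleAverage F 0 ρ‖ ≤ C * Real.circleAverage G 0 ρ := by
  have hpi : (0 : ℝ) ≤ (2 * Real.pi)⁻¹ := by positivity
  rw [Real.circleAverage_def, Real.circleAverage_def, norm_smul, Real.norm_of_nonneg hpi,
    smul_eq_mul]
  have h1 : ‖∫ θ in (0 : ℝ)..2 * Real.pi, F (circleMap 0 ρ θ)‖ ≤
      ∫ θ in (0 : ℝ)..2 * Real.pi, C * G (circleMap 0 ρ θ) := by
    refine intervalIntegral.norm_integral_le_of_norm_le (by positivity)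
      (Filter.Eventually.of_forall fun θ _ => h _ ?_) ?_
    · simp [abs_of_pos hρ]
    · exact IntervalIntegrable.const_mul hG C
  rw [intervalIntegral.integral_const_mul] at h1
  calc (2 * Real.pi)⁻¹ * ‖∫ θ in (0 : ℝ)..2 * Real.pi, F (circleMap 0 ρ θ)‖ ≤
        (2 * Real.pi)⁻¹ * (C * ∫ θ in (0 : ℝ)..2 * Real.pi, G (circleMap 0 ρ θ)) :=
        mul_le_mul_of_nonneg_left h1 hpi
    _ = _ := by ring

theorem logDeriv_bound {g : ℂ → ℂ} {ρ r : ℝ} (hr : 0 ≤ r) (hrρ : r < ρ)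
    (hg : AnalyticOnNhd ℂ g (Metric.closedBall 0 ρ))
    (h0 : ∀ z ∈ Metric.closedBall (0 : ℂ) ρ, g z ≠ 0) {z : ℂ} (hz : ‖z‖ ≤ r) :
    ‖deriv g z / g z‖ ≤ 2 * ρ / (ρ - r) ^ 2 *
      Real.circleAverage (fun z => |Real.log ‖g z‖|) 0 ρ := by
  have hρ : 0 < ρ := hr.trans_lt hrρ
  set u : ℂ → ℝ := fun z => Real.log ‖g z‖ with hu
  have hcont : ContinuousOn u (Metric.closedBall 0 ρ) := by
    refine ContinuousOn.log (hg.continuousOn.norm) fun x hx => ?_
    exact norm_ne_zero_iff.2 (h0 x hx)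
  have hsub : Metric.sphere (0 : ℂ) ρ ⊆ Metric.closedBall 0 ρ := Metric.sphere_subset_closedBall
  have hci : CircleIntegrable u 0 ρ := (hcont.mono hsub).circleIntegrable hρ.le
  have hciC : CircleIntegrable (fun ζ => (u ζ : ℂ)) 0 ρ := by
    refine ContinuousOn.circleIntegrable hρ.le ?_
    exact Complex.continuous_ofReal.comp_continuousOn (hcont.mono hsub)
  have hharm : InnerProductSpace.HarmonicOnNhd u (Metric.closedBall 0 ρ) := fun x hx =>
    (hg x hx).harmonicAt_log_norm (h0 x hx)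
  set h : ℂ → ℂ := fun w =>
    Real.circleAverage (fun ζ => herglotzRieszKernel 0 w ζ • (u ζ : ℂ)) 0 ρ with hh
  have hre : ∀ w ∈ Metric.ball (0 : ℂ) ρ, (h w).re = u w := by
    intro w hw
    rw [hh]
    beta_reduce
    rw [re_circleAverage_herglotzRieszKernel_smul hci hw]
    exact hharm.circleAverage_re_herglotzRieszKernel_smul hw
  have hder : ∀ w ∈ Metric.ball (0 : ℂ) ρ, HasDerivAt h
      (Real.circleAverage (fun ζ => (2 * ζ / (ζ - w) ^ 2) • (u ζ : ℂ)) 0 ρ) w := fun w hw =>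
    hasDerivAt_circleAverage_herglotzRieszKernel_smul hciC hw
  have hzb : z ∈ Metric.ball (0 : ℂ) ρ := by
    rw [mem_ball_zero_iff]
    exact hz.trans_lt hrρ
  have hgd : ∀ w ∈ Metric.ball (0 : ℂ) ρ, DifferentiableAt ℂ g w := fun w hw =>
    (hg w (Metric.ball_subset_closedBall hw)).differentiableAt
  have hnorm : ∀ w ∈ Metric.ball (0 : ℂ) ρ, ‖g w * Complex.exp (-h w)‖ = 1 := by
    intro w hw
    have h1 : g w ≠ 0 := h0 w (Metric.ball_subset_closedBall hw)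
    rw [norm_mul, Complex.norm_exp, Complex.neg_re, hre w hw, hu]
    beta_reduce
    rw [Real.exp_neg, Real.exp_log (norm_pos_iff.2 h1), mul_inv_cancel₀ (norm_ne_zero_iff.2 h1)]
  have hnhds : Metric.ball (0 : ℂ) ρ ∈ 𝓝 z := Metric.isOpen_ball.mem_nhds hzb
  have hconst : ∀ᶠ w in 𝓝 z, g w * Complex.exp (-h w) = g z * Complex.exp (-h z) := by
    refine Complex.eventually_eq_of_isLocalMax_norm (f := fun w => g w * Complex.exp (-h w)) ?_ ?_
    · filter_upwards [hnhds] with w hw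
      exact (hgd w hw).mul ((hder w hw).differentiableAt.neg.cexp)
    · filter_upwards [hnhds] with w hw
      simp only [Function.comp_apply]
      rw [hnorm w hw, hnorm z hzb]
  have hd1 : HasDerivAt (fun w => g w * Complex.exp (-h w)) 0 z := by
    refine (hasDerivAt_const z (g z * Complex.exp (-h z))).congr_of_eventuallyEq ?_
    filter_upwards [hconst] with w hw
    exact hw
  have hd2 : HasDerivAt (fun w => g w * Complex.exp (-h w))
      (deriv g z * Complex.exp (-h z) + g z * (Complex.exp (-h z) *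
        -(Real.circleAverage (fun ζ => (2 * ζ / (ζ - z) ^ 2) • (u ζ : ℂ)) 0 ρ))) z :=
    (hgd z hzb).hasDerivAt.mul ((hder z hzb).neg.cexp)
  have heq := hd2.unique hd1
  have hgz : g z ≠ 0 := h0 z (Metric.ball_subset_closedBall hzb)
  have hkey : deriv g z / g z =
      Real.circleAverage (fun ζ => (2 * ζ / (ζ - z) ^ 2) • (u ζ : ℂ)) 0 ρ := by
    have he : Complex.exp (-h z) ≠ 0 := Complex.exp_ne_zero _
    rw [div_eq_iff hgz]
    have h2 : (deriv g z - Real.circleAverage (fun ζ => (2 * ζ / (ζ - z) ^ 2) • (u ζ : ℂ)) 0 ρ *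
        g z) * Complex.exp (-h z) = 0 := by
      linear_combination heq
    have h3 := (mul_eq_zero.1 h2).resolve_right he
    exact sub_eq_zero.1 h3
  rw [hkey]
  refine e5_norm_circleAverage_le hρ ?_ fun ζ hζ => ?_
  · exact ((hcont.mono hsub).abs).circleIntegrable hρ.le
  · rw [norm_smul, Complex.norm_real, Real.norm_eq_abs, norm_div, norm_pow, norm_mul, hζ]
    have h4 : ρ - r ≤ ‖ζ - z‖ := by
      have := norm_sub_norm_le ζ z
      rw [hζ] at this
      linarith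
    have h5 : ‖(2 : ℂ)‖ = 2 := by norm_num
    rw [h5]
    refine mul_le_mul_of_nonneg_right ?_ (abs_nonneg _)
    have h6 : 0 < ρ - r := sub_pos.2 hrρ
    exact div_le_div_of_nonneg_left (by positivity) (by positivity)
      (pow_le_pow_left₀ h6.le h4 2)

end Pool.Agent.Lib.GGL.SM
end

section

/-!
A pointwise bound for the difference of two logarithmic derivatives.
-/

open Filter Topology MeasureTheory

namespace Pool.Agent.Lib.GGL.SM

theorem e6_factor_logDeriv {A g : ℂ → ℂ} {s : Finset ℂ} {m : ℂ → ℕ} (hg : Differentiable ℂ g)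
    (hAg : ∀ z, A z = (∏ a ∈ s, (z - a) ^ m a) * g z) {z : ℂ} (hs : ∀ a ∈ s, z - a ≠ 0)
    (hgz : g z ≠ 0) :
    deriv A z / A z = ∑ a ∈ s, (m a : ℂ) / (z - a) + deriv g z / g z := by
  have hA : A = fun z => (∏ a ∈ s, (z - a) ^ m a) * g z := funext hAg
  have h1 : ∀ a : ℂ, DifferentiableAt ℂ (fun z => z - a) z := fun a => by fun_prop
  have h2 : ∀ a ∈ s, DifferentiableAt ℂ (fun z => (z - a) ^ m a) z := fun a _ => by fun_prop
  change logDeriv A z = _ + logDeriv g z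
  rw [hA, logDeriv_mul (f := fun z => ∏ a ∈ s, (z - a) ^ m a) z
    (Finset.prod_ne_zero_iff.2 fun a ha => pow_ne_zero _ (hs a ha)) hgz
    (by fun_prop) (hg z)]
  congr 1
  rw [logDeriv_prod (f := fun a z => (z - a) ^ m a) (fun a ha => pow_ne_zero _ (hs a ha)) h2]
  refine Finset.sum_congr rfl fun a _ => ?_
  rw [logDeriv_fun_pow (h1 a), logDeriv_apply, deriv_sub_const, deriv_id'']
  ring

theorem e6_avg {a : ℂ} {ρ : ℝ} (hρ : 1 ≤ ρ) (ha : ‖a‖ ≤ ρ) :
    Real.circleAverage (fun ζ => |Real.log ‖ζ - a‖|) 0 ρ ≤ 2 * Real.log (2 * ρ + 1) := by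
  have hρ0 : 0 < ρ := zero_lt_one.trans_le hρ
  have hci : CircleIntegrable (fun ζ => Real.log ‖ζ - a‖) 0 ρ :=
    circleIntegrable_log_norm_sub_const ρ
  have h1 : ∀ x ∈ Metric.sphere (0 : ℂ) |ρ|, |Real.log ‖x - a‖| ≤
      2 * Real.log (2 * ρ + 1) - Real.log ‖x - a‖ := by
    intro x hx
    rw [mem_sphere_zero_iff_norm, abs_of_pos hρ0] at hx
    have h2 : Real.posLog ‖x - a‖ ≤ Real.log (2 * ρ + 1) := by
      rw [← Real.posLog_eq_log (x := 2 * ρ + 1) (by rw [abs_of_pos (by linarith)]; linarith)]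
      refine Real.posLog_le_posLog (norm_nonneg _) ?_
      have := norm_sub_le x a
      rw [hx] at this
      linarith
    have h3 := Real.half_mul_log_add_log_abs (x := ‖x - a‖)
    linarith
  have h2 := Real.circleAverage_mono hci.abs ((circleIntegrable_const _ 0 ρ).sub hci) h1
  refine h2.trans ?_
  have h3 : Real.circleAverage (fun x => 2 * Real.log (2 * ρ + 1) - Real.log ‖x - a‖) 0 ρ =
      2 * Real.log (2 * ρ + 1) - Real.log ρ := by
    rw [Real.circleAverage_fun_sub (circleIntegrable_const _ 0 ρ) hci, Real.circleAverage_const]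
    congr 1
    exact circleAverage_log_norm_sub_const_of_mem_closedBall
      (by rw [mem_closedBall_zero_iff, abs_of_pos hρ0]; exact ha)
  have h4 : Real.circleAverage ((fun _ => 2 * Real.log (2 * ρ + 1)) - fun x => Real.log ‖x - a‖)
      0 ρ = 2 * Real.log (2 * ρ + 1) - Real.log ρ := h3
  rw [h4]
  linarith [Real.log_nonneg hρ]

theorem e6_log {A g : ℂ → ℂ} {s : Finset ℂ} {m : ℂ → ℕ}
    (hAg : ∀ z, A z = (∏ a ∈ s, (z - a) ^ m a) * g z) {z : ℂ} (hs : ∀ a ∈ s, z - a ≠ 0)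
    (hgz : g z ≠ 0) :
    Real.log ‖g z‖ = Real.log ‖A z‖ - ∑ a ∈ s, (m a : ℝ) * Real.log ‖z - a‖ := by
  have h1 : ∀ a ∈ s, ‖z - a‖ ^ m a ≠ 0 := fun a ha => pow_ne_zero _ (norm_ne_zero_iff.2 (hs a ha))
  rw [hAg z, norm_mul, norm_prod]
  simp only [norm_pow]
  rw [Real.log_mul (Finset.prod_ne_zero_iff.2 h1) (norm_ne_zero_iff.2 hgz), Real.log_prod h1]
  simp only [Real.log_pow]
  ring

theorem e6_sum_avg {s : Finset ℂ} {m : ℂ → ℕ} {ρ : ℝ} (hρ : 1 ≤ ρ) (hs : ∀ a ∈ s, ‖a‖ ≤ ρ) :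
    CircleIntegrable (fun ζ => ∑ a ∈ s, (m a : ℝ) * |Real.log ‖ζ - a‖|) 0 ρ ∧
    Real.circleAverage (fun ζ => ∑ a ∈ s, (m a : ℝ) * |Real.log ‖ζ - a‖|) 0 ρ ≤
      (∑ a ∈ s, (m a : ℝ)) * (2 * Real.log (2 * ρ + 1)) := by
  have hi : ∀ a ∈ s, CircleIntegrable (fun ζ => (m a : ℝ) * |Real.log ‖ζ - a‖|) 0 ρ := fun a _ =>
    (circleIntegrable_log_norm_sub_const ρ).abs.const_mul _
  refine ⟨CircleIntegrable.fun_sum s hi, ?_⟩
  rw [Real.circleAverage_fun_sum hi, Finset.sum_mul]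
  refine Finset.sum_le_sum fun a ha => ?_
  have h1 : Real.circleAverage (fun ζ => (m a : ℝ) * |Real.log ‖ζ - a‖|) 0 ρ =
      (m a : ℝ) * Real.circleAverage (fun ζ => |Real.log ‖ζ - a‖|) 0 ρ := by
    have := Real.circleAverage_fun_smul (c := 0) (R := ρ) (a := (m a : ℝ))
      (f := fun ζ : ℂ => |Real.log ‖ζ - a‖|)
    simpa [smul_eq_mul] using this
  rw [h1]
  exact mul_le_mul_of_nonneg_left (e6_avg hρ (hs a ha)) (Nat.cast_nonneg _)

theorem logDeriv_sub_bound {A B : ℂ → ℂ} (hA : Differentiable ℂ A) (hB : Differentiable ℂ B)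
    (hA0 : ∃ z, A z ≠ 0) (hB0 : ∃ z, B z ≠ 0) {r ρ η : ℝ} (hr : 1 ≤ r) (hrρ : r < ρ)
    (hη : 0 < η) {z : ℂ} (hz : ‖z‖ = r)
    (hsep : ∀ a : ℂ, ‖a‖ ≤ ρ → (A a = 0 ∨ B a = 0) → η ≤ ‖z - a‖) :
    ‖deriv A z / A z - deriv B z / B z‖ ≤ 2 * ρ / (ρ - r) ^ 2 *
      (Real.circleAverage (fun z => |Real.log ‖A z‖ - Real.log ‖B z‖|) 0 ρ +
        2 * (zc A ρ + zc B ρ) * Real.log (2 * ρ + 1)) + (zc A ρ + zc B ρ) / η := by
  have hρ1 : 1 ≤ ρ := hr.trans hrρ.le
  have hρ : 0 < ρ := zero_lt_one.trans_le hρ1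
  obtain ⟨s, g, hs, hg, hg0, hAg, hzA⟩ := exists_factor hA hA0 ρ
  obtain ⟨t, f, ht, hf, hf0, hBf, hzB⟩ := exists_factor hB hB0 ρ
  set m : ℂ → ℕ := fun a => analyticOrderNatAt A a with hm
  set n : ℂ → ℕ := fun a => analyticOrderNatAt B a with hn
  have hzρ : ‖z‖ ≤ ρ := hz.le.trans hrρ.le
  have hsz : ∀ a ∈ s, η ≤ ‖z - a‖ := fun a ha => hsep a ((hs a).1 ha).2 (Or.inl ((hs a).1 ha).1)
  have htz : ∀ a ∈ t, η ≤ ‖z - a‖ := fun a ha => hsep a ((ht a).1 ha).2 (Or.inr ((ht a).1 ha).1)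
  have hsz0 : ∀ a ∈ s, z - a ≠ 0 := fun a ha => norm_pos_iff.1 (hη.trans_le (hsz a ha))
  have htz0 : ∀ a ∈ t, z - a ≠ 0 := fun a ha => norm_pos_iff.1 (hη.trans_le (htz a ha))
  have e1 := e6_factor_logDeriv hg hAg hsz0 (hg0 z hzρ)
  have e2 := e6_factor_logDeriv hf hBf htz0 (hf0 z hzρ)
  -- the sums over the zeros
  have hsum : ∀ {s : Finset ℂ} {m : ℂ → ℕ}, (∀ a ∈ s, η ≤ ‖z - a‖) →
      ‖∑ a ∈ s, (m a : ℂ) / (z - a)‖ ≤ (∑ a ∈ s, (m a : ℝ)) / η := by
    intro s m h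
    rw [Finset.sum_div]
    refine norm_sum_le_of_le s fun a ha => ?_
    rw [norm_div, Complex.norm_natCast]
    exact div_le_div_of_nonneg_left (Nat.cast_nonneg _) hη (h a ha)
  -- the quotient without zeros
  have hgf : AnalyticOnNhd ℂ (fun w => g w / f w) (Metric.closedBall 0 ρ) := by
    intro w hw
    refine (hg.analyticAt w).div (hf.analyticAt w) ?_
    exact hf0 w (by simpa using hw)
  have hgf0 : ∀ w ∈ Metric.closedBall (0 : ℂ) ρ, g w / f w ≠ 0 := fun w hw => by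
    rw [mem_closedBall_zero_iff] at hw
    exact div_ne_zero (hg0 w hw) (hf0 w hw)
  have e3 := logDeriv_bound (zero_le_one.trans hr) hrρ hgf hgf0 hz.le
  have e4 : deriv (fun w => g w / f w) z / (g z / f z) = deriv g z / g z - deriv f z / f z := by
    have := logDeriv_div (f := g) (g := f) z (hg0 z hzρ) (hf0 z hzρ) (hg z) (hf z)
    exact this
  -- the average
  have hciA : CircleIntegrable (fun ζ => Real.log ‖A ζ‖) 0 ρ :=
    MeromorphicOn.circleIntegrable_log_norm fun w _ => (hA.analyticAt w).meromorphicAt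
  have hciB : CircleIntegrable (fun ζ => Real.log ‖B ζ‖) 0 ρ :=
    MeromorphicOn.circleIntegrable_log_norm fun w _ => (hB.analyticAt w).meromorphicAt
  have hciAB : CircleIntegrable (fun ζ => |Real.log ‖A ζ‖ - Real.log ‖B ζ‖|) 0 ρ :=
    (hciA.sub hciB).abs
  obtain ⟨i1, a1⟩ := e6_sum_avg (m := m) hρ1 (s := s) fun a ha => ((hs a).1 ha).2
  obtain ⟨i2, a2⟩ := e6_sum_avg (m := n) hρ1 (s := t) fun a ha => ((ht a).1 ha).2
  classical
  have hset : ((s ∪ t : Finset ℂ) : Set ℂ)ᶜ ∈ codiscreteWithin (Metric.sphere (0 : ℂ) |ρ|) :=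
    Filter.codiscreteWithin_mono (Set.subset_univ _) ((s ∪ t).finite_toSet.compl_mem_codiscrete)
  set L : ℂ → ℝ := fun ζ => if ζ ∈ s ∪ t then 0 else |Real.log ‖g ζ / f ζ‖| with hL
  have hLeq : (fun ζ => |Real.log ‖g ζ / f ζ‖|) =ᶠ[codiscreteWithin (Metric.sphere (0 : ℂ) |ρ|)]
      L := by
    filter_upwards [hset] with ζ hζ
    have h1 : ζ ∉ s ∪ t := fun h => hζ (Finset.mem_coe.2 h)
    rw [hL]
    simp only [h1, if_false]
  have hci0 : CircleIntegrable (fun ζ => |Real.log ‖g ζ / f ζ‖|) 0 ρ := by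
    refine (MeromorphicOn.circleIntegrable_log_norm fun w _ => ?_).abs
    exact (hg.analyticAt w).meromorphicAt.div (hf.analyticAt w).meromorphicAt
  have hciL : CircleIntegrable L 0 ρ := CircleIntegrable.congr_codiscreteWithin hLeq hci0
  have hR : CircleIntegrable (fun ζ => |Real.log ‖A ζ‖ - Real.log ‖B ζ‖| +
      (∑ a ∈ s, (m a : ℝ) * |Real.log ‖ζ - a‖| + ∑ a ∈ t, (n a : ℝ) * |Real.log ‖ζ - a‖|)) 0 ρ :=
    hciAB.add (i1.add i2)
  have e5 : Real.circleAverage (fun ζ => |Real.log ‖g ζ / f ζ‖|) 0 ρ ≤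
      Real.circleAverage (fun z => |Real.log ‖A z‖ - Real.log ‖B z‖|) 0 ρ +
        2 * (zc A ρ + zc B ρ) * Real.log (2 * ρ + 1) := by
    rw [Real.circleAverage_congr_codiscreteWithin hLeq hρ.ne']
    have h1 : ∀ x ∈ Metric.sphere (0 : ℂ) |ρ|, L x ≤ |Real.log ‖A x‖ - Real.log ‖B x‖| +
        (∑ a ∈ s, (m a : ℝ) * |Real.log ‖x - a‖| + ∑ a ∈ t, (n a : ℝ) * |Real.log ‖x - a‖|) := by
      intro x hx
      rw [mem_sphere_zero_iff_norm, abs_of_pos hρ] at hx
      have hp1 : 0 ≤ ∑ a ∈ s, (m a : ℝ) * |Real.log ‖x - a‖| :=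
        Finset.sum_nonneg fun a _ => mul_nonneg (Nat.cast_nonneg _) (abs_nonneg _)
      have hp2 : 0 ≤ ∑ a ∈ t, (n a : ℝ) * |Real.log ‖x - a‖| :=
        Finset.sum_nonneg fun a _ => mul_nonneg (Nat.cast_nonneg _) (abs_nonneg _)
      by_cases hxs : x ∈ s ∪ t
      · rw [hL]
        simp only [hxs, if_true]
        positivity
      · rw [hL]
        simp only [hxs, if_false]
        rw [Finset.mem_union, not_or] at hxs
        have q1 : ∀ a ∈ s, x - a ≠ 0 := fun a ha h => hxs.1 (by rwa [sub_eq_zero.1 h])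
        have q2 : ∀ a ∈ t, x - a ≠ 0 := fun a ha h => hxs.2 (by rwa [sub_eq_zero.1 h])
        have g1 := e6_log hAg q1 (hg0 x hx.le)
        have g2 := e6_log hBf q2 (hf0 x hx.le)
        rw [norm_div, Real.log_div (norm_ne_zero_iff.2 (hg0 x hx.le))
          (norm_ne_zero_iff.2 (hf0 x hx.le)), g1, g2]
        have q3 : ∀ {s : Finset ℂ} {m : ℂ → ℕ}, |∑ a ∈ s, (m a : ℝ) * Real.log ‖x - a‖| ≤
            ∑ a ∈ s, (m a : ℝ) * |Real.log ‖x - a‖| := by
          intro s m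
          refine (Finset.abs_sum_le_sum_abs _ _).trans (le_of_eq ?_)
          refine Finset.sum_congr rfl fun a _ => ?_
          rw [abs_mul, abs_of_nonneg (Nat.cast_nonneg _)]
        have q4 := q3 (s := s) (m := m)
        have q5 := q3 (s := t) (m := n)
        calc |Real.log ‖A x‖ - ∑ a ∈ s, (m a : ℝ) * Real.log ‖x - a‖ -
              (Real.log ‖B x‖ - ∑ a ∈ t, (n a : ℝ) * Real.log ‖x - a‖)| =
              |(Real.log ‖A x‖ - Real.log ‖B x‖) + (-(∑ a ∈ s, (m a : ℝ) * Real.log ‖x - a‖) +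
              ∑ a ∈ t, (n a : ℝ) * Real.log ‖x - a‖)| := by
              congr 1
              ring
          _ ≤ |Real.log ‖A x‖ - Real.log ‖B x‖| + (|∑ a ∈ s, (m a : ℝ) * Real.log ‖x - a‖| +
              |∑ a ∈ t, (n a : ℝ) * Real.log ‖x - a‖|) := by
              refine (abs_add_le _ _).trans (add_le_add le_rfl ((abs_add_le _ _).trans ?_))
              rw [abs_neg]
          _ ≤ _ := by linarith
    refine (Real.circleAverage_mono hciL hR h1).trans ?_
    have i12 : CircleIntegrable (fun ζ => ∑ a ∈ s, (m a : ℝ) * |Real.log ‖ζ - a‖| +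
        ∑ a ∈ t, (n a : ℝ) * |Real.log ‖ζ - a‖|) 0 ρ := i1.add i2
    rw [Real.circleAverage_fun_add hciAB i12, Real.circleAverage_fun_add i1 i2, hzA, hzB]
    have : 2 * (∑ a ∈ s, (m a : ℝ) + ∑ a ∈ t, (n a : ℝ)) * Real.log (2 * ρ + 1) =
        (∑ a ∈ s, (m a : ℝ)) * (2 * Real.log (2 * ρ + 1)) +
        (∑ a ∈ t, (n a : ℝ)) * (2 * Real.log (2 * ρ + 1)) := by ring
    rw [this]
    linarith
  -- conclusion
  have e6 : deriv A z / A z - deriv B z / B z = (∑ a ∈ s, (m a : ℂ) / (z - a) -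
      ∑ a ∈ t, (n a : ℂ) / (z - a)) + deriv (fun w => g w / f w) z / (g z / f z) := by
    rw [e4, e1, e2]
    ring
  have hk : 0 ≤ 2 * ρ / (ρ - r) ^ 2 := by positivity
  rw [e6]
  calc ‖(∑ a ∈ s, (m a : ℂ) / (z - a) - ∑ a ∈ t, (n a : ℂ) / (z - a)) +
        deriv (fun w => g w / f w) z / (g z / f z)‖ ≤
        (‖∑ a ∈ s, (m a : ℂ) / (z - a)‖ + ‖∑ a ∈ t, (n a : ℂ) / (z - a)‖) +
        ‖deriv (fun w => g w / f w) z / (g z / f z)‖ :=
        (norm_add_le _ _).trans (add_le_add (norm_sub_le _ _) le_rfl)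
    _ ≤ ((∑ a ∈ s, (m a : ℝ)) / η + (∑ a ∈ t, (n a : ℝ)) / η) + 2 * ρ / (ρ - r) ^ 2 *
        Real.circleAverage (fun ζ => |Real.log ‖g ζ / f ζ‖|) 0 ρ :=
        add_le_add (add_le_add (hsum hsz) (hsum htz)) e3
    _ ≤ ((∑ a ∈ s, (m a : ℝ)) / η + (∑ a ∈ t, (n a : ℝ)) / η) + 2 * ρ / (ρ - r) ^ 2 *
        (Real.circleAverage (fun z => |Real.log ‖A z‖ - Real.log ‖B z‖|) 0 ρ +
        2 * (zc A ρ + zc B ρ) * Real.log (2 * ρ + 1)) :=
        add_le_add le_rfl (mul_le_mul_of_nonneg_left e5 hk)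
    _ = _ := by
        rw [hzA, hzB]
        ring

end Pool.Agent.Lib.GGL.SM
end
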