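import Mathlib
import Pool.Agent.Lib.MP_8d161d_ag.VG.VDefs
import Pool.Agent.Lib.MP_8d161d_ag.Mg.G004
import Pool.Agent.Lib.MP_8d161d_ag.SM.Defs
import Pool.Agent.Lib.MP_8d161d_ag.Mg.G011
import Pool.Agent.Lib.MP_8d161d_ag.Mg.G012
import Pool.Agent.Lib.MP_8d161d_ag.Mg.G006
import Pool.Agent.Lib.MP_8d161d_ag.Mg.G014

section

/-!
The analytic part of the argument, for a given certificate.
-/

open Filter Topology MvPolynomial Module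

namespace Pool.Agent.Lib.GGL.VG

theorem core_certificate {q M K₀ A B τ : ℕ} (hq2 : 2 ≤ q) (hτ : 1 ≤ τ)
    (hdeg : q * K₀ = A + B + τ) {p' : Fin q → Fin (M + 1) → ℂ}
    {c : (Fin q → Fin (2 * K₀ + 1)) →
      MvPolynomial ((Fin q × Fin (M + 1)) ⊕ (Fin (M + 1) ⊕ Fin (M + 1))) ℂ} {g : Fin q → ℕ}
    {Y : ℂ → ℂ → Fin (M + 1) → ℂ} (hY : LiftFamily Y)
    {w : (Fin (M + 1) → ℂ) × (Fin (M + 1) → ℂ)} (hw : w ∈ jets Y)
    (hgood : ∀ p'' : Fin q → Fin (M + 1) → ℂ, ∀ y Z, (y, Z) ∈ jetc Y →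
      Good K₀ q g (fun j => p'' j ⬝ᵥ y) (fun j => p'' j ⬝ᵥ Z) (fun γ => eval (pt p'' y Z) (c γ)))
    (hhom : ∀ (y Z : Fin (M + 1) → ℂ) (a b : ℂ),
      lead K₀ g (fun j => p' j ⬝ᵥ (a • y)) (fun j => p' j ⬝ᵥ (b • Z))
        (fun γ => eval (pt p' (a • y) (b • Z)) (c γ)) = a ^ A * b ^ B *
      lead K₀ g (fun j => p' j ⬝ᵥ y) (fun j => p' j ⬝ᵥ Z) (fun γ => eval (pt p' y Z) (c γ)))
    (hne : lead K₀ g (fun j => p' j ⬝ᵥ w.1) (fun j => p' j ⬝ᵥ w.2)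
      (fun γ => eval (pt p' w.1 w.2) (c γ)) ≠ 0)
    {c₀ : ℝ} (hc₀ : 0 < c₀) (hsep : ∀ y Z, (y, Z) ∈ jetc Y →
      c₀ * ‖y‖ ≤ ‖fun j => p' j ⬝ᵥ y‖ ∧ c₀ * ‖Z‖ ≤ ‖fun j => p' j ⬝ᵥ Z‖)
    (hlw : ∀ j, p' j ⬝ᵥ w.1 ≠ 0)
    (hwrw : ∀ i j, i ≠ j → (p' i ⬝ᵥ w.1) * (p' j ⬝ᵥ w.2) - (p' j ⬝ᵥ w.1) * (p' i ⬝ᵥ w.2) ≠ 0)
    (hminw : ∀ i j, (∀ z₁, ∀ᶠ z in 𝓝 z₁, Y z₁ z i = 0) ∨
      (p' j ⬝ᵥ w.2) * w.1 i - w.2 i * (p' j ⬝ᵥ w.1) ≠ 0)
    (hord' : ∀ j z₁, analyticOrderAt (fun z => p' j ⬝ᵥ Y z₁ z) z₁ = 0 ∨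
      (2 : ℕ∞) ≤ analyticOrderAt (fun z => p' j ⬝ᵥ Y z₁ z) z₁) : False := by
  -- the bound for the leading coefficient
  obtain ⟨Q, hQ⟩ := exists_poly (K₀ := K₀) p' g c
  have hW := jetc_closed Y
  obtain ⟨C, hC, hCb⟩ := scaled_bound hdeg p' hW hc₀ hsep c g
    hgood hhom
  have hwc : (w.1, w.2) ∈ jetc Y := jets_subset_jetc Y hw
  obtain ⟨f, G, C', hC', hcov, hhomZ, hneG, hbdG⟩ := top_coeff (K := K₀) (A := A) (B := B) (τ := τ)
    p' hW Q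
    (fun y Z a b => by rw [hQ, hQ, hhom])
    hC (fun y Z hyZ h1 x v hx h2 h3 h4 => by
      rw [hQ]
      exact hCb y Z hyZ h1 x v hx h2 h3 h4)
    ⟨w.1, w.2, hwc, by rw [hQ]; exact hne⟩
  -- the exceptional points are isolated
  have hl : ∀ j z₁, ∀ᶠ z in 𝓝[≠] z₁, p' j ⬝ᵥ Y z₁ z ≠ 0 := fun j z₁ =>
    eventually_lP hY (p' j) hw (hlw j) z₁
  have hwr : ∀ i j, i ≠ j → ∀ z₁, ∀ᶠ z in 𝓝[≠] z₁,
      (p' i ⬝ᵥ Y z₁ z) * (p' j ⬝ᵥ deriv (Y z₁) z) -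
        (p' j ⬝ᵥ Y z₁ z) * (p' i ⬝ᵥ deriv (Y z₁) z) ≠ 0 ∧
      (p' i ⬝ᵥ Y z z) * (p' j ⬝ᵥ deriv (Y z) z) -
        (p' j ⬝ᵥ Y z z) * (p' i ⬝ᵥ deriv (Y z) z) ≠ 0 := fun i j hij z₁ =>
    eventually_wr hY (p' i) (p' j) hw (hwrw i j hij) z₁
  have hmin : ∀ i j z₁, ∀ᶠ z in 𝓝[≠] z₁, Y z₁ z i ≠ 0 →
      (p' j ⬝ᵥ deriv (Y z₁) z) * Y z₁ z i - deriv (Y z₁) z i * (p' j ⬝ᵥ Y z₁ z) ≠ 0 := by
    intro i j z₁
    rcases hminw i j with hi | hi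
    · filter_upwards [(hi z₁).filter_mono nhdsWithin_le_nhds] with z hz hne0
      exact absurd hz hne0
    · filter_upwards [eventually_minor hY (p' j) hw i hi z₁] with z hz _
      exact hz
  have hmem : ∀ z₁, ∀ᶠ z in 𝓝 z₁, (Y z₁ z, deriv (Y z₁) z) ∈ jetc Y := by
    intro z₁
    filter_upwards [mem_jets hY z₁] with z hz
    have h3 := jets_subset_jetc Y (hz 1 1 0)
    rwa [one_smul, one_smul, zero_smul, add_zero] at h3
  have hGne : ∀ z₁, ∀ᶠ z in 𝓝[≠] z₁, eval (Sum.elim (Y z₁ z) (deriv (Y z₁) z)) G ≠ 0 ∧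
      eval (Sum.elim (Y z z) (deriv (Y z) z)) G ≠ 0 := by
    rcases eventually_ne hY G (fun y Z hyZ h0 a b s ha hb => by
      have h1 : b • (Z + s • y) = (b / a) • (a • Z + (a * s) • y) := by
        rw [smul_add, smul_add, smul_smul, smul_smul, smul_smul, div_mul_cancel₀ _ ha]
        congr 2
        field_simp
      rw [h1, hhomZ _ _ _ (div_ne_zero hb ha), hcov y Z hyZ a (a * s) ha, h0, mul_zero,
        mul_zero]) with h | h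
    · exfalso
      obtain ⟨y, Z, hyZ, hne'⟩ := hneG
      exact hne' (zero_on_jetc h (y, Z) hyZ)
    · exact h
  obtain ⟨z₀, hG₀, hW₀⟩ : ∃ z₀, eval (Sum.elim (Y z₀ z₀) (deriv (Y z₀) z₀)) G ≠ 0 ∧
      ∀ i j, i ≠ j → (p' i ⬝ᵥ Y z₀ z₀) * (p' j ⬝ᵥ deriv (Y z₀) z₀) -
        (p' j ⬝ᵥ Y z₀ z₀) * (p' i ⬝ᵥ deriv (Y z₀) z₀) ≠ 0 := by
    have h1 : ∀ᶠ z in 𝓝[≠] (0 : ℂ), ∀ i j, i ≠ j →
        (p' i ⬝ᵥ Y z z) * (p' j ⬝ᵥ deriv (Y z) z) -
        (p' j ⬝ᵥ Y z z) * (p' i ⬝ᵥ deriv (Y z) z) ≠ 0 := by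
      rw [Filter.eventually_all]
      intro i
      rw [Filter.eventually_all]
      intro j
      by_cases hij : i = j
      · exact Filter.Eventually.of_forall fun z h => absurd hij h
      · filter_upwards [hwr i j hij 0] with z hz _
        exact hz.2
    obtain ⟨z₀, h2, h3⟩ := ((hGne 0).and h1).exists
    exact ⟨z₀, h2.2, h3⟩
  refine caseV hq2 hτ (d := A + B) (e := f) (K := K₀) (by rw [hdeg]) p' G hY ?_ hC' ?_ ?_ ?_ hord' hG₀ hW₀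
  · intro z₁
    filter_upwards [hmem z₁] with z hz a s ha
    exact hcov _ _ hz a s ha
  · intro z₁
    have h1 : ∀ᶠ z in 𝓝[≠] z₁, ∀ j, p' j ⬝ᵥ Y z₁ z ≠ 0 := by
      rw [Filter.eventually_all]
      exact fun j => hl j z₁
    have h2 : ∀ᶠ z in 𝓝[≠] z₁, ∀ i j, Y z₁ z i ≠ 0 →
        (p' j ⬝ᵥ deriv (Y z₁) z) * Y z₁ z i - deriv (Y z₁) z i * (p' j ⬝ᵥ Y z₁ z) ≠ 0 := by
      rw [Filter.eventually_all]
      intro i
      rw [Filter.eventually_all]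
      exact fun j => hmin i j z₁
    filter_upwards [h1, h2, (hmem z₁).filter_mono nhdsWithin_le_nhds,
      hwr ⟨0, by omega⟩ ⟨1, by omega⟩ (by simp) z₁] with z g1 g2 g3 g4 x v hx hv β
    have hxj : ∀ j, x j ≠ 0 := by
      intro j h0
      apply g1 j
      rw [hx j, h0]
      ring
    have hx0 : x ≠ 0 := by
      rintro rfl
      exact hxj ⟨0, by omega⟩ rfl
    refine hbdG _ _ g3 g2 ⟨⟨1, by omega⟩, ⟨0, by omega⟩, ?_⟩ x v hx0 hx hv hxj β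
    intro h0
    apply g4.1
    linear_combination h0
  · intro z₁
    by_contra hcon
    push Not at hcon
    have h1 := (hsep _ _ (hmem z₁).self_of_nhds).1
    have h2 : (fun j => p' j ⬝ᵥ Y z₁ z₁) = 0 := funext hcon
    rw [h2, norm_zero] at h1
    have h3 : 0 < ‖Y z₁ z₁‖ := norm_pos_iff.mpr (hY.2.1 z₁)
    have h4 := mul_pos hc₀ h3
    linarith
  · intro j z₁
    rcases hY.top_or (p' j) with h | h
    · exact h z₁
    · exfalso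
      obtain ⟨z, a, b, s, hw'⟩ := hw
      apply hlw j
      have h1 : w.1 = a • Y z z := by rw [hw']
      rw [h1, dotProduct_smul, h z, smul_zero]

end Pool.Agent.Lib.GGL.VG
end

section

/-!
The algebraic certificate at the generic point, logarithmic version.
-/

open Filter Topology MvPolynomial Module

namespace Pool.Agent.Lib.GGL.SM

open VG

theorem a4_goodL_transfer {E : Type*} [Field E] [Algebra ℂ E] {q M K : ℕ}
    {p : Fin q → Fin (M + 1) → E} {p' : Fin q → Fin (M + 1) → ℂ}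
    {y₀ Z₀ : Fin (M + 1) → E} {y Z : Fin (M + 1) → ℂ}
    (h : ∀ P : MvPolynomial ((Fin q × Fin (M + 1)) ⊕ (Fin (M + 1) ⊕ Fin (M + 1))) ℂ,
      aeval (pt p y₀ Z₀) P = 0 → aeval (pt p' y Z) P = 0) {g : Fin q → ℕ}
    {Q : (Fin q → Fin (K + 1)) →
      MvPolynomial ((Fin q × Fin (M + 1)) ⊕ (Fin (M + 1) ⊕ Fin (M + 1))) ℂ}
    {c₀ : (Fin q → Fin (K + 1)) → E} (hQ : ∀ γ, aeval (pt p y₀ Z₀) (Q γ) = c₀ γ)
    (hg : GoodL q g (fun j => p j ⬝ᵥ y₀) (fun j => p j ⬝ᵥ Z₀) c₀) :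
    GoodL q g (fun j => p' j ⬝ᵥ y) (fun j => p' j ⬝ᵥ Z)
      (fun γ => eval (pt p' y Z) (Q γ)) := by
  obtain ⟨φ, hφ⟩ : ∃ φ : MvPolynomial ((Fin q × Fin (M + 1)) ⊕ (Fin (M + 1) ⊕ Fin (M + 1))) ℂ →+* E,
    ∀ P, φ P = aeval (pt p y₀ Z₀) P := ⟨(aeval (pt p y₀ Z₀)).toRingHom, fun P => rfl⟩
  obtain ⟨ψ, hψ⟩ : ∃ ψ : MvPolynomial ((Fin q × Fin (M + 1)) ⊕ (Fin (M + 1) ⊕ Fin (M + 1))) ℂ →+* ℂ,
    ∀ P, ψ P = aeval (pt p' y Z) P := ⟨(aeval (pt p' y Z)).toRingHom, fun P => rfl⟩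
  have h1 := GoodL.map φ ψ (fun a ha => by rw [hψ]; rw [hφ] at ha; exact h a ha)
    (g := g) (l := lR ℂ) (b := bR ℂ) (c := Q) (by
      have h3 : (fun j => φ (lR ℂ j)) = fun j => p j ⬝ᵥ y₀ :=
        funext fun j => by rw [hφ]; exact aeval_lR' p y₀ Z₀ j
      have h4 : (fun j => φ (bR ℂ j)) = fun j => p j ⬝ᵥ Z₀ :=
        funext fun j => by rw [hφ]; exact aeval_bR' p y₀ Z₀ j
      have h5 : (fun γ => φ (Q γ)) = c₀ := funext fun γ => by rw [hφ]; exact hQ γ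
      rw [h3, h4, h5]
      exact hg)
  have h3 : (fun j => ψ (lR ℂ j)) = fun j => p' j ⬝ᵥ y :=
    funext fun j => by rw [hψ]; exact aeval_lR' p' y Z j
  have h4 : (fun j => ψ (bR ℂ j)) = fun j => p' j ⬝ᵥ Z :=
    funext fun j => by rw [hψ]; exact aeval_bR' p' y Z j
  have h5 : (fun γ => ψ (Q γ)) = fun γ => eval (pt p' y Z) (Q γ) :=
    funext fun γ => by rw [hψ, aeval_eq_eval']
  rw [h3, h4, h5] at h1
  exact h1

theorem exists_certificate_log {E : Type*} [Field E] [Algebra ℂ E] {q D M k : ℕ} (hD : 1 ≤ D)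
    (hq : 1 ≤ q) (hk : 4 ≤ k)
    (hcount : ∀ r, 1 ≤ r → (2 * k + 1) * ((2 * k + 2) ^ D + 1) * Fintype.card
      {f : Fin q → Fin (2 * k * r + 1) // ∑ j, (f j : ℕ) ≤ (k - 1) * q * r} ≤
      (2 * k * r + 1) ^ q)
    {p : Fin q → Fin (M + 1) → E}
    {y₀ Z₀ : Fin (M + 1) → E} (hw1 : y₀ ≠ 0) (hw2 : Z₀ ≠ 0)
    (htr : TrdegLE ℂ (Sum.elim y₀ Z₀) D) {F : Subalgebra ℂ E} (hF1 : ∀ i, y₀ i ∈ F)
    (hF2 : ∀ i, Z₀ i ∈ F)
    (hp : AlgebraicIndependent F (fun x : Fin q × Fin (M + 1) => p x.1 x.2)) :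
    ∃ (r A B τ : ℕ) (c : (Fin q → Fin (2 * k * r + 1)) →
      MvPolynomial ((Fin q × Fin (M + 1)) ⊕ (Fin (M + 1) ⊕ Fin (M + 1))) ℂ) (g : Fin q → ℕ),
      1 ≤ r ∧ q * (2 * k * r) = A + B + τ ∧ ∑ j, g j = τ + 3 * (q * r) ∧
      (k - 1) * (q * r) < ∑ j, g j ∧ (∀ j, g j ≤ 2 * k * r) ∧
      (∀ y Z : Fin (M + 1) → ℂ, (∀ G : MvPolynomial (Fin (M + 1) ⊕ Fin (M + 1)) ℂ,
        aeval (Sum.elim y₀ Z₀) G = 0 → aeval (Sum.elim y Z) G = 0) →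
        ∀ p' : Fin q → Fin (M + 1) → ℂ, GoodL q g (fun j => p' j ⬝ᵥ y) (fun j => p' j ⬝ᵥ Z)
          (fun γ => eval (pt p' y Z) (c γ))) ∧
      (∀ (p' : Fin q → Fin (M + 1) → ℂ) (y Z : Fin (M + 1) → ℂ) (a b : ℂ),
        leadL g (fun j => p' j ⬝ᵥ (a • y)) (fun j => p' j ⬝ᵥ (b • Z))
          (fun γ => eval (pt p' (a • y) (b • Z)) (c γ)) = a ^ A * b ^ B *
        leadL g (fun j => p' j ⬝ᵥ y) (fun j => p' j ⬝ᵥ Z)
          (fun γ => eval (pt p' y Z) (c γ))) ∧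
      leadL g (fun j => p j ⬝ᵥ y₀) (fun j => p j ⬝ᵥ Z₀)
        (fun γ => aeval (pt p y₀ Z₀) (c γ)) ≠ 0 := by
  classical
  obtain ⟨p₀, hp₀⟩ : ∃ p₀ : Fin q × Fin (M + 1) → E, p₀ = fun x => p x.1 x.2 := ⟨_, rfl⟩
  rw [← hp₀] at hp
  have htr1 := htr.of_subfield (IntermediateField.adjoin ℂ (Set.range p₀))
  obtain ⟨C₁, hC₁⟩ := growth_bound htr1
  obtain ⟨U₁, hU₁⟩ : ∃ U₁ : Submodule (IntermediateField.adjoin ℂ (Set.range p₀)) E,
    U₁ = Submodule.span _ (Set.range y₀) := ⟨_, rfl⟩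
  obtain ⟨U₂, hU₂⟩ : ∃ U₂ : Submodule (IntermediateField.adjoin ℂ (Set.range p₀)) E,
    U₂ = Submodule.span _ (Set.range Z₀) := ⟨_, rfl⟩
  have hne : ∀ {v : Fin (M + 1) → E}, v ≠ 0 → ∀ {U : Submodule
      (IntermediateField.adjoin ℂ (Set.range p₀)) E}, U = Submodule.span _ (Set.range v) →
      U ≠ ⊥ := by
    intro v hv U hU h0
    apply hv
    funext i
    rw [hU, Submodule.span_eq_bot] at h0
    exact h0 _ ⟨i, rfl⟩
  have hmem : ∀ {v : Fin (M + 1) → E} {U : Submodule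
      (IntermediateField.adjoin ℂ (Set.range p₀)) E}, U = Submodule.span _ (Set.range v) →
      ∀ j, p j ⬝ᵥ v ∈ U := by
    intro v U hU j
    rw [hU, dotProduct]
    refine Submodule.sum_mem _ fun i _ => ?_
    have h1 : p j i ∈ IntermediateField.adjoin ℂ (Set.range p₀) :=
      IntermediateField.subset_adjoin ℂ _ ⟨(j, i), by rw [hp₀]⟩
    exact Submodule.smul_mem _ (⟨p j i, h1⟩ : IntermediateField.adjoin ℂ (Set.range p₀))
      (Submodule.subset_span ⟨i, rfl⟩)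
  obtain ⟨r, i₀, hr, hi₀, c, hc0, hcs, hcm, hcv⟩ :=
    exists_family_log (U₁ := U₁) (U₂ := U₂) hq (by omega : 2 ≤ k) hcount
    (by rw [hU₁]; exact Submodule.fg_span (Set.finite_range _))
    (by rw [hU₂]; exact Submodule.fg_span (Set.finite_range _))
    (hne hw1 hU₁) (hne hw2 hU₂) (by rw [hU₁, hU₂]; exact hC₁)
    (hmem hU₁) (hmem hU₂)
  rw [hU₁, hU₂] at hcm
  obtain ⟨d, Q, hd, hQ⟩ := clear (K := ℂ) p₀ y₀ Z₀ _ _ c hcm
  obtain ⟨Q', hQ'⟩ : ∃ Q' : (Fin q → Fin (2 * k * r + 1)) →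
      MvPolynomial ((Fin q × Fin (M + 1)) ⊕ (Fin (M + 1) ⊕ Fin (M + 1))) ℂ,
      Q' = fun γ => if c γ = 0 then 0 else Q γ := ⟨_, rfl⟩
  have hQ'w : ∀ γ, aeval (pt p y₀ Z₀) (Q' γ) = d * c γ := by
    intro γ
    rw [hQ']
    by_cases h : c γ = 0
    · simp [h]
    · simp only [h, if_false]
      have h1 := (hQ γ).2
      rw [hp₀] at h1
      exact h1
  have hl : ∀ j, p j ⬝ᵥ y₀ ≠ 0 := by
    intro j
    have h1 := dot_ne_zero hp hF1 hw1 j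
    rw [hp₀] at h1
    exact h1
  have hdc : (fun γ => d * c γ) ≠ 0 := by
    obtain ⟨γ, hγ⟩ := Function.ne_iff.mp hc0
    exact Function.ne_iff.mpr ⟨γ, mul_ne_zero hd hγ⟩
  obtain ⟨g, hg1, hg2⟩ := exists_goodL hl (fun j => p j ⬝ᵥ Z₀) hdc
  -- the size of the exponent
  have hgT : (k - 1) * q * r < ∑ j, g j := by
    by_contra hcon
    push Not at hcon
    apply hg2
    rw [leadL_smul, hcv g hcon, mul_zero]
  obtain ⟨β, hβ1, hβ2⟩ : ∃ β, c β ≠ 0 ∧ ∀ j, g j ≤ (β j : ℕ) := by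
    rw [leadL_smul] at hg2
    have h1 : leadL g (fun j => p j ⬝ᵥ y₀) (fun j => p j ⬝ᵥ Z₀) c ≠ 0 :=
      right_ne_zero_of_mul hg2
    obtain ⟨β, -, hβ⟩ := Finset.exists_ne_zero_of_sum_ne_zero h1
    refine ⟨β, left_ne_zero_of_mul hβ, fun j => ?_⟩
    by_contra hcon
    push Not at hcon
    apply right_ne_zero_of_mul hβ
    apply Finset.prod_eq_zero (Finset.mem_univ j)
    rw [Nat.choose_eq_zero_of_lt hcon]
    simp
  have hgβ : ∑ j, g j < (i₀ + 1) * q * r :=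
    lt_of_le_of_lt (Finset.sum_le_sum fun j _ => hβ2 j) (hcs β hβ1).2
  obtain ⟨qr, hqr⟩ : ∃ qr, qr = q * r := ⟨_, rfl⟩
  have e1 : q * (2 * k * r) = 2 * k * qr := by rw [hqr]; ring
  have e2 : i₀ * q * r = i₀ * qr := by rw [hqr, mul_assoc]
  have e3 : (i₀ + 1) * q * r = i₀ * qr + qr := by rw [hqr]; ring
  have e4 : (i₀ + 2) * q * r = i₀ * qr + 2 * qr := by rw [hqr]; ring
  have e5 : (k - 1) * q * r = (k - 1) * qr := by rw [hqr, mul_assoc]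
  have e6 : i₀ * qr ≤ 2 * k * qr := Nat.mul_le_mul_right _ hi₀
  have e7 : 3 * qr ≤ (k - 1) * qr := Nat.mul_le_mul_right _ (by omega)
  rw [e2, e4, ← hqr] at hQ
  rw [e2, e3] at hcs
  rw [e3] at hgβ
  rw [e5] at hgT
  clear hcount hcv hcm
  have e8 : i₀ * qr ≤ q * (2 * k * r) := by rw [e1]; exact e6
  refine ⟨r, q * (2 * k * r) + qr - i₀ * qr, i₀ * qr + 2 * qr - ∑ j, g j,
    ∑ j, g j - 3 * qr, Q', g, hr, ?_, ?_, ?_, ?_, ?_, ?_, ?_⟩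
  · omega
  · rw [← hqr]
    omega
  · rw [← hqr]
    exact hgT
  · exact fun j => (hβ2 j).trans (Nat.lt_succ_iff.1 (β j).2)
  · intro y Z hyZ p'
    have h1 : ∀ P : MvPolynomial ((Fin q × Fin (M + 1)) ⊕ (Fin (M + 1) ⊕ Fin (M + 1))) ℂ,
        aeval (pt p y₀ Z₀) P = 0 → aeval (pt p' y Z) P = 0 := by
      intro P hP
      refine VG.transfer' (F := F) (p := p₀) (w := Sum.elim y₀ Z₀) ?_ hp ?_ hyZ _
      · rintro (i | i)
        · exact hF1 i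
        · exact hF2 i
      · rw [hp₀]
        exact hP
    exact a4_goodL_transfer h1 hQ'w hg1
  · intro p' y Z a b
    rw [leadL, leadL, Finset.mul_sum]
    refine Finset.sum_congr rfl fun γ _ => ?_
    by_cases hcγ : c γ = 0
    · rw [hQ']
      simp [hcγ]
    · by_cases hle : ∀ j, g j ≤ (γ j : ℕ)
      · have h1 := (hQ γ).1.aeval (fun x : Fin q × Fin (M + 1) => p' x.1 x.2) y Z a b
        have h2 : Q' γ = Q γ := by rw [hQ']; simp only [hcγ, if_false]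
        have h3 : ∀ y Z : Fin (M + 1) → ℂ, eval (pt p' y Z) (Q' γ) =
            aeval (Sum.elim (fun x : Fin q × Fin (M + 1) => p' x.1 x.2) (Sum.elim y Z)) (Q γ) := by
          intro y Z
          rw [h2, aeval_eq_eval']
          rfl
        rw [h3, h3, h1]
        have h4 : ∀ j, ((((γ j : ℕ).choose (g j) : ℕ) : ℂ) * (p' j ⬝ᵥ (b • Z)) ^ ((γ j : ℕ) - g j) *
            (p' j ⬝ᵥ (a • y)) ^ (2 * k * r - (γ j : ℕ))) =
            (b ^ ((γ j : ℕ) - g j) * a ^ (2 * k * r - (γ j : ℕ))) *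
            ((((γ j : ℕ).choose (g j) : ℕ) : ℂ) * (p' j ⬝ᵥ Z) ^ ((γ j : ℕ) - g j) *
            (p' j ⬝ᵥ y) ^ (2 * k * r - (γ j : ℕ))) := by
          intro j
          rw [dotProduct_smul, dotProduct_smul, smul_eq_mul, smul_eq_mul, mul_pow, mul_pow]
          ring
        rw [Finset.prod_congr rfl fun j _ => h4 j, Finset.prod_mul_distrib,
          Finset.prod_mul_distrib, Finset.prod_pow_eq_pow_sum, Finset.prod_pow_eq_pow_sum]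
        have h5 : ∑ j, ((γ j : ℕ) - g j) + ∑ j, g j = ∑ j, (γ j : ℕ) := by
          rw [← Finset.sum_add_distrib]
          exact Finset.sum_congr rfl fun j _ => Nat.sub_add_cancel (hle j)
        have h6 : ∑ j, (2 * k * r - (γ j : ℕ)) + ∑ j, (γ j : ℕ) = q * (2 * k * r) := by
          rw [← Finset.sum_add_distrib]
          calc _ = ∑ _j : Fin q, 2 * k * r := Finset.sum_congr rfl fun j _ =>
                Nat.sub_add_cancel (Nat.lt_succ_iff.1 (γ j).2)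
            _ = q * (2 * k * r) := by simp
        have h7 := hcs γ hcγ
        have h9 : ∑ j, (γ j : ℕ) + qr - i₀ * qr +
            ∑ j, (2 * k * r - (γ j : ℕ)) = q * (2 * k * r) + qr - i₀ * qr := by
          omega
        have h10 : i₀ * qr + 2 * qr - ∑ j, (γ j : ℕ) + ∑ j, ((γ j : ℕ) - g j) =
            i₀ * qr + 2 * qr - ∑ j, g j := by
          omega
        rw [← h9, ← h10, pow_add, pow_add]
        ring
      · push Not at hle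
        obtain ⟨j, hj⟩ := hle
        rw [Finset.prod_eq_zero (Finset.mem_univ j), Finset.prod_eq_zero (Finset.mem_univ j)]
        · ring
        · rw [Nat.choose_eq_zero_of_lt hj]; simp
        · rw [Nat.choose_eq_zero_of_lt hj]; simp
  · have h1 : (fun γ => aeval (pt p y₀ Z₀) (Q' γ)) = fun γ => d * c γ := funext hQ'w
    rw [h1]
    exact hg2

end Pool.Agent.Lib.GGL.SM
end

section

/-!
The estimate for one block of hyperplanes.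
-/

open Filter Topology MvPolynomial Module

namespace Pool.Agent.Lib.GGL.SM

open VG

lemma b10a_lift {M : ℕ} {Y : ℂ → Fin (M + 1) → ℂ} (hY : Differentiable ℂ Y)
    (h0 : ∀ z, Y z ≠ 0) : LiftFamily fun _ => Y :=
  ⟨fun z => hY.analyticAt z, h0, fun _ => Eventually.of_forall fun _ =>
    ⟨fun _ => 1, analyticAt_const, one_ne_zero, Eventually.of_forall fun _ => (one_smul _ _).symm⟩⟩

lemma b10a_poly {q M K : ℕ} (p : Fin q → Fin (M + 1) → ℂ) (g : Fin q → ℕ)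
    (c : (Fin q → Fin (K + 1)) →
      MvPolynomial ((Fin q × Fin (M + 1)) ⊕ (Fin (M + 1) ⊕ Fin (M + 1))) ℂ) :
    ∃ Q : MvPolynomial (Fin (M + 1) ⊕ Fin (M + 1)) ℂ, ∀ y Z : Fin (M + 1) → ℂ,
      eval (Sum.elim y Z) Q = leadL g (fun j => p j ⬝ᵥ y) (fun j => p j ⬝ᵥ Z)
        (fun γ => eval (pt p y Z) (c γ)) := by
  refine ⟨leadL g (fun j => ∑ i, C (p j i) * X (Sum.inl i))
    (fun j => ∑ i, C (p j i) * X (Sum.inr i)) (fun γ => subP p (c γ)), fun y Z => ?_⟩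
  rw [map_leadL]
  simp only [eval_subP, map_sum, map_mul, eval_C, eval_X, Sum.elim_inl, Sum.elim_inr]
  rfl

lemma b10a_ident {f : ℂ → ℂ} (hf : Differentiable ℂ f) (h : ∃ z, f z ≠ 0) (z₁ : ℂ) :
    ∀ᶠ z in 𝓝[≠] z₁, f z ≠ 0 := by
  by_contra hcon
  rw [Filter.not_eventually] at hcon
  obtain ⟨z, hz⟩ := h
  apply hz
  have h1 : AnalyticOnNhd ℂ f Set.univ := fun x _ => hf.analyticAt x
  exact h1.eqOn_zero_of_preconnected_of_frequently_eq_zero isPreconnected_univ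
    (Set.mem_univ z₁) (hcon.mono fun x hx => by simpa using hx) (Set.mem_univ z)

lemma b10a_diff {M : ℕ} (G : MvPolynomial (Fin (M + 1) ⊕ Fin (M + 1)) ℂ)
    {y Z : ℂ → Fin (M + 1) → ℂ} (hy : ∀ i, Differentiable ℂ fun z => y z i)
    (hZ : ∀ i, Differentiable ℂ fun z => Z z i) :
    Differentiable ℂ fun z => eval (Sum.elim (y z) (Z z)) G := by
  induction G using MvPolynomial.induction_on with
  | C a => simp only [eval_C]; fun_prop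
  | add a b ha hb => simp only [map_add]; fun_prop
  | mul_X a n ha =>
    simp only [map_mul, eval_X]
    refine ha.fun_mul ?_
    rcases n with a | a
    · simp only [Sum.elim_inl]
      exact hy _
    · simp only [Sum.elim_inr]
      exact hZ _

/-- The auxiliary function of a block, with the pointwise inequality. -/
theorem block_function {q K M A B τ ν : ℕ} (hq : 1 ≤ q) (hdeg : q * K = A + B + τ)
    {p : Fin q → Fin (M + 1) → ℂ}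
    {c : (Fin q → Fin (K + 1)) →
      MvPolynomial ((Fin q × Fin (M + 1)) ⊕ (Fin (M + 1) ⊕ Fin (M + 1))) ℂ} {g : Fin q → ℕ}
    {Y : ℂ → Fin (M + 1) → ℂ} (hY : Differentiable ℂ Y) (h0 : ∀ z, Y z ≠ 0)
    {w : (Fin (M + 1) → ℂ) × (Fin (M + 1) → ℂ)} (hw : w ∈ jets fun _ => Y)
    (hgood : ∀ p'' : Fin q → Fin (M + 1) → ℂ, ∀ y Z, (y, Z) ∈ jetc (fun _ => Y) →
      GoodL q g (fun j => p'' j ⬝ᵥ y) (fun j => p'' j ⬝ᵥ Z) (fun γ => eval (pt p'' y Z) (c γ)))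
    (hhom : ∀ (y Z : Fin (M + 1) → ℂ) (a b : ℂ),
      leadL g (fun j => p j ⬝ᵥ (a • y)) (fun j => p j ⬝ᵥ (b • Z))
        (fun γ => eval (pt p (a • y) (b • Z)) (c γ)) = a ^ A * b ^ B *
      leadL g (fun j => p j ⬝ᵥ y) (fun j => p j ⬝ᵥ Z) (fun γ => eval (pt p y Z) (c γ)))
    (hne : leadL g (fun j => p j ⬝ᵥ w.1) (fun j => p j ⬝ᵥ w.2)
      (fun γ => eval (pt p w.1 w.2) (c γ)) ≠ 0)
    (hlw : ∀ j, p j ⬝ᵥ w.1 ≠ 0)
    (hminw : ∀ i j, (∀ z, Y z i = 0) ∨ (p j ⬝ᵥ w.2) * w.1 i - w.2 i * (p j ⬝ᵥ w.1) ≠ 0)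
    {a b : Fin (M + 1)} (hab : w.1 a * w.2 b - w.1 b * w.2 a ≠ 0)
    {c₁ : ℝ} (hc₁ : 0 < c₁) (hnear : ∀ z, {j | ‖p j ⬝ᵥ Y z‖ < c₁ * ‖Y z‖}.ncard ≤ ν) :
    ∃ (F : ℂ → ℂ) (m : ℕ) (C : ℝ) (S : Set ℂ), Differentiable ℂ F ∧ (∃ z, F z ≠ 0) ∧ 0 ≤ C ∧
      (∀ z₁, ∀ᶠ z in 𝓝[≠] z₁, z ∉ S) ∧ ∀ z, z ∉ S → F z ≠ 0 ∧ (∀ j, p j ⬝ᵥ Y z ≠ 0) ∧
      (∀ i, (∃ z', Y z' i ≠ 0) → Y z i ≠ 0) ∧
        ∀ i, Y z i ≠ 0 → ‖Y z‖ = ‖Y z i‖ → 
      ‖F z‖ * ‖Y z‖ ^ τ ≤ C * ‖Y z‖ ^ (2 * (ν * K)) * (∏ j, ‖p j ⬝ᵥ Y z‖ ^ K) *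
        (1 + ‖deriv Y z - (deriv Y z i / Y z i) • Y z‖ / ‖Y z‖) ^ m *
        ∏ j, max (1 + ‖deriv Y z - (deriv Y z i / Y z i) • Y z‖ / ‖Y z‖)
          ‖(p j ⬝ᵥ deriv Y z) / (p j ⬝ᵥ Y z) - deriv Y z i / Y z i‖ ^ (K - g j) := by
  have hL : LiftFamily fun _ => Y := b10a_lift hY h0
  obtain ⟨Q, hQ⟩ := b10a_poly p g c
  have hW := jetc_closed (fun _ => Y)
  obtain ⟨C, hC, hCb⟩ := scaled_bound_log hdeg p hW c g hgood hhom
  have hwc : (w.1, w.2) ∈ jetc fun _ => Y := jets_subset_jetc _ hw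
  obtain ⟨e, G, hcov, hhomZ, hneG, hbdG⟩ := top_coeff_log (K := K) (A := A) (B := B) (τ := τ) g
    p hW Q
    (fun y Z a b => by rw [hQ, hQ, hhom])
    hC (fun y Z hyZ i hi hi2 h1 h2 μ hμ h3 => by
      rw [hQ]
      exact hCb y Z hyZ i hi hi2 h1 h2 μ hμ h3)
    ⟨w.1, w.2, hwc, by rw [hQ]; exact hne⟩
  obtain ⟨C', hC', hpi⟩ := point_ineq (τ := τ) (ν := ν) (e := e) (K := K) g p hC hc₁
  -- the exceptional points are isolated
  have hl : ∀ j z₁, ∀ᶠ z in 𝓝[≠] z₁, p j ⬝ᵥ Y z ≠ 0 := fun j z₁ =>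
    eventually_lP hL (p j) hw (hlw j) z₁
  have hmin : ∀ i j z₁, ∀ᶠ z in 𝓝[≠] z₁, (∃ z', Y z' i ≠ 0) →
      (p j ⬝ᵥ deriv Y z) * Y z i - deriv Y z i * (p j ⬝ᵥ Y z) ≠ 0 := by
    intro i j z₁
    rcases hminw i j with hi | hi
    · refine Eventually.of_forall fun z => ?_
      rintro ⟨z', hz'⟩
      exact absurd (hi z') hz'
    · filter_upwards [eventually_minor hL (p j) hw i hi z₁] with z hz _
      exact hz
  have hcoord : ∀ i z₁, ∀ᶠ z in 𝓝[≠] z₁, (∃ z', Y z' i ≠ 0) → Y z i ≠ 0 := by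
    intro i z₁
    by_cases hi : ∃ z', Y z' i ≠ 0
    · filter_upwards [b10a_ident (fun z => (differentiable_pi.1 hY) i z) hi z₁] with z hz _
      exact hz
    · exact Eventually.of_forall fun z h => absurd h hi
  have hGne : ∀ z₁, ∀ᶠ z in 𝓝[≠] z₁, eval (Sum.elim (Y z) (deriv Y z)) G ≠ 0 := by
    rcases eventually_ne hL G (fun y Z hyZ h0 a b s ha hb => by
      have h1 : b • (Z + s • y) = (b / a) • (a • Z + (a * s) • y) := by
        rw [smul_add, smul_add, smul_smul, smul_smul, smul_smul, div_mul_cancel₀ _ ha]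
        congr 2
        field_simp
      rw [h1, hhomZ _ _ _ (div_ne_zero hb ha), hcov y Z hyZ a (a * s) ha, h0, mul_zero,
        mul_zero]) with h | h
    · exfalso
      obtain ⟨y, Z, hyZ, hne'⟩ := hneG
      exact hne' (zero_on_jetc h (y, Z) hyZ)
    · intro z₁
      filter_upwards [h z₁] with z hz
      exact hz.1
  have hwr : ∀ z₁, ∀ᶠ z in 𝓝[≠] z₁, Y z a * deriv Y z b - Y z b * deriv Y z a ≠ 0 := by
    intro z₁
    have h1 := eventually_wr hL (Pi.single a 1) (Pi.single b 1) hw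
      (by simpa [single_dotProduct] using hab) z₁
    filter_upwards [h1] with z hz
    simpa [single_dotProduct] using hz.1
  obtain ⟨F, hFdef⟩ : ∃ F : ℂ → ℂ, F = fun z => eval (Sum.elim (Y z) (deriv Y z)) G *
    (Y z a * deriv Y z b - Y z b * deriv Y z a) ^ (ν * K) := ⟨_, rfl⟩
  have hYi : ∀ i, Differentiable ℂ fun z => Y z i := fun i z => (differentiable_pi.1 hY) i z
  have hYd : Differentiable ℂ (deriv Y) := by
    intro z
    exact (hY.analyticAt z).deriv.differentiableAt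
  have hYdi : ∀ i, Differentiable ℂ fun z => deriv Y z i := fun i z =>
    (differentiable_pi.1 hYd) i z
  have hFd : Differentiable ℂ F := by
    rw [hFdef]
    exact (b10a_diff G hYi hYdi).fun_mul
      ((((hYi a).fun_mul (hYdi b)).fun_sub ((hYi b).fun_mul (hYdi a))).fun_pow _)
  have hFne : ∀ z₁, ∀ᶠ z in 𝓝[≠] z₁, F z ≠ 0 := by
    intro z₁
    filter_upwards [hGne z₁, hwr z₁] with z h1 h2
    rw [hFdef]
    exact mul_ne_zero h1 (pow_ne_zero _ h2)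
  obtain ⟨P, hP⟩ : ∃ P : ℂ → Prop, P = fun z => F z ≠ 0 ∧ (∀ j, p j ⬝ᵥ Y z ≠ 0) ∧
      (∀ i, (∃ z', Y z' i ≠ 0) → Y z i ≠ 0) ∧ ∀ i j, (∃ z', Y z' i ≠ 0) →
        (p j ⬝ᵥ deriv Y z) * Y z i - deriv Y z i * (p j ⬝ᵥ Y z) ≠ 0 := ⟨_, rfl⟩
  have hPe : ∀ z₁, ∀ᶠ z in 𝓝[≠] z₁, P z := by
    intro z₁
    have h1 : ∀ᶠ z in 𝓝[≠] z₁, ∀ j, p j ⬝ᵥ Y z ≠ 0 := by
      rw [Filter.eventually_all]
      exact fun j => hl j z₁
    have h2 : ∀ᶠ z in 𝓝[≠] z₁, ∀ i j, (∃ z', Y z' i ≠ 0) →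
        (p j ⬝ᵥ deriv Y z) * Y z i - deriv Y z i * (p j ⬝ᵥ Y z) ≠ 0 := by
      rw [Filter.eventually_all]
      intro i
      rw [Filter.eventually_all]
      exact fun j => hmin i j z₁
    have h3 : ∀ᶠ z in 𝓝[≠] z₁, ∀ i, (∃ z', Y z' i ≠ 0) → Y z i ≠ 0 := by
      rw [Filter.eventually_all]
      exact fun i => hcoord i z₁
    filter_upwards [h1, h2, h3, hFne z₁] with z g1 g2 g3 g4
    rw [hP]
    exact ⟨g4, g1, g3, g2⟩
  refine ⟨F, e + ν * K, C', {z | ¬ P z}, hFd, (hFne 0).exists, hC', ?_, ?_⟩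
  · intro z₁
    filter_upwards [hPe z₁] with z hz
    exact fun h => h hz
  · intro z hz
    have hz' : P z := by
      by_contra h
      exact hz h
    rw [hP] at hz'
    obtain ⟨g1, g2, g3, g4⟩ := hz'
    refine ⟨g1, g2, g3, fun i hi hi2 => ?_⟩
    have hyZ : (Y z, deriv Y z) ∈ jetc fun _ => Y :=
      ⟨z, 1, 1, 0, by rw [one_smul, one_smul, zero_smul, add_zero]⟩
    have hmi : ∀ j, (p j ⬝ᵥ deriv Y z) * Y z i - deriv Y z i * (p j ⬝ᵥ Y z) ≠ 0 :=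
      fun j => g4 i j ⟨z, hi⟩
    have hy0 : 0 < ‖Y z‖ := norm_pos_iff.2 (h0 z)
    have hδ : 0 < ‖deriv Y z - (deriv Y z i / Y z i) • Y z‖ / ‖Y z‖ := by
      refine div_pos (norm_pos_iff.2 ?_) hy0
      intro hcon
      apply hmi ⟨0, by omega⟩
      have h1 : deriv Y z = (deriv Y z i / Y z i) • Y z := sub_eq_zero.1 hcon
      have h2 : p ⟨0, by omega⟩ ⬝ᵥ deriv Y z =
          (deriv Y z i / Y z i) * (p ⟨0, by omega⟩ ⬝ᵥ Y z) := by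
        conv_lhs => rw [h1]
        rw [dotProduct_smul, smul_eq_mul]
      rw [h2]
      field_simp
      ring
    have hδe : ‖deriv Y z - (deriv Y z i / Y z i) • Y z‖ =
        ‖deriv Y z - (deriv Y z i / Y z i) • Y z‖ / ‖Y z‖ * ‖Y z‖ := by
      field_simp
    have h1 := hbdG (Y z) (deriv Y z) hyZ i hi hi2 g2 hmi _ hδ hδe
    have h2 := hpi (Y z) (deriv Y z) i _ a b _ hi hi2 g2 (hnear z) hδ hδe h1
    rw [hFdef]
    simp only [norm_mul, norm_pow]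
    exact h2

end Pool.Agent.Lib.GGL.SM
end
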