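import Mathlib
import Pool.Agent.Lib.MP_8d161d_ag.VG.VDefs
import Pool.Agent.Lib.MP_8d161d_ag.VG.G4
import Pool.Agent.Lib.MP_8d161d_ag.SM.Defs
import Pool.Agent.Lib.MP_8d161d_ag.Mg.G010
import Pool.Agent.Lib.MP_8d161d_ag.Mg.G007

section

/-!
The main case of the Noetherian induction.
-/

open Filter Topology MvPolynomial Module

namespace Pool.Agent.Lib.GGL.VG

lemma sep_of_key {q M : ℕ} {p' : Fin q → Fin (M + 1) → ℂ} {Y : ℂ → ℂ → Fin (M + 1) → ℂ}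
    (key : ∀ y Z, (y, Z) ∈ closure (jetc Y) →
      (y ≠ 0 → ∃ j, p' j ⬝ᵥ y ≠ 0) ∧ (Z ≠ 0 → ∃ j, p' j ⬝ᵥ Z ≠ 0)) :
    ∃ c₀ : ℝ, 0 < c₀ ∧ ∀ y Z, (y, Z) ∈ jetc Y →
      c₀ * ‖y‖ ≤ ‖fun j => p' j ⬝ᵥ y‖ ∧ c₀ * ‖Z‖ ≤ ‖fun j => p' j ⬝ᵥ Z‖ := by
  have hL : ∀ y : Fin (M + 1) → ℂ,
      Matrix.mulVecLin (Matrix.of p') y = fun j => p' j ⬝ᵥ y := by
    intro y
    rfl
  obtain ⟨c₁, hc₁, h₁⟩ := uniform_sep (T := {y : Fin (M + 1) → ℂ | (y, 0) ∈ closure (jetc Y)})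
    (isClosed_closure.preimage (by fun_prop))
    (fun y hy a => by
      have := closure_jetc_closed Y y 0 hy a 0 0
      rwa [zero_smul] at this)
    (Matrix.mulVecLin (Matrix.of p'))
    (fun y hy h0 => by
      by_contra hy0
      obtain ⟨j, hj⟩ := (key y 0 hy).1 hy0
      exact hj (congrFun h0 j))
  obtain ⟨c₂, hc₂, h₂⟩ := uniform_sep (T := {Z : Fin (M + 1) → ℂ | (0, Z) ∈ closure (jetc Y)})
    (isClosed_closure.preimage (by fun_prop))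
    (fun Z hZ a => by
      have := closure_jetc_closed Y 0 Z hZ 0 a 0
      rwa [zero_smul, add_zero] at this)
    (Matrix.mulVecLin (Matrix.of p'))
    (fun Z hZ h0 => by
      by_contra hZ0
      obtain ⟨j, hj⟩ := (key 0 Z hZ).2 hZ0
      exact hj (congrFun h0 j))
  refine ⟨min c₁ c₂, lt_min hc₁ hc₂, fun y Z hyZ => ⟨?_, ?_⟩⟩
  · have h3 : (y, (0 : Fin (M + 1) → ℂ)) ∈ jetc Y := by
      have := jetc_closed Y y Z hyZ 1 0 0
      rwa [zero_smul, one_smul] at this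
    have h4 := h₁ y (subset_closure h3)
    rw [hL] at h4
    exact le_trans (mul_le_mul_of_nonneg_right (min_le_left _ _) (norm_nonneg _)) h4
  · have h3 : ((0 : Fin (M + 1) → ℂ), Z) ∈ jetc Y := by
      have := jetc_closed Y y Z hyZ 0 1 0
      rwa [zero_smul, one_smul, add_zero] at this
    have h4 := h₂ Z (subset_closure h3)
    rw [hL] at h4
    exact le_trans (mul_le_mul_of_nonneg_right (min_le_right _ _) (norm_nonneg _)) h4

lemma dot_all_zero {M : ℕ} {y : Fin (M + 1) → ℂ} (h : ∀ p : Fin (M + 1) → ℂ, p ⬝ᵥ y = 0) :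
    y = 0 := by
  funext i
  have := h (Pi.single i 1)
  simpa using this

/-- Separation by `q` general hyperplanes. -/
lemma exists_sep {M q D : ℕ} (hq : 1 + D ≤ q)
    (𝔞 : Ideal (MvPolynomial (Fin (M + 1) ⊕ Fin (M + 1)) ℂ))
    (htr : ∀ (L : Type) [Field L] [Algebra ℂ L] (w : Fin (M + 1) ⊕ Fin (M + 1) → L),
      (∀ G ∈ 𝔞, aeval w G = 0) → TrdegLE ℂ w D) :
    ∃ Θ : MvPolynomial (Fin q × Fin (M + 1)) ℂ, Θ ≠ 0 ∧ ∀ p : Fin q → Fin (M + 1) → ℂ,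
      eval (fun x : Fin q × Fin (M + 1) => p x.1 x.2) Θ ≠ 0 →
      ∀ y Z : Fin (M + 1) → ℂ, (∀ G ∈ 𝔞, eval (Sum.elim y Z) G = 0) →
        (y ≠ 0 → ∃ j, p j ⬝ᵥ y ≠ 0) ∧ (Z ≠ 0 → ∃ j, p j ⬝ᵥ Z ≠ 0) := by
  obtain ⟨Θ₁, hΘ₁, h1⟩ := dim_count (M := M) hq 𝔞 htr
    (lR ℂ (0 : Fin 1) : MvPolynomial ((Fin 1 × Fin (M + 1)) ⊕ (Fin (M + 1) ⊕ Fin (M + 1))) ℂ)
  obtain ⟨Θ₂, hΘ₂, h2⟩ := dim_count (M := M) hq 𝔞 htr
    (bR ℂ (0 : Fin 1) : MvPolynomial ((Fin 1 × Fin (M + 1)) ⊕ (Fin (M + 1) ⊕ Fin (M + 1))) ℂ)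
  have hl : ∀ (p : Fin 1 × Fin (M + 1) → ℂ) (y Z : Fin (M + 1) → ℂ),
      eval (Sum.elim p (Sum.elim y Z)) (lR ℂ (0 : Fin 1)) = (fun i => p (0, i)) ⬝ᵥ y := by
    intro p y Z
    simp [lR, dotProduct]
  have hb : ∀ (p : Fin 1 × Fin (M + 1) → ℂ) (y Z : Fin (M + 1) → ℂ),
      eval (Sum.elim p (Sum.elim y Z)) (bR ℂ (0 : Fin 1)) = (fun i => p (0, i)) ⬝ᵥ Z := by
    intro p y Z
    simp [bR, dotProduct]
  refine ⟨Θ₁ * Θ₂, mul_ne_zero hΘ₁ hΘ₂, ?_⟩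
  intro p hp y Z hyZ
  rw [map_mul] at hp
  constructor
  · intro hy0
    by_contra hcon
    push Not at hcon
    apply hy0
    apply dot_all_zero
    intro v
    have h3 := h1 p (left_ne_zero_of_mul hp) (Sum.elim y Z) hyZ (fun e => by
      rw [hl]
      exact hcon (e 0)) (fun x => v x.2)
    rw [hl] at h3
    exact h3
  · intro hZ0
    by_contra hcon
    push Not at hcon
    apply hZ0
    apply dot_all_zero
    intro v
    have h3 := h2 p (right_ne_zero_of_mul hp) (Sum.elim y Z) hyZ (fun e => by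
      rw [hb]
      exact hcon (e 0)) (fun x => v x.2)
    rw [hb] at h3
    exact h3

/-- The generic point of a prime ideal and generic hyperplanes over it. -/
lemma exists_generic_point {M q : ℕ} (𝔞 : Ideal (MvPolynomial (Fin (M + 1) ⊕ Fin (M + 1)) ℂ))
    [𝔞.IsPrime] : ∃ (E : Type) (_ : Field E) (_ : Algebra ℂ E) (_ : CharZero E)
      (y₀ Z₀ : Fin (M + 1) → E) (p : Fin q → Fin (M + 1) → E) (F : Subalgebra ℂ E),
      (∀ G, aeval (Sum.elim y₀ Z₀) G = 0 ↔ G ∈ 𝔞) ∧ (∀ i, y₀ i ∈ F) ∧ (∀ i, Z₀ i ∈ F) ∧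
      AlgebraicIndependent F (fun x : Fin q × Fin (M + 1) => p x.1 x.2) := by
  let R := MvPolynomial (Fin (M + 1) ⊕ Fin (M + 1)) ℂ ⧸ 𝔞
  let L := FractionRing R
  let B := MvPolynomial (Fin q × Fin (M + 1)) L
  let E := FractionRing B
  have hRL : Function.Injective (algebraMap R L) := IsFractionRing.injective R L
  have hBE : Function.Injective (algebraMap B E) := IsFractionRing.injective B E
  have hLE : Function.Injective (algebraMap L E) := (algebraMap L E).injective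
  obtain ⟨w₀, hw₀⟩ : ∃ w₀ : Fin (M + 1) ⊕ Fin (M + 1) → E, ∀ i, w₀ i =
    algebraMap L E (algebraMap R L (Ideal.Quotient.mk 𝔞 (X i))) := ⟨fun i => _, fun i => rfl⟩
  have hw : ∀ G, aeval w₀ G = algebraMap L E (algebraMap R L (Ideal.Quotient.mk 𝔞 G)) := by
    intro G
    have h1 : ((aeval w₀ : MvPolynomial (Fin (M + 1) ⊕ Fin (M + 1)) ℂ →ₐ[ℂ] E) :
        MvPolynomial (Fin (M + 1) ⊕ Fin (M + 1)) ℂ →+* E) =
        ((algebraMap L E).comp (algebraMap R L)).comp (Ideal.Quotient.mk 𝔞) := by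
      apply MvPolynomial.ringHom_ext
      · intro a
        simp only [RingHom.coe_coe, algHom_C, RingHom.comp_apply]
        rw [IsScalarTower.algebraMap_apply ℂ L E, IsScalarTower.algebraMap_apply ℂ R L]
        rfl
      · intro i
        simp only [RingHom.coe_coe, aeval_X, RingHom.comp_apply]
        exact hw₀ i
    exact congrArg (fun f => f G) h1
  obtain ⟨F, hF⟩ : ∃ F : Subalgebra ℂ E, F = (IsScalarTower.toAlgHom ℂ L E).range := ⟨_, rfl⟩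
  have hmem : ∀ x : L, algebraMap L E x ∈ F := by
    intro x
    rw [hF]
    exact ⟨x, rfl⟩
  refine ⟨E, inferInstance, inferInstance, charZero_of_injective_algebraMap
    (algebraMap ℂ E).injective, fun i => w₀ (Sum.inl i),
    fun i => w₀ (Sum.inr i), fun j i => algebraMap B E (X (j, i)), F, ?_, ?_, ?_, ?_⟩
  · intro G
    have h1 : (Sum.elim (fun i => w₀ (Sum.inl i)) (fun i => w₀ (Sum.inr i)) :
        Fin (M + 1) ⊕ Fin (M + 1) → E) = w₀ := by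
      funext i
      rcases i with i | i
      · rfl
      · rfl
    rw [h1, hw]
    constructor
    · intro h2
      rw [← map_zero (algebraMap L E)] at h2
      have h3 := hLE h2
      rw [← map_zero (algebraMap R L)] at h3
      exact Ideal.Quotient.eq_zero_iff_mem.mp (hRL h3)
    · intro h2
      rw [Ideal.Quotient.eq_zero_iff_mem.mpr h2, map_zero, map_zero]
  · intro i
    show w₀ (Sum.inl i) ∈ F
    rw [hw₀]
    exact hmem _
  · intro i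
    show w₀ (Sum.inr i) ∈ F
    rw [hw₀]
    exact hmem _
  · rw [algebraicIndependent_iff]
    intro Q hQ
    have hsurj : Function.Surjective (fun x : L => (⟨algebraMap L E x, hmem x⟩ : F)) := by
      rintro ⟨x, hx⟩
      have hx' := hx
      rw [hF] at hx'
      obtain ⟨y, hy⟩ := hx'
      exact ⟨y, Subtype.ext hy⟩
    let ρ : L →+* F :=
      { toFun := fun x => ⟨algebraMap L E x, hmem x⟩
        map_one' := Subtype.ext (map_one _)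
        map_mul' := fun a b => Subtype.ext (map_mul _ a b)
        map_zero' := Subtype.ext (map_zero _)
        map_add' := fun a b => Subtype.ext (map_add _ a b) }
    obtain ⟨Q', hQ'⟩ := MvPolynomial.map_surjective ρ hsurj Q
    have h1 : algebraMap B E Q' = 0 := by
      rw [← hQ, ← hQ']
      have h2 : (algebraMap B E) = ((aeval (fun x : Fin q × Fin (M + 1) =>
          algebraMap B E (X (x.1, x.2))) : MvPolynomial (Fin q × Fin (M + 1)) F →ₐ[F] E) :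
            MvPolynomial (Fin q × Fin (M + 1)) F →+* E).comp (MvPolynomial.map ρ) := by
        apply MvPolynomial.ringHom_ext
        · intro a
          simp only [RingHom.comp_apply, map_C, RingHom.coe_coe, algHom_C]
          rfl
        · intro i
          simp only [RingHom.comp_apply, map_X, RingHom.coe_coe, aeval_X]
      exact congrArg (fun f => f Q') h2
    rw [← map_zero (algebraMap B E)] at h1
    rw [← hQ', hBE h1, map_zero]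

end Pool.Agent.Lib.GGL.VG
end

section

/-!
The main case of the Noetherian induction.
-/

open Filter Topology MvPolynomial Module

namespace Pool.Agent.Lib.GGL.VG

lemma aeval_minorP' {E : Type*} [Field E] [Algebra ℂ E] {M : ℕ} (a b : Fin (M + 1))
    (y Z : Fin (M + 1) → E) : aeval (Sum.elim y Z) (minorP ℂ a b) = y a * Z b - y b * Z a := by
  simp [minorP]

lemma aeval_pt_inl {E : Type*} [Field E] [Algebra ℂ E] {q M : ℕ}
    (p : Fin q → Fin (M + 1) → E) (y Z : Fin (M + 1) → E) (i : Fin (M + 1)) :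
    aeval (pt p y Z) (X (Sum.inr (Sum.inl i)) :
      MvPolynomial ((Fin q × Fin (M + 1)) ⊕ (Fin (M + 1) ⊕ Fin (M + 1))) ℂ) = y i := by
  simp [pt]

lemma aeval_pt_inr {E : Type*} [Field E] [Algebra ℂ E] {q M : ℕ}
    (p : Fin q → Fin (M + 1) → E) (y Z : Fin (M + 1) → E) (i : Fin (M + 1)) :
    aeval (pt p y Z) (X (Sum.inr (Sum.inr i)) :
      MvPolynomial ((Fin q × Fin (M + 1)) ⊕ (Fin (M + 1) ⊕ Fin (M + 1))) ℂ) = Z i := by
  simp [pt]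

lemma aeval_lead {E : Type*} [Field E] [Algebra ℂ E] {q M k K₀ : ℕ}
    (p : Fin q → Fin (M + 1) → E) (y Z : Fin (M + 1) → E) (g : Fin q → ℕ)
    (c : (Fin q → Fin (k + 1)) →
      MvPolynomial ((Fin q × Fin (M + 1)) ⊕ (Fin (M + 1) ⊕ Fin (M + 1))) ℂ) :
    aeval (pt p y Z) (lead K₀ g (lR ℂ) (bR ℂ) c) =
      lead K₀ g (fun j => p j ⬝ᵥ y) (fun j => p j ⬝ᵥ Z) (fun γ => aeval (pt p y Z) (c γ)) := by
  obtain ⟨φ, hφ⟩ : ∃ φ : MvPolynomial ((Fin q × Fin (M + 1)) ⊕ (Fin (M + 1) ⊕ Fin (M + 1))) ℂ →+* E,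
    ∀ P, φ P = aeval (pt p y Z) P := ⟨(aeval (pt p y Z)).toRingHom, fun P => rfl⟩
  have h3 : (fun j => φ (lR ℂ j)) = fun j => p j ⬝ᵥ y :=
    funext fun j => by rw [hφ]; exact aeval_lR' p y Z j
  have h4 : (fun j => φ (bR ℂ j)) = fun j => p j ⬝ᵥ Z :=
    funext fun j => by rw [hφ]; exact aeval_bR' p y Z j
  have h5 : (fun γ => φ (c γ)) = fun γ => aeval (pt p y Z) (c γ) := funext fun γ => by rw [hφ]
  rw [← hφ, map_lead, h3, h4, h5]

/-- the product of the auxiliary factors -/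
noncomputable def auxP {q M : ℕ} (S : Finset (Fin (M + 1))) :
    MvPolynomial ((Fin q × Fin (M + 1)) ⊕ (Fin (M + 1) ⊕ Fin (M + 1))) ℂ :=
  (∏ j : Fin q, lR ℂ j) *
    (∏ x ∈ (Finset.univ : Finset (Fin q)).offDiag, (lR ℂ x.1 * bR ℂ x.2 - lR ℂ x.2 * bR ℂ x.1)) *
    ∏ i ∈ S, ∏ j : Fin q, (bR ℂ j * X (Sum.inr (Sum.inl i)) - X (Sum.inr (Sum.inr i)) * lR ℂ j)

lemma aeval_auxP {E : Type*} [Field E] [Algebra ℂ E] {q M : ℕ} (S : Finset (Fin (M + 1)))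
    (p : Fin q → Fin (M + 1) → E) (y Z : Fin (M + 1) → E) :
    aeval (pt p y Z) (auxP S) = (∏ j : Fin q, p j ⬝ᵥ y) *
      (∏ x ∈ (Finset.univ : Finset (Fin q)).offDiag,
        ((p x.1 ⬝ᵥ y) * (p x.2 ⬝ᵥ Z) - (p x.2 ⬝ᵥ y) * (p x.1 ⬝ᵥ Z))) *
      ∏ i ∈ S, ∏ j : Fin q, ((p j ⬝ᵥ Z) * y i - Z i * (p j ⬝ᵥ y)) := by
  rw [auxP, map_mul, map_mul, map_prod, map_prod, map_prod]
  congr 1
  · congr 1
    · exact Finset.prod_congr rfl fun j _ => aeval_lR' p y Z j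
    · refine Finset.prod_congr rfl fun x _ => ?_
      rw [map_sub, map_mul, map_mul, aeval_lR', aeval_lR', aeval_bR', aeval_bR']
  · refine Finset.prod_congr rfl fun i _ => ?_
    rw [map_prod]
    refine Finset.prod_congr rfl fun j _ => ?_
    rw [map_sub, map_mul, map_mul, aeval_lR', aeval_bR', aeval_pt_inl, aeval_pt_inr]

lemma exists_lambda {n M : ℕ} (𝔞 : Ideal (MvPolynomial (Fin (M + 1) ⊕ Fin (M + 1)) ℂ))
    [𝔞.IsPrime]
    (htr : ∀ (L : Type) [Field L] [Algebra ℂ L] (y Z : Fin (M + 1) → L),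
      (∀ G ∈ 𝔞, aeval (Sum.elim y Z) G = 0) → TrdegLE ℂ y (n + 1))
    (hdiff : ∀ f : MvPolynomial (Fin (M + 1)) ℂ, rename Sum.inl f ∈ 𝔞 → diffP f ∈ 𝔞)
    {a₀ b₀ : Fin (M + 1)} (hab : minorP ℂ a₀ b₀ ∉ 𝔞) {q : ℕ} (hq : q = 10 * (2 * n + 3)) :
    (∀ (L : Type) [Field L] [Algebra ℂ L] (w : Fin (M + 1) ⊕ Fin (M + 1) → L),
      (∀ G ∈ 𝔞, aeval w G = 0) → TrdegLE ℂ w (2 * (n + 1))) ∧
    ∃ (K₀ A B τ : ℕ) (c : (Fin q → Fin (2 * K₀ + 1)) →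
      MvPolynomial ((Fin q × Fin (M + 1)) ⊕ (Fin (M + 1) ⊕ Fin (M + 1))) ℂ) (g : Fin q → ℕ)
      (Λ : MvPolynomial ((Fin q × Fin (M + 1)) ⊕ (Fin (M + 1) ⊕ Fin (M + 1))) ℂ),
      1 ≤ τ ∧ q * K₀ = A + B + τ ∧
      (∀ y Z : Fin (M + 1) → ℂ, (∀ G ∈ 𝔞, eval (Sum.elim y Z) G = 0) →
        ∀ p' : Fin q → Fin (M + 1) → ℂ, Good K₀ q g (fun j => p' j ⬝ᵥ y) (fun j => p' j ⬝ᵥ Z)
          (fun γ => eval (pt p' y Z) (c γ))) ∧
      (∀ (p' : Fin q → Fin (M + 1) → ℂ) (y Z : Fin (M + 1) → ℂ) (a b : ℂ),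
        lead K₀ g (fun j => p' j ⬝ᵥ (a • y)) (fun j => p' j ⬝ᵥ (b • Z))
          (fun γ => eval (pt p' (a • y) (b • Z)) (c γ)) = a ^ A * b ^ B *
        lead K₀ g (fun j => p' j ⬝ᵥ y) (fun j => p' j ⬝ᵥ Z)
          (fun γ => eval (pt p' y Z) (c γ))) ∧
      (∃ m, coeff m (sumAlgEquiv ℂ _ _ Λ) ∉ 𝔞) ∧
      ∀ (p' : Fin q → Fin (M + 1) → ℂ) (y Z : Fin (M + 1) → ℂ), eval (pt p' y Z) Λ ≠ 0 →
        lead K₀ g (fun j => p' j ⬝ᵥ y) (fun j => p' j ⬝ᵥ Z)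
          (fun γ => eval (pt p' y Z) (c γ)) ≠ 0 ∧
        (∀ j, p' j ⬝ᵥ y ≠ 0) ∧
        (∀ i j, i ≠ j → (p' i ⬝ᵥ y) * (p' j ⬝ᵥ Z) - (p' j ⬝ᵥ y) * (p' i ⬝ᵥ Z) ≠ 0) ∧
        (∀ i j, X (Sum.inl i) ∈ 𝔞 ∨ (p' j ⬝ᵥ Z) * y i - Z i * (p' j ⬝ᵥ y) ≠ 0) := by
  classical
  obtain ⟨E, _, _, _, y₀, Z₀, p, F, hrel, hF1, hF2, hp⟩ := exists_generic_point (q := q) 𝔞
  have hab' : y₀ a₀ * Z₀ b₀ - y₀ b₀ * Z₀ a₀ ≠ 0 := by
    intro h0
    apply hab
    rw [← hrel, aeval_minorP']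
    exact h0
  have hw1 : y₀ ≠ 0 := by
    intro h
    apply hab'
    simp [h]
  have hw2 : Z₀ ≠ 0 := by
    intro h
    apply hab'
    simp [h]
  have htr1 : TrdegLE ℂ y₀ (n + 1) := htr E y₀ Z₀ (fun G hG => (hrel G).mpr hG)
  have hrel2 : ∀ G : MvPolynomial (Fin (M + 1)) ℂ, aeval y₀ G = 0 → t14D y₀ Z₀ G = 0 := by
    intro G hG
    rw [← aeval_diffP]
    apply (hrel _).mpr
    apply hdiff
    apply (hrel _).mp
    rw [aeval_rename, Sum.elim_comp_inl]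
    exact hG
  have htr2 : TrdegLE ℂ (Sum.elim y₀ Z₀) (2 * (n + 1)) := trdeg_of_rel hrel2 htr1
  refine ⟨?_, ?_⟩
  · intro L _ _ w hw
    exact htr2.specialize' (fun G hG => hw G ((hrel G).mp hG))
  have hnum : 182 ^ (2 * (n + 1) + 1) * 10 ^ q ≤ 17 ^ q := by
    rw [hq, pow_mul, pow_mul, show 2 * (n + 1) + 1 = 2 * n + 3 by ring, ← mul_pow]
    exact Nat.pow_le_pow_left (by norm_num) _
  obtain ⟨K₀, A, B, τ, c, g, hτ, hdeg, hgood, hhom, hne⟩ := exists_certificate' (by omega) hnum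
    hw1 hw2 htr2 hF1 hF2 hp
  obtain ⟨S, hS⟩ : ∃ S : Finset (Fin (M + 1)), S = Finset.univ.filter fun i =>
    (X (Sum.inl i) : MvPolynomial (Fin (M + 1) ⊕ Fin (M + 1)) ℂ) ∉ 𝔞 := ⟨_, rfl⟩
  have hSne : ∀ i ∈ S, y₀ i ≠ 0 := by
    intro i hi h0
    rw [hS, Finset.mem_filter] at hi
    apply hi.2
    rw [← hrel, aeval_X, Sum.elim_inl]
    exact h0
  have haux : aeval (pt p y₀ Z₀) (auxP S) ≠ 0 := by
    rw [aeval_auxP]
    refine mul_ne_zero (mul_ne_zero ?_ ?_) ?_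
    · exact Finset.prod_ne_zero_iff.mpr fun j _ => dot_ne_zero hp hF1 hw1 j
    · refine Finset.prod_ne_zero_iff.mpr fun x hx => ?_
      exact wronskian_ne' hp hF1 hF2 hab' (Finset.mem_offDiag.mp hx).2.2
    · refine Finset.prod_ne_zero_iff.mpr fun i hi => ?_
      refine Finset.prod_ne_zero_iff.mpr fun j _ => ?_
      exact sep_minor' hp hF1 hF2 hab' j i (hSne i hi)
  refine ⟨K₀, A, B, τ, c, g, lead K₀ g (lR ℂ) (bR ℂ) c * auxP S, hτ, hdeg, ?_, hhom, ?_, ?_⟩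
  · intro y Z hyZ p'
    exact hgood y Z (fun G hG => hyZ G ((hrel G).mp hG)) p'
  · by_contra hcon
    push Not at hcon
    have h1 : aeval (pt p y₀ Z₀) (lead K₀ g (lR ℂ) (bR ℂ) c * auxP S) ≠ 0 := by
      rw [map_mul, aeval_lead]
      exact mul_ne_zero hne haux
    apply h1
    rw [pt, aeval_sum]
    have h2 : MvPolynomial.map (aeval (Sum.elim y₀ Z₀) :
        MvPolynomial (Fin (M + 1) ⊕ Fin (M + 1)) ℂ →ₐ[ℂ] E).toRingHom
        (sumAlgEquiv ℂ (Fin q × Fin (M + 1)) (Fin (M + 1) ⊕ Fin (M + 1))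
          (lead K₀ g (lR ℂ) (bR ℂ) c * auxP S)) = 0 := by
      ext m
      rw [coeff_map, coeff_zero]
      exact (hrel _).mpr (hcon m)
    rw [h2, map_zero]
  · intro p' y Z hne'
    rw [← aeval_eq_eval', map_mul, aeval_lead, aeval_auxP] at hne'
    have h1 := left_ne_zero_of_mul hne'
    have h2 := right_ne_zero_of_mul hne'
    have h3 := right_ne_zero_of_mul h2
    have h4 := right_ne_zero_of_mul (left_ne_zero_of_mul h2)
    have h5 := left_ne_zero_of_mul (left_ne_zero_of_mul h2)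
    refine ⟨h1, ?_, ?_, ?_⟩
    · intro j
      exact Finset.prod_ne_zero_iff.mp h5 j (Finset.mem_univ j)
    · intro i j hij
      exact Finset.prod_ne_zero_iff.mp h4 (i, j)
        (Finset.mem_offDiag.mpr ⟨Finset.mem_univ i, Finset.mem_univ j, hij⟩)
    · intro i j
      by_cases hi : (X (Sum.inl i) : MvPolynomial (Fin (M + 1) ⊕ Fin (M + 1)) ℂ) ∈ 𝔞
      · exact Or.inl hi
      · right
        have hiS : i ∈ S := by
          rw [hS, Finset.mem_filter]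
          exact ⟨Finset.mem_univ i, hi⟩
        exact Finset.prod_ne_zero_iff.mp (Finset.prod_ne_zero_iff.mp h3 i hiS) j
          (Finset.mem_univ j)

end Pool.Agent.Lib.GGL.VG
end

section

/-!
The polynomial whose non-vanishing makes a block of hyperplanes good.
-/

open Filter Topology MvPolynomial Module

namespace Pool.Agent.Lib.GGL.SM

open VG

lemma aeval_leadL {E : Type*} [Field E] [Algebra ℂ E] {q M K : ℕ}
    (p : Fin q → Fin (M + 1) → E) (y Z : Fin (M + 1) → E) (g : Fin q → ℕ)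
    (c : (Fin q → Fin (K + 1)) →
      MvPolynomial ((Fin q × Fin (M + 1)) ⊕ (Fin (M + 1) ⊕ Fin (M + 1))) ℂ) :
    aeval (pt p y Z) (leadL g (lR ℂ) (bR ℂ) c) =
      leadL g (fun j => p j ⬝ᵥ y) (fun j => p j ⬝ᵥ Z) (fun γ => aeval (pt p y Z) (c γ)) := by
  obtain ⟨φ, hφ⟩ : ∃ φ : MvPolynomial ((Fin q × Fin (M + 1)) ⊕ (Fin (M + 1) ⊕ Fin (M + 1))) ℂ →+* E,
    ∀ P, φ P = aeval (pt p y Z) P := ⟨(aeval (pt p y Z)).toRingHom, fun P => rfl⟩
  have h3 : (fun j => φ (lR ℂ j)) = fun j => p j ⬝ᵥ y :=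
    funext fun j => by rw [hφ]; exact aeval_lR' p y Z j
  have h4 : (fun j => φ (bR ℂ j)) = fun j => p j ⬝ᵥ Z :=
    funext fun j => by rw [hφ]; exact aeval_bR' p y Z j
  have h5 : (fun γ => φ (c γ)) = fun γ => aeval (pt p y Z) (c γ) := funext fun γ => by rw [hφ]
  rw [← hφ, map_leadL, h3, h4, h5]

lemma aeval_rename_minorP {E : Type*} [Field E] [Algebra ℂ E] {q M : ℕ} (a b : Fin (M + 1))
    (p : Fin q → Fin (M + 1) → E) (y Z : Fin (M + 1) → E) :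
    aeval (pt p y Z) (rename Sum.inr (minorP ℂ a b)) = y a * Z b - y b * Z a := by
  rw [aeval_rename, pt, Sum.elim_comp_inr, aeval_minorP']

theorem exists_lambda_log {n M k : ℕ} (hk : 4 ≤ k)
    (𝔞 : Ideal (MvPolynomial (Fin (M + 1) ⊕ Fin (M + 1)) ℂ)) [𝔞.IsPrime]
    (htr : ∀ (L : Type) [Field L] [Algebra ℂ L] (y Z : Fin (M + 1) → L),
      (∀ G ∈ 𝔞, aeval (Sum.elim y Z) G = 0) → TrdegLE ℂ y (n + 1))
    (hdiff : ∀ f : MvPolynomial (Fin (M + 1)) ℂ, rename Sum.inl f ∈ 𝔞 → diffP f ∈ 𝔞)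
    {a₀ b₀ : Fin (M + 1)} (hab : minorP ℂ a₀ b₀ ∉ 𝔞) {q : ℕ} (hq : q = 8 * k ^ 3 * (n + 1)) :
    (∀ (L : Type) [Field L] [Algebra ℂ L] (w : Fin (M + 1) ⊕ Fin (M + 1) → L),
      (∀ G ∈ 𝔞, aeval w G = 0) → TrdegLE ℂ w (2 * (n + 1))) ∧
    ∃ (r A B τ : ℕ) (c : (Fin q → Fin (2 * k * r + 1)) →
      MvPolynomial ((Fin q × Fin (M + 1)) ⊕ (Fin (M + 1) ⊕ Fin (M + 1))) ℂ) (g : Fin q → ℕ)
      (Λ : MvPolynomial ((Fin q × Fin (M + 1)) ⊕ (Fin (M + 1) ⊕ Fin (M + 1))) ℂ),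
      1 ≤ r ∧ q * (2 * k * r) = A + B + τ ∧ ∑ j, g j = τ + 3 * (q * r) ∧
      (k - 1) * (q * r) < ∑ j, g j ∧ (∀ j, g j ≤ 2 * k * r) ∧
      (∀ y Z : Fin (M + 1) → ℂ, (∀ G ∈ 𝔞, eval (Sum.elim y Z) G = 0) →
        ∀ p' : Fin q → Fin (M + 1) → ℂ, GoodL q g (fun j => p' j ⬝ᵥ y) (fun j => p' j ⬝ᵥ Z)
          (fun γ => eval (pt p' y Z) (c γ))) ∧
      (∀ (p' : Fin q → Fin (M + 1) → ℂ) (y Z : Fin (M + 1) → ℂ) (a b : ℂ),
        leadL g (fun j => p' j ⬝ᵥ (a • y)) (fun j => p' j ⬝ᵥ (b • Z))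
          (fun γ => eval (pt p' (a • y) (b • Z)) (c γ)) = a ^ A * b ^ B *
        leadL g (fun j => p' j ⬝ᵥ y) (fun j => p' j ⬝ᵥ Z)
          (fun γ => eval (pt p' y Z) (c γ))) ∧
      (∃ m, coeff m (sumAlgEquiv ℂ _ _ Λ) ∉ 𝔞) ∧
      ∀ (p' : Fin q → Fin (M + 1) → ℂ) (y Z : Fin (M + 1) → ℂ), eval (pt p' y Z) Λ ≠ 0 →
        leadL g (fun j => p' j ⬝ᵥ y) (fun j => p' j ⬝ᵥ Z)
          (fun γ => eval (pt p' y Z) (c γ)) ≠ 0 ∧
        (∀ j, p' j ⬝ᵥ y ≠ 0) ∧ y a₀ * Z b₀ - y b₀ * Z a₀ ≠ 0 ∧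
        (∀ i j, X (Sum.inl i) ∈ 𝔞 ∨ (p' j ⬝ᵥ Z) * y i - Z i * (p' j ⬝ᵥ y) ≠ 0) := by
  classical
  obtain ⟨E, _, _, _, y₀, Z₀, p, F, hrel, hF1, hF2, hp⟩ := exists_generic_point (q := q) 𝔞
  have hab' : y₀ a₀ * Z₀ b₀ - y₀ b₀ * Z₀ a₀ ≠ 0 := by
    intro h0
    apply hab
    rw [← hrel, aeval_minorP']
    exact h0
  have hw1 : y₀ ≠ 0 := by
    intro h
    apply hab'
    simp [h]
  have hw2 : Z₀ ≠ 0 := by
    intro h
    apply hab'
    simp [h]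
  have htr1 : TrdegLE ℂ y₀ (n + 1) := htr E y₀ Z₀ (fun G hG => (hrel G).mpr hG)
  have hrel2 : ∀ G : MvPolynomial (Fin (M + 1)) ℂ, aeval y₀ G = 0 → t14D y₀ Z₀ G = 0 := by
    intro G hG
    rw [← aeval_diffP]
    apply (hrel _).mpr
    apply hdiff
    apply (hrel _).mp
    rw [aeval_rename, Sum.elim_comp_inl]
    exact hG
  have htr2 : TrdegLE ℂ (Sum.elim y₀ Z₀) (2 * (n + 1)) := trdeg_of_rel hrel2 htr1
  refine ⟨?_, ?_⟩
  · intro L _ _ w hw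
    exact htr2.specialize' (fun G hG => hw G ((hrel G).mp hG))
  have hq1 : 1 ≤ q := by
    rw [hq]
    have : 0 < k ^ 3 := by positivity
    nlinarith
  have hcount : ∀ r, 1 ≤ r → (2 * k + 1) * ((2 * k + 2) ^ (2 * (n + 1)) + 1) * Fintype.card
      {f : Fin q → Fin (2 * k * r + 1) // ∑ j, (f j : ℕ) ≤ (k - 1) * q * r} ≤
      (2 * k * r + 1) ^ q := by
    intro r hr
    subst hq
    exact count_ok (by omega) hr
  obtain ⟨r, A, B, τ, c, g, hr, hdeg, hsum, hlt, hgle, hgood, hhom, hne⟩ :=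
    exists_certificate_log (by omega) hq1 hk hcount hw1 hw2 htr2 hF1 hF2 hp
  obtain ⟨S, hS⟩ : ∃ S : Finset (Fin (M + 1)), S = Finset.univ.filter fun i =>
    (X (Sum.inl i) : MvPolynomial (Fin (M + 1) ⊕ Fin (M + 1)) ℂ) ∉ 𝔞 := ⟨_, rfl⟩
  have hSne : ∀ i ∈ S, y₀ i ≠ 0 := by
    intro i hi h0
    rw [hS, Finset.mem_filter] at hi
    apply hi.2
    rw [← hrel, aeval_X, Sum.elim_inl]
    exact h0
  have haux : aeval (pt p y₀ Z₀) (auxP S) ≠ 0 := by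
    rw [aeval_auxP]
    refine mul_ne_zero (mul_ne_zero ?_ ?_) ?_
    · exact Finset.prod_ne_zero_iff.mpr fun j _ => dot_ne_zero hp hF1 hw1 j
    · refine Finset.prod_ne_zero_iff.mpr fun x hx => ?_
      exact wronskian_ne' hp hF1 hF2 hab' (Finset.mem_offDiag.mp hx).2.2
    · refine Finset.prod_ne_zero_iff.mpr fun i hi => ?_
      refine Finset.prod_ne_zero_iff.mpr fun j _ => ?_
      exact sep_minor' hp hF1 hF2 hab' j i (hSne i hi)
  obtain ⟨Λ, hΛ⟩ : ∃ Λ, Λ = leadL g (lR ℂ) (bR ℂ) c * auxP S *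
    rename Sum.inr (minorP ℂ a₀ b₀) := ⟨_, rfl⟩
  refine ⟨r, A, B, τ, c, g, Λ, hr, hdeg, hsum, hlt, hgle, ?_, hhom, ?_, ?_⟩
  · intro y Z hyZ p'
    exact hgood y Z (fun G hG => hyZ G ((hrel G).mp hG)) p'
  · by_contra hcon
    push Not at hcon
    have h1 : aeval (pt p y₀ Z₀) Λ ≠ 0 := by
      rw [hΛ, map_mul, map_mul, aeval_leadL, aeval_rename_minorP]
      exact mul_ne_zero (mul_ne_zero hne haux) hab'
    apply h1
    rw [pt, VG.aeval_sum]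
    have h2 : MvPolynomial.map (aeval (Sum.elim y₀ Z₀) :
        MvPolynomial (Fin (M + 1) ⊕ Fin (M + 1)) ℂ →ₐ[ℂ] E).toRingHom
        (sumAlgEquiv ℂ (Fin q × Fin (M + 1)) (Fin (M + 1) ⊕ Fin (M + 1)) Λ) = 0 := by
      ext m
      rw [coeff_map, coeff_zero]
      exact (hrel _).mpr (hcon m)
    rw [h2, map_zero]
  · intro p' y Z hne'
    rw [hΛ, ← aeval_eq_eval', map_mul, map_mul, aeval_leadL, aeval_auxP,
      aeval_rename_minorP] at hne'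
    have h0 := left_ne_zero_of_mul hne'
    have h0' := right_ne_zero_of_mul hne'
    have h1 := left_ne_zero_of_mul h0
    have h2 := right_ne_zero_of_mul h0
    have h3 := right_ne_zero_of_mul h2
    have h5 := left_ne_zero_of_mul (left_ne_zero_of_mul h2)
    refine ⟨h1, ?_, h0', ?_⟩
    · intro j
      exact Finset.prod_ne_zero_iff.mp h5 j (Finset.mem_univ j)
    · intro i j
      by_cases hi : (X (Sum.inl i) : MvPolynomial (Fin (M + 1) ⊕ Fin (M + 1)) ℂ) ∈ 𝔞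
      · exact Or.inl hi
      · right
        have hiS : i ∈ S := by
          rw [hS, Finset.mem_filter]
          exact ⟨Finset.mem_univ i, hi⟩
        exact Finset.prod_ne_zero_iff.mp (Finset.prod_ne_zero_iff.mp h3 i hiS) j
          (Finset.mem_univ j)

end Pool.Agent.Lib.GGL.SM
end

section

/-!
Good families of blocks: dimension count for general hyperplanes.
-/

open Filter Topology MvPolynomial Module

namespace Pool.Agent.Lib.GGL.SM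

open VG

/-- For general `p` at most `D` of the hyperplanes are near to a point of the curve. -/
theorem near_count {M N D : ℕ} (𝔞 : Ideal (MvPolynomial (Fin (M + 1) ⊕ Fin (M + 1)) ℂ))
    (htr : ∀ (L : Type) [Field L] [Algebra ℂ L] (w : Fin (M + 1) ⊕ Fin (M + 1) → L),
      (∀ G ∈ 𝔞, aeval w G = 0) → TrdegLE ℂ w D) :
    ∃ Θ : MvPolynomial (Fin N × Fin (M + 1)) ℂ, Θ ≠ 0 ∧ ∀ p : Fin N → Fin (M + 1) → ℂ,
      eval (fun x : Fin N × Fin (M + 1) => p x.1 x.2) Θ ≠ 0 →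
      ∀ Y : ℂ → Fin (M + 1) → ℂ, Differentiable ℂ Y → (∀ z, Y z ≠ 0) →
      (∀ w ∈ jets fun _ => Y, ∀ G ∈ 𝔞, eval (Sum.elim w.1 w.2) G = 0) →
      ∃ c₁ : ℝ, 0 < c₁ ∧ ∀ z, {j | ‖p j ⬝ᵥ Y z‖ < c₁ * ‖Y z‖}.ncard ≤ D := by
  classical
  obtain ⟨Θ₃, hΘ₃, h3⟩ := exists_sep (M := M) (q := D + 1) (D := D) (by omega) 𝔞 htr
  refine ⟨∏ e : Fin (D + 1) ↪ Fin N,
    rename (fun x : Fin (D + 1) × Fin (M + 1) => (e x.1, x.2)) Θ₃, ?_, ?_⟩
  · refine Finset.prod_ne_zero_iff.mpr fun e _ => ?_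
    intro h0
    apply hΘ₃
    have hinj : Function.Injective (fun x : Fin (D + 1) × Fin (M + 1) => (e x.1, x.2)) := by
      rintro ⟨x1, x2⟩ ⟨y1, y2⟩ h
      rw [Prod.mk.injEq] at h ⊢
      exact ⟨e.injective h.1, h.2⟩
    exact rename_injective _ hinj (by rw [h0, map_zero])
  intro p hp Y hY h0 hjets
  rw [map_prod] at hp
  have hex : ∀ e : Fin (D + 1) ↪ Fin N, ∃ c₀ : ℝ, 0 < c₀ ∧ ∀ z,
      c₀ * ‖Y z‖ ≤ ‖fun j => p (e j) ⬝ᵥ Y z‖ := by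
    intro e
    have hΘe := Finset.prod_ne_zero_iff.mp hp e (Finset.mem_univ e)
    rw [eval_rename] at hΘe
    obtain ⟨p', hp'⟩ : ∃ p' : Fin (D + 1) → Fin (M + 1) → ℂ, p' = fun j => p (e j) := ⟨_, rfl⟩
    have hΘe' : eval (fun x : Fin (D + 1) × Fin (M + 1) => p' x.1 x.2) Θ₃ ≠ 0 := by
      rw [hp']
      exact hΘe
    have hrel : ∀ y Z : Fin (M + 1) → ℂ, (y, Z) ∈ closure (jetc fun _ => Y) →
        ∀ G ∈ 𝔞, eval (Sum.elim y Z) G = 0 := by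
      intro y Z hyZ G hG
      have := rel_on_closure (K := ℂ) (G := G) (fun w' hw' => hjets w' hw' G hG) y Z hyZ
      exact this
    obtain ⟨c₀, hc₀, hsep⟩ := sep_of_key (p' := p') (Y := fun _ => Y)
      (fun y Z hyZ => h3 p' hΘe' y Z (hrel y Z hyZ))
    refine ⟨c₀, hc₀, fun z => ?_⟩
    have h1 := (hsep (Y z) (deriv Y z) ⟨z, 1, 1, 0, by
      rw [one_smul, one_smul, zero_smul, add_zero]⟩).1
    rw [hp'] at h1
    exact h1
  choose c₀ hc₀ hc using hex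
  obtain ⟨c₁, hc₁, hle⟩ : ∃ c₁ : ℝ, 0 < c₁ ∧ ∀ e, c₁ ≤ c₀ e := by
    rcases isEmpty_or_nonempty (Fin (D + 1) ↪ Fin N) with hE | hE
    · exact ⟨1, one_pos, fun e => (hE.false e).elim⟩
    · obtain ⟨e₀, he₀⟩ := Finite.exists_min c₀
      exact ⟨c₀ e₀, hc₀ e₀, he₀⟩
  refine ⟨c₁, hc₁, fun z => ?_⟩
  by_contra hcon
  push Not at hcon
  obtain ⟨S, hS⟩ : ∃ S : Finset (Fin N), S = Finset.univ.filter fun j =>
    ‖p j ⬝ᵥ Y z‖ < c₁ * ‖Y z‖ := ⟨_, rfl⟩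
  have hSc : {j | ‖p j ⬝ᵥ Y z‖ < c₁ * ‖Y z‖} = (S : Set (Fin N)) := by
    rw [hS]
    ext j
    simp
  rw [hSc, Set.ncard_coe_finset] at hcon
  have hcard : D + 1 ≤ S.card := hcon
  obtain ⟨e, he⟩ : ∃ e : Fin (D + 1) ↪ Fin N, ∀ j, e j ∈ S :=
    ⟨(S.orderEmbOfCardLe hcard).toEmbedding, fun j => S.orderEmbOfCardLe_mem hcard j⟩
  have hpos : 0 < c₁ * ‖Y z‖ := mul_pos hc₁ (norm_pos_iff.mpr (h0 z))
  have h1 : ‖fun j => p (e j) ⬝ᵥ Y z‖ < c₁ * ‖Y z‖ := by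
    rw [pi_norm_lt_iff hpos]
    intro j
    have := he j
    rw [hS, Finset.mem_filter] at this
    exact this.2
  have h2 := hc e z
  have h4 : c₁ * ‖Y z‖ ≤ c₀ e * ‖Y z‖ := mul_le_mul_of_nonneg_right (hle e) (norm_nonneg _)
  linarith

end Pool.Agent.Lib.GGL.SM
end
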