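import Mathlib
import Pool.Agent.Lib.MP_8d161d_ag.SM.Defs
import Pool.Agent.Lib.MP_8d161d_ag.Mg.G014
import Pool.Agent.Lib.MP_8d161d_ag.SM.E4

section

/-!
The lemma on the logarithmic derivative for a finite family, in a pointwise form.
-/

open Filter Topology MeasureTheory

namespace Pool.Agent.Lib.GGL.SM

private theorem e7_mono_ae {f g : ℂ → ℝ} {r : ℝ} (hr : 0 < r) (hf : CircleIntegrable f 0 r)
    (hg : CircleIntegrable g 0 r) {S : Set ℂ} (hS : ∀ z₁, ∀ᶠ z in 𝓝[≠] z₁, z ∉ S)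
    (h : ∀ z, z ∉ S → f z ≤ g z) :
    Real.circleAverage f 0 r ≤ Real.circleAverage g 0 r := by
  have h1 : f =ᶠ[codiscreteWithin (Metric.sphere 0 |r|)] fun z => min (f z) (g z) := by
    change {z | f z = min (f z) (g z)} ∈ _
    rw [mem_codiscreteWithin]
    intro x _
    rw [Filter.disjoint_principal_right]
    filter_upwards [hS x] with z hz
    intro hz'
    exact hz'.2 (min_eq_left (h z hz)).symm
  rw [Real.circleAverage_congr_codiscreteWithin h1 hr.ne']
  exact Real.circleAverage_mono (hf.congr_codiscreteWithin h1) hg fun z _ => min_le_right _ _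

private theorem e7_discrete {A : ℂ → ℂ} (hA : Differentiable ℂ A) (hne : ∃ z, A z ≠ 0) (z₁ : ℂ) :
    ∀ᶠ z in 𝓝[≠] z₁, z ∉ {z | A z = 0} := by
  have hfin := zeros_finite hA hne (‖z₁‖ + 1)
  have h2 : ∀ᶠ z in 𝓝 z₁, z ∉ (({z | A z = 0} ∩ Metric.closedBall 0 (‖z₁‖ + 1)) \ {z₁}) :=
    (hfin.subset Set.sdiff_subset).isClosed.isOpen_compl.mem_nhds (by simp)
  have h3 : ∀ᶠ z in 𝓝 z₁, z ∈ Metric.closedBall (0 : ℂ) (‖z₁‖ + 1) := by
    refine Metric.closedBall_mem_nhds_of_mem ?_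
    simp
  rw [eventually_nhdsWithin_iff]
  filter_upwards [h2, h3] with z hz2 hz3 hz hz0
  exact hz2 ⟨⟨hz0, hz3⟩, hz⟩

private theorem e7_integrable {A : ℂ → ℂ} (hA : Differentiable ℂ A) (r : ℝ) :
    CircleIntegrable (fun z => Real.log ‖A z‖) 0 r :=
  MeromorphicOn.circleIntegrable_log_norm fun z _ => (hA.analyticAt z).meromorphicAt

/-- upper bound of the average -/
private theorem e7_upper {A : ℂ → ℂ} (hA : Differentiable ℂ A) (hne : ∃ z, A z ≠ 0) {U : ℂ → ℝ}
    (hU : Continuous U) {c : ℝ} (hAU : ∀ z, A z ≠ 0 → Real.log ‖A z‖ ≤ U z + c) {r : ℝ}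
    (hr : 0 < r) :
    Real.circleAverage (fun z => Real.log ‖A z‖) 0 r ≤ Real.circleAverage U 0 r + c := by
  have hUi : CircleIntegrable U 0 r := hU.continuousOn.circleIntegrable'
  have h1 : Real.circleAverage (fun z => U z + c) 0 r = Real.circleAverage U 0 r + c := by
    rw [Real.circleAverage_fun_add hUi (circleIntegrable_const c 0 r), Real.circleAverage_const]
  rw [← h1]
  exact e7_mono_ae hr (e7_integrable hA r) (hUi.add (circleIntegrable_const c 0 r))
    (e7_discrete hA hne) fun z hz => hAU z hz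

/-- the average of the difference -/
private theorem e7_diff {A B : ℂ → ℂ} (hA : Differentiable ℂ A) (hneA : ∃ z, A z ≠ 0)
    (hB : Differentiable ℂ B) (hneB : ∃ z, B z ≠ 0) {U : ℂ → ℝ}
    (hU : Continuous U) {c : ℝ} (hAU : ∀ z, A z ≠ 0 → Real.log ‖A z‖ ≤ U z + c)
    (hBU : ∀ z, B z ≠ 0 → Real.log ‖B z‖ ≤ U z + c) {r : ℝ} (hr : 0 < r) :
    Real.circleAverage (fun z => |Real.log ‖A z‖ - Real.log ‖B z‖|) 0 r ≤
      2 * (Real.circleAverage U 0 r + c) - Real.circleAverage (fun z => Real.log ‖A z‖) 0 r -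
        Real.circleAverage (fun z => Real.log ‖B z‖) 0 r := by
  have hUi : CircleIntegrable U 0 r := hU.continuousOn.circleIntegrable'
  have hAi := e7_integrable hA r
  have hBi := e7_integrable hB r
  have hUc : CircleIntegrable (fun z => U z + c) 0 r := hUi.add (circleIntegrable_const c 0 r)
  have h1 : Real.circleAverage (fun z => U z + c) 0 r = Real.circleAverage U 0 r + c := by
    rw [Real.circleAverage_fun_add hUi (circleIntegrable_const c 0 r), Real.circleAverage_const]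
  have hI1 : CircleIntegrable (fun z => (U z + c) + (U z + c)) 0 r := hUc.add hUc
  have hI2 : CircleIntegrable (fun z => (U z + c) + (U z + c) - Real.log ‖A z‖) 0 r := hI1.sub hAi
  have hI3 : CircleIntegrable (fun z => (U z + c) + (U z + c) - Real.log ‖A z‖ -
    Real.log ‖B z‖) 0 r := hI2.sub hBi
  have h2 : Real.circleAverage (fun z => (U z + c) + (U z + c) - Real.log ‖A z‖ -
      Real.log ‖B z‖) 0 r = 2 * (Real.circleAverage U 0 r + c) -
        Real.circleAverage (fun z => Real.log ‖A z‖) 0 r -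
        Real.circleAverage (fun z => Real.log ‖B z‖) 0 r := by
    rw [Real.circleAverage_fun_sub hI2 hBi, Real.circleAverage_fun_sub hI1 hAi,
      Real.circleAverage_fun_add hUc hUc, h1]
    ring
  rw [← h2]
  refine e7_mono_ae hr (hAi.sub hBi).abs hI3 (S := {z | A z = 0} ∪ {z | B z = 0}) ?_ ?_
  · intro z₁
    filter_upwards [e7_discrete hA hneA z₁, e7_discrete hB hneB z₁] with z h1 h2 h3
    exact h3.elim h1 h2
  · intro z hz
    have h3 := hAU z fun h => hz (Or.inl h)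
    have h4 := hBU z fun h => hz (Or.inr h)
    rw [abs_le]
    constructor <;> linarith

/-- the elementary estimate at the end -/
private theorem e7_numbers {K Φ r ρ avg zA zB η : ℝ} (hK : 1 ≤ K) (hΦ : 1 ≤ Φ) (hr : 1 ≤ r)
    (hρ : ρ = r + 1 / (2 * Φ)) (havg : avg ≤ 10 * K * Φ) (hzA : 0 ≤ zA) (hzB : 0 ≤ zB)
    (hzA' : zA ≤ 20 * K * Φ ^ 2 * r) (hzB' : zB ≤ 20 * K * Φ ^ 2 * r)
    (hη : η = 1 / (1 + zA + zB) ^ 2) :
    2 * ρ / (ρ - r) ^ 2 * (avg + 2 * (zA + zB) * Real.log (2 * ρ + 1)) + (zA + zB) / η ≤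
      Real.exp ((6 + Real.log (100000 * K ^ 3)) * (Real.log r + Real.log Φ + 1)) := by
  have hΦ0 : 0 < Φ := by linarith
  have hr0 : 0 < r := by linarith
  have hK0 : 0 < K := by linarith
  have hΦ2 : 1 ≤ Φ ^ 2 := one_le_pow₀ hΦ
  have h1 : ρ - r = 1 / (2 * Φ) := by rw [hρ]; ring
  have h2 : ρ ≤ 2 * r := by
    have : 1 / (2 * Φ) ≤ 1 := by
      rw [div_le_one (by positivity)]
      linarith
    linarith
  have hρ0 : 0 < ρ := by
    rw [hρ]
    positivity
  have h3 : Real.log (2 * ρ + 1) ≤ 4 * r := by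
    have := Real.log_le_sub_one_of_pos (show 0 < 2 * ρ + 1 by linarith)
    linarith
  have h3' : 0 ≤ Real.log (2 * ρ + 1) := Real.log_nonneg (by linarith)
  have h4 : avg + 2 * (zA + zB) * Real.log (2 * ρ + 1) ≤ 330 * K * Φ ^ 2 * r ^ 2 := by
    have h5 : 2 * (zA + zB) * Real.log (2 * ρ + 1) ≤ 2 * (40 * K * Φ ^ 2 * r) * (4 * r) := by
      apply mul_le_mul _ h3 h3' (by positivity)
      linarith
    have h6 : 10 * K * Φ ≤ 10 * K * Φ ^ 2 * r ^ 2 := by
      have h7 : Φ ≤ Φ ^ 2 * r ^ 2 := by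
        have h8 : 1 ≤ r ^ 2 := one_le_pow₀ hr
        nlinarith
      nlinarith
    nlinarith
  have h5 : 2 * ρ / (ρ - r) ^ 2 ≤ 16 * r * Φ ^ 2 := by
    rw [h1]
    have : 2 * ρ / (1 / (2 * Φ)) ^ 2 = 8 * ρ * Φ ^ 2 := by
      field_simp
      ring
    rw [this]
    nlinarith
  have h5' : 0 ≤ 2 * ρ / (ρ - r) ^ 2 := by positivity
  have h6 : 2 * ρ / (ρ - r) ^ 2 * (avg + 2 * (zA + zB) * Real.log (2 * ρ + 1)) ≤
      (16 * r * Φ ^ 2) * (330 * K * Φ ^ 2 * r ^ 2) :=
    (mul_le_mul_of_nonneg_left h4 h5').trans (mul_le_mul_of_nonneg_right h5 (by positivity))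
  have h7 : (zA + zB) / η ≤ (40 * K * Φ ^ 2 * r) * (41 * K * Φ ^ 2 * r) ^ 2 := by
    have h8 : (zA + zB) / η = (zA + zB) * (1 + zA + zB) ^ 2 := by
      rw [hη]
      have : 1 + zA + zB ≠ 0 := by positivity
      field_simp
    rw [h8]
    have h9 : 1 ≤ K * Φ ^ 2 * r := by
      have h10 : 1 ≤ K * Φ ^ 2 := by nlinarith
      nlinarith
    apply mul_le_mul _ _ (by positivity) (by positivity)
    · linarith
    · apply pow_le_pow_left₀ (by positivity)
      linarith
  have h8 : 2 * ρ / (ρ - r) ^ 2 * (avg + 2 * (zA + zB) * Real.log (2 * ρ + 1)) + (zA + zB) / η ≤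
      100000 * K ^ 3 * (Φ ^ 6 * r ^ 3) := by
    refine (add_le_add h6 h7).trans ?_
    have hK3 : K ≤ K ^ 3 := by nlinarith [one_le_pow₀ hK (n := 2)]
    have hΦ6 : Φ ^ 4 ≤ Φ ^ 6 := pow_le_pow_right₀ hΦ (by norm_num)
    have h9 : K * (Φ ^ 4 * r ^ 3) ≤ K ^ 3 * (Φ ^ 6 * r ^ 3) := by
      apply mul_le_mul hK3 _ (by positivity) (by positivity)
      exact mul_le_mul_of_nonneg_right hΦ6 (by positivity)
    have h10 : (16 * r * Φ ^ 2) * (330 * K * Φ ^ 2 * r ^ 2) = 5280 * (K * (Φ ^ 4 * r ^ 3)) := by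
      ring
    have h11 : (40 * K * Φ ^ 2 * r) * (41 * K * Φ ^ 2 * r) ^ 2 =
        67240 * (K ^ 3 * (Φ ^ 6 * r ^ 3)) := by
      ring
    have h12 : 0 ≤ K ^ 3 * (Φ ^ 6 * r ^ 3) := by positivity
    rw [h10, h11]
    nlinarith
  refine h8.trans ?_
  have hlogr : 0 ≤ Real.log r := Real.log_nonneg hr
  have hlogΦ : 0 ≤ Real.log Φ := Real.log_nonneg hΦ
  have hlogK : 0 ≤ Real.log (100000 * K ^ 3) := by
    apply Real.log_nonneg
    have : 1 ≤ K ^ 3 := one_le_pow₀ hK
    linarith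
  have h13 : Real.log (Φ ^ 6 * r ^ 3) = 6 * Real.log Φ + 3 * Real.log r := by
    rw [Real.log_mul (by positivity) (by positivity), Real.log_pow, Real.log_pow]
    push_cast
    ring
  rw [← Real.log_le_iff_le_exp (by positivity),
    Real.log_mul (show 100000 * K ^ 3 ≠ 0 by positivity) (by positivity), h13]
  nlinarith [mul_nonneg hlogK hlogr, mul_nonneg hlogK hlogΦ]

theorem logDeriv_family {ι : Type} [Finite ι] {A : ι → ℂ → ℂ} (hA : ∀ x, Differentiable ℂ (A x))
    (hA0 : ∀ x, ∃ z, A x z ≠ 0) {U : ℂ → ℝ} (hU : Continuous U) {c : ℝ}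
    (hAU : ∀ x z, A x z ≠ 0 → Real.log ‖A x z‖ ≤ U z + c) {Φ : ℝ → ℝ}
    (hΦ : MonotoneOn Φ (Set.Ici 1)) (h1 : ∀ r, 1 ≤ r → 1 ≤ Φ r)
    (hUΦ : ∀ r, 1 ≤ r → |Real.circleAverage U 0 r| ≤ Φ r) :
    ∃ (C : ℝ) (E : Set ℝ), volume E < ⊤ ∧ ∀ r, 1 ≤ r → r ∉ E → ∀ z : ℂ, ‖z‖ = r →
      (∀ x, A x z ≠ 0) ∧ ∀ x x', ‖deriv (A x) z / A x z - deriv (A x') z / A x' z‖ ≤
        Real.exp (C * (Real.log r + Real.log (Φ r) + 1)) := by
  classical
  have := Fintype.ofFinite ι
  choose E₁ hE₁ hE₁' using fun x => sep_set (zeros_finite (hA x) (hA0 x))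
  obtain ⟨E₂, hE₂, hE₂'⟩ := borel_growth hΦ h1
  choose C₁ hC₁ using fun x => average_ge (hA x) (hA0 x)
  choose C₂ hC₂ using fun x => zc_bound (hA x) (hA0 x)
  set K : ℝ := 1 + |c| + ∑ x, (|C₁ x| + |C₂ x|) with hK
  have hsum0 : 0 ≤ ∑ x, (|C₁ x| + |C₂ x|) := Finset.sum_nonneg fun x _ => by positivity
  have hK1 : 1 ≤ K := by
    have := abs_nonneg c
    linarith
  have hKx : ∀ x, |c| ≤ K ∧ |C₁ x| ≤ K ∧ |C₂ x| ≤ K := by
    intro x
    have h2 : |C₁ x| + |C₂ x| ≤ ∑ x, (|C₁ x| + |C₂ x|) :=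
      Finset.single_le_sum (f := fun x => |C₁ x| + |C₂ x|) (fun x _ => by positivity)
        (Finset.mem_univ x)
    have h3 := abs_nonneg c
    have h4 := abs_nonneg (C₁ x)
    have h5 := abs_nonneg (C₂ x)
    refine ⟨?_, ?_, ?_⟩ <;> linarith
  refine ⟨6 + Real.log (100000 * K ^ 3), (⋃ x, E₁ x) ∪ E₂, ?_, ?_⟩
  · refine (measure_union_le _ _).trans_lt (ENNReal.add_lt_top.mpr ⟨?_, hE₂⟩)
    refine (measure_iUnion_fintype_le _ _).trans_lt (ENNReal.sum_lt_top.mpr fun x _ => hE₁ x)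
  · intro r hr hrE z hz
    have hrE₁ : ∀ x, r ∉ E₁ x := fun x h => hrE (Or.inl (Set.mem_iUnion.mpr ⟨x, h⟩))
    have hrE₂ : r ∉ E₂ := fun h => hrE (Or.inr h)
    have hΦr := h1 r hr
    have hΦ0 : 0 < Φ r := by linarith
    have hr0 : 0 < r := by linarith
    constructor
    · intro x hx
      have h2 := hE₁' x r (hrE₁ x) r z hx hz.le
      rw [hz, sub_self, abs_zero] at h2
      have h3 : 0 < 1 / (1 + ((({z | A x z = 0} ∩ Metric.closedBall 0 r).ncard : ℕ) : ℝ)) ^ 2 := by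
        positivity
      linarith
    · set ρ : ℝ := r + 1 / (2 * Φ r) with hρ
      set ρ' : ℝ := r + 1 / Φ r with hρ'
      have hrρ : r < ρ := by
        rw [hρ]
        have : 0 < 1 / (2 * Φ r) := by positivity
        linarith
      have hρρ' : ρ < ρ' := by
        have h2 : 1 / (2 * Φ r) < 1 / Φ r := by
          apply one_div_lt_one_div_of_lt hΦ0
          linarith
        linarith
      have h1ρ : 1 ≤ ρ := by linarith
      have h1ρ' : 1 ≤ ρ' := by linarith
      have hρ0 : 0 < ρ := by linarith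
      have hρ'0 : 0 < ρ' := by linarith
      have hΦρ' : Φ ρ' ≤ 3 * Φ r := hE₂' r hr hrE₂
      have hΦρ : Φ ρ ≤ 3 * Φ r := (hΦ (Set.mem_Ici.mpr h1ρ) (Set.mem_Ici.mpr h1ρ') hρρ'.le).trans hΦρ'
      have hUρ' : Real.circleAverage U 0 ρ' ≤ 3 * Φ r :=
        (le_abs_self _).trans ((hUΦ ρ' h1ρ').trans hΦρ')
      have hUρ : Real.circleAverage U 0 ρ ≤ 3 * Φ r :=
        (le_abs_self _).trans ((hUΦ ρ h1ρ).trans hΦρ)
      have hzc0 : ∀ x, 0 ≤ zc (A x) ρ := by
        intro x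
        unfold zc
        refine finsum_nonneg fun a => finsum_nonneg fun _ => by positivity
      have hlog : 1 / (4 * Φ r * r) ≤ Real.log (ρ' / ρ) := by
        have h2 := Real.one_sub_inv_le_log_of_pos (div_pos hρ'0 hρ0)
        refine le_trans ?_ h2
        rw [inv_div]
        have h3 : 1 - ρ / ρ' = (ρ' - ρ) / ρ' := by
          field_simp
        rw [h3, div_le_div_iff₀ (by positivity) hρ'0]
        have h4 : ρ' - ρ = 1 / (2 * Φ r) := by
          rw [hρ, hρ']
          field_simp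
          ring
        rw [h4]
        have h5 : 1 / (2 * Φ r) * (4 * Φ r * r) = 2 * r := by
          field_simp
          ring
        rw [h5, one_mul, hρ']
        have h6 : 1 / Φ r ≤ 1 := by
          rw [div_le_one hΦ0]
          exact hΦr
        linarith
      have hzc : ∀ x, zc (A x) ρ ≤ 20 * K * Φ r ^ 2 * r := by
        intro x
        obtain ⟨hc', hC1', hC2'⟩ := hKx x
        have h2 := hC₂ x ρ ρ' h1ρ hρρ'
        have h3 := e7_upper (hA x) (hA0 x) hU (hAU x) hρ'0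
        have h4 : zc (A x) ρ * Real.log (ρ' / ρ) ≤ 5 * K * Φ r := by
          have h5 := le_abs_self c
          have h6 := le_abs_self (C₂ x)
          nlinarith
        have h5 : zc (A x) ρ * (1 / (4 * Φ r * r)) ≤ 5 * K * Φ r :=
          (mul_le_mul_of_nonneg_left hlog (hzc0 x)).trans h4
        have h6 : zc (A x) ρ = zc (A x) ρ * (1 / (4 * Φ r * r)) * (4 * Φ r * r) := by
          field_simp
        rw [h6]
        calc zc (A x) ρ * (1 / (4 * Φ r * r)) * (4 * Φ r * r)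
            ≤ 5 * K * Φ r * (4 * Φ r * r) := mul_le_mul_of_nonneg_right h5 (by positivity)
          _ = 20 * K * Φ r ^ 2 * r := by ring
      intro x x'
      have hη : 0 < 1 / (1 + zc (A x) ρ + zc (A x') ρ) ^ 2 := by
        have := hzc0 x
        have := hzc0 x'
        positivity
      have hsep : ∀ a : ℂ, ‖a‖ ≤ ρ → (A x a = 0 ∨ A x' a = 0) →
          1 / (1 + zc (A x) ρ + zc (A x') ρ) ^ 2 ≤ ‖z - a‖ := by
        intro a ha hor
        have hnorm : |r - ‖a‖| ≤ ‖z - a‖ := by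
          rw [← hz]
          exact abs_norm_sub_norm_le z a
        refine le_trans ?_ hnorm
        have hx0 := hzc0 x
        have hx0' := hzc0 x'
        rcases hor with h | h
        · refine le_trans ?_ (hE₁' x r (hrE₁ x) ρ a h ha)
          apply one_div_le_one_div_of_le (by positivity)
          apply pow_le_pow_left₀ (by positivity)
          have := ncard_le_zc (hA x) (hA0 x) ρ
          linarith
        · refine le_trans ?_ (hE₁' x' r (hrE₁ x') ρ a h ha)
          apply one_div_le_one_div_of_le (by positivity)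
          apply pow_le_pow_left₀ (by positivity)
          have := ncard_le_zc (hA x') (hA0 x') ρ
          linarith
      refine (logDeriv_sub_bound (hA x) (hA x') (hA0 x) (hA0 x') hr hrρ hη hz hsep).trans ?_
      refine e7_numbers hK1 hΦr hr hρ ?_ (hzc0 x) (hzc0 x') (hzc x) (hzc x') rfl
      refine (e7_diff (hA x) (hA0 x) (hA x') (hA0 x') hU (hAU x) (hAU x') hρ0).trans ?_
      have h2 := hC₁ x ρ h1ρ
      have h3 := hC₁ x' ρ h1ρ
      obtain ⟨hc', hC1', -⟩ := hKx x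
      obtain ⟨-, hC1'', -⟩ := hKx x'
      have h4 := le_abs_self c
      have h5 := le_abs_self (C₁ x)
      have h6 := le_abs_self (C₁ x')
      nlinarith

end Pool.Agent.Lib.GGL.SM
end

section

/-!
The lemma on the logarithmic derivative along a curve.
-/

open Filter Topology MeasureTheory

namespace Pool.Agent.Lib.GGL.SM

lemma norm_dot_le {M : ℕ} (p y : Fin (M + 1) → ℂ) : ‖p ⬝ᵥ y‖ ≤ (∑ i, ‖p i‖) * ‖y‖ := by
  rw [dotProduct, Finset.sum_mul]
  refine (norm_sum_le _ _).trans (Finset.sum_le_sum fun i _ => ?_)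
  rw [norm_mul]
  gcongr
  exact norm_le_pi_norm y i

theorem curve_logDeriv {M N : ℕ} {Y : ℂ → Fin (M + 1) → ℂ} (hY : Differentiable ℂ Y)
    (h0 : ∀ z, Y z ≠ 0) (p : Fin N → Fin (M + 1) → ℂ) :
    ∃ (C : ℝ) (E : Set ℝ), 0 ≤ C ∧ volume E < ⊤ ∧ ∀ r, 1 ≤ r → r ∉ E → ∀ z : ℂ, ‖z‖ = r →
      (∀ i i', (∃ z', Y z' i ≠ 0) → (∃ z', Y z' i' ≠ 0) →
        ‖deriv Y z i / Y z i - deriv Y z i' / Y z i'‖ ≤
          Real.exp (C * (Real.log r + Real.posLog (height Y r) + 1))) ∧
      ∀ i j, (∃ z', Y z' i ≠ 0) → (∃ z', p j ⬝ᵥ Y z' ≠ 0) →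
        ‖(p j ⬝ᵥ deriv Y z) / (p j ⬝ᵥ Y z) - deriv Y z i / Y z i‖ ≤
          Real.exp (C * (Real.log r + Real.posLog (height Y r) + 1)) := by
  classical
  obtain ⟨Φ, C₁, hΦm, hΦ⟩ := height_comparison hY h0
  -- the family
  obtain ⟨fam, hfam⟩ : ∃ fam : Fin (M + 1) ⊕ Fin N → ℂ → ℂ, fam =
    Sum.elim (fun i z => Y z i) (fun j z => p j ⬝ᵥ Y z) := ⟨_, rfl⟩
  have hYd : ∀ i, Differentiable ℂ fun z => Y z i := fun i => (differentiable_pi.mp hY) i
  have hdot : ∀ j, Differentiable ℂ fun z => p j ⬝ᵥ Y z := by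
    intro j
    unfold dotProduct
    exact Differentiable.fun_sum fun i _ => (hYd i).const_mul _
  have hfamd : ∀ x, Differentiable ℂ (fam x) := by
    rw [hfam]
    rintro (i | j)
    · exact hYd i
    · exact hdot j
  have hcont : Continuous fun z => Real.log ‖Y z‖ :=
    (hY.continuous.norm).log fun z => norm_ne_zero_iff.mpr (h0 z)
  have hbound : ∃ c : ℝ, ∀ x z, fam x z ≠ 0 → Real.log ‖fam x z‖ ≤ Real.log ‖Y z‖ + c := by
    refine ⟨∑ j, Real.log (1 + ∑ i, ‖p j i‖), ?_⟩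
    have hpos : ∀ j, 0 ≤ Real.log (1 + ∑ i, ‖p j i‖) := fun j =>
      Real.log_nonneg (by
        have : 0 ≤ ∑ i, ‖p j i‖ := Finset.sum_nonneg fun i _ => norm_nonneg _
        linarith)
    have hYpos : ∀ z, 0 < ‖Y z‖ := fun z => norm_pos_iff.mpr (h0 z)
    rintro (i | j) z hz
    · have h1 : Real.log ‖fam (Sum.inl i) z‖ ≤ Real.log ‖Y z‖ := by
        apply Real.log_le_log (norm_pos_iff.mpr hz)
        rw [hfam]
        exact norm_le_pi_norm (Y z) i
      have h2 : 0 ≤ ∑ j, Real.log (1 + ∑ i, ‖p j i‖) := Finset.sum_nonneg fun j _ => hpos j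
      linarith
    · have h1 : Real.log ‖fam (Sum.inr j) z‖ ≤ Real.log ((1 + ∑ i, ‖p j i‖) * ‖Y z‖) := by
        apply Real.log_le_log (norm_pos_iff.mpr hz)
        have h3 : ‖fam (Sum.inr j) z‖ ≤ (∑ i, ‖p j i‖) * ‖Y z‖ := by
          rw [hfam]
          exact norm_dot_le _ _
        have := hYpos z
        nlinarith
      have h0' : 0 ≤ ∑ i, ‖p j i‖ := Finset.sum_nonneg fun i _ => norm_nonneg _
      rw [Real.log_mul (by linarith) (hYpos z).ne'] at h1
      have h2 : Real.log (1 + ∑ i, ‖p j i‖) ≤ ∑ j, Real.log (1 + ∑ i, ‖p j i‖) :=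
        Finset.single_le_sum (f := fun j => Real.log (1 + ∑ i, ‖p j i‖)) (fun j _ => hpos j)
          (Finset.mem_univ j)
      linarith
  obtain ⟨c, hc⟩ := hbound
  obtain ⟨C₂, E, hE, hmain⟩ := logDeriv_family (ι := {x // ∃ z, fam x z ≠ 0})
    (A := fun x => fam x.1) (fun x => hfamd x.1) (fun x => x.2) hcont (c := c)
    (fun x z hz => hc x.1 z hz) hΦm (fun r hr => (hΦ r hr).1) (fun r hr => (hΦ r hr).2.1)
  -- the constants
  have hC₁ : 1 ≤ |C₁| * (|height Y 1| + 1) := by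
    have h1 := (hΦ 1 le_rfl).1
    have h2 := (hΦ 1 le_rfl).2.2
    have h3 : C₁ * (|height Y 1| + 1) ≤ |C₁| * (|height Y 1| + 1) := by
      gcongr
      exact le_abs_self _
    linarith
  have hC₁0 : 0 < |C₁| := by
    by_contra h
    have : |C₁| = 0 := le_antisymm (not_lt.mp h) (abs_nonneg _)
    rw [this, zero_mul] at hC₁
    linarith
  obtain ⟨C₃, hC₃⟩ : ∃ C₃ : ℝ, C₃ = |Real.log (|C₁|)| + Real.log 2 := ⟨_, rfl⟩
  have hlog2 : 0 ≤ Real.log 2 := Real.log_nonneg (by norm_num)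
  have hC₃0 : 0 ≤ C₃ := by rw [hC₃]; positivity
  have hlogΦ : ∀ r, 1 ≤ r → Real.log (Φ r) ≤ C₃ + Real.posLog (height Y r) := by
    intro r hr
    obtain ⟨h1, -, h3⟩ := hΦ r hr
    have h4 : Φ r ≤ |C₁| * (|height Y r| + 1) := h3.trans (by gcongr; exact le_abs_self _)
    have h5 : Real.log (Φ r) ≤ Real.log (|C₁| * (|height Y r| + 1)) :=
      Real.log_le_log (by linarith) h4
    rw [Real.log_mul hC₁0.ne' (by positivity)] at h5
    have h6 : Real.log (|height Y r| + 1) ≤ Real.log 2 + Real.posLog (height Y r) := by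
      rcases le_total (|height Y r|) 1 with h | h
      · have : Real.log (|height Y r| + 1) ≤ Real.log 2 :=
          Real.log_le_log (by positivity) (by linarith)
        have := Real.posLog_nonneg (x := height Y r)
        linarith
      · have h7 : Real.log (|height Y r| + 1) ≤ Real.log (2 * |height Y r|) :=
          Real.log_le_log (by positivity) (by linarith)
        rw [Real.log_mul two_ne_zero (by linarith), Real.log_abs] at h7
        have : Real.log (height Y r) ≤ Real.posLog (height Y r) := le_max_right _ _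
        linarith
    have h7 := le_abs_self (Real.log (|C₁|))
    rw [hC₃]
    linarith
  refine ⟨|C₂| * (C₃ + 1), E, by positivity, hE, ?_⟩
  intro r hr hrE z hz
  obtain ⟨-, h2⟩ := hmain r hr hrE z hz
  have hexp : Real.exp (C₂ * (Real.log r + Real.log (Φ r) + 1)) ≤
      Real.exp (|C₂| * (C₃ + 1) * (Real.log r + Real.posLog (height Y r) + 1)) := by
    apply Real.exp_le_exp.mpr
    have h3 : 0 ≤ Real.log r := Real.log_nonneg hr
    have h4 : 0 ≤ Real.log (Φ r) := Real.log_nonneg (hΦ r hr).1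
    have h5 : 0 ≤ Real.posLog (height Y r) := Real.posLog_nonneg
    have h6 := hlogΦ r hr
    calc C₂ * (Real.log r + Real.log (Φ r) + 1) ≤ |C₂| * (Real.log r + Real.log (Φ r) + 1) := by
          gcongr
          exact le_abs_self _
      _ ≤ |C₂| * ((C₃ + 1) * (Real.log r + Real.posLog (height Y r) + 1)) := by
          gcongr
          nlinarith
      _ = _ := by ring
  have hderY : ∀ i, deriv (fun z => Y z i) z = deriv Y z i := by
    intro i
    exact ((hasDerivAt_pi.mp (hY z).hasDerivAt) i).deriv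
  have hderp : ∀ j, deriv (fun z => p j ⬝ᵥ Y z) z = p j ⬝ᵥ deriv Y z := by
    intro j
    have h3 : HasDerivAt (fun z => ∑ i, p j i * Y z i) (∑ i, p j i * deriv Y z i) z :=
      HasDerivAt.fun_sum fun i _ => ((hasDerivAt_pi.mp (hY z).hasDerivAt) i).const_mul _
    exact h3.deriv
  constructor
  · intro i i' hi hi'
    have hi1 : ∃ z, fam (Sum.inl i) z ≠ 0 := by rw [hfam]; exact hi
    have hi2 : ∃ z, fam (Sum.inl i') z ≠ 0 := by rw [hfam]; exact hi'
    have h3 := h2 ⟨Sum.inl i, hi1⟩ ⟨Sum.inl i', hi2⟩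
    simp only [hfam, Sum.elim_inl] at h3
    rw [hderY, hderY] at h3
    exact h3.trans hexp
  · intro i j hi hj
    have hi1 : ∃ z, fam (Sum.inl i) z ≠ 0 := by rw [hfam]; exact hi
    have hi2 : ∃ z, fam (Sum.inr j) z ≠ 0 := by rw [hfam]; exact hj
    have h3 := h2 ⟨Sum.inr j, hi2⟩ ⟨Sum.inl i, hi1⟩
    simp only [hfam, Sum.elim_inl, Sum.elim_inr] at h3
    rw [hderY, hderp] at h3
    exact h3.trans hexp

end Pool.Agent.Lib.GGL.SM
end
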