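import Mathlib
import Pool.Agent.Lib.MP_8d161d_ag.SM.Defs

section

/-!
Averaging over the blocks, and the numbers.
-/

open Filter Topology MvPolynomial Module

namespace Pool.Agent.Lib.GGL.SM

theorem final_numbers_aux {K u N N₁ Q R σ t T P S : ℝ} (hK : 7 ≤ K) (hn1 : 1 ≤ u) (hR : 1 ≤ R)
    (hNr : 10 * K ^ 3 * u ≤ N) (hN' : N = N₁ + 2 * u) (hN₁ : 0 ≤ N₁) (hQ : Q = 8 * K ^ 3 * u)
    (hs : σ = t + 3 * (Q * R)) (hs1 : (K - 1) * (Q * R) < σ)
    (hP : 0 ≤ P) (hS : 0 ≤ S) (hT : 0 ≤ T)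
    (h : N₁ * ((t - 2 * (2 * u * (2 * K * R))) * T - S) ≤ (Q * (2 * K * R) - σ) * P) :
    (1 - 5 / K) * N * T ≤ P + N * S := by
  have hK0 : 0 < K := by linarith
  have hu0 : 0 < u := by linarith
  have hR0 : 0 < R := by linarith
  have hQ0 : 0 < Q := by
    rw [hQ]
    positivity
  have hm : 0 < Q * R := by positivity
  have hA : ((K - 4) * (Q * R) - 8 * K * u * R) * T ≤
      ((t - 2 * (2 * u * (2 * K * R)))) * T := by
    apply mul_le_mul_of_nonneg_right _ hT
    linarith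
  have h1 : N₁ * ((K - 4) * (Q * R) - 8 * K * u * R) * T ≤
      (Q * (2 * K * R) - σ) * P + N₁ * S := by
    have h2 := mul_le_mul_of_nonneg_left hA hN₁
    linarith
  have h2 : (Q * (2 * K * R) - σ) * P ≤ (K + 1) * (Q * R) * P := by
    apply mul_le_mul_of_nonneg_right _ hP
    linarith
  have h3 : N₁ * S ≤ (K + 1) * (Q * R) * (N * S) := by
    have h4 : N₁ * S ≤ N * S := mul_le_mul_of_nonneg_right (by linarith) hS
    have h5 : 0 ≤ N * S := mul_nonneg (by linarith) hS
    have h6 : 1 ≤ (K + 1) * (Q * R) := by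
      have h7 : 1 ≤ Q := by
        rw [hQ]
        have h9 : (1 : ℝ) ≤ K ^ 3 := one_le_pow₀ (by linarith)
        have h10 : 1 ≤ K ^ 3 * u := one_le_mul_of_one_le_of_one_le h9 hn1
        linarith
      have h8 : 1 ≤ Q * R := one_le_mul_of_one_le_of_one_le h7 hR
      exact one_le_mul_of_one_le_of_one_le (by linarith) h8
    calc N₁ * S ≤ 1 * (N * S) := by linarith
      _ ≤ (K + 1) * (Q * R) * (N * S) := mul_le_mul_of_nonneg_right h6 h5
  have h4 : (K + 1) * (Q * R) * ((1 - 5 / K) * N) ≤ N₁ * ((K - 4) * (Q * R) - 8 * K * u * R) := by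
    have h5 : (K + 1) * (Q * R) * ((1 - 5 / K) * N) =
        8 * K * u * R * ((K ^ 3 - 4 * K ^ 2 - 5 * K) * N) := by
      rw [hQ]
      field_simp
      ring
    have h6 : N₁ * ((K - 4) * (Q * R) - 8 * K * u * R) =
        8 * K * u * R * ((K ^ 3 - 4 * K ^ 2 - 1) * (N - 2 * u)) := by
      rw [hQ, hN']
      ring
    rw [h5, h6]
    apply mul_le_mul_of_nonneg_left _ (by positivity)
    have h8 : u * (K ^ 3 - 4 * K ^ 2 - 1) ≤ u * K ^ 3 := by
      apply mul_le_mul_of_nonneg_left _ hu0.le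
      have := sq_nonneg K
      linarith
    have h11 : 0 < K ^ 3 * u := by positivity
    have h10 : 0 ≤ N := by linarith
    have h9 : 1 * N ≤ (5 * K - 1) * N := by
      apply mul_le_mul_of_nonneg_right _ h10
      linarith
    nlinarith [h8, h11, h9, hNr]
  have h5 : (K + 1) * (Q * R) * ((1 - 5 / K) * N * T) ≤ (K + 1) * (Q * R) * (P + N * S) := by
    have h6 := mul_le_mul_of_nonneg_right h4 hT
    have h7 : (K + 1) * (Q * R) * ((1 - 5 / K) * N * T) =
      (K + 1) * (Q * R) * ((1 - 5 / K) * N) * T := by ring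
    rw [h7]
    linarith
  exact le_of_mul_le_mul_left h5 (by positivity)

/-- The numbers. -/
theorem final_numbers {k n N N' q r τ s : ℕ} (hk : 7 ≤ k) (hq : q = 8 * k ^ 3 * (n + 1))
    (hN : 10 * k ^ 3 * (n + 1) ≤ N) (hN' : N = N' + 2 * (n + 1)) (hr : 1 ≤ r)
    (hs : s = τ + 3 * (q * r)) (hs1 : (k - 1) * (q * r) < s) (hs2 : s ≤ q * (2 * k * r)) 
    {T P S : ℝ} (hP : 0 ≤ P) (hS : 0 ≤ S)
    (h : N' * (((τ : ℝ) - ((2 * ((2 * (n + 1)) * (2 * k * r)) : ℕ) : ℝ)) * T - S) ≤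
      (((q * (2 * k * r) : ℕ) : ℝ) - (s : ℝ)) * P) :
    (1 - 5 / (k : ℝ)) * N * T ≤ P + N * S := by
  have hK : (7 : ℝ) ≤ k := by exact_mod_cast hk
  rcases lt_or_ge T 0 with hT | hT
  · have h1 : 0 ≤ (1 - 5 / (k : ℝ)) := by
      rw [sub_nonneg, div_le_one (by linarith)]
      linarith
    have h2 : (1 - 5 / (k : ℝ)) * N * T ≤ 0 :=
      mul_nonpos_of_nonneg_of_nonpos (mul_nonneg h1 (Nat.cast_nonneg _)) hT.le
    have h3 : 0 ≤ P + N * S := add_nonneg hP (mul_nonneg (Nat.cast_nonneg _) hS)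
    linarith
  have hn1 : (1 : ℝ) ≤ (n : ℝ) + 1 := by
    have := Nat.cast_nonneg (α := ℝ) n
    linarith
  have hs1r : ((k : ℝ) - 1) * (q * r) < s := by
    have h1 : (((k - 1) * (q * r) : ℕ) : ℝ) < s := by exact_mod_cast hs1
    rw [Nat.cast_mul, Nat.cast_sub (by omega), Nat.cast_one, Nat.cast_mul] at h1
    exact h1
  push_cast at h
  exact final_numbers_aux (K := (k : ℝ)) (u := (n : ℝ) + 1) (R := (r : ℝ)) (N₁ := (N' : ℝ))
    (Q := (q : ℝ)) (σ := (s : ℝ)) (t := (τ : ℝ)) hK hn1 (by exact_mod_cast hr)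
    (by exact_mod_cast hN) (by exact_mod_cast hN') (Nat.cast_nonneg _) (by exact_mod_cast hq)
    (by exact_mod_cast hs) hs1r hP hS hT h

end Pool.Agent.Lib.GGL.SM
end

section

/-!
Averaging over the blocks, and the numbers.
-/

open Filter Topology MvPolynomial Module

namespace Pool.Agent.Lib.GGL.SM

/-- Averaging over cyclic shifts. -/
theorem average_shifts {q N' : ℕ} (hq : 1 ≤ q) (hqN : q ≤ N') (a : Fin q → ℝ) (x : Fin N' → ℝ)
    {t : ℝ} (h : ∀ e : Fin q ↪ Fin N', t ≤ ∑ j, a j * x (e j)) :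
    N' * t ≤ (∑ j, a j) * ∑ i, x i := by
  have hN : NeZero N' := ⟨by omega⟩
  let e : Fin N' → (Fin q ↪ Fin N') := fun s =>
    ⟨fun j => Fin.castLE hqN j + s, fun j j' hjj => by
      have h1 : Fin.castLE hqN j = Fin.castLE hqN j' := add_right_cancel hjj
      exact Fin.castLE_injective hqN h1⟩
  have h1 : ∑ _s : Fin N', t ≤ ∑ s : Fin N', ∑ j, a j * x (e s j) :=
    Finset.sum_le_sum fun s _ => h (e s)
  have h2 : ∑ s : Fin N', ∑ j, a j * x (e s j) = (∑ j, a j) * ∑ i, x i := by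
    rw [Finset.sum_comm, Finset.sum_mul]
    refine Finset.sum_congr rfl fun j _ => ?_
    rw [← Finset.mul_sum]
    congr 1
    exact Equiv.sum_comp (Equiv.addLeft (Fin.castLE hqN j)) x
  rw [h2] at h1
  simpa using h1

end Pool.Agent.Lib.GGL.SM
end

section

/-!
The theorem of Weierstrass: entire functions with prescribed zeros.
-/

open Filter Topology

namespace Pool.Agent.Lib.GGL.SM

/-- the Weierstrass factor -/
noncomputable def w1_E (m : ℕ) (w : ℂ) : ℂ := (1 + w) * Complex.exp (-(Complex.logTaylor (m + 1) w))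

theorem w1_logTaylor_diff (m : ℕ) : Differentiable ℂ (Complex.logTaylor (m + 1)) := fun z =>
  (Complex.hasDerivAt_logTaylor m z).differentiableAt

theorem w1_E_diff (m : ℕ) : Differentiable ℂ (w1_E m) := by
  unfold w1_E
  exact (differentiable_id.const_add 1).mul (w1_logTaylor_diff m).neg.cexp

theorem w1_E_bound (k e : ℕ) {w : ℂ} (hw : ‖w‖ ≤ 1 / 2) :
    ‖(w1_E (k + e + 1) w) ^ k - 1‖ ≤ (1 / 2 : ℝ) ^ e := by
  set m := k + e + 1 with hm
  have h1w : (1 : ℂ) + w ≠ 0 := by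
    intro h
    have : w = -1 := by linear_combination h
    rw [this] at hw
    norm_num at hw
  have h2 := Complex.norm_log_sub_logTaylor_le m (z := w) (by linarith)
  set L := Complex.log (1 + w) - Complex.logTaylor (m + 1) w with hL
  have h3 : (w1_E m w) ^ k = Complex.exp (k * L) := by
    rw [Complex.exp_nat_mul, hL, Complex.exp_sub, Complex.exp_log h1w, w1_E, Complex.exp_neg]
    rfl
  have h4 : ‖L‖ ≤ (1 / 2 : ℝ) ^ m := by
    refine h2.trans ?_
    have h5 : (1 - ‖w‖)⁻¹ ≤ 2 := by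
      rw [inv_le_comm₀ (by linarith) (by norm_num)]
      linarith
    have h6 : ‖w‖ ^ (m + 1) ≤ (1 / 2 : ℝ) ^ (m + 1) := pow_le_pow_left₀ (norm_nonneg _) hw _
    have h7 : (1 : ℝ) ≤ (m : ℝ) + 1 := by
      have : (0 : ℝ) ≤ m := Nat.cast_nonneg m
      linarith
    have h8 : ‖w‖ ^ (m + 1) * (1 - ‖w‖)⁻¹ ≤ (1 / 2 : ℝ) ^ (m + 1) * 2 := by
      apply mul_le_mul h6 h5
      · rw [inv_nonneg]; linarith
      · positivity
    calc ‖w‖ ^ (m + 1) * (1 - ‖w‖)⁻¹ / ((m : ℝ) + 1) ≤ ‖w‖ ^ (m + 1) * (1 - ‖w‖)⁻¹ := by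
          apply div_le_self _ h7
          apply mul_nonneg (by positivity)
          rw [inv_nonneg]; linarith
      _ ≤ (1 / 2 : ℝ) ^ (m + 1) * 2 := h8
      _ = (1 / 2 : ℝ) ^ m := by rw [pow_succ]; ring
  have h9 : ‖(k : ℂ) * L‖ ≤ (1 / 2 : ℝ) ^ (e + 1) := by
    rw [norm_mul, Complex.norm_natCast]
    have h10 : (k : ℝ) ≤ 2 ^ k := by exact_mod_cast (Nat.lt_two_pow_self).le
    calc (k : ℝ) * ‖L‖ ≤ 2 ^ k * (1 / 2 : ℝ) ^ m := by gcongr
      _ = (1 / 2 : ℝ) ^ (e + 1) := by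
        rw [hm, show k + e + 1 = k + (e + 1) by ring, pow_add, ← mul_assoc, ← mul_pow]
        norm_num
  have h11 : (1 / 2 : ℝ) ^ (e + 1) ≤ 1 := pow_le_one₀ (by norm_num) (by norm_num)
  rw [h3]
  calc ‖Complex.exp (k * L) - 1‖ ≤ 2 * ‖(k : ℂ) * L‖ := Complex.norm_exp_sub_one_le (h9.trans h11)
    _ ≤ 2 * (1 / 2 : ℝ) ^ (e + 1) := by gcongr
    _ = (1 / 2 : ℝ) ^ e := by rw [pow_succ]; ring

section prod

variable {ι : Type*} {F : ι → ℂ → ℂ} {u : ι → ℝ}

theorem w1_summable (hu : Summable u)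
    (hb : ∀ R : ℝ, ∀ᶠ i in cofinite, ∀ z, ‖z‖ ≤ R → ‖F i z - 1‖ ≤ u i) (z : ℂ) :
    Summable fun i => ‖F i z - 1‖ := by
  refine hu.of_norm_bounded_eventually ?_
  filter_upwards [hb ‖z‖] with i hi
  rw [norm_norm]
  exact hi z le_rfl

theorem w1_prod_diff (hF : ∀ i, Differentiable ℂ (F i)) (hu : Summable u)
    (hb : ∀ R : ℝ, ∀ᶠ i in cofinite, ∀ z, ‖z‖ ≤ R → ‖F i z - 1‖ ≤ u i) :
    Differentiable ℂ fun z => ∏' i, F i z := by
  intro z₀
  have hopen : IsOpen (Metric.ball (0 : ℂ) (‖z₀‖ + 1)) := Metric.isOpen_ball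
  have h1 := Summable.hasProdLocallyUniformlyOn_one_add (f := fun i z => F i z - 1) hopen hu
    (by
      filter_upwards [hb (‖z₀‖ + 1)] with i hi z hz
      exact hi z (by simpa using (mem_ball_zero_iff.1 hz).le))
    (fun i => ((hF i).continuous.sub continuous_const).continuousOn)
  have h2 := (hasProdLocallyUniformlyOn_iff_tendstoLocallyUniformlyOn.mp h1).differentiableOn
    (Filter.Eventually.of_forall fun s => by
      have : Differentiable ℂ fun z => ∏ i ∈ s, (1 + (F i z - 1)) := by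
        refine Differentiable.fun_finsetProd fun i _ => ?_
        exact ((hF i).sub_const 1).const_add 1
      exact this.differentiableOn) hopen
  have h3 : (fun z => ∏' i, (1 + (F i z - 1))) = fun z => ∏' i, F i z := by
    funext z; congr 1; funext i; ring
  rw [h3] at h2
  exact h2.differentiableAt (hopen.mem_nhds (by simp))

theorem w1_prod_ne_zero (hu : Summable u)
    (hb : ∀ R : ℝ, ∀ᶠ i in cofinite, ∀ z, ‖z‖ ≤ R → ‖F i z - 1‖ ≤ u i) {z : ℂ}
    (hz : ∀ i, F i z ≠ 0) : ∏' i, F i z ≠ 0 := by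
  have h := tprod_one_add_ne_zero_of_summable (f := fun i => F i z - 1)
    (fun i => by simpa using hz i) (w1_summable hu hb z)
  have h3 : (∏' i, (1 + (F i z - 1))) = ∏' i, F i z := by
    congr 1; funext i; ring
  rwa [h3] at h

theorem w1_prod_split [DecidableEq ι] (hu : Summable u)
    (hb : ∀ R : ℝ, ∀ᶠ i in cofinite, ∀ z, ‖z‖ ≤ R → ‖F i z - 1‖ ≤ u i) (b : ι) (z : ℂ) :
    ∏' i, F i z = F b z * ∏' i, (if i = b then 1 else F i z) := by
  have hm : Multipliable (Function.update (fun i => F i z) b 1) := by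
    have h1 : Summable fun i => ‖Function.update (fun i => F i z) b 1 i - 1‖ := by
      refine (w1_summable hu hb z).of_nonneg_of_le (fun _ => norm_nonneg _) fun i => ?_
      rcases eq_or_ne i b with rfl | hib
      · simp
      · simp [Function.update_of_ne hib]
    have h2 := multipliable_one_add_of_summable (f := fun i => Function.update (fun i => F i z) b 1 i - 1) h1
    convert h2 using 1
    funext i; ring
  exact hm.tprod_eq_mul_tprod_ite' b

end prod

theorem exists_entire {D : ℂ → ℕ} (hD : ∀ t : ℝ, {z | D z ≠ 0 ∧ ‖z‖ ≤ t}.Finite) :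
    ∃ w : ℂ → ℂ, Differentiable ℂ w ∧ ∀ z, analyticOrderAt w z = D z := by
  classical
  let ι := {a : ℂ // D a ≠ 0 ∧ a ≠ 0}
  have hcount : Countable ι := by
    have h1 : {a : ℂ | D a ≠ 0 ∧ a ≠ 0} ⊆ ⋃ n : ℕ, {z | D z ≠ 0 ∧ ‖z‖ ≤ n} := by
      rintro a ⟨ha, _⟩
      obtain ⟨n, hn⟩ := exists_nat_ge ‖a‖
      exact Set.mem_iUnion.2 ⟨n, ha, hn⟩
    exact ((Set.countable_iUnion fun n : ℕ => (hD (n : ℝ)).countable).mono h1).to_subtype
  obtain ⟨e, he⟩ := exists_injective_nat ι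
  let F : ι → ℂ → ℂ := fun i z => (w1_E (D i + e i + 1) (-z / i)) ^ D i
  let u : ι → ℝ := fun i => (1 / 2 : ℝ) ^ e i
  have hu : Summable u := (summable_geometric_of_lt_one (by norm_num) (by norm_num)).comp_injective he
  have hF : ∀ i, Differentiable ℂ (F i) := by
    intro i
    exact ((w1_E_diff _).comp (differentiable_id.neg.div_const _)).pow _
  have hb : ∀ R : ℝ, ∀ᶠ i in cofinite, ∀ z, ‖z‖ ≤ R → ‖F i z - 1‖ ≤ u i := by
    intro R
    have hfin : {i : ι | ‖(i : ℂ)‖ ≤ 2 * R}.Finite := by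
      have : {i : ι | ‖(i : ℂ)‖ ≤ 2 * R} = Subtype.val ⁻¹' {z | D z ≠ 0 ∧ ‖z‖ ≤ 2 * R} := by
        ext i
        simp only [Set.mem_ofPred_eq, Set.mem_preimage]
        exact ⟨fun h => ⟨i.2.1, h⟩, fun h => h.2⟩
      rw [this]
      exact (hD (2 * R)).preimage Subtype.val_injective.injOn
    filter_upwards [hfin.compl_mem_cofinite] with i hi z hz
    simp only [Set.mem_compl_iff, Set.mem_ofPred_eq, not_le] at hi
    refine w1_E_bound (D i) (e i) ?_
    have hi0 : 0 < ‖(i : ℂ)‖ := norm_pos_iff.2 i.2.2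
    rw [norm_div, norm_neg, div_le_iff₀ hi0]
    linarith
  have hP := w1_prod_diff hF hu hb
  have hzero : ∀ i : ι, ∀ z : ℂ, z ≠ i → F i z ≠ 0 := by
    intro i z hz
    refine pow_ne_zero _ (mul_ne_zero ?_ (Complex.exp_ne_zero _))
    intro h
    apply hz
    have hi0 := i.2.2
    field_simp at h
    linear_combination -h
  refine ⟨fun z => z ^ D 0 * ∏' i, F i z, (differentiable_id.pow _).mul hP, fun z₀ => ?_⟩
  have hw : Differentiable ℂ (fun z => z ^ D 0 * ∏' i, F i z) := (differentiable_id.pow _).mul hP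
  rw [(hw.analyticAt z₀).analyticOrderAt_eq_natCast]
  rcases eq_or_ne z₀ 0 with rfl | hz₀
  · refine ⟨fun z => ∏' i, F i z, hP.analyticAt 0, ?_, Filter.Eventually.of_forall fun z => by simp⟩
    exact w1_prod_ne_zero hu hb fun i => hzero i 0 (Ne.symm i.2.2)
  · by_cases hDz : D z₀ = 0
    · refine ⟨_, hw.analyticAt z₀, ?_, Filter.Eventually.of_forall fun z => by simp [hDz]⟩
      refine mul_ne_zero (pow_ne_zero _ hz₀) (w1_prod_ne_zero hu hb fun i => hzero i z₀ ?_)
      rintro rfl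
      exact i.2.1 hDz
    · let b : ι := ⟨z₀, hDz, hz₀⟩
      let G : ι → ℂ → ℂ := fun i z => if i = b then 1 else F i z
      have hG : ∀ i, Differentiable ℂ (G i) := by
        intro i
        by_cases hib : i = b
        · simp only [G, hib, if_true]; exact differentiable_const _
        · simp only [G, hib, if_false]; exact hF i
      have hbG : ∀ R : ℝ, ∀ᶠ i in cofinite, ∀ z, ‖z‖ ≤ R → ‖G i z - 1‖ ≤ u i := by
        intro R
        filter_upwards [hb R] with i hi z hz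
        by_cases hib : i = b
        · simp only [G, hib, if_true, sub_self, norm_zero, u]; positivity
        · simp only [G, hib, if_false]; exact hi z hz
      have hQ := w1_prod_diff hG hu hbG
      have hQ0 : ∏' i, G i z₀ ≠ 0 := by
        refine w1_prod_ne_zero hu hbG fun i => ?_
        by_cases hib : i = b
        · simp [G, hib]
        · simp only [G, hib, if_false]
          refine hzero i z₀ fun h => hib (Subtype.ext h.symm)
      let H : ℂ → ℂ := fun z => ((-1 / z₀) * Complex.exp (-(Complex.logTaylor (D z₀ + e b + 1 + 1) (-z / z₀)))) ^ D z₀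
      have hH : Differentiable ℂ H := by
        refine Differentiable.pow (Differentiable.const_mul ?_ _) _
        exact ((w1_logTaylor_diff _).comp (differentiable_id.neg.div_const _)).neg.cexp
      have hH0 : H z₀ ≠ 0 := pow_ne_zero _ (mul_ne_zero (by simpa using hz₀) (Complex.exp_ne_zero _))
      refine ⟨fun z => z ^ D 0 * (H z * ∏' i, G i z), ?_, ?_, Filter.Eventually.of_forall fun z => ?_⟩
      · exact ((differentiable_id.pow _).mul (hH.mul hQ)).analyticAt z₀
      · exact mul_ne_zero (pow_ne_zero _ hz₀) (mul_ne_zero hH0 hQ0)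
      · have h1 : F b z = (z - z₀) ^ D z₀ * H z := by
          simp only [F, H, w1_E, b]
          rw [← mul_pow]
          congr 1
          rw [← mul_assoc]
          congr 1
          field_simp
          ring
        rw [w1_prod_split hu hb b z, h1, smul_eq_mul]
        ring

end Pool.Agent.Lib.GGL.SM
end
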