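import Mathlib
import Pool.Agent.Lib.MP_8d161d_ag.VG.VDefs
import Pool.Agent.Lib.MP_8d161d_ag.Mg.G008
import Pool.Agent.Lib.MP_8d161d_ag.SM.Defs
import Pool.Agent.Lib.MP_8d161d_ag.Mg.G013
import Pool.Agent.Lib.MP_8d161d_ag.Mg.G007
import Pool.Agent.Lib.MP_8d161d_ag.Mg.G015
import Pool.Agent.Lib.MP_8d161d_ag.SM.H1
import Pool.Agent.Lib.MP_8d161d_ag.Mg.G016
import Pool.Agent.Lib.MP_8d161d_ag.Mg.G004

section

/-!
The Noetherian induction.
-/

open Filter Topology MvPolynomial Module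

namespace Pool.Agent.Lib.GGL.VG

lemma constFor_main {n M N : ℕ} (hN : 22 * n + 32 ≤ N)
    (𝔞 : Ideal (MvPolynomial (Fin (M + 1) ⊕ Fin (M + 1)) ℂ)) [𝔞.IsPrime]
    (htr : ∀ (L : Type) [Field L] [Algebra ℂ L] (y Z : Fin (M + 1) → L),
      (∀ G ∈ 𝔞, aeval (Sum.elim y Z) G = 0) → TrdegLE ℂ y (n + 1))
    (hdiff : ∀ f : MvPolynomial (Fin (M + 1)) ℂ, rename Sum.inl f ∈ 𝔞 → diffP f ∈ 𝔞)
    {a₀ b₀ : Fin (M + 1)} (hab : minorP ℂ a₀ b₀ ∉ 𝔞)
    (IH : ∀ 𝔟, 𝔞 < 𝔟 → ConstFor N 𝔟) : ConstFor N 𝔞 := by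
  classical
  obtain ⟨q, hq⟩ : ∃ q, q = 10 * (2 * n + 3) := ⟨_, rfl⟩
  obtain ⟨htrall, K₀, A, B, τ, c, g, Λ, hτ, hdeg, hgood, hhom, ⟨m, hm⟩, hΛ⟩ :=
    exists_lambda 𝔞 htr hdiff hab hq
  obtain ⟨Λ', hΛ'⟩ : ∃ Λ' : MvPolynomial (Fin q × Fin (M + 1))
    (MvPolynomial (Fin (M + 1) ⊕ Fin (M + 1)) ℂ), Λ' = sumAlgEquiv ℂ _ _ Λ := ⟨_, rfl⟩
  rw [← hΛ'] at hm
  obtain ⟨𝔟, h𝔟⟩ : ∃ 𝔟, 𝔟 = 𝔞 ⊔ Ideal.span (Set.range fun m => coeff m Λ') := ⟨_, rfl⟩
  have hlt : 𝔞 < 𝔟 := by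
    rw [h𝔟]
    refine lt_of_le_of_ne le_sup_left ?_
    intro h
    apply hm
    rw [h]
    exact Ideal.mem_sup_right (Ideal.subset_span ⟨m, rfl⟩)
  obtain ⟨Θ₁, hΘ₁, h1⟩ := IH 𝔟 hlt
  obtain ⟨Θ₂, hΘ₂, h2⟩ := dim_count (M := M) (N := N) (q := q) (D := 2 * (n + 1)) (by omega)
    𝔞 htrall Λ
  obtain ⟨Θ₃, hΘ₃, h3⟩ := exists_sep (M := M) (q := q) (D := 2 * (n + 1)) (by omega) 𝔞 htrall
  refine ⟨Θ₁ * Θ₂ * ∏ e : Fin q ↪ Fin N,
    rename (fun x : Fin q × Fin (M + 1) => (e x.1, x.2)) Θ₃, ?_, ?_⟩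
  · refine mul_ne_zero (mul_ne_zero hΘ₁ hΘ₂) ?_
    refine Finset.prod_ne_zero_iff.mpr fun e _ => ?_
    intro h0
    apply hΘ₃
    have hinj : Function.Injective (fun x : Fin q × Fin (M + 1) => (e x.1, x.2)) := by
      rintro ⟨x1, x2⟩ ⟨y1, y2⟩ h
      rw [Prod.mk.injEq] at h ⊢
      exact ⟨e.injective h.1, h.2⟩
    exact rename_injective _ hinj (by rw [h0, map_zero])
  · intro p hp Y hY hjets hord
    rw [map_mul, map_mul, map_prod] at hp
    by_cases hall : ∀ w ∈ jets Y, ∀ m, eval (Sum.elim w.1 w.2) (coeff m Λ') = 0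
    · refine h1 p (left_ne_zero_of_mul (left_ne_zero_of_mul hp)) Y hY (fun w hw => ?_) hord
      rw [h𝔟]
      apply zero_sup (hjets w hw)
      rintro _ ⟨m, rfl⟩
      exact hall w hw m
    · exfalso
      push Not at hall
      obtain ⟨w, hw, m', hm'⟩ := hall
      have hex : ∃ p'' : Fin q × Fin (M + 1) → ℂ,
          eval (Sum.elim p'' (Sum.elim w.1 w.2)) Λ ≠ 0 := by
        by_contra hcon
        push Not at hcon
        apply hm'
        have h4 : MvPolynomial.map (aeval (Sum.elim w.1 w.2) :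
            MvPolynomial (Fin (M + 1) ⊕ Fin (M + 1)) ℂ →ₐ[ℂ] ℂ).toRingHom Λ' = 0 := by
          apply MvPolynomial.funext
          intro p''
          rw [map_zero, hΛ', ← aeval_sum]
          exact hcon p''
        have h5 := congrArg (coeff m') h4
        rw [coeff_map, coeff_zero] at h5
        exact h5
      obtain ⟨p'', hp''⟩ := hex
      obtain ⟨e, he⟩ : ∃ e : Fin q ↪ Fin N,
          eval (Sum.elim (fun x : Fin q × Fin (M + 1) => p (e x.1) x.2)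
            (Sum.elim w.1 w.2)) Λ ≠ 0 := by
        by_contra hcon
        push Not at hcon
        exact hp'' (h2 p (right_ne_zero_of_mul (left_ne_zero_of_mul hp)) (Sum.elim w.1 w.2)
          (hjets w hw) hcon p'')
      have hΘe := Finset.prod_ne_zero_iff.mp (right_ne_zero_of_mul hp) e (Finset.mem_univ e)
      rw [eval_rename] at hΘe
      obtain ⟨p', hp'⟩ : ∃ p' : Fin q → Fin (M + 1) → ℂ, p' = fun j => p (e j) := ⟨_, rfl⟩
      have hp'j : ∀ j, p (e j) = p' j := fun j => by rw [hp']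
      have hΘe' : eval (fun x : Fin q × Fin (M + 1) => p' x.1 x.2) Θ₃ ≠ 0 := by
        rw [hp']
        exact hΘe
      have he' : eval (pt p' w.1 w.2) Λ ≠ 0 := by
        rw [hp']
        exact he
      have hrel : ∀ y Z : Fin (M + 1) → ℂ, (y, Z) ∈ closure (jetc Y) →
          ∀ G ∈ 𝔞, eval (Sum.elim y Z) G = 0 := by
        intro y Z hyZ G hG
        have := rel_on_closure (K := ℂ) (G := G) (fun w' hw' => hjets w' hw' G hG) y Z hyZ
        exact this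
      obtain ⟨c₀, hc₀, hsep⟩ := sep_of_key (p' := p') (Y := Y)
        (fun y Z hyZ => h3 p' hΘe' y Z (hrel y Z hyZ))
      obtain ⟨g1, g2, g3, g4⟩ := hΛ p' w.1 w.2 he'
      refine core_certificate (by omega) hτ hdeg hY hw
        (fun p'' y Z hyZ => hgood y Z (hrel y Z (subset_closure hyZ)) p'') (hhom p') g1 hc₀ hsep
        g2 g3 ?_ ?_
      · intro i j
        rcases g4 i j with h5 | h5
        · left
          intro z₁
          filter_upwards [mem_jets hY z₁] with z hz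
          have h6 := hjets _ (hz 1 1 0) _ h5
          rw [eval_X, Sum.elim_inl, one_smul] at h6
          exact h6
        · exact Or.inr h5
      · intro j z₁
        rw [← hp'j]
        exact hord _ z₁

theorem constFor_ideal {n M N : ℕ} (hN : 22 * n + 32 ≤ N)
    (𝔞₀ : Ideal (MvPolynomial (Fin (M + 1) ⊕ Fin (M + 1)) ℂ))
    (htr : ∀ (L : Type) [Field L] [Algebra ℂ L] (y Z : Fin (M + 1) → L),
      (∀ G ∈ 𝔞₀, aeval (Sum.elim y Z) G = 0) → TrdegLE ℂ y (n + 1)) :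
    ∀ 𝔞, 𝔞₀ ≤ 𝔞 → ConstFor N 𝔞 := by
  intro 𝔞
  induction 𝔞 using WellFoundedGT.induction with
  | ind 𝔞 IH =>
    intro h𝔞
    have IH' : ∀ 𝔟, 𝔞 < 𝔟 → ConstFor N 𝔟 := fun 𝔟 hlt => IH 𝔟 hlt (h𝔞.trans hlt.le)
    by_cases htop : 𝔞 = ⊤
    · refine ⟨1, one_ne_zero, ?_⟩
      intro p hp Y hY hjets hord
      exfalso
      have h1 := hjets (0, 0) ⟨0, 0, 0, 0, by simp⟩ 1 (by rw [htop]; trivial)
      rw [map_one] at h1
      exact one_ne_zero h1
    by_cases hprime : 𝔞.IsPrime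
    swap
    · rw [Ideal.isPrime_iff] at hprime
      push Not at hprime
      obtain ⟨f, g, hfg, hf, hg⟩ := hprime htop
      apply constFor_split hfg
      · apply IH'
        refine lt_of_le_of_ne le_sup_left ?_
        intro h
        apply hf
        rw [h]
        exact Ideal.mem_sup_right (Ideal.subset_span rfl)
      · apply IH'
        refine lt_of_le_of_ne le_sup_left ?_
        intro h
        apply hg
        rw [h]
        exact Ideal.mem_sup_right (Ideal.subset_span rfl)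
    by_cases hdiff : ∀ f : MvPolynomial (Fin (M + 1)) ℂ, rename Sum.inl f ∈ 𝔞 → diffP f ∈ 𝔞
    swap
    · push Not at hdiff
      obtain ⟨f, hf, hf'⟩ := hdiff
      apply constFor_diff hf
      apply IH'
      refine lt_of_le_of_ne le_sup_left ?_
      intro h
      apply hf'
      rw [h]
      exact Ideal.mem_sup_right (Ideal.subset_span rfl)
    by_cases hmin : ∀ a b, minorP ℂ a b ∈ 𝔞
    · exact constFor_of_minors hmin
    push Not at hmin
    obtain ⟨a₀, b₀, hab⟩ := hmin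
    exact constFor_main hN 𝔞 (fun L _ _ y Z h => htr L y Z (fun G hG => h G (h𝔞 hG)))
      hdiff hab IH'

lemma trdegLE_of_quotient {M n : ℕ} (I : Ideal (MvPolynomial (Fin (M + 1)) ℂ))
    (hI : Algebra.trdeg ℂ (MvPolynomial (Fin (M + 1)) ℂ ⧸ I) ≤ n)
    {L : Type} [Field L] [Algebra ℂ L] (y : Fin (M + 1) → L)
    (hy : ∀ G ∈ I, aeval y G = 0) : TrdegLE ℂ y n := by
  intro B hB
  have hind : AlgebraicIndependent ℂ
      (fun b : B => Ideal.Quotient.mk I (X (b : Fin (M + 1)))) := by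
    rw [algebraicIndependent_iff]
    intro G hG
    apply (algebraicIndependent_iff.mp hB)
    have h1 : (Ideal.Quotient.mkₐ ℂ I).comp (rename (fun b : B => (b : Fin (M + 1)))) =
        aeval (fun b : B => Ideal.Quotient.mk I (X (b : Fin (M + 1)))) := by
      ext b
      simp
    have h2 : rename (fun b : B => (b : Fin (M + 1))) G ∈ I := by
      rw [← Ideal.Quotient.eq_zero_iff_mem, ← hG]
      exact DFunLike.congr_fun h1 G
    have h3 := hy _ h2
    rw [aeval_rename] at h3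
    exact h3
  have h2 := hind.lift_cardinalMk_le_trdeg
  have h3 := h2.trans (Cardinal.lift_le.mpr hI)
  simpa using h3

theorem general_ideal {n M N : ℕ} (hN : 22 * n + 32 ≤ N)
    (I : Ideal (MvPolynomial (Fin (M + 1)) ℂ))
    (hI : Algebra.trdeg ℂ (MvPolynomial (Fin (M + 1)) ℂ ⧸ I) ≤ (n + 1 : ℕ)) :
    ∃ Θ : MvPolynomial (Fin N × Fin (M + 1)) ℂ, Θ ≠ 0 ∧ ∀ p : Fin N → Fin (M + 1) → ℂ,
      eval (fun x : Fin N × Fin (M + 1) => p x.1 x.2) Θ ≠ 0 →
      ∀ Y : ℂ → ℂ → Fin (M + 1) → ℂ, LiftFamily Y →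
        (∀ z (a : ℂ), ∀ G ∈ I, eval (a • Y z z) G = 0) →
        (∀ j z₁, analyticOrderAt (fun z => p j ⬝ᵥ Y z₁ z) z₁ = 0 ∨
          (2 : ℕ∞) ≤ analyticOrderAt (fun z => p j ⬝ᵥ Y z₁ z) z₁) →
        ∀ z w, ∃ a : ℂ, a ≠ 0 ∧ Y z z = a • Y w w := by
  obtain ⟨T, hT⟩ : ∃ T : Set (MvPolynomial (Fin (M + 1) ⊕ Fin (M + 1)) ℂ),
    T = {H | ∃ G ∈ I, H = rename Sum.inl G} := ⟨_, rfl⟩
  obtain ⟨Θ, hΘ, h1⟩ := constFor_ideal hN (Ideal.span T) (by
    intro L _ _ y Z h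
    apply trdegLE_of_quotient I hI
    intro G hG
    have h2 := h (rename Sum.inl G) (Ideal.subset_span (by rw [hT]; exact ⟨G, hG, rfl⟩))
    rw [aeval_rename, Sum.elim_comp_inl] at h2
    exact h2) (Ideal.span T) le_rfl
  refine ⟨Θ, hΘ, ?_⟩
  intro p hp Y hY hYI hord
  refine h1 p hp Y hY ?_ hord
  rintro w ⟨z, a, b, s, rfl⟩
  have h3 : Ideal.span T ≤ RingHom.ker (eval (Sum.elim (a • Y z z)
      (b • (deriv (Y z) z + s • Y z z)))) := by
    rw [Ideal.span_le, hT]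
    rintro _ ⟨G, hG, rfl⟩
    show eval _ (rename Sum.inl G) = 0
    rw [eval_rename, Sum.elim_comp_inl]
    exact hYI z a G hG
  intro G hG
  exact h3 hG

end Pool.Agent.Lib.GGL.VG
end

section

/-!
At most `n` of the general hyperplanes pass through a point of the variety.
-/

open Filter Topology MvPolynomial Module

namespace Pool.Agent.Lib.GGL.SM

open VG

/-- scaling of homogeneous polynomials -/
theorem c1a_scale {τ A : Type*} [CommRing A] [Algebra ℂ A] {P : MvPolynomial τ ℂ} {k : ℕ}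
    (hP : P.IsHomogeneous k) (a : A) (v : τ → A) :
    aeval (fun s => a * v s) P = a ^ k * aeval v P := by
  classical
  rw [aeval_def, eval₂_eq, aeval_def, eval₂_eq, Finset.mul_sum]
  refine Finset.sum_congr rfl fun m hm => ?_
  have h1 : ∑ s ∈ m.support, m s = k := by
    have := hP (mem_support_iff.1 hm)
    rw [← this, Finsupp.weight_apply, Finsupp.sum]
    simp
  rw [Finset.prod_congr rfl fun s _ => mul_pow a (v s) (m s), Finset.prod_mul_distrib,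
    Finset.prod_pow_eq_pow_sum, h1]
  ring

theorem c1a_dehom {τ : Type*} {L : Type*} [Field L] [Algebra ℂ L] (i : τ) {v : τ → L}
    (hv : v i = 1) (hind : AlgebraicIndependent ℂ (fun b : {b : τ // b ≠ i} => v b))
    {P : MvPolynomial τ ℂ} {k : ℕ} (hP : P.IsHomogeneous k) (h0 : aeval v P = 0) : P = 0 := by
  classical
  -- dehomogenization
  let δ : τ → MvPolynomial {b : τ // b ≠ i} ℂ := fun b => if h : b = i then 1 else X ⟨b, h⟩
  have h1 : aeval (fun b : {b : τ // b ≠ i} => v b) (aeval δ P) = 0 := by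
    rw [← h0, ← AlgHom.comp_apply]
    congr 1
    apply MvPolynomial.algHom_ext
    intro b
    simp only [AlgHom.comp_apply, aeval_X, δ]
    by_cases hb : b = i
    · subst hb
      simp [hv]
    · simp [hb]
  have h2 : aeval δ P = 0 := (algebraicIndependent_iff.1 hind) _ h1
  let K := FractionRing (MvPolynomial τ ℂ)
  have hinj : Function.Injective (algebraMap (MvPolynomial τ ℂ) K) := IsFractionRing.injective _ _
  let x : τ → K := fun b => algebraMap (MvPolynomial τ ℂ) K (X b)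
  have hx : x i ≠ 0 := by
    simp only [x]
    rw [Ne, map_eq_zero_iff _ hinj]
    exact X_ne_zero i
  have h3 : aeval (fun b => x b / x i) P = 0 := by
    have h4 : aeval (fun b : {b : τ // b ≠ i} => x b / x i) (aeval δ P) =
        aeval (fun b => x b / x i) P := by
      rw [← AlgHom.comp_apply]
      congr 1
      apply MvPolynomial.algHom_ext
      intro b
      simp only [AlgHom.comp_apply, aeval_X, δ]
      by_cases hb : b = i
      · subst hb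
        simp [div_self hx]
      · simp [hb]
    rw [← h4, h2, map_zero]
  have h5 : aeval x P = 0 := by
    have h6 := c1a_scale hP (x i) (fun b => x b / x i)
    rw [h3, mul_zero] at h6
    rw [← h6]
    have h9 : x = fun s => x i * (x s / x i) := by
      funext b
      rw [mul_div_cancel₀ _ hx]
    rw [← h9]
  have h7 : aeval x P = algebraMap (MvPolynomial τ ℂ) K P := by
    have h8 : (aeval x : MvPolynomial τ ℂ →ₐ[ℂ] K) = IsScalarTower.toAlgHom ℂ (MvPolynomial τ ℂ) K := by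
      apply MvPolynomial.algHom_ext
      intro b
      simp [x]
    rw [h8]
    rfl
  rw [h7, map_eq_zero_iff _ hinj] at h5
  exact h5

theorem c1a_poly {τ : Type*} {L : Type*} [Field L] [Algebra ℂ L] (v : τ → L)
    (P : MvPolynomial τ ℂ) (k : ℕ) :
    (aeval (fun b => (Polynomial.X * Polynomial.C (v b) : Polynomial L)) P).coeff k =
      aeval v (homogeneousComponent k P) := by
  classical
  conv_lhs => rw [← sum_homogeneousComponent P, map_sum, Polynomial.finsetSum_coeff]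
  have h1 : ∀ j, (aeval (fun b => (Polynomial.X * Polynomial.C (v b) : Polynomial L))
      (homogeneousComponent j P)).coeff k = if j = k then aeval v (homogeneousComponent k P) else 0 := by
    intro j
    rw [c1a_scale (homogeneousComponent_isHomogeneous j P)]
    have h2 : aeval (fun b => (Polynomial.C (v b) : Polynomial L)) (homogeneousComponent j P) =
        Polynomial.C (aeval v (homogeneousComponent j P)) := by
      have h3 : (aeval (fun b => (Polynomial.C (v b) : Polynomial L)) :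
          MvPolynomial τ ℂ →ₐ[ℂ] Polynomial L) =
          (IsScalarTower.toAlgHom ℂ L (Polynomial L)).comp (aeval v) := by
        apply MvPolynomial.algHom_ext
        intro b
        simp
      rw [h3]
      rfl
    rw [h2, mul_comm, Polynomial.coeff_C_mul, Polynomial.coeff_X_pow]
    by_cases hjk : j = k
    · subst hjk
      simp
    · rw [if_neg (Ne.symm hjk), if_neg hjk, mul_zero]
  rw [Finset.sum_congr rfl fun j _ => h1 j, Finset.sum_ite_eq']
  split_ifs with h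
  · rfl
  · rw [Finset.mem_range, not_lt] at h
    rw [homogeneousComponent_eq_zero _ _ (by omega), map_zero]

theorem c1a_indep {τ : Type*} {L : Type*} [Field L] [Algebra ℂ L] (i : τ) {v : τ → L}
    (hv : v i = 1) (hind : AlgebraicIndependent ℂ (fun b : {b : τ // b ≠ i} => v b)) :
    AlgebraicIndependent ℂ (fun b => (Polynomial.X * Polynomial.C (v b) : Polynomial L)) := by
  rw [algebraicIndependent_iff]
  intro P hP
  rw [← sum_homogeneousComponent P]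
  refine Finset.sum_eq_zero fun k _ => ?_
  refine c1a_dehom i hv hind (homogeneousComponent_isHomogeneous k P) ?_
  rw [← c1a_poly, hP, Polynomial.coeff_zero]

theorem trdeg_affine {M n : ℕ} (I : Ideal (MvPolynomial (Fin (M + 1)) ℂ))
    (hhom : ∀ g ∈ I, ∀ k, homogeneousComponent k g ∈ I)
    (hI : Algebra.trdeg ℂ (MvPolynomial (Fin (M + 1)) ℂ ⧸ I) ≤ (n + 1 : ℕ))
    {L : Type} [Field L] [Algebra ℂ L] (w : Fin (M + 1) → L) {i : Fin (M + 1)} (hi : w i = 1)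
    (hw : ∀ G ∈ I, aeval w G = 0) : TrdegLE ℂ w n := by
  classical
  let L' := FractionRing (Polynomial L)
  have hinj : Function.Injective (algebraMap (Polynomial L) L') := IsFractionRing.injective _ _
  let y₀ : Fin (M + 1) → Polynomial L := fun b => Polynomial.X * Polynomial.C (w b)
  let y : Fin (M + 1) → L' := fun b => algebraMap (Polynomial L) L' (y₀ b)
  have hy : ∀ G : MvPolynomial (Fin (M + 1)) ℂ, aeval y G = algebraMap (Polynomial L) L' (aeval y₀ G) := by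
    intro G
    have h8 : (aeval y : MvPolynomial (Fin (M + 1)) ℂ →ₐ[ℂ] L') =
        (IsScalarTower.toAlgHom ℂ (Polynomial L) L').comp (aeval y₀) := by
      apply MvPolynomial.algHom_ext
      intro b
      simp [y]
    rw [h8]
    rfl
  have h1 : TrdegLE ℂ y (n + 1) := by
    refine trdegLE_of_quotient I hI y fun G hG => ?_
    rw [hy, map_eq_zero_iff _ hinj]
    ext k
    rw [Polynomial.coeff_zero]
    show (aeval (fun b => (Polynomial.X * Polynomial.C (w b) : Polynomial L)) G).coeff k = 0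
    rw [c1a_poly]
    exact hw _ (hhom G hG k)
  intro B hB
  have hiB : i ∉ B := by
    intro hiB
    have h2 := hB.transcendental ⟨i, hiB⟩
    apply h2
    show IsAlgebraic ℂ (w i)
    rw [hi]
    exact isAlgebraic_one
  have h3 : AlgebraicIndependent ℂ
      (fun b : {b : ↥(insert i B) // b ≠ ⟨i, Finset.mem_insert_self i B⟩} => w b) := by
    have h4 : ∀ b : {b : ↥(insert i B) // b ≠ ⟨i, Finset.mem_insert_self i B⟩}, (b : ↥(insert i B)).1 ∈ B := by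
      rintro ⟨⟨b, hb⟩, hbi⟩
      rcases Finset.mem_insert.1 hb with rfl | h
      · exact absurd rfl hbi
      · exact h
    exact hB.comp (fun b : {b : ↥(insert i B) // b ≠ ⟨i, Finset.mem_insert_self i B⟩} =>
      (⟨(b : ↥(insert i B)).1, h4 b⟩ : B)) (by
      intro b c hbc
      apply Subtype.ext
      apply Subtype.ext
      exact congrArg (fun z : B => (z : Fin (M + 1))) hbc)
  have h5 := c1a_indep (v := fun b : ↥(insert i B) => w b) ⟨i, Finset.mem_insert_self i B⟩ hi h3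
  have h6 : AlgebraicIndependent ℂ (fun b : ↥(insert i B) => y b) :=
    h5.map' (f := IsScalarTower.toAlgHom ℂ (Polynomial L) L') hinj
  have h7 := h1 (insert i B) h6
  rw [Finset.card_insert_of_notMem hiB] at h7
  omega

end Pool.Agent.Lib.GGL.SM
end

section

/-!
The main case of the Noetherian induction for the second main theorem.
-/

open Filter Topology MvPolynomial Module MeasureTheory

namespace Pool.Agent.Lib.GGL.SM

open VG

theorem count1_nonneg (h : ℂ → ℂ) {r : ℝ} (hr : 1 ≤ r) : 0 ≤ count1 h r := by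
  unfold count1
  refine add_nonneg ?_ ?_
  · refine finsum_nonneg fun z => finsum_nonneg fun hz => ?_
    apply Real.log_nonneg
    rw [le_div_iff₀ (norm_pos_iff.mpr hz.2.1), one_mul]
    exact hz.2.2
  · split_ifs
    · exact Real.log_nonneg hr
    · exact le_rfl

/-- From the block estimates to the second main theorem. -/
theorem smt_of_blocks {M N N' k n q r₀ A B τ : ℕ} (hk : 7 ≤ k) (hq : q = 8 * k ^ 3 * (n + 1))
    (hN : 10 * k ^ 3 * (n + 1) ≤ N) (hN' : N = N' + 2 * (n + 1)) (hr₀ : 1 ≤ r₀)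
    (hdeg : q * (2 * k * r₀) = A + B + τ)
    {c : (Fin q → Fin (2 * k * r₀ + 1)) →
      MvPolynomial ((Fin q × Fin (M + 1)) ⊕ (Fin (M + 1) ⊕ Fin (M + 1))) ℂ} {g : Fin q → ℕ}
    (hg1 : ∑ j, g j = τ + 3 * (q * r₀)) (hg2 : (k - 1) * (q * r₀) < ∑ j, g j)
    (hg3 : ∀ j, g j ≤ 2 * k * r₀)
    (p : Fin N → Fin (M + 1) → ℂ)
    {Y : ℂ → Fin (M + 1) → ℂ} (hY : Differentiable ℂ Y) (h0 : ∀ z, Y z ≠ 0)
    {w : (Fin (M + 1) → ℂ) × (Fin (M + 1) → ℂ)} (hw : w ∈ jets fun _ => Y)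
    (hgood : ∀ p'' : Fin q → Fin (M + 1) → ℂ, ∀ y Z, (y, Z) ∈ jetc (fun _ => Y) →
      GoodL q g (fun j => p'' j ⬝ᵥ y) (fun j => p'' j ⬝ᵥ Z) (fun γ => eval (pt p'' y Z) (c γ)))
    (hhom : ∀ (p' : Fin q → Fin (M + 1) → ℂ) (y Z : Fin (M + 1) → ℂ) (a b : ℂ),
        leadL g (fun j => p' j ⬝ᵥ (a • y)) (fun j => p' j ⬝ᵥ (b • Z))
          (fun γ => eval (pt p' (a • y) (b • Z)) (c γ)) = a ^ A * b ^ B *
        leadL g (fun j => p' j ⬝ᵥ y) (fun j => p' j ⬝ᵥ Z)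
          (fun γ => eval (pt p' y Z) (c γ)))
    (e' : Fin N' ↪ Fin N) {a b : Fin (M + 1)}
    (hΛ : ∀ e : Fin q ↪ Fin N',
      leadL g (fun j => p (e' (e j)) ⬝ᵥ w.1) (fun j => p (e' (e j)) ⬝ᵥ w.2)
          (fun γ => eval (pt (fun j => p (e' (e j))) w.1 w.2) (c γ)) ≠ 0 ∧
        (∀ j, p (e' (e j)) ⬝ᵥ w.1 ≠ 0) ∧ w.1 a * w.2 b - w.1 b * w.2 a ≠ 0 ∧
        (∀ i j, (∀ z, Y z i = 0) ∨
          (p (e' (e j)) ⬝ᵥ w.2) * w.1 i - w.2 i * (p (e' (e j)) ⬝ᵥ w.1) ≠ 0))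
    {c₁ : ℝ} (hc₁ : 0 < c₁)
    (hnear : ∀ z, {j | ‖p j ⬝ᵥ Y z‖ < c₁ * ‖Y z‖}.ncard ≤ 2 * (n + 1)) :
    SMT k p Y := by
  classical
  -- sizes
  have hk3 : 1 ≤ k ^ 3 * (n + 1) := Nat.mul_pos (pow_pos (by omega) 3) (by omega)
  have hq1 : 1 ≤ q := by
    rw [hq, mul_assoc]
    omega
  have hqN : q ≤ N' := by
    rw [hq]
    have h1 : 10 * k ^ 3 * (n + 1) = 8 * k ^ 3 * (n + 1) + 2 * (k ^ 3 * (n + 1)) := by ring
    have h2 : n + 1 ≤ k ^ 3 * (n + 1) := Nat.le_mul_of_pos_left _ (pow_pos (by omega) 3)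
    omega
  obtain ⟨e₀⟩ : Nonempty (Fin q ↪ Fin N') :=
    ⟨Fin.castLEEmb hqN⟩
  -- the nontrivial hyperplanes
  have hnt : ∀ i : Fin N', ∃ z, p (e' i) ⬝ᵥ Y z ≠ 0 := by
    intro i
    obtain ⟨e, j, hej⟩ : ∃ (e : Fin q ↪ Fin N') (j : Fin q), e j = i := by
      have hj : (⟨0, by omega⟩ : Fin q) = ⟨0, by omega⟩ := rfl
      refine ⟨e₀.trans (Equiv.swap (e₀ ⟨0, by omega⟩) i).toEmbedding, ⟨0, by omega⟩, ?_⟩
      simp
    by_contra hcon
    push Not at hcon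
    obtain ⟨z, a', b', s', hw'⟩ := hw
    apply (hΛ e).2.1 j
    rw [hej]
    have h1 : w.1 = a' • Y z := by rw [hw']
    rw [h1, dotProduct_smul, hcon z, smul_zero]
  -- the block estimates
  have hblock : ∀ e : Fin q ↪ Fin N', ∃ C' : ℝ, ∀ r β : ℝ, 1 ≤ r → 0 ≤ β → (∀ z, ‖z‖ = r →
      (∀ i i', (∃ z', Y z' i ≠ 0) → (∃ z', Y z' i' ≠ 0) →
        ‖deriv Y z i / Y z i - deriv Y z i' / Y z i'‖ ≤ Real.exp β) ∧
      ∀ i j, (∃ z', Y z' i ≠ 0) →
        ‖(p (e' (e j)) ⬝ᵥ deriv Y z) / (p (e' (e j)) ⬝ᵥ Y z) - deriv Y z i / Y z i‖ ≤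
          Real.exp β) →
      ((τ : ℝ) - ((2 * ((2 * (n + 1)) * (2 * k * r₀)) : ℕ) : ℝ)) * height Y r ≤
        ∑ j, ((2 * k * r₀ - g j : ℕ) : ℝ) * count1 (fun z => p (e' (e j)) ⬝ᵥ Y z) r +
        C' * (β + 1) := by
    intro e
    obtain ⟨hne, hlw, hab, hminw⟩ := hΛ e
    obtain ⟨F, m, C, S, hF, hF0, hC, hS, hb⟩ := block_function (ν := 2 * (n + 1)) hq1 hdeg
      (p := fun j => p (e' (e j))) hY h0 hw hgood (hhom _) hne hlw hminw hab hc₁ (by
        intro z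
        refine le_trans ?_ (hnear z)
        rw [← Set.ncard_image_of_injective {j | ‖p (e' (e j)) ⬝ᵥ Y z‖ < c₁ * ‖Y z‖}
          (e.trans e').injective]
        apply Set.ncard_le_ncard _ (Set.toFinite _)
        rintro _ ⟨j, hj, rfl⟩
        exact hj)
    exact block_estimate g (fun j => p (e' (e j))) hY h0 hF hF0 (fun j => hnt (e j)) hC hS hb
  choose C' hC' using hblock
  obtain ⟨C₂, E, hC₂, hE, hlld⟩ := curve_logDeriv hY h0 p
  obtain ⟨C₃, hC₃⟩ : ∃ C₃ : ℝ, C₃ = ∑ e : Fin q ↪ Fin N', |C' e| := ⟨_, rfl⟩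
  have hC₃e : ∀ e, C' e ≤ C₃ := fun e => by
    rw [hC₃]
    exact (le_abs_self _).trans (Finset.single_le_sum (f := fun e => |C' e|)
      (fun e _ => abs_nonneg _) (Finset.mem_univ e))
  have hC₃0 : 0 ≤ C₃ := by rw [hC₃]; exact Finset.sum_nonneg fun e _ => abs_nonneg _
  refine ⟨N * (C₃ * (C₂ + 1)), E, hE, ?_⟩
  intro r hr hrE
  obtain ⟨β, hβ⟩ : ∃ β : ℝ, β = C₂ * (Real.log r + Real.posLog (height Y r) + 1) := ⟨_, rfl⟩
  have hX : 0 ≤ Real.log r + Real.posLog (height Y r) := 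
    add_nonneg (Real.log_nonneg hr) Real.posLog_nonneg
  have hβ0 : 0 ≤ β := by rw [hβ]; positivity
  -- the sum over the good hyperplanes
  obtain ⟨x, hx⟩ : ∃ x : Fin N' → ℝ, x = fun i => count1 (fun z => p (e' i) ⬝ᵥ Y z) r := ⟨_, rfl⟩
  have hx0 : ∀ i, 0 ≤ x i := fun i => by rw [hx]; exact count1_nonneg _ hr
  have hstep : ∀ e : Fin q ↪ Fin N',
      ((τ : ℝ) - ((2 * ((2 * (n + 1)) * (2 * k * r₀)) : ℕ) : ℝ)) * height Y r -
        C₃ * (β + 1) ≤ ∑ j, ((2 * k * r₀ - g j : ℕ) : ℝ) * x (e j) := by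
    intro e
    have h1 := hC' e r β hr hβ0 (by
      intro z hz
      obtain ⟨h2, h3⟩ := hlld r hr hrE z hz
      rw [← hβ] at h2 h3
      exact ⟨h2, fun i j hi => h3 i _ hi (hnt (e j))⟩)
    have h2 : C' e * (β + 1) ≤ C₃ * (β + 1) := by
      have := hC₃e e
      gcongr
    rw [hx]
    linarith
  have havg := average_shifts hq1 hqN _ x hstep
  have hsum : ∑ j, ((2 * k * r₀ - g j : ℕ) : ℝ) =
      ((q * (2 * k * r₀) : ℕ) : ℝ) - ((∑ j, g j : ℕ) : ℝ) := by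
    have h1 : ∀ j, ((2 * k * r₀ - g j : ℕ) : ℝ) = ((2 * k * r₀ : ℕ) : ℝ) - (g j : ℝ) := fun j =>
      Nat.cast_sub (hg3 j)
    rw [Finset.sum_congr rfl fun j _ => h1 j, Finset.sum_sub_distrib]
    simp
  rw [hsum] at havg
  have hs2 : ∑ j, g j ≤ q * (2 * k * r₀) := by
    have := Finset.sum_le_sum fun j (_ : j ∈ (Finset.univ : Finset (Fin q))) => hg3 j
    simpa using this
  have hfin := final_numbers hk hq hN hN' hr₀ hg1 hg2 hs2 (T := height Y r) (P := ∑ i, x i)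
    (S := C₃ * (β + 1)) (Finset.sum_nonneg fun i _ => hx0 i) (by positivity) havg
  refine hfin.trans ?_
  have h3 : ∑ i, x i ≤ ∑ j, (if ∃ z, p j ⬝ᵥ Y z ≠ 0 then
      count1 (fun z => p j ⬝ᵥ Y z) r else 0) := by
    have h4 : ∀ i, x i = if ∃ z, p (e' i) ⬝ᵥ Y z ≠ 0 then
        count1 (fun z => p (e' i) ⬝ᵥ Y z) r else 0 := by
      intro i
      rw [if_pos (hnt i), hx]
    rw [Finset.sum_congr rfl fun i _ => h4 i]
    have h5 : ∀ j, 0 ≤ (if ∃ z, p j ⬝ᵥ Y z ≠ 0 then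
        count1 (fun z => p j ⬝ᵥ Y z) r else 0) := by
      intro j
      split_ifs
      · exact count1_nonneg _ hr
      · exact le_rfl
    rw [← Finset.sum_map Finset.univ e' (fun j => if ∃ z, p j ⬝ᵥ Y z ≠ 0 then
        count1 (fun z => p j ⬝ᵥ Y z) r else 0)]
    exact Finset.sum_le_sum_of_subset_of_nonneg (Finset.subset_univ _) fun j _ _ => h5 j
  have h6 : (N : ℝ) * (C₃ * (β + 1)) ≤ N * (C₃ * (C₂ + 1)) *
      (Real.log r + Real.posLog (height Y r) + 1) := by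
    rw [mul_assoc (N : ℝ), mul_assoc C₃]
    gcongr
    rw [hβ]
    nlinarith
  exact add_le_add h3 h6

theorem smtFor_main {n M N k : ℕ} (hk : 7 ≤ k) (hN : 10 * k ^ 3 * (n + 1) ≤ N)
    (𝔞 : Ideal (MvPolynomial (Fin (M + 1) ⊕ Fin (M + 1)) ℂ)) [𝔞.IsPrime]
    (htr : ∀ (L : Type) [Field L] [Algebra ℂ L] (y Z : Fin (M + 1) → L),
      (∀ G ∈ 𝔞, aeval (Sum.elim y Z) G = 0) → TrdegLE ℂ y (n + 1))
    (hdiff : ∀ f : MvPolynomial (Fin (M + 1)) ℂ, rename Sum.inl f ∈ 𝔞 → diffP f ∈ 𝔞)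
    {a₀ b₀ : Fin (M + 1)} (hab : minorP ℂ a₀ b₀ ∉ 𝔞)
    (IH : ∀ 𝔟, 𝔞 < 𝔟 → SMTFor k N 𝔟) : SMTFor k N 𝔞 := by
  classical
  obtain ⟨q, hq⟩ : ∃ q, q = 8 * k ^ 3 * (n + 1) := ⟨_, rfl⟩
  have hk3 : n + 1 ≤ k ^ 3 * (n + 1) := Nat.le_mul_of_pos_left _ (pow_pos (by omega) 3)
  obtain ⟨N', hN'⟩ : ∃ N', N = N' + 2 * (n + 1) := by
    refine ⟨N - 2 * (n + 1), ?_⟩
    have h1 : 10 * k ^ 3 * (n + 1) = 10 * (k ^ 3 * (n + 1)) := by ring
    omega
  obtain ⟨htrall, r₀, A, B, τ, c, g, Λ, hr₀, hdeg, hg1, hg2, hg3, hgood, hhom, ⟨m, hm⟩, hΛ⟩ :=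
    exists_lambda_log (n := n) (k := k) (by omega) 𝔞 htr hdiff hab hq
  obtain ⟨Λ', hΛ'⟩ : ∃ Λ' : MvPolynomial (Fin q × Fin (M + 1))
    (MvPolynomial (Fin (M + 1) ⊕ Fin (M + 1)) ℂ), Λ' = sumAlgEquiv ℂ _ _ Λ := ⟨_, rfl⟩
  rw [← hΛ'] at hm
  obtain ⟨𝔟, h𝔟⟩ : ∃ 𝔟, 𝔟 = 𝔞 ⊔ Ideal.span (Set.range fun m => coeff m Λ') := ⟨_, rfl⟩
  have hlt : 𝔞 < 𝔟 := by
    rw [h𝔟]
    refine lt_of_le_of_ne le_sup_left ?_
    intro h
    apply hm
    rw [h]
    exact Ideal.mem_sup_right (Ideal.subset_span ⟨m, rfl⟩)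
  obtain ⟨Θ₁, hΘ₁, h1⟩ := IH 𝔟 hlt
  obtain ⟨Θ₂, hΘ₂, h2⟩ := good_blocks (M := M) (N := N) (N' := N') (q := q) (D := 2 * (n + 1))
    (by omega) 𝔞 htrall Λ
  obtain ⟨Θ₃, hΘ₃, h3⟩ := near_count (M := M) (N := N) (D := 2 * (n + 1)) 𝔞 htrall
  refine ⟨Θ₁ * Θ₂ * Θ₃, mul_ne_zero (mul_ne_zero hΘ₁ hΘ₂) hΘ₃, ?_⟩
  intro p hp Y hY h0 hnc hjets
  rw [map_mul, map_mul] at hp
  by_cases hall : ∀ w ∈ jets fun _ => Y, ∀ m, eval (Sum.elim w.1 w.2) (coeff m Λ') = 0
  · refine h1 p (left_ne_zero_of_mul (left_ne_zero_of_mul hp)) Y hY h0 hnc (fun w hw => ?_)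
    rw [h𝔟]
    apply zero_sup (hjets w hw)
    rintro _ ⟨m, rfl⟩
    exact hall w hw m
  · push Not at hall
    obtain ⟨w, hw, m', hm'⟩ := hall
    obtain ⟨e', he'⟩ := h2 p (right_ne_zero_of_mul (left_ne_zero_of_mul hp)) (Sum.elim w.1 w.2)
      (hjets w hw) ⟨m', by rw [← hΛ']; exact hm'⟩
    obtain ⟨c₁, hc₁, hnear⟩ := h3 p (right_ne_zero_of_mul hp) Y hY h0 hjets
    have hrel : ∀ y Z : Fin (M + 1) → ℂ, (y, Z) ∈ jetc (fun _ => Y) →
        ∀ G ∈ 𝔞, eval (Sum.elim y Z) G = 0 := by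
      intro y Z hyZ G hG
      have := rel_on_closure (K := ℂ) (G := G) (fun w' hw' => hjets w' hw' G hG) y Z
        (subset_closure hyZ)
      exact this
    have hzero : ∀ i, (X (Sum.inl i) : MvPolynomial (Fin (M + 1) ⊕ Fin (M + 1)) ℂ) ∈ 𝔞 →
        ∀ z, Y z i = 0 := by
      intro i hi z
      have h6 := hjets (Y z, deriv Y z) ⟨z, 1, 1, 0, by simp⟩ _ hi
      rwa [eval_X, Sum.elim_inl] at h6
    refine smt_of_blocks hk hq hN hN' hr₀ hdeg hg1 hg2 hg3 p hY h0 hw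
      (fun p'' y Z hyZ => hgood y Z (hrel y Z hyZ) p'') hhom e' (a := a₀) (b := b₀) ?_ hc₁ hnear
    intro e
    obtain ⟨g1, g2, g3, g4⟩ := hΛ (fun j => p (e' (e j))) w.1 w.2 (he' e)
    refine ⟨g1, g2, g3, ?_⟩
    intro i j
    rcases g4 i j with h5 | h5
    · exact Or.inl (hzero i h5)
    · exact Or.inr h5

theorem smtFor_ideal {n M N k : ℕ} (hk : 7 ≤ k) (hN : 10 * k ^ 3 * (n + 1) ≤ N)
    (𝔞₀ : Ideal (MvPolynomial (Fin (M + 1) ⊕ Fin (M + 1)) ℂ))
    (htr : ∀ (L : Type) [Field L] [Algebra ℂ L] (y Z : Fin (M + 1) → L),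
      (∀ G ∈ 𝔞₀, aeval (Sum.elim y Z) G = 0) → TrdegLE ℂ y (n + 1)) :
    ∀ 𝔞, 𝔞₀ ≤ 𝔞 → SMTFor k N 𝔞 := by
  intro 𝔞
  induction 𝔞 using WellFoundedGT.induction with
  | ind 𝔞 IH =>
    intro h𝔞
    have IH' : ∀ 𝔟, 𝔞 < 𝔟 → SMTFor k N 𝔟 := fun 𝔟 hlt => IH 𝔟 hlt (h𝔞.trans hlt.le)
    by_cases htop : 𝔞 = ⊤
    · refine ⟨1, one_ne_zero, ?_⟩
      intro p hp Y hY h0 hnc hjets
      exfalso
      have h1 := hjets (0, 0) ⟨0, 0, 0, 0, by simp⟩ 1 (by rw [htop]; trivial)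
      rw [map_one] at h1
      exact one_ne_zero h1
    by_cases hprime : 𝔞.IsPrime
    swap
    · rw [Ideal.isPrime_iff] at hprime
      push Not at hprime
      obtain ⟨f, g, hfg, hf, hg⟩ := hprime htop
      apply smtFor_split hfg
      · apply IH'
        refine lt_of_le_of_ne le_sup_left ?_
        intro h
        apply hf
        rw [h]
        exact Ideal.mem_sup_right (Ideal.subset_span rfl)
      · apply IH'
        refine lt_of_le_of_ne le_sup_left ?_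
        intro h
        apply hg
        rw [h]
        exact Ideal.mem_sup_right (Ideal.subset_span rfl)
    by_cases hdiff : ∀ f : MvPolynomial (Fin (M + 1)) ℂ, rename Sum.inl f ∈ 𝔞 → diffP f ∈ 𝔞
    swap
    · push Not at hdiff
      obtain ⟨f, hf, hf'⟩ := hdiff
      apply smtFor_diff hf
      apply IH'
      refine lt_of_le_of_ne le_sup_left ?_
      intro h
      apply hf'
      rw [h]
      exact Ideal.mem_sup_right (Ideal.subset_span rfl)
    by_cases hmin : ∀ a b, minorP ℂ a b ∈ 𝔞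
    · exact smtFor_of_minors hmin
    push Not at hmin
    obtain ⟨a₀, b₀, hab⟩ := hmin
    exact smtFor_main hk hN 𝔞 (fun L _ _ y Z h => htr L y Z (fun G hG => h G (h𝔞 hG)))
      hdiff hab IH'

/-- The second main theorem with truncation level one for general hyperplanes. -/
theorem general_smt {n M N k : ℕ} (hk : 7 ≤ k) (hN : 10 * k ^ 3 * (n + 1) ≤ N)
    (I : Ideal (MvPolynomial (Fin (M + 1)) ℂ))
    (hI : Algebra.trdeg ℂ (MvPolynomial (Fin (M + 1)) ℂ ⧸ I) ≤ (n + 1 : ℕ)) :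
    ∃ Θ : MvPolynomial (Fin N × Fin (M + 1)) ℂ, Θ ≠ 0 ∧ ∀ p : Fin N → Fin (M + 1) → ℂ,
      eval (fun x : Fin N × Fin (M + 1) => p x.1 x.2) Θ ≠ 0 →
      ∀ Y : ℂ → Fin (M + 1) → ℂ, Differentiable ℂ Y → (∀ z, Y z ≠ 0) → ¬ IsConst Y →
        (∀ z (a : ℂ), ∀ G ∈ I, eval (a • Y z) G = 0) → SMT k p Y := by
  obtain ⟨T, hT⟩ : ∃ T : Set (MvPolynomial (Fin (M + 1) ⊕ Fin (M + 1)) ℂ),
    T = {H | ∃ G ∈ I, H = rename Sum.inl G} := ⟨_, rfl⟩
  obtain ⟨Θ, hΘ, h1⟩ := smtFor_ideal hk hN (Ideal.span T) (by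
    intro L _ _ y Z h
    apply trdegLE_of_quotient I hI
    intro G hG
    have h2 := h (rename Sum.inl G) (Ideal.subset_span (by rw [hT]; exact ⟨G, hG, rfl⟩))
    rw [aeval_rename, Sum.elim_comp_inl] at h2
    exact h2) (Ideal.span T) le_rfl
  refine ⟨Θ, hΘ, ?_⟩
  intro p hp Y hY h0 hnc hYI
  refine h1 p hp Y hY h0 hnc ?_
  rintro w ⟨z, a, b, s, rfl⟩
  have h3 : Ideal.span T ≤ RingHom.ker (eval (Sum.elim (a • Y z)
      (b • (deriv Y z + s • Y z)))) := by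
    rw [Ideal.span_le, hT]
    rintro _ ⟨G, hG, rfl⟩
    show eval _ (rename Sum.inl G) = 0
    rw [eval_rename, Sum.elim_comp_inl]
    exact hYI z a G hG
  intro G hG
  exact h3 hG

end Pool.Agent.Lib.GGL.SM
end
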