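import Mathlib
import Pool.Agent.Lib.MP_8d161d_ag.CR.Defs
import Pool.Agent.Lib.MP_8d161d_ag.Mg.G008
import Pool.Agent.Lib.MP_8d161d_ag.Mg.G002
import Pool.Agent.Lib.MP_8d161d_ag.CV.Defs

section

/-!
Generic points.
-/

open Filter Topology MvPolynomial MeasureTheory Module

namespace Pool.Agent.Lib.GGL.CR


/-- A generic point of a prime ideal, and independent parameters over its field of definition. -/
theorem exists_generic {σ τ : Type} (𝔞 : Ideal (MvPolynomial σ ℂ)) [𝔞.IsPrime] :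
    ∃ (E : Type) (_ : Field E) (_ : Algebra ℂ E) (w : σ → E) (p : τ → E) (F : Subalgebra ℂ E),
      (∀ G, aeval w G = 0 ↔ G ∈ 𝔞) ∧ (∀ i, w i ∈ F) ∧ AlgebraicIndependent F p := by
  let R := MvPolynomial σ ℂ ⧸ 𝔞
  let L := FractionRing R
  let B := MvPolynomial τ L
  let E := FractionRing B
  have hRL : Function.Injective (algebraMap R L) := IsFractionRing.injective R L
  have hBE : Function.Injective (algebraMap B E) := IsFractionRing.injective B E
  have hLE : Function.Injective (algebraMap L E) := (algebraMap L E).injective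
  obtain ⟨w₀, hw₀⟩ : ∃ w₀ : σ → E, ∀ i, w₀ i =
    algebraMap L E (algebraMap R L (Ideal.Quotient.mk 𝔞 (X i))) := ⟨fun i => _, fun i => rfl⟩
  have hw : ∀ G, aeval w₀ G = algebraMap L E (algebraMap R L (Ideal.Quotient.mk 𝔞 G)) := by
    intro G
    have h1 : ((aeval w₀ : MvPolynomial σ ℂ →ₐ[ℂ] E) : MvPolynomial σ ℂ →+* E) =
        ((algebraMap L E).comp (algebraMap R L)).comp (Ideal.Quotient.mk 𝔞) := by
      apply MvPolynomial.ringHom_ext
      · intro a
        simp only [RingHom.coe_coe, algHom_C, RingHom.comp_apply]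
        rw [IsScalarTower.algebraMap_apply ℂ L E, IsScalarTower.algebraMap_apply ℂ R L]
        rfl
      · intro i
        simp only [RingHom.coe_coe, aeval_X, RingHom.comp_apply]
        exact hw₀ i
    exact congrArg (fun f => f G) h1
  obtain ⟨F, hF⟩ : ∃ F : Subalgebra ℂ E, F = (IsScalarTower.toAlgHom ℂ L E).range := ⟨_, rfl⟩
  have hmem : ∀ x : L, algebraMap L E x ∈ F := by
    intro x
    rw [hF]
    exact ⟨x, rfl⟩
  refine ⟨E, inferInstance, inferInstance, w₀, fun j => algebraMap B E (X j), F, ?_, ?_, ?_⟩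
  · intro G
    rw [hw]
    constructor
    · intro h2
      rw [← map_zero (algebraMap L E)] at h2
      have h3 := hLE h2
      rw [← map_zero (algebraMap R L)] at h3
      exact Ideal.Quotient.eq_zero_iff_mem.mp (hRL h3)
    · intro h2
      rw [Ideal.Quotient.eq_zero_iff_mem.mpr h2, map_zero, map_zero]
  · intro i
    rw [hw₀]
    exact hmem _
  · rw [algebraicIndependent_iff]
    intro Q hQ
    have hsurj : Function.Surjective (fun x : L => (⟨algebraMap L E x, hmem x⟩ : F)) := by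
      rintro ⟨x, hx⟩
      have hx' := hx
      rw [hF] at hx'
      obtain ⟨y, hy⟩ := hx'
      exact ⟨y, Subtype.ext hy⟩
    let ρ : L →+* F :=
      { toFun := fun x => ⟨algebraMap L E x, hmem x⟩
        map_one' := Subtype.ext (map_one _)
        map_mul' := fun a b => Subtype.ext (map_mul _ a b)
        map_zero' := Subtype.ext (map_zero _)
        map_add' := fun a b => Subtype.ext (map_add _ a b) }
    obtain ⟨Q', hQ'⟩ := MvPolynomial.map_surjective ρ hsurj Q
    have h1 : algebraMap B E Q' = 0 := by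
      rw [← hQ, ← hQ']
      have h2 : (algebraMap B E) = ((aeval (fun x : τ => algebraMap B E (X x)) :
          MvPolynomial τ F →ₐ[F] E) : MvPolynomial τ F →+* E).comp (MvPolynomial.map ρ) := by
        apply MvPolynomial.ringHom_ext
        · intro a
          simp only [RingHom.comp_apply, map_C, RingHom.coe_coe, algHom_C]
          rfl
        · intro i
          simp only [RingHom.comp_apply, map_X, RingHom.coe_coe, aeval_X]
      exact congrArg (fun f => f Q') h2
    rw [← map_zero (algebraMap B E)] at h1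
    rw [← hQ', hBE h1, map_zero]

/-- A relation at a generic point holds everywhere. -/
theorem specialize {σ τ : Type} {𝔞 : Ideal (MvPolynomial σ ℂ)} {E : Type} [Field E] [Algebra ℂ E]
    {w : σ → E} {p : τ → E} {F : Subalgebra ℂ E} (hw : ∀ G, aeval w G = 0 ↔ G ∈ 𝔞)
    (hF : ∀ i, w i ∈ F) (hp : AlgebraicIndependent F p) {Q : MvPolynomial (τ ⊕ σ) ℂ}
    (hQ : aeval (Sum.elim p w) Q = 0) (p' : τ → ℂ) (w' : σ → ℂ) (hw' : ∀ G ∈ 𝔞, eval w' G = 0) :
    eval (Sum.elim p' w') Q = 0 := by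
  have key : ∀ {ι : Type} (v : ι → ℂ) (G : MvPolynomial ι ℂ),
      aeval (fun i => algebraMap ℂ E (v i)) G = algebraMap ℂ E (eval v G) := by
    intro ι v G
    exact MvPolynomial.aeval_algebraMap_apply E v G
  have h1 := VG.transfer (K := ℂ) hF hp hQ (w' := fun i => algebraMap ℂ E (w' i))
    (fun G hG => by rw [key, hw' G ((hw G).mp hG), map_zero]) (fun i => algebraMap ℂ E (p' i))
  have h2 : (Sum.elim (fun i => algebraMap ℂ E (p' i)) fun i => algebraMap ℂ E (w' i)) =
      fun i => algebraMap ℂ E (Sum.elim p' w' i) := by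
    funext i
    rcases i with i | i <;> rfl
  rw [h2, key] at h1
  exact (algebraMap ℂ E).injective (h1.trans (map_zero _).symm)

/-- Some coefficient of a polynomial that does not vanish at the generic point is not in the
ideal. -/
theorem exists_coeff {σ τ : Type} {𝔞 : Ideal (MvPolynomial σ ℂ)} {E : Type} [Field E] [Algebra ℂ E]
    {w : σ → E} {p : τ → E} (hw : ∀ G, aeval w G = 0 ↔ G ∈ 𝔞) {Q : MvPolynomial (τ ⊕ σ) ℂ}
    (hQ : aeval (Sum.elim p w) Q ≠ 0) : ∃ m, coeff m (sumAlgEquiv ℂ τ σ Q) ∉ 𝔞 := by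
  by_contra hcon
  push Not at hcon
  apply hQ
  rw [VG.aeval_sum]
  have h1 : MvPolynomial.map (aeval w : MvPolynomial σ ℂ →ₐ[ℂ] E).toRingHom
      (sumAlgEquiv ℂ τ σ Q) = 0 := by
    ext m
    rw [coeff_map, coeff_zero]
    exact (hw _).mpr (hcon m)
  rw [h1, map_zero]

end Pool.Agent.Lib.GGL.CR
end

section

/-!
Growth of spans of monomials.
-/

open Filter Topology MvPolynomial MeasureTheory Module

namespace Pool.Agent.Lib.GGL.CR

open Classical in
/-- The indices of the vectors which are not in the span of the previous ones. -/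
noncomputable def g1Std (K : Type*) {E : Type*} [Field K] [AddCommGroup E] [Module K E]
    {ι : Type*} [LinearOrder ι] (v : ι → E) (A : Finset ι) : Finset ι :=
  A.filter fun i => v i ∉ Submodule.span K (v '' {j : ι | j ∈ A ∧ j < i})

/-- The dimension of a span is the number of the vectors which are not in the span of the previous
ones. -/
theorem g1_greedy {K E : Type*} [Field K] [AddCommGroup E] [Module K E] {ι : Type*} [LinearOrder ι]
    (v : ι → E) (A : Finset ι) :
    finrank K ↥(Submodule.span K (v '' (A : Set ι))) = (g1Std K v A).card := by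
  classical
  induction A using Finset.induction_on_max with
  | empty =>
    unfold g1Std
    rw [Finset.filter_empty, Finset.card_empty, Finset.coe_empty, Set.image_empty,
      Submodule.span_empty, finrank_bot]
  | insert m A hm ih =>
    have hmA : m ∉ A := fun h => lt_irrefl m (hm m h)
    have h1 : {j : ι | j ∈ insert m A ∧ j < m} = (A : Set ι) := by
      ext j
      simp only [Set.mem_ofPred_eq, Finset.mem_insert, Finset.mem_coe]
      constructor
      · rintro ⟨h | h, h2⟩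
        · exact absurd (h ▸ h2) (lt_irrefl _)
        · exact h
      · intro h
        exact ⟨Or.inr h, hm j h⟩
    have h2 : ∀ i ∈ A, {j : ι | j ∈ insert m A ∧ j < i} = {j : ι | j ∈ A ∧ j < i} := by
      intro i hi
      ext j
      simp only [Set.mem_ofPred_eq, Finset.mem_insert]
      constructor
      · rintro ⟨h | h, h2⟩
        · exact absurd (h ▸ h2) (not_lt.mpr (hm i hi).le)
        · exact ⟨h, h2⟩
      · rintro ⟨h, h2⟩
        exact ⟨Or.inr h, h2⟩
    have h3 : A.filter (fun i => v i ∉ Submodule.span K (v '' {j : ι | j ∈ insert m A ∧ j < i})) =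
        g1Std K v A := by
      unfold g1Std
      refine Finset.filter_congr fun i hi => ?_
      rw [h2 i hi]
    have h4 : g1Std K v (insert m A) = if v m ∉ Submodule.span K (v '' (A : Set ι)) then
        insert m (g1Std K v A) else g1Std K v A := by
      conv_lhs => unfold g1Std
      rw [Finset.filter_insert, h3, h1]
    have h5 : m ∉ g1Std K v A := fun h => hmA (Finset.mem_of_mem_filter m h)
    have hfin : FiniteDimensional K ↥(Submodule.span K (v '' (A : Set ι))) :=
      FiniteDimensional.span_of_finite K (A.finite_toSet.image v)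
    rw [Finset.coe_insert, Set.image_insert_eq, Submodule.span_insert, h4]
    by_cases h : v m ∈ Submodule.span K (v '' (A : Set ι))
    swap
    · rw [if_pos h, Finset.card_insert_of_notMem h5, ← ih]
      have hv0 : v m ≠ 0 := by
        intro h0
        rw [h0] at h
        exact h (Submodule.zero_mem _)
      have h6 := Submodule.finrank_sup_add_finrank_inf_eq (Submodule.span K {v m})
        (Submodule.span K (v '' (A : Set ι)))
      have h7 : Submodule.span K {v m} ⊓ Submodule.span K (v '' (A : Set ι)) = ⊥ := by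
        rw [Submodule.eq_bot_iff]
        rintro x ⟨hx1, hx2⟩
        obtain ⟨c, rfl⟩ := Submodule.mem_span_singleton.mp hx1
        by_cases hc : c = 0
        · rw [hc, zero_smul]
        · exact absurd ((Submodule.smul_mem_iff _ hc).mp hx2) h
      rw [h7, finrank_bot, finrank_span_singleton hv0] at h6
      omega
    · rw [if_neg (not_not.mpr h), ← ih]
      have h6 : Submodule.span K {v m} ⊔ Submodule.span K (v '' (A : Set ι)) =
          Submodule.span K (v '' (A : Set ι)) := by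
        rw [sup_eq_right, Submodule.span_singleton_le_iff_mem]
        exact h
      rw [h6]

section Mono

variable {K E : Type*} [Field K] [Field E] [Algebra K E] {r u : ℕ}

/-- Exponents and basis elements, ordered lexicographically. -/
abbrev G1Ix (r u : ℕ) : Type := Lex (Fin (r + 1) → ℕ) ×ₗ Fin u

/-- The exponents. -/
def g1x (x : G1Ix r u) : Fin (r + 1) → ℕ := ofLex (ofLex x).1

theorem g1_ext {x y : G1Ix r u} (h1 : g1x x = g1x y) (h2 : (ofLex x).2 = (ofLex y).2) : x = y := by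
  have h : ofLex x = ofLex y := Prod.ext h1 h2
  exact h

/-- The element of the monomial. -/
noncomputable def g1v (s : Fin (r + 1) → E) (b : Fin u → E) (x : G1Ix r u) : E :=
  (∏ i, s i ^ g1x x i) * b (ofLex x).2

/-- The unit vector. -/
def g1e (i : Fin (r + 1)) : Lex (Fin (r + 1) → ℕ) := toLex (Pi.single i 1)

/-- Multiplication by the generator `i`. -/
def g1add (i : Fin (r + 1)) (x : G1Ix r u) : G1Ix r u := toLex ((ofLex x).1 + g1e i, (ofLex x).2)

theorem g1x_add (i : Fin (r + 1)) (x : G1Ix r u) (j : Fin (r + 1)) :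
    g1x (g1add i x) j = g1x x j + (Pi.single i 1 : Fin (r + 1) → ℕ) j := rfl

theorem g1v_add (s : Fin (r + 1) → E) (b : Fin u → E) (i : Fin (r + 1)) (x : G1Ix r u) :
    g1v s b (g1add i x) = s i * g1v s b x := by
  unfold g1v
  simp only [g1x_add, pow_add, Finset.prod_mul_distrib]
  have h2 : ∏ j, s j ^ (Pi.single i 1 : Fin (r + 1) → ℕ) j = s i := by
    rw [Finset.prod_eq_single i]
    · simp
    · intro j _ hj
      rw [Pi.single_eq_of_ne hj, pow_zero]
    · intro h; exact absurd (Finset.mem_univ i) h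
  rw [h2]
  show (∏ j, s j ^ g1x x j) * s i * b (ofLex x).2 = _
  ring

theorem g1add_lt {i : Fin (r + 1)} {x y : G1Ix r u} (h : x < y) : g1add i x < g1add i y := by
  rw [Prod.Lex.lt_iff] at h ⊢
  rcases h with h | ⟨h1, h2⟩
  · left
    exact add_lt_add_left h (g1e i)
  · right
    exact ⟨congrArg (fun z => z + g1e i) h1, h2⟩

/-- The index with the given exponents. -/
def g1mk (x : (Fin (r + 1) → ℕ) × Fin u) : G1Ix r u := toLex (toLex x.1, x.2)

theorem g1mk_inj : Function.Injective (g1mk : (Fin (r + 1) → ℕ) × Fin u → G1Ix r u) := by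
  intro x y h
  have h1 : g1x (g1mk x) = g1x (g1mk y) := by rw [h]
  have h2 : (ofLex (g1mk x)).2 = (ofLex (g1mk y)).2 := by rw [h]
  exact Prod.ext h1 h2

/-- The exponents of degree `a`. -/
def g1A (r u a : ℕ) : Finset (G1Ix r u) :=
  ((Finset.Nat.antidiagonalTuple (r + 1) a) ×ˢ (Finset.univ : Finset (Fin u))).map
    ⟨g1mk, g1mk_inj⟩

theorem mem_g1A {a : ℕ} {x : G1Ix r u} : x ∈ g1A r u a ↔ ∑ i, g1x x i = a := by
  unfold g1A
  rw [Finset.mem_map]
  constructor
  · rintro ⟨y, hy, rfl⟩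
    rw [Finset.mem_product, Finset.Nat.mem_antidiagonalTuple] at hy
    exact hy.1
  · intro h
    refine ⟨(g1x x, (ofLex x).2), ?_, rfl⟩
    rw [Finset.mem_product, Finset.Nat.mem_antidiagonalTuple]
    exact ⟨h, Finset.mem_univ _⟩

theorem g1add_mem {a : ℕ} {i : Fin (r + 1)} {x : G1Ix r u} (h : x ∈ g1A r u a) :
    g1add i x ∈ g1A r u (a + 1) := by
  rw [mem_g1A] at h ⊢
  simp only [g1x_add]
  rw [Finset.sum_add_distrib, h]
  simp

theorem exists_g1add {i : Fin (r + 1)} {x : G1Ix r u} (h : 1 ≤ g1x x i) :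
    ∃ y : G1Ix r u, g1add i y = x := by
  refine ⟨(toLex (toLex (fun j => g1x x j - (Pi.single i 1 : Fin (r + 1) → ℕ) j),
    (ofLex x).2) : G1Ix r u), g1_ext ?_ rfl⟩
  funext j
  rw [g1x_add]
  show g1x x j - (Pi.single i 1 : Fin (r + 1) → ℕ) j + (Pi.single i 1 : Fin (r + 1) → ℕ) j = g1x x j
  rcases eq_or_ne j i with rfl | hj
  · rw [Pi.single_eq_same]; omega
  · rw [Pi.single_eq_of_ne hj]; omega

theorem g1add_inj {i : Fin (r + 1)} : Function.Injective (g1add i : G1Ix r u → G1Ix r u) := by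
  intro x y h
  rcases lt_trichotomy x y with h1 | h1 | h1
  · exact absurd h (g1add_lt h1).ne
  · exact h1
  · exact absurd h (g1add_lt h1).ne'

theorem g1_span_zero (s : Fin (r + 1) → E) (b : Fin u → E) :
    Submodule.span K (g1v s b '' (g1A r u 0 : Set (G1Ix r u))) = Submodule.span K (Set.range b) := by
  congr 1
  ext z
  constructor
  · rintro ⟨x, hx, rfl⟩
    have h1 := mem_g1A.mp (Finset.mem_coe.mp hx)
    have h2 : ∀ i, g1x x i = 0 := fun i =>
      (Finset.sum_eq_zero_iff.mp h1) i (Finset.mem_univ i)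
    refine ⟨(ofLex x).2, ?_⟩
    unfold g1v
    simp [h2]
  · rintro ⟨j, rfl⟩
    refine ⟨(toLex (toLex 0, j) : G1Ix r u), ?_, ?_⟩
    · rw [Finset.mem_coe, mem_g1A]
      show ∑ i : Fin (r + 1), (0 : Fin (r + 1) → ℕ) i = 0
      simp
    · unfold g1v
      show (∏ i, s i ^ (0 : Fin (r + 1) → ℕ) i) * b j = b j
      simp

theorem g1_span_succ (s : Fin (r + 1) → E) (b : Fin u → E) (a : ℕ) :
    Submodule.span K (g1v s b '' (g1A r u (a + 1) : Set (G1Ix r u))) =
      Submodule.span K (Set.range s) *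
        Submodule.span K (g1v s b '' (g1A r u a : Set (G1Ix r u))) := by
  rw [Submodule.span_mul_span]
  congr 1
  ext z
  rw [Set.mem_mul]
  constructor
  · rintro ⟨x, hx, rfl⟩
    have h1 := mem_g1A.mp (Finset.mem_coe.mp hx)
    obtain ⟨i, hi⟩ : ∃ i, 1 ≤ g1x x i := by
      by_contra hcon
      push Not at hcon
      have : ∑ i, g1x x i = 0 := Finset.sum_eq_zero fun i _ => by
        have := hcon i; omega
      omega
    obtain ⟨y, rfl⟩ := exists_g1add hi
    refine ⟨s i, ⟨i, rfl⟩, g1v s b y, ⟨y, ?_, rfl⟩, (g1v_add s b i y).symm⟩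
    rw [Finset.mem_coe, mem_g1A]
    simp only [g1x_add] at h1
    rw [Finset.sum_add_distrib] at h1
    have h3 : ∑ j, (Pi.single i 1 : Fin (r + 1) → ℕ) j = 1 := by simp
    omega
  · rintro ⟨w, ⟨i, rfl⟩, w', ⟨y, hy, rfl⟩, rfl⟩
    exact ⟨g1add i y, Finset.mem_coe.mpr (g1add_mem (Finset.mem_coe.mp hy)), g1v_add s b i y⟩

theorem g1_span (s : Fin (r + 1) → E) (b : Fin u → E) (a : ℕ) :
    Submodule.span K (g1v s b '' (g1A r u a : Set (G1Ix r u))) =
      Submodule.span K (Set.range s) ^ a * Submodule.span K (Set.range b) := by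
  induction a with
  | zero => rw [g1_span_zero, pow_zero, one_mul]
  | succ a ih => rw [g1_span_succ, ih, pow_succ', mul_assoc]

/-- Divisors of standard monomials are standard. -/
theorem g1_std {s : Fin (r + 1) → E} {b : Fin u → E} {a : ℕ} {i : Fin (r + 1)} {x : G1Ix r u}
    (hx : g1add i x ∈ g1Std K (g1v s b) (g1A r u (a + 1))) :
    x ∈ g1Std K (g1v s b) (g1A r u a) := by
  classical
  unfold g1Std at hx ⊢
  rw [Finset.mem_filter] at hx ⊢
  obtain ⟨hx1, hx2⟩ := hx
  have hxa : x ∈ g1A r u a := by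
    rw [mem_g1A] at hx1 ⊢
    simp only [g1x_add] at hx1
    rw [Finset.sum_add_distrib] at hx1
    have h3 : ∑ j, (Pi.single i 1 : Fin (r + 1) → ℕ) j = 1 := by simp
    omega
  refine ⟨hxa, fun hcon => hx2 ?_⟩
  rw [g1v_add]
  have h1 : Submodule.map (LinearMap.mulLeft K (s i))
      (Submodule.span K (g1v s b '' {j | j ∈ g1A r u a ∧ j < x})) ≤
      Submodule.span K (g1v s b '' {j | j ∈ g1A r u (a + 1) ∧ j < g1add i x}) := by
    rw [Submodule.map_span, Submodule.span_le]
    rintro z ⟨w, ⟨y, ⟨hy1, hy2⟩, rfl⟩, rfl⟩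
    refine Submodule.subset_span ⟨g1add i y, ⟨g1add_mem hy1, g1add_lt hy2⟩, ?_⟩
    rw [g1v_add]
    rfl
  exact h1 ⟨_, hcon, rfl⟩

theorem g1_count (s : Fin (r + 1) → E) (b : Fin u → E) (a : ℕ) :
    (a + 1) * (g1Std K (g1v s b) (g1A r u (a + 1))).card ≤
      (a + 1 + r) * (g1Std K (g1v s b) (g1A r u a)).card := by
  classical
  set B := g1Std K (g1v s b) (g1A r u (a + 1)) with hB
  set C := g1Std K (g1v s b) (g1A r u a) with hC
  have hBd : ∀ x ∈ B, ∑ i, g1x x i = a + 1 := fun x hx =>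
    mem_g1A.mp (Finset.mem_of_mem_filter x hx)
  have hCd : ∀ x ∈ C, ∑ i, g1x x i = a := fun x hx =>
    mem_g1A.mp (Finset.mem_of_mem_filter x hx)
  have h1 : ∀ i : Fin (r + 1), ∑ x ∈ B, g1x x i ≤
      ∑ y ∈ C, (g1x y i + 1) := by
    intro i
    have h2 : ∑ x ∈ B, g1x x i =
        ∑ x ∈ B.filter (fun x => 1 ≤ g1x x i), g1x x i := by
      rw [Finset.sum_filter]
      refine Finset.sum_congr rfl fun x _ => ?_
      split_ifs with h
      · rfl
      · omega
    have h3 : B.filter (fun x => 1 ≤ g1x x i) ⊆ C.image (g1add i) := by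
      intro x hx
      rw [Finset.mem_filter] at hx
      obtain ⟨y, rfl⟩ := exists_g1add hx.2
      exact Finset.mem_image_of_mem _ (g1_std hx.1)
    rw [h2]
    refine (Finset.sum_le_sum_of_subset h3).trans (le_of_eq ?_)
    rw [Finset.sum_image (fun x _ y _ h => g1add_inj h)]
    refine Finset.sum_congr rfl fun y _ => ?_
    show g1x y i + (Pi.single i 1 : Fin (r + 1) → ℕ) i = _
    rw [Pi.single_eq_same]
  calc (a + 1) * B.card = ∑ x ∈ B, ∑ i, g1x x i := by
        rw [Finset.sum_congr rfl hBd, Finset.sum_const, smul_eq_mul, mul_comm]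
    _ = ∑ i, ∑ x ∈ B, g1x x i := Finset.sum_comm
    _ ≤ ∑ i, ∑ y ∈ C, (g1x y i + 1) := Finset.sum_le_sum fun i _ => h1 i
    _ = ∑ y ∈ C, ∑ i, (g1x y i + 1) := Finset.sum_comm
    _ = ∑ y ∈ C, (a + 1 + r) := by
        refine Finset.sum_congr rfl fun y hy => ?_
        rw [Finset.sum_add_distrib, hCd y hy]
        simp
        omega
    _ = (a + 1 + r) * C.card := by rw [Finset.sum_const, smul_eq_mul, mul_comm]

end Mono

/-- The growth of the spans of products: the spans `S ^ a * W`, where `S` is spanned by `1` and `r`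
elements, grow at most like the spaces of polynomials of degree `a` in `r` variables. -/
theorem growth {K E : Type*} [Field K] [Field E] [Algebra K E] {r : ℕ} (s : Fin r → E)
    (W : Submodule K E) [FiniteDimensional K W] (a : ℕ) :
    (a + 1) * finrank K ↥((Submodule.span K (insert 1 (Set.range s))) ^ (a + 1) * W) ≤
      (a + 1 + r) * finrank K ↥((Submodule.span K (insert 1 (Set.range s))) ^ a * W) := by
  have h1 : (insert 1 (Set.range s) : Set E) = Set.range (Fin.cons 1 s : Fin (r + 1) → E) := by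
    rw [Fin.range_cons]
  obtain ⟨b, hb⟩ : ∃ b : Fin (finrank K W) → E, Submodule.span K (Set.range b) = W := by
    refine ⟨fun i => (Module.finBasis K W i : E), ?_⟩
    have h2 : (fun i => (Module.finBasis K W i : E)) = W.subtype ∘ Module.finBasis K W := rfl
    rw [h2, Set.range_comp, ← Submodule.map_span, (Module.finBasis K W).span_eq,
      Submodule.map_top, Submodule.range_subtype]
  have h3 := g1_count (K := K) (Fin.cons 1 s : Fin (r + 1) → E) b a
  rw [← g1_greedy, ← g1_greedy, g1_span, g1_span, ← h1, hb] at h3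
  exact h3

theorem growth_two {K E : Type*} [Field K] [Field E] [Algebra K E] {ι : Type*} [Fintype ι]
    (s : ι → E) (W : Submodule K E) [FiniteDimensional K W] {a t : ℕ}
    (ha : 2 * t * Fintype.card ι ≤ a + 1) :
    finrank K ↥((Submodule.span K (insert 1 (Set.range s))) ^ (a + t) * W) ≤
      2 * finrank K ↥((Submodule.span K (insert 1 (Set.range s))) ^ a * W) := by
  set e := Fintype.equivFin ι with he
  set r := Fintype.card ι with hr
  have hrange : Set.range s = Set.range (s ∘ e.symm) := by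
    rw [Set.range_comp, e.symm.surjective.range_eq, Set.image_univ]
  rw [hrange]
  set f : ℕ → ℕ := fun i => finrank K
    ↥((Submodule.span K (insert 1 (Set.range (s ∘ e.symm)))) ^ (a + i) * W) with hf
  have hg : ∀ i, (a + i + 1) * f (i + 1) ≤ (a + i + 1 + r) * f i := by
    intro i
    have := growth (s ∘ e.symm) W (a + i)
    exact this
  have key : ∀ i : ℕ, i * r ≤ a + 1 →
      ((a : ℝ) + 1 - i * r) * f i ≤ (a + 1) * f 0 := by
    intro i
    induction i with
    | zero => intro _; simp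
    | succ i ih =>
      intro hi
      have h1 : i * r ≤ a + 1 := by
        have : (i + 1) * r = i * r + r := by ring
        omega
      have h2 := ih h1
      have h3 : ((a : ℝ) + i + 1) * f (i + 1) ≤ (a + i + 1 + r) * f i := by
        exact_mod_cast hg i
      have h4 : ((i : ℝ) + 1) * r ≤ a + 1 := by exact_mod_cast hi
      have hfi : (0 : ℝ) ≤ f i := by positivity
      have hfi1 : (0 : ℝ) ≤ f (i + 1) := by positivity
      have hr0 : (0 : ℝ) ≤ r := by positivity
      have hi0 : (0 : ℝ) ≤ i := by positivity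
      have ha0 : (0 : ℝ) ≤ a := by positivity
      have h5 : ((a : ℝ) + 1) * f (i + 1) ≤ (a + 1 + r) * f i := by
        have h6 : ((a : ℝ) + i + 1) * (((a : ℝ) + 1) * f (i + 1)) ≤
            ((a : ℝ) + i + 1) * ((a + 1 + r) * f i) := by
          have h7 : ((a : ℝ) + 1) * (((a : ℝ) + i + 1) * f (i + 1)) ≤
              ((a : ℝ) + 1) * ((a + i + 1 + r) * f i) :=
            mul_le_mul_of_nonneg_left h3 (by positivity)
          have h8 : ((a : ℝ) + 1) * ((a + i + 1 + r) * f i) ≤
              ((a : ℝ) + i + 1) * ((a + 1 + r) * f i) := by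
            have h9 : (((a : ℝ) + 1) * (a + i + 1 + r)) ≤ ((a : ℝ) + i + 1) * (a + 1 + r) := by
              nlinarith [mul_nonneg hi0 hr0]
            nlinarith
          nlinarith
        exact le_of_mul_le_mul_left h6 (by positivity)
      have h6 : 0 ≤ (a : ℝ) + 1 - (i + 1) * r := by linarith
      have h7 := mul_le_mul_of_nonneg_left h5 h6
      have h8 : ((a : ℝ) + 1 - (i + 1) * r) * (a + 1 + r) ≤ (a + 1) * (a + 1 - i * r) := by
        nlinarith [mul_nonneg hi0 hr0, mul_nonneg hr0 hr0, mul_nonneg (mul_nonneg hi0 hr0) hr0]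
      have h9 : ((a : ℝ) + 1 - (i + 1) * r) * ((a + 1 + r) * f i) ≤
          (a + 1) * ((a + 1 - i * r) * f i) := by
        nlinarith
      have h10 : ((a : ℝ) + 1) * ((a + 1 - (i + 1) * r) * f (i + 1)) ≤
          (a + 1) * ((a + 1) * f 0) := by
        have : ((a : ℝ) + 1) * ((a + 1 - i * r) * f i) ≤ (a + 1) * ((a + 1) * f 0) :=
          mul_le_mul_of_nonneg_left h2 (by positivity)
        nlinarith
      have h11 := le_of_mul_le_mul_left h10 (by positivity)
      push_cast
      linarith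
  have h1 : t * r ≤ a + 1 := by
    have : 2 * t * r = 2 * (t * r) := by ring
    omega
  have h2 := key t h1
  have h3 : (2 : ℝ) * t * r ≤ a + 1 := by exact_mod_cast ha
  have h4 : (f t : ℝ) ≤ 2 * f 0 := by
    have h5 : (0 : ℝ) ≤ f t := by positivity
    have h6 : ((a : ℝ) + 1) * f t ≤ (a + 1) * (2 * f 0) := by nlinarith
    exact le_of_mul_le_mul_left h6 (by positivity)
  have h5 : f t ≤ 2 * f 0 := by exact_mod_cast h4
  exact h5

end Pool.Agent.Lib.GGL.CR
end

section

/-!
The auxiliary polynomial at the generic point: linear algebra.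
-/

open Filter Topology MvPolynomial MeasureTheory Module

namespace Pool.Agent.Lib.GGL.CV

open CR (JIx A0 A1 phi growth_two)

section B1

variable {K E : Type*} [Field K] [Field E] [Algebra K E] {J M : ℕ}

theorem b1_fg_A0 (w : JIx J M → E) : (A0 K w).FG :=
  Submodule.fg_span ((Set.finite_range _).insert 1)

theorem b1_fg_A1 (w : JIx J M → E) : (A1 K w).FG :=
  Submodule.fg_span ((Set.finite_range _).insert 1)

theorem b1_fin (w : JIx J M → E) (a b : ℕ) : FiniteDimensional K ↥(A0 K w ^ a * A1 K w ^ b) :=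
  Module.Finite.iff_fg.mpr (((b1_fg_A0 w).pow a).mul ((b1_fg_A1 w).pow b))

theorem b1_one_A0 (w : JIx J M → E) : (1 : Submodule K E) ≤ A0 K w := by
  rw [Submodule.one_le]
  exact Submodule.subset_span (Set.mem_insert 1 _)

theorem b1_one_A1 (w : JIx J M → E) : (1 : Submodule K E) ≤ A1 K w := by
  rw [Submodule.one_le]
  exact Submodule.subset_span (Set.mem_insert 1 _)

theorem b1_mono (w : JIx J M → E) {a a' b b' : ℕ} (ha : a ≤ a') (hb : b ≤ b') :
    A0 K w ^ a * A1 K w ^ b ≤ A0 K w ^ a' * A1 K w ^ b' :=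
  mul_le_mul' (pow_le_pow_right' (b1_one_A0 w) ha) (pow_le_pow_right' (b1_one_A1 w) hb)

theorem b1_mul_mem (w : JIx J M → E) {a a' b b' : ℕ} {x y : E} (hx : x ∈ A0 K w ^ a * A1 K w ^ b)
    (hy : y ∈ A0 K w ^ a' * A1 K w ^ b') : x * y ∈ A0 K w ^ (a + a') * A1 K w ^ (b + b') := by
  have h := Submodule.mul_mem_mul hx hy
  have h1 : A0 K w ^ a * A1 K w ^ b * (A0 K w ^ a' * A1 K w ^ b') =
      A0 K w ^ (a + a') * A1 K w ^ (b + b') := by
    rw [pow_add, pow_add, mul_mul_mul_comm]
  rwa [h1] at h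

/-- The coefficient of order `c` has degree at most `m` in the coordinates of order zero and at most
`c` in the coordinates of positive order. -/
def B1G (K : Type*) {E : Type*} [Field K] [Field E] [Algebra K E] {J M : ℕ} (w : JIx J M → E)
    (m : ℕ) (f : Polynomial E) : Prop :=
  ∀ c, f.coeff c ∈ A0 K w ^ m * A1 K w ^ c

theorem B1G.one (w : JIx J M → E) : B1G K w 0 1 := by
  intro c
  rw [Polynomial.coeff_one]
  split_ifs with h
  · rw [h, pow_zero, pow_zero, one_mul]
    exact Submodule.one_le.mp le_rfl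
  · exact Submodule.zero_mem _

theorem B1G.mul {w : JIx J M → E} {m m' : ℕ} {f f' : Polynomial E} (h : B1G K w m f)
    (h' : B1G K w m' f') : B1G K w (m + m') (f * f') := by
  intro c
  rw [Polynomial.coeff_mul]
  refine Submodule.sum_mem _ fun x hx => ?_
  have h1 := b1_mul_mem w (h x.1) (h' x.2)
  rw [Finset.HasAntidiagonal.mem_antidiagonal.mp hx] at h1
  exact h1

theorem B1G.pow {w : JIx J M → E} {m : ℕ} {f : Polynomial E} (h : B1G K w m f) (k : ℕ) :
    B1G K w (m * k) (f ^ k) := by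
  induction k with
  | zero => rw [mul_zero, pow_zero]; exact B1G.one w
  | succ k ih => rw [pow_succ, mul_add_one]; exact ih.mul h

theorem B1G.mono {w : JIx J M → E} {m m' : ℕ} {f : Polynomial E} (h : B1G K w m f)
    (hm : m ≤ m') : B1G K w m' f := fun c => b1_mono w hm le_rfl (h c)

theorem B1G.phi (w : JIx J M → E) (b : Fin M) : B1G K w 1 (phi w b) := by
  intro c
  unfold CR.phi
  rw [Polynomial.finsetSum_coeff]
  refine Submodule.sum_mem _ fun l _ => ?_
  rw [Polynomial.coeff_C_mul, Polynomial.coeff_X_pow]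
  split_ifs with h
  · rw [mul_one, h]
    rcases Fin.eq_zero_or_eq_succ l with h0 | ⟨l', h0⟩
    · rw [h0]
      have h1 : w (0, b) ∈ A0 K w ^ 1 * A1 K w ^ 0 := by
        rw [pow_one, pow_zero, mul_one]
        exact Submodule.subset_span (Set.mem_insert_of_mem _ ⟨b, rfl⟩)
      exact h1
    · have h1 : w (l, b) ∈ A0 K w ^ 0 * A1 K w ^ 1 := by
        rw [pow_one, pow_zero, one_mul, h0]
        exact Submodule.subset_span (Set.mem_insert_of_mem _ ⟨(l', b), rfl⟩)
      refine b1_mono w (by omega) ?_ h1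
      rw [h0, Fin.val_succ]; omega
  · rw [mul_zero]; exact Submodule.zero_mem _

theorem B1G.prod (w : JIx J M → E) (e : Fin M → ℕ) (A : Finset (Fin M)) :
    B1G K w (∑ c ∈ A, e c) (∏ c ∈ A, CR.phi w c ^ e c) := by
  classical
  induction A using Finset.induction_on with
  | empty => rw [Finset.sum_empty, Finset.prod_empty]; exact B1G.one w
  | insert c A hc ih =>
    rw [Finset.sum_insert hc, Finset.prod_insert hc]
    have h := (B1G.phi (K := K) w c).pow (e c)
    rw [one_mul] at h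
    exact h.mul ih

theorem B1G.cst {N d : ℕ} {T : Type*} [Fintype T] [DecidableEq T] (w : JIx J M → E) {t₀ : T}
    {ex : T → Fin M → ℕ} (hex : ∀ t, ∑ c, ex t c ≤ d) {p : Fin N → T → E}
    (hp : ∀ j t, t ≠ t₀ → p j t ∈ Set.range (algebraMap K E)) (i : Fin N) :
    B1G K w d (CV.cst t₀ ex p w i) := by
  intro c
  unfold CV.cst
  rw [Polynomial.coeff_neg, Polynomial.finsetSum_coeff]
  refine Submodule.neg_mem _ (Submodule.sum_mem _ fun t ht => ?_)
  rw [Polynomial.coeff_C_mul]
  obtain ⟨q, hq⟩ := hp i t (Finset.ne_of_mem_erase ht)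
  rw [← hq, ← Algebra.smul_def]
  exact Submodule.smul_mem _ _ (((B1G.prod w (ex t) Finset.univ).mono (hex t)) c)

/-- The growth of the dimensions. -/
theorem b1_growth (w : JIx J M → E) {a b h : ℕ} (ha : 4 * h * M ≤ a + 1)
    (hb : 2 * J * (J * M) ≤ b + 1) :
    finrank K ↥(A0 K w ^ (a + 2 * h) * A1 K w ^ (b + J)) ≤
      4 * finrank K ↥(A0 K w ^ a * A1 K w ^ b) := by
  have h1 : finrank K ↥(A0 K w ^ (a + 2 * h) * A1 K w ^ (b + J)) ≤
      2 * finrank K ↥(A0 K w ^ a * A1 K w ^ (b + J)) := by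
    have : FiniteDimensional K ↥(A1 K w ^ (b + J)) :=
      Module.Finite.iff_fg.mpr ((b1_fg_A1 w).pow _)
    refine growth_two (fun b : Fin M => w (0, b)) (A1 K w ^ (b + J)) ?_
    rw [Fintype.card_fin]
    have : 2 * (2 * h) * M = 4 * h * M := by ring
    omega
  have h2 : finrank K ↥(A1 K w ^ (b + J) * A0 K w ^ a) ≤
      2 * finrank K ↥(A1 K w ^ b * A0 K w ^ a) := by
    have : FiniteDimensional K ↥(A0 K w ^ a) :=
      Module.Finite.iff_fg.mpr ((b1_fg_A0 w).pow _)
    refine growth_two (fun x : Fin J × Fin M => w (x.1.succ, x.2)) (A0 K w ^ a) ?_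
    rw [Fintype.card_prod, Fintype.card_fin, Fintype.card_fin]
    exact hb
  rw [mul_comm (A1 K w ^ (b + J)), mul_comm (A1 K w ^ b)] at h2
  omega

/-- The restriction of the exponents to the variables different from `i` and `j`. -/
def b1Res {N H : ℕ} (i j : Fin N) (γ : Fin N → Fin H) : {l : Fin N // l ≠ i ∧ l ≠ j} → Fin H :=
  fun l => γ l

theorem b1_card {N : ℕ} {i j : Fin N} (hij : i ≠ j) :
    Fintype.card {l : Fin N // l ≠ i ∧ l ≠ j} = N - 2 := by
  rw [Fintype.card_subtype]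
  have h : (Finset.univ.filter fun l : Fin N => l ≠ i ∧ l ≠ j) = (Finset.univ.erase i).erase j := by
    ext l
    simp only [Finset.mem_filter, Finset.mem_univ, true_and, Finset.mem_erase, and_true]
    exact and_comm
  rw [h, Finset.card_erase_of_mem, Finset.card_erase_of_mem (Finset.mem_univ i), Finset.card_univ,
    Fintype.card_fin]
  · omega
  · rw [Finset.mem_erase]
    exact ⟨hij.symm, Finset.mem_univ j⟩

/-- The indices of the conditions. -/
abbrev B1Ix (N H D : ℕ) : Type :=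
  Σ q : {q : Fin N × Fin N // q.1 ≠ q.2}, ({l : Fin N // l ≠ q.1.1 ∧ l ≠ q.1.2} → Fin H) × Fin D

theorem b1_card_ix (N H D : ℕ) : Fintype.card (B1Ix N H D) ≤ N ^ 2 * (H ^ (N - 2) * D) := by
  rw [Fintype.card_sigma]
  have h : ∀ q : {q : Fin N × Fin N // q.1 ≠ q.2},
      Fintype.card (({l : Fin N // l ≠ q.1.1 ∧ l ≠ q.1.2} → Fin H) × Fin D) = H ^ (N - 2) * D := by
    intro q
    rw [Fintype.card_prod, Fintype.card_fun, Fintype.card_fin, Fintype.card_fin, b1_card q.2]
  rw [Finset.sum_congr rfl fun q _ => h q, Finset.sum_const, smul_eq_mul]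
  refine Nat.mul_le_mul_right _ ?_
  rw [Finset.card_univ]
  refine (Fintype.card_subtype_le _).trans ?_
  rw [Fintype.card_prod, Fintype.card_fin, sq]

theorem b1_card_ix_one (H D : ℕ) : Fintype.card (B1Ix 1 H D) = 0 := by
  rw [Fintype.card_eq_zero_iff]
  refine ⟨fun x => ?_⟩
  exact x.1.2 (Subsingleton.elim _ _)

end B1

theorem siegel {K E : Type} [Field K] [Field E] [Algebra K E] {N J n d g : ℕ} (hg : 1 ≤ g)
    (hJ : J + 1 = 2 * g ^ 2) (hN : 1 ≤ N) {T : Type} [Fintype T] [DecidableEq T] (t₀ : T)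
    (ex : T → Fin n → ℕ) (hex : ∀ t, ∑ c, ex t c ≤ d) (w : JIx J n → E) (p : Fin N → T → E)
    (hp : ∀ j t, t ≠ t₀ → p j t ∈ Set.range (algebraMap K E)) :
    ∃ c : (Fin N → Fin (3 * N * g + 1)) → E, c ≠ 0 ∧
      (∀ γ, c γ ∈ CR.A0 K w ^ (12 * N * g * n * d) * CR.A1 K w ^ (2 * n * J ^ 2)) ∧
      ∀ (x : Fin N → E) (i j : Fin N), i ≠ j →
        (Polynomial.X ^ (J + 1) : Polynomial E) ∣
          ∑ γ, Polynomial.C (c γ) *
            ∏ l, (if l = i ∨ l = j then cst t₀ ex p w l else Polynomial.C (x l)) ^ (γ l : ℕ) := by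
  classical
  set h : ℕ := 3 * N * g with hh
  set a : ℕ := 12 * N * g * n * d with ha
  set b : ℕ := 2 * n * J ^ 2 with hb
  have hfin := b1_fin (K := K) w a b
  have hfin' := b1_fin (K := K) w (a + 2 * (h * d)) (b + J)
  -- the functional for one condition
  have hmem : ∀ (q : B1Ix N (h + 1) (J + 1)) (γ : Fin N → Fin (h + 1)) (v : E),
      v ∈ A0 K w ^ a * A1 K w ^ b →
      (v * (cst t₀ ex p w q.1.1.1 ^ (γ q.1.1.1 : ℕ) * cst t₀ ex p w q.1.1.2 ^ (γ q.1.1.2 : ℕ)).coeff
        (q.2.2 : ℕ)) ∈ A0 K w ^ (a + 2 * (h * d)) * A1 K w ^ (b + J) := by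
    intro q γ v hv
    have h1 := (((B1G.cst w hex hp q.1.1.1).pow (γ q.1.1.1 : ℕ)).mul
      ((B1G.cst w hex hp q.1.1.2).pow (γ q.1.1.2 : ℕ))) (q.2.2 : ℕ)
    have h2 := b1_mul_mem w hv h1
    refine b1_mono w ?_ ?_ h2
    · have h3 : (γ q.1.1.1 : ℕ) ≤ h := by have := (γ q.1.1.1).2; omega
      have h4 : (γ q.1.1.2 : ℕ) ≤ h := by have := (γ q.1.1.2).2; omega
      have h5 := Nat.mul_le_mul_left d h3
      have h6 := Nat.mul_le_mul_left d h4
      rw [mul_comm h d]
      omega
    · have h5 := q.2.2.2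
      omega
  let Φ : (q : B1Ix N (h + 1) (J + 1)) →
      ((Fin N → Fin (h + 1)) → ↥(A0 K w ^ a * A1 K w ^ b)) →ₗ[K]
        ↥(A0 K w ^ (a + 2 * (h * d)) * A1 K w ^ (b + J)) := fun q =>
    { toFun := fun c => ∑ γ, if b1Res q.1.1.1 q.1.1.2 γ = q.2.1 then
        ⟨_, hmem q γ (c γ) (c γ).2⟩ else 0
      map_add' := by
        intro c c'
        rw [← Finset.sum_add_distrib]
        refine Finset.sum_congr rfl fun γ _ => ?_
        split_ifs
        · refine Subtype.ext ?_
          show ((c γ : E) + (c' γ : E)) * _ = (c γ : E) * _ + (c' γ : E) * _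
          rw [add_mul]
        · rw [add_zero]
      map_smul' := by
        intro k c
        rw [RingHom.id_apply, Finset.smul_sum]
        refine Finset.sum_congr rfl fun γ _ => ?_
        split_ifs
        · refine Subtype.ext ?_
          show (k • (c γ : E)) * _ = k • ((c γ : E) * _)
          rw [smul_mul_assoc]
        · rw [smul_zero] }
  have hdim : finrank K (B1Ix N (h + 1) (J + 1) → ↥(A0 K w ^ (a + 2 * (h * d)) * A1 K w ^ (b + J))) <
      finrank K ((Fin N → Fin (h + 1)) → ↥(A0 K w ^ a * A1 K w ^ b)) := by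
    rw [Module.finrank_pi_fintype, Module.finrank_pi_fintype, Finset.sum_const, Finset.sum_const,
      smul_eq_mul, smul_eq_mul, Finset.card_univ, Finset.card_univ, Fintype.card_fun,
      Fintype.card_fin, Fintype.card_fin]
    have hpos : 0 < finrank K ↥(A0 K w ^ a * A1 K w ^ b) := by
      have h1 : (1 : E) ∈ A0 K w ^ a * A1 K w ^ b := by
        have h2 := b1_mono (K := K) w (Nat.zero_le a) (Nat.zero_le b)
        refine h2 ?_
        rw [pow_zero, pow_zero, one_mul]
        exact Submodule.one_le.mp le_rfl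
      have : Nontrivial ↥(A0 K w ^ a * A1 K w ^ b) :=
        ⟨⟨⟨1, h1⟩, 0, fun h => one_ne_zero (congrArg Subtype.val h)⟩⟩
      exact Module.finrank_pos
    have hgr : finrank K ↥(A0 K w ^ (a + 2 * (h * d)) * A1 K w ^ (b + J)) ≤
        4 * finrank K ↥(A0 K w ^ a * A1 K w ^ b) := by
      refine b1_growth (h := h * d) w ?_ ?_
      · rw [ha, hh]
        have : 4 * (3 * N * g * d) * n = 12 * N * g * n * d := by ring
        omega
      · rw [hb]
        have : 2 * J * (J * n) = 2 * n * J ^ 2 := by ring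
        omega
    set D := finrank K ↥(A0 K w ^ a * A1 K w ^ b) with hD
    rcases Nat.lt_or_ge N 2 with hN2 | hN2
    · have hN1 : N = 1 := by omega
      subst hN1
      rw [b1_card_ix_one, zero_mul]
      positivity
    · have h1 := b1_card_ix N (h + 1) (J + 1)
      have h2 : Fintype.card (B1Ix N (h + 1) (J + 1)) *
          finrank K ↥(A0 K w ^ (a + 2 * (h * d)) * A1 K w ^ (b + J)) ≤
          N ^ 2 * ((h + 1) ^ (N - 2) * (J + 1)) * (4 * D) := Nat.mul_le_mul h1 hgr
      refine lt_of_le_of_lt h2 ?_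
      have h3 : (h + 1) ^ N = (h + 1) ^ (N - 2) * (h + 1) ^ 2 := by
        rw [← pow_add]; congr 1; omega
      rw [h3, hJ]
      have h4 : N ^ 2 * ((h + 1) ^ (N - 2) * (2 * g ^ 2)) * (4 * D) =
          (h + 1) ^ (N - 2) * (8 * (N * g) ^ 2) * D := by ring
      rw [h4]
      have h5 : 8 * (N * g) ^ 2 < (h + 1) ^ 2 := by
        rw [hh]; nlinarith
      have h6 : 0 < (h + 1) ^ (N - 2) := by positivity
      exact Nat.mul_lt_mul_of_pos_right (Nat.mul_lt_mul_of_pos_left h5 h6) hpos
  have hker := LinearMap.ker_ne_bot_of_finrank_lt (f := LinearMap.pi Φ) hdim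
  obtain ⟨c, hc, hc0⟩ := Submodule.exists_mem_ne_zero_of_ne_bot hker
  rw [LinearMap.mem_ker] at hc
  refine ⟨fun γ => (c γ : E), ?_, fun γ => (c γ).2, ?_⟩
  · intro h0
    apply hc0
    funext γ
    exact Subtype.ext (congrFun h0 γ)
  · intro x i j hij
    rw [Polynomial.X_pow_dvd_iff]
    intro e hd
    have hprod : ∀ γ : Fin N → Fin (h + 1),
        (∏ l, (if l = i ∨ l = j then cst t₀ ex p w l else Polynomial.C (x l)) ^ (γ l : ℕ)) =
        Polynomial.C (∏ l : {l : Fin N // l ≠ i ∧ l ≠ j}, x l ^ (b1Res i j γ l : ℕ)) *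
          (cst t₀ ex p w i ^ (γ i : ℕ) * cst t₀ ex p w j ^ (γ j : ℕ)) := by
      intro γ
      rw [← Finset.prod_filter_mul_prod_filter_not Finset.univ (fun l : Fin N => l ≠ i ∧ l ≠ j)]
      congr 1
      · rw [map_prod, Finset.prod_subtype (Finset.univ.filter fun l : Fin N => l ≠ i ∧ l ≠ j)
          (p := fun l => l ≠ i ∧ l ≠ j) (fun l => by simp)]
        refine Finset.prod_congr rfl fun l _ => ?_
        rw [if_neg (by rintro (h1 | h1); exacts [l.2.1 h1, l.2.2 h1]), map_pow]
        rfl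
      · have h1 : (Finset.univ.filter fun l : Fin N => ¬ (l ≠ i ∧ l ≠ j)) = {i, j} := by
          ext l
          simp only [Finset.mem_filter, Finset.mem_univ, true_and, Finset.mem_insert,
            Finset.mem_singleton]
          tauto
        rw [h1, Finset.prod_pair hij, if_pos (Or.inl rfl), if_pos (Or.inr rfl)]
    simp only [hprod]
    rw [Polynomial.finsetSum_coeff]
    have hco : ∀ γ : Fin N → Fin (h + 1),
        (Polynomial.C (c γ : E) *
          (Polynomial.C (∏ l : {l : Fin N // l ≠ i ∧ l ≠ j}, x l ^ (b1Res i j γ l : ℕ)) *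
          (cst t₀ ex p w i ^ (γ i : ℕ) * cst t₀ ex p w j ^ (γ j : ℕ)))).coeff e =
        (∏ l : {l : Fin N // l ≠ i ∧ l ≠ j}, x l ^ (b1Res i j γ l : ℕ)) *
          ((c γ : E) * (cst t₀ ex p w i ^ (γ i : ℕ) * cst t₀ ex p w j ^ (γ j : ℕ)).coeff e) := by
      intro γ
      rw [Polynomial.coeff_C_mul, Polynomial.coeff_C_mul]
      ring
    simp only [hco]
    rw [← Finset.sum_fiberwise (Finset.univ : Finset (Fin N → Fin (h + 1))) (b1Res i j)]
    refine Finset.sum_eq_zero fun γ' _ => ?_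
    have h1 := congrFun hc ⟨⟨(i, j), hij⟩, (γ', ⟨e, hd⟩)⟩
    have h2 : (((LinearMap.pi Φ) c ⟨⟨(i, j), hij⟩, (γ', ⟨e, hd⟩)⟩ :
        ↥(A0 K w ^ (a + 2 * (h * d)) * A1 K w ^ (b + J))) : E) = 0 := by rw [h1]; rfl
    have h3 : (((LinearMap.pi Φ) c ⟨⟨(i, j), hij⟩, (γ', ⟨e, hd⟩)⟩ :
        ↥(A0 K w ^ (a + 2 * (h * d)) * A1 K w ^ (b + J))) : E) =
        ∑ γ : Fin N → Fin (h + 1), if b1Res i j γ = γ' then
          (c γ : E) * (cst t₀ ex p w i ^ (γ i : ℕ) * cst t₀ ex p w j ^ (γ j : ℕ)).coeff e else 0 := by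
      rw [LinearMap.pi_apply]
      show (((∑ γ : Fin N → Fin (h + 1), if b1Res i j γ = γ' then
        (⟨_, hmem ⟨⟨(i, j), hij⟩, (γ', ⟨e, hd⟩)⟩ γ (c γ) (c γ).2⟩ :
          ↥(A0 K w ^ (a + 2 * (h * d)) * A1 K w ^ (b + J))) else 0 :
          ↥(A0 K w ^ (a + 2 * (h * d)) * A1 K w ^ (b + J)))) : E) = _
      rw [AddSubmonoidClass.coe_finsetSum]
      refine Finset.sum_congr rfl fun γ _ => ?_
      split_ifs <;> rfl
    rw [h3] at h2
    rw [← Finset.sum_filter] at h2
    have h4 : ∀ γ ∈ Finset.univ.filter (fun γ : Fin N → Fin (h + 1) => b1Res i j γ = γ'),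
        (∏ l : {l : Fin N // l ≠ i ∧ l ≠ j}, x l ^ (b1Res i j γ l : ℕ)) *
          ((c γ : E) * (cst t₀ ex p w i ^ (γ i : ℕ) * cst t₀ ex p w j ^ (γ j : ℕ)).coeff e) =
        (∏ l : {l : Fin N // l ≠ i ∧ l ≠ j}, x l ^ (γ' l : ℕ)) *
          ((c γ : E) * (cst t₀ ex p w i ^ (γ i : ℕ) * cst t₀ ex p w j ^ (γ j : ℕ)).coeff e) := by
      intro γ hγ
      rw [(Finset.mem_filter.mp hγ).2]
    rw [Finset.sum_congr rfl h4, ← Finset.mul_sum, h2, mul_zero]

end Pool.Agent.Lib.GGL.CV
end

section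

/-!
Clearing denominators.
-/

open Filter Topology MvPolynomial MeasureTheory Module

namespace Pool.Agent.Lib.GGL.CV

open CR (JIx)


/-- The polynomials in the coefficients other than the `(l, t₀)`, and in the jets, of degree at
most `a` in the coordinates of order zero of the jet and of degree at most `b` in the others. -/
def Bdd {N J n : ℕ} {T : Type*} (t₀ : T) (a b : ℕ) (k : MvPolynomial ((Fin N × T) ⊕ JIx J n) ℂ) :
    Prop :=
  ∀ m ∈ k.support, (∀ l, m (Sum.inl (l, t₀)) = 0) ∧ ∑ c : Fin n, m (Sum.inr (0, c)) ≤ a ∧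
    ∑ x : Fin J × Fin n, m (Sum.inr (x.1.succ, x.2)) ≤ b

theorem Bdd.weight {N J n a b : ℕ} {T : Type*} {t₀ : T}
    {k : MvPolynomial ((Fin N × T) ⊕ JIx J n) ℂ}
    (hk : Bdd t₀ a b k) : ∀ m ∈ k.support, jw m ≤ a + (J + 1) * b := by
  intro m hm
  obtain ⟨-, h0, h1⟩ := hk m hm
  unfold jw
  rw [Fintype.sum_prod_type, Fin.sum_univ_succ]
  refine Nat.add_le_add ?_ ?_
  · simpa using h0
  · rw [Fintype.sum_prod_type] at h1
    refine le_trans ?_ (Nat.mul_le_mul_left (J + 1) h1)
    rw [Finset.mul_sum]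
    refine Finset.sum_le_sum fun l _ => ?_
    rw [Finset.mul_sum]
    refine Finset.sum_le_sum fun c _ => ?_
    rw [mul_comm]
    refine Nat.mul_le_mul_right _ ?_
    change ((l.succ : Fin (J + 1)) : ℕ) + 1 ≤ J + 1
    have := l.succ.is_lt
    omega

section

variable {N J n : ℕ} {T : Type} {t₀ : T}

private theorem b3_add {a b : ℕ} {k k' : MvPolynomial ((Fin N × T) ⊕ JIx J n) ℂ}
    (hk : Bdd t₀ a b k) (hk' : Bdd t₀ a b k') : Bdd t₀ a b (k + k') := by
  classical
  intro m hm
  rcases Finset.mem_union.1 (MvPolynomial.support_add hm) with h | h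
  · exact hk m h
  · exact hk' m h

private theorem b3_mul {a b a' b' : ℕ}
    {k k' : MvPolynomial ((Fin N × T) ⊕ JIx J n) ℂ}
    (hk : Bdd t₀ a b k) (hk' : Bdd t₀ a' b' k') : Bdd t₀ (a + a') (b + b') (k * k') := by
  classical
  intro m hm
  obtain ⟨m₁, h₁, m₂, h₂, rfl⟩ := Finset.mem_add.1 (MvPolynomial.support_mul k k' hm)
  obtain ⟨h1, h2, h3⟩ := hk m₁ h₁
  obtain ⟨h4, h5, h6⟩ := hk' m₂ h₂
  refine ⟨fun l => ?_, ?_, ?_⟩
  · rw [Finsupp.add_apply, h1 l, h4 l]
  · simp only [Finsupp.add_apply, Finset.sum_add_distrib]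
    exact Nat.add_le_add h2 h5
  · simp only [Finsupp.add_apply, Finset.sum_add_distrib]
    exact Nat.add_le_add h3 h6

private theorem b3_mono {a b a' b' : ℕ} {k : MvPolynomial ((Fin N × T) ⊕ JIx J n) ℂ}
    (hk : Bdd t₀ a b k) (ha : a ≤ a') (hb : b ≤ b') : Bdd t₀ a' b' k := fun m hm =>
  ⟨(hk m hm).1, (hk m hm).2.1.trans ha, (hk m hm).2.2.trans hb⟩

private theorem b3_C (c : ℂ) :
    Bdd t₀ 0 0 (C c : MvPolynomial ((Fin N × T) ⊕ JIx J n) ℂ) := by
  classical
  intro m hm
  rw [MvPolynomial.mem_support_iff, MvPolynomial.coeff_C] at hm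
  have h0 : m = 0 := by
    by_contra hne
    exact hm (if_neg fun h => hne h.symm)
  subst h0
  simp

private theorem b3_X (x : (Fin N × T) ⊕ JIx J n) {a b : ℕ}
    (h1 : ∀ l, Finsupp.single x 1 (Sum.inl (l, t₀)) = 0)
    (h2 : ∑ c : Fin n, Finsupp.single x 1 (Sum.inr (0, c)) ≤ a)
    (h3 : ∑ y : Fin J × Fin n, Finsupp.single x 1 (Sum.inr (y.1.succ, y.2)) ≤ b) :
    Bdd t₀ a b (X x : MvPolynomial ((Fin N × T) ⊕ JIx J n) ℂ) := by
  classical
  intro m hm
  rw [MvPolynomial.mem_support_iff, MvPolynomial.coeff_X'] at hm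
  have h0 : m = Finsupp.single x 1 := by
    by_contra hne
    exact hm (if_neg fun h => hne h.symm)
  subst h0
  exact ⟨h1, h2, h3⟩

/-- Some multiple of `u`, by a value of a polynomial in the hyperplanes without their constant
terms, is the value of a polynomial which is bounded by `a` and `b`. -/
private def b3_P {E : Type} [Field E] [Algebra ℂ E] (t₀ : T) (p : Fin N → T → E)
    (w : JIx J n → E) (a b : ℕ) (u : E) : Prop :=
  ∃ d k : MvPolynomial ((Fin N × T) ⊕ JIx J n) ℂ, Bdd t₀ 0 0 d ∧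
    aeval (ppt p w) d ≠ 0 ∧ Bdd t₀ a b k ∧ aeval (ppt p w) k = aeval (ppt p w) d * u

variable {E : Type} [Field E] [Algebra ℂ E] {p : Fin N → T → E} {w : JIx J n → E}

private theorem b3_P_add {a b : ℕ} {u v : E} (hu : b3_P t₀ p w a b u) (hv : b3_P t₀ p w a b v) :
    b3_P t₀ p w a b (u + v) := by
  obtain ⟨d, k, hd, hd0, hk, hku⟩ := hu
  obtain ⟨d', k', hd', hd0', hk', hkv⟩ := hv
  refine ⟨d * d', k * d' + k' * d, b3_mul hd hd', ?_, b3_add ?_ ?_, ?_⟩
  · rw [map_mul]
    exact mul_ne_zero hd0 hd0'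
  · exact b3_mul hk hd'
  · exact b3_mul hk' hd
  · rw [map_add, map_mul, map_mul, map_mul, hku, hkv]
    ring

private theorem b3_P_mul {a b a' b' : ℕ} {u v : E} (hu : b3_P t₀ p w a b u)
    (hv : b3_P t₀ p w a' b' v) : b3_P t₀ p w (a + a') (b + b') (u * v) := by
  obtain ⟨d, k, hd, hd0, hk, hku⟩ := hu
  obtain ⟨d', k', hd', hd0', hk', hkv⟩ := hv
  refine ⟨d * d', k * k', b3_mul hd hd', ?_, b3_mul hk hk', ?_⟩
  · rw [map_mul]
    exact mul_ne_zero hd0 hd0'
  · rw [map_mul, map_mul, hku, hkv]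
    ring

private theorem b3_P_mono {a b a' b' : ℕ} {u : E} (hu : b3_P t₀ p w a b u) (ha : a ≤ a')
    (hb : b ≤ b') : b3_P t₀ p w a' b' u := by
  obtain ⟨d, k, hd, hd0, hk, hku⟩ := hu
  exact ⟨d, k, hd, hd0, b3_mono hk ha hb, hku⟩

private theorem b3_P_of {a b : ℕ} {u : E}
    {k : MvPolynomial ((Fin N × T) ⊕ JIx J n) ℂ} (hk : Bdd t₀ a b k)
    (hu : aeval (ppt p w) k = u) : b3_P t₀ p w a b u := by
  refine ⟨C 1, k, b3_C 1, ?_, hk, ?_⟩
  · rw [map_one, map_one]
    exact one_ne_zero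
  · rw [map_one, map_one, one_mul, hu]

private theorem b3_P_algebraMap (c : ℂ) : b3_P t₀ p w 0 0 (algebraMap ℂ E c) :=
  b3_P_of (b3_C c) (by rw [aeval_C])

private theorem b3_P_field {u : E}
    (hu : u ∈ IntermediateField.adjoin ℂ (Set.range fun x : Fin N × {t : T // t ≠ t₀} => p x.1 x.2)) :
    b3_P t₀ p w 0 0 u := by
  classical
  induction hu using IntermediateField.adjoin_induction with
  | mem x hx =>
    obtain ⟨y, rfl⟩ := hx
    refine b3_P_of (k := X (Sum.inl (y.1, y.2.1))) (b3_X _ ?_ ?_ ?_) ?_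
    · intro l
      rw [Finsupp.single_apply, if_neg]
      intro h
      exact y.2.2 (Prod.ext_iff.1 (Sum.inl_injective h)).2
    · refine le_of_eq (Finset.sum_eq_zero fun c _ => ?_)
      rw [Finsupp.single_apply, if_neg Sum.inl_ne_inr]
    · refine le_of_eq (Finset.sum_eq_zero fun c _ => ?_)
      rw [Finsupp.single_apply, if_neg Sum.inl_ne_inr]
    · rw [aeval_X]
      rfl
  | algebraMap x => exact b3_P_algebraMap x
  | add x y _ _ hx hy => exact b3_P_add hx hy
  | inv x _ hx =>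
    by_cases h0 : x = 0
    · rw [h0, inv_zero, ← map_zero (algebraMap ℂ E)]
      exact b3_P_algebraMap 0
    · obtain ⟨d, k, hd, hd0, hk, hku⟩ := hx
      refine ⟨k, d, hk, ?_, hd, ?_⟩
      · rw [hku]
        exact mul_ne_zero hd0 h0
      · rw [hku, mul_assoc, mul_inv_cancel₀ h0, mul_one]
  | mul x y _ _ hx hy => exact b3_P_mul hx hy

variable {K : IntermediateField ℂ E}

private theorem b3_P_span
    (hK : K = IntermediateField.adjoin ℂ (Set.range fun x : Fin N × {t : T // t ≠ t₀} => p x.1 x.2))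
    {a b : ℕ} {s : Set E} (hs : ∀ u ∈ s, b3_P t₀ p w a b u) {u : E}
    (hu : u ∈ Submodule.span K s) : b3_P t₀ p w a b u := by
  induction hu using Submodule.span_induction with
  | mem x hx => exact hs x hx
  | zero =>
    rw [← map_zero (algebraMap ℂ E)]
    exact b3_P_mono (b3_P_algebraMap 0) (Nat.zero_le _) (Nat.zero_le _)
  | add x y _ _ hx hy => exact b3_P_add hx hy
  | smul c x _ hx =>
    have h1 : b3_P t₀ p w 0 0 (c : E) := by
      refine b3_P_field ?_
      rw [← hK]
      exact c.2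
    have h2 := b3_P_mul h1 hx
    rw [zero_add, zero_add] at h2
    exact h2

private theorem b3_A0
    (hK : K = IntermediateField.adjoin ℂ (Set.range fun x : Fin N × {t : T // t ≠ t₀} => p x.1 x.2))
    {u : E} (hu : u ∈ CR.A0 K w) : b3_P t₀ p w 1 0 u := by
  classical
  refine b3_P_span hK ?_ hu
  rintro v (rfl | ⟨c, rfl⟩)
  · rw [← map_one (algebraMap ℂ E)]
    exact b3_P_mono (b3_P_algebraMap 1) (Nat.zero_le _) (Nat.zero_le _)
  · refine b3_P_of (k := X (Sum.inr (0, c))) (b3_X _ ?_ ?_ ?_) ?_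
    · intro l
      rw [Finsupp.single_apply, if_neg Sum.inr_ne_inl]
    · rw [Finset.sum_eq_single c]
      · rw [Finsupp.single_eq_same]
      · intro c' _ hne
        rw [Finsupp.single_apply, if_neg]
        intro h
        exact hne (Prod.ext_iff.1 (Sum.inr_injective h)).2.symm
      · intro h
        exact absurd (Finset.mem_univ _) h
    · refine le_of_eq (Finset.sum_eq_zero fun y _ => ?_)
      rw [Finsupp.single_apply, if_neg]
      intro h
      exact (Fin.succ_ne_zero y.1) (Prod.ext_iff.1 (Sum.inr_injective h)).1.symm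
    · rw [aeval_X]
      rfl

private theorem b3_A1
    (hK : K = IntermediateField.adjoin ℂ (Set.range fun x : Fin N × {t : T // t ≠ t₀} => p x.1 x.2))
    {u : E} (hu : u ∈ CR.A1 K w) : b3_P t₀ p w 0 1 u := by
  classical
  refine b3_P_span hK ?_ hu
  rintro v (rfl | ⟨x, rfl⟩)
  · rw [← map_one (algebraMap ℂ E)]
    exact b3_P_mono (b3_P_algebraMap 1) (Nat.zero_le _) (Nat.zero_le _)
  · refine b3_P_of (k := X (Sum.inr (x.1.succ, x.2))) (b3_X _ ?_ ?_ ?_) ?_
    · intro l
      rw [Finsupp.single_apply, if_neg Sum.inr_ne_inl]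
    · refine le_of_eq (Finset.sum_eq_zero fun c _ => ?_)
      rw [Finsupp.single_apply, if_neg]
      intro h
      exact (Fin.succ_ne_zero x.1) (Prod.ext_iff.1 (Sum.inr_injective h)).1
    · rw [Finset.sum_eq_single x]
      · rw [Finsupp.single_eq_same]
      · intro y _ hne
        rw [Finsupp.single_apply, if_neg]
        intro h
        have h1 := Prod.ext_iff.1 (Sum.inr_injective h)
        exact hne (Prod.ext (Fin.succ_injective _ h1.1).symm h1.2.symm)
      · intro h
        exact absurd (Finset.mem_univ _) h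
    · rw [aeval_X]
      rfl

private theorem b3_pow
    (hK : K = IntermediateField.adjoin ℂ (Set.range fun x : Fin N × {t : T // t ≠ t₀} => p x.1 x.2))
    {S : Submodule K E} {a b : ℕ} (hS : ∀ u ∈ S, b3_P t₀ p w a b u) (n : ℕ) :
    ∀ u ∈ S ^ n, b3_P t₀ p w (n * a) (n * b) u := by
  induction n with
  | zero =>
    intro u hu
    rw [pow_zero] at hu
    obtain ⟨c, rfl⟩ := Submodule.mem_one.1 hu
    rw [zero_mul, zero_mul]
    refine b3_P_field ?_
    rw [← hK]
    exact c.2
  | succ n ih =>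
    intro u hu
    rw [pow_succ] at hu
    induction hu using Submodule.mul_induction_on' with
    | mem_mul_mem x hx y hy =>
      have h1 := b3_P_mul (ih x hx) (hS y hy)
      rwa [← Nat.succ_mul, ← Nat.succ_mul] at h1
    | add x _ y _ hx hy => exact b3_P_add hx hy

end

/-- Clearing denominators. -/
theorem clear_denominators {N J n a b : ℕ} {E : Type} [Field E] [Algebra ℂ E] {T : Type}
    [Fintype T] [DecidableEq T] (t₀ : T)
    (p : Fin N → T → E) (w : JIx J n → E) (K : IntermediateField ℂ E)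
    (hK : K = IntermediateField.adjoin ℂ (Set.range fun x : Fin N × {t : T // t ≠ t₀} =>
      p x.1 x.2)) {ι : Type} [Fintype ι] (c : ι → E)
    (hc : ∀ γ, c γ ∈ CR.A0 K w ^ a * CR.A1 K w ^ b) :
    ∃ (d : E) (k : ι → MvPolynomial ((Fin N × T) ⊕ JIx J n) ℂ), d ≠ 0 ∧
      ∀ γ, Bdd t₀ a b (k γ) ∧ aeval (ppt p w) (k γ) = d * c γ := by
  classical
  have h1 : ∀ γ, b3_P t₀ p w a b (c γ) := by
    intro γ
    refine Submodule.mul_induction_on (hc γ) (fun x hx y hy => ?_) fun x y hx hy => b3_P_add hx hy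
    have h2 := b3_pow hK (fun u hu => b3_A0 hK hu) a x hx
    have h3 := b3_pow hK (fun u hu => b3_A1 hK hu) b y hy
    have h4 := b3_P_mul h2 h3
    rwa [mul_one, mul_zero, mul_zero, mul_one, add_zero, zero_add] at h4
  choose d k hd hd0 hk hkc using h1
  refine ⟨∏ γ, aeval (ppt p w) (d γ), fun γ => k γ * ∏ γ' ∈ Finset.univ.erase γ, d γ',
    Finset.prod_ne_zero_iff.2 fun γ _ => hd0 γ, fun γ => ⟨?_, ?_⟩⟩
  · have h2 : ∀ s : Finset ι, Bdd t₀ 0 0 (∏ γ' ∈ s, d γ') := by
      intro s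
      induction s using Finset.induction_on with
      | empty =>
        rw [Finset.prod_empty, ← map_one C]
        exact b3_C 1
      | insert γ' s hγ' ih =>
        rw [Finset.prod_insert hγ']
        exact b3_mul (hd γ') ih
    exact b3_mul (hk γ) (h2 _)
  · rw [map_mul, map_prod, hkc γ, ← Finset.mul_prod_erase Finset.univ _ (Finset.mem_univ γ)]
    ring

end Pool.Agent.Lib.GGL.CV
end

section

/-!
The auxiliary polynomial.
-/

open Filter Topology MvPolynomial MeasureTheory Module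

namespace Pool.Agent.Lib.GGL.CV

open CR (JIx)


/-! ### Naturality of the crossing point -/

private lemma b4_cst_map {N J n : ℕ} {T R S : Type*} [Fintype T] [DecidableEq T] [CommRing R]
    [CommRing S] (ψ : R →+* S) (t₀ : T) (ex : T → Fin n → ℕ)
    (p : Fin N → T → R) (w : JIx J n → R) (i : Fin N) :
    (cst t₀ ex p w i).map ψ = cst t₀ ex (fun l b => ψ (p l b)) (fun x => ψ (w x)) i := by
  have hphi : ∀ c, (CR.phi w c).map ψ = CR.phi (fun x => ψ (w x)) c := by
    intro c
    unfold CR.phi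
    rw [Polynomial.map_sum]
    refine Finset.sum_congr rfl fun l _ => ?_
    rw [Polynomial.map_mul, Polynomial.map_C, Polynomial.map_pow, Polynomial.map_X]
  unfold cst
  rw [Polynomial.map_neg, Polynomial.map_sum]
  congr 1
  refine Finset.sum_congr rfl fun b _ => ?_
  rw [Polynomial.map_mul, Polynomial.map_C, Polynomial.map_prod]
  congr 1
  refine Finset.prod_congr rfl fun c _ => ?_
  rw [Polynomial.map_pow, hphi]

private lemma b4_crossPt_map {N J n : ℕ} {T R S : Type*} [Fintype T] [DecidableEq T] [CommRing R]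
    [CommRing S] (ψ : R →+* S) (t₀ : T) (ex : T → Fin n → ℕ)
    (p : Fin N → T → R) (w : JIx J n → R) (i j : Fin N) (x : (Fin N × T) ⊕ JIx J n) :
    (crossPt t₀ ex p w i j x).map ψ =
      crossPt t₀ ex (fun l b => ψ (p l b)) (fun x => ψ (w x)) i j x := by
  unfold crossPt
  rcases x with x | x
  · simp only [Sum.elim_inl]
    split_ifs
    · exact b4_cst_map ψ t₀ ex p w x.1
    · exact Polynomial.map_C ψ
  · simp only [Sum.elim_inr]
    exact Polynomial.map_C ψ

private lemma b4_aeval_map {N J n : ℕ} {T R S : Type*} [Fintype T] [DecidableEq T] [CommRing R]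
    [CommRing S] [Algebra ℂ R] [Algebra ℂ S] (ψ : R →ₐ[ℂ] S) (t₀ : T) (ex : T → Fin n → ℕ)
    (p : Fin N → T → R) (w : JIx J n → R) (i j : Fin N)
    (Q : MvPolynomial ((Fin N × T) ⊕ JIx J n) ℂ) :
    (aeval (crossPt t₀ ex p w i j) Q).map (ψ : R →+* S) =
      aeval (crossPt t₀ ex (fun l b => ψ (p l b)) (fun x => ψ (w x)) i j) Q := by
  have h1 := MvPolynomial.comp_aeval_apply (crossPt t₀ ex p w i j) (Polynomial.mapAlgHom ψ) Q
  have h2 : (fun x => Polynomial.mapAlgHom ψ (crossPt t₀ ex p w i j x)) =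
      crossPt t₀ ex (fun l b => ψ (p l b)) (fun x => ψ (w x)) i j := by
    funext x
    exact b4_crossPt_map (ψ : R →+* S) t₀ ex p w i j x
  rw [h2] at h1
  exact h1

/-- A polynomial that does not involve the constant terms is constant along the crossing point. -/
private lemma b4_const {N J n : ℕ} {T E : Type*} [Fintype T] [DecidableEq T] [CommRing E]
    [Algebra ℂ E] (t₀ : T) (ex : T → Fin n → ℕ)
    (p : Fin N → T → E) (w : JIx J n → E) (i j : Fin N)
    {k : MvPolynomial ((Fin N × T) ⊕ JIx J n) ℂ}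
    (hk : ∀ m ∈ k.support, ∀ l, m (Sum.inl (l, t₀)) = 0) :
    aeval (crossPt t₀ ex p w i j) k = Polynomial.C (aeval (ppt p w) k) := by
  have h1 := MvPolynomial.comp_aeval_apply (ppt p w) (Polynomial.CAlgHom (R := ℂ) (A := E)) k
  have h2 : (Polynomial.CAlgHom (R := ℂ) (A := E)) (aeval (ppt p w) k) =
      Polynomial.C (aeval (ppt p w) k) := rfl
  rw [← h2, h1, MvPolynomial.aeval_def, MvPolynomial.aeval_def, MvPolynomial.eval₂_eq,
    MvPolynomial.eval₂_eq]
  refine Finset.sum_congr rfl fun m hm => ?_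
  congr 1
  refine Finset.prod_congr rfl fun x hx => ?_
  congr 1
  rcases x with ⟨l, b⟩ | x
  · have hb : b ≠ t₀ := by
      rintro rfl
      exact (Finsupp.mem_support_iff.1 hx) (hk m hm l)
    unfold crossPt ppt
    simp only [Sum.elim_inl]
    rw [if_neg fun h => hb h.2]
    rfl
  · rfl

/-! ### The weight -/

private lemma b4_jw_add {N J n : ℕ} {T : Type*} (m : (Fin N × T) ⊕ JIx J n →₀ ℕ)
    (x : Fin N × T) (e : ℕ) : jw (m + Finsupp.single (Sum.inl x) e) = jw m := by
  classical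
  unfold jw
  refine Finset.sum_congr rfl fun y _ => ?_
  rw [Finsupp.add_apply, Finsupp.single_eq_of_ne (by simp), add_zero]

private lemma b4_weight {N J n A : ℕ} {T : Type*} (t₀ : T)
    {k : MvPolynomial ((Fin N × T) ⊕ JIx J n) ℂ}
    (hk : ∀ m ∈ k.support, jw m ≤ A) (s : Finset (Fin N)) (γ : Fin N → ℕ) :
    ∀ m ∈ (k * ∏ l ∈ s, X (Sum.inl (l, t₀)) ^ γ l).support, jw m ≤ A := by
  classical
  induction s using Finset.induction_on with
  | empty =>
    rw [Finset.prod_empty, mul_one]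
    exact hk
  | insert l s hl ih =>
    intro m hm
    rw [Finset.prod_insert hl, ← mul_assoc, mul_comm k, mul_assoc, X_pow_eq_monomial] at hm
    rw [MvPolynomial.mem_support_iff, coeff_monomial_mul'] at hm
    split_ifs at hm with h1
    · rw [one_mul] at hm
      have h2 := ih _ (MvPolynomial.mem_support_iff.2 hm)
      have h3 : m = m - Finsupp.single (Sum.inl (l, t₀)) (γ l) +
          Finsupp.single (Sum.inl (l, t₀)) (γ l) := (tsub_add_cancel_of_le h1).symm
      rw [h3, b4_jw_add]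
      exact h2
    · exact absurd rfl hm

/-! ### Independence -/

private lemma b4_mem {N J n : ℕ} {T E : Type} [Field E] [Algebra ℂ E] (t₀ : T)
    {w : JIx J n → E} {p : Fin N × T → E} {F : Subalgebra ℂ E} (hF : ∀ i, w i ∈ F)
    {k : MvPolynomial ((Fin N × T) ⊕ JIx J n) ℂ}
    (hk : ∀ m ∈ k.support, ∀ l, m (Sum.inl (l, t₀)) = 0) :
    aeval (Sum.elim p w) k ∈
      Algebra.adjoin F (Set.range fun q : Fin N × {t : T // t ≠ t₀} => p (q.1, q.2)) := by
  classical
  rw [MvPolynomial.aeval_def, MvPolynomial.eval₂_eq]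
  refine Subalgebra.sum_mem _ fun m hm => Subalgebra.mul_mem _ ?_ (Subalgebra.prod_mem _ fun x hx =>
    Subalgebra.pow_mem _ ?_ _)
  · exact Subalgebra.algebraMap_mem _ (⟨algebraMap ℂ E (coeff m k), F.algebraMap_mem _⟩ : F)
  · rcases x with ⟨l, b⟩ | x
    · have hb : b ≠ t₀ := by
        rintro rfl
        exact (Finsupp.mem_support_iff.1 hx) (hk m hm l)
      exact Algebra.subset_adjoin ⟨(l, ⟨b, hb⟩), rfl⟩
    · exact Subalgebra.algebraMap_mem _ (⟨w x, hF x⟩ : F)

private lemma b4_indep {N h : ℕ} {T E : Type} [Field E] [Algebra ℂ E] (t₀ : T)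
    {p : Fin N × T → E} {F : Subalgebra ℂ E} (hp : AlgebraicIndependent F p)
    (c : (Fin N → Fin (h + 1)) → E)
    (hc : ∀ γ, c γ ∈ Algebra.adjoin F
      (Set.range fun q : Fin N × {t : T // t ≠ t₀} => p (q.1, q.2)))
    (h0 : ∑ γ, c γ * ∏ l, p (l, t₀) ^ (γ l : ℕ) = 0) : ∀ γ, c γ = 0 := by
  classical
  let f : Fin N ⊕ (Fin N × {t : T // t ≠ t₀}) → Fin N × T :=
    Sum.elim (fun l => (l, t₀)) fun q => (q.1, q.2)
  have hf : Function.Injective f := by
    rintro (l | q) (l' | q') h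
    · have h1 : ((l, t₀) : Fin N × T) = (l', t₀) := h
      rw [(Prod.mk.inj h1).1]
    · have h1 : ((l, t₀) : Fin N × T) = (q'.1, (q'.2 : T)) := h
      exact absurd (Prod.mk.inj h1).2.symm q'.2.2
    · have h1 : ((q.1, (q.2 : T)) : Fin N × T) = (l', t₀) := h
      exact absurd (Prod.mk.inj h1).2 q.2.2
    · have h1 : ((q.1, (q.2 : T)) : Fin N × T) = (q'.1, (q'.2 : T)) := h
      have h2 := Prod.mk.inj h1
      rw [Prod.ext h2.1 (Subtype.ext h2.2)]
  have h1 := hp.comp f hf
  have h2 : p ∘ f = Sum.elim (fun l => p (l, t₀))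
      (fun q : Fin N × {t : T // t ≠ t₀} => p (q.1, q.2)) := by
    funext x
    rcases x with x | x <;> rfl
  rw [h2, AlgebraicIndependent.sumElim_iff] at h1
  have h3 := h1.2
  obtain ⟨F₁, hF₁⟩ : ∃ F₁, F₁ = Algebra.adjoin F (Set.range fun q : Fin N × {t : T // t ≠ t₀} =>
    p (q.1, q.2)) := ⟨_, rfl⟩
  rw [← hF₁] at h3 hc
  let e : (Fin N → Fin (h + 1)) → (Fin N →₀ ℕ) := fun γ =>
    Finsupp.equivFunOnFinite.symm fun l => (γ l : ℕ)
  have he : Function.Injective e := by
    intro γ γ' hγ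
    funext l
    have h4 : (fun l => (γ l : ℕ)) = fun l => (γ' l : ℕ) :=
      Finsupp.equivFunOnFinite.symm.injective hγ
    exact Fin.ext (congrFun h4 l)
  obtain ⟨Q, hQ⟩ : ∃ Q : MvPolynomial (Fin N) F₁, Q = ∑ γ, monomial (e γ) (⟨c γ, hc γ⟩ : F₁) :=
    ⟨_, rfl⟩
  have h5 : aeval (fun l => p (l, t₀)) Q = 0 := by
    rw [hQ, map_sum, ← h0]
    refine Finset.sum_congr rfl fun γ _ => ?_
    rw [aeval_monomial, Finsupp.prod_fintype _ _ fun i => pow_zero _]
    rfl
  have h6 : Q = 0 := h3.eq_zero_of_aeval_eq_zero Q h5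
  intro γ
  have h7 : coeff (e γ) Q = (⟨c γ, hc γ⟩ : F₁) := by
    rw [hQ, coeff_sum, Finset.sum_eq_single γ]
    · rw [coeff_monomial, if_pos rfl]
    · intro γ' _ hγ'
      rw [coeff_monomial, if_neg fun h => hγ' (he h)]
    · intro h
      exact absurd (Finset.mem_univ γ) h
  rw [h6, coeff_zero] at h7
  exact (congrArg Subtype.val h7).symm

/-- The auxiliary polynomial. -/
theorem exists_aux {N J n d g : ℕ} (hg : 1 ≤ g) (hJ : J + 1 = 2 * g ^ 2) (hN : 1 ≤ N)
    {T : Type} [Fintype T] [DecidableEq T] (t₀ : T) (ex : T → Fin n → ℕ)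
    (hex : ∀ t, ∑ c, ex t c ≤ d) (𝔞 : Ideal (MvPolynomial (JIx J n) ℂ)) [𝔞.IsPrime] :
    ∃ F : MvPolynomial ((Fin N × T) ⊕ JIx J n) ℂ,
      (∃ m, coeff m (sumAlgEquiv ℂ (Fin N × T) (JIx J n) F) ∉ 𝔞) ∧
      (∀ m ∈ F.support, jw m ≤ 12 * N * g * n * d + 2 * n * (J + 1) ^ 3) ∧
      ∀ (p : Fin N → T → ℂ) (w : JIx J n → ℂ), (∀ G ∈ 𝔞, eval w G = 0) →
        ∀ i j : Fin N, i ≠ j →
          (Polynomial.X ^ (J + 1) : Polynomial ℂ) ∣ aeval (crossPt t₀ ex p w i j) F := by
  obtain ⟨E, hE1, hE2, w, p0, F₀, hw, hF, hp⟩ :=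
    CR.exists_generic (σ := JIx J n) (τ := Fin N × T) 𝔞
  obtain ⟨p, hpdef⟩ : ∃ p : Fin N → T → E, p = fun l b => p0 (l, b) := ⟨_, rfl⟩
  have hppt : (ppt p w : (Fin N × T) ⊕ JIx J n → E) = Sum.elim p0 w := by
    rw [hpdef]
    rfl
  obtain ⟨K, hK⟩ : ∃ K : IntermediateField ℂ E, K = IntermediateField.adjoin ℂ
    (Set.range fun x : Fin N × {t : T // t ≠ t₀} => p x.1 x.2) := ⟨_, rfl⟩
  have hpK : ∀ j t, t ≠ t₀ → p j t ∈ Set.range (algebraMap K E) := by
    intro j b hb
    have h1 : p j b ∈ K := by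
      rw [hK]
      exact IntermediateField.subset_adjoin _ _ ⟨(j, ⟨b, hb⟩), rfl⟩
    exact ⟨⟨_, h1⟩, rfl⟩
  obtain ⟨c, hc0, hcA, hcs⟩ := siegel (K := K) hg hJ hN t₀ ex hex w p hpK
  obtain ⟨d', k, hd, hk⟩ := clear_denominators t₀ p w K hK c hcA
  obtain ⟨F, hFdef⟩ : ∃ F : MvPolynomial ((Fin N × T) ⊕ JIx J n) ℂ,
      F = ∑ γ, k γ * ∏ l, X (Sum.inl (l, t₀)) ^ (γ l : ℕ) := ⟨_, rfl⟩
  have hk0 : ∀ γ, ∀ m ∈ (k γ).support, ∀ l, m (Sum.inl (l, t₀)) = 0 := fun γ m hm =>
    ((hk γ).1 m hm).1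
  refine ⟨F, ?_, ?_, ?_⟩
  · -- not in the ideal
    refine CR.exists_coeff hw (p := p0) (Q := F) fun h0 => ?_
    have h1 : ∑ γ, (d' * c γ) * ∏ l, p0 (l, t₀) ^ (γ l : ℕ) = 0 := by
      rw [← h0, hFdef, map_sum]
      refine Finset.sum_congr rfl fun γ _ => ?_
      rw [map_mul, ← hppt, (hk γ).2, map_prod]
      congr 1
      refine Finset.prod_congr rfl fun l _ => ?_
      rw [map_pow, aeval_X, hppt]
      rfl
    have h2 := b4_indep t₀ hp (fun γ => d' * c γ) (fun γ => ?_) h1
    · apply hc0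
      funext γ
      have h3 : d' * c γ = 0 := h2 γ
      exact (mul_eq_zero.1 h3).resolve_left hd
    · show d' * c γ ∈ _
      rw [← (hk γ).2, hppt]
      exact b4_mem t₀ hF (hk0 γ)
  · -- weight
    intro m hm
    rw [hFdef] at hm
    obtain ⟨γ, -, hγ⟩ := Finset.mem_biUnion.1 (MvPolynomial.support_sum hm)
    have h1 := b4_weight t₀ (Bdd.weight (hk γ).1) Finset.univ (fun l => (γ l : ℕ)) m hγ
    refine h1.trans ?_
    have h2 : (J + 1) * (2 * n * J ^ 2) ≤ 2 * n * (J + 1) ^ 3 := by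
      have h3 : J ^ 2 ≤ (J + 1) ^ 2 := Nat.pow_le_pow_left (Nat.le_succ J) 2
      calc (J + 1) * (2 * n * J ^ 2) = 2 * n * (J + 1) * J ^ 2 := by ring
        _ ≤ 2 * n * (J + 1) * (J + 1) ^ 2 := Nat.mul_le_mul_left _ h3
        _ = _ := by ring
    omega
  · -- crossing
    intro p' w' hw' i j hij
    obtain ⟨U, hU⟩ : ∃ U : Polynomial (MvPolynomial ((Fin N × T) ⊕ JIx J n) ℂ),
        U = aeval (crossPt t₀ ex (fun l b => X (Sum.inl (l, b))) (fun x => X (Sum.inr x)) i j) F :=
      ⟨_, rfl⟩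
    have hmap : ∀ (R : Type) [CommRing R] [Algebra ℂ R] (q : Fin N → T → R)
        (v : JIx J n → R), U.map ((aeval (ppt q v) :
          MvPolynomial ((Fin N × T) ⊕ JIx J n) ℂ →ₐ[ℂ] R) : _ →+* R) =
          aeval (crossPt t₀ ex q v i j) F := by
      intro R _ _ q v
      rw [hU, b4_aeval_map]
      have e1 : (fun l b => aeval (ppt q v) (X (Sum.inl (l, b)) :
          MvPolynomial ((Fin N × T) ⊕ JIx J n) ℂ)) = q := by
        funext l b
        rw [aeval_X]
        rfl
      have e2 : (fun x => aeval (ppt q v) (X (Sum.inr x) :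
          MvPolynomial ((Fin N × T) ⊕ JIx J n) ℂ)) = v := by
        funext x
        rw [aeval_X]
        rfl
      rw [e1, e2]
    have hgen : (Polynomial.X ^ (J + 1) : Polynomial E) ∣ aeval (crossPt t₀ ex p w i j) F := by
      have h1 : aeval (crossPt t₀ ex p w i j) F = Polynomial.C d' * ∑ γ, Polynomial.C (c γ) *
          ∏ l, (if l = i ∨ l = j then cst t₀ ex p w l else Polynomial.C (p l t₀)) ^ (γ l : ℕ) := by
        rw [hFdef, map_sum, Finset.mul_sum]
        refine Finset.sum_congr rfl fun γ _ => ?_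
        rw [map_mul, b4_const t₀ ex p w i j (hk0 γ), (hk γ).2, Polynomial.C_mul, mul_assoc,
          map_prod]
        congr 2
        refine Finset.prod_congr rfl fun l _ => ?_
        rw [map_pow, aeval_X]
        congr 1
        unfold crossPt
        simp only [Sum.elim_inl, and_true]
      rw [h1]
      exact Dvd.dvd.mul_left (hcs (fun l => p l t₀) i j hij) _
    rw [Polynomial.X_pow_dvd_iff] at hgen ⊢
    intro e he
    have h2 := hgen e he
    rw [← hmap E p w, Polynomial.coeff_map] at h2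
    have h3 : aeval (Sum.elim p0 w) (U.coeff e) = 0 := by
      rw [← hppt]
      exact h2
    have h4 := CR.specialize hw hF hp h3 (fun x => p' x.1 x.2) w' hw'
    rw [← hmap ℂ p' w', Polynomial.coeff_map]
    show aeval (ppt p' w') (U.coeff e) = 0
    rw [MvPolynomial.aeval_eq_eval]
    exact h4

end Pool.Agent.Lib.GGL.CV
end
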