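import Mathlib
import Pool.Agent.Lib.MP_8d161d_ag.CR.Defs
import Pool.Agent.Lib.MP_8d161d_ag.CV.Defs
import Pool.Agent.Lib.MP_8d161d_ag.Mg.G015
import Pool.Agent.Lib.MP_8d161d_ag.CR.K1

section

/-!
The jets of the affine curve.
-/

open Filter Topology MvPolynomial MeasureTheory Module

namespace Pool.Agent.Lib.GGL.CR

private theorem c1_coord {M : ℕ} {Y : ℂ → Fin (M + 1) → ℂ} (hY : Differentiable ℂ Y)
    (i : Fin (M + 1)) : Differentiable ℂ (fun z => Y z i) :=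
  differentiable_pi.1 hY i

private theorem c1_deriv {f : ℂ → ℂ} (hf : Differentiable ℂ f) : Differentiable ℂ (deriv f) := by
  rw [← differentiableOn_univ] at hf ⊢
  exact hf.deriv isOpen_univ

theorem num_differentiable {M : ℕ} {Y : ℂ → Fin (M + 1) → ℂ} (hY : Differentiable ℂ Y)
    (i : Fin (M + 1)) (l : ℕ) : Differentiable ℂ (num Y i l) := by
  induction l with
  | zero => exact c1_coord hY i
  | succ l ih =>
    have h0 := c1_coord hY 0
    exact (h0.mul (c1_deriv ih)).sub (((c1_deriv h0).const_mul _).mul ih)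

/-- The quotients are the iterated derivatives. -/
theorem deriv_quot {M : ℕ} {Y : ℂ → Fin (M + 1) → ℂ} (hY : Differentiable ℂ Y)
    (i : Fin (M + 1)) (l : ℕ) {z : ℂ} (hz : Y z 0 ≠ 0) :
    HasDerivAt (fun z => num Y i l z / Y z 0 ^ (l + 1)) (num Y i (l + 1) z / Y z 0 ^ (l + 2)) z := by
  have h0 : HasDerivAt (fun z => Y z 0) (deriv (fun z => Y z 0) z) z :=
    (c1_coord hY 0 z).hasDerivAt
  have h1 : HasDerivAt (num Y i l) (deriv (num Y i l) z) z :=
    (num_differentiable hY i l z).hasDerivAt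
  have h2 := h1.div (h0.pow (l + 1)) (pow_ne_zero _ hz)
  refine h2.congr_deriv ?_
  have h3 : num Y i (l + 1) z = Y z 0 * deriv (num Y i l) z -
      ((l : ℂ) + 1) * deriv (fun z => Y z 0) z * num Y i l z := rfl
  rw [h3]
  simp only [Nat.add_sub_cancel, Nat.cast_add, Nat.cast_one, Pi.pow_apply]
  field_simp
  ring

theorem auxFun_differentiable {N J M : ℕ} (A : ℕ)
    (F : MvPolynomial ((Fin N × Fin (M + 1)) ⊕ JIx J M) ℂ) (p : Fin N → Fin (M + 1) → ℂ)
    {Y : ℂ → Fin (M + 1) → ℂ} (hY : Differentiable ℂ Y) : Differentiable ℂ (auxFun A F p Y) := by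
  unfold auxFun
  refine Differentiable.fun_sum fun m _ => ?_
  refine Differentiable.const_mul ?_ _
  refine ((c1_coord hY 0).pow _).mul ?_
  refine Differentiable.fun_finsetProd fun x _ => ?_
  exact ((num_differentiable hY _ _).div_const _).pow _

theorem auxFun_eq {N J M A : ℕ} {F : MvPolynomial ((Fin N × Fin (M + 1)) ⊕ JIx J M) ℂ}
    (hF : ∀ m ∈ F.support, jw m ≤ A) (p : Fin N → Fin (M + 1) → ℂ)
    {Y : ℂ → Fin (M + 1) → ℂ} {z : ℂ} (hz : Y z 0 ≠ 0) :
    auxFun A F p Y z = Y z 0 ^ A * eval (ppt p (jet J Y z)) F := by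
  rw [eval_eq', auxFun, Finset.mul_sum]
  refine Finset.sum_congr rfl fun m hm => ?_
  rw [Fintype.prod_sum_type]
  have h1 : ∏ x : JIx J M, (num Y x.2.succ x.1 z / ((x.1 : ℕ).factorial : ℂ)) ^ m (Sum.inr x) =
      Y z 0 ^ jw m * ∏ x : JIx J M, ppt p (jet J Y z) (Sum.inr x) ^ m (Sum.inr x) := by
    rw [jw, ← Finset.prod_pow_eq_pow_sum, ← Finset.prod_mul_distrib]
    refine Finset.prod_congr rfl fun x _ => ?_
    have h2 : ppt p (jet J Y z) (Sum.inr x) =
        num Y x.2.succ x.1 z / (((x.1 : ℕ).factorial : ℂ) * Y z 0 ^ ((x.1 : ℕ) + 1)) := rfl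
    rw [h2, mul_comm (m (Sum.inr x)) _, pow_mul, ← mul_pow]
    congr 1
    have h3 : (((x.1 : ℕ).factorial : ℂ)) ≠ 0 := Nat.cast_ne_zero.2 (Nat.factorial_ne_zero _)
    field_simp
  have h4 : ∏ x : Fin N × Fin (M + 1), ppt p (jet J Y z) (Sum.inl x) ^ m (Sum.inl x) =
      ∏ x : Fin N × Fin (M + 1), p x.1 x.2 ^ m (Sum.inl x) := rfl
  have h5 : Y z 0 ^ (A - jw m) * Y z 0 ^ jw m = Y z 0 ^ A := by
    rw [← pow_add, Nat.sub_add_cancel (hF m hm)]
  rw [h1, h4, ← h5]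
  ring

/-- The ideal of the relations between the jets is prime. -/
theorem jets_irreducible {J M : ℕ} {Y : ℂ → Fin (M + 1) → ℂ} (hY : Differentiable ℂ Y)
    (h0 : ∃ z, Y z 0 ≠ 0) {f g : MvPolynomial (JIx J M) ℂ}
    (h : ∀ z, Y z 0 ≠ 0 → eval (jet J Y z) (f * g) = 0) :
    (∀ z, Y z 0 ≠ 0 → eval (jet J Y z) f = 0) ∨ ∀ z, Y z 0 ≠ 0 → eval (jet J Y z) g = 0 := by
  obtain ⟨z₀, hz₀⟩ := h0
  have key : ∀ F : MvPolynomial (JIx J M) ℂ, ∃ (A : ℕ) (G : ℂ → ℂ), Differentiable ℂ G ∧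
      ∀ z, Y z 0 ≠ 0 → G z = Y z 0 ^ A * eval (jet J Y z) F := by
    intro F
    let F' : MvPolynomial ((Fin 0 × Fin (M + 1)) ⊕ JIx J M) ℂ := rename Sum.inr F
    refine ⟨F'.support.sup jw, auxFun (F'.support.sup jw) F' (fun i => i.elim0) Y,
      auxFun_differentiable _ _ _ hY, fun z hz => ?_⟩
    rw [auxFun_eq (fun m hm => Finset.le_sup hm) _ hz]
    congr 1
    rw [eval_rename]
    rfl
  obtain ⟨A, G, hG, hG'⟩ := key f
  obtain ⟨B, H, hH, hH'⟩ := key g
  have hY0 := c1_coord hY 0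
  have hU : IsPreconnected (Set.univ : Set ℂ) := isPreconnected_univ
  have h1 : ∀ z ∈ (Set.univ : Set ℂ), ((fun z => Y z 0) z) * ((fun z => G z * H z) z) = 0 := by
    intro z _
    by_cases hz : Y z 0 = 0
    · simp [hz]
    · have h2 : eval (jet J Y z) f * eval (jet J Y z) g = 0 := by
        rw [← map_mul]
        exact h z hz
      simp only [hG' z hz, hH' z hz]
      rcases mul_eq_zero.1 h2 with h3 | h3 <;> simp [h3]
  have hA : ∀ {k : ℂ → ℂ}, Differentiable ℂ k → AnalyticOnNhd ℂ k Set.univ := fun hk =>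
    hk.differentiableOn.analyticOnNhd isOpen_univ
  rcases AnalyticOnNhd.eq_zero_or_eq_zero_of_mul_eq_zero (hA hY0) (hA (hG.mul hH)) h1 hU with
    h2 | h2
  · exact absurd (h2 z₀ trivial) hz₀
  · rcases AnalyticOnNhd.eq_zero_or_eq_zero_of_mul_eq_zero (hA hG) (hA hH) h2 hU with h3 | h3
    · refine Or.inl fun z hz => ?_
      have h4 := h3 z trivial
      rw [hG' z hz] at h4
      exact (mul_eq_zero.1 h4).resolve_left (pow_ne_zero _ hz)
    · refine Or.inr fun z hz => ?_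
      have h4 := h3 z trivial
      rw [hH' z hz] at h4
      exact (mul_eq_zero.1 h4).resolve_left (pow_ne_zero _ hz)

end Pool.Agent.Lib.GGL.CR
end

section

/-!
The order of the auxiliary function at the crossing points.
-/

open Filter Topology MvPolynomial MeasureTheory Module

namespace Pool.Agent.Lib.GGL.CR

private theorem c2_telescope {M : ℕ} {Y : ℂ → Fin (M + 1) → ℂ} (hY : Differentiable ℂ Y)
    (i : Fin (M + 1)) (z₀ : ℂ) (J : ℕ) {z : ℂ} (hz : Y z 0 ≠ 0) :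
    HasDerivAt (fun z => ∑ l ∈ Finset.range (J + 1),
        num Y i l z / Y z 0 ^ (l + 1) * ((z₀ - z) ^ l / (l.factorial : ℂ)))
      (num Y i (J + 1) z / Y z 0 ^ (J + 2) * ((z₀ - z) ^ J / (J.factorial : ℂ))) z := by
  induction J with
  | zero =>
    have h1 := deriv_quot hY i 0 hz
    simpa using h1
  | succ J ih =>
    have h1 := deriv_quot hY i (J + 1) hz
    have h2 : HasDerivAt (fun z : ℂ => (z₀ - z) ^ (J + 1) / (((J + 1).factorial : ℕ) : ℂ))
        (-((z₀ - z) ^ J / (J.factorial : ℂ))) z := by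
      have h3 : HasDerivAt (fun z : ℂ => z₀ - z) (-1) z := by
        simpa using (hasDerivAt_id z).const_sub z₀
      have h4 := (h3.pow (J + 1)).div_const (((J + 1).factorial : ℕ) : ℂ)
      refine h4.congr_deriv ?_
      have h5 : ((J.factorial : ℕ) : ℂ) ≠ 0 := Nat.cast_ne_zero.2 (Nat.factorial_ne_zero _)
      have h6 : ((J : ℂ) + 1) ≠ 0 := Nat.cast_add_one_ne_zero J
      rw [Nat.factorial_succ]
      push_cast
      field_simp
    have h7 := ih.add (h1.mul h2)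
    have h8 : (fun z => ∑ l ∈ Finset.range (J + 1 + 1),
        num Y i l z / Y z 0 ^ (l + 1) * ((z₀ - z) ^ l / (l.factorial : ℂ))) =
        (fun z => ∑ l ∈ Finset.range (J + 1),
        num Y i l z / Y z 0 ^ (l + 1) * ((z₀ - z) ^ l / (l.factorial : ℂ))) +
        ((fun z => num Y i (J + 1) z / Y z 0 ^ (J + 1 + 1)) *
          fun z : ℂ => (z₀ - z) ^ (J + 1) / (((J + 1).factorial : ℕ) : ℂ)) := by
      funext z
      rw [Finset.sum_range_succ]
      rfl
    rw [h8]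
    refine h7.congr_deriv ?_
    ring

/-- Taylor's formula with moving centre. -/
theorem taylor_moving {J M : ℕ} {Y : ℂ → Fin (M + 1) → ℂ} (hY : Differentiable ℂ Y) {z₀ : ℂ}
    (h0 : Y z₀ 0 ≠ 0) (b : Fin M) :
    ∃ C : ℝ, 0 ≤ C ∧ ∀ᶠ z in 𝓝 z₀,
      ‖(phi (jet J Y z) b).eval (z₀ - z) - Y z₀ b.succ / Y z₀ 0‖ ≤ C * ‖z - z₀‖ ^ (J + 1) := by
  have hY0 : Continuous fun z => Y z 0 := (differentiable_pi.1 hY 0).continuous
  have hphi : ∀ z, (phi (jet J Y z) b).eval (z₀ - z) = ∑ l ∈ Finset.range (J + 1),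
      num Y b.succ l z / Y z 0 ^ (l + 1) * ((z₀ - z) ^ l / (l.factorial : ℂ)) := by
    intro z
    rw [phi, Polynomial.eval_finsetSum, ← Fin.sum_univ_eq_sum_range (fun l =>
      num Y b.succ l z / Y z 0 ^ (l + 1) * ((z₀ - z) ^ l / (l.factorial : ℂ))) (J + 1)]
    refine Finset.sum_congr rfl fun l _ => ?_
    rw [Polynomial.eval_mul, Polynomial.eval_C, Polynomial.eval_pow, Polynomial.eval_X]
    have h1 : jet J Y z (l, b) =
      num Y b.succ (l : ℕ) z / (((l : ℕ).factorial : ℂ) * Y z 0 ^ ((l : ℕ) + 1)) := rfl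
    rw [h1, div_mul_div_comm, div_mul_eq_mul_div, mul_comm (((l : ℕ).factorial : ℂ)) _]
  have hcont : ContinuousAt (fun z => ‖num Y b.succ (J + 1) z / Y z 0 ^ (J + 2)‖) z₀ := by
    refine ContinuousAt.norm ?_
    exact (num_differentiable hY _ _).continuous.continuousAt.div (hY0.pow _).continuousAt
      (pow_ne_zero _ h0)
  have he1 : ∀ᶠ z in 𝓝 z₀, ‖num Y b.succ (J + 1) z / Y z 0 ^ (J + 2)‖ <
      ‖num Y b.succ (J + 1) z₀ / Y z₀ 0 ^ (J + 2)‖ + 1 :=
    hcont.eventually_lt continuousAt_const (by linarith)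
  have he2 : ∀ᶠ z in 𝓝 z₀, Y z 0 ≠ 0 := hY0.continuousAt.eventually_ne h0
  obtain ⟨ε, hε, hball⟩ := Metric.eventually_nhds_iff_ball.1 (he1.and he2)
  set K : ℝ := ‖num Y b.succ (J + 1) z₀ / Y z₀ 0 ^ (J + 2)‖ + 1 with hK
  have hK0 : 0 ≤ K := by positivity
  refine ⟨K, hK0, ?_⟩
  filter_upwards [Metric.ball_mem_nhds z₀ hε] with z hz
  have hsub : Metric.closedBall z₀ ‖z - z₀‖ ⊆ Metric.ball z₀ ε :=
    Metric.closedBall_subset_ball (by rwa [← dist_eq_norm, ← Metric.mem_ball])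
  have hz1 : z ∈ Metric.closedBall z₀ ‖z - z₀‖ := by
    rw [Metric.mem_closedBall, dist_eq_norm]
  have hz2 : z₀ ∈ Metric.closedBall z₀ ‖z - z₀‖ := Metric.mem_closedBall_self (norm_nonneg _)
  have hmv := (convex_closedBall z₀ ‖z - z₀‖).norm_image_sub_le_of_norm_hasDerivWithin_le
    (f := fun z => ∑ l ∈ Finset.range (J + 1),
      num Y b.succ l z / Y z 0 ^ (l + 1) * ((z₀ - z) ^ l / (l.factorial : ℂ)))
    (f' := fun z => num Y b.succ (J + 1) z / Y z 0 ^ (J + 2) *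
      ((z₀ - z) ^ J / (J.factorial : ℂ))) (C := K * ‖z - z₀‖ ^ J)
    (fun y hy => (c2_telescope hY b.succ z₀ J (hball y (hsub hy)).2).hasDerivWithinAt)
    (fun y hy => by
      have h1 : ‖num Y b.succ (J + 1) y / Y y 0 ^ (J + 2)‖ ≤ K := (hball y (hsub hy)).1.le
      have h2 : ‖(z₀ - y) ^ J / (J.factorial : ℂ)‖ ≤ ‖z - z₀‖ ^ J := by
        rw [norm_div, norm_pow, Complex.norm_natCast]
        have h3 : ‖z₀ - y‖ ≤ ‖z - z₀‖ := by
          rw [norm_sub_rev, ← dist_eq_norm]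
          exact hy
        have h4 : (1 : ℝ) ≤ (J.factorial : ℝ) := by
          exact_mod_cast Nat.one_le_iff_ne_zero.2 (Nat.factorial_ne_zero J)
        calc ‖z₀ - y‖ ^ J / (J.factorial : ℝ) ≤ ‖z₀ - y‖ ^ J :=
              div_le_self (by positivity) h4
          _ ≤ ‖z - z₀‖ ^ J := pow_le_pow_left₀ (norm_nonneg _) h3 J
      rw [norm_mul]
      exact mul_le_mul h1 h2 (norm_nonneg _) hK0) hz2 hz1
  have hR0 : ∑ l ∈ Finset.range (J + 1), num Y b.succ l z₀ / Y z₀ 0 ^ (l + 1) *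
      ((z₀ - z₀) ^ l / (l.factorial : ℂ)) = Y z₀ b.succ / Y z₀ 0 := by
    rw [Finset.sum_range_succ']
    have h1 : ∑ l ∈ Finset.range J, num Y b.succ (l + 1) z₀ / Y z₀ 0 ^ (l + 1 + 1) *
        ((z₀ - z₀) ^ (l + 1) / ((l + 1).factorial : ℂ)) = 0 := by
      refine Finset.sum_eq_zero fun l _ => ?_
      rw [sub_self, zero_pow (Nat.succ_ne_zero l), zero_div, mul_zero]
    rw [h1]
    simp [num]
  rw [hphi z, ← hR0, pow_succ, ← mul_assoc]
  exact hmv

private theorem c2_order_of_bound {f : ℂ → ℂ} {z₀ : ℂ} (hf : AnalyticAt ℂ f z₀) {n : ℕ} {C : ℝ}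
    (h : ∀ᶠ z in 𝓝 z₀, ‖f z‖ ≤ C * ‖z - z₀‖ ^ n) : ((n : ℕ) : ℕ∞) ≤ analyticOrderAt f z₀ := by
  by_contra hlt
  rw [not_le] at hlt
  obtain ⟨m, hm⟩ := ENat.ne_top_iff_exists.1 (ne_top_of_lt hlt)
  rw [← hm] at hlt
  have hmn : m < n := by exact_mod_cast hlt
  obtain ⟨g, hg, hg0, hfg⟩ := hf.analyticOrderAt_eq_natCast.1 hm.symm
  have h1 : ∀ᶠ z in 𝓝[≠] z₀, ‖g z‖ ≤ C * ‖z - z₀‖ ^ (n - m) := by
    filter_upwards [h.filter_mono nhdsWithin_le_nhds, hfg.filter_mono nhdsWithin_le_nhds,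
      self_mem_nhdsWithin] with z h2 h3 h4
    have h5 : 0 < ‖z - z₀‖ := norm_pos_iff.2 (sub_ne_zero.2 h4)
    have h6 : 0 < ‖z - z₀‖ ^ m := pow_pos h5 m
    rw [h3, smul_eq_mul, norm_mul, norm_pow] at h2
    have h7 : C * ‖z - z₀‖ ^ n = ‖z - z₀‖ ^ m * (C * ‖z - z₀‖ ^ (n - m)) := by
      rw [← Nat.sub_add_cancel hmn.le, pow_add, Nat.add_sub_cancel]
      ring
    rw [h7] at h2
    exact le_of_mul_le_mul_left h2 h6
  have h2 : Tendsto (fun z => ‖g z‖) (𝓝[≠] z₀) (𝓝 ‖g z₀‖) :=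
    (hg.continuousAt.norm).tendsto.mono_left nhdsWithin_le_nhds
  have h3 : Tendsto (fun z => C * ‖z - z₀‖ ^ (n - m)) (𝓝[≠] z₀) (𝓝 0) := by
    have h4 : ContinuousAt (fun z : ℂ => C * ‖z - z₀‖ ^ (n - m)) z₀ := by fun_prop
    have h5 : C * ‖z₀ - z₀‖ ^ (n - m) = 0 := by
      rw [sub_self, norm_zero, zero_pow (Nat.sub_ne_zero_of_lt hmn), mul_zero]
    have h6 := h4.tendsto
    rw [h5] at h6
    exact h6.mono_left nhdsWithin_le_nhds
  have h4 := le_of_tendsto_of_tendsto h2 h3 h1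
  exact hg0 (norm_le_zero_iff.1 h4)

private theorem c2_jet_cont {J M : ℕ} {Y : ℂ → Fin (M + 1) → ℂ} (hY : Differentiable ℂ Y) {z₀ : ℂ}
    (h0 : Y z₀ 0 ≠ 0) : ContinuousAt (jet J Y) z₀ := by
  refine continuousAt_pi.2 fun x => ?_
  refine (num_differentiable hY _ _).continuous.continuousAt.div ?_ ?_
  · exact continuousAt_const.mul (((differentiable_pi.1 hY 0).continuous.continuousAt).pow _)
  · exact mul_ne_zero (Nat.cast_ne_zero.2 (Nat.factorial_ne_zero _)) (pow_ne_zero _ h0)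

private theorem c2_map_phi {J M : ℕ} {E E' : Type*} [CommRing E] [CommRing E'] (f : E →+* E')
    (w : JIx J M → E) (b : Fin M) :
    Polynomial.map f (phi w b) = phi (fun x => f (w x)) b := by
  simp only [phi, Polynomial.map_sum, Polynomial.map_mul, Polynomial.map_C, Polynomial.map_pow,
    Polynomial.map_X]

private theorem c2_map_crossPt {N J M : ℕ} {E E' : Type*} [CommRing E] [CommRing E']
    (f : E →+* E') (p : Fin N → Fin (M + 1) → E) (w : JIx J M → E) (i j : Fin N)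
    (x : (Fin N × Fin (M + 1)) ⊕ JIx J M) :
    Polynomial.map f (crossPt p w i j x) =
      crossPt (fun i b => f (p i b)) (fun x => f (w x)) i j x := by
  rcases x with x | x
  · simp only [crossPt, Sum.elim_inl]
    split_ifs with h
    · simp only [cst, Polynomial.map_neg, Polynomial.map_sum, Polynomial.map_mul,
        Polynomial.map_C, c2_map_phi]
    · rw [Polynomial.map_C]
  · simp only [crossPt, Sum.elim_inr, Polynomial.map_C]

private theorem c2_universal {N J M : ℕ} (F : MvPolynomial ((Fin N × Fin (M + 1)) ⊕ JIx J M) ℂ)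
    (p : Fin N → Fin (M + 1) → ℂ) (i j : Fin N) (w : JIx J M → ℂ) :
    Polynomial.map (eval w) (aeval (crossPt (fun i b => (MvPolynomial.C (p i b) :
      MvPolynomial (JIx J M) ℂ)) (fun x => MvPolynomial.X x) i j) F) =
      aeval (crossPt p w i j) F := by
  have h1 := MvPolynomial.comp_aeval_apply (Polynomial.mapAlgHom (aeval w :
    MvPolynomial (JIx J M) ℂ →ₐ[ℂ] ℂ)) (f := crossPt (fun i b => (MvPolynomial.C (p i b) :
      MvPolynomial (JIx J M) ℂ)) (fun x => MvPolynomial.X x) i j) F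
  have h2 : (fun x => (Polynomial.mapAlgHom (aeval w : MvPolynomial (JIx J M) ℂ →ₐ[ℂ] ℂ))
      (crossPt (fun i b => (MvPolynomial.C (p i b) :
      MvPolynomial (JIx J M) ℂ)) (fun x => MvPolynomial.X x) i j x)) = crossPt p w i j := by
    funext x
    have h3 := c2_map_crossPt (eval w) (fun i b => (MvPolynomial.C (p i b) :
      MvPolynomial (JIx J M) ℂ)) (fun x => MvPolynomial.X x) i j x
    simp only [eval_C, eval_X] at h3
    rw [← h3]
    rfl
  rw [h2] at h1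
  rw [← h1]
  rfl

private theorem c2_main {N J M : ℕ} (F : MvPolynomial ((Fin N × Fin (M + 1)) ⊕ JIx J M) ℂ)
    (p : Fin N → Fin (M + 1) → ℂ) {Y : ℂ → Fin (M + 1) → ℂ} (hY : Differentiable ℂ Y) {z₀ : ℂ}
    (h0 : Y z₀ 0 ≠ 0) (i j : Fin N)
    (hX : ∀ z, Y z 0 ≠ 0 →
      (Polynomial.X ^ (J + 1) : Polynomial ℂ) ∣ aeval (crossPt p (jet J Y z) i j) F) :
    ∃ C : ℝ, 0 ≤ C ∧ ∀ᶠ z in 𝓝 z₀,
      ‖(aeval (crossPt p (jet J Y z) i j) F).eval (z₀ - z)‖ ≤ C * ‖z - z₀‖ ^ (J + 1) := by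
  have hjet := c2_jet_cont (J := J) hY h0
  let U : Polynomial (MvPolynomial (JIx J M) ℂ) :=
    aeval (crossPt (fun i b => (MvPolynomial.C (p i b) :
      MvPolynomial (JIx J M) ℂ)) (fun x => MvPolynomial.X x) i j) F
  have hU : ∀ w : JIx J M → ℂ, aeval (crossPt p w i j) F = Polynomial.map (eval w) U :=
    fun w => (c2_universal F p i j w).symm
  have hcont : ∀ c : ℕ, ContinuousAt (fun z => ‖eval (jet J Y z) (U.coeff c)‖) z₀ := by
    intro c
    exact ContinuousAt.norm (ContinuousAt.comp (g := fun w : JIx J M → ℂ => eval w (U.coeff c))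
      (MvPolynomial.continuous_eval _).continuousAt hjet)
  let B : ℕ → ℝ := fun c => ‖eval (jet J Y z₀) (U.coeff c)‖ + 1
  have hB : ∀ c, 0 ≤ B c := fun c => by positivity
  have h1 : ∀ᶠ z in 𝓝 z₀, ∀ c ∈ Finset.range (U.natDegree + 1),
      ‖eval (jet J Y z) (U.coeff c)‖ < B c := by
    rw [eventually_all_finset]
    intro c _
    exact (hcont c).eventually_lt continuousAt_const (by simp [B])
  have h2 : ∀ᶠ z in 𝓝 z₀, Y z 0 ≠ 0 :=
    ((differentiable_pi.1 hY 0).continuous.continuousAt).eventually_ne h0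
  refine ⟨∑ c ∈ Finset.range (U.natDegree + 1), B c, Finset.sum_nonneg fun c _ => hB c, ?_⟩
  filter_upwards [h1, h2, Metric.ball_mem_nhds z₀ one_pos] with z h3 h4 h5
  have h6 : ‖z - z₀‖ ≤ 1 := by
    rw [← dist_eq_norm]
    exact (Metric.mem_ball.1 h5).le
  have h7 := hX z h4
  rw [hU, Polynomial.X_pow_dvd_iff] at h7
  rw [hU, Polynomial.eval_eq_sum_range' (n := U.natDegree + 1)
    (Nat.lt_succ_of_le (Polynomial.natDegree_map_le))]
  rw [Finset.sum_mul]
  refine norm_sum_le_of_le _ fun c hc => ?_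
  by_cases h8 : c < J + 1
  · rw [h7 c h8, zero_mul, norm_zero]
    have := hB c
    positivity
  · rw [Polynomial.coeff_map, norm_mul, norm_pow, norm_sub_rev]
    refine mul_le_mul (h3 c hc).le ?_ (by positivity) (hB c)
    exact pow_le_pow_of_le_one (norm_nonneg _) h6 (not_lt.1 h8)

theorem order_cross {N J M A : ℕ} {F : MvPolynomial ((Fin N × Fin (M + 1)) ⊕ JIx J M) ℂ}
    (hF : ∀ m ∈ F.support, jw m ≤ A) {p : Fin N → Fin (M + 1) → ℂ}
    {Y : ℂ → Fin (M + 1) → ℂ} (hY : Differentiable ℂ Y) {z₀ : ℂ} (h0 : Y z₀ 0 ≠ 0)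
    {i j : Fin N} (hij : i ≠ j) (hi : p i ⬝ᵥ Y z₀ = 0) (hj : p j ⬝ᵥ Y z₀ = 0)
    (hX : ∀ z, Y z 0 ≠ 0 →
      (Polynomial.X ^ (J + 1) : Polynomial ℂ) ∣ aeval (crossPt p (jet J Y z) i j) F) :
    ((J + 1 : ℕ) : ℕ∞) ≤ analyticOrderAt (auxFun A F p Y) z₀ := by
  have hYc : Continuous fun z => Y z 0 := (differentiable_pi.1 hY 0).continuous
  have hjet := c2_jet_cont (J := J) hY h0
  have han : AnalyticAt ℂ (auxFun A F p Y) z₀ :=
    (auxFun_differentiable A F p hY).analyticAt z₀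
  -- the two points
  let u : ℂ → ((Fin N × Fin (M + 1)) ⊕ JIx J M → ℂ) := fun z => ppt p (jet J Y z)
  let v : ℂ → ((Fin N × Fin (M + 1)) ⊕ JIx J M → ℂ) := fun z x =>
    (crossPt p (jet J Y z) i j x).eval (z₀ - z)
  have hev : ∀ z, (aeval (crossPt p (jet J Y z) i j) F).eval (z₀ - z) = eval (v z) F := by
    intro z
    have h1 := MvPolynomial.comp_aeval_apply (Polynomial.aeval (z₀ - z) : Polynomial ℂ →ₐ[ℂ] ℂ)
      (f := crossPt p (jet J Y z) i j) F
    rw [Polynomial.coe_aeval_eq_eval] at h1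
    rw [h1]
    rfl
  -- the constant terms
  have hcst : ∀ l : Fin N, p l ⬝ᵥ Y z₀ = 0 → ∃ C : ℝ, 0 ≤ C ∧ ∀ᶠ z in 𝓝 z₀,
      ‖p l 0 - (cst p (jet J Y z) l).eval (z₀ - z)‖ ≤ C * ‖z - z₀‖ ^ (J + 1) := by
    intro l hl
    choose C hC0 hC using fun b : Fin M => taylor_moving (J := J) hY h0 b
    refine ⟨∑ b, ‖p l b.succ‖ * C b, Finset.sum_nonneg fun b _ =>
      mul_nonneg (norm_nonneg _) (hC0 b), ?_⟩
    have h1 : ∀ᶠ z in 𝓝 z₀, ∀ b : Fin M,
        ‖(phi (jet J Y z) b).eval (z₀ - z) - Y z₀ b.succ / Y z₀ 0‖ ≤ C b * ‖z - z₀‖ ^ (J + 1) :=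
      eventually_all.2 hC
    have h2 : p l 0 = - ∑ b : Fin M, p l b.succ * (Y z₀ b.succ / Y z₀ 0) := by
      rw [dotProduct, Fin.sum_univ_succ] at hl
      have h3 : p l 0 * Y z₀ 0 = - ∑ b : Fin M, p l b.succ * Y z₀ b.succ := by
        linear_combination hl
      have h4 : ∑ b : Fin M, p l b.succ * (Y z₀ b.succ / Y z₀ 0) =
          (∑ b : Fin M, p l b.succ * Y z₀ b.succ) / Y z₀ 0 := by
        rw [Finset.sum_div]
        exact Finset.sum_congr rfl fun b _ => by ring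
      rw [h4, ← neg_div, ← h3, mul_div_cancel_right₀ _ h0]
    filter_upwards [h1] with z hz
    have h5 : p l 0 - (cst p (jet J Y z) l).eval (z₀ - z) =
        ∑ b : Fin M, p l b.succ * ((phi (jet J Y z) b).eval (z₀ - z) - Y z₀ b.succ / Y z₀ 0) := by
      rw [cst, Polynomial.eval_neg, Polynomial.eval_finsetSum, h2]
      simp only [Polynomial.eval_mul, Polynomial.eval_C, mul_sub, Finset.sum_sub_distrib]
      ring
    rw [h5, Finset.sum_mul]
    refine norm_sum_le_of_le _ fun b _ => ?_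
    rw [norm_mul, mul_assoc]
    exact mul_le_mul_of_nonneg_left (hz b) (norm_nonneg _)
  obtain ⟨C₁, hC₁, h₁⟩ := hcst i hi
  obtain ⟨C₂, hC₂, h₂⟩ := hcst j hj
  obtain ⟨C₃, hC₃, h₃⟩ := c2_main F p hY h0 i j hX
  -- the distance of the two points
  have huv : ∀ᶠ z in 𝓝 z₀, ‖u z - v z‖ ≤ (C₁ + C₂) * ‖z - z₀‖ ^ (J + 1) := by
    filter_upwards [h₁, h₂] with z hz1 hz2
    have hr : 0 ≤ ‖z - z₀‖ ^ (J + 1) := by positivity
    rw [pi_norm_le_iff_of_nonneg (by positivity)]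
    rintro (x | x)
    · simp only [u, v, ppt, crossPt, Pi.sub_apply, Sum.elim_inl]
      split_ifs with h
      · obtain ⟨h | h, hx⟩ := h
        · rw [hx, h]
          refine hz1.trans ?_
          nlinarith
        · rw [hx, h]
          refine hz2.trans ?_
          nlinarith
      · rw [Polynomial.eval_C, sub_self, norm_zero]
        positivity
    · simp only [u, v, ppt, crossPt, Pi.sub_apply, Sum.elim_inr, Polynomial.eval_C, sub_self,
        norm_zero]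
      positivity
  have hu : Tendsto u (𝓝 z₀) (𝓝 (u z₀)) := by
    have : ContinuousAt u z₀ := by
      refine continuousAt_pi.2 ?_
      rintro (x | x)
      · exact continuousAt_const
      · exact (continuousAt_pi.1 hjet x)
    exact this
  have hv : Tendsto v (𝓝 z₀) (𝓝 (u z₀)) := by
    have h1 : Tendsto (fun z => u z - v z) (𝓝 z₀) (𝓝 0) := by
      refine squeeze_zero_norm' huv ?_
      have h4 : ContinuousAt (fun z : ℂ => (C₁ + C₂) * ‖z - z₀‖ ^ (J + 1)) z₀ := by fun_prop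
      have h5 : (C₁ + C₂) * ‖z₀ - z₀‖ ^ (J + 1) = 0 := by
        rw [sub_self, norm_zero, zero_pow (Nat.succ_ne_zero J), mul_zero]
      have h6 := h4.tendsto
      rw [h5] at h6
      exact h6
    have h2 := hu.sub h1
    simpa using h2
  have hFan : AnalyticAt ℂ (fun x : ((Fin N × Fin (M + 1)) ⊕ JIx J M → ℂ) => eval x F) (u z₀) :=
    AnalyticOnNhd.eval_mvPolynomial F (u z₀) trivial
  obtain ⟨K, t, ht, hK⟩ := hFan.hasStrictFDerivAt.exists_lipschitzOnWith
  have hY0b : ∀ᶠ z in 𝓝 z₀, ‖Y z 0‖ < ‖Y z₀ 0‖ + 1 :=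
    (hYc.norm.continuousAt).eventually_lt continuousAt_const (by linarith)
  refine c2_order_of_bound (C := (‖Y z₀ 0‖ + 1) ^ A * (K * (C₁ + C₂) + C₃)) han ?_
  filter_upwards [huv, hu ht, hv ht, h₃, hYc.continuousAt.eventually_ne h0, hY0b]
    with z hz1 hz2 hz3 hz4 hz5 hz6
  rw [auxFun_eq hF p hz5, norm_mul, norm_pow, mul_assoc]
  refine mul_le_mul (pow_le_pow_left₀ (norm_nonneg _) hz6.le A) ?_ (norm_nonneg _) (by positivity)
  have h1 : eval (ppt p (jet J Y z)) F = (eval (u z) F - eval (v z) F) + eval (v z) F := by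
    simp [u]
  rw [h1, add_mul]
  refine (norm_add_le _ _).trans (add_le_add ?_ ?_)
  · have h2 := hK.norm_sub_le hz2 hz3
    refine h2.trans ?_
    rw [mul_assoc]
    exact mul_le_mul_of_nonneg_left hz1 K.2
  · rw [← hev z]
    exact hz4

end Pool.Agent.Lib.GGL.CR
end

section

/-!
The auxiliary function.
-/

open Filter Topology MvPolynomial MeasureTheory Module

namespace Pool.Agent.Lib.GGL.CV

open CR (JIx)


theorem auxFun_differentiable {N J n : ℕ} {T : Type*} [Fintype T] (A : ℕ)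
    (F : MvPolynomial ((Fin N × T) ⊕ JIx J n) ℂ) (p : Fin N → T → ℂ)
    {Y : ℂ → Fin (n + 1) → ℂ} (hY : Differentiable ℂ Y) : Differentiable ℂ (auxFun A F p Y) := by
  unfold auxFun
  refine Differentiable.fun_sum fun m _ => ?_
  refine Differentiable.const_mul ?_ _
  refine ((differentiable_pi.1 hY 0).pow _).mul ?_
  refine Differentiable.fun_finsetProd fun x _ => ?_
  exact ((CR.num_differentiable hY _ _).div_const _).pow _

theorem auxFun_eq {N J n A : ℕ} {T : Type*} [Fintype T]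
    {F : MvPolynomial ((Fin N × T) ⊕ JIx J n) ℂ}
    (hF : ∀ m ∈ F.support, jw m ≤ A) (p : Fin N → T → ℂ)
    {Y : ℂ → Fin (n + 1) → ℂ} {z : ℂ} (hz : Y z 0 ≠ 0) :
    auxFun A F p Y z = Y z 0 ^ A * eval (ppt p (CR.jet J Y z)) F := by
  rw [eval_eq', auxFun, Finset.mul_sum]
  refine Finset.sum_congr rfl fun m hm => ?_
  rw [Fintype.prod_sum_type]
  have h1 : ∏ x : JIx J n, (CR.num Y x.2.succ x.1 z / ((x.1 : ℕ).factorial : ℂ)) ^ m (Sum.inr x) =
      Y z 0 ^ jw m * ∏ x : JIx J n, ppt p (CR.jet J Y z) (Sum.inr x) ^ m (Sum.inr x) := by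
    rw [jw, ← Finset.prod_pow_eq_pow_sum, ← Finset.prod_mul_distrib]
    refine Finset.prod_congr rfl fun x _ => ?_
    have h2 : ppt p (CR.jet J Y z) (Sum.inr x) =
        CR.num Y x.2.succ x.1 z / (((x.1 : ℕ).factorial : ℂ) * Y z 0 ^ ((x.1 : ℕ) + 1)) := rfl
    rw [h2, mul_comm (m (Sum.inr x)) _, pow_mul, ← mul_pow]
    congr 1
    have h3 : (((x.1 : ℕ).factorial : ℂ)) ≠ 0 := Nat.cast_ne_zero.2 (Nat.factorial_ne_zero _)
    field_simp
  have h4 : ∏ x : Fin N × T, ppt p (CR.jet J Y z) (Sum.inl x) ^ m (Sum.inl x) =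
      ∏ x : Fin N × T, p x.1 x.2 ^ m (Sum.inl x) := rfl
  have h5 : Y z 0 ^ (A - jw m) * Y z 0 ^ jw m = Y z 0 ^ A := by
    rw [← pow_add, Nat.sub_add_cancel (hF m hm)]
  rw [h1, h4, ← h5]
  ring

end Pool.Agent.Lib.GGL.CV
end

section

/-!
The order of the auxiliary function at the crossing points.
-/

open Filter Topology MvPolynomial MeasureTheory Module

namespace Pool.Agent.Lib.GGL.CV

open CR (JIx)

private theorem c2_order_of_bound {f : ℂ → ℂ} {z₀ : ℂ} (hf : AnalyticAt ℂ f z₀) {n : ℕ} {C : ℝ}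
    (h : ∀ᶠ z in 𝓝 z₀, ‖f z‖ ≤ C * ‖z - z₀‖ ^ n) : ((n : ℕ) : ℕ∞) ≤ analyticOrderAt f z₀ := by
  by_contra hlt
  rw [not_le] at hlt
  obtain ⟨m, hm⟩ := ENat.ne_top_iff_exists.1 (ne_top_of_lt hlt)
  rw [← hm] at hlt
  have hmn : m < n := by exact_mod_cast hlt
  obtain ⟨g, hg, hg0, hfg⟩ := hf.analyticOrderAt_eq_natCast.1 hm.symm
  have h1 : ∀ᶠ z in 𝓝[≠] z₀, ‖g z‖ ≤ C * ‖z - z₀‖ ^ (n - m) := by
    filter_upwards [h.filter_mono nhdsWithin_le_nhds, hfg.filter_mono nhdsWithin_le_nhds,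
      self_mem_nhdsWithin] with z h2 h3 h4
    have h5 : 0 < ‖z - z₀‖ := norm_pos_iff.2 (sub_ne_zero.2 h4)
    have h6 : 0 < ‖z - z₀‖ ^ m := pow_pos h5 m
    rw [h3, smul_eq_mul, norm_mul, norm_pow] at h2
    have h7 : C * ‖z - z₀‖ ^ n = ‖z - z₀‖ ^ m * (C * ‖z - z₀‖ ^ (n - m)) := by
      rw [← Nat.sub_add_cancel hmn.le, pow_add, Nat.add_sub_cancel]
      ring
    rw [h7] at h2
    exact le_of_mul_le_mul_left h2 h6
  have h2 : Tendsto (fun z => ‖g z‖) (𝓝[≠] z₀) (𝓝 ‖g z₀‖) :=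
    (hg.continuousAt.norm).tendsto.mono_left nhdsWithin_le_nhds
  have h3 : Tendsto (fun z => C * ‖z - z₀‖ ^ (n - m)) (𝓝[≠] z₀) (𝓝 0) := by
    have h4 : ContinuousAt (fun z : ℂ => C * ‖z - z₀‖ ^ (n - m)) z₀ := by fun_prop
    have h5 : C * ‖z₀ - z₀‖ ^ (n - m) = 0 := by
      rw [sub_self, norm_zero, zero_pow (Nat.sub_ne_zero_of_lt hmn), mul_zero]
    have h6 := h4.tendsto
    rw [h5] at h6
    exact h6.mono_left nhdsWithin_le_nhds
  have h4 := le_of_tendsto_of_tendsto h2 h3 h1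
  exact hg0 (norm_le_zero_iff.1 h4)

private theorem c2_jet_cont {J n : ℕ} {Y : ℂ → Fin (n + 1) → ℂ} (hY : Differentiable ℂ Y) {z₀ : ℂ}
    (h0 : Y z₀ 0 ≠ 0) : ContinuousAt (CR.jet J Y) z₀ := by
  refine continuousAt_pi.2 fun x => ?_
  refine (CR.num_differentiable hY _ _).continuous.continuousAt.div ?_ ?_
  · exact continuousAt_const.mul (((differentiable_pi.1 hY 0).continuous.continuousAt).pow _)
  · exact mul_ne_zero (Nat.cast_ne_zero.2 (Nat.factorial_ne_zero _)) (pow_ne_zero _ h0)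

private theorem c2_map_phi {J n : ℕ} {E E' : Type*} [CommRing E] [CommRing E'] (f : E →+* E')
    (w : JIx J n → E) (b : Fin n) :
    Polynomial.map f (CR.phi w b) = CR.phi (fun x => f (w x)) b := by
  simp only [CR.phi, Polynomial.map_sum, Polynomial.map_mul, Polynomial.map_C, Polynomial.map_pow,
    Polynomial.map_X]

section

variable {N J n : ℕ} {T : Type*} [Fintype T] [DecidableEq T]

private theorem c2_map_crossPt {E E' : Type*} [CommRing E] [CommRing E'] (f : E →+* E') (t₀ : T)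
    (ex : T → Fin n → ℕ) (p : Fin N → T → E) (w : JIx J n → E) (i j : Fin N)
    (x : (Fin N × T) ⊕ JIx J n) :
    Polynomial.map f (crossPt t₀ ex p w i j x) =
      crossPt t₀ ex (fun i b => f (p i b)) (fun x => f (w x)) i j x := by
  rcases x with x | x
  · simp only [crossPt, Sum.elim_inl]
    split_ifs with h
    · simp only [cst, Polynomial.map_neg, Polynomial.map_sum, Polynomial.map_mul,
        Polynomial.map_prod, Polynomial.map_pow, Polynomial.map_C, c2_map_phi]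
    · rw [Polynomial.map_C]
  · simp only [crossPt, Sum.elim_inr, Polynomial.map_C]

private theorem c2_universal (t₀ : T) (ex : T → Fin n → ℕ)
    (F : MvPolynomial ((Fin N × T) ⊕ JIx J n) ℂ)
    (p : Fin N → T → ℂ) (i j : Fin N) (w : JIx J n → ℂ) :
    Polynomial.map (eval w) (aeval (crossPt t₀ ex (fun i b => (MvPolynomial.C (p i b) :
      MvPolynomial (JIx J n) ℂ)) (fun x => MvPolynomial.X x) i j) F) =
      aeval (crossPt t₀ ex p w i j) F := by
  have h1 := MvPolynomial.comp_aeval_apply (Polynomial.mapAlgHom (aeval w :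
    MvPolynomial (JIx J n) ℂ →ₐ[ℂ] ℂ)) (f := crossPt t₀ ex (fun i b => (MvPolynomial.C (p i b) :
      MvPolynomial (JIx J n) ℂ)) (fun x => MvPolynomial.X x) i j) F
  have h2 : (fun x => (Polynomial.mapAlgHom (aeval w : MvPolynomial (JIx J n) ℂ →ₐ[ℂ] ℂ))
      (crossPt t₀ ex (fun i b => (MvPolynomial.C (p i b) :
      MvPolynomial (JIx J n) ℂ)) (fun x => MvPolynomial.X x) i j x)) = crossPt t₀ ex p w i j := by
    funext x
    have h3 := c2_map_crossPt (eval w) t₀ ex (fun i b => (MvPolynomial.C (p i b) :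
      MvPolynomial (JIx J n) ℂ)) (fun x => MvPolynomial.X x) i j x
    simp only [eval_C, eval_X] at h3
    rw [← h3]
    rfl
  rw [h2] at h1
  rw [← h1]
  rfl

private theorem c2_main (t₀ : T) (ex : T → Fin n → ℕ)
    (F : MvPolynomial ((Fin N × T) ⊕ JIx J n) ℂ)
    (p : Fin N → T → ℂ) {Y : ℂ → Fin (n + 1) → ℂ} (hY : Differentiable ℂ Y) {z₀ : ℂ}
    (h0 : Y z₀ 0 ≠ 0) (i j : Fin N)
    (hX : ∀ z, Y z 0 ≠ 0 →
      (Polynomial.X ^ (J + 1) : Polynomial ℂ) ∣ aeval (crossPt t₀ ex p (CR.jet J Y z) i j) F) :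
    ∃ C : ℝ, 0 ≤ C ∧ ∀ᶠ z in 𝓝 z₀,
      ‖(aeval (crossPt t₀ ex p (CR.jet J Y z) i j) F).eval (z₀ - z)‖ ≤
        C * ‖z - z₀‖ ^ (J + 1) := by
  have hjet := c2_jet_cont (J := J) hY h0
  let U : Polynomial (MvPolynomial (JIx J n) ℂ) :=
    aeval (crossPt t₀ ex (fun i b => (MvPolynomial.C (p i b) :
      MvPolynomial (JIx J n) ℂ)) (fun x => MvPolynomial.X x) i j) F
  have hU : ∀ w : JIx J n → ℂ, aeval (crossPt t₀ ex p w i j) F = Polynomial.map (eval w) U :=
    fun w => (c2_universal t₀ ex F p i j w).symm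
  have hcont : ∀ c : ℕ, ContinuousAt (fun z => ‖eval (CR.jet J Y z) (U.coeff c)‖) z₀ := by
    intro c
    exact ContinuousAt.norm (ContinuousAt.comp (g := fun w : JIx J n → ℂ => eval w (U.coeff c))
      (MvPolynomial.continuous_eval _).continuousAt hjet)
  let B : ℕ → ℝ := fun c => ‖eval (CR.jet J Y z₀) (U.coeff c)‖ + 1
  have hB : ∀ c, 0 ≤ B c := fun c => by positivity
  have h1 : ∀ᶠ z in 𝓝 z₀, ∀ c ∈ Finset.range (U.natDegree + 1),
      ‖eval (CR.jet J Y z) (U.coeff c)‖ < B c := by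
    rw [eventually_all_finset]
    intro c _
    exact (hcont c).eventually_lt continuousAt_const (by simp [B])
  have h2 : ∀ᶠ z in 𝓝 z₀, Y z 0 ≠ 0 :=
    ((differentiable_pi.1 hY 0).continuous.continuousAt).eventually_ne h0
  refine ⟨∑ c ∈ Finset.range (U.natDegree + 1), B c, Finset.sum_nonneg fun c _ => hB c, ?_⟩
  filter_upwards [h1, h2, Metric.ball_mem_nhds z₀ one_pos] with z h3 h4 h5
  have h6 : ‖z - z₀‖ ≤ 1 := by
    rw [← dist_eq_norm]
    exact (Metric.mem_ball.1 h5).le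
  have h7 := hX z h4
  rw [hU, Polynomial.X_pow_dvd_iff] at h7
  rw [hU, Polynomial.eval_eq_sum_range' (n := U.natDegree + 1)
    (Nat.lt_succ_of_le (Polynomial.natDegree_map_le))]
  rw [Finset.sum_mul]
  refine norm_sum_le_of_le _ fun c hc => ?_
  by_cases h8 : c < J + 1
  · rw [h7 c h8, zero_mul, norm_zero]
    have := hB c
    positivity
  · rw [Polynomial.coeff_map, norm_mul, norm_pow, norm_sub_rev]
    refine mul_le_mul (h3 c hc).le ?_ (by positivity) (hB c)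
    exact pow_le_pow_of_le_one (norm_nonneg _) h6 (not_lt.1 h8)

end

/-- The values of a polynomial at nearby points. -/
private theorem c2_lip {σ : Type*} [Fintype σ] (F : MvPolynomial σ ℂ) {z₀ : ℂ} {a : σ → ℂ}
    {u v : ℂ → σ → ℂ} (hu : Tendsto u (𝓝 z₀) (𝓝 a)) (hv : Tendsto v (𝓝 z₀) (𝓝 a)) {C : ℝ}
    (hC : 0 ≤ C) {k : ℕ} (huv : ∀ᶠ z in 𝓝 z₀, ‖u z - v z‖ ≤ C * ‖z - z₀‖ ^ k) :
    ∃ C' : ℝ, 0 ≤ C' ∧ ∀ᶠ z in 𝓝 z₀, ‖eval (u z) F - eval (v z) F‖ ≤ C' * ‖z - z₀‖ ^ k := by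
  have hFan : AnalyticAt ℂ (fun x : σ → ℂ => eval x F) a :=
    AnalyticOnNhd.eval_mvPolynomial F a trivial
  obtain ⟨K, t, ht, hK⟩ := hFan.hasStrictFDerivAt.exists_lipschitzOnWith
  refine ⟨K * C, mul_nonneg K.2 hC, ?_⟩
  filter_upwards [huv, hu ht, hv ht] with z hz1 hz2 hz3
  refine (hK.norm_sub_le hz2 hz3).trans ?_
  rw [mul_assoc]
  exact mul_le_mul_of_nonneg_left hz1 K.2

private theorem c2_small {E : Type*} [NormedAddCommGroup E] {z₀ : ℂ} {f : ℂ → E} {C : ℝ} {k : ℕ}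
    (h : ∀ᶠ z in 𝓝 z₀, ‖f z‖ ≤ C * ‖z - z₀‖ ^ (k + 1)) : Tendsto f (𝓝 z₀) (𝓝 0) := by
  refine squeeze_zero_norm' h ?_
  have h4 : ContinuousAt (fun z : ℂ => C * ‖z - z₀‖ ^ (k + 1)) z₀ := by fun_prop
  have h5 : C * ‖z₀ - z₀‖ ^ (k + 1) = 0 := by
    rw [sub_self, norm_zero, zero_pow (Nat.succ_ne_zero k), mul_zero]
  have h6 := h4.tendsto
  rw [h5] at h6
  exact h6

/-- The value of a form in terms of the affine coordinates. -/
private theorem c2_val {n d : ℕ} {T : Type*} [Fintype T] {ex : T → Fin n → ℕ}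
    (hex : ∀ t, ∑ c, ex t c ≤ d) (q : T → ℂ) {y : Fin (n + 1) → ℂ} (h0 : y 0 ≠ 0) :
    val d ex q y = y 0 ^ d * ∑ t, q t * ∏ c, (y c.succ / y 0) ^ ex t c := by
  rw [val, Finset.mul_sum]
  refine Finset.sum_congr rfl fun t _ => ?_
  have h1 : ∏ c, (y c.succ / y 0) ^ ex t c =
      (∏ c, y c.succ ^ ex t c) / y 0 ^ ∑ c, ex t c := by
    rw [← Finset.prod_pow_eq_pow_sum, ← Finset.prod_div_distrib]
    exact Finset.prod_congr rfl fun c _ => div_pow _ _ _
  have h2 : y 0 ^ d = y 0 ^ (d - ∑ c, ex t c) * y 0 ^ ∑ c, ex t c := by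
    rw [← pow_add, Nat.sub_add_cancel (hex t)]
  rw [h1, h2]
  have h3 : y 0 ^ ∑ c, ex t c ≠ 0 := pow_ne_zero _ h0
  field_simp

theorem order_cross {N J n d A : ℕ} {T : Type} [Fintype T] [DecidableEq T] {t₀ : T}
    {ex : T → Fin n → ℕ} (hex : ∀ t, ∑ c, ex t c ≤ d) (ht₀ : ∀ c, ex t₀ c = 0)
    {F : MvPolynomial ((Fin N × T) ⊕ JIx J n) ℂ}
    (hF : ∀ m ∈ F.support, jw m ≤ A) {p : Fin N → T → ℂ}
    {Y : ℂ → Fin (n + 1) → ℂ} (hY : Differentiable ℂ Y) {z₀ : ℂ} (h0 : Y z₀ 0 ≠ 0)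
    {i j : Fin N} (hij : i ≠ j) (hi : val d ex (p i) (Y z₀) = 0) (hj : val d ex (p j) (Y z₀) = 0)
    (hX : ∀ z, Y z 0 ≠ 0 →
      (Polynomial.X ^ (J + 1) : Polynomial ℂ) ∣ aeval (crossPt t₀ ex p (CR.jet J Y z) i j) F) :
    ((J + 1 : ℕ) : ℕ∞) ≤ analyticOrderAt (auxFun A F p Y) z₀ := by
  have hYc : Continuous fun z => Y z 0 := (differentiable_pi.1 hY 0).continuous
  have hjet := c2_jet_cont (J := J) hY h0
  have han : AnalyticAt ℂ (auxFun A F p Y) z₀ :=
    (auxFun_differentiable A F p hY).analyticAt z₀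
  -- the two points
  let u : ℂ → ((Fin N × T) ⊕ JIx J n → ℂ) := fun z => ppt p (CR.jet J Y z)
  let v : ℂ → ((Fin N × T) ⊕ JIx J n → ℂ) := fun z x =>
    (crossPt t₀ ex p (CR.jet J Y z) i j x).eval (z₀ - z)
  have hev : ∀ z, (aeval (crossPt t₀ ex p (CR.jet J Y z) i j) F).eval (z₀ - z) =
      eval (v z) F := by
    intro z
    have h1 := MvPolynomial.comp_aeval_apply (Polynomial.aeval (z₀ - z) : Polynomial ℂ →ₐ[ℂ] ℂ)
      (f := crossPt t₀ ex p (CR.jet J Y z) i j) F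
    rw [Polynomial.coe_aeval_eq_eval] at h1
    rw [h1]
    rfl
  -- the affine point
  let a : Fin n → ℂ := fun c => Y z₀ c.succ / Y z₀ 0
  let x : ℂ → Fin n → ℂ := fun z c => (CR.phi (CR.jet J Y z) c).eval (z₀ - z)
  obtain ⟨C₀, hC₀, hx⟩ : ∃ C : ℝ, 0 ≤ C ∧ ∀ᶠ z in 𝓝 z₀, ‖x z - a‖ ≤ C * ‖z - z₀‖ ^ (J + 1) := by
    choose C hC0 hC using fun b : Fin n => CR.taylor_moving (J := J) hY h0 b
    refine ⟨∑ b, C b, Finset.sum_nonneg fun b _ => hC0 b, ?_⟩
    filter_upwards [eventually_all.2 hC] with z hz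
    have hr : 0 ≤ ‖z - z₀‖ ^ (J + 1) := by positivity
    rw [pi_norm_le_iff_of_nonneg (mul_nonneg (Finset.sum_nonneg fun b _ => hC0 b) hr)]
    intro c
    exact (hz c).trans (mul_le_mul_of_nonneg_right
      (Finset.single_le_sum (fun b _ => hC0 b) (Finset.mem_univ c)) hr)
  have hxa : Tendsto x (𝓝 z₀) (𝓝 a) := by
    have h1 := (c2_small hx).add (tendsto_const_nhds (x := a))
    simpa using h1
  -- the constant terms
  have hcst : ∀ l : Fin N, val d ex (p l) (Y z₀) = 0 → ∃ C : ℝ, 0 ≤ C ∧ ∀ᶠ z in 𝓝 z₀,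
      ‖p l t₀ - (cst t₀ ex p (CR.jet J Y z) l).eval (z₀ - z)‖ ≤ C * ‖z - z₀‖ ^ (J + 1) := by
    intro l hl
    let G : MvPolynomial (Fin n) ℂ :=
      ∑ t ∈ Finset.univ.erase t₀, MvPolynomial.C (p l t) * ∏ c, MvPolynomial.X c ^ ex t c
    have hG : ∀ y : Fin n → ℂ, eval y G =
        ∑ t ∈ Finset.univ.erase t₀, p l t * ∏ c, y c ^ ex t c := by
      intro y
      simp only [G, map_sum, map_mul, map_prod, map_pow, eval_C, eval_X]
    obtain ⟨C, hC, h1⟩ := c2_lip G hxa tendsto_const_nhds hC₀ hx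
    refine ⟨C, hC, ?_⟩
    have h2 : p l t₀ = - eval a G := by
      rw [c2_val hex _ h0] at hl
      have h3 := (mul_eq_zero.1 hl).resolve_left (pow_ne_zero _ h0)
      rw [← Finset.add_sum_erase _ _ (Finset.mem_univ t₀)] at h3
      have h4 : ∏ c, (Y z₀ c.succ / Y z₀ 0) ^ ex t₀ c = 1 :=
        Finset.prod_eq_one fun c _ => by rw [ht₀ c, pow_zero]
      rw [h4, mul_one] at h3
      rw [hG]
      exact eq_neg_of_add_eq_zero_left h3
    filter_upwards [h1] with z hz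
    have h5 : (cst t₀ ex p (CR.jet J Y z) l).eval (z₀ - z) = - eval (x z) G := by
      rw [cst, Polynomial.eval_neg, Polynomial.eval_finsetSum, hG]
      congr 1
      refine Finset.sum_congr rfl fun t _ => ?_
      rw [Polynomial.eval_mul, Polynomial.eval_C, Polynomial.eval_prod]
      simp only [Polynomial.eval_pow, x]
    have h6 : p l t₀ - (cst t₀ ex p (CR.jet J Y z) l).eval (z₀ - z) =
        eval (x z) G - eval a G := by
      rw [h5, h2]
      ring
    rw [h6]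
    exact hz
  obtain ⟨C₁, hC₁, h₁⟩ := hcst i hi
  obtain ⟨C₂, hC₂, h₂⟩ := hcst j hj
  obtain ⟨C₃, hC₃, h₃⟩ := c2_main t₀ ex F p hY h0 i j hX
  -- the distance of the two points
  have huv : ∀ᶠ z in 𝓝 z₀, ‖u z - v z‖ ≤ (C₁ + C₂) * ‖z - z₀‖ ^ (J + 1) := by
    filter_upwards [h₁, h₂] with z hz1 hz2
    have hr : 0 ≤ ‖z - z₀‖ ^ (J + 1) := by positivity
    rw [pi_norm_le_iff_of_nonneg (by positivity)]
    rintro (x | x)
    · simp only [u, v, ppt, crossPt, Pi.sub_apply, Sum.elim_inl]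
      split_ifs with h
      · obtain ⟨h | h, hx⟩ := h
        · rw [hx, h]
          refine hz1.trans ?_
          nlinarith
        · rw [hx, h]
          refine hz2.trans ?_
          nlinarith
      · rw [Polynomial.eval_C, sub_self, norm_zero]
        positivity
    · simp only [u, v, ppt, crossPt, Pi.sub_apply, Sum.elim_inr, Polynomial.eval_C, sub_self,
        norm_zero]
      positivity
  have hu : Tendsto u (𝓝 z₀) (𝓝 (u z₀)) := by
    have : ContinuousAt u z₀ := by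
      refine continuousAt_pi.2 ?_
      rintro (x | x)
      · exact continuousAt_const
      · exact (continuousAt_pi.1 hjet x)
    exact this
  have hv : Tendsto v (𝓝 z₀) (𝓝 (u z₀)) := by
    have h2 := hu.sub (c2_small huv)
    simpa using h2
  obtain ⟨C₄, hC₄, h₄⟩ := c2_lip F hu hv (by positivity) huv
  have hY0b : ∀ᶠ z in 𝓝 z₀, ‖Y z 0‖ < ‖Y z₀ 0‖ + 1 :=
    (hYc.norm.continuousAt).eventually_lt continuousAt_const (by linarith)
  refine c2_order_of_bound (C := (‖Y z₀ 0‖ + 1) ^ A * (C₄ + C₃)) han ?_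
  filter_upwards [h₄, h₃, hYc.continuousAt.eventually_ne h0, hY0b] with z hz1 hz4 hz5 hz6
  rw [auxFun_eq hF p hz5, norm_mul, norm_pow, mul_assoc]
  refine mul_le_mul (pow_le_pow_left₀ (norm_nonneg _) hz6.le A) ?_ (norm_nonneg _) (by positivity)
  have h1 : eval (ppt p (CR.jet J Y z)) F = (eval (u z) F - eval (v z) F) + eval (v z) F := by
    simp [u]
  rw [h1, add_mul]
  refine (norm_add_le _ _).trans (add_le_add hz1 ?_)
  rw [← hev z]
  exact hz4

end Pool.Agent.Lib.GGL.CV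
end

section

/-!
The logarithmic derivatives of higher order.
-/

open Filter Topology MvPolynomial MeasureTheory Module

namespace Pool.Agent.Lib.GGL.CR

private lemma d1_posLog {H h1 a T c S : ℝ} (hc : 0 ≤ c) (hS : 1 ≤ S)
    (hTS : Real.posLog T ≤ S) (hlow : h1 ≤ H) (hup : H ≤ a * T + c * S) :
    Real.posLog H ≤ (2 * Real.log 2 + Real.posLog h1 + Real.posLog a + Real.posLog c + 2) * S := by
  have hlog2 : 0 ≤ Real.log 2 := Real.log_nonneg (by norm_num)
  have hcS : 0 ≤ c * S := mul_nonneg hc (by linarith)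
  have habs : |H| ≤ |h1| + |a * T| + c * S := by
    rw [abs_le]
    constructor
    · have := neg_abs_le h1
      have := abs_nonneg (a * T)
      linarith
    · have := abs_nonneg h1
      have := le_abs_self (a * T)
      linarith
  have e1 : Real.posLog H ≤ Real.posLog (|h1| + |a * T| + c * S) := by
    rw [← Real.posLog_abs H]
    exact Real.posLog_le_posLog (abs_nonneg _) habs
  have e2 : Real.posLog (|h1| + |a * T| + c * S) ≤
      Real.log 2 + Real.posLog (|h1| + |a * T|) + Real.posLog (c * S) := Real.posLog_add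
  have e3 : Real.posLog (|h1| + |a * T|) ≤ Real.log 2 + Real.posLog |h1| + Real.posLog |a * T| :=
    Real.posLog_add
  have e4 : Real.posLog |a * T| ≤ Real.posLog a + Real.posLog T := by
    rw [Real.posLog_abs]
    exact Real.posLog_mul
  have e5 : Real.posLog (c * S) ≤ Real.posLog c + Real.posLog S := Real.posLog_mul
  have e6 : Real.posLog S ≤ S := by
    rw [Real.posLog_eq_log (by rw [abs_of_nonneg (by linarith)]; exact hS)]
    have := Real.log_le_sub_one_of_pos (show (0 : ℝ) < S by linarith)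
    linarith
  rw [Real.posLog_abs] at e3
  have p1 := Real.posLog_nonneg (x := h1)
  have p2 := Real.posLog_nonneg (x := a)
  have p3 := Real.posLog_nonneg (x := c)
  have e7 : 2 * Real.log 2 + Real.posLog h1 + Real.posLog a + Real.posLog c ≤
      (2 * Real.log 2 + Real.posLog h1 + Real.posLog a + Real.posLog c) * S :=
    le_mul_of_one_le_right (by positivity) hS
  nlinarith

/-- An inequality between continuous functions on a circle that holds outside the zeros of an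
entire function. -/
private lemma d1_circle {A : ℂ → ℂ} (hA : Differentiable ℂ A) (hne : ∃ z, A z ≠ 0) {f g : ℂ → ℝ}
    (hf : Continuous f) (hg : Continuous g) {r : ℝ} (hr : 1 ≤ r)
    (h : ∀ z, ‖z‖ = r → A z ≠ 0 → f z ≤ g z) (z : ℂ) (hz : ‖z‖ = r) : f z ≤ g z := by
  have hz0 : z ≠ 0 := by
    intro h0
    rw [h0, norm_zero] at hz
    linarith
  set γ : ℝ → ℂ := fun t => z * Complex.exp ((t : ℂ) * Complex.I) with hγ
  have hder : HasDerivAt γ (z * (Complex.exp (((0 : ℝ) : ℂ) * Complex.I) * (1 * Complex.I))) 0 := by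
    have h1 : HasDerivAt (fun t : ℝ => ((t : ℂ) * Complex.I)) (1 * Complex.I) 0 :=
      (Complex.ofRealCLM.hasDerivAt (x := (0 : ℝ))).mul_const Complex.I
    exact h1.cexp.const_mul z
  have hd0 : z * (Complex.exp (((0 : ℝ) : ℂ) * Complex.I) * (1 * Complex.I)) ≠ 0 := by
    simp [hz0]
  have hγ0 : γ 0 = z := by simp [hγ]
  have ht := hder.tendsto_nhdsNE hd0
  rw [hγ0] at ht
  have hanalytic : AnalyticOnNhd ℂ A Set.univ := fun z _ => hA.analyticAt z
  have hS : ∀ᶠ w in 𝓝[≠] z, A w ≠ 0 := by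
    rcases (hA.analyticAt z).eventually_eq_zero_or_eventually_ne_zero with h5 | h5
    · exfalso
      obtain ⟨w, hw⟩ := hne
      apply hw
      have := hanalytic.eqOn_zero_of_preconnected_of_eventuallyEq_zero isPreconnected_univ
        (Set.mem_univ z) h5
      exact this (Set.mem_univ w)
    · exact h5
  have hnorm : ∀ t : ℝ, ‖γ t‖ = r := by
    intro t
    rw [hγ]
    simp only
    rw [norm_mul, Complex.norm_exp_ofReal_mul_I, mul_one, hz]
  have hev : ∀ᶠ t in 𝓝[≠] (0 : ℝ), f (γ t) ≤ g (γ t) := by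
    filter_upwards [ht.eventually hS] with t hAt
    exact h _ (hnorm t) hAt
  have hcγ : Tendsto γ (𝓝[≠] (0 : ℝ)) (𝓝 z) := ht.mono_right nhdsWithin_le_nhds
  exact le_of_tendsto_of_tendsto ((hf.tendsto z).comp hcγ) ((hg.tendsto z).comp hcγ) hev

private lemma d1_step {M : ℕ} {Y : ℂ → Fin (M + 1) → ℂ} (hY : Differentiable ℂ Y)
    (h0 : ∀ z, Y z ≠ 0) (h00 : ∃ z, Y z 0 ≠ 0) (l : ℕ) {C₁ : ℝ} {E₁ : Set ℝ} (hC₁ : 0 ≤ C₁)
    (hE₁ : volume E₁ < ⊤)
    (h : ∀ r : ℝ, 1 ≤ r → r ∉ E₁ → ∀ z : ℂ, ‖z‖ = r →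
      ∀ i, ‖num Y i l z‖ ≤ ‖Y z‖ ^ (l + 1) *
        Real.exp (C₁ * (Real.log r + Real.posLog (SM.height Y r) + 1)))
    (i : Fin (M + 1)) :
    ∃ (C : ℝ) (E : Set ℝ), 0 ≤ C ∧ volume E < ⊤ ∧ ∀ r : ℝ, 1 ≤ r → r ∉ E → ∀ z : ℂ, ‖z‖ = r →
      ‖num Y i (l + 1) z‖ ≤ ‖Y z‖ ^ (l + 1 + 1) *
        Real.exp (C * (Real.log r + Real.posLog (SM.height Y r) + 1)) := by
  have hYd : ∀ i, Differentiable ℂ fun z => Y z i := fun i => (differentiable_pi.mp hY) i
  by_cases hne : ∃ z, num Y i l z ≠ 0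
  swap
  · push Not at hne
    refine ⟨0, ∅, le_rfl, by simp, fun r hr _ z hz => ?_⟩
    have h1 : num Y i (l + 1) z = 0 := by
      have h2 : num Y i l = fun _ => 0 := funext hne
      show Y z 0 * deriv (num Y i l) z -
        ((l : ℂ) + 1) * deriv (fun z => Y z 0) z * num Y i l z = 0
      rw [h2]
      simp
    rw [h1, norm_zero]
    positivity
  -- the auxiliary curve
  obtain ⟨Z, hZdef⟩ : ∃ Z : ℂ → Fin (M + 1 + 1) → ℂ, Z = fun z =>
    Fin.cons (num Y i l z) (fun j => Y z j ^ (l + 1)) := ⟨_, rfl⟩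
  have hZ0 : ∀ z, Z z 0 = num Y i l z := fun z => by rw [hZdef]; rfl
  have hZs : ∀ z j, Z z (Fin.succ j) = Y z j ^ (l + 1) := fun z j => by rw [hZdef]; rfl
  have hnumd := num_differentiable hY i l
  have hZd : Differentiable ℂ Z := by
    rw [differentiable_pi]
    intro j
    refine Fin.cases ?_ (fun j => ?_) j
    · simp_rw [hZ0]
      exact hnumd
    · simp_rw [hZs]
      exact (hYd j).pow _
  have hZne : ∀ z, Z z ≠ 0 := by
    intro z hz
    obtain ⟨j, hj⟩ := Function.ne_iff.mp (h0 z)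
    have h1 := congrFun hz (Fin.succ j)
    rw [hZs] at h1
    exact hj (pow_eq_zero_iff (Nat.succ_ne_zero l) |>.mp h1)
  obtain ⟨C₂, E₂, hC₂, hE₂, hmain⟩ := SM.curve_logDeriv hZd hZne
    (fun j : Fin 0 => (j.elim0 : Fin (M + 1 + 1) → ℂ))
  obtain ⟨K, hK⟩ : ∃ K : ℝ, K = 2 * Real.log 2 + Real.posLog (SM.height Z 1) +
    Real.posLog ((l : ℝ) + 1) + Real.posLog C₁ + 2 := ⟨_, rfl⟩
  have hlog2 : 0 ≤ Real.log 2 := Real.log_nonneg (by norm_num)
  have hK0 : 0 ≤ K := by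
    have p1 := Real.posLog_nonneg (x := SM.height Z 1)
    have p2 := Real.posLog_nonneg (x := (l : ℝ) + 1)
    have p3 := Real.posLog_nonneg (x := C₁)
    rw [hK]
    linarith
  refine ⟨C₁ + C₂ * (K + 1), E₁ ∪ E₂, by positivity, ?_, ?_⟩
  · exact (measure_union_le _ _).trans_lt (ENNReal.add_lt_top.mpr ⟨hE₁, hE₂⟩)
  intro r hr hrE
  rw [Set.mem_union, not_or] at hrE
  obtain ⟨hr1, hr2⟩ := hrE
  have hlogr : 0 ≤ Real.log r := Real.log_nonneg hr
  have hr0 : 0 < r := zero_lt_one.trans_le hr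
  set S : ℝ := Real.log r + Real.posLog (SM.height Y r) + 1 with hS
  have hTS : Real.posLog (SM.height Y r) ≤ S := by rw [hS]; linarith
  have hlS : Real.log r + 1 ≤ S := by
    have := Real.posLog_nonneg (x := SM.height Y r)
    rw [hS]
    linarith
  have hS1 : 1 ≤ S := by linarith
  have hYpos : ∀ z, 0 < ‖Y z‖ := fun z => norm_pos_iff.mpr (h0 z)
  -- the height of `Z`
  have hup : SM.height Z r ≤ ((l : ℝ) + 1) * SM.height Y r + C₁ * S := by
    have hcY : Continuous fun z : ℂ => Real.log ‖Y z‖ :=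
      Continuous.log hY.continuous.norm fun z => (hYpos z).ne'
    have hcZ : Continuous fun z : ℂ => Real.log ‖Z z‖ :=
      Continuous.log hZd.continuous.norm fun z => norm_ne_zero_iff.mpr (hZne z)
    have hi1 : CircleIntegrable (fun z : ℂ => Real.log ‖Y z‖) 0 r :=
      hcY.continuousOn.circleIntegrable hr0.le
    have hi2 : CircleIntegrable (fun z : ℂ => Real.log ‖Z z‖) 0 r :=
      hcZ.continuousOn.circleIntegrable hr0.le
    have hi3 : CircleIntegrable (fun z : ℂ => ((l : ℝ) + 1) * Real.log ‖Y z‖) 0 r :=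
      (continuous_const.mul hcY).continuousOn.circleIntegrable hr0.le
    have hi4 : CircleIntegrable (fun _ : ℂ => C₁ * S) 0 r :=
      continuousOn_const.circleIntegrable hr0.le
    have h1 : Real.circleAverage (fun z => Real.log ‖Z z‖) 0 r ≤
        Real.circleAverage (fun z => ((l : ℝ) + 1) * Real.log ‖Y z‖ + C₁ * S) 0 r := by
      refine Real.circleAverage_mono hi2 (hi3.add hi4) ?_
      intro z hz
      have hz' : ‖z‖ = r := by
        rw [mem_sphere_zero_iff_norm, abs_of_pos hr0] at hz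
        exact hz
      have h2 : ‖Z z‖ ≤ ‖Y z‖ ^ (l + 1) * Real.exp (C₁ * S) := by
        refine (pi_norm_le_iff_of_nonneg (by positivity)).mpr fun j => ?_
        refine Fin.cases ?_ (fun j => ?_) j
        · rw [hZ0]
          exact h r hr hr1 z hz' i
        · rw [hZs, norm_pow]
          have h3 : ‖Y z j‖ ^ (l + 1) ≤ ‖Y z‖ ^ (l + 1) :=
            pow_le_pow_left₀ (norm_nonneg _) (norm_le_pi_norm (Y z) j) _
          have h4 : 1 ≤ Real.exp (C₁ * S) := Real.one_le_exp (by positivity)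
          have h5 : 0 ≤ ‖Y z‖ ^ (l + 1) := by positivity
          nlinarith
      have h3 := Real.log_le_log (norm_pos_iff.mpr (hZne z)) h2
      rw [Real.log_mul (pow_ne_zero _ (hYpos z).ne') (Real.exp_pos _).ne', Real.log_pow,
        Real.log_exp] at h3
      push_cast at h3
      exact h3
    have h2 : Real.circleAverage (fun z => ((l : ℝ) + 1) * Real.log ‖Y z‖ + C₁ * S) 0 r =
        ((l : ℝ) + 1) * SM.height Y r + C₁ * S := by
      rw [Real.circleAverage_fun_add hi3 hi4, Real.circleAverage_const]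
      congr 1
      exact Real.circleAverage_fun_smul (a := (l : ℝ) + 1) (f := fun z => Real.log ‖Y z‖)
    rw [h2] at h1
    exact h1
  have hlow : SM.height Z 1 ≤ SM.height Z r := SM.E3_mono hZd hZne zero_le_one hr
  have hpl : Real.posLog (SM.height Z r) ≤ K * S := by
    rw [hK]
    exact d1_posLog hC₁ hS1 hTS hlow hup
  -- the estimate outside the zeros
  have hgood : ∀ z : ℂ, ‖z‖ = r → Y z 0 * num Y i l z ≠ 0 →
      ‖num Y i (l + 1) z‖ ≤ ‖Y z‖ ^ (l + 1 + 1) * Real.exp ((C₁ + C₂ * (K + 1)) * S) := by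
    intro z hz hAB
    obtain ⟨hA, hB⟩ := mul_ne_zero_iff.mp hAB
    obtain ⟨h1, -⟩ := hmain r hr hr2 z hz
    have h2 := h1 0 (Fin.succ 0) (by simp_rw [hZ0]; exact hne) (by
      obtain ⟨w, hw⟩ := h00
      exact ⟨w, by rw [hZs]; exact pow_ne_zero _ hw⟩)
    have hd0 : deriv Z z 0 = deriv (num Y i l) z := by
      have h3 := (hasDerivAt_pi.mp (hZd z).hasDerivAt) 0
      simp_rw [hZ0] at h3
      exact h3.deriv.symm
    have hd1 : deriv Z z (Fin.succ 0) =
        ((l : ℂ) + 1) * Y z 0 ^ l * deriv (fun z => Y z 0) z := by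
      have h3 := (hasDerivAt_pi.mp (hZd z).hasDerivAt) (Fin.succ 0)
      simp_rw [hZs] at h3
      have h4 := ((hYd 0) z).hasDerivAt.pow (l + 1)
      have h5 := h3.unique h4
      rw [h5]
      push_cast
      rfl
    rw [hd0, hd1, hZ0, hZs] at h2
    have h3 : num Y i (l + 1) z = Y z 0 * num Y i l z * (deriv (num Y i l) z / num Y i l z -
        ((l : ℂ) + 1) * Y z 0 ^ l * deriv (fun z => Y z 0) z / Y z 0 ^ (l + 1)) := by
      show Y z 0 * deriv (num Y i l) z -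
        ((l : ℂ) + 1) * deriv (fun z => Y z 0) z * num Y i l z = _
      rw [pow_succ]
      field_simp
    have h4 : Real.exp (C₂ * (Real.log r + Real.posLog (SM.height Z r) + 1)) ≤
        Real.exp (C₂ * (K + 1) * S) := by
      apply Real.exp_le_exp.mpr
      rw [mul_assoc]
      refine mul_le_mul_of_nonneg_left ?_ hC₂
      linarith
    have h5 := h2.trans h4
    rw [h3, norm_mul, norm_mul]
    calc ‖Y z 0‖ * ‖num Y i l z‖ * ‖deriv (num Y i l) z / num Y i l z -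
          ((l : ℂ) + 1) * Y z 0 ^ l * deriv (fun z => Y z 0) z / Y z 0 ^ (l + 1)‖
        ≤ ‖Y z‖ * (‖Y z‖ ^ (l + 1) * Real.exp (C₁ * S)) * Real.exp (C₂ * (K + 1) * S) := by
          have h6 := h r hr hr1 z hz i
          have h7 := norm_le_pi_norm (Y z) 0
          gcongr
      _ = ‖Y z‖ ^ (l + 1 + 1) * (Real.exp (C₁ * S) * Real.exp (C₂ * (K + 1) * S)) := by ring
      _ = ‖Y z‖ ^ (l + 1 + 1) * Real.exp ((C₁ + C₂ * (K + 1)) * S) := by
          rw [← Real.exp_add]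
          congr 2
          ring
  -- the whole circle
  have hAn : ∃ z, Y z 0 * num Y i l z ≠ 0 := by
    by_contra hcon
    push Not at hcon
    have hA1 : AnalyticOnNhd ℂ (fun z => Y z 0) Set.univ := fun z _ => (hYd 0).analyticAt z
    have hA2 : AnalyticOnNhd ℂ (num Y i l) Set.univ := fun z _ => hnumd.analyticAt z
    rcases hA1.eq_zero_or_eq_zero_of_mul_eq_zero hA2 (fun z _ => hcon z) isPreconnected_univ with
      h1 | h1
    · obtain ⟨w, hw⟩ := h00
      exact hw (h1 w (Set.mem_univ w))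
    · obtain ⟨w, hw⟩ := hne
      exact hw (h1 w (Set.mem_univ w))
  refine d1_circle (A := fun z => Y z 0 * num Y i l z) ((hYd 0).mul hnumd) hAn ?_ ?_ hr hgood
  · exact (num_differentiable hY i (l + 1)).continuous.norm
  · exact (hY.continuous.norm.pow _).mul continuous_const

theorem num_bound {M : ℕ} {Y : ℂ → Fin (M + 1) → ℂ} (hY : Differentiable ℂ Y)
    (h0 : ∀ z, Y z ≠ 0) (h00 : ∃ z, Y z 0 ≠ 0) (l : ℕ) :
    ∃ (C : ℝ) (E : Set ℝ), 0 ≤ C ∧ volume E < ⊤ ∧ ∀ r : ℝ, 1 ≤ r → r ∉ E → ∀ z : ℂ, ‖z‖ = r →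
      ∀ i, ‖num Y i l z‖ ≤ ‖Y z‖ ^ (l + 1) *
        Real.exp (C * (Real.log r + Real.posLog (SM.height Y r) + 1)) := by
  induction l with
  | zero =>
    refine ⟨0, ∅, le_rfl, by simp, fun r _ _ z _ i => ?_⟩
    rw [zero_mul, Real.exp_zero, mul_one, zero_add, pow_one]
    exact norm_le_pi_norm (Y z) i
  | succ l ih =>
    obtain ⟨C₁, E₁, hC₁, hE₁, h⟩ := ih
    choose C E hC hE hm using d1_step hY h0 h00 l hC₁ hE₁ h
    refine ⟨∑ i, C i, ⋃ i, E i, Finset.sum_nonneg fun i _ => hC i, ?_, ?_⟩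
    · refine (measure_iUnion_le _).trans_lt ?_
      rw [tsum_fintype]
      exact ENNReal.sum_lt_top.mpr fun i _ => hE i
    · intro r hr hrE z hz i
      have hri : r ∉ E i := fun hh => hrE (Set.mem_iUnion.mpr ⟨i, hh⟩)
      refine (hm i r hr hri z hz).trans ?_
      have hS : 0 ≤ Real.log r + Real.posLog (SM.height Y r) + 1 := by
        have := Real.log_nonneg hr
        have := Real.posLog_nonneg (x := SM.height Y r)
        linarith
      have hle : C i ≤ ∑ i, C i := Finset.single_le_sum (fun j _ => hC j) (Finset.mem_univ i)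
      gcongr

end Pool.Agent.Lib.GGL.CR
end

section

/-!
The number of points at which the auxiliary function has large order.
-/

open Filter Topology MvPolynomial MeasureTheory Module

namespace Pool.Agent.Lib.GGL.CV

open CR (JIx)

/-- Jensen's formula bounds the number of points of order at least `J + 1`. -/
private lemma d2_jensen {a : ℂ → ℂ} (ha : Differentiable ℂ a) (hne : ∃ z, a z ≠ 0) {J : ℕ}
    {Z : Set ℂ} (hZ : ∀ z ∈ Z, ((J + 1 : ℕ) : ℕ∞) ≤ analyticOrderAt a z) {r : ℝ} (hr : 1 ≤ r) :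
    ((J : ℝ) + 1) * CR.count Z r ≤ Real.circleAverage (fun z => Real.log ‖a z‖) 0 r +
      |Real.log ‖meromorphicTrailingCoeffAt a 0‖| := by
  classical
  set W := (SM.zeros_finite ha hne r).toFinset with hW
  have hord : ∀ z ∈ Z, J + 1 ≤ analyticOrderNatAt a z := by
    intro z hz
    have h1 := hZ z hz
    rw [← Nat.cast_analyticOrderNatAt (SM.e4_order_ne_top ha hne z)] at h1
    exact_mod_cast h1
  have hmem : ∀ u, u ∈ W ↔ a u = 0 ∧ ‖u‖ ≤ r := by
    intro u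
    rw [hW, Set.Finite.mem_toFinset]
    constructor
    · rintro ⟨h1, h2⟩
      exact ⟨h1, mem_closedBall_zero_iff.1 h2⟩
    · rintro ⟨h1, h2⟩
      exact ⟨h1, mem_closedBall_zero_iff.2 h2⟩
  have hcount : CR.count Z r = ∑ u ∈ W.filter (· ∈ Z), SM.c3a_L r u := by
    unfold CR.count
    have h1 : {z | z ∈ Z ∧ ‖z‖ ≤ r} = ↑(W.filter (· ∈ Z)) := by
      ext u
      rw [Finset.coe_filter]
      show (u ∈ Z ∧ ‖u‖ ≤ r) ↔ (u ∈ W ∧ u ∈ Z)
      rw [hmem]
      constructor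
      · rintro ⟨h1, h2⟩
        refine ⟨⟨?_, h2⟩, h1⟩
        have := hord u h1
        exact apply_eq_zero_of_analyticOrderNatAt_ne_zero (by omega)
      · rintro ⟨⟨_, h2⟩, h3⟩
        exact ⟨h3, h2⟩
    rw [h1, finsum_mem_coe_finset]
  have hj := SM.e4_jensen ha hne hr
  have h3 : ∑ u ∈ (SM.zeros_finite ha hne r).toFinset, (analyticOrderNatAt a u : ℝ) *
      (if u = 0 then Real.log r else Real.log (r / ‖u‖)) =
      ∑ u ∈ W, (analyticOrderNatAt a u : ℝ) * SM.c3a_L r u := by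
    refine Finset.sum_congr rfl fun u _ => ?_
    unfold SM.c3a_L
    split_ifs <;> rfl
  rw [h3] at hj
  rw [hcount, Finset.mul_sum]
  have h2 : ∑ u ∈ W.filter (· ∈ Z), ((J : ℝ) + 1) * SM.c3a_L r u ≤
      ∑ u ∈ W, (analyticOrderNatAt a u : ℝ) * SM.c3a_L r u := by
    refine (Finset.sum_le_sum (fun u hu => ?_)).trans
      (Finset.sum_le_sum_of_subset_of_nonneg (Finset.filter_subset (· ∈ Z) W) (fun u hu _ => ?_))
    · rw [Finset.mem_filter] at hu
      have h4 := SM.c3a_L_nonneg hr ((hmem u).mp hu.1).2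
      refine mul_le_mul_of_nonneg_right ?_ h4
      exact_mod_cast hord u hu.2
    · exact mul_nonneg (Nat.cast_nonneg _) (SM.c3a_L_nonneg hr ((hmem u).mp hu).2)
  have h5 := neg_abs_le (Real.log ‖meromorphicTrailingCoeffAt a 0‖)
  linarith

/-- Pointwise bound of the auxiliary function. -/
private lemma d2_bound {N J n A : ℕ} {T : Type*} [Fintype T]
    {F : MvPolynomial ((Fin N × T) ⊕ JIx J n) ℂ}
    (hF : ∀ m ∈ F.support, jw m ≤ A) (p : Fin N → T → ℂ)
    {Y : ℂ → Fin (n + 1) → ℂ} {z : ℂ} {b : ℝ} (hb : 0 ≤ b)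
    (h : ∀ l ≤ J, ∀ i, ‖CR.num Y i l z‖ ≤ ‖Y z‖ ^ (l + 1) * Real.exp b) :
    ‖auxFun A F p Y z‖ ≤ (∑ m ∈ F.support, ‖coeff m F‖ *
      ∏ x : Fin N × T, ‖p x.1 x.2‖ ^ m (Sum.inl x)) *
        (‖Y z‖ ^ A * Real.exp (A * b)) := by
  unfold auxFun
  refine (norm_sum_le _ _).trans ?_
  rw [Finset.sum_mul]
  refine Finset.sum_le_sum fun m hm => ?_
  have hmA := hF m hm
  have hsum : ∑ x : JIx J n, m (Sum.inr x) ≤ A := by
    refine le_trans ?_ hmA
    unfold jw
    refine Finset.sum_le_sum fun x _ => ?_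
    exact Nat.le_mul_of_pos_right _ (Nat.succ_pos _)
  have hj : ∏ x : JIx J n, ‖(CR.num Y x.2.succ x.1 z / ((x.1 : ℕ).factorial : ℂ)) ^
      m (Sum.inr x)‖ ≤ ‖Y z‖ ^ jw m * Real.exp (A * b) := by
    calc ∏ x : JIx J n, ‖(CR.num Y x.2.succ x.1 z / ((x.1 : ℕ).factorial : ℂ)) ^ m (Sum.inr x)‖
        ≤ ∏ x : JIx J n, (‖Y z‖ ^ (m (Sum.inr x) * ((x.1 : ℕ) + 1)) *
            Real.exp ((m (Sum.inr x) : ℝ) * b)) := by
          refine Finset.prod_le_prod (fun _ _ => norm_nonneg _) fun x _ => ?_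
          have h1 : ‖CR.num Y x.2.succ x.1 z / ((x.1 : ℕ).factorial : ℂ)‖ ≤
              ‖Y z‖ ^ ((x.1 : ℕ) + 1) * Real.exp b := by
            rw [norm_div, Complex.norm_natCast]
            have h2 : (1 : ℝ) ≤ ((x.1 : ℕ).factorial : ℝ) := by
              exact_mod_cast Nat.factorial_pos _
            refine (div_le_self (norm_nonneg _) h2).trans ?_
            exact h _ (Nat.lt_succ_iff.mp x.1.isLt) _
          rw [norm_pow]
          calc ‖CR.num Y x.2.succ x.1 z / ((x.1 : ℕ).factorial : ℂ)‖ ^ m (Sum.inr x)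
              ≤ (‖Y z‖ ^ ((x.1 : ℕ) + 1) * Real.exp b) ^ m (Sum.inr x) :=
                pow_le_pow_left₀ (norm_nonneg _) h1 _
            _ = ‖Y z‖ ^ (m (Sum.inr x) * ((x.1 : ℕ) + 1)) *
                Real.exp ((m (Sum.inr x) : ℝ) * b) := by
                rw [mul_pow, ← pow_mul, ← Real.exp_nat_mul, mul_comm ((x.1 : ℕ) + 1)]
      _ = ‖Y z‖ ^ jw m * Real.exp ((∑ x : JIx J n, (m (Sum.inr x) : ℝ)) * b) := by
          rw [Finset.prod_mul_distrib, Finset.prod_pow_eq_pow_sum, ← Real.exp_sum,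
            ← Finset.sum_mul]
          rfl
      _ ≤ ‖Y z‖ ^ jw m * Real.exp (A * b) := by
          refine mul_le_mul_of_nonneg_left (Real.exp_le_exp.mpr ?_) (by positivity)
          refine mul_le_mul_of_nonneg_right ?_ hb
          exact_mod_cast hsum
  have h0 : ‖Y z 0 ^ (A - jw m)‖ ≤ ‖Y z‖ ^ (A - jw m) := by
    rw [norm_pow]
    exact pow_le_pow_left₀ (norm_nonneg _) (norm_le_pi_norm (Y z) 0) _
  rw [norm_mul, norm_mul, norm_mul, norm_prod, norm_prod]
  simp only [norm_pow] at h0 hj ⊢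
  calc ‖coeff m F‖ * (∏ x : Fin N × T, ‖p x.1 x.2‖ ^ m (Sum.inl x)) *
        (‖Y z 0‖ ^ (A - jw m) * ∏ x : JIx J n,
          ‖CR.num Y x.2.succ x.1 z / ((x.1 : ℕ).factorial : ℂ)‖ ^ m (Sum.inr x))
      ≤ ‖coeff m F‖ * (∏ x : Fin N × T, ‖p x.1 x.2‖ ^ m (Sum.inl x)) *
        (‖Y z‖ ^ (A - jw m) * (‖Y z‖ ^ jw m * Real.exp (A * b))) := by
        refine mul_le_mul_of_nonneg_left ?_ (by positivity)
        exact mul_le_mul h0 hj (by positivity) (by positivity)
    _ = _ := by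
        rw [← mul_assoc (‖Y z‖ ^ (A - jw m)), ← pow_add, Nat.sub_add_cancel hmA]

theorem aux_count {N J n A : ℕ} {T : Type*} [Fintype T]
    {F : MvPolynomial ((Fin N × T) ⊕ JIx J n) ℂ}
    (hF : ∀ m ∈ F.support, jw m ≤ A) {p : Fin N → T → ℂ}
    {Y : ℂ → Fin (n + 1) → ℂ} (hY : Differentiable ℂ Y) (h0 : ∀ z, Y z ≠ 0)
    (h00 : ∃ z, Y z 0 ≠ 0) (hne : ∃ z, auxFun A F p Y z ≠ 0) {Z : Set ℂ}
    (hZ : ∀ z ∈ Z, ((J + 1 : ℕ) : ℕ∞) ≤ analyticOrderAt (auxFun A F p Y) z) :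
    ∃ (C : ℝ) (E : Set ℝ), 0 ≤ C ∧ volume E < ⊤ ∧ ∀ r : ℝ, 1 ≤ r → r ∉ E →
      ((J : ℝ) + 1) * CR.count Z r ≤ A * SM.height Y r +
        C * (Real.log r + Real.posLog (SM.height Y r) + 1) := by
  classical
  choose C E hC hE hm using fun l : ℕ => CR.num_bound hY h0 h00 l
  have had : Differentiable ℂ (auxFun A F p Y) := auxFun_differentiable A F p hY
  obtain ⟨Cm, hCm⟩ : ∃ Cm : ℝ, Cm = ∑ l ∈ Finset.range (J + 1), C l := ⟨_, rfl⟩
  have hCm0 : 0 ≤ Cm := by
    rw [hCm]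
    exact Finset.sum_nonneg fun l _ => hC l
  obtain ⟨K, hK⟩ : ∃ K : ℝ, K = 1 + ∑ m ∈ F.support, ‖coeff m F‖ *
      ∏ x : Fin N × T, ‖p x.1 x.2‖ ^ m (Sum.inl x) := ⟨_, rfl⟩
  have hs0 : 0 ≤ ∑ m ∈ F.support, ‖coeff m F‖ *
      ∏ x : Fin N × T, ‖p x.1 x.2‖ ^ m (Sum.inl x) :=
    Finset.sum_nonneg fun m _ => by positivity
  have hK1 : 1 ≤ K := by rw [hK]; linarith
  have hlogK : 0 ≤ Real.log K := Real.log_nonneg hK1
  obtain ⟨t, ht⟩ : ∃ t : ℝ, t = |Real.log ‖meromorphicTrailingCoeffAt (auxFun A F p Y) 0‖| :=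
    ⟨_, rfl⟩
  have ht0 : 0 ≤ t := by rw [ht]; exact abs_nonneg _
  refine ⟨A * Cm + Real.log K + t, ⋃ l : Fin (J + 1), E l, by positivity, ?_, ?_⟩
  · refine (measure_iUnion_le _).trans_lt ?_
    rw [tsum_fintype]
    exact ENNReal.sum_lt_top.mpr fun l _ => hE l
  intro r hr hrE
  have hr0 : 0 < r := zero_lt_one.trans_le hr
  have hlogr : 0 ≤ Real.log r := Real.log_nonneg hr
  have hpos := Real.posLog_nonneg (x := SM.height Y r)
  obtain ⟨S, hS⟩ : ∃ S : ℝ, S = Real.log r + Real.posLog (SM.height Y r) + 1 := ⟨_, rfl⟩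
  have hS1 : 1 ≤ S := by rw [hS]; linarith
  have hYpos : ∀ z, 0 < ‖Y z‖ := fun z => norm_pos_iff.mpr (h0 z)
  have hb0 : 0 ≤ Cm * S := mul_nonneg hCm0 (by linarith)
  have hcirc : ∀ z : ℂ, ‖z‖ = r → ‖auxFun A F p Y z‖ ≤
      K * (‖Y z‖ ^ A * Real.exp (A * (Cm * S))) := by
    intro z hz
    have h1 := d2_bound hF p (Y := Y) (z := z) hb0 (fun l hl i => by
      have hlE : r ∉ E l := fun hh => hrE (Set.mem_iUnion.mpr ⟨⟨l, Nat.lt_succ_iff.mpr hl⟩, hh⟩)
      refine (hm l r hr hlE z hz i).trans ?_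
      rw [← hS]
      refine mul_le_mul_of_nonneg_left (Real.exp_le_exp.mpr ?_) (by positivity)
      refine mul_le_mul_of_nonneg_right ?_ (by linarith)
      rw [hCm]
      exact Finset.single_le_sum (fun l _ => hC l) (Finset.mem_range.mpr (Nat.lt_succ_iff.mpr hl)))
    refine h1.trans (mul_le_mul_of_nonneg_right ?_ (by positivity))
    rw [hK]
    linarith
  have hcY : Continuous fun z : ℂ => Real.log ‖Y z‖ :=
    Continuous.log hY.continuous.norm fun z => (hYpos z).ne'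
  have hi1 : CircleIntegrable (fun z : ℂ => (A : ℝ) * Real.log ‖Y z‖) 0 r :=
    (continuous_const.mul hcY).continuousOn.circleIntegrable hr0.le
  have hi2 : CircleIntegrable (fun _ : ℂ => Real.log K + A * (Cm * S)) 0 r :=
    continuousOn_const.circleIntegrable hr0.le
  have hi3 : CircleIntegrable (fun z => Real.log ‖auxFun A F p Y z‖) 0 r :=
    MeromorphicOn.circleIntegrable_log_norm fun z _ => (had.analyticAt z).meromorphicAt
  have hdis : ∀ z₁, ∀ᶠ z in 𝓝[≠] z₁, z ∉ {z | auxFun A F p Y z = 0} := by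
    intro z₁
    rcases (had.analyticAt z₁).eventually_eq_zero_or_eventually_ne_zero with h5 | h5
    · exfalso
      obtain ⟨w, hw⟩ := hne
      apply hw
      have hana : AnalyticOnNhd ℂ (auxFun A F p Y) Set.univ := fun z _ => had.analyticAt z
      have := hana.eqOn_zero_of_preconnected_of_eventuallyEq_zero isPreconnected_univ
        (Set.mem_univ z₁) h5
      exact this (Set.mem_univ w)
    · exact h5
  have h6 := SM.circleAverage_mono_ae hr0 hi3 (hi1.add hi2) hdis (fun z hz hz0 => by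
    have hz1 : auxFun A F p Y z ≠ 0 := hz0
    have h7 := Real.log_le_log (norm_pos_iff.mpr hz1) (hcirc z hz)
    rw [Real.log_mul (by linarith) (mul_pos (pow_pos (hYpos z) _) (Real.exp_pos _)).ne',
      Real.log_mul (pow_ne_zero _ (hYpos z).ne') (Real.exp_pos _).ne', Real.log_pow,
      Real.log_exp] at h7
    show Real.log ‖auxFun A F p Y z‖ ≤ (A : ℝ) * Real.log ‖Y z‖ + (Real.log K + A * (Cm * S))
    linarith)
  rw [Real.circleAverage_add hi1 hi2, Real.circleAverage_const] at h6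
  have h8 : Real.circleAverage (fun z : ℂ => (A : ℝ) * Real.log ‖Y z‖) 0 r =
      A * SM.height Y r :=
    Real.circleAverage_fun_smul (a := (A : ℝ)) (f := fun z => Real.log ‖Y z‖)
  rw [h8] at h6
  have h9 := d2_jensen had hne hZ hr
  rw [← ht] at h9
  rw [← hS]
  have h10 : Real.log K ≤ Real.log K * S := le_mul_of_one_le_right hlogK hS1
  have h11 : t ≤ t * S := le_mul_of_one_le_right ht0 hS1
  nlinarith

end Pool.Agent.Lib.GGL.CV
end
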