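import Mathlib
import Pool.Agent.Lib.MP_8d161d_ag.CV.Defs
import Pool.Agent.Lib.MP_8d161d_ag.Mg.G036
import Pool.Agent.Lib.MP_8d161d_ag.Mg.G037
import Pool.Agent.Lib.MP_8d161d_ag.Mg.G004
import Pool.Agent.Lib.MP_8d161d_ag.Mg.G014

section

/-!
The crossing estimate: Noetherian induction.
-/

open Filter Topology MvPolynomial MeasureTheory Module

namespace Pool.Agent.Lib.GGL.CV

open CR (JIx)

lemma h1_sum_rename {A B σ : Type*} (f : A → B) (Λ : MvPolynomial (A ⊕ σ) ℂ) :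
    sumAlgEquiv ℂ B σ (rename (Sum.map f id) Λ) = rename f (sumAlgEquiv ℂ A σ Λ) := by
  induction Λ using MvPolynomial.induction_on with
  | C a =>
    rw [rename_C]
    show sumRingEquiv ℂ B σ (C a) = rename f (sumRingEquiv ℂ A σ (C a))
    rw [sumRingEquiv_C, sumRingEquiv_C, rename_C]
  | add p q hp hq => rw [map_add, map_add, hp, hq, map_add, map_add]
  | mul_X p x hp =>
    rw [map_mul, map_mul, map_mul, map_mul, hp, rename_X]
    congr 1
    rcases x with x | x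
    · show sumRingEquiv ℂ B σ (X (Sum.inl (f x))) = rename f (sumRingEquiv ℂ A σ (X (Sum.inl x)))
      rw [sumRingEquiv_X_inl, sumRingEquiv_X_inl, rename_X]
    · show sumRingEquiv ℂ B σ (X (Sum.inr x)) = rename f (sumRingEquiv ℂ A σ (X (Sum.inr x)))
      rw [sumRingEquiv_X_inr, sumRingEquiv_X_inr, rename_C]

theorem good_blocks {σ : Type} [Finite σ] {q N N' D : ℕ} (hN : N' + D ≤ N)
    {T : Type} [Fintype T] (t₀ : T)
    (𝔞 : Ideal (MvPolynomial σ ℂ))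
    (htr : ∀ (L : Type) [Field L] [Algebra ℂ L] (w : σ → L), (∀ G ∈ 𝔞, aeval w G = 0) →
      VG.TrdegLE ℂ w D)
    (Λ : MvPolynomial ((Fin q × T) ⊕ σ) ℂ) :
    ∃ Θ : MvPolynomial (Fin N × T) ℂ, Θ ≠ 0 ∧ ∀ p : Fin N → T → ℂ,
      eval (fun x : Fin N × T => p x.1 x.2) Θ ≠ 0 →
      ∀ w : σ → ℂ, (∀ G ∈ 𝔞, eval w G = 0) →
      (∃ m, eval w (coeff m (sumAlgEquiv ℂ (Fin q × T) σ Λ)) ≠ 0) →
      ∃ e' : Fin N' ↪ Fin N, ∀ e : Fin q ↪ Fin N',
        eval (Sum.elim (fun x : Fin q × T => p (e' (e x.1)) x.2) w) Λ ≠ 0 := by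
  classical
  obtain ⟨M, ⟨ε⟩⟩ : ∃ M, Nonempty (T ≃ Fin (M + 1)) := by
    have : 0 < Fintype.card T := Fintype.card_pos_iff.mpr ⟨t₀⟩
    obtain ⟨M, hM⟩ := Nat.exists_eq_succ_of_ne_zero this.ne'
    exact ⟨M, ⟨Fintype.equivFinOfCardEq hM⟩⟩
  obtain ⟨f, hf⟩ : ∃ f : Fin q × T → Fin q × Fin (M + 1), f = fun x => (x.1, ε x.2) := ⟨_, rfl⟩
  have hfi : Function.Injective f := by
    rintro ⟨a, b⟩ ⟨a', b'⟩ h
    rw [hf] at h
    simp only [Prod.mk.injEq, EmbeddingLike.apply_eq_iff_eq] at h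
    rw [h.1, h.2]
  obtain ⟨Θ, hΘ, h⟩ := SM.good_blocks (M := M) hN 𝔞 htr (rename (Sum.map f id) Λ)
  obtain ⟨g, hg⟩ : ∃ g : Fin N × Fin (M + 1) → Fin N × T, g = fun x => (x.1, ε.symm x.2) :=
    ⟨_, rfl⟩
  have hgi : Function.Injective g := by
    rintro ⟨a, b⟩ ⟨a', b'⟩ h
    rw [hg] at h
    simp only [Prod.mk.injEq, EmbeddingLike.apply_eq_iff_eq] at h
    rw [h.1, h.2]
  refine ⟨rename g Θ, fun h0 => hΘ (rename_injective g hgi (by rw [h0, map_zero])), ?_⟩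
  intro p hp w hw ⟨m, hm⟩
  rw [eval_rename] at hp
  obtain ⟨e', he'⟩ := h (fun j b => p j (ε.symm b)) (by
    have h1 : (fun x : Fin N × T => p x.1 x.2) ∘ g =
        fun x : Fin N × Fin (M + 1) => p x.1 (ε.symm x.2) := by
      rw [hg]
      rfl
    rwa [h1] at hp) w hw ⟨m.mapDomain f, by
      rw [h1_sum_rename, coeff_rename_mapDomain f hfi]
      exact hm⟩
  refine ⟨e', fun e => ?_⟩
  have h2 := he' e
  rw [eval_rename] at h2
  have h3 : (Sum.elim (fun x : Fin q × Fin (M + 1) => p (e' (e x.1)) (ε.symm x.2)) w) ∘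
      Sum.map f id = Sum.elim (fun x : Fin q × T => p (e' (e x.1)) x.2) w := by
    funext x
    rcases x with x | x
    · rw [hf]
      simp
    · rfl
  rwa [h3] at h2


lemma h1_zero_sup {J n : ℕ} {𝔞 : Ideal (MvPolynomial (JIx J n) ℂ)}
    {s : Set (MvPolynomial (JIx J n) ℂ)} {w : JIx J n → ℂ} (h : ∀ G ∈ 𝔞, eval w G = 0)
    (hs : ∀ G ∈ s, eval w G = 0) : ∀ G ∈ 𝔞 ⊔ Ideal.span s, eval w G = 0 := by
  have h1 : 𝔞 ⊔ Ideal.span s ≤ RingHom.ker (eval w) := by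
    apply sup_le
    · intro G hG
      exact h G hG
    · rw [Ideal.span_le]
      intro G hG
      exact hs G hG
  intro G hG
  exact h1 hG

/-- The height is bounded below. -/
lemma h1_height_ge {n : ℕ} {Y : ℂ → Fin (n + 1) → ℂ} (hY : Differentiable ℂ Y)
    (h0 : ∀ z, Y z ≠ 0) : ∃ C : ℝ, 0 ≤ C ∧ ∀ r : ℝ, 1 ≤ r → - C ≤ SM.height Y r := by
  refine ⟨|SM.height Y 1|, abs_nonneg _, fun r hr => ?_⟩
  have h1 := SM.E3_mono hY h0 zero_le_one hr
  have h2 := neg_abs_le (SM.height Y 1)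
  linarith

/-- The numbers. -/
lemma h1_numbers {A A' J : ℕ} {c T C C₀ X : ℝ} (hA : A' ≤ A) (hX : 1 ≤ X) (hC : 0 ≤ C)
    (hC₀ : 0 ≤ C₀) (hT : - C₀ ≤ T) (h : ((J : ℝ) + 1) * c ≤ A' * T + C * X) :
    c ≤ (A : ℝ) / ((J : ℝ) + 1) * T + (A * C₀ + C) * X := by
  have hJ : (0 : ℝ) < (J : ℝ) + 1 := by positivity
  have hJ1 : (1 : ℝ) ≤ (J : ℝ) + 1 := by
    have : (0 : ℝ) ≤ J := Nat.cast_nonneg _
    linarith
  have hAr : (A' : ℝ) ≤ A := by exact_mod_cast hA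
  have hA'0 : (0 : ℝ) ≤ A' := Nat.cast_nonneg _
  have h1 : (A' : ℝ) * T ≤ A * T + A * C₀ := by
    have h2 : 0 ≤ ((A : ℝ) - A') * (T + C₀) := mul_nonneg (by linarith) (by linarith)
    have h3 : 0 ≤ (A' : ℝ) * C₀ := mul_nonneg hA'0 hC₀
    nlinarith
  have h4 : ((J : ℝ) + 1) * c ≤ A * T + (A * C₀ + C) * X := by
    have h5 : (A : ℝ) * C₀ ≤ A * C₀ * X := by
      have : 0 ≤ (A : ℝ) * C₀ := mul_nonneg (by linarith) hC₀
      nlinarith
    calc ((J : ℝ) + 1) * c ≤ A' * T + C * X := h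
      _ ≤ A * T + A * C₀ + C * X := by linarith
      _ ≤ A * T + (A * C₀ + C) * X := by linarith
  have h6 : 0 ≤ (A * C₀ + C) * X := by
    have : 0 ≤ (A : ℝ) * C₀ := mul_nonneg (by linarith) hC₀
    exact mul_nonneg (by linarith) (by linarith)
  have h7 : (A * C₀ + C) * X ≤ ((J : ℝ) + 1) * ((A * C₀ + C) * X) := by nlinarith
  have h8 : ((J : ℝ) + 1) * c ≤
      ((J : ℝ) + 1) * ((A : ℝ) / ((J : ℝ) + 1) * T + (A * C₀ + C) * X) := by
    rw [mul_add, ← mul_assoc, mul_div_cancel₀ _ hJ.ne']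
    linarith
  exact le_of_mul_le_mul_left h8 hJ

theorem cross_ideal {N J n d g : ℕ} (hg : 1 ≤ g) (hJ : J + 1 = 2 * g ^ 2)
    (hN : n * (J + 1) + 1 ≤ N) {T : Type} [Fintype T] [DecidableEq T] (t₀ : T)
    (ex : T → Fin n → ℕ) (hex : ∀ t, ∑ c, ex t c ≤ d) (ht₀ : ∀ c, ex t₀ c = 0)
    (𝔞 : Ideal (MvPolynomial (JIx J n) ℂ)) :
    ∃ Θ : MvPolynomial (Fin N × T) ℂ, Θ ≠ 0 ∧ ∀ p : Fin N → T → ℂ,
      eval (fun x : Fin N × T => p x.1 x.2) Θ ≠ 0 →
      ∀ Y : ℂ → Fin (n + 1) → ℂ, Differentiable ℂ Y → (∀ z, Y z ≠ 0) → (∃ z, Y z 0 ≠ 0) →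
        (∀ z, Y z 0 ≠ 0 → ∀ G ∈ 𝔞, eval (CR.jet J Y z) G = 0) →
        CE (n * (J + 1)) (((12 * N * g * n * d + 2 * n * (J + 1) ^ 3 : ℕ) : ℝ) / ((J : ℝ) + 1))
          (fun z => Y z 0) (fun j z => val d ex (p j) (Y z)) Y := by
  classical
  induction 𝔞 using WellFoundedGT.induction with
  | ind 𝔞 IH =>
    by_cases htop : 𝔞 = ⊤
    · refine ⟨1, one_ne_zero, ?_⟩
      intro p _ Y _ _ ⟨z, hz⟩ hjets
      exfalso
      have h1 := hjets z hz 1 (by rw [htop]; trivial)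
      rw [map_one] at h1
      exact one_ne_zero h1
    by_cases hprime : 𝔞.IsPrime
    swap
    · rw [Ideal.isPrime_iff] at hprime
      push Not at hprime
      obtain ⟨f, g', hfg, hf, hg'⟩ := hprime htop
      have hlt : ∀ f, f ∉ 𝔞 → 𝔞 < 𝔞 ⊔ Ideal.span {f} := by
        intro f hf
        refine lt_of_le_of_ne le_sup_left ?_
        intro h
        apply hf
        rw [h]
        exact Ideal.mem_sup_right (Ideal.subset_span rfl)
      obtain ⟨Θ₁, hΘ₁, h1⟩ := IH _ (hlt f hf)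
      obtain ⟨Θ₂, hΘ₂, h2⟩ := IH _ (hlt g' hg')
      refine ⟨Θ₁ * Θ₂, mul_ne_zero hΘ₁ hΘ₂, ?_⟩
      intro p hp Y hY h0 h00 hjets
      rw [map_mul] at hp
      rcases CR.jets_irreducible hY h00 (f := f) (g := g')
        (fun z hz => hjets z hz _ hfg) with h | h
      · refine h1 p (left_ne_zero_of_mul hp) Y hY h0 h00 fun z hz => ?_
        apply h1_zero_sup (hjets z hz)
        intro G hG
        rw [Set.mem_singleton_iff.mp hG]
        exact h z hz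
      · refine h2 p (right_ne_zero_of_mul hp) Y hY h0 h00 fun z hz => ?_
        apply h1_zero_sup (hjets z hz)
        intro G hG
        rw [Set.mem_singleton_iff.mp hG]
        exact h z hz
    -- the main case
    obtain ⟨N', hN', hN'1⟩ : ∃ N', N' + n * (J + 1) = N ∧ 1 ≤ N' :=
      ⟨N - n * (J + 1), by omega, by omega⟩
    obtain ⟨F, ⟨m, hm⟩, hdeg, hX⟩ := exists_aux (d := d) hg hJ hN'1 t₀ ex hex 𝔞
    obtain ⟨𝔟, h𝔟⟩ : ∃ 𝔟, 𝔟 = 𝔞 ⊔ Ideal.span (Set.range fun m =>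
        coeff m (sumAlgEquiv ℂ (Fin N' × T) (JIx J n) F)) := ⟨_, rfl⟩
    have hlt : 𝔞 < 𝔟 := by
      rw [h𝔟]
      refine lt_of_le_of_ne le_sup_left ?_
      intro h
      apply hm
      rw [h]
      exact Ideal.mem_sup_right (Ideal.subset_span ⟨m, rfl⟩)
    obtain ⟨Θ₁, hΘ₁, h1⟩ := IH 𝔟 hlt
    obtain ⟨Θ₂, hΘ₂, h2⟩ := good_blocks (T := T) (N := N) (N' := N') (q := N')
      (D := n * (J + 1)) (by omega) t₀ 𝔞 (by
        intro L _ _ w _ B _
        have h3 := Finset.card_le_univ B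
        rwa [Fintype.card_prod, Fintype.card_fin, Fintype.card_fin, Nat.mul_comm] at h3) F
    refine ⟨Θ₁ * Θ₂, mul_ne_zero hΘ₁ hΘ₂, ?_⟩
    intro p hp Y hY h0 h00 hjets
    rw [map_mul] at hp
    by_cases hall : ∀ z, Y z 0 ≠ 0 → ∀ m, eval (CR.jet J Y z)
        (coeff m (sumAlgEquiv ℂ (Fin N' × T) (JIx J n) F)) = 0
    · refine h1 p (left_ne_zero_of_mul hp) Y hY h0 h00 fun z hz => ?_
      rw [h𝔟]
      apply h1_zero_sup (hjets z hz)
      rintro _ ⟨m, rfl⟩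
      exact hall z hz m
    push Not at hall
    obtain ⟨z₁, hz₁, m', hm'⟩ := hall
    obtain ⟨e', he'⟩ := h2 p (right_ne_zero_of_mul hp) (CR.jet J Y z₁) (hjets z₁ hz₁) ⟨m', hm'⟩
    have he := he' (Function.Embedding.refl _)
    obtain ⟨p', hp'⟩ : ∃ p' : Fin N' → T → ℂ, p' = fun j => p (e' j) := ⟨_, rfl⟩
    have hFne : ∃ z, auxFun (12 * N' * g * n * d + 2 * n * (J + 1) ^ 3) F p' Y z ≠ 0 := by
      refine ⟨z₁, ?_⟩
      rw [auxFun_eq hdeg p' hz₁, hp']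
      exact mul_ne_zero (pow_ne_zero _ hz₁) he
    obtain ⟨S, hS⟩ : ∃ S : Finset (Fin N), S = Finset.univ.filter fun i => i ∉ Set.range e' :=
      ⟨_, rfl⟩
    have hScard : S.card ≤ n * (J + 1) := by
      have h3 : (Finset.univ.filter fun i => i ∈ Set.range e').card = N' := by
        have h4 : (Finset.univ.filter fun i => i ∈ Set.range e') = Finset.univ.map e' := by
          ext i
          simp
        rw [h4, Finset.card_map, Finset.card_univ, Fintype.card_fin]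
      have h5 := Finset.card_filter_add_card_filter_not
        (s := (Finset.univ : Finset (Fin N))) (fun i => i ∈ Set.range e')
      rw [h3, Finset.card_univ, Fintype.card_fin] at h5
      rw [hS]
      omega
    have hmem : ∀ i, i ∉ S → ∃ i', e' i' = i := by
      intro i hi
      rw [hS, Finset.mem_filter] at hi
      push Not at hi
      exact hi (Finset.mem_univ i)
    have hord : ∀ z ∈ {z | Y z 0 ≠ 0 ∧ ∃ i j, i ∉ S ∧ j ∉ S ∧ i ≠ j ∧ val d ex (p i) (Y z) = 0 ∧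
          val d ex (p j) (Y z) = 0}, ((J + 1 : ℕ) : ℕ∞) ≤
        analyticOrderAt (auxFun (12 * N' * g * n * d + 2 * n * (J + 1) ^ 3) F p' Y) z := by
      rintro z ⟨hz0, i, j, hi, hj, hij, hpi, hpj⟩
      obtain ⟨i', rfl⟩ := hmem i hi
      obtain ⟨j', rfl⟩ := hmem j hj
      refine order_cross hex ht₀ hdeg hY hz0 (i := i') (j := j') (fun h => hij (by rw [h])) ?_ ?_ ?_
      · rw [hp']
        exact hpi
      · rw [hp']
        exact hpj
      · intro z' hz'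
        exact hX p' _ (hjets z' hz') i' j' (fun h => hij (by rw [h]))
    have hdiff := auxFun_differentiable (12 * N' * g * n * d + 2 * n * (J + 1) ^ 3) F p' hY
    have hfin : CR.DiscFinite ({z | Y z 0 ≠ 0 ∧ ∃ i j, i ∉ S ∧ j ∉ S ∧ i ≠ j ∧ val d ex (p i) (Y z) = 0 ∧
          val d ex (p j) (Y z) = 0}) := by
      refine (CR.DiscFinite.zeros hdiff hFne).mono fun z hz => ?_
      have h3 := hord z hz
      show auxFun (12 * N' * g * n * d + 2 * n * (J + 1) ^ 3) F p' Y z = 0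
      by_contra h4
      rw [(hdiff.analyticAt z).analyticOrderAt_eq_zero.mpr h4] at h3
      have h5 : J + 1 ≤ 0 := by exact_mod_cast h3
      omega
    obtain ⟨C, E, hC, hE, hcount⟩ := aux_count hdeg hY h0 h00 hFne (Z := {z | Y z 0 ≠ 0 ∧ ∃ i j, i ∉ S ∧ j ∉ S ∧ i ≠ j ∧ val d ex (p i) (Y z) = 0 ∧
          val d ex (p j) (Y z) = 0}) hord
    obtain ⟨C₀, hC₀, hlow⟩ := h1_height_ge hY h0
    refine ⟨S, (12 * N * g * n * d + 2 * n * (J + 1) ^ 3 : ℕ) * C₀ + C, E, hScard, hfin, by positivity,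
      hE, ?_⟩
    intro r hr hrE
    have hX1 : 1 ≤ Real.log r + Real.posLog (SM.height Y r) + 1 := by
      have h3 := Real.log_nonneg hr
      have h4 : 0 ≤ Real.posLog (SM.height Y r) := Real.posLog_nonneg
      linarith
    refine h1_numbers (A' := 12 * N' * g * n * d + 2 * n * (J + 1) ^ 3) ?_ hX1 hC hC₀ (hlow r hr)
      (hcount r hr hrE)
    have h3 : N' ≤ N := by omega
    have h4 : 12 * N' * g * n * d ≤ 12 * N * g * n * d := by gcongr
    omega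


end Pool.Agent.Lib.GGL.CV
end

section

/-!
The crossing estimate for all forms of degree `d` and all coordinates.
-/

open Filter Topology MvPolynomial MeasureTheory Module

namespace Pool.Agent.Lib.GGL.CV

open CR (JIx)

/-- The exponents of the variables `1, ..., n` after the exchange of the variables `0` and `i₀`. -/
def h2_ex {n d : ℕ} (i₀ : Fin (n + 1)) (t : Mon n d) (c : Fin n) : ℕ :=
  (t.1 (Equiv.swap 0 i₀ c.succ) : ℕ)

theorem h2_sum {n d : ℕ} (i₀ : Fin (n + 1)) (t : Mon n d) :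
    (t.1 (Equiv.swap 0 i₀ 0) : ℕ) + ∑ c, h2_ex i₀ t c = d := by
  have h1 := Equiv.sum_comp (Equiv.swap 0 i₀) fun i => (t.1 i : ℕ)
  rw [t.2, Fin.sum_univ_succ] at h1
  exact h1

/-- The exponents of the monomial `y_{i₀} ^ d`. -/
def h2_t (n d : ℕ) (i₀ : Fin (n + 1)) : Mon n d :=
  ⟨fun i => if i = i₀ then Fin.last d else 0, by
    rw [Finset.sum_eq_single i₀]
    · simp
    · intro i _ hi
      simp [hi]
    · intro h
      exact absurd (Finset.mem_univ _) h⟩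

theorem h2_t_ex {n d : ℕ} (i₀ : Fin (n + 1)) (c : Fin n) : h2_ex i₀ (h2_t n d i₀) c = 0 := by
  have h1 : Equiv.swap 0 i₀ c.succ ≠ i₀ := by
    intro h
    have h2 : Equiv.swap 0 i₀ c.succ = Equiv.swap 0 i₀ 0 := by
      rw [h, Equiv.swap_apply_left]
    exact Fin.succ_ne_zero c ((Equiv.swap 0 i₀).injective h2)
  unfold h2_ex h2_t
  simp [h1]

theorem h2_val {n d : ℕ} (i₀ : Fin (n + 1)) (q : Mon n d → ℂ) (y : Fin (n + 1) → ℂ) :
    val d (h2_ex i₀) q (fun k => y (Equiv.swap 0 i₀ k)) = form q y := by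
  unfold val form
  refine Finset.sum_congr rfl fun t _ => ?_
  congr 1
  have h1 := h2_sum i₀ t
  have h2 : d - ∑ c, h2_ex i₀ t c = (t.1 (Equiv.swap 0 i₀ 0) : ℕ) := by omega
  rw [h2, ← Equiv.prod_comp (Equiv.swap 0 i₀) fun i => y i ^ (t.1 i : ℕ), Fin.prod_univ_succ]
  rfl

theorem h2_norm {M : ℕ} (e : Equiv.Perm (Fin (M + 1))) (y : Fin (M + 1) → ℂ) :
    ‖fun k => y (e k)‖ = ‖y‖ := by
  apply le_antisymm
  · rw [pi_norm_le_iff_of_nonneg (norm_nonneg _)]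
    intro k
    exact norm_le_pi_norm y (e k)
  · rw [pi_norm_le_iff_of_nonneg (norm_nonneg _)]
    intro k
    have := norm_le_pi_norm (fun k => y (e k)) (e.symm k)
    simpa using this

theorem h2_height {M : ℕ} (e : Equiv.Perm (Fin (M + 1))) (Y : ℂ → Fin (M + 1) → ℂ) (r : ℝ) :
    SM.height (fun z k => Y z (e k)) r = SM.height Y r := by
  unfold SM.height
  simp only [h2_norm]

theorem cross_all {N J n d g : ℕ} (hg : 1 ≤ g) (hJ : J + 1 = 2 * g ^ 2)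
    (hN : n * (J + 1) + 1 ≤ N) :
    ∃ Θ : MvPolynomial (Fin N × Mon n d) ℂ, Θ ≠ 0 ∧ ∀ p : Fin N → Mon n d → ℂ,
      eval (fun x : Fin N × Mon n d => p x.1 x.2) Θ ≠ 0 →
      ∀ Y : ℂ → Fin (n + 1) → ℂ, Differentiable ℂ Y → (∀ z, Y z ≠ 0) →
        ∀ i₀, (∃ z, Y z i₀ ≠ 0) →
        CE (n * (J + 1)) (((12 * N * g * n * d + 2 * n * (J + 1) ^ 3 : ℕ) : ℝ) / ((J : ℝ) + 1))
          (fun z => Y z i₀) (fun j z => form (p j) (Y z)) Y := by
  classical
  have key := fun i₀ : Fin (n + 1) => cross_ideal (d := d) hg hJ hN (h2_t n d i₀) (h2_ex i₀)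
    (fun t => by have := h2_sum i₀ t; omega) (h2_t_ex i₀) (⊥ : Ideal (MvPolynomial (JIx J n) ℂ))
  choose Θ hΘ h using key
  refine ⟨∏ i₀, Θ i₀, Finset.prod_ne_zero_iff.mpr fun i₀ _ => hΘ i₀, ?_⟩
  intro p hp Y hY hY0 i₀ hi₀
  rw [map_prod, Finset.prod_ne_zero_iff] at hp
  have h2 := h i₀ p (hp i₀ (Finset.mem_univ i₀)) (fun z k => Y z (Equiv.swap 0 i₀ k))
    (differentiable_pi.mpr fun k => differentiable_pi.mp hY _) (fun z h => hY0 z (by
      funext k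
      have := congrFun h (Equiv.swap 0 i₀ k)
      simpa using this))
    (by
      obtain ⟨z, hz⟩ := hi₀
      exact ⟨z, by simpa using hz⟩)
    (fun z _ G hG => by
      rw [Ideal.mem_bot] at hG
      rw [hG, map_zero])
  simp only [h2_val, Equiv.swap_apply_left] at h2
  obtain ⟨S, C, E, hS, hfin, hC, hE, h3⟩ := h2
  refine ⟨S, C, E, hS, hfin, hC, hE, fun r hr hrE => ?_⟩
  have h4 := h3 r hr hrE
  rw [h2_height] at h4
  exact h4

end Pool.Agent.Lib.GGL.CV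
end
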