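import Mathlib
import Pool.Agent.Lib.MP_8d161d_ag.CV.Defs
import Pool.Agent.Lib.MP_8d161d_ag.CR.K1
import Pool.Agent.Lib.MP_8d161d_ag.SM.H1
import Pool.Agent.Lib.MP_8d161d_ag.SM.E4
import Pool.Agent.Lib.MP_8d161d_ag.SM.B9a

section

/-!
The first main theorem for forms.
-/

open Filter Topology MvPolynomial MeasureTheory Module

namespace Pool.Agent.Lib.GGL.CV

open CR (JIx)


theorem form_differentiable {n d : ℕ} {Y : ℂ → Fin (n + 1) → ℂ} (hY : Differentiable ℂ Y)
    (q : Mon n d → ℂ) : Differentiable ℂ fun z => form q (Y z) := by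
  have hYi : ∀ i, Differentiable ℂ fun z => Y z i := fun i => (differentiable_pi.mp hY) i
  unfold form
  refine Differentiable.fun_sum fun t _ => Differentiable.const_mul ?_ _
  exact Differentiable.fun_finsetProd fun i _ => (hYi i).pow _

theorem k4_norm_form_le {n d : ℕ} (q : Mon n d → ℂ) (y : Fin (n + 1) → ℂ) :
    ‖form q y‖ ≤ ‖y‖ ^ d * ∑ t, ‖q t‖ := by
  unfold form
  calc ‖∑ t, q t * ∏ i, y i ^ (t.1 i : ℕ)‖ ≤ ∑ t, ‖q t * ∏ i, y i ^ (t.1 i : ℕ)‖ :=
        norm_sum_le _ _
    _ ≤ ∑ t : Mon n d, ‖q t‖ * ‖y‖ ^ d := by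
        refine Finset.sum_le_sum fun t _ => ?_
        rw [norm_mul]
        refine mul_le_mul_of_nonneg_left ?_ (norm_nonneg _)
        rw [norm_prod]
        calc ∏ i, ‖y i ^ (t.1 i : ℕ)‖ ≤ ∏ i, ‖y‖ ^ (t.1 i : ℕ) := by
              refine Finset.prod_le_prod (fun i _ => norm_nonneg _) fun i _ => ?_
              rw [norm_pow]
              exact pow_le_pow_left₀ (norm_nonneg _) (norm_le_pi_norm y i) _
          _ = ‖y‖ ^ d := by rw [Finset.prod_pow_eq_pow_sum, t.2]
    _ = ‖y‖ ^ d * ∑ t, ‖q t‖ := by rw [← Finset.sum_mul, mul_comm]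

theorem average_form_le {n d : ℕ} {Y : ℂ → Fin (n + 1) → ℂ} (hY : Differentiable ℂ Y)
    (h0 : ∀ z, Y z ≠ 0) (q : Mon n d → ℂ) (hq : ∃ z, form q (Y z) ≠ 0) :
    ∃ C : ℝ, 0 ≤ C ∧ ∀ r : ℝ, 1 ≤ r →
      Real.circleAverage (fun z => Real.log ‖form q (Y z)‖) 0 r ≤ d * SM.height Y r + C := by
  obtain ⟨P, hP⟩ : ∃ P : ℝ, P = ∑ t, ‖q t‖ := ⟨_, rfl⟩
  have hle : ∀ z, ‖form q (Y z)‖ ≤ ‖Y z‖ ^ d * P := fun z => by
    rw [hP]
    exact k4_norm_form_le q (Y z)
  have hA := form_differentiable hY q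
  have hPpos : 0 < P := by
    obtain ⟨z, hz⟩ := hq
    have h1 : 0 < ‖Y z‖ ^ d * P := (norm_pos_iff.2 hz).trans_le (hle z)
    exact pos_of_mul_pos_right h1 (pow_nonneg (norm_nonneg _) _)
  refine ⟨|Real.log P|, abs_nonneg _, fun r hr => ?_⟩
  have hr0 : 0 < r := zero_lt_one.trans_le hr
  have hcont : Continuous fun z : ℂ => Real.log ‖Y z‖ :=
    Continuous.log hY.continuous.norm fun z => (norm_pos_iff.2 (h0 _)).ne'
  have hint1 : CircleIntegrable (fun z : ℂ => (d : ℝ) • Real.log ‖Y z‖) 0 r :=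
    (hcont.const_smul (d : ℝ)).continuousOn.circleIntegrable hr0.le
  have hint2 : CircleIntegrable (fun _ : ℂ => Real.log P) 0 r :=
    continuousOn_const.circleIntegrable hr0.le
  have hint3 : CircleIntegrable (fun z => Real.log ‖form q (Y z)‖) 0 r :=
    MeromorphicOn.circleIntegrable_log_norm fun z _ => (hA.analyticAt z).meromorphicAt
  have hanalytic : AnalyticOnNhd ℂ (fun z => form q (Y z)) Set.univ := fun z _ => hA.analyticAt z
  have hS : ∀ z₁, ∀ᶠ z in 𝓝[≠] z₁, z ∉ {z | form q (Y z) = 0} := by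
    intro z₁
    rcases (hA.analyticAt z₁).eventually_eq_zero_or_eventually_ne_zero with h5 | h5
    · exfalso
      obtain ⟨z, hz⟩ := hq
      apply hz
      have := hanalytic.eqOn_zero_of_preconnected_of_eventuallyEq_zero isPreconnected_univ
        (Set.mem_univ z₁) h5
      exact this (Set.mem_univ z)
    · exact h5
  have h6 := SM.circleAverage_mono_ae hr0 hint3 (hint1.add hint2) hS (fun z _ hz => by
    have hHz : form q (Y z) ≠ 0 := hz
    have hYz : 0 < ‖Y z‖ := norm_pos_iff.2 (h0 _)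
    calc Real.log ‖form q (Y z)‖ ≤ Real.log (‖Y z‖ ^ d * P) :=
          Real.log_le_log (norm_pos_iff.2 hHz) (hle z)
      _ = (d : ℝ) • Real.log ‖Y z‖ + Real.log P := by
          rw [Real.log_mul (pow_pos hYz _).ne' hPpos.ne', Real.log_pow, smul_eq_mul])
  rw [Real.circleAverage_add hint1 hint2, Real.circleAverage_const,
    Real.circleAverage_fun_smul] at h6
  have h7 := le_abs_self (Real.log P)
  have h8 : Real.circleAverage (fun z => Real.log ‖form q (Y z)‖) 0 r ≤
      d * SM.height Y r + Real.log P := h6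
  linarith

theorem count_form_le {n d : ℕ} {Y : ℂ → Fin (n + 1) → ℂ} (hY : Differentiable ℂ Y)
    (h0 : ∀ z, Y z ≠ 0) (q : Mon n d → ℂ) (hq : ∃ z, form q (Y z) ≠ 0) :
    ∃ C : ℝ, 0 ≤ C ∧ ∀ r : ℝ, 1 ≤ r →
      CR.count {z | form q (Y z) = 0} r ≤ d * SM.height Y r + C := by
  classical
  have hA := form_differentiable hY q
  obtain ⟨C, hC0, hC⟩ := average_form_le hY h0 q hq
  obtain ⟨c, hc⟩ : ∃ c : ℝ, c = Real.log ‖meromorphicTrailingCoeffAt (fun z => form q (Y z)) 0‖ :=
    ⟨_, rfl⟩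
  refine ⟨|C - c|, abs_nonneg _, fun r hr => ?_⟩
  have h1 := hC r hr
  rw [SM.e4_jensen hA hq hr, ← hc] at h1
  have h2 : CR.count {z | form q (Y z) = 0} r ≤ ∑ z ∈ (SM.zeros_finite hA hq r).toFinset,
      (analyticOrderNatAt (fun z => form q (Y z)) z : ℝ) * SM.c3a_L r z := by
    rw [CR.k1_count_toFinset (CR.DiscFinite.zeros hA hq) r]
    refine Finset.sum_le_sum fun z hz => ?_
    have hz' := hz
    rw [Set.Finite.mem_toFinset] at hz
    have h3 : (1 : ℝ) ≤ analyticOrderNatAt (fun z => form q (Y z)) z := by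
      have h4 := SM.e4_order_pos hA hq hz.1
      exact_mod_cast h4
    exact le_mul_of_one_le_left
      (SM.c3a_L_nonneg hr (mem_closedBall_zero_iff.1 hz.2)) h3
  have h5 := le_abs_self (C - c)
  have h6 : ∑ z ∈ (SM.zeros_finite hA hq r).toFinset,
      (analyticOrderNatAt (fun z => form q (Y z)) z : ℝ) * SM.c3a_L r z + c ≤
        d * SM.height Y r + C := h1
  linarith

end Pool.Agent.Lib.GGL.CV
end

section

/-!
The height of a curve composed with the exponential function.
-/

open Filter Topology MvPolynomial Module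

namespace Pool.Agent.Lib.GGL.SM

theorem c2a_exists_pair {M : ℕ} {Y : ℂ → Fin (M + 1) → ℂ} (h0 : ∀ z, Y z ≠ 0)
    (hnc : ¬ IsConst Y) : ∃ a b z, Y 1 b * Y z a - Y 1 a * Y z b ≠ 0 := by
  by_contra hcon
  push Not at hcon
  apply hnc
  obtain ⟨b, hb⟩ : ∃ b, Y 1 b ≠ 0 := by
    by_contra h
    push Not at h
    exact h0 1 (funext h)
  have h1 : ∀ z, Y z = (Y z b / Y 1 b) • Y 1 := by
    intro z
    funext a
    have := hcon a b z
    simp only [Pi.smul_apply, smul_eq_mul]
    field_simp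
    linear_combination this
  intro z w
  have hw : Y w b ≠ 0 := by
    intro h
    apply h0 w
    rw [h1 w, h]
    simp
  refine ⟨Y z b / Y w b, ?_⟩
  rw [h1 z, h1 w]
  funext a
  simp only [Pi.smul_apply, smul_eq_mul]
  have : Y w b = (Y w b / Y 1 b) * Y 1 b := by field_simp
  field_simp

theorem height_exp {M : ℕ} {Y : ℂ → Fin (M + 1) → ℂ} (hY : Differentiable ℂ Y)
    (h0 : ∀ z, Y z ≠ 0) (hnc : ¬ IsConst Y) :
    ∃ c C : ℝ, 0 < c ∧ ∀ r : ℝ, 1 ≤ r → c * r - C ≤ height (fun z => Y (Complex.exp z)) r := by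
  obtain ⟨a, b, z₁, hz₁⟩ := c2a_exists_pair h0 hnc
  have hYa : ∀ j, Differentiable ℂ fun z => Y z j := fun j z =>
    (differentiableAt_pi.1 (hY z)) j
  set h : ℂ → ℂ := fun z => Y 1 b * Y z a - Y 1 a * Y z b with hh
  have hdiff : Differentiable ℂ h := ((hYa a).const_mul _).sub ((hYa b).const_mul _)
  set H : ℂ → ℂ := fun z => h (Complex.exp z) with hH
  have hHd : Differentiable ℂ H := hdiff.comp Complex.differentiable_exp
  have hHne : ∃ z, H z ≠ 0 := by
    -- a nonzero point where `h ≠ 0`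
    have h2 : ∀ᶠ z in 𝓝 z₁, h z ≠ 0 := hdiff.continuous.continuousAt.eventually_ne hz₁
    have h3 : ∃ᶠ z in 𝓝 z₁, z ≠ 0 := by
      have : (𝓝[≠] z₁).NeBot := inferInstance
      have h4 : ∀ᶠ z in 𝓝[≠] z₁, z ≠ 0 := by
        rcases eq_or_ne z₁ 0 with rfl | hz
        · exact self_mem_nhdsWithin
        · exact (eventually_ne_nhds hz).filter_mono nhdsWithin_le_nhds
      exact h4.frequently.filter_mono nhdsWithin_le_nhds
    obtain ⟨z, hz0, hz⟩ := (h3.and_eventually h2).exists
    exact ⟨Complex.log z, by simpa only [hH, Complex.exp_log hz0] using hz⟩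
  obtain ⟨C₁, hC₁⟩ := average_ge hHd hHne
  obtain ⟨C₂, hC₂⟩ := zc_bound hHd hHne
  -- comparison of the average with the height
  set C₃ : ℝ := Real.log (2 * ‖Y 1‖) with hC₃
  have hY1 : 0 < ‖Y 1‖ := norm_pos_iff.2 (h0 1)
  have hcomp : ∀ r : ℝ, 0 < r → Real.circleAverage (fun z => Real.log ‖H z‖) 0 r ≤
      height (fun z => Y (Complex.exp z)) r + C₃ := by
    intro r hr
    have hcont : Continuous fun z : ℂ => Real.log ‖Y (Complex.exp z)‖ := by
      refine Continuous.log ?_ fun z => (norm_pos_iff.2 (h0 _)).ne'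
      exact (hY.continuous.comp Complex.continuous_exp).norm
    have hint1 : CircleIntegrable (fun z : ℂ => Real.log ‖Y (Complex.exp z)‖) 0 r :=
      hcont.continuousOn.circleIntegrable hr.le
    have hint2 : CircleIntegrable (fun _ : ℂ => C₃) 0 r := continuousOn_const.circleIntegrable hr.le
    have hint3 : CircleIntegrable (fun z => Real.log ‖H z‖) 0 r :=
      MeromorphicOn.circleIntegrable_log_norm fun z _ => (hHd.analyticAt z).meromorphicAt
    have hanalytic : AnalyticOnNhd ℂ H Set.univ := fun z _ => hHd.analyticAt z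
    have hS : ∀ z₁, ∀ᶠ z in 𝓝[≠] z₁, z ∉ {z | H z = 0} := by
      intro z₁
      rcases (hHd.analyticAt z₁).eventually_eq_zero_or_eventually_ne_zero with h5 | h5
      · exfalso
        obtain ⟨z, hz⟩ := hHne
        apply hz
        have := hanalytic.eqOn_zero_of_preconnected_of_eventuallyEq_zero isPreconnected_univ
          (Set.mem_univ z₁) h5
        exact this (Set.mem_univ z)
      · exact h5
    have h6 := circleAverage_mono_ae hr hint3 (hint1.add hint2) hS (fun z _ hz => by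
      have hHz : H z ≠ 0 := hz
      have hYz : 0 < ‖Y (Complex.exp z)‖ := norm_pos_iff.2 (h0 _)
      have h7 : ‖H z‖ ≤ ‖Y (Complex.exp z)‖ * (2 * ‖Y 1‖) := by
        have e1 := norm_le_pi_norm (Y (Complex.exp z)) a
        have e2 := norm_le_pi_norm (Y (Complex.exp z)) b
        have e3 := norm_le_pi_norm (Y 1) a
        have e4 := norm_le_pi_norm (Y 1) b
        calc ‖H z‖ ≤ ‖Y 1 b * Y (Complex.exp z) a‖ + ‖Y 1 a * Y (Complex.exp z) b‖ := norm_sub_le _ _
          _ = ‖Y 1 b‖ * ‖Y (Complex.exp z) a‖ + ‖Y 1 a‖ * ‖Y (Complex.exp z) b‖ := by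
            rw [norm_mul, norm_mul]
          _ ≤ ‖Y 1‖ * ‖Y (Complex.exp z)‖ + ‖Y 1‖ * ‖Y (Complex.exp z)‖ := by gcongr
          _ = _ := by ring
      calc Real.log ‖H z‖ ≤ Real.log (‖Y (Complex.exp z)‖ * (2 * ‖Y 1‖)) :=
            Real.log_le_log (norm_pos_iff.2 hHz) h7
        _ = Real.log ‖Y (Complex.exp z)‖ + C₃ := by
            rw [Real.log_mul hYz.ne' (by positivity)])
    rw [Real.circleAverage_add hint1 hint2, Real.circleAverage_const] at h6
    exact h6
  -- the zeros `2 π i k`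
  have hzeros : ∀ r : ℝ, 0 ≤ r → r / (4 * Real.pi) - 1 ≤ zc H (r / 2) := by
    intro r hr
    set n : ℕ := ⌊r / (4 * Real.pi)⌋₊ with hn
    have hpi := Real.pi_pos
    have h8 : r / (4 * Real.pi) < n + 1 := Nat.lt_floor_add_one _
    have h9 : (n : ℝ) ≤ r / (4 * Real.pi) := Nat.floor_le (by positivity)
    let φ : ℕ → ℂ := fun k => k * (2 * Real.pi * Complex.I)
    have hφ : Function.Injective φ := by
      intro k l hkl
      have h10 : (2 * Real.pi * Complex.I : ℂ) ≠ 0 := by
        simp [Complex.ofReal_ne_zero, Real.pi_ne_zero]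
      have := mul_right_cancel₀ h10 hkl
      exact_mod_cast this
    have hsub : ((Finset.range n).image φ : Set ℂ) ⊆ {z | H z = 0} ∩ Metric.closedBall 0 (r / 2) := by
      intro z hz
      simp only [Finset.coe_image, Set.mem_image, Finset.coe_range, Set.mem_Iio] at hz
      obtain ⟨k, hk, rfl⟩ := hz
      constructor
      · show h (Complex.exp (φ k)) = 0
        have : Complex.exp (φ k) = 1 := Complex.exp_nat_mul_two_pi_mul_I k
        rw [this]
        simp only [hh]
        ring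
      · rw [mem_closedBall_zero_iff]
        simp only [φ, norm_mul, Complex.norm_natCast, Complex.norm_I, mul_one, Complex.norm_ofNat,
          Complex.norm_real, Real.norm_eq_abs, abs_of_pos hpi]
        have hk' : (k : ℝ) ≤ n := by exact_mod_cast hk.le
        have : (k : ℝ) ≤ r / (4 * Real.pi) := hk'.trans h9
        rw [le_div_iff₀ (by positivity)] at this
        linarith
    have h11 := Set.ncard_le_ncard hsub (zeros_finite hHd hHne (r / 2))
    rw [Set.ncard_coe_finset, Finset.card_image_of_injective _ hφ, Finset.card_range] at h11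
    have h12 := ncard_le_zc hHd hHne (r / 2)
    have h13 : (n : ℝ) ≤ ((({z | H z = 0} ∩ Metric.closedBall 0 (r / 2)).ncard : ℕ) : ℝ) := by
      exact_mod_cast h11
    linarith
  have hlog2 : 0 < Real.log 2 := Real.log_pos (by norm_num)
  have hpi := Real.pi_pos
  set c : ℝ := Real.log 2 / (4 * Real.pi) with hc
  have hcpos : 0 < c := by positivity
  refine ⟨c, max (2 * c + C₁ + C₃) (Real.log 2 + C₂ + C₃), hcpos, fun r hr => ?_⟩
  rcases lt_or_ge r 2 with hr2 | hr2
  · have h1 := hC₁ r hr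
    have h2 := hcomp r (by linarith)
    have h3 := le_max_left (2 * c + C₁ + C₃) (Real.log 2 + C₂ + C₃)
    have h4 : c * r ≤ c * 2 := by gcongr
    linarith
  · have h1 := hC₂ (r / 2) r (by linarith) (by linarith)
    have h2 := hcomp r (by linarith)
    have h3 := le_max_right (2 * c + C₁ + C₃) (Real.log 2 + C₂ + C₃)
    have h4 := hzeros r (by linarith)
    have h5 : r / (r / 2) = 2 := by field_simp
    rw [h5] at h1
    have h6 : (r / (4 * Real.pi) - 1) * Real.log 2 ≤ zc H (r / 2) * Real.log 2 := by gcongr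
    have h7 : (r / (4 * Real.pi) - 1) * Real.log 2 = c * r - Real.log 2 := by
      rw [hc]; field_simp
    linarith

end Pool.Agent.Lib.GGL.SM
end
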