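import Mathlib

section

/-!
Orders of vanishing after composition with the exponential function.
-/

open Filter Topology MvPolynomial Module

namespace Pool.Agent.Lib.GGL.SM

theorem order_exp {h : ℂ → ℂ} (hh : Differentiable ℂ h) (z : ℂ) :
    analyticOrderAt (fun z => h (Complex.exp z)) z = analyticOrderAt h (Complex.exp z) := by
  have h1 : AnalyticAt ℂ Complex.exp z := Complex.differentiable_exp.analyticAt z
  have h2 : deriv Complex.exp z ≠ 0 := by
    rw [Complex.deriv_exp]
    exact Complex.exp_ne_zero z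
  exact analyticOrderAt_comp_of_deriv_ne_zero (f := h) h1 h2

end Pool.Agent.Lib.GGL.SM
end

section

/-!
A growth contradiction.
-/

open Filter Topology MvPolynomial Module

namespace Pool.Agent.Lib.GGL.SM

/-- A real inequality that fails for large `r`. -/
theorem growth_contradiction {T : ℝ → ℝ} {c C C' N : ℝ} (hc : 0 < c) (hN : 0 < N)
    (hT : ∀ r : ℝ, 1 ≤ r → c * r - C ≤ T r) {E : Set ℝ} (hE : MeasureTheory.volume E < ⊤)
    (h : ∀ r : ℝ, 1 ≤ r → r ∉ E → N * T r ≤ C' * (Real.log r + Real.posLog (T r) + 1)) :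
    False := by
  -- growth
  have h1 : Tendsto (fun t : ℝ => (|C'| + 1) * (Real.log ((t + |C|) / c) / t + Real.log t / t +
      1 / t)) atTop (𝓝 0) := by
    have a1 : Tendsto (fun t : ℝ => Real.log t / t) atTop (𝓝 0) :=
      Real.isLittleO_log_id_atTop.tendsto_div_nhds_zero
    have a2 : Tendsto (fun t : ℝ => 1 / t) atTop (𝓝 0) := by
      simpa using tendsto_inv_atTop_zero (𝕜 := ℝ)
    have a3 : Tendsto (fun t : ℝ => (t + |C|) / c) atTop atTop :=
      (tendsto_atTop_add_const_right _ _ tendsto_id).atTop_div_const hc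
    have a4 := a1.comp a3
    have a5 : Tendsto (fun t : ℝ => ((t + |C|) / c) / t) atTop (𝓝 (1 / c)) := by
      have b1 : Tendsto (fun t : ℝ => (1 + |C| * (1 / t)) / c) atTop (𝓝 ((1 + |C| * 0) / c)) :=
        ((a2.const_mul |C|).const_add 1).div_const c
      rw [mul_zero, add_zero] at b1
      refine b1.congr' ?_
      filter_upwards [eventually_gt_atTop 0] with t ht
      field_simp
    have a6 : Tendsto (fun t : ℝ => Real.log ((t + |C|) / c) / t) atTop (𝓝 0) := by
      have b1 := a4.mul a5
      rw [zero_mul] at b1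
      refine b1.congr' ?_
      filter_upwards [eventually_gt_atTop 0] with t ht
      have b2 : 0 < (t + |C|) / c := div_pos (add_pos_of_pos_of_nonneg ht (abs_nonneg C)) hc
      simp only [Function.comp_apply]
      rw [div_mul_div_comm, mul_comm ((t + |C|) / c) t, mul_div_mul_right _ _ b2.ne']
    have := ((a6.add a1).add a2).const_mul (|C'| + 1)
    simpa using this
  have h2 : ∀ᶠ t : ℝ in atTop, (|C'| + 1) * (Real.log ((t + |C|) / c) + Real.log t + 1) <
      N * t := by
    filter_upwards [h1.eventually (gt_mem_nhds hN), eventually_gt_atTop 0] with t ht ht0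
    have b1 : (|C'| + 1) * (Real.log ((t + |C|) / c) / t + Real.log t / t + 1 / t) =
        ((|C'| + 1) * (Real.log ((t + |C|) / c) + Real.log t + 1)) / t := by
      field_simp
    rw [b1, div_lt_iff₀ ht0] at ht
    exact ht
  obtain ⟨t₀, ht₀⟩ := eventually_atTop.1 h2
  -- a point outside `E`
  obtain ⟨r, hr1, hr2, hrE⟩ : ∃ r : ℝ, 1 ≤ r ∧ (max t₀ 1 + C) / c ≤ r ∧ r ∉ E := by
    by_contra hcon
    push Not at hcon
    have h3 : Set.Ici (max 1 ((max t₀ 1 + C) / c)) ⊆ E := by
      intro r hr
      have h4 : max 1 ((max t₀ 1 + C) / c) ≤ r := hr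
      exact hcon r ((le_max_left _ _).trans h4) ((le_max_right _ _).trans h4)
    have h5 := MeasureTheory.measure_mono (μ := MeasureTheory.volume) h3
    rw [Real.volume_Ici] at h5
    exact absurd (h5.trans_lt hE) (lt_irrefl _)
  have hT1 := hT r hr1
  have h3 : max t₀ 1 ≤ T r := by
    have h4 : max t₀ 1 + C ≤ c * r := by
      rw [div_le_iff₀ hc] at hr2
      linarith
    linarith
  have hTt : t₀ ≤ T r := (le_max_left _ _).trans h3
  have hT1' : 1 ≤ T r := (le_max_right _ _).trans h3
  have h4 := h r hr1 hrE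
  have h5 := ht₀ (T r) hTt
  have h6 : Real.log r ≤ Real.log ((T r + |C|) / c) := by
    refine Real.log_le_log (zero_lt_one.trans_le hr1) ?_
    rw [le_div_iff₀ hc]
    have := le_abs_self C
    linarith
  have h7 : Real.posLog (T r) = Real.log (T r) :=
    Real.posLog_eq_log (by rw [abs_of_pos (zero_lt_one.trans_le hT1')]; exact hT1')
  rw [h7] at h4
  have h8 : 0 ≤ Real.log r := Real.log_nonneg hr1
  have h9 : 0 ≤ Real.log (T r) := Real.log_nonneg hT1'
  have h10 : C' * (Real.log r + Real.log (T r) + 1) ≤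
      (|C'| + 1) * (Real.log ((T r + |C|) / c) + Real.log (T r) + 1) := by
    have k1 : C' ≤ |C'| + 1 := (le_abs_self C').trans (by linarith)
    have k2 : 0 ≤ |C'| + 1 := by positivity
    calc C' * (Real.log r + Real.log (T r) + 1) ≤
          (|C'| + 1) * (Real.log r + Real.log (T r) + 1) :=
          mul_le_mul_of_nonneg_right k1 (by linarith)
      _ ≤ _ := mul_le_mul_of_nonneg_left (by linarith) k2
  linarith

end Pool.Agent.Lib.GGL.SM
end
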