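import Mathlib

section

/-!
Bihomogeneous polynomials `G(y,w)` with `G(y, w + t y) = G(y, w)`: invariant one-jet forms.
-/

open MvPolynomial Module

namespace Pool.Agent.Lib.GGL

/-- The bidegree of the variables. -/
def wt (N : ℕ) : Fin N ⊕ Fin N → ℕ × ℕ := Sum.elim (fun _ => (1, 0)) (fun _ => (0, 1))

section ring

variable {N : ℕ} {R : Type*} [CommRing R]

/-- The derivation `∑ y_i ∂/∂w_i`. -/
noncomputable def Dp : Derivation R (MvPolynomial (Fin N ⊕ Fin N) R)
    (MvPolynomial (Fin N ⊕ Fin N) R) :=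
  ∑ i, (X (Sum.inl i) : MvPolynomial (Fin N ⊕ Fin N) R) • pderiv (Sum.inr i)

/-- The derivation `∑ w_i ∂/∂y_i`. -/
noncomputable def Dm : Derivation R (MvPolynomial (Fin N ⊕ Fin N) R)
    (MvPolynomial (Fin N ⊕ Fin N) R) :=
  ∑ i, (X (Sum.inr i) : MvPolynomial (Fin N ⊕ Fin N) R) • pderiv (Sum.inl i)

lemma sum_apply_derivation {ι : Type*} (s : Finset ι)
    (D : ι → Derivation R (MvPolynomial (Fin N ⊕ Fin N) R) (MvPolynomial (Fin N ⊕ Fin N) R))
    (φ : MvPolynomial (Fin N ⊕ Fin N) R) : (∑ i ∈ s, D i) φ = ∑ i ∈ s, D i φ := by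
  classical
  induction s using Finset.induction_on with
  | empty => simp
  | insert a s ha ih => rw [Finset.sum_insert ha, Finset.sum_insert ha, Derivation.add_apply, ih]

lemma Dp_apply (φ : MvPolynomial (Fin N ⊕ Fin N) R) :
    Dp φ = ∑ i, X (Sum.inl i) * pderiv (Sum.inr i) φ := by
  rw [Dp, sum_apply_derivation]
  rfl

lemma Dm_apply (φ : MvPolynomial (Fin N ⊕ Fin N) R) :
    Dm φ = ∑ i, X (Sum.inr i) * pderiv (Sum.inl i) φ := by
  rw [Dm, sum_apply_derivation]
  rfl

lemma Dp_inl (i : Fin N) : Dp (X (Sum.inl i) : MvPolynomial (Fin N ⊕ Fin N) R) = 0 := by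
  rw [Dp_apply]
  refine Finset.sum_eq_zero fun j _ => ?_
  rw [pderiv_X_of_ne (by simp), mul_zero]

lemma Dp_inr (i : Fin N) :
    Dp (X (Sum.inr i) : MvPolynomial (Fin N ⊕ Fin N) R) = X (Sum.inl i) := by
  classical
  rw [Dp_apply, Finset.sum_eq_single i]
  · simp
  · intro j _ hj
    rw [pderiv_X_of_ne (by simpa using Ne.symm hj), mul_zero]
  · simp

lemma Dm_inl (i : Fin N) :
    Dm (X (Sum.inl i) : MvPolynomial (Fin N ⊕ Fin N) R) = X (Sum.inr i) := by
  classical
  rw [Dm_apply, Finset.sum_eq_single i]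
  · simp
  · intro j _ hj
    rw [pderiv_X_of_ne (by simpa using Ne.symm hj), mul_zero]
  · simp

lemma Dm_inr (i : Fin N) : Dm (X (Sum.inr i) : MvPolynomial (Fin N ⊕ Fin N) R) = 0 := by
  rw [Dm_apply]
  refine Finset.sum_eq_zero fun j _ => ?_
  rw [pderiv_X_of_ne (by simp), mul_zero]

/-- Bihomogeneity. -/
abbrev IsBi (φ : MvPolynomial (Fin N ⊕ Fin N) R) (a b : ℕ) : Prop :=
  φ.IsWeightedHomogeneous (wt N) (a, b)

lemma IsBi.Dp {φ : MvPolynomial (Fin N ⊕ Fin N) R} {a b : ℕ} (h : IsBi φ a (b + 1)) :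
    IsBi (Dp φ) (a + 1) b := by
  rw [Dp_apply]
  apply IsWeightedHomogeneous.sum
  intro i _
  have h1 : (X (Sum.inl i) : MvPolynomial (Fin N ⊕ Fin N) R).IsWeightedHomogeneous (wt N) (1, 0) :=
    isWeightedHomogeneous_X _ _ _
  have h2 : (pderiv (Sum.inr i) φ).IsWeightedHomogeneous (wt N) (a, b) :=
    IsWeightedHomogeneous.pderiv h (by simp [wt])
  have h3 := h1.mul h2
  have h4 : ((1, 0) + (a, b) : ℕ × ℕ) = (a + 1, b) := by
    simp [add_comm]
  rwa [h4] at h3

lemma IsBi.Dm {φ : MvPolynomial (Fin N ⊕ Fin N) R} {a b : ℕ} (h : IsBi φ (a + 1) b) :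
    IsBi (Dm φ) a (b + 1) := by
  rw [Dm_apply]
  apply IsWeightedHomogeneous.sum
  intro i _
  have h1 : (X (Sum.inr i) : MvPolynomial (Fin N ⊕ Fin N) R).IsWeightedHomogeneous (wt N) (0, 1) :=
    isWeightedHomogeneous_X _ _ _
  have h2 : (pderiv (Sum.inl i) φ).IsWeightedHomogeneous (wt N) (a, b) :=
    IsWeightedHomogeneous.pderiv h (by simp [wt])
  have h3 := h1.mul h2
  have h4 : ((0, 1) + (a, b) : ℕ × ℕ) = (a, b + 1) := by
    simp [add_comm]
  rwa [h4] at h3

lemma IsBi.fst {φ : MvPolynomial (Fin N ⊕ Fin N) R} {a b : ℕ} (h : IsBi φ a b) :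
    φ.IsWeightedHomogeneous (fun i => (wt N i).1) a := by
  intro d hd
  have h1 := congrArg Prod.fst (h hd)
  rw [Finsupp.weight_apply, Finsupp.sum, Prod.fst_sum] at h1
  rw [Finsupp.weight_apply, Finsupp.sum]
  exact h1

lemma IsBi.snd {φ : MvPolynomial (Fin N ⊕ Fin N) R} {a b : ℕ} (h : IsBi φ a b) :
    φ.IsWeightedHomogeneous (fun i => (wt N i).2) b := by
  intro d hd
  have h1 := congrArg Prod.snd (h hd)
  rw [Finsupp.weight_apply, Finsupp.sum, Prod.snd_sum] at h1
  rw [Finsupp.weight_apply, Finsupp.sum]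
  exact h1

lemma IsBi.euler_fst {φ : MvPolynomial (Fin N ⊕ Fin N) R} {a b : ℕ} (h : IsBi φ a b) :
    ∑ i, X (Sum.inl i) * pderiv (Sum.inl i) φ = (a : MvPolynomial (Fin N ⊕ Fin N) R) * φ := by
  have h1 := h.fst.sum_weight_X_mul_pderiv
  rw [Fintype.sum_sum_type] at h1
  simp only [wt, Sum.elim_inl, Sum.elim_inr, one_smul, zero_smul, Finset.sum_const_zero,
    add_zero] at h1
  rw [h1, nsmul_eq_mul]

lemma IsBi.euler_snd {φ : MvPolynomial (Fin N ⊕ Fin N) R} {a b : ℕ} (h : IsBi φ a b) :
    ∑ i, X (Sum.inr i) * pderiv (Sum.inr i) φ = (b : MvPolynomial (Fin N ⊕ Fin N) R) * φ := by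
  have h1 := h.snd.sum_weight_X_mul_pderiv
  rw [Fintype.sum_sum_type] at h1
  simp only [wt, Sum.elim_inl, Sum.elim_inr, one_smul, zero_smul, Finset.sum_const_zero,
    zero_add] at h1
  rw [h1, nsmul_eq_mul]

lemma commutator (φ : MvPolynomial (Fin N ⊕ Fin N) R) :
    Dp (Dm φ) - Dm (Dp φ) = ∑ i, X (Sum.inl i) * pderiv (Sum.inl i) φ -
      ∑ i, X (Sum.inr i) * pderiv (Sum.inr i) φ := by
  classical
  have h : ⁅(Dp : Derivation R (MvPolynomial (Fin N ⊕ Fin N) R)
      (MvPolynomial (Fin N ⊕ Fin N) R)), (Dm : Derivation R (MvPolynomial (Fin N ⊕ Fin N) R)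
      (MvPolynomial (Fin N ⊕ Fin N) R))⁆ =
      (∑ i, (X (Sum.inl i) : MvPolynomial (Fin N ⊕ Fin N) R) • pderiv (Sum.inl i)) -
      ∑ i, (X (Sum.inr i) : MvPolynomial (Fin N ⊕ Fin N) R) • pderiv (Sum.inr i) := by
    apply derivation_ext
    intro j
    rw [Derivation.commutator_apply, Derivation.sub_apply, sum_apply_derivation,
      sum_apply_derivation]
    rcases j with j | j
    · rw [Dm_inl, Dp_inl, Dp_inr, map_zero, sub_zero]
      rw [Finset.sum_eq_single j, Finset.sum_eq_zero]
      · simp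
      · intro i _
        rw [Derivation.smul_apply, pderiv_X_of_ne (by simp), smul_zero]
      · intro i _ hi
        rw [Derivation.smul_apply, pderiv_X_of_ne (by simpa using Ne.symm hi), smul_zero]
      · simp
    · rw [Dm_inr, Dp_inr, Dm_inl, map_zero, zero_sub]
      rw [Finset.sum_eq_zero, Finset.sum_eq_single j]
      · simp
      · intro i _ hi
        rw [Derivation.smul_apply, pderiv_X_of_ne (by simpa using Ne.symm hi), smul_zero]
      · simp
      · intro i _
        rw [Derivation.smul_apply, pderiv_X_of_ne (by simp), smul_zero]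
  have h2 := congrArg (fun D => D φ) h
  beta_reduce at h2
  rw [Derivation.commutator_apply, Derivation.sub_apply, sum_apply_derivation,
      sum_apply_derivation] at h2
  exact h2

lemma IsBi.commutator {φ : MvPolynomial (Fin N ⊕ Fin N) R} {a b : ℕ} (h : IsBi φ a b) :
    GGL.Dp (GGL.Dm φ) = GGL.Dm (GGL.Dp φ) +
      ((a : MvPolynomial (Fin N ⊕ Fin N) R) - b) * φ := by
  have h1 := GGL.commutator φ
  rw [h.euler_fst, h.euler_snd] at h1
  linear_combination h1

lemma IsBi.Dp_zero {φ : MvPolynomial (Fin N ⊕ Fin N) R} {a : ℕ} (h : IsBi φ a 0) :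
    GGL.Dp φ = 0 := by
  rw [Dp_apply]
  refine Finset.sum_eq_zero fun i _ => ?_
  have : pderiv (Sum.inr i) φ = 0 := by
    apply pderiv_eq_zero_of_notMem_vars
    intro hi
    rw [mem_vars_iff_mem_support] at hi
    obtain ⟨d, hd, hdi⟩ := hi
    have h1 := h.snd (mem_support_iff.mp hd)
    rw [Finsupp.weight_apply, Finsupp.sum] at h1
    have h2 := (Finset.sum_eq_zero_iff.mp h1) (Sum.inr i) hdi
    simp [wt] at h2
    exact (Finsupp.mem_support_iff.mp hdi) h2
  rw [this, mul_zero]

lemma IsBi.Dm_zero {φ : MvPolynomial (Fin N ⊕ Fin N) R} {b : ℕ} (h : IsBi φ 0 b) :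
    GGL.Dm φ = 0 := by
  rw [Dm_apply]
  refine Finset.sum_eq_zero fun i _ => ?_
  have : pderiv (Sum.inl i) φ = 0 := by
    apply pderiv_eq_zero_of_notMem_vars
    intro hi
    rw [mem_vars_iff_mem_support] at hi
    obtain ⟨d, hd, hdi⟩ := hi
    have h1 := h.fst (mem_support_iff.mp hd)
    rw [Finsupp.weight_apply, Finsupp.sum] at h1
    have h2 := (Finset.sum_eq_zero_iff.mp h1) (Sum.inl i) hdi
    simp [wt] at h2
    exact (Finsupp.mem_support_iff.mp hdi) h2
  rw [this, mul_zero]

end ring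

section field

variable {N : ℕ} {K : Type*} [Field K] [CharZero K]

lemma natCast_mul_eq_zero {c : ℕ} (hc : 0 < c) {φ : MvPolynomial (Fin N ⊕ Fin N) K}
    (h : (c : MvPolynomial (Fin N ⊕ Fin N) K) * φ = 0) : φ = 0 := by
  refine (mul_eq_zero.mp h).resolve_left ?_
  exact_mod_cast hc.ne'

/-- `Dp ∘ Dm + c` is injective in bidegrees `(a,b)` with `a > b`. -/
lemma DpDm_injective (b : ℕ) : ∀ (a c : ℕ) (φ : MvPolynomial (Fin N ⊕ Fin N) K), b < a →
    IsBi φ a b → GGL.Dp (GGL.Dm φ) + (c : MvPolynomial (Fin N ⊕ Fin N) K) * φ = 0 → φ = 0 := by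
  induction b with
  | zero =>
    intro a c φ hab h h0
    rw [h.commutator, h.Dp_zero, map_zero, zero_add] at h0
    apply natCast_mul_eq_zero (c := a + c) (by omega)
    rw [← h0]
    push_cast
    ring
  | succ b ih =>
    intro a c φ hab h h0
    have h1 : GGL.Dp φ = 0 := by
      refine ih (a + 1) (a - (b + 1) + c) (GGL.Dp φ) (by omega) h.Dp ?_
      have h2 := congrArg GGL.Dp h0
      rw [map_add, map_zero, Derivation.leibniz] at h2
      have h3 : GGL.Dp (c : MvPolynomial (Fin N ⊕ Fin N) K) = 0 := by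
        rw [← map_natCast (C : K →+* MvPolynomial (Fin N ⊕ Fin N) K), ← algebraMap_eq,
          Derivation.map_algebraMap]
      rw [h3, smul_zero, add_zero, smul_eq_mul] at h2
      have h4 : GGL.Dp (GGL.Dp (GGL.Dm φ)) = GGL.Dp (GGL.Dm (GGL.Dp φ)) +
          ((a : MvPolynomial (Fin N ⊕ Fin N) K) - ((b + 1 : ℕ) : MvPolynomial (Fin N ⊕ Fin N) K)) *
            GGL.Dp φ := by
        rw [h.commutator, map_add, Derivation.leibniz]
        have h5 : GGL.Dp ((a : MvPolynomial (Fin N ⊕ Fin N) K) -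
            ((b + 1 : ℕ) : MvPolynomial (Fin N ⊕ Fin N) K)) = 0 := by
          rw [← map_natCast (C : K →+* MvPolynomial (Fin N ⊕ Fin N) K),
            ← map_natCast (C : K →+* MvPolynomial (Fin N ⊕ Fin N) K), map_sub, ← algebraMap_eq,
            Derivation.map_algebraMap, Derivation.map_algebraMap, sub_zero]
        rw [h5, smul_zero, add_zero, smul_eq_mul]
      rw [h4] at h2
      rw [← h2]
      have h6 : ((a - (b + 1) + c : ℕ) : MvPolynomial (Fin N ⊕ Fin N) K) =
          (a : MvPolynomial (Fin N ⊕ Fin N) K) -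
            ((b + 1 : ℕ) : MvPolynomial (Fin N ⊕ Fin N) K) + c := by
        rw [Nat.cast_add, Nat.cast_sub (by omega)]
      rw [h6]
      ring
    rw [h.commutator, h1, map_zero, zero_add] at h0
    apply natCast_mul_eq_zero (c := a - (b + 1) + c) (by omega)
    rw [← h0]
    have h6 : ((a - (b + 1) + c : ℕ) : MvPolynomial (Fin N ⊕ Fin N) K) =
        (a : MvPolynomial (Fin N ⊕ Fin N) K) -
          ((b + 1 : ℕ) : MvPolynomial (Fin N ⊕ Fin N) K) + c := by
      rw [Nat.cast_add, Nat.cast_sub (by omega)]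
    rw [h6]
    ring

/-- swapping the two groups of variables -/
noncomputable def swp (N : ℕ) (K : Type*) [Field K] :
    MvPolynomial (Fin N ⊕ Fin N) K →ₐ[K] MvPolynomial (Fin N ⊕ Fin N) K :=
  rename Sum.swap

omit [CharZero K] in
lemma swp_swp (φ : MvPolynomial (Fin N ⊕ Fin N) K) : swp N K (swp N K φ) = φ := by
  rw [swp, rename_rename]
  simp

omit [CharZero K] in
lemma swp_Dp (φ : MvPolynomial (Fin N ⊕ Fin N) K) : swp N K (Dp φ) = Dm (swp N K φ) := by
  induction φ using MvPolynomial.induction_on with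
  | C a => simp [← algebraMap_eq]
  | add p q hp hq => rw [map_add, map_add, hp, hq, map_add, map_add]
  | mul_X p i hp =>
    rw [Derivation.leibniz, map_add, map_mul, Derivation.leibniz, smul_eq_mul, smul_eq_mul,
      map_mul, map_mul, hp, smul_eq_mul, smul_eq_mul]
    congr 2
    rcases i with i | i
    · rw [Dp_inl, map_zero]
      simp [swp, Dm_inr]
    · rw [Dp_inr]
      simp [swp, Dm_inl]

omit [CharZero K] in
lemma IsBi.swp {φ : MvPolynomial (Fin N ⊕ Fin N) K} {a b : ℕ} (h : IsBi φ a b) :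
    IsBi (GGL.swp N K φ) b a := by
  intro d hd
  rw [GGL.swp] at hd
  obtain ⟨u, hu, hu2⟩ := coeff_rename_ne_zero _ _ _ hd
  have h1 := h hu2
  rw [← hu]
  rw [Finsupp.weight_apply, Finsupp.sum_fintype _ _ (by simp), Fintype.sum_sum_type] at h1
  rw [Finsupp.weight_apply, Finsupp.sum_fintype _ _ (by simp), Fintype.sum_sum_type]
  have e1 : ∀ i : Fin N, Finsupp.mapDomain Sum.swap u (Sum.inl i) = u (Sum.inr i) := by
    intro i
    have := Finsupp.mapDomain_apply (f := (Sum.swap : Fin N ⊕ Fin N → Fin N ⊕ Fin N))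
      (Sum.swap_leftInverse.injective) u (Sum.inr i)
    simpa using this
  have e2 : ∀ i : Fin N, Finsupp.mapDomain Sum.swap u (Sum.inr i) = u (Sum.inl i) := by
    intro i
    have := Finsupp.mapDomain_apply (f := (Sum.swap : Fin N ⊕ Fin N → Fin N ⊕ Fin N))
      (Sum.swap_leftInverse.injective) u (Sum.inl i)
    simpa using this
  simp only [e1, e2]
  have h2 := congrArg Prod.fst h1
  have h3 := congrArg Prod.snd h1
  simp only [wt, Sum.elim_inl, Sum.elim_inr, Prod.fst_add, Prod.snd_add, Prod.fst_sum,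
    Prod.snd_sum, Prod.smul_fst, Prod.smul_snd, smul_eq_mul, mul_one, mul_zero,
    Finset.sum_const_zero, add_zero, zero_add] at h2 h3
  apply Prod.ext
  · simp only [wt, Sum.elim_inl, Sum.elim_inr, Prod.fst_add, Prod.fst_sum,
      Prod.smul_fst, smul_eq_mul, mul_one, mul_zero,
      Finset.sum_const_zero, add_zero]
    exact h3
  · simp only [wt, Sum.elim_inl, Sum.elim_inr, Prod.snd_add,
      Prod.snd_sum, Prod.smul_snd, smul_eq_mul, mul_one, mul_zero,
      Finset.sum_const_zero, zero_add]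
    exact h2

/-- an element of bidegree `(a,b)`, `a < b`, killed by `Dp` vanishes -/
lemma eq_zero_of_Dp {a b : ℕ} (hab : a < b) {φ : MvPolynomial (Fin N ⊕ Fin N) K}
    (h : IsBi φ a b) (h0 : GGL.Dp φ = 0) : φ = 0 := by
  have h1 : GGL.Dm (GGL.swp N K φ) = 0 := by
    rw [← swp_Dp, h0, map_zero]
  have h2 : GGL.swp N K φ = 0 := by
    refine DpDm_injective a b 0 _ hab h.swp ?_
    rw [h1, map_zero, zero_add, Nat.cast_zero, zero_mul]
  rw [← swp_swp φ, h2, map_zero]

/-- invariant forms are killed by both derivations -/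
lemma Dm_eq_zero {e : ℕ} {φ : MvPolynomial (Fin N ⊕ Fin N) K} (h : IsBi φ e e)
    (h0 : GGL.Dp φ = 0) : GGL.Dm φ = 0 := by
  rcases Nat.eq_zero_or_pos e with he | he
  · subst he
    exact h.Dm_zero
  · obtain ⟨e, rfl⟩ : ∃ e', e = e' + 1 := ⟨e - 1, by omega⟩
    have h1 : IsBi (GGL.Dm φ) e (e + 1 + 1) := IsBi.Dm h
    refine eq_zero_of_Dp (by omega) h1 ?_
    rw [h.commutator, h0, map_zero, sub_self, zero_mul, add_zero]

/-- degree `k` exponents -/
lemma card_degree_eq (r k : ℕ) (s : Set (Fin (r + 1) →₀ ℕ)) (hs : s = {d | d.degree = k}) :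
    Nat.card s = (r + k).choose k := by
  classical
  subst hs
  have e : {d : Fin (r + 1) →₀ ℕ | Finsupp.degree d = k} ≃ Sym (Fin (r + 1)) k := by
    refine (Equiv.subtypeEquivRight ?_).trans (Sym.equivNatSum (Fin (r + 1)) k).symm
    intro d
    show d.degree = k ↔ _
    rw [Finsupp.degree_eq_sum, Finsupp.sum_fintype _ _ (by simp)]
    simp
  rw [Nat.card_congr e, Nat.card_eq_fintype_card, Sym.card_sym_eq_multichoose, Nat.multichoose_eq]
  simp only [Fintype.card_fin]
  have h2 : r + 1 + k - 1 = r + k := by omega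
  rw [h2]

lemma weight_wt (d : (Fin N ⊕ Fin N) →₀ ℕ) : Finsupp.weight (wt N) d =
    ((Finsupp.sumFinsuppEquivProdFinsupp d).1.degree,
      (Finsupp.sumFinsuppEquivProdFinsupp d).2.degree) := by
  rw [Finsupp.weight_apply, Finsupp.sum_fintype _ _ (by simp), Fintype.sum_sum_type,
    Finsupp.degree_eq_sum, Finsupp.degree_eq_sum]
  simp only [wt, Sum.elim_inl, Sum.elim_inr, Finsupp.fst_sumFinsuppEquivProdFinsupp,
    Finsupp.snd_sumFinsuppEquivProdFinsupp]
  apply Prod.ext
  · simp [Prod.fst_sum]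
  · simp [Prod.snd_sum]

/-- exponents of bidegree `(a,b)` -/
noncomputable def biEquiv (N a b : ℕ) : {d : (Fin N ⊕ Fin N) →₀ ℕ | Finsupp.weight (wt N) d = (a, b)} ≃
    {d : Fin N →₀ ℕ | d.degree = a} × {d : Fin N →₀ ℕ | d.degree = b} where
  toFun d := ⟨⟨(Finsupp.sumFinsuppEquivProdFinsupp d.1).1, by
      have h := d.2
      rw [Set.mem_ofPred_eq, weight_wt] at h
      exact congrArg Prod.fst h⟩, ⟨(Finsupp.sumFinsuppEquivProdFinsupp d.1).2, by
      have h := d.2
      rw [Set.mem_ofPred_eq, weight_wt] at h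
      exact congrArg Prod.snd h⟩⟩
  invFun x := ⟨Finsupp.sumFinsuppEquivProdFinsupp.symm (x.1.1, x.2.1), by
      rw [Set.mem_ofPred_eq, weight_wt, Equiv.apply_symm_apply]
      exact Prod.ext x.1.2 x.2.2⟩
  left_inv d := by
    apply Subtype.ext
    simp
  right_inv x := by
    apply Prod.ext
    · apply Subtype.ext; simp
    · apply Subtype.ext; simp

lemma card_bi (r a b : ℕ) :
    Nat.card {d : (Fin (r + 1) ⊕ Fin (r + 1)) →₀ ℕ | Finsupp.weight (wt (r + 1)) d = (a, b)} =
      (r + a).choose a * (r + b).choose b := by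
  rw [Nat.card_congr (biEquiv (r + 1) a b), Nat.card_prod, card_degree_eq r a _ rfl,
    card_degree_eq r b _ rfl]

/-- The space of polynomials of bidegree `(a,b)`. -/
noncomputable abbrev BiS (N : ℕ) (K : Type*) [Field K] (a b : ℕ) :
    Submodule K (MvPolynomial (Fin N ⊕ Fin N) K) :=
  weightedHomogeneousSubmodule K (wt N) (a, b)

instance finite_bi (r a b : ℕ) :
    Finite {d : (Fin (r + 1) ⊕ Fin (r + 1)) →₀ ℕ | Finsupp.weight (wt (r + 1)) d = (a, b)} := by
  apply Nat.finite_of_card_ne_zero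
  rw [card_bi]
  exact (Nat.mul_pos (Nat.choose_pos (by omega)) (Nat.choose_pos (by omega))).ne'

omit [CharZero K] in
lemma finrank_BiS (r a b : ℕ) :
    finrank K (BiS (r + 1) K a b) = (r + a).choose a * (r + b).choose b := by
  rw [BiS, weightedHomogeneousSubmodule_eq_finsupp_supported]
  rw [(AddMonoidAlgebra.supportedEquivFinsupp _).finrank_eq]
  have := Fintype.ofFinite {d : (Fin (r + 1) ⊕ Fin (r + 1)) →₀ ℕ |
    Finsupp.weight (wt (r + 1)) d = (a, b)}
  rw [Module.finrank_finsupp_self, ← Nat.card_eq_fintype_card, card_bi]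

instance finiteDimensional_BiS (r a b : ℕ) : FiniteDimensional K (BiS (r + 1) K a b) := by
  apply FiniteDimensional.of_finrank_pos
  rw [finrank_BiS]
  exact Nat.mul_pos (Nat.choose_pos (by omega)) (Nat.choose_pos (by omega))

/-- The space of invariant one-jet forms of degree `e`. -/
noncomputable def Jet (N : ℕ) (K : Type*) [Field K] (e : ℕ) :
    Submodule K (MvPolynomial (Fin N ⊕ Fin N) K) :=
  BiS N K e e ⊓ LinearMap.ker (Dp : Derivation K (MvPolynomial (Fin N ⊕ Fin N) K)
    (MvPolynomial (Fin N ⊕ Fin N) K)).toLinearMap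

omit [CharZero K] in
lemma mem_Jet {e : ℕ} {φ : MvPolynomial (Fin N ⊕ Fin N) K} :
    φ ∈ Jet N K e ↔ IsBi φ e e ∧ GGL.Dp φ = 0 := Iff.rfl

instance finiteDimensional_Jet (r e : ℕ) : FiniteDimensional K (Jet (r + 1) K e) :=
  Submodule.finiteDimensional_of_le (S₂ := BiS (r + 1) K e e) inf_le_left

/-- `Dp` as a map of the spaces of forms -/
noncomputable def DpR (N : ℕ) (K : Type*) [Field K] (a b : ℕ) :
    BiS N K a (b + 1) →ₗ[K] BiS N K (a + 1) b :=
  (Dp : Derivation K (MvPolynomial (Fin N ⊕ Fin N) K)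
    (MvPolynomial (Fin N ⊕ Fin N) K)).toLinearMap.restrict fun _ hφ => IsBi.Dp hφ

/-- `Dm` as a map of the spaces of forms -/
noncomputable def DmR (N : ℕ) (K : Type*) [Field K] (a b : ℕ) :
    BiS N K (a + 1) b →ₗ[K] BiS N K a (b + 1) :=
  (Dm : Derivation K (MvPolynomial (Fin N ⊕ Fin N) K)
    (MvPolynomial (Fin N ⊕ Fin N) K)).toLinearMap.restrict fun _ hφ => IsBi.Dm hφ

lemma DpR_surjective (r a b : ℕ) (hab : b < a + 1) :
    Function.Surjective (DpR (r + 1) K a b) := by
  have h1 : Function.Injective (DpR (r + 1) K a b ∘ₗ DmR (r + 1) K a b) := by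
    rw [← LinearMap.ker_eq_bot, LinearMap.ker_eq_bot']
    rintro ⟨φ, hφ⟩ h
    apply Subtype.ext
    have h2 : GGL.Dp (GGL.Dm φ) = 0 := congrArg Subtype.val h
    refine DpDm_injective b (a + 1) 0 φ hab hφ ?_
    rw [h2, zero_add, Nat.cast_zero, zero_mul]
  have h2 : Function.Surjective (DpR (r + 1) K a b ∘ₗ DmR (r + 1) K a b) :=
    LinearMap.surjective_of_injective h1
  intro ψ
  obtain ⟨φ, hφ⟩ := h2 ψ
  exact ⟨_, hφ⟩

lemma finrank_Jet (r e : ℕ) : finrank K (Jet (r + 1) K (e + 1)) +
    (r + (e + 2)).choose (e + 2) * (r + e).choose e =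
      (r + (e + 1)).choose (e + 1) * (r + (e + 1)).choose (e + 1) := by
  have h1 := LinearMap.finrank_range_add_finrank_ker (DpR (r + 1) K (e + 1) e)
  rw [LinearMap.range_eq_top.mpr (DpR_surjective r (e + 1) e (by omega)), finrank_top,
    finrank_BiS, finrank_BiS] at h1
  have h2 : finrank K (LinearMap.ker (DpR (r + 1) K (e + 1) e)) =
      finrank K (Jet (r + 1) K (e + 1)) := by
    have h3 : Jet (r + 1) K (e + 1) =
        (LinearMap.ker (DpR (r + 1) K (e + 1) e)).map (BiS (r + 1) K (e + 1) (e + 1)).subtype := by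
      ext φ
      rw [Submodule.mem_map]
      constructor
      · rintro ⟨h4, h5⟩
        refine ⟨⟨φ, h4⟩, ?_, rfl⟩
        rw [LinearMap.mem_ker]
        apply Subtype.ext
        exact h5
      · rintro ⟨⟨ψ, h4⟩, h5, rfl⟩
        exact ⟨h4, congrArg Subtype.val h5⟩
    rw [h3]
    exact (Submodule.equivMapOfInjective _ (Submodule.injective_subtype _) _).finrank_eq
  rw [h2] at h1
  linarith

lemma finrank_Jet' (r e : ℕ) : (e + 2) * finrank K (Jet (r + 1) K (e + 1)) =
    (r + (e + 1)).choose (e + 1) * (r + e).choose (e + 1) := by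
  have h := finrank_Jet (K := K) r e
  obtain ⟨A, hA⟩ : ∃ A, A = (r + (e + 1)).choose (e + 1) := ⟨_, rfl⟩
  obtain ⟨B, hB⟩ : ∃ B, B = (r + (e + 2)).choose (e + 2) := ⟨_, rfl⟩
  obtain ⟨D, hD⟩ : ∃ D, D = (r + e).choose e := ⟨_, rfl⟩
  obtain ⟨F, hF⟩ : ∃ F, F = (r + e).choose (e + 1) := ⟨_, rfl⟩
  have h1 : A = D + F := by
    rw [hA, hD, hF]
    exact Nat.choose_succ_succ (r + e) e
  have h2 : (r + e + 2) * A = B * (e + 2) := by
    rw [hA, hB]
    exact Nat.add_one_mul_choose_eq (r + e + 1) (e + 1)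
  have h3 : F * (e + 1) = D * r := by
    rw [hF, hD]
    have := Nat.choose_succ_right_eq (r + e) e
    rwa [Nat.add_sub_cancel] at this
  rw [← hA, ← hB, ← hD] at h
  rw [← hA, ← hF]
  have h4 : ((finrank K (Jet (r + 1) K (e + 1)) : ℕ) : ℤ) + B * D = A * A := by
    exact_mod_cast h
  have h1' : (A : ℤ) = D + F := by exact_mod_cast h1
  have h2' : ((r : ℤ) + e + 2) * A = B * (e + 2) := by exact_mod_cast h2
  have h3' : (F : ℤ) * (e + 1) = D * r := by exact_mod_cast h3
  have h5 : ((e : ℤ) + 2) * (finrank K (Jet (r + 1) K (e + 1)) : ℕ) = A * F := by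
    linear_combination ((e : ℤ) + 2) * h4 + (D : ℤ) * h2' + (A : ℤ) * (e + 2) * h1' + A * h3'
  exact_mod_cast h5

lemma jet_ineq (r e q₀ : ℕ) (h : q₀ * ((r + 1) * r) < (r + 1 + (e + 1)) * (r + 1 + e)) :
    q₀ * finrank K (Jet (r + 1) K (e + 1)) < finrank K (Jet (r + 1 + 1) K (e + 1)) := by
  obtain ⟨a, ha⟩ : ∃ a, a = finrank K (Jet (r + 1) K (e + 1)) := ⟨_, rfl⟩
  obtain ⟨b, hb⟩ : ∃ b, b = finrank K (Jet (r + 1 + 1) K (e + 1)) := ⟨_, rfl⟩
  have h1 := finrank_Jet' (K := K) r e
  have h2 := finrank_Jet' (K := K) (r + 1) e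
  rw [← ha] at h1
  rw [← hb] at h2
  rw [← ha, ← hb]
  have hbpos : 0 < b := by
    have h3 : 0 < (r + 1 + (e + 1)).choose (e + 1) * (r + 1 + e).choose (e + 1) :=
      Nat.mul_pos (Nat.choose_pos (by omega)) (Nat.choose_pos (by omega))
    rw [← h2] at h3
    exact Nat.pos_of_mul_pos_left h3
  rcases Nat.eq_zero_or_pos r with hr | hr
  · subst hr
    have h3 : (0 + e).choose (e + 1) = 0 := Nat.choose_eq_zero_of_lt (by omega)
    rw [h3, mul_zero] at h1
    have h4 : a = 0 := by
      rcases Nat.mul_eq_zero.mp h1 with h5 | h5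
      · omega
      · exact h5
    rw [h4, mul_zero]
    exact hbpos
  · -- ratio of binomials
    have h3 : (r + 1) * (r + 1 + (e + 1)).choose (e + 1) =
        (r + 1 + (e + 1)) * (r + (e + 1)).choose (e + 1) := by
      have := Nat.add_one_mul_choose_eq (r + (e + 1)) r
      have e1 : (r + (e + 1)).choose r = (r + (e + 1)).choose (e + 1) := by
        rw [← Nat.choose_symm_of_eq_add (show r + (e + 1) = r + (e + 1) from rfl)]
      have e2 : (r + (e + 1) + 1).choose (r + 1) = (r + 1 + (e + 1)).choose (e + 1) := by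
        rw [Nat.choose_symm_of_eq_add (show r + (e + 1) + 1 = (r + 1) + (e + 1) by omega)]
        congr 1
        omega
      rw [e1, e2] at this
      rw [mul_comm, ← this]
      congr 1
      omega
    have h4 : r * (r + 1 + e).choose (e + 1) = (r + 1 + e) * (r + e).choose (e + 1) := by
      obtain ⟨t, rfl⟩ : ∃ t, r = t + 1 := ⟨r - 1, by omega⟩
      have := Nat.add_one_mul_choose_eq (t + 1 + e) t
      have e1 : (t + 1 + e).choose t = (t + 1 + e).choose (e + 1) := by
        rw [← Nat.choose_symm_of_eq_add (show t + 1 + e = t + (e + 1) by omega)]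
      have e2 : (t + 1 + e + 1).choose (t + 1) = (t + 1 + 1 + e).choose (e + 1) := by
        rw [Nat.choose_symm_of_eq_add (show t + 1 + e + 1 = (t + 1) + (e + 1) by omega)]
        congr 1
        omega
      rw [e1, e2] at this
      rw [mul_comm, ← this]
      congr 1
      omega
    have h5 : (e + 2) * (((r + 1) * r) * b) =
        (e + 2) * (((r + 1 + (e + 1)) * (r + 1 + e)) * a) := by
      calc (e + 2) * (((r + 1) * r) * b) = ((r + 1) * r) * ((e + 2) * b) := by ring
        _ = ((r + 1) * (r + 1 + (e + 1)).choose (e + 1)) * (r * (r + 1 + e).choose (e + 1)) := by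
            rw [h2]; ring
        _ = ((r + 1 + (e + 1)) * (r + 1 + e)) *
            ((r + (e + 1)).choose (e + 1) * (r + e).choose (e + 1)) := by rw [h3, h4]; ring
        _ = _ := by rw [← h1]; ring
    have h6 : ((r + 1) * r) * b = ((r + 1 + (e + 1)) * (r + 1 + e)) * a :=
      Nat.eq_of_mul_eq_mul_left (by omega) h5
    have hapos : 0 < a := by
      have h7 : 0 < ((r + 1) * r) * b := Nat.mul_pos (Nat.mul_pos (by omega) hr) hbpos
      rw [h6] at h7
      exact Nat.pos_of_mul_pos_left h7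
    have h8 : ((r + 1) * r) * (q₀ * a) < ((r + 1) * r) * b := by
      rw [h6]
      calc ((r + 1) * r) * (q₀ * a) = (q₀ * ((r + 1) * r)) * a := by ring
        _ < _ := Nat.mul_lt_mul_of_pos_right h hapos
    exact Nat.lt_of_mul_lt_mul_left h8

end field

end Pool.Agent.Lib.GGL
end

section

/-!
Linear substitutions in invariant one-jet forms, and restriction to hyperplanes.
-/

open MvPolynomial Module

namespace Pool.Agent.Lib.GGL

section ring

variable {N N' N'' : ℕ} {R S : Type*} [CommRing R] [CommRing S]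

/-- The substitution `G(y,w) ↦ G(My, Mw)`. -/
noncomputable def sub (M : Matrix (Fin N') (Fin N) R) :
    MvPolynomial (Fin N' ⊕ Fin N') R →ₐ[R] MvPolynomial (Fin N ⊕ Fin N) R :=
  aeval (Sum.elim (fun i => ∑ k, C (M i k) * X (Sum.inl k)) (fun i => ∑ k, C (M i k) * X (Sum.inr k)))

lemma sub_inl (M : Matrix (Fin N') (Fin N) R) (i : Fin N') :
    sub M (X (Sum.inl i)) = ∑ k, C (M i k) * X (Sum.inl k) := by
  simp [sub]

lemma sub_inr (M : Matrix (Fin N') (Fin N) R) (i : Fin N') :
    sub M (X (Sum.inr i)) = ∑ k, C (M i k) * X (Sum.inr k) := by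
  simp [sub]

/-- substitution of weighted homogeneous elements -/
lemma isWeightedHomogeneous_aeval {σ τ M : Type*} [Fintype σ] [AddCommMonoid M] {w : σ → M}
    {w' : τ → M} {g : σ → MvPolynomial τ R} (hg : ∀ i, (g i).IsWeightedHomogeneous w' (w i))
    {φ : MvPolynomial σ R} {m : M} (h : φ.IsWeightedHomogeneous w m) :
    (aeval g φ).IsWeightedHomogeneous w' m := by
  rw [aeval_def, eval₂_eq]
  apply IsWeightedHomogeneous.sum
  intro d hd
  rw [algebraMap_eq]
  apply IsWeightedHomogeneous.C_mul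
  have h1 := h (mem_support_iff.mp hd)
  rw [← h1, Finsupp.weight_apply, Finsupp.sum]
  apply IsWeightedHomogeneous.prod
  intro i _
  exact (hg i).pow _

lemma IsBi.sub {φ : MvPolynomial (Fin N' ⊕ Fin N') R} {a b : ℕ} (h : IsBi φ a b)
    (M : Matrix (Fin N') (Fin N) R) : IsBi (GGL.sub M φ) a b := by
  refine isWeightedHomogeneous_aeval ?_ h
  rintro (i | i)
  · apply IsWeightedHomogeneous.sum
    intro k _
    apply IsWeightedHomogeneous.C_mul
    exact isWeightedHomogeneous_X R (wt N) (Sum.inl k)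
  · apply IsWeightedHomogeneous.sum
    intro k _
    apply IsWeightedHomogeneous.C_mul
    exact isWeightedHomogeneous_X R (wt N) (Sum.inr k)

lemma Dp_C (r : R) : Dp (C r : MvPolynomial (Fin N ⊕ Fin N) R) = 0 := by
  rw [← algebraMap_eq, Derivation.map_algebraMap]

lemma Dp_mul (φ ψ : MvPolynomial (Fin N ⊕ Fin N) R) : Dp (φ * ψ) = φ * Dp ψ + ψ * Dp φ := by
  rw [Derivation.leibniz, smul_eq_mul, smul_eq_mul]

lemma Dp_sub (M : Matrix (Fin N') (Fin N) R) (φ : MvPolynomial (Fin N' ⊕ Fin N') R) :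
    Dp (sub M φ) = sub M (Dp φ) := by
  induction φ using MvPolynomial.induction_on with
  | C a =>
    rw [Dp_C, map_zero]
    have : sub M (C a) = C a := by
      rw [← algebraMap_eq, AlgHom.commutes, algebraMap_eq]
    rw [this, Dp_C]
  | add p q hp hq => rw [map_add, map_add, hp, hq, map_add, map_add]
  | mul_X p i hp =>
    rw [map_mul, Dp_mul, Dp_mul, map_add, map_mul, map_mul, hp]
    congr 2
    rcases i with i | i
    · rw [Dp_inl, map_zero, sub_inl, map_sum]
      refine Finset.sum_eq_zero fun k _ => ?_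
      rw [Dp_mul, Dp_C, Dp_inl, mul_zero, mul_zero, add_zero]
    · rw [Dp_inr, sub_inl, sub_inr, map_sum]
      refine Finset.sum_congr rfl fun k _ => ?_
      rw [Dp_mul, Dp_C, Dp_inr, mul_zero, add_zero]

lemma eval_sub (M : Matrix (Fin N') (Fin N) R) (φ : MvPolynomial (Fin N' ⊕ Fin N') R)
    (y w : Fin N → R) : eval (Sum.elim y w) (sub M φ) =
      eval (Sum.elim (M.mulVec y) (M.mulVec w)) φ := by
  induction φ using MvPolynomial.induction_on with
  | C a =>
    have : sub M (C a) = C a := by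
      rw [← algebraMap_eq, AlgHom.commutes, algebraMap_eq]
    rw [this, eval_C, eval_C]
  | add p q hp hq => rw [map_add, map_add, hp, hq, map_add]
  | mul_X p i hp =>
    rw [map_mul, map_mul, map_mul, hp, eval_X]
    congr 1
    rcases i with i | i
    · rw [sub_inl, map_sum]
      simp [Matrix.mulVec, dotProduct]
    · rw [sub_inr, map_sum]
      simp [Matrix.mulVec, dotProduct]

lemma sub_sub (M : Matrix (Fin N'') (Fin N') R) (M' : Matrix (Fin N') (Fin N) R)
    (φ : MvPolynomial (Fin N'' ⊕ Fin N'') R) : sub M' (sub M φ) = sub (M * M') φ := by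
  rw [← AlgHom.comp_apply]
  congr 1
  apply MvPolynomial.algHom_ext
  rintro (i | i)
  · rw [AlgHom.comp_apply, sub_inl, sub_inl, map_sum]
    have : ∀ k, sub M' (C (M i k) * X (Sum.inl k)) =
        ∑ l, C (M i k * M' k l) * X (Sum.inl l) := by
      intro k
      rw [map_mul, sub_inl, Finset.mul_sum]
      refine Finset.sum_congr rfl fun l _ => ?_
      rw [← algebraMap_eq, AlgHom.commutes, algebraMap_eq, C_mul, mul_assoc]
    rw [Finset.sum_congr rfl fun k _ => this k, Finset.sum_comm]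
    refine Finset.sum_congr rfl fun l _ => ?_
    rw [Matrix.mul_apply, map_sum, Finset.sum_mul]
  · rw [AlgHom.comp_apply, sub_inr, sub_inr, map_sum]
    have : ∀ k, sub M' (C (M i k) * X (Sum.inr k)) =
        ∑ l, C (M i k * M' k l) * X (Sum.inr l) := by
      intro k
      rw [map_mul, sub_inr, Finset.mul_sum]
      refine Finset.sum_congr rfl fun l _ => ?_
      rw [← algebraMap_eq, AlgHom.commutes, algebraMap_eq, C_mul, mul_assoc]
    rw [Finset.sum_congr rfl fun k _ => this k, Finset.sum_comm]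
    refine Finset.sum_congr rfl fun l _ => ?_
    rw [Matrix.mul_apply, map_sum, Finset.sum_mul]

lemma sub_one (φ : MvPolynomial (Fin N ⊕ Fin N) R) :
    sub (1 : Matrix (Fin N) (Fin N) R) φ = φ := by
  have : sub (1 : Matrix (Fin N) (Fin N) R) = AlgHom.id R _ := by
    apply MvPolynomial.algHom_ext
    rintro (i | i)
    · rw [sub_inl, Finset.sum_eq_single i]
      · simp
      · intro k _ hk
        simp [Matrix.one_apply_ne (Ne.symm hk)]
      · simp
    · rw [sub_inr, Finset.sum_eq_single i]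
      · simp
      · intro k _ hk
        simp [Matrix.one_apply_ne (Ne.symm hk)]
      · simp
  rw [this]
  rfl

lemma map_sub_comm (f : R →+* S) (M : Matrix (Fin N') (Fin N) R)
    (φ : MvPolynomial (Fin N' ⊕ Fin N') R) : map f (sub M φ) = sub (M.map f) (map f φ) := by
  induction φ using MvPolynomial.induction_on with
  | C a =>
    have h1 : sub M (C a) = C a := by
      rw [← algebraMap_eq, AlgHom.commutes, algebraMap_eq]
    have h2 : sub (M.map f) (C (f a)) = C (f a) := by
      rw [← algebraMap_eq, AlgHom.commutes, algebraMap_eq]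
    rw [h1, map_C, map_C, h2]
  | add p q hp hq => simp only [map_add, hp, hq]
  | mul_X p i hp =>
    simp only [map_mul, hp, map_X]
    congr 1
    rcases i with i | i
    · rw [sub_inl, sub_inl, map_sum]
      simp
    · rw [sub_inr, sub_inr, map_sum]
      simp

lemma map_Dp (f : R →+* S) (φ : MvPolynomial (Fin N ⊕ Fin N) R) :
    map f (Dp φ) = Dp (map f φ) := by
  rw [Dp_apply, Dp_apply, map_sum]
  refine Finset.sum_congr rfl fun i _ => ?_
  rw [map_mul, map_X, pderiv_map]

lemma IsBi.map {φ : MvPolynomial (Fin N ⊕ Fin N) R} {a b : ℕ} (h : IsBi φ a b)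
    (f : R →+* S) : IsBi (MvPolynomial.map f φ) a b := by
  intro d hd
  apply h
  intro h0
  apply hd
  rw [coeff_map, h0, map_zero]

/-- the linear form `P · y` -/
noncomputable def ly (P : Fin N → R) : MvPolynomial (Fin N ⊕ Fin N) R :=
  ∑ i, C (P i) * X (Sum.inl i)

/-- the linear form `P · w` -/
noncomputable def lw (P : Fin N → R) : MvPolynomial (Fin N ⊕ Fin N) R :=
  ∑ i, C (P i) * X (Sum.inr i)

/-- The ideal of the pairs `(y, w)` with `P · y = P · w = 0`. -/
noncomputable def IP (P : Fin N → R) : Ideal (MvPolynomial (Fin N ⊕ Fin N) R) :=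
  Ideal.span {ly P, lw P}

lemma mem_IP {P : Fin N → R} {φ : MvPolynomial (Fin N ⊕ Fin N) R} :
    φ ∈ IP P ↔ ∃ a b, a * ly P + b * lw P = φ := Ideal.mem_span_pair

lemma sub_ly (M : Matrix (Fin N') (Fin N) R) (P : Fin N' → R) :
    sub M (ly P) = ly (Matrix.vecMul P M) := by
  rw [ly, ly, map_sum]
  have : ∀ i, sub M (C (P i) * X (Sum.inl i)) = ∑ k, C (P i * M i k) * X (Sum.inl k) := by
    intro i
    rw [map_mul, sub_inl, Finset.mul_sum]
    refine Finset.sum_congr rfl fun l _ => ?_
    rw [← algebraMap_eq, AlgHom.commutes, algebraMap_eq, C_mul, mul_assoc]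
  rw [Finset.sum_congr rfl fun i _ => this i, Finset.sum_comm]
  refine Finset.sum_congr rfl fun l _ => ?_
  rw [Matrix.vecMul, dotProduct, map_sum, Finset.sum_mul]

lemma sub_lw (M : Matrix (Fin N') (Fin N) R) (P : Fin N' → R) :
    sub M (lw P) = lw (Matrix.vecMul P M) := by
  rw [lw, lw, map_sum]
  have : ∀ i, sub M (C (P i) * X (Sum.inr i)) = ∑ k, C (P i * M i k) * X (Sum.inr k) := by
    intro i
    rw [map_mul, sub_inr, Finset.mul_sum]
    refine Finset.sum_congr rfl fun l _ => ?_
    rw [← algebraMap_eq, AlgHom.commutes, algebraMap_eq, C_mul, mul_assoc]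
  rw [Finset.sum_congr rfl fun i _ => this i, Finset.sum_comm]
  refine Finset.sum_congr rfl fun l _ => ?_
  rw [Matrix.vecMul, dotProduct, map_sum, Finset.sum_mul]

lemma sub_mem_IP {P : Fin N' → R} {φ : MvPolynomial (Fin N' ⊕ Fin N') R} (h : φ ∈ IP P)
    (M : Matrix (Fin N') (Fin N) R) : sub M φ ∈ IP (Matrix.vecMul P M) := by
  obtain ⟨a, b, hab⟩ := mem_IP.mp h
  rw [mem_IP]
  refine ⟨sub M a, sub M b, ?_⟩
  rw [← hab, map_add, map_mul, map_mul, sub_ly, sub_lw]

lemma map_ly (f : R →+* S) (P : Fin N → R) : map f (ly P) = ly (fun i => f (P i)) := by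
  rw [ly, ly, map_sum]
  simp

lemma map_lw (f : R →+* S) (P : Fin N → R) : map f (lw P) = lw (fun i => f (P i)) := by
  rw [lw, lw, map_sum]
  simp

lemma map_mem_IP (f : R →+* S) {P : Fin N → R} {φ : MvPolynomial (Fin N ⊕ Fin N) R}
    (h : φ ∈ IP P) : map f φ ∈ IP (fun i => f (P i)) := by
  obtain ⟨a, b, hab⟩ := mem_IP.mp h
  rw [mem_IP]
  refine ⟨map f a, map f b, ?_⟩
  rw [← hab, map_add, map_mul, map_mul, map_ly, map_lw]

lemma eval_ly (P y w : Fin N → R) : eval (Sum.elim y w) (ly P) = P ⬝ᵥ y := by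
  rw [ly, map_sum]
  simp [dotProduct]

lemma eval_lw (P y w : Fin N → R) : eval (Sum.elim y w) (lw P) = P ⬝ᵥ w := by
  rw [lw, map_sum]
  simp [dotProduct]

/-- scaling both groups of variables -/
lemma sub_smul_one {φ : MvPolynomial (Fin N ⊕ Fin N) R} {a b : ℕ} (h : IsBi φ a b) (c : R) :
    sub (c • (1 : Matrix (Fin N) (Fin N) R)) φ = C (c ^ (a + b)) * φ := by
  have h1 : ∀ i, sub (c • (1 : Matrix (Fin N) (Fin N) R)) (X i) = C c * X i := by
    rintro (i | i)
    · rw [sub_inl, Finset.sum_eq_single i]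
      · simp
      · intro k _ hk
        simp [Matrix.one_apply_ne (Ne.symm hk)]
      · simp
    · rw [sub_inr, Finset.sum_eq_single i]
      · simp
      · intro k _ hk
        simp [Matrix.one_apply_ne (Ne.symm hk)]
      · simp
  conv_lhs => rw [φ.as_sum, map_sum]
  conv_rhs => rw [φ.as_sum, Finset.mul_sum]
  refine Finset.sum_congr rfl fun d hd => ?_
  have h2 := h (mem_support_iff.mp hd)
  have h3 : d.degree = a + b := by
    rw [Finsupp.weight_apply, Finsupp.sum_fintype _ _ (by simp), Fintype.sum_sum_type] at h2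
    have e1 := congrArg Prod.fst h2
    have e2 := congrArg Prod.snd h2
    simp only [wt, Sum.elim_inl, Sum.elim_inr, Prod.fst_add, Prod.snd_add, Prod.fst_sum,
      Prod.snd_sum, Prod.smul_fst, Prod.smul_snd, smul_eq_mul, mul_one, mul_zero,
      Finset.sum_const_zero, add_zero, zero_add] at e1 e2
    rw [Finsupp.degree_eq_sum, Fintype.sum_sum_type, e1, e2]
  rw [monomial_eq, map_mul, ← algebraMap_eq, AlgHom.commutes, Finsupp.prod, map_prod]
  have h4 : ∀ i ∈ d.support, sub (c • (1 : Matrix (Fin N) (Fin N) R)) (X i ^ d i) =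
      C c ^ d i * X i ^ d i := by
    intro i _
    rw [map_pow, h1, mul_pow]
  rw [Finset.prod_congr rfl h4, Finset.prod_mul_distrib, Finset.prod_pow_eq_pow_sum]
  have h5 : ∑ i ∈ d.support, d i = a + b := by
    rw [← h3]
    rfl
  rw [h5, algebraMap_eq, C_pow]
  ring

end ring

section field

variable {K : Type*} [Field K]

/-- The parametrisation of the hyperplane `P · y = 0` (times `P 0`). -/
noncomputable def parM {r : ℕ} (P : Fin (r + 1) → K) : Matrix (Fin (r + 1)) (Fin r) K :=
  Matrix.of fun i k => Fin.cases (motive := fun _ => K) (- P k.succ)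
    (fun i' => if i' = k then P 0 else 0) i

/-- forgetting the first coordinate -/
noncomputable def tailM (K : Type*) [Field K] (r : ℕ) : Matrix (Fin r) (Fin (r + 1)) K :=
  Matrix.of fun k i => if i = k.succ then 1 else 0

lemma parM_mul_tailM {r : ℕ} (P : Fin (r + 1) → K) (i l : Fin (r + 1)) :
    (parM P * tailM K r) i l = (P 0 • (1 : Matrix (Fin (r + 1)) (Fin (r + 1)) K)) i l -
      (if i = 0 then P l else 0) := by
  rw [Matrix.mul_apply, Matrix.smul_apply, smul_eq_mul]
  simp only [tailM, Matrix.of_apply, mul_ite, mul_one, mul_zero]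
  refine Fin.cases ?_ (fun l' => ?_) l
  · rw [Finset.sum_eq_zero]
    · refine Fin.cases ?_ (fun i' => ?_) i
      · simp
      · simp [Matrix.one_apply_ne (Fin.succ_ne_zero i')]
    · intro k _
      rw [if_neg (Fin.succ_ne_zero k).symm]
  · rw [Finset.sum_eq_single l']
    · rw [if_pos rfl]
      refine Fin.cases ?_ (fun i' => ?_) i
      · simp [parM, Matrix.one_apply_ne (Fin.succ_ne_zero l').symm]
      · by_cases h : i' = l'
        · subst h
          simp [parM]
        · simp [parM, h]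
    · intro k _ hk
      rw [if_neg]
      intro h
      exact hk (Fin.succ_injective _ h).symm
    · simp

/-- A form vanishing on the hyperplane lies in the ideal `IP P`. -/
lemma mem_IP_of_sub_parM {r : ℕ} {P : Fin (r + 1) → K} (hP : P 0 ≠ 0)
    {φ : MvPolynomial (Fin (r + 1) ⊕ Fin (r + 1)) K} {a b : ℕ} (h : IsBi φ a b)
    (h0 : sub (parM P) φ = 0) : φ ∈ IP P := by
  have h1 : sub (P 0 • (1 : Matrix (Fin (r + 1)) (Fin (r + 1)) K)) φ -
      sub (parM P * tailM K r) φ ∈ IP P := by
    rw [← Ideal.Quotient.mk_eq_mk_iff_sub_mem]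
    have h2 : (Ideal.Quotient.mkₐ K (IP P)).comp
        (sub (P 0 • (1 : Matrix (Fin (r + 1)) (Fin (r + 1)) K))) =
        (Ideal.Quotient.mkₐ K (IP P)).comp (sub (parM P * tailM K r)) := by
      apply MvPolynomial.algHom_ext
      rintro (i | i)
      · rw [AlgHom.comp_apply, AlgHom.comp_apply, Ideal.Quotient.mkₐ_eq_mk,
          Ideal.Quotient.mk_eq_mk_iff_sub_mem, sub_inl, sub_inl, ← Finset.sum_sub_distrib]
        simp only [parM_mul_tailM]
        by_cases hi : i = 0
        · simp only [hi, if_true, C_sub]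
          have : ∀ l : Fin (r + 1), C ((P 0 • (1 : Matrix (Fin (r + 1)) (Fin (r + 1)) K)) 0 l) *
              X (Sum.inl l) - (C ((P 0 • (1 : Matrix (Fin (r + 1)) (Fin (r + 1)) K)) 0 l) -
              C (P l)) * X (Sum.inl l) =
              (C (P l) * X (Sum.inl l) : MvPolynomial (Fin (r + 1) ⊕ Fin (r + 1)) K) := by
            intro l; ring
          rw [Finset.sum_congr rfl fun l _ => this l]
          exact Ideal.subset_span (by simp [ly])
        · simp only [hi, if_false, sub_zero, sub_self, Finset.sum_const_zero]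
          exact Submodule.zero_mem _
      · rw [AlgHom.comp_apply, AlgHom.comp_apply, Ideal.Quotient.mkₐ_eq_mk,
          Ideal.Quotient.mk_eq_mk_iff_sub_mem, sub_inr, sub_inr, ← Finset.sum_sub_distrib]
        simp only [parM_mul_tailM]
        by_cases hi : i = 0
        · simp only [hi, if_true, C_sub]
          have : ∀ l : Fin (r + 1), C ((P 0 • (1 : Matrix (Fin (r + 1)) (Fin (r + 1)) K)) 0 l) *
              X (Sum.inr l) - (C ((P 0 • (1 : Matrix (Fin (r + 1)) (Fin (r + 1)) K)) 0 l) -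
              C (P l)) * X (Sum.inr l) =
              (C (P l) * X (Sum.inr l) : MvPolynomial (Fin (r + 1) ⊕ Fin (r + 1)) K) := by
            intro l; ring
          rw [Finset.sum_congr rfl fun l _ => this l]
          exact Ideal.subset_span (by simp [lw])
        · simp only [hi, if_false, sub_zero, sub_self, Finset.sum_const_zero]
          exact Submodule.zero_mem _
    exact DFunLike.congr_fun h2 φ
  rw [← sub_sub, h0, map_zero, sub_zero, sub_smul_one h] at h1
  have h3 : (C ((P 0 ^ (a + b))⁻¹) : MvPolynomial (Fin (r + 1) ⊕ Fin (r + 1)) K) *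
      (C (P 0 ^ (a + b)) * φ) = φ := by
    rw [← mul_assoc, ← C_mul, inv_mul_cancel₀ (pow_ne_zero _ hP), C_1, one_mul]
  rw [← h3]
  exact Ideal.mul_mem_left _ _ h1

/-- Existence of invariant forms vanishing on given hyperplanes. -/
theorem exists_form [CharZero K] {r e : ℕ} {A : Type*} [Fintype A]
    (P : A → Fin (r + 1 + 1) → K) (hP : ∀ j, P j 0 ≠ 0)
    (h : Fintype.card A * ((r + 1) * r) < (r + 1 + (e + 1)) * (r + 1 + e)) :
    ∃ G : MvPolynomial (Fin (r + 1 + 1) ⊕ Fin (r + 1 + 1)) K, G ≠ 0 ∧ IsBi G (e + 1) (e + 1) ∧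
      Dp G = 0 ∧ ∀ j, G ∈ IP (P j) := by
  let ρ : Jet (r + 1 + 1) K (e + 1) →ₗ[K] (A → Jet (r + 1) K (e + 1)) :=
    LinearMap.pi fun j => ((sub (parM (P j))).toLinearMap.restrict fun φ hφ => by
      rw [mem_Jet] at hφ ⊢
      refine ⟨hφ.1.sub _, ?_⟩
      have : Dp (sub (parM (P j)) φ) = 0 := by
        rw [Dp_sub, hφ.2, map_zero]
      exact this)
  have h1 : finrank K (A → Jet (r + 1) K (e + 1)) < finrank K (Jet (r + 1 + 1) K (e + 1)) := by
    rw [Module.finrank_pi_fintype]
    simp only [Finset.sum_const, Finset.card_univ, smul_eq_mul]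
    exact jet_ineq r e _ h
  have h2 : LinearMap.ker ρ ≠ ⊥ := LinearMap.ker_ne_bot_of_finrank_lt h1
  obtain ⟨⟨G, hG⟩, hG1, hG2⟩ := Submodule.exists_mem_ne_zero_of_ne_bot h2
  refine ⟨G, ?_, hG.1, hG.2, ?_⟩
  · intro h3
    exact hG2 (Subtype.ext h3)
  · intro j
    rw [LinearMap.mem_ker] at hG1
    have h4 := congrFun hG1 j
    have h5 : sub (parM (P j)) G = 0 := congrArg Subtype.val h4
    exact mem_IP_of_sub_parM (hP j) hG.1 h5

end field

end Pool.Agent.Lib.GGL
end

section

/-!
Evaluation of invariant one-jet forms.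
-/

open MvPolynomial Module

namespace Pool.Agent.Lib.GGL

section

variable {N : ℕ} {K : Type*} [Field K] [CharZero K]

omit [CharZero K] in
lemma aeval_poly_Dp (y w : Fin N → K) (φ : MvPolynomial (Fin N ⊕ Fin N) K) :
    Polynomial.derivative (aeval (Sum.elim (fun i => Polynomial.C (y i))
      (fun i => Polynomial.C (w i) + Polynomial.X * Polynomial.C (y i))) φ) =
    aeval (Sum.elim (fun i => Polynomial.C (y i))
      (fun i => Polynomial.C (w i) + Polynomial.X * Polynomial.C (y i))) (Dp φ) := by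
  induction φ using MvPolynomial.induction_on with
  | C a =>
    rw [Dp_C, map_zero, ← algebraMap_eq, AlgHom.commutes, Polynomial.algebraMap_eq,
      Polynomial.derivative_C]
  | add p q hp hq => rw [map_add, map_add, hp, hq, map_add, map_add]
  | mul_X p i hp =>
    rw [map_mul, Polynomial.derivative_mul, hp, Dp_mul, map_add, map_mul, map_mul, aeval_X]
    rcases i with i | i
    · rw [Dp_inl, map_zero]
      simp only [Sum.elim_inl, Polynomial.derivative_C]
      ring
    · rw [Dp_inr, aeval_X]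
      simp only [Sum.elim_inl, Sum.elim_inr, Polynomial.derivative_add, Polynomial.derivative_C,
        Polynomial.derivative_mul, Polynomial.derivative_X]
      ring

omit [CharZero K] in
lemma eval_poly (y w : Fin N → K) (φ : MvPolynomial (Fin N ⊕ Fin N) K) (t : K) :
    Polynomial.eval t (aeval (Sum.elim (fun i => Polynomial.C (y i))
      (fun i => Polynomial.C (w i) + Polynomial.X * Polynomial.C (y i))) φ) =
    eval (Sum.elim y (w + t • y)) φ := by
  induction φ using MvPolynomial.induction_on with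
  | C a =>
    rw [← algebraMap_eq, AlgHom.commutes, Polynomial.algebraMap_eq, Polynomial.eval_C,
      algebraMap_eq, eval_C]
  | add p q hp hq => rw [map_add, Polynomial.eval_add, hp, hq, map_add]
  | mul_X p i hp =>
    rw [map_mul, Polynomial.eval_mul, hp, map_mul, aeval_X, eval_X]
    congr 1
    rcases i with i | i
    · simp
    · simp
      ring

/-- invariance under `w ↦ w + t y` -/
lemma eval_shift {φ : MvPolynomial (Fin N ⊕ Fin N) K} (h : Dp φ = 0) (y w : Fin N → K) (t : K) :
    eval (Sum.elim y (w + t • y)) φ = eval (Sum.elim y w) φ := by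
  have h1 := aeval_poly_Dp y w φ
  rw [h, map_zero] at h1
  have h2 := Polynomial.derivative_eq_zero.mp h1
  obtain ⟨c, hc⟩ := Polynomial.natDegree_eq_zero.mp h2
  have h3 := eval_poly y w φ t
  have h4 := eval_poly y w φ 0
  rw [← hc, Polynomial.eval_C] at h3 h4
  rw [← h3, h4, zero_smul, add_zero]

omit [CharZero K] in
lemma eval_swp (φ : MvPolynomial (Fin N ⊕ Fin N) K) (y w : Fin N → K) :
    eval (Sum.elim y w) (swp N K φ) = eval (Sum.elim w y) φ := by
  rw [swp, eval_rename]
  congr 2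
  funext t
  rcases t with i | i <;> rfl

lemma Dp_swp {e : ℕ} {φ : MvPolynomial (Fin N ⊕ Fin N) K} (hb : IsBi φ e e) (h : Dp φ = 0) :
    Dp (swp N K φ) = 0 := by
  have h1 : Dm φ = 0 := Dm_eq_zero hb h
  have h2 := swp_Dp (swp N K φ)
  rw [swp_swp, h1] at h2
  rw [← swp_swp (Dp (swp N K φ)), h2, map_zero]

/-- invariance under `y ↦ y + t w` -/
lemma eval_shift' {e : ℕ} {φ : MvPolynomial (Fin N ⊕ Fin N) K} (hb : IsBi φ e e) (h : Dp φ = 0)
    (y w : Fin N → K) (t : K) :
    eval (Sum.elim (y + t • w) w) φ = eval (Sum.elim y w) φ := by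
  rw [← eval_swp φ w (y + t • w), ← eval_swp φ w y]
  exact eval_shift (Dp_swp hb h) w y t

omit [CharZero K] in
lemma eval_smul {a b : ℕ} {φ : MvPolynomial (Fin N ⊕ Fin N) K} (hb : IsBi φ a b)
    (y w : Fin N → K) (c d : K) :
    eval (Sum.elim (c • y) (d • w)) φ = c ^ a * d ^ b * eval (Sum.elim y w) φ := by
  rw [eval_eq, eval_eq, Finset.mul_sum]
  refine Finset.sum_congr rfl fun s hs => ?_
  have h2 := hb (mem_support_iff.mp hs)
  rw [Finsupp.weight_apply, Finsupp.sum_fintype _ _ (by simp), Fintype.sum_sum_type] at h2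
  have e1 := congrArg Prod.fst h2
  have e2 := congrArg Prod.snd h2
  simp only [wt, Sum.elim_inl, Sum.elim_inr, Prod.fst_add, Prod.snd_add, Prod.fst_sum,
    Prod.snd_sum, Prod.smul_fst, Prod.smul_snd, smul_eq_mul, mul_one, mul_zero,
    Finset.sum_const_zero, add_zero, zero_add] at e1 e2
  have h3 : ∀ v : Fin N ⊕ Fin N → K, ∏ i ∈ s.support, v i ^ s i =
      (∏ i, v (Sum.inl i) ^ s (Sum.inl i)) * ∏ i, v (Sum.inr i) ^ s (Sum.inr i) := by
    intro v
    rw [← Fintype.prod_sum_type (fun i => v i ^ s i)]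
    apply Finset.prod_subset (Finset.subset_univ _)
    intro i _ hi
    rw [Finsupp.notMem_support_iff.mp hi, pow_zero]
  rw [h3, h3]
  simp only [Sum.elim_inl, Sum.elim_inr, Pi.smul_apply, smul_eq_mul, mul_pow,
    Finset.prod_mul_distrib, Finset.prod_pow_eq_pow_sum, e1, e2]
  ring

/-- vanishing only depends on the span -/
lemma eval_eq_zero_of_span {e : ℕ} {φ : MvPolynomial (Fin N ⊕ Fin N) K}
    (hb : IsBi φ (e + 1) (e + 1)) (h : Dp φ = 0) {y w : Fin N → K}
    (h0 : eval (Sum.elim y w) φ = 0) (α β γ δ : K) :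
    eval (Sum.elim (α • y + β • w) (γ • y + δ • w)) φ = 0 := by
  have hsm : ∀ (y w : Fin N → K) (c d : K), eval (Sum.elim y w) φ = 0 →
      eval (Sum.elim (c • y) (d • w)) φ = 0 := by
    intro y w c d h1
    rw [eval_smul hb, h1, mul_zero]
  by_cases hα : α = 0
  · subst hα
    by_cases hβ : β = 0
    · subst hβ
      have h1 : (0 : K) • y + (0 : K) • w = (0 : K) • y := by simp
      have h2 : γ • y + δ • w = (1 : K) • (γ • y + δ • w) := (one_smul _ _).symm
      rw [h1, h2, eval_smul hb, zero_pow (by omega), zero_mul, zero_mul]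
    · have h1 : γ • y + δ • w = γ • y + (δ / β) • (β • w) := by
        rw [smul_smul, div_mul_cancel₀ _ hβ]
      rw [zero_smul, zero_add, h1, eval_shift h]
      apply hsm
      -- exchange of the two vectors
      have h2 : eval (Sum.elim w y) φ = eval (Sum.elim ((-1 : K) • y) w) φ := by
        calc eval (Sum.elim w y) φ = eval (Sum.elim (w + (-1 : K) • y) y) φ :=
              (eval_shift' hb h w y (-1)).symm
          _ = eval (Sum.elim (w + (-1 : K) • y) (y + (1 : K) • (w + (-1 : K) • y))) φ :=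
              (eval_shift h _ _ 1).symm
          _ = eval (Sum.elim (w + (-1 : K) • y) w) φ := by
              congr 2
              congr 1
              simp
          _ = eval (Sum.elim ((w + (-1 : K) • y) + (-1 : K) • w) w) φ :=
              (eval_shift' hb h _ _ (-1)).symm
          _ = eval (Sum.elim ((-1 : K) • y) w) φ := by
              congr 2
              congr 1
              simp
      rw [h2]
      have h3 : w = (1 : K) • w := (one_smul _ _).symm
      rw [h3]
      exact hsm y w (-1) 1 h0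
  · have h1 : γ • y + δ • w = (δ - γ / α * β) • w + (γ / α) • (α • y + β • w) := by
      rw [smul_add, smul_smul, smul_smul, div_mul_cancel₀ _ hα]
      module
    rw [h1, eval_shift h]
    have h2 : α • y + β • w = (1 : K) • (α • y + β • w) := (one_smul _ _).symm
    rw [h2]
    apply hsm
    rw [eval_shift' hb h]
    have h3 : w = (1 : K) • w := (one_smul _ _).symm
    rw [h3]
    exact hsm y w α 1 h0

end

end Pool.Agent.Lib.GGL
end

section

/-!
A counting lemma on algebraically independent families.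
-/

open MvPolynomial Module

namespace Pool.Agent.Lib.GGL

/-- After adjoining finitely many elements, most groups of coordinates remain algebraically
independent. -/
theorem exists_indep_subset {ι : Type*} [Fintype ι] [DecidableEq ι] {N : ℕ} {K : Type*} [Field K]
    [CharZero K] {P : ι × Fin N → K} (hP : AlgebraicIndependent ℚ P) (X : Finset K) :
    ∃ (A : Finset ι) (F : Subalgebra ℚ K), Fintype.card ι ≤ A.card + X.card ∧ (∀ x ∈ X, x ∈ F) ∧
      AlgebraicIndependent F (fun x : A × Fin N => P (x.1, x.2)) := by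
  classical
  let M := AlgebraicIndependent.matroid ℚ K
  obtain ⟨X₀, hX₀⟩ := M.exists_isBasis (X : Set K) (Set.subset_univ _)
  have hX₀' := AlgebraicIndependent.matroid_isBasis_iff.mp hX₀
  have hSind : M.Indep (Set.range P) := by
    rw [AlgebraicIndependent.matroid_indep_iff]
    exact hP.to_subtype_range
  obtain ⟨J, hJ, hXJ⟩ := hX₀.indep.subset_isBasis_of_subset (X := X₀ ∪ Set.range P)
    Set.subset_union_left (Set.subset_univ _)
  have hJind : AlgebraicIndepOn ℚ id J := AlgebraicIndependent.matroid_indep_iff.mp hJ.indep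
  have hcard : (Set.range P).encard ≤ J.encard := by
    rw [hJ.encard_eq_eRk]
    exact hSind.encard_le_eRk_of_subset Set.subset_union_right
  have hPinj : Function.Injective P := hP.injective
  -- the good indices
  obtain ⟨T, hT⟩ : ∃ T : Finset (ι × Fin N), T = Finset.univ.filter fun t => P t ∉ X₀ ∧ P t ∈ J :=
    ⟨_, rfl⟩
  have hX₀card : X₀.encard ≤ X.card := by
    rw [← Set.encard_coe_eq_coe_finsetCard]
    exact Set.encard_le_encard hX₀'.2.1
  have hJsub : J ⊆ X₀ ∪ P '' (T : Set (ι × Fin N)) := by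
    intro x hx
    by_cases hx0 : x ∈ X₀
    · exact Or.inl hx0
    · right
      rcases hJ.subset hx with h | h
      · exact absurd h hx0
      · obtain ⟨t, rfl⟩ := h
        exact ⟨t, by rw [hT]; simp [hx0, hx], rfl⟩
  have hTcard : Fintype.card (ι × Fin N) ≤ X.card + T.card := by
    have h1 : ((Fintype.card (ι × Fin N) : ℕ) : ℕ∞) = (Set.range P).encard := by
      rw [← Set.image_univ, hPinj.encard_image, Set.encard_univ, ENat.card_eq_coe_fintype_card]
    have h2 : ((Fintype.card (ι × Fin N) : ℕ) : ℕ∞) ≤ (X.card : ℕ∞) + (T.card : ℕ∞) := by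
      rw [h1]
      calc (Set.range P).encard ≤ J.encard := hcard
        _ ≤ (X₀ ∪ P '' (T : Set (ι × Fin N))).encard := Set.encard_le_encard hJsub
        _ ≤ X₀.encard + (P '' (T : Set (ι × Fin N))).encard := Set.encard_union_le _ _
        _ ≤ X.card + T.card := by
          gcongr
          exact (Set.encard_image_le _ _).trans (Set.encard_coe_eq_coe_finsetCard T).le
    exact_mod_cast h2
  obtain ⟨A, hA⟩ : ∃ A : Finset ι, A = Finset.univ.filter fun j => ∀ i, (j, i) ∈ T := ⟨_, rfl⟩
  have hAmem : ∀ j ∈ A, ∀ i, P (j, i) ∉ X₀ ∧ P (j, i) ∈ J := by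
    intro j hj i
    rw [hA, Finset.mem_filter] at hj
    have := hj.2 i
    rw [hT, Finset.mem_filter] at this
    exact this.2
  have hAcard : Fintype.card ι ≤ A.card + X.card := by
    have h1 : Aᶜ ⊆ Tᶜ.image Prod.fst := by
      intro j hj
      rw [Finset.mem_compl, hA, Finset.mem_filter] at hj
      push Not at hj
      obtain ⟨i, hi⟩ := hj (Finset.mem_univ _)
      rw [Finset.mem_image]
      exact ⟨(j, i), Finset.mem_compl.mpr hi, rfl⟩
    have h2 : Aᶜ.card ≤ Tᶜ.card := (Finset.card_le_card h1).trans Finset.card_image_le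
    rw [Finset.card_compl, Finset.card_compl] at h2
    have h3 := Finset.card_le_univ A
    have h4 := Finset.card_le_univ T
    omega
  have hind : AlgebraicIndependent (Algebra.adjoin ℚ X₀) (fun x : A × Fin N => P (x.1, x.2)) := by
    have h1 := AlgebraicIndependent.adjoin_of_disjoint (x := fun i : J => (i : K)) hJind
      (s := {i : J | (i : K) ∈ X₀}) (t := {i : J | (i : K) ∉ X₀}) (by
        rw [Set.disjoint_left]
        intro i h1 h2
        exact h2 h1)
    have h2 : (fun i : J => (i : K)) '' {i : J | (i : K) ∈ X₀} = X₀ := by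
      ext x
      constructor
      · rintro ⟨i, hi, rfl⟩
        exact hi
      · intro hx
        exact ⟨⟨x, hXJ hx⟩, hx, rfl⟩
    rw [h2] at h1
    exact h1.comp (fun x : A × Fin N => ⟨⟨P (x.1, x.2), (hAmem x.1 x.1.2 x.2).2⟩,
      (hAmem x.1 x.1.2 x.2).1⟩) (by
        rintro ⟨j, i⟩ ⟨j', i'⟩ h
        have h3 : P ((j : ι), i) = P ((j' : ι), i') :=
          congrArg (fun t => (t.1 : K)) h
        have h4 := hPinj h3
        rw [Prod.mk.injEq] at h4
        exact Prod.ext (Subtype.ext h4.1) h4.2)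
  refine ⟨A, (Subalgebra.algebraicClosure (Algebra.adjoin ℚ X₀) K).restrictScalars ℚ, hAcard,
    ?_, ?_⟩
  · intro x hx
    exact hX₀'.2.2 x hx
  · exact hind.subalgebraAlgebraicClosure

end Pool.Agent.Lib.GGL
end

section

/-!
Universal invariant forms: polynomial in the coefficients of the hyperplanes.
-/

open MvPolynomial Module

namespace Pool.Agent.Lib.GGL

attribute [local instance] MvPolynomial.algebraMvPolynomial in
lemma clear_denoms {R K σ ι : Type*} [CommRing R] [IsDomain R] [Field K] [Algebra R K]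
    [IsFractionRing R K] [Finite ι] (f : ι → MvPolynomial σ K) :
    ∃ s : R, s ≠ 0 ∧ ∃ g : ι → MvPolynomial σ R, ∀ i,
      map (algebraMap R K) (g i) = C (algebraMap R K s) * f i := by
  obtain ⟨⟨b, hb⟩, h⟩ := IsLocalization.exist_integer_multiples_of_finite
    ((nonZeroDivisors R).map (C (σ := σ))) f
  obtain ⟨s, hs, rfl⟩ := Submonoid.mem_map.mp hb
  refine ⟨s, nonZeroDivisors.ne_zero hs, ?_⟩
  choose g hg using h
  refine ⟨g, fun i => ?_⟩
  have h1 := hg i
  rw [Algebra.smul_def] at h1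
  have h2 : ∀ φ : MvPolynomial σ R, algebraMap (MvPolynomial σ R) (MvPolynomial σ K) φ =
    map (algebraMap R K) φ := fun φ => rfl
  rw [h2, h2, map_C] at h1
  exact h1

/-- Universal forms for the hyperplanes indexed by `A`. -/
def IsUniv {A : Type*} {N : ℕ} (E : ℕ)
    (G : MvPolynomial (Fin N ⊕ Fin N) (MvPolynomial (A × Fin N) ℚ)) : Prop :=
  IsBi G E E ∧ Dp G = 0 ∧ ∀ j : A, G ∈ IP (fun i => (X (j, i) : MvPolynomial (A × Fin N) ℚ))

theorem exists_univ {r e : ℕ} (A : Type*) [Fintype A]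
    (h : Fintype.card A * ((r + 1) * r) < (r + 1 + (e + 1)) * (r + 1 + e)) :
    ∃ G : MvPolynomial (Fin (r + 1 + 1) ⊕ Fin (r + 1 + 1))
      (MvPolynomial (A × Fin (r + 1 + 1)) ℚ), G ≠ 0 ∧ IsUniv (e + 1) G := by
  classical
  obtain ⟨R, hR⟩ : ∃ R, R = MvPolynomial (A × Fin (r + 1 + 1)) ℚ := ⟨_, rfl⟩
  let K := FractionRing (MvPolynomial (A × Fin (r + 1 + 1)) ℚ)
  have hinj : Function.Injective (algebraMap (MvPolynomial (A × Fin (r + 1 + 1)) ℚ) K) :=
    IsFractionRing.injective _ _
  have hmapinj : Function.Injective (map (σ := Fin (r + 1 + 1) ⊕ Fin (r + 1 + 1))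
      (algebraMap (MvPolynomial (A × Fin (r + 1 + 1)) ℚ) K)) := map_injective _ hinj
  have : CharZero K := charZero_of_injective_algebraMap hinj
  obtain ⟨G, hG0, hGbi, hGD, hGI⟩ := exists_form (K := K) (e := e)
    (fun (j : A) i => algebraMap (MvPolynomial (A × Fin (r + 1 + 1)) ℚ) K (X (j, i)))
    (fun j => by
      intro h0
      have := hinj (h0.trans (map_zero _).symm)
      exact X_ne_zero _ this) h
  choose a b hab using fun j => mem_IP.mp (hGI j)
  obtain ⟨s, hs, g, hg⟩ := clear_denoms (R := MvPolynomial (A × Fin (r + 1 + 1)) ℚ)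
    (K := K) (ι := Option (A ⊕ A))
    (fun t => t.elim G (Sum.elim a b))
  have hgG := hg none
  have hga := fun j => hg (some (Sum.inl j))
  have hgb := fun j => hg (some (Sum.inr j))
  simp only [Option.elim, Sum.elim_inl, Sum.elim_inr] at hgG hga hgb
  have hs' : (C (algebraMap (MvPolynomial (A × Fin (r + 1 + 1)) ℚ) K s) :
      MvPolynomial (Fin (r + 1 + 1) ⊕ Fin (r + 1 + 1)) K) ≠ 0 := by
    rw [Ne, C_eq_zero]
    intro h0
    exact hs (hinj (h0.trans (map_zero _).symm))
  refine ⟨g none, ?_, ?_, ?_, ?_⟩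
  · intro h0
    rw [h0, map_zero] at hgG
    rcases mul_eq_zero.mp hgG.symm with h1 | h1
    · exact hs' h1
    · exact hG0 h1
  · intro d hd
    have h1 : coeff d (map (algebraMap (MvPolynomial (A × Fin (r + 1 + 1)) ℚ) K) (g none)) ≠ 0 := by
      rw [coeff_map]
      intro h0
      exact hd (hinj (h0.trans (map_zero _).symm))
    rw [hgG, coeff_C_mul] at h1
    exact hGbi (right_ne_zero_of_mul h1)
  · apply hmapinj
    rw [map_Dp, hgG, map_zero, Dp_mul, Dp_C, hGD, mul_zero, mul_zero, add_zero]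
  · intro j
    rw [mem_IP]
    refine ⟨g (some (Sum.inl j)), g (some (Sum.inr j)), ?_⟩
    apply hmapinj
    rw [map_add, map_mul, map_mul, map_ly, map_lw, hgG, hga, hgb, ← hab j]
    ring

/-- linear change of the coordinates of every hyperplane -/
noncomputable def theta (A : Type*) {N : ℕ} {F : Type*} [CommRing F] (M : Matrix (Fin N) (Fin N) F) :
    MvPolynomial (A × Fin N) F →ₐ[F] MvPolynomial (A × Fin N) F :=
  aeval fun x => ∑ i, C (M i x.2) * X (x.1, i)

lemma theta_X {A : Type*} {N : ℕ} {F : Type*} [CommRing F] (M : Matrix (Fin N) (Fin N) F)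
    (j : A) (k : Fin N) : theta A M (X (j, k)) = ∑ i, C (M i k) * X (j, i) := by
  simp [theta]

lemma theta_theta {A : Type*} {N : ℕ} {F : Type*} [CommRing F] (M M' : Matrix (Fin N) (Fin N) F)
    (h : M * M' = 1) (φ : MvPolynomial (A × Fin N) F) : theta A M (theta A M' φ) = φ := by
  have : (theta A M).comp (theta A M') = AlgHom.id F _ := by
    apply MvPolynomial.algHom_ext
    rintro ⟨j, k⟩
    rw [AlgHom.comp_apply, theta_X, map_sum]
    have h1 : ∀ i, theta A M (C (M' i k) * X (j, i)) =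
        ∑ l, C (M l i * M' i k) * X (j, l) := by
      intro i
      rw [map_mul, theta_X, Finset.mul_sum]
      refine Finset.sum_congr rfl fun l _ => ?_
      rw [← algebraMap_eq, AlgHom.commutes, algebraMap_eq, C_mul]
      ring
    rw [Finset.sum_congr rfl fun i _ => h1 i, Finset.sum_comm]
    have h2 : ∀ l, ∑ i, C (M l i * M' i k) * (X (j, l) : MvPolynomial (A × Fin N) F) =
        C ((1 : Matrix (Fin N) (Fin N) F) l k) * X (j, l) := by
      intro l
      rw [← h, Matrix.mul_apply, map_sum, Finset.sum_mul]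
    rw [Finset.sum_congr rfl fun l _ => h2 l, Finset.sum_eq_single k]
    · simp
    · intro l _ hl
      simp [Matrix.one_apply_ne hl]
    · simp
  rw [← AlgHom.comp_apply, this]
  rfl

lemma algebraicIndependent_linear {A : Type*} {N : ℕ} {F K : Type*} [CommRing F] [CommRing K]
    [Algebra F K] {P : A → Fin N → K} {M M' : Matrix (Fin N) (Fin N) F} (h : M * M' = 1)
    (hP : AlgebraicIndependent F fun x : A × Fin N => P x.1 x.2) :
    AlgebraicIndependent F fun x : A × Fin N => ∑ i, algebraMap F K (M' i x.2) * P x.1 i := by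
  have h1 : (aeval fun x : A × Fin N => ∑ i, algebraMap F K (M' i x.2) * P x.1 i :
      MvPolynomial (A × Fin N) F →ₐ[F] K) =
      (aeval fun x : A × Fin N => P x.1 x.2).comp (theta A M') := by
    apply MvPolynomial.algHom_ext
    rintro ⟨j, k⟩
    rw [AlgHom.comp_apply, theta_X, map_sum, aeval_X]
    refine Finset.sum_congr rfl fun i _ => ?_
    rw [map_mul, aeval_X, aeval_C]
  rw [AlgebraicIndependent, h1, AlgHom.coe_comp]
  apply Function.Injective.comp hP
  intro φ ψ hφ
  rw [← theta_theta M M' h φ, hφ, theta_theta M M' h]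

/-- the pair of a rational matrix applied to two vectors is generic enough -/
lemma exists_rational {N : ℕ} {K : Type*} [Field K] [CharZero K]
    {g : MvPolynomial (Fin N ⊕ Fin N) ℚ} (hg : g ≠ 0) {a b : Fin N → K} {i₀ i₁ : Fin N}
    (hΔ : a i₀ * b i₁ - a i₁ * b i₀ ≠ 0) :
    ∃ M : Matrix (Fin N) (Fin N) ℚ, M.det ≠ 0 ∧
      aeval (Sum.elim ((M.map (algebraMap ℚ K)).mulVec a) ((M.map (algebraMap ℚ K)).mulVec b)) g ≠
        0 := by
  classical
  obtain ⟨Ψ, hΨ⟩ : ∃ Ψ : MvPolynomial (Fin N × Fin N) K, Ψ =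
    aeval (Sum.elim (fun i => ∑ k, X (i, k) * C (a k)) (fun i => ∑ k, X (i, k) * C (b k))) g :=
    ⟨_, rfl⟩
  have hev : ∀ m : Fin N × Fin N → K, eval m Ψ =
      aeval (Sum.elim (fun i => ∑ k, m (i, k) * a k) (fun i => ∑ k, m (i, k) * b k)) g := by
    intro m
    have h1 : eval m Ψ = (((MvPolynomial.aeval m : MvPolynomial (Fin N × Fin N) K →ₐ[K] K).restrictScalars
        ℚ).comp (aeval (Sum.elim (fun i => ∑ k, X (i, k) * C (a k))
        (fun i => ∑ k, X (i, k) * C (b k))))) g := by
      rw [hΨ]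
      rfl
    rw [h1, comp_aeval]
    congr 2
    funext t
    rcases t with i | i
    · simp
    · simp
  have hΨ0 : Ψ ≠ 0 := by
    intro h0
    apply hg
    have hinj : Function.Injective (map (σ := Fin N ⊕ Fin N) (algebraMap ℚ K)) :=
      map_injective _ (algebraMap ℚ K).injective
    apply hinj
    rw [map_zero]
    apply MvPolynomial.funext
    intro x
    rw [map_zero, eval_map]
    obtain ⟨Δ, hΔ'⟩ : ∃ Δ, Δ = a i₀ * b i₁ - a i₁ * b i₀ := ⟨_, rfl⟩
    rw [← hΔ'] at hΔ
    have hne : i₀ ≠ i₁ := by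
      rintro rfl
      rw [sub_self] at hΔ'
      exact hΔ hΔ'
    let α : Fin N → K := fun k => if k = i₀ then b i₁ / Δ else if k = i₁ then - b i₀ / Δ else 0
    let β : Fin N → K := fun k => if k = i₀ then - a i₁ / Δ else if k = i₁ then a i₀ / Δ else 0
    have hsum : ∀ (c d : K) (v : Fin N → K),
        ∑ k, (if k = i₀ then c else if k = i₁ then d else 0) * v k = c * v i₀ + d * v i₁ := by
      intro c d v
      rw [Finset.sum_eq_add i₀ i₁ hne]
      · rw [if_pos rfl, if_neg hne.symm, if_pos rfl]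
      · rintro k - ⟨h1, h2⟩
        rw [if_neg h1, if_neg h2, zero_mul]
      · intro h; exact absurd (Finset.mem_univ _) h
      · intro h; exact absurd (Finset.mem_univ _) h
    have hαa : ∑ k, α k * a k = 1 := by
      rw [hsum]
      field_simp
      rw [hΔ']
      ring
    have hαb : ∑ k, α k * b k = 0 := by
      rw [hsum]
      field_simp
      ring
    have hβa : ∑ k, β k * a k = 0 := by
      rw [hsum]
      field_simp
      ring
    have hβb : ∑ k, β k * b k = 1 := by
      rw [hsum]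
      field_simp
      rw [hΔ']
      ring
    have h1 := hev (fun t => x (Sum.inl t.1) * α t.2 + x (Sum.inr t.1) * β t.2)
    rw [h0, map_zero] at h1
    have h2 : (Sum.elim (fun i => ∑ k, (x (Sum.inl i) * α k + x (Sum.inr i) * β k) * a k)
        (fun i => ∑ k, (x (Sum.inl i) * α k + x (Sum.inr i) * β k) * b k)) = x := by
      funext t
      rcases t with i | i
      · simp only [Sum.elim_inl]
        have : ∀ k, (x (Sum.inl i) * α k + x (Sum.inr i) * β k) * a k =
            x (Sum.inl i) * (α k * a k) + x (Sum.inr i) * (β k * a k) := by intro k; ring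
        rw [Finset.sum_congr rfl fun k _ => this k, Finset.sum_add_distrib, ← Finset.mul_sum,
          ← Finset.mul_sum, hαa, hβa]
        ring
      · simp only [Sum.elim_inr]
        have : ∀ k, (x (Sum.inl i) * α k + x (Sum.inr i) * β k) * b k =
            x (Sum.inl i) * (α k * b k) + x (Sum.inr i) * (β k * b k) := by intro k; ring
        rw [Finset.sum_congr rfl fun k _ => this k, Finset.sum_add_distrib, ← Finset.mul_sum,
          ← Finset.mul_sum, hαb, hβb]
        ring
    simp only at h1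
    rw [h2] at h1
    exact h1.symm
  have hdet0 : Matrix.det (Matrix.mvPolynomialX (Fin N) (Fin N) K) ≠ 0 :=
    Matrix.det_mvPolynomialX_ne_zero (Fin N) K
  have hprod : Ψ * Matrix.det (Matrix.mvPolynomialX (Fin N) (Fin N) K) ≠ 0 :=
    mul_ne_zero hΨ0 hdet0
  have hex : ∃ m ∈ Set.pi Set.univ fun _ : Fin N × Fin N => Set.range (algebraMap ℚ K),
      eval m (Ψ * Matrix.det (Matrix.mvPolynomialX (Fin N) (Fin N) K)) ≠ 0 := by
    by_contra hcon
    push Not at hcon
    apply hprod
    apply MvPolynomial.funext_set _ (fun _ => Set.infinite_range_of_injective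
      (algebraMap ℚ K).injective)
    intro x hx
    rw [hcon x hx, map_zero]
  obtain ⟨m, hm, hm0⟩ := hex
  have hm' : ∀ t, ∃ c : ℚ, algebraMap ℚ K c = m t := fun t => hm t (Set.mem_univ _)
  choose c hc using hm'
  rw [map_mul] at hm0
  refine ⟨Matrix.of fun i k => c (i, k), ?_, ?_⟩
  · intro h0
    apply right_ne_zero_of_mul hm0
    rw [RingHom.map_det, RingHom.mapMatrix_apply]
    have h3 : (Matrix.mvPolynomialX (Fin N) (Fin N) K).map (eval m) =
        (Matrix.of fun i k => c (i, k)).map (algebraMap ℚ K) := by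
      ext i k
      simp [Matrix.mvPolynomialX, hc]
    rw [h3, ← RingHom.mapMatrix_apply, ← RingHom.map_det, h0, map_zero]
  · have h4 := left_ne_zero_of_mul hm0
    rw [hev] at h4
    have h5 : ∀ v : Fin N → K, ((Matrix.of fun i k => c (i, k)).map (algebraMap ℚ K)).mulVec v =
        fun i => ∑ k, m (i, k) * v k := by
      intro v
      funext i
      simp only [Matrix.mulVec, dotProduct, Matrix.map_apply, Matrix.of_apply, hc]
    rw [h5, h5]
    exact h4

lemma IsUniv.transform {A : Type*} {N E : ℕ}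
    {G : MvPolynomial (Fin N ⊕ Fin N) (MvPolynomial (A × Fin N) ℚ)} (hG : IsUniv E G)
    {M M' : Matrix (Fin N) (Fin N) ℚ} (h : M' * M = 1) :
    IsUniv E (map (theta A M').toRingHom (sub (M.map (C : ℚ →+* MvPolynomial (A × Fin N) ℚ)) G)) := by
  obtain ⟨h1, h2, h3⟩ := hG
  refine ⟨(h1.sub _).map _, ?_, ?_⟩
  · rw [← map_Dp, Dp_sub, h2, map_zero, map_zero]
  · intro j
    have h4 := map_mem_IP (theta A M').toRingHom
      (sub_mem_IP (h3 j) (M.map (C : ℚ →+* MvPolynomial (A × Fin N) ℚ)))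
    have h5 : (fun i => (theta A M').toRingHom (Matrix.vecMul
        (fun i => (X (j, i) : MvPolynomial (A × Fin N) ℚ))
        (M.map (C : ℚ →+* MvPolynomial (A × Fin N) ℚ)) i)) =
        fun i => (X (j, i) : MvPolynomial (A × Fin N) ℚ) := by
      funext k
      show theta A M' (∑ i, X (j, i) * C (M i k)) = _
      rw [map_sum]
      have h6 : ∀ i, theta A M' (X (j, i) * C (M i k)) =
          ∑ l, C (M' l i * M i k) * X (j, l) := by
        intro i
        rw [map_mul, theta_X, Finset.sum_mul]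
        refine Finset.sum_congr rfl fun l _ => ?_
        rw [← algebraMap_eq, AlgHom.commutes, algebraMap_eq, C_mul]
        ring
      rw [Finset.sum_congr rfl fun i _ => h6 i, Finset.sum_comm]
      have h7 : ∀ l, ∑ i, C (M' l i * M i k) * (X (j, l) : MvPolynomial (A × Fin N) ℚ) =
          C ((1 : Matrix (Fin N) (Fin N) ℚ) l k) * X (j, l) := by
        intro l
        rw [← h, Matrix.mul_apply, map_sum, Finset.sum_mul]
      rw [Finset.sum_congr rfl fun l _ => h7 l, Finset.sum_eq_single k]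
      · simp
      · intro l _ hl
        simp [Matrix.one_apply_ne hl]
      · simp
    rw [h5] at h4
    exact h4

/-- Non-vanishing of a universal form at a given pair. -/
theorem exists_univ_ne_zero {r e : ℕ} {A : Type*} [Fintype A]
    (h : Fintype.card A * ((r + 1) * r) < (r + 1 + (e + 1)) * (r + 1 + e))
    {K : Type*} [Field K] [CharZero K] (F : Subalgebra ℚ K) {P : A → Fin (r + 1 + 1) → K}
    (hP : AlgebraicIndependent F fun x : A × Fin (r + 1 + 1) => P x.1 x.2)
    {a b : Fin (r + 1 + 1) → K} (ha : ∀ i, a i ∈ F) (hb : ∀ i, b i ∈ F)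
    {i₀ i₁ : Fin (r + 1 + 1)} (hΔ : a i₀ * b i₁ - a i₁ * b i₀ ≠ 0) :
    ∃ G : MvPolynomial (Fin (r + 1 + 1) ⊕ Fin (r + 1 + 1))
      (MvPolynomial (A × Fin (r + 1 + 1)) ℚ), IsUniv (e + 1) G ∧
      eval (Sum.elim a b) (map (aeval (R := ℚ) fun x : A × Fin (r + 1 + 1) => P x.1 x.2).toRingHom
        G) ≠ 0 := by
  classical
  obtain ⟨G₀, hG₀, hG₀u⟩ := exists_univ A h
  obtain ⟨d₀, hd₀⟩ := MvPolynomial.ne_zero_iff.mp hG₀
  obtain ⟨c, hc⟩ := MvPolynomial.ne_zero_iff.mp hd₀
  obtain ⟨g, hgdef⟩ : ∃ g : MvPolynomial (Fin (r + 1 + 1) ⊕ Fin (r + 1 + 1)) ℚ,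
    g = ∑ d ∈ G₀.support, monomial d (coeff c (coeff d G₀)) := ⟨_, rfl⟩
  have hg0 : g ≠ 0 := by
    rw [MvPolynomial.ne_zero_iff]
    refine ⟨d₀, ?_⟩
    rw [hgdef, coeff_sum, Finset.sum_eq_single d₀]
    · rw [coeff_monomial, if_pos rfl]
      exact hc
    · intro d _ hd
      rw [coeff_monomial, if_neg hd]
    · intro h1
      exact absurd (mem_support_iff.mpr hd₀) h1
  obtain ⟨M, hMdet, hM⟩ := exists_rational hg0 hΔ
  have hMM' : M * M⁻¹ = 1 := Matrix.mul_nonsing_inv M (isUnit_iff_ne_zero.mpr hMdet)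
  have hM'M : M⁻¹ * M = 1 := Matrix.nonsing_inv_mul M (isUnit_iff_ne_zero.mpr hMdet)
  refine ⟨_, hG₀u.transform hM'M, ?_⟩
  intro hzero
  apply hM
  -- the transformed hyperplanes
  have hP' : AlgebraicIndependent F fun x : A × Fin (r + 1 + 1) =>
      ∑ i, algebraMap F K ((M⁻¹.map (algebraMap ℚ F)) i x.2) * P x.1 i := by
    apply algebraicIndependent_linear (M := M.map (algebraMap ℚ F)) _ hP
    rw [← Matrix.map_mul, hMM']
    simp
  -- the coordinates of the transformed pair
  have hmem : ∀ (v : Fin (r + 1 + 1) → K), (∀ i, v i ∈ F) → ∀ i,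
      ((M.map (algebraMap ℚ K)).mulVec v) i ∈ F := by
    intro v hv i
    rw [Matrix.mulVec, dotProduct]
    apply Subalgebra.sum_mem
    intro k _
    exact Subalgebra.mul_mem _ (Subalgebra.algebraMap_mem F (M i k)) (hv k)
  let u : Fin (r + 1 + 1) ⊕ Fin (r + 1 + 1) → F := Sum.elim
    (fun i => ⟨((M.map (algebraMap ℚ K)).mulVec a) i, hmem a ha i⟩)
    (fun i => ⟨((M.map (algebraMap ℚ K)).mulVec b) i, hmem b hb i⟩)
  have hu : (fun t => algebraMap F K (u t)) = Sum.elim ((M.map (algebraMap ℚ K)).mulVec a)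
      ((M.map (algebraMap ℚ K)).mulVec b) := by
    funext t
    rcases t with i | i <;> rfl
  -- the polynomial in the coefficients
  obtain ⟨Q, hQ⟩ : ∃ Q : MvPolynomial (A × Fin (r + 1 + 1)) F,
    Q = eval₂ (map (algebraMap ℚ F)) (fun t => C (u t)) G₀ := ⟨_, rfl⟩
  have hQ0 : Q = 0 := by
    apply hP'
    rw [map_zero, ← hzero]
    have e1 : (map (theta A M⁻¹).toRingHom (sub (M.map (C : ℚ →+* MvPolynomial _ ℚ)) G₀)) =
        map (theta A M⁻¹).toRingHom (sub (M.map (C : ℚ →+* MvPolynomial _ ℚ)) G₀) := rfl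
    rw [map_map, map_sub_comm, eval_sub, eval_map, hQ]
    have e2 : ((M.map (C : ℚ →+* MvPolynomial (A × Fin (r + 1 + 1)) ℚ)).map
        (((aeval (R := ℚ) fun x : A × Fin (r + 1 + 1) => P x.1 x.2).toRingHom).comp
          (theta A M⁻¹).toRingHom)) = M.map (algebraMap ℚ K) := by
      ext i k
      simp [Matrix.map_apply]
    rw [e2]
    have e3 : ∀ φ : MvPolynomial (Fin (r + 1 + 1) ⊕ Fin (r + 1 + 1))
        (MvPolynomial (A × Fin (r + 1 + 1)) ℚ),
        (aeval fun x : A × Fin (r + 1 + 1) =>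
          ∑ i, algebraMap F K ((M⁻¹.map (algebraMap ℚ F)) i x.2) * P x.1 i)
          (eval₂ (map (algebraMap ℚ F)) (fun t => C (u t)) φ) =
        eval₂ (((aeval (R := ℚ) fun x : A × Fin (r + 1 + 1) => P x.1 x.2).toRingHom).comp
          (theta A M⁻¹).toRingHom) (Sum.elim ((M.map (algebraMap ℚ K)).mulVec a)
          ((M.map (algebraMap ℚ K)).mulVec b)) φ := by
      intro φ
      have e4 := MvPolynomial.hom_eval₂ φ (map (algebraMap ℚ F))
        ((aeval fun x : A × Fin (r + 1 + 1) =>
          ∑ i, algebraMap F K ((M⁻¹.map (algebraMap ℚ F)) i x.2) * P x.1 i :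
          MvPolynomial (A × Fin (r + 1 + 1)) F →ₐ[F] K) : MvPolynomial (A × Fin (r + 1 + 1)) F →+* K)
        (fun t => C (u t))
      refine e4.trans ?_
      congr 1
      · apply MvPolynomial.ringHom_ext
        · intro q
          rw [RingHom.comp_apply, map_C, RingHom.comp_apply]
          show (aeval _) (C (algebraMap ℚ F q)) = (aeval _) (theta A M⁻¹ (C q))
          rw [aeval_C, ← algebraMap_eq, AlgHom.commutes, AlgHom.commutes]
          rfl
        · rintro ⟨j, k⟩
          rw [RingHom.comp_apply, map_X, RingHom.comp_apply]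
          show (aeval _) (X (j, k)) = (aeval _) (theta A M⁻¹ (X (j, k)))
          rw [theta_X, aeval_X, map_sum]
          refine Finset.sum_congr rfl fun i _ => ?_
          rw [map_mul, aeval_X, aeval_C]
          rfl
      · funext t
        rw [← hu]
        show (aeval _) (C (u t)) = _
        rw [aeval_C]
    exact e3 G₀
  -- the coefficient of `c`
  have hcoeff : coeff c Q = aeval u g := by
    rw [hQ, hgdef, eval₂_eq, coeff_sum, map_sum]
    refine Finset.sum_congr rfl fun d _ => ?_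
    have e5 : ∏ i ∈ d.support, (C (u i) : MvPolynomial (A × Fin (r + 1 + 1)) F) ^ d i =
        C (∏ i ∈ d.support, u i ^ d i) := by
      rw [map_prod]
      refine Finset.prod_congr rfl fun i _ => ?_
      rw [C_pow]
    rw [e5, mul_comm, coeff_C_mul, coeff_map, aeval_monomial, mul_comm]
    rfl
  rw [hQ0, coeff_zero] at hcoeff
  have h8 : aeval (fun t => algebraMap F K (u t)) g = algebraMap F K (aeval u g) :=
    aeval_algebraMap_apply K u g
  rw [← hu, h8, ← hcoeff, map_zero]

end Pool.Agent.Lib.GGL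
end
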