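import Mathlib
import Pool.Agent.Lib.MP_8d161d_ag.Mg.G030

section

/-!
A counting lemma on algebraically independent families with dependent coordinates.
-/

open MvPolynomial Module

namespace Pool.Agent.Lib.GGL.CI

/-- After adjoining finitely many elements, on which some of the coordinates are algebraically
dependent modulo the free ones, the free coordinates of most groups remain algebraically
independent. -/
theorem exists_indep_subset {T ι : Type} [Fintype T] [Fintype ι] [DecidableEq ι]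
    (π : T → ι) (free : T → Prop) [DecidablePred free] {K : Type} [Field K]
    [CharZero K] {P : T → K} (hP : AlgebraicIndependent ℚ P) (X : Finset K)
    (hdep : ∀ t, ¬ free t → P t ∈ Algebra.adjoin ℚ ((X : Set K) ∪ P '' {t | free t})) :
    ∃ (A : Finset ι) (F : Subalgebra ℚ K),
      Fintype.card ι + Fintype.card T ≤ A.card + X.card + Fintype.card {t // free t} ∧
      (∀ x ∈ X, x ∈ F) ∧
      AlgebraicIndependent F (fun t : {t : T // free t ∧ π t ∈ A} => P t) := by
  classical
  let M := AlgebraicIndependent.matroid ℚ K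
  obtain ⟨X₀, hX₀⟩ := M.exists_isBasis (X : Set K) (Set.subset_univ _)
  have hX₀' := AlgebraicIndependent.matroid_isBasis_iff.mp hX₀
  have hSind : M.Indep (Set.range P) := by
    rw [AlgebraicIndependent.matroid_indep_iff]
    exact hP.to_subtype_range
  obtain ⟨J, hJ, hXJ⟩ := hX₀.indep.subset_isBasis_of_subset (X := X₀ ∪ P '' {t | free t})
    Set.subset_union_left (Set.subset_univ _)
  have hJind : AlgebraicIndepOn ℚ id J := AlgebraicIndependent.matroid_indep_iff.mp hJ.indep
  have hcard : (Set.range P).encard ≤ J.encard := by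
    rw [hJ.encard_eq_eRk]
    have h1 : Set.range P ⊆ M.closure (X₀ ∪ P '' {t | free t}) := by
      have h2 : M.closure (X₀ ∪ P '' {t | free t}) = M.closure ((X : Set K) ∪ P '' {t | free t}) := by
        rw [← M.closure_union_closure_left_eq, hX₀.closure_eq_closure,
          M.closure_union_closure_left_eq]
      rw [h2]
      rintro _ ⟨t, rfl⟩
      by_cases ht : free t
      · exact M.mem_closure_of_mem (Or.inr ⟨t, ht, rfl⟩) (Set.subset_univ _)
      · rw [AlgebraicIndependent.matroid_closure_eq]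
        exact isAlgebraic_algebraMap (⟨P t, hdep t ht⟩ :
          Algebra.adjoin ℚ ((X : Set K) ∪ P '' {t | free t}))
    rw [← M.eRk_closure_eq]
    exact hSind.encard_le_eRk_of_subset h1
  have hPinj : Function.Injective P := hP.injective
  -- the good indices
  obtain ⟨G, hG⟩ : ∃ G : Finset {t // free t}, G = Finset.univ.filter
    fun t : {t // free t} => P t.1 ∉ X₀ ∧ P t.1 ∈ J := ⟨_, rfl⟩
  have hX₀card : X₀.encard ≤ X.card := by
    rw [← Set.encard_coe_eq_coe_finsetCard]
    exact Set.encard_le_encard hX₀'.2.1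
  have hJsub : J ⊆ X₀ ∪ (fun t : {t // free t} => P t) '' (G : Set {t // free t}) := by
    intro x hx
    by_cases hx0 : x ∈ X₀
    · exact Or.inl hx0
    · right
      rcases hJ.subset hx with h | h
      · exact absurd h hx0
      · obtain ⟨t, ht, rfl⟩ := h
        exact ⟨⟨t, ht⟩, by rw [hG]; simp [hx0, hx], rfl⟩
  have hGcard : Fintype.card T ≤ X.card + G.card := by
    have h1 : ((Fintype.card T : ℕ) : ℕ∞) = (Set.range P).encard := by
      rw [← Set.image_univ, hPinj.encard_image, Set.encard_univ, ENat.card_eq_coe_fintype_card]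
    have h2 : ((Fintype.card T : ℕ) : ℕ∞) ≤ (X.card : ℕ∞) + (G.card : ℕ∞) := by
      rw [h1]
      calc (Set.range P).encard ≤ J.encard := hcard
        _ ≤ (X₀ ∪ (fun t : {t // free t} => P t) '' (G : Set {t // free t})).encard :=
          Set.encard_le_encard hJsub
        _ ≤ X₀.encard + ((fun t : {t // free t} => P t) '' (G : Set {t // free t})).encard :=
          Set.encard_union_le _ _
        _ ≤ X.card + G.card := by
          gcongr
          exact (Set.encard_image_le _ _).trans (Set.encard_coe_eq_coe_finsetCard G).le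
    exact_mod_cast h2
  obtain ⟨A, hA⟩ : ∃ A : Finset ι, A = Finset.univ.filter fun j =>
    ∀ t : {t // free t}, π t = j → t ∈ G := ⟨_, rfl⟩
  have hAmem : ∀ t : {t // free t}, π t ∈ A → P t ∉ X₀ ∧ P t ∈ J := by
    intro t ht
    rw [hA, Finset.mem_filter] at ht
    have := ht.2 t rfl
    rw [hG, Finset.mem_filter] at this
    exact this.2
  have hAcard : Fintype.card ι + Fintype.card T ≤ A.card + X.card + Fintype.card {t // free t} := by
    have h1 : Aᶜ ⊆ Gᶜ.image (fun t : {t // free t} => π t.1) := by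
      intro j hj
      rw [Finset.mem_compl, hA, Finset.mem_filter] at hj
      push Not at hj
      obtain ⟨t, ht, htG⟩ := hj (Finset.mem_univ _)
      rw [Finset.mem_image]
      exact ⟨t, Finset.mem_compl.mpr htG, ht⟩
    have h2 : Aᶜ.card ≤ Gᶜ.card := (Finset.card_le_card h1).trans Finset.card_image_le
    rw [Finset.card_compl, Finset.card_compl] at h2
    have h3 := Finset.card_le_univ A
    have h4 := Finset.card_le_univ G
    omega
  have hind : AlgebraicIndependent (Algebra.adjoin ℚ X₀)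
      (fun t : {t : T // free t ∧ π t ∈ A} => P t) := by
    have h1 := AlgebraicIndependent.adjoin_of_disjoint (x := fun i : J => (i : K)) hJind
      (s := {i : J | (i : K) ∈ X₀}) (t := {i : J | (i : K) ∉ X₀}) (by
        rw [Set.disjoint_left]
        intro i h1 h2
        exact h2 h1)
    have h2 : (fun i : J => (i : K)) '' {i : J | (i : K) ∈ X₀} = X₀ := by
      ext x
      constructor
      · rintro ⟨i, hi, rfl⟩
        exact hi
      · intro hx
        exact ⟨⟨x, hXJ hx⟩, hx, rfl⟩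
    rw [h2] at h1
    exact h1.comp (fun t : {t : T // free t ∧ π t ∈ A} =>
      ⟨⟨P t, (hAmem ⟨t, t.2.1⟩ t.2.2).2⟩, (hAmem ⟨t, t.2.1⟩ t.2.2).1⟩) (by
        rintro t t' h
        have h3 : P t = P t' := congrArg (fun t => (t.1 : K)) h
        exact Subtype.ext (hPinj h3))
  refine ⟨A, (Subalgebra.algebraicClosure (Algebra.adjoin ℚ X₀) K).restrictScalars ℚ, hAcard,
    ?_, ?_⟩
  · intro x hx
    exact hX₀'.2.2 x hx
  · exact hind.subalgebraAlgebraicClosure

end Pool.Agent.Lib.GGL.CI
end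

section

/-!
Regular elements and prime ideals by means of translations.

A translation of a commutative ring `Q` is a ring homomorphism `τ : Q → Q[T]` with constant term
the identity.
-/

open Polynomial

namespace Pool.Agent.Lib.GGL.CI

universe u

variable {Q : Type u} [CommRing Q]

/-- saturation of an ideal with respect to an element -/
def sat (u : Q) (I : Ideal Q) : Ideal Q where
  carrier := {q | ∃ L : ℕ, u ^ L * q ∈ I}
  add_mem' := by
    rintro p q ⟨L, hp⟩ ⟨M, hq⟩
    refine ⟨L + M, ?_⟩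
    have h1 : u ^ (L + M) * (p + q) = u ^ M * (u ^ L * p) + u ^ L * (u ^ M * q) := by ring
    rw [h1]
    exact I.add_mem (I.mul_mem_left _ hp) (I.mul_mem_left _ hq)
  zero_mem' := ⟨0, by simp⟩
  smul_mem' := by
    rintro c q ⟨L, hq⟩
    refine ⟨L, ?_⟩
    have h1 : u ^ L * (c • q) = c * (u ^ L * q) := by rw [smul_eq_mul]; ring
    rw [h1]
    exact I.mul_mem_left _ hq

lemma mem_sat {u : Q} {I : Ideal Q} {q : Q} : q ∈ sat u I ↔ ∃ L : ℕ, u ^ L * q ∈ I := Iff.rfl

lemma le_sat (u : Q) (I : Ideal Q) : I ≤ sat u I := fun q hq => ⟨0, by simpa using hq⟩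

lemma sat_mono {u : Q} {I J : Ideal Q} (h : I ≤ J) : sat u I ≤ sat u J := by
  rintro q ⟨L, hq⟩
  exact ⟨L, h hq⟩

lemma sat_le_sat_iff {u : Q} {I J : Ideal Q} (h : I ≤ sat u J) : sat u I ≤ sat u J := by
  rintro q ⟨L, hq⟩
  obtain ⟨M, hM⟩ := h hq
  refine ⟨M + L, ?_⟩
  rw [pow_add, mul_assoc]
  exact hM

lemma sat_sat (u : Q) (I : Ideal Q) : sat u (sat u I) = sat u I :=
  le_antisymm (sat_le_sat_iff le_rfl) (le_sat _ _)

lemma pow_mul_mem_sat {u : Q} {I : Ideal Q} {q : Q} {k : ℕ} (h : u ^ k * q ∈ sat u I) :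
    q ∈ sat u I := by
  obtain ⟨M, hM⟩ := h
  exact ⟨M + k, by rw [pow_add, mul_assoc]; exact hM⟩

lemma mul_mem_sat {u : Q} {I : Ideal Q} {q : Q} (h : u * q ∈ sat u I) :
    q ∈ sat u I := pow_mul_mem_sat (k := 1) (by rwa [pow_one])

lemma sat_one (I : Ideal Q) : sat 1 I = I := by
  ext q
  constructor
  · rintro ⟨L, hq⟩
    simpa using hq
  · intro hq
    exact ⟨0, by simpa using hq⟩

/-- a finitely generated (here: finite) family of elements of the saturation: uniform exponent -/
lemma exists_uniform {ι : Type*} (s : Finset ι) {u : Q} {I : Ideal Q} {f : ι → Q}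
    (h : ∀ i ∈ s, f i ∈ sat u I) : ∃ L : ℕ, ∀ i ∈ s, u ^ L * f i ∈ I := by
  classical
  induction s using Finset.induction_on with
  | empty => exact ⟨0, by simp⟩
  | insert a s ha ih =>
    obtain ⟨L, hL⟩ := ih fun i hi => h i (Finset.mem_insert_of_mem hi)
    obtain ⟨M, hM⟩ := h a (Finset.mem_insert_self _ _)
    refine ⟨L + M, ?_⟩
    intro i hi
    rcases Finset.mem_insert.mp hi with rfl | hi
    · rw [pow_add, mul_assoc]
      exact I.mul_mem_left _ hM
    · rw [add_comm, pow_add, mul_assoc]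
      exact I.mul_mem_left _ (hL i hi)

/-- stability of an ideal under a translation -/
def Stable (τ : Q →+* Q[X]) (I : Ideal Q) : Prop := ∀ q ∈ I, ∀ k, (τ q).coeff k ∈ I

lemma Stable.map_mem {τ : Q →+* Q[X]} {I : Ideal Q} (h : Stable τ I) {q : Q} (hq : q ∈ I) :
    τ q ∈ I.map C := by
  rw [Ideal.mem_map_C_iff]
  exact h q hq

lemma stable_iff {τ : Q →+* Q[X]} {I : Ideal Q} : Stable τ I ↔ I ≤ (I.map C).comap τ := by
  constructor
  · intro h q hq
    exact h.map_mem hq
  · intro h q hq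
    have h1 : τ q ∈ I.map C := h hq
    rwa [Ideal.mem_map_C_iff] at h1

lemma stable_span {τ : Q →+* Q[X]} {s : Set Q} (h : ∀ q ∈ s, τ q ∈ (Ideal.span s).map C) :
    Stable τ (Ideal.span s) := by
  rw [stable_iff, Ideal.span_le]
  intro q hq
  exact h q hq

lemma Stable.sup {τ : Q →+* Q[X]} {I J : Ideal Q} (hI : Stable τ I) (hJ : Stable τ J) :
    Stable τ (I ⊔ J) := by
  rw [stable_iff] at hI hJ ⊢
  rw [sup_le_iff]
  constructor
  · exact hI.trans (Ideal.comap_mono (Ideal.map_mono le_sup_left))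
  · exact hJ.trans (Ideal.comap_mono (Ideal.map_mono le_sup_right))

lemma stable_bot {τ : Q →+* Q[X]} : Stable τ ⊥ := by
  intro q hq k
  rw [Ideal.mem_bot] at hq
  rw [hq, map_zero, coeff_zero]
  exact Ideal.zero_mem _

lemma Stable.sat {τ : Q →+* Q[X]} {I : Ideal Q} (hI : Stable τ I) {u : Q} (hu : τ u = C u) :
    Stable τ (sat u I) := by
  rintro q ⟨L, hq⟩ k
  refine ⟨L, ?_⟩
  have h1 := hI _ hq k
  rw [map_mul, map_pow, hu, ← C_pow, coeff_C_mul] at h1
  exact h1

/-- regularity modulo an ideal -/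
def Nzd (f : Q) (I : Ideal Q) : Prop := ∀ q, f * q ∈ I → q ∈ I

lemma Nzd.pow {f : Q} {I : Ideal Q} (h : Nzd f I) (n : ℕ) : Nzd (f ^ n) I := by
  induction n with
  | zero => intro q hq; simpa using hq
  | succ n ih =>
    intro q hq
    rw [pow_succ, mul_assoc] at hq
    exact h q (ih _ hq)

lemma Nzd.mul {f g : Q} {I : Ideal Q} (hf : Nzd f I) (hg : Nzd g I) : Nzd (f * g) I := by
  intro q hq
  rw [mul_assoc] at hq
  exact hg q (hf _ hq)

lemma Nzd.of_mul {f g : Q} {I : Ideal Q} (h : Nzd (f * g) I) : Nzd g I := by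
  intro q hq
  apply h
  rw [mul_assoc]
  exact I.mul_mem_left _ hq

lemma nzd_self_sat (u : Q) (I : Ideal Q) : Nzd u (sat u I) := fun _ hq => mul_mem_sat hq

lemma Nzd.sat {f u : Q} {I : Ideal Q} (h : Nzd f I) : Nzd f (sat u I) := by
  rintro q ⟨L, hq⟩
  refine ⟨L, h _ ?_⟩
  have h1 : f * (u ^ L * q) = u ^ L * (f * q) := by ring
  rw [h1]
  exact hq

/-- An element that is translated by `b T` is regular if `b` is. -/
lemma nzd_of_translation {I : Ideal Q} {τ : Q →+* Q[X]} (h0 : ∀ q, (τ q).coeff 0 = q)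
    (hI : Stable τ I) {f b : Q} (hf : τ f = C f + X * C b) (hb : Nzd b I) : Nzd f I := by
  intro q hq
  have h1 : ∀ k, f * (τ q).coeff (k + 1) + b * (τ q).coeff k ∈ I := by
    intro k
    have h2 := hI _ hq (k + 1)
    rw [map_mul, hf, add_mul, coeff_add, coeff_C_mul, mul_assoc, coeff_X_mul, coeff_C_mul] at h2
    exact h2
  have h3 : ∀ j k, (τ q).natDegree + 1 ≤ k + j → (τ q).coeff k ∈ I := by
    intro j
    induction j with
    | zero =>
      intro k hk
      rw [coeff_eq_zero_of_natDegree_lt (by omega)]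
      exact I.zero_mem
    | succ j ih =>
      intro k hk
      apply hb
      have h4 := ih (k + 1) (by omega)
      have h5 := I.sub_mem (h1 k) (I.mul_mem_left f h4)
      rwa [add_sub_cancel_left] at h5
  have h4 := h3 ((τ q).natDegree + 1) 0 (by omega)
  rwa [h0] at h4

lemma exists_field_hom {I : Ideal Q} (hp : I.IsPrime) :
    ∃ (K : Type u) (_ : Field K) (π : Q →+* K), ∀ q, π q = 0 ↔ q ∈ I := by
  have : I.IsPrime := hp
  refine ⟨FractionRing (Q ⧸ I), inferInstance,
    (algebraMap (Q ⧸ I) (FractionRing (Q ⧸ I))).comp (Ideal.Quotient.mk I), ?_⟩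
  intro q
  rw [RingHom.comp_apply, ← Ideal.Quotient.eq_zero_iff_mem]
  exact IsFractionRing.to_map_eq_zero_iff

/-- The ideal obtained from a prime ideal by adding an element translated by `b T` and saturating
by `b` is prime. -/
lemma prime_of_translation {I : Ideal Q} (hp : I.IsPrime) {τ : Q →+* Q[X]}
    (h0 : ∀ q, (τ q).coeff 0 = q) (hI : Stable τ I) {f b : Q} (hf : τ f = C f + X * C b)
    (hτb : τ b = C b) (hb : b ∉ I) : (sat b (I ⊔ Ideal.span {f})).IsPrime := by
  obtain ⟨K, _, π, hπ⟩ := exists_field_hom hp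
  have hb0 : π b ≠ 0 := by
    rw [Ne, hπ]; exact hb
  let θ : Q →+* K := (eval₂RingHom π (-(π f / π b))).comp τ
  have hθ : ∀ q, θ q = eval₂ π (-(π f / π b)) (τ q) := fun q => rfl
  have hθf : θ f = 0 := by
    rw [hθ, hf, eval₂_add, eval₂_C, eval₂_mul, eval₂_X, eval₂_C]
    field_simp
    ring
  have hθb : θ b = π b := by rw [hθ, hτb, eval₂_C]
  have hθI : ∀ q ∈ I, θ q = 0 := by
    intro q hq
    rw [hθ, eval₂_eq_sum, Polynomial.sum]
    refine Finset.sum_eq_zero fun k _ => ?_
    rw [(hπ _).mpr (hI q hq k), zero_mul]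
  have hker : sat b (I ⊔ Ideal.span {f}) = RingHom.ker θ := by
    ext q
    rw [RingHom.mem_ker]
    constructor
    · rintro ⟨L, hq⟩
      obtain ⟨i, hi, y, hy, hiy⟩ := Submodule.mem_sup.mp hq
      obtain ⟨a, rfl⟩ := Ideal.mem_span_singleton'.mp hy
      have h1 : θ (b ^ L * q) = 0 := by
        rw [← hiy, map_add, map_mul, hθI i hi, hθf, mul_zero, add_zero]
      rw [map_mul, map_pow, hθb] at h1
      exact (mul_eq_zero.mp h1).resolve_left (pow_ne_zero _ hb0)
    · intro hq
      obtain ⟨m, hm⟩ : ∃ m, m = (τ q).natDegree := ⟨_, rfl⟩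
      have h1 : (∑ k ∈ Finset.range (m + 1), (τ q).coeff k * (-f) ^ k * b ^ (m - k)) ∈ I := by
        rw [← hπ, map_sum]
        have h2 : π b ^ m * θ q = 0 := by rw [hq, mul_zero]
        rw [hθ, eval₂_eq_sum_range, ← hm, Finset.mul_sum] at h2
        rw [← h2]
        refine Finset.sum_congr rfl fun k hk => ?_
        rw [Finset.mem_range] at hk
        rw [map_mul, map_mul, map_pow, map_pow, map_neg]
        have h3 : π b ^ m = π b ^ (m - k) * π b ^ k := by
          rw [← pow_add]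
          congr 1
          omega
        rw [h3, neg_div', div_pow]
        field_simp
      refine ⟨m, ?_⟩
      rw [Finset.sum_range_succ', pow_zero, mul_one, h0, Nat.sub_zero] at h1
      have h4 : (∑ k ∈ Finset.range m, (τ q).coeff (k + 1) * (-f) ^ (k + 1) * b ^ (m - (k + 1))) ∈
          Ideal.span {f} := by
        apply Ideal.sum_mem
        intro k _
        have : (τ q).coeff (k + 1) * (-f) ^ (k + 1) * b ^ (m - (k + 1)) =
            (-((τ q).coeff (k + 1) * (-f) ^ k * b ^ (m - (k + 1)))) * f := by ring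
        rw [this]
        exact Ideal.mul_mem_left _ _ (Ideal.mem_span_singleton_self f)
      have h5 : _ ∈ I ⊔ Ideal.span {f} := Ideal.sub_mem _ (Ideal.mem_sup_left h1)
        (Ideal.mem_sup_right h4)
      rw [add_sub_cancel_left, mul_comm] at h5
      exact h5
  rw [hker]
  exact RingHom.ker_isPrime θ

/-- Adding one regular element to an ideal keeps the sequence `r` regular (up to saturation). -/
lemma grade_step {u : Q} {r : ℕ → Q} {I : Ideal Q} {f : Q} {m m' : ℕ} (hm : m' ≤ m)
    (h : ∀ s < m, Nzd (r s) (sat u (I ⊔ Ideal.span (r '' Set.Iio s))))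
    (hf : ∀ s < m', Nzd f (sat u (I ⊔ Ideal.span (r '' Set.Iio (s + 1))))) :
    ∀ s < m', Nzd (r s) (sat u ((I ⊔ Ideal.span {f}) ⊔ Ideal.span (r '' Set.Iio s))) := by
  intro s hs q hq
  obtain ⟨L, hL⟩ := hq
  have e1 : (I ⊔ Ideal.span {f}) ⊔ Ideal.span (r '' Set.Iio s) =
      (I ⊔ Ideal.span (r '' Set.Iio s)) ⊔ Ideal.span {f} := by
    rw [sup_assoc, sup_comm (Ideal.span {f}), ← sup_assoc]
  have e2 : I ⊔ Ideal.span (r '' Set.Iio (s + 1)) =
      (I ⊔ Ideal.span (r '' Set.Iio s)) ⊔ Ideal.span {r s} := by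
    have : Set.Iio (s + 1) = Set.Iio s ∪ {s} := by
      ext t
      simp only [Set.mem_Iio, Set.mem_union, Set.mem_singleton_iff]
      omega
    rw [this, Set.image_union, Set.image_singleton, Ideal.span_union, ← sup_assoc]
  obtain ⟨J, hJ⟩ : ∃ J, J = I ⊔ Ideal.span (r '' Set.Iio s) := ⟨_, rfl⟩
  have hr := h s (by omega)
  have hfs := hf s hs
  rw [e1, ← hJ] at hL ⊢
  rw [e2, ← hJ] at hfs
  rw [← hJ] at hr
  obtain ⟨i, hi, y, hy, hiy⟩ := Submodule.mem_sup.mp hL
  obtain ⟨a, rfl⟩ := Ideal.mem_span_singleton'.mp hy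
  have h1 : f * a ∈ sat u (J ⊔ Ideal.span {r s}) := by
    apply le_sat
    have h2 : f * a = -i + (u ^ L * q) * r s := by linear_combination hiy
    rw [h2]
    exact Ideal.add_mem _ (Ideal.mem_sup_left (J.neg_mem hi))
      (Ideal.mem_sup_right (Ideal.mul_mem_left _ _ (Ideal.mem_span_singleton_self _)))
  obtain ⟨L', h2⟩ := hfs _ h1
  obtain ⟨i', hi', y', hy', hiy'⟩ := Submodule.mem_sup.mp h2
  obtain ⟨k, rfl⟩ := Ideal.mem_span_singleton'.mp hy'
  have h3 : r s * (u ^ (L + L') * q - f * k) ∈ sat u J := by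
    apply le_sat
    have h4 : r s * (u ^ (L + L') * q - f * k) = u ^ L' * i + f * i' := by
      rw [pow_add]
      linear_combination (-(u ^ L')) * hiy - f * hiy'
    rw [h4]
    exact J.add_mem (J.mul_mem_left _ hi) (J.mul_mem_left _ hi')
  obtain ⟨L'', h5⟩ := hr _ h3
  refine ⟨L'' + (L + L'), ?_⟩
  have h6 : u ^ (L'' + (L + L')) * q = u ^ L'' * (u ^ (L + L') * q - f * k) + (u ^ L'' * k) * f := by
    rw [pow_add u L'']
    ring
  rw [h6]
  exact Ideal.add_mem _ (Ideal.mem_sup_left h5)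
    (Ideal.mem_sup_right (Ideal.mul_mem_left _ _ (Ideal.mem_span_singleton_self _)))

end Pool.Agent.Lib.GGL.CI
end

section

/-!
Bihomogeneous ideals and the functions of given bidegree, with poles on `x = 0` only, on the
closed subvarieties of the space of the `(x, v)`.
-/

open MvPolynomial

namespace Pool.Agent.Lib.GGL.CI

/-- the bidegree of the variables, with values in `ℤ × ℤ` -/
def wtZ (N : ℕ) : Fin N ⊕ Fin N → ℤ × ℤ := Sum.elim (fun _ => (1, 0)) (fun _ => (0, 1))

section comp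

variable {N : ℕ} {R : Type*} [CommRing R]

/-- Bihomogeneity -/
abbrev IsBZ (φ : MvPolynomial (Fin N ⊕ Fin N) R) (a b : ℤ) : Prop :=
  φ.IsWeightedHomogeneous (wtZ N) (a, b)

lemma weight_wtZ (m : Fin N ⊕ Fin N →₀ ℕ) :
    Finsupp.weight (wtZ N) m =
      (((Finsupp.weight (wt N) m).1 : ℤ), ((Finsupp.weight (wt N) m).2 : ℤ)) := by
  rw [Finsupp.weight_apply, Finsupp.weight_apply, Finsupp.sum, Finsupp.sum, Prod.fst_sum,
    Prod.snd_sum, Nat.cast_sum, Nat.cast_sum]
  ext
  · rw [Prod.fst_sum]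
    refine Finset.sum_congr rfl fun i _ => ?_
    rcases i with i | i <;> simp [wt, wtZ]
  · rw [Prod.snd_sum]
    refine Finset.sum_congr rfl fun i _ => ?_
    rcases i with i | i <;> simp [wt, wtZ]

lemma isBZ_iff {φ : MvPolynomial (Fin N ⊕ Fin N) R} {a b : ℕ} :
    IsBZ φ a b ↔ IsBi φ a b := by
  constructor
  · intro h m hm
    have h1 := h hm
    rw [weight_wtZ] at h1
    have h2 := congrArg Prod.fst h1
    have h3 := congrArg Prod.snd h1
    simp only at h2 h3
    ext
    · exact_mod_cast h2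
    · exact_mod_cast h3
  · intro h m hm
    have h1 := h hm
    rw [weight_wtZ, h1]

lemma IsBZ.nonneg {φ : MvPolynomial (Fin N ⊕ Fin N) R} {a b : ℤ} (h : IsBZ φ a b) (h0 : φ ≠ 0) :
    0 ≤ a ∧ 0 ≤ b := by
  obtain ⟨m, hm⟩ := MvPolynomial.ne_zero_iff.mp h0
  have h1 := h hm
  rw [weight_wtZ] at h1
  have h2 := congrArg Prod.fst h1
  have h3 := congrArg Prod.snd h1
  simp only at h2 h3
  omega

lemma IsBZ.exists_nat {φ : MvPolynomial (Fin N ⊕ Fin N) R} {a b : ℤ} (h : IsBZ φ a b)
    (h0 : φ ≠ 0) : ∃ a' b' : ℕ, a = a' ∧ b = b' ∧ IsBi φ a' b' := by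
  obtain ⟨ha, hb⟩ := h.nonneg h0
  obtain ⟨a', rfl⟩ := Int.eq_ofNat_of_zero_le ha
  obtain ⟨b', rfl⟩ := Int.eq_ofNat_of_zero_le hb
  exact ⟨a', b', rfl, rfl, isBZ_iff.mp h⟩

lemma IsBZ.mul {φ ψ : MvPolynomial (Fin N ⊕ Fin N) R} {a b a' b' : ℤ} (h : IsBZ φ a b)
    (h' : IsBZ ψ a' b') : IsBZ (φ * ψ) (a + a') (b + b') :=
  IsWeightedHomogeneous.mul h h'

lemma isBZ_X_pow (j : Fin N) (L : ℕ) :
    IsBZ ((X (Sum.inl j) : MvPolynomial (Fin N ⊕ Fin N) R) ^ L) L 0 := by
  have h1 := IsWeightedHomogeneous.pow (isWeightedHomogeneous_X R (wtZ N) (Sum.inl j)) L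
  have h2 : L • (wtZ N (Sum.inl j)) = ((L : ℤ), (0 : ℤ)) := by
    simp [wtZ]
  rwa [h2] at h1

lemma isBZ_congr {φ : MvPolynomial (Fin N ⊕ Fin N) R} {a b a' b' : ℤ} (h : IsBZ φ a b)
    (ha : a = a') (hb : b = b') : IsBZ φ a' b' := by
  subst ha; subst hb; exact h

/-- the component of a product with a homogeneous polynomial -/
lemma comp_mul {σ M : Type*} [AddCommGroup M] {w : σ → M} {G : MvPolynomial σ R} {g : M}
    (hG : IsWeightedHomogeneous w G g) (m : M) (q : MvPolynomial σ R) :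
    weightedHomogeneousComponent w m (G * q) = G * weightedHomogeneousComponent w (m - g) q := by
  classical
  induction q using MvPolynomial.induction_on' with
  | monomial s r =>
    have h1 : IsWeightedHomogeneous w (monomial s r) (Finsupp.weight w s) :=
      isWeightedHomogeneous_monomial w s r rfl
    have h2 := hG.mul h1
    by_cases h : m = g + Finsupp.weight w s
    · rw [h, h2.weightedHomogeneousComponent_same, add_sub_cancel_left,
        h1.weightedHomogeneousComponent_same]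
    · rw [h2.weightedHomogeneousComponent_ne _ h,
        h1.weightedHomogeneousComponent_ne, mul_zero]
      intro h'
      exact h (by rw [← h']; abel)
  | add p q hp hq =>
    rw [mul_add, map_add, hp, hq, map_add, mul_add]

/-- ideals containing the bihomogeneous components of their elements -/
def BiCl (I : Ideal (MvPolynomial (Fin N ⊕ Fin N) R)) : Prop :=
  ∀ q ∈ I, ∀ m : ℤ × ℤ, weightedHomogeneousComponent (wtZ N) m q ∈ I

lemma biCl_bot : BiCl (⊥ : Ideal (MvPolynomial (Fin N ⊕ Fin N) R)) := by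
  intro q hq m
  rw [Ideal.mem_bot] at hq
  rw [hq, map_zero]
  exact Ideal.zero_mem _

lemma BiCl.sup {I J : Ideal (MvPolynomial (Fin N ⊕ Fin N) R)} (hI : BiCl I) (hJ : BiCl J) :
    BiCl (I ⊔ J) := by
  intro q hq m
  obtain ⟨a, ha, b, hb, rfl⟩ := Submodule.mem_sup.mp hq
  rw [map_add]
  exact Ideal.add_mem _ (Ideal.mem_sup_left (hI a ha m)) (Ideal.mem_sup_right (hJ b hb m))

lemma biCl_span {s : Set (MvPolynomial (Fin N ⊕ Fin N) R)} (h : ∀ q ∈ s, ∃ a b, IsBZ q a b) :
    BiCl (Ideal.span s) := by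
  intro q hq
  induction hq using Submodule.span_induction with
  | mem x hx =>
    intro m
    obtain ⟨a, b, hab⟩ := h x hx
    have h1 := comp_mul hab m 1
    rw [mul_one] at h1
    rw [h1]
    exact Ideal.mul_mem_right _ _ (Ideal.subset_span hx)
  | zero => intro m; rw [map_zero]; exact Ideal.zero_mem _
  | add x y _ _ hx hy => intro m; rw [map_add]; exact Ideal.add_mem _ (hx m) (hy m)
  | smul c x _ hx =>
    intro m
    rw [smul_eq_mul]
    induction c using MvPolynomial.induction_on' with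
    | monomial s r =>
      rw [comp_mul (isWeightedHomogeneous_monomial (wtZ N) s r rfl)]
      exact Ideal.mul_mem_left _ _ (hx _)
    | add p q hp hq =>
      rw [add_mul, map_add]
      exact Ideal.add_mem _ hp hq

lemma BiCl.sat {I : Ideal (MvPolynomial (Fin N ⊕ Fin N) R)} (hI : BiCl I) (j : Fin N) :
    BiCl (sat (X (Sum.inl j)) I) := by
  rintro q ⟨L, hL⟩ m
  refine ⟨L, ?_⟩
  have h1 := hI _ hL (m + ((L : ℤ), 0))
  rwa [comp_mul (isBZ_X_pow j L), add_sub_cancel_right] at h1

/-- a homogeneous relation -/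
lemma exists_homogeneous {I : Ideal (MvPolynomial (Fin N ⊕ Fin N) R)} (hI : BiCl I)
    {P G : MvPolynomial (Fin N ⊕ Fin N) R} {a b p q : ℤ} (hP : IsBZ P a b) (hG : IsBZ G p q)
    (h : P ∈ I ⊔ Ideal.span {G}) : ∃ Q, IsBZ Q (a - p) (b - q) ∧ P - G * Q ∈ I := by
  obtain ⟨i, hi, y, hy, hiy⟩ := Submodule.mem_sup.mp h
  obtain ⟨c, rfl⟩ := Ideal.mem_span_singleton.mp hy
  refine ⟨weightedHomogeneousComponent (wtZ N) ((a, b) - (p, q)) c,
    weightedHomogeneousComponent_isWeightedHomogeneous _ _, ?_⟩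
  have h1 : weightedHomogeneousComponent (wtZ N) (a, b) P = P :=
    hP.weightedHomogeneousComponent_same
  have h2 : P - G * weightedHomogeneousComponent (wtZ N) ((a, b) - (p, q)) c =
      weightedHomogeneousComponent (wtZ N) (a, b) i := by
    conv_lhs => rw [← h1, ← hiy, map_add, comp_mul hG]
    ring
  rw [h2]
  exact hI i hi _

end comp

end Pool.Agent.Lib.GGL.CI
end

section

/-!
Universal forms, their translations, and the regularity and primality properties of the ideals
they generate.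
-/

open MvPolynomial

namespace Pool.Agent.Lib.GGL.CI

/-- the exponents of degree `k` -/
abbrev Mon (N k : ℕ) : Type := {μ : Fin N →₀ ℕ // μ.degree = k}

instance instFiniteMon (N k : ℕ) : Finite (Mon N k) :=
  Set.Finite.to_subtype (Finsupp.finite_of_degree_eq k)

noncomputable instance instFintypeMon (N k : ℕ) : Fintype (Mon N k) := Fintype.ofFinite _

/-- the coefficients of the universal forms of degrees `d i` -/
abbrev Coef (N : ℕ) {ι : Type} (d : ι → ℕ) : Type := Σ i : ι, Mon N (d i)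

/-- the universal ring -/
abbrev UR (N : ℕ) {ι : Type} (d : ι → ℕ) : Type :=
  MvPolynomial (Fin N ⊕ Fin N) (MvPolynomial (Coef N d) ℚ)

section mono

variable {N : ℕ} {R : Type*} [CommRing R]

/-- the monomial `x^μ` -/
noncomputable def xm (R : Type*) [CommRing R] (μ : Fin N →₀ ℕ) :
    MvPolynomial (Fin N ⊕ Fin N) R := μ.prod fun j e => X (Sum.inl j) ^ e

lemma xm_single (j : Fin N) (k : ℕ) : xm R (Finsupp.single j k) = X (Sum.inl j) ^ k := by
  rw [xm, Finsupp.prod_single_index]
  exact pow_zero _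

lemma xm_add (μ ν : Fin N →₀ ℕ) : xm R (μ + ν) = xm R μ * xm R ν := by
  rw [xm, xm, xm, Finsupp.prod_add_index']
  · intro j; exact pow_zero _
  · intro j a b; exact pow_add _ _ _

lemma xm_zero : xm R (0 : Fin N →₀ ℕ) = 1 := by
  rw [xm, Finsupp.prod_zero_index]

lemma map_xm {S : Type*} [CommRing S] (f : R →+* S) (μ : Fin N →₀ ℕ) :
    map f (xm R μ) = xm S μ := by
  rw [xm, xm, Finsupp.prod, Finsupp.prod, map_prod]
  refine Finset.prod_congr rfl fun j _ => ?_
  rw [map_pow, map_X]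

lemma xm_isBi (μ : Fin N →₀ ℕ) : IsBi (xm R μ) μ.degree 0 := by
  rw [xm, Finsupp.prod]
  have h1 : IsWeightedHomogeneous (wt N) (∏ j ∈ μ.support, (X (Sum.inl j) :
      MvPolynomial (Fin N ⊕ Fin N) R) ^ μ j) (∑ j ∈ μ.support, μ j • ((1, 0) : ℕ × ℕ)) := by
    apply IsWeightedHomogeneous.prod
    intro j _
    exact IsWeightedHomogeneous.pow (isWeightedHomogeneous_X R (wt N) (Sum.inl j)) _
  have h2 : ∑ j ∈ μ.support, μ j • ((1, 0) : ℕ × ℕ) = (μ.degree, 0) := by
    rw [← Finset.sum_smul]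
    show (∑ j ∈ μ.support, μ j) • ((1, 0) : ℕ × ℕ) = (∑ j ∈ μ.support, μ j, 0)
    simp
  rwa [h2] at h1

lemma eval_xm (μ : Fin N →₀ ℕ) (x v : Fin N → R) :
    eval (Sum.elim x v) (xm R μ) = μ.prod fun j e => x j ^ e := by
  rw [xm, Finsupp.prod, Finsupp.prod, map_prod]
  refine Finset.prod_congr rfl fun j _ => ?_
  rw [map_pow, eval_X, Sum.elim_inl]

lemma Dp_xm (μ : Fin N →₀ ℕ) : Dp (xm R μ) = 0 := by
  rw [xm, Finsupp.prod]
  induction μ.support using Finset.induction_on with
  | empty => simp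
  | insert a s ha ih =>
    rw [Finset.prod_insert ha, Derivation.leibniz, ih, Derivation.leibniz_pow, Dp_inl]
    simp

end mono

/-! ### the universal forms -/

section forms

variable {N : ℕ} {ι : Type} (d : ι → ℕ)

/-- the coefficient of `x^μ` in the `i`-th universal form -/
noncomputable abbrev cf (i : ι) (μ : Mon N (d i)) : MvPolynomial (Coef N d) ℚ := X ⟨i, μ⟩

/-- the universal form -/
noncomputable def gU (i : ι) : UR N d := ∑ μ : Mon N (d i), C (cf d i μ) * xm _ μ.1

/-- the differential of the universal form -/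
noncomputable def dgU (i : ι) : UR N d := ∑ μ : Mon N (d i), C (cf d i μ) * Dm (xm _ μ.1)

lemma Dm_C_mul {R : Type*} [CommRing R] (r : R) (φ : MvPolynomial (Fin N ⊕ Fin N) R) :
    Dm (C r * φ) = C r * Dm φ := by
  rw [← smul_eq_C_mul, ← smul_eq_C_mul, Derivation.map_smul]

lemma Dp_C_mul {R : Type*} [CommRing R] (r : R) (φ : MvPolynomial (Fin N ⊕ Fin N) R) :
    Dp (C r * φ) = C r * Dp φ := by
  rw [← smul_eq_C_mul, ← smul_eq_C_mul, Derivation.map_smul]

lemma dgU_eq (i : ι) : dgU (N := N) d i = Dm (gU d i) := by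
  rw [gU, map_sum, dgU]
  exact Finset.sum_congr rfl fun μ _ => (Dm_C_mul _ _).symm

lemma Dp_gU (i : ι) : Dp (gU (N := N) d i) = 0 := by
  rw [gU, map_sum]
  refine Finset.sum_eq_zero fun μ _ => ?_
  rw [Dp_C_mul, Dp_xm, mul_zero]

lemma gU_isBi (i : ι) : IsBi (gU (N := N) d i) (d i) 0 := by
  apply IsWeightedHomogeneous.sum
  intro μ _
  have h1 := xm_isBi (R := MvPolynomial (Coef N d) ℚ) μ.1
  rw [μ.2] at h1
  have h2 := (isWeightedHomogeneous_C (wt N) (cf d i μ : MvPolynomial (Coef N d) ℚ)).mul h1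
  rwa [zero_add] at h2

lemma dgU_isBi {i : ι} {e : ℕ} (h : d i = e + 1) : IsBi (dgU (N := N) d i) e 1 := by
  rw [dgU_eq]
  apply IsBi.Dm
  rw [← h]
  exact gU_isBi d i

lemma Dp_dgU (i : ι) : Dp (dgU (N := N) d i) = (d i : UR N d) * gU d i := by
  have h1 := commutator (gU (N := N) d i)
  rw [Dp_gU, map_zero, sub_zero, (gU_isBi d i).euler_fst, (gU_isBi d i).euler_snd, ← dgU_eq,
    Nat.cast_zero, zero_mul, sub_zero] at h1
  exact h1

end forms

/-! ### translations of the universal ring -/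

section trans

variable {N : ℕ} {ι : Type} {d : ι → ℕ}

/-- the translation with the given increments -/
noncomputable def tr (a : Coef N d → UR N d) (e : Fin N ⊕ Fin N → UR N d) :
    UR N d →+* Polynomial (UR N d) :=
  eval₂Hom ((aeval (R := ℚ) fun m : Coef N d => Polynomial.C (C (X m) : UR N d) +
    Polynomial.X * Polynomial.C (a m) : MvPolynomial (Coef N d) ℚ →ₐ[ℚ] Polynomial (UR N d)) :
    MvPolynomial (Coef N d) ℚ →+* Polynomial (UR N d))
    (fun t => Polynomial.C (X t) + Polynomial.X * Polynomial.C (e t))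

lemma tr_X (a : Coef N d → UR N d) (e : Fin N ⊕ Fin N → UR N d) (t : Fin N ⊕ Fin N) :
    tr a e (X t) = Polynomial.C (X t) + Polynomial.X * Polynomial.C (e t) := by
  rw [tr, coe_eval₂Hom, eval₂_X]

lemma tr_C (a : Coef N d → UR N d) (e : Fin N ⊕ Fin N → UR N d) (m : Coef N d) :
    tr a e (C (X m)) = Polynomial.C (C (X m)) + Polynomial.X * Polynomial.C (a m) := by
  rw [tr, coe_eval₂Hom, eval₂_C]
  exact aeval_X _ _

lemma ratHom_ext {A : Type*} [Semiring A] (f g : ℚ →+* A) (q : ℚ) : f q = g q :=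
  RingHom.congr_fun (Subsingleton.elim f g) q

lemma tr_coeff_zero (a : Coef N d → UR N d) (e : Fin N ⊕ Fin N → UR N d) (q : UR N d) :
    (tr a e q).coeff 0 = q := by
  have h : (Polynomial.constantCoeff.comp (tr a e)) = RingHom.id (UR N d) := by
    apply MvPolynomial.ringHom_ext
    · intro φ
      have h1 : ((Polynomial.constantCoeff.comp (tr a e)).comp C) =
          (C : MvPolynomial (Coef N d) ℚ →+* UR N d) := by
        apply MvPolynomial.ringHom_ext
        · intro r
          exact ratHom_ext (((Polynomial.constantCoeff.comp (tr a e)).comp C).comp C)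
            ((C : MvPolynomial (Coef N d) ℚ →+* UR N d).comp C) r
        · intro m
          rw [RingHom.comp_apply, RingHom.comp_apply, tr_C]
          simp
      exact RingHom.congr_fun h1 φ
    · intro t
      rw [RingHom.comp_apply, tr_X]
      simp
  exact RingHom.congr_fun h q

/-- polynomials with rational coefficients -/
noncomputable def emb (d : ι → ℕ) : MvPolynomial (Fin N ⊕ Fin N) ℚ →+* UR N d :=
  map (algebraMap ℚ (MvPolynomial (Coef N d) ℚ))

lemma emb_X (t : Fin N ⊕ Fin N) : emb d (X t) = X t := by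
  rw [emb, map_X]

lemma emb_xm (μ : Fin N →₀ ℕ) : emb d (xm ℚ μ) = xm _ μ := map_xm _ _

lemma emb_Dm (φ : MvPolynomial (Fin N ⊕ Fin N) ℚ) : emb d (Dm φ) = Dm (emb d φ) := by
  rw [Dm_apply, Dm_apply, map_sum]
  refine Finset.sum_congr rfl fun i _ => ?_
  rw [map_mul, emb_X, emb, ← pderiv_map]

lemma emb_pderiv (t : Fin N ⊕ Fin N) (φ : MvPolynomial (Fin N ⊕ Fin N) ℚ) :
    emb d (pderiv t φ) = pderiv t (emb d φ) := by
  rw [emb, ← pderiv_map]

/-- the translation of the coefficients does not move the polynomials with rational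
coefficients -/
lemma tr_emb (a : Coef N d → UR N d) (φ : MvPolynomial (Fin N ⊕ Fin N) ℚ) :
    tr a 0 (emb d φ) = Polynomial.C (emb d φ) := by
  have h : (tr a 0).comp (emb d) = (Polynomial.C : UR N d →+* _).comp (emb d) := by
    apply MvPolynomial.ringHom_ext
    · intro r
      exact ratHom_ext (((tr a 0).comp (emb d)).comp C)
        (((Polynomial.C : UR N d →+* _).comp (emb d)).comp C) r
    · intro t
      rw [RingHom.comp_apply, RingHom.comp_apply, emb_X, tr_X]
      simp
  exact RingHom.congr_fun h φ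

lemma tr_sum (a : Coef N d → UR N d) (i : ι) (w : (Fin N →₀ ℕ) → MvPolynomial (Fin N ⊕ Fin N) ℚ) :
    tr a 0 (∑ μ : Mon N (d i), C (cf d i μ) * emb d (w μ.1)) =
      Polynomial.C (∑ μ : Mon N (d i), C (cf d i μ) * emb d (w μ.1)) +
      Polynomial.X * Polynomial.C (∑ μ : Mon N (d i), a ⟨i, μ⟩ * emb d (w μ.1)) := by
  rw [map_sum, map_sum, map_sum, Finset.mul_sum, ← Finset.sum_add_distrib]
  refine Finset.sum_congr rfl fun μ _ => ?_
  rw [map_mul, tr_C, tr_emb, Polynomial.C_mul, Polynomial.C_mul]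
  ring

lemma gU_emb (i : ι) : gU (N := N) d i = ∑ μ : Mon N (d i), C (cf d i μ) * emb d (xm ℚ μ.1) := by
  rw [gU]
  exact Finset.sum_congr rfl fun μ _ => by rw [emb_xm]

lemma dgU_emb (i : ι) :
    dgU (N := N) d i = ∑ μ : Mon N (d i), C (cf d i μ) * emb d (Dm (xm ℚ μ.1)) := by
  rw [dgU]
  exact Finset.sum_congr rfl fun μ _ => by rw [emb_Dm, emb_xm]

lemma pderiv_gU_emb (i : ι) (t : Fin N ⊕ Fin N) :
    pderiv t (gU (N := N) d i) = ∑ μ : Mon N (d i), C (cf d i μ) * emb d (pderiv t (xm ℚ μ.1)) := by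
  rw [gU, map_sum]
  refine Finset.sum_congr rfl fun μ _ => ?_
  rw [emb_pderiv, emb_xm, ← smul_eq_C_mul, ← smul_eq_C_mul, Derivation.map_smul]

end trans

end Pool.Agent.Lib.GGL.CI
end
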