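import Mathlib
import Pool.Agent.Lib.MP_8d161d_ag.Mg.G030
import Pool.Agent.Lib.MP_8d161d_ag.Mg.G032

section

/-!
Existence of non-vanishing invariant forms for general hyperplanes.
-/

open MvPolynomial Module

namespace Pool.Agent.Lib.GGL

lemma IsUniv.map_isBi {A : Type*} {N E : ℕ}
    {G : MvPolynomial (Fin N ⊕ Fin N) (MvPolynomial (A × Fin N) ℚ)} (hG : IsUniv E G)
    {S : Type*} [CommRing S] (f : MvPolynomial (A × Fin N) ℚ →+* S) :
    IsBi (map f G) E E ∧ Dp (map f G) = 0 ∧ ∀ j, map f G ∈ IP (fun i => f (X (j, i))) := by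
  obtain ⟨h1, h2, h3⟩ := hG
  refine ⟨h1.map f, ?_, fun j => map_mem_IP f (h3 j)⟩
  rw [← map_Dp, h2, map_zero]

theorem exists_form_ne_zero {r e q₀ : ℕ}
    (h : q₀ * ((r + 1) * r) < (r + 1 + (e + 1)) * (r + 1 + e)) {ι : Type*} [Fintype ι]
    [DecidableEq ι] (hq : q₀ + 2 * r ≤ Fintype.card ι) {K : Type*} [Field K] [CharZero K]
    {P : ι → Fin (r + 1 + 1) → K}
    (hP : AlgebraicIndependent ℚ (fun x : ι × Fin (r + 1 + 1) => P x.1 x.2))
    {y w : Fin (r + 1 + 1) → K} {i₀ i₁ : Fin (r + 1 + 1)} (hΔ : y i₀ * w i₁ - y i₁ * w i₀ ≠ 0) :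
    ∃ A : Finset ι, A.card = q₀ ∧ ∃ G : MvPolynomial (Fin (r + 1 + 1) ⊕ Fin (r + 1 + 1))
      (MvPolynomial (A × Fin (r + 1 + 1)) ℚ), IsUniv (e + 1) G ∧
      eval (Sum.elim y w) (map (aeval (R := ℚ) fun x : A × Fin (r + 1 + 1) => P x.1 x.2).toRingHom
        G) ≠ 0 := by
  classical
  obtain ⟨Δ, hΔ'⟩ : ∃ Δ, Δ = y i₀ * w i₁ - y i₁ * w i₀ := ⟨_, rfl⟩
  rw [← hΔ'] at hΔ
  have hne : i₀ ≠ i₁ := by
    rintro rfl
    rw [mul_comm, sub_self] at hΔ'
    exact hΔ hΔ'
  -- the echelon basis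
  obtain ⟨a, ha⟩ : ∃ a : Fin (r + 1 + 1) → K, a = (w i₁ / Δ) • y + (- y i₁ / Δ) • w := ⟨_, rfl⟩
  obtain ⟨b, hb⟩ : ∃ b : Fin (r + 1 + 1) → K, b = (- w i₀ / Δ) • y + (y i₀ / Δ) • w := ⟨_, rfl⟩
  have ha0 : a i₀ = 1 := by
    rw [ha]
    simp only [Pi.add_apply, Pi.smul_apply, smul_eq_mul]
    field_simp
    rw [hΔ']; ring
  have ha1 : a i₁ = 0 := by
    rw [ha]
    simp only [Pi.add_apply, Pi.smul_apply, smul_eq_mul]
    field_simp
    ring
  have hb0 : b i₀ = 0 := by
    rw [hb]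
    simp only [Pi.add_apply, Pi.smul_apply, smul_eq_mul]
    field_simp
    ring
  have hb1 : b i₁ = 1 := by
    rw [hb]
    simp only [Pi.add_apply, Pi.smul_apply, smul_eq_mul]
    field_simp
    rw [hΔ']; ring
  have hab : a i₀ * b i₁ - a i₁ * b i₀ ≠ 0 := by
    rw [ha0, ha1, hb0, hb1]
    simp
  obtain ⟨I, hI⟩ : ∃ I : Finset (Fin (r + 1 + 1)), I = (Finset.univ.erase i₀).erase i₁ := ⟨_, rfl⟩
  have hIcard : I.card = r := by
    rw [hI, Finset.card_erase_of_mem (Finset.mem_erase.mpr ⟨hne.symm, Finset.mem_univ _⟩),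
      Finset.card_erase_of_mem (Finset.mem_univ _), Finset.card_univ, Fintype.card_fin]
    omega
  obtain ⟨B, F, hBcard, hXF, hind⟩ := exists_indep_subset hP (I.image a ∪ I.image b)
  have hXcard : (I.image a ∪ I.image b).card ≤ 2 * r := by
    calc (I.image a ∪ I.image b).card ≤ (I.image a).card + (I.image b).card :=
          Finset.card_union_le _ _
      _ ≤ I.card + I.card := Nat.add_le_add Finset.card_image_le Finset.card_image_le
      _ = 2 * r := by rw [hIcard]; ring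
  obtain ⟨A, hAB, hAcard⟩ := Finset.exists_subset_card_eq (s := B) (n := q₀) (by omega)
  have hindA : AlgebraicIndependent F fun x : A × Fin (r + 1 + 1) => P x.1 x.2 :=
    hind.comp (fun x : A × Fin (r + 1 + 1) => ((⟨x.1, hAB x.1.2⟩ : B), x.2)) (by
      rintro ⟨j, i⟩ ⟨j', i'⟩ hj
      rw [Prod.mk.injEq] at hj
      have hj1 : (j : ι) = j' := congrArg (fun t : B => (t : ι)) hj.1
      exact Prod.ext (Subtype.ext hj1) hj.2)
  have haF : ∀ i, a i ∈ F := by
    intro i
    by_cases hi0 : i = i₀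
    · rw [hi0, ha0]; exact F.one_mem
    by_cases hi1 : i = i₁
    · rw [hi1, ha1]; exact F.zero_mem
    · apply hXF
      apply Finset.mem_union_left
      apply Finset.mem_image_of_mem
      rw [hI]
      simp [hi0, hi1]
  have hbF : ∀ i, b i ∈ F := by
    intro i
    by_cases hi0 : i = i₀
    · rw [hi0, hb0]; exact F.zero_mem
    by_cases hi1 : i = i₁
    · rw [hi1, hb1]; exact F.one_mem
    · apply hXF
      apply Finset.mem_union_right
      apply Finset.mem_image_of_mem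
      rw [hI]
      simp [hi0, hi1]
  have hcardA : Fintype.card A = q₀ := by rw [Fintype.card_coe, hAcard]
  have hcard' : Fintype.card A * ((r + 1) * r) < (r + 1 + (e + 1)) * (r + 1 + e) := by
    rw [hcardA]; exact h
  have hfin := exists_univ_ne_zero (r := r) (e := e) (A := A) (K := K) hcard' F
    (P := fun j => P j) hindA haF hbF hab
  obtain ⟨G, hGu, hG⟩ := hfin
  refine ⟨A, hAcard, G, hGu, ?_⟩
  intro h0
  apply hG
  obtain ⟨g1, g2, -⟩ := hGu.map_isBi
    (aeval (R := ℚ) fun x : A × Fin (r + 1 + 1) => P x.1 x.2).toRingHom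
  rw [ha, hb]
  exact eval_eq_zero_of_span g1 g2 h0 _ _ _ _

/-- Invariant forms, polynomial in the coefficients of all the hyperplanes, that vanish on
`q₀` of them. -/
def UnivIn {ι : Type*} {N : ℕ} (q₀ E : ℕ)
    (G : MvPolynomial (Fin N ⊕ Fin N) (MvPolynomial (ι × Fin N) ℚ)) : Prop :=
  ∃ A : Finset ι, A.card = q₀ ∧ IsBi G E E ∧ Dp G = 0 ∧
    ∀ j ∈ A, G ∈ IP (fun i => (X (j, i) : MvPolynomial (ι × Fin N) ℚ))

theorem exists_univIn {r e q₀ : ℕ}
    (h : q₀ * ((r + 1) * r) < (r + 1 + (e + 1)) * (r + 1 + e)) {ι : Type*} [Fintype ι]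
    [DecidableEq ι] (hq : q₀ + 2 * r ≤ Fintype.card ι) {K : Type*} [Field K] [CharZero K]
    {P : ι → Fin (r + 1 + 1) → K}
    (hP : AlgebraicIndependent ℚ (fun x : ι × Fin (r + 1 + 1) => P x.1 x.2))
    {y w : Fin (r + 1 + 1) → K} {i₀ i₁ : Fin (r + 1 + 1)} (hΔ : y i₀ * w i₁ - y i₁ * w i₀ ≠ 0) :
    ∃ G : MvPolynomial (Fin (r + 1 + 1) ⊕ Fin (r + 1 + 1))
      (MvPolynomial (ι × Fin (r + 1 + 1)) ℚ), UnivIn q₀ (e + 1) G ∧
      eval (Sum.elim y w) (map (aeval (R := ℚ) fun x : ι × Fin (r + 1 + 1) => P x.1 x.2).toRingHom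
        G) ≠ 0 := by
  obtain ⟨A, hA, G, hGu, hG⟩ := exists_form_ne_zero (e := e) h hq hP hΔ
  let f : MvPolynomial (A × Fin (r + 1 + 1)) ℚ →ₐ[ℚ] MvPolynomial (ι × Fin (r + 1 + 1)) ℚ :=
    rename fun x => ((x.1 : ι), x.2)
  obtain ⟨g1, g2, g3⟩ := hGu.map_isBi f.toRingHom
  refine ⟨map f.toRingHom G, ⟨A, hA, g1, g2, ?_⟩, ?_⟩
  · intro j hj
    have h1 := g3 ⟨j, hj⟩
    have h2 : (fun i => f.toRingHom (X ((⟨j, hj⟩ : A), i))) =
        fun i => (X (j, i) : MvPolynomial (ι × Fin (r + 1 + 1)) ℚ) := by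
      funext i
      show f (X _) = _
      simp only [f, rename_X]
    rw [h2] at h1
    exact h1
  · rw [map_map]
    have h3 : ((aeval (R := ℚ) fun x : ι × Fin (r + 1 + 1) => P x.1 x.2).toRingHom).comp
        f.toRingHom = (aeval (R := ℚ) fun x : A × Fin (r + 1 + 1) => P x.1 x.2).toRingHom := by
      apply RingHom.ext
      intro φ
      show (aeval fun x : ι × Fin (r + 1 + 1) => P x.1 x.2) (f φ) =
        (aeval fun x : A × Fin (r + 1 + 1) => P x.1 x.2) φ
      rw [aeval_rename]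
      rfl
    rw [h3]
    exact hG

/-- the Pluecker coordinate -/
noncomputable def plk {N : ℕ} (R : Type*) [CommRing R] (i₀ i₁ : Fin N) :
    MvPolynomial (Fin N ⊕ Fin N) R :=
  X (Sum.inl i₀) * X (Sum.inr i₁) - X (Sum.inl i₁) * X (Sum.inr i₀)

lemma map_plk {N : ℕ} {R S : Type*} [CommRing R] [CommRing S] (f : R →+* S) (i₀ i₁ : Fin N) :
    map f (plk R i₀ i₁) = plk S i₀ i₁ := by
  simp [plk]

attribute [local instance] MvPolynomial.algebraMvPolynomial in
/-- Nullstellensatz over the field of rational functions in the coefficients. -/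
theorem exists_certificate {r e q₀ : ℕ}
    (h : q₀ * ((r + 1) * r) < (r + 1 + (e + 1)) * (r + 1 + e)) {ι : Type} [Fintype ι]
    [DecidableEq ι] (hq : q₀ + 2 * r ≤ Fintype.card ι) (i₀ i₁ : Fin (r + 1 + 1)) :
    ∃ (s : MvPolynomial (ι × Fin (r + 1 + 1)) ℚ) (M : ℕ), s ≠ 0 ∧
      C s * plk (MvPolynomial (ι × Fin (r + 1 + 1)) ℚ) i₀ i₁ ^ M ∈
        Ideal.span {G : MvPolynomial (Fin (r + 1 + 1) ⊕ Fin (r + 1 + 1))
          (MvPolynomial (ι × Fin (r + 1 + 1)) ℚ) | UnivIn q₀ (e + 1) G} := by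
  let R := MvPolynomial (ι × Fin (r + 1 + 1)) ℚ
  let k := FractionRing R
  let K := AlgebraicClosure k
  have hinj : Function.Injective (algebraMap R k) := IsFractionRing.injective _ _
  have hinjK : Function.Injective ((algebraMap k K).comp (algebraMap R k)) := by
    rw [RingHom.coe_comp]
    exact (algebraMap k K).injective.comp hinj
  have : CharZero k := charZero_of_injective_algebraMap hinj
  have : CharZero K := charZero_of_injective_algebraMap (algebraMap k K).injective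
  let P : ι → Fin (r + 1 + 1) → K := fun j i => algebraMap k K (algebraMap R k (X (j, i)))
  have haev : ∀ φ : R, aeval (R := ℚ) (fun x : ι × Fin (r + 1 + 1) => P x.1 x.2) φ =
      algebraMap k K (algebraMap R k φ) := by
    intro φ
    have h1 : ((aeval (R := ℚ) fun x : ι × Fin (r + 1 + 1) => P x.1 x.2) :
        MvPolynomial (ι × Fin (r + 1 + 1)) ℚ →ₐ[ℚ] K).toRingHom =
        (algebraMap k K).comp (algebraMap R k) := by
      apply MvPolynomial.ringHom_ext
      · intro c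
        have := RingHom.congr_fun (Subsingleton.elim
          ((((aeval (R := ℚ) fun x : ι × Fin (r + 1 + 1) => P x.1 x.2) :
          MvPolynomial (ι × Fin (r + 1 + 1)) ℚ →ₐ[ℚ] K).toRingHom).comp C)
          (((algebraMap k K).comp (algebraMap R k)).comp C)) c
        exact this
      · rintro ⟨j, i⟩
        show aeval _ (X (j, i)) = _
        rw [aeval_X]
        rfl
    exact RingHom.congr_fun h1 φ
  have hP : AlgebraicIndependent ℚ (fun x : ι × Fin (r + 1 + 1) => P x.1 x.2) := by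
    intro φ ψ hφ
    apply hinjK
    have h1 := haev φ
    have h2 := haev ψ
    rw [RingHom.comp_apply, RingHom.comp_apply, ← h1, ← h2]
    exact hφ
  obtain ⟨𝔟, h𝔟⟩ : ∃ 𝔟 : Ideal (MvPolynomial (Fin (r + 1 + 1) ⊕ Fin (r + 1 + 1)) R),
    𝔟 = Ideal.span {G | UnivIn q₀ (e + 1) G} := ⟨_, rfl⟩
  have hmem : plk k i₀ i₁ ∈ (Ideal.map (algebraMap (MvPolynomial (Fin (r + 1 + 1) ⊕
      Fin (r + 1 + 1)) R) (MvPolynomial (Fin (r + 1 + 1) ⊕ Fin (r + 1 + 1)) k)) 𝔟).radical := by
    rw [← vanishingIdeal_zeroLocus_eq_radical (K := K), mem_vanishingIdeal_iff]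
    intro x hx
    by_contra hne
    obtain ⟨y, hy⟩ : ∃ y : Fin (r + 1 + 1) → K, y = fun i => x (Sum.inl i) := ⟨_, rfl⟩
    obtain ⟨w, hw⟩ : ∃ w : Fin (r + 1 + 1) → K, w = fun i => x (Sum.inr i) := ⟨_, rfl⟩
    have hxyw : x = Sum.elim y w := by
      funext t
      rcases t with i | i
      · rw [hy]; rfl
      · rw [hw]; rfl
    have hΔ : y i₀ * w i₁ - y i₁ * w i₀ ≠ 0 := by
      intro h0
      apply hne
      rw [hxyw, plk]
      simp only [map_sub, map_mul, aeval_X, Sum.elim_inl, Sum.elim_inr]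
      exact h0
    obtain ⟨G, hGu, hG⟩ := exists_univIn (e := e) h hq hP hΔ
    apply hG
    have h1 := hx (algebraMap (MvPolynomial (Fin (r + 1 + 1) ⊕
      Fin (r + 1 + 1)) R) (MvPolynomial (Fin (r + 1 + 1) ⊕ Fin (r + 1 + 1)) k) G)
      (Ideal.mem_map_of_mem _ (by rw [h𝔟]; exact Ideal.subset_span hGu))
    rw [← hxyw, ← h1]
    have h2 : algebraMap (MvPolynomial (Fin (r + 1 + 1) ⊕
      Fin (r + 1 + 1)) R) (MvPolynomial (Fin (r + 1 + 1) ⊕ Fin (r + 1 + 1)) k) G =
      map (algebraMap R k) G := rfl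
    rw [h2, eval_map, aeval_def, eval₂_map]
    congr 1
    apply RingHom.ext
    intro φ
    exact haev φ
  obtain ⟨M, hM⟩ := hmem
  rw [IsLocalization.mem_map_algebraMap_iff ((nonZeroDivisors R).map (C (σ := Fin (r + 1 + 1) ⊕
    Fin (r + 1 + 1))))] at hM
  obtain ⟨⟨⟨a, ha⟩, ⟨b, hb⟩⟩, hab⟩ := hM
  obtain ⟨s, hs, rfl⟩ := Submonoid.mem_map.mp hb
  refine ⟨s, M, nonZeroDivisors.ne_zero hs, ?_⟩
  have hmapinj : Function.Injective (map (σ := Fin (r + 1 + 1) ⊕ Fin (r + 1 + 1))
      (algebraMap R k)) := map_injective _ hinj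
  have h3 : C s * plk R i₀ i₁ ^ M = a := by
    apply hmapinj
    rw [map_mul, map_pow, map_plk, mul_comm]
    exact hab
  rw [h3, ← h𝔟]
  exact ha

end Pool.Agent.Lib.GGL
end

section

/-!
The polynomial condition on the hyperplanes.
-/

open MvPolynomial Module

namespace Pool.Agent.Lib.GGL

theorem exists_theta {r e q₀ : ℕ}
    (h : q₀ * ((r + 1) * r) < (r + 1 + (e + 1)) * (r + 1 + e)) {ι : Type} [Fintype ι]
    [DecidableEq ι] (hq : q₀ + 2 * r ≤ Fintype.card ι) :
    ∃ Θ : MvPolynomial (ι × Fin (r + 1 + 1)) ℚ, Θ ≠ 0 ∧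
      ∀ p : ι → Fin (r + 1 + 1) → ℂ, aeval (fun x : ι × Fin (r + 1 + 1) => p x.1 x.2) Θ ≠ 0 →
        ∀ (y w : Fin (r + 1 + 1) → ℂ) (i₀ i₁ : Fin (r + 1 + 1)), y i₀ * w i₁ - y i₁ * w i₀ ≠ 0 →
          ∃ A : Finset ι, A.card = q₀ ∧
            ∃ G : MvPolynomial (Fin (r + 1 + 1) ⊕ Fin (r + 1 + 1)) ℂ,
              IsBi G (e + 1) (e + 1) ∧ Dp G = 0 ∧ (∀ j ∈ A, G ∈ IP (p j)) ∧
              eval (Sum.elim y w) G ≠ 0 := by
  choose s M hs hsM using fun i₀ i₁ : Fin (r + 1 + 1) => exists_certificate (e := e) h hq i₀ i₁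
  refine ⟨∏ i₀, ∏ i₁, s i₀ i₁, ?_, ?_⟩
  · rw [Finset.prod_ne_zero_iff]
    intro i₀ _
    rw [Finset.prod_ne_zero_iff]
    intro i₁ _
    exact hs i₀ i₁
  · intro p hp y w i₀ i₁ hΔ
    have hsp : aeval (fun x : ι × Fin (r + 1 + 1) => p x.1 x.2) (s i₀ i₁) ≠ 0 := by
      rw [map_prod, Finset.prod_ne_zero_iff] at hp
      have h1 := hp i₀ (Finset.mem_univ _)
      rw [map_prod, Finset.prod_ne_zero_iff] at h1
      exact h1 i₁ (Finset.mem_univ _)
    by_contra hcon
    push Not at hcon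
    let E : MvPolynomial (Fin (r + 1 + 1) ⊕ Fin (r + 1 + 1))
        (MvPolynomial (ι × Fin (r + 1 + 1)) ℚ) →+* ℂ :=
      (eval (Sum.elim y w)).comp
        (map (aeval (R := ℚ) fun x : ι × Fin (r + 1 + 1) => p x.1 x.2).toRingHom)
    have h2 : Ideal.span {G : MvPolynomial (Fin (r + 1 + 1) ⊕ Fin (r + 1 + 1))
          (MvPolynomial (ι × Fin (r + 1 + 1)) ℚ) | UnivIn q₀ (e + 1) G} ≤ RingHom.ker E := by
      rw [Ideal.span_le]
      rintro G ⟨A, hA, h3, h4, h5⟩
      show E G = 0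
      refine hcon A hA _ (h3.map _) (by rw [← map_Dp, h4, map_zero]) ?_
      intro j hj
      have h6 := map_mem_IP
        (aeval (R := ℚ) fun x : ι × Fin (r + 1 + 1) => p x.1 x.2).toRingHom (h5 j hj)
      have h7 : (fun i => (aeval (R := ℚ) fun x : ι × Fin (r + 1 + 1) => p x.1 x.2).toRingHom
          (X (j, i))) = p j := by
        funext i
        show aeval _ (X (j, i)) = _
        rw [aeval_X]
      rw [h7] at h6
      exact h6
    have h8 := h2 (hsM i₀ i₁)
    rw [RingHom.mem_ker, map_mul, map_pow] at h8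
    have h9 : E (C (s i₀ i₁)) = aeval (fun x : ι × Fin (r + 1 + 1) => p x.1 x.2) (s i₀ i₁) := by
      show eval _ (map _ (C _)) = _
      rw [map_C, eval_C]
      rfl
    have h10 : E (plk _ i₀ i₁) = y i₀ * w i₁ - y i₁ * w i₀ := by
      show eval _ (map _ (plk _ i₀ i₁)) = _
      rw [map_plk, plk]
      simp
    rw [h9, h10] at h8
    exact (mul_ne_zero hsp (pow_ne_zero _ hΔ)) h8

theorem exists_genpos (N : ℕ) (ι : Type) [Fintype ι] [DecidableEq ι] :
    ∃ Θ : MvPolynomial (ι × Fin N) ℚ, Θ ≠ 0 ∧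
      ∀ p : ι → Fin N → ℂ, aeval (fun x : ι × Fin N => p x.1 x.2) Θ ≠ 0 →
        ∀ s : Fin N → ι, Function.Injective s → (Matrix.of fun i => p (s i)).det ≠ 0 := by
  classical
  refine ⟨∏ s : Fin N ↪ ι, Matrix.det (Matrix.of fun i k => X (s i, k)), ?_, ?_⟩
  · rw [Finset.prod_ne_zero_iff]
    intro s _
    have h1 : Matrix.det (Matrix.of fun i k => (X (s i, k) : MvPolynomial (ι × Fin N) ℚ)) =
        rename (fun x : Fin N × Fin N => (s x.1, x.2))
          (Matrix.det (Matrix.mvPolynomialX (Fin N) (Fin N) ℚ)) := by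
      rw [AlgHom.map_det]
      congr 1
      ext i k
      simp [Matrix.mvPolynomialX]
    rw [h1]
    intro h0
    apply Matrix.det_mvPolynomialX_ne_zero (Fin N) ℚ
    apply rename_injective (R := ℚ) (fun x : Fin N × Fin N => (s x.1, x.2))
    · rintro ⟨i, k⟩ ⟨i', k'⟩ h
      rw [Prod.mk.injEq] at h
      exact Prod.ext (s.injective h.1) h.2
    · rw [h0, map_zero]
  · intro p hp s hs
    rw [map_prod, Finset.prod_ne_zero_iff] at hp
    have h1 := hp ⟨s, hs⟩ (Finset.mem_univ _)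
    rw [AlgHom.map_det] at h1
    convert h1 using 2
    ext i k
    simp [Matrix.map_apply]

end Pool.Agent.Lib.GGL
end

section

/-!
The local rings and the spaces of functions of given bidegree.
-/

open MvPolynomial

namespace Pool.Agent.Lib.GGL.CI

section loc

variable {K : Type} [Field K] {N : ℕ}

/-- the ring of the functions on the chart `x_{j0} ≠ 0` -/
def LA (j0 : Fin N) (P : Ideal (MvPolynomial (Fin N ⊕ Fin N) K)) : Type :=
  Localization.Away (Ideal.Quotient.mk P (X (Sum.inl j0)))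

noncomputable instance instLA1 (j0 : Fin N) (P : Ideal (MvPolynomial (Fin N ⊕ Fin N) K)) :
    CommRing (LA j0 P) :=
  inferInstanceAs (CommRing (Localization.Away (Ideal.Quotient.mk P (X (Sum.inl j0)))))

noncomputable instance instLA2 (j0 : Fin N) (P : Ideal (MvPolynomial (Fin N ⊕ Fin N) K)) :
    Algebra K (LA j0 P) :=
  inferInstanceAs (Algebra K (Localization.Away (Ideal.Quotient.mk P (X (Sum.inl j0)))))

noncomputable instance instLA3 (j0 : Fin N) (P : Ideal (MvPolynomial (Fin N ⊕ Fin N) K)) :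
    Algebra (MvPolynomial (Fin N ⊕ Fin N) K ⧸ P) (LA j0 P) :=
  inferInstanceAs (Algebra (MvPolynomial (Fin N ⊕ Fin N) K ⧸ P)
    (Localization.Away (Ideal.Quotient.mk P (X (Sum.inl j0)))))

instance instLA4 (j0 : Fin N) (P : Ideal (MvPolynomial (Fin N ⊕ Fin N) K)) :
    IsScalarTower K (MvPolynomial (Fin N ⊕ Fin N) K ⧸ P) (LA j0 P) :=
  inferInstanceAs (IsScalarTower K (MvPolynomial (Fin N ⊕ Fin N) K ⧸ P)
    (Localization.Away (Ideal.Quotient.mk P (X (Sum.inl j0)))))

instance instLA5 (j0 : Fin N) (P : Ideal (MvPolynomial (Fin N ⊕ Fin N) K)) :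
    IsLocalization.Away (Ideal.Quotient.mk P (X (Sum.inl j0))) (LA j0 P) :=
  inferInstanceAs (IsLocalization.Away (Ideal.Quotient.mk P (X (Sum.inl j0)))
    (Localization.Away (Ideal.Quotient.mk P (X (Sum.inl j0)))))

/-- the restriction of the polynomials -/
noncomputable def lp (j0 : Fin N) (P : Ideal (MvPolynomial (Fin N ⊕ Fin N) K)) :
    MvPolynomial (Fin N ⊕ Fin N) K →ₐ[K] LA j0 P :=
  (IsScalarTower.toAlgHom K (MvPolynomial (Fin N ⊕ Fin N) K ⧸ P) (LA j0 P)).comp
    (Ideal.Quotient.mkₐ K P)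

lemma lp_apply (j0 : Fin N) (P : Ideal (MvPolynomial (Fin N ⊕ Fin N) K))
    (q : MvPolynomial (Fin N ⊕ Fin N) K) :
    lp j0 P q = algebraMap _ (LA j0 P) (Ideal.Quotient.mk P q) := rfl

/-- the ideals of the subvarieties -/
structure Good (P : Ideal (MvPolynomial (Fin N ⊕ Fin N) K)) : Prop where
  prime : P.IsPrime
  hom : BiCl P
  notMem : ∀ j : Fin N, (X (Sum.inl j) : MvPolynomial (Fin N ⊕ Fin N) K) ∉ P

variable {P : Ideal (MvPolynomial (Fin N ⊕ Fin N) K)}

lemma Good.mk_ne (h : Good P) (j : Fin N) :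
    Ideal.Quotient.mk P (X (Sum.inl j)) ≠ 0 := by
  rw [Ne, Ideal.Quotient.eq_zero_iff_mem]
  exact h.notMem j

lemma Good.powers_le (h : Good P) (j0 : Fin N) :
    Submonoid.powers (Ideal.Quotient.mk P (X (Sum.inl j0))) ≤ nonZeroDivisors _ := by
  have := h.prime
  rw [Submonoid.powers_le, mem_nonZeroDivisors_iff_ne_zero]
  exact h.mk_ne j0

lemma Good.lp_eq_zero (h : Good P) (j0 : Fin N) {q : MvPolynomial (Fin N ⊕ Fin N) K} :
    lp j0 P q = 0 ↔ q ∈ P := by
  rw [lp_apply, ← Ideal.Quotient.eq_zero_iff_mem]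
  constructor
  · intro h1
    exact (IsLocalization.injective (LA j0 P) (h.powers_le j0)) (by rw [h1, map_zero])
  · intro h1
    rw [h1, map_zero]

lemma isUnit_lp (j0 : Fin N) (P : Ideal (MvPolynomial (Fin N ⊕ Fin N) K)) :
    IsUnit (lp j0 P (X (Sum.inl j0))) :=
  IsLocalization.Away.algebraMap_isUnit (S := LA j0 P) (Ideal.Quotient.mk P (X (Sum.inl j0)))

lemma lp_surj (j0 : Fin N) (P : Ideal (MvPolynomial (Fin N ⊕ Fin N) K)) (ω : LA j0 P) :
    ∃ (M : ℕ) (q : MvPolynomial (Fin N ⊕ Fin N) K),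
      ω * lp j0 P (X (Sum.inl j0)) ^ M = lp j0 P q := by
  obtain ⟨M, a, h⟩ := IsLocalization.Away.surj (Ideal.Quotient.mk P (X (Sum.inl j0))) ω
  obtain ⟨q, rfl⟩ := Ideal.Quotient.mk_surjective a
  exact ⟨M, q, h⟩

lemma Good.isDomain (h : Good P) (j0 : Fin N) : IsDomain (LA j0 P) := by
  have := h.prime
  exact IsLocalization.isDomain_localization (h.powers_le j0)

instance instNoethLA (j0 : Fin N) (P : Ideal (MvPolynomial (Fin N ⊕ Fin N) K)) :
    IsNoetherianRing (LA j0 P) :=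
  IsLocalization.isNoetherianRing (Submonoid.powers (Ideal.Quotient.mk P (X (Sum.inl j0)))) _
    inferInstance

lemma Good.lp_ne (h : Good P) (j0 j : Fin N) : lp j0 P (X (Sum.inl j)) ≠ 0 := by
  rw [Ne, h.lp_eq_zero]
  exact h.notMem j

/-- the functions of given bidegree -/
noncomputable def HH (j0 : Fin N) (P : Ideal (MvPolynomial (Fin N ⊕ Fin N) K)) (α β : ℤ) :
    Submodule K (LA j0 P) where
  carrier := {ω | ∀ j : Fin N, ∃ (M : ℕ) (q : MvPolynomial (Fin N ⊕ Fin N) K),
    IsBZ q (α + M) β ∧ ω * lp j0 P (X (Sum.inl j)) ^ M = lp j0 P q}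
  add_mem' := by
    intro ω ω' h h' j
    obtain ⟨M, q, hq, hωq⟩ := h j
    obtain ⟨M', q', hq', hωq'⟩ := h' j
    refine ⟨M + M', q * X (Sum.inl j) ^ M' + q' * X (Sum.inl j) ^ M, ?_, ?_⟩
    · apply IsWeightedHomogeneous.add
      · exact isBZ_congr (hq.mul (isBZ_X_pow j M')) (by push_cast; ring) (by ring)
      · exact isBZ_congr (hq'.mul (isBZ_X_pow j M)) (by push_cast; ring) (by ring)
    · rw [map_add, map_mul, map_mul, map_pow, map_pow, ← hωq, ← hωq', pow_add]
      ring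
  zero_mem' := by
    intro j
    exact ⟨0, 0, isWeightedHomogeneous_zero _ _ _, by rw [zero_mul, map_zero]⟩
  smul_mem' := by
    intro c ω h j
    obtain ⟨M, q, hq, hωq⟩ := h j
    refine ⟨M, c • q, ?_, ?_⟩
    · rw [smul_eq_C_mul]
      exact hq.C_mul c
    · rw [map_smul, ← hωq, smul_mul_assoc]

lemma mem_HH {j0 : Fin N} {P : Ideal (MvPolynomial (Fin N ⊕ Fin N) K)} {α β : ℤ} {ω : LA j0 P} :
    ω ∈ HH j0 P α β ↔ ∀ j : Fin N, ∃ (M : ℕ) (q : MvPolynomial (Fin N ⊕ Fin N) K),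
      IsBZ q (α + M) β ∧ ω * lp j0 P (X (Sum.inl j)) ^ M = lp j0 P q := Iff.rfl

/-- the restriction to a smaller subvariety -/
noncomputable def lr (j0 : Fin N) {P P' : Ideal (MvPolynomial (Fin N ⊕ Fin N) K)} (h : P ≤ P') :
    LA j0 P →+* LA j0 P' :=
  IsLocalization.Away.lift (S := LA j0 P) (Ideal.Quotient.mk P (X (Sum.inl j0)))
    (g := (algebraMap _ (LA j0 P')).comp (Ideal.Quotient.factor h)) (by
      rw [RingHom.comp_apply, Ideal.Quotient.factor_mk]
      exact isUnit_lp j0 P')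

lemma lr_lp (j0 : Fin N) {P P' : Ideal (MvPolynomial (Fin N ⊕ Fin N) K)} (h : P ≤ P')
    (q : MvPolynomial (Fin N ⊕ Fin N) K) : lr j0 h (lp j0 P q) = lp j0 P' q := by
  rw [lp_apply, lr, IsLocalization.Away.lift_eq, RingHom.comp_apply, Ideal.Quotient.factor_mk,
    lp_apply]

lemma lr_smul (j0 : Fin N) {P P' : Ideal (MvPolynomial (Fin N ⊕ Fin N) K)} (h : P ≤ P')
    (c : K) (ω : LA j0 P) : lr j0 h (c • ω) = c • lr j0 h ω := by
  have h1 : ∀ (P : Ideal (MvPolynomial (Fin N ⊕ Fin N) K)) (ω : LA j0 P),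
      c • ω = lp j0 P (C c) * ω := by
    intro P ω
    rw [← algebraMap_eq, AlgHom.commutes, Algebra.smul_def]
  rw [h1, h1, map_mul, lr_lp]

/-- the restriction, as a linear map -/
noncomputable def lrl (j0 : Fin N) {P P' : Ideal (MvPolynomial (Fin N ⊕ Fin N) K)} (h : P ≤ P') :
    LA j0 P →ₗ[K] LA j0 P' where
  toFun := lr j0 h
  map_add' := fun x y => (lr j0 h).map_add x y
  map_smul' := lr_smul j0 h

lemma lr_mem_HH (j0 : Fin N) {P P' : Ideal (MvPolynomial (Fin N ⊕ Fin N) K)} (h : P ≤ P')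
    {α β : ℤ} {ω : LA j0 P} (hω : ω ∈ HH j0 P α β) : lr j0 h ω ∈ HH j0 P' α β := by
  intro j
  obtain ⟨M, q, hq, hωq⟩ := hω j
  refine ⟨M, q, hq, ?_⟩
  rw [← lr_lp j0 h, ← lr_lp j0 h, ← hωq, map_mul, map_pow]

/-- one step of a chain of subvarieties -/
structure Step (P P' : Ideal (MvPolynomial (Fin N ⊕ Fin N) K))
    (G : MvPolynomial (Fin N ⊕ Fin N) K) (p q : ℤ) : Prop where
  good : Good P
  good' : Good P'
  hom : IsBZ G p q
  notMem : G ∉ P
  eq : ∀ j : Fin N, P' = sat (X (Sum.inl j)) (P ⊔ Ideal.span {G})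

variable {P' : Ideal (MvPolynomial (Fin N ⊕ Fin N) K)} {G : MvPolynomial (Fin N ⊕ Fin N) K}
  {p q : ℤ}

lemma Step.le (h : Step P P' G p q) (j0 : Fin N) : P ≤ P' := by
  rw [h.eq j0]
  exact le_sup_left.trans (le_sat _ _)

lemma Step.mem (h : Step P P' G p q) (j0 : Fin N) : G ∈ P' := by
  rw [h.eq j0]
  exact le_sat _ _ (Ideal.mem_sup_right (Ideal.mem_span_singleton_self G))

/-- the kernel of the restriction -/
lemma Step.exists_of_lr_eq_zero (h : Step P P' G p q) (j0 : Fin N) {α β : ℤ} {ω : LA j0 P}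
    (hω : ω ∈ HH j0 P α β) (h0 : lr j0 (h.le j0) ω = 0) :
    ∃ ω' ∈ HH j0 P (α - p) (β - q), lp j0 P G * ω' = ω := by
  have hdom := h.good.isDomain j0
  have hG : lp j0 P G ≠ 0 := by
    rw [Ne, h.good.lp_eq_zero]
    exact h.notMem
  have key : ∀ j : Fin N, ∃ (M : ℕ) (Q : MvPolynomial (Fin N ⊕ Fin N) K),
      IsBZ Q (α - p + M) (β - q) ∧ ω * lp j0 P (X (Sum.inl j)) ^ M = lp j0 P G * lp j0 P Q := by
    intro j
    obtain ⟨M, r, hr, hωr⟩ := hω j
    have h1 : r ∈ P' := by
      rw [← h.good'.lp_eq_zero j0, ← lr_lp j0 (h.le j0), ← hωr, map_mul, h0, zero_mul]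
    rw [h.eq j] at h1
    obtain ⟨L, hL⟩ := h1
    obtain ⟨Q, hQ, hQ'⟩ := exists_homogeneous h.good.hom ((isBZ_X_pow j L).mul hr) h.hom hL
    refine ⟨M + L, Q, isBZ_congr hQ (by push_cast; ring) (by ring), ?_⟩
    have h2 := (h.good.lp_eq_zero j0).mpr hQ'
    rw [map_sub, map_mul, map_mul, map_pow, sub_eq_zero, ← hωr] at h2
    rw [← h2, pow_add]
    ring
  obtain ⟨M0, Q0, hQ0, hω0⟩ := key j0
  obtain ⟨u, hu⟩ := (isUnit_lp j0 P).pow M0
  have hu0 : ω = lp j0 P G * (lp j0 P Q0 * (↑u⁻¹ : LA j0 P)) := by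
    rw [← mul_assoc, ← hω0, ← hu, mul_assoc, Units.mul_inv, mul_one]
  refine ⟨lp j0 P Q0 * (↑u⁻¹ : LA j0 P), ?_, hu0.symm⟩
  intro j
  obtain ⟨M, Q, hQ, hωQ⟩ := key j
  refine ⟨M, Q, hQ, ?_⟩
  apply mul_left_cancel₀ hG
  rw [← hωQ, ← mul_assoc, ← hu0]

lemma Step.HH_eq_bot (h : Step P P' G p q) (j0 : Fin N) (hpq : 0 < p + q)
    (h' : ∀ α β : ℤ, α + β < 0 → HH j0 P' α β = ⊥) (α β : ℤ) (hαβ : α + β < 0) :
    HH j0 P α β = ⊥ := by
  have hdom := h.good.isDomain j0
  rw [eq_bot_iff]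
  have key : ∀ k : ℕ, ∀ α β : ℤ, α + β < 0 → ∀ ω ∈ HH j0 P α β,
      ω ∈ (Ideal.span {lp j0 P G}) ^ k := by
    intro k
    induction k with
    | zero => intro α β _ ω _; rw [pow_zero, Ideal.one_eq_top]; trivial
    | succ k ih =>
      intro α β hαβ ω hω
      have h1 := lr_mem_HH j0 (h.le j0) hω
      rw [h' α β hαβ, Submodule.mem_bot] at h1
      obtain ⟨ω', hω', rfl⟩ := h.exists_of_lr_eq_zero j0 hω h1
      rw [pow_succ']
      exact Ideal.mul_mem_mul (Ideal.mem_span_singleton_self _) (ih _ _ (by linarith) _ hω')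
  intro ω hω
  have h1 : ω ∈ ⨅ k : ℕ, (Ideal.span {lp j0 P G}) ^ k := by
    rw [Submodule.mem_iInf]
    intro k
    exact key k α β hαβ ω hω
  rw [Ideal.iInf_pow_eq_bot_of_isDomain] at h1
  · exact h1
  · intro htop
    rw [Ideal.span_singleton_eq_top] at htop
    have h2 := htop.map (lr j0 (h.le j0))
    rw [lr_lp, (h.good'.lp_eq_zero j0).mpr (h.mem j0)] at h2
    have := h.good'.isDomain j0
    exact not_isUnit_zero h2

end loc

end Pool.Agent.Lib.GGL.CI
end

section

/-!
Counting functions along a chain of subvarieties.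
-/

open MvPolynomial

namespace Pool.Agent.Lib.GGL.CI

lemma rank_step {K V V' V1 : Type} [Field K] [AddCommGroup V] [Module K V] [AddCommGroup V']
    [Module K V'] [AddCommGroup V1] [Module K V1] (W : Submodule K V) (W' : Submodule K V')
    (W1 : Submodule K V1) (f : V →ₗ[K] V') (g : V1 →ₗ[K] V) (h1 : ∀ w ∈ W, f w ∈ W')
    (h2 : ∀ w ∈ W, f w = 0 → ∃ y ∈ W1, g y = w) :
    Module.rank K W ≤ Module.rank K W1 + Module.rank K W' := by
  have e1 := LinearMap.rank_range_add_rank_ker (f.domRestrict W)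
  rw [← e1, add_comm]
  apply add_le_add
  · have h3 : ((LinearMap.ker (f.domRestrict W)).map W.subtype) ≤ W1.map g := by
      rintro _ ⟨w, hw, rfl⟩
      obtain ⟨y, hy, hyw⟩ := h2 w.1 w.2 hw
      exact ⟨y, hy, hyw⟩
    have h4 : Module.rank K (LinearMap.ker (f.domRestrict W)) =
        Module.rank K ((LinearMap.ker (f.domRestrict W)).map W.subtype) :=
      LinearEquiv.rank_eq (Submodule.equivMapOfInjective _ W.injective_subtype _)
    rw [h4]
    exact (Submodule.rank_mono h3).trans (rank_map_le g W1)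
  · apply Submodule.rank_mono
    rintro _ ⟨w, rfl⟩
    exact h1 w.1 w.2

section

variable {K : Type} [Field K] {N : ℕ}

lemma Step.rank_le {P P' : Ideal (MvPolynomial (Fin N ⊕ Fin N) K)}
    {G : MvPolynomial (Fin N ⊕ Fin N) K} {p q : ℤ} (h : Step P P' G p q) (j0 : Fin N) (α β : ℤ) :
    Module.rank K (HH j0 P α β) ≤
      Module.rank K (HH j0 P (α - p) (β - q)) + Module.rank K (HH j0 P' α β) := by
  refine rank_step _ _ _ (lrl j0 (h.le j0)) (LinearMap.mulLeft K (lp j0 P G)) ?_ ?_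
  · intro ω hω
    exact lr_mem_HH j0 (h.le j0) hω
  · intro ω hω h0
    exact h.exists_of_lr_eq_zero j0 hω h0

/-- chains of subvarieties -/
inductive Chain : Ideal (MvPolynomial (Fin N ⊕ Fin N) K) →
    Ideal (MvPolynomial (Fin N ⊕ Fin N) K) → List ℕ → Prop
  | nil (P) : Chain P P []
  | cons {P P' Q : Ideal (MvPolynomial (Fin N ⊕ Fin N) K)}
      {G : MvPolynomial (Fin N ⊕ Fin N) K} {p q : ℕ} {ds : List ℕ} (h : Step P P' G p q)
      (hpq : 0 < p + q) (hc : Chain P' Q ds) : Chain P Q ((p + q) :: ds)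

end

/-- the number of the `k` with `∑ k_i d_i ≤ t` -/
def cnt : List ℕ → ℤ → ℕ
  | [], t => if 0 ≤ t then 1 else 0
  | d :: ds, t => ∑ k ∈ Finset.range (t.toNat + 1), cnt ds (t - k * d)

lemma cnt_neg (ds : List ℕ) {t : ℤ} (ht : t < 0) : cnt ds t = 0 := by
  induction ds generalizing t with
  | nil => rw [cnt, if_neg (by omega)]
  | cons d ds ih =>
    rw [cnt]
    refine Finset.sum_eq_zero fun k _ => ih ?_
    have : (0 : ℤ) ≤ k * d := by positivity
    linarith

lemma cnt_cons {d : ℕ} (hd : 0 < d) (ds : List ℕ) {t : ℤ} (ht : 0 ≤ t) :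
    cnt (d :: ds) t = cnt (d :: ds) (t - d) + cnt ds t := by
  have key : ∀ (m : ℕ) (t : ℤ), t.toNat + 1 ≤ m →
      ∑ k ∈ Finset.range m, cnt ds (t - k * d) = cnt (d :: ds) t := by
    intro m t hm
    rw [cnt]
    symm
    apply Finset.sum_subset
    · intro k hk
      rw [Finset.mem_range] at hk ⊢
      omega
    · intro k _ hk
      rw [Finset.mem_range] at hk
      apply cnt_neg
      have h1 : (k : ℤ) * 1 ≤ k * d := by
        apply mul_le_mul_of_nonneg_left
        · exact_mod_cast hd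
        · positivity
      have h2 : (t.toNat : ℤ) + 1 ≤ k := by omega
      have h3 : t ≤ t.toNat := Int.self_le_toNat t
      linarith
  have h1 := key (t.toNat + 2) t (by omega)
  have h2 := key (t.toNat + 1) (t - d) (by omega)
  rw [← h1, Finset.sum_range_succ', ← h2]
  congr 1
  · refine Finset.sum_congr rfl fun k _ => ?_
    congr 1
    push_cast
    ring
  · simp

/-- the volume bound -/
lemma cnt_le (ds : List ℕ) (hds : ∀ d ∈ ds, 0 < d) (t : ℕ) :
    cnt ds t * ds.prod * ds.length.factorial ≤ (t + ds.sum) ^ ds.length := by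
  induction ds generalizing t with
  | nil => simp [cnt]
  | cons d ds ih =>
    have hd : 0 < d := hds d (by simp)
    have ih' := ih fun e he => hds e (by simp [he])
    have bern : ∀ y : ℕ, y ^ (ds.length + 1) + (ds.length + 1) * d * y ^ ds.length ≤
        (y + d) ^ (ds.length + 1) := by
      intro y
      rw [add_pow]
      have h1 : ({ds.length, ds.length + 1} : Finset ℕ) ⊆ Finset.range (ds.length + 1 + 1) := by
        intro k hk
        simp only [Finset.mem_insert, Finset.mem_singleton] at hk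
        rw [Finset.mem_range]
        omega
      refine le_trans ?_ (Finset.sum_le_sum_of_subset h1)
      rw [Finset.sum_pair (by omega)]
      have h2 : (ds.length + 1).choose ds.length = ds.length + 1 := by
        rw [Nat.choose_succ_self_right]
      have h3 : ds.length + 1 - ds.length = 1 := by omega
      rw [h2, h3, Nat.choose_self, Nat.sub_self, pow_one, pow_zero]
      apply le_of_eq
      push_cast
      ring
    rw [List.prod_cons, List.length_cons, List.sum_cons, Nat.factorial_succ]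
    induction t using Nat.strong_induction_on with
    | _ t iht =>
      have h1 := bern (t + ds.sum)
      have h2 : cnt ds t * ds.prod * ds.length.factorial * ((ds.length + 1) * d) ≤
          (t + ds.sum) ^ ds.length * ((ds.length + 1) * d) :=
        Nat.mul_le_mul_right _ (ih' t)
      have h3 : cnt (d :: ds) ((t : ℤ) - d) * (d * ds.prod) * ((ds.length + 1) *
          ds.length.factorial) ≤ (t + ds.sum) ^ (ds.length + 1) := by
        by_cases htd : t < d
        · rw [cnt_neg _ (by omega)]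
          simp
        · have h4 := iht (t - d) (by omega)
          have h5 : (((t - d : ℕ) : ℤ)) = (t : ℤ) - d := by omega
          rw [h5] at h4
          refine h4.trans (le_of_eq ?_)
          congr 1
          omega
      rw [cnt_cons hd ds (by omega)]
      have h6 : (t + ds.sum + d) ^ (ds.length + 1) = (t + (d + ds.sum)) ^ (ds.length + 1) := by
        congr 1
        ring
      rw [← h6]
      calc _ = cnt (d :: ds) ((t : ℤ) - d) * (d * ds.prod) * ((ds.length + 1) *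
            ds.length.factorial) +
            cnt ds t * ds.prod * ds.length.factorial * ((ds.length + 1) * d) := by ring
        _ ≤ (t + ds.sum) ^ (ds.length + 1) + (t + ds.sum) ^ ds.length * ((ds.length + 1) * d) :=
            Nat.add_le_add h3 h2
        _ ≤ _ := by
            refine le_trans (le_of_eq ?_) h1
            ring

section

variable {K : Type} [Field K] {N : ℕ}

lemma Chain.HH_eq_bot (j0 : Fin N) {P Q : Ideal (MvPolynomial (Fin N ⊕ Fin N) K)} {ds : List ℕ}
    (h : Chain P Q ds) (h' : ∀ α β : ℤ, α + β < 0 → HH j0 Q α β = ⊥) :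
    ∀ α β : ℤ, α + β < 0 → HH j0 P α β = ⊥ := by
  induction h with
  | nil P => exact h'
  | cons h hpq hc ih =>
    intro α β hαβ
    exact h.HH_eq_bot j0 (by omega) (ih h') α β hαβ

lemma Chain.rank_le (j0 : Fin N) {P Q : Ideal (MvPolynomial (Fin N ⊕ Fin N) K)} {ds : List ℕ}
    (h : Chain P Q ds) (h' : ∀ α β : ℤ, α + β < 0 → HH j0 Q α β = ⊥) {α₀ β₀ : ℤ} {B : ℕ}
    (hB : ∀ α β : ℤ, α ≤ α₀ → β ≤ β₀ → Module.rank K (HH j0 Q α β) ≤ B) :
    ∀ α β : ℤ, α ≤ α₀ → β ≤ β₀ →
      Module.rank K (HH j0 P α β) ≤ ((cnt ds (α + β) * B : ℕ) : Cardinal) := by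
  induction h with
  | nil P =>
    intro α β hα hβ
    by_cases hαβ : α + β < 0
    · rw [h' α β hαβ, rank_bot]
      exact zero_le
    · rw [cnt, if_pos (by omega), one_mul]
      exact hB α β hα hβ
  | @cons P P' Q G p q ds h hpq hc ih =>
    have ih' := ih h' hB
    have hneg : ∀ α β : ℤ, α + β < 0 → HH j0 P α β = ⊥ :=
      (Chain.cons h hpq hc).HH_eq_bot j0 h'
    have key : ∀ (m : ℕ) (α β : ℤ), α + β < m → α ≤ α₀ → β ≤ β₀ →
        Module.rank K (HH j0 P α β) ≤ ((cnt ((p + q) :: ds) (α + β) * B : ℕ) : Cardinal) := by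
      intro m
      induction m with
      | zero =>
        intro α β hαβ _ _
        rw [hneg α β (by simpa using hαβ), rank_bot]
        exact zero_le
      | succ m ihm =>
        intro α β hm hα hβ
        by_cases hαβ : α + β < 0
        · rw [hneg α β hαβ, rank_bot]
          exact zero_le
        · refine (h.rank_le j0 α β).trans ?_
          rw [cnt_cons hpq ds (by omega : 0 ≤ α + β), add_mul, Nat.cast_add]
          apply add_le_add
          · have h1 := ihm (α - p) (β - q) (by push_cast at hm; omega) (by omega) (by omega)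
            have h2 : α - (p : ℤ) + (β - q) = α + β - ((p + q : ℕ) : ℤ) := by push_cast; ring
            rwa [h2] at h1
          · exact ih' α β hα hβ
    intro α β hα hβ
    exact key ((α + β).toNat + 1) α β (by push_cast; have := Int.self_le_toNat (α + β); omega)
      hα hβ

end

end Pool.Agent.Lib.GGL.CI
end

section

/-!
Regularity and primality of the ideals generated by universal forms and their differentials.
-/

open MvPolynomial

namespace Pool.Agent.Lib.GGL.CI

/-! ### special translations -/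

section special

variable {N : ℕ} {ι : Type} {d : ι → ℕ}

/-- the exponent of `x_j^(k-1) x_b` -/
noncomputable def mu (k : ℕ) (j b : Fin N) : Fin N →₀ ℕ :=
  Finsupp.single j (k - 1) + Finsupp.single b 1

lemma degree_mu {k : ℕ} (hk : 1 ≤ k) (j b : Fin N) : (mu k j b).degree = k := by
  rw [mu, map_add, Finsupp.degree_single, Finsupp.degree_single]
  omega

lemma mu_ne (k : ℕ) {j b : Fin N} (h : b ≠ j) : mu k j b ≠ mu k j j := by
  intro h1
  have h2 := DFunLike.congr_fun h1 b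
  rw [mu, mu, Finsupp.add_apply, Finsupp.add_apply, Finsupp.single_eq_same,
    Finsupp.single_eq_of_ne h, Finsupp.single_eq_of_ne h] at h2
  omega

lemma xm_mu {R : Type*} [CommRing R] (k : ℕ) (j b : Fin N) :
    xm R (mu k j b) = X (Sum.inl j) ^ (k - 1) * X (Sum.inl b) := by
  rw [mu, xm_add, xm_single, xm_single, pow_one]

lemma mu_self {k : ℕ} (hk : 1 ≤ k) (j : Fin N) : mu k j j = Finsupp.single j k := by
  rw [mu, ← Finsupp.single_add]
  congr 1
  omega

lemma xm_mu_self {R : Type*} [CommRing R] {k : ℕ} (hk : 1 ≤ k) (j : Fin N) :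
    xm R (mu k j j) = X (Sum.inl j) ^ k := by
  rw [mu_self hk, xm_single]

open Classical in
/-- the increments preserving all the universal forms -/
noncomputable def aa (S : Finset ι) (o : ι → Fin N) (j : Fin N) (m : Coef N d) : UR N d :=
  if m.1 ∈ S then
    (if m.2.1 = mu (d m.1) j (o m.1) then xm _ (mu (d m.1) j j)
      else if m.2.1 = mu (d m.1) j j then -xm _ (mu (d m.1) j (o m.1)) else 0)
  else 0

lemma sum_aa_of_mem {S : Finset ι} {o : ι → Fin N} {j : Fin N} {i : ι} (hi : i ∈ S)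
    (ho : o i ≠ j) (hd : 1 ≤ d i) (w : (Fin N →₀ ℕ) → UR N d) :
    ∑ μ : Mon N (d i), aa (d := d) S o j ⟨i, μ⟩ * w μ.1 =
      xm _ (mu (d i) j j) * w (mu (d i) j (o i)) - xm _ (mu (d i) j (o i)) * w (mu (d i) j j) := by
  classical
  have hne : (⟨mu (d i) j (o i), degree_mu hd _ _⟩ : Mon N (d i)) ≠
      ⟨mu (d i) j j, degree_mu hd _ _⟩ := by
    intro h
    exact mu_ne _ ho (congrArg Subtype.val h)
  rw [Finset.sum_eq_add _ _ hne]
  · rw [aa, aa, if_pos hi, if_pos hi, if_pos rfl, if_neg, if_pos rfl]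
    · ring
    · exact (mu_ne _ ho).symm
  · rintro μ - ⟨h1, h2⟩
    rw [aa, if_pos hi, if_neg, if_neg, zero_mul]
    · intro h; exact h2 (Subtype.ext h)
    · intro h; exact h1 (Subtype.ext h)
  · intro h; exact absurd (Finset.mem_univ _) h
  · intro h; exact absurd (Finset.mem_univ _) h

lemma sum_aa_of_notMem {S : Finset ι} {o : ι → Fin N} {j : Fin N} {i : ι} (hi : i ∉ S)
    (w : (Fin N →₀ ℕ) → UR N d) :
    ∑ μ : Mon N (d i), aa (d := d) S o j ⟨i, μ⟩ * w μ.1 = 0 := by
  refine Finset.sum_eq_zero fun μ _ => ?_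
  rw [aa, if_neg hi, zero_mul]

lemma tr_aa_gU {S : Finset ι} {o : ι → Fin N} {j : Fin N} (ho : ∀ i ∈ S, o i ≠ j)
    (hd : ∀ i, 1 ≤ d i) (i : ι) :
    tr (aa S o j) 0 (gU d i) = Polynomial.C (gU d i) := by
  classical
  rw [gU_emb, tr_sum]
  have h : ∑ μ : Mon N (d i), aa (d := d) S o j ⟨i, μ⟩ * emb d (xm ℚ μ.1) = 0 := by
    by_cases hi : i ∈ S
    · rw [sum_aa_of_mem hi (ho i hi) (hd i) fun μ => emb d (xm ℚ μ), emb_xm, emb_xm]
      ring
    · exact sum_aa_of_notMem hi fun μ => emb d (xm ℚ μ)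
  rw [h]
  simp

/-- the derivative of the translation along a derivation -/
lemma der_formula {R : Type*} [CommRing R]
    (D : Derivation R (MvPolynomial (Fin N ⊕ Fin N) R) (MvPolynomial (Fin N ⊕ Fin N) R))
    {k : ℕ} (hk : 1 ≤ k) (j b : Fin N) :
    xm R (mu k j j) * D (xm R (mu k j b)) - xm R (mu k j b) * D (xm R (mu k j j)) =
      X (Sum.inl j) ^ (2 * (k - 1)) *
        (X (Sum.inl j) * D (X (Sum.inl b)) - X (Sum.inl b) * D (X (Sum.inl j))) := by
  obtain ⟨k, rfl⟩ : ∃ k', k = k' + 1 := ⟨k - 1, by omega⟩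
  rw [xm_mu, xm_mu, Nat.add_sub_cancel, Derivation.leibniz, Derivation.leibniz]
  simp only [smul_eq_mul]
  ring

lemma tr_aa_der {S : Finset ι} {o : ι → Fin N} {j : Fin N}
    (D : Derivation ℚ (MvPolynomial (Fin N ⊕ Fin N) ℚ) (MvPolynomial (Fin N ⊕ Fin N) ℚ)) {i : ι}
    (hi : i ∈ S) (ho : o i ≠ j) (hd : 1 ≤ d i) :
    tr (aa S o j) 0 (∑ μ : Mon N (d i), C (cf d i μ) * emb d (D (xm ℚ μ.1))) =
      Polynomial.C (∑ μ : Mon N (d i), C (cf d i μ) * emb d (D (xm ℚ μ.1))) +
      Polynomial.X * Polynomial.C (X (Sum.inl j) ^ (2 * (d i - 1)) *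
        emb d (X (Sum.inl j) * D (X (Sum.inl (o i))) - X (Sum.inl (o i)) * D (X (Sum.inl j)))) := by
  rw [tr_sum (aa S o j) i fun μ => D (xm ℚ μ),
    sum_aa_of_mem hi ho hd fun μ => emb d (D (xm ℚ μ)), ← emb_xm, ← emb_xm, ← map_mul, ← map_mul,
    ← map_sub, der_formula D hd, map_mul, map_pow, emb_X]

lemma tr_aa_der_notMem {S : Finset ι} {o : ι → Fin N} {j : Fin N}
    (D : Derivation ℚ (MvPolynomial (Fin N ⊕ Fin N) ℚ) (MvPolynomial (Fin N ⊕ Fin N) ℚ)) {i : ι}
    (hi : i ∉ S) :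
    tr (aa S o j) 0 (∑ μ : Mon N (d i), C (cf d i μ) * emb d (D (xm ℚ μ.1))) =
      Polynomial.C (∑ μ : Mon N (d i), C (cf d i μ) * emb d (D (xm ℚ μ.1))) := by
  rw [tr_sum (aa S o j) i fun μ => D (xm ℚ μ),
    sum_aa_of_notMem hi fun μ => emb d (D (xm ℚ μ)), Polynomial.C_0, mul_zero, add_zero]

lemma tr_aa_dgU {S : Finset ι} {o : ι → Fin N} {j : Fin N} {i : ι}
    (hi : i ∈ S) (ho : o i ≠ j) (hd : 1 ≤ d i) :
    tr (aa S o j) 0 (dgU d i) = Polynomial.C (dgU d i) +
      Polynomial.X * Polynomial.C (X (Sum.inl j) ^ (2 * (d i - 1)) *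
        (X (Sum.inl j) * X (Sum.inr (o i)) - X (Sum.inl (o i)) * X (Sum.inr j))) := by
  rw [dgU_emb, tr_aa_der Dm hi ho hd, Dm_inl, Dm_inl, map_sub, map_mul (emb d), map_mul (emb d),
    emb_X, emb_X, emb_X, emb_X]

lemma tr_aa_dgU_notMem {S : Finset ι} {o : ι → Fin N} {j : Fin N} {i : ι} (hi : i ∉ S) :
    tr (aa S o j) 0 (dgU d i) = Polynomial.C (dgU d i) := by
  rw [dgU_emb, tr_aa_der_notMem Dm hi]

lemma tr_zero_X (a : Coef N d → UR N d) (t : Fin N ⊕ Fin N) :
    tr a 0 (X t) = Polynomial.C (X t) := by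
  rw [tr_X]
  simp

open Classical in
/-- the increment of one coefficient -/
noncomputable def ac (i : ι) (μ : Fin N →₀ ℕ) (m : Coef N d) : UR N d :=
  if m.1 = i ∧ m.2.1 = μ then 1 else 0

lemma tr_ac_self {i : ι} {μ : Fin N →₀ ℕ} (hμ : μ.degree = d i) :
    tr (ac i μ) 0 (gU d i) = Polynomial.C (gU d i) + Polynomial.X * Polynomial.C (xm _ μ) := by
  rw [gU_emb, tr_sum (ac i μ) i fun μ => xm ℚ μ]
  congr 3
  rw [Finset.sum_eq_single (⟨μ, hμ⟩ : Mon N (d i))]
  · rw [ac, if_pos ⟨rfl, rfl⟩, one_mul, emb_xm]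
  · intro ν _ hν
    rw [ac, if_neg, zero_mul]
    rintro ⟨-, h⟩
    exact hν (Subtype.ext h)
  · intro h; exact absurd (Finset.mem_univ _) h

lemma tr_ac_ne {i k : ι} {μ : Fin N →₀ ℕ} (hk : k ≠ i) :
    tr (ac i μ) 0 (gU d k) = Polynomial.C (gU (N := N) d k) := by
  rw [gU_emb, tr_sum (ac i μ) k fun μ => xm ℚ μ]
  have h0 : ∑ ν : Mon N (d k), ac (d := d) i μ ⟨k, ν⟩ * emb d (xm ℚ ν.1) = 0 := by
    refine Finset.sum_eq_zero fun ν _ => ?_
    rw [ac, if_neg, zero_mul]
    rintro ⟨h, -⟩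
    exact hk h
  rw [h0, Polynomial.C_0, mul_zero, add_zero]

/-- the translation of the variables -/
lemma tr_gU_of_inl {e : Fin N ⊕ Fin N → UR N d} (he : ∀ j, e (Sum.inl j) = 0) (i : ι) :
    tr 0 e (gU d i) = Polynomial.C (gU d i) := by
  rw [gU, map_sum, map_sum]
  refine Finset.sum_congr rfl fun μ _ => ?_
  rw [map_mul, tr_C, Polynomial.C_mul]
  congr 1
  · simp
  · rw [xm, Finsupp.prod, map_prod, map_prod]
    refine Finset.prod_congr rfl fun j _ => ?_
    rw [map_pow, tr_X, he, Polynomial.C_0, mul_zero, add_zero, Polynomial.C_pow]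

end special

end Pool.Agent.Lib.GGL.CI
end

section

/-!
Regular sequences and prime ideals in the universal ring.
-/

open MvPolynomial

namespace Pool.Agent.Lib.GGL.CI

/-- an enumeration of the coordinates -/
def Enum {N : ℕ} (b : ℕ → Fin N) : Prop := ∀ s t, s < N → t < N → b s = b t → s = t

lemma exists_enum {N : ℕ} (j : Fin N) : ∃ b : ℕ → Fin N, Enum b ∧ b 0 = j := by
  have hN : 0 < N := j.pos
  refine ⟨fun t => if h : t < N then Equiv.swap ⟨0, hN⟩ j ⟨t, h⟩ else j, ?_, ?_⟩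
  · intro s t hs ht h
    simp only [dif_pos hs, dif_pos ht] at h
    exact congrArg Fin.val ((Equiv.swap _ _).injective h)
  · simp only [dif_pos hN, Equiv.swap_apply_left]

lemma exists_enum₂ {N : ℕ} {j k : Fin N} (hjk : j ≠ k) :
    ∃ b : ℕ → Fin N, Enum b ∧ b 0 = j ∧ b 1 = k := by
  have hN : 1 < N := by
    by_contra h
    apply hjk
    apply Fin.ext
    have := j.isLt
    have := k.isLt
    omega
  let σ : Equiv.Perm (Fin N) := Equiv.swap ⟨0, by omega⟩ j
  have hσ : σ ⟨0, by omega⟩ = j := Equiv.swap_apply_left _ _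
  let τ : Equiv.Perm (Fin N) := Equiv.swap (σ ⟨1, hN⟩) k
  have h0 : τ j = j := by
    apply Equiv.swap_apply_of_ne_of_ne
    · rw [← hσ]
      intro h
      have := σ.injective h
      simp at this
    · exact hjk
  have h1 : τ (σ ⟨1, hN⟩) = k := Equiv.swap_apply_left _ _
  refine ⟨fun t => if h : t < N then τ (σ ⟨t, h⟩) else j, ?_, ?_, ?_⟩
  · intro s t hs ht h
    simp only [dif_pos hs, dif_pos ht] at h
    exact congrArg Fin.val (σ.injective (τ.injective h))
  · beta_reduce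
    rw [dif_pos (by omega : 0 < N), hσ, h0]
  · beta_reduce
    rw [dif_pos hN, h1]

section stab

variable {Q : Type*} [CommRing Q]

lemma stable_span_of_fixed {τ : Q →+* Polynomial Q} {s : Set Q}
    (h : ∀ q ∈ s, τ q = Polynomial.C q) : Stable τ (Ideal.span s) := by
  apply stable_span
  intro q hq
  rw [h q hq]
  exact Ideal.mem_map_of_mem _ (Ideal.subset_span hq)

lemma nzd_one (I : Ideal Q) : Nzd 1 I := by
  intro q hq
  rwa [one_mul] at hq

end stab

section reg

variable {N : ℕ} {ι : Type} {d : ι → ℕ}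

/-- powers of the coordinates -/
noncomputable def rp (d : ι → ℕ) (b : ℕ → Fin N) (e : ℕ → ℕ) (t : ℕ) : UR N d :=
  X (Sum.inl (b t)) ^ e t

lemma regular_powers {b : ℕ → Fin N} (hb : Enum b) (A : Finset ι) :
    ∀ (e : ℕ → ℕ) (s : ℕ), s + A.card < N → Nzd (rp d b e s)
      (Ideal.span (gU d '' (A : Set ι)) ⊔ Ideal.span (rp d b e '' Set.Iio s)) := by
  classical
  induction A using Finset.induction_on with
  | empty =>
    intro e s hs
    rw [Finset.card_empty, add_zero] at hs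
    apply Nzd.pow
    have hst : Stable (tr (0 : Coef N d → UR N d) (Pi.single (Sum.inl (b s)) 1))
        (Ideal.span (gU d '' ((∅ : Finset ι) : Set ι)) ⊔ Ideal.span (rp d b e '' Set.Iio s)) := by
      apply Stable.sup
      · apply stable_span_of_fixed
        rintro q ⟨i, hi, -⟩
        simp at hi
      · apply stable_span_of_fixed
        rintro q ⟨t, ht, rfl⟩
        rw [Set.mem_Iio] at ht
        rw [rp, map_pow, tr_X, Pi.single_eq_of_ne, Polynomial.C_0, mul_zero, add_zero,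
          Polynomial.C_pow]
        intro h
        have := hb t s (by omega) hs (Sum.inl_injective h)
        omega
    refine nzd_of_translation (tr_coeff_zero _ _) hst (b := 1) ?_ (nzd_one _)
    rw [tr_X, Pi.single_eq_same]
  | insert i A hi ih =>
    intro e s hs
    rw [Finset.card_insert_of_notMem hi] at hs
    have key := grade_step (u := (1 : UR N d)) (r := rp d b e)
      (I := Ideal.span (gU d '' (A : Set ι))) (f := gU d i) (m := N - A.card)
      (m' := N - A.card - 1) (by omega)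
      (fun s hs => by
        rw [sat_one]
        exact ih e s (by omega))
      (fun s hs => by
        rw [sat_one]
        have hst : Stable (tr (ac i (Finsupp.single (b (s + 1)) (d i))) 0)
            (Ideal.span (gU d '' (A : Set ι)) ⊔ Ideal.span (rp d b e '' Set.Iio (s + 1))) := by
          apply Stable.sup
          · apply stable_span_of_fixed
            rintro q ⟨k, hk, rfl⟩
            apply tr_ac_ne
            rintro rfl
            exact hi hk
          · apply stable_span_of_fixed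
            rintro q ⟨t, ht, rfl⟩
            rw [rp, map_pow, tr_zero_X, Polynomial.C_pow]
        refine nzd_of_translation (tr_coeff_zero _ _) hst
          (tr_ac_self (Finsupp.degree_single _ _)) ?_
        rw [xm_single]
        have h1 := ih (Function.update e (s + 1) (d i)) (s + 1) (by omega)
        have h2 : rp d b (Function.update e (s + 1) (d i)) (s + 1) =
            X (Sum.inl (b (s + 1))) ^ d i := by
          rw [rp, Function.update_self]
        have h3 : rp d b (Function.update e (s + 1) (d i)) '' Set.Iio (s + 1) =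
            rp d b e '' Set.Iio (s + 1) := by
          apply Set.image_congr
          intro t ht
          rw [Set.mem_Iio] at ht
          rw [rp, rp, Function.update_of_ne (by omega)]
        rwa [h2, h3] at h1)
    have h4 := key s (by omega)
    rw [sat_one] at h4
    rw [Finset.coe_insert, Set.image_insert_eq, Ideal.span_insert, sup_comm (Ideal.span {gU d i})]
    exact h4

/-- the ideal of the forms in `A` and the differentials of the forms in `B` -/
noncomputable def IAB (d : ι → ℕ) (N : ℕ) (A B : Set ι) : Ideal (UR N d) :=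
  Ideal.span (gU d '' A) ⊔ Ideal.span (dgU d '' B)

lemma IAB_insert_left (A B : Set ι) (i : ι) :
    IAB d N (insert i A) B = IAB d N A B ⊔ Ideal.span {gU d i} := by
  rw [IAB, IAB, Set.image_insert_eq, Ideal.span_insert, sup_comm (Ideal.span {gU d i}),
    sup_assoc, sup_assoc, sup_comm (Ideal.span {gU d i})]

lemma IAB_insert_right (A B : Set ι) (i : ι) :
    IAB d N A (insert i B) = IAB d N A B ⊔ Ideal.span {dgU d i} := by
  rw [IAB, IAB, Set.image_insert_eq, Ideal.span_insert, sup_comm (Ideal.span {dgU d i}),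
    sup_assoc]

lemma gU_mem_IAB {A B : Set ι} {i : ι} (hi : i ∈ A) : gU d i ∈ IAB d N A B :=
  Ideal.mem_sup_left (Ideal.subset_span ⟨i, hi, rfl⟩)

lemma dgU_mem_IAB {A B : Set ι} {i : ι} (hi : i ∈ B) : dgU d i ∈ IAB d N A B :=
  Ideal.mem_sup_right (Ideal.subset_span ⟨i, hi, rfl⟩)

lemma IAB_mono {A A' B B' : Set ι} (hA : A ⊆ A') (hB : B ⊆ B') :
    IAB d N A B ≤ IAB d N A' B' :=
  sup_le_sup (Ideal.span_mono (Set.image_mono hA)) (Ideal.span_mono (Set.image_mono hB))

lemma Dm_map {R S : Type*} [CommRing R] [CommRing S] (f : R →+* S)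
    (φ : MvPolynomial (Fin N ⊕ Fin N) R) : map f (Dm φ) = Dm (map f φ) := by
  rw [Dm_apply, Dm_apply, map_sum]
  refine Finset.sum_congr rfl fun i _ => ?_
  rw [map_mul, map_X, ← pderiv_map]

/-- set `v = 0` -/
noncomputable def v0 (d : ι → ℕ) (N : ℕ) : UR N d →+* UR N d :=
  eval₂Hom C (Sum.elim (fun j => X (Sum.inl j)) 0)

lemma v0_inl (j : Fin N) : v0 d N (X (Sum.inl j)) = X (Sum.inl j) := by
  rw [v0, coe_eval₂Hom, eval₂_X, Sum.elim_inl]

lemma v0_inr (j : Fin N) : v0 d N (X (Sum.inr j)) = 0 := by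
  rw [v0, coe_eval₂Hom, eval₂_X, Sum.elim_inr]
  rfl

lemma v0_C (r : MvPolynomial (Coef N d) ℚ) : v0 d N (C r) = C r := by
  rw [v0, coe_eval₂Hom, eval₂_C]

lemma v0_xm (μ : Fin N →₀ ℕ) : v0 d N (xm _ μ) = xm _ μ := by
  rw [xm, Finsupp.prod, map_prod]
  refine Finset.prod_congr rfl fun j _ => ?_
  rw [map_pow, v0_inl]

lemma v0_gU (i : ι) : v0 d N (gU d i) = gU d i := by
  rw [gU, map_sum]
  refine Finset.sum_congr rfl fun μ _ => ?_
  rw [map_mul, v0_C, v0_xm]

lemma v0_Dm (φ : UR N d) : v0 d N (Dm φ) = 0 := by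
  rw [Dm_apply, map_sum]
  refine Finset.sum_eq_zero fun j _ => ?_
  rw [map_mul, v0_inr, zero_mul]

/-- set `x = v = 0` -/
noncomputable def x0 (d : ι → ℕ) (N : ℕ) : UR N d →+* MvPolynomial (Coef N d) ℚ :=
  constantCoeff

lemma x0_gU {i : ι} (hd : 1 ≤ d i) : x0 d N (gU d i) = 0 := by
  rw [gU, map_sum]
  refine Finset.sum_eq_zero fun μ _ => ?_
  rw [map_mul]
  have h1 : x0 d N (xm _ μ.1) = 0 := by
    rw [xm, Finsupp.prod, map_prod]
    have h2 : μ.1 ≠ 0 := by
      intro h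
      have h3 := μ.2
      rw [h, map_zero] at h3
      omega
    obtain ⟨j, hj⟩ := Finsupp.support_nonempty_iff.mpr h2
    apply Finset.prod_eq_zero hj
    rw [map_pow, x0, constantCoeff_X, zero_pow (Finsupp.mem_support_iff.mp hj)]
  rw [h1, mul_zero]

lemma nzd_X {A : Finset ι} (hA : A.card < N) (j : Fin N) :
    Nzd (X (Sum.inl j)) (Ideal.span (gU (N := N) d '' (A : Set ι))) := by
  obtain ⟨b, hb, hb0⟩ := exists_enum j
  have h1 := regular_powers (d := d) hb A (fun _ => 1) 0 (by omega)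
  rw [rp, pow_one, hb0] at h1
  have h2 : Set.Iio 0 = (∅ : Set ℕ) := by ext; simp
  rw [h2, Set.image_empty, Ideal.span_empty, sup_bot_eq] at h1
  exact h1

lemma nzd_xm {A : Finset ι} (hA : A.card < N) (μ : Fin N →₀ ℕ) :
    Nzd (xm _ μ) (Ideal.span (gU (N := N) d '' (A : Set ι))) := by
  rw [xm, Finsupp.prod]
  induction μ.support using Finset.induction_on with
  | empty => rw [Finset.prod_empty]; exact nzd_one _
  | insert a s ha ih =>
    rw [Finset.prod_insert ha]
    exact ((nzd_X hA a).pow _).mul ih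

/-- the non-zero multiples of monomials are not in the ideal -/
lemma notMem_IAB {A : Finset ι} (hA : A.card < N) (hd : ∀ i, 1 ≤ d i) (B : Set ι)
    {r : MvPolynomial (Coef N d) ℚ} (hr : r ≠ 0) (μ : Fin N →₀ ℕ) :
    xm _ μ * C r ∉ IAB d N A B := by
  intro h
  have h1 : IAB d N A B ≤ (Ideal.span (gU d '' (A : Set ι))).comap (v0 d N) := by
    rw [IAB, sup_le_iff, Ideal.span_le, Ideal.span_le]
    constructor
    · rintro q ⟨i, hi, rfl⟩
      rw [SetLike.mem_coe, Ideal.mem_comap, v0_gU]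
      exact Ideal.subset_span ⟨i, hi, rfl⟩
    · rintro q ⟨i, hi, rfl⟩
      rw [SetLike.mem_coe, Ideal.mem_comap, dgU_eq, v0_Dm]
      exact Ideal.zero_mem _
  have h2 := h1 h
  rw [Ideal.mem_comap, map_mul, v0_xm, v0_C] at h2
  have h3 := nzd_xm hA μ _ h2
  have h4 : Ideal.span (gU (N := N) d '' (A : Set ι)) ≤ RingHom.ker (x0 d N) := by
    rw [Ideal.span_le]
    rintro q ⟨i, hi, rfl⟩
    rw [SetLike.mem_coe, RingHom.mem_ker, x0_gU (hd i)]
  have h5 := h4 h3
  rw [RingHom.mem_ker, x0, constantCoeff_C] at h5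
  exact hr h5

/-- the linear forms of the chart -/
noncomputable def pl (d : ι → ℕ) (b : ℕ → Fin N) (s : ℕ) : UR N d :=
  X (Sum.inl (b 0)) * X (Sum.inr (b (s + 1))) - X (Sum.inl (b (s + 1))) * X (Sum.inr (b 0))

lemma tr_pl (a : Coef N d → UR N d) (b : ℕ → Fin N) (s : ℕ) :
    tr a 0 (pl d b s) = Polynomial.C (pl d b s) := by
  rw [pl, map_sub, map_mul, map_mul, tr_zero_X, tr_zero_X, tr_zero_X, tr_zero_X, Polynomial.C_sub,
    Polynomial.C_mul, Polynomial.C_mul]

lemma nzd_pl {b : ℕ → Fin N} (hb : Enum b) (hd : ∀ i, 1 ≤ d i) (A : Set ι) (B : Finset ι) :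
    ∀ s : ℕ, s + 1 + B.card < N → Nzd (pl d b s)
      (sat (X (Sum.inl (b 0))) (IAB d N A B ⊔ Ideal.span (pl d b '' Set.Iio s))) := by
  classical
  induction B using Finset.induction_on with
  | empty =>
    intro s hs
    rw [Finset.card_empty, add_zero] at hs
    have hx : ∀ k, tr (0 : Coef N d → UR N d) (Pi.single (Sum.inr (b (s + 1))) 1)
        (X (Sum.inl k)) = Polynomial.C (X (Sum.inl k)) := by
      intro k
      rw [tr_X, Pi.single_eq_of_ne (by simp), Polynomial.C_0, mul_zero, add_zero]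
    have hv : ∀ t, t ≤ s → tr (0 : Coef N d → UR N d) (Pi.single (Sum.inr (b (s + 1))) 1)
        (X (Sum.inr (b t))) = Polynomial.C (X (Sum.inr (b t))) := by
      intro t ht
      rw [tr_X, Pi.single_eq_of_ne, Polynomial.C_0, mul_zero, add_zero]
      intro h
      have := hb t (s + 1) (by omega) hs (Sum.inr_injective h)
      omega
    have hst : Stable (tr (0 : Coef N d → UR N d) (Pi.single (Sum.inr (b (s + 1))) 1))
        (sat (X (Sum.inl (b 0))) (IAB d N A ((∅ : Finset ι) : Set ι) ⊔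
          Ideal.span (pl d b '' Set.Iio s))) := by
      refine Stable.sat (Stable.sup (Stable.sup ?_ ?_) ?_) (hx _)
      · apply stable_span_of_fixed
        rintro q ⟨i, hi, rfl⟩
        apply tr_gU_of_inl
        intro k
        rw [Pi.single_eq_of_ne (by simp)]
      · apply stable_span_of_fixed
        rintro q ⟨i, hi, -⟩
        simp at hi
      · apply stable_span_of_fixed
        rintro q ⟨t, ht, rfl⟩
        rw [Set.mem_Iio] at ht
        rw [pl, map_sub, map_mul, map_mul, hx, hx, hv 0 (by omega), hv (t + 1) (by omega),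
          Polynomial.C_sub, Polynomial.C_mul, Polynomial.C_mul]
    refine nzd_of_translation (tr_coeff_zero _ _) hst (b := X (Sum.inl (b 0))) ?_ (nzd_self_sat _ _)
    rw [pl, map_sub, map_mul, map_mul, hx, hx, hv 0 (by omega), tr_X, Pi.single_eq_same,
      Polynomial.C_sub, Polynomial.C_mul, Polynomial.C_mul, Polynomial.C_1]
    ring
  | insert i B hi ih =>
    intro s hs
    rw [Finset.card_insert_of_notMem hi] at hs
    have key := grade_step (u := (X (Sum.inl (b 0)) : UR N d)) (r := pl d b)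
      (I := IAB d N A B) (f := dgU d i) (m := N - 1 - B.card)
      (m' := N - 1 - B.card - 1) (by omega)
      (fun s hs => ih s (by omega))
      (fun s hs => by
        have ho : b (s + 2) ≠ b 0 := by
          intro h
          have := hb (s + 2) 0 (by omega) (by omega) h
          omega
        have hst : Stable (tr (aa {i} (fun _ => b (s + 2)) (b 0)) 0)
            (sat (X (Sum.inl (b 0))) (IAB d N A B ⊔ Ideal.span (pl d b '' Set.Iio (s + 1)))) := by
          refine Stable.sat (Stable.sup (Stable.sup ?_ ?_) ?_) (tr_zero_X _ _)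
          · apply stable_span_of_fixed
            rintro q ⟨k, hk, rfl⟩
            exact tr_aa_gU (fun _ _ => ho) hd k
          · apply stable_span_of_fixed
            rintro q ⟨k, hk, rfl⟩
            apply tr_aa_dgU_notMem
            rw [Finset.mem_singleton]
            rintro rfl
            exact hi hk
          · apply stable_span_of_fixed
            rintro q ⟨t, ht, rfl⟩
            exact tr_pl _ _ _
        refine nzd_of_translation (tr_coeff_zero _ _) hst
          (tr_aa_dgU (Finset.mem_singleton_self i) ho (hd i)) ?_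
        apply Nzd.mul ((nzd_self_sat _ _).pow _)
        exact ih (s + 1) (by omega))
    have h4 := key s (by omega)
    rw [Finset.coe_insert, IAB_insert_right]
    exact h4

end reg

end Pool.Agent.Lib.GGL.CI
end
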