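import Mathlib
import Pool.Agent.Lib.MP_8d161d_ag.Mg.G039
import Pool.Agent.Lib.MP_8d161d_ag.Point

section

/-!
Local structure of an invariant form along a curve.
-/

open Filter Topology Metric MvPolynomial

namespace Pool.Agent.Lib.GGL

/-- `G` is divisible, at every point, by the equations of the hyperplanes through the point:
for every `Z` in `𝓩` it is a polynomial in the pairs `(p_j · y, p_j · w)`, `j ∈ Z`, every monomial
of which contains `p_j · y` or `p_j · w` for each `j ∈ Z`. -/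
def Divides {n : ℕ} {H : Type*} (p : H → Fin (n + 1) → ℂ) (𝓩 : Finset (Finset H))
    (G : (Fin (n + 1) → ℂ) → (Fin (n + 1) → ℂ) → ℂ) : Prop :=
  ∀ Z ∈ 𝓩, ∃ (s : Fin (n + 1) → H) (Q : MvPolynomial (Fin (n + 1) ⊕ Fin (n + 1)) ℂ),
    Function.Injective s ∧ (∀ j, j ∈ Z ↔ ∃ i, s i = j) ∧
    (∀ y w, G y w = eval (Sum.elim (fun i => p (s i) ⬝ᵥ y) (fun i => p (s i) ⬝ᵥ w)) Q) ∧
    ∀ d ∈ Q.support, ∀ i, d (Sum.inl i) + d (Sum.inr i) ≠ 0

/-- the quotient -/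
noncomputable def quo {N : ℕ} (Q : MvPolynomial (Fin N ⊕ Fin N) ℂ) (t a b : Fin N → ℂ) : ℂ :=
  ∑ d ∈ Q.support, coeff d Q * ∏ i, (t i ^ (d (Sum.inl i) + d (Sum.inr i) - 1) *
    (a i ^ d (Sum.inl i) * b i ^ d (Sum.inr i)))

lemma eval_eq_quo {N : ℕ} {Q : MvPolynomial (Fin N ⊕ Fin N) ℂ}
    (hQ : ∀ d ∈ Q.support, ∀ i, d (Sum.inl i) + d (Sum.inr i) ≠ 0) (t a b : Fin N → ℂ) :
    eval (Sum.elim (fun i => t i * a i) (fun i => t i * b i)) Q = (∏ i, t i) * quo Q t a b := by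
  rw [eval_eq, quo, Finset.mul_sum]
  refine Finset.sum_congr rfl fun d hd => ?_
  have h1 : ∏ i ∈ d.support, (Sum.elim (fun i => t i * a i) (fun i => t i * b i)) i ^ d i =
      ∏ i, ((t i * a i) ^ d (Sum.inl i) * (t i * b i) ^ d (Sum.inr i)) := by
    rw [Finset.prod_mul_distrib]
    have := Fintype.prod_sum_type (fun i : Fin N ⊕ Fin N =>
      (Sum.elim (fun i => t i * a i) (fun i => t i * b i)) i ^ d i)
    simp only [Sum.elim_inl, Sum.elim_inr] at this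
    rw [← this]
    apply Finset.prod_subset (Finset.subset_univ _)
    intro i _ hi
    rw [Finsupp.notMem_support_iff.mp hi, pow_zero]
  rw [h1, ← mul_assoc, mul_comm (∏ i, t i), mul_assoc, ← Finset.prod_mul_distrib]
  congr 1
  refine Finset.prod_congr rfl fun i _ => ?_
  obtain ⟨c, hc⟩ := Nat.exists_eq_succ_of_ne_zero (hQ d hd i)
  have h2 : t i ^ (d (Sum.inl i) + d (Sum.inr i)) =
      t i * t i ^ (d (Sum.inl i) + d (Sum.inr i) - 1) := by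
    rw [hc, Nat.succ_sub_one, pow_succ]
    ring
  rw [mul_pow, mul_pow]
  calc t i ^ d (Sum.inl i) * a i ^ d (Sum.inl i) * (t i ^ d (Sum.inr i) * b i ^ d (Sum.inr i))
      = t i ^ (d (Sum.inl i) + d (Sum.inr i)) *
        (a i ^ d (Sum.inl i) * b i ^ d (Sum.inr i)) := by rw [pow_add]; ring
    _ = _ := by rw [h2]; ring

lemma analyticAt_quo {N : ℕ} (Q : MvPolynomial (Fin N ⊕ Fin N) ℂ) {t a b : ℂ → Fin N → ℂ} {z₁ : ℂ}
    (ht : ∀ i, AnalyticAt ℂ (fun z => t z i) z₁) (ha : ∀ i, AnalyticAt ℂ (fun z => a z i) z₁)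
    (hb : ∀ i, AnalyticAt ℂ (fun z => b z i) z₁) :
    AnalyticAt ℂ (fun z => quo Q (t z) (a z) (b z)) z₁ := by
  unfold quo
  apply Finset.analyticAt_fun_sum
  intro d _
  apply analyticAt_const.mul
  apply Finset.analyticAt_fun_prod
  intro i _
  exact ((ht i).pow _).mul (((ha i).pow _).mul ((hb i).pow _))

lemma norm_quo_le {N : ℕ} (Q : MvPolynomial (Fin N ⊕ Fin N) ℂ) {c : ℝ} (hc : 1 ≤ c) :
    ∃ C : ℝ, 0 ≤ C ∧ ∀ t a b : Fin N → ℂ, (∀ i, ‖t i‖ ≤ 1) → (∀ i, ‖a i‖ ≤ 1) →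
      (∀ i, ‖b i‖ ≤ c) → ‖quo Q t a b‖ ≤ C := by
  refine ⟨∑ d ∈ Q.support, ‖coeff d Q‖ * ∏ i : Fin N, c ^ d (Sum.inr i), ?_, ?_⟩
  · exact Finset.sum_nonneg fun d _ => by positivity
  · intro t a b ht ha hb
    unfold quo
    refine (norm_sum_le _ _).trans (Finset.sum_le_sum fun d _ => ?_)
    rw [norm_mul, norm_prod]
    gcongr with i
    rw [norm_mul, norm_mul, norm_pow, norm_pow, norm_pow]
    calc ‖t i‖ ^ (d (Sum.inl i) + d (Sum.inr i) - 1) * (‖a i‖ ^ d (Sum.inl i) * ‖b i‖ ^ d (Sum.inr i))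
        ≤ 1 * (1 * c ^ d (Sum.inr i)) := by
          gcongr
          · exact pow_le_one₀ (norm_nonneg _) (ht i)
          · exact pow_le_one₀ (norm_nonneg _) (ha i)
          · exact hb i
      _ = c ^ d (Sum.inr i) := by ring

section

variable {n : ℕ} {H : Type*} [Fintype H] [DecidableEq H] (p : H → Fin (n + 1) → ℂ)

lemma exists_kh {v : Fin (n + 1) → ℂ} {y : ℂ → Fin (n + 1) → ℂ} {z₁ : ℂ}
    (hy : AnalyticAt ℂ y z₁) {μ : ℕ} {g : ℂ → ℂ} (hg : AnalyticAt ℂ g z₁)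
    (h : ∀ᶠ z in 𝓝 z₁, v ⬝ᵥ y z = (z - z₁) ^ μ * g z) :
    ∃ a b : ℂ → ℂ, AnalyticAt ℂ a z₁ ∧ AnalyticAt ℂ b z₁ ∧
      (∀ᶠ z in 𝓝 z₁, v ⬝ᵥ y z = (z - z₁) ^ (μ - 1) * a z) ∧
      ∀ᶠ z in 𝓝 z₁, v ⬝ᵥ deriv y z = (z - z₁) ^ (μ - 1) * b z := by
  have hdl : ∀ᶠ z in 𝓝 z₁, v ⬝ᵥ deriv y z = deriv (fun z => (z - z₁) ^ μ * g z) z := by
    have h1 : (fun z => v ⬝ᵥ y z) =ᶠ[𝓝 z₁] fun z => (z - z₁) ^ μ * g z := h
    filter_upwards [h1.deriv, hy.eventually_analyticAt] with z h2 h3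
    rw [← h2, deriv_dotProduct h3]
  have hgd : AnalyticAt ℂ (deriv g) z₁ := hg.deriv
  have hsub : AnalyticAt ℂ (fun z => z - z₁) z₁ := analyticAt_id.sub analyticAt_const
  rcases Nat.eq_zero_or_pos μ with hμ | hμ
  · subst hμ
    refine ⟨g, deriv g, hg, hgd, ?_, ?_⟩
    · filter_upwards [h] with z hz
      rw [hz]
    · filter_upwards [hdl] with z hz
      rw [hz]
      simp
  · refine ⟨fun z => (z - z₁) * g z, fun z => μ * g z + (z - z₁) * deriv g z, hsub.mul hg,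
      (analyticAt_const.mul hg).add (hsub.mul hgd), ?_, ?_⟩
    · filter_upwards [h] with z hz
      rw [hz, ← mul_assoc, ← pow_succ]
      congr 2
      omega
    · filter_upwards [hdl, hg.eventually_analyticAt] with z h2 h3
      have h4 : HasDerivAt (fun z => (z - z₁) ^ μ * g z)
          (μ * (z - z₁) ^ (μ - 1) * g z + (z - z₁) ^ μ * deriv g z) z := by
        have h5 : HasDerivAt (fun z => (z - z₁) ^ μ) (μ * (z - z₁) ^ (μ - 1)) z := by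
          have h7 := ((hasDerivAt_id z).sub_const z₁).pow μ
          have h8 : (μ * (z - z₁) ^ (μ - 1) : ℂ) = μ * (id z - z₁) ^ (μ - 1) * 1 := by
            rw [mul_one, id]
          rw [h8]
          exact h7
        exact h5.mul h3.differentiableAt.hasDerivAt
      rw [h4.deriv] at h2
      have h6 : (z - z₁) ^ μ = (z - z₁) ^ (μ - 1) * (z - z₁) := by
        rw [← pow_succ]
        congr 1
        omega
      rw [h2, h6]
      ring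

/-- Local structure of an invariant form along a curve. -/
theorem local_structure2 {m : ℕ} (hm : 0 < m) (𝓩 : Finset (Finset H))
    (hcov : ∀ y : Fin (n + 1) → ℂ, y ≠ 0 → ∃ B ∈ 𝓩, ∀ j, p j ⬝ᵥ y = 0 → j ∈ B)
    (G : (Fin (n + 1) → ℂ) → (Fin (n + 1) → ℂ) → ℂ) (hG : Divides p 𝓩 G)
    {z₁ : ℂ} {y : ℂ → Fin (n + 1) → ℂ} (hy : AnalyticAt ℂ y z₁) (hy0 : y z₁ ≠ 0)
    (htop : ∀ j, analyticOrderAt (fun z => p j ⬝ᵥ y z) z₁ ≠ ⊤)
    (hord : ∀ j, analyticOrderAt (fun z => p j ⬝ᵥ y z) z₁ = 0 ∨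
      (m : ℕ∞) ≤ analyticOrderAt (fun z => p j ⬝ᵥ y z) z₁) :
    ∃ σ : ℂ → ℂ, AnalyticAt ℂ σ z₁ ∧
      (∀ᶠ z in 𝓝 z₁, G (y z) (deriv y z) ^ m = σ z * (∏ j, p j ⬝ᵥ y z) ^ (m - 1)) ∧
      (σ z₁ ≠ 0 → ∃ x : ℂ → EuclideanSpace ℂ H, AnalyticAt ℂ x z₁ ∧
        ∀ᶠ z in 𝓝 z₁, ∀ j, p j ⬝ᵥ y z = x z j ^ m ∧
          p j ⬝ᵥ deriv y z = m * x z j ^ (m - 1) * deriv x z j) := by
  have hl : ∀ j, AnalyticAt ℂ (fun z => p j ⬝ᵥ y z) z₁ := fun j => analyticAt_dotProduct hy _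
  have h1 : ∀ j, ∃ (μ : ℕ) (g : ℂ → ℂ), AnalyticAt ℂ g z₁ ∧ g z₁ ≠ 0 ∧
      (∀ᶠ z in 𝓝 z₁, p j ⬝ᵥ y z = (z - z₁) ^ μ * g z) ∧ (μ = 0 ∨ m ≤ μ) := by
    intro j
    obtain ⟨g, hg1, hg2, hg3⟩ := (hl j).analyticOrderAt_ne_top.mp (htop j)
    refine ⟨analyticOrderNatAt (fun z => p j ⬝ᵥ y z) z₁, g, hg1, hg2, ?_, ?_⟩
    · filter_upwards [hg3] with z hz
      rw [hz, smul_eq_mul]
    · have h2 := Nat.cast_analyticOrderNatAt (htop j)
      rcases hord j with h | h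
      · left
        rw [h] at h2
        exact_mod_cast h2
      · right
        rw [← h2] at h
        exact_mod_cast h
  choose μ g hg hg0 hlg hμ using h1
  choose a b ha hb hay hby using fun j => exists_kh (v := p j) hy (hg j) (hlg j)
  obtain ⟨Z, hZ, hBz⟩ := hcov (y z₁) hy0
  obtain ⟨s, Q, hs, hsZ, hGQ, hQ⟩ := hG Z hZ
  have hμB : ∀ j, (∀ i, s i ≠ j) → μ j = 0 := by
    intro j hj
    by_contra hne
    obtain ⟨i, hi⟩ := (hsZ j).mp (hBz j (by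
      rw [(hlg j).self_of_nhds, sub_self, zero_pow hne, zero_mul]))
    exact hj i hi
  have hsub : AnalyticAt ℂ (fun z => z - z₁) z₁ := analyticAt_id.sub analyticAt_const
  obtain ⟨Gt, hGt⟩ : ∃ Gt : ℂ → ℂ, Gt = fun z =>
    quo Q (fun i => (z - z₁) ^ (μ (s i) - 1)) (fun i => a (s i) z) (fun i => b (s i) z) := ⟨_, rfl⟩
  have hGtan : AnalyticAt ℂ Gt z₁ := by
    rw [hGt]
    exact analyticAt_quo Q (t := fun z i => (z - z₁) ^ (μ (s i) - 1)) (a := fun z i => a (s i) z)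
      (b := fun z i => b (s i) z) (fun i => hsub.pow _) (fun i => ha _) (fun i => hb _)
  have hgprod : AnalyticAt ℂ (fun z => ∏ j, g j z) z₁ := by
    apply Finset.analyticAt_fun_prod
    intro j _
    exact hg j
  have hgprod0 : (∏ j, g j z₁) ≠ 0 := Finset.prod_ne_zero_iff.mpr fun j _ => hg0 j
  refine ⟨fun z => (z - z₁) ^ (∑ j, (μ j - m)) * Gt z ^ m / (∏ j, g j z) ^ (m - 1), ?_, ?_, ?_⟩
  · exact ((hsub.pow _).mul (hGtan.pow _)).div (hgprod.pow _) (pow_ne_zero _ hgprod0)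
  · have hall1 : ∀ᶠ z in 𝓝 z₁, ∀ j, p j ⬝ᵥ y z = (z - z₁) ^ μ j * g j z := by
      rw [Filter.eventually_all]; exact hlg
    have hall2 : ∀ᶠ z in 𝓝 z₁, ∀ j, p j ⬝ᵥ y z = (z - z₁) ^ (μ j - 1) * a j z := by
      rw [Filter.eventually_all]; exact hay
    have hall2' : ∀ᶠ z in 𝓝 z₁, ∀ j, p j ⬝ᵥ deriv y z = (z - z₁) ^ (μ j - 1) * b j z := by
      rw [Filter.eventually_all]; exact hby
    have hall3 : ∀ᶠ z in 𝓝 z₁, (∏ j, g j z) ≠ 0 := hgprod.continuousAt.eventually_ne hgprod0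
    filter_upwards [hall1, hall2, hall2', hall3] with z g1 g2 g2' g3
    have e1 : G (y z) (deriv y z) = (z - z₁) ^ (∑ j, (μ j - 1)) * Gt z := by
      rw [hGQ, hGt]
      simp only [g2, g2']
      rw [eval_eq_quo hQ (fun i => (z - z₁) ^ (μ (s i) - 1)) (fun i => a (s i) z)
        (fun i => b (s i) z)]
      congr 1
      rw [Finset.prod_pow_eq_pow_sum]
      congr 1
      apply Fintype.sum_of_injective s hs
      · intro j hj
        rw [hμB j fun i hi => hj ⟨i, hi⟩, Nat.zero_sub]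
      · intro i
        rfl
    rw [e1]
    have e3 : (∏ j, p j ⬝ᵥ y z) = (z - z₁) ^ (∑ j, μ j) * ∏ j, g j z := by
      rw [← Finset.prod_pow_eq_pow_sum, ← Finset.prod_mul_distrib]
      exact Finset.prod_congr rfl fun j _ => g1 j
    rw [e3, mul_pow, mul_pow, ← pow_mul, ← pow_mul]
    have e4 : (∑ j, (μ j - 1)) * m = (∑ j, (μ j - m)) + (∑ j, μ j) * (m - 1) := by
      rw [Finset.sum_mul, Finset.sum_mul, ← Finset.sum_add_distrib]
      refine Finset.sum_congr rfl fun j _ => ?_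
      rcases hμ j with h | h
      · rw [h]; simp
      · obtain ⟨t, ht⟩ := Nat.exists_eq_add_of_le h
        obtain ⟨m', rfl⟩ : ∃ m', m = m' + 1 := ⟨m - 1, by omega⟩
        rw [ht]
        have h5 : m' + 1 + t - 1 = m' + t := by omega
        have h6 : m' + 1 + t - (m' + 1) = t := by omega
        rw [h5, h6, Nat.add_sub_cancel]
        ring
    rw [e4, pow_add]
    field_simp
  · intro hσ
    have e0 : ∑ j, (μ j - m) = 0 := by
      by_contra hne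
      apply hσ
      beta_reduce
      rw [sub_self, zero_pow hne, zero_mul, zero_div]
    have e1 : ∀ j, μ j = μ j / m * m := by
      intro j
      have h2 : μ j - m = 0 := by
        have := (Finset.sum_eq_zero_iff.mp e0) j (Finset.mem_univ _)
        exact this
      rcases hμ j with h | h
      · rw [h]; simp
      · have h3 : μ j = m := by omega
        rw [h3, Nat.div_self hm, one_mul]
    choose r hr hrg using fun j => exists_root (hg j) (hg0 j) hm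
    obtain ⟨x, hx⟩ : ∃ x : ℂ → EuclideanSpace ℂ H, x = fun z =>
      WithLp.toLp 2 (fun j => (z - z₁) ^ (μ j / m) * r j z) := ⟨_, rfl⟩
    have hxan : AnalyticAt ℂ x z₁ := by
      have h1 : AnalyticAt ℂ (fun z => fun j => (z - z₁) ^ (μ j / m) * r j z) z₁ := by
        rw [analyticAt_pi_iff]
        intro j
        exact (hsub.pow _).mul (hr j)
      have h2 : x = (EuclideanSpace.equiv H ℂ).symm ∘
        (fun z => fun j => (z - z₁) ^ (μ j / m) * r j z) := by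
        rw [hx]; rfl
      rw [h2]
      exact (((EuclideanSpace.equiv H ℂ).symm : (H → ℂ) →L[ℂ] EuclideanSpace ℂ H).analyticAt
        _).comp h1
    have hxj : ∀ z j, x z j = (z - z₁) ^ (μ j / m) * r j z := by
      intro z j
      rw [hx]
    have hpow : ∀ j, ∀ᶠ z in 𝓝 z₁, p j ⬝ᵥ y z = x z j ^ m := by
      intro j
      filter_upwards [hlg j, hrg j] with z g1 g2
      rw [g1, hxj, mul_pow, g2, ← pow_mul, ← e1]
    refine ⟨x, hxan, ?_⟩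
    rw [Filter.eventually_all]
    intro j
    have h5 : (fun z => p j ⬝ᵥ y z) =ᶠ[𝓝 z₁] fun z => x z j ^ m := hpow j
    filter_upwards [hpow j, h5.deriv, hxan.eventually_analyticAt, hy.eventually_analyticAt]
      with z g1 g2 g3 g4
    refine ⟨g1, ?_⟩
    rw [← deriv_dotProduct g4, g2]
    have h6 : HasDerivAt x (deriv x z) z := g3.differentiableAt.hasDerivAt
    have h7 : HasDerivAt (fun z => x z j) (deriv x z j) z := by
      have := (EuclideanSpace.proj (𝕜 := ℂ) j).hasFDerivAt.comp_hasDerivAt z h6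
      exact this
    exact (h7.pow m).deriv

end

end Pool.Agent.Lib.GGL
end

section

/-!
Pointwise estimate for invariant forms in one-jets.
-/

open Filter Topology Metric MvPolynomial

namespace Pool.Agent.Lib.GGL

section

variable {n : ℕ} {H : Type*} [Fintype H] [DecidableEq H] (p : H → Fin (n + 1) → ℂ)

/-- The estimate on the unit sphere. -/
lemma pointwise_unit {m : ℕ} (hm : 0 < m) (𝓩 : Finset (Finset H))
    (hcov : ∀ y : Fin (n + 1) → ℂ, y ≠ 0 → ∃ B ∈ 𝓩, ∀ j, p j ⬝ᵥ y = 0 → j ∈ B)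
    (G : (Fin (n + 1) → ℂ) → (Fin (n + 1) → ℂ) → ℂ) (hG : Divides p 𝓩 G) :
    ∃ C : ℝ, 0 ≤ C ∧ ∀ (x v : EuclideanSpace ℂ H) (y w : Fin (n + 1) → ℂ), ‖x‖ = 1 → ‖v‖ ≤ 1 →
      (∀ j, p j ⬝ᵥ y = x j ^ m) → (∀ j, p j ⬝ᵥ w = m * x j ^ (m - 1) * v j) →
        ‖G y w‖ ≤ C * ∏ j, ‖x j‖ ^ (m - 1) := by
  obtain ⟨c, hc, hlow⟩ := lower_bound p m (m - 1) 𝓩 hcov hm
  have hup : ∀ Z ∈ 𝓩, ∃ C : ℝ, 0 ≤ C ∧ ∀ (x v : EuclideanSpace ℂ H) (y w : Fin (n + 1) → ℂ),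
      ‖x‖ = 1 → ‖v‖ ≤ 1 → (∀ j, p j ⬝ᵥ y = x j ^ m) →
      (∀ j, p j ⬝ᵥ w = m * x j ^ (m - 1) * v j) → ‖G y w‖ ≤ C * ∏ j ∈ Z, ‖x j‖ ^ (m - 1) := by
    intro Z hZ
    obtain ⟨s, Q, hs, hsZ, hGQ, hQ⟩ := hG Z hZ
    obtain ⟨C, hC0, hC⟩ := norm_quo_le Q (c := m) (by exact_mod_cast hm)
    refine ⟨C, hC0, ?_⟩
    intro x v y w hx hv hxy hxw
    have hxj : ∀ j, ‖x j‖ ≤ 1 := fun j => (PiLp.norm_apply_le x j).trans hx.le
    have hvj : ∀ j, ‖v j‖ ≤ 1 := fun j => (PiLp.norm_apply_le v j).trans hv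
    have h1 : G y w = (∏ i, x (s i) ^ (m - 1)) * quo Q (fun i => x (s i) ^ (m - 1))
        (fun i => x (s i)) (fun i => m * v (s i)) := by
      rw [hGQ, ← eval_eq_quo hQ (fun i => x (s i) ^ (m - 1)) (fun i => x (s i))
        (fun i => m * v (s i))]
      congr 2
      · congr 1
        · funext i
          rw [hxy, ← pow_succ]
          congr 1
          omega
        · funext i
          rw [hxw]
          ring
    have h2 : ∏ j ∈ Z, ‖x j‖ ^ (m - 1) = ∏ i, ‖x (s i)‖ ^ (m - 1) := by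
      symm
      apply Finset.prod_bij (fun i _ => s i)
      · intro i _
        exact (hsZ _).mpr ⟨i, rfl⟩
      · intro i _ i' _ h
        exact hs h
      · intro j hj
        obtain ⟨i, hi⟩ := (hsZ j).mp hj
        exact ⟨i, Finset.mem_univ _, hi⟩
      · intro i _
        rfl
    rw [h1, norm_mul, h2, mul_comm, norm_prod]
    have h3 : ∏ i, ‖x (s i) ^ (m - 1)‖ = ∏ i, ‖x (s i)‖ ^ (m - 1) :=
      Finset.prod_congr rfl fun i _ => norm_pow _ _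
    rw [h3]
    apply mul_le_mul_of_nonneg_right _ (Finset.prod_nonneg fun i _ => by positivity)
    apply hC
    · intro i
      rw [norm_pow]
      exact pow_le_one₀ (norm_nonneg _) (hxj _)
    · intro i
      exact hxj _
    · intro i
      rw [norm_mul, Complex.norm_natCast]
      calc (m : ℝ) * ‖v (s i)‖ ≤ m * 1 := by gcongr; exact hvj _
        _ = m := mul_one _
  choose! C hC0 hC using hup
  refine ⟨(∑ Z ∈ 𝓩, C Z) / c, ?_, ?_⟩
  · have : 0 ≤ ∑ Z ∈ 𝓩, C Z := Finset.sum_nonneg hC0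
    positivity
  intro x v y w hx hv hxy hxw
  have h1 := hlow x y hx hxy
  have hU : ∀ Z ∈ 𝓩, ‖G y w‖ * ∏ j ∈ Zᶜ, ‖x j‖ ^ (m - 1) ≤ C Z * ∏ j, ‖x j‖ ^ (m - 1) := by
    intro Z hZ
    have h2 := hC Z hZ x v y w hx hv hxy hxw
    calc ‖G y w‖ * ∏ j ∈ Zᶜ, ‖x j‖ ^ (m - 1)
        ≤ (C Z * ∏ j ∈ Z, ‖x j‖ ^ (m - 1)) * ∏ j ∈ Zᶜ, ‖x j‖ ^ (m - 1) :=
          mul_le_mul_of_nonneg_right h2 (Finset.prod_nonneg fun i _ => by positivity)
      _ = C Z * ((∏ j ∈ Z, ‖x j‖ ^ (m - 1)) * ∏ j ∈ Zᶜ, ‖x j‖ ^ (m - 1)) := by ring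
      _ = _ := by rw [Finset.prod_mul_prod_compl]
  have h3 : ‖G y w‖ * c ≤ (∑ Z ∈ 𝓩, C Z) * ∏ j, ‖x j‖ ^ (m - 1) := by
    calc ‖G y w‖ * c ≤ ‖G y w‖ * ∑ Z ∈ 𝓩, ∏ j ∈ Zᶜ, ‖x j‖ ^ (m - 1) :=
          mul_le_mul_of_nonneg_left h1 (norm_nonneg _)
      _ = ∑ Z ∈ 𝓩, ‖G y w‖ * ∏ j ∈ Zᶜ, ‖x j‖ ^ (m - 1) := by rw [Finset.mul_sum]
      _ ≤ ∑ Z ∈ 𝓩, C Z * ∏ j, ‖x j‖ ^ (m - 1) := Finset.sum_le_sum hU
      _ = _ := by rw [Finset.sum_mul]
  calc ‖G y w‖ = (‖G y w‖ * c) / c := by field_simp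
    _ ≤ ((∑ Z ∈ 𝓩, C Z) * ∏ j, ‖x j‖ ^ (m - 1)) / c := by gcongr
    _ = _ := by ring

/-- The main pointwise estimate for invariant forms. -/
theorem pointwise2 (hsep : ∀ y : Fin (n + 1) → ℂ, (∀ j, p j ⬝ᵥ y = 0) → y = 0)
    {m e s : ℕ} (hm : 0 < m) (he : 0 < e) (𝓩 : Finset (Finset H))
    (hcov : ∀ y : Fin (n + 1) → ℂ, y ≠ 0 → ∃ B ∈ 𝓩, ∀ j, p j ⬝ᵥ y = 0 → j ∈ B)
    (hs : s + 2 * m * e = (m - 1) * Fintype.card H)
    (G : (Fin (n + 1) → ℂ) → (Fin (n + 1) → ℂ) → ℂ) (hG : Divides p 𝓩 G)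
    (hJ1 : ∀ y w (l μ : ℂ), l ≠ 0 → G (l • y) (l • w + μ • y) = (l ^ 2) ^ e * G y w)
    (hJ2 : ∀ y w (c : ℂ), G y (c • w) = c ^ e * G y w) :
    ∃ C : ℝ, 0 ≤ C ∧ ∀ (x x' : EuclideanSpace ℂ H) (y w : Fin (n + 1) → ℂ), x ≠ 0 →
      (∀ j, p j ⬝ᵥ y = x j ^ m) → (∀ j, p j ⬝ᵥ w = m * x j ^ (m - 1) * x' j) → ∀ β : ℂ,
        ‖G y w‖ * ‖x‖ ^ s ≤ C * (∏ j, ‖x j‖ ^ (m - 1)) * (‖x' - β • x‖ / ‖x‖) ^ e := by
  obtain ⟨C, hC0, hC⟩ := pointwise_unit p hm 𝓩 hcov G hG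
  refine ⟨C, hC0, ?_⟩
  intro x x' y w hx hxy hxw β
  have hnx : 0 < ‖x‖ := norm_pos_iff.mpr hx
  obtain ⟨ρ, hρ⟩ : ∃ ρ, ρ = ‖x‖ := ⟨_, rfl⟩
  obtain ⟨u, hu⟩ : ∃ u, u = x' - β • x := ⟨_, rfl⟩
  obtain ⟨τ, hτ⟩ : ∃ τ, τ = ‖u‖ / ‖x‖ := ⟨_, rfl⟩
  have hτ0 : 0 ≤ τ := by rw [hτ]; positivity
  have hu' : ‖u‖ = τ * ρ := by rw [hτ, hρ]; field_simp
  rw [← hu, ← hτ, ← hρ]
  rw [← hρ] at hnx
  obtain ⟨w1, hw1⟩ : ∃ w1, w1 = w + (-(m * β)) • y := ⟨_, rfl⟩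
  have hGw : G y w1 = G y w := by
    have h1 := hJ1 y w 1 (-(m * β)) one_ne_zero
    rw [one_smul, one_smul, one_pow, one_pow, one_mul] at h1
    rw [hw1, h1]
  have hpw1 : ∀ j, p j ⬝ᵥ w1 = m * x j ^ (m - 1) * u j := by
    intro j
    have h1 : x j ^ m = x j ^ (m - 1) * x j := by
      rw [← pow_succ]
      congr 1
      omega
    rw [hw1, dotProduct_add, dotProduct_smul, hxw, hxy, hu, h1]
    simp only [PiLp.sub_apply, PiLp.smul_apply, smul_eq_mul]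
    ring
  rw [← hGw]
  rcases hτ0.eq_or_lt with h0 | hpos
  · have hu0 : u = 0 := by
      rw [← norm_eq_zero, hu', ← h0, zero_mul]
    have hw10 : w1 = 0 := by
      apply hsep
      intro j
      rw [hpw1, hu0]
      simp
    have h1 : G y w1 = 0 := by
      have h2 := hJ2 y 0 0
      rw [smul_zero, zero_pow he.ne', zero_mul] at h2
      rw [hw10, h2]
    rw [h1, norm_zero, zero_mul]
    positivity
  · have hρc : (ρ : ℂ) ≠ 0 := by exact_mod_cast hnx.ne'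
    have hτc : (τ : ℂ) ≠ 0 := by exact_mod_cast hpos.ne'
    obtain ⟨l, hl⟩ : ∃ l : ℂ, l = ((ρ : ℂ) ^ m)⁻¹ := ⟨_, rfl⟩
    have hl0 : l ≠ 0 := by rw [hl]; positivity
    have h1 := hC ((ρ : ℂ)⁻¹ • x) (((ρ : ℂ)⁻¹ * (τ : ℂ)⁻¹) • u) (l • y)
      ((τ : ℂ)⁻¹ • (l • w1 + (0 : ℂ) • y)) (by
        rw [norm_smul, norm_inv, Complex.norm_real, Real.norm_of_nonneg hnx.le, hρ,
          inv_mul_cancel₀ (hρ ▸ hnx).ne']) (by
        rw [norm_smul, norm_mul, norm_inv, norm_inv, Complex.norm_real, Complex.norm_real,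
          Real.norm_of_nonneg hnx.le, Real.norm_of_nonneg hpos.le, hu']
        apply le_of_eq
        field_simp) (by
        intro j
        rw [dotProduct_smul, hxy j, PiLp.smul_apply, smul_eq_mul, smul_eq_mul, mul_pow, hl,
          inv_pow]) (by
        intro j
        rw [zero_smul, add_zero, dotProduct_smul, dotProduct_smul, hpw1 j, PiLp.smul_apply,
          PiLp.smul_apply, smul_eq_mul, smul_eq_mul, smul_eq_mul, smul_eq_mul, mul_pow, hl]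
        have h2 : ((ρ : ℂ) ^ m)⁻¹ = ((ρ : ℂ)⁻¹) ^ (m - 1) * (ρ : ℂ)⁻¹ := by
          rw [← pow_succ, ← inv_pow]
          congr 1
          omega
        rw [h2]
        ring)
    rw [hJ2, hJ1 y w1 l 0 hl0, norm_mul, norm_mul, norm_pow, norm_pow, norm_pow, norm_inv,
      Complex.norm_real, Real.norm_of_nonneg hpos.le, hl, norm_inv, norm_pow, Complex.norm_real,
      Real.norm_of_nonneg hnx.le] at h1
    have h3 : ∏ j, ‖((ρ : ℂ)⁻¹ • x) j‖ ^ (m - 1) =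
        (ρ⁻¹) ^ ((m - 1) * Fintype.card H) * ∏ j, ‖x j‖ ^ (m - 1) := by
      have h4 : ∀ j, ‖((ρ : ℂ)⁻¹ • x) j‖ ^ (m - 1) = (ρ⁻¹) ^ (m - 1) * ‖x j‖ ^ (m - 1) := by
        intro j
        rw [PiLp.smul_apply, norm_smul, norm_inv, Complex.norm_real, Real.norm_of_nonneg hnx.le,
          mul_pow]
      rw [Finset.prod_congr rfl fun j _ => h4 j, Finset.prod_mul_distrib, Finset.prod_const,
        Finset.card_univ, ← pow_mul]
    rw [h3] at h1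
    have h5 : (τ⁻¹) ^ e * (((((ρ ^ m)⁻¹) ^ 2) ^ e) * ‖G y w1‖) * (τ ^ e * ρ ^ (s + 2 * m * e)) ≤
        (C * ((ρ⁻¹) ^ ((m - 1) * Fintype.card H) * ∏ j, ‖x j‖ ^ (m - 1))) *
          (τ ^ e * ρ ^ (s + 2 * m * e)) := by gcongr
    have h6 : (τ⁻¹) ^ e * (((((ρ ^ m)⁻¹) ^ 2) ^ e) * ‖G y w1‖) * (τ ^ e * ρ ^ (s + 2 * m * e)) =
        ‖G y w1‖ * ρ ^ s := by
      have h7 : (τ⁻¹) ^ e * τ ^ e = 1 := by
        rw [← mul_pow, inv_mul_cancel₀ hpos.ne', one_pow]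
      have h8 : (((ρ ^ m)⁻¹) ^ 2) ^ e * ρ ^ (2 * m * e) = 1 := by
        have : ρ ^ (2 * m * e) = ((ρ ^ m) ^ 2) ^ e := by
          rw [← pow_mul, ← pow_mul]
          congr 1
          ring
        rw [this, ← mul_pow, ← mul_pow, inv_mul_cancel₀ (by positivity), one_pow, one_pow]
      calc _ = ((τ⁻¹) ^ e * τ ^ e) * ((((ρ ^ m)⁻¹) ^ 2) ^ e * ρ ^ (2 * m * e)) *
          (‖G y w1‖ * ρ ^ s) := by rw [pow_add]; ring
        _ = _ := by rw [h7, h8, one_mul, one_mul]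
    have h9 : (C * ((ρ⁻¹) ^ ((m - 1) * Fintype.card H) * ∏ j, ‖x j‖ ^ (m - 1))) *
          (τ ^ e * ρ ^ (s + 2 * m * e)) = C * (∏ j, ‖x j‖ ^ (m - 1)) * τ ^ e := by
      have h10 : (ρ⁻¹) ^ ((m - 1) * Fintype.card H) * ρ ^ (s + 2 * m * e) = 1 := by
        rw [hs, ← mul_pow, inv_mul_cancel₀ hnx.ne', one_pow]
      calc _ = ((ρ⁻¹) ^ ((m - 1) * Fintype.card H) * ρ ^ (s + 2 * m * e)) *
          (C * (∏ j, ‖x j‖ ^ (m - 1)) * τ ^ e) := by ring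
        _ = _ := by rw [h10, one_mul]
    rw [h6, h9] at h5
    exact h5

end

end Pool.Agent.Lib.GGL
end
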