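import Mathlib
import Pool.Agent.Lib.MP_8d161d_ag.CaseB
import Pool.Agent.Lib.MP_8d161d_ag.Mg.G042
import Pool.Agent.Lib.MP_8d161d_ag.Mg.G031
import Pool.Agent.Lib.MP_8d161d_ag.Mg.G030
import Pool.Agent.Lib.MP_8d161d_ag.Cover
import Pool.Agent.Lib.MP_8d161d_ag.Mg.G032

section

/-!
The main argument for invariant forms, for curves not contained in any of the hyperplanes.
-/

open Filter Topology Metric

namespace Pool.Agent.Lib.GGL

section

variable {n : ℕ} {H : Type*} [Fintype H] [DecidableEq H] (p : H → Fin (n + 1) → ℂ)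

omit [DecidableEq H] in
lemma Phi_smul2 {m e s : ℕ} (hm : 0 < m) (hs : s + 2 * m * e = (m - 1) * Fintype.card H)
    {G : (Fin (n + 1) → ℂ) → (Fin (n + 1) → ℂ) → ℂ}
    (hJ1 : ∀ y w (l μ : ℂ), l ≠ 0 → G (l • y) (l • w + μ • y) = (l ^ 2) ^ e * G y w)
    (y w : Fin (n + 1) → ℂ) {l : ℂ} (hl : l ≠ 0) (μ : ℂ) :
    Phi p m (m * s) G (l • y) (l • w + μ • y) = Phi p m (m * s) G y w := by
  unfold Phi
  rw [hJ1 _ _ _ _ hl]
  obtain ⟨ρ, hρ⟩ : ∃ ρ : ℝ, ρ = ‖l‖ ^ ((m : ℝ)⁻¹) := ⟨_, rfl⟩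
  have hρ0 : 0 < ρ := by
    rw [hρ]
    exact Real.rpow_pos_of_pos (norm_pos_iff.mpr hl) _
  have hρm : ‖l‖ = ρ ^ m := by
    rw [hρ, Real.rpow_inv_natCast_pow (norm_nonneg _) hm.ne']
  have h1 : ∀ j, ‖p j ⬝ᵥ (l • y)‖ = ρ ^ m * ‖p j ⬝ᵥ y‖ := by
    intro j
    rw [dotProduct_smul, norm_smul, hρm]
  have h2 : ∀ j, (‖p j ⬝ᵥ (l • y)‖ ^ ((m : ℝ)⁻¹)) ^ 2 =
      ρ ^ 2 * (‖p j ⬝ᵥ y‖ ^ ((m : ℝ)⁻¹)) ^ 2 := by
    intro j
    rw [dotProduct_smul, norm_smul, Real.mul_rpow (norm_nonneg _) (norm_nonneg _), ← hρ, mul_pow]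
  rw [Finset.sum_congr rfl fun j _ => h2 j, Finset.prod_congr rfl fun j _ => h1 j]
  rw [Finset.prod_mul_distrib, Finset.prod_const, Finset.card_univ, ← Finset.mul_sum, norm_mul,
    norm_pow, norm_pow, hρm]
  rw [mul_pow, mul_pow, mul_pow]
  have h3 : ((((ρ ^ m) ^ 2) ^ e) ^ (2 * m)) * ((ρ ^ 2) ^ (m * s)) =
      ((ρ ^ m) ^ Fintype.card H) ^ (2 * (m - 1)) := by
    simp only [← pow_mul, ← pow_add]
    congr 1
    calc m * 2 * e * (2 * m) + 2 * (m * s) = 2 * m * (s + 2 * m * e) := by ring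
      _ = m * Fintype.card H * (2 * (m - 1)) := by rw [hs]; ring
  rw [← h3]
  have h4 : 0 < (((ρ ^ m) ^ 2) ^ e) ^ (2 * m) := by positivity
  have h5 : 0 < (ρ ^ 2) ^ (m * s) := by positivity
  generalize (((ρ ^ m) ^ 2) ^ e) ^ (2 * m) = A at *
  generalize (ρ ^ 2) ^ (m * s) = A' at *
  rw [mul_div_mul_comm]
  have h6 : A / (A * A') = 1 / A' := by
    field_simp
  rw [h6]
  field_simp

/-- The contradiction for curves not contained in any of the hyperplanes. -/
theorem caseB2 {m e s : ℕ} (hm : 0 < m) (he : 0 < e) (hs0 : 0 < s) {𝓑 : Finset (Finset H)}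
    (hcov : ∀ y : Fin (n + 1) → ℂ, y ≠ 0 → ∃ B ∈ 𝓑, ∀ j, p j ⬝ᵥ y = 0 → j ∈ B)
    (hsep : ∀ y : Fin (n + 1) → ℂ, (∀ j, p j ⬝ᵥ y = 0) → y = 0)
    (hs : s + 2 * m * e = (m - 1) * Fintype.card H)
    {G : (Fin (n + 1) → ℂ) → (Fin (n + 1) → ℂ) → ℂ}
    (hG : Divides p 𝓑 G)
    (hJ1 : ∀ y w (l μ : ℂ), l ≠ 0 → G (l • y) (l • w + μ • y) = (l ^ 2) ^ e * G y w)
    (hJ2 : ∀ y w (c : ℂ), G y (c • w) = c ^ e * G y w)
    {Y : ℂ → ℂ → Fin (n + 1) → ℂ} (hY : LiftFamily Y)
    (htop : ∀ j z₁, analyticOrderAt (fun z => p j ⬝ᵥ Y z₁ z) z₁ ≠ ⊤)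
    (hord : ∀ j z₁, analyticOrderAt (fun z => p j ⬝ᵥ Y z₁ z) z₁ = 0 ∨
      (m : ℕ∞) ≤ analyticOrderAt (fun z => p j ⬝ᵥ Y z₁ z) z₁)
    {z₀ : ℂ} (hz₀ : ∀ j, p j ⬝ᵥ Y z₀ z₀ ≠ 0) (hGz₀ : G (Y z₀ z₀) (deriv (Y z₀) z₀) ≠ 0) :
    False := by
  obtain ⟨hYan, hY0, hYc⟩ := hY
  -- the function off the hyperplanes
  obtain ⟨P₀, hP₀⟩ : ∃ P₀ : ℂ → ℝ, P₀ = fun z => Phi p m (m * s) G (Y z z) (deriv (Y z) z) :=
    ⟨_, rfl⟩
  have hP₀loc : ∀ z₁, ∀ᶠ z in 𝓝 z₁, P₀ z = Phi p m (m * s) G (Y z₁ z) (deriv (Y z₁) z) := by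
    intro z₁
    filter_upwards [hYc z₁, (hYan z₁).eventually_analyticAt] with z ⟨l, hl1, hl2, hl3⟩ han
    rw [hP₀]
    have h1 : Y z z = l z • Y z₁ z := hl3.self_of_nhds
    have h2 : deriv (Y z) z = l z • deriv (Y z₁) z + deriv l z • Y z₁ z := by
      have h3 : Y z =ᶠ[𝓝 z] fun w => l w • Y z₁ w := hl3
      rw [h3.deriv_eq]
      exact (hl1.differentiableAt.hasDerivAt.smul han.differentiableAt.hasDerivAt).deriv
    beta_reduce
    rw [h1, h2, Phi_smul2 p hm hs hJ1 _ _ hl2]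
  choose σ hσan hσG hσx using fun z₁ => local_structure2 p hm 𝓑 hcov G hG (hYan z₁) (hY0 z₁)
    (fun j => htop j z₁) (fun j => hord j z₁)
  have hlan : ∀ z₁ j, AnalyticAt ℂ (fun z => p j ⬝ᵥ Y z₁ z) z₁ := fun z₁ j =>
    analyticAt_dotProduct (hYan z₁) _
  have hlne : ∀ z₁, ∀ᶠ z in 𝓝[≠] z₁, ∀ j, p j ⬝ᵥ Y z₁ z ≠ 0 := by
    intro z₁
    rw [Filter.eventually_all]
    intro j
    rcases (hlan z₁ j).eventually_eq_zero_or_eventually_ne_zero with h | h
    · exact absurd (analyticOrderAt_eq_top.mpr h) (htop j z₁)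
    · exact h
  obtain ⟨c, hc⟩ : ∃ c : ℂ → ℂ → ℝ, c = fun z₁ z => ‖σ z₁ z‖ ^ 2 *
    (∑ j, (‖p j ⬝ᵥ Y z₁ z‖ ^ ((m : ℝ)⁻¹)) ^ 2) ^ (m * s) := ⟨_, rfl⟩
  have hccont : ∀ z₁, ∀ᶠ z in 𝓝 z₁, ContinuousAt (c z₁) z := by
    intro z₁
    filter_upwards [(hσan z₁).eventually_analyticAt, (hYan z₁).eventually_analyticAt]
      with z h1 h2
    rw [hc]
    have h3 : ContinuousAt (σ z₁) z := h1.continuousAt
    have h4 : ∀ j, ContinuousAt (fun z => p j ⬝ᵥ Y z₁ z) z := fun j =>
      (analyticAt_dotProduct h2 _).continuousAt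
    have h5 : ∀ j, ContinuousAt (fun z => (‖p j ⬝ᵥ Y z₁ z‖ ^ ((m : ℝ)⁻¹)) ^ 2) z := fun j =>
      (((h4 j).norm).rpow_const (Or.inr (by positivity))).pow 2
    have h6 : ContinuousAt (fun z => ∑ j, (‖p j ⬝ᵥ Y z₁ z‖ ^ ((m : ℝ)⁻¹)) ^ 2) z :=
      tendsto_finsetSum _ fun j _ => h5 j
    exact ((h3.norm).pow 2).mul (h6.pow _)
  have hcP : ∀ z₁, ∀ᶠ z in 𝓝[≠] z₁, P₀ z = c z₁ z := by
    intro z₁
    filter_upwards [hlne z₁, (hP₀loc z₁).filter_mono nhdsWithin_le_nhds,
      (hσG z₁).filter_mono nhdsWithin_le_nhds] with z h1 h2 h3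
    rw [h2, hc, Phi]
    have h4 : 0 < (∏ j, ‖p j ⬝ᵥ Y z₁ z‖) ^ (2 * (m - 1)) := by
      apply pow_pos
      exact Finset.prod_pos fun j _ => norm_pos_iff.mpr (h1 j)
    have h5 : ‖G (Y z₁ z) (deriv (Y z₁) z)‖ ^ (2 * m) =
        ‖σ z₁ z‖ ^ 2 * (∏ j, ‖p j ⬝ᵥ Y z₁ z‖) ^ (2 * (m - 1)) := by
      rw [mul_comm 2 m, pow_mul, ← norm_pow, h3, norm_mul, mul_pow, norm_pow, ← norm_prod,
        ← pow_mul, mul_comm (m - 1) 2]
    rw [h5, mul_div_assoc, div_self h4.ne', mul_one]
  obtain ⟨P, hPcont, hPc⟩ := glue P₀ fun z₁ => ⟨c z₁, hccont z₁, hcP z₁⟩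
  have hPz : ∀ z₁, ∀ᶠ z in 𝓝 z₁, P z = c z₁ z := fun z₁ => hPc z₁ _ (hccont z₁) (hcP z₁)
  have hPnonneg : ∀ z, 0 ≤ P z := by
    intro z
    rw [(hPz z).self_of_nhds, hc]
    positivity
  obtain ⟨C, hC0, hC⟩ := pointwise2 p hsep hm he 𝓑 hcov hs G hG hJ1 hJ2
  -- application of the growth lemma
  have hzero : ∀ z, P z = 0 := by
    refine growth (E := EuclideanSpace ℂ H) hPcont hPnonneg (κ := m * e) (N := m * s)
      (Nat.mul_pos hm hs0) (Nat.mul_pos hm he) (C ^ (2 * m)) ?_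
    intro z₁ hz₁
    have h1 := (hPz z₁).self_of_nhds
    have hσ0 : σ z₁ z₁ ≠ 0 := by
      intro h
      rw [h1, hc] at hz₁
      simp [h] at hz₁
    obtain ⟨x, hxan, hx⟩ := hσx z₁ hσ0
    have hnorm : ∀ z, (∀ j, p j ⬝ᵥ Y z₁ z = x z j ^ m) →
        ∑ j, (‖p j ⬝ᵥ Y z₁ z‖ ^ ((m : ℝ)⁻¹)) ^ 2 = ‖x z‖ ^ 2 := by
      intro z hz
      rw [EuclideanSpace.norm_sq_eq]
      refine Finset.sum_congr rfl fun j _ => ?_
      rw [hz j, norm_pow, Real.pow_rpow_inv_natCast (norm_nonneg _) hm.ne']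
    have hx0 : x z₁ ≠ 0 := by
      intro h0
      apply hY0 z₁
      apply hsep
      intro j
      rw [(hx.self_of_nhds j).1, h0]
      simp [hm.ne']
    refine ⟨σ z₁, x, hσan z₁, hxan, hx0, ?_, ?_⟩
    · filter_upwards [hPz z₁, hx] with z g1 g2
      rw [g1, hc]
      beta_reduce
      rw [hnorm z fun j => (g2 j).1]
    · intro β
      have hx0' : ∀ᶠ z in 𝓝 z₁, x z ≠ 0 := hxan.continuousAt.eventually_ne hx0
      have hineq : ∀ᶠ z in 𝓝[≠] z₁, P z ≤
          C ^ (2 * m) * (‖deriv x z - β • x z‖ / ‖x z‖) ^ (2 * (m * e)) := by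
        filter_upwards [hlne z₁, (hPz z₁).filter_mono nhdsWithin_le_nhds,
          (hσG z₁).filter_mono nhdsWithin_le_nhds, hx.filter_mono nhdsWithin_le_nhds,
          hx0'.filter_mono nhdsWithin_le_nhds] with z g1 g2 g3 g4 g5
        rw [g2, hc]
        beta_reduce
        rw [hnorm z fun j => (g4 j).1]
        have g6 := hC (x z) (deriv x z) (Y z₁ z) (deriv (Y z₁) z) g5 (fun j => (g4 j).1)
          (fun j => (g4 j).2) β
        obtain ⟨τ, hτ⟩ : ∃ τ, τ = ‖deriv x z - β • x z‖ / ‖x z‖ := ⟨_, rfl⟩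
        have hτ0 : 0 ≤ τ := by rw [hτ]; positivity
        rw [← hτ] at g6 ⊢
        have g7 : 0 < (∏ j, ‖x z j‖ ^ (m - 1)) ^ (2 * m) := by
          apply pow_pos
          refine Finset.prod_pos fun j _ => ?_
          have : x z j ≠ 0 := by
            intro h
            apply g1 j
            rw [(g4 j).1, h, zero_pow hm.ne']
          positivity
        have g8 : (‖G (Y z₁ z) (deriv (Y z₁) z)‖ * ‖x z‖ ^ s) ^ (2 * m) ≤
            (C * (∏ j, ‖x z j‖ ^ (m - 1)) * τ ^ e) ^ (2 * m) := by gcongr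
        have g9 : ‖G (Y z₁ z) (deriv (Y z₁) z)‖ ^ (2 * m) =
            ‖σ z₁ z‖ ^ 2 * (∏ j, ‖x z j‖ ^ (m - 1)) ^ (2 * m) := by
          rw [mul_comm 2 m, pow_mul, ← norm_pow, g3, norm_mul, mul_pow, norm_pow]
          congr 1
          have : ∀ j, ‖p j ⬝ᵥ Y z₁ z‖ = ‖x z j‖ ^ m := fun j => by
            rw [(g4 j).1, norm_pow]
          rw [norm_prod, Finset.prod_congr rfl fun j _ => this j, Finset.prod_pow, Finset.prod_pow,
            ← pow_mul, ← pow_mul, ← pow_mul]
          congr 1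
          ring
        have g10 : (‖σ z₁ z‖ ^ 2 * (‖x z‖ ^ 2) ^ (m * s)) *
            (∏ j, ‖x z j‖ ^ (m - 1)) ^ (2 * m) ≤
            (C ^ (2 * m) * τ ^ (2 * (m * e))) * (∏ j, ‖x z j‖ ^ (m - 1)) ^ (2 * m) := by
          calc (‖σ z₁ z‖ ^ 2 * (‖x z‖ ^ 2) ^ (m * s)) * (∏ j, ‖x z j‖ ^ (m - 1)) ^ (2 * m)
              = (‖σ z₁ z‖ ^ 2 * (∏ j, ‖x z j‖ ^ (m - 1)) ^ (2 * m)) *
                (‖x z‖ ^ s) ^ (2 * m) := by
                  rw [← pow_mul, ← pow_mul]
                  have : 2 * (m * s) = s * (2 * m) := by ring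
                  rw [this]
                  ring
            _ = (‖G (Y z₁ z) (deriv (Y z₁) z)‖ * ‖x z‖ ^ s) ^ (2 * m) := by
                  rw [← g9, mul_pow]
            _ ≤ _ := g8
            _ = _ := by
                  rw [mul_pow, mul_pow, ← pow_mul τ]
                  have : e * (2 * m) = 2 * (m * e) := by ring
                  rw [this]
                  ring
        exact le_of_mul_le_mul_right g10 g7
      have hcont : ContinuousAt (fun z => C ^ (2 * m) *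
          (‖deriv x z - β • x z‖ / ‖x z‖) ^ (2 * (m * e))) z₁ := by
        have h2 : ContinuousAt x z₁ := hxan.continuousAt
        have h3 : ContinuousAt (deriv x) z₁ := hxan.deriv.continuousAt
        have h4 : ‖x z₁‖ ≠ 0 := norm_ne_zero_iff.mpr hx0
        exact continuousAt_const.mul (((h3.sub (h2.const_smul β)).norm.div h2.norm h4).pow _)
      exact le_of_tendsto_of_tendsto (hPcont.continuousAt.tendsto.mono_left nhdsWithin_le_nhds)
        (hcont.tendsto.mono_left nhdsWithin_le_nhds) hineq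
  -- contradiction
  have h1 := (hPz z₀).self_of_nhds
  rw [hzero z₀, hc] at h1
  have h2 := (hσG z₀).self_of_nhds
  have h3 : σ z₀ z₀ ≠ 0 := by
    intro h
    rw [h, zero_mul] at h2
    exact (pow_ne_zero m hGz₀) h2
  have h4 : 0 < ∑ j, (‖p j ⬝ᵥ Y z₀ z₀‖ ^ ((m : ℝ)⁻¹)) ^ 2 := by
    have hHne : (Finset.univ : Finset H).Nonempty := by
      by_contra hemp
      rw [Finset.not_nonempty_iff_eq_empty] at hemp
      apply hY0 z₀
      apply hsep
      intro j
      have := Finset.mem_univ j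
      rw [hemp] at this
      exact absurd this (Finset.notMem_empty _)
    refine Finset.sum_pos (fun j _ => ?_) hHne
    have := norm_pos_iff.mpr (hz₀ j)
    positivity
  have h5 : 0 < ‖σ z₀ z₀‖ ^ 2 * (∑ j, (‖p j ⬝ᵥ Y z₀ z₀‖ ^ ((m : ℝ)⁻¹)) ^ 2) ^ (m * s) := by
    have := norm_pos_iff.mpr h3
    positivity
  exact absurd h1 h5.ne

end

end Pool.Agent.Lib.GGL
end

section

/-!
Curves in projective space that are ramified over general hyperplanes.
-/

open Filter Topology MvPolynomial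

namespace Pool.Agent.Lib.GGL

/-- Membership in the ideals `IP` gives divisibility. -/
lemma divides_of_mem_IP {n : ℕ} {H : Type*} [Fintype H] [DecidableEq H]
    (p : H → Fin (n + 1) → ℂ)
    (hgp : ∀ s : Fin (n + 1) → H, Function.Injective s → (Matrix.of fun i => p (s i)).det ≠ 0)
    {G : MvPolynomial (Fin (n + 1) ⊕ Fin (n + 1)) ℂ} (hG : ∀ j, G ∈ IP (p j)) :
    Divides p (Finset.univ.powersetCard (n + 1)) (fun y w => eval (Sum.elim y w) G) := by
  intro Z hZ
  rw [Finset.mem_powersetCard] at hZ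
  let ε := Z.equivFinOfCardEq hZ.2
  have hs : Function.Injective (fun i : Fin (n + 1) => (ε.symm i : H)) :=
    Subtype.val_injective.comp ε.symm.injective
  have hdet := hgp _ hs
  obtain ⟨M, hM⟩ : ∃ M : Matrix (Fin (n + 1)) (Fin (n + 1)) ℂ,
    M = Matrix.of fun i => p (ε.symm i : H) := ⟨_, rfl⟩
  rw [← hM] at hdet
  have hu : IsUnit M.det := isUnit_iff_ne_zero.mpr hdet
  have hM1 : M⁻¹ * M = 1 := Matrix.nonsing_inv_mul M hu
  have hM2 : M * M⁻¹ = 1 := Matrix.mul_nonsing_inv M hu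
  refine ⟨fun i => (ε.symm i : H), sub M⁻¹ G, hs, ?_, ?_, ?_⟩
  · intro j
    constructor
    · intro hj
      exact ⟨ε ⟨j, hj⟩, by simp⟩
    · rintro ⟨i, rfl⟩
      exact (ε.symm i).2
  · intro y w
    have h1 : sub M (sub M⁻¹ G) = G := by rw [sub_sub, hM1, sub_one]
    have h2 := eval_sub M (sub M⁻¹ G) y w
    rw [h1] at h2
    beta_reduce
    rw [h2]
    have h3 : ∀ v : Fin (n + 1) → ℂ, M.mulVec v = fun i => p (ε.symm i : H) ⬝ᵥ v := by
      intro v
      funext i
      rw [hM]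
      rfl
    rw [h3, h3]
  · intro d hd i
    have h1 := sub_mem_IP (hG (ε.symm i : H)) M⁻¹
    have h2 : Matrix.vecMul (p (ε.symm i : H)) M⁻¹ = Pi.single i 1 := by
      have h3 : p (ε.symm i : H) = M.row i := by
        rw [hM]; rfl
      rw [h3]
      funext k
      have h4 := congrFun (congrFun hM2 i) k
      rw [Matrix.mul_apply] at h4
      rw [Matrix.vecMul, dotProduct]
      rw [Matrix.one_apply] at h4
      rw [Pi.single_apply]
      simp only [eq_comm] at h4 ⊢
      exact h4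
    rw [h2] at h1
    have h3 : (IP (Pi.single i 1 : Fin (n + 1) → ℂ)) =
        Ideal.span (X '' {Sum.inl i, Sum.inr i}) := by
      rw [IP, Set.image_pair]
      congr 2
      · rw [ly, Finset.sum_eq_single i]
        · simp
        · intro k _ hk
          simp [Pi.single_eq_of_ne hk]
        · simp
      · rw [lw, Finset.sum_eq_single i]
        · simp
        · intro k _ hk
          simp [Pi.single_eq_of_ne hk]
        · simp
    rw [h3, mem_ideal_span_X_image] at h1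
    obtain ⟨a, ha, ha2⟩ := h1 d hd
    rcases ha with rfl | ha
    · omega
    · rw [Set.mem_singleton_iff] at ha
      subst ha
      omega

/-- general position gives the covering property -/
lemma cov_of_genpos {n : ℕ} {H : Type*} [Fintype H] [DecidableEq H]
    (p : H → Fin (n + 1) → ℂ)
    (hgp : ∀ s : Fin (n + 1) → H, Function.Injective s → (Matrix.of fun i => p (s i)).det ≠ 0)
    (hcard : n + 1 ≤ Fintype.card H) (y : Fin (n + 1) → ℂ) (hy : y ≠ 0) :
    ∃ B ∈ (Finset.univ : Finset H).powersetCard (n + 1), ∀ j, p j ⬝ᵥ y = 0 → j ∈ B := by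
  classical
  have h1 : (Finset.univ.filter fun j => p j ⬝ᵥ y = 0).card ≤ n + 1 := by
    by_contra hcon
    push Not at hcon
    obtain ⟨T, hT, hTc⟩ := Finset.exists_subset_card_eq hcon.le
    let ε := T.equivFinOfCardEq hTc
    have hs : Function.Injective (fun i : Fin (n + 1) => (ε.symm i : H)) :=
      Subtype.val_injective.comp ε.symm.injective
    have hdet := hgp _ hs
    apply hy
    apply Matrix.eq_zero_of_mulVec_eq_zero hdet
    funext i
    have h2 := hT (ε.symm i).2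
    rw [Finset.mem_filter] at h2
    exact h2.2
  obtain ⟨T, hT1, hT2, hT3⟩ := Finset.exists_subsuperset_card_eq
    (Finset.subset_univ (Finset.univ.filter fun j => p j ⬝ᵥ y = 0)) h1 (by
      rw [Finset.card_univ]; exact hcard)
  refine ⟨T, ?_, ?_⟩
  · rw [Finset.mem_powersetCard]
    exact ⟨hT2, hT3⟩
  · intro j hj
    apply hT1
    rw [Finset.mem_filter]
    exact ⟨Finset.mem_univ _, hj⟩

lemma sep_of_genpos {n : ℕ} {H : Type*} [Fintype H]
    (p : H → Fin (n + 1) → ℂ)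
    (hgp : ∀ s : Fin (n + 1) → H, Function.Injective s → (Matrix.of fun i => p (s i)).det ≠ 0)
    (hcard : n + 1 ≤ Fintype.card H) (y : Fin (n + 1) → ℂ) (hy : ∀ j, p j ⬝ᵥ y = 0) : y = 0 := by
  classical
  obtain ⟨s⟩ : Nonempty (Fin (n + 1) ↪ H) := by
    rw [Function.Embedding.nonempty_iff_card_le, Fintype.card_fin]
    exact hcard
  apply Matrix.eq_zero_of_mulVec_eq_zero (hgp s s.injective)
  funext i
  exact hy (s i)

lemma exists_minor {n : ℕ} {y w : Fin (n + 1) → ℂ} (h : LinearIndependent ℂ ![y, w]) :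
    ∃ i₀ i₁, y i₀ * w i₁ - y i₁ * w i₀ ≠ 0 := by
  by_contra hcon
  push Not at hcon
  rw [LinearIndependent.pair_iff] at h
  have hy : y = 0 := by
    funext i₀
    have h1 := h (-(w i₀)) (y i₀) (by
      funext i
      have h2 := hcon i₀ i
      simp only [Pi.add_apply, Pi.smul_apply, smul_eq_mul, Pi.zero_apply]
      linear_combination h2)
    exact h1.2
  have h3 := h 1 0 (by rw [hy]; simp)
  exact one_ne_zero h3.1

/-- A curve ramified over sufficiently general hyperplanes is constant. -/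
theorem core_family2 {n e m q₀ : ℕ} (hm2 : 2 * m * (e + 1) < (m - 1) * q₀) (hqn : n + 1 ≤ q₀)
    {ι : Type} [Fintype ι] [DecidableEq ι] (p : ι → Fin (n + 1) → ℂ)
    (hgp : ∀ s : Fin (n + 1) → ι, Function.Injective s → (Matrix.of fun i => p (s i)).det ≠ 0)
    (hΘ : ∀ (y w : Fin (n + 1) → ℂ) (i₀ i₁ : Fin (n + 1)), y i₀ * w i₁ - y i₁ * w i₀ ≠ 0 →
          ∃ A : Finset ι, A.card = q₀ ∧
            ∃ G : MvPolynomial (Fin (n + 1) ⊕ Fin (n + 1)) ℂ,
              IsBi G (e + 1) (e + 1) ∧ Dp G = 0 ∧ (∀ j ∈ A, G ∈ IP (p j)) ∧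
              eval (Sum.elim y w) G ≠ 0)
    {Y : ℂ → ℂ → Fin (n + 1) → ℂ} (hY : LiftFamily Y)
    (hord : ∀ j z₁, analyticOrderAt (fun z => p j ⬝ᵥ Y z₁ z) z₁ = 0 ∨
      (m : ℕ∞) ≤ analyticOrderAt (fun z => p j ⬝ᵥ Y z₁ z) z₁) (z w : ℂ) :
    ∃ c : ℂ, c ≠ 0 ∧ Y z z = c • Y w w := by
  by_contra hcon
  have hex : ∃ z₁, LinearIndependent ℂ ![Y z₁ z₁, deriv (Y z₁) z₁] := by
    by_contra h
    push Not at h
    exact hcon (hY.const h z w)
  have hm : 0 < m := by
    rcases Nat.eq_zero_or_pos m with h | h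
    · subst h
      simp at hm2
    · exact h
  obtain ⟨z₁, hz₁⟩ := hex
  obtain ⟨i₀, i₁, hmin⟩ := exists_minor hz₁
  obtain ⟨A, hA, G, hGb, hGD, hGI, hG0⟩ := hΘ _ _ i₀ i₁ hmin
  have hYan := hY.1
  obtain ⟨Gf, hGf⟩ : ∃ Gf : (Fin (n + 1) → ℂ) → (Fin (n + 1) → ℂ) → ℂ,
    Gf = fun y w => eval (Sum.elim y w) G := ⟨_, rfl⟩
  have hJ1 : ∀ y w (l μ : ℂ), l ≠ 0 → Gf (l • y) (l • w + μ • y) = (l ^ 2) ^ (e + 1) * Gf y w := by
    intro y w l μ hl
    have h1 : l • w + μ • y = l • w + (μ / l) • (l • y) := by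
      rw [smul_smul, div_mul_cancel₀ _ hl]
    rw [hGf]
    beta_reduce
    rw [h1, eval_shift hGD, eval_smul hGb]
    ring
  have hJ2 : ∀ y w (c : ℂ), Gf y (c • w) = c ^ (e + 1) * Gf y w := by
    intro y w c
    rw [hGf]
    beta_reduce
    have h1 := eval_smul hGb y w 1 c
    rw [one_smul, one_pow, one_mul] at h1
    exact h1
  have hgpA : ∀ s : Fin (n + 1) → A, Function.Injective s →
      (Matrix.of fun i => p (s i : ι)).det ≠ 0 := fun s hs =>
    hgp (fun i => (s i : ι)) (Subtype.val_injective.comp hs)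
  have hcardA : Fintype.card A = q₀ := by rw [Fintype.card_coe, hA]
  have hdiv : Divides (fun j : A => p j) (Finset.univ.powersetCard (n + 1)) Gf := by
    rw [hGf]
    exact divides_of_mem_IP (fun j : A => p j) hgpA fun j => hGI j j.2
  have hcov := cov_of_genpos (fun j : A => p j) hgpA (by rw [hcardA]; exact hqn)
  have hsep := sep_of_genpos (fun j : A => p j) hgpA (by rw [hcardA]; exact hqn)
  obtain ⟨s, hs⟩ : ∃ s, s + 2 * m * (e + 1) = (m - 1) * Fintype.card A := by
    rw [hcardA]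
    exact ⟨(m - 1) * q₀ - 2 * m * (e + 1), by omega⟩
  have hs0 : 0 < s := by
    rw [hcardA] at hs
    omega
  have htop : ∀ (j : A) z₁, analyticOrderAt (fun z => p j ⬝ᵥ Y z₁ z) z₁ ≠ ⊤ := by
    intro j
    rcases hY.top_or (p j) with h | h
    · exact h
    · exfalso
      have h1 : ∀ᶠ z in 𝓝 z₁, p j ⬝ᵥ Y z₁ z = 0 := by
        filter_upwards [hY.2.2 z₁] with z ⟨l, hl1, hl2, hl3⟩
        have h2 := h z
        rw [hl3.self_of_nhds, dotProduct_smul, smul_eq_mul] at h2
        exact (mul_eq_zero.mp h2).resolve_left hl2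
      have h2 : p j ⬝ᵥ deriv (Y z₁) z₁ = 0 := by
        rw [← deriv_dotProduct (hYan z₁)]
        have h3 : (fun z => p j ⬝ᵥ Y z₁ z) =ᶠ[𝓝 z₁] fun _ => 0 := h1
        rw [h3.deriv_eq]
        simp
      apply hG0
      obtain ⟨a, b, hab⟩ := mem_IP.mp (hGI j j.2)
      rw [← hab, map_add, map_mul, map_mul, eval_ly, eval_lw, h1.self_of_nhds, h2]
      simp
  have hgood : ∃ z₀, Gf (Y z₀ z₀) (deriv (Y z₀) z₀) ≠ 0 ∧ ∀ j : A, p j ⬝ᵥ Y z₀ z₀ ≠ 0 := by
    have h1 : ∀ᶠ z in 𝓝 z₁, Gf (Y z₁ z) (deriv (Y z₁) z) ≠ 0 := by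
      have hcont : ContinuousAt (fun z => Gf (Y z₁ z) (deriv (Y z₁) z)) z₁ := by
        rw [hGf]
        have h2 : ContinuousAt (fun z => (Sum.elim (Y z₁ z) (deriv (Y z₁) z) :
            Fin (n + 1) ⊕ Fin (n + 1) → ℂ)) z₁ := by
          rw [continuousAt_pi]
          rintro (i | i)
          · exact (analyticAt_pi_iff.mp (hYan z₁) i).continuousAt
          · exact (analyticAt_pi_iff.mp (hYan z₁).deriv i).continuousAt
        have h3 : Continuous fun v : Fin (n + 1) ⊕ Fin (n + 1) → ℂ => eval v G :=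
          MvPolynomial.continuous_eval G
        exact h3.continuousAt.comp h2
      apply hcont.eventually_ne
      rw [hGf]
      exact hG0
    have h2 : ∀ᶠ z in 𝓝[≠] z₁, ∀ j : A, p j ⬝ᵥ Y z₁ z ≠ 0 := by
      rw [Filter.eventually_all]
      intro j
      rcases (analyticAt_dotProduct (hYan z₁) (p j)).eventually_eq_zero_or_eventually_ne_zero
        with h | h
      · exact absurd (analyticOrderAt_eq_top.mpr h) (htop j z₁)
      · exact h
    have h3 := ((h2.and (h1.filter_mono nhdsWithin_le_nhds)).and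
      ((hYan z₁).eventually_analyticAt.filter_mono nhdsWithin_le_nhds)).and
      ((hY.2.2 z₁).filter_mono nhdsWithin_le_nhds)
    obtain ⟨z₀, ⟨⟨g1, g2⟩, g3⟩, l, hl1, hl2, hl3⟩ := h3.exists
    refine ⟨z₀, ?_, ?_⟩
    · have h4 : Y z₀ z₀ = l z₀ • Y z₁ z₀ := hl3.self_of_nhds
      have h5 : deriv (Y z₀) z₀ = l z₀ • deriv (Y z₁) z₀ + deriv l z₀ • Y z₁ z₀ := by
        have h6 : Y z₀ =ᶠ[𝓝 z₀] fun w => l w • Y z₁ w := hl3
        rw [h6.deriv_eq]
        exact (hl1.differentiableAt.hasDerivAt.smul g3.differentiableAt.hasDerivAt).deriv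
      rw [h4, h5, hJ1 _ _ _ _ hl2]
      exact mul_ne_zero (pow_ne_zero _ (pow_ne_zero _ hl2)) g2
    · intro j
      rw [hl3.self_of_nhds, dotProduct_smul, smul_eq_mul]
      exact mul_ne_zero hl2 (g1 j)
  obtain ⟨z₀, hz₀, hz₀'⟩ := hgood
  exact caseB2 (fun j : A => p j) hm (Nat.succ_pos e) hs0 hcov hsep hs hdiv hJ1 hJ2 hY htop
    (fun j z => hord j z) hz₀' hz₀

lemma arith2 {r e m q₀ : ℕ} (hm2 : 2 * m * (e + 1) < (m - 1) * q₀)
    (h : q₀ * ((r + 1) * r) < (r + 1 + (e + 1)) * (r + 1 + e)) : r + 1 + 1 ≤ q₀ := by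
  by_contra hcon
  push Not at hcon
  have hm : 0 < m := by
    rcases Nat.eq_zero_or_pos m with h | h
    · subst h
      simp at hm2
    · exact h
  obtain ⟨m', rfl⟩ : ∃ m', m = m' + 1 := ⟨m - 1, by omega⟩
  rw [Nat.add_sub_cancel] at hm2
  have h1 : 2 * (e + 1) < q₀ := by
    by_contra h2
    push Not at h2
    have : m' * q₀ ≤ m' * (2 * (e + 1)) := Nat.mul_le_mul_left _ h2
    nlinarith
  have h3 : 2 * e + 2 ≤ r := by omega
  have h4 : (2 * e + 3) * ((r + 1) * r) ≤ q₀ * ((r + 1) * r) :=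
    Nat.mul_le_mul_right _ (by omega)
  have h5 : 3 * ((r + 1) * r) ≤ (2 * e + 3) * ((r + 1) * r) :=
    Nat.mul_le_mul_right _ (by omega)
  have h6 : 4 * ((r + 1 + (e + 1)) * (r + 1 + e)) ≤ (3 * r + 2) * (3 * r) := by
    have : (2 * (r + 1 + (e + 1))) * (2 * (r + 1 + e)) ≤ (3 * r + 2) * (3 * r) :=
      Nat.mul_le_mul (by omega) (by omega)
    calc _ = (2 * (r + 1 + (e + 1))) * (2 * (r + 1 + e)) := by ring
      _ ≤ _ := this
  nlinarith

theorem exists_theta_total {r e m q₀ q : ℕ} (hm2 : 2 * m * (e + 1) < (m - 1) * q₀)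
    (h : q₀ * ((r + 1) * r) < (r + 1 + (e + 1)) * (r + 1 + e)) (hq : q₀ + 2 * r ≤ q) :
    ∃ Θ : MvPolynomial (Fin q × Fin (r + 1 + 1)) ℚ, Θ ≠ 0 ∧
      ∀ p : Fin q → Fin (r + 1 + 1) → ℂ,
        aeval (fun x : Fin q × Fin (r + 1 + 1) => p x.1 x.2) Θ ≠ 0 →
        (∀ s : Fin (r + 1 + 1) → Fin q, Function.Injective s →
          (Matrix.of fun i => p (s i)).det ≠ 0) ∧
        ∀ {Y : ℂ → ℂ → Fin (r + 1 + 1) → ℂ}, LiftFamily Y →
        (∀ j z₁, analyticOrderAt (fun z => p j ⬝ᵥ Y z₁ z) z₁ = 0 ∨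
          (m : ℕ∞) ≤ analyticOrderAt (fun z => p j ⬝ᵥ Y z₁ z) z₁) →
        ∀ z w : ℂ, ∃ c : ℂ, c ≠ 0 ∧ Y z z = c • Y w w := by
  obtain ⟨Θ₁, h1, h2⟩ := exists_theta (ι := Fin q) h (by rw [Fintype.card_fin]; exact hq)
  obtain ⟨Θ₂, h3, h4⟩ := exists_genpos (r + 1 + 1) (Fin q)
  refine ⟨Θ₁ * Θ₂, mul_ne_zero h1 h3, ?_⟩
  intro p hp
  rw [map_mul] at hp
  have h5 := left_ne_zero_of_mul hp
  have h6 := right_ne_zero_of_mul hp
  refine ⟨h4 p h6, ?_⟩
  intro Y hY hord z w
  exact core_family2 hm2 (arith2 hm2 h) p (h4 p h6) (h2 p h5) hY hord z w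

end Pool.Agent.Lib.GGL
end

section

/-!
Functions on the tangent space of a complete intersection: elimination of tangent directions.
-/

open MvPolynomial

set_option linter.unusedSectionVars false

namespace Pool.Agent.Lib.GGL.CI

lemma aeval_hom {σ τ M M' K : Type*} [CommRing K] [AddCommMonoid M] [AddCommMonoid M']
    {w : σ → M} {w' : τ → M'} (L : M →+ M') {f : σ → MvPolynomial τ K}
    (hf : ∀ t, IsWeightedHomogeneous w' (f t) (L (w t))) {P : MvPolynomial σ K} {m : M}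
    (hP : IsWeightedHomogeneous w P m) : IsWeightedHomogeneous w' (aeval f P) (L m) := by
  rw [aeval_def, eval₂_eq]
  apply IsWeightedHomogeneous.sum
  intro s hs
  rw [algebraMap_eq]
  apply IsWeightedHomogeneous.C_mul
  have h1 := hP (mem_support_iff.mp hs)
  rw [← h1, Finsupp.weight_apply, Finsupp.sum, map_sum]
  apply IsWeightedHomogeneous.prod
  intro t _
  rw [map_nsmul]
  exact (hf t).pow _

section bound

variable {K : Type} [Field K] {N : ℕ} {ι : Type} [Fintype ι] [DecidableEq ι]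
  (g' : ι → MvPolynomial (Fin N) K) (o : ι → Fin N)

/-- the form, as a polynomial in `x`, `v` -/
noncomputable def gS (i : ι) : MvPolynomial (Fin N ⊕ Fin N) K := rename Sum.inl (g' i)

/-- the partial derivatives -/
noncomputable def dS (i : ι) (j : Fin N) : MvPolynomial (Fin N ⊕ Fin N) K :=
  rename Sum.inl (pderiv j (g' i))

omit [Fintype ι] [DecidableEq ι] in
lemma pderiv_gS (i : ι) (j : Fin N) : pderiv (Sum.inl j) (gS g' i) = dS g' i j := by
  rw [gS, dS, pderiv_rename Sum.inl_injective]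

omit [Fintype ι] [DecidableEq ι] in
lemma Dm_gS (i : ι) : Dm (gS g' i) = ∑ j, X (Sum.inr j) * dS g' i j := by
  rw [Dm_apply]
  exact Finset.sum_congr rfl fun j _ => by rw [pderiv_gS]

/-- the matrix of the partial derivatives -/
noncomputable def MS : Matrix ι ι (MvPolynomial (Fin N ⊕ Fin N) K) :=
  Matrix.of fun i k => dS g' i (o k)

/-- the minor -/
noncomputable def JS : MvPolynomial (Fin N ⊕ Fin N) K := (MS g' o).det

open Classical in
/-- the part of the differential in the other directions -/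
noncomputable def rS (i : ι) : MvPolynomial (Fin N ⊕ Fin N) K :=
  ∑ j with j ∉ Set.range o, X (Sum.inr j) * dS g' i j

/-- the elimination of the directions in the range of `o` -/
noncomputable def phi :
    MvPolynomial (Fin N ⊕ Fin N) K →ₐ[K] MvPolynomial (Fin N ⊕ Fin N) K :=
  aeval (Sum.elim (fun j => X (Sum.inl j))
    (Function.extend o (fun k => -∑ i, (MS g' o).adjugate k i * rS g' o i)
      (fun j => JS g' o * X (Sum.inr j))))

/-- the retraction -/
noncomputable def eps :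
    MvPolynomial (Fin N ⊕ Fin N) K →ₐ[K] MvPolynomial (Fin N ⊕ Fin N) K :=
  aeval (Sum.elim (fun j => X (Sum.inl j)) (Function.extend o 0 (fun j => X (Sum.inr j))))

lemma phi_inl (j : Fin N) : phi g' o (X (Sum.inl j)) = X (Sum.inl j) := by
  rw [phi, aeval_X, Sum.elim_inl]

lemma eps_inl (j : Fin N) : eps (K := K) o (X (Sum.inl j)) = X (Sum.inl j) := by
  rw [eps, aeval_X, Sum.elim_inl]

variable {o}

lemma phi_o (ho : Function.Injective o) (k : ι) : phi g' o (X (Sum.inr (o k))) =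
    -∑ i, (MS g' o).adjugate k i * rS g' o i := by
  rw [phi, aeval_X, Sum.elim_inr, ho.extend_apply]

lemma eps_o (ho : Function.Injective o) (k : ι) : eps (K := K) o (X (Sum.inr (o k))) = 0 := by
  rw [eps, aeval_X, Sum.elim_inr, ho.extend_apply]
  rfl

lemma phi_of {j : Fin N} (hj : j ∉ Set.range o) : phi g' o (X (Sum.inr j)) =
    JS g' o * X (Sum.inr j) := by
  rw [phi, aeval_X, Sum.elim_inr, Function.extend_apply' _ _ _ hj]

lemma eps_of {j : Fin N} (hj : j ∉ Set.range o) :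
    eps (K := K) o (X (Sum.inr j)) = X (Sum.inr j) := by
  rw [eps, aeval_X, Sum.elim_inr, Function.extend_apply' _ _ _ hj]

lemma fix_rename {θ : MvPolynomial (Fin N ⊕ Fin N) K →ₐ[K] MvPolynomial (Fin N ⊕ Fin N) K}
    (h : ∀ j, θ (X (Sum.inl j)) = X (Sum.inl j)) (f : MvPolynomial (Fin N) K) :
    θ (rename Sum.inl f) = rename Sum.inl f := by
  have h1 : θ.comp (rename Sum.inl) = rename Sum.inl := by
    apply algHom_ext
    intro j
    rw [AlgHom.comp_apply, rename_X, h]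
  exact AlgHom.congr_fun h1 f

lemma fix_adj {θ : MvPolynomial (Fin N ⊕ Fin N) K →ₐ[K] MvPolynomial (Fin N ⊕ Fin N) K}
    (h : ∀ j, θ (X (Sum.inl j)) = X (Sum.inl j)) (i k : ι) :
    θ ((MS g' o).adjugate k i) = (MS g' o).adjugate k i := by
  have h1 := congrFun (congrFun (RingHom.map_adjugate (n := ι) (θ : MvPolynomial (Fin N ⊕ Fin N) K
    →+* MvPolynomial (Fin N ⊕ Fin N) K) (MS g' o)) k) i
  have h2 : (θ : MvPolynomial (Fin N ⊕ Fin N) K →+* MvPolynomial (Fin N ⊕ Fin N) K).mapMatrix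
      (MS g' o) = MS g' o := by
    refine Matrix.ext fun i k => ?_
    rw [RingHom.mapMatrix_apply, Matrix.map_apply, MS, Matrix.of_apply]
    exact fix_rename h _
  rw [h2] at h1
  exact h1

lemma fix_JS {θ : MvPolynomial (Fin N ⊕ Fin N) K →ₐ[K] MvPolynomial (Fin N ⊕ Fin N) K}
    (h : ∀ j, θ (X (Sum.inl j)) = X (Sum.inl j)) : θ (JS g' o) = JS g' o := by
  have h1 := RingHom.map_det (n := ι) (θ : MvPolynomial (Fin N ⊕ Fin N) K
    →+* MvPolynomial (Fin N ⊕ Fin N) K) (MS g' o)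
  have h2 : (θ : MvPolynomial (Fin N ⊕ Fin N) K →+* MvPolynomial (Fin N ⊕ Fin N) K).mapMatrix
      (MS g' o) = MS g' o := by
    refine Matrix.ext fun i k => ?_
    rw [RingHom.mapMatrix_apply, Matrix.map_apply, MS, Matrix.of_apply]
    exact fix_rename h _
  rw [h2] at h1
  exact h1

lemma phi_rS (i : ι) : phi g' o (rS g' o i) = JS g' o * rS g' o i := by
  classical
  rw [rS, map_sum, Finset.mul_sum]
  refine Finset.sum_congr rfl fun j hj => ?_
  rw [Finset.mem_filter] at hj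
  rw [map_mul, phi_of g' hj.2, dS, fix_rename (phi_inl g' o)]
  ring

lemma eps_rS (i : ι) : eps o (rS g' o i) = rS g' o i := by
  classical
  rw [rS, map_sum]
  refine Finset.sum_congr rfl fun j hj => ?_
  rw [Finset.mem_filter] at hj
  rw [map_mul, eps_of hj.2, dS, fix_rename (eps_inl o)]

lemma Dm_gS_split (ho : Function.Injective o) (i : ι) :
    Dm (gS g' i) = ∑ k, dS g' i (o k) * X (Sum.inr (o k)) + rS g' o i := by
  classical
  rw [Dm_gS, rS, ← Finset.sum_filter_add_sum_filter_not Finset.univ (fun j => j ∈ Set.range o)]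
  congr 1
  symm
  apply Finset.sum_bij (fun k _ => o k)
  · intro k _
    rw [Finset.mem_filter]
    exact ⟨Finset.mem_univ _, k, rfl⟩
  · intro k _ k' _ h
    exact ho h
  · intro j hj
    rw [Finset.mem_filter] at hj
    obtain ⟨k, hk⟩ := hj.2
    exact ⟨k, Finset.mem_univ _, hk⟩
  · intro k _
    ring

lemma phi_Dm (ho : Function.Injective o) (i : ι) : phi g' o (Dm (gS g' i)) = 0 := by
  rw [Dm_gS_split g' ho, map_add, phi_rS, map_sum]
  have h1 : ∀ k, phi g' o (dS g' i (o k) * X (Sum.inr (o k))) =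
      -∑ l, (MS g' o i k * (MS g' o).adjugate k l) * rS g' o l := by
    intro k
    rw [map_mul, phi_o g' ho, dS, fix_rename (phi_inl g' o), mul_neg, Finset.mul_sum]
    congr 1
    refine Finset.sum_congr rfl fun l _ => ?_
    rw [MS, Matrix.of_apply, dS]
    ring
  rw [Finset.sum_congr rfl fun k _ => h1 k, Finset.sum_neg_distrib, Finset.sum_comm]
  have h2 : ∀ l, ∑ k, (MS g' o i k * (MS g' o).adjugate k l) * rS g' o l =
      (if i = l then JS g' o else 0) * rS g' o l := by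
    intro l
    rw [← Finset.sum_mul]
    congr 1
    have h3 := congrFun (congrFun (Matrix.mul_adjugate (MS g' o)) i) l
    rw [Matrix.mul_apply] at h3
    rw [h3, Matrix.smul_apply, Matrix.one_apply, smul_eq_mul]
    split_ifs with h
    · rw [mul_one]; rfl
    · rw [mul_zero]
  rw [Finset.sum_congr rfl fun l _ => h2 l, Finset.sum_eq_single i]
  · rw [if_pos rfl]; ring
  · intro l _ hl
    rw [if_neg (fun h => hl h.symm), zero_mul]
  · intro h; exact absurd (Finset.mem_univ _) h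

/-- the ideal of the differentials -/
noncomputable def dI : Ideal (MvPolynomial (Fin N ⊕ Fin N) K) :=
  Ideal.span (Set.range fun i => Dm (gS g' i))

lemma phi_sub_mem (ho : Function.Injective o) (j : Fin N) :
    phi g' o (X (Sum.inr j)) - JS g' o * X (Sum.inr j) ∈ dI g' := by
  by_cases hj : j ∈ Set.range o
  · obtain ⟨k, rfl⟩ := hj
    have h1 : phi g' o (X (Sum.inr (o k))) - JS g' o * X (Sum.inr (o k)) =
        -∑ i, (MS g' o).adjugate k i * Dm (gS g' i) := by
      have h2 : ∑ i, (MS g' o).adjugate k i * Dm (gS g' i) =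
          ∑ i, (MS g' o).adjugate k i * rS g' o i + JS g' o * X (Sum.inr (o k)) := by
        simp_rw [Dm_gS_split g' ho, mul_add, Finset.sum_add_distrib, Finset.mul_sum]
        rw [add_comm, Finset.sum_comm]
        congr 1
        have h3 : ∀ l, ∑ i, (MS g' o).adjugate k i * (dS g' i (o l) * X (Sum.inr (o l))) =
            (if k = l then JS g' o else 0) * X (Sum.inr (o l)) := by
          intro l
          have h3 := congrFun (congrFun (Matrix.adjugate_mul (MS g' o)) k) l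
          rw [Matrix.mul_apply, Matrix.smul_apply, Matrix.one_apply, smul_eq_mul] at h3
          simp_rw [← mul_assoc]
          rw [← Finset.sum_mul]
          congr 1
          refine Eq.trans h3 ?_
          split_ifs with h
          · rw [mul_one]; rfl
          · rw [mul_zero]
        rw [Finset.sum_congr rfl fun l _ => h3 l, Finset.sum_eq_single k]
        · rw [if_pos rfl]
        · intro l _ hl
          rw [if_neg (fun h => hl h.symm), zero_mul]
        · intro h; exact absurd (Finset.mem_univ _) h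
      rw [h2, phi_o g' ho]
      ring
    rw [h1]
    apply Ideal.neg_mem_iff _ |>.mpr
    apply Ideal.sum_mem
    intro i _
    exact Ideal.mul_mem_left _ _ (Ideal.subset_span ⟨i, rfl⟩)
  · rw [phi_of g' hj, sub_self]
    exact Ideal.zero_mem _

/-- scaling of the tangent directions -/
noncomputable def scl (J : MvPolynomial (Fin N ⊕ Fin N) K) :
    MvPolynomial (Fin N ⊕ Fin N) K →ₐ[K] MvPolynomial (Fin N ⊕ Fin N) K :=
  aeval (Sum.elim (fun j => X (Sum.inl j)) (fun j => J * X (Sum.inr j)))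

omit [Fintype ι] [DecidableEq ι] in
lemma scl_apply (J : MvPolynomial (Fin N ⊕ Fin N) K) {P : MvPolynomial (Fin N ⊕ Fin N) K} {α : ℤ}
    {b : ℕ} (hP : IsBZ P α b) : scl J P = J ^ b * P := by
  conv_rhs => rw [P.as_sum, Finset.mul_sum]
  rw [scl, aeval_def, eval₂_eq]
  refine Finset.sum_congr rfl fun s hs => ?_
  have h1 := hP (mem_support_iff.mp hs)
  rw [weight_wtZ] at h1
  have h2 := congrArg Prod.snd h1
  simp only at h2
  have h3 : (Finsupp.weight (wt N) s).2 = b := by exact_mod_cast h2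
  rw [Finsupp.weight_apply, Finsupp.sum, Prod.snd_sum] at h3
  have h4 : ∀ t ∈ s.support, (Sum.elim (fun j => (X (Sum.inl j) :
      MvPolynomial (Fin N ⊕ Fin N) K)) (fun j => J * X (Sum.inr j)) t) ^ s t =
      J ^ ((s t • wt N t).2) * X t ^ s t := by
    intro t _
    rcases t with t | t
    · simp [wt]
    · simp [wt, mul_pow]
  rw [Finset.prod_congr rfl h4, Finset.prod_mul_distrib, Finset.prod_pow_eq_pow_sum, h3,
    monomial_eq, algebraMap_eq, Finsupp.prod]
  ring

lemma phi_sub_pow_mem (ho : Function.Injective o) {P : MvPolynomial (Fin N ⊕ Fin N) K} {α : ℤ}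
    {b : ℕ} (hP : IsBZ P α b) : phi g' o P - JS g' o ^ b * P ∈ dI g' := by
  rw [← scl_apply (JS g' o) hP]
  have h1 : (Ideal.Quotient.mkₐ K (dI g')).comp (phi g' o) =
      (Ideal.Quotient.mkₐ K (dI g')).comp (scl (JS g' o)) := by
    apply algHom_ext
    intro t
    rw [AlgHom.comp_apply, AlgHom.comp_apply]
    rcases t with t | t
    · rw [phi_inl, scl, aeval_X, Sum.elim_inl]
    · rw [scl, aeval_X, Sum.elim_inr]
      exact (Ideal.Quotient.eq (I := dI g')).mpr (phi_sub_mem g' ho t)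
  exact (Ideal.Quotient.eq (I := dI g')).mp (AlgHom.congr_fun h1 P)

lemma eps_phi (ho : Function.Injective o) (P : MvPolynomial (Fin N ⊕ Fin N) K) :
    eps o (phi g' o P) = phi g' o P := by
  have h1 : (eps o).comp (phi g' o) = phi g' o := by
    apply algHom_ext
    intro t
    rw [AlgHom.comp_apply]
    rcases t with t | t
    · rw [phi_inl, eps_inl]
    · by_cases ht : t ∈ Set.range o
      · obtain ⟨k, rfl⟩ := ht
        rw [phi_o g' ho, map_neg, map_sum]
        congr 1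
        refine Finset.sum_congr rfl fun i _ => ?_
        rw [map_mul, eps_rS, fix_adj g' (eps_inl o)]
      · rw [phi_of g' ht, map_mul, fix_JS g' (eps_inl o), eps_of ht]
  exact AlgHom.congr_fun h1 P

lemma eps_hom (ho : Function.Injective o) {P : MvPolynomial (Fin N ⊕ Fin N) K} {α β : ℤ}
    (hP : IsBZ P α β) : IsBZ (eps o P) α β := by
  refine aeval_hom (AddMonoidHom.id _) ?_ hP
  rintro (t | t)
  · exact isWeightedHomogeneous_X _ _ _
  · rw [Sum.elim_inr]
    by_cases ht : t ∈ Set.range o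
    · obtain ⟨k, rfl⟩ := ht
      rw [ho.extend_apply]
      exact isWeightedHomogeneous_zero _ _ _
    · rw [Function.extend_apply' _ _ _ ht]
      exact isWeightedHomogeneous_X _ _ _

omit [Fintype ι] [DecidableEq ι] in
lemma isBZ_rename {f : MvPolynomial (Fin N) K} {a : ℕ} (hf : f.IsHomogeneous a) :
    IsBZ (rename Sum.inl f : MvPolynomial (Fin N ⊕ Fin N) K) a 0 := by
  have h1 : (rename Sum.inl f : MvPolynomial (Fin N ⊕ Fin N) K) =
      aeval (fun j => X (Sum.inl j)) f := by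
    have h0 : (rename Sum.inl : MvPolynomial (Fin N) K →ₐ[K] MvPolynomial (Fin N ⊕ Fin N) K) =
        aeval (fun j => X (Sum.inl j)) := by
      apply algHom_ext
      intro j
      rw [rename_X, aeval_X]
    exact AlgHom.congr_fun h0 f
  rw [h1]
  have h2 := aeval_hom (w := (1 : Fin N → ℕ)) (w' := wtZ N) (P := f) (m := a)
    (f := fun j => (X (Sum.inl j) : MvPolynomial (Fin N ⊕ Fin N) K))
    ((Nat.castAddMonoidHom ℤ).prod (0 : ℕ →+ ℤ)) (fun t => by
      have h3 : ((Nat.castAddMonoidHom ℤ).prod (0 : ℕ →+ ℤ)) ((1 : Fin N → ℕ) t) =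
        wtZ N (Sum.inl t) := by
        simp [wtZ]
      rw [h3]
      exact isWeightedHomogeneous_X _ _ _) hf
  exact h2

variable {g'} {d : ι → ℕ}

lemma isBZ_dS (hg : ∀ i, (g' i).IsHomogeneous (d i + 1)) (i : ι) (j : Fin N) :
    IsBZ (dS g' i j) (d i) 0 := by
  have h1 := (hg i).pderiv (i := j)
  rw [Nat.add_sub_cancel] at h1
  exact isBZ_rename h1

lemma isBZ_gS (hg : ∀ i, (g' i).IsHomogeneous (d i + 1)) (i : ι) :
    IsBZ (gS g' i) (d i + 1) 0 := by
  have h1 := isBZ_rename (hg i)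
  exact_mod_cast h1

lemma det_hom {M σ : Type*} [AddCommMonoid M] {w : σ → M} {A : Matrix ι ι (MvPolynomial σ K)}
    {r : ι → M} (hA : ∀ i k, IsWeightedHomogeneous w (A i k) (r i)) :
    IsWeightedHomogeneous w A.det (∑ i, r i) := by
  rw [Matrix.det_apply]
  apply IsWeightedHomogeneous.sum
  intro σ _
  have h1 : IsWeightedHomogeneous w (∏ i, A (σ i) i) (∑ i, r (σ i)) :=
    IsWeightedHomogeneous.prod _ _ _ fun i _ => hA _ _
  rw [Equiv.sum_comp σ r] at h1
  rcases Int.units_eq_one_or (Equiv.Perm.sign σ) with h | h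
  · rw [h, one_smul]; exact h1
  · rw [h, Units.neg_smul, one_smul]
    exact h1.neg

lemma isBZ_JS (hg : ∀ i, (g' i).IsHomogeneous (d i + 1)) :
    IsBZ (JS g' o) (∑ i, (d i : ℤ)) 0 := by
  have h1 := det_hom (A := MS g' o) (w := wtZ N) (r := fun i => ((d i : ℤ), (0 : ℤ)))
    (fun i k => isBZ_dS hg i (o k))
  have h2 : ∑ i, ((d i : ℤ), (0 : ℤ)) = (∑ i, (d i : ℤ), 0) := by
    ext
    · rw [Prod.fst_sum]
    · rw [Prod.snd_sum]; simp
  rwa [h2] at h1

lemma isBZ_adj (hg : ∀ i, (g' i).IsHomogeneous (d i + 1)) (k i : ι) :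
    IsBZ ((MS g' o).adjugate k i) (∑ l, (d l : ℤ) - d i) 0 := by
  rw [Matrix.adjugate_apply]
  have h1 := det_hom (A := (MS g' o).updateRow i (Pi.single k 1)) (w := wtZ N)
    (r := fun l => if l = i then 0 else ((d l : ℤ), (0 : ℤ))) (by
      intro l m
      by_cases hl : l = i
      · subst hl
        rw [Matrix.updateRow_self, if_pos rfl]
        by_cases hm : m = k
        · subst hm
          rw [Pi.single_eq_same]
          exact isWeightedHomogeneous_one _ _
        · rw [Pi.single_eq_of_ne hm]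
          exact isWeightedHomogeneous_zero _ _ _
      · rw [Matrix.updateRow_ne hl, if_neg hl]
        exact isBZ_dS hg l (o m))
  have h2 : ∑ l, (if l = i then 0 else ((d l : ℤ), (0 : ℤ))) = (∑ l, (d l : ℤ) - d i, 0) := by
    have h3 : ∑ l, (if l = i then 0 else ((d l : ℤ), (0 : ℤ))) + ((d i : ℤ), (0 : ℤ)) =
        ∑ l, ((d l : ℤ), (0 : ℤ)) := by
      rw [← Finset.add_sum_erase Finset.univ (fun l => ((d l : ℤ), (0 : ℤ))) (Finset.mem_univ i),
        add_comm]
      congr 1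
      rw [← Finset.add_sum_erase Finset.univ _ (Finset.mem_univ i), if_pos rfl, zero_add]
      refine Finset.sum_congr rfl fun l hl => ?_
      rw [if_neg (Finset.ne_of_mem_erase hl)]
    have h4 : ∑ i, ((d i : ℤ), (0 : ℤ)) = (∑ i, (d i : ℤ), 0) := by
      ext
      · rw [Prod.fst_sum]
      · rw [Prod.snd_sum]; simp
    rw [h4] at h3
    rw [eq_sub_of_add_eq h3]
    simp
  rwa [h2] at h1

lemma isBZ_X_inr (j : Fin N) : IsBZ (X (Sum.inr j) : MvPolynomial (Fin N ⊕ Fin N) K) 0 1 :=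
  isWeightedHomogeneous_X _ _ _

lemma isBZ_X_inl (j : Fin N) : IsBZ (X (Sum.inl j) : MvPolynomial (Fin N ⊕ Fin N) K) 1 0 :=
  isWeightedHomogeneous_X _ _ _

lemma isBZ_rS (hg : ∀ i, (g' i).IsHomogeneous (d i + 1)) (i : ι) :
    IsBZ (rS g' o i) (d i) 1 := by
  classical
  rw [rS]
  apply IsWeightedHomogeneous.sum
  intro j _
  exact isBZ_congr ((isBZ_X_inr j).mul (isBZ_dS hg i j)) (by ring) (by ring)

lemma phi_hom (ho : Function.Injective o) (hg : ∀ i, (g' i).IsHomogeneous (d i + 1))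
    {P : MvPolynomial (Fin N ⊕ Fin N) K} {α β : ℤ}
    (hP : IsBZ P α β) : IsBZ (phi g' o P) (α + (∑ i, (d i : ℤ)) * β) β := by
  have h1 := aeval_hom (w := wtZ N) (w' := wtZ N) (P := P) (m := (α, β))
    (f := Sum.elim (fun j => X (Sum.inl j))
    (Function.extend o (fun k => -∑ i, (MS g' o).adjugate k i * rS g' o i)
      (fun j => JS g' o * X (Sum.inr j))))
    ((AddMonoidHom.fst ℤ ℤ + (AddMonoidHom.mulLeft (∑ i, (d i : ℤ))).comp
      (AddMonoidHom.snd ℤ ℤ)).prod (AddMonoidHom.snd ℤ ℤ)) (by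
    rintro (t | t)
    · have h3 : ((AddMonoidHom.fst ℤ ℤ + (AddMonoidHom.mulLeft (∑ i, (d i : ℤ))).comp
        (AddMonoidHom.snd ℤ ℤ)).prod (AddMonoidHom.snd ℤ ℤ)) (wtZ N (Sum.inl t)) = (1, 0) := by
        simp [wtZ]
      rw [h3, Sum.elim_inl]
      exact isBZ_X_inl t
    · have h3 : ((AddMonoidHom.fst ℤ ℤ + (AddMonoidHom.mulLeft (∑ i, (d i : ℤ))).comp
        (AddMonoidHom.snd ℤ ℤ)).prod (AddMonoidHom.snd ℤ ℤ)) (wtZ N (Sum.inr t)) =
          (∑ i, (d i : ℤ), 1) := by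
        simp [wtZ]
      rw [h3, Sum.elim_inr]
      by_cases ht : t ∈ Set.range o
      · obtain ⟨k, rfl⟩ := ht
        rw [ho.extend_apply]
        apply IsWeightedHomogeneous.neg
        apply IsWeightedHomogeneous.sum
        intro i _
        exact isBZ_congr ((isBZ_adj hg k i).mul (isBZ_rS hg i)) (by ring) (by ring)
      · rw [Function.extend_apply' _ _ _ ht]
        exact isBZ_congr ((isBZ_JS hg).mul (isBZ_X_inr t)) (by ring) (by ring)) hP
  exact h1

end bound

end Pool.Agent.Lib.GGL.CI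
end

section

/-!
Functions on the tangent space of a complete intersection: the bound.
-/

open MvPolynomial

set_option linter.unusedSectionVars false

namespace Pool.Agent.Lib.GGL.CI

section main

variable {K : Type} [Field K] {N : ℕ} {ι : Type} [Fintype ι] [DecidableEq ι]

/-- the ideal of the forms -/
noncomputable def gI (g' : ι → MvPolynomial (Fin N) K) : Ideal (MvPolynomial (Fin N ⊕ Fin N) K) :=
  Ideal.span (Set.range (gS g'))

/-- the complete intersections considered -/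
structure Sys (g' : ι → MvPolynomial (Fin N) K) (o : ι → Fin N) (d : ι → ℕ) (j0 j1 : Fin N)
    (Q : Ideal (MvPolynomial (Fin N ⊕ Fin N) K)) : Prop where
  hom : ∀ i, (g' i).IsHomogeneous (d i + 1)
  inj : Function.Injective o
  prime : (gI g').IsPrime
  notMem : (X (Sum.inl j0) : MvPolynomial (Fin N ⊕ Fin N) K) ∉ gI g'
  jac : JS g' o ∉ gI g'
  reg : ∀ (M : ℕ) (q : MvPolynomial (Fin N ⊕ Fin N) K),
    X (Sum.inl j1) ^ M * q ∈ gI g' ⊔ Ideal.span {X (Sum.inl j0) ^ M} →
      q ∈ gI g' ⊔ Ideal.span {X (Sum.inl j0) ^ M}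
  good : Good Q
  eq : Q = sat (X (Sum.inl j0)) (gI g' ⊔ dI g')

variable {g' : ι → MvPolynomial (Fin N) K} {o : ι → Fin N} {d : ι → ℕ} {j0 j1 : Fin N}
  {Q : Ideal (MvPolynomial (Fin N ⊕ Fin N) K)}

lemma Sys.biCl (h : Sys g' o d j0 j1 Q) : BiCl (gI g') := by
  apply biCl_span
  rintro q ⟨i, rfl⟩
  exact ⟨_, _, isBZ_gS h.hom i⟩

lemma fix_gI {θ : MvPolynomial (Fin N ⊕ Fin N) K →ₐ[K] MvPolynomial (Fin N ⊕ Fin N) K}
    (hθ : ∀ j, θ (X (Sum.inl j)) = X (Sum.inl j)) {q : MvPolynomial (Fin N ⊕ Fin N) K}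
    (hq : q ∈ gI g') : θ q ∈ gI g' := by
  have h1 : gI g' ≤ (gI g').comap θ := by
    rw [gI, Ideal.span_le]
    rintro _ ⟨i, rfl⟩
    rw [SetLike.mem_coe, Ideal.mem_comap, gS, fix_rename hθ]
    exact Ideal.subset_span ⟨i, rfl⟩
  exact h1 hq

lemma Sys.phi_mem (h : Sys g' o d j0 j1 Q) {q : MvPolynomial (Fin N ⊕ Fin N) K} (hq : q ∈ Q) :
    phi g' o q ∈ gI g' := by
  rw [h.eq] at hq
  obtain ⟨L, hL⟩ := hq
  have h1 : gI g' ⊔ dI g' ≤ (gI g').comap (phi g' o) := by
    rw [sup_le_iff]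
    constructor
    · intro q hq
      exact fix_gI (phi_inl g' o) hq
    · rw [dI, Ideal.span_le]
      rintro _ ⟨i, rfl⟩
      rw [SetLike.mem_coe, Ideal.mem_comap, phi_Dm g' h.inj]
      exact Ideal.zero_mem _
  have h2 := h1 hL
  rw [Ideal.mem_comap, map_mul, map_pow, phi_inl] at h2
  exact (h.prime.mem_or_mem h2).resolve_left fun h3 => h.notMem (h.prime.mem_of_pow_mem _ h3)

lemma Sys.gI_le (h : Sys g' o d j0 j1 Q) : gI g' ≤ Q := by
  rw [h.eq]
  exact le_sup_left.trans (le_sat _ _)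

lemma Sys.dI_le (h : Sys g' o d j0 j1 Q) : dI g' ≤ Q := by
  rw [h.eq]
  exact le_sup_right.trans (le_sat _ _)

lemma Sys.jac_notMem (h : Sys g' o d j0 j1 Q) : JS g' o ∉ Q := by
  intro h1
  have h2 := h.phi_mem h1
  rw [fix_JS g' (phi_inl g' o)] at h2
  exact h.jac h2

lemma Sys.exists_poly (h : Sys g' o d j0 j1 Q) {α : ℤ} {b : ℕ} {ω : LA j0 Q}
    (hω : ω ∈ HH j0 Q α b) : ∃ R : MvPolynomial (Fin N ⊕ Fin N) K, eps o R = R ∧
      IsBZ R (α + (∑ i, (d i : ℤ)) * b) b ∧ lp j0 Q (JS g' o) ^ b * ω = lp j0 Q R := by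
  obtain ⟨M0, q0, hq0, hω0⟩ := hω j0
  obtain ⟨M1, q1, hq1, hω1⟩ := hω j1
  obtain ⟨M, hM⟩ : ∃ M, M = M0 + M1 := ⟨_, rfl⟩
  have hP0 : IsBZ (q0 * X (Sum.inl j0) ^ M1) (α + M) b :=
    isBZ_congr (hq0.mul (isBZ_X_pow j0 M1)) (by rw [hM]; push_cast; ring) (by ring)
  have hP1 : IsBZ (q1 * X (Sum.inl j1) ^ M0) (α + M) b :=
    isBZ_congr (hq1.mul (isBZ_X_pow j1 M0)) (by rw [hM]; push_cast; ring) (by ring)
  have hωP0 : ω * lp j0 Q (X (Sum.inl j0)) ^ M = lp j0 Q (q0 * X (Sum.inl j0) ^ M1) := by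
    rw [map_mul, map_pow, ← hω0, hM, pow_add, mul_assoc]
  have hωP1 : ω * lp j0 Q (X (Sum.inl j1)) ^ M = lp j0 Q (q1 * X (Sum.inl j1) ^ M0) := by
    rw [map_mul, map_pow, ← hω1, hM, pow_add, mul_assoc, mul_comm (_ ^ M0)]
  obtain ⟨P0, hP0'⟩ : ∃ P0, P0 = q0 * X (Sum.inl j0) ^ M1 := ⟨_, rfl⟩
  obtain ⟨P1, hP1'⟩ : ∃ P1, P1 = q1 * X (Sum.inl j1) ^ M0 := ⟨_, rfl⟩
  rw [← hP0'] at hP0 hωP0
  rw [← hP1'] at hP1 hωP1
  have hc : X (Sum.inl j1) ^ M * P0 - X (Sum.inl j0) ^ M * P1 ∈ Q := by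
    rw [← h.good.lp_eq_zero j0, map_sub, map_mul, map_mul, map_pow, map_pow, ← hωP0, ← hωP1]
    ring
  have hc' := h.phi_mem hc
  rw [map_sub, map_mul, map_mul, map_pow, map_pow, phi_inl, phi_inl] at hc'
  have h1 : X (Sum.inl j1) ^ M * phi g' o P0 ∈
      gI g' ⊔ Ideal.span {X (Sum.inl j0) ^ M} := by
    rw [← sub_add_cancel (X (Sum.inl j1) ^ M * phi g' o P0) (X (Sum.inl j0) ^ M * phi g' o P1)]
    exact Ideal.add_mem _ (Ideal.mem_sup_left hc')
      (Ideal.mem_sup_right (Ideal.mul_mem_right _ _ (Ideal.mem_span_singleton_self _)))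
  have h2 := h.reg M _ h1
  obtain ⟨R, hR, hR'⟩ := exists_homogeneous h.biCl (phi_hom h.inj h.hom hP0) (isBZ_X_pow j0 M) h2
  refine ⟨eps o R, ?_, ?_, ?_⟩
  · have h3 : (eps (K := K) o).comp (eps o) = eps o := by
      apply algHom_ext
      intro t
      rw [AlgHom.comp_apply]
      rcases t with t | t
      · rw [eps_inl, eps_inl]
      · by_cases ht : t ∈ Set.range o
        · obtain ⟨k, rfl⟩ := ht
          rw [eps_o h.inj, map_zero]
        · rw [eps_of ht, eps_of ht]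
    exact AlgHom.congr_fun h3 R
  · exact isBZ_congr (eps_hom h.inj hR) (by ring) (by ring)
  · have h4 := fix_gI (eps_inl o) hR'
    rw [map_sub, eps_phi g' h.inj, map_mul, map_pow, eps_inl] at h4
    have h5 := (h.good.lp_eq_zero j0).mpr (h.gI_le h4)
    have h6 := (h.good.lp_eq_zero j0).mpr (h.dI_le (phi_sub_pow_mem g' h.inj hP0))
    rw [map_sub, map_mul, map_pow, sub_eq_zero] at h5 h6
    rw [h6, ← hωP0] at h5
    have hdom := h.good.isDomain j0
    apply mul_left_cancel₀ (pow_ne_zero M (h.good.lp_ne j0 j0))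
    rw [← h5]
    ring

/-- the standard monomials -/
abbrev Std (o : ι → Fin N) (d : ι → ℕ) (a : ℕ) : Type :=
  {μ : Mon N a // ∀ i, μ.1 (o i) ≤ d i}

/-- the monomials in the remaining directions -/
abbrev Rem (o : ι → Fin N) (b : ℕ) : Type :=
  {ν : Mon N b // ∀ i, ν.1 (o i) = 0}

/-- the monomials `v^ν` -/
noncomputable def vm (R : Type*) [CommRing R] (ν : Fin N →₀ ℕ) :
    MvPolynomial (Fin N ⊕ Fin N) R := ν.prod fun j e => X (Sum.inr j) ^ e

lemma monomial_eq_xm_vm {R : Type*} [CommRing R] (s : Fin N ⊕ Fin N →₀ ℕ) :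
    (monomial s 1 : MvPolynomial (Fin N ⊕ Fin N) R) =
      xm R (Finsupp.sumFinsuppEquivProdFinsupp s).1 *
        vm R (Finsupp.sumFinsuppEquivProdFinsupp s).2 := by
  rw [monomial_eq, C_1, one_mul, xm, vm, Finsupp.prod_fintype _ _ (fun _ => pow_zero _),
    Finsupp.prod_fintype _ _ (fun _ => pow_zero _), Finsupp.prod_fintype _ _ (fun _ => pow_zero _),
    Fintype.prod_sum_type]
  rfl

lemma weight_wt (s : Fin N ⊕ Fin N →₀ ℕ) : Finsupp.weight (wt N) s =
    ((Finsupp.sumFinsuppEquivProdFinsupp s).1.degree,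
      (Finsupp.sumFinsuppEquivProdFinsupp s).2.degree) := by
  rw [Finsupp.weight_apply, Finsupp.sum_fintype s (fun i c => c • wt N i)
    (fun _ => zero_smul _ _), Fintype.sum_sum_type, Finsupp.degree_eq_sum, Finsupp.degree_eq_sum]
  ext
  · rw [Prod.fst_add, Prod.fst_sum, Prod.fst_sum]
    simp [wt]
  · rw [Prod.snd_add, Prod.snd_sum, Prod.snd_sum]
    simp [wt]

lemma mem_span_monomials {R : MvPolynomial (Fin N ⊕ Fin N) K} {a b : ℕ} (hR : IsBi R a b) :
    R ∈ Submodule.span K (Set.range fun p : Mon N a × Mon N b => xm K p.1.1 * vm K p.2.1) := by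
  rw [R.as_sum]
  apply Submodule.sum_mem
  intro s hs
  have h1 := hR (mem_support_iff.mp hs)
  rw [weight_wt] at h1
  have h2 : monomial s (coeff s R) = coeff s R • (monomial s 1 : MvPolynomial (Fin N ⊕ Fin N) K) := by
    rw [smul_monomial, smul_eq_mul, mul_one]
  rw [h2, monomial_eq_xm_vm]
  apply Submodule.smul_mem
  apply Submodule.subset_span
  exact ⟨(⟨_, congrArg Prod.fst h1⟩, ⟨_, congrArg Prod.snd h1⟩), rfl⟩

lemma fix_xm {θ : MvPolynomial (Fin N ⊕ Fin N) K →ₐ[K] MvPolynomial (Fin N ⊕ Fin N) K}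
    (h : ∀ j, θ (X (Sum.inl j)) = X (Sum.inl j)) (μ : Fin N →₀ ℕ) : θ (xm K μ) = xm K μ := by
  rw [xm, Finsupp.prod, map_prod]
  refine Finset.prod_congr rfl fun j _ => ?_
  rw [map_pow, h]

lemma eps_vm_of {ν : Fin N →₀ ℕ} (hν : ∀ i, ν (o i) = 0) :
    eps o (vm K ν) = vm K ν := by
  rw [vm, Finsupp.prod, map_prod]
  refine Finset.prod_congr rfl fun j hj => ?_
  rw [map_pow, eps_of]
  rintro ⟨i, rfl⟩
  exact (Finsupp.mem_support_iff.mp hj) (hν i)

lemma eps_vm_not (ho : Function.Injective o) {ν : Fin N →₀ ℕ} {i : ι} (hν : ν (o i) ≠ 0) :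
    eps o (vm K ν) = 0 := by
  rw [vm, Finsupp.prod, map_prod]
  apply Finset.prod_eq_zero (Finsupp.mem_support_iff.mpr hν)
  rw [map_pow, eps_o ho, zero_pow hν]

lemma mem_span_rem (ho : Function.Injective o) {R : MvPolynomial (Fin N ⊕ Fin N) K} {a b : ℕ}
    (hR : IsBi R a b) (hε : eps o R = R) :
    R ∈ Submodule.span K (Set.range fun p : Mon N a × Rem o b => xm K p.1.1 * vm K p.2.1.1) := by
  have h1 := Submodule.mem_map_of_mem (f := (eps (K := K) o).toLinearMap) (mem_span_monomials hR)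
  rw [AlgHom.toLinearMap_apply, hε, Submodule.map_span] at h1
  refine Submodule.span_le.mpr ?_ h1
  rintro _ ⟨_, ⟨p, rfl⟩, rfl⟩
  rw [SetLike.mem_coe, AlgHom.toLinearMap_apply, map_mul, fix_xm (eps_inl o)]
  by_cases hp : ∀ i, p.2.1 (o i) = 0
  · rw [eps_vm_of hp]
    exact Submodule.subset_span ⟨(p.1, ⟨p.2, hp⟩), rfl⟩
  · push Not at hp
    obtain ⟨i, hi⟩ := hp
    rw [eps_vm_not ho hi, mul_zero]
    exact Submodule.zero_mem _

lemma Sys.lp_mem_span (h : Sys g' o d j0 j1 Q) {R : MvPolynomial (Fin N ⊕ Fin N) K} {a b : ℕ}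
    (hR : IsBi R a b) (hε : eps o R = R)
    (hstd : ∀ μ : Mon N a, xm K μ.1 ∈ Submodule.span K (Set.range fun σ : Std o d a => xm K σ.1.1) ⊔
      (gI g').restrictScalars K) :
    lp j0 Q R ∈ Submodule.span K
      (Set.range fun p : Std o d a × Rem o b => lp j0 Q (xm K p.1.1.1 * vm K p.2.1.1)) := by
  have h1 := Submodule.mem_map_of_mem (f := (lp j0 Q).toLinearMap) (mem_span_rem h.inj hR hε)
  rw [AlgHom.toLinearMap_apply, Submodule.map_span] at h1
  refine Submodule.span_le.mpr ?_ h1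
  rintro _ ⟨_, ⟨p, rfl⟩, rfl⟩
  rw [SetLike.mem_coe, AlgHom.toLinearMap_apply, map_mul]
  obtain ⟨y, hy, z, hz, hyz⟩ := Submodule.mem_sup.mp (hstd p.1)
  have hz0 : lp j0 Q z = 0 := (h.good.lp_eq_zero j0).mpr (h.gI_le hz)
  rw [← hyz, map_add, hz0, add_zero]
  have h2 := Submodule.mem_map_of_mem
    (f := (LinearMap.mulRight K (lp j0 Q (vm K p.2.1.1))).comp (lp j0 Q).toLinearMap) hy
  rw [Submodule.map_span, LinearMap.comp_apply, AlgHom.toLinearMap_apply,
    LinearMap.mulRight_apply] at h2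
  refine Submodule.span_mono ?_ h2
  rintro _ ⟨_, ⟨σ, rfl⟩, rfl⟩
  refine ⟨(σ, p.2), ?_⟩
  rw [LinearMap.comp_apply, AlgHom.toLinearMap_apply, LinearMap.mulRight_apply]
  beta_reduce
  rw [map_mul]

/-- no functions of very negative degree -/
theorem Sys.HH_eq_bot (h : Sys g' o d j0 j1 Q) {α : ℤ} {b : ℕ}
    (hαb : α + (∑ i, (d i : ℤ)) * b < 0) : HH j0 Q α b = ⊥ := by
  rw [eq_bot_iff]
  intro ω hω
  obtain ⟨R, -, hR, hωR⟩ := h.exists_poly hω
  have hdom := h.good.isDomain j0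
  have hR0 : R = 0 := by
    by_contra h0
    have := (hR.nonneg h0).1
    omega
  rw [hR0, map_zero] at hωR
  rw [Submodule.mem_bot]
  refine (mul_eq_zero.mp hωR).resolve_left (pow_ne_zero _ ?_)
  rw [Ne, h.good.lp_eq_zero]
  exact h.jac_notMem

omit [Fintype ι] [DecidableEq ι] in
lemma HH_eq_bot_of_neg (hQ : Good Q) {α β : ℤ} (hβ : β < 0) : HH j0 Q α β = ⊥ := by
  rw [eq_bot_iff]
  intro ω hω
  obtain ⟨M, q, hq, hωq⟩ := hω j0
  have hq0 : q = 0 := by
    by_contra h0
    have := (hq.nonneg h0).2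
    omega
  rw [hq0, map_zero] at hωq
  have hdom := hQ.isDomain j0
  exact (mul_eq_zero.mp hωq).resolve_right (pow_ne_zero _ (hQ.lp_ne j0 j0))

/-- the bound for the functions of given bidegree -/
theorem Sys.rank_le (h : Sys g' o d j0 j1 Q)
    (hstd : ∀ (a : ℕ) (μ : Mon N a), xm K μ.1 ∈
      Submodule.span K (Set.range fun σ : Std o d a => xm K σ.1.1) ⊔
      (gI g').restrictScalars K) {α : ℤ} {a b : ℕ} (hαb : α + (∑ i, (d i : ℤ)) * b = a) :
    Module.rank K (HH j0 Q α b) ≤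
      ((Fintype.card (Std o d a) * Fintype.card (Rem o b) : ℕ) : Cardinal) := by
  have hdom := h.good.isDomain j0
  have hJ : lp j0 Q (JS g' o) ^ b ≠ 0 := by
    apply pow_ne_zero
    rw [Ne, h.good.lp_eq_zero]
    exact h.jac_notMem
  have h1 : (HH j0 Q α b).map (LinearMap.mulLeft K (lp j0 Q (JS g' o) ^ b)) ≤
      Submodule.span K (Set.range fun p : Std o d a × Rem o b =>
        lp j0 Q (xm K p.1.1.1 * vm K p.2.1.1)) := by
    rintro _ ⟨ω, hω, rfl⟩
    obtain ⟨R, hε, hR, hωR⟩ := h.exists_poly hω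
    rw [LinearMap.mulLeft_apply, hωR]
    rw [hαb] at hR
    exact h.lp_mem_span (isBZ_iff.mp hR) hε (hstd a)
  have h2 : Module.rank K (HH j0 Q α b) =
      Module.rank K ((HH j0 Q α b).map (LinearMap.mulLeft K (lp j0 Q (JS g' o) ^ b))) :=
    LinearEquiv.rank_eq (Submodule.equivMapOfInjective _ (by
      intro x y hxy
      exact mul_left_cancel₀ hJ hxy) _)
  rw [h2]
  refine (Submodule.rank_mono h1).trans ((rank_span_le _).trans ?_)
  refine Cardinal.mk_range_le.trans ?_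
  rw [Cardinal.mk_fintype, Fintype.card_prod]

end main

end Pool.Agent.Lib.GGL.CI
end

section

/-!
Prime ideals in the universal ring.
-/

open MvPolynomial

namespace Pool.Agent.Lib.GGL.CI

section gen

variable {Q : Type*} [CommRing Q]

lemma sat_sup_sat (u : Q) (I J : Ideal Q) : sat u (sat u I ⊔ J) = sat u (I ⊔ J) := by
  apply le_antisymm
  · apply sat_le_sat_iff
    rw [sup_le_iff]
    exact ⟨sat_mono le_sup_left, le_sup_right.trans (le_sat _ _)⟩
  · exact sat_mono (sup_le_sup_right (le_sat _ _) _)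

lemma sat_eq_of_prime {u v : Q} {I : Ideal Q} (hu : (sat u I).IsPrime) (hv : (sat v I).IsPrime)
    (huv : u ∉ sat v I) (hvu : v ∉ sat u I) : sat u I = sat v I := by
  apply le_antisymm
  · rintro q ⟨L, hL⟩
    exact ((hv.mem_or_mem (le_sat v I hL)).resolve_left fun h => huv (hv.mem_of_pow_mem _ h))
  · rintro q ⟨L, hL⟩
    exact ((hu.mem_or_mem (le_sat u I hL)).resolve_left fun h => hvu (hu.mem_of_pow_mem _ h))

lemma prime_sat_step {u : Q} {I : Ideal Q} (hp : (sat u I).IsPrime) {τ : Q →+* Polynomial Q}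
    (h0 : ∀ q, (τ q).coeff 0 = q) (hI : Stable τ (sat u I)) {f p : Q} {k : ℕ}
    (hf : τ f = Polynomial.C f + Polynomial.X * Polynomial.C (u ^ (k + 1) * p))
    (hτb : τ (u ^ (k + 1) * p) = Polynomial.C (u ^ (k + 1) * p))
    (hb : u ^ (k + 1) * p ∉ sat u I) (hnz : Nzd p (sat u (I ⊔ Ideal.span {f}))) :
    (sat u (I ⊔ Ideal.span {f})).IsPrime := by
  have h1 := prime_of_translation hp h0 hI hf hτb hb
  have h2 : sat (u ^ (k + 1) * p) (sat u I ⊔ Ideal.span {f}) = sat u (I ⊔ Ideal.span {f}) := by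
    apply le_antisymm
    · rintro q ⟨L, hL⟩
      have h3 : sat u I ⊔ Ideal.span {f} ≤ sat u (I ⊔ Ideal.span {f}) := by
        rw [sup_le_iff]
        exact ⟨sat_mono le_sup_left, le_sup_right.trans (le_sat _ _)⟩
      exact (((nzd_self_sat u _).pow (k + 1)).mul hnz).pow L _ (h3 hL)
    · rintro q ⟨L, hL⟩
      refine ⟨L, ?_⟩
      have h3 : (u ^ (k + 1) * p) ^ L * q = (u ^ k * p) ^ L * (u ^ L * q) := by ring
      have h4 : I ⊔ Ideal.span {f} ≤ sat u I ⊔ Ideal.span {f} := sup_le_sup_right (le_sat u I) _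
      rw [h3]
      exact Ideal.mul_mem_left _ _ (h4 hL)
  rwa [h2] at h1

end gen

section prime

variable {N : ℕ} {ι : Type} {d : ι → ℕ}

/-- the saturated ideal -/
noncomputable def PAB (d : ι → ℕ) (N : ℕ) (j : Fin N) (A B : Set ι) : Ideal (UR N d) :=
  sat (X (Sum.inl j)) (IAB d N A B)

lemma notMem_PAB {A : Finset ι} (hA : A.card < N) (hd : ∀ i, 1 ≤ d i) (j : Fin N) (B : Set ι)
    {r : MvPolynomial (Coef N d) ℚ} (hr : r ≠ 0) (μ : Fin N →₀ ℕ) :
    xm _ μ * C r ∉ PAB d N j A B := by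
  rintro ⟨L, hL⟩
  rw [← mul_assoc, ← xm_single, ← xm_add] at hL
  exact notMem_IAB hA hd B hr _ hL

lemma X_pow_notMem_PAB {A : Finset ι} (hA : A.card < N) (hd : ∀ i, 1 ≤ d i) (j k : Fin N)
    (B : Set ι) (e : ℕ) : (X (Sum.inl k) : UR N d) ^ e ∉ PAB d N j A B := by
  have h1 := notMem_PAB hA hd j B one_ne_zero (Finsupp.single k e)
  rwa [xm_single, C_1, mul_one] at h1

lemma PAB_ne_top {A : Finset ι} (hA : A.card < N) (hd : ∀ i, 1 ≤ d i) (j : Fin N)
    (B : Set ι) : PAB d N j A B ≠ ⊤ := by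
  rw [Ideal.ne_top_iff_one]
  have h1 := X_pow_notMem_PAB hA hd j j B 0
  rwa [pow_zero] at h1

lemma nzd_pl_zero {b : ℕ → Fin N} (hb : Enum b) (hd : ∀ i, 1 ≤ d i) (A : Set ι) {B : Finset ι}
    (hB : B.card + 1 < N) : Nzd (pl d b 0) (PAB d N (b 0) A B) := by
  have h1 := nzd_pl hb hd A B 0 (by omega)
  have h2 : Set.Iio 0 = (∅ : Set ℕ) := by ext; simp
  rwa [h2, Set.image_empty, Ideal.span_empty, sup_bot_eq] at h1

lemma stable_IAB_g {i : ι} {μ : Fin N →₀ ℕ} {A : Set ι} (hi : i ∉ A) :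
    Stable (tr (ac i μ) 0) (IAB d N A ∅) := by
  apply Stable.sup
  · apply stable_span_of_fixed
    rintro q ⟨k, hk, rfl⟩
    apply tr_ac_ne
    rintro rfl
    exact hi hk
  · apply stable_span_of_fixed
    rintro q ⟨k, hk, rfl⟩
    exact absurd hk (Set.notMem_empty _)

lemma stable_IAB_dg {S : Finset ι} {o : ι → Fin N} {j : Fin N} (ho : ∀ i ∈ S, o i ≠ j)
    (hd : ∀ i, 1 ≤ d i) (A : Set ι) {B : Set ι} (hB : ∀ i ∈ S, i ∉ B) :
    Stable (tr (aa S o j) 0) (IAB d N A B) := by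
  apply Stable.sup
  · apply stable_span_of_fixed
    rintro q ⟨k, hk, rfl⟩
    exact tr_aa_gU ho hd k
  · apply stable_span_of_fixed
    rintro q ⟨k, hk, rfl⟩
    apply tr_aa_dgU_notMem
    intro h
    exact hB k h hk

lemma PAB_g_step (j : Fin N) (A B : Set ι) (i : ι) :
    PAB d N j (insert i A) B = sat (X (Sum.inl j)) (PAB d N j A B ⊔ Ideal.span {gU d i}) := by
  rw [PAB, PAB, sat_sup_sat, IAB_insert_left]

lemma PAB_dg_step (j : Fin N) (A B : Set ι) (i : ι) :
    PAB d N j A (insert i B) = sat (X (Sum.inl j)) (PAB d N j A B ⊔ Ideal.span {dgU d i}) := by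
  rw [PAB, PAB, sat_sup_sat, IAB_insert_right]

lemma prime_PAB_empty (hd : ∀ i, 1 ≤ d i) (j : Fin N) (A : Finset ι) (hA : A.card < N) :
    (PAB d N j A ∅).IsPrime := by
  classical
  induction A using Finset.induction_on with
  | empty =>
    have h1 : PAB d N j ((∅ : Finset ι) : Set ι) ∅ = ⊥ := by
      rw [PAB, IAB, Finset.coe_empty, Set.image_empty, Set.image_empty, Ideal.span_empty,
        sup_bot_eq, eq_bot_iff]
      rintro q ⟨L, hL⟩
      rw [Ideal.mem_bot] at hL ⊢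
      exact (mul_eq_zero.mp hL).resolve_left (pow_ne_zero _ (X_ne_zero _))
    rw [h1]
    exact Ideal.isPrime_bot
  | insert i A hi ih =>
    rw [Finset.card_insert_of_notMem hi] at hA
    have hA' : A.card < N := by omega
    rw [Finset.coe_insert, PAB, IAB_insert_left]
    obtain ⟨k, hk⟩ : ∃ k, d i = k + 1 := ⟨d i - 1, by have := hd i; omega⟩
    refine prime_sat_step (τ := tr (ac i (Finsupp.single j (d i))) 0) (p := 1) (k := k)
      (ih hA') (tr_coeff_zero _ _) (Stable.sat (stable_IAB_g hi) (tr_zero_X _ _)) ?_ ?_ ?_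
      (nzd_one _)
    · rw [tr_ac_self (Finsupp.degree_single _ _), xm_single, mul_one, hk]
    · rw [mul_one, map_pow, tr_zero_X, Polynomial.C_pow]
    · rw [mul_one]
      exact X_pow_notMem_PAB hA' hd j j ∅ _

/-- The saturated ideals are prime. -/
theorem prime_PAB (hd : ∀ i, 2 ≤ d i) (j : Fin N) {A : Finset ι} (hA : A.card < N) (B : Finset ι)
    (hB : B.card + 1 < N) : (PAB d N j A B).IsPrime := by
  classical
  have hd1 : ∀ i, 1 ≤ d i := fun i => by have := hd i; omega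
  obtain ⟨b, hb, rfl⟩ := exists_enum j
  induction B using Finset.induction_on with
  | empty =>
    rw [Finset.coe_empty]
    exact prime_PAB_empty hd1 _ A hA
  | insert i B hi ih =>
    have hB2 := hB
    rw [Finset.card_insert_of_notMem hi] at hB
    have hB' : B.card + 1 < N := by omega
    obtain ⟨k, hk⟩ : ∃ k, 2 * (d i - 1) = k + 1 := ⟨2 * (d i - 1) - 1, by have := hd i; omega⟩
    have ho : b 1 ≠ b 0 := by
      intro h
      have := hb 1 0 (by omega) (by omega) h
      omega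
    have hp := nzd_pl_zero hb hd1 (A : Set ι) hB'
    have hp2 := nzd_pl_zero hb hd1 (A : Set ι) hB2
    rw [Finset.coe_insert, PAB, IAB_insert_right] at hp2 ⊢
    refine prime_sat_step (τ := tr (aa {i} (fun _ => b 1) (b 0)) 0) (p := pl d b 0) (k := k)
      (ih hB') (tr_coeff_zero _ _) (Stable.sat (stable_IAB_dg (fun _ _ => ho) hd1 _ ?_)
      (tr_zero_X _ _)) ?_ ?_ ?_ hp2
    · intro k hk hkB
      rw [Finset.mem_singleton] at hk
      subst hk
      exact hi hkB
    · rw [tr_aa_dgU (Finset.mem_singleton_self i) ho (hd1 i), hk]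
      rfl
    · rw [map_mul, map_pow, tr_zero_X, tr_pl, Polynomial.C_mul, Polynomial.C_pow]
    · intro h
      have h1 := (nzd_self_sat _ _).pow _ _ h
      have h2 : (1 : UR N d) ∈ PAB d N (b 0) A B := hp _ (by rw [mul_one]; exact h1)
      exact PAB_ne_top hA hd1 _ _ ((Ideal.eq_top_iff_one _).mpr h2)

lemma PAB_eq (hd : ∀ i, 2 ≤ d i) (j k : Fin N) {A : Finset ι} (hA : A.card < N) (B : Finset ι)
    (hB : B.card + 1 < N) : PAB d N j A B = PAB d N k A B := by
  have hd1 : ∀ i, 1 ≤ d i := fun i => by have := hd i; omega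
  apply sat_eq_of_prime (prime_PAB hd j hA B hB) (prime_PAB hd k hA B hB)
  · have := X_pow_notMem_PAB hA hd1 k j B 1
    rwa [pow_one] at this
  · have := X_pow_notMem_PAB hA hd1 j k B 1
    rwa [pow_one] at this

lemma gU_notMem_PAB (hd : ∀ i, 1 ≤ d i) (j : Fin N) {A : Finset ι} (hA : A.card < N) {i : ι}
    (hi : i ∉ A) : gU d i ∉ PAB d N j A ∅ := by
  intro h
  have hst : Stable (tr (ac i (Finsupp.single j (d i))) 0) (PAB d N j A ∅) :=
    Stable.sat (stable_IAB_g hi) (tr_zero_X _ _)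
  have h1 := hst _ h 1
  rw [tr_ac_self (Finsupp.degree_single _ _), xm_single, Polynomial.coeff_add,
    Polynomial.coeff_C_succ, zero_add, Polynomial.coeff_X_mul, Polynomial.coeff_C_zero] at h1
  exact X_pow_notMem_PAB hA hd j j ∅ _ h1

lemma dgU_notMem_PAB (hd : ∀ i, 1 ≤ d i) (j : Fin N) {A : Finset ι} (hA : A.card < N)
    {B : Finset ι} (hB : B.card + 1 < N) {i : ι}
    (hi : i ∉ B) : dgU d i ∉ PAB d N j A B := by
  intro h
  obtain ⟨b, hb, rfl⟩ := exists_enum j
  have ho : b 1 ≠ b 0 := by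
    intro h
    have := hb 1 0 (by omega) (by omega) h
    omega
  have hst : Stable (tr (aa {i} (fun _ => b 1) (b 0)) 0) (PAB d N (b 0) A B) := by
    refine Stable.sat (stable_IAB_dg (fun _ _ => ho) hd _ ?_) (tr_zero_X _ _)
    intro k hk hkB
    rw [Finset.mem_singleton] at hk
    subst hk
    exact hi hkB
  have h1 := hst _ h 1
  rw [tr_aa_dgU (Finset.mem_singleton_self i) ho (hd i), Polynomial.coeff_add,
    Polynomial.coeff_C_succ, zero_add, Polynomial.coeff_X_mul, Polynomial.coeff_C_zero] at h1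
  have h2 := (nzd_self_sat _ _).pow _ _ h1
  have h3 : (1 : UR N d) ∈ PAB d N (b 0) A B :=
    nzd_pl_zero hb hd (A : Set ι) hB _ (by rw [mul_one]; exact h2)
  exact PAB_ne_top hA hd _ _ ((Ideal.eq_top_iff_one _).mpr h3)

/-- a Jacobian minor -/
noncomputable def Jac (d : ι → ℕ) [Fintype ι] [DecidableEq ι] (o : ι → Fin N) : UR N d :=
  Matrix.det (Matrix.of fun i k => pderiv (Sum.inl (o k)) (gU d i))

lemma Jac_notMem [Fintype ι] [DecidableEq ι] (hd : ∀ i, 1 ≤ d i) {o : ι → Fin N}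
    (ho : Function.Injective o) {j : Fin N} (hj : ∀ i, o i ≠ j) (hN : Fintype.card ι < N) :
    Jac d o ∉ PAB d N j Set.univ ∅ := by
  intro h
  have hst : Stable (tr (aa Finset.univ o j) 0) (PAB d N j Set.univ ∅) :=
    Stable.sat (stable_IAB_dg (fun i _ => hj i) hd _ fun _ _ h => h.elim) (tr_zero_X _ _)
  have h1 := hst _ h (Fintype.card ι)
  have h2 : (tr (aa (d := d) Finset.univ o j) 0) (Jac d o) =
      ((Polynomial.X : Polynomial (UR N d)) •
        (Matrix.diagonal fun i => (X (Sum.inl j) : UR N d) ^ (2 * (d i - 1) + 1)).map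
          Polynomial.C +
        (Matrix.of fun i k => pderiv (Sum.inl (o k)) (gU d i)).map Polynomial.C).det := by
    refine (RingHom.map_det (n := ι) (R := UR N d) (S := Polynomial (UR N d))
      (tr (aa (d := d) Finset.univ o j) 0) _).trans ?_
    congr 1
    refine Matrix.ext fun i k => ?_
    rw [RingHom.mapMatrix_apply, Matrix.map_apply, Matrix.of_apply, Matrix.add_apply,
      Matrix.smul_apply, Matrix.map_apply, Matrix.map_apply, Matrix.of_apply, pderiv_gU_emb,
      tr_aa_der (pderiv (Sum.inl (o k))) (Finset.mem_univ i) (hj i) (hd i), add_comm, smul_eq_mul]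
    congr 3
    rw [pderiv_X_of_ne (fun h => hj k (Sum.inl_injective h).symm), mul_zero, sub_zero]
    by_cases hik : i = k
    · subst hik
      rw [pderiv_X_self, mul_one, emb_X, Matrix.diagonal_apply_eq, pow_succ]
    · rw [pderiv_X_of_ne (fun h => hik (ho (Sum.inl_injective h))), mul_zero, map_zero, mul_zero,
        Matrix.diagonal_apply_ne _ hik]
  rw [h2, Polynomial.coeff_det_X_add_C_card, Matrix.det_diagonal, Finset.prod_pow_eq_pow_sum] at h1
  have h3 := X_pow_notMem_PAB (d := d) (A := Finset.univ) (by rwa [Finset.card_univ]) hd j j ∅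
    (∑ i, (2 * (d i - 1) + 1))
  rw [Finset.coe_univ] at h3
  exact h3 h1

end prime

end Pool.Agent.Lib.GGL.CI
end

section

/-!
Standard monomials: numbers and generation.
-/

open MvPolynomial

namespace Pool.Agent.Lib.GGL.CI

section card

variable {N n : ℕ} {ι : Type} [Fintype ι] {o : ι → Fin N}

lemma exists_cover (ho : Function.Injective o) (hN : N = Fintype.card ι + (n + 1)) :
    ∃ (e : Fin n → Fin N) (t : Fin N), (∀ j, j = t ∨ (∃ i, o i = j) ∨ ∃ k, e k = j) ∧
      ∀ i, o i ≠ t := by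
  classical
  have h1 : Fintype.card {j : Fin N // j ∉ Set.range o} = n + 1 := by
    have h2 : Fintype.card {j : Fin N // j ∈ Set.range o} = Fintype.card ι := by
      rw [Set.card_range_of_injective ho]
    have h3 := Fintype.card_subtype_compl (fun j : Fin N => j ∈ Set.range o)
    rw [h3, h2, Fintype.card_fin]
    omega
  let E := Fintype.equivFinOfCardEq h1
  refine ⟨fun k => (E.symm k.castSucc).1, (E.symm (Fin.last n)).1, ?_, ?_⟩
  · intro j
    by_cases hj : j ∈ Set.range o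
    · obtain ⟨i, hi⟩ := hj
      exact Or.inr (Or.inl ⟨i, hi⟩)
    · obtain ⟨k, hk⟩ : ∃ k, E.symm k = ⟨j, hj⟩ := E.symm.surjective _
      rcases Fin.eq_castSucc_or_eq_last k with ⟨k', rfl⟩ | rfl
      · right; right
        refine ⟨k', ?_⟩
        show (E.symm k'.castSucc).1 = j
        rw [hk]
      · left
        rw [hk]
  · intro i hi
    exact (E.symm (Fin.last n)).2 ⟨i, hi⟩

omit [Fintype ι] in
lemma eq_of_agree {e : Fin n → Fin N} {t : Fin N}
    (hc : ∀ j, j = t ∨ (∃ i, o i = j) ∨ ∃ k, e k = j) {a : ℕ} {μ ν : Mon N a}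
    (h1 : ∀ i, μ.1 (o i) = ν.1 (o i)) (h2 : ∀ k, μ.1 (e k) = ν.1 (e k)) : μ = ν := by
  have h3 : ∀ j, j ≠ t → μ.1 j = ν.1 j := by
    intro j hj
    rcases hc j with h | ⟨i, rfl⟩ | ⟨k, rfl⟩
    · exact absurd h hj
    · exact h1 i
    · exact h2 k
  apply Subtype.ext
  ext j
  by_cases hj : j = t
  · subst hj
    have h4 := μ.2.trans ν.2.symm
    have h5 : ∑ k ∈ Finset.univ.erase j, μ.1 k = ∑ k ∈ Finset.univ.erase j, ν.1 k :=
      Finset.sum_congr rfl fun k hk => h3 k (Finset.ne_of_mem_erase hk)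
    rw [Finsupp.degree_eq_sum, Finsupp.degree_eq_sum,
      ← Finset.add_sum_erase _ _ (Finset.mem_univ j),
      ← Finset.add_sum_erase _ _ (Finset.mem_univ j), h5] at h4
    exact Nat.add_right_cancel h4
  · exact h3 j hj

lemma le_of_mon {a : ℕ} (μ : Mon N a) (j : Fin N) : μ.1 j ≤ a := by
  have h1 := μ.2
  rw [Finsupp.degree_eq_sum] at h1
  exact (Finset.single_le_sum (f := fun j => μ.1 j) (fun _ _ => Nat.zero_le _)
    (Finset.mem_univ j)).trans h1.le

lemma card_Std_le (ho : Function.Injective o) (hN : N = Fintype.card ι + (n + 1)) (d : ι → ℕ)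
    (a : ℕ) [Fintype (Std o d a)] :
    Fintype.card (Std o d a) ≤ (∏ i, (d i + 1)) * (a + 1) ^ n := by
  classical
  obtain ⟨e, t, hc, -⟩ := exists_cover ho hN
  have h1 : Fintype.card (Std o d a) ≤ Fintype.card ((∀ i, Fin (d i + 1)) × (Fin n → Fin (a + 1))) := by
    apply Fintype.card_le_of_injective
      (fun μ : Std o d a => ((fun i => ⟨μ.1.1 (o i), Nat.lt_succ_of_le (μ.2 i)⟩ :
        ∀ i, Fin (d i + 1)), (fun k => ⟨μ.1.1 (e k), Nat.lt_succ_of_le (le_of_mon μ.1 _)⟩ :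
          Fin n → Fin (a + 1))))
    intro μ ν h
    rw [Prod.mk.injEq] at h
    apply Subtype.ext
    apply eq_of_agree hc
    · intro i
      exact congrArg Fin.val (congrFun h.1 i)
    · intro k
      exact congrArg Fin.val (congrFun h.2 k)
  refine h1.trans (le_of_eq ?_)
  rw [Fintype.card_prod, Fintype.card_pi, Fintype.card_fun, Fintype.card_fin, Fintype.card_fin]
  congr 1
  exact Finset.prod_congr rfl fun i _ => Fintype.card_fin _

lemma card_Rem_le (ho : Function.Injective o) (hN : N = Fintype.card ι + (n + 1))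
    (b : ℕ) [Fintype (Rem o b)] : Fintype.card (Rem o b) ≤ (b + 1) ^ n := by
  classical
  obtain ⟨e, t, hc, -⟩ := exists_cover ho hN
  have h1 : Fintype.card (Rem o b) ≤ Fintype.card (Fin n → Fin (b + 1)) := by
    apply Fintype.card_le_of_injective
      (fun μ : Rem o b => (fun k => ⟨μ.1.1 (e k), Nat.lt_succ_of_le (le_of_mon μ.1 _)⟩ :
          Fin n → Fin (b + 1)))
    intro μ ν h
    apply Subtype.ext
    apply eq_of_agree hc
    · intro i
      rw [μ.2, ν.2]
    · intro k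
      exact congrArg Fin.val (congrFun h k)
  refine h1.trans (le_of_eq ?_)
  rw [Fintype.card_fun, Fintype.card_fin, Fintype.card_fin]

/-- the number of all monomials -/
lemma card_Mon_ge (m a : ℕ) : (a + 1) ^ m ≤ Fintype.card (Mon (m + 1) a) * m.factorial := by
  classical
  have h1 : Fintype.card (Mon (m + 1) a) = (Finset.univ.finsuppAntidiag a :
      Finset (Fin (m + 1) →₀ ℕ)).card := by
    rw [← Fintype.card_coe]
    apply Fintype.card_congr
    refine Equiv.subtypeEquivRight fun μ => ?_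
    rw [Finset.mem_finsuppAntidiag, Finsupp.degree_eq_sum]
    exact ⟨fun h => ⟨h, Finset.subset_univ _⟩, fun h => h.1⟩
  rw [h1, Finset.card_finsuppAntidiag_nat_eq_choose, Finset.card_univ, Fintype.card_fin]
  have h2 : m + 1 + a - 1 = a + m := by omega
  have h3 : (a + m).choose a = (a + m).choose m := Nat.choose_symm_add
  rw [h2, h3, mul_comm, ← Nat.ascFactorial_eq_factorial_mul_choose]
  exact Nat.pow_succ_le_ascFactorial _ _

end card

section span

variable {N : ℕ} {ι : Type} (d : ι → ℕ)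

/-- the universal form, as a polynomial in `x` only -/
noncomputable def fU (i : ι) : MvPolynomial (Fin N) (MvPolynomial (Coef N d) ℚ) :=
  ∑ μ : Mon N (d i), monomial μ.1 (cf d i μ)

lemma rename_monomial_inl {R : Type*} [CommRing R] (μ : Fin N →₀ ℕ) (r : R) :
    rename Sum.inl (monomial μ r) = C r * xm R μ := by
  rw [monomial_eq, map_mul, rename_C, xm, Finsupp.prod, map_prod, Finsupp.prod]
  congr 1
  refine Finset.prod_congr rfl fun j _ => ?_
  rw [map_pow, rename_X]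

lemma rename_fU (i : ι) : rename Sum.inl (fU d i) = gU (N := N) d i := by
  rw [fU, map_sum, gU]
  exact Finset.sum_congr rfl fun μ _ => rename_monomial_inl _ _

lemma fU_hom (i : ι) : (fU (N := N) d i).IsHomogeneous (d i) := by
  apply IsHomogeneous.sum
  intro μ _
  exact isHomogeneous_monomial _ μ.2

lemma hom_as_sum {R : Type*} [CommRing R] {f : MvPolynomial (Fin N) R} {a : ℕ}
    (hf : f.IsHomogeneous a) : f = ∑ ν : Mon N a, monomial ν.1 (coeff ν.1 f) := by
  classical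
  ext μ
  rw [coeff_sum]
  by_cases hμ : μ.degree = a
  · rw [Finset.sum_eq_single (⟨μ, hμ⟩ : Mon N a)]
    · rw [coeff_monomial, if_pos rfl]
    · intro ν _ hν
      rw [coeff_monomial, if_neg]
      intro h
      exact hν (Subtype.ext h)
    · intro h; exact absurd (Finset.mem_univ _) h
  · rw [hf.coeff_eq_zero hμ, Finset.sum_eq_zero]
    intro ν _
    rw [coeff_monomial, if_neg]
    rintro rfl
    exact hμ ν.2

variable (o : ι → Fin N)

open Classical in
/-- the rows of the matrix -/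
noncomputable def rho {a : ℕ} (μ : Mon N a) : MvPolynomial (Fin N) (MvPolynomial (Coef N d) ℚ) :=
  if h : ∃ i, d i ≤ μ.1 (o i) then
    monomial (μ.1 - Finsupp.single (o h.choose) (d h.choose)) 1 * fU d h.choose
  else monomial μ.1 1

variable {d o}

lemma sub_add_single {a : ℕ} {μ : Mon N a} {i : ι} (h : d i ≤ μ.1 (o i)) :
    μ.1 - Finsupp.single (o i) (d i) + Finsupp.single (o i) (d i) = μ.1 := by
  classical
  apply tsub_add_cancel_of_le
  intro j
  rw [Finsupp.single_apply]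
  split_ifs with hj
  · rw [← hj]; exact h
  · exact Nat.zero_le _

lemma rho_hom {a : ℕ} (μ : Mon N a) : (rho d o μ).IsHomogeneous a := by
  classical
  rw [rho]
  split_ifs with h
  · have h1 := sub_add_single h.choose_spec
    have h2 := congrArg Finsupp.degree h1
    rw [map_add, Finsupp.degree_single, μ.2] at h2
    have h3 := (isHomogeneous_monomial (1 : MvPolynomial (Coef N d) ℚ)
      (rfl : (μ.1 - Finsupp.single (o h.choose) (d h.choose)).degree = _)).mul (fU_hom d h.choose)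
    rwa [h2] at h3
  · exact isHomogeneous_monomial _ μ.2

open Classical in
/-- specialization of the coefficients -/
noncomputable def spec (d : ι → ℕ) (o : ι → Fin N) : MvPolynomial (Coef N d) ℚ →+* ℚ :=
  eval₂Hom (RingHom.id ℚ) fun m => if m.2.1 = Finsupp.single (o m.1) (d m.1) then 1 else 0

lemma map_spec_fU (i : ι) : map (spec d o) (fU d i) = monomial (Finsupp.single (o i) (d i)) 1 := by
  classical
  rw [fU, map_sum, Finset.sum_eq_single (⟨Finsupp.single (o i) (d i), Finsupp.degree_single _ _⟩ :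
    Mon N (d i))]
  · rw [map_monomial, spec, coe_eval₂Hom, eval₂_X, if_pos rfl]
  · intro μ _ hμ
    rw [map_monomial, spec, coe_eval₂Hom, eval₂_X, if_neg, map_zero]
    intro h
    exact hμ (Subtype.ext h)
  · intro h; exact absurd (Finset.mem_univ _) h

lemma map_spec_rho {a : ℕ} (μ : Mon N a) : map (spec d o) (rho d o μ) = monomial μ.1 1 := by
  classical
  rw [rho]
  split_ifs with h
  · rw [map_mul, map_spec_fU, map_monomial, map_one, monomial_mul, one_mul,
      sub_add_single h.choose_spec]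
  · rw [map_monomial, map_one]

variable (d o)

/-- the matrix -/
noncomputable def TM (a : ℕ) : Matrix (Mon N a) (Mon N a) (MvPolynomial (Coef N d) ℚ) :=
  Matrix.of fun μ ν => coeff ν.1 (rho d o μ)

lemma TM_det_ne (a : ℕ) [DecidableEq (Mon N a)] : (TM d o a).det ≠ 0 := by
  classical
  intro h
  have h1 := RingHom.map_det (n := Mon N a) (spec d o) (TM d o a)
  have h2 : (spec d o).mapMatrix (TM d o a) = 1 := by
    refine Matrix.ext fun μ ν => ?_
    rw [RingHom.mapMatrix_apply, Matrix.map_apply, TM, Matrix.of_apply, ← coeff_map,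
      map_spec_rho, coeff_monomial, Matrix.one_apply]
    congr 1
    exact propext Subtype.ext_iff.symm
  rw [h2, Matrix.det_one, h, map_zero] at h1
  exact zero_ne_one h1

variable {K : Type} [Field K] [Algebra (MvPolynomial (Coef N d) ℚ) K]
  [IsFractionRing (MvPolynomial (Coef N d) ℚ) K]

lemma monomial_mem_span {a : ℕ} (ν : Mon N a) : (monomial ν.1 1 : MvPolynomial (Fin N) K) ∈
    Submodule.span K (Set.range fun μ : Mon N a =>
      map (algebraMap (MvPolynomial (Coef N d) ℚ) K) (rho d o μ)) := by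
  classical
  obtain ⟨A, hA⟩ : ∃ A, A = (TM d o a).map (algebraMap (MvPolynomial (Coef N d) ℚ) K) := ⟨_, rfl⟩
  have hdet : IsUnit A.det := by
    rw [isUnit_iff_ne_zero, hA]
    have h1 := RingHom.map_det (n := Mon N a) (algebraMap (MvPolynomial (Coef N d) ℚ) K)
      (TM d o a)
    rw [RingHom.mapMatrix_apply] at h1
    rw [← h1, Ne, IsFractionRing.to_map_eq_zero_iff]
    exact TM_det_ne d o a
  have h2 : (monomial ν.1 1 : MvPolynomial (Fin N) K) = ∑ μ : Mon N a, A⁻¹ ν μ •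
      map (algebraMap (MvPolynomial (Coef N d) ℚ) K) (rho d o μ) := by
    have h3 : ∀ μ : Mon N a, map (algebraMap (MvPolynomial (Coef N d) ℚ) K) (rho d o μ) =
        ∑ l : Mon N a, A μ l • monomial l.1 1 := by
      intro μ
      conv_lhs => rw [hom_as_sum (rho_hom (d := d) (o := o) μ)]
      rw [map_sum]
      refine Finset.sum_congr rfl fun l _ => ?_
      rw [map_monomial, smul_monomial, smul_eq_mul, mul_one, hA, Matrix.map_apply, TM,
        Matrix.of_apply]
    simp_rw [h3, Finset.smul_sum, smul_smul]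
    rw [Finset.sum_comm]
    simp_rw [← Finset.sum_smul, ← Matrix.mul_apply]
    rw [Matrix.nonsing_inv_mul A hdet, Finset.sum_eq_single ν]
    · rw [Matrix.one_apply_eq, one_smul]
    · intro l _ hl
      rw [Matrix.one_apply_ne hl.symm, zero_smul]
    · intro h; exact absurd (Finset.mem_univ _) h
  rw [h2]
  apply Submodule.sum_mem
  intro μ _
  exact Submodule.smul_mem _ _ (Submodule.subset_span ⟨μ, rfl⟩)

/-- the form over the field -/
noncomputable def fK (K : Type) [Field K] [Algebra (MvPolynomial (Coef N d) ℚ) K] (i : ι) :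
    MvPolynomial (Fin N) K := map (algebraMap (MvPolynomial (Coef N d) ℚ) K) (fU d i)

theorem xm_mem_span [Fintype ι] [DecidableEq ι] {d' : ι → ℕ} (hd : ∀ i, d i = d' i + 1) {a : ℕ}
    (ν : Mon N a) : xm K ν.1 ∈ Submodule.span K (Set.range fun σ : Std o d' a => xm K σ.1.1) ⊔
      (gI (fK d K)).restrictScalars K := by
  have h1 := Submodule.mem_map_of_mem
    (f := (rename Sum.inl : MvPolynomial (Fin N) K →ₐ[K]
      MvPolynomial (Fin N ⊕ Fin N) K).toLinearMap)
    (monomial_mem_span (K := K) d o ν)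
  rw [AlgHom.toLinearMap_apply, rename_monomial_inl, C_1, one_mul, Submodule.map_span] at h1
  refine Submodule.span_le.mpr ?_ h1
  rintro _ ⟨_, ⟨μ, rfl⟩, rfl⟩
  rw [SetLike.mem_coe, AlgHom.toLinearMap_apply]
  beta_reduce
  rw [rho]
  split_ifs with h
  · apply Submodule.mem_sup_right
    rw [map_mul, map_mul, Submodule.restrictScalars_mem]
    exact Ideal.mul_mem_left _ _ (Ideal.subset_span ⟨h.choose, rfl⟩)
  · apply Submodule.mem_sup_left
    rw [map_monomial, map_one, rename_monomial_inl, C_1, one_mul]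
    apply Submodule.subset_span
    refine ⟨⟨μ, ?_⟩, rfl⟩
    intro i
    push Not at h
    have := h i
    have := hd i
    omega

end span

end Pool.Agent.Lib.GGL.CI
end

section

/-!
Passage from the universal ring to the field of fractions of the ring of coefficients.
-/

open MvPolynomial

namespace Pool.Agent.Lib.GGL.CI

section locz

variable {σ R K : Type} [CommRing R] [IsDomain R] [Field K] [Algebra R K] [IsFractionRing R K]

attribute [local instance] MvPolynomial.algebraMvPolynomial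

/-- the passage to the field of fractions -/
noncomputable abbrev mp (σ R K : Type) [CommRing R] [Field K] [Algebra R K] :
    MvPolynomial σ R →+* MvPolynomial σ K := map (algebraMap R K)

omit [IsDomain R] in
lemma mp_injective : Function.Injective (mp σ R K) :=
  map_injective _ (IsFractionRing.injective R K)

omit [IsDomain R] in
lemma exists_clear (q : MvPolynomial σ K) : ∃ (s : R) (r : MvPolynomial σ R),
    s ∈ nonZeroDivisors R ∧ mp σ R K r = C (algebraMap R K s) * q := by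
  obtain ⟨⟨r, m, s, hs, rfl⟩, h⟩ :=
    IsLocalization.surj ((nonZeroDivisors R).map (C (σ := σ))) q
  refine ⟨s, r, hs, ?_⟩
  rw [mul_comm, ← map_C]
  exact h.symm

omit [IsDomain R] in
lemma mem_map_iff {I : Ideal (MvPolynomial σ R)} {q : MvPolynomial σ K} :
    q ∈ I.map (mp σ R K) ↔ ∃ (s : R) (r : MvPolynomial σ R), s ∈ nonZeroDivisors R ∧ r ∈ I ∧
      mp σ R K r = C (algebraMap R K s) * q := by
  have h1 := IsLocalization.mem_map_algebraMap_iff ((nonZeroDivisors R).map (C (σ := σ)))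
    (MvPolynomial σ K) (I := I) (z := q)
  constructor
  · intro h
    obtain ⟨⟨⟨r, hr⟩, ⟨_, s, hs, rfl⟩⟩, h2⟩ := h1.mp h
    refine ⟨s, r, hs, hr, ?_⟩
    rw [mul_comm, ← map_C]
    exact h2.symm
  · rintro ⟨s, r, hs, hr, h2⟩
    apply h1.mpr
    refine ⟨⟨⟨r, hr⟩, ⟨_, s, hs, rfl⟩⟩, ?_⟩
    rw [mul_comm, ← map_C] at h2
    exact h2.symm

omit [IsDomain R] in
lemma mp_mem_map_iff {I : Ideal (MvPolynomial σ R)} {r : MvPolynomial σ R} :
    mp σ R K r ∈ I.map (mp σ R K) ↔ ∃ s ∈ nonZeroDivisors R, C s * r ∈ I := by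
  rw [mem_map_iff]
  constructor
  · rintro ⟨s, r', hs, hr', h⟩
    refine ⟨s, hs, ?_⟩
    rw [← map_C, ← map_mul] at h
    rwa [← mp_injective h]
  · rintro ⟨s, hs, h⟩
    refine ⟨s, _, hs, h, ?_⟩
    rw [map_mul, map_C]

omit [IsDomain R] in
lemma C_ne_zero {s : R} (hs : s ∈ nonZeroDivisors R) :
    (C (algebraMap R K s) : MvPolynomial σ K) ≠ 0 := by
  rw [Ne, C_eq_zero, IsFractionRing.to_map_eq_zero_iff]
  rintro rfl
  have h1 : (1 : R) = 0 := by
    have := mem_nonZeroDivisors_iff_right.mp hs 1 (by simp)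
    exact this
  have h2 : (1 : K) = 0 := by
    rw [← map_one (algebraMap R K), h1, map_zero]
  exact one_ne_zero h2

omit [IsDomain R] in
lemma isUnit_C {s : R} (hs : s ∈ nonZeroDivisors R) :
    IsUnit (C (algebraMap R K s) : MvPolynomial σ K) := by
  apply IsUnit.map
  rw [isUnit_iff_ne_zero]
  intro h
  have := C_ne_zero (K := K) (σ := σ) hs
  rw [h, C_0] at this
  exact this rfl

omit [IsDomain R] in
lemma mem_of_C_mul_mem {J : Ideal (MvPolynomial σ K)} {s : R} (hs : s ∈ nonZeroDivisors R)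
    {q : MvPolynomial σ K} (h : C (algebraMap R K s) * q ∈ J) : q ∈ J := by
  obtain ⟨u, hu⟩ := isUnit_C (K := K) (σ := σ) hs
  rw [← hu] at h
  exact (Ideal.unit_mul_mem_iff_mem J u.isUnit).mp h

omit [IsDomain R] in
lemma Nzd.map_mp {f : MvPolynomial σ R} {I : Ideal (MvPolynomial σ R)} (h : Nzd f I) :
    Nzd (mp σ R K f) (I.map (mp σ R K)) := by
  intro q hq
  obtain ⟨s, r, hs, hr⟩ := exists_clear (R := R) q
  have h1 : mp σ R K (f * r) ∈ I.map (mp σ R K) := by
    rw [map_mul, hr, mul_left_comm]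
    exact Ideal.mul_mem_left _ _ hq
  obtain ⟨t, ht, h2⟩ := mp_mem_map_iff.mp h1
  rw [mul_left_comm] at h2
  have h3 := Ideal.mem_map_of_mem (mp σ R K) (h _ h2)
  rw [map_mul, map_C, hr] at h3
  exact mem_of_C_mul_mem hs (mem_of_C_mul_mem ht h3)

omit [IsDomain R] in
lemma sat_map (f : MvPolynomial σ R) (I : Ideal (MvPolynomial σ R)) :
    (sat f I).map (mp σ R K) = sat (mp σ R K f) (I.map (mp σ R K)) := by
  apply le_antisymm
  · rw [Ideal.map_le_iff_le_comap]
    rintro q ⟨L, hL⟩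
    refine ⟨L, ?_⟩
    rw [← map_pow, ← map_mul]
    exact Ideal.mem_map_of_mem _ hL
  · rintro q ⟨L, hL⟩
    obtain ⟨s, r, hs, hr⟩ := exists_clear (R := R) q
    have h1 : mp σ R K (f ^ L * r) ∈ I.map (mp σ R K) := by
      rw [map_mul, map_pow, hr, mul_left_comm]
      exact Ideal.mul_mem_left _ _ hL
    obtain ⟨t, ht, h2⟩ := mp_mem_map_iff.mp h1
    rw [mul_left_comm] at h2
    have h3 : C t * r ∈ sat f I := ⟨L, h2⟩
    have h4 := Ideal.mem_map_of_mem (mp σ R K) h3
    rw [map_mul, map_C, hr] at h4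
    exact mem_of_C_mul_mem hs (mem_of_C_mul_mem ht h4)

lemma mem_of_mp_mem {I : Ideal (MvPolynomial σ R)} (hI : I.IsPrime)
    (hC : ∀ s : R, s ≠ 0 → C s ∉ I) {r : MvPolynomial σ R}
    (h : mp σ R K r ∈ I.map (mp σ R K)) : r ∈ I := by
  obtain ⟨s, hs, h1⟩ := mp_mem_map_iff.mp h
  exact (hI.mem_or_mem h1).resolve_left (hC s (nonZeroDivisors.ne_zero hs))

lemma prime_map {I : Ideal (MvPolynomial σ R)} (hI : I.IsPrime)
    (hC : ∀ s : R, s ≠ 0 → C s ∉ I) : (I.map (mp σ R K)).IsPrime := by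
  refine IsLocalization.isPrime_of_isPrime_disjoint ((nonZeroDivisors R).map (C (σ := σ)))
    (MvPolynomial σ K) I hI ?_
  rw [Set.disjoint_left]
  rintro _ ⟨s, hs, rfl⟩ h
  exact hC s (nonZeroDivisors.ne_zero hs) h

omit [IsDomain R] [IsFractionRing R K] in
lemma comp_map {M : Type*} [AddCommMonoid M] (w : σ → M) (m : M) (r : MvPolynomial σ R) :
    weightedHomogeneousComponent w m (mp σ R K r) =
      mp σ R K (weightedHomogeneousComponent w m r) := by
  classical
  ext s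
  rw [coeff_map, coeff_weightedHomogeneousComponent, coeff_weightedHomogeneousComponent, coeff_map]
  split_ifs
  · rfl
  · rw [map_zero]

end locz

section locz2

variable {N : ℕ} {R K : Type} [CommRing R] [IsDomain R] [Field K] [Algebra R K]
  [IsFractionRing R K]

lemma BiCl.map {I : Ideal (MvPolynomial (Fin N ⊕ Fin N) R)} (hI : BiCl I) :
    BiCl (I.map (mp _ R K)) := by
  intro q hq m
  obtain ⟨s, r, hs, hr, h⟩ := mem_map_iff.mp hq
  have h1 := Ideal.mem_map_of_mem (mp _ R K) (hI r hr m)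
  rw [← comp_map, h, weightedHomogeneousComponent_C_mul] at h1
  exact mem_of_C_mul_mem hs h1

end locz2

end Pool.Agent.Lib.GGL.CI
end

section

/-!
The chain of subvarieties over the field of fractions.
-/

open MvPolynomial

namespace Pool.Agent.Lib.GGL.CI

lemma Chain.append {K : Type} [Field K] {N : ℕ} {P Q T : Ideal (MvPolynomial (Fin N ⊕ Fin N) K)}
    {ds es : List ℕ} (h : Chain P Q ds) (h' : Chain Q T es) : Chain P T (ds ++ es) := by
  induction h with
  | nil P => exact h'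
  | cons hs hpq hc ih =>
    rw [List.cons_append]
    exact Chain.cons hs hpq (ih h')

lemma isBi_map {N : ℕ} {R S : Type*} [CommRing R] [CommRing S] (f : R →+* S)
    {φ : MvPolynomial (Fin N ⊕ Fin N) R} {a b : ℕ} (h : IsBi φ a b) : IsBi (map f φ) a b := by
  intro m hm
  apply h
  intro h0
  apply hm
  rw [coeff_map, h0, map_zero]

section univ

variable {N : ℕ} {ι : Type} (d : ι → ℕ) (K : Type) [Field K]
  [Algebra (MvPolynomial (Coef N d) ℚ) K] [IsFractionRing (MvPolynomial (Coef N d) ℚ) K]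

/-- the ideals over the field -/
noncomputable def PK (j : Fin N) (A B : Set ι) : Ideal (MvPolynomial (Fin N ⊕ Fin N) K) :=
  (PAB d N j A B).map (mp (Fin N ⊕ Fin N) (MvPolynomial (Coef N d) ℚ) K)

variable {d}

lemma biCl_PAB (hd : ∀ i, 1 ≤ d i) (j : Fin N) (A B : Set ι) : BiCl (PAB d N j A B) := by
  apply BiCl.sat
  apply BiCl.sup
  · apply biCl_span
    rintro q ⟨i, -, rfl⟩
    exact ⟨_, _, isBZ_iff.mpr (gU_isBi d i)⟩
  · apply biCl_span
    rintro q ⟨i, -, rfl⟩
    obtain ⟨e, he⟩ : ∃ e, d i = e + 1 := ⟨d i - 1, by have := hd i; omega⟩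
    exact ⟨_, _, isBZ_iff.mpr (dgU_isBi d he)⟩

lemma C_notMem_PAB {A : Finset ι} (hA : A.card < N) (hd : ∀ i, 1 ≤ d i) (j : Fin N) (B : Set ι)
    (r : MvPolynomial (Coef N d) ℚ) (hr : r ≠ 0) : C r ∉ PAB d N j A B := by
  have h1 := notMem_PAB hA hd j B hr 0
  rwa [xm_zero, one_mul] at h1

variable (hd : ∀ i, 2 ≤ d i)
include hd

lemma one_le_of_two_le (i : ι) : 1 ≤ d i := (by omega : 1 ≤ 2).trans (hd i)

lemma mem_PK_iff {j : Fin N} {A B : Finset ι} (hA : A.card < N) (hB : B.card + 1 < N)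
    {r : UR N d} : mp _ _ K r ∈ PK d K j A B ↔ r ∈ PAB d N j A B :=
  ⟨fun h => mem_of_mp_mem (prime_PAB hd j hA B hB)
    (C_notMem_PAB hA (one_le_of_two_le hd) j B) h, fun h => Ideal.mem_map_of_mem _ h⟩

lemma good_PK {j : Fin N} {A B : Finset ι} (hA : A.card < N) (hB : B.card + 1 < N) :
    Good (PK d K j A B) where
  prime := prime_map (prime_PAB hd j hA B hB) (C_notMem_PAB hA (one_le_of_two_le hd) j B)
  hom := (biCl_PAB (one_le_of_two_le hd) j A B).map
  notMem := by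
    intro k hk
    have h1 : mp _ _ K (X (Sum.inl k) : UR N d) ∈ PK d K j A B := by rwa [map_X]
    rw [mem_PK_iff K hd hA hB] at h1
    have h2 := X_pow_notMem_PAB hA (one_le_of_two_le hd) j k B 1
    rw [pow_one] at h2
    exact h2 h1

lemma step_g (j : Fin N) {A : Finset ι} (hA : A.card + 1 < N) {i : ι} (hi : i ∉ A) :
    Step (PK d K j A ∅) (PK d K j (insert i A) ∅) (mp _ _ K (gU d i)) (d i : ℕ) (0 : ℕ) := by
  classical
  have hA' : A.card < N := by omega
  have hiA : (insert i A).card < N := by rw [Finset.card_insert_of_notMem hi]; exact hA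
  have h0 : (∅ : Finset ι).card + 1 < N := by rw [Finset.card_empty]; omega
  have e0 : ((∅ : Finset ι) : Set ι) = ∅ := Finset.coe_empty
  refine ⟨?_, ?_, ?_, ?_, ?_⟩
  · rw [← e0]
    exact good_PK K hd hA' h0
  · rw [← e0, ← Finset.coe_insert]
    exact good_PK K hd hiA h0
  · exact isBZ_iff.mpr (isBi_map _ (gU_isBi d i))
  · intro h
    rw [← e0, mem_PK_iff K hd hA' h0, e0] at h
    exact gU_notMem_PAB (one_le_of_two_le hd) j hA' hi h
  · intro k
    have h1 : PAB d N j (insert i (A : Set ι)) ∅ =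
        sat (X (Sum.inl k)) (PAB d N j A ∅ ⊔ Ideal.span {gU d i}) := by
      have h2 := PAB_eq hd j k hiA ∅ h0
      have h3 := PAB_eq hd j k hA' ∅ h0
      rw [e0, Finset.coe_insert] at h2
      rw [e0] at h3
      rw [h2, h3, PAB_g_step]
    rw [PK, h1, sat_map, map_X, Ideal.map_sup, Ideal.map_span, Set.image_singleton]
    rfl

lemma step_dg (j : Fin N) {A B : Finset ι} (hA : A.card < N) (hB : B.card + 1 + 1 < N) {i : ι}
    (hi : i ∉ B) :
    Step (PK d K j A B) (PK d K j A (insert i B)) (mp _ _ K (dgU d i)) (d i - 1 : ℕ) (1 : ℕ) := by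
  classical
  have hB' : B.card + 1 < N := by omega
  have hiB : (insert i B).card + 1 < N := by rw [Finset.card_insert_of_notMem hi]; exact hB
  obtain ⟨e, he⟩ : ∃ e, d i = e + 1 := ⟨d i - 1, by have := hd i; omega⟩
  refine ⟨?_, ?_, ?_, ?_, ?_⟩
  · exact good_PK K hd hA hB'
  · rw [← Finset.coe_insert]
    exact good_PK K hd hA hiB
  · have he' : d i - 1 = e := by omega
    rw [he']
    exact isBZ_iff.mpr (isBi_map _ (dgU_isBi d he))
  · intro h
    rw [mem_PK_iff K hd hA hB'] at h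
    exact dgU_notMem_PAB (one_le_of_two_le hd) j hA hB' hi h
  · intro k
    have h1 : PAB d N j A (insert i (B : Set ι)) =
        sat (X (Sum.inl k)) (PAB d N j A B ⊔ Ideal.span {dgU d i}) := by
      have h2 := PAB_eq hd j k hA _ hiB
      have h3 := PAB_eq hd j k hA _ hB'
      rw [Finset.coe_insert] at h2
      rw [h2, h3, PAB_dg_step]
    rw [PK, h1, sat_map, map_X, Ideal.map_sup, Ideal.map_span, Set.image_singleton]
    rfl

lemma chain_g (j : Fin N) [DecidableEq ι] : ∀ (l : List ι), l.Nodup → ∀ A : Finset ι,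
    (∀ i ∈ l, i ∉ A) → A.card + l.length < N → 1 < N →
    Chain (PK d K j A ∅) (PK d K j ((A ∪ l.toFinset : Finset ι)) ∅) (l.map fun i => d i + 0) := by
  intro l
  induction l with
  | nil =>
    intro _ A _ _ _
    rw [List.toFinset_nil, Finset.union_empty, List.map_nil]
    exact Chain.nil _
  | cons i l ih =>
    intro hl A hA hc hN
    rw [List.nodup_cons] at hl
    have hi : i ∉ A := hA i (by simp)
    rw [List.length_cons] at hc
    have h1 := step_g K hd j (A := A) (i := i) (by omega) hi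
    have h2 := ih hl.2 (insert i A) (by
      intro k hk hkA
      rw [Finset.mem_insert] at hkA
      rcases hkA with rfl | hkA
      · exact hl.1 hk
      · exact hA k (by simp [hk]) hkA) (by rw [Finset.card_insert_of_notMem hi]; omega) hN
    have h3 : A ∪ (i :: l).toFinset = insert i A ∪ l.toFinset := by
      ext k
      simp only [Finset.mem_union, List.mem_toFinset, List.mem_cons, Finset.mem_insert]
      tauto
    rw [h3, List.map_cons]
    rw [Finset.coe_insert] at h2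
    exact Chain.cons h1 (by have := hd i; omega) h2

lemma chain_dg (j : Fin N) [DecidableEq ι] {A : Finset ι} (hA : A.card < N) :
    ∀ (l : List ι), l.Nodup → ∀ B : Finset ι,
    (∀ i ∈ l, i ∉ B) → B.card + l.length + 1 < N →
    Chain (PK d K j A B) (PK d K j A ((B ∪ l.toFinset : Finset ι)))
      (l.map fun i => (d i - 1) + 1) := by
  intro l
  induction l with
  | nil =>
    intro _ B _ _
    rw [List.toFinset_nil, Finset.union_empty, List.map_nil]
    exact Chain.nil _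
  | cons i l ih =>
    intro hl B hB hc
    rw [List.nodup_cons] at hl
    have hi : i ∉ B := hB i (by simp)
    rw [List.length_cons] at hc
    have h1 := step_dg K hd j hA (B := B) (i := i) (by omega) hi
    have h2 := ih hl.2 (insert i B) (by
      intro k hk hkB
      rw [Finset.mem_insert] at hkB
      rcases hkB with rfl | hkB
      · exact hl.1 hk
      · exact hB k (by simp [hk]) hkB) (by rw [Finset.card_insert_of_notMem hi]; omega)
    have h3 : B ∪ (i :: l).toFinset = insert i B ∪ l.toFinset := by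
      ext k
      simp only [Finset.mem_union, List.mem_toFinset, List.mem_cons, Finset.mem_insert]
      tauto
    rw [h3, List.map_cons]
    rw [Finset.coe_insert] at h2
    exact Chain.cons h1 (by omega) h2

/-- The chain. -/
theorem exists_chain (j : Fin N) [Fintype ι] (hN : Fintype.card ι + 1 < N) :
    ∃ ds : List ℕ, Chain (⊥ : Ideal (MvPolynomial (Fin N ⊕ Fin N) K))
      (PK d K j Set.univ Set.univ) ds ∧ (∀ e ∈ ds, 0 < e) ∧ ds.length = 2 * Fintype.card ι ∧
      ds.prod = (∏ i, d i) ^ 2 ∧ ds.sum = 2 * ∑ i, d i := by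
  classical
  obtain ⟨l, hl⟩ : ∃ l : List ι, l = Finset.univ.toList := ⟨_, rfl⟩
  have hnd : l.Nodup := by rw [hl]; exact Finset.nodup_toList _
  have hlen : l.length = Fintype.card ι := by rw [hl, Finset.length_toList, Finset.card_univ]
  have hfin : l.toFinset = Finset.univ := by rw [hl, Finset.toList_toFinset]
  have hmap1 : l.map (fun i => d i + 0) = l.map d := rfl
  have hmap2 : l.map (fun i => (d i - 1) + 1) = l.map d := by
    apply List.map_congr_left
    intro i _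
    have := hd i
    omega
  have hprod : (l.map d).prod = ∏ i, d i := by rw [hl, Finset.prod_map_toList]
  have hsum : (l.map d).sum = ∑ i, d i := by rw [hl, Finset.sum_map_toList]
  have h1 := chain_g K hd j l hnd ∅ (fun _ _ => Finset.notMem_empty _) (by
    rw [Finset.card_empty]; omega) (by omega)
  have h2 := chain_dg K hd j (A := Finset.univ) (by rw [Finset.card_univ]; omega) l hnd ∅
    (fun _ _ => Finset.notMem_empty _) (by rw [Finset.card_empty]; omega)
  rw [Finset.empty_union, hfin, hmap1, Finset.coe_univ, Finset.coe_empty] at h1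
  rw [Finset.empty_union, hfin, hmap2, Finset.coe_univ, Finset.coe_empty] at h2
  have h3 : PK d K j ∅ ∅ = ⊥ := by
    have h4 : PAB d N j ∅ ∅ = ⊥ := by
      rw [PAB, IAB, Set.image_empty, Set.image_empty, Ideal.span_empty, sup_bot_eq, eq_bot_iff]
      rintro q ⟨L, hL⟩
      rw [Ideal.mem_bot] at hL ⊢
      exact (mul_eq_zero.mp hL).resolve_left (pow_ne_zero _ (X_ne_zero _))
    rw [PK, h4, Ideal.map_bot]
  rw [h3] at h1
  refine ⟨_, h1.append h2, ?_, ?_, ?_, ?_⟩
  · intro e he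
    rw [List.mem_append, or_self, List.mem_map] at he
    obtain ⟨i, -, rfl⟩ := he
    have := hd i
    omega
  · rw [List.length_append, List.length_map, hlen]
    ring
  · rw [List.prod_append, hprod]
    ring
  · rw [List.sum_append, hsum]
    ring

end univ

end Pool.Agent.Lib.GGL.CI
end
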