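import Mathlib
import Pool.Agent.Lib.MP_8d161d_ag.Mg.G029

section

/-!
The universal complete intersection over the field of fractions.
-/

open MvPolynomial

namespace Pool.Agent.Lib.GGL.CI

section sys

variable {N : ℕ} {ι : Type} {d : ι → ℕ} (K : Type) [Field K]
  [Algebra (MvPolynomial (Coef N d) ℚ) K]

lemma gS_fK (i : ι) : gS (fK (N := N) d K) i = mp _ _ K (gU d i) := by
  rw [gS, fK, ← rename_fU, map_rename]

lemma dS_fK (i : ι) (j : Fin N) :
    dS (fK (N := N) d K) i j = mp _ _ K (pderiv (Sum.inl j) (gU d i)) := by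
  rw [← pderiv_gS, gS_fK]
  exact pderiv_map

lemma Dm_gS_fK (i : ι) : Dm (gS (fK (N := N) d K) i) = mp _ _ K (dgU d i) := by
  rw [gS_fK, dgU_eq, ← Dm_map]

lemma JS_fK [Fintype ι] [DecidableEq ι] (o : ι → Fin N) :
    JS (fK d K) o = mp _ _ K (Jac d o) := by
  rw [JS, Jac]
  refine Eq.trans ?_ (RingHom.map_det (n := ι) (mp (Fin N ⊕ Fin N)
    (MvPolynomial (Coef N d) ℚ) K) _).symm
  congr 1
  refine Matrix.ext fun i k => ?_
  rw [RingHom.mapMatrix_apply, Matrix.map_apply, MS, Matrix.of_apply, Matrix.of_apply, dS_fK]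

lemma PAB_univ_empty [Fintype ι] (hι : Fintype.card ι < N) (j : Fin N) :
    PAB d N j Set.univ ∅ = Ideal.span (Set.range (gU (N := N) d)) := by
  have h1 := nzd_X (d := d) (A := Finset.univ) (N := N) (by rwa [Finset.card_univ]) j
  rw [Finset.coe_univ, Set.image_univ] at h1
  rw [PAB, IAB, Set.image_empty, Ideal.span_empty, sup_bot_eq, Set.image_univ]
  apply le_antisymm
  · rintro q ⟨L, hL⟩
    exact h1.pow L q hL
  · exact le_sat _ _

lemma gI_fK [Fintype ι] [DecidableEq ι] (hι : Fintype.card ι < N) (j : Fin N) :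
    gI (fK (N := N) d K) = PK d K j Set.univ ∅ := by
  rw [PK, PAB_univ_empty hι, Ideal.map_span, ← Set.range_comp, gI]
  congr 1
  congr 1
  funext i
  exact gS_fK K i

lemma dI_fK [Fintype ι] [DecidableEq ι] :
    dI (fK (N := N) d K) = (Ideal.span (Set.range (dgU d))).map (mp _ _ K) := by
  rw [Ideal.map_span, ← Set.range_comp, dI]
  congr 1
  congr 1
  funext i
  exact Dm_gS_fK K i

lemma gI_fK' [Fintype ι] [DecidableEq ι] :
    gI (fK (N := N) d K) = (Ideal.span (Set.range (gU d))).map (mp _ _ K) := by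
  rw [Ideal.map_span, ← Set.range_comp, gI]
  congr 1
  congr 1
  funext i
  exact gS_fK K i

variable [IsFractionRing (MvPolynomial (Coef N d) ℚ) K]

theorem sys_fK [Fintype ι] [DecidableEq ι] (hd : ∀ i, 2 ≤ d i) {n : ℕ} (hn : 1 ≤ n)
    (hN : N = Fintype.card ι + (n + 1)) {j0 j1 : Fin N} (h01 : j0 ≠ j1) {o : ι → Fin N}
    (ho : Function.Injective o) :
    Sys (fK d K) o (fun i => d i - 1) j0 j1 (PK d K j0 Set.univ Set.univ) := by
  classical
  have hι : Fintype.card ι < N := by omega
  have hA : (Finset.univ : Finset ι).card < N := by rwa [Finset.card_univ]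
  have hB : (Finset.univ : Finset ι).card + 1 < N := by rw [Finset.card_univ]; omega
  have h0 : (∅ : Finset ι).card + 1 < N := by rw [Finset.card_empty]; omega
  have e0 : ((∅ : Finset ι) : Set ι) = ∅ := Finset.coe_empty
  have e1 : ((Finset.univ : Finset ι) : Set ι) = Set.univ := Finset.coe_univ
  have hgood := good_PK K hd (j := j0) (A := Finset.univ) (B := ∅) hA h0
  rw [e0, e1, ← gI_fK K hι j0] at hgood
  have hgood2 := good_PK K hd (j := j0) (A := Finset.univ) (B := Finset.univ) hA hB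
  rw [e1] at hgood2
  refine ⟨?_, ho, hgood.prime, hgood.notMem j0, ?_, ?_, hgood2, ?_⟩
  · intro i
    have h1 : d i - 1 + 1 = d i := by have := hd i; omega
    rw [h1, fK]
    exact (fU_hom d i).map _
  · obtain ⟨e, t, -, ht⟩ := exists_cover ho hN
    intro h
    rw [JS_fK, gI_fK K hι t] at h
    have h2 := (mem_PK_iff K hd (j := t) (A := Finset.univ) (B := ∅) hA h0
      (r := Jac d o)).mp (by rw [e0, e1]; exact h)
    rw [e0, e1] at h2
    exact Jac_notMem (one_le_of_two_le hd) ho ht hι h2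
  · obtain ⟨b, hb, hb0, hb1⟩ := exists_enum₂ h01
    intro M q hq
    have h1 := regular_powers (d := d) hb Finset.univ (fun _ => M) 1 (by
      rw [Finset.card_univ]; omega)
    have h2 : rp d b (fun _ => M) '' Set.Iio 1 = {X (Sum.inl j0) ^ M} := by
      have h3 : Set.Iio 1 = ({0} : Set ℕ) := by ext; simp
      rw [h3, Set.image_singleton, rp, hb0]
    rw [h2, rp, hb1, e1, Set.image_univ] at h1
    have h4 := h1.map_mp (K := K)
    rw [Ideal.map_sup, ← gI_fK', Ideal.map_span, Set.image_singleton, map_pow, map_pow, map_X,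
      map_X] at h4
    exact h4 q hq
  · rw [PK, PAB, sat_map, map_X, IAB, Ideal.map_sup, Set.image_univ, Set.image_univ, ← gI_fK',
      ← dI_fK]

/-- The bound for the functions on the universal complete intersection. -/
theorem rank_HH_fK_le [Fintype ι] (hd : ∀ i, 2 ≤ d i) {n : ℕ} (hn : 1 ≤ n)
    (hN : N = Fintype.card ι + (n + 1)) (j0 : Fin N) {α₀ β₀ : ℕ} (α β : ℤ) (hα : α ≤ α₀)
    (hβ : β ≤ β₀) : Module.rank K (HH j0 (PK d K j0 Set.univ Set.univ) α β) ≤
      (((∏ i, d i) * (α₀ + (∑ i, (d i - 1)) * β₀ + 1) ^ n * (β₀ + 1) ^ n : ℕ) : Cardinal) := by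
  classical
  have hB : (Finset.univ : Finset ι).card + 1 < N := by rw [Finset.card_univ]; omega
  obtain ⟨j1, h01⟩ : ∃ j1, j0 ≠ j1 := by
    have : Nontrivial (Fin N) := Fin.nontrivial_iff_two_le.mpr (by omega)
    obtain ⟨j1, h⟩ := exists_ne j0
    exact ⟨j1, h.symm⟩
  obtain ⟨o, ho⟩ : ∃ o : ι → Fin N, Function.Injective o := by
    have h1 : Fintype.card ι ≤ Fintype.card (Fin N) := by rw [Fintype.card_fin]; omega
    obtain ⟨f⟩ := Function.Embedding.nonempty_of_card_le h1
    exact ⟨f, f.injective⟩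
  have hs := sys_fK K hd hn hN h01 ho
  rcases lt_or_ge β 0 with hβ0 | hβ0
  · rw [HH_eq_bot_of_neg hs.good hβ0, rank_bot]
    exact zero_le
  obtain ⟨b, rfl⟩ := Int.eq_ofNat_of_zero_le hβ0
  rcases lt_or_ge (α + (∑ i, ((d i - 1 : ℕ) : ℤ)) * b) 0 with hneg | hpos
  · rw [hs.HH_eq_bot hneg, rank_bot]
    exact zero_le
  obtain ⟨a, ha⟩ := Int.eq_ofNat_of_zero_le hpos
  refine (hs.rank_le (fun a μ => xm_mem_span d o (d' := fun i => d i - 1)
    (fun i => by have := hd i; omega) μ) ha).trans ?_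
  rw [Nat.cast_le]
  have h1 := card_Std_le ho hN (fun i => d i - 1) a
  have h2 := card_Rem_le ho hN b
  have h3 : ∏ i, (d i - 1 + 1) = ∏ i, d i := by
    refine Finset.prod_congr rfl fun i _ => ?_
    have := hd i
    omega
  rw [h3] at h1
  have hb' : b ≤ β₀ := by exact_mod_cast hβ
  have ha' : a ≤ α₀ + (∑ i, (d i - 1)) * β₀ := by
    have h4 : (a : ℤ) ≤ α₀ + (∑ i, ((d i - 1 : ℕ) : ℤ)) * β₀ := by
      rw [← ha]
      apply add_le_add hα
      apply mul_le_mul_of_nonneg_left hβ
      positivity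
    exact_mod_cast h4
  refine (Nat.mul_le_mul h1 h2).trans ?_
  apply Nat.mul_le_mul
  · apply Nat.mul_le_mul_left
    apply Nat.pow_le_pow_left
    omega
  · apply Nat.pow_le_pow_left
    omega

end sys

end Pool.Agent.Lib.GGL.CI
end

section

/-!
Existence of functions of negative degree.
-/

open MvPolynomial

namespace Pool.Agent.Lib.GGL.CI

section lower

variable {K : Type} [Field K] {N : ℕ}

lemma good_bot : Good (⊥ : Ideal (MvPolynomial (Fin N ⊕ Fin N) K)) where
  prime := Ideal.isPrime_bot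
  hom := biCl_bot
  notMem := by
    intro j h
    rw [Ideal.mem_bot] at h
    exact X_ne_zero _ h

lemma card_le_rank (j0 : Fin N) (a b : ℕ) :
    ((Fintype.card (Mon N a) * Fintype.card (Mon N b) : ℕ) : Cardinal) ≤
      Module.rank K (HH j0 (⊥ : Ideal (MvPolynomial (Fin N ⊕ Fin N) K)) a b) := by
  classical
  have hmem : ∀ p : Mon N a × Mon N b, lp j0 (⊥ : Ideal (MvPolynomial (Fin N ⊕ Fin N) K))
      (monomial (Finsupp.sumFinsuppEquivProdFinsupp.symm (p.1.1, p.2.1)) 1) ∈
      HH j0 (⊥ : Ideal (MvPolynomial (Fin N ⊕ Fin N) K)) a b := by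
    intro p j
    refine ⟨0, _, ?_, by rw [pow_zero, mul_one]⟩
    rw [Nat.cast_zero, add_zero]
    apply isBZ_iff.mpr
    apply isWeightedHomogeneous_monomial
    rw [weight_wt, Equiv.apply_symm_apply, p.1.2, p.2.2]
  let v : Mon N a × Mon N b → HH j0 (⊥ : Ideal (MvPolynomial (Fin N ⊕ Fin N) K)) a b :=
    fun p => ⟨_, hmem p⟩
  have hv : LinearIndependent K v := by
    apply LinearIndependent.of_comp (Submodule.subtype _)
    have h1 : (Submodule.subtype (HH j0 (⊥ : Ideal (MvPolynomial (Fin N ⊕ Fin N) K)) a b)) ∘ v =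
        (lp j0 (⊥ : Ideal (MvPolynomial (Fin N ⊕ Fin N) K))).toLinearMap ∘
          (fun p : Mon N a × Mon N b => (basisMonomials (Fin N ⊕ Fin N) K)
            (Finsupp.sumFinsuppEquivProdFinsupp.symm (p.1.1, p.2.1))) := by
      funext p
      rw [Function.comp_apply, Function.comp_apply, coe_basisMonomials]
      rfl
    rw [h1]
    apply LinearIndependent.map'
    · apply (basisMonomials (Fin N ⊕ Fin N) K).linearIndependent.comp
      intro p q hpq
      have h2 := Finsupp.sumFinsuppEquivProdFinsupp.symm.injective hpq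
      rw [Prod.mk.injEq] at h2
      exact Prod.ext (Subtype.ext h2.1) (Subtype.ext h2.2)
    · rw [LinearMap.ker_eq_bot']
      intro q hq
      rw [AlgHom.toLinearMap_apply] at hq
      have := (good_bot.lp_eq_zero j0).mp hq
      rwa [Ideal.mem_bot] at this
  have h3 := hv.cardinal_le_rank
  rwa [Cardinal.mk_fintype, Fintype.card_prod] at h3

end lower

/-- the numerical contradiction -/
lemma exists_large {c n m δ κ s : ℕ} (hm : m = c + n)
    (h : 4 ^ c * (1 + κ) ^ n * m.factorial ^ 2 < (2 * c).factorial * δ) :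
    ∃ a : ℕ, (2 * a + 2 * s) ^ (2 * c) * ((a + κ * a + 1) ^ n * (a + 1) ^ n) * m.factorial ^ 2 <
      (a + 1) ^ (2 * m) * (δ * (2 * c).factorial) := by
  obtain ⟨A, hA⟩ : ∃ A, A = (2 * c).factorial * δ := ⟨_, rfl⟩
  obtain ⟨B, hB⟩ : ∃ B, B = 4 ^ c * (1 + κ) ^ n * m.factorial ^ 2 := ⟨_, rfl⟩
  rw [← hA, ← hB] at h
  obtain ⟨a, ha⟩ : ∃ a, a = 2 * c * s * A := ⟨_, rfl⟩
  -- `(a + s)^{2c} B < (a + 1)^{2c} A`
  have key : (a + s) ^ (2 * c) * B < (a + 1) ^ (2 * c) * A := by
    have hR : ((a + s : ℝ)) ^ (2 * c) * B < (a + 1 : ℝ) ^ (2 * c) * A := by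
      rcases Nat.eq_zero_or_pos s with hs | hs
      · subst hs
        have h1 : (a : ℝ) = 0 := by rw [ha]; simp
        rw [h1]
        simp only [Nat.cast_zero, add_zero, zero_add, one_pow, one_mul]
        rcases Nat.eq_zero_or_pos c with hc | hc
        · subst hc
          simp only [mul_zero, pow_zero, one_mul]
          exact_mod_cast h
        · rw [zero_pow (by omega), zero_mul]
          have : 0 < A := by omega
          exact_mod_cast this
      · have has : (0 : ℝ) < a + s := by positivity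
        have hb : 1 + (2 * c : ℕ) * (-(s / (a + s : ℝ))) ≤ (1 + -(s / (a + s : ℝ))) ^ (2 * c) := by
          apply one_add_mul_le_pow
          have : (s : ℝ) / (a + s) ≤ 1 := by
            rw [div_le_one has]
            have : (0 : ℝ) ≤ a := by positivity
            linarith
          linarith
        have hb2 : 1 + -(s / (a + s : ℝ)) = a / (a + s) := by
          field_simp
          ring
        rw [hb2, div_pow, le_div_iff₀ (by positivity)] at hb
        have h2 : (B : ℝ) < (1 + (2 * c : ℕ) * (-(s / (a + s : ℝ)))) * A := by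
          have h3 : (B : ℝ) + 1 ≤ A := by exact_mod_cast h
          have h4 : ((2 * c : ℕ) : ℝ) * (s / (a + s : ℝ)) * A < 1 := by
            have h5 : ((2 * c : ℕ) : ℝ) * (s / (a + s : ℝ)) * A = (a : ℝ) / (a + s) := by
              rw [ha]
              push_cast
              ring
            rw [h5, div_lt_one has]
            have : (0 : ℝ) < s := by exact_mod_cast hs
            linarith
          linarith
        calc ((a + s : ℝ)) ^ (2 * c) * B
            < (a + s : ℝ) ^ (2 * c) * ((1 + (2 * c : ℕ) * (-(s / (a + s : ℝ)))) * A) :=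
              mul_lt_mul_of_pos_left h2 (by positivity)
          _ = ((1 + (2 * c : ℕ) * (-(s / (a + s : ℝ)))) * (a + s : ℝ) ^ (2 * c)) * A := by ring
          _ ≤ (a : ℝ) ^ (2 * c) * A := mul_le_mul_of_nonneg_right hb (by positivity)
          _ ≤ (a + 1 : ℝ) ^ (2 * c) * A := by
              apply mul_le_mul_of_nonneg_right _ (by positivity)
              apply pow_le_pow_left₀ (by positivity)
              linarith
    exact_mod_cast hR
  refine ⟨a, ?_⟩
  have h1 : (a + κ * a + 1) ^ n ≤ ((1 + κ) * (a + 1)) ^ n := by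
    apply Nat.pow_le_pow_left
    nlinarith
  calc (2 * a + 2 * s) ^ (2 * c) * ((a + κ * a + 1) ^ n * (a + 1) ^ n) * m.factorial ^ 2
      ≤ (2 * a + 2 * s) ^ (2 * c) * (((1 + κ) * (a + 1)) ^ n * (a + 1) ^ n) * m.factorial ^ 2 := by
        gcongr
    _ = ((a + s) ^ (2 * c) * B) * (a + 1) ^ (2 * n) := by
        rw [hB]
        have : (2 * a + 2 * s) ^ (2 * c) = 4 ^ c * (a + s) ^ (2 * c) := by
          rw [← mul_add, mul_pow, pow_mul 2 2 c]
          norm_num
        rw [this, mul_pow]
        ring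
    _ < ((a + 1) ^ (2 * c) * A) * (a + 1) ^ (2 * n) := by
        apply Nat.mul_lt_mul_of_pos_right key
        positivity
    _ = (a + 1) ^ (2 * m) * (δ * (2 * c).factorial) := by
        rw [hA, hm]
        ring

section neg

variable {N : ℕ} {ι : Type} {d : ι → ℕ} (K : Type) [Field K]
  [Algebra (MvPolynomial (Coef N d) ℚ) K] [IsFractionRing (MvPolynomial (Coef N d) ℚ) K]

/-- There are functions of negative degree. -/
theorem exists_negative [Fintype ι] (hd : ∀ i, 2 ≤ d i) {n : ℕ} (hn : 1 ≤ n)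
    (hN : N = Fintype.card ι + (n + 1)) (j0 : Fin N)
    (hnum : 4 ^ Fintype.card ι * (1 + ∑ i, (d i - 1)) ^ n * (N - 1).factorial ^ 2 <
      (2 * Fintype.card ι).factorial * ∏ i, d i) :
    ∃ α β : ℤ, α + β < 0 ∧ ∃ ω ∈ HH j0 (PK d K j0 Set.univ Set.univ) α β, ω ≠ 0 := by
  by_contra hcon
  have h' : ∀ α β : ℤ, α + β < 0 → HH j0 (PK d K j0 Set.univ Set.univ) α β = ⊥ := by
    intro α β hαβ
    rw [eq_bot_iff]
    intro ω hω
    by_contra hω0
    exact hcon ⟨α, β, hαβ, ω, hω, hω0⟩
  obtain ⟨m, rfl⟩ : ∃ m, N = m + 1 := ⟨N - 1, by omega⟩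
  rw [Nat.add_sub_cancel] at hnum
  obtain ⟨a, ha⟩ := exists_large (s := ∑ i, d i) (c := Fintype.card ι) (n := n) (m := m)
    (by omega) hnum
  obtain ⟨ds, hch, hpos, hlen, hprod, hsum⟩ := exists_chain K hd j0 (by omega)
  have h1 := hch.rank_le j0 h' (α₀ := (a : ℤ)) (β₀ := (a : ℤ))
    (fun α β hα hβ => rank_HH_fK_le K hd hn hN j0 α β hα hβ) a a le_rfl le_rfl
  have h2 := (card_le_rank (K := K) j0 a a).trans h1
  rw [Nat.cast_le] at h2
  have h3 := card_Mon_ge m a
  have h4 := cnt_le ds hpos (2 * a)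
  rw [hlen, hprod, hsum] at h4
  have h5 : ((a : ℤ) + a) = ((2 * a : ℕ) : ℤ) := by push_cast; ring
  rw [h5] at h2
  obtain ⟨X, hX⟩ : ∃ X, X = cnt ds ((2 * a : ℕ) : ℤ) := ⟨_, rfl⟩
  obtain ⟨Y, hY⟩ : ∃ Y, Y = Fintype.card (Mon (m + 1) a) := ⟨_, rfl⟩
  obtain ⟨δ, hδ⟩ : ∃ δ, δ = ∏ i, d i := ⟨_, rfl⟩
  rw [← hX, ← hY, ← hδ] at h2
  rw [← hY] at h3
  rw [← hX, ← hδ] at h4
  rw [← hδ] at ha
  obtain ⟨Z, hZ⟩ : ∃ Z, Z = (a + (∑ i, (d i - 1)) * a + 1) ^ n * (a + 1) ^ n := ⟨_, rfl⟩
  have hZ' : δ * (a + (∑ i, (d i - 1)) * a + 1) ^ n * (a + 1) ^ n = δ * Z := by rw [hZ]; ring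
  rw [hZ'] at h2
  rw [← hZ] at ha
  have hδ0 : 0 < δ := by
    rw [hδ]
    exact Finset.prod_pos fun i _ => by have := hd i; omega
  have h6 : (a + 1) ^ (2 * m) * (δ * (2 * Fintype.card ι).factorial) ≤
      (2 * a + 2 * ∑ i, d i) ^ (2 * Fintype.card ι) * Z * m.factorial ^ 2 := by
    have h7 : (a + 1) ^ (2 * m) ≤ (Y * Y) * m.factorial ^ 2 := by
      calc (a + 1) ^ (2 * m) = (a + 1) ^ m * (a + 1) ^ m := by ring
        _ ≤ (Y * m.factorial) * (Y * m.factorial) := Nat.mul_le_mul h3 h3
        _ = _ := by ring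
    have h8 : δ * ((a + 1) ^ (2 * m) * (δ * (2 * Fintype.card ι).factorial)) ≤
        δ * ((2 * a + 2 * ∑ i, d i) ^ (2 * Fintype.card ι) * Z * m.factorial ^ 2) := by
      calc δ * ((a + 1) ^ (2 * m) * (δ * (2 * Fintype.card ι).factorial))
          ≤ δ * (((X * (δ * Z)) * m.factorial ^ 2) * (δ * (2 * Fintype.card ι).factorial)) := by
            gcongr
            exact h7.trans (Nat.mul_le_mul_right _ h2)
        _ = (X * δ ^ 2 * (2 * Fintype.card ι).factorial) * (δ * Z * m.factorial ^ 2) := by ring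
        _ ≤ (2 * a + 2 * ∑ i, d i) ^ (2 * Fintype.card ι) * (δ * Z * m.factorial ^ 2) :=
            Nat.mul_le_mul_right _ h4
        _ = _ := by ring
    exact Nat.le_of_mul_le_mul_left h8 hδ0
  omega

end neg

end Pool.Agent.Lib.GGL.CI
end

section

/-!
The torsion of the quotients by the ideals of the equations lives in bounded degree in `x`.
-/

open MvPolynomial Module

namespace Pool.Agent.Lib.GGL.CI

section large

variable {K : Type} [Field K] {N : ℕ}

lemma x_degree {q : MvPolynomial (Fin N ⊕ Fin N) K} {a b : ℤ} (hq : IsBZ q a b)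
    {s : Fin N ⊕ Fin N →₀ ℕ} (hs : s ∈ q.support) :
    (((Finsupp.sumFinsuppEquivProdFinsupp s).1.degree : ℕ) : ℤ) = a := by
  have h1 := hq (mem_support_iff.mp hs)
  rw [weight_wtZ, weight_wt] at h1
  exact congrArg Prod.fst h1

lemma mem_xpow {q : MvPolynomial (Fin N ⊕ Fin N) K} {a b : ℤ} {L : ℕ} (hq : IsBZ q a b)
    (hN : 0 < N) (hL : (N * L : ℕ) ≤ a) :
    q ∈ Ideal.span (Set.range fun j : Fin N =>
      (X (Sum.inl j) : MvPolynomial (Fin N ⊕ Fin N) K) ^ L) := by
  classical
  rw [q.as_sum]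
  refine Ideal.sum_mem _ fun s hs => ?_
  have h1 := x_degree hq hs
  obtain ⟨μ, hμ⟩ : ∃ μ, μ = (Finsupp.sumFinsuppEquivProdFinsupp s).1 := ⟨_, rfl⟩
  rw [← hμ] at h1
  have h2 : ∃ j, L ≤ μ j := by
    by_contra hcon
    push Not at hcon
    have h3 : μ.degree < N * L := by
      rw [Finsupp.degree_eq_sum]
      calc ∑ j, μ j < ∑ _j : Fin N, L := by
            apply Finset.sum_lt_sum_of_nonempty
            · exact ⟨⟨0, hN⟩, Finset.mem_univ _⟩
            · intro j _
              exact hcon j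
        _ = N * L := by
            rw [Finset.sum_const, Finset.card_univ, Fintype.card_fin, smul_eq_mul]
    have h4 : ((N * L : ℕ) : ℤ) ≤ (μ.degree : ℤ) := by rw [h1]; exact hL
    have h5 : N * L ≤ μ.degree := by exact_mod_cast h4
    omega
  obtain ⟨j, hj⟩ := h2
  have h3 : L ≤ s (Sum.inl j) := by
    rw [hμ] at hj
    exact hj
  have h4 : monomial s (coeff s q) = X (Sum.inl j) ^ L *
      monomial (s - Finsupp.single (Sum.inl j) L) (coeff s q) := by
    rw [X_pow_eq_monomial, monomial_mul, one_mul, add_tsub_cancel_of_le]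
    intro t
    rw [Finsupp.single_apply]
    split_ifs with ht
    · rw [← ht]; exact h3
    · exact Nat.zero_le _
  rw [h4]
  exact Ideal.mul_mem_right _ _ (Ideal.subset_span ⟨j, rfl⟩)

lemma BiCl.eq_span {P : Ideal (MvPolynomial (Fin N ⊕ Fin N) K)} (hP : BiCl P) :
    P = Ideal.span {q | q ∈ P ∧ ∃ a b, IsBZ q a b} := by
  classical
  apply le_antisymm
  · intro q hq
    have h1 : q = ∑ s ∈ q.support.image (Finsupp.weight (wtZ N)),
        weightedHomogeneousComponent (wtZ N) s q := by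
      have h2 : q = ∑ᶠ m : ℤ × ℤ, weightedHomogeneousComponent (wtZ N) m q :=
        (sum_weightedHomogeneousComponent (wtZ N) q).symm
      conv_lhs => rw [h2]
      apply finsum_eq_sum_of_support_subset
      intro m hm
      rw [Function.mem_support] at hm
      obtain ⟨s, hs⟩ := MvPolynomial.ne_zero_iff.mp hm
      rw [coeff_weightedHomogeneousComponent] at hs
      rw [Finset.coe_image]
      split_ifs at hs with h3
      · exact ⟨s, mem_support_iff.mpr hs, h3⟩
      · exact absurd rfl hs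
    rw [h1]
    refine Ideal.sum_mem _ fun m _ => Ideal.subset_span ⟨hP q hq m, m.1, m.2, ?_⟩
    exact weightedHomogeneousComponent_isWeightedHomogeneous _ _
  · rw [Ideal.span_le]
    exact fun q hq => hq.1

/-- The torsion is in bounded degree. -/
lemma exists_torsion_bound {I P : Ideal (MvPolynomial (Fin N ⊕ Fin N) K)} (hN : 0 < N)
    (hI : BiCl I) (hP : ∀ j : Fin N, P = sat (X (Sum.inl j)) I) :
    ∃ α₀ : ℤ, ∀ α β : ℤ, α₀ ≤ α → ∀ q, IsBZ q α β → q ∈ P → q ∈ I := by
  classical
  have hPc : BiCl P := by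
    rw [hP ⟨0, hN⟩]
    exact hI.sat _
  have hfg : (Ideal.span {q | q ∈ P ∧ ∃ a b, IsBZ q a b}).FG := IsNoetherian.noetherian _
  obtain ⟨T, hT, hTs⟩ := (Submodule.fg_span_iff_fg_span_finset_subset _).mp hfg
  have hPT : P = Ideal.span (T : Set (MvPolynomial (Fin N ⊕ Fin N) K)) := by
    rw [hPc.eq_span]
    exact hTs
  have h1 : ∀ t : T, ∀ j : Fin N, ∃ L : ℕ, X (Sum.inl j) ^ L * t.1 ∈ I := by
    intro t j
    have h2 : t.1 ∈ P := (hT t.2).1
    rw [hP j] at h2
    exact h2
  choose L hL using h1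
  choose a b hab using fun t : T => (hT t.2).2
  obtain ⟨M, hM⟩ : ∃ M : ℕ, ∀ t j, L t j ≤ M := by
    refine ⟨∑ t, ∑ j, L t j, fun t j => ?_⟩
    refine (Finset.single_le_sum (f := fun j => L t j) (fun _ _ => Nat.zero_le _)
      (Finset.mem_univ j)).trans ?_
    exact Finset.single_le_sum (f := fun t => ∑ j, L t j) (fun _ _ => Nat.zero_le _)
      (Finset.mem_univ t)
  refine ⟨∑ t, |a t| + (N * M : ℕ), ?_⟩
  intro α β hα q hq hqP
  rw [hPT] at hqP
  obtain ⟨c, hc⟩ := Submodule.mem_span_finset'.mp hqP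
  have h2 : q = ∑ t : T, weightedHomogeneousComponent (wtZ N) ((α, β) - (a t, b t)) (c t) * t.1 := by
    have h3 := hq.weightedHomogeneousComponent_same
    rw [← h3, ← hc, map_sum]
    refine Finset.sum_congr rfl fun t _ => ?_
    rw [smul_eq_mul, mul_comm (c t), comp_mul (hab t), mul_comm]
  rw [h2]
  refine Ideal.sum_mem _ fun t _ => ?_
  have h3 : IsBZ (weightedHomogeneousComponent (wtZ N) ((α, β) - (a t, b t)) (c t))
      (α - a t) (β - b t) := weightedHomogeneousComponent_isWeightedHomogeneous _ _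
  have h4 : ((N * M : ℕ) : ℤ) ≤ α - a t := by
    have h5 : a t ≤ ∑ t, |a t| := (le_abs_self _).trans
      (Finset.single_le_sum (f := fun t => |a t|) (fun _ _ => abs_nonneg _) (Finset.mem_univ t))
    linarith
  have h5 := mem_xpow h3 hN h4
  refine Submodule.span_induction (p := fun x _ => x * t.1 ∈ I) ?_ ?_ ?_ ?_ h5
  · rintro _ ⟨j, rfl⟩
    have h6 : X (Sum.inl j) ^ M * t.1 = X (Sum.inl j) ^ (M - L t j) * (X (Sum.inl j) ^ L t j * t.1) := by
      rw [← mul_assoc, ← pow_add, Nat.sub_add_cancel (hM t j)]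
    beta_reduce
    rw [h6]
    exact I.mul_mem_left _ (hL t j)
  · rw [zero_mul]; exact I.zero_mem
  · intro x y _ _ hx hy
    rw [add_mul]; exact I.add_mem hx hy
  · intro r x _ hx
    rw [smul_eq_mul, mul_assoc]; exact I.mul_mem_left _ hx

end large

end Pool.Agent.Lib.GGL.CI
end

section

/-!
The functions of nonnegative degree in `x` are integral over the coordinate ring; bounded poles.
-/

open MvPolynomial Module

open scoped nonZeroDivisors

namespace Pool.Agent.Lib.GGL.CI

attribute [local instance] FractionRing.liftAlgebra in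
/-- finiteness of the integral closure -/
lemma fg_of_integral {K R B : Type} [Field K] [CharZero K] [CommRing R] [IsDomain R] [Algebra K R]
    [Algebra.FiniteType K R] [CommRing B] [IsDomain B] [Algebra R B] {M : Submonoid R}
    [IsLocalization M B] (hM : M ≤ nonZeroDivisors R) (S : Set B)
    (hS : ∀ x ∈ S, IsIntegral R x) : (Submodule.span R S).FG := by
  classical
  obtain ⟨s, g, hg, hgf⟩ := exists_finite_inj_algHom_of_fg K R
  let A := MvPolynomial (Fin s) K
  let _ : Algebra A R := g.toRingHom.toAlgebra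
  have hfin : Module.Finite A R := hgf
  have hfaith : FaithfulSMul A R := (faithfulSMul_iff_algebraMap_injective A R).mpr hg
  have hint : IsIntegrallyClosed A := inferInstance
  have hfd : FiniteDimensional (FractionRing A) (FractionRing R) := inferInstance
  have hchar : CharZero (FractionRing A) := charZero_of_injective_algebraMap
    (R := A) (IsFractionRing.injective A (FractionRing A))
  have hsep : Algebra.IsSeparable (FractionRing A) (FractionRing R) := inferInstance
  have noeth : IsNoetherian A (integralClosure A (FractionRing R)) :=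
    IsIntegralClosure.isNoetherian A (FractionRing A) (FractionRing R) _
  let φ : B →ₐ[R] FractionRing R := IsLocalization.liftAlgHom (M := M)
    (f := Algebra.ofId R (FractionRing R)) (fun y => by
      have h1 : (y : R) ≠ 0 := nonZeroDivisors.ne_zero (hM y.2)
      rw [isUnit_iff_ne_zero]
      intro h0
      exact h1 ((IsFractionRing.to_map_eq_zero_iff (K := FractionRing R)).mp h0))
  have hφ : Function.Injective φ := by
    rw [injective_iff_map_eq_zero]
    intro x hx
    obtain ⟨⟨r, m⟩, hr⟩ := IsLocalization.surj M x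
    have h1 : φ (algebraMap R B r) = 0 := by
      rw [← hr, map_mul, hx, zero_mul]
    rw [AlgHom.commutes, IsFractionRing.to_map_eq_zero_iff] at h1
    rw [h1, map_zero] at hr
    exact (mul_eq_zero.mp hr).resolve_right (IsLocalization.map_units B m).ne_zero
  have hW : ∀ x ∈ Submodule.span R S, IsIntegral R x := by
    intro x hx
    have h1 : Submodule.span R S ≤ Subalgebra.toSubmodule (integralClosure R B) :=
      Submodule.span_le.mpr hS
    exact h1 hx
  have hU : ((Submodule.span R S).map φ.toLinearMap).restrictScalars A ≤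
      Subalgebra.toSubmodule (integralClosure A (FractionRing R)) := by
    rintro _ ⟨x, hx, rfl⟩
    have h1 : IsIntegral R (φ x) := (hW x hx).map φ
    have h2 : Algebra.IsIntegral A R := inferInstance
    exact isIntegral_trans (R := A) (A := R) (φ x) h1
  have h3 := (isNoetherian_submodule.mp noeth) _ hU
  have h4 : ((Submodule.span R S).map φ.toLinearMap).FG := Submodule.FG.of_restrictScalars A h3
  exact Submodule.fg_of_fg_map_injective φ.toLinearMap hφ h4

section integral

variable {K : Type} [Field K] {N : ℕ} {Q : Ideal (MvPolynomial (Fin N ⊕ Fin N) K)}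

lemma mem_span_xm {q : MvPolynomial (Fin N ⊕ Fin N) K} {a b : ℤ} {T : ℕ} (hq : IsBZ q a b)
    (hT : (T : ℤ) ≤ a) :
    q ∈ Ideal.span (Set.range fun μ : Mon N T => xm K μ.1) := by
  classical
  rw [q.as_sum]
  refine Ideal.sum_mem _ fun s hs => ?_
  have h1 := x_degree hq hs
  have h2 : T ≤ (Finsupp.sumFinsuppEquivProdFinsupp s).1.degree := by
    rw [← h1] at hT
    exact_mod_cast hT
  obtain ⟨μ, hμ, hμT⟩ := Finsupp.exists_le_degree_eq _ T h2
  have h3 : monomial s (coeff s q) = xm K μ *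
      (xm K ((Finsupp.sumFinsuppEquivProdFinsupp s).1 - μ) *
        (C (coeff s q) * vm K (Finsupp.sumFinsuppEquivProdFinsupp s).2)) := by
    have h4 : monomial s (coeff s q) = C (coeff s q) * monomial s 1 := by
      rw [C_mul_monomial, mul_one]
    have h5 : xm K μ * xm K ((Finsupp.sumFinsuppEquivProdFinsupp s).1 - μ) =
        xm K (Finsupp.sumFinsuppEquivProdFinsupp s).1 := by
      rw [← xm_add, add_tsub_cancel_of_le hμ]
    rw [h4, monomial_eq_xm_vm, ← h5]
    ring
  rw [h3]
  exact Ideal.mul_mem_right _ _ (Ideal.subset_span ⟨⟨μ, hμT⟩, rfl⟩)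

lemma isBZ_xm {T : ℕ} (μ : Mon N T) : IsBZ (xm K μ.1) T 0 := by
  classical
  have h1 : xm K μ.1 = monomial (Finsupp.sumFinsuppEquivProdFinsupp.symm (μ.1, 0)) 1 := by
    rw [monomial_eq_xm_vm, Equiv.apply_symm_apply]
    show xm K μ.1 = xm K μ.1 * vm K 0
    rw [vm, Finsupp.prod_zero_index, mul_one]
  rw [h1]
  apply isWeightedHomogeneous_monomial
  rw [weight_wtZ, weight_wt, Equiv.apply_symm_apply, μ.2]
  simp

/-- the module of the functions of large degree -/
noncomputable def NT (j0 : Fin N) (Q : Ideal (MvPolynomial (Fin N ⊕ Fin N) K)) (T : ℕ) :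
    Submodule (MvPolynomial (Fin N ⊕ Fin N) K ⧸ Q) (LA j0 Q) :=
  Submodule.span _ (Set.range fun μ : Mon N T => lp j0 Q (xm K μ.1))

lemma lp_mem_NT (j0 : Fin N) {T : ℕ} {q : MvPolynomial (Fin N ⊕ Fin N) K} {a b : ℤ}
    (hq : IsBZ q a b) (hT : (T : ℤ) ≤ a) : lp j0 Q q ∈ NT j0 Q T := by
  have h1 := mem_span_xm hq hT
  refine Submodule.span_induction (p := fun x _ => lp j0 Q x ∈ NT j0 Q T) ?_ ?_ ?_ ?_ h1
  · rintro _ ⟨μ, rfl⟩
    exact Submodule.subset_span ⟨μ, rfl⟩
  · rw [map_zero]; exact Submodule.zero_mem _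
  · intro x y _ _ hx hy
    rw [map_add]; exact Submodule.add_mem _ hx hy
  · intro r x _ hx
    have h2 : lp j0 Q (r • x) = Ideal.Quotient.mk Q r • lp j0 Q x := by
      rw [smul_eq_mul, map_mul, Algebra.smul_def]
      rfl
    rw [h2]
    exact Submodule.smul_mem _ _ hx

/-- functions of nonnegative degree are integral -/
lemma isIntegral_of_mem_HH (hN : 0 < N) (hQ : Good Q) (j0 : Fin N) {α β : ℤ} (hα : 0 ≤ α)
    {ω : LA j0 Q} (hω : ω ∈ HH j0 Q α β) :
    IsIntegral (MvPolynomial (Fin N ⊕ Fin N) K ⧸ Q) ω := by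
  classical
  have hdom := hQ.isDomain j0
  choose M q hq hωq using hω
  obtain ⟨L, hL⟩ : ∃ L : ℕ, ∀ j, M j ≤ L :=
    ⟨∑ j, M j, fun j => Finset.single_le_sum (f := M) (fun _ _ => Nat.zero_le _)
      (Finset.mem_univ j)⟩
  have hq' : ∀ j, IsBZ (q j * X (Sum.inl j) ^ (L - M j)) (α + L) β := by
    intro j
    refine isBZ_congr ((hq j).mul (isBZ_X_pow j (L - M j))) ?_ (by ring)
    have := hL j
    rw [Nat.cast_sub this]
    ring
  have hωq' : ∀ j, ω * lp j0 Q (X (Sum.inl j)) ^ L = lp j0 Q (q j * X (Sum.inl j) ^ (L - M j)) := by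
    intro j
    rw [map_mul, map_pow, ← hωq j, mul_assoc, ← pow_add, Nat.add_sub_cancel' (hL j)]
  obtain ⟨T, hT⟩ : ∃ T, T = N * L := ⟨_, rfl⟩
  refine isIntegral_of_smul_mem_submodule (M := LA j0 Q) (NT j0 Q T) ?_ ?_ ω ?_
  · intro h0
    have h1 : lp j0 Q (X (Sum.inl j0) ^ T) ∈ NT j0 Q T :=
      lp_mem_NT j0 (isBZ_X_pow j0 T) le_rfl
    rw [h0, Submodule.mem_bot, map_pow] at h1
    exact hQ.lp_ne j0 j0 (eq_zero_of_pow_eq_zero h1)
  · exact Submodule.fg_span (Set.finite_range _)
  · intro n hn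
    refine Submodule.span_induction (p := fun x _ => ω • x ∈ NT j0 Q T) ?_ ?_ ?_ ?_ hn
    · rintro _ ⟨μ, rfl⟩
      have h2 : ∃ j, L ≤ μ.1 j := by
        by_contra hcon
        push Not at hcon
        have h3 : μ.1.degree < N * L := by
          rw [Finsupp.degree_eq_sum]
          calc ∑ j, μ.1 j < ∑ _j : Fin N, L := by
                apply Finset.sum_lt_sum_of_nonempty
                · exact ⟨⟨0, hN⟩, Finset.mem_univ _⟩
                · intro j _
                  exact hcon j
            _ = N * L := by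
                rw [Finset.sum_const, Finset.card_univ, Fintype.card_fin, smul_eq_mul]
        rw [μ.2, hT] at h3
        omega
      obtain ⟨j, hj⟩ := h2
      have h3 : Finsupp.single j L ≤ μ.1 := by
        intro t
        rw [Finsupp.single_apply]
        split_ifs with ht
        · rw [← ht]; exact hj
        · exact Nat.zero_le _
      have h4 : (μ.1 - Finsupp.single j L).degree = T - L := by
        have h5 := congrArg Finsupp.degree (tsub_add_cancel_of_le h3)
        rw [map_add, Finsupp.degree_single, μ.2] at h5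
        omega
      have hLT : L ≤ T := by rw [hT]; exact Nat.le_mul_of_pos_left L hN
      have h5 : xm K μ.1 = X (Sum.inl j) ^ L * xm K (μ.1 - Finsupp.single j L) := by
        rw [← xm_single, ← xm_add, add_tsub_cancel_of_le h3]
      beta_reduce
      rw [smul_eq_mul, h5, map_mul, map_pow, ← mul_assoc, hωq' j, ← map_mul]
      refine lp_mem_NT j0 ((hq' j).mul (isBZ_xm ⟨_, h4⟩)) ?_
      rw [Nat.cast_sub hLT]
      linarith
    · rw [smul_zero]; exact Submodule.zero_mem _
    · intro x y _ _ hx hy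
      rw [smul_add]; exact Submodule.add_mem _ hx hy
    · intro r x _ hx
      rw [smul_comm]
      exact Submodule.smul_mem _ _ hx

/-- bounded poles -/
theorem exists_pole_bound [CharZero K] (hN : 0 < N) (hQ : Good Q) (j0 : Fin N) :
    ∃ M : ℕ, ∀ α β : ℤ, 0 ≤ α → ∀ ω ∈ HH j0 Q α β,
      ∃ q, IsBZ q (α + M) β ∧ ω * lp j0 Q (X (Sum.inl j0)) ^ M = lp j0 Q q := by
  classical
  have hprime := hQ.prime
  have hdom := hQ.isDomain j0
  obtain ⟨S, hS⟩ : ∃ S : Set (LA j0 Q), S = {ω | ∃ α β : ℤ, 0 ≤ α ∧ ω ∈ HH j0 Q α β} := ⟨_, rfl⟩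
  have hfg : (Submodule.span (MvPolynomial (Fin N ⊕ Fin N) K ⧸ Q) S).FG := by
    refine fg_of_integral (K := K) (hQ.powers_le j0) S ?_
    intro ω hω
    rw [hS] at hω
    obtain ⟨α, β, hα, hω⟩ := hω
    exact isIntegral_of_mem_HH hN hQ j0 hα hω
  obtain ⟨T, hT, hTs⟩ := (Submodule.fg_span_iff_fg_span_finset_subset _).mp hfg
  choose M r hr using fun t : T => lp_surj j0 Q t.1
  obtain ⟨L, hL⟩ : ∃ L : ℕ, ∀ t, M t ≤ L :=
    ⟨∑ t, M t, fun t => Finset.single_le_sum (f := M) (fun _ _ => Nat.zero_le _)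
      (Finset.mem_univ t)⟩
  have key : ∀ ω ∈ Submodule.span (MvPolynomial (Fin N ⊕ Fin N) K ⧸ Q)
      (T : Set (LA j0 Q)), ∃ q, ω * lp j0 Q (X (Sum.inl j0)) ^ L = lp j0 Q q := by
    intro ω hω
    refine Submodule.span_induction
      (p := fun x _ => ∃ q, x * lp j0 Q (X (Sum.inl j0)) ^ L = lp j0 Q q) ?_ ?_ ?_ ?_ hω
    · intro x hx
      refine ⟨r ⟨x, hx⟩ * X (Sum.inl j0) ^ (L - M ⟨x, hx⟩), ?_⟩
      rw [map_mul, map_pow, ← hr ⟨x, hx⟩, mul_assoc, ← pow_add,
        Nat.add_sub_cancel' (hL ⟨x, hx⟩)]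
    · exact ⟨0, by rw [zero_mul, map_zero]⟩
    · rintro x y _ _ ⟨p, hp⟩ ⟨q, hq⟩
      exact ⟨p + q, by rw [add_mul, hp, hq, map_add]⟩
    · rintro a x _ ⟨q, hq⟩
      obtain ⟨p, rfl⟩ := Ideal.Quotient.mk_surjective a
      refine ⟨p * q, ?_⟩
      rw [smul_mul_assoc, hq, map_mul, Algebra.smul_def]
      rfl
  refine ⟨L, fun α β hα ω hω => ?_⟩
  have h1 : ω ∈ Submodule.span (MvPolynomial (Fin N ⊕ Fin N) K ⧸ Q) (T : Set (LA j0 Q)) := by
    rw [← hTs]
    apply Submodule.subset_span
    rw [hS]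
    exact ⟨α, β, hα, hω⟩
  obtain ⟨q, hq⟩ := key ω h1
  obtain ⟨M0, q0, hq0, hω0⟩ := hω j0
  -- the homogeneous component
  have h2 : X (Sum.inl j0) ^ M0 * q - X (Sum.inl j0) ^ L * q0 ∈ Q := by
    rw [← hQ.lp_eq_zero j0, map_sub, map_mul, map_mul, map_pow, map_pow, ← hq, ← hω0]
    ring
  have h3 := hQ.hom _ h2 ((α + L + M0, β) : ℤ × ℤ)
  rw [map_sub, comp_mul (isBZ_X_pow j0 M0)] at h3
  have h4 : IsBZ (X (Sum.inl j0) ^ L * q0) (α + L + M0) β :=
    isBZ_congr ((isBZ_X_pow j0 L).mul hq0) (by ring) (by ring)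
  rw [h4.weightedHomogeneousComponent_same] at h3
  refine ⟨weightedHomogeneousComponent (wtZ N) ((α + L + M0, β) - ((M0 : ℤ), 0)) q, ?_, ?_⟩
  · exact isBZ_congr (weightedHomogeneousComponent_isWeightedHomogeneous _ _) (by ring) (by ring)
  · rw [← hQ.lp_eq_zero j0, map_sub, map_mul, map_mul, map_pow, map_pow, ← hω0, sub_eq_zero] at h3
    apply mul_left_cancel₀ (pow_ne_zero M0 (hQ.lp_ne j0 j0))
    rw [h3]
    ring

end integral

end Pool.Agent.Lib.GGL.CI
end

section

/-!
The Hilbert functions of the ideals of the equations.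
-/

open MvPolynomial Module

namespace Pool.Agent.Lib.GGL.CI

section fin

variable {K : Type} [Field K] {N : ℕ}

/-- the bihomogeneous polynomials -/
noncomputable abbrev VB (K : Type) [Field K] (N : ℕ) (a b : ℤ) :
    Submodule K (MvPolynomial (Fin N ⊕ Fin N) K) :=
  weightedHomogeneousSubmodule K (wtZ N) (a, b)

lemma mem_VB {q : MvPolynomial (Fin N ⊕ Fin N) K} {a b : ℤ} : q ∈ VB K N a b ↔ IsBZ q a b :=
  Iff.rfl

/-- the monomials of given bidegree -/
noncomputable def bm (K : Type) [Field K] {N a b : ℕ} (p : Mon N a × Mon N b) :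
    MvPolynomial (Fin N ⊕ Fin N) K :=
  monomial (Finsupp.sumFinsuppEquivProdFinsupp.symm (p.1.1, p.2.1)) 1

lemma bm_indep (a b : ℕ) : LinearIndependent K (bm K : Mon N a × Mon N b → _) := by
  have h1 : (bm K : Mon N a × Mon N b → _) = (basisMonomials (Fin N ⊕ Fin N) K) ∘
      fun p : Mon N a × Mon N b => Finsupp.sumFinsuppEquivProdFinsupp.symm (p.1.1, p.2.1) := by
    funext p
    rw [Function.comp_apply, coe_basisMonomials]
    rfl
  rw [h1]
  apply (basisMonomials (Fin N ⊕ Fin N) K).linearIndependent.comp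
  intro p q hpq
  have h2 := Finsupp.sumFinsuppEquivProdFinsupp.symm.injective hpq
  rw [Prod.mk.injEq] at h2
  exact Prod.ext (Subtype.ext h2.1) (Subtype.ext h2.2)

lemma VB_eq_span (a b : ℕ) :
    VB K N a b = Submodule.span K (Set.range (bm K : Mon N a × Mon N b → _)) := by
  classical
  apply le_antisymm
  · intro q hq
    rw [q.as_sum]
    refine Submodule.sum_mem _ fun s hs => ?_
    have h1 := hq (mem_support_iff.mp hs)
    rw [weight_wtZ, weight_wt] at h1
    have h2 := congrArg Prod.fst h1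
    have h3 := congrArg Prod.snd h1
    simp only [Nat.cast_inj] at h2 h3
    have h4 : monomial s (coeff s q) = (coeff s q) •
        bm K ((⟨_, h2⟩, ⟨_, h3⟩) : Mon N a × Mon N b) := by
      rw [bm, smul_monomial, smul_eq_mul, mul_one]
      congr 1
      exact congrArg _ (Finsupp.sumFinsuppEquivProdFinsupp.symm_apply_apply s).symm
    rw [h4]
    exact Submodule.smul_mem _ _ (Submodule.subset_span ⟨_, rfl⟩)
  · rw [Submodule.span_le]
    rintro _ ⟨p, rfl⟩
    apply isWeightedHomogeneous_monomial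
    rw [weight_wtZ, weight_wt, Equiv.apply_symm_apply, p.1.2, p.2.2]

lemma VB_eq_bot {a b : ℤ} (h : a < 0 ∨ b < 0) : VB K N a b = ⊥ := by
  rw [eq_bot_iff]
  intro q hq
  by_contra h0
  have := (mem_VB.mp hq).nonneg h0
  omega

instance instFinVB (a b : ℤ) : FiniteDimensional K (VB K N a b) := by
  by_cases h : a < 0 ∨ b < 0
  · rw [VB_eq_bot h]; infer_instance
  · push Not at h
    obtain ⟨a, rfl⟩ := Int.eq_ofNat_of_zero_le h.1
    obtain ⟨b, rfl⟩ := Int.eq_ofNat_of_zero_le h.2
    show FiniteDimensional K (VB K N (a : ℤ) (b : ℤ))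
    rw [VB_eq_span]
    exact FiniteDimensional.span_of_finite K (Set.finite_range _)

lemma finrank_VB (a b : ℕ) :
    finrank K (VB K N a b) = Fintype.card (Mon N a) * Fintype.card (Mon N b) := by
  rw [VB_eq_span, finrank_span_eq_card (bm_indep a b), Fintype.card_prod]

lemma finrank_VB_neg {a b : ℤ} (h : a < 0 ∨ b < 0) : finrank K (VB K N a b) = 0 := by
  rw [VB_eq_bot h, finrank_bot]

/-- the Hilbert function -/
noncomputable def hz (I : Ideal (MvPolynomial (Fin N ⊕ Fin N) K)) (a b : ℤ) : ℤ :=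
  (finrank K (VB K N a b) : ℤ) - finrank K ↥(VB K N a b ⊓ I.restrictScalars K)

lemma hz_bot (a b : ℤ) : hz (⊥ : Ideal (MvPolynomial (Fin N ⊕ Fin N) K)) a b =
    finrank K (VB K N a b) := by
  have h1 : VB K N a b ⊓ (⊥ : Ideal (MvPolynomial (Fin N ⊕ Fin N) K)).restrictScalars K = ⊥ := by
    rw [eq_bot_iff]
    rintro q ⟨-, hq⟩
    exact hq
  rw [hz, h1, finrank_bot]
  simp

lemma hz_step {I : Ideal (MvPolynomial (Fin N ⊕ Fin N) K)} (hI : BiCl I)
    {G : MvPolynomial (Fin N ⊕ Fin N) K} {p q : ℤ} (hG : IsBZ G p q) (hG0 : G ≠ 0) {a b : ℤ}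
    (hreg : ∀ Q, IsBZ Q (a - p) (b - q) → G * Q ∈ I → Q ∈ I) :
    hz (I ⊔ Ideal.span {G}) a b = hz I a b - hz I (a - p) (b - q) := by
  obtain ⟨V, hV⟩ : ∃ V, V = VB K N a b := ⟨_, rfl⟩
  obtain ⟨V', hV'⟩ : ∃ V', V' = VB K N (a - p) (b - q) := ⟨_, rfl⟩
  have hfV : FiniteDimensional K V := by rw [hV]; infer_instance
  have hfV' : FiniteDimensional K V' := by rw [hV']; infer_instance
  obtain ⟨m, hm⟩ : ∃ m, m = LinearMap.mulLeft K G := ⟨_, rfl⟩
  have hinj : Function.Injective m := by
    intro x y hxy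
    rw [hm, LinearMap.mulLeft_apply, LinearMap.mulLeft_apply] at hxy
    exact mul_left_cancel₀ hG0 hxy
  have hfr : ∀ W : Submodule K (MvPolynomial (Fin N ⊕ Fin N) K),
      finrank K (W.map m) = finrank K W := fun W =>
    (LinearEquiv.finrank_eq (Submodule.equivMapOfInjective m hinj W)).symm
  obtain ⟨s, hs⟩ : ∃ s, s = V ⊓ I.restrictScalars K := ⟨_, rfl⟩
  obtain ⟨t, ht⟩ : ∃ t, t = V'.map m := ⟨_, rfl⟩
  have hsup : s ⊔ t = V ⊓ (I ⊔ Ideal.span {G}).restrictScalars K := by
    apply le_antisymm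
    · rw [sup_le_iff]
      constructor
      · rw [hs]
        exact inf_le_inf_left _ (fun q hq => Ideal.mem_sup_left hq)
      · rw [ht]
        rintro _ ⟨y, hy, rfl⟩
        rw [hV'] at hy
        rw [hm, LinearMap.mulLeft_apply]
        constructor
        · rw [hV]
          exact isBZ_congr (hG.mul (mem_VB.mp hy)) (by ring) (by ring)
        · exact Ideal.mem_sup_right (Ideal.mul_mem_right _ _ (Ideal.mem_span_singleton_self G))
    · rintro x ⟨hx, hxI⟩
      rw [hV] at hx
      obtain ⟨Q, hQ, hxQ⟩ := exists_homogeneous hI (mem_VB.mp hx) hG hxI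
      rw [← sub_add_cancel x (G * Q)]
      apply Submodule.add_mem_sup
      · rw [hs, hV]
        refine ⟨?_, hxQ⟩
        exact Submodule.sub_mem _ hx (isBZ_congr (hG.mul hQ) (by ring) (by ring))
      · rw [ht, hV', hm]
        exact ⟨Q, hQ, rfl⟩
  have hinf : s ⊓ t = (V' ⊓ I.restrictScalars K).map m := by
    apply le_antisymm
    · rintro x ⟨hx, hxt⟩
      rw [ht] at hxt
      obtain ⟨y, hy, rfl⟩ := hxt
      refine ⟨y, ⟨hy, ?_⟩, rfl⟩
      rw [hV'] at hy
      rw [hs, hm] at hx
      exact hreg y hy hx.2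
    · rintro _ ⟨y, ⟨hy, hyI⟩, rfl⟩
      rw [hs, ht]
      refine ⟨⟨?_, ?_⟩, ⟨y, hy, rfl⟩⟩
      · rw [hV'] at hy
        rw [hV, hm]
        exact isBZ_congr (hG.mul (mem_VB.mp hy)) (by ring) (by ring)
      · rw [hm]
        exact Ideal.mul_mem_left I G hyI
  have hfs : FiniteDimensional K s := by
    rw [hs]
    exact Submodule.finiteDimensional_inf_left _ _
  have hft : FiniteDimensional K t := by
    rw [ht]
    infer_instance
  have h1 := Submodule.finrank_sup_add_finrank_inf_eq s t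
  rw [hsup, hinf, hfr, ht, hfr, hs] at h1
  rw [hz, hz, hz, ← hV, ← hV']
  have h2 : (finrank K ↥(V ⊓ (I ⊔ Ideal.span {G}).restrictScalars K) : ℤ) +
      finrank K ↥(V' ⊓ I.restrictScalars K) = finrank K ↥(V ⊓ I.restrictScalars K) +
        finrank K V' := by exact_mod_cast h1
  linarith

/-- the bound for the images -/
lemma finrank_map_lp_le {I Q : Ideal (MvPolynomial (Fin N ⊕ Fin N) K)} (hIQ : I ≤ Q)
    (hQ : Good Q) (j0 : Fin N) (a b : ℤ) :
    (finrank K ((VB K N a b).map (lp j0 Q).toLinearMap) : ℤ) ≤ hz I a b := by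
  obtain ⟨V, hV⟩ : ∃ V, V = VB K N a b := ⟨_, rfl⟩
  have hfV : FiniteDimensional K V := by rw [hV]; infer_instance
  rw [hz, ← hV]
  have h1 := LinearMap.finrank_range_add_finrank_ker ((lp j0 Q).toLinearMap.domRestrict V)
  have h2 : LinearMap.range ((lp j0 Q).toLinearMap.domRestrict V) =
      V.map (lp j0 Q).toLinearMap := by
    ext x
    simp
  rw [h2] at h1
  have h3 : finrank K ↥(V ⊓ I.restrictScalars K) ≤
      finrank K (LinearMap.ker ((lp j0 Q).toLinearMap.domRestrict V)) := by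
    have h4 : V ⊓ I.restrictScalars K ≤
        (LinearMap.ker ((lp j0 Q).toLinearMap.domRestrict V)).map V.subtype := by
      rintro x ⟨hx, hxI⟩
      refine ⟨⟨x, hx⟩, ?_, rfl⟩
      rw [SetLike.mem_coe, LinearMap.mem_ker]
      show lp j0 Q x = 0
      rw [hQ.lp_eq_zero]
      exact hIQ hxI
    have h5 : finrank K ((LinearMap.ker ((lp j0 Q).toLinearMap.domRestrict V)).map V.subtype) =
        finrank K (LinearMap.ker ((lp j0 Q).toLinearMap.domRestrict V)) :=
      (LinearEquiv.finrank_eq (Submodule.equivMapOfInjective _ V.injective_subtype _)).symm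
    rw [← h5]
    exact Submodule.finrank_mono h4
  have h6 : (finrank K (V.map (lp j0 Q).toLinearMap) : ℤ) +
      finrank K (LinearMap.ker ((lp j0 Q).toLinearMap.domRestrict V)) = finrank K V := by
    exact_mod_cast h1
  have h7 : (finrank K ↥(V ⊓ I.restrictScalars K) : ℤ) ≤
      finrank K (LinearMap.ker ((lp j0 Q).toLinearMap.domRestrict V)) := by exact_mod_cast h3
  linarith

end fin

end Pool.Agent.Lib.GGL.CI
end

section

/-!
The recursion for the Hilbert functions.
-/

open MvPolynomial Module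

namespace Pool.Agent.Lib.GGL.CI

/-- the number of the monomials of degree `z` in `m` variables -/
def hN (m : ℕ) (z : ℤ) : ℤ := if z < 0 then 0 else (Nat.multichoose m z.toNat : ℤ)

lemma hN_neg (m : ℕ) {z : ℤ} (hz : z < 0) : hN m z = 0 := if_pos hz

lemma hN_nat (m k : ℕ) : hN m k = Nat.multichoose m k := by
  rw [hN, if_neg (by omega), Int.toNat_natCast]

/-- the values of the Hilbert functions -/
def FF (N : ℕ) : List (ℕ × ℕ) → ℤ → ℤ → ℤ
  | [], α, β => hN N α * hN N β
  | (p, q) :: l, α, β => FF N l α β - FF N l (α - p) (β - q)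

section chain

variable {K : Type} [Field K] {N : ℕ}

lemma card_Mon (a : ℕ) : Fintype.card (Mon N a) = Nat.multichoose N a := by
  classical
  have h1 : Fintype.card (Mon N a) = (Finset.univ.finsuppAntidiag a :
      Finset (Fin N →₀ ℕ)).card := by
    rw [← Fintype.card_coe]
    apply Fintype.card_congr
    refine Equiv.subtypeEquivRight fun μ => ?_
    rw [Finset.mem_finsuppAntidiag, Finsupp.degree_eq_sum]
    exact ⟨fun h => ⟨h, Finset.subset_univ _⟩, fun h => h.1⟩
  rw [h1, Finset.card_finsuppAntidiag_nat_eq_choose, Finset.card_univ, Fintype.card_fin,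
    Nat.multichoose_eq]

lemma finrank_VB_eq (a b : ℤ) : (finrank K (VB K N a b) : ℤ) = hN N a * hN N b := by
  by_cases h : a < 0 ∨ b < 0
  · rw [finrank_VB_neg h]
    rcases h with h | h
    · rw [hN_neg _ h, zero_mul, Nat.cast_zero]
    · rw [hN_neg _ h, mul_zero, Nat.cast_zero]
  · push Not at h
    obtain ⟨a, rfl⟩ := Int.eq_ofNat_of_zero_le h.1
    obtain ⟨b, rfl⟩ := Int.eq_ofNat_of_zero_le h.2
    have h1 := finrank_VB (K := K) (N := N) a b
    rw [card_Mon, card_Mon] at h1
    show (finrank K (VB K N (a : ℤ) (b : ℤ)) : ℤ) = hN N (a : ℤ) * hN N (b : ℤ)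
    rw [h1, hN_nat, hN_nat, Nat.cast_mul]

/-- systems of equations -/
inductive NChain : Ideal (MvPolynomial (Fin N ⊕ Fin N) K) → List (ℕ × ℕ) → Prop
  | nil : NChain ⊥ []
  | cons {I P P' : Ideal (MvPolynomial (Fin N ⊕ Fin N) K)}
      {G : MvPolynomial (Fin N ⊕ Fin N) K} {p q : ℕ} {l : List (ℕ × ℕ)} (hc : NChain I l)
      (hP : ∀ j : Fin N, P = sat (X (Sum.inl j)) I) (h : Step P P' G p q) :
      NChain (I ⊔ Ideal.span {G}) ((p, q) :: l)

lemma NChain.biCl {I : Ideal (MvPolynomial (Fin N ⊕ Fin N) K)} {l : List (ℕ × ℕ)}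
    (h : NChain I l) : BiCl I := by
  induction h with
  | nil => exact biCl_bot
  | @cons I P P' G p q l hc hP h ih =>
    apply ih.sup
    apply biCl_span
    rintro r hr
    rw [Set.mem_singleton_iff] at hr
    rw [hr]
    exact ⟨_, _, h.hom⟩

/-- The Hilbert function in large degree in `x`. -/
theorem NChain.hz_eq (hN0 : 0 < N) {I : Ideal (MvPolynomial (Fin N ⊕ Fin N) K)}
    {l : List (ℕ × ℕ)} (h : NChain I l) :
    ∃ α₀ : ℤ, ∀ α β : ℤ, α₀ ≤ α → hz I α β = FF N l α β := by
  induction h with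
  | nil =>
    refine ⟨0, fun α β _ => ?_⟩
    rw [hz_bot, finrank_VB_eq]
    rfl
  | @cons I P P' G p q l hc hP h ih =>
    obtain ⟨α₁, h1⟩ := ih
    obtain ⟨α₂, h2⟩ := exists_torsion_bound hN0 hc.biCl hP
    have hIP : I ≤ P := by
      rw [hP ⟨0, hN0⟩]
      exact le_sat _ _
    have hG0 : G ≠ 0 := by
      rintro rfl
      exact h.notMem P.zero_mem
    refine ⟨max α₁ α₂ + p, fun α β hα => ?_⟩
    have h3 : α₁ ≤ α - p := by have := le_max_left α₁ α₂; linarith
    have h4 : α₂ ≤ α - p := by have := le_max_right α₁ α₂; linarith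
    rw [hz_step hc.biCl h.hom hG0 (fun Q hQ hGQ => h2 _ _ h4 Q hQ
      ((h.good.prime.mem_or_mem (hIP hGQ)).resolve_left h.notMem)), FF,
      h1 _ _ h3, h1 _ _ (by have : (0 : ℤ) ≤ p := by positivity
                            linarith)]

end chain

section univ

variable {N : ℕ} {ι : Type} (d : ι → ℕ) (K : Type) [Field K]
  [Algebra (MvPolynomial (Coef N d) ℚ) K] [IsFractionRing (MvPolynomial (Coef N d) ℚ) K]

/-- the ideals of the equations over the field -/
noncomputable def IK (A B : Set ι) : Ideal (MvPolynomial (Fin N ⊕ Fin N) K) :=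
  (IAB d N A B).map (mp (Fin N ⊕ Fin N) (MvPolynomial (Coef N d) ℚ) K)

variable {d}

lemma sat_IK (j : Fin N) (A B : Set ι) : sat (X (Sum.inl j)) (IK d K A B) = PK d K j A B := by
  rw [PK, PAB, sat_map, map_X, IK]

lemma IK_insert_left (A B : Set ι) (i : ι) :
    IK d K (insert i A) B = IK (N := N) d K A B ⊔ Ideal.span {mp _ _ K (gU d i)} := by
  rw [IK, IAB_insert_left, Ideal.map_sup, Ideal.map_span, Set.image_singleton, IK]

lemma IK_insert_right (A B : Set ι) (i : ι) :
    IK d K A (insert i B) = IK (N := N) d K A B ⊔ Ideal.span {mp _ _ K (dgU d i)} := by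
  rw [IK, IAB_insert_right, Ideal.map_sup, Ideal.map_span, Set.image_singleton, IK]

variable (hd : ∀ i, 2 ≤ d i)
include hd

lemma PK_eq (j k : Fin N) {A B : Finset ι} (hA : A.card < N) (hB : B.card + 1 < N) :
    PK d K j A B = PK d K k A B := by
  rw [PK, PK, PAB_eq hd k j hA B hB]

lemma nchain_g [DecidableEq ι] (j : Fin N) : ∀ (l : List ι), l.Nodup → l.length < N → 1 < N →
    NChain (IK (N := N) d K (l.toFinset : Set ι) ∅) (l.map fun i => (d i, 0)) := by
  intro l
  induction l with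
  | nil =>
    intro _ _ _
    have h1 : IK (N := N) d K (([] : List ι).toFinset : Set ι) ∅ = ⊥ := by
      rw [List.toFinset_nil, Finset.coe_empty, IK, IAB, Set.image_empty, Set.image_empty,
        Ideal.span_empty, sup_bot_eq, Ideal.map_bot]
    rw [h1, List.map_nil]
    exact NChain.nil
  | cons i l ih =>
    intro hl hlen hN1
    rw [List.nodup_cons] at hl
    rw [List.length_cons] at hlen
    have h1 := ih hl.2 (by omega) hN1
    have hA : l.toFinset.card + 1 < N := by
      have := List.toFinset_card_le l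
      omega
    have hA' : l.toFinset.card < N := by omega
    have h0 : (∅ : Finset ι).card + 1 < N := by rw [Finset.card_empty]; omega
    have hi : i ∉ l.toFinset := by rw [List.mem_toFinset]; exact hl.1
    have h2 := step_g K hd j hA hi
    rw [List.toFinset_cons, Finset.coe_insert, IK_insert_left, List.map_cons]
    refine NChain.cons h1 (fun k => ?_) h2
    rw [sat_IK]
    have := PK_eq K hd j k hA' h0
    rwa [Finset.coe_empty] at this

lemma nchain_dg [DecidableEq ι] (j : Fin N) {A : Finset ι} (hA : A.card < N)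
    {l' : List (ℕ × ℕ)} (h' : NChain (IK (N := N) d K (A : Set ι) ∅) l') :
    ∀ (l : List ι), l.Nodup → l.length + 1 < N →
    NChain (IK (N := N) d K (A : Set ι) (l.toFinset : Set ι))
      ((l.map fun i => (d i - 1, 1)) ++ l') := by
  intro l
  induction l with
  | nil =>
    intro _ _
    rw [List.toFinset_nil, Finset.coe_empty, List.map_nil, List.nil_append]
    exact h'
  | cons i l ih =>
    intro hl hlen
    rw [List.nodup_cons] at hl
    rw [List.length_cons] at hlen
    have h1 := ih hl.2 (by omega)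
    have hB : l.toFinset.card + 1 + 1 < N := by
      have := List.toFinset_card_le l
      omega
    have hB' : l.toFinset.card + 1 < N := by omega
    have hi : i ∉ l.toFinset := by rw [List.mem_toFinset]; exact hl.1
    have h2 := step_dg K hd j hA hB hi
    rw [List.toFinset_cons, Finset.coe_insert, IK_insert_right, List.map_cons, List.cons_append]
    refine NChain.cons h1 (fun k => ?_) h2
    rw [sat_IK]
    exact PK_eq K hd j k hA hB'

/-- the system of all the equations -/
theorem nchain_univ [Fintype ι] (j : Fin N) (hN : Fintype.card ι + 1 < N) :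
    NChain (IK (N := N) d K Set.univ Set.univ)
      (((Finset.univ : Finset ι).toList.map fun i => (d i - 1, 1)) ++
        ((Finset.univ : Finset ι).toList.map fun i => (d i, 0))) := by
  classical
  obtain ⟨l, hl⟩ : ∃ l : List ι, l = Finset.univ.toList := ⟨_, rfl⟩
  have hnd : l.Nodup := by rw [hl]; exact Finset.nodup_toList _
  have hlen : l.length = Fintype.card ι := by rw [hl, Finset.length_toList, Finset.card_univ]
  have hfin : l.toFinset = Finset.univ := by rw [hl, Finset.toList_toFinset]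
  rw [← hl]
  have h1 := nchain_g K hd j l hnd (by omega) (by omega)
  have h2 := nchain_dg K hd j (A := l.toFinset) (by
    rw [hfin, Finset.card_univ]; omega) h1 l hnd (by omega)
  rw [hfin, Finset.coe_univ] at h2
  exact h2

end univ

end Pool.Agent.Lib.GGL.CI
end

section

/-!
Evaluation of the Hilbert functions.
-/

open MvPolynomial Module

namespace Pool.Agent.Lib.GGL.CI

lemma hN_nonneg (m : ℕ) (z : ℤ) : 0 ≤ hN m z := by
  rw [hN]
  split_ifs
  · exact le_rfl
  · positivity

lemma hN_diff (m : ℕ) (z : ℤ) : hN (m + 1) z - hN (m + 1) (z - 1) = hN m z := by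
  rcases lt_trichotomy z 0 with h | h | h
  · rw [hN_neg _ h, hN_neg _ h, hN_neg _ (by omega), sub_zero]
  · subst h
    rw [hN_neg _ (by omega : (0 : ℤ) - 1 < 0)]
    have h1 := hN_nat (m + 1) 0
    have h2 := hN_nat m 0
    rw [Nat.cast_zero, Nat.multichoose_zero_right] at h1 h2
    rw [h1, h2, sub_zero]
  · obtain ⟨k, rfl⟩ : ∃ k : ℕ, z = ((k + 1 : ℕ) : ℤ) := ⟨z.toNat - 1, by omega⟩
    have h1 : ((k + 1 : ℕ) : ℤ) - 1 = (k : ℤ) := by push_cast; ring
    rw [h1, hN_nat, hN_nat, hN_nat, Nat.multichoose_succ_succ]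
    push_cast
    ring

lemma hN_zero {z : ℤ} (hz : 0 < z) : hN 0 z = 0 := by
  obtain ⟨k, rfl⟩ : ∃ k : ℕ, z = ((k + 1 : ℕ) : ℤ) := ⟨z.toNat - 1, by omega⟩
  rw [hN_nat, Nat.multichoose_zero_succ, Nat.cast_zero]

lemma hN_mono (m : ℕ) {z w : ℤ} (h : z ≤ w) : hN (m + 1) z ≤ hN (m + 1) w := by
  obtain ⟨k, rfl⟩ : ∃ k : ℕ, w = z + k := ⟨(w - z).toNat, by omega⟩
  clear h
  induction k with
  | zero => simp
  | succ k ih =>
    refine ih.trans ?_
    have h1 := hN_diff m (z + (k + 1 : ℕ))
    have h2 := hN_nonneg m (z + (k + 1 : ℕ))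
    have h3 : z + (k + 1 : ℕ) - 1 = z + k := by push_cast; ring
    rw [h3] at h1
    linarith

lemma hN_le (m : ℕ) {z : ℤ} {X : ℕ} (h : z + m ≤ X) :
    m.factorial * hN (m + 1) z ≤ (X : ℤ) ^ m := by
  rcases lt_or_ge z 0 with h0 | h0
  · rw [hN_neg _ h0, mul_zero]; positivity
  · obtain ⟨k, rfl⟩ := Int.eq_ofNat_of_zero_le h0
    have h1 : m.factorial * Nat.multichoose (m + 1) k ≤ (k + m) ^ m := by
      rw [Nat.multichoose_eq]
      have h2 : m + 1 + k - 1 = k + m := by omega
      rw [h2, Nat.choose_symm_add, ← Nat.descFactorial_eq_factorial_mul_choose]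
      exact Nat.descFactorial_le_pow _ _
    have h2 : k + m ≤ X := by exact_mod_cast h
    have h3 := h1.trans (Nat.pow_le_pow_left h2 m)
    show (m.factorial : ℤ) * hN (m + 1) (k : ℤ) ≤ _
    rw [hN_nat]
    exact_mod_cast h3

/-- iterated sums -/
def SS : List ℕ → ℕ → ℤ → ℤ
  | [], m, z => hN m z
  | d :: l, m, z => ∑ j ∈ Finset.range d, SS l m (z - j)

lemma SS_nonneg (l : List ℕ) (m : ℕ) (z : ℤ) : 0 ≤ SS l m z := by
  induction l generalizing z with
  | nil => exact hN_nonneg m z
  | cons d l ih => exact Finset.sum_nonneg fun j _ => ih _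

lemma SS_diff (l : List ℕ) (m : ℕ) (z : ℤ) :
    SS l (m + 1) z - SS l (m + 1) (z - 1) = SS l m z := by
  induction l generalizing z with
  | nil => exact hN_diff m z
  | cons d l ih =>
    rw [SS, SS, SS, ← Finset.sum_sub_distrib]
    refine Finset.sum_congr rfl fun j _ => ?_
    rw [← ih]
    congr 2
    ring

lemma SS_cons (d : ℕ) (l : List ℕ) (m : ℕ) (z : ℤ) :
    SS l (m + 1) z - SS l (m + 1) (z - d) = SS (d :: l) m z := by
  rw [SS]
  induction d with
  | zero => simp
  | succ d ih =>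
    have h1 := SS_diff l m (z - d)
    have h2 : z - ((d + 1 : ℕ) : ℤ) = z - d - 1 := by push_cast; ring
    rw [Finset.sum_range_succ, ← ih, ← h1, h2]
    ring

lemma SS_zero (l : List ℕ) {z : ℤ} (hz : (l.sum : ℤ) < z) : SS l 0 z = 0 := by
  induction l generalizing z with
  | nil => exact hN_zero (by simpa using hz)
  | cons d l ih =>
    rw [SS]
    refine Finset.sum_eq_zero fun j hj => ih ?_
    rw [Finset.mem_range] at hj
    rw [List.sum_cons, Nat.cast_add] at hz
    have : (j : ℤ) ≤ d := by exact_mod_cast hj.le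
    linarith

lemma SS_le (l : List ℕ) (m : ℕ) {z : ℤ} {X : ℕ} (h : z + m ≤ X) :
    m.factorial * SS l (m + 1) z ≤ l.prod * (X : ℤ) ^ m := by
  induction l generalizing z with
  | nil =>
    rw [SS, List.prod_nil, Nat.cast_one, one_mul]
    exact hN_le m h
  | cons d l ih =>
    rw [SS, List.prod_cons, Finset.mul_sum]
    calc ∑ j ∈ Finset.range d, (m.factorial : ℤ) * SS l (m + 1) (z - j)
        ≤ ∑ _j ∈ Finset.range d, l.prod * (X : ℤ) ^ m :=
          Finset.sum_le_sum fun j _ => ih (by have : (0 : ℤ) ≤ j := by positivity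
                                              linarith)
      _ = _ := by
          rw [Finset.sum_const, Finset.card_range, nsmul_eq_mul]
          push_cast
          ring

/-- successive differences -/
def GG : List ℕ → (ℤ → ℤ → ℤ) → ℤ → ℤ → ℤ
  | [], F, α, β => F α β
  | e :: L, F, α, β => GG L F α β - GG L F (α - e) (β - 1)

lemma GG_add (L : List ℕ) (F F' : ℤ → ℤ → ℤ) (α β : ℤ) :
    GG L (fun α β => F α β + F' α β) α β = GG L F α β + GG L F' α β := by
  induction L generalizing α β with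
  | nil => rfl
  | cons e L ih => rw [GG, GG, GG, ih, ih]; ring

lemma GG_shift (L : List ℕ) (F : ℤ → ℤ → ℤ) (a b α β : ℤ) :
    GG L (fun α β => F (α - a) (β - b)) α β = GG L F (α - a) (β - b) := by
  induction L generalizing α β with
  | nil => rfl
  | cons e L ih =>
    rw [GG, GG, ih, ih]
    congr 2 <;> ring

lemma GG_sub (L : List ℕ) (F F' : ℤ → ℤ → ℤ) (α β : ℤ) :
    GG L (fun α β => F α β - F' α β) α β = GG L F α β - GG L F' α β := by
  induction L generalizing α β with
  | nil => rfl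
  | cons e L ih => rw [GG, GG, GG, ih, ih]; ring

lemma GG_zero (L : List ℕ) (F : ℤ → ℤ → ℤ) (c : ℤ) (hF : ∀ α β, c < α → F α β = 0) (α β : ℤ)
    (hα : c + L.sum < α) : GG L F α β = 0 := by
  induction L generalizing α β with
  | nil => exact hF α β (by simpa using hα)
  | cons e L ih =>
    rw [List.sum_cons, Nat.cast_add] at hα
    have : (0 : ℤ) ≤ e := by positivity
    rw [GG, ih _ _ (by linarith), ih _ _ (by linarith), sub_zero]

lemma FF_eq_GG (N : ℕ) (L : List ℕ) (l' : List (ℕ × ℕ)) (α β : ℤ) :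
    FF N ((L.map fun e => (e, 1)) ++ l') α β = GG L (FF N l') α β := by
  induction L generalizing α β with
  | nil => rfl
  | cons e L ih =>
    rw [List.map_cons, List.cons_append, FF, GG, ih, ih, Nat.cast_one]

lemma FF_g (m : ℕ) (l : List ℕ) (N : ℕ) (hm : N = m + l.length) (α β : ℤ) :
    FF N (l.map fun e => (e, 0)) α β = SS l m α * hN N β := by
  induction l generalizing m α β with
  | nil =>
    rw [List.length_nil, add_zero] at hm
    subst hm
    rfl
  | cons e l ih =>
    rw [List.length_cons] at hm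
    have h1 := ih (m + 1) (by omega)
    rw [List.map_cons, FF, h1, h1, ← SS_cons]
    push_cast
    rw [sub_zero]
    ring

/-- the function `U` -/
def UU (l : List ℕ) (p q : ℕ) (L : List ℕ) (α β : ℤ) : ℤ :=
  GG L (fun α β => SS l p α * hN (q + L.length) β) α β

lemma UU_cons (l : List ℕ) (p q e : ℕ) (L : List ℕ) (α β : ℤ) :
    UU l (p + 1) q (e :: L) α β = UU l (p + 1) q L α β + UU (e :: l) p (q + 1) L α (β - 1) := by
  rw [UU, GG, ← GG_shift, ← GG_sub]
  have h1 : (fun α β => (fun α β => SS l (p + 1) α * hN (q + (e :: L).length) β) α β -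
      (fun α β => SS l (p + 1) α * hN (q + (e :: L).length) β) (α - (e : ℤ)) (β - 1)) =
      fun α β => (fun α β => SS l (p + 1) α * hN (q + L.length) β) α β +
        (fun α β => (fun α β => SS (e :: l) p α * hN (q + 1 + L.length) β) (α - 0) (β - 1)) α β := by
    funext α β
    beta_reduce
    rw [sub_zero, ← SS_cons, List.length_cons]
    have h2 := hN_diff (q + L.length) β
    have h3 : q + (L.length + 1) = q + L.length + 1 := by ring
    have h4 : q + 1 + L.length = q + L.length + 1 := by ring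
    rw [h3, h4, ← h2]
    ring
  have h5 := GG_shift L (fun α β => SS (e :: l) p α * hN (q + 1 + L.length) β) 0 1 α β
  rw [sub_zero] at h5
  rw [h1, GG_add, UU, UU, ← h5]

lemma UU_zero (l : List ℕ) (q : ℕ) (L : List ℕ) {α β : ℤ} (hα : (l.sum : ℤ) + L.sum < α) :
    UU l 0 q L α β = 0 := by
  apply GG_zero L _ (l.sum : ℤ) _ _ _ hα
  intro α β h
  rw [SS_zero l h, zero_mul]

/-- truncated sums of products -/
def EE : ℕ → List ℕ → ℕ
  | 0, _ => 0
  | _ + 1, [] => 1
  | p + 1, e :: L => EE (p + 1) L + e * EE p L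

lemma UU_le (l : List ℕ) (p q : ℕ) (L : List ℕ) {α β : ℤ} {X : ℕ} (hα : (l.sum : ℤ) + L.sum < α)
    (hαX : α + (p + q : ℕ) ≤ X) (hβX : β + (p + q : ℕ) ≤ X) (hq : 1 ≤ q) (hpq : p ≤ q) :
    ((p - 1).factorial * (q - 1).factorial : ℕ) * UU l p q L α β ≤
      l.prod * EE p L * (X : ℤ) ^ (p + q - 2) := by
  induction L generalizing p q l β with
  | nil =>
    rcases p with _ | p
    · rw [UU_zero l q [] hα, EE]
      simp
    · obtain ⟨q, rfl⟩ : ∃ q', q = q' + 1 := ⟨q - 1, by omega⟩
      rw [UU, GG, EE, List.length_nil, add_zero, Nat.add_sub_cancel, Nat.add_sub_cancel]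
      have h1 := SS_le l p (z := α) (X := X) (by push_cast at hαX; linarith)
      have h2 := hN_le q (z := β) (X := X) (by push_cast at hβX; linarith)
      have h3 : p + 1 + (q + 1) - 2 = p + q := by omega
      rw [h3, pow_add, Nat.cast_one, mul_one, ← mul_assoc (l.prod : ℤ)]
      have h4 : ((p.factorial * q.factorial : ℕ) : ℤ) * (SS l (p + 1) α * hN (q + 1) β) =
          (p.factorial * SS l (p + 1) α) * (q.factorial * hN (q + 1) β) := by
        push_cast
        ring
      rw [h4]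
      refine mul_le_mul h1 h2 ?_ (by positivity)
      exact mul_nonneg (by positivity) (hN_nonneg _ _)
  | cons e L ih =>
    rcases p with _ | p
    · rw [UU_zero l q _ hα, EE]
      simp
    · rw [UU_cons, EE]
      rw [List.sum_cons, Nat.cast_add] at hα
      have he : (0 : ℤ) ≤ e := by positivity
      have h1 := ih (l := l) (p + 1) q (β := β) (by linarith) hαX hβX hq hpq
      have hpe : p + 1 + q = p + (q + 1) := by ring
      have h2 := ih (l := e :: l) p (q + 1) (β := β - 1) (by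
        rw [List.sum_cons, Nat.cast_add]; linarith) (by rw [← hpe]; exact hαX)
        (by rw [← hpe]; linarith) (by omega) (by omega)
      have h3 : p + (q + 1) - 2 = p + 1 + q - 2 := by omega
      rw [h3, List.prod_cons] at h2
      have h4 : (((p + 1 - 1).factorial * (q - 1).factorial : ℕ) : ℤ) *
          UU (e :: l) p (q + 1) L α (β - 1) ≤
          ((e * l.prod : ℕ) : ℤ) * EE p L * (X : ℤ) ^ (p + 1 + q - 2) := by
        rcases p with _ | p
        · rw [UU_zero (e :: l) (q + 1) L (by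
            rw [List.sum_cons, Nat.cast_add]; linarith), mul_zero]
          positivity
        · rcases lt_or_ge (UU (e :: l) (p + 1) (q + 1) L α (β - 1)) 0 with h0 | h0
          · refine le_trans ?_ (by positivity : (0 : ℤ) ≤ _)
            exact mul_nonpos_of_nonneg_of_nonpos (by positivity) h0.le
          · refine le_trans ?_ h2
            apply mul_le_mul_of_nonneg_right _ h0
            have h5 : (p + 1 + 1 - 1).factorial * (q - 1).factorial ≤
                (p + 1 - 1).factorial * (q + 1 - 1).factorial := by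
              obtain ⟨q, rfl⟩ : ∃ q', q = q' + 1 := ⟨q - 1, by omega⟩
              rw [Nat.add_sub_cancel, Nat.add_sub_cancel, Nat.add_sub_cancel, Nat.add_sub_cancel,
                Nat.factorial_succ, Nat.factorial_succ]
              calc (p + 1) * p.factorial * q.factorial = p.factorial * ((p + 1) * q.factorial) := by
                    ring
                _ ≤ p.factorial * ((q + 1) * q.factorial) := by
                    apply Nat.mul_le_mul_left
                    apply Nat.mul_le_mul_right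
                    omega
            exact_mod_cast h5
      rw [mul_add]
      calc (((p + 1 - 1).factorial * (q - 1).factorial : ℕ) : ℤ) * UU l (p + 1) q L α β +
            (((p + 1 - 1).factorial * (q - 1).factorial : ℕ) : ℤ) *
              UU (e :: l) p (q + 1) L α (β - 1)
          ≤ l.prod * EE (p + 1) L * (X : ℤ) ^ (p + 1 + q - 2) +
            ((e * l.prod : ℕ) : ℤ) * EE p L * (X : ℤ) ^ (p + 1 + q - 2) := add_le_add h1 h4
        _ = _ := by push_cast; ring

/-- The bound for the Hilbert function. -/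
theorem FF_le {N n : ℕ} {ds es : List ℕ} (hn : N = n + 1 + ds.length)
    (hlen : es.length = ds.length) {α β : ℤ} {X : ℕ} (hα : (ds.sum : ℤ) + es.sum < α)
    (hαX : α + (2 * n + 2 : ℕ) ≤ X) (hβX : β + (2 * n + 2 : ℕ) ≤ X) :
    (n.factorial ^ 2 : ℕ) * FF N ((es.map fun e => (e, 1)) ++ (ds.map fun e => (e, 0))) α β ≤
      ds.prod * EE (n + 1) es * (X : ℤ) ^ (2 * n) := by
  rw [FF_eq_GG]
  have h1 : FF N (ds.map fun e => (e, 0)) =
      fun α β => SS ds (n + 1) α * hN (n + 1 + es.length) β := by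
    funext α β
    rw [FF_g (n + 1) ds N hn, hlen, ← hn]
  rw [h1]
  have h4 : n + 1 + (n + 1) = 2 * n + 2 := by ring
  have h2 := UU_le ds (n + 1) (n + 1) es hα (by rw [h4]; exact hαX) (by rw [h4]; exact hβX)
    (by omega) le_rfl
  have h3 : n + 1 + (n + 1) - 2 = 2 * n := by omega
  rw [h3, Nat.add_sub_cancel] at h2
  rw [sq]
  exact h2

lemma EE_succ_nil (p : ℕ) : EE (p + 1) [] = 1 := rfl

lemma EE_le {D : ℕ} (hD : 1 ≤ D) (ds : List ℕ) (hd : ∀ d ∈ ds, D ≤ d) (p : ℕ) :
    D ^ ds.length * EE (p + 1) (ds.map fun d => d - 1) ≤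
      D ^ p * (ds.length + p).choose p * ds.prod := by
  induction ds generalizing p with
  | nil =>
    rw [List.map_nil, EE, List.length_nil, List.prod_nil, zero_add, Nat.choose_self, pow_zero,
      one_mul, mul_one, mul_one]
    exact Nat.one_le_pow _ _ hD
  | cons d ds ih =>
    have hd2 : D ≤ d := hd d (by simp)
    have ih' := ih fun e he => hd e (by simp [he])
    rw [List.map_cons, EE, List.length_cons, List.prod_cons]
    have h1 := ih' p
    obtain ⟨e, rfl⟩ : ∃ e, d = e + 1 := ⟨d - 1, by omega⟩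
    rw [Nat.add_sub_cancel]
    rcases p with _ | p
    · rw [EE]
      simp only [pow_zero, one_mul, mul_zero, add_zero, Nat.choose_zero_right] at h1 ⊢
      rw [pow_succ]
      calc D ^ ds.length * D * EE (0 + 1) (ds.map fun d => d - 1)
          = D * (D ^ ds.length * EE (0 + 1) (ds.map fun d => d - 1)) := by ring
        _ ≤ (e + 1) * ds.prod := Nat.mul_le_mul hd2 h1
    · have h2 := ih' p
      obtain ⟨k, hk⟩ : ∃ k, k = ds.length := ⟨_, rfl⟩
      obtain ⟨δ, hδ⟩ : ∃ δ, δ = ds.prod := ⟨_, rfl⟩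
      rw [← hk, ← hδ] at h1 h2 ⊢
      have h3 : (k + 1 + (p + 1)).choose (p + 1) =
          (k + p + 1).choose p + (k + (p + 1)).choose (p + 1) := by
        have : k + 1 + (p + 1) = (k + p + 1) + 1 := by ring
        rw [this, Nat.choose_succ_succ]
        congr 1
      have h4 : (k + p).choose p ≤ (k + p + 1).choose p := Nat.choose_le_choose _ (by omega)
      obtain ⟨E1, hE1⟩ : ∃ E1, E1 = EE (p + 1 + 1) (ds.map fun d => d - 1) := ⟨_, rfl⟩
      obtain ⟨E0, hE0⟩ : ∃ E0, E0 = EE (p + 1) (ds.map fun d => d - 1) := ⟨_, rfl⟩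
      rw [← hE1] at h1
      rw [← hE0] at h2
      rw [← hE1, ← hE0, h3]
      obtain ⟨b1, hb1⟩ : ∃ b1, b1 = (k + (p + 1)).choose (p + 1) := ⟨_, rfl⟩
      obtain ⟨b0, hb0⟩ : ∃ b0, b0 = (k + p).choose p := ⟨_, rfl⟩
      obtain ⟨b2, hb2⟩ : ∃ b2, b2 = (k + p + 1).choose p := ⟨_, rfl⟩
      rw [← hb1] at h1 ⊢
      rw [← hb0] at h2 h4
      rw [← hb2] at h4 ⊢
      calc D ^ (k + 1) * (E1 + e * E0)
          = D * (D ^ k * E1) + D * e * (D ^ k * E0) := by rw [pow_succ]; ring
        _ ≤ D * (D ^ (p + 1) * b1 * δ) + D * e * (D ^ p * b0 * δ) :=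
            Nat.add_le_add (Nat.mul_le_mul_left _ h1) (Nat.mul_le_mul_left _ h2)
        _ = D ^ (p + 1) * (b1 * δ * D + e * b0 * δ) := by rw [pow_succ]; ring
        _ ≤ D ^ (p + 1) * (b1 * δ * (e + 1) + (e + 1) * b2 * δ) := by
            gcongr
            omega
        _ = _ := by ring

end Pool.Agent.Lib.GGL.CI
end
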