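import Mathlib
import Pool.Agent.Lib.MP_8d161d_ag.Mg.G033
import Pool.Agent.Lib.MP_8d161d_ag.Mg.G030

section

/-!
Existence of functions of negative degree, with the sharp count.
-/

open MvPolynomial Module

namespace Pool.Agent.Lib.GGL.CI

/-- the numerical contradiction -/
lemma exists_large_pow {A B : ℕ} (h : B < A) (p C a₀ : ℕ) :
    ∃ a : ℕ, a₀ ≤ a ∧ (a + C) ^ p * B < (a + 1) ^ p * A := by
  refine ⟨p * C * A + a₀, Nat.le_add_left _ _, ?_⟩
  obtain ⟨a, ha⟩ : ∃ a, a = p * C * A + a₀ := ⟨_, rfl⟩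
  rw [← ha]
  have hR : ((a + C : ℝ)) ^ p * B < (a + 1 : ℝ) ^ p * A := by
    rcases Nat.eq_zero_or_pos C with hC | hC
    · subst hC
      simp only [Nat.cast_zero, add_zero]
      have h0 : (0 : ℝ) ≤ B := by positivity
      have h1 : (a : ℝ) ^ p ≤ (a + 1 : ℝ) ^ p := pow_le_pow_left₀ (by positivity) (by linarith) _
      calc (a : ℝ) ^ p * B ≤ (a + 1 : ℝ) ^ p * B := mul_le_mul_of_nonneg_right h1 h0
        _ < (a + 1 : ℝ) ^ p * A := by
            apply mul_lt_mul_of_pos_left _ (by positivity)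
            exact_mod_cast h
    · have haC : (0 : ℝ) < a + C := by positivity
      have hb : 1 + (p : ℝ) * (-(C / (a + C : ℝ))) ≤ (1 + -(C / (a + C : ℝ))) ^ p := by
        apply one_add_mul_le_pow
        have : (C : ℝ) / (a + C) ≤ 1 := by
          rw [div_le_one haC]
          have : (0 : ℝ) ≤ a := by positivity
          linarith
        linarith
      have hb2 : 1 + -(C / (a + C : ℝ)) = a / (a + C) := by
        field_simp
        ring
      rw [hb2, div_pow, le_div_iff₀ (by positivity)] at hb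
      have h2 : (B : ℝ) < (1 + (p : ℝ) * (-(C / (a + C : ℝ)))) * A := by
        have h3 : (B : ℝ) + 1 ≤ A := by exact_mod_cast h
        have h4 : (p : ℝ) * (C / (a + C : ℝ)) * A < 1 := by
          have h5 : (p : ℝ) * (C / (a + C : ℝ)) * A = (p * C * A : ℝ) / (a + C) := by
            ring
          rw [h5, div_lt_one haC]
          have h6 : (p * C * A : ℝ) ≤ a := by
            have : p * C * A ≤ a := by rw [ha]; exact Nat.le_add_right _ _
            exact_mod_cast this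
          have : (0 : ℝ) < C := by exact_mod_cast hC
          linarith
        linarith
      calc ((a + C : ℝ)) ^ p * B
          < (a + C : ℝ) ^ p * ((1 + (p : ℝ) * (-(C / (a + C : ℝ)))) * A) :=
            mul_lt_mul_of_pos_left h2 (by positivity)
        _ = ((1 + (p : ℝ) * (-(C / (a + C : ℝ)))) * (a + C : ℝ) ^ p) * A := by ring
        _ ≤ (a : ℝ) ^ p * A := mul_le_mul_of_nonneg_right hb (by positivity)
        _ ≤ (a + 1 : ℝ) ^ p * A := by
            apply mul_le_mul_of_nonneg_right _ (by positivity)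
            apply pow_le_pow_left₀ (by positivity)
            linarith
  exact_mod_cast hR

section hh

variable {K : Type} [Field K] {N : ℕ} {Q : Ideal (MvPolynomial (Fin N ⊕ Fin N) K)}

lemma HH_mul_pow (j0 : Fin N) {α β : ℤ} {ω : LA j0 Q} (hω : ω ∈ HH j0 Q α β) (k : ℕ) :
    ω * lp j0 Q (X (Sum.inl j0)) ^ k ∈ HH j0 Q (α + k) β := by
  intro j
  obtain ⟨M, q, hq, hωq⟩ := hω j
  refine ⟨M, q * X (Sum.inl j0) ^ k, isBZ_congr (hq.mul (isBZ_X_pow j0 k)) (by ring) (by ring), ?_⟩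
  rw [map_mul, map_pow, ← hωq]
  ring

/-- the passage to the Hilbert function -/
lemma rank_HH_le_hz {I : Ideal (MvPolynomial (Fin N ⊕ Fin N) K)} (hIQ : I ≤ Q) (hQ : Good Q)
    (j0 : Fin N) {M : ℕ} (hM : ∀ α β : ℤ, 0 ≤ α → ∀ ω ∈ HH j0 Q α β,
      ∃ q, IsBZ q (α + M) β ∧ ω * lp j0 Q (X (Sum.inl j0)) ^ M = lp j0 Q q)
    {a : ℕ} {α β : ℤ} (hα : α ≤ a) {F B : ℕ} (hF : 0 < F) (hB : F * hz I (a + M) β ≤ B) :
    Module.rank K (HH j0 Q α β) ≤ ((B / F : ℕ) : Cardinal) := by
  have hdom := hQ.isDomain j0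
  obtain ⟨k, hk⟩ := Int.eq_ofNat_of_zero_le (by linarith : 0 ≤ (a : ℤ) - α)
  obtain ⟨c, hc⟩ : ∃ c, c = lp j0 Q (X (Sum.inl j0)) ^ (k + M) := ⟨_, rfl⟩
  have hc0 : c ≠ 0 := by rw [hc]; exact pow_ne_zero _ (hQ.lp_ne j0 j0)
  have h1 : (HH j0 Q α β).map (LinearMap.mulRight K c) ≤
      (VB K N (a + M) β).map (lp j0 Q).toLinearMap := by
    rintro _ ⟨ω, hω, rfl⟩
    have h2 := HH_mul_pow j0 hω k
    have h3 : α + (k : ℤ) = a := by rw [← hk]; ring
    rw [h3] at h2
    obtain ⟨q, hq, hωq⟩ := hM _ _ (by positivity) _ h2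
    refine ⟨q, hq, ?_⟩
    rw [LinearMap.mulRight_apply, AlgHom.toLinearMap_apply, ← hωq, hc, pow_add, mul_assoc]
  have h2 : Module.rank K (HH j0 Q α β) =
      Module.rank K ((HH j0 Q α β).map (LinearMap.mulRight K c)) :=
    LinearEquiv.rank_eq (Submodule.equivMapOfInjective _ (by
      intro x y hxy
      exact mul_right_cancel₀ hc0 hxy) _)
  rw [h2]
  refine (Submodule.rank_mono h1).trans ?_
  rw [← finrank_eq_rank, Nat.cast_le]
  have h3 := finrank_map_lp_le hIQ hQ j0 ((a : ℤ) + M) β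
  rw [Nat.le_div_iff_mul_le hF]
  have h4 := (mul_le_mul_of_nonneg_left h3 (by positivity : (0 : ℤ) ≤ F)).trans hB
  rw [mul_comm]
  exact_mod_cast h4

end hh

section neg

variable {N : ℕ} {ι : Type} {d : ι → ℕ} (K : Type) [Field K]
  [Algebra (MvPolynomial (Coef N d) ℚ) K] [IsFractionRing (MvPolynomial (Coef N d) ℚ) K]

/-- the sum of the products of at most `n` of the `d i - 1` -/
noncomputable def sE [Fintype ι] (d : ι → ℕ) (n : ℕ) : ℕ :=
  EE (n + 1) ((Finset.univ : Finset ι).toList.map fun i => d i - 1)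

/-- The bound for the functions on the universal complete intersection. -/
theorem rank_HH_le_sE [Fintype ι] (hd : ∀ i, 2 ≤ d i) {n : ℕ} (hn : 1 ≤ n)
    (hN : N = Fintype.card ι + (n + 1)) (j0 : Fin N) :
    ∃ M : ℕ, ∀ a : ℕ, M ≤ a → ∀ α β : ℤ, α ≤ a → β ≤ a →
      Module.rank K (HH j0 (PK d K j0 Set.univ Set.univ) α β) ≤
        (((∏ i, d i) * sE d n * (a + M) ^ (2 * n) / n.factorial ^ 2 : ℕ) : Cardinal) := by
  classical
  have hA : (Finset.univ : Finset ι).card < N := by rw [Finset.card_univ]; omega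
  have hB : (Finset.univ : Finset ι).card + 1 < N := by rw [Finset.card_univ]; omega
  have e1 : ((Finset.univ : Finset ι) : Set ι) = Set.univ := Finset.coe_univ
  have hgood := good_PK K hd (j := j0) (A := Finset.univ) (B := Finset.univ) hA hB
  rw [e1] at hgood
  have hchar : CharZero K := charZero_of_injective_algebraMap
    (R := MvPolynomial (Coef N d) ℚ) (IsFractionRing.injective _ K)
  obtain ⟨M, hM⟩ := exists_pole_bound (by omega) hgood j0
  obtain ⟨α₀, hα₀⟩ := (nchain_univ K hd j0 (by omega)).hz_eq (by omega)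
  have hle : IK d K Set.univ Set.univ ≤ PK d K j0 Set.univ Set.univ := by
    rw [← sat_IK]
    exact le_sat _ _
  obtain ⟨l, hl⟩ : ∃ l : List ι, l = Finset.univ.toList := ⟨_, rfl⟩
  have hlen : l.length = Fintype.card ι := by rw [hl, Finset.length_toList, Finset.card_univ]
  have hprod : (l.map d).prod = ∏ i, d i := by rw [hl, Finset.prod_map_toList]
  rw [← hl] at hα₀
  obtain ⟨s, hs⟩ : ∃ s : ℕ, s = (l.map d).sum + (l.map fun i => d i - 1).sum := ⟨_, rfl⟩
  refine ⟨M + s + α₀.toNat + (2 * n + 2), fun a ha α β hα hβ => ?_⟩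
  have h1 : α₀ ≤ α₀.toNat := Int.self_le_toNat _
  refine rank_HH_le_hz hle hgood j0 hM hα (by positivity) ?_
  rw [hα₀ _ _ (by
    have : (M + s + α₀.toNat + (2 * n + 2) : ℤ) ≤ a := by exact_mod_cast ha
    have h2 : (0 : ℤ) ≤ s := by positivity
    have h3 : (0 : ℤ) ≤ M := by positivity
    linarith)]
  have h2 : (l.map fun i => (d i - 1, 1)) ++ (l.map fun i => (d i, 0)) =
      ((l.map fun i => d i - 1).map fun e => (e, 1)) ++ ((l.map d).map fun e => (e, 0)) := by
    rw [List.map_map, List.map_map]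
    rfl
  rw [h2]
  have h3 := FF_le (N := N) (n := n) (ds := l.map d) (es := l.map fun i => d i - 1)
    (by rw [List.length_map, hlen]; omega) (by rw [List.length_map, List.length_map])
    (α := (a : ℤ) + M) (β := β) (X := a + (M + s + α₀.toNat + (2 * n + 2))) (by
      have h4 : (s : ℤ) = ((l.map d).sum : ℕ) + ((l.map fun i => d i - 1).sum : ℕ) := by
        rw [hs]; push_cast; ring
      rw [← h4]
      have : (M + s + α₀.toNat + (2 * n + 2) : ℤ) ≤ a := by exact_mod_cast ha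
      have h3 : (0 : ℤ) ≤ M := by positivity
      have h5 : (0 : ℤ) ≤ (α₀.toNat : ℤ) := by positivity
      linarith) (by
      push_cast
      have h5 : (0 : ℤ) ≤ (α₀.toNat : ℤ) := by positivity
      have h6 : (0 : ℤ) ≤ s := by positivity
      linarith) (by
      push_cast
      have h5 : (0 : ℤ) ≤ (α₀.toNat : ℤ) := by positivity
      have h6 : (0 : ℤ) ≤ s := by positivity
      have h7 : (0 : ℤ) ≤ M := by positivity
      linarith)
  refine h3.trans (le_of_eq ?_)
  rw [hprod, sE, ← hl]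
  push_cast
  ring

/-- There are functions of negative degree. -/
theorem exists_negative' [Fintype ι] (hd : ∀ i, 2 ≤ d i) {n : ℕ} (hn : 1 ≤ n)
    (hN : N = Fintype.card ι + (n + 1)) (j0 : Fin N)
    (hnum : 4 ^ Fintype.card ι * sE d n * (N - 1).factorial ^ 2 <
      (2 * Fintype.card ι).factorial * (∏ i, d i) * n.factorial ^ 2) :
    ∃ α β : ℤ, α + β < 0 ∧ ∃ ω ∈ HH j0 (PK d K j0 Set.univ Set.univ) α β, ω ≠ 0 := by
  by_contra hcon
  have h' : ∀ α β : ℤ, α + β < 0 → HH j0 (PK d K j0 Set.univ Set.univ) α β = ⊥ := by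
    intro α β hαβ
    rw [eq_bot_iff]
    intro ω hω
    by_contra hω0
    exact hcon ⟨α, β, hαβ, ω, hω, hω0⟩
  obtain ⟨M, hM⟩ := rank_HH_le_sE K hd hn hN j0
  obtain ⟨m, rfl⟩ : ∃ m, N = m + 1 := ⟨N - 1, by omega⟩
  rw [Nat.add_sub_cancel] at hnum
  obtain ⟨c, hc⟩ : ∃ c, c = Fintype.card ι := ⟨_, rfl⟩
  obtain ⟨s, hs⟩ : ∃ s, s = ∑ i, d i := ⟨_, rfl⟩
  obtain ⟨δ, hδ⟩ : ∃ δ, δ = ∏ i, d i := ⟨_, rfl⟩
  obtain ⟨E, hE⟩ : ∃ E, E = sE d n := ⟨_, rfl⟩
  obtain ⟨f, hf⟩ : ∃ f, f = n.factorial ^ 2 := ⟨_, rfl⟩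
  rw [← hc, ← hδ, ← hE, ← hf] at hnum
  rw [← hc] at hN
  obtain ⟨a, haM, ha⟩ := exists_large_pow hnum (2 * m) (s + M) M
  obtain ⟨ds, hch, hpos, hlen, hprod, hsum⟩ := exists_chain K hd j0 (by omega)
  have h1 := hch.rank_le j0 h' (α₀ := (a : ℤ)) (β₀ := (a : ℤ))
    (fun α β hα hβ => hM a haM α β hα hβ) a a le_rfl le_rfl
  have h2 := (card_le_rank (K := K) j0 a a).trans h1
  rw [Nat.cast_le] at h2
  have h3 := card_Mon_ge m a
  have h4 := cnt_le ds hpos (2 * a)
  rw [hlen, hprod, hsum, ← hc, ← hδ, ← hs] at h4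
  have h5 : ((a : ℤ) + a) = ((2 * a : ℕ) : ℤ) := by push_cast; ring
  rw [h5, ← hδ, ← hE, ← hf] at h2
  obtain ⟨X, hX⟩ : ∃ X, X = cnt ds ((2 * a : ℕ) : ℤ) := ⟨_, rfl⟩
  obtain ⟨Y, hY⟩ : ∃ Y, Y = Fintype.card (Mon (m + 1) a) := ⟨_, rfl⟩
  rw [← hX, ← hY] at h2
  rw [← hY] at h3
  rw [← hX] at h4
  have hδ0 : 0 < δ := by
    rw [hδ]
    exact Finset.prod_pos fun i _ => by have := hd i; omega
  have h7 : (a + 1) ^ (2 * m) ≤ (Y * Y) * m.factorial ^ 2 := by
    calc (a + 1) ^ (2 * m) = (a + 1) ^ m * (a + 1) ^ m := by ring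
      _ ≤ (Y * m.factorial) * (Y * m.factorial) := Nat.mul_le_mul h3 h3
      _ = _ := by ring
  obtain ⟨Z, hZ⟩ : ∃ Z, Z = δ * E * (a + M) ^ (2 * n) / f := ⟨_, rfl⟩
  have hZf : Z * f ≤ δ * E * (a + M) ^ (2 * n) := by
    rw [hZ]
    exact Nat.div_mul_le_self _ _
  rw [← hZ] at h2
  have h8 : δ * ((a + 1) ^ (2 * m) * ((2 * c).factorial * δ * f)) ≤
      δ * ((a + (s + M)) ^ (2 * m) * (4 ^ c * E * m.factorial ^ 2)) := by
    calc δ * ((a + 1) ^ (2 * m) * ((2 * c).factorial * δ * f))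
        ≤ δ * (((X * Z) * m.factorial ^ 2) * ((2 * c).factorial * δ * f)) := by
          gcongr
          exact h7.trans (Nat.mul_le_mul_right _ h2)
      _ = (X * δ ^ 2 * (2 * c).factorial) * ((Z * f) * m.factorial ^ 2) := by
          ring
      _ ≤ (2 * a + 2 * s) ^ (2 * c) * ((δ * E * (a + M) ^ (2 * n)) * m.factorial ^ 2) :=
          Nat.mul_le_mul h4 (Nat.mul_le_mul_right _ hZf)
      _ ≤ (2 * (a + (s + M))) ^ (2 * c) * (δ * E * (a + (s + M)) ^ (2 * n) *
            m.factorial ^ 2) := by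
          gcongr
          · omega
          · omega
      _ = _ := by
          have h9 : m = c + n := by omega
          rw [h9, mul_pow, pow_mul 2 2 c]
          norm_num
          ring
  have h9 := Nat.le_of_mul_le_mul_left h8 hδ0
  omega

end neg

end Pool.Agent.Lib.GGL.CI
end

section

/-!
Certificates: invariant functions of negative degree with universal coefficients.
-/

open MvPolynomial

namespace Pool.Agent.Lib.GGL.CI

section fam

variable {N : ℕ} {ι : Type} {d : ι → ℕ}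

lemma isBi_of_map {R S : Type*} [CommRing R] [CommRing S] {f : R →+* S}
    (hf : Function.Injective f)
    {φ : MvPolynomial (Fin N ⊕ Fin N) R} {a b : ℕ} (h : IsBi (map f φ) a b) : IsBi φ a b := by
  intro m hm
  apply h
  rw [coeff_map]
  intro h0
  exact hm (hf (by rw [h0, map_zero]))

/-- compatible families -/
structure Fam (Q : Ideal (UR N d)) (P : Fin N → UR N d) (a b M : ℕ) : Prop where
  bi : ∀ j, IsBi (P j) a b
  compat : ∀ j k, X (Sum.inl j) ^ M * P k - X (Sum.inl k) ^ M * P j ∈ Q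

lemma Dp_mem_IAB {A B : Set ι} (hBA : B ⊆ A) {q : UR N d} (hq : q ∈ IAB d N A B) :
    Dp q ∈ IAB d N A B := by
  rw [IAB, ← Ideal.span_union] at hq
  induction hq using Submodule.span_induction with
  | mem x hx =>
    rcases hx with ⟨i, hi, rfl⟩ | ⟨i, hi, rfl⟩
    · rw [Dp_gU]; exact Ideal.zero_mem _
    · rw [Dp_dgU]
      exact Ideal.mul_mem_left _ _ (gU_mem_IAB (hBA hi))
  | zero => rw [map_zero]; exact Ideal.zero_mem _
  | add x y _ _ hx hy => rw [map_add]; exact Ideal.add_mem _ hx hy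
  | smul c x hx' hx =>
    rw [smul_eq_mul, Derivation.leibniz, smul_eq_mul, smul_eq_mul]
    apply Ideal.add_mem _ (Ideal.mul_mem_left _ _ hx)
    have : x ∈ IAB d N A B := by
      rw [IAB, ← Ideal.span_union]; exact hx'
    exact Ideal.mul_mem_right _ _ this

lemma Dp_X_pow_mul (j : Fin N) (L : ℕ) (q : UR N d) :
    Dp (X (Sum.inl j) ^ L * q) = X (Sum.inl j) ^ L * Dp q := by
  rw [Derivation.leibniz, Derivation.leibniz_pow, Dp_inl, smul_zero, smul_zero, smul_zero,
    add_zero, smul_eq_mul]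

lemma Dp_mem_PAB {A B : Set ι} (hBA : B ⊆ A) {j : Fin N} {q : UR N d}
    (hq : q ∈ PAB d N j A B) : Dp q ∈ PAB d N j A B := by
  obtain ⟨L, hL⟩ := hq
  refine ⟨L, ?_⟩
  rw [← Dp_X_pow_mul]
  exact Dp_mem_IAB hBA hL

lemma Fam.Dp {A B : Set ι} (hBA : B ⊆ A) {j : Fin N} {P : Fin N → UR N d} {a b M : ℕ}
    (h : Fam (PAB d N j A B) P a (b + 1) M) :
    Fam (PAB d N j A B) (fun k => Dp (P k)) (a + 1) b M where
  bi := fun k => (h.bi k).Dp
  compat := by
    intro k l
    rw [← Dp_X_pow_mul, ← Dp_X_pow_mul, ← map_sub]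
    exact Dp_mem_PAB hBA (h.compat k l)

/-- families of negative degree without tangent directions vanish -/
lemma Fam.mem_of_zero [Fintype ι] (hd : ∀ i, 2 ≤ d i) {n : ℕ} (hn : 1 ≤ n)
    (hN : N = Fintype.card ι + (n + 1)) {j0 : Fin N} {P : Fin N → UR N d} {a M : ℕ}
    (h : Fam (PAB d N j0 Set.univ Set.univ) P a 0 M) (haM : a < M) :
    P j0 ∈ PAB d N j0 Set.univ Set.univ := by
  classical
  obtain ⟨K, _, _, _⟩ : ∃ (K : Type) (_ : Field K) (_ : Algebra (MvPolynomial (Coef N d) ℚ) K),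
      IsFractionRing (MvPolynomial (Coef N d) ℚ) K :=
    ⟨FractionRing (MvPolynomial (Coef N d) ℚ), inferInstance, inferInstance, inferInstance⟩
  have hA : (Finset.univ : Finset ι).card < N := by rw [Finset.card_univ]; omega
  have hB : (Finset.univ : Finset ι).card + 1 < N := by rw [Finset.card_univ]; omega
  obtain ⟨j1, h01⟩ : ∃ j1, j0 ≠ j1 := by
    have : Nontrivial (Fin N) := Fin.nontrivial_iff_two_le.mpr (by omega)
    obtain ⟨j1, h⟩ := exists_ne j0
    exact ⟨j1, h.symm⟩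
  obtain ⟨o, ho⟩ : ∃ o : ι → Fin N, Function.Injective o := by
    have h1 : Fintype.card ι ≤ Fintype.card (Fin N) := by rw [Fintype.card_fin]; omega
    obtain ⟨f⟩ := Function.Embedding.nonempty_of_card_le h1
    exact ⟨f, f.injective⟩
  have hs := sys_fK K hd hn hN h01 ho
  obtain ⟨u, hu⟩ := (isUnit_lp j0 (PK d K j0 Set.univ Set.univ)).pow M
  have hdom := hs.good.isDomain j0
  obtain ⟨ω, hω⟩ : ∃ ω, ω = lp j0 (PK d K j0 Set.univ Set.univ) (mp _ _ K (P j0)) *
    (↑u⁻¹ : LA j0 (PK d K j0 Set.univ Set.univ)) := ⟨_, rfl⟩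
  have hω0 : ω * lp j0 (PK d K j0 Set.univ Set.univ) (X (Sum.inl j0)) ^ M =
      lp j0 (PK d K j0 Set.univ Set.univ) (mp _ _ K (P j0)) := by
    rw [← hu, hω, mul_assoc, Units.inv_mul, mul_one]
  have hmem : ω ∈ HH j0 (PK d K j0 Set.univ Set.univ) ((a : ℤ) - M) ((0 : ℕ) : ℤ) := by
    intro k
    refine ⟨M, mp _ _ K (P k), ?_, ?_⟩
    · rw [sub_add_cancel]
      exact isBZ_iff.mpr (isBi_map _ (h.bi k))
    · have h1 := Ideal.mem_map_of_mem (mp (Fin N ⊕ Fin N) (MvPolynomial (Coef N d) ℚ) K)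
        (h.compat j0 k)
      have h2 := (hs.good.lp_eq_zero j0).mpr h1
      rw [map_sub, map_sub, map_mul, map_mul, map_mul, map_mul, map_pow, map_pow, map_pow,
        map_pow, map_X, map_X, sub_eq_zero, ← hω0] at h2
      apply mul_left_cancel₀ (pow_ne_zero M (hs.good.lp_ne j0 j0))
      rw [h2]
      ring
  rw [hs.HH_eq_bot (by push_cast; omega), Submodule.mem_bot] at hmem
  rw [hmem, zero_mul] at hω0
  have h3 := (hs.good.lp_eq_zero j0).mp hω0.symm
  have e1 : ((Finset.univ : Finset ι) : Set ι) = Set.univ := Finset.coe_univ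
  have h4 := (mem_PK_iff K hd (j := j0) (A := Finset.univ) (B := Finset.univ) hA hB
    (r := P j0)).mp (by rw [e1]; exact h3)
  rwa [e1] at h4

/-- the first family -/
lemma exists_fam [Fintype ι] (hd : ∀ i, 2 ≤ d i) {n : ℕ} (hn : 1 ≤ n)
    (hN : N = Fintype.card ι + (n + 1)) (j0 : Fin N)
    (hnum : 4 ^ Fintype.card ι * sE d n * (N - 1).factorial ^ 2 <
      (2 * Fintype.card ι).factorial * (∏ i, d i) * n.factorial ^ 2) :
    ∃ (P : Fin N → UR N d) (a b M : ℕ), Fam (PAB d N j0 Set.univ Set.univ) P a b M ∧ a + b < M ∧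
      P j0 ∉ PAB d N j0 Set.univ Set.univ := by
  classical
  obtain ⟨K, _, _, _⟩ : ∃ (K : Type) (_ : Field K) (_ : Algebra (MvPolynomial (Coef N d) ℚ) K),
      IsFractionRing (MvPolynomial (Coef N d) ℚ) K :=
    ⟨FractionRing (MvPolynomial (Coef N d) ℚ), inferInstance, inferInstance, inferInstance⟩
  have hA : (Finset.univ : Finset ι).card < N := by rw [Finset.card_univ]; omega
  have hB : (Finset.univ : Finset ι).card + 1 < N := by rw [Finset.card_univ]; omega
  have e1 : ((Finset.univ : Finset ι) : Set ι) = Set.univ := Finset.coe_univ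
  have hgood := good_PK K hd (j := j0) (A := Finset.univ) (B := Finset.univ) hA hB
  have hiff := fun r => mem_PK_iff K hd (j := j0) (A := Finset.univ) (B := Finset.univ) hA hB
    (r := r)
  rw [e1] at hgood hiff
  obtain ⟨α, β, hαβ, ω, hω, hω0⟩ := exists_negative' K hd hn hN j0 hnum
  have hdom := hgood.isDomain j0
  choose M q hq hωq using hω
  obtain ⟨M', hM'⟩ : ∃ M', M' = ∑ j, M j := ⟨_, rfl⟩
  have hle : ∀ j, M j ≤ M' := fun j => by
    rw [hM']
    exact Finset.single_le_sum (fun _ _ => Nat.zero_le _) (Finset.mem_univ j)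
  choose s r hs hr using fun j => exists_clear (R := MvPolynomial (Coef N d) ℚ)
    (X (Sum.inl j) ^ (M' - M j) * q j)
  -- the common denominator
  obtain ⟨S, hS⟩ : ∃ S, S = ∏ j, s j := ⟨_, rfl⟩
  have hS0 : S ∈ nonZeroDivisors (MvPolynomial (Coef N d) ℚ) := by
    rw [hS]
    exact Submonoid.prod_mem _ fun j _ => hs j
  obtain ⟨P, hP⟩ : ∃ P : Fin N → UR N d, ∀ j, mp _ _ K (P j) =
      C (algebraMap _ K S) * (X (Sum.inl j) ^ (M' - M j) * q j) := by
    refine ⟨fun j => C (∏ k ∈ Finset.univ.erase j, s k) * r j, fun j => ?_⟩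
    rw [map_mul, hr, map_C, ← mul_assoc, ← C_mul, ← map_mul, hS]
    congr 3
    rw [mul_comm]
    exact Finset.mul_prod_erase _ _ (Finset.mem_univ j)
  have hωP : ∀ j, lp j0 _ (C (algebraMap _ K S)) *
      (ω * lp j0 (PK d K j0 Set.univ Set.univ) (X (Sum.inl j)) ^ M') =
      lp j0 (PK d K j0 Set.univ Set.univ) (mp _ _ K (P j)) := by
    intro j
    rw [hP, map_mul, map_mul, ← hωq, map_pow]
    have h1 : M' = (M' - M j) + M j := by have := hle j; omega
    conv_lhs => rw [h1, pow_add]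
    ring
  have hCS : lp j0 (PK d K j0 Set.univ Set.univ) (C (algebraMap _ K S)) ≠ 0 := by
    obtain ⟨u, hu⟩ := (isUnit_C (K := K) (σ := Fin N ⊕ Fin N) hS0).map
      (lp j0 (PK d K j0 Set.univ Set.univ))
    rw [← hu]
    exact u.ne_zero
  have hPne : ∀ j, P j ∉ PAB d N j0 Set.univ Set.univ := by
    intro j hj
    rw [← hiff] at hj
    have h1 := (hgood.lp_eq_zero j0).mpr hj
    rw [← hωP] at h1
    exact mul_ne_zero hCS (mul_ne_zero hω0 (pow_ne_zero _ (hgood.lp_ne j0 j))) h1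
  have hbz : ∀ j, IsBZ (mp _ _ K (P j)) (α + M') β := by
    intro j
    rw [hP]
    apply IsWeightedHomogeneous.C_mul
    have hcast : ((M' - M j : ℕ) : ℤ) = (M' : ℤ) - M j := by
      have := hle j
      omega
    exact isBZ_congr ((isBZ_X_pow j _).mul (hq j)) (by rw [hcast]; ring) (by ring)
  have hne0 : mp _ _ K (P j0) ≠ 0 := by
    intro h0
    apply hPne j0
    rw [← hiff, h0]
    exact Ideal.zero_mem _
  obtain ⟨a, b, ha, hb, -⟩ := (hbz j0).exists_nat hne0
  refine ⟨P, a, b, M', ⟨?_, ?_⟩, by omega, hPne j0⟩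
  · intro j
    apply isBi_of_map (IsFractionRing.injective (MvPolynomial (Coef N d) ℚ) K)
    have h1 := hbz j
    rw [ha, hb] at h1
    exact isBZ_iff.mp h1
  · intro j k
    rw [← hiff, ← hgood.lp_eq_zero j0, map_sub, map_sub, map_mul, map_mul, map_mul, map_mul,
      map_pow, map_pow, map_pow, map_pow, map_X, map_X, ← hωP, ← hωP]
    ring

/-- the invariant family -/
lemma Fam.descent [Fintype ι] (hd : ∀ i, 2 ≤ d i) {n : ℕ} (hn : 1 ≤ n)
    (hN : N = Fintype.card ι + (n + 1)) (j0 : Fin N) (b : ℕ) :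
    ∀ {P : Fin N → UR N d} {a M : ℕ}, Fam (PAB d N j0 Set.univ Set.univ) P a b M → a + b < M →
    P j0 ∉ PAB d N j0 Set.univ Set.univ →
    ∃ (P' : Fin N → UR N d) (a' b' M' : ℕ), Fam (PAB d N j0 Set.univ Set.univ) P' a' b' M' ∧
      a' + b' < M' ∧ P' j0 ∉ PAB d N j0 Set.univ Set.univ ∧ 1 ≤ b' ∧
      ∀ j, GGL.Dp (P' j) ∈ PAB d N j0 Set.univ Set.univ := by
  classical
  induction b with
  | zero =>
    intro P a M h hlt hne
    exact absurd (h.mem_of_zero hd hn hN (by omega)) hne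
  | succ b ih =>
    intro P a M h hlt hne
    by_cases hD : GGL.Dp (P j0) ∈ PAB d N j0 Set.univ Set.univ
    · refine ⟨P, a, b + 1, M, h, hlt, hne, by omega, ?_⟩
      intro j
      have h1 := (h.Dp subset_rfl).compat j0 j
      have h2 : X (Sum.inl j0) ^ M * GGL.Dp (P j) ∈ PAB d N j0 Set.univ Set.univ := by
        rw [← sub_add_cancel (X (Sum.inl j0) ^ M * GGL.Dp (P j))
          (X (Sum.inl j) ^ M * GGL.Dp (P j0))]
        exact Ideal.add_mem _ h1 (Ideal.mul_mem_left _ _ hD)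
      exact (nzd_self_sat _ _).pow M _ h2
    · exact ih (h.Dp subset_rfl) (by omega) hD

/-- the certificate, before the change of coordinates -/
theorem exists_cert [Fintype ι] (hd : ∀ i, 2 ≤ d i) {n : ℕ} (hn : 1 ≤ n)
    (hN : N = Fintype.card ι + (n + 1)) (j0 : Fin N)
    (hnum : 4 ^ Fintype.card ι * sE d n * (N - 1).factorial ^ 2 <
      (2 * Fintype.card ι).factorial * (∏ i, d i) * n.factorial ^ 2) :
    ∃ (P : Fin N → UR N d) (a b M : ℕ), Fam (IAB d N Set.univ Set.univ) P a b M ∧ a + b < M ∧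
      1 ≤ b ∧ P j0 ∉ PAB d N j0 Set.univ Set.univ ∧
      ∀ j, GGL.Dp (P j) ∈ IAB d N Set.univ Set.univ := by
  classical
  have hA : (Finset.univ : Finset ι).card < N := by rw [Finset.card_univ]; omega
  have hB : (Finset.univ : Finset ι).card + 1 < N := by rw [Finset.card_univ]; omega
  have e1 : ((Finset.univ : Finset ι) : Set ι) = Set.univ := Finset.coe_univ
  obtain ⟨P₀, a₀, b₀, M₀, h₀, hlt₀, hne₀⟩ := exists_fam hd hn hN j0 hnum
  obtain ⟨P, a, b, M, h, hlt, hne, hb, hD⟩ := h₀.descent hd hn hN j0 b₀ hlt₀ hne₀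
  have heq : ∀ j, PAB d N j0 Set.univ Set.univ = PAB d N j Set.univ Set.univ := by
    intro j
    have := PAB_eq hd j0 j hA Finset.univ hB
    rwa [e1] at this
  -- uniform exponent
  obtain ⟨L1, hL1⟩ : ∃ L, ∀ j k, X (Sum.inl j) ^ L * (X (Sum.inl j) ^ M * P k -
      X (Sum.inl k) ^ M * P j) ∈ IAB d N Set.univ Set.univ := by
    have h1 : ∀ j, ∃ L, ∀ k, X (Sum.inl j) ^ L * (X (Sum.inl j) ^ M * P k -
        X (Sum.inl k) ^ M * P j) ∈ IAB d N Set.univ Set.univ := by
      intro j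
      obtain ⟨L, hL⟩ := exists_uniform Finset.univ (u := (X (Sum.inl j) : UR N d))
        (I := IAB d N Set.univ Set.univ) (f := fun k => X (Sum.inl j) ^ M * P k -
          X (Sum.inl k) ^ M * P j) (fun k _ => by
          have := h.compat j k
          rw [heq j] at this
          exact this)
      exact ⟨L, fun k => hL k (Finset.mem_univ k)⟩
    choose L hL using h1
    refine ⟨∑ j, L j, fun j k => ?_⟩
    have h2 : L j ≤ ∑ j, L j := Finset.single_le_sum (fun _ _ => Nat.zero_le _)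
      (Finset.mem_univ j)
    obtain ⟨e, he⟩ := Nat.exists_eq_add_of_le h2
    rw [he, pow_add, mul_comm (_ ^ L j), mul_assoc]
    exact Ideal.mul_mem_left _ _ (hL j k)
  obtain ⟨L2, hL2⟩ : ∃ L, ∀ j, X (Sum.inl j) ^ L * GGL.Dp (P j) ∈ IAB d N Set.univ Set.univ := by
    have h1 : ∀ j, ∃ L, X (Sum.inl j) ^ L * GGL.Dp (P j) ∈ IAB d N Set.univ Set.univ := by
      intro j
      have := hD j
      rw [heq j] at this
      exact this
    choose L hL using h1
    refine ⟨∑ j, L j, fun j => ?_⟩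
    have h2 : L j ≤ ∑ j, L j := Finset.single_le_sum (fun _ _ => Nat.zero_le _)
      (Finset.mem_univ j)
    obtain ⟨e, he⟩ := Nat.exists_eq_add_of_le h2
    rw [he, pow_add, mul_comm (_ ^ L j), mul_assoc]
    exact Ideal.mul_mem_left _ _ (hL j)
  refine ⟨fun j => X (Sum.inl j) ^ (L1 + L2) * P j, a + (L1 + L2), b, M + (L1 + L2), ⟨?_, ?_⟩,
    by omega, hb, ?_, ?_⟩
  · intro j
    have h1 : IsBi ((X (Sum.inl j) : UR N d) ^ (L1 + L2)) (L1 + L2) 0 :=
      isBZ_iff.mp (isBZ_X_pow j _)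
    have h2 := h1.mul (h.bi j)
    have h3 : ((L1 + L2, 0) + (a, b) : ℕ × ℕ) = (a + (L1 + L2), b) := by
      ext
      · simp [add_comm]
      · simp
    rwa [h3] at h2
  · intro j k
    have h1 : X (Sum.inl j) ^ (M + (L1 + L2)) * (X (Sum.inl k) ^ (L1 + L2) * P k) -
        X (Sum.inl k) ^ (M + (L1 + L2)) * (X (Sum.inl j) ^ (L1 + L2) * P j) =
        (X (Sum.inl j) ^ L2 * X (Sum.inl k) ^ (L1 + L2)) *
        (X (Sum.inl j) ^ L1 * (X (Sum.inl j) ^ M * P k - X (Sum.inl k) ^ M * P j)) := by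
      ring
    rw [h1]
    exact Ideal.mul_mem_left _ _ (hL1 j k)
  · intro h1
    exact hne ((nzd_self_sat _ _).pow _ _ h1)
  · intro j
    rw [Dp_X_pow_mul, pow_add, mul_assoc]
    exact Ideal.mul_mem_left _ _ (hL2 j)

end fam

end Pool.Agent.Lib.GGL.CI
end

section

/-!
Linear changes of the coordinates.
-/

open MvPolynomial

namespace Pool.Agent.Lib.GGL.CI

section lsub

variable {N : ℕ} {S S' : Type*} [CommRing S] [CommRing S']

/-- linear substitution -/
noncomputable def lsub (B : Matrix (Fin N) (Fin N) S) :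
    MvPolynomial (Fin N) S →ₐ[S] MvPolynomial (Fin N) S :=
  aeval fun j => ∑ k, C (B j k) * X k

lemma lsub_X (B : Matrix (Fin N) (Fin N) S) (j : Fin N) :
    lsub B (X j) = ∑ k, C (B j k) * X k := by
  rw [lsub, aeval_X]

lemma lsub_hom (B : Matrix (Fin N) (Fin N) S) {f : MvPolynomial (Fin N) S} {a : ℕ}
    (hf : f.IsHomogeneous a) : (lsub B f).IsHomogeneous a := by
  refine isWeightedHomogeneous_aeval (w := (1 : Fin N → ℕ)) (w' := (1 : Fin N → ℕ)) ?_ hf
  intro j
  apply IsWeightedHomogeneous.sum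
  intro k _
  apply IsWeightedHomogeneous.C_mul
  exact isWeightedHomogeneous_X _ _ _

lemma rename_lsub (B : Matrix (Fin N) (Fin N) S) (f : MvPolynomial (Fin N) S) :
    (rename Sum.inl (lsub B f) : MvPolynomial (Fin N ⊕ Fin N) S) = sub B (rename Sum.inl f) := by
  have h1 : ((rename Sum.inl : MvPolynomial (Fin N) S →ₐ[S] MvPolynomial (Fin N ⊕ Fin N) S)).comp
      (lsub B) = (sub B).comp (rename Sum.inl) := by
    apply algHom_ext
    intro j
    rw [AlgHom.comp_apply, AlgHom.comp_apply, lsub_X, rename_X, sub_inl, map_sum]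
    refine Finset.sum_congr rfl fun k _ => ?_
    rw [map_mul, rename_C, rename_X]
  exact AlgHom.congr_fun h1 f

lemma map_lsub (f : S →+* S') (B : Matrix (Fin N) (Fin N) S) (p : MvPolynomial (Fin N) S) :
    map f (lsub B p) = lsub (B.map f) (map f p) := by
  induction p using MvPolynomial.induction_on with
  | C a =>
    have h1 : lsub B (C a) = C a := by
      rw [← algebraMap_eq, AlgHom.commutes, algebraMap_eq]
    have h2 : lsub (B.map f) (C (f a)) = C (f a) := by
      rw [← algebraMap_eq, AlgHom.commutes, algebraMap_eq]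
    rw [h1, map_C, h2]
  | add p q hp hq => simp only [map_add, hp, hq]
  | mul_X p i hp =>
    rw [map_mul, map_mul, map_mul, map_mul, hp, map_X, lsub_X, lsub_X, map_sum]
    congr 1
    refine Finset.sum_congr rfl fun k _ => ?_
    rw [map_mul, map_C, map_X, Matrix.map_apply]

lemma Dm_C (r : S) : Dm (C r : MvPolynomial (Fin N ⊕ Fin N) S) = 0 := by
  rw [← algebraMap_eq, Derivation.map_algebraMap]

lemma Dm_mul (φ ψ : MvPolynomial (Fin N ⊕ Fin N) S) : Dm (φ * ψ) = φ * Dm ψ + ψ * Dm φ := by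
  rw [Derivation.leibniz, smul_eq_mul, smul_eq_mul]

lemma Dm_sub (B : Matrix (Fin N) (Fin N) S) (φ : MvPolynomial (Fin N ⊕ Fin N) S) :
    Dm (sub B φ) = sub B (Dm φ) := by
  induction φ using MvPolynomial.induction_on with
  | C a =>
    rw [Dm_C, map_zero]
    have : sub B (C a) = C a := by
      rw [← algebraMap_eq, AlgHom.commutes, algebraMap_eq]
    rw [this, Dm_C]
  | add p q hp hq => rw [map_add, map_add, hp, hq, map_add, map_add]
  | mul_X p i hp =>
    rw [map_mul, Dm_mul, Dm_mul, map_add, map_mul, map_mul, hp]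
    congr 2
    rcases i with i | i
    · rw [Dm_inl, sub_inl, sub_inr, map_sum]
      refine Finset.sum_congr rfl fun k _ => ?_
      rw [Dm_mul, Dm_C, Dm_inl, mul_zero, add_zero]
    · rw [Dm_inr, map_zero, sub_inr, map_sum]
      refine Finset.sum_eq_zero fun k _ => ?_
      rw [Dm_mul, Dm_C, Dm_inr, mul_zero, mul_zero, add_zero]

end lsub

section act

variable {N : ℕ} {ι : Type} {d : ι → ℕ} {S S' : Type*} [CommRing S] [CommRing S']

/-- the form with the given coefficients -/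
noncomputable def gp (c : Coef N d → S) (i : ι) : MvPolynomial (Fin N) S :=
  ∑ μ : Mon N (d i), monomial μ.1 (c ⟨i, μ⟩)

lemma gp_hom (c : Coef N d → S) (i : ι) : (gp c i).IsHomogeneous (d i) := by
  apply IsHomogeneous.sum
  intro μ _
  exact isHomogeneous_monomial _ μ.2

lemma coeff_gp (c : Coef N d → S) (i : ι) (μ : Mon N (d i)) :
    coeff μ.1 (gp c i) = c ⟨i, μ⟩ := by
  classical
  rw [gp, coeff_sum, Finset.sum_eq_single μ]
  · rw [coeff_monomial, if_pos rfl]
  · intro ν _ hν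
    rw [coeff_monomial, if_neg]
    intro h
    exact hν (Subtype.ext h)
  · intro h; exact absurd (Finset.mem_univ _) h

lemma map_gp (f : S →+* S') (c : Coef N d → S) (i : ι) :
    map f (gp c i) = gp (fun m => f (c m)) i := by
  rw [gp, gp, map_sum]
  exact Finset.sum_congr rfl fun μ _ => map_monomial _ _ _

/-- the coefficients of the transformed forms -/
noncomputable def act (B : Matrix (Fin N) (Fin N) S) (c : Coef N d → S) (m : Coef N d) : S :=
  coeff m.2.1 (lsub B (gp c m.1))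

lemma gp_act (B : Matrix (Fin N) (Fin N) S) (c : Coef N d → S) (i : ι) :
    gp (act B c) i = lsub B (gp c i) :=
  (hom_as_sum (lsub_hom B (gp_hom c i))).symm

lemma map_act (f : S →+* S') (B : Matrix (Fin N) (Fin N) S) (c : Coef N d → S) (m : Coef N d) :
    f (act B c m) = act (B.map f) (fun m => f (c m)) m := by
  rw [act, act, ← coeff_map, map_lsub, map_gp]

/-- the form, in the ring of the `(x, v)` -/
noncomputable def gs (c : Coef N d → S) (i : ι) : MvPolynomial (Fin N ⊕ Fin N) S :=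
  rename Sum.inl (gp c i)

lemma gs_act (B : Matrix (Fin N) (Fin N) S) (c : Coef N d → S) (i : ι) :
    gs (act B c) i = sub B (gs c i) := by
  rw [gs, gp_act, rename_lsub, gs]

lemma gs_isBi (c : Coef N d → S) (i : ι) : IsBi (gs c i) (d i) 0 := by
  rw [gs, gp, map_sum]
  apply IsWeightedHomogeneous.sum
  intro μ _
  rw [rename_monomial_inl]
  have h1 := xm_isBi (R := S) μ.1
  rw [μ.2] at h1
  have h2 := (isWeightedHomogeneous_C (wt N) (c ⟨i, μ⟩)).mul h1
  rwa [zero_add] at h2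

lemma gs_X (i : ι) : gs (fun m : Coef N d => (X m : MvPolynomial (Coef N d) ℚ)) i = gU d i :=
  rename_fU d i

lemma map_gs (f : S →+* S') (c : Coef N d → S) (i : ι) :
    map f (gs c i) = gs (fun m => f (c m)) i := by
  rw [gs, gs, map_rename, map_gp]

variable [Algebra ℚ S] [Algebra ℚ S']

/-- evaluation of the coefficients -/
noncomputable def evC (c : Coef N d → S) : MvPolynomial (Coef N d) ℚ →+* S :=
  (aeval c : MvPolynomial (Coef N d) ℚ →ₐ[ℚ] S).toRingHom

lemma evC_X (c : Coef N d → S) (m : Coef N d) : evC c (X m) = c m := by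
  show aeval c (X m) = c m
  rw [aeval_X]

lemma evC_ext {c : Coef N d → S} {f : MvPolynomial (Coef N d) ℚ →+* S}
    (h : ∀ m, f (X m) = c m) : f = evC c := by
  apply MvPolynomial.ringHom_ext
  · intro r
    exact ratHom_ext (f.comp C) ((evC c).comp C) r
  · intro m
    rw [h, evC_X]

/-- specialization of the coefficients of a polynomial in `(x, v)` -/
noncomputable def mapC (c : Coef N d → S) : UR N d →+* MvPolynomial (Fin N ⊕ Fin N) S :=
  map (evC c)

lemma mapC_gU (c : Coef N d → S) (i : ι) : mapC c (gU d i) = gs c i := by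
  rw [mapC, ← gs_X, map_gs]
  congr 1
  funext m
  exact evC_X c m

lemma mapC_dgU (c : Coef N d → S) (i : ι) : mapC c (dgU d i) = Dm (gs c i) := by
  rw [dgU_eq, mapC, Dm_map, ← mapC_gU]
  rfl

/-- evaluation at a point -/
noncomputable def evU (c : Coef N d → S) (x v : Fin N → S) : UR N d →+* S :=
  (eval (Sum.elim x v)).comp (mapC c)

lemma evU_apply (c : Coef N d → S) (x v : Fin N → S) (q : UR N d) :
    evU c x v q = eval (Sum.elim x v) (mapC c q) := rfl

lemma evU_inl (c : Coef N d → S) (x v : Fin N → S) (j : Fin N) :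
    evU c x v (X (Sum.inl j)) = x j := by
  rw [evU_apply, mapC, map_X, eval_X, Sum.elim_inl]

lemma evU_inr (c : Coef N d → S) (x v : Fin N → S) (j : Fin N) :
    evU c x v (X (Sum.inr j)) = v j := by
  rw [evU_apply, mapC, map_X, eval_X, Sum.elim_inr]

lemma evU_C (c : Coef N d → S) (x v : Fin N → S) (r : MvPolynomial (Coef N d) ℚ) :
    evU c x v (C r) = evC c r := by
  rw [evU_apply, mapC, map_C, eval_C]

lemma evU_ext {c : Coef N d → S} {x v : Fin N → S} {f : UR N d →+* S}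
    (hc : ∀ m, f (C (X m)) = c m) (hx : ∀ j, f (X (Sum.inl j)) = x j)
    (hv : ∀ j, f (X (Sum.inr j)) = v j) : f = evU c x v := by
  apply MvPolynomial.ringHom_ext
  · intro r
    rw [evU_C]
    exact RingHom.congr_fun (evC_ext (f := f.comp C) hc) r
  · rintro (j | j)
    · rw [hx, evU_inl]
    · rw [hv, evU_inr]

lemma map_evU (f : S →+* S') (c : Coef N d → S) (x v : Fin N → S) (q : UR N d) :
    f (evU c x v q) = evU (fun m => f (c m)) (fun j => f (x j)) (fun j => f (v j)) q := by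
  have h : f.comp (evU c x v) = evU (fun m => f (c m)) (fun j => f (x j)) (fun j => f (v j)) := by
    apply evU_ext
    · intro m
      rw [RingHom.comp_apply, evU_C, evC_X]
    · intro j
      rw [RingHom.comp_apply, evU_inl]
    · intro j
      rw [RingHom.comp_apply, evU_inr]
  exact RingHom.congr_fun h q

lemma evU_gU (c : Coef N d → S) (x v : Fin N → S) (i : ι) :
    evU c x v (gU d i) = eval (Sum.elim x v) (gs c i) := by
  rw [evU_apply, mapC_gU]

lemma evU_dgU (c : Coef N d → S) (x v : Fin N → S) (i : ι) :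
    evU c x v (dgU d i) = eval (Sum.elim x v) (Dm (gs c i)) := by
  rw [evU_apply, mapC_dgU]

lemma evU_gU_act (B : Matrix (Fin N) (Fin N) S) (c : Coef N d → S) (x v : Fin N → S) (i : ι) :
    evU (act B c) x v (gU d i) = evU c (B.mulVec x) (B.mulVec v) (gU d i) := by
  rw [evU_gU, evU_gU, gs_act, eval_sub]

lemma evU_dgU_act (B : Matrix (Fin N) (Fin N) S) (c : Coef N d → S) (x v : Fin N → S) (i : ι) :
    evU (act B c) x v (dgU d i) = evU c (B.mulVec x) (B.mulVec v) (dgU d i) := by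
  rw [evU_dgU, evU_dgU, gs_act, Dm_sub, eval_sub]

end act

section gam

variable {N : ℕ} {ι : Type} {d : ι → ℕ}

/-- the rational matrix with entries in the ring of coefficients -/
noncomputable abbrev ratM (S : Type*) [CommRing S] [Algebra ℚ S] (B : Matrix (Fin N) (Fin N) ℚ) :
    Matrix (Fin N) (Fin N) S := B.map (algebraMap ℚ S)

lemma ratM_map {S S' : Type*} [CommRing S] [CommRing S'] [Algebra ℚ S] [Algebra ℚ S']
    (f : S →+* S') (B : Matrix (Fin N) (Fin N) ℚ) : (ratM S B).map f = ratM S' B := by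
  refine Matrix.ext fun i k => ?_
  show f (algebraMap ℚ S (B i k)) = algebraMap ℚ S' (B i k)
  exact ratHom_ext (f.comp (algebraMap ℚ S)) (algebraMap ℚ S') _

/-- the transformation of the coefficients -/
noncomputable def th (d : ι → ℕ) (B : Matrix (Fin N) (Fin N) ℚ) :
    MvPolynomial (Coef N d) ℚ →+* MvPolynomial (Coef N d) ℚ :=
  evC (act (ratM (MvPolynomial (Coef N d) ℚ) B) fun m => X m)

/-- the transformation of the universal ring -/
noncomputable def Gam (d : ι → ℕ) (B : Matrix (Fin N) (Fin N) ℚ) : UR N d →+* UR N d :=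
  (sub (ratM (MvPolynomial (Coef N d) ℚ) B)).toRingHom.comp (map (th d B.adjugate))

lemma Gam_apply (B : Matrix (Fin N) (Fin N) ℚ) (q : UR N d) :
    Gam d B q = sub (ratM (MvPolynomial (Coef N d) ℚ) B) (map (th d B.adjugate) q) := rfl

lemma Gam_Dp (B : Matrix (Fin N) (Fin N) ℚ) (q : UR N d) : Dp (Gam d B q) = Gam d B (Dp q) := by
  rw [Gam_apply, Gam_apply, Dp_sub, map_Dp]

lemma Gam_isBi (B : Matrix (Fin N) (Fin N) ℚ) {q : UR N d} {a b : ℕ} (h : IsBi q a b) :
    IsBi (Gam d B q) a b := by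
  rw [Gam_apply]
  exact (h.map _).sub _

lemma Gam_inl (B : Matrix (Fin N) (Fin N) ℚ) (j : Fin N) :
    Gam d B (X (Sum.inl j)) = ∑ k, C (algebraMap ℚ _ (B j k)) * X (Sum.inl k) := by
  rw [Gam_apply, map_X, sub_inl]
  rfl

lemma map_th (B : Matrix (Fin N) (Fin N) ℚ) (i : ι) :
    map (th d B) (gU d i) = sub (ratM (MvPolynomial (Coef N d) ℚ) B) (gU (N := N) d i) := by
  rw [← gs_X, map_gs, ← gs_act]
  congr 1
  funext m
  exact evC_X _ m

lemma Gam_gU (B : Matrix (Fin N) (Fin N) ℚ) (i : ι) :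
    Gam d B (gU d i) = C (algebraMap ℚ _ B.det ^ (d i)) * gU d i := by
  rw [Gam_apply, map_th, sub_sub]
  have h1 : ratM (MvPolynomial (Coef N d) ℚ) B.adjugate * ratM (MvPolynomial (Coef N d) ℚ) B =
      algebraMap ℚ (MvPolynomial (Coef N d) ℚ) B.det • (1 : Matrix (Fin N) (Fin N) _) := by
    rw [ratM, ratM, ← Matrix.map_mul, Matrix.adjugate_mul]
    refine Matrix.ext fun i k => ?_
    rw [Matrix.map_apply, Matrix.smul_apply, Matrix.smul_apply, smul_eq_mul, smul_eq_mul,
      Matrix.one_apply, Matrix.one_apply]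
    split_ifs <;> simp
  rw [h1, sub_smul_one (gU_isBi d i), add_zero]

lemma Gam_dgU (B : Matrix (Fin N) (Fin N) ℚ) (i : ι) :
    Gam d B (dgU d i) = C (algebraMap ℚ _ B.det ^ (d i)) * dgU d i := by
  rw [dgU_eq, Gam_apply, Dm_map, ← Dm_sub, ← Gam_apply, Gam_gU, Dm_C_mul]

lemma Gam_mem_IAB (B : Matrix (Fin N) (Fin N) ℚ) {A A' : Set ι} {q : UR N d}
    (hq : q ∈ IAB d N A A') : Gam d B q ∈ IAB d N A A' := by
  have h1 : IAB d N A A' ≤ (IAB d N A A').comap (Gam d B) := by
    conv_lhs => rw [IAB]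
    rw [sup_le_iff, Ideal.span_le, Ideal.span_le]
    constructor
    · rintro _ ⟨i, hi, rfl⟩
      rw [SetLike.mem_coe, Ideal.mem_comap, Gam_gU]
      exact Ideal.mul_mem_left _ _ (gU_mem_IAB hi)
    · rintro _ ⟨i, hi, rfl⟩
      rw [SetLike.mem_coe, Ideal.mem_comap, Gam_dgU]
      exact Ideal.mul_mem_left _ _ (dgU_mem_IAB hi)
  exact h1 hq

variable {S : Type*} [CommRing S] [Algebra ℚ S]

lemma evC_th (B : Matrix (Fin N) (Fin N) ℚ) (c : Coef N d → S) :
    (evC c).comp (th d B) = evC (act (ratM S B) c) := by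
  apply evC_ext
  intro m
  rw [RingHom.comp_apply, th, evC_X, map_act]
  rw [ratM_map]
  congr 1
  funext m
  exact evC_X c m

lemma evU_Gam (B : Matrix (Fin N) (Fin N) ℚ) (c : Coef N d → S) (x v : Fin N → S)
    (q : UR N d) : evU c x v (Gam d B q) =
      evU (act (ratM S B.adjugate) c) ((ratM S B).mulVec x) ((ratM S B).mulVec v) q := by
  rw [evU_apply, Gam_apply, mapC, map_sub_comm, eval_sub, map_map, evC_th, evU_apply, mapC]
  rw [ratM_map]

end gam

end Pool.Agent.Lib.GGL.CI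
end

section

/-!
The coefficients of the forms vanishing at a point, with their differentials at a vector.
-/

open MvPolynomial

namespace Pool.Agent.Lib.GGL.CI

lemma hom_eval {σ S S' : Type*} [CommRing S] [CommRing S'] (f : S →+* S') (y : σ → S)
    (φ : MvPolynomial σ S) : f (eval y φ) = eval (fun t => f (y t)) (map f φ) := by
  rw [eval_map, eval₂_comp]
  rfl

section par

variable {N : ℕ} {ι : Type} {d : ι → ℕ}

/-- the free coefficients -/
def isFree (d : ι → ℕ) (i0 i1 : Fin N) (m : Coef N d) : Prop :=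
  m.2.1 ≠ mu (d m.1) i0 i0 ∧ m.2.1 ≠ mu (d m.1) i0 i1

variable {S S' : Type*} [CommRing S] [CommRing S']

/-- the value of the monomial -/
noncomputable def al (x v : Fin N → S) (μ : Fin N →₀ ℕ) : S := eval (Sum.elim x v) (xm S μ)

/-- the value of the differential of the monomial -/
noncomputable def be (x v : Fin N → S) (μ : Fin N →₀ ℕ) : S := eval (Sum.elim x v) (Dm (xm S μ))

lemma map_al (f : S →+* S') (x v : Fin N → S) (μ : Fin N →₀ ℕ) :
    f (al x v μ) = al (fun j => f (x j)) (fun j => f (v j)) μ := by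
  rw [al, al, hom_eval, map_xm]
  congr 2
  funext t
  rcases t with t | t <;> rfl

lemma map_be (f : S →+* S') (x v : Fin N → S) (μ : Fin N →₀ ℕ) :
    f (be x v μ) = be (fun j => f (x j)) (fun j => f (v j)) μ := by
  rw [be, be, hom_eval, Dm_map, map_xm]
  congr 2
  funext t
  rcases t with t | t <;> rfl

lemma eval_gs (c : Coef N d → S) (x v : Fin N → S) (i : ι) :
    eval (Sum.elim x v) (gs c i) = ∑ μ : Mon N (d i), c ⟨i, μ⟩ * al x v μ.1 := by
  rw [gs, gp, map_sum, map_sum]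
  refine Finset.sum_congr rfl fun μ _ => ?_
  rw [rename_monomial_inl, map_mul, eval_C, al]

lemma eval_Dm_gs (c : Coef N d → S) (x v : Fin N → S) (i : ι) :
    eval (Sum.elim x v) (Dm (gs c i)) = ∑ μ : Mon N (d i), c ⟨i, μ⟩ * be x v μ.1 := by
  rw [gs, gp, map_sum, map_sum, map_sum]
  refine Finset.sum_congr rfl fun μ _ => ?_
  rw [rename_monomial_inl, Dm_C_mul, map_mul, eval_C, be]

/-- normalized pairs -/
structure Nrm (i0 i1 : Fin N) (x v : Fin N → S) : Prop where
  x0 : x i0 = 1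
  v0 : v i0 = 0
  v1 : v i1 = 1

variable {i0 i1 : Fin N} {x v : Fin N → S}

lemma Nrm.map (h : Nrm i0 i1 x v) (f : S →+* S') :
    Nrm i0 i1 (fun j => f (x j)) (fun j => f (v j)) where
  x0 := by rw [h.x0, map_one]
  v0 := by rw [h.v0, map_zero]
  v1 := by rw [h.v1, map_one]

lemma Nrm.al_mu (h : Nrm i0 i1 x v) (k : ℕ) (b : Fin N) : al x v (mu k i0 b) = x b := by
  rw [al, xm_mu, map_mul, map_pow, eval_X, eval_X, Sum.elim_inl, Sum.elim_inl, h.x0, one_pow,
    one_mul]

lemma Nrm.be_mu (h : Nrm i0 i1 x v) (k : ℕ) (b : Fin N) : be x v (mu k i0 b) = v b := by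
  rw [be, xm_mu, Dm_mul, Dm_inl, Derivation.leibniz_pow, Dm_inl, map_add, map_mul, map_mul,
    map_pow, eval_X, eval_X, eval_X]
  simp only [Sum.elim_inl, Sum.elim_inr, h.x0, one_pow, one_mul, smul_eq_mul, nsmul_eq_mul,
    map_mul, eval_X, h.v0, mul_zero, add_zero]

open Classical in
lemma sum_split (h01 : i0 ≠ i1) (hd : ∀ i, 1 ≤ d i) (c : Coef N d → S) (w : (Fin N →₀ ℕ) → S)
    (i : ι) : ∑ μ : Mon N (d i), c ⟨i, μ⟩ * w μ.1 =
      (∑ μ : Mon N (d i), if isFree d i0 i1 ⟨i, μ⟩ then c ⟨i, μ⟩ * w μ.1 else 0) +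
      (c ⟨i, ⟨mu (d i) i0 i0, degree_mu (hd i) _ _⟩⟩ * w (mu (d i) i0 i0) +
      c ⟨i, ⟨mu (d i) i0 i1, degree_mu (hd i) _ _⟩⟩ * w (mu (d i) i0 i1)) := by
  have hne : (⟨mu (d i) i0 i0, degree_mu (hd i) _ _⟩ : Mon N (d i)) ≠
      ⟨mu (d i) i0 i1, degree_mu (hd i) _ _⟩ := by
    intro h
    exact mu_ne _ h01.symm (congrArg Subtype.val h).symm
  have h1 : ∀ μ : Mon N (d i), c ⟨i, μ⟩ * w μ.1 =
      (if isFree d i0 i1 ⟨i, μ⟩ then c ⟨i, μ⟩ * w μ.1 else 0) +
      (if isFree d i0 i1 ⟨i, μ⟩ then 0 else c ⟨i, μ⟩ * w μ.1) := by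
    intro μ
    split_ifs <;> ring
  rw [Finset.sum_congr rfl fun μ _ => h1 μ, Finset.sum_add_distrib]
  congr 1
  rw [Finset.sum_eq_add _ _ hne]
  · rw [if_neg (fun h : isFree d i0 i1 _ => h.1 rfl), if_neg (fun h : isFree d i0 i1 _ => h.2 rfl)]
  · rintro μ - ⟨h2, h3⟩
    rw [if_pos]
    exact ⟨fun h => h2 (Subtype.ext h), fun h => h3 (Subtype.ext h)⟩
  · intro h; exact absurd (Finset.mem_univ _) h
  · intro h; exact absurd (Finset.mem_univ _) h

open Classical in
/-- the sum over the free coefficients -/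
noncomputable def fs (i0 i1 : Fin N) (c : Coef N d → S) (w : (Fin N →₀ ℕ) → S) (i : ι) : S :=
  ∑ μ : Mon N (d i), if isFree d i0 i1 ⟨i, μ⟩ then c ⟨i, μ⟩ * w μ.1 else 0

open Classical in
/-- the coefficients determined by the free ones -/
noncomputable def full (i0 i1 : Fin N) (x v : Fin N → S) (c : Coef N d → S) (m : Coef N d) : S :=
  if isFree d i0 i1 m then c m
  else if m.2.1 = mu (d m.1) i0 i1 then - fs i0 i1 c (be x v) m.1
  else fs i0 i1 c (be x v) m.1 * x i1 - fs i0 i1 c (al x v) m.1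

lemma fs_map (f : S →+* S') (c : Coef N d → S) (w : (Fin N →₀ ℕ) → S) (i : ι) :
    f (fs i0 i1 c w i) = fs i0 i1 (fun m => f (c m)) (fun μ => f (w μ)) i := by
  classical
  rw [fs, fs, map_sum]
  refine Finset.sum_congr rfl fun μ _ => ?_
  split_ifs
  · rw [map_mul]
  · rw [map_zero]

lemma full_map (f : S →+* S') (x v : Fin N → S) (c : Coef N d → S) (m : Coef N d) :
    f (full i0 i1 x v c m) =
      full i0 i1 (fun j => f (x j)) (fun j => f (v j)) (fun m => f (c m)) m := by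
  classical
  have h1 : (fun μ => f (be x v μ)) = be (fun j => f (x j)) (fun j => f (v j)) := by
    funext μ; exact map_be f x v μ
  have h2 : (fun μ => f (al x v μ)) = al (fun j => f (x j)) (fun j => f (v j)) := by
    funext μ; exact map_al f x v μ
  rw [full, full]
  split_ifs
  · rfl
  · rw [map_neg, fs_map, h1]
  · rw [map_sub, map_mul, fs_map, fs_map, h1, h2]

lemma fs_congr {c c' : Coef N d → S} (h : ∀ m, isFree d i0 i1 m → c m = c' m)
    (w : (Fin N →₀ ℕ) → S) (i : ι) : fs i0 i1 c w i = fs i0 i1 c' w i := by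
  classical
  rw [fs, fs]
  refine Finset.sum_congr rfl fun μ _ => ?_
  split_ifs with h1
  · rw [h _ h1]
  · rfl

lemma full_congr {c c' : Coef N d → S} (h : ∀ m, isFree d i0 i1 m → c m = c' m) :
    full i0 i1 x v c = full i0 i1 x v c' := by
  classical
  funext m
  rw [full, full, fs_congr h, fs_congr h]
  split_ifs with h1
  · exact h m h1
  · rfl
  · rfl

/-- the coefficients of the forms vanishing at the point are determined by the free ones -/
lemma Nrm.full_eq (h : Nrm i0 i1 x v) (h01 : i0 ≠ i1) (hd : ∀ i, 1 ≤ d i) {c : Coef N d → S}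
    (h1 : ∀ i, eval (Sum.elim x v) (gs c i) = 0)
    (h2 : ∀ i, eval (Sum.elim x v) (Dm (gs c i)) = 0) : full i0 i1 x v c = c := by
  classical
  funext m
  obtain ⟨i, μ, hμ⟩ := m
  have e1 := h1 i
  have e2 := h2 i
  rw [eval_gs, sum_split h01 hd c (al x v) i, h.al_mu, h.al_mu, h.x0, mul_one] at e1
  rw [eval_Dm_gs, sum_split h01 hd c (be x v) i, h.be_mu, h.be_mu, h.v0, h.v1, mul_zero,
    mul_one, zero_add] at e2
  change fs i0 i1 c (al x v) i + _ = 0 at e1
  change fs i0 i1 c (be x v) i + _ = 0 at e2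
  rw [full]
  split_ifs with hf hm
  · rfl
  · simp only at hm
    subst hm
    linear_combination (-1 : S) * e2
  · have hm0 : μ = mu (d i) i0 i0 := by
      by_contra hcon
      exact hf ⟨hcon, hm⟩
    subst hm0
    simp only
    linear_combination (-1 : S) * e1 + x i1 * e2

end par

end Pool.Agent.Lib.GGL.CI
end
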