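import Mathlib
import Pool.Agent.Lib.MP_8d161d_ag.Mg.G034
import Pool.Agent.Lib.MP_8d161d_ag.Mg.G032
import Pool.Agent.Lib.MP_8d161d_ag.Mg.G031
import Pool.Agent.Lib.MP_8d161d_ag.Mg.G039
import Pool.Agent.Lib.MP_8d161d_ag.Mg.G029
import Pool.Agent.Lib.MP_8d161d_ag.Cover

section

/-!
Non-vanishing of a transformed certificate at a given point.
-/

open MvPolynomial

open scoped TensorProduct

namespace Pool.Agent.Lib.GGL.CI

/-- two fields of characteristic zero have a common extension -/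
lemma exists_common (L Ω : Type) [Field L] [Field Ω] [Algebra ℚ L] [Algebra ℚ Ω] :
    ∃ (E : Type) (_ : Field E) (_ : Algebra ℚ E) (_ : L →+* E), Nonempty (Ω →+* E) := by
  have : Nontrivial (L ⊗[ℚ] Ω) :=
    Algebra.TensorProduct.nontrivial_of_algebraMap_injective_of_flat_left ℚ L Ω
      (algebraMap ℚ Ω).injective
  obtain ⟨I, hI⟩ := Ideal.exists_maximal (L ⊗[ℚ] Ω)
  let _ := Ideal.Quotient.field I
  refine ⟨(L ⊗[ℚ] Ω) ⧸ I, inferInstance, inferInstance,
    (Ideal.Quotient.mk I).comp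
      (Algebra.TensorProduct.includeLeft : L →ₐ[ℚ] L ⊗[ℚ] Ω).toRingHom,
    ⟨(Ideal.Quotient.mk I).comp
      (Algebra.TensorProduct.includeRight : Ω →ₐ[ℚ] L ⊗[ℚ] Ω).toRingHom⟩⟩

section mat

variable {N : ℕ} {K : Type} [Field K]

open Classical in
/-- a matrix sending the basis vectors `i0`, `i1` to the given vectors -/
noncomputable def fr (i0 i1 : Fin N) (x v : Fin N → K) : Matrix (Fin N) (Fin N) K :=
  Matrix.of fun k l => if l = i0 then x k else if l = i1 then v k else if k = l then 1 else 0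

lemma fr_mulVec {i0 i1 : Fin N} (h01 : i0 ≠ i1) (x v : Fin N → K) (w : Fin N → K) (k : Fin N) :
    (fr i0 i1 x v).mulVec w k = x k * w i0 + v k * w i1 + if k = i0 ∨ k = i1 then 0 else w k := by
  classical
  rw [Matrix.mulVec, dotProduct]
  have h1 : ∀ l, fr i0 i1 x v k l * w l = (if l = i0 then x k * w i0 else 0) +
      (if l = i1 then v k * w i1 else 0) +
      (if l = k then (if k = i0 ∨ k = i1 then 0 else w k) else 0) := by
    intro l
    rw [fr, Matrix.of_apply]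
    by_cases hl0 : l = i0
    · subst hl0
      rw [if_pos rfl, if_pos rfl, if_neg h01]
      by_cases hlk : l = k
      · subst hlk
        simp
      · rw [if_neg hlk]; ring
    · by_cases hl1 : l = i1
      · subst hl1
        rw [if_neg hl0, if_pos rfl, if_neg hl0, if_pos rfl]
        by_cases hlk : l = k
        · subst hlk
          simp
        · rw [if_neg hlk]; ring
      · rw [if_neg hl0, if_neg hl1, if_neg hl0, if_neg hl1]
        by_cases hlk : l = k
        · subst hlk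
          rw [if_pos rfl, if_pos rfl, if_neg (by tauto)]
          ring
        · rw [if_neg hlk, if_neg (fun h => hlk h.symm)]
          ring
  rw [Finset.sum_congr rfl fun l _ => h1 l, Finset.sum_add_distrib, Finset.sum_add_distrib,
    Finset.sum_ite_eq' Finset.univ i0 (fun _ => x k * w i0),
    Finset.sum_ite_eq' Finset.univ i1 (fun _ => v k * w i1),
    Finset.sum_ite_eq' Finset.univ k (fun _ => if k = i0 ∨ k = i1 then 0 else w k),
    if_pos (Finset.mem_univ _), if_pos (Finset.mem_univ _), if_pos (Finset.mem_univ _)]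

lemma fr_det_ne {i0 i1 : Fin N} (h01 : i0 ≠ i1) {x v : Fin N → K}
    (h : x i0 * v i1 - x i1 * v i0 ≠ 0) : (fr i0 i1 x v).det ≠ 0 := by
  classical
  rw [Ne, ← Matrix.exists_mulVec_eq_zero_iff]
  rintro ⟨w, hw, hw0⟩
  have e := fun k => congrFun hw0 k
  have e0 := e i0
  have e1 := e i1
  rw [fr_mulVec h01, if_pos (Or.inl rfl), add_zero, Pi.zero_apply] at e0
  rw [fr_mulVec h01, if_pos (Or.inr rfl), add_zero, Pi.zero_apply] at e1
  have hw0' : w i0 = 0 := by
    apply (mul_eq_zero.mp (_ : (x i0 * v i1 - x i1 * v i0) * w i0 = 0)).resolve_left h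
    linear_combination v i1 * e0 - v i0 * e1
  have hw1' : w i1 = 0 := by
    apply (mul_eq_zero.mp (_ : (x i0 * v i1 - x i1 * v i0) * w i1 = 0)).resolve_left h
    linear_combination x i0 * e1 - x i1 * e0
  apply hw
  funext k
  rw [Pi.zero_apply]
  by_cases hk : k = i0 ∨ k = i1
  · rcases hk with rfl | rfl
    · exact hw0'
    · exact hw1'
  · have ek := e k
    rw [fr_mulVec h01, if_neg hk, hw0', hw1', mul_zero, mul_zero, zero_add, zero_add,
      Pi.zero_apply] at ek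
    exact ek

/-- an invertible matrix sending a pair to another one -/
lemma exists_matrix {i0 i1 : Fin N} (h01 : i0 ≠ i1) {x v x' v' : Fin N → K}
    (h : x i0 * v i1 - x i1 * v i0 ≠ 0) (h' : x' i0 * v' i1 - x' i1 * v' i0 ≠ 0) :
    ∃ B : Matrix (Fin N) (Fin N) K, B.det ≠ 0 ∧ B.mulVec x = x' ∧ B.mulVec v = v' := by
  classical
  have hd := fr_det_ne h01 h
  have hd' := fr_det_ne h01 h'
  have hu : IsUnit (fr i0 i1 x v).det := isUnit_iff_ne_zero.mpr hd
  have e0 : ∀ x v : Fin N → K, (fr i0 i1 x v).mulVec (Pi.single i0 1) = x := by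
    intro x v
    funext k
    rw [fr_mulVec h01, Pi.single_eq_same, Pi.single_eq_of_ne h01.symm]
    split_ifs with hk
    · ring
    · rw [Pi.single_eq_of_ne (fun h => hk (Or.inl h))]
      ring
  have e1 : ∀ x v : Fin N → K, (fr i0 i1 x v).mulVec (Pi.single i1 1) = v := by
    intro x v
    funext k
    rw [fr_mulVec h01, Pi.single_eq_same, Pi.single_eq_of_ne h01]
    split_ifs with hk
    · ring
    · rw [Pi.single_eq_of_ne (fun h => hk (Or.inr h))]
      ring
  refine ⟨fr i0 i1 x' v' * (fr i0 i1 x v)⁻¹, ?_, ?_, ?_⟩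
  · rw [Matrix.det_mul]
    apply mul_ne_zero hd'
    rw [Matrix.det_nonsing_inv, Ring.inverse_eq_inv']
    exact inv_ne_zero hd
  · have h1 : (fr i0 i1 x v)⁻¹.mulVec x = Pi.single i0 1 := by
      conv_lhs => rw [← e0 x v]
      rw [Matrix.mulVec_mulVec, e0, Matrix.nonsing_inv_mul _ hu, Matrix.one_mulVec]
    rw [← Matrix.mulVec_mulVec, h1, e0]
  · have h1 : (fr i0 i1 x v)⁻¹.mulVec v = Pi.single i1 1 := by
      conv_lhs => rw [← e1 x v]
      rw [Matrix.mulVec_mulVec, e1, Matrix.nonsing_inv_mul _ hu, Matrix.one_mulVec]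
    rw [← Matrix.mulVec_mulVec, h1, e1]

end mat

section scale

variable {N : ℕ} {ι : Type} {d : ι → ℕ} {S : Type*} [CommRing S]

lemma gs_injective {c c' : Coef N d → S} (h : ∀ i, gs c i = gs c' i) : c = c' := by
  funext m
  obtain ⟨i, μ⟩ := m
  have h1 : gp c i = gp c' i := rename_injective _ Sum.inl_injective (h i)
  rw [← coeff_gp c i μ, ← coeff_gp c' i μ, h1]

lemma gs_smul (r : ι → S) (c : Coef N d → S) (i : ι) :
    gs (fun m => r m.1 * c m) i = C (r i) * gs c i := by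
  rw [gs, gs, gp, gp, map_sum, map_sum, Finset.mul_sum]
  refine Finset.sum_congr rfl fun μ _ => ?_
  rw [rename_monomial_inl, rename_monomial_inl, C_mul, mul_assoc]

lemma sub_C_mul (B : Matrix (Fin N) (Fin N) S) (r : S) (φ : MvPolynomial (Fin N ⊕ Fin N) S) :
    sub B (C r * φ) = C r * sub B φ := by
  rw [map_mul, ← algebraMap_eq, AlgHom.commutes]

/-- transforming back -/
lemma act_adj (B : Matrix (Fin N) (Fin N) S) (c : Coef N d → S) (s : S) (hs : s * B.det = 1) :
    act B.adjugate (fun m => s ^ (d m.1) * act B c m) = c := by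
  apply gs_injective
  intro i
  rw [gs_act, gs_smul (fun i => s ^ d i), gs_act, sub_C_mul, sub_sub, Matrix.mul_adjugate,
    sub_smul_one (gs_isBi c i), add_zero, ← mul_assoc, ← C_mul, ← mul_pow, hs, one_pow, C_1,
    one_mul]

end scale

section main

variable {N : ℕ} {ι : Type} {d : ι → ℕ}

/-- polynomial dependence on the matrix -/
lemma exists_poly {E : Type} [Field E] [Algebra ℚ E] (c : Coef N d → E) (x v : Fin N → E)
    (P : UR N d) : ∃ Ψ : MvPolynomial (Fin N × Fin N) E, ∀ B : Matrix (Fin N) (Fin N) E,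
      eval (fun t => B t.1 t.2) Ψ =
        evU (act B.adjugate c) (B.mulVec x) (B.mulVec v) P := by
  refine ⟨evU (act (Matrix.mvPolynomialX (Fin N) (Fin N) E).adjugate fun m => C (c m))
    ((Matrix.mvPolynomialX (Fin N) (Fin N) E).mulVec fun j => C (x j))
    ((Matrix.mvPolynomialX (Fin N) (Fin N) E).mulVec fun j => C (v j)) P, fun B => ?_⟩
  have hB : (Matrix.mvPolynomialX (Fin N) (Fin N) E).map (eval fun t => B t.1 t.2) = B := by
    refine Matrix.ext fun i k => ?_
    rw [Matrix.map_apply, Matrix.mvPolynomialX_apply, eval_X]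
  have hadj : (Matrix.mvPolynomialX (Fin N) (Fin N) E).adjugate.map (eval fun t => B t.1 t.2) =
      B.adjugate := by
    have h1 := RingHom.map_adjugate (eval fun t : Fin N × Fin N => B t.1 t.2)
      (Matrix.mvPolynomialX (Fin N) (Fin N) E)
    rw [RingHom.mapMatrix_apply, RingHom.mapMatrix_apply, hB] at h1
    exact h1
  have hvec : ∀ y : Fin N → E, (fun j => eval (fun t : Fin N × Fin N => B t.1 t.2)
      ((Matrix.mvPolynomialX (Fin N) (Fin N) E).mulVec (fun j => C (y j)) j)) = B.mulVec y := by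
    intro y
    funext j
    rw [Matrix.mulVec, dotProduct, map_sum, Matrix.mulVec, dotProduct]
    refine Finset.sum_congr rfl fun k _ => ?_
    rw [map_mul, Matrix.mvPolynomialX_apply, eval_X, eval_C]
  rw [map_evU, hvec, hvec]
  congr 2
  funext m
  rw [map_act, hadj]
  congr 1
  funext m
  exact eval_C _

/-- Non-vanishing of a transformed certificate at a given point. -/
theorem exists_transform [Fintype ι] (hd : ∀ i, 2 ≤ d i) (hN : Fintype.card ι + 1 < N)
    {i0 i1 : Fin N} (h01 : i0 ≠ i1) {P : UR N d} (hP : P ∉ PAB d N i0 Set.univ Set.univ)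
    {L : Type} [Field L] [CharZero L] (F : Subalgebra ℚ L) {x v : Fin N → F}
    (hxv : Nrm i0 i1 x v) {c : Coef N d → L}
    (hg : ∀ i, evU c (fun j => (x j : L)) (fun j => (v j : L)) (gU d i) = 0)
    (hdg : ∀ i, evU c (fun j => (x j : L)) (fun j => (v j : L)) (dgU d i) = 0)
    (hind : AlgebraicIndependent F fun m : {m : Coef N d // isFree d i0 i1 m} => c m) :
    ∃ B : Matrix (Fin N) (Fin N) ℚ, B.det ≠ 0 ∧
      evU c (fun j => (x j : L)) (fun j => (v j : L)) (Gam d B P) ≠ 0 := by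
  classical
  by_contra hcon
  push Not at hcon
  have hd1 := one_le_of_two_le hd
  have hcard : (Finset.univ : Finset ι).card < N := by rw [Finset.card_univ]; omega
  have hcard' : (Finset.univ : Finset ι).card + 1 < N := by rw [Finset.card_univ]; omega
  have e1 : ((Finset.univ : Finset ι) : Set ι) = Set.univ := Finset.coe_univ
  have hprime := prime_PAB hd i0 hcard Finset.univ hcard'
  rw [e1] at hprime
  -- the generic point
  obtain ⟨Ω, _, π, hπ⟩ := exists_field_hom hprime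
  let _ : Algebra ℚ Ω := (π.comp (algebraMap ℚ (UR N d))).toAlgebra
  obtain ⟨E, _, _, fL, ⟨fΩ⟩⟩ := exists_common L Ω
  obtain ⟨cΩ, hcΩ⟩ : ∃ cΩ : Coef N d → E, cΩ = fun m => fΩ (π (C (X m))) := ⟨_, rfl⟩
  obtain ⟨xΩ, hxΩ⟩ : ∃ xΩ : Fin N → E, xΩ = fun j => fΩ (π (X (Sum.inl j))) := ⟨_, rfl⟩
  obtain ⟨vΩ, hvΩ⟩ : ∃ vΩ : Fin N → E, vΩ = fun j => fΩ (π (X (Sum.inr j))) := ⟨_, rfl⟩
  have hΩ : ∀ q : UR N d, evU cΩ xΩ vΩ q = fΩ (π q) := by
    intro q
    have h1 : fΩ.comp π = evU cΩ xΩ vΩ := by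
      apply evU_ext
      · intro m; rw [hcΩ]; rfl
      · intro j; rw [hxΩ]; rfl
      · intro j; rw [hvΩ]; rfl
    exact (RingHom.congr_fun h1 q).symm
  have hΩ0 : ∀ q ∈ PAB d N i0 Set.univ Set.univ, evU cΩ xΩ vΩ q = 0 := by
    intro q hq
    rw [hΩ, (hπ q).mpr hq, map_zero]
  have hΩP : evU cΩ xΩ vΩ P ≠ 0 := by
    rw [hΩ, Ne, map_eq_zero, hπ]
    exact hP
  have hΩpl : xΩ i0 * vΩ i1 - xΩ i1 * vΩ i0 ≠ 0 := by
    obtain ⟨b, hb, hb0, hb1⟩ := exists_enum₂ h01
    have h1 := nzd_pl_zero hb hd1 Set.univ hcard'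
    rw [e1, hb0] at h1
    intro h0
    have h2 : evU cΩ xΩ vΩ (pl d b 0) = 0 := by
      rw [pl, hb0, map_sub, map_mul, map_mul, evU_inl, evU_inr, evU_inl, evU_inr]
      rw [show b (0 + 1) = i1 from hb1]
      exact h0
    rw [hΩ, map_eq_zero, hπ] at h2
    have h3 : (1 : UR N d) ∈ PAB d N i0 Set.univ Set.univ := h1 _ (by rwa [mul_one])
    have h4 := PAB_ne_top hcard hd1 i0 (Set.univ : Set ι)
    rw [e1] at h4
    exact h4 ((Ideal.eq_top_iff_one _).mpr h3)
  -- the vectors in the common field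
  obtain ⟨xE, hxE⟩ : ∃ xE : Fin N → E, xE = fun j => fL (x j : L) := ⟨_, rfl⟩
  obtain ⟨vE, hvE⟩ : ∃ vE : Fin N → E, vE = fun j => fL (v j : L) := ⟨_, rfl⟩
  let κ : F →+* E := fL.comp (algebraMap F L)
  have hNE : Nrm i0 i1 xE vE := by
    rw [hxE, hvE]
    exact hxv.map κ
  have hplE : xE i0 * vE i1 - xE i1 * vE i0 ≠ 0 := by
    rw [hNE.x0, hNE.v1, hNE.v0]
    simp
  obtain ⟨B, hBdet, hBx, hBv⟩ := exists_matrix h01 hplE hΩpl
  obtain ⟨s, hs⟩ : ∃ s, s = B.det⁻¹ := ⟨_, rfl⟩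
  have hsB : s * B.det = 1 := by rw [hs]; exact inv_mul_cancel₀ hBdet
  obtain ⟨c', hc'⟩ : ∃ c' : Coef N d → E, c' = fun m => s ^ d m.1 * act B cΩ m := ⟨_, rfl⟩
  have hc'g : ∀ i, eval (Sum.elim xE vE) (gs c' i) = 0 := by
    intro i
    rw [hc', gs_smul (fun i => s ^ d i), map_mul, gs_act, eval_sub, hBx, hBv, ← evU_gU,
      hΩ0 _ (le_sat _ _ (gU_mem_IAB (Set.mem_univ i))), mul_zero]
  have hc'dg : ∀ i, eval (Sum.elim xE vE) (Dm (gs c' i)) = 0 := by
    intro i
    rw [hc', gs_smul (fun i => s ^ d i), Dm_C_mul, map_mul, gs_act, Dm_sub, eval_sub, hBx, hBv,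
      ← evU_dgU, hΩ0 _ (le_sat _ _ (dgU_mem_IAB (Set.mem_univ i))), mul_zero]
  have hback : act B.adjugate c' = cΩ := by
    rw [hc']
    exact act_adj B cΩ s hsB
  -- genericity
  have hgen : ∀ q : UR N d, evU c (fun j => (x j : L)) (fun j => (v j : L)) q = 0 →
      evU c' xE vE q = 0 := by
    intro q hq
    let U := MvPolynomial {m : Coef N d // isFree d i0 i1 m} F
    let cU : Coef N d → U := fun m => if h : isFree d i0 i1 m then X ⟨m, h⟩ else 0
    obtain ⟨r, hr⟩ : ∃ r : U, r = evU (full i0 i1 (fun j => (C (x j) : U))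
      (fun j => (C (v j) : U)) cU) (fun j => (C (x j) : U)) (fun j => (C (v j) : U)) q := ⟨_, rfl⟩
    have hr0 : r = 0 := by
      apply hind
      rw [map_zero, hr]
      have h1 := map_evU (aeval (R := F) fun m : {m : Coef N d // isFree d i0 i1 m} => c m :
        U →ₐ[F] L).toRingHom (full i0 i1 (fun j => (C (x j) : U))
        (fun j => (C (v j) : U)) cU) (fun j => (C (x j) : U)) (fun j => (C (v j) : U)) q
      refine h1.trans ?_
      rw [← hq]
      have hx' : (fun j => (aeval (R := F) fun m : {m : Coef N d // isFree d i0 i1 m} => c m :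
        U →ₐ[F] L).toRingHom (C (x j))) = fun j => (x j : L) := by
        funext j
        show aeval _ (C (x j)) = _
        rw [aeval_C]
        rfl
      have hv' : (fun j => (aeval (R := F) fun m : {m : Coef N d // isFree d i0 i1 m} => c m :
        U →ₐ[F] L).toRingHom (C (v j))) = fun j => (v j : L) := by
        funext j
        show aeval _ (C (v j)) = _
        rw [aeval_C]
        rfl
      rw [hx', hv']
      congr 2
      funext m
      rw [full_map, hx', hv']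
      have h2 := (hxv.map (algebraMap F L)).full_eq h01 hd1 (c := c)
        (fun i => by rw [← evU_gU]; exact hg i) (fun i => by rw [← evU_dgU]; exact hdg i)
      conv_rhs => rw [← h2]
      refine congrFun (full_congr ?_) m
      intro m hm
      show aeval _ (cU m) = c m
      simp only [cU, dif_pos hm]
      rw [aeval_X]
    have h1 := map_evU (eval₂Hom κ fun m : {m : Coef N d // isFree d i0 i1 m} => c' m :
        U →+* E) (full i0 i1 (fun j => (C (x j) : U))
        (fun j => (C (v j) : U)) cU) (fun j => (C (x j) : U)) (fun j => (C (v j) : U)) q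
    rw [← hr, hr0, map_zero] at h1
    rw [h1]
    have hx' : (fun j => (eval₂Hom κ fun m : {m : Coef N d // isFree d i0 i1 m} => c' m :
        U →+* E) (C (x j))) = xE := by
      funext j
      rw [coe_eval₂Hom, eval₂_C, hxE]
      rfl
    have hv' : (fun j => (eval₂Hom κ fun m : {m : Coef N d // isFree d i0 i1 m} => c' m :
        U →+* E) (C (v j))) = vE := by
      funext j
      rw [coe_eval₂Hom, eval₂_C, hvE]
      rfl
    rw [hx', hv']
    congr 2
    funext m
    rw [full_map, hx', hv']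
    conv_lhs => rw [← hNE.full_eq h01 hd1 hc'g hc'dg]
    refine congrFun (full_congr ?_) m
    intro m hm
    rw [coe_eval₂Hom]
    simp only [cU, dif_pos hm]
    rw [eval₂_X]
  -- the polynomial dependence
  obtain ⟨Ψ, hΨ⟩ := exists_poly c' xE vE P
  have hΨ0 : Ψ ≠ 0 := by
    intro h0
    have h1 := hΨ B
    rw [h0, map_zero, hback, hBx, hBv] at h1
    exact hΩP h1.symm
  have hdet0 : Matrix.det (Matrix.mvPolynomialX (Fin N) (Fin N) E) ≠ 0 :=
    Matrix.det_mvPolynomialX_ne_zero (Fin N) E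
  apply mul_ne_zero hΨ0 hdet0
  have : CharZero E := charZero_of_injective_algebraMap (algebraMap ℚ E).injective
  apply MvPolynomial.funext_set (fun _ => Set.range (algebraMap ℚ E)) (fun _ =>
    Set.infinite_range_of_injective (algebraMap ℚ E).injective)
  intro m hm
  rw [map_zero, map_mul]
  have hm' : ∀ t, ∃ r : ℚ, algebraMap ℚ E r = m t := fun t => hm t (Set.mem_univ _)
  choose r hr using hm'
  obtain ⟨A, hA⟩ : ∃ A : Matrix (Fin N) (Fin N) ℚ, A = Matrix.of fun i k => r (i, k) := ⟨_, rfl⟩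
  have hmA : m = fun t => ratM E A t.1 t.2 := by
    funext t
    rw [← hr t, hA]
    rfl
  have hdetA : eval m (Matrix.det (Matrix.mvPolynomialX (Fin N) (Fin N) E)) =
      algebraMap ℚ E A.det := by
    rw [RingHom.map_det, RingHom.map_det, RingHom.mapMatrix_apply, RingHom.mapMatrix_apply]
    congr 1
    refine Matrix.ext fun i k => ?_
    rw [Matrix.map_apply, Matrix.mvPolynomialX_apply, eval_X, hmA]
  by_cases hA0 : A.det = 0
  · rw [hdetA, hA0, map_zero, mul_zero]
  · have h1 := hgen _ (hcon A hA0)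
    have h2 := hΨ (ratM E A)
    rw [← hmA] at h2
    rw [evU_Gam] at h1
    have h3 : (ratM E A).adjugate = ratM E A.adjugate := by
      have h4 := RingHom.map_adjugate (algebraMap ℚ E) A
      rw [RingHom.mapMatrix_apply, RingHom.mapMatrix_apply] at h4
      exact h4.symm
    rw [h2, h3, h1, zero_mul]

end main

end Pool.Agent.Lib.GGL.CI
end

section

/-!
Certificates and their non-vanishing for algebraically independent coefficients.
-/

open MvPolynomial

namespace Pool.Agent.Lib.GGL.CI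

/-! ### certificates -/

section cert

variable {N : ℕ} {ι : Type} {d : ι → ℕ}

/-- the transformed coordinates -/
noncomputable def yy (d : ι → ℕ) (B : Matrix (Fin N) (Fin N) ℚ) (j : Fin N) : UR N d :=
  ∑ k, C (algebraMap ℚ _ (B j k)) * X (Sum.inl k)

/-- certificates -/
structure Cert (B : Matrix (Fin N) (Fin N) ℚ) (P : Fin N → UR N d) (a b M : ℕ) : Prop where
  det : B.det ≠ 0
  bi : ∀ j, IsBi (P j) a b
  lt : a + b < M
  one_le : 1 ≤ b
  compat : ∀ j k, yy d B j ^ M * P k - yy d B k ^ M * P j ∈ IAB d N Set.univ Set.univ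
  inv : ∀ j, Dp (P j) ∈ IAB d N Set.univ Set.univ

/-- the set of the members of the certificates -/
def certSet (N : ℕ) (d : ι → ℕ) : Set (UR N d) :=
  {q | ∃ (B : Matrix (Fin N) (Fin N) ℚ) (P : Fin N → UR N d) (a b M : ℕ) (j : Fin N),
    Cert B P a b M ∧ q = P j}

lemma Fam.transform {P : Fin N → UR N d} {a b M : ℕ} (h : Fam (IAB d N Set.univ Set.univ) P a b M)
    (hlt : a + b < M) (hb : 1 ≤ b) (hD : ∀ j, GGL.Dp (P j) ∈ IAB d N Set.univ Set.univ)
    {B : Matrix (Fin N) (Fin N) ℚ} (hB : B.det ≠ 0) :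
    Cert B (fun j => Gam d B (P j)) a b M where
  det := hB
  bi := fun j => Gam_isBi B (h.bi j)
  lt := hlt
  one_le := hb
  compat := by
    intro j k
    have h1 := Gam_mem_IAB B (h.compat j k)
    rw [map_sub, map_mul, map_mul, map_pow, map_pow, Gam_inl, Gam_inl] at h1
    exact h1
  inv := by
    intro j
    rw [Gam_Dp]
    exact Gam_mem_IAB B (hD j)

/-! ### subsystems -/

/-- the inclusion of the coefficients of a subsystem -/
def inc (A : Finset ι) (m : Coef N (fun i : A => d i)) : Coef N d := ⟨m.1, m.2⟩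

/-- the embedding of the universal ring of a subsystem -/
noncomputable def em (A : Finset ι) : UR N (fun i : A => d i) →+* UR N d :=
  map (rename (inc A) : MvPolynomial (Coef N (fun i : A => d i)) ℚ →ₐ[ℚ]
    MvPolynomial (Coef N d) ℚ).toRingHom

lemma em_gU (A : Finset ι) (i : A) : em A (gU (fun i : A => d i) i) = gU (N := N) d i := by
  rw [gU, map_sum, gU]
  refine Finset.sum_congr rfl fun μ _ => ?_
  rw [map_mul, em, map_C, map_xm]
  congr 2
  show rename (inc A) (X _) = _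
  rw [rename_X]
  rfl

lemma em_Dm (A : Finset ι) (q : UR N (fun i : A => d i)) : em A (Dm q) = Dm (em A q) := Dm_map _ _

lemma em_Dp (A : Finset ι) (q : UR N (fun i : A => d i)) : em A (Dp q) = Dp (em A q) := map_Dp _ _

lemma em_dgU (A : Finset ι) (i : A) : em A (dgU (fun i : A => d i) i) = dgU (N := N) d i := by
  rw [dgU_eq, em_Dm, em_gU, ← dgU_eq]

lemma em_mem (A : Finset ι) {q : UR N (fun i : A => d i)}
    (hq : q ∈ IAB (fun i : A => d i) N Set.univ Set.univ) :
    em A q ∈ IAB d N Set.univ Set.univ := by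
  have h1 : IAB (fun i : A => d i) N Set.univ Set.univ ≤
      (IAB d N Set.univ Set.univ).comap (em A) := by
    conv_lhs => rw [IAB]
    rw [sup_le_iff, Ideal.span_le, Ideal.span_le]
    constructor
    · rintro _ ⟨i, hi, rfl⟩
      rw [SetLike.mem_coe, Ideal.mem_comap, em_gU]
      exact gU_mem_IAB (Set.mem_univ _)
    · rintro _ ⟨i, hi, rfl⟩
      rw [SetLike.mem_coe, Ideal.mem_comap, em_dgU]
      exact dgU_mem_IAB (Set.mem_univ _)
  exact h1 hq

lemma em_yy (A : Finset ι) (B : Matrix (Fin N) (Fin N) ℚ) (j : Fin N) :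
    em A (yy (fun i : A => d i) B j) = yy d B j := by
  rw [yy, map_sum, yy]
  refine Finset.sum_congr rfl fun k _ => ?_
  rw [map_mul, em, map_C, map_X]
  congr 2
  exact AlgHom.commutes _ _

lemma Cert.em {A : Finset ι} {B : Matrix (Fin N) (Fin N) ℚ}
    {P : Fin N → UR N (fun i : A => d i)} {a b M : ℕ} (h : Cert B P a b M) :
    Cert B (fun j => CI.em A (P j)) a b M where
  det := h.det
  bi := fun j => (h.bi j).map _
  lt := h.lt
  one_le := h.one_le
  compat := by
    intro j k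
    have h1 := em_mem A (h.compat j k)
    rw [map_sub, map_mul, map_mul, map_pow, map_pow, em_yy, em_yy] at h1
    exact h1
  inv := by
    intro j
    rw [← em_Dp]
    exact em_mem A (h.inv j)

variable {S : Type*} [CommRing S] [Algebra ℚ S]

lemma evU_em (A : Finset ι) (c : Coef N d → S) (x v : Fin N → S)
    (q : UR N (fun i : A => d i)) : evU c x v (em A q) = evU (fun m => c (inc A m)) x v q := by
  have h : (evU c x v).comp (em A) = evU (fun m => c (inc A m)) x v := by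
    apply evU_ext
    · intro m
      rw [RingHom.comp_apply, em, map_C, evU_C]
      show evC c (rename (inc A) (X m)) = _
      rw [rename_X, evC_X]
    · intro j
      rw [RingHom.comp_apply, em, map_X, evU_inl]
    · intro j
      rw [RingHom.comp_apply, em, map_X, evU_inr]
  exact RingHom.congr_fun h q

end cert

/-! ### invariance of the evaluation -/

section shift

variable {N : ℕ} {ι : Type} {d : ι → ℕ} {L : Type} [Field L] [CharZero L]

lemma eval_shift_of {φ : MvPolynomial (Fin N ⊕ Fin N) L} {x v : Fin N → L}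
    (h : ∀ t : L, eval (Sum.elim x (v + t • x)) (GGL.Dp φ) = 0) (t : L) :
    eval (Sum.elim x (v + t • x)) φ = eval (Sum.elim x v) φ := by
  have h1 := aeval_poly_Dp x v φ
  have h2 : aeval (Sum.elim (fun i => Polynomial.C (x i))
      (fun i => Polynomial.C (v i) + Polynomial.X * Polynomial.C (x i))) (GGL.Dp φ) = 0 := by
    apply Polynomial.funext
    intro t
    rw [eval_poly, h, Polynomial.eval_zero]
  rw [h2] at h1
  obtain ⟨c, hc⟩ := Polynomial.natDegree_eq_zero.mp (Polynomial.derivative_eq_zero.mp h1)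
  have h3 := eval_poly x v φ t
  have h4 := eval_poly x v φ 0
  rw [← hc, Polynomial.eval_C] at h3 h4
  rw [← h3, h4, zero_smul, add_zero]

/-- the point lies on the tangent space -/
def Van (c : Coef N d → L) (x v : Fin N → L) : Prop :=
  ∀ q ∈ IAB d N Set.univ Set.univ, evU c x v q = 0

lemma van_iff {c : Coef N d → L} {x v : Fin N → L} : Van c x v ↔
    ∀ i, evU c x v (gU d i) = 0 ∧ evU c x v (dgU d i) = 0 := by
  constructor
  · intro h i
    exact ⟨h _ (gU_mem_IAB (Set.mem_univ i)), h _ (dgU_mem_IAB (Set.mem_univ i))⟩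
  · intro h q hq
    have h1 : IAB d N Set.univ Set.univ ≤ RingHom.ker (evU c x v) := by
      rw [IAB, sup_le_iff, Ideal.span_le, Ideal.span_le]
      constructor
      · rintro _ ⟨i, -, rfl⟩
        exact (h i).1
      · rintro _ ⟨i, -, rfl⟩
        exact (h i).2
    exact h1 hq

lemma evU_shift_of {c : Coef N d → L} {x v : Fin N → L} {q : UR N d}
    (h : ∀ t : L, evU c x (v + t • x) (GGL.Dp q) = 0) (t : L) :
    evU c x (v + t • x) q = evU c x v q := by
  rw [evU_apply, evU_apply]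
  apply eval_shift_of
  intro t
  rw [mapC, ← map_Dp]
  exact h t

lemma Van.shift {c : Coef N d → L} {x v : Fin N → L} (h : Van c x v) (t : L) :
    Van c x (v + t • x) := by
  rw [van_iff] at h ⊢
  intro i
  have h1 : ∀ t : L, evU c x (v + t • x) (gU d i) = 0 := by
    intro t
    rw [evU_shift_of (fun t => by rw [Dp_gU, map_zero]) t]
    exact (h i).1
  refine ⟨h1 t, ?_⟩
  rw [evU_shift_of (fun t => by rw [Dp_dgU, map_mul, h1, mul_zero]) t]
  exact (h i).2

lemma Van.evU_shift {c : Coef N d → L} {x v : Fin N → L} (h : Van c x v) {q : UR N d}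
    (hq : GGL.Dp q ∈ IAB d N Set.univ Set.univ) (t : L) :
    evU c x (v + t • x) q = evU c x v q :=
  evU_shift_of (fun t => h.shift t _ hq) t

omit [CharZero L] in
lemma evU_smul [Algebra ℚ L] {a b : ℕ} {q : UR N d} (hq : IsBi q a b) (c : Coef N d → L)
    (x v : Fin N → L) (r s : L) : evU c (r • x) (s • v) q = r ^ a * s ^ b * evU c x v q := by
  rw [evU_apply, evU_apply, mapC]
  exact eval_smul (hq.map _) x v r s

lemma Van.smul {c : Coef N d → L} {x v : Fin N → L} (h : Van c x v) (hd : ∀ i, 1 ≤ d i)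
    (r s : L) : Van c (r • x) (s • v) := by
  rw [van_iff] at h ⊢
  intro i
  obtain ⟨e, he⟩ : ∃ e, d i = e + 1 := ⟨d i - 1, by have := hd i; omega⟩
  constructor
  · rw [evU_smul (gU_isBi d i), (h i).1, mul_zero]
  · rw [evU_smul (dgU_isBi d he), (h i).2, mul_zero]

end shift

end Pool.Agent.Lib.GGL.CI
end

section

/-!
Non-vanishing certificates for algebraically independent coefficients.
-/

open MvPolynomial

namespace Pool.Agent.Lib.GGL.CI

section free

variable {N : ℕ} {ι : Type} {d : ι → ℕ}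

/-- the determined coefficients lie in the algebra generated by the free ones and the point -/
lemma mem_adjoin {L : Type} [Field L] [CharZero L] {i0 i1 : Fin N} (h01 : i0 ≠ i1)
    (hd : ∀ i, 1 ≤ d i) {x v : Fin N → L} (hxv : Nrm i0 i1 x v) {c : Coef N d → L}
    (hvan : Van c x v) (A : Subalgebra ℚ L) (hx : ∀ j, x j ∈ A) (hv : ∀ j, v j ∈ A)
    (hc : ∀ m, isFree d i0 i1 m → c m ∈ A) (m : Coef N d) : c m ∈ A := by
  classical
  rw [van_iff] at hvan
  have h1 := hxv.full_eq h01 hd (c := c) (fun i => by rw [← evU_gU]; exact (hvan i).1)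
    (fun i => by rw [← evU_dgU]; exact (hvan i).2)
  let c' : Coef N d → A := fun m => if h : isFree d i0 i1 m then ⟨c m, hc m h⟩ else 0
  have h2 := full_map (i0 := i0) (i1 := i1) (algebraMap A L) (fun j => (⟨x j, hx j⟩ : A))
    (fun j => (⟨v j, hv j⟩ : A)) c' m
  have h3 : full i0 i1 (fun j => algebraMap A L (⟨x j, hx j⟩ : A))
      (fun j => algebraMap A L (⟨v j, hv j⟩ : A)) (fun m => algebraMap A L (c' m)) = c := by
    conv_rhs => rw [← h1]
    refine full_congr ?_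
    intro m hm
    simp only [c', dif_pos hm]
    rfl
  rw [h3] at h2
  rw [← h2]
  exact (full i0 i1 (fun j => (⟨x j, hx j⟩ : A)) (fun j => (⟨v j, hv j⟩ : A)) c' m).2

lemma card_free [Fintype ι] {i0 i1 : Fin N} (h01 : i0 ≠ i1) (hd : ∀ i, 1 ≤ d i)
    [DecidablePred (isFree d i0 i1)] :
    Fintype.card {m : Coef N d // isFree d i0 i1 m} + 2 * Fintype.card ι ≤
      Fintype.card (Coef N d) := by
  classical
  have h1 := Fintype.card_subtype_compl (isFree d i0 i1)
  have h2 : Fintype.card (ι ⊕ ι) ≤ Fintype.card {m : Coef N d // ¬ isFree d i0 i1 m} := by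
    apply Fintype.card_le_of_injective (Sum.elim
      (fun i => ⟨⟨i, ⟨mu (d i) i0 i0, degree_mu (hd i) _ _⟩⟩, fun h => h.1 rfl⟩)
      (fun i => ⟨⟨i, ⟨mu (d i) i0 i1, degree_mu (hd i) _ _⟩⟩, fun h => h.2 rfl⟩))
    rintro (i | i) (k | k) h
    · simp only [Sum.elim_inl, Subtype.mk.injEq, Sigma.mk.injEq] at h
      rw [h.1]
    · simp only [Sum.elim_inl, Sum.elim_inr, Subtype.mk.injEq, Sigma.mk.injEq] at h
      obtain ⟨rfl, h2⟩ := h
      exact absurd (congrArg Subtype.val (eq_of_heq h2)).symm (mu_ne _ h01.symm)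
    · simp only [Sum.elim_inl, Sum.elim_inr, Subtype.mk.injEq, Sigma.mk.injEq] at h
      obtain ⟨rfl, h2⟩ := h
      exact absurd (congrArg Subtype.val (eq_of_heq h2)) (mu_ne _ h01.symm)
    · simp only [Sum.elim_inr, Subtype.mk.injEq, Sigma.mk.injEq] at h
      rw [h.1]
  rw [Fintype.card_sum, h1] at h2
  have h3 := Fintype.card_subtype_le (isFree d i0 i1)
  omega

end free

section point

variable {N : ℕ} {ι : Type} {d : ι → ℕ}

/-- The numerical condition. -/
def NumCond (N n : ℕ) [Fintype ι] (d : ι → ℕ) : Prop :=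
  ∀ A : Finset ι, A.card + (2 * n - 1) = Fintype.card ι →
    4 ^ A.card * sE (fun i : A => d i) (3 * n - 1) * (N - 1).factorial ^ 2 <
      (2 * A.card).factorial * (∏ i : A, d i) * (3 * n - 1).factorial ^ 2

lemma exists_ne_zero_nrm [Fintype ι] (hd : ∀ i, 2 ≤ d i) {n : ℕ} (hn : 1 ≤ n)
    (hN : N = Fintype.card ι + (n + 1)) (hc : 2 * n - 1 ≤ Fintype.card ι)
    (hnum : NumCond N n d) {i0 i1 : Fin N} (h01 : i0 ≠ i1)
    {L : Type} [Field L] [CharZero L] {c : Coef N d → L} (hcind : AlgebraicIndependent ℚ c)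
    {x v : Fin N → L} (hxv : Nrm i0 i1 x v) (hvan : Van c x v) :
    ∃ q ∈ certSet N d, evU c x v q ≠ 0 := by
  classical
  have hd1 := one_le_of_two_le hd
  obtain ⟨X, hX⟩ : ∃ X : Finset L, X = (Finset.univ.erase i0).image x ∪
    ((Finset.univ.erase i0).erase i1).image v := ⟨_, rfl⟩
  have hXcard : X.card ≤ (N - 1) + (N - 2) := by
    rw [hX]
    refine (Finset.card_union_le _ _).trans (Nat.add_le_add ?_ ?_)
    · refine Finset.card_image_le.trans (le_of_eq ?_)
      rw [Finset.card_erase_of_mem (Finset.mem_univ _), Finset.card_univ, Fintype.card_fin]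
    · refine Finset.card_image_le.trans (le_of_eq ?_)
      rw [Finset.card_erase_of_mem (Finset.mem_erase.mpr ⟨h01.symm, Finset.mem_univ _⟩),
        Finset.card_erase_of_mem (Finset.mem_univ _), Finset.card_univ, Fintype.card_fin]
      omega
  have hxX : ∀ (A : Subalgebra ℚ L), (∀ y ∈ X, y ∈ A) → ∀ j, x j ∈ A := by
    intro A hA j
    by_cases hj : j = i0
    · rw [hj, hxv.x0]; exact A.one_mem
    · apply hA
      rw [hX]
      exact Finset.mem_union_left _ (Finset.mem_image_of_mem _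
        (Finset.mem_erase.mpr ⟨hj, Finset.mem_univ _⟩))
  have hvX : ∀ (A : Subalgebra ℚ L), (∀ y ∈ X, y ∈ A) → ∀ j, v j ∈ A := by
    intro A hA j
    by_cases hj : j = i0
    · rw [hj, hxv.v0]; exact A.zero_mem
    by_cases hj1 : j = i1
    · rw [hj1, hxv.v1]; exact A.one_mem
    · apply hA
      rw [hX]
      exact Finset.mem_union_right _ (Finset.mem_image_of_mem _
        (Finset.mem_erase.mpr ⟨hj1, Finset.mem_erase.mpr ⟨hj, Finset.mem_univ _⟩⟩))
  obtain ⟨A, F, hAcard, hXF, hind⟩ := exists_indep_subset (fun m : Coef N d => m.1)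
    (isFree d i0 i1) hcind X (by
      intro m _
      refine mem_adjoin h01 hd1 hxv hvan _ (hxX _ ?_) (hvX _ ?_) ?_ m
      · intro y hy
        exact Algebra.subset_adjoin (Or.inl hy)
      · intro y hy
        exact Algebra.subset_adjoin (Or.inl hy)
      · intro m hm
        exact Algebra.subset_adjoin (Or.inr ⟨m, hm, rfl⟩))
  have hfree := card_free (d := d) h01 hd1
  have hAge : Fintype.card ι - (2 * n - 1) ≤ A.card := by omega
  obtain ⟨A', hA'A, hA'card⟩ := Finset.exists_subset_card_eq hAge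
  have hA'card' : A'.card + (2 * n - 1) = Fintype.card ι := by omega
  have hcardA' : Fintype.card A' = A'.card := Fintype.card_coe A'
  -- the certificate of the subsystem
  have hnumA := hnum A' hA'card'
  have hdA : ∀ i : A', 2 ≤ (fun i : A' => d i) i := fun i => hd i
  have hNA : N = Fintype.card A' + ((3 * n - 1) + 1) := by
    rw [hcardA']
    omega
  obtain ⟨P, a, b, M, hfam, hlt, hb, hP, hD⟩ := exists_cert (d := fun i : A' => d i) hdA
    (n := 3 * n - 1) (by omega) hNA i0 (by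
      rw [hcardA']
      exact hnumA)
  let xF : Fin N → F := fun j => ⟨x j, hxX F hXF j⟩
  let vF : Fin N → F := fun j => ⟨v j, hvX F hXF j⟩
  have hNF : Nrm i0 i1 xF vF :=
    ⟨Subtype.ext hxv.x0, Subtype.ext hxv.v0, Subtype.ext hxv.v1⟩
  have hvan' : Van (fun m => c (inc A' m)) x v := by
    rw [van_iff] at hvan ⊢
    intro i
    have h1 := hvan i
    rw [← em_gU A' i, ← em_dgU A' i, evU_em, evU_em] at h1
    exact h1
  have hind' : AlgebraicIndependent F
      (fun m : {m : Coef N (fun i : A' => d i) // isFree (fun i : A' => d i) i0 i1 m} =>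
        c (inc A' m)) := by
    exact hind.comp (fun m : {m : Coef N (fun i : A' => d i) //
      isFree (fun i : A' => d i) i0 i1 m} => ⟨inc A' m.1, m.2, hA'A m.1.1.2⟩) (by
        rintro ⟨⟨i, μ⟩, hm⟩ ⟨⟨k, ν⟩, hm'⟩ h
        have h1 : inc A' (⟨i, μ⟩ : Coef N (fun i : A' => d i)) = inc A' ⟨k, ν⟩ :=
          congrArg Subtype.val h
        rw [inc, inc, Sigma.mk.injEq] at h1
        obtain ⟨h2, h3⟩ := h1
        have h4 : i = k := Subtype.ext h2
        subst h4
        have h5 : μ = ν := eq_of_heq h3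
        subst h5
        rfl)
  rw [van_iff] at hvan'
  obtain ⟨B, hB, hBP⟩ := exists_transform (d := fun i : A' => d i) hdA (by omega) h01 hP F hNF
    (fun i => (hvan' i).1) (fun i => (hvan' i).2) hind'
  refine ⟨em A' (Gam (fun i : A' => d i) B (P i0)),
    ⟨B, _, a, b, M, i0, (hfam.transform hlt hb hD hB).em, rfl⟩, ?_⟩
  rw [evU_em]
  exact hBP

lemma exists_ne_zero_of_ne [Fintype ι] (hd : ∀ i, 2 ≤ d i) {n : ℕ} (hn : 1 ≤ n)
    (hN : N = Fintype.card ι + (n + 1)) (hc : 2 * n - 1 ≤ Fintype.card ι)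
    (hnum : NumCond N n d) {i0 i1 : Fin N}
    {L : Type} [Field L] [CharZero L] {c : Coef N d → L} (hcind : AlgebraicIndependent ℚ c)
    {x v : Fin N → L} (hx0 : x i0 ≠ 0) (hpl : x i0 * v i1 - x i1 * v i0 ≠ 0)
    (hvan : Van c x v) : ∃ q ∈ certSet N d, evU c x v q ≠ 0 := by
  have h01 : i0 ≠ i1 := by
    rintro rfl
    apply hpl
    ring
  obtain ⟨t, ht⟩ : ∃ t, t = -(v i0 / x i0) := ⟨_, rfl⟩
  obtain ⟨δ, hδ⟩ : ∃ δ, δ = v i1 + t * x i1 := ⟨_, rfl⟩
  have hδ0 : δ ≠ 0 := by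
    intro h0
    apply hpl
    rw [hδ, ht] at h0
    field_simp at h0
    linear_combination h0
  have hN' : Nrm i0 i1 ((x i0)⁻¹ • x) (δ⁻¹ • (v + t • x)) := by
    refine ⟨?_, ?_, ?_⟩
    · rw [Pi.smul_apply, smul_eq_mul, inv_mul_cancel₀ hx0]
    · rw [Pi.smul_apply, Pi.add_apply, Pi.smul_apply, smul_eq_mul, smul_eq_mul, ht]
      field_simp
      ring
    · rw [Pi.smul_apply, Pi.add_apply, Pi.smul_apply, smul_eq_mul, smul_eq_mul, ← hδ,
        inv_mul_cancel₀ hδ0]
  have hvan' := (hvan.shift t).smul (one_le_of_two_le hd) (x i0)⁻¹ δ⁻¹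
  obtain ⟨q, hq, hne⟩ := exists_ne_zero_nrm hd hn hN hc hnum h01 hcind hN' hvan'
  refine ⟨q, hq, ?_⟩
  obtain ⟨B, P, a, b, M, j, hcert, rfl⟩ := hq
  rw [evU_smul (hcert.bi j), hvan.evU_shift (hcert.inv j)] at hne
  exact right_ne_zero_of_mul hne

/-- Non-vanishing at every point of the tangent space. -/
theorem exists_ne_zero [Fintype ι] (hd : ∀ i, 2 ≤ d i) {n : ℕ} (hn : 1 ≤ n)
    (hN : N = Fintype.card ι + (n + 1)) (hc : 2 * n - 1 ≤ Fintype.card ι)
    (hnum : NumCond N n d) {i0 i1 : Fin N}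
    {L : Type} [Field L] [CharZero L] {c : Coef N d → L} (hcind : AlgebraicIndependent ℚ c)
    {x v : Fin N → L} (hpl : x i0 * v i1 - x i1 * v i0 ≠ 0)
    (hvan : Van c x v) : ∃ q ∈ certSet N d, evU c x v q ≠ 0 := by
  by_cases hx0 : x i0 = 0
  · have hx1 : x i1 ≠ 0 := by
      intro h1
      apply hpl
      rw [hx0, h1]
      ring
    apply exists_ne_zero_of_ne hd hn hN hc hnum hcind hx1 (i1 := i0) _ hvan
    intro h
    apply hpl
    linear_combination (-1 : L) * h
  · exact exists_ne_zero_of_ne hd hn hN hc hnum hcind hx0 hpl hvan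

end point

end Pool.Agent.Lib.GGL.CI
end

section

/-!
The Nullstellensatz over the field of rational functions in the coefficients.
-/

open MvPolynomial

namespace Pool.Agent.Lib.GGL.CI

section theta

variable {N : ℕ} {ι : Type} {d : ι → ℕ}

attribute [local instance] MvPolynomial.algebraMvPolynomial in
/-- Nullstellensatz over the field of rational functions in the coefficients. -/
theorem exists_relation [Fintype ι] (hd : ∀ i, 2 ≤ d i) {n : ℕ} (hn : 1 ≤ n)
    (hN : N = Fintype.card ι + (n + 1)) (hc : 2 * n - 1 ≤ Fintype.card ι)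
    (hnum : NumCond N n d) (i0 i1 : Fin N) :
    ∃ (s : MvPolynomial (Coef N d) ℚ) (M : ℕ), s ≠ 0 ∧
      C s * plk (MvPolynomial (Coef N d) ℚ) i0 i1 ^ M ∈
        IAB d N Set.univ Set.univ ⊔ Ideal.span (certSet N d) := by
  let R := MvPolynomial (Coef N d) ℚ
  let k := FractionRing R
  let K := AlgebraicClosure k
  have hinj : Function.Injective (algebraMap R k) := IsFractionRing.injective _ _
  have hinjK : Function.Injective ((algebraMap k K).comp (algebraMap R k)) := by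
    rw [RingHom.coe_comp]
    exact (algebraMap k K).injective.comp hinj
  have : CharZero k := charZero_of_injective_algebraMap hinj
  have : CharZero K := charZero_of_injective_algebraMap (algebraMap k K).injective
  let c : Coef N d → K := fun m => algebraMap k K (algebraMap R k (X m))
  have haev : ((algebraMap k K).comp (algebraMap R k)) = evC c := evC_ext fun m => rfl
  have hP : AlgebraicIndependent ℚ c := by
    intro φ ψ hφ
    apply hinjK
    rw [haev]
    exact hφ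
  obtain ⟨𝔟, h𝔟⟩ : ∃ 𝔟 : Ideal (UR N d),
    𝔟 = IAB d N Set.univ Set.univ ⊔ Ideal.span (certSet N d) := ⟨_, rfl⟩
  have hmem : plk k i0 i1 ∈ (Ideal.map (algebraMap (MvPolynomial (Fin N ⊕ Fin N) R)
      (MvPolynomial (Fin N ⊕ Fin N) k)) 𝔟).radical := by
    rw [← vanishingIdeal_zeroLocus_eq_radical (K := K), mem_vanishingIdeal_iff]
    intro z hz
    by_contra hne
    obtain ⟨x, hx⟩ : ∃ x : Fin N → K, x = fun i => z (Sum.inl i) := ⟨_, rfl⟩
    obtain ⟨v, hv⟩ : ∃ v : Fin N → K, v = fun i => z (Sum.inr i) := ⟨_, rfl⟩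
    have hzxv : z = Sum.elim x v := by
      funext t
      rcases t with i | i
      · rw [hx]; rfl
      · rw [hv]; rfl
    have hΔ : x i0 * v i1 - x i1 * v i0 ≠ 0 := by
      intro h0
      apply hne
      rw [hzxv, plk]
      simp only [map_sub, map_mul, aeval_X, Sum.elim_inl, Sum.elim_inr]
      exact h0
    have hval : ∀ q ∈ 𝔟, evU c x v q = 0 := by
      intro q hq
      have h1 := hz (algebraMap (MvPolynomial (Fin N ⊕ Fin N) R)
        (MvPolynomial (Fin N ⊕ Fin N) k) q) (Ideal.mem_map_of_mem _ hq)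
      rw [← h1, evU_apply, ← hzxv]
      have h2 : algebraMap (MvPolynomial (Fin N ⊕ Fin N) R)
        (MvPolynomial (Fin N ⊕ Fin N) k) q = map (algebraMap R k) q := rfl
      rw [h2, mapC, eval_map, aeval_def, eval₂_map, haev]
    have hvan : Van c x v := fun q hq => hval q (by rw [h𝔟]; exact Ideal.mem_sup_left hq)
    obtain ⟨q, hq, hne⟩ := exists_ne_zero hd hn hN hc hnum hP hΔ hvan
    exact hne (hval q (by rw [h𝔟]; exact Ideal.mem_sup_right (Ideal.subset_span hq)))
  obtain ⟨M, hM⟩ := hmem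
  rw [IsLocalization.mem_map_algebraMap_iff ((nonZeroDivisors R).map
    (C (σ := Fin N ⊕ Fin N)))] at hM
  obtain ⟨⟨⟨a, ha⟩, ⟨b, hb⟩⟩, hab⟩ := hM
  obtain ⟨s, hs, rfl⟩ := Submonoid.mem_map.mp hb
  refine ⟨s, M, nonZeroDivisors.ne_zero hs, ?_⟩
  have hmapinj : Function.Injective (map (σ := Fin N ⊕ Fin N)
      (algebraMap R k)) := map_injective _ hinj
  have h3 : C s * plk R i0 i1 ^ M = a := by
    apply hmapinj
    rw [map_mul, map_pow, map_plk, mul_comm]
    exact hab
  rw [h3, ← h𝔟]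
  exact ha

/-- The exceptional polynomial. -/
theorem exists_Theta [Fintype ι] (hd : ∀ i, 2 ≤ d i) {n : ℕ} (hn : 1 ≤ n)
    (hN : N = Fintype.card ι + (n + 1)) (hc : 2 * n - 1 ≤ Fintype.card ι)
    (hnum : NumCond N n d) :
    ∃ Θ : MvPolynomial (Coef N d) ℚ, Θ ≠ 0 ∧ ∀ i0 i1 : Fin N,
      ∃ M : ℕ, C Θ * plk (MvPolynomial (Coef N d) ℚ) i0 i1 ^ M ∈
        IAB d N Set.univ Set.univ ⊔ Ideal.span (certSet N d) := by
  classical
  choose s M hs hM using fun t : Fin N × Fin N => exists_relation hd hn hN hc hnum t.1 t.2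
  refine ⟨∏ t, s t, Finset.prod_ne_zero_iff.mpr fun t _ => hs t, fun i0 i1 => ⟨M (i0, i1), ?_⟩⟩
  rw [← Finset.mul_prod_erase _ _ (Finset.mem_univ (i0, i1)), C_mul, mul_comm (C (s (i0, i1))),
    mul_assoc]
  exact Ideal.mul_mem_left _ _ (hM (i0, i1))

end theta

end Pool.Agent.Lib.GGL.CI
end

section

/-!
Vanishing of the certificates along entire curves.
-/

open MvPolynomial Filter Topology

namespace Pool.Agent.Lib.GGL.CI

section chain

variable {N : ℕ}

/-- chain rule -/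
lemma hasDerivAt_eval {F : ℂ → Fin N → ℂ} {F' : Fin N → ℂ} {z : ℂ}
    (hF : ∀ j, HasDerivAt (fun w => F w j) (F' j) z) (q : MvPolynomial (Fin N) ℂ) :
    HasDerivAt (fun w => eval (F w) q) (eval (Sum.elim (F z) F') (Dm (rename Sum.inl q))) z := by
  induction q using MvPolynomial.induction_on with
  | C a =>
    simp only [eval_C, rename_C, Dm_C, map_zero]
    exact hasDerivAt_const _ _
  | add p q hp hq =>
    simp only [map_add]
    exact hp.add hq
  | mul_X p i hp =>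
    have h1 := hp.mul (hF i)
    have h2 : eval (Sum.elim (F z) F') (Dm (rename Sum.inl (p * X i))) =
        eval (Sum.elim (F z) F') (Dm (rename Sum.inl p)) * F z i + eval (F z) p * F' i := by
      have h3 : eval (Sum.elim (F z) F') (rename Sum.inl p) = eval (F z) p := by
        rw [eval_rename]
        rfl
      rw [map_mul, rename_X, Dm_mul, Dm_inl, map_add, map_mul, map_mul, eval_X, eval_X,
        Sum.elim_inl, Sum.elim_inr, h3]
      ring
    rw [h2]
    simp only [map_mul, eval_X]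
    exact h1

end chain

section bounds

variable {N : ℕ}

/-- the square of the hermitian norm -/
noncomputable def nsq (x : Fin N → ℂ) : ℝ := ∑ j, ‖x j‖ ^ 2

lemma nsq_eq (x : Fin N → ℂ) : nsq x = ‖(WithLp.toLp 2 x : EuclideanSpace ℂ (Fin N))‖ ^ 2 := by
  rw [EuclideanSpace.norm_sq_eq]
  rfl

lemma norm_le_toLp (x : Fin N → ℂ) (j : Fin N) :
    ‖x j‖ ≤ ‖(WithLp.toLp 2 x : EuclideanSpace ℂ (Fin N))‖ :=
  PiLp.norm_apply_le (WithLp.toLp 2 x : EuclideanSpace ℂ (Fin N)) j

lemma exists_bound {φ : MvPolynomial (Fin N ⊕ Fin N) ℂ} {a b : ℕ} (h : IsBi φ a b) :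
    ∃ C : ℝ, 0 ≤ C ∧ ∀ x v : Fin N → ℂ, ‖eval (Sum.elim x v) φ‖ ≤
      C * ‖(WithLp.toLp 2 x : EuclideanSpace ℂ (Fin N))‖ ^ a *
        ‖(WithLp.toLp 2 v : EuclideanSpace ℂ (Fin N))‖ ^ b := by
  refine ⟨∑ s ∈ φ.support, ‖coeff s φ‖, Finset.sum_nonneg fun _ _ => norm_nonneg _, ?_⟩
  intro x v
  rw [eval_eq, Finset.sum_mul, Finset.sum_mul]
  refine (norm_sum_le _ _).trans (Finset.sum_le_sum fun s hs => ?_)
  rw [norm_mul, mul_assoc]
  apply mul_le_mul_of_nonneg_left _ (norm_nonneg _)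
  have h1 := h (mem_support_iff.mp hs)
  rw [weight_wt] at h1
  have h2 := congrArg Prod.fst h1
  have h3 := congrArg Prod.snd h1
  simp only at h2 h3
  rw [Finsupp.degree_eq_sum] at h2 h3
  have h4 : ∏ i ∈ s.support, Sum.elim x v i ^ s i =
      (∏ j, x j ^ s (Sum.inl j)) * ∏ j, v j ^ s (Sum.inr j) := by
    have h5 : ∏ i ∈ s.support, Sum.elim x v i ^ s i = ∏ i, Sum.elim x v i ^ s i := by
      apply Finset.prod_subset (Finset.subset_univ _)
      intro i _ hi
      rw [Finsupp.notMem_support_iff.mp hi, pow_zero]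
    rw [h5, Fintype.prod_sum_type]
    rfl
  rw [h4, norm_mul, norm_prod, norm_prod, ← h2, ← h3, ← Finset.prod_pow_eq_pow_sum,
    ← Finset.prod_pow_eq_pow_sum]
  apply mul_le_mul
  · apply Finset.prod_le_prod (fun _ _ => norm_nonneg _)
    intro j _
    rw [norm_pow]
    exact pow_le_pow_left₀ (norm_nonneg _) (norm_le_toLp x j) _
  · apply Finset.prod_le_prod (fun _ _ => norm_nonneg _)
    intro j _
    rw [norm_pow]
    exact pow_le_pow_left₀ (norm_nonneg _) (norm_le_toLp v j) _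
  · exact Finset.prod_nonneg fun _ _ => norm_nonneg _
  · exact Finset.prod_nonneg fun _ _ => by positivity

/-- lower bound for the transformed coordinates -/
lemma exists_lower (B : Matrix (Fin N) (Fin N) ℂ) (hB : B.det ≠ 0) (M : ℕ) :
    ∃ δ : ℝ, 0 < δ ∧ ∀ x : Fin N → ℂ, x ≠ 0 →
      δ * nsq x ^ M ≤ ∑ j, ‖(B.mulVec x) j‖ ^ (2 * M) := by
  obtain ⟨A, hA0, hA⟩ : ∃ A : ℝ, 0 ≤ A ∧ ∀ (x : Fin N → ℂ) (k : Fin N) (r : ℝ), 0 ≤ r →
      (∀ j, ‖(B.mulVec x) j‖ ≤ r) → ‖x k‖ ≤ A * r := by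
    refine ⟨∑ k, ∑ j, ‖B⁻¹ k j‖, Finset.sum_nonneg fun _ _ => Finset.sum_nonneg fun _ _ =>
      norm_nonneg _, ?_⟩
    intro x k r hr h
    have h1 : x = B⁻¹.mulVec (B.mulVec x) := by
      rw [Matrix.mulVec_mulVec, Matrix.nonsing_inv_mul _ (isUnit_iff_ne_zero.mpr hB),
        Matrix.one_mulVec]
    have h2 : ‖x k‖ ≤ (∑ j, ‖B⁻¹ k j‖) * r := by
      conv_lhs => rw [h1]
      rw [Matrix.mulVec, dotProduct, Finset.sum_mul]
      refine (norm_sum_le _ _).trans (Finset.sum_le_sum fun j _ => ?_)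
      rw [norm_mul]
      exact mul_le_mul_of_nonneg_left (h j) (norm_nonneg _)
    refine h2.trans (mul_le_mul_of_nonneg_right ?_ hr)
    exact Finset.single_le_sum (f := fun k => ∑ j, ‖B⁻¹ k j‖)
      (fun _ _ => Finset.sum_nonneg fun _ _ => norm_nonneg _) (Finset.mem_univ k)
  obtain ⟨D, hD⟩ : ∃ D : ℝ, D = (N * A ^ 2 + 1) ^ M := ⟨_, rfl⟩
  have hD0 : 0 < D := by rw [hD]; positivity
  refine ⟨D⁻¹, inv_pos.mpr hD0, ?_⟩
  intro x hx
  rw [inv_mul_le_iff₀ hD0]
  rcases isEmpty_or_nonempty (Fin N) with he | he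
  · exact absurd (Subsingleton.elim _ _) hx
  obtain ⟨j₀, -, hj₀⟩ := Finset.exists_max_image (Finset.univ : Finset (Fin N))
    (fun j => ‖(B.mulVec x) j‖) Finset.univ_nonempty
  have h1 : nsq x ≤ (N * A ^ 2 + 1) * ‖(B.mulVec x) j₀‖ ^ 2 := by
    have h2 : nsq x ≤ ∑ _j : Fin N, (A * ‖(B.mulVec x) j₀‖) ^ 2 := by
      apply Finset.sum_le_sum
      intro k _
      exact pow_le_pow_left₀ (norm_nonneg _)
        (hA x k _ (norm_nonneg _) fun j => hj₀ j (Finset.mem_univ j)) _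
    rw [Finset.sum_const, Finset.card_univ, Fintype.card_fin, nsmul_eq_mul, mul_pow] at h2
    nlinarith [sq_nonneg ‖(B.mulVec x) j₀‖]
  have h3 : 0 ≤ nsq x := Finset.sum_nonneg fun _ _ => by positivity
  calc nsq x ^ M ≤ ((N * A ^ 2 + 1) * ‖(B.mulVec x) j₀‖ ^ 2) ^ M := pow_le_pow_left₀ h3 h1 M
    _ = D * ‖(B.mulVec x) j₀‖ ^ (2 * M) := by rw [mul_pow, ← hD, ← pow_mul]
    _ ≤ D * ∑ j, ‖(B.mulVec x) j‖ ^ (2 * M) := by
        apply mul_le_mul_of_nonneg_left _ hD0.le
        exact Finset.single_le_sum (f := fun j => ‖(B.mulVec x) j‖ ^ (2 * M))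
          (fun _ _ => by positivity) (Finset.mem_univ j₀)

end bounds

section curve

variable {N : ℕ} {ι : Type} {d : ι → ℕ}

lemma evU_yy (c : Coef N d → ℂ) (B : Matrix (Fin N) (Fin N) ℚ) (x v : Fin N → ℂ) (j : Fin N) :
    evU c x v (yy d B j) = (ratM ℂ B).mulVec x j := by
  rw [yy, map_sum, Matrix.mulVec, dotProduct]
  refine Finset.sum_congr rfl fun k _ => ?_
  rw [map_mul, evU_C, evU_inl]
  congr 1
  exact ratHom_ext ((evC c).comp (algebraMap ℚ _)) (algebraMap ℚ ℂ) _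

lemma ratM_det (B : Matrix (Fin N) (Fin N) ℚ) (hB : B.det ≠ 0) : (ratM ℂ B).det ≠ 0 := by
  have h := RingHom.map_det (algebraMap ℚ ℂ) B
  rw [RingHom.mapMatrix_apply] at h
  rw [← h]
  exact fun h0 => hB ((algebraMap ℚ ℂ).injective (by rw [h0, map_zero]))

/-- the function -/
noncomputable def Fi (c : Coef N d → ℂ) (B : Matrix (Fin N) (Fin N) ℚ) (P : Fin N → UR N d)
    (a b M : ℕ) (x v : Fin N → ℂ) : ℝ :=
  (∑ j, ‖evU c x v (P j)‖ ^ 2) / (∑ j, ‖(ratM ℂ B).mulVec x j‖ ^ (2 * M)) *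
    nsq x ^ (M - a - b)

lemma nsq_smul (l : ℂ) (x : Fin N → ℂ) : nsq (l • x) = ‖l‖ ^ 2 * nsq x := by
  rw [nsq, nsq, Finset.mul_sum]
  refine Finset.sum_congr rfl fun j _ => ?_
  rw [Pi.smul_apply, norm_smul, mul_pow]

lemma Fi_smul {c : Coef N d → ℂ} {B : Matrix (Fin N) (Fin N) ℚ} {P : Fin N → UR N d}
    {a b M : ℕ} (h : Cert B P a b M) {x v : Fin N → ℂ} (hvan : Van c x v) {l : ℂ} (hl : l ≠ 0)
    (μ : ℂ) : Fi c B P a b M (l • x) (l • v + μ • x) = Fi c B P a b M x v := by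
  have h1 : ∀ j, evU c (l • x) (l • v + μ • x) (P j) = l ^ (a + b) * evU c x v (P j) := by
    intro j
    have h2 : l • v + μ • x = l • (v + (μ / l) • x) := by
      rw [smul_add, smul_smul, mul_div_cancel₀ _ hl]
    rw [h2, evU_smul (h.bi j), hvan.evU_shift (h.inv j)]
    ring
  have h3 : ∀ j, ‖(ratM ℂ B).mulVec (l • x) j‖ ^ (2 * M) =
      ‖l‖ ^ (2 * M) * ‖(ratM ℂ B).mulVec x j‖ ^ (2 * M) := by
    intro j
    rw [Matrix.mulVec_smul, Pi.smul_apply, norm_smul, mul_pow]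
  have h4 : ∀ j, ‖evU c (l • x) (l • v + μ • x) (P j)‖ ^ 2 =
      ‖l‖ ^ (2 * (a + b)) * ‖evU c x v (P j)‖ ^ 2 := by
    intro j
    rw [h1, norm_mul, norm_pow]
    ring
  rw [Fi, Fi, Finset.sum_congr rfl fun j _ => h3 j, Finset.sum_congr rfl fun j _ => h4 j,
    ← Finset.mul_sum, ← Finset.mul_sum, nsq_smul]
  obtain ⟨e, he⟩ : ∃ e, M = a + b + e := ⟨M - (a + b), by have := h.lt; omega⟩
  have he' : M - a - b = e := by omega
  have hl' : ‖l‖ ≠ 0 := norm_ne_zero_iff.mpr hl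
  rw [he', mul_pow, mul_div_mul_comm]
  have h5 : ‖l‖ ^ (2 * (a + b)) / ‖l‖ ^ (2 * M) * (‖l‖ ^ 2) ^ e = 1 := by
    rw [he]
    have h6 : ‖l‖ ^ (2 * (a + b + e)) = ‖l‖ ^ (2 * (a + b)) * (‖l‖ ^ 2) ^ e := by
      rw [← pow_mul, ← pow_add]
      congr 1
      ring
    rw [h6]
    field_simp
  calc _ = (‖l‖ ^ (2 * (a + b)) / ‖l‖ ^ (2 * M) * (‖l‖ ^ 2) ^ e) *
        ((∑ j, ‖evU c x v (P j)‖ ^ 2) / (∑ j, ‖(ratM ℂ B).mulVec x j‖ ^ (2 * M)) *
          nsq x ^ e) := by ring
    _ = _ := by rw [h5, one_mul]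

lemma exists_mulVec_ne {B : Matrix (Fin N) (Fin N) ℚ} (hB : B.det ≠ 0) {x : Fin N → ℂ}
    (hx : x ≠ 0) : ∃ j, (ratM ℂ B).mulVec x j ≠ 0 := by
  by_contra h
  push Not at h
  apply hx
  have h1 : x = (ratM ℂ B)⁻¹.mulVec ((ratM ℂ B).mulVec x) := by
    rw [Matrix.mulVec_mulVec, Matrix.nonsing_inv_mul _ (isUnit_iff_ne_zero.mpr (ratM_det B hB)),
      Matrix.one_mulVec]
  have h2 : (ratM ℂ B).mulVec x = 0 := funext h
  rw [h1, h2, Matrix.mulVec_zero]

/-- the function is the square of the norm of the quotient -/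
lemma Fi_eq {c : Coef N d → ℂ} {B : Matrix (Fin N) (Fin N) ℚ} {P : Fin N → UR N d}
    {a b M : ℕ} (h : Cert B P a b M) {x v : Fin N → ℂ} (hvan : Van c x v) {k : Fin N}
    (hk : (ratM ℂ B).mulVec x k ≠ 0) :
    Fi c B P a b M x v = ‖evU c x v (P k) / (ratM ℂ B).mulVec x k ^ M‖ ^ 2 *
      nsq x ^ (M - a - b) := by
  rw [Fi]
  congr 1
  have h1 : ∀ j, ‖evU c x v (P j)‖ ^ 2 = ‖evU c x v (P k) / (ratM ℂ B).mulVec x k ^ M‖ ^ 2 *
      ‖(ratM ℂ B).mulVec x j‖ ^ (2 * M) := by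
    intro j
    have h2 := hvan _ (h.compat k j)
    rw [map_sub, map_mul, map_mul, map_pow, map_pow, evU_yy, evU_yy, sub_eq_zero] at h2
    have h3 : evU c x v (P j) = evU c x v (P k) / (ratM ℂ B).mulVec x k ^ M *
        (ratM ℂ B).mulVec x j ^ M := by
      field_simp
      linear_combination h2
    rw [h3, norm_mul, mul_pow, norm_pow]
    congr 1
    rw [← pow_mul, mul_comm M 2]
  rw [Finset.sum_congr rfl fun j _ => h1 j, ← Finset.mul_sum, mul_div_assoc, div_self, mul_one]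
  apply ne_of_gt
  refine lt_of_lt_of_le ?_ (Finset.single_le_sum
    (f := fun j => ‖(ratM ℂ B).mulVec x j‖ ^ (2 * M)) (fun _ _ => by positivity)
    (Finset.mem_univ k))
  have := norm_pos_iff.mpr hk
  positivity

/-- the curve lies on the tangent space -/
lemma van_curve {m : ℕ} {d : ι → ℕ} [Finite ι] {c : Coef (m + 1) d → ℂ}
    {y : ℂ → Fin (m + 1) → ℂ} {z₁ : ℂ}
    (hy : AnalyticAt ℂ y z₁) (hg : ∀ᶠ z in 𝓝 z₁, ∀ i, eval (y z) (gp c i) = 0) :
    ∀ᶠ z in 𝓝 z₁, Van c (y z) (deriv y z) := by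
  filter_upwards [hg.eventually_nhds, hy.eventually_analyticAt] with z hz han
  rw [van_iff]
  intro i
  constructor
  · rw [evU_gU, gs, eval_rename]
    exact hz.self_of_nhds i
  · rw [evU_dgU, gs]
    have h1 := hasDerivAt_eval (F := y) (F' := deriv y z) (z := z)
      (fun j => hasDerivAt_pi.mp han.differentiableAt.hasDerivAt j) (gp c i)
    have h2 : (fun w => eval (y w) (gp c i)) =ᶠ[𝓝 z] fun _ => 0 := by
      filter_upwards [hz] with w hw
      exact hw i
    have h3 : HasDerivAt (fun w => eval (y w) (gp c i)) 0 z :=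
      (hasDerivAt_const z (0 : ℂ)).congr_of_eventuallyEq h2
    exact h1.unique h3

lemma analyticAt_evU {m : ℕ} {d : ι → ℕ} (c : Coef (m + 1) d → ℂ) (q : UR (m + 1) d)
    {y : ℂ → Fin (m + 1) → ℂ} {z₁ : ℂ} (hy : AnalyticAt ℂ y z₁) :
    AnalyticAt ℂ (fun z => evU c (y z) (deriv y z) q) z₁ := by
  have h1 := AnalyticAt.aeval_mvPolynomial (𝕜 := ℂ) (A := ℂ)
    (f := fun z => (Sum.elim (y z) (deriv y z) : Fin (m + 1) ⊕ Fin (m + 1) → ℂ)) (z := z₁) (by
      rintro (i | i)
      · exact (analyticAt_pi_iff.mp hy) i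
      · exact (analyticAt_pi_iff.mp hy.deriv) i) (mapC c q)
  exact h1

/-- Vanishing of the certificates along entire curves. -/
theorem curve_vanish {m : ℕ} {d : ι → ℕ} [Finite ι] (c : Coef (m + 1) d → ℂ)
    {Y : ℂ → ℂ → Fin (m + 1) → ℂ} (hY : LiftFamily Y)
    (hYg : ∀ z₁, ∀ᶠ z in 𝓝 z₁, ∀ i, eval (Y z₁ z) (gp c i) = 0)
    {B : Matrix (Fin (m + 1)) (Fin (m + 1)) ℚ} {P : Fin (m + 1) → UR (m + 1) d} {a b M : ℕ}
    (h : Cert B P a b M) (z : ℂ) (j : Fin (m + 1)) :
    evU c (Y z z) (deriv (Y z) z) (P j) = 0 := by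
  obtain ⟨hYan, hY0, hYc⟩ := hY
  have hvan : ∀ z₁, ∀ᶠ z in 𝓝 z₁, Van c (Y z₁ z) (deriv (Y z₁) z) := fun z₁ =>
    van_curve (hYan z₁) (hYg z₁)
  obtain ⟨Φ, hΦ⟩ : ∃ Φ : ℂ → ℝ, Φ = fun z => Fi c B P a b M (Y z z) (deriv (Y z) z) := ⟨_, rfl⟩
  have hloc : ∀ z₁, ∀ᶠ z in 𝓝 z₁, Φ z = Fi c B P a b M (Y z₁ z) (deriv (Y z₁) z) := by
    intro z₁
    filter_upwards [hYc z₁, (hYan z₁).eventually_analyticAt, hvan z₁]
      with z ⟨l, hl1, hl2, hl3⟩ han hv
    rw [hΦ]
    have h1 : Y z z = l z • Y z₁ z := hl3.self_of_nhds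
    have h2 : deriv (Y z) z = l z • deriv (Y z₁) z + deriv l z • Y z₁ z := by
      have h3 : Y z =ᶠ[𝓝 z] fun w => l w • Y z₁ w := hl3
      rw [h3.deriv_eq]
      exact (hl1.differentiableAt.hasDerivAt.smul han.differentiableAt.hasDerivAt).deriv
    beta_reduce
    rw [h1, h2, Fi_smul h hv hl2]
  -- the local expression
  have hlin : ∀ z₁ k, AnalyticAt ℂ (fun z => (ratM ℂ B).mulVec (Y z₁ z) k) z₁ := by
    intro z₁ k
    have h1 : (fun z => (ratM ℂ B).mulVec (Y z₁ z) k) =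
        fun z => ∑ l, ratM ℂ B k l * Y z₁ z l := rfl
    rw [h1]
    exact Finset.analyticAt_fun_sum _ fun l _ =>
      analyticAt_const.mul ((analyticAt_pi_iff.mp (hYan z₁)) l)
  choose k hk using fun z₁ => exists_mulVec_ne h.det (hY0 z₁)
  obtain ⟨σ, hσ⟩ : ∃ σ : ℂ → ℂ → ℂ, σ = fun z₁ z => evU c (Y z₁ z) (deriv (Y z₁) z) (P (k z₁)) /
    (ratM ℂ B).mulVec (Y z₁ z) (k z₁) ^ M := ⟨_, rfl⟩
  have hσan : ∀ z₁, AnalyticAt ℂ (σ z₁) z₁ := by
    intro z₁
    rw [hσ]
    exact (analyticAt_evU c _ (hYan z₁)).div ((hlin z₁ _).pow M) (pow_ne_zero _ (hk z₁))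
  have hexp : ∀ z₁, ∀ᶠ z in 𝓝 z₁, Φ z = ‖σ z₁ z‖ ^ 2 * nsq (Y z₁ z) ^ (M - a - b) := by
    intro z₁
    filter_upwards [hloc z₁, hvan z₁, (hlin z₁ (k z₁)).continuousAt.eventually_ne (hk z₁)]
      with z h1 h2 h3
    rw [h1, Fi_eq h h2 h3, hσ]
  have hcoord : ∀ z₁ j, ContinuousAt (fun z => Y z₁ z j) z₁ := fun z₁ j =>
    ((analyticAt_pi_iff.mp (hYan z₁)) j).continuousAt
  have hcont : Continuous Φ := by
    rw [continuous_iff_continuousAt]
    intro z₁
    have h1 : ContinuousAt (fun z => ‖σ z₁ z‖ ^ 2 * nsq (Y z₁ z) ^ (M - a - b)) z₁ := by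
      apply ContinuousAt.mul
      · exact (hσan z₁).continuousAt.norm.pow 2
      · apply ContinuousAt.pow
        exact tendsto_finsetSum _ fun j _ => (hcoord z₁ j).norm.pow 2
    exact (continuousAt_congr (hexp z₁)).mpr h1
  have hnsq0 : ∀ x : Fin (m + 1) → ℂ, 0 ≤ nsq x := fun x =>
    Finset.sum_nonneg fun _ _ => by positivity
  have hnonneg : ∀ z, 0 ≤ Φ z := by
    intro z
    rw [(hexp z).self_of_nhds]
    have := hnsq0 (Y z z)
    positivity
  -- the constants
  obtain ⟨δ, hδ0, hδ⟩ := exists_lower (ratM ℂ B) (ratM_det B h.det) M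
  choose C hC0 hC using fun j => exists_bound (φ := mapC c (P j)) ((h.bi j).map _)
  obtain ⟨C₁, hC₁⟩ : ∃ C₁, C₁ = (∑ j, C j ^ 2) / δ := ⟨_, rfl⟩
  have hlt := h.lt
  have hb := h.one_le
  have hzero : ∀ z, Φ z = 0 := by
    refine growth (E := EuclideanSpace ℂ (Fin (m + 1))) hcont hnonneg (κ := b) (N := M - a - b)
      (by omega) (by omega) C₁ ?_
    intro z₁ _
    obtain ⟨X, hX⟩ : ∃ X : ℂ → EuclideanSpace ℂ (Fin (m + 1)),
      X = fun z => WithLp.toLp 2 (Y z₁ z) := ⟨_, rfl⟩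
    have hXan : AnalyticAt ℂ X z₁ := by
      rw [hX]
      exact ((PiLp.continuousLinearEquiv 2 ℂ (fun _ : Fin (m + 1) => ℂ)).symm :
        (Fin (m + 1) → ℂ) →L[ℂ] EuclideanSpace ℂ (Fin (m + 1))).analyticAt _ |>.comp (hYan z₁)
    have hX' : deriv X z₁ = WithLp.toLp 2 (deriv (Y z₁) z₁) := by
      have h1 : HasDerivAt (Y z₁) (deriv (Y z₁) z₁) z₁ := (hYan z₁).differentiableAt.hasDerivAt
      have h2 := (((PiLp.continuousLinearEquiv 2 ℂ (fun _ : Fin (m + 1) => ℂ)).symm :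
        (Fin (m + 1) → ℂ) →L[ℂ] EuclideanSpace ℂ (Fin (m + 1))).hasFDerivAt
          (x := Y z₁ z₁)).comp_hasDerivAt z₁ h1
      rw [hX]
      exact h2.deriv
    have hX0 : X z₁ ≠ 0 := by
      rw [hX]
      intro h0
      apply hY0 z₁
      exact (WithLp.toLp_eq_zero 2).mp h0
    refine ⟨σ z₁, X, hσan z₁, hXan, hX0, ?_, ?_⟩
    · filter_upwards [hexp z₁] with z h1
      rw [h1, nsq_eq, hX]
    · intro β
      rw [(hloc z₁).self_of_nhds, Fi, hX', hX]
      obtain ⟨x, hx⟩ : ∃ x, x = Y z₁ z₁ := ⟨_, rfl⟩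
      obtain ⟨v, hv⟩ : ∃ v, v = deriv (Y z₁) z₁ := ⟨_, rfl⟩
      have hvx := (hvan z₁).self_of_nhds
      have hx0 := hY0 z₁
      beta_reduce
      rw [← hx, ← hv] at hvx ⊢
      rw [← hx] at hx0
      obtain ⟨nx, hnx⟩ : ∃ nx : ℝ, nx = ‖(WithLp.toLp 2 x : EuclideanSpace ℂ (Fin (m + 1)))‖ :=
        ⟨_, rfl⟩
      have hnx0 : 0 < nx := by
        rw [hnx, norm_pos_iff]
        intro h0
        exact hx0 ((WithLp.toLp_eq_zero 2).mp h0)
      obtain ⟨w, hw⟩ : ∃ w : Fin (m + 1) → ℂ, w = v + (-β) • x := ⟨_, rfl⟩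
      have hw' : (WithLp.toLp 2 v : EuclideanSpace ℂ (Fin (m + 1))) - β • WithLp.toLp 2 x =
          WithLp.toLp 2 w := by
        rw [hw, WithLp.toLp_add, WithLp.toLp_smul, neg_smul, sub_eq_add_neg]
      rw [hw']
      obtain ⟨nw, hnw⟩ : ∃ nw : ℝ, nw = ‖(WithLp.toLp 2 w : EuclideanSpace ℂ (Fin (m + 1)))‖ :=
        ⟨_, rfl⟩
      have hnw0 : 0 ≤ nw := by rw [hnw]; exact norm_nonneg _
      have hest : ∀ j, ‖evU c x v (P j)‖ ^ 2 ≤ C j ^ 2 * (nx ^ (2 * a) * nw ^ (2 * b)) := by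
        intro j
        rw [← hvx.evU_shift (h.inv j) (-β), ← hw]
        have h1 := hC j x w
        rw [← hnx, ← hnw] at h1
        have h2 : ‖evU c x w (P j)‖ ≤ C j * nx ^ a * nw ^ b := h1
        calc ‖evU c x w (P j)‖ ^ 2 ≤ (C j * nx ^ a * nw ^ b) ^ 2 :=
              pow_le_pow_left₀ (norm_nonneg _) h2 2
          _ = C j ^ 2 * (nx ^ (2 * a) * nw ^ (2 * b)) := by ring
      have hnum : ∑ j, ‖evU c x v (P j)‖ ^ 2 ≤
          (∑ j, C j ^ 2) * (nx ^ (2 * a) * nw ^ (2 * b)) := by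
        rw [Finset.sum_mul]
        exact Finset.sum_le_sum fun j _ => hest j
      have hden := hδ x hx0
      rw [nsq_eq, ← hnx] at hden
      rw [← hnx, ← hnw, nsq_eq, ← hnx]
      obtain ⟨S, hS⟩ : ∃ S, S = ∑ j, ‖(ratM ℂ B).mulVec x j‖ ^ (2 * M) := ⟨_, rfl⟩
      rw [← hS] at hden ⊢
      have hS0 : 0 < S := lt_of_lt_of_le (by positivity) hden
      obtain ⟨e, he⟩ : ∃ e, M = a + b + e := ⟨M - (a + b), by omega⟩
      have he' : M - a - b = e := by omega
      rw [he', hC₁]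
      have hCs : 0 ≤ ∑ j, C j ^ 2 := Finset.sum_nonneg fun _ _ => by positivity
      calc (∑ j, ‖evU c x v (P j)‖ ^ 2) / S * (nx ^ 2) ^ e
          ≤ ((∑ j, C j ^ 2) * (nx ^ (2 * a) * nw ^ (2 * b))) / (δ * (nx ^ 2) ^ M) *
            (nx ^ 2) ^ e := by gcongr
        _ = (∑ j, C j ^ 2) / δ * (nw / nx) ^ (2 * b) := by
            have h1 : (nx ^ 2) ^ M = nx ^ (2 * a) * nx ^ (2 * b) * (nx ^ 2) ^ e := by
              rw [he, ← pow_mul, ← pow_mul, ← pow_add, ← pow_add]
              congr 1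
              ring
            rw [h1, div_pow]
            field_simp
  -- conclusion
  have h1 := hzero z
  rw [(hexp z).self_of_nhds] at h1
  have hnz : 0 < nsq (Y z z) := by
    obtain ⟨i, hi⟩ : ∃ i, Y z z i ≠ 0 := by
      by_contra hcon
      push Not at hcon
      exact hY0 z (funext hcon)
    refine lt_of_lt_of_le ?_ (Finset.single_le_sum (f := fun j => ‖Y z z j‖ ^ 2)
      (fun _ _ => by positivity) (Finset.mem_univ i))
    have := norm_pos_iff.mpr hi
    positivity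
  have h2 : σ z z = 0 := by
    rcases mul_eq_zero.mp h1 with h3 | h3
    · exact norm_eq_zero.mp (pow_eq_zero_iff (two_ne_zero) |>.mp h3)
    · exact absurd h3 (pow_ne_zero _ hnz.ne')
  rw [hσ] at h2
  have h3 : evU c (Y z z) (deriv (Y z) z) (P (k z)) = 0 := by
    rcases div_eq_zero_iff.mp h2 with h4 | h4
    · exact h4
    · exact absurd h4 (pow_ne_zero _ (hk z))
  have h5 := (hvan z).self_of_nhds _ (h.compat (k z) j)
  rw [map_sub, map_mul, map_mul, map_pow, map_pow, evU_yy, evU_yy, h3, mul_zero, sub_zero] at h5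
  exact (mul_eq_zero.mp h5).resolve_left (pow_ne_zero _ (hk z))

end curve

end Pool.Agent.Lib.GGL.CI
end

section

/-!
Entire curves in general complete intersections of high codimension.
-/

open MvPolynomial Filter Topology

namespace Pool.Agent.Lib.GGL.CI

variable {ι : Type}

/-- the forms vanish along the lifts -/
lemma eval_lift {m : ℕ} {d : ι → ℕ} (c : Coef (m + 1) d → ℂ) {f : ℂ → PSpace m}
    {F : ℂ → Fin (m + 1) → ℂ} {z₀ : ℂ} (hF : IsLift f F z₀)
    (hf : ∀ z i, eval (f z).rep (gp c i) = 0) :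
    ∀ᶠ z in 𝓝 z₀, ∀ i, eval (F z) (gp c i) = 0 := by
  filter_upwards [hF.2] with z ⟨h1, h2⟩ i
  obtain ⟨a, ha⟩ := Projectivization.exists_smul_eq_mk_rep ℂ (F z) h1
  have h3 : (f z).rep = (a : ℂ) • F z := by
    rw [h2, ← ha]
    rfl
  have h4 := hf z i
  rw [h3, eval_smul_of_homogeneous (gp_hom c i)] at h4
  rcases mul_eq_zero.mp h4 with h | h
  · exact absurd (eq_zero_of_pow_eq_zero h) a.ne_zero
  · exact h

theorem curve_const {m : ℕ} {d : ι → ℕ} [Finite ι] {Θ : MvPolynomial (Coef (m + 1) d) ℚ}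
    (hΘ : ∀ i0 i1 : Fin (m + 1), ∃ M : ℕ,
      C Θ * plk (MvPolynomial (Coef (m + 1) d) ℚ) i0 i1 ^ M ∈
        IAB d (m + 1) Set.univ Set.univ ⊔ Ideal.span (certSet (m + 1) d))
    (c : Coef (m + 1) d → ℂ) (hc : aeval c Θ ≠ 0)
    (f : ℂ → PSpace m) (hf : ∀ z, HolomorphicNear f z)
    (hfX : ∀ z i, eval (f z).rep (gp c i) = 0) (z w : ℂ) : f z = f w := by
  choose Y hYl using hf
  have hY : LiftFamily Y := liftFamily_of_lifts hYl
  have hYg : ∀ z₁, ∀ᶠ z in 𝓝 z₁, ∀ i, eval (Y z₁ z) (gp c i) = 0 := fun z₁ =>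
    eval_lift c (hYl z₁) hfX
  have hdep : ∀ z, ¬ LinearIndependent ℂ ![Y z z, deriv (Y z) z] := by
    intro z hli
    obtain ⟨i0, i1, hne⟩ := exists_minor hli
    obtain ⟨M, hM⟩ := hΘ i0 i1
    have hvan : Van c (Y z z) (deriv (Y z) z) := (van_curve (hY.1 z) (hYg z)).self_of_nhds
    have hle : IAB d (m + 1) Set.univ Set.univ ⊔ Ideal.span (certSet (m + 1) d) ≤
        RingHom.ker (evU c (Y z z) (deriv (Y z) z)) := by
      rw [sup_le_iff]
      constructor
      · intro q hq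
        exact hvan q hq
      · rw [Ideal.span_le]
        rintro q ⟨B, P, a, b, M, j, hcert, rfl⟩
        exact curve_vanish c hY hYg hcert z j
    have h1 := hle hM
    rw [RingHom.mem_ker, map_mul, map_pow, evU_C] at h1
    have h2 : evU c (Y z z) (deriv (Y z) z) (plk (MvPolynomial (Coef (m + 1) d) ℚ) i0 i1) =
        Y z z i0 * deriv (Y z) z i1 - Y z z i1 * deriv (Y z) z i0 := by
      rw [plk, map_sub, map_mul, map_mul, evU_inl, evU_inr, evU_inl, evU_inr]
    rw [h2] at h1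
    rcases mul_eq_zero.mp h1 with h | h
    · exact hc h
    · exact hne (eq_zero_of_pow_eq_zero h)
  obtain ⟨l, hl, hlz⟩ := hY.const hdep z w
  obtain ⟨h1, h2⟩ := (hYl z).2.self_of_nhds
  obtain ⟨h3, h4⟩ := (hYl w).2.self_of_nhds
  rw [h2, h4, Projectivization.mk_eq_mk_iff']
  exact ⟨l, hlz.symm⟩

/-- Entire curves in general complete intersections. -/
theorem exists_exceptional {m : ℕ} {d : ι → ℕ} [Fintype ι] (hd : ∀ i, 2 ≤ d i) {n : ℕ}
    (hn : 1 ≤ n) (hN : m + 1 = Fintype.card ι + (n + 1)) (hc : 2 * n - 1 ≤ Fintype.card ι)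
    (hnum : NumCond (m + 1) n d) :
    ∃ Θ : MvPolynomial (Coef (m + 1) d) ℚ, Θ ≠ 0 ∧ ∀ c : Coef (m + 1) d → ℂ, aeval c Θ ≠ 0 →
      ∀ f : ℂ → PSpace m, (∀ z, HolomorphicNear f z) →
        (∀ z i, eval (f z).rep (gp c i) = 0) → ∀ z w, f z = f w := by
  obtain ⟨Θ, h1, h2⟩ := exists_Theta hd hn hN hc hnum
  exact ⟨Θ, h1, fun c hc f hf hfX z w => curve_const h2 c hc f hf hfX z w⟩

end Pool.Agent.Lib.GGL.CI
end
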