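import Mathlib
import Pool.Agent.Lib.MP_8d161d_ag.Mg.G010
import Pool.Agent.Lib.MP_8d161d_ag.Taylor

section

/-!
Counting: few exponents of small degree (Chernoff bound with a free threshold).
-/

open Filter Topology MvPolynomial Module

namespace Pool.Agent.Lib.GGL.LD

open SM

/-- Chernoff's bound for the number of exponents of small degree. -/
theorem card_small_t (q k t s r : ℕ) (hk : 1 ≤ k) (hts : t + s = k) (hr : 1 ≤ r) :
    (Fintype.card {f : Fin q → Fin (2 * k * r + 1) // ∑ j, (f j : ℕ) ≤ t * q * r} : ℝ) ≤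
      (2 * k * r + 1 : ℝ) ^ q * Real.exp (-(s ^ 2 * q / (2 * k ^ 2))) := by
  have hk0 : (0 : ℝ) < k := by exact_mod_cast hk
  have hr0 : (0 : ℝ) < r := by exact_mod_cast hr
  have hs0 : (0 : ℝ) ≤ s := Nat.cast_nonneg s
  have hkts : (k : ℝ) = t + s := by rw [← hts]; push_cast; ring
  obtain ⟨lam, hlam⟩ : ∃ lam : ℝ, lam = s / (k ^ 2 * r) := ⟨_, rfl⟩
  have hlam0 : 0 ≤ lam := by rw [hlam]; positivity
  obtain ⟨K, hK⟩ : ∃ K : ℕ, K = 2 * k * r := ⟨_, rfl⟩
  have hKr : (K : ℝ) = 2 * k * r := by rw [hK]; push_cast; ring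
  have h1 := sum_exp_le K lam
  -- the generating function
  have h2 : (∑ i ∈ Finset.range (K + 1), Real.exp (-(lam * i))) ^ q =
      ∑ f : Fin q → Fin (K + 1), Real.exp (-(lam * ((∑ j, (f j : ℕ) : ℕ) : ℝ))) := by
    rw [Finset.sum_range, Fintype.sum_pow]
    refine Finset.sum_congr rfl fun f _ => ?_
    rw [← Real.exp_sum]
    congr 1
    push_cast
    rw [Finset.mul_sum, Finset.sum_neg_distrib]
  have h3 : (Fintype.card {f : Fin q → Fin (K + 1) // ∑ j, (f j : ℕ) ≤ t * q * r} : ℝ) *
      Real.exp (-(lam * ((t * q * r : ℕ) : ℝ))) ≤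
      (∑ i ∈ Finset.range (K + 1), Real.exp (-(lam * i))) ^ q := by
    rw [h2, Fintype.card_subtype]
    calc ((Finset.univ.filter fun f : Fin q → Fin (K + 1) =>
          ∑ j, (f j : ℕ) ≤ t * q * r).card : ℝ) *
          Real.exp (-(lam * ((t * q * r : ℕ) : ℝ)))
        = ∑ f ∈ Finset.univ.filter fun f : Fin q → Fin (K + 1) =>
          ∑ j, (f j : ℕ) ≤ t * q * r,
            Real.exp (-(lam * ((t * q * r : ℕ) : ℝ))) := by
          rw [Finset.sum_const, nsmul_eq_mul]
      _ ≤ ∑ f ∈ Finset.univ.filter fun f : Fin q → Fin (K + 1) =>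
          ∑ j, (f j : ℕ) ≤ t * q * r,
            Real.exp (-(lam * ((∑ j, (f j : ℕ) : ℕ) : ℝ))) := by
          refine Finset.sum_le_sum fun f hf => ?_
          rw [Finset.mem_filter] at hf
          refine Real.exp_le_exp.2 (neg_le_neg (mul_le_mul_of_nonneg_left ?_ hlam0))
          exact_mod_cast hf.2
      _ ≤ ∑ f : Fin q → Fin (K + 1), Real.exp (-(lam * ((∑ j, (f j : ℕ) : ℕ) : ℝ))) :=
          Finset.sum_le_sum_of_subset_of_nonneg (Finset.filter_subset _ _)
            fun _ _ _ => (Real.exp_pos _).le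
  have h4 : (∑ i ∈ Finset.range (K + 1), Real.exp (-(lam * i))) ^ q ≤
      ((K + 1) * Real.exp (-(lam * K / 2) + lam ^ 2 * K ^ 2 / 8)) ^ q :=
    pow_le_pow_left₀ (Finset.sum_nonneg fun _ _ => (Real.exp_pos _).le) h1 q
  have h5 := h3.trans h4
  rw [mul_pow, ← Real.exp_nat_mul] at h5
  have h6 : (Fintype.card {f : Fin q → Fin (K + 1) // ∑ j, (f j : ℕ) ≤ t * q * r} : ℝ) ≤
      (K + 1) ^ q * (Real.exp (q * (-(lam * K / 2) + lam ^ 2 * K ^ 2 / 8)) *
        Real.exp (lam * ((t * q * r : ℕ) : ℝ))) := by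
    have h7 : Real.exp (-(lam * ((t * q * r : ℕ) : ℝ))) *
        Real.exp (lam * ((t * q * r : ℕ) : ℝ)) = 1 := by
      rw [← Real.exp_add, neg_add_cancel, Real.exp_zero]
    calc (Fintype.card {f : Fin q → Fin (K + 1) // ∑ j, (f j : ℕ) ≤ t * q * r} : ℝ)
        = (Fintype.card {f : Fin q → Fin (K + 1) // ∑ j, (f j : ℕ) ≤ t * q * r} : ℝ) *
          Real.exp (-(lam * ((t * q * r : ℕ) : ℝ))) *
          Real.exp (lam * ((t * q * r : ℕ) : ℝ)) := by
          exact (mul_assoc (Fintype.card {f : Fin q → Fin (K + 1) //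
            ∑ j, (f j : ℕ) ≤ t * q * r} : ℝ) _ _).symm ▸ (by rw [h7, mul_one])
      _ ≤ (K + 1) ^ q * Real.exp (q * (-(lam * K / 2) + lam ^ 2 * K ^ 2 / 8)) *
          Real.exp (lam * ((t * q * r : ℕ) : ℝ)) :=
          mul_le_mul_of_nonneg_right h5 (Real.exp_pos _).le
      _ = _ := by ring
  rw [← Real.exp_add] at h6
  have h8 : (q : ℝ) * (-(lam * K / 2) + lam ^ 2 * K ^ 2 / 8) +
      lam * ((t * q * r : ℕ) : ℝ) = -(s ^ 2 * q / (2 * k ^ 2)) := by
    have ht : (t : ℝ) = k - s := by rw [hkts]; ring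
    rw [Nat.cast_mul, Nat.cast_mul, hKr, hlam, ht]
    field_simp
    ring
  rw [h8, hKr] at h6
  subst hK
  exact h6

/-- The size of the logarithm of the growth factor. -/
theorem a1_pow_le {w k c : ℕ} (hw : 1 ≤ w) (hk : k = 24 * w) (hc : c = Nat.clog 2 w + 6) :
    2 * k + 2 ≤ 2 ^ c := by
  have h1 : w ≤ 2 ^ Nat.clog 2 w := Nat.le_pow_clog (by norm_num) w
  have h2 : 2 ^ c = 2 ^ Nat.clog 2 w * 64 := by
    rw [hc, pow_add]
    norm_num
  rw [h2, hk]
  omega

theorem count_w {n w k t q : ℕ} (hw : 1 ≤ w) (hk : k = 24 * w) (ht : t + 10 = k)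
    (hq : q = 24 * w ^ 2 * (Nat.clog 2 w + 6) * (n + 1)) :
    ∀ r, 1 ≤ r → (2 * k + 1) * ((2 * k + 2) ^ (2 * (n + 1)) + 1) * Fintype.card
      {f : Fin q → Fin (2 * k * r + 1) // ∑ j, (f j : ℕ) ≤ t * q * r} ≤
      (2 * k * r + 1) ^ q := by
  intro r hr
  have h1 := card_small_t q k t 10 r (by omega) ht hr
  obtain ⟨N, hN⟩ : ∃ N : ℕ, N = Fintype.card
      {f : Fin q → Fin (2 * k * r + 1) // ∑ j, (f j : ℕ) ≤ t * q * r} := ⟨_, rfl⟩
  rw [← hN] at h1 ⊢
  obtain ⟨c, hc⟩ : ∃ c : ℕ, c = Nat.clog 2 w + 6 := ⟨_, rfl⟩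
  have hkc := a1_pow_le hw hk hc
  rw [← hc] at hq
  have hw0 : (0 : ℝ) < w := by exact_mod_cast hw
  -- the exponent
  have h3 : (((10 : ℕ) : ℝ) ^ 2 * (q : ℝ) / (2 * (k : ℝ) ^ 2)) = 25 / 12 * (c * (n + 1)) := by
    rw [hq, hk]
    push_cast
    field_simp
    ring
  rw [h3] at h1
  -- the growth factor
  have h4 : (2 * k + 1) * ((2 * k + 2) ^ (2 * (n + 1)) + 1) ≤ 2 ^ (3 * (c * (n + 1))) := by
    have h5 : 2 * k + 1 ≤ (2 * k + 2) ^ (2 * (n + 1)) := by
      calc 2 * k + 1 ≤ (2 * k + 2) ^ 1 := by rw [pow_one]; omega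
        _ ≤ (2 * k + 2) ^ (2 * (n + 1)) := Nat.pow_le_pow_right (by omega) (by omega)
    calc (2 * k + 1) * ((2 * k + 2) ^ (2 * (n + 1)) + 1)
        = (2 * k + 1) * (2 * k + 2) ^ (2 * (n + 1)) + (2 * k + 1) := by ring
      _ ≤ (2 * k + 1) * (2 * k + 2) ^ (2 * (n + 1)) + (2 * k + 2) ^ (2 * (n + 1)) := by
          exact Nat.add_le_add_left h5 _
      _ = (2 * k + 2) ^ (2 * (n + 1) + 1) := by ring
      _ ≤ (2 ^ c) ^ (2 * (n + 1) + 1) := Nat.pow_le_pow_left hkc _
      _ = 2 ^ (c * (2 * (n + 1) + 1)) := by rw [pow_mul]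
      _ ≤ 2 ^ (3 * (c * (n + 1))) := by
          refine Nat.pow_le_pow_right (by norm_num) ?_
          have h6 : 2 * (n + 1) + 1 ≤ 3 * (n + 1) := by omega
          calc c * (2 * (n + 1) + 1) ≤ c * (3 * (n + 1)) := Nat.mul_le_mul_left _ h6
            _ = 3 * (c * (n + 1)) := by ring
  have h5 : ((2 : ℝ) ^ (3 * (c * (n + 1)))) ≤ Real.exp (25 / 12 * (c * (n + 1))) := by
    have h6 : (2 : ℝ) ^ (3 * (c * (n + 1))) = Real.exp (3 * Real.log 2 * (c * (n + 1))) := by
      have h7 : (2 : ℝ) = Real.exp (Real.log 2) := (Real.exp_log (by norm_num)).symm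
      conv_lhs => rw [h7]
      rw [← Real.exp_nat_mul]
      congr 1
      push_cast
      ring
    rw [h6]
    refine Real.exp_le_exp.2 (mul_le_mul_of_nonneg_right ?_ (by positivity))
    have := Real.log_two_lt_d9
    linarith
  have h6 : (((2 * k + 1) * ((2 * k + 2) ^ (2 * (n + 1)) + 1) : ℕ) : ℝ) ≤
      Real.exp (25 / 12 * (c * (n + 1))) := by
    refine le_trans ?_ h5
    exact_mod_cast h4
  have h7 : (((2 * k + 1) * ((2 * k + 2) ^ (2 * (n + 1)) + 1) : ℕ) : ℝ) * N ≤
      (2 * k * r + 1 : ℝ) ^ q := by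
    calc (((2 * k + 1) * ((2 * k + 2) ^ (2 * (n + 1)) + 1) : ℕ) : ℝ) * N
        ≤ Real.exp (25 / 12 * (c * (n + 1))) * ((2 * k * r + 1 : ℝ) ^ q *
          Real.exp (-(25 / 12 * (c * (n + 1))))) :=
          mul_le_mul h6 h1 (Nat.cast_nonneg _) (Real.exp_pos _).le
      _ = (2 * k * r + 1 : ℝ) ^ q *
          (Real.exp (25 / 12 * (c * (n + 1))) * Real.exp (-(25 / 12 * (c * (n + 1))))) := by ring
      _ = (2 * k * r + 1 : ℝ) ^ q := by
          rw [← Real.exp_add, add_neg_cancel, Real.exp_zero, mul_one]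
  exact_mod_cast h7

end Pool.Agent.Lib.GGL.LD
end

section

/-!
Weighted homogeneous polynomials: factors, scaling, substitution.
-/

open MvPolynomial

namespace Pool.Agent.Lib.GGL

section

variable {σ : Type*} {R : Type*} [CommRing R] (w : σ → ℕ)

/-- the scaling homomorphism `X_i ↦ λ ^ w_i X_i` -/
noncomputable def Lam : MvPolynomial σ R →ₐ[R] Polynomial (MvPolynomial σ R) :=
  aeval fun i => Polynomial.C (X i) * Polynomial.X ^ w i

lemma Lam_X (i : σ) : Lam w (X i : MvPolynomial σ R) = Polynomial.C (X i) * Polynomial.X ^ w i := by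
  simp [Lam]

lemma Lam_C (r : R) : Lam w (C r : MvPolynomial σ R) = Polynomial.C (C r) := by
  rw [Lam, aeval_C]
  rfl

lemma Lam_monomial (d : σ →₀ ℕ) (r : R) :
    Lam w (monomial d r) = Polynomial.C (monomial d r) * Polynomial.X ^ (Finsupp.weight w d) := by
  induction d using Finsupp.induction generalizing r with
  | zero =>
    have h : (monomial 0 r : MvPolynomial σ R) = C r := rfl
    rw [h, Lam_C, map_zero, pow_zero, mul_one]
  | single_add i k d hi hk ih =>
    have h1 : (monomial (Finsupp.single i k + d) r : MvPolynomial σ R) =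
        X i ^ k * monomial d r := by
      rw [X_pow_eq_monomial, monomial_mul, one_mul]
    rw [h1, map_mul, map_pow, Lam_X, ih, map_add, Finsupp.weight_single, Polynomial.C_mul,
      Polynomial.C_pow, pow_add, smul_eq_mul, mul_comm k, pow_mul]
    ring

lemma coeff_coeff_Lam (φ : MvPolynomial σ R) (n : ℕ) (d : σ →₀ ℕ) :
    coeff d ((Lam w φ).coeff n) = if Finsupp.weight w d = n then coeff d φ else 0 := by
  classical
  induction φ using MvPolynomial.induction_on' with
  | monomial e r =>
    rw [Lam_monomial, Polynomial.coeff_C_mul, Polynomial.coeff_X_pow]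
    by_cases h : n = Finsupp.weight w e
    · rw [if_pos h, mul_one, coeff_monomial]
      by_cases hed : e = d
      · rw [if_pos hed, ← hed, if_pos h.symm]
      · rw [if_neg hed, ite_self]
    · rw [if_neg h, mul_zero, coeff_zero, coeff_monomial]
      by_cases hed : e = d
      · rw [← hed, if_neg (Ne.symm h)]
      · rw [if_neg hed, ite_self]
  | add p q hp hq =>
    rw [map_add, Polynomial.coeff_add, coeff_add, hp, hq, coeff_add]
    split_ifs <;> simp

lemma Lam_eq_iff (φ : MvPolynomial σ R) (n : ℕ) :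
    IsWeightedHomogeneous w φ n ↔ Lam w φ = Polynomial.C φ * Polynomial.X ^ n := by
  constructor
  · intro h
    ext k d
    rw [coeff_coeff_Lam, Polynomial.coeff_C_mul, Polynomial.coeff_X_pow]
    by_cases h0 : coeff d φ = 0
    · rw [h0, ite_self]
      by_cases hk : k = n
      · rw [if_pos hk, mul_one, h0]
      · rw [if_neg hk, mul_zero, coeff_zero]
    · have h1 := h h0
      rw [h1]
      by_cases hk : k = n
      · rw [if_pos hk, if_pos hk.symm, mul_one]
      · rw [if_neg hk, if_neg (Ne.symm hk), mul_zero, coeff_zero]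
  · intro h d hd
    by_contra hne
    have h1 := coeff_coeff_Lam w φ (Finsupp.weight w d) d
    rw [if_pos rfl, h, Polynomial.coeff_C_mul, Polynomial.coeff_X_pow, if_neg hne, mul_zero,
      coeff_zero] at h1
    exact hd h1.symm

lemma Lam_injective : Function.Injective (Lam w : MvPolynomial σ R →ₐ[R] _) := by
  intro φ ψ h
  ext d
  have h1 := coeff_coeff_Lam w φ (Finsupp.weight w d) d
  have h2 := coeff_coeff_Lam w ψ (Finsupp.weight w d) d
  rw [if_pos rfl] at h1 h2
  rw [← h1, ← h2, h]

/-- A factor of a weighted homogeneous polynomial is weighted homogeneous. -/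
theorem isWeightedHomogeneous_of_mul [IsDomain R] {φ ψ : MvPolynomial σ R} {n : ℕ}
    (h : IsWeightedHomogeneous w (φ * ψ) n) (hne : φ * ψ ≠ 0) :
    ∃ a, IsWeightedHomogeneous w φ a := by
  rw [Lam_eq_iff, map_mul] at h
  have hφ : Lam w φ ≠ 0 := by
    intro h0
    apply hne
    have := Lam_injective w (h0.trans (map_zero _).symm)
    rw [this, zero_mul]
  have hψ : Lam w ψ ≠ 0 := by
    intro h0
    apply hne
    have := Lam_injective w (h0.trans (map_zero _).symm)
    rw [this, mul_zero]
  have hC : Polynomial.C (φ * ψ) ≠ 0 := by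
    rwa [Ne, Polynomial.C_eq_zero]
  have h1 := congrArg Polynomial.natDegree h
  have h2 := congrArg Polynomial.natTrailingDegree h
  rw [Polynomial.natDegree_mul hφ hψ, Polynomial.natDegree_mul_X_pow _ hC,
    Polynomial.natDegree_C] at h1
  rw [Polynomial.natTrailingDegree_mul hφ hψ, Polynomial.natTrailingDegree_mul_X_pow hC,
    Polynomial.natTrailingDegree_C] at h2
  have h3 := Polynomial.natTrailingDegree_le_natDegree (Lam w φ)
  have h4 := Polynomial.natTrailingDegree_le_natDegree (Lam w ψ)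
  refine ⟨(Lam w φ).natDegree, ?_⟩
  intro d hd
  have h5 := coeff_coeff_Lam w φ (Finsupp.weight w d) d
  rw [if_pos rfl] at h5
  have h6 : (Lam w φ).coeff (Finsupp.weight w d) ≠ 0 := by
    intro h0
    rw [h0, coeff_zero] at h5
    exact hd h5.symm
  have h7 := Polynomial.le_natDegree_of_ne_zero h6
  have h8 := Polynomial.natTrailingDegree_le_of_ne_zero h6
  omega

theorem isHomogeneous_of_mul [IsDomain R] {φ ψ : MvPolynomial σ R} {n : ℕ}
    (h : (φ * ψ).IsHomogeneous n) (hne : φ * ψ ≠ 0) : ∃ a, φ.IsHomogeneous a :=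
  isWeightedHomogeneous_of_mul 1 h hne

theorem isHomogeneous_of_dvd [IsDomain R] {φ χ : MvPolynomial σ R} {n : ℕ}
    (h : χ.IsHomogeneous n) (hne : χ ≠ 0) (hd : φ ∣ χ) : ∃ a, φ.IsHomogeneous a := by
  obtain ⟨ψ, rfl⟩ := hd
  exact isHomogeneous_of_mul h hne

/-- scaling -/
lemma aeval_weight {S : Type*} [CommRing S] [Algebra R S] {φ : MvPolynomial σ R} {n : ℕ}
    (h : IsWeightedHomogeneous w φ n) (f : σ → S) (l : S) :
    aeval (fun i => l ^ w i * f i) φ = l ^ n * aeval f φ := by
  have h1 : (aeval (fun i => l ^ w i * f i) : MvPolynomial σ R →ₐ[R] S) φ =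
      Polynomial.eval₂ (aeval f : MvPolynomial σ R →ₐ[R] S).toRingHom l (Lam w φ) := by
    induction φ using MvPolynomial.induction_on' with
    | monomial e r =>
      rw [Lam_monomial, Polynomial.eval₂_mul, Polynomial.eval₂_C, Polynomial.eval₂_X_pow]
      have hh : ∀ (g : σ → S), aeval g (monomial e r) = algebraMap R S r * e.prod fun i k => g i ^ k :=
        fun g => by rw [aeval_monomial]
      show _ = aeval f (monomial e r) * _
      rw [hh, hh, mul_assoc]
      congr 1
      simp only [Finsupp.prod, mul_pow, Finset.prod_mul_distrib]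
      rw [mul_comm]
      congr 1
      rw [Finsupp.weight_apply, Finsupp.sum, ← Finset.prod_pow_eq_pow_sum]
      refine Finset.prod_congr rfl fun i _ => ?_
      rw [← pow_mul, smul_eq_mul, mul_comm]
    | add p q hp hq =>
      have hL : ∀ g : MvPolynomial σ R, (aeval (fun i => l ^ w i * f i) :
          MvPolynomial σ R →ₐ[R] S) g =
          Polynomial.eval₂ (aeval f : MvPolynomial σ R →ₐ[R] S).toRingHom l (Lam w g) := by
        intro g
        have e : (aeval (fun i => l ^ w i * f i) : MvPolynomial σ R →ₐ[R] S).toRingHom =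
            (Polynomial.eval₂RingHom (aeval f : MvPolynomial σ R →ₐ[R] S).toRingHom l).comp
              (Lam w : MvPolynomial σ R →ₐ[R] _).toRingHom := by
          apply MvPolynomial.ringHom_ext
          · intro r
            show aeval _ (C r) = Polynomial.eval₂ _ _ (Lam w (C r))
            rw [Lam_C, Polynomial.eval₂_C, aeval_C]
            show _ = aeval f (C r)
            rw [aeval_C]
          · intro i
            show aeval _ (X i) = Polynomial.eval₂ _ _ (Lam w (X i))
            rw [Lam_X, Polynomial.eval₂_mul, Polynomial.eval₂_C, Polynomial.eval₂_X_pow, aeval_X]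
            show _ = aeval f (X i) * _
            rw [aeval_X, mul_comm]
        exact congrArg (fun F => F g) e
      exact hL _
  rw [h1, (Lam_eq_iff w φ n).mp h, Polynomial.eval₂_mul, Polynomial.eval₂_C,
    Polynomial.eval₂_X_pow, mul_comm]
  rfl

/-- substitution -/
lemma aeval_isHomogeneous {τ : Type*} {S : Type*} [CommRing S] [Algebra R S]
    {φ : MvPolynomial σ R} {n : ℕ} (h : IsWeightedHomogeneous w φ n)
    (f : σ → MvPolynomial τ S) (hf : ∀ i, (f i).IsHomogeneous (w i)) :
    (aeval f φ).IsHomogeneous n := by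
  rw [aeval_def, eval₂_eq]
  refine IsHomogeneous.sum _ _ _ fun d hd => ?_
  have h1 : Finsupp.weight w d = n := h (mem_support_iff.mp hd)
  have h2 : (algebraMap R (MvPolynomial τ S)) (coeff d φ) = C (algebraMap R S (coeff d φ)) := rfl
  rw [h2, ← h1]
  apply IsHomogeneous.C_mul
  rw [Finsupp.weight_apply, Finsupp.sum]
  apply IsHomogeneous.prod
  intro i _
  rw [smul_eq_mul, mul_comm]
  exact (hf i).pow _

end

end Pool.Agent.Lib.GGL
end

section

/-!
Coefficientwise derivations of polynomial rings, chain rules, and coprimality of a polynomial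
with its derivative.
-/

open MvPolynomial

namespace Pool.Agent.Lib.GGL

section

variable {σ : Type*} {R : Type*} [CommRing R] [Algebra ℂ R] (d : Derivation ℂ R R)

/-- the coefficientwise derivation -/
noncomputable def cd (φ : MvPolynomial σ R) : MvPolynomial σ R :=
  ∑ m ∈ φ.support, monomial m (d (coeff m φ))

lemma coeff_cd (φ : MvPolynomial σ R) (m : σ →₀ ℕ) : coeff m (cd d φ) = d (coeff m φ) := by
  classical
  rw [cd, coeff_sum]
  simp only [coeff_monomial]
  rw [Finset.sum_ite_eq']
  split_ifs with h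
  · rfl
  · rw [notMem_support_iff.mp h, map_zero]

lemma cd_add (φ ψ : MvPolynomial σ R) : cd d (φ + ψ) = cd d φ + cd d ψ := by
  ext m
  simp only [coeff_cd, coeff_add, map_add]

lemma cd_zero : cd d (0 : MvPolynomial σ R) = 0 := by
  ext m
  simp only [coeff_cd, coeff_zero, map_zero]

lemma cd_mul (φ ψ : MvPolynomial σ R) : cd d (φ * ψ) = cd d φ * ψ + φ * cd d ψ := by
  classical
  ext m
  rw [coeff_cd, coeff_mul, coeff_add, coeff_mul, coeff_mul, map_sum, ← Finset.sum_add_distrib]
  refine Finset.sum_congr rfl fun q _ => ?_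
  rw [coeff_cd, coeff_cd, Derivation.leibniz, smul_eq_mul, smul_eq_mul]
  ring

lemma cd_C (r : R) : cd d (C r : MvPolynomial σ R) = C (d r) := by
  classical
  ext m
  rw [coeff_cd, coeff_C, coeff_C]
  split_ifs
  · rfl
  · rw [map_zero]

lemma cd_X (i : σ) : cd d (X i : MvPolynomial σ R) = 0 := by
  classical
  ext m
  rw [coeff_cd, coeff_X, coeff_zero]
  split_ifs
  · exact d.map_one_eq_zero
  · rw [map_zero]

lemma cd_map (φ : MvPolynomial σ ℂ) : cd d (map (algebraMap ℂ R) φ) = 0 := by
  ext m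
  rw [coeff_cd, coeff_map, Derivation.map_algebraMap, coeff_zero]

lemma cd_sum {κ : Type*} (s : Finset κ) (f : κ → MvPolynomial σ R) :
    cd d (∑ i ∈ s, f i) = ∑ i ∈ s, cd d (f i) := by
  classical
  induction s using Finset.induction with
  | empty => simp [cd_zero]
  | insert i s hi ih => rw [Finset.sum_insert hi, Finset.sum_insert hi, cd_add, ih]

lemma totalDegree_cd_le (φ : MvPolynomial σ R) : (cd d φ).totalDegree ≤ φ.totalDegree := by
  rw [totalDegree, Finset.sup_le_iff]
  intro m hm
  apply le_totalDegree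
  rw [mem_support_iff, coeff_cd] at hm
  rw [mem_support_iff]
  intro h
  rw [h, map_zero] at hm
  exact hm rfl

lemma cd_isHomogeneous {φ : MvPolynomial σ R} {n : ℕ} (h : φ.IsHomogeneous n) :
    (cd d φ).IsHomogeneous n := by
  intro m hm
  apply h
  rw [coeff_cd] at hm
  intro h0
  rw [h0, map_zero] at hm
  exact hm rfl

/-- chain rule for evaluation -/
lemma der_eval [Fintype σ] (x : σ → R) (φ : MvPolynomial σ R) :
    d (eval x φ) = eval x (cd d φ) + ∑ i, eval x (pderiv i φ) * d (x i) := by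
  induction φ using MvPolynomial.induction_on with
  | C a =>
    rw [eval_C, cd_C, eval_C]
    simp
  | add p q hp hq =>
    simp only [map_add, cd_add, hp, hq, add_mul, Finset.sum_add_distrib]
    ring
  | mul_X p j hp =>
    classical
    rw [map_mul, Derivation.leibniz, hp, cd_mul, cd_X, eval_X, mul_zero, add_zero, map_mul, eval_X,
      smul_eq_mul, smul_eq_mul]
    have h1 : ∀ i, eval x (pderiv i (p * X j)) * d (x i) =
        x j * (eval x (pderiv i p) * d (x i)) + (if i = j then eval x p * d (x i) else 0) := by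
      intro i
      rw [Derivation.leibniz, pderiv_X, smul_eq_mul, smul_eq_mul, map_add, map_mul, map_mul, eval_X]
      by_cases hij : i = j
      · subst hij
        simp only [Pi.single_eq_same, map_one, if_true]
        ring
      · rw [if_neg hij, Pi.single_eq_of_ne (Ne.symm hij)]
        simp only [map_zero]
        ring
    rw [Finset.sum_congr rfl fun i _ => h1 i, Finset.sum_add_distrib, Finset.sum_ite_eq',
      if_pos (Finset.mem_univ _), ← Finset.mul_sum]
    ring

end

section

variable {n t : ℕ} {R : Type*} [CommRing R] [Algebra ℂ R]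

/-- Specialisation of the first group of variables. -/
noncomputable def sp (y : Fin (n + 1) → R) :
    MvPolynomial (Fin (n + 1) ⊕ Fin (t + 1)) ℂ →ₐ[ℂ] MvPolynomial (Fin (t + 1)) R :=
  aeval (Sum.elim (fun i => C (y i)) X)

lemma sp_inl (y : Fin (n + 1) → R) (i : Fin (n + 1)) :
    sp (t := t) y (X (Sum.inl i)) = C (y i) := by
  simp [sp]

lemma sp_inr (y : Fin (n + 1) → R) (i : Fin (t + 1)) :
    sp (n := n) y (X (Sum.inr i)) = X i := by
  simp [sp]

lemma sp_C (y : Fin (n + 1) → R) (a : ℂ) :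
    sp (t := t) y (C a) = C (algebraMap ℂ R a) := by
  rw [sp, aeval_C]
  rfl

lemma eval_sp (y : Fin (n + 1) → R) (x : Fin (t + 1) → R)
    (N : MvPolynomial (Fin (n + 1) ⊕ Fin (t + 1)) ℂ) :
    eval x (sp y N) = aeval (Sum.elim y x) N := by
  induction N using MvPolynomial.induction_on with
  | C a => rw [sp_C, eval_C, aeval_C]
  | add p q hp hq => rw [map_add, map_add, hp, hq, map_add]
  | mul_X p j hp =>
    rw [map_mul, map_mul, hp, map_mul, aeval_X]
    congr 1
    rcases j with j | j
    · rw [sp_inl, eval_C, Sum.elim_inl]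
    · rw [sp_inr, eval_X, Sum.elim_inr]

lemma map_sp {S : Type*} [CommRing S] [Algebra ℂ S] (h : R →ₐ[ℂ] S) (y : Fin (n + 1) → R)
    (N : MvPolynomial (Fin (n + 1) ⊕ Fin (t + 1)) ℂ) :
    map (h : R →+* S) (sp y N) = sp (fun i => h (y i)) N := by
  induction N using MvPolynomial.induction_on with
  | C a =>
    rw [sp_C, map_C, sp_C]
    congr 1
    exact h.commutes a
  | add p q hp hq => rw [map_add, map_add, hp, hq, map_add]
  | mul_X p j hp =>
    rw [map_mul, map_mul, hp, map_mul]
    congr 1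
    rcases j with j | j
    · rw [sp_inl, map_C, sp_inl]
      rfl
    · rw [sp_inr, map_X, sp_inr]

/-- the directional derivative of a specialisation -/
noncomputable def sp1 (y w : Fin (n + 1) → R) (N : MvPolynomial (Fin (n + 1) ⊕ Fin (t + 1)) ℂ) :
    MvPolynomial (Fin (t + 1)) R :=
  ∑ i, C (w i) * sp y (pderiv (Sum.inl i) N)

/-- chain rule for specialisation -/
lemma cd_sp (d : Derivation ℂ R R) (y : Fin (n + 1) → R)
    (N : MvPolynomial (Fin (n + 1) ⊕ Fin (t + 1)) ℂ) :
    cd d (sp y N) = sp1 y (fun i => d (y i)) N := by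
  rw [sp1]
  induction N using MvPolynomial.induction_on with
  | C a =>
    rw [sp_C, cd_C]
    simp
  | add p q hp hq =>
    simp only [map_add, cd_add, hp, hq, mul_add, Finset.sum_add_distrib]
  | mul_X p j hp =>
    rw [map_mul, cd_mul, hp]
    rcases j with j | j
    · rw [sp_inl, cd_C]
      have h1 : ∀ i, C (d (y i)) * sp y (pderiv (Sum.inl i) (p * X (Sum.inl j))) =
          C (d (y i)) * sp y (pderiv (Sum.inl i) p) * C (y j) +
            (if i = j then C (d (y i)) * sp y p else 0) := by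
        intro i
        rw [Derivation.leibniz, pderiv_X, smul_eq_mul, smul_eq_mul, map_add, map_mul, map_mul,
          sp_inl]
        by_cases hij : i = j
        · subst hij
          simp only [Pi.single_eq_same, map_one, if_true]
          ring
        · rw [if_neg hij, Pi.single_eq_of_ne (by simpa using Ne.symm hij)]
          simp only [map_zero]
          ring
      rw [Finset.sum_congr rfl fun i _ => h1 i, Finset.sum_add_distrib, Finset.sum_ite_eq',
        if_pos (Finset.mem_univ _), Finset.sum_mul]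
      ring
    · rw [sp_inr, cd_X, mul_zero, add_zero, Finset.sum_mul]
      refine Finset.sum_congr rfl fun i _ => ?_
      rw [Derivation.leibniz, pderiv_X, Pi.single_eq_of_ne (by simp), smul_zero, zero_add,
        smul_eq_mul, map_mul, sp_inr]
      ring

lemma map_sp1 {S : Type*} [CommRing S] [Algebra ℂ S] (h : R →ₐ[ℂ] S) (y w : Fin (n + 1) → R)
    (N : MvPolynomial (Fin (n + 1) ⊕ Fin (t + 1)) ℂ) :
    map (h : R →+* S) (sp1 y w N) = sp1 (fun i => h (y i)) (fun i => h (w i)) N := by
  rw [sp1, sp1, map_sum]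
  refine Finset.sum_congr rfl fun i _ => ?_
  rw [map_mul, map_C, map_sp]
  rfl

end

section

variable {σ : Type*}

/-- If `π` divides its derivative then it is a constant multiple of a polynomial with constant
coefficients. -/
lemma exists_const_of_dvd_cd {π : MvPolynomial σ (PowerSeries ℂ)} (hπ : π ≠ 0)
    (h : π ∣ cd (PowerSeries.derivative ℂ) π) :
    ∃ (u : PowerSeries ℂ) (π₀ : MvPolynomial σ ℂ),
      π = C u * map (algebraMap ℂ (PowerSeries ℂ)) π₀ := by
  obtain ⟨g, hg⟩ := h
  obtain ⟨g₀, hg₀⟩ : ∃ g₀ : PowerSeries ℂ, cd (PowerSeries.derivative ℂ) π = π * C g₀ := by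
    by_cases hg0 : g = 0
    · exact ⟨0, by rw [hg, hg0, map_zero]⟩
    · have h1 := totalDegree_mul_of_isDomain hπ hg0
      rw [← hg] at h1
      have h2 := totalDegree_cd_le (PowerSeries.derivative ℂ) π
      have h3 : g.totalDegree = 0 := by omega
      exact ⟨coeff 0 g, by rw [hg, ← totalDegree_eq_zero_iff_eq_C.mp h3]⟩
  obtain ⟨m₀, hm₀⟩ : ∃ m, coeff m π ≠ 0 := by
    by_contra hcon
    push Not at hcon
    exact hπ (MvPolynomial.ext _ _ fun m => by rw [hcon, coeff_zero])
  have h4 : ∀ m, PowerSeries.derivative ℂ (coeff m π) = coeff m π * g₀ := by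
    intro m
    rw [← coeff_cd, hg₀, mul_comm, coeff_C_mul, mul_comm]
  have h5 : ∀ m, ∃ c : ℂ, coeff m π = PowerSeries.C c * coeff m₀ π := by
    intro m
    apply exists_const_of_wronskian hm₀
    rw [h4, h4]
    ring
  choose c hc using h5
  refine ⟨coeff m₀ π, ∑ m ∈ π.support, monomial m (c m), ?_⟩
  classical
  ext1 m
  rw [coeff_C_mul, coeff_map, coeff_sum]
  simp only [coeff_monomial]
  rw [Finset.sum_ite_eq']
  split_ifs with h6
  · rw [hc m, mul_comm]
    rfl
  · rw [map_zero, mul_zero]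
    exact notMem_support_iff.mp h6

/-- a positive degree polynomial has a prime factor of positive degree -/
lemma exists_prime_dvd_totalDegree {R : Type*} [CommRing R] [IsDomain R]
    [UniqueFactorizationMonoid (MvPolynomial σ R)] (φ : MvPolynomial σ R)
    (hφ : φ ≠ 0) (hd : φ.totalDegree ≠ 0) :
    ∃ π : MvPolynomial σ R, Prime π ∧ π ∣ φ ∧ π.totalDegree ≠ 0 := by
  induction φ using UniqueFactorizationMonoid.induction_on_prime with
  | h₁ => exact absurd rfl hφ
  | h₂ x hx =>
    exfalso
    apply hd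
    obtain ⟨y, hy⟩ := hx.exists_right_inv
    have hx0 : x ≠ 0 := hφ
    have hy0 : y ≠ 0 := by
      rintro rfl
      rw [mul_zero] at hy
      exact zero_ne_one hy
    have := totalDegree_mul_of_isDomain hx0 hy0
    rw [hy, totalDegree_one] at this
    omega
  | h₃ a p ha hp ih =>
    by_cases hpd : p.totalDegree = 0
    · have h1 := totalDegree_mul_of_isDomain hp.ne_zero ha
      obtain ⟨π, h2, h3, h4⟩ := ih ha (by omega)
      exact ⟨π, h2, h3.mul_left p, h4⟩
    · exact ⟨p, hp, dvd_mul_right _ _, hpd⟩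

/-- A polynomial over formal power series without square factors and without factors with constant
coefficients is coprime to its derivative, up to constants. -/
theorem exists_coprime [Finite σ] {F : MvPolynomial σ (PowerSeries ℂ)} (hF : F ≠ 0)
    (hsq : ∀ π : MvPolynomial σ (PowerSeries ℂ), π.totalDegree ≠ 0 → ¬ π ^ 2 ∣ F)
    (hconst : ∀ π₀ : MvPolynomial σ ℂ, π₀.totalDegree ≠ 0 →
      ¬ map (algebraMap ℂ (PowerSeries ℂ)) π₀ ∣ F)
    {P Q : MvPolynomial σ (PowerSeries ℂ)}
    (hPQ : cd (PowerSeries.derivative ℂ) F * P = F * Q) :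
    ∃ u : PowerSeries ℂ, u ≠ 0 ∧ F ∣ C u * P := by
  obtain ⟨a, b, c, hab, hca, hcb⟩ := UniqueFactorizationMonoid.exists_reduced_factors F hF
    (cd (PowerSeries.derivative ℂ) F)
  have hc0 : c ≠ 0 := by
    rintro rfl
    rw [zero_mul] at hca
    exact hF hca.symm
  have hcdeg : c.totalDegree = 0 := by
    by_contra hdeg
    obtain ⟨π, hπ, hπc, hπd⟩ := exists_prime_dvd_totalDegree c hc0 hdeg
    have h1 : π ∣ F := by rw [← hca]; exact hπc.mul_right _
    have h2 : π ∣ cd (PowerSeries.derivative ℂ) F := by rw [← hcb]; exact hπc.mul_right _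
    obtain ⟨ρ, hρ⟩ := h1
    have h3 : π ∣ cd (PowerSeries.derivative ℂ) π * ρ := by
      rw [hρ, cd_mul] at h2
      exact (dvd_add_left (dvd_mul_right _ _)).mp h2
    have h4 : π ∣ cd (PowerSeries.derivative ℂ) π := by
      rcases hπ.dvd_or_dvd h3 with h | h
      · exact h
      · exfalso
        apply hsq π hπd
        rw [hρ, pow_two]
        exact mul_dvd_mul_left _ h
    obtain ⟨u, π₀, hu⟩ := exists_const_of_dvd_cd hπ.ne_zero h4
    have hu0 : u ≠ 0 := by
      rintro rfl
      rw [map_zero, zero_mul] at hu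
      exact hπ.ne_zero hu
    have hπ₀0 : map (algebraMap ℂ (PowerSeries ℂ)) π₀ ≠ 0 := by
      intro h0
      rw [h0, mul_zero] at hu
      exact hπ.ne_zero hu
    have hdeg₀ : (map (algebraMap ℂ (PowerSeries ℂ)) π₀).totalDegree ≠ 0 := by
      intro h0
      apply hπd
      rw [hu, totalDegree_mul_of_isDomain (by rwa [Ne, C_eq_zero]) hπ₀0, totalDegree_C, h0]
    have hunit : IsUnit (C u : MvPolynomial σ (PowerSeries ℂ)) := by
      rcases hπ.irreducible.isUnit_or_isUnit hu with h | h
      · exact h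
      · exfalso
        apply hdeg₀
        obtain ⟨y, hy⟩ := h.exists_right_inv
        have hy0 : y ≠ 0 := by
          rintro rfl
          rw [mul_zero] at hy
          exact zero_ne_one hy
        have := totalDegree_mul_of_isDomain hπ₀0 hy0
        rw [hy, totalDegree_one] at this
        omega
    apply hconst π₀
    · intro h0
      apply hdeg₀
      rw [totalDegree_eq_zero_iff_eq_C.mp h0, map_C, totalDegree_C]
    · rw [hρ, hu]
      exact Dvd.intro_left (C u) rfl |>.mul_right ρ
  rw [totalDegree_eq_zero_iff_eq_C] at hcdeg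
  have hu0 : coeff 0 c ≠ 0 := by
    intro h0
    rw [h0, map_zero] at hcdeg
    exact hc0 hcdeg
  refine ⟨coeff 0 c, hu0, ?_⟩
  have h5 : b * P = a * Q := by
    apply mul_left_cancel₀ hc0
    rw [← mul_assoc, ← mul_assoc, hcb, hca, hPQ]
  have h6 : a ∣ P := by
    have : a ∣ b * P := ⟨Q, h5⟩
    exact hab.dvd_of_dvd_mul_left this
  rw [← hcdeg, ← hca]
  exact mul_dvd_mul_left _ h6

end

end Pool.Agent.Lib.GGL
end

section

/-!
Kronecker's theorem on the coefficients of a product of polynomials.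
-/

open MvPolynomial

namespace Pool.Agent.Lib.GGL

section

variable {K : Type*} [Field K] {σ : Type*}

/-- a polynomial can be scaled to a primitive polynomial over a valuation ring -/
lemma exists_primitive_scale (V : ValuationSubring K) {f : MvPolynomial σ K} (hf : f ≠ 0) :
    ∃ (a : K) (f₀ : MvPolynomial σ V), a ≠ 0 ∧ f = C a * map V.subtype f₀ ∧
      ∃ l, coeff l f₀ = 1 := by
  classical
  have hne : f.support.Nonempty := by
    rw [Finset.nonempty_iff_ne_empty, Ne, support_eq_empty]
    exact hf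
  obtain ⟨l₀, hl₀, hmax⟩ := f.support.exists_max_image (fun l => V.valuation (coeff l f)) hne
  have ha : coeff l₀ f ≠ 0 := mem_support_iff.mp hl₀
  have hmem : ∀ l, coeff l f / coeff l₀ f ∈ V := by
    intro l
    rw [← V.valuation_le_one_iff, map_div₀]
    by_cases hl : l ∈ f.support
    · exact div_le_one_of_le₀ (hmax l hl) zero_le
    · rw [notMem_support_iff.mp hl, map_zero, zero_div]
      exact zero_le_one
  refine ⟨coeff l₀ f, ∑ l ∈ f.support, monomial l ⟨coeff l f / coeff l₀ f, hmem l⟩, ha, ?_,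
    l₀, ?_⟩
  · ext m
    rw [coeff_C_mul, coeff_map, coeff_sum]
    simp only [coeff_monomial]
    rw [Finset.sum_ite_eq']
    split_ifs with h
    · show coeff m f = coeff l₀ f * (coeff m f / coeff l₀ f)
      rw [mul_div_cancel₀ _ ha]
    · rw [map_zero, mul_zero]
      exact notMem_support_iff.mp h
  · rw [coeff_sum]
    simp only [coeff_monomial]
    rw [Finset.sum_ite_eq', if_pos hl₀]
    ext
    show coeff l₀ f / coeff l₀ f = 1
    exact div_self ha

lemma gauss_valuation (V : ValuationSubring K) {f g : MvPolynomial σ K}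
    (h : ∀ m, coeff m (f * g) ∈ V) (l m : σ →₀ ℕ) : coeff l f * coeff m g ∈ V := by
  classical
  by_cases hf : f = 0
  · rw [hf, coeff_zero, zero_mul]
    exact V.zero_mem
  by_cases hg : g = 0
  · rw [hg, coeff_zero, mul_zero]
    exact V.zero_mem
  obtain ⟨a, f₀, ha, hfa, l₀, hl₀⟩ := exists_primitive_scale V hf
  obtain ⟨b, g₀, hb, hgb, m₀, hm₀⟩ := exists_primitive_scale V hg
  -- some coefficient of the product is a unit
  obtain ⟨r, hr⟩ : ∃ r, IsUnit (coeff r (f₀ * g₀)) := by
    by_contra hcon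
    push Not at hcon
    have h1 : map (IsLocalRing.residue V) (f₀ * g₀) = 0 := by
      ext r
      rw [coeff_map, coeff_zero, IsLocalRing.residue_eq_zero_iff]
      exact (IsLocalRing.mem_maximalIdeal _).mpr (hcon r)
    rw [map_mul] at h1
    rcases mul_eq_zero.mp h1 with h2 | h2
    · have h3 := congrArg (coeff l₀) h2
      rw [coeff_map, hl₀, map_one, coeff_zero] at h3
      exact one_ne_zero h3
    · have h3 := congrArg (coeff m₀) h2
      rw [coeff_map, hm₀, map_one, coeff_zero] at h3
      exact one_ne_zero h3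
  have h1 : coeff r (f * g) = a * b * ((coeff r (f₀ * g₀) : V) : K) := by
    have h2 : f * g = C (a * b) * map V.subtype (f₀ * g₀) := by
      rw [hfa, hgb, map_mul (map V.subtype), C_mul]
      ring
    rw [h2, coeff_C_mul, coeff_map]
    rfl
  have hab : a * b ∈ V := by
    obtain ⟨u, hu⟩ := hr
    have h3 := h r
    rw [h1, ← hu] at h3
    have h4 : a * b = (a * b * ((u : V) : K)) * ((u⁻¹ : Vˣ) : V) := by
      rw [mul_assoc]
      have h5 : ((u : V) : K) * (((u⁻¹ : Vˣ) : V) : K) = 1 := by
        rw [← V.coe_mul, Units.mul_inv]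
        rfl
      rw [h5, mul_one]
    rw [h4]
    exact V.mul_mem _ _ h3 (SetLike.coe_mem _)
  have h2 : coeff l f * coeff m g = (a * b) * ((coeff l f₀ : V) : K) * ((coeff m g₀ : V) : K) := by
    rw [hfa, hgb, coeff_C_mul, coeff_C_mul, coeff_map, coeff_map]
    show a * (coeff l f₀ : V) * (b * (coeff m g₀ : V)) = _
    ring
  rw [h2]
  exact V.mul_mem _ _ (V.mul_mem _ _ hab (SetLike.coe_mem _)) (SetLike.coe_mem _)

/-- Kronecker's theorem. -/
theorem kronecker {S : Type*} [CommRing S] [Algebra S K] {f g : MvPolynomial σ K}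
    (h : ∀ m, IsIntegral S (coeff m (f * g))) (l m : σ →₀ ℕ) :
    IsIntegral S (coeff l f * coeff m g) := by
  by_contra hcon
  have : IsIntegrallyClosedIn (integralClosure S K).toSubring K := by
    rw [Subring.isIntegrallyClosedIn_iff]
    intro x hx
    have h1 : IsIntegral (integralClosure S K) x := hx
    exact isIntegral_trans (A := integralClosure S K) x h1
  have hx : coeff l f * coeff m g ∉ (integralClosure S K).toSubring := hcon
  obtain ⟨V, hV1, hV2⟩ := Subring.exists_le_valuationSubring_of_isIntegrallyClosedIn hx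
  exact hV2 (gauss_valuation V (fun r => hV1 (h r)) l m)

end

end Pool.Agent.Lib.GGL
end

section

/-!
The squarefree part of a polynomial over a field of fractions: integrality and homogeneity.
-/

open MvPolynomial

namespace Pool.Agent.Lib.GGL

section

/-- squarefree part -/
lemma exists_squarefree_part {R : Type*} [CommRing R] [IsDomain R] [UniqueFactorizationMonoid R]
    {N : R} (hN : N ≠ 0) :
    ∃ (G G' : R) (M : ℕ), Squarefree G ∧ N = G * G' ∧ N ∣ G ^ (M + 1) := by
  classical
  let _ : StrongNormalizationMonoid R := UniqueFactorizationMonoid.strongNormalizationMonoid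
  obtain ⟨G', hG'⟩ := UniqueFactorizationMonoid.radical_dvd_self (a := N)
  obtain ⟨M, hM⟩ := UniqueFactorizationMonoid.exists_dvd_radical_self_pow hN
  exact ⟨UniqueFactorizationMonoid.radical N, G', M, UniqueFactorizationMonoid.squarefree_radical,
    hG', hM.trans (pow_dvd_pow _ (Nat.le_succ M))⟩

end

section

variable {K : Type*} [Field K] {σ : Type*}

lemma exists_C_of_isUnit {u : MvPolynomial σ K} (hu : IsUnit u) : ∃ a : K, a ≠ 0 ∧ u = C a := by
  obtain ⟨v, hv⟩ := hu.exists_right_inv
  have hu0 : u ≠ 0 := by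
    rintro rfl
    rw [zero_mul] at hv
    exact zero_ne_one hv
  have hv0 : v ≠ 0 := by
    rintro rfl
    rw [mul_zero] at hv
    exact zero_ne_one hv
  have h1 := totalDegree_mul_of_isDomain hu0 hv0
  rw [hv, totalDegree_one] at h1
  have h2 : u.totalDegree = 0 := by omega
  rw [totalDegree_eq_zero_iff_eq_C] at h2
  refine ⟨coeff 0 u, ?_, h2⟩
  intro h0
  rw [h0, C_0] at h2
  exact hu0 h2

/-- scaling of the squarefree part and of its cofactor -/
lemma exists_scale_squarefree [Finite σ] (s : K ≃+* K) {N G G' : MvPolynomial σ K} {M : ℕ}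
    (hN : N ≠ 0) (hG : Squarefree G) (hNG : N = G * G') (hNM : N ∣ G ^ (M + 1)) {c : K}
    (hc : c ≠ 0) (hs : map (s : K →+* K) N = C c * N) :
    ∃ u : K, u ≠ 0 ∧ map (s : K →+* K) G = C u * G ∧ map (s : K →+* K) G' = C (u⁻¹ * c) * G' := by
  have hG0 : G ≠ 0 := by
    rintro rfl
    rw [zero_mul] at hNG
    exact hN hNG
  have hG'0 : G' ≠ 0 := by
    rintro rfl
    rw [mul_zero] at hNG
    exact hN hNG
  let S : MvPolynomial σ K ≃+* MvPolynomial σ K := mapEquiv σ s
  have hS : ∀ P, S P = map (s : K →+* K) P := fun P => rfl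
  have hSG : Squarefree (S G) := by
    intro x hx
    have h1 : S.symm x * S.symm x ∣ G := by
      have h2 := map_dvd S.symm hx
      rwa [map_mul, RingEquiv.symm_apply_apply] at h2
    have h2 := hG _ h1
    have h3 := h2.map S
    rwa [RingEquiv.apply_symm_apply] at h3
  have hcu : IsUnit (C c : MvPolynomial σ K) := (isUnit_iff_ne_zero.mpr hc).map C
  have hSN : S N = C c * N := hs
  -- the two divisibilities
  have h1 : G ∣ S G := by
    have h2 : G ∣ S G ^ (M + 1) := by
      have h3 : S N ∣ S G ^ (M + 1) := by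
        rw [← map_pow]
        exact map_dvd S hNM
      have h4 : G ∣ S N := by
        rw [hSN, hNG]
        exact (dvd_mul_right G G').mul_left _
      exact h4.trans h3
    exact (hG.dvd_pow_iff_dvd (Nat.succ_ne_zero M)).mp h2
  have h2 : S G ∣ G := by
    have h3 : S G ∣ G ^ (M + 1) := by
      have h4 : S G ∣ S N := map_dvd S (by rw [hNG]; exact dvd_mul_right G G')
      rw [hSN] at h4
      have h5 : S G ∣ N := (hcu.dvd_mul_left).mp h4
      exact h5.trans hNM
    exact (hSG.dvd_pow_iff_dvd (Nat.succ_ne_zero M)).mp h3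
  obtain ⟨v, hv⟩ := associated_of_dvd_dvd h1 h2
  obtain ⟨u, hu0, hu⟩ := exists_C_of_isUnit v.isUnit
  refine ⟨u, hu0, ?_, ?_⟩
  · rw [← hS, ← hv, hu, mul_comm]
  · have h3 : S G = C u * G := by rw [← hv, hu, mul_comm]
    have h4 : S G * S G' = C c * (G * G') := by rw [← map_mul, ← hNG, hSN]
    have h5 : C u * G * (S G') = C u * G * (C (u⁻¹ * c) * G') := by
      rw [← h3, h4, h3]
      have h6 : (C c : MvPolynomial σ K) = C u * C (u⁻¹ * c) := by
        rw [← C_mul, ← mul_assoc, mul_inv_cancel₀ hu0, one_mul]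
      rw [h6]
      ring
    have h6 : C u * G ≠ 0 := mul_ne_zero (by rwa [Ne, C_eq_zero]) hG0
    exact mul_left_cancel₀ h6 h5

end

section

variable {S K : Type*} [CommRing S] [Field K] [Algebra S K] {σ : Type*}

/-- A power of the value of the squarefree part times a coefficient of the cofactor is a multiple
of the value of the polynomial by an integral element. -/
theorem exists_integral_cofactor {N G G' : MvPolynomial σ K} {M : ℕ} (hG0 : G ≠ 0)
    (hNG : N = G * G') (hNM : N ∣ G ^ (M + 1))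
    (hint : ∀ m, IsIntegral S (coeff m N)) (m : σ →₀ ℕ) :
    ∃ ε : MvPolynomial σ K, (∀ k, IsIntegral S (coeff k ε)) ∧
      (C (coeff m G') * G) ^ (M + 1) = N * ε := by
  obtain ⟨E, hE⟩ := hNM
  have hkr : ∀ l m, IsIntegral S (coeff l G * coeff m G') := fun l m =>
    kronecker (f := G) (g := G') (fun r => by rw [← hNG]; exact hint r) l m
  have h1 : G ^ M = G' * E := by
    have h2 : G * G ^ M = G * (G' * E) := by
      rw [← mul_assoc, ← hNG, ← hE, pow_succ]
      ring
    exact mul_left_cancel₀ hG0 h2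
  have hpow : ∀ k, IsIntegral S (coeff k ((C (coeff m G') * G) ^ M)) := by
    have h3 : ∀ k, IsIntegral S (coeff k (C (coeff m G') * G)) := by
      intro k
      rw [coeff_C_mul, mul_comm]
      exact hkr k m
    clear h1 hE
    induction M with
    | zero =>
      intro k
      rw [pow_zero]
      classical
      rw [coeff_one]
      split_ifs
      · exact isIntegral_one
      · exact isIntegral_zero
    | succ M ih =>
      intro k
      classical
      rw [pow_succ, coeff_mul]
      exact IsIntegral.sum _ fun x _ => (ih x.1).mul (h3 x.2)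
  have h2 : (C (coeff m G') * G) ^ M = G' * (C (coeff m G' ^ M) * E) := by
    rw [mul_pow, h1, ← C_pow]
    ring
  have h3 : ∀ k, IsIntegral S (coeff m G' * coeff k (C (coeff m G' ^ M) * E)) := by
    intro k
    refine kronecker (f := G') (g := C (coeff m G' ^ M) * E) (fun r => ?_) m k
    rw [← h2]
    exact hpow r
  refine ⟨C (coeff m G') * (C (coeff m G' ^ M) * E), ?_, ?_⟩
  · intro k
    rw [coeff_C_mul]
    exact h3 k
  · rw [pow_succ, h2, hNG]
    ring

/-- value of a polynomial with integral coefficients at an integral point -/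
lemma isIntegral_eval {P : MvPolynomial σ K} (h : ∀ k, IsIntegral S (coeff k P)) {x : σ → K}
    (hx : ∀ i, IsIntegral S (x i)) : IsIntegral S (eval x P) := by
  rw [eval_eq]
  exact IsIntegral.sum _ fun d _ => (h d).mul (IsIntegral.prod _ fun i _ => (hx i).pow _)

end

end Pool.Agent.Lib.GGL
end
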