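import Mathlib
import Pool.Agent.Lib.MP_8d161d_ag.Mg.G017
import Pool.Agent.Lib.MP_8d161d_ag.Alg

section

/-!
A discriminant that detects square factors of specialisations of an irreducible form.
-/

open MvPolynomial

namespace Pool.Agent.Lib.GGL

section lead

variable {σ : Type*} {A S : Type*} [CommRing A] [CommRing S] [Algebra A S]

lemma natDegree_coeff_prod {w : σ → ℕ} {f : σ → Polynomial S} {c : σ → S}
    (hf : ∀ i, (f i).natDegree ≤ w i) (hc : ∀ i, (f i).coeff (w i) = c i) (d : σ →₀ ℕ) :
    (∏ i ∈ d.support, f i ^ d i).natDegree ≤ Finsupp.weight w d ∧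
      (∏ i ∈ d.support, f i ^ d i).coeff (Finsupp.weight w d) = ∏ i ∈ d.support, c i ^ d i := by
  classical
  have key : ∀ s : Finset σ, (∏ i ∈ s, f i ^ d i).natDegree ≤ ∑ i ∈ s, d i * w i ∧
      (∏ i ∈ s, f i ^ d i).coeff (∑ i ∈ s, d i * w i) = ∏ i ∈ s, c i ^ d i := by
    intro s
    induction s using Finset.induction with
    | empty => simp
    | insert i s hi ih =>
      rw [Finset.prod_insert hi, Finset.sum_insert hi, Finset.prod_insert hi]
      have h1 : (f i ^ d i).natDegree ≤ d i * w i :=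
        Polynomial.natDegree_pow_le_of_le _ (hf i)
      refine ⟨Polynomial.natDegree_mul_le_of_le h1 ih.1, ?_⟩
      rw [Polynomial.coeff_mul_add_eq_of_natDegree_le h1 ih.1, ih.2,
        Polynomial.coeff_pow_of_natDegree_le (hf i), hc]
  have h2 := key d.support
  rw [Finsupp.weight_apply, Finsupp.sum]
  simp only [smul_eq_mul]
  exact h2

/-- degree and top coefficient of a substitution -/
lemma natDegree_coeff_aeval {w : σ → ℕ} {f : σ → Polynomial S} {c : σ → S}
    (hf : ∀ i, (f i).natDegree ≤ w i) (hc : ∀ i, (f i).coeff (w i) = c i)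
    {φ : MvPolynomial σ A} {n : ℕ} (h : IsWeightedHomogeneous w φ n) :
    (aeval f φ).natDegree ≤ n ∧ (aeval f φ).coeff n = aeval c φ := by
  have h1 : (aeval f φ) = ∑ d ∈ φ.support, Polynomial.C (algebraMap A S (coeff d φ)) *
      ∏ i ∈ d.support, f i ^ d i := by
    rw [aeval_def, eval₂_eq]
    rfl
  have h2 : (aeval c φ) = ∑ d ∈ φ.support, algebraMap A S (coeff d φ) *
      ∏ i ∈ d.support, c i ^ d i := by
    rw [aeval_def, eval₂_eq]
  rw [h1, h2]
  constructor
  · apply Polynomial.natDegree_sum_le_of_forall_le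
    intro d hd
    have h3 : Finsupp.weight w d = n := h (mem_support_iff.mp hd)
    rw [← h3]
    exact (Polynomial.natDegree_C_mul_le _ _).trans (natDegree_coeff_prod hf hc d).1
  · rw [Polynomial.finsetSum_coeff]
    refine Finset.sum_congr rfl fun d hd => ?_
    have h3 : Finsupp.weight w d = n := h (mem_support_iff.mp hd)
    rw [Polynomial.coeff_C_mul, ← h3, (natDegree_coeff_prod hf hc d).2]

end lead

section

variable {n t : ℕ}

/-- The substitution `θ ↦ θ + s b`. -/
noncomputable def shf (b : Fin (t + 1) → ℂ) :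
    MvPolynomial (Fin (n + 1) ⊕ Fin (t + 1)) ℂ →ₐ[ℂ]
      Polynomial (MvPolynomial (Fin (n + 1) ⊕ Fin (t + 1)) ℂ) :=
  aeval (Sum.elim (fun i => Polynomial.C (X (Sum.inl i)))
    (fun l => Polynomial.C (X (Sum.inr l)) + Polynomial.C (C (b l)) * Polynomial.X))

/-- the automorphism extending `shf` -/
noncomputable def shR (b : Fin (t + 1) → ℂ) :
    Polynomial (MvPolynomial (Fin (n + 1) ⊕ Fin (t + 1)) ℂ) →+*
      Polynomial (MvPolynomial (Fin (n + 1) ⊕ Fin (t + 1)) ℂ) :=
  Polynomial.eval₂RingHom (shf b : _ →ₐ[ℂ] _).toRingHom Polynomial.X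

lemma shR_C (b : Fin (t + 1) → ℂ) (g : MvPolynomial (Fin (n + 1) ⊕ Fin (t + 1)) ℂ) :
    shR b (Polynomial.C g) = shf b g := by
  rw [shR, Polynomial.coe_eval₂RingHom, Polynomial.eval₂_C]
  rfl

lemma shR_X (b : Fin (t + 1) → ℂ) :
    shR (n := n) b Polynomial.X = Polynomial.X := by
  rw [shR, Polynomial.coe_eval₂RingHom, Polynomial.eval₂_X]

lemma shR_shR (b b' : Fin (t + 1) → ℂ) (hb : b' = -b) :
    (shR (n := n) b').comp (shR b) = RingHom.id _ := by
  apply Polynomial.ringHom_ext
  · intro g
    rw [RingHom.comp_apply, shR_C, RingHom.id_apply]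
    induction g using MvPolynomial.induction_on with
    | C a =>
      have h1 : ∀ b : Fin (t + 1) → ℂ, shf (n := n) b (C a) = Polynomial.C (C a) := by
        intro b
        rw [shf, aeval_C]
        rfl
      rw [h1, shR_C, h1]
    | add p q hp hq => rw [map_add, map_add, hp, hq, map_add]
    | mul_X p j hp =>
      rw [map_mul, map_mul, hp, Polynomial.C_mul]
      congr 1
      rcases j with j | j
      · rw [shf, aeval_X, Sum.elim_inl, shR_C, shf, aeval_X, Sum.elim_inl]
      · rw [shf, aeval_X, Sum.elim_inr, map_add, map_mul, shR_C, shR_C, shR_X, shf, aeval_X,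
          Sum.elim_inr, aeval_C, hb]
        have h2 : (algebraMap ℂ (Polynomial (MvPolynomial (Fin (n + 1) ⊕ Fin (t + 1)) ℂ))) (b j) =
            Polynomial.C (C (b j)) := rfl
        rw [h2, Pi.neg_apply, C_neg, Polynomial.C_neg]
        ring
  · rw [RingHom.comp_apply, shR_X, shR_X, RingHom.id_apply]

lemma prime_shf {N : MvPolynomial (Fin (n + 1) ⊕ Fin (t + 1)) ℂ} (hN : Prime N)
    (b : Fin (t + 1) → ℂ) : Prime (shf b N) := by
  let e : Polynomial (MvPolynomial (Fin (n + 1) ⊕ Fin (t + 1)) ℂ) ≃+*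
      Polynomial (MvPolynomial (Fin (n + 1) ⊕ Fin (t + 1)) ℂ) :=
    RingEquiv.ofRingHom (shR b) (shR (-b)) (shR_shR (-b) b (by rw [neg_neg]))
      (shR_shR b (-b) rfl)
  rw [← shR_C]
  have h1 : shR b (Polynomial.C N) = e (Polynomial.C N) := rfl
  rw [h1, MulEquiv.prime_iff]
  exact Polynomial.prime_C_iff.mpr hN

/-- The discriminant. -/
theorem exists_disc {N : MvPolynomial (Fin (n + 1) ⊕ Fin (t + 1)) ℂ} {D : ℕ} (hN : Irreducible N)
    (hNh : IsWeightedHomogeneous (Sum.elim (fun _ => 0) (fun _ => 1)) N D) :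
    ∃ Δ : MvPolynomial (Fin (n + 1)) ℂ, Δ ≠ 0 ∧
      ∀ (R : Type) [CommRing R] [IsDomain R] [Algebra ℂ R] (y : Fin (n + 1) → R),
        aeval y Δ ≠ 0 → ∀ π : MvPolynomial (Fin (t + 1)) R, π.totalDegree ≠ 0 →
          ¬ π ^ 2 ∣ sp y N := by
  classical
  have hNh' : ∀ (R : Type) [CommRing R] [Algebra ℂ R] (y : Fin (n + 1) → R),
      (sp y N).IsHomogeneous D := by
    intro R _ _ y
    apply aeval_isHomogeneous _ hNh
    intro i
    rcases i with i | i
    · exact isHomogeneous_C _ _
    · exact isHomogeneous_X _ _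
  -- a point
  obtain ⟨v, hv⟩ : ∃ v : Fin (n + 1) ⊕ Fin (t + 1) → ℂ, eval v N ≠ 0 := by
    by_contra hcon
    push Not at hcon
    apply hN.ne_zero
    apply MvPolynomial.funext
    intro v
    rw [hcon, map_zero]
  obtain ⟨b, hb⟩ : ∃ b : Fin (t + 1) → ℂ, b = fun l => v (Sum.inr l) := ⟨_, rfl⟩
  obtain ⟨Nb, hNb⟩ : ∃ Nb : MvPolynomial (Fin (n + 1)) ℂ,
    Nb = aeval (Sum.elim X (fun l => C (b l))) N := ⟨_, rfl⟩
  have hNb0 : Nb ≠ 0 := by
    intro h0
    apply hv
    have h1 : aeval (fun i => v (Sum.inl i)) Nb = eval v N := by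
      rw [hNb]
      have h2 : ((aeval (fun i => v (Sum.inl i)) : MvPolynomial (Fin (n + 1)) ℂ →ₐ[ℂ] ℂ).comp
          (aeval (Sum.elim X (fun l => C (b l))) :
            MvPolynomial (Fin (n + 1) ⊕ Fin (t + 1)) ℂ →ₐ[ℂ] MvPolynomial (Fin (n + 1)) ℂ)) =
          aeval v := by
        apply MvPolynomial.algHom_ext
        intro i
        rw [AlgHom.comp_apply, aeval_X, aeval_X]
        rcases i with i | i
        · rw [Sum.elim_inl, aeval_X]
        · rw [Sum.elim_inr, aeval_C, hb]
          rfl
      exact congrArg (fun F => F N) h2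
    rw [← h1, h0, map_zero]
  have hNbR : ∀ (R : Type) [CommRing R] [Algebra ℂ R] (y : Fin (n + 1) → R),
      eval (fun l => algebraMap ℂ R (b l)) (sp y N) = aeval y Nb := by
    intro R _ _ y
    rw [eval_sp, hNb]
    have h2 : ((aeval y : MvPolynomial (Fin (n + 1)) ℂ →ₐ[ℂ] R).comp
        (aeval (Sum.elim X (fun l => C (b l))) :
          MvPolynomial (Fin (n + 1) ⊕ Fin (t + 1)) ℂ →ₐ[ℂ] MvPolynomial (Fin (n + 1)) ℂ)) =
        aeval (Sum.elim y (fun l => algebraMap ℂ R (b l))) := by
      apply MvPolynomial.algHom_ext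
      intro i
      rw [AlgHom.comp_apply, aeval_X, aeval_X]
      rcases i with i | i
      · rw [Sum.elim_inl, aeval_X, Sum.elim_inl]
      · rw [Sum.elim_inr, aeval_C, Sum.elim_inr]
    exact congrArg (fun F => F N) h2.symm
  by_cases hD : D = 0
  · refine ⟨Nb, hNb0, ?_⟩
    rintro R _ _ _ y hy π hπ ⟨ρ, hρ⟩
    have h0 : sp y N ≠ 0 := by
      intro h0
      apply hy
      rw [← hNbR, h0, map_zero]
    have hπ0 : π ≠ 0 := by
      rintro rfl
      rw [totalDegree_zero] at hπ
      exact hπ rfl
    have hρ0 : ρ ≠ 0 := by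
      rintro rfl
      rw [mul_zero] at hρ
      exact h0 hρ
    have h1 := (hNh' R y).totalDegree_le
    rw [hρ, totalDegree_mul_of_isDomain (pow_ne_zero _ hπ0) hρ0, pow_two,
      totalDegree_mul_of_isDomain hπ0 hπ0] at h1
    omega
  · -- the discriminant
    have hlead := natDegree_coeff_aeval (A := ℂ)
      (S := MvPolynomial (Fin (n + 1) ⊕ Fin (t + 1)) ℂ)
      (w := Sum.elim (fun _ => 0) (fun _ => 1))
      (f := Sum.elim (fun i => Polynomial.C (X (Sum.inl i)))
        (fun l => Polynomial.C (X (Sum.inr l)) + Polynomial.C (C (b l)) * Polynomial.X))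
      (c := Sum.elim (fun i => X (Sum.inl i)) (fun l => C (b l)))
      (by
        rintro (i | i)
        · simp
        · simp only [Sum.elim_inr]
          compute_degree)
      (by
        rintro (i | i)
        · simp
        · simp) hNh
    have hshf : shf b N = aeval (Sum.elim (fun i => Polynomial.C (X (Sum.inl i)))
        (fun l => Polynomial.C (X (Sum.inr l)) + Polynomial.C (C (b l)) * Polynomial.X)) N := rfl
    rw [← hshf] at hlead
    have hlead0 : (shf b N).coeff D ≠ 0 := by
      rw [hlead.2]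
      intro h0
      apply hv
      have h1 := congrArg (eval v) h0
      rw [map_zero] at h1
      rw [← h1]
      have h2 : ((aeval v : MvPolynomial (Fin (n + 1) ⊕ Fin (t + 1)) ℂ →ₐ[ℂ] ℂ).comp
          (aeval (Sum.elim (fun i => X (Sum.inl i)) (fun l => C (b l))) :
            MvPolynomial (Fin (n + 1) ⊕ Fin (t + 1)) ℂ →ₐ[ℂ]
              MvPolynomial (Fin (n + 1) ⊕ Fin (t + 1)) ℂ)) = aeval v := by
        apply MvPolynomial.algHom_ext
        intro i
        rw [AlgHom.comp_apply, aeval_X, aeval_X]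
        rcases i with i | i
        · rw [Sum.elim_inl, aeval_X]
        · rw [Sum.elim_inr, aeval_C, hb]
          rfl
      exact congrArg (fun F => F N) h2.symm
    have hdeg : (shf b N).natDegree = D :=
      le_antisymm hlead.1 (Polynomial.le_natDegree_of_ne_zero hlead0)
    have hprime : Prime (shf b N) := prime_shf hN.prime b
    have hprim : (shf b N).IsPrimitive := hprime.irreducible.isPrimitive (by rw [hdeg]; exact hD)
    have hirr := (hprim.irreducible_iff_irreducible_map_fraction_map
      (K := FractionRing (MvPolynomial (Fin (n + 1) ⊕ Fin (t + 1)) ℂ))).mp hprime.irreducible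
    have hsep := hirr.separable
    obtain ⟨r, hr⟩ : ∃ r, r = Polynomial.resultant (shf b N) (Polynomial.derivative (shf b N))
      D (D - 1) := ⟨_, rfl⟩
    have hr0 : r ≠ 0 := by
      intro h0
      have h1 := Polynomial.resultant_ne_zero _ _ hsep
      apply h1
      have h2 : Function.Injective (algebraMap (MvPolynomial (Fin (n + 1) ⊕ Fin (t + 1)) ℂ)
        (FractionRing (MvPolynomial (Fin (n + 1) ⊕ Fin (t + 1)) ℂ))) := IsFractionRing.injective _ _
      have h3 : (Polynomial.derivative ((shf b N).map (algebraMap _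
          (FractionRing (MvPolynomial (Fin (n + 1) ⊕ Fin (t + 1)) ℂ))))).natDegree = D - 1 := by
        rw [Polynomial.natDegree_derivative, Polynomial.natDegree_map_eq_of_injective h2, hdeg]
      rw [h3, Polynomial.natDegree_map_eq_of_injective h2, hdeg, Polynomial.derivative_map,
        Polynomial.resultant_map_map, ← hr, h0, map_zero]
    obtain ⟨v', hv'⟩ : ∃ v : Fin (n + 1) ⊕ Fin (t + 1) → ℂ, eval v r ≠ 0 := by
      by_contra hcon
      push Not at hcon
      apply hr0
      apply MvPolynomial.funext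
      intro v
      rw [hcon, map_zero]
    obtain ⟨a, ha⟩ : ∃ a : Fin (t + 1) → ℂ, a = fun l => v' (Sum.inr l) := ⟨_, rfl⟩
    obtain ⟨Δ₁, hΔ₁⟩ : ∃ Δ₁ : MvPolynomial (Fin (n + 1)) ℂ,
      Δ₁ = aeval (Sum.elim X (fun l => C (a l))) r := ⟨_, rfl⟩
    have hcomp : ∀ (R : Type) [CommRing R] [Algebra ℂ R] (y : Fin (n + 1) → R),
        aeval y Δ₁ = aeval (Sum.elim y (fun l => algebraMap ℂ R (a l))) r := by
      intro R _ _ y
      rw [hΔ₁]
      have h2 : ((aeval y : MvPolynomial (Fin (n + 1)) ℂ →ₐ[ℂ] R).comp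
          (aeval (Sum.elim X (fun l => C (a l))) :
            MvPolynomial (Fin (n + 1) ⊕ Fin (t + 1)) ℂ →ₐ[ℂ] MvPolynomial (Fin (n + 1)) ℂ)) =
          aeval (Sum.elim y (fun l => algebraMap ℂ R (a l))) := by
        apply MvPolynomial.algHom_ext
        intro i
        rw [AlgHom.comp_apply, aeval_X, aeval_X]
        rcases i with i | i
        · rw [Sum.elim_inl, aeval_X, Sum.elim_inl]
        · rw [Sum.elim_inr, aeval_C, Sum.elim_inr]
      exact congrArg (fun F => F r) h2
    have hΔ₁0 : Δ₁ ≠ 0 := by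
      intro h0
      apply hv'
      have h1 := hcomp ℂ (fun i => v' (Sum.inl i))
      rw [h0, map_zero] at h1
      have h2 : (Sum.elim (fun i => v' (Sum.inl i)) (fun l => algebraMap ℂ ℂ (a l))) = v' := by
        funext i
        rcases i with i | i
        · rfl
        · rw [Sum.elim_inr, ha]
          rfl
      rw [h2] at h1
      exact h1.symm
    refine ⟨Δ₁ * Nb, mul_ne_zero hΔ₁0 hNb0, ?_⟩
    rintro R _ _ _ y hy π hπ ⟨ρ, hρ⟩
    rw [map_mul] at hy
    have hy1 := left_ne_zero_of_mul hy
    have hy2 := right_ne_zero_of_mul hy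
    have h0 : sp y N ≠ 0 := by
      intro h0
      apply hy2
      rw [← hNbR, h0, map_zero]
    have hπ0 : π ≠ 0 := by
      rintro rfl
      rw [totalDegree_zero] at hπ
      exact hπ rfl
    obtain ⟨e, he⟩ := isHomogeneous_of_dvd (hNh' R y) h0
      (show π ∣ sp y N by rw [hρ, pow_two, mul_assoc]; exact dvd_mul_right _ _)
    have hed : e = π.totalDegree := (he.totalDegree hπ0).symm
    -- restriction to a line
    let lam : MvPolynomial (Fin (t + 1)) R →ₐ[R] Polynomial R :=
      aeval fun l => Polynomial.C (algebraMap ℂ R (a l)) +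
        Polynomial.C (algebraMap ℂ R (b l)) * Polynomial.X
    let μ : MvPolynomial (Fin (n + 1) ⊕ Fin (t + 1)) ℂ →ₐ[ℂ] R :=
      aeval (Sum.elim y (fun l => algebraMap ℂ R (a l)))
    have hlam : lam (sp y N) = (shf b N).map (μ : _ →+* R) := by
      have h2 : ((lam.restrictScalars ℂ).comp (sp y)) = (Polynomial.mapAlgHom μ).comp (shf b) := by
        apply MvPolynomial.algHom_ext
        intro i
        rw [AlgHom.comp_apply, AlgHom.comp_apply]
        rcases i with i | i
        · rw [sp_inl, shf, aeval_X, Sum.elim_inl]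
          show lam (C (y i)) = (Polynomial.C (X (Sum.inl i))).map
            (μ : MvPolynomial (Fin (n + 1) ⊕ Fin (t + 1)) ℂ →+* R)
          rw [Polynomial.map_C]
          show aeval _ (C (y i)) = Polynomial.C (aeval _ (X (Sum.inl i)))
          rw [aeval_C, aeval_X, Sum.elim_inl]
          rfl
        · rw [sp_inr, shf, aeval_X, Sum.elim_inr]
          show lam (X i) = (Polynomial.C (X (Sum.inr i)) +
            Polynomial.C (C (b i)) * Polynomial.X).map
            (μ : MvPolynomial (Fin (n + 1) ⊕ Fin (t + 1)) ℂ →+* R)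
          rw [Polynomial.map_add, Polynomial.map_mul, Polynomial.map_C, Polynomial.map_C,
            Polynomial.map_X]
          show aeval _ (X i) = Polynomial.C (aeval _ (X (Sum.inr i))) +
            Polynomial.C (aeval _ (C (b i))) * Polynomial.X
          rw [aeval_X, aeval_X, Sum.elim_inr, aeval_C]
      exact congrArg (fun F => F N) h2
    have hres : Polynomial.resultant (lam (sp y N)) (Polynomial.derivative (lam (sp y N)))
        D (D - 1) = aeval y Δ₁ := by
      rw [hlam, Polynomial.derivative_map, Polynomial.resultant_map_map, ← hr, hcomp]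
      rfl
    -- the degree of the restriction of `π`
    have hu := natDegree_coeff_aeval (A := R) (S := R) (w := 1)
      (f := fun l : Fin (t + 1) => Polynomial.C (algebraMap ℂ R (a l)) +
        Polynomial.C (algebraMap ℂ R (b l)) * Polynomial.X)
      (c := fun l => algebraMap ℂ R (b l))
      (by
        intro i
        simp only [Pi.one_apply]
        compute_degree)
      (by
        intro i
        simp [Polynomial.coeff_C]) he
    have hu0 : (lam π).coeff e ≠ 0 := by
      have h1 : (lam π).coeff e = eval (fun l => algebraMap ℂ R (b l)) π := hu.2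
      rw [h1]
      intro h2
      apply hy2
      rw [← hNbR, hρ, map_mul, map_pow, h2]
      simp
    have hue : 1 ≤ (lam π).natDegree := by
      have := Polynomial.le_natDegree_of_ne_zero hu0
      omega
    have hP : (lam (sp y N)).natDegree ≤ D := by
      rw [hlam]
      exact (Polynomial.natDegree_map_le).trans hlead.1
    have hP' : (Polynomial.derivative (lam (sp y N))).natDegree ≤ D - 1 :=
      (Polynomial.natDegree_derivative_le _).trans (by omega)
    obtain ⟨q₁, q₂, -, -, hq⟩ := Polynomial.exists_mul_add_mul_eq_C_resultant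
      (lam (sp y N)) (Polynomial.derivative (lam (sp y N))) hP hP' (Or.inl hD)
    rw [hres] at hq
    have hd1 : lam π ∣ lam (sp y N) := by
      rw [hρ, map_mul, map_pow, pow_two, mul_assoc]
      exact dvd_mul_right _ _
    have hd2 : lam π ∣ Polynomial.derivative (lam (sp y N)) := by
      rw [hρ, map_mul, map_pow, Polynomial.derivative_mul, Polynomial.derivative_pow]
      apply dvd_add
      · apply Dvd.dvd.mul_right
        apply Dvd.dvd.mul_right
        apply Dvd.dvd.mul_left
        simp
      · apply Dvd.dvd.mul_right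
        rw [pow_two]
        exact dvd_mul_right _ _
    have hd3 : lam π ∣ Polynomial.C (aeval y Δ₁) := by
      rw [← hq]
      exact dvd_add (hd1.mul_right _) (hd2.mul_right _)
    have hd4 := Polynomial.natDegree_le_of_dvd hd3 (by rwa [Ne, Polynomial.C_eq_zero])
    rw [Polynomial.natDegree_C] at hd4
    omega

end

end Pool.Agent.Lib.GGL
end

section

/-!
A discriminant that detects square factors of specialisations of a form which is squarefree at one
point with values in a field.
-/

open MvPolynomial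

namespace Pool.Agent.Lib.GGL

section

variable {σ : Type*} {K : Type*} [Field K]

/-- a nonzero polynomial has a nonzero value at a complex point -/
lemma exists_point [Algebra ℂ K] {P : MvPolynomial σ K} (hP : P ≠ 0) :
    ∃ b : σ → ℂ, eval (fun i => algebraMap ℂ K (b i)) P ≠ 0 := by
  by_contra hcon
  push Not at hcon
  apply hP
  apply MvPolynomial.funext_set (fun _ : σ => Set.range (algebraMap ℂ K))
  · intro i
    apply Set.infinite_range_of_injective
    exact (algebraMap ℂ K).injective
  · intro x hx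
    choose b hb using fun i => hx i (Set.mem_univ i)
    have h1 := hcon b
    simp only [hb] at h1
    rw [h1, map_zero]

/-- The substitution `T ↦ T + s b`. -/
noncomputable def shf' (b : σ → K) : MvPolynomial σ K →+* Polynomial (MvPolynomial σ K) :=
  eval₂Hom (Polynomial.C.comp C) fun l => Polynomial.C (X l) + Polynomial.C (C (b l)) * Polynomial.X

lemma shf'_C (b : σ → K) (r : K) : shf' b (C r) = Polynomial.C (C r) := by
  rw [shf', eval₂Hom_C]
  rfl

lemma shf'_X (b : σ → K) (l : σ) :
    shf' b (X l) = Polynomial.C (X l) + Polynomial.C (C (b l)) * Polynomial.X := by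
  rw [shf', eval₂Hom_X']

/-- the automorphism extending `shf'` -/
noncomputable def shR' (b : σ → K) : Polynomial (MvPolynomial σ K) →+*
    Polynomial (MvPolynomial σ K) :=
  Polynomial.eval₂RingHom (shf' b) Polynomial.X

lemma shR'_C (b : σ → K) (g : MvPolynomial σ K) : shR' b (Polynomial.C g) = shf' b g := by
  rw [shR', Polynomial.coe_eval₂RingHom, Polynomial.eval₂_C]

lemma shR'_X (b : σ → K) : shR' b Polynomial.X = Polynomial.X := by
  rw [shR', Polynomial.coe_eval₂RingHom, Polynomial.eval₂_X]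

lemma shR'_shR' (b b' : σ → K) (hb : b' = -b) : (shR' b').comp (shR' b) = RingHom.id _ := by
  apply Polynomial.ringHom_ext
  · intro g
    rw [RingHom.comp_apply, shR'_C, RingHom.id_apply]
    induction g using MvPolynomial.induction_on with
    | C a => rw [shf'_C, shR'_C, shf'_C]
    | add p q hp hq => rw [map_add, map_add, hp, hq, map_add]
    | mul_X p j hp =>
      rw [map_mul, map_mul, hp, Polynomial.C_mul]
      congr 1
      rw [shf'_X, map_add, map_mul, shR'_C, shR'_C, shR'_X, shf'_X, shf'_C, hb, Pi.neg_apply,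
        C_neg, Polynomial.C_neg]
      ring
  · rw [RingHom.comp_apply, shR'_X, shR'_X, RingHom.id_apply]

/-- the equivalence -/
noncomputable def shE (b : σ → K) : Polynomial (MvPolynomial σ K) ≃+*
    Polynomial (MvPolynomial σ K) :=
  RingEquiv.ofRingHom (shR' b) (shR' (-b)) (shR'_shR' (-b) b (by rw [neg_neg]))
    (shR'_shR' b (-b) rfl)

lemma shE_C (b : σ → K) (g : MvPolynomial σ K) : shE b (Polynomial.C g) = shf' b g := shR'_C b g

lemma squarefree_C {R : Type*} [CommRing R] [IsDomain R] {F : R} (hF0 : F ≠ 0)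
    (hF : Squarefree F) : Squarefree (Polynomial.C F) := by
  rintro x ⟨y, hy⟩
  have hx0 : x ≠ 0 := by
    rintro rfl
    rw [zero_mul, zero_mul, Polynomial.C_eq_zero] at hy
    exact hF0 hy
  have hy0 : y ≠ 0 := by
    rintro rfl
    rw [mul_zero, Polynomial.C_eq_zero] at hy
    exact hF0 hy
  have h1 := congrArg Polynomial.natDegree hy
  rw [Polynomial.natDegree_C, Polynomial.natDegree_mul (mul_ne_zero hx0 hx0) hy0,
    Polynomial.natDegree_mul hx0 hx0] at h1
  have h2 : x.natDegree = 0 := by omega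
  have h3 : y.natDegree = 0 := by omega
  obtain ⟨x', rfl⟩ := Polynomial.natDegree_eq_zero.mp h2
  obtain ⟨y', rfl⟩ := Polynomial.natDegree_eq_zero.mp h3
  rw [← Polynomial.C_mul, ← Polynomial.C_mul] at hy
  have h4 := hF x' ⟨y', Polynomial.C_injective hy⟩
  exact h4.map Polynomial.C

/-- a monic squarefree polynomial stays squarefree over the field of fractions -/
lemma squarefree_map_of_monic {A L : Type*} [CommRing A] [IsDomain A] [IsIntegrallyClosed A]
    [Field L] [Algebra A L] [IsFractionRing A L] {f : Polynomial A} (hf : f.Monic)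
    (hsq : Squarefree f) : Squarefree (f.map (algebraMap A L)) := by
  have hinj : Function.Injective (algebraMap A L) := IsFractionRing.injective A L
  intro x hx
  have hx0 : x ≠ 0 := by
    rintro rfl
    rw [zero_mul, zero_dvd_iff] at hx
    exact (hf.map (algebraMap A L)).ne_zero hx
  obtain ⟨x', hx'⟩ := IsIntegrallyClosed.eq_map_mul_C_of_dvd L hf ((dvd_mul_right x x).trans hx)
  have hlc : IsUnit (Polynomial.C x.leadingCoeff) := by
    rw [Polynomial.isUnit_C, isUnit_iff_ne_zero, Polynomial.leadingCoeff_ne_zero]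
    exact hx0
  have h1 : (x'.map (algebraMap A L)).Monic := by
    have h2 := congrArg Polynomial.leadingCoeff hx'
    rw [Polynomial.leadingCoeff_mul, Polynomial.leadingCoeff_C] at h2
    have h3 : x.leadingCoeff ≠ 0 := Polynomial.leadingCoeff_ne_zero.mpr hx0
    exact (mul_eq_right₀ h3).mp h2
  have hmon : x'.Monic := Polynomial.monic_of_injective hinj h1
  have h2 : (x' * x').map (algebraMap A L) ∣ f.map (algebraMap A L) := by
    rw [Polynomial.map_mul]
    refine Dvd.dvd.trans ?_ hx
    apply mul_dvd_mul <;> exact Dvd.intro _ hx'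
  rw [Polynomial.map_dvd_map _ hinj (hmon.mul hmon)] at h2
  have h3 := hsq x' h2
  rw [← hx']
  exact (h3.map (Polynomial.mapRingHom (algebraMap A L))).mul hlc

variable [CharZero K]

/-- restriction to a line: the discriminant does not vanish -/
lemma resultant_shf'_ne_zero [Finite σ] {F : MvPolynomial σ K} {D : ℕ} (hFh : F.IsHomogeneous D)
    (hF0 : F ≠ 0) (hF : Squarefree F) {b : σ → K} (hb : eval b F ≠ 0) :
    Polynomial.resultant (shf' b F) (Polynomial.derivative (shf' b F)) D (D - 1) ≠ 0 := by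
  classical
  obtain ⟨f, hf⟩ : ∃ f, f = shf' b F := ⟨_, rfl⟩
  rw [← hf]
  -- degree and leading coefficient
  have hlead := natDegree_coeff_aeval (A := K) (S := MvPolynomial σ K) (w := 1)
    (f := fun l => Polynomial.C (X l) + Polynomial.C (C (b l)) * Polynomial.X)
    (c := fun l => C (b l))
    (by
      intro i
      simp only [Pi.one_apply]
      compute_degree)
    (by
      intro i
      simp [Polynomial.coeff_C]) hFh
  have hf' : f = aeval (fun l => Polynomial.C (X l) + Polynomial.C (C (b l)) * Polynomial.X) F := by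
    rw [hf]
    rfl
  rw [← hf'] at hlead
  have hev : aeval (fun l => (C (b l) : MvPolynomial σ K)) F = C (eval b F) := by
    have h1 : ((aeval (fun l => (C (b l) : MvPolynomial σ K)) :
        MvPolynomial σ K →ₐ[K] MvPolynomial σ K) :
        MvPolynomial σ K →+* MvPolynomial σ K) = (C : K →+* MvPolynomial σ K).comp (eval b) := by
      apply MvPolynomial.ringHom_ext
      · intro r
        simp only [RingHom.coe_coe, RingHom.comp_apply, eval_C]
        rw [aeval_C]
        rfl
      · intro l
        simp only [RingHom.coe_coe, RingHom.comp_apply, eval_X]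
        rw [aeval_X]
    exact congrArg (fun φ => φ F) h1
  have hlc : f.coeff D = C (eval b F) := by rw [hlead.2, hev]
  have hlc0 : f.coeff D ≠ 0 := by
    rw [hlc, Ne, C_eq_zero]
    exact hb
  have hdeg : f.natDegree = D := le_antisymm hlead.1 (Polynomial.le_natDegree_of_ne_zero hlc0)
  have hsq : Squarefree f := by
    rw [hf, ← shE_C]
    have h1 := squarefree_C hF0 hF
    intro x hx
    have h2 : (shE b).symm x * (shE b).symm x ∣ Polynomial.C F := by
      have h3 := map_dvd (shE b).symm hx
      rwa [map_mul, RingEquiv.symm_apply_apply] at h3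
    have h3 := (h1 _ h2).map (shE b)
    rwa [RingEquiv.apply_symm_apply] at h3
  -- a monic multiple
  obtain ⟨g, hg⟩ : ∃ g, g = Polynomial.C (C (eval b F)⁻¹) * f := ⟨_, rfl⟩
  have hu : IsUnit (Polynomial.C (C (eval b F)⁻¹ : MvPolynomial σ K)) := by
    apply IsUnit.map
    apply IsUnit.map
    exact isUnit_iff_ne_zero.mpr (inv_ne_zero hb)
  have hgmon : g.Monic := by
    rw [Polynomial.Monic, hg, Polynomial.leadingCoeff_mul, Polynomial.leadingCoeff_C,
      Polynomial.leadingCoeff, hdeg, hlc, ← C_mul, inv_mul_cancel₀ hb, C_1]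
  have hgsq : Squarefree g := by
    intro x hx
    apply hsq
    rw [hg] at hx
    exact (hu.dvd_mul_left).mp hx
  have hgK := squarefree_map_of_monic (L := FractionRing (MvPolynomial σ K)) hgmon hgsq
  have hfK : Squarefree (f.map (algebraMap (MvPolynomial σ K)
      (FractionRing (MvPolynomial σ K)))) := by
    intro x hx
    apply hgK
    rw [hg, Polynomial.map_mul]
    exact hx.mul_left _
  have : CharZero (FractionRing (MvPolynomial σ K)) := inferInstance
  have hsep : (f.map (algebraMap (MvPolynomial σ K) (FractionRing (MvPolynomial σ K)))).Separable :=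
    PerfectField.separable_iff_squarefree.mpr hfK
  intro h0
  have h1 := Polynomial.resultant_ne_zero _ _ hsep
  apply h1
  have h2 : Function.Injective (algebraMap (MvPolynomial σ K)
    (FractionRing (MvPolynomial σ K))) := IsFractionRing.injective _ _
  have h3 : (Polynomial.derivative (f.map (algebraMap _
      (FractionRing (MvPolynomial σ K))))).natDegree = D - 1 := by
    rw [Polynomial.natDegree_derivative, Polynomial.natDegree_map_eq_of_injective h2, hdeg]
  rw [h3, Polynomial.natDegree_map_eq_of_injective h2, hdeg, Polynomial.derivative_map,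
    Polynomial.resultant_map_map, h0, map_zero]

end

section

variable {n t : ℕ}

/-- The discriminant at a squarefree point. -/
theorem exists_discK {N : MvPolynomial (Fin (n + 1) ⊕ Fin (t + 1)) ℂ} {D : ℕ}
    (hNh : IsWeightedHomogeneous (Sum.elim (fun _ => 0) (fun _ => 1)) N D)
    {K : Type} [Field K] [Algebra ℂ K] (v : Fin (n + 1) → K) (hv0 : sp v N ≠ 0)
    (hv : Squarefree (sp v N)) :
    ∃ Δ : MvPolynomial (Fin (n + 1)) ℂ, aeval v Δ ≠ 0 ∧
      ∀ (R : Type) [CommRing R] [IsDomain R] [Algebra ℂ R] (y : Fin (n + 1) → R),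
        aeval y Δ ≠ 0 → ∀ π : MvPolynomial (Fin (t + 1)) R, π.totalDegree ≠ 0 →
          ¬ π ^ 2 ∣ sp y N := by
  classical
  have : CharZero K := charZero_of_injective_algebraMap (algebraMap ℂ K).injective
  have hNh' : ∀ (R : Type) [CommRing R] [Algebra ℂ R] (y : Fin (n + 1) → R),
      (sp y N).IsHomogeneous D := by
    intro R _ _ y
    apply aeval_isHomogeneous _ hNh
    intro i
    rcases i with i | i
    · exact isHomogeneous_C _ _
    · exact isHomogeneous_X _ _
  -- a point
  obtain ⟨b, hb⟩ := exists_point hv0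
  obtain ⟨Nb, hNb⟩ : ∃ Nb : MvPolynomial (Fin (n + 1)) ℂ,
    Nb = aeval (Sum.elim X (fun l => C (b l))) N := ⟨_, rfl⟩
  have hNbR : ∀ (R : Type) [CommRing R] [Algebra ℂ R] (y : Fin (n + 1) → R),
      eval (fun l => algebraMap ℂ R (b l)) (sp y N) = aeval y Nb := by
    intro R _ _ y
    rw [eval_sp, hNb]
    have h2 : ((aeval y : MvPolynomial (Fin (n + 1)) ℂ →ₐ[ℂ] R).comp
        (aeval (Sum.elim X (fun l => C (b l))) :
          MvPolynomial (Fin (n + 1) ⊕ Fin (t + 1)) ℂ →ₐ[ℂ] MvPolynomial (Fin (n + 1)) ℂ)) =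
        aeval (Sum.elim y (fun l => algebraMap ℂ R (b l))) := by
      apply MvPolynomial.algHom_ext
      intro i
      rw [AlgHom.comp_apply, aeval_X, aeval_X]
      rcases i with i | i
      · rw [Sum.elim_inl, aeval_X, Sum.elim_inl]
      · rw [Sum.elim_inr, aeval_C, Sum.elim_inr]
    exact congrArg (fun F => F N) h2.symm
  have hNb0 : aeval v Nb ≠ 0 := by
    rw [← hNbR]
    exact hb
  by_cases hD : D = 0
  · refine ⟨Nb, hNb0, ?_⟩
    rintro R _ _ _ y hy π hπ ⟨ρ, hρ⟩
    have h0 : sp y N ≠ 0 := by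
      intro h0
      apply hy
      rw [← hNbR, h0, map_zero]
    have hπ0 : π ≠ 0 := by
      rintro rfl
      rw [totalDegree_zero] at hπ
      exact hπ rfl
    have hρ0 : ρ ≠ 0 := by
      rintro rfl
      rw [mul_zero] at hρ
      exact h0 hρ
    have h1 := (hNh' R y).totalDegree_le
    rw [hρ, totalDegree_mul_of_isDomain (pow_ne_zero _ hπ0) hρ0, pow_two,
      totalDegree_mul_of_isDomain hπ0 hπ0] at h1
    omega
  · -- the discriminant
    obtain ⟨r, hr⟩ : ∃ r, r = Polynomial.resultant (shf b N) (Polynomial.derivative (shf b N))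
      D (D - 1) := ⟨_, rfl⟩
    obtain ⟨rK, hrK⟩ : ∃ rK, rK = Polynomial.resultant
      (shf' (fun l => algebraMap ℂ K (b l)) (sp v N))
      (Polynomial.derivative (shf' (fun l => algebraMap ℂ K (b l)) (sp v N))) D (D - 1) :=
      ⟨_, rfl⟩
    have hrK0 : rK ≠ 0 := by
      rw [hrK]
      exact resultant_shf'_ne_zero (hNh' K v) hv0 hv hb
    obtain ⟨a, ha⟩ := exists_point hrK0
    -- comparison
    have hshf : (shf b N).map ((sp v : MvPolynomial (Fin (n + 1) ⊕ Fin (t + 1)) ℂ →ₐ[ℂ] _) :
        MvPolynomial (Fin (n + 1) ⊕ Fin (t + 1)) ℂ →+* MvPolynomial (Fin (t + 1)) K) =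
        shf' (fun l => algebraMap ℂ K (b l)) (sp v N) := by
      have h2 : (Polynomial.mapRingHom
          ((sp v : MvPolynomial (Fin (n + 1) ⊕ Fin (t + 1)) ℂ →ₐ[ℂ] _) :
          MvPolynomial (Fin (n + 1) ⊕ Fin (t + 1)) ℂ →+* MvPolynomial (Fin (t + 1)) K)).comp
          ((shf b : MvPolynomial (Fin (n + 1) ⊕ Fin (t + 1)) ℂ →ₐ[ℂ] _) :
            MvPolynomial (Fin (n + 1) ⊕ Fin (t + 1)) ℂ →+* _) =
          (shf' (fun l => algebraMap ℂ K (b l))).comp
            ((sp v : MvPolynomial (Fin (n + 1) ⊕ Fin (t + 1)) ℂ →ₐ[ℂ] _) :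
              MvPolynomial (Fin (n + 1) ⊕ Fin (t + 1)) ℂ →+* _) := by
        apply MvPolynomial.ringHom_ext
        · intro c
          simp only [RingHom.comp_apply, RingHom.coe_coe, Polynomial.coe_mapRingHom]
          rw [shf, aeval_C, sp_C, shf'_C]
          have h3 : (algebraMap ℂ (Polynomial (MvPolynomial (Fin (n + 1) ⊕ Fin (t + 1)) ℂ))) c =
            Polynomial.C (C c) := rfl
          rw [h3, Polynomial.map_C]
          simp only [RingHom.coe_coe]
          rw [sp_C]
        · intro i
          simp only [RingHom.comp_apply, RingHom.coe_coe, Polynomial.coe_mapRingHom]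
          rcases i with i | i
          · rw [shf, aeval_X, Sum.elim_inl, sp_inl, shf'_C, Polynomial.map_C]
            simp only [RingHom.coe_coe]
            rw [sp_inl]
          · rw [shf, aeval_X, Sum.elim_inr, sp_inr, shf'_X, Polynomial.map_add,
              Polynomial.map_mul, Polynomial.map_C, Polynomial.map_C, Polynomial.map_X]
            simp only [RingHom.coe_coe]
            rw [sp_inr, sp_C]
      exact congrArg (fun F => F N) h2
    have hrr : sp v r = rK := by
      have h1 := Polynomial.resultant_map_map (shf b N) (Polynomial.derivative (shf b N)) D (D - 1)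
        ((sp v : MvPolynomial (Fin (n + 1) ⊕ Fin (t + 1)) ℂ →ₐ[ℂ] _) :
          MvPolynomial (Fin (n + 1) ⊕ Fin (t + 1)) ℂ →+* MvPolynomial (Fin (t + 1)) K)
      rw [← Polynomial.derivative_map, hshf, ← hrK, ← hr] at h1
      exact h1.symm
    obtain ⟨Δ₁, hΔ₁⟩ : ∃ Δ₁ : MvPolynomial (Fin (n + 1)) ℂ,
      Δ₁ = aeval (Sum.elim X (fun l => C (a l))) r := ⟨_, rfl⟩
    have hcomp : ∀ (R : Type) [CommRing R] [Algebra ℂ R] (y : Fin (n + 1) → R),
        aeval y Δ₁ = aeval (Sum.elim y (fun l => algebraMap ℂ R (a l))) r := by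
      intro R _ _ y
      rw [hΔ₁]
      have h2 : ((aeval y : MvPolynomial (Fin (n + 1)) ℂ →ₐ[ℂ] R).comp
          (aeval (Sum.elim X (fun l => C (a l))) :
            MvPolynomial (Fin (n + 1) ⊕ Fin (t + 1)) ℂ →ₐ[ℂ] MvPolynomial (Fin (n + 1)) ℂ)) =
          aeval (Sum.elim y (fun l => algebraMap ℂ R (a l))) := by
        apply MvPolynomial.algHom_ext
        intro i
        rw [AlgHom.comp_apply, aeval_X, aeval_X]
        rcases i with i | i
        · rw [Sum.elim_inl, aeval_X, Sum.elim_inl]
        · rw [Sum.elim_inr, aeval_C, Sum.elim_inr]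
      exact congrArg (fun F => F r) h2
    have hΔ₁0 : aeval v Δ₁ ≠ 0 := by
      rw [hcomp, ← eval_sp, hrr]
      exact ha
    refine ⟨Δ₁ * Nb, by rw [map_mul]; exact mul_ne_zero hΔ₁0 hNb0, ?_⟩
    rintro R _ _ _ y hy π hπ ⟨ρ, hρ⟩
    rw [map_mul] at hy
    have hy1 := left_ne_zero_of_mul hy
    have hy2 := right_ne_zero_of_mul hy
    have h0 : sp y N ≠ 0 := by
      intro h0
      apply hy2
      rw [← hNbR, h0, map_zero]
    have hπ0 : π ≠ 0 := by
      rintro rfl
      rw [totalDegree_zero] at hπ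
      exact hπ rfl
    obtain ⟨e, he⟩ := isHomogeneous_of_dvd (hNh' R y) h0
      (show π ∣ sp y N by rw [hρ, pow_two, mul_assoc]; exact dvd_mul_right _ _)
    have hed : e = π.totalDegree := (he.totalDegree hπ0).symm
    -- the degree
    have hlead := natDegree_coeff_aeval (A := ℂ)
      (S := MvPolynomial (Fin (n + 1) ⊕ Fin (t + 1)) ℂ)
      (w := Sum.elim (fun _ => 0) (fun _ => 1))
      (f := Sum.elim (fun i => Polynomial.C (X (Sum.inl i)))
        (fun l => Polynomial.C (X (Sum.inr l)) + Polynomial.C (C (b l)) * Polynomial.X))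
      (c := Sum.elim (fun i => X (Sum.inl i)) (fun l => C (b l)))
      (by
        rintro (i | i)
        · simp
        · simp only [Sum.elim_inr]
          compute_degree)
      (by
        rintro (i | i)
        · simp
        · simp) hNh
    have hshf' : shf b N = aeval (Sum.elim (fun i => Polynomial.C (X (Sum.inl i)))
        (fun l => Polynomial.C (X (Sum.inr l)) + Polynomial.C (C (b l)) * Polynomial.X)) N := rfl
    rw [← hshf'] at hlead
    -- restriction to a line
    let lam : MvPolynomial (Fin (t + 1)) R →ₐ[R] Polynomial R :=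
      aeval fun l => Polynomial.C (algebraMap ℂ R (a l)) +
        Polynomial.C (algebraMap ℂ R (b l)) * Polynomial.X
    let μ : MvPolynomial (Fin (n + 1) ⊕ Fin (t + 1)) ℂ →ₐ[ℂ] R :=
      aeval (Sum.elim y (fun l => algebraMap ℂ R (a l)))
    have hlam : lam (sp y N) = (shf b N).map (μ : _ →+* R) := by
      have h2 : ((lam.restrictScalars ℂ).comp (sp y)) = (Polynomial.mapAlgHom μ).comp (shf b) := by
        apply MvPolynomial.algHom_ext
        intro i
        rw [AlgHom.comp_apply, AlgHom.comp_apply]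
        rcases i with i | i
        · rw [sp_inl, shf, aeval_X, Sum.elim_inl]
          show lam (C (y i)) = (Polynomial.C (X (Sum.inl i))).map
            (μ : MvPolynomial (Fin (n + 1) ⊕ Fin (t + 1)) ℂ →+* R)
          rw [Polynomial.map_C]
          show aeval _ (C (y i)) = Polynomial.C (aeval _ (X (Sum.inl i)))
          rw [aeval_C, aeval_X, Sum.elim_inl]
          rfl
        · rw [sp_inr, shf, aeval_X, Sum.elim_inr]
          show lam (X i) = (Polynomial.C (X (Sum.inr i)) +
            Polynomial.C (C (b i)) * Polynomial.X).map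
            (μ : MvPolynomial (Fin (n + 1) ⊕ Fin (t + 1)) ℂ →+* R)
          rw [Polynomial.map_add, Polynomial.map_mul, Polynomial.map_C, Polynomial.map_C,
            Polynomial.map_X]
          show aeval _ (X i) = Polynomial.C (aeval _ (X (Sum.inr i))) +
            Polynomial.C (aeval _ (C (b i))) * Polynomial.X
          rw [aeval_X, aeval_X, Sum.elim_inr, aeval_C]
      exact congrArg (fun F => F N) h2
    have hres : Polynomial.resultant (lam (sp y N)) (Polynomial.derivative (lam (sp y N)))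
        D (D - 1) = aeval y Δ₁ := by
      rw [hlam, Polynomial.derivative_map, Polynomial.resultant_map_map, ← hr, hcomp]
      rfl
    -- the degree of the restriction of `π`
    have hu := natDegree_coeff_aeval (A := R) (S := R) (w := 1)
      (f := fun l : Fin (t + 1) => Polynomial.C (algebraMap ℂ R (a l)) +
        Polynomial.C (algebraMap ℂ R (b l)) * Polynomial.X)
      (c := fun l => algebraMap ℂ R (b l))
      (by
        intro i
        simp only [Pi.one_apply]
        compute_degree)
      (by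
        intro i
        simp [Polynomial.coeff_C]) he
    have hu0 : (lam π).coeff e ≠ 0 := by
      have h1 : (lam π).coeff e = eval (fun l => algebraMap ℂ R (b l)) π := hu.2
      rw [h1]
      intro h2
      apply hy2
      rw [← hNbR, hρ, map_mul, map_pow, h2]
      simp
    have hue : 1 ≤ (lam π).natDegree := by
      have := Polynomial.le_natDegree_of_ne_zero hu0
      omega
    have hP : (lam (sp y N)).natDegree ≤ D := by
      rw [hlam]
      exact (Polynomial.natDegree_map_le).trans hlead.1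
    have hP' : (Polynomial.derivative (lam (sp y N))).natDegree ≤ D - 1 :=
      (Polynomial.natDegree_derivative_le _).trans (by omega)
    obtain ⟨q₁, q₂, -, -, hq⟩ := Polynomial.exists_mul_add_mul_eq_C_resultant
      (lam (sp y N)) (Polynomial.derivative (lam (sp y N))) hP hP' (Or.inl hD)
    rw [hres] at hq
    have hd1 : lam π ∣ lam (sp y N) := by
      rw [hρ, map_mul, map_pow, pow_two, mul_assoc]
      exact dvd_mul_right _ _
    have hd2 : lam π ∣ Polynomial.derivative (lam (sp y N)) := by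
      rw [hρ, map_mul, map_pow, Polynomial.derivative_mul, Polynomial.derivative_pow]
      apply dvd_add
      · apply Dvd.dvd.mul_right
        apply Dvd.dvd.mul_right
        apply Dvd.dvd.mul_left
        simp
      · apply Dvd.dvd.mul_right
        rw [pow_two]
        exact dvd_mul_right _ _
    have hd3 : lam π ∣ Polynomial.C (aeval y Δ₁) := by
      rw [← hq]
      exact dvd_add (hd1.mul_right _) (hd2.mul_right _)
    have hd4 := Polynomial.natDegree_le_of_dvd hd3 (by rwa [Ne, Polynomial.C_eq_zero])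
    rw [Polynomial.natDegree_C] at hd4
    omega

end

end Pool.Agent.Lib.GGL
end

section

/-!
The determinant attached to a pair of forms and a unisolvent family of points.
-/

open MvPolynomial Module

namespace Pool.Agent.Lib.GGL

section

variable {t : ℕ} {H : Type*} [Fintype H] [DecidableEq H] (x : H → Fin (t + 1) → ℂ)
  (L : H → MvPolynomial (Fin (t + 1)) ℂ)

/-- The form `g₀(x_j) g₁ - g₁(x_j) g₀`. -/
noncomputable def wr {t : ℕ} (x : Fin (t + 1) → ℂ) (g₀ g₁ : MvPolynomial (Fin (t + 1)) ℂ) :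
    MvPolynomial (Fin (t + 1)) ℂ :=
  C (eval x g₀) * g₁ - C (eval x g₁) * g₀

/-- The map `a ↦ ∑ a_j (g₀(x_j) g₁ - g₁(x_j) g₀) L_j`. -/
noncomputable def kap3 (g₀ g₁ : MvPolynomial (Fin (t + 1)) ℂ) :
    (H → ℂ) →ₗ[ℂ] MvPolynomial (Fin (t + 1)) ℂ :=
  ∑ j, (LinearMap.proj j).smulRight (wr (x j) g₀ g₁ * L j)

omit [DecidableEq H] in
lemma kap3_apply (g₀ g₁ : MvPolynomial (Fin (t + 1)) ℂ) (a : H → ℂ) :
    kap3 x L g₀ g₁ a = ∑ j, a j • (wr (x j) g₀ g₁ * L j) := by
  simp [kap3]

lemma kap3_single (g₀ g₁ : MvPolynomial (Fin (t + 1)) ℂ) (j : H) :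
    kap3 x L g₀ g₁ (Pi.single j 1) = wr (x j) g₀ g₁ * L j := by
  rw [kap3_apply, Finset.sum_eq_single j]
  · simp
  · intro i _ hi
    simp [Pi.single_eq_of_ne hi]
  · simp

omit [DecidableEq H] in
lemma kap3_eq (g₀ g₁ : MvPolynomial (Fin (t + 1)) ℂ) (a : H → ℂ) :
    kap3 x L g₀ g₁ a = g₁ * (∑ j, (a j * eval (x j) g₀) • L j)
      - g₀ * (∑ j, (a j * eval (x j) g₁) • L j) := by
  rw [kap3_apply, Finset.mul_sum, Finset.mul_sum, ← Finset.sum_sub_distrib]
  refine Finset.sum_congr rfl fun j _ => ?_
  rw [wr]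
  simp only [smul_eq_C_mul, C_mul]
  ring

variable {k d : ℕ} (hinterp : ∀ Q : MvPolynomial (Fin (t + 1)) ℂ, Q.IsHomogeneous (k + d) →
    Q = ∑ j, eval (x j) Q • L j)

include hinterp

omit [DecidableEq H] in
lemma eq_zero_of_vanish3 {Q : MvPolynomial (Fin (t + 1)) ℂ} (hQ : Q.IsHomogeneous (k + d))
    (h : ∀ j, eval (x j) Q = 0) : Q = 0 := by
  rw [hinterp Q hQ]
  simp [h]

omit [DecidableEq H] in
lemma evW_injective3 : Function.Injective (evW x k) := by
  rw [← LinearMap.ker_eq_bot, LinearMap.ker_eq_bot']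
  rintro ⟨c, hc⟩ h
  rw [mem_homogeneousSubmodule] at hc
  have h1 : ∀ j, eval (x j) c = 0 := fun j => congrFun h j
  have h2 : c * (X 0 : MvPolynomial (Fin (t + 1)) ℂ) ^ d = 0 := by
    apply eq_zero_of_vanish3 x L hinterp (Q := c * (X 0 : MvPolynomial (Fin (t + 1)) ℂ) ^ d)
    · exact hc.mul (isHomogeneous_X_pow _ _)
    · intro j
      rw [map_mul, h1, zero_mul]
  have h4 := (mul_eq_zero.mp h2).resolve_right (pow_ne_zero _ (X_ne_zero _))
  ext1
  simpa using h4

omit [DecidableEq H] in
lemma range_le_ker3 {g₀ g₁ : MvPolynomial (Fin (t + 1)) ℂ} (hg₀ : g₀.IsHomogeneous d)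
    (hg₁ : g₁.IsHomogeneous d) :
    LinearMap.range (evW x k) ≤ LinearMap.ker (kap3 x L g₀ g₁) := by
  rintro _ ⟨⟨c, hc⟩, rfl⟩
  rw [mem_homogeneousSubmodule] at hc
  rw [LinearMap.mem_ker, kap3_eq]
  simp only [evW_apply]
  have h1 : ∀ v : MvPolynomial (Fin (t + 1)) ℂ, v.IsHomogeneous d →
      ∑ j, (eval (x j) c * eval (x j) v) • L j = c * v := by
    intro v hv
    rw [hinterp _ (hc.mul hv)]
    refine Finset.sum_congr rfl fun j _ => ?_
    rw [map_mul]
  rw [h1 _ hg₀, h1 _ hg₁]
  ring

/-- The determinants. -/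
theorem exists_jetForm3 :
    ∃ 𝓑 : Finset (Finset H),
      (∀ B ∈ 𝓑, B.card + finrank ℂ (homogeneousSubmodule (Fin (t + 1)) ℂ k) = Fintype.card H) ∧
      (∀ S : Finset H, (∀ c : MvPolynomial (Fin (t + 1)) ℂ, c.IsHomogeneous k →
        (∀ j, j ∉ S → eval (x j) c = 0) → c = 0) → ∃ B ∈ 𝓑, S ⊆ B) ∧
      (∀ B ∈ 𝓑, ∀ c : MvPolynomial (Fin (t + 1)) ℂ, c.IsHomogeneous k →
        (∀ j, j ∉ B → eval (x j) c = 0) → c = 0) ∧
      ∀ g₀ g₁ : MvPolynomial (Fin (t + 1)) ℂ, g₀.IsHomogeneous d → g₁.IsHomogeneous d →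
        (∃ B ∈ 𝓑, LinearIndependent ℂ fun j : B => wr (x j) g₀ g₁ * L j) →
        ∃ G : MvPolynomial (Fin (t + 1)) ℂ → MvPolynomial (Fin (t + 1)) ℂ → ℂ, G g₀ g₁ ≠ 0 ∧
          ∀ B ∈ 𝓑, ∃ a : B → (MvPolynomial (Fin (t + 1)) ℂ →ₗ[ℂ] ℂ),
            ∀ v₀ v₁ : MvPolynomial (Fin (t + 1)) ℂ, v₀.IsHomogeneous d → v₁.IsHomogeneous d →
            G v₀ v₁ = Matrix.det (Matrix.of fun i j : B => a i (wr (x j) v₀ v₁ * L j)) := by
  classical
  set W : Submodule ℂ (H → ℂ) := LinearMap.range (evW x k) with hW
  let ē : H → (H → ℂ) ⧸ W := fun j => W.mkQ (Pi.single j 1)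
  have hspanē : Submodule.span ℂ (Set.range ē) = ⊤ := by
    have h1 : Submodule.span ℂ (Set.range fun j : H => (Pi.single j 1 : H → ℂ)) = ⊤ := by
      have h0 : (fun j : H => (Pi.single j 1 : H → ℂ)) = ⇑(Pi.basisFun ℂ H) := by
        funext j
        rw [Pi.basisFun_apply]
      rw [h0]
      exact (Pi.basisFun ℂ H).span_eq
    have h2 : Set.range ē = W.mkQ '' (Set.range fun j : H => (Pi.single j 1 : H → ℂ)) := by
      rw [← Set.range_comp]
      rfl
    rw [h2, Submodule.span_image, h1, Submodule.map_top, Submodule.range_mkQ]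
  have hfinW : finrank ℂ W = finrank ℂ (homogeneousSubmodule (Fin (t + 1)) ℂ k) :=
    LinearMap.finrank_range_of_inj (evW_injective3 x L hinterp)
  have hsum : ∀ l : H → ℂ, (∑ j, l j • (Pi.single j 1 : H → ℂ)) = l := by
    intro l
    funext i
    rw [Finset.sum_apply, Finset.sum_eq_single i]
    · simp
    · intro j _ hj
      simp [Pi.single_eq_of_ne (Ne.symm hj)]
    · simp
  refine ⟨Finset.univ.filter fun B : Finset H => LinearIndepOn ℂ ē (B : Set H) ∧
    Submodule.span ℂ (ē '' (B : Set H)) = ⊤, ?_, ?_, ?_, ?_⟩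
  · intro B hB
    rw [Finset.mem_filter] at hB
    obtain ⟨-, hB1, hB2⟩ := hB
    let b : Basis B ℂ ((H → ℂ) ⧸ W) := Basis.mk (v := fun i : B => ē i) hB1 (by
      rw [← hB2]
      apply Submodule.span_mono
      rintro _ ⟨i, hi, rfl⟩
      exact ⟨⟨i, hi⟩, rfl⟩)
    have h1 := Module.finrank_eq_card_basis b
    have h2 := W.finrank_quotient_add_finrank
    rw [h1, hfinW] at h2
    simpa using h2
  · intro S hS
    have hli : LinearIndepOn ℂ ē (S : Set H) := by
      rw [linearIndepOn_iff]
      intro l hl hl0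
      have h1 : ∀ j, j ∉ S → l j = 0 := by
        intro j hj
        by_contra h2
        exact hj ((Finsupp.mem_supported ℂ l).mp hl (Finsupp.mem_support_iff.mpr h2))
      have h2 : W.mkQ (fun j => l j) = 0 := by
        rw [← hl0, Finsupp.linearCombination_apply, Finsupp.sum_fintype _ _ (by simp)]
        conv_lhs => rw [← hsum fun j => l j, map_sum]
        refine Finset.sum_congr rfl fun j _ => ?_
        rw [map_smul]
      rw [Submodule.mkQ_apply, Submodule.Quotient.mk_eq_zero] at h2
      obtain ⟨⟨c, hc⟩, hc2⟩ := h2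
      rw [mem_homogeneousSubmodule] at hc
      have h4 : ∀ j, eval (x j) c = l j := fun j => congrFun hc2 j
      have h6 : c = 0 := hS c hc fun j hj => by rw [h4, h1 j hj]
      ext j
      rw [← h4 j, h6]
      simp
    obtain ⟨b, -, hb1, hb2, hb3⟩ := exists_linearIndepOn_extension hli (Set.subset_univ _)
    refine ⟨b.toFinset, ?_, ?_⟩
    · rw [Finset.mem_filter]
      refine ⟨Finset.mem_univ _, ?_, ?_⟩
      · simpa using hb3
      · rw [Set.coe_toFinset, eq_top_iff, ← hspanē, Submodule.span_le]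
        simpa using hb2
    · intro j hj
      rw [Set.mem_toFinset]
      exact hb1 hj
  · intro B hB c hc h
    rw [Finset.mem_filter] at hB
    obtain ⟨-, hB1, -⟩ := hB
    have h1 : W.mkQ (fun j => eval (x j) c) = 0 := by
      rw [Submodule.mkQ_apply, Submodule.Quotient.mk_eq_zero]
      exact ⟨⟨c, (mem_homogeneousSubmodule _ _).mpr hc⟩, rfl⟩
    rw [← hsum fun j => eval (x j) c, map_sum] at h1
    have h2 : ∀ j ∈ B, eval (x j) c = 0 := by
      rw [linearIndepOn_finset_iff] at hB1
      apply hB1 (fun j => eval (x j) c)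
      rw [← h1]
      symm
      rw [← Finset.sum_subset (Finset.subset_univ B)]
      · refine Finset.sum_congr rfl fun j _ => ?_
        rw [map_smul]
      · intro j _ hj
        rw [h j hj, zero_smul, map_zero]
    have h3 := evW_injective3 x L hinterp
    have h4 : (⟨c, (mem_homogeneousSubmodule _ _).mpr hc⟩ :
        homogeneousSubmodule (Fin (t + 1)) ℂ k) = 0 := by
      apply h3
      funext j
      rw [map_zero, evW_apply]
      by_cases hj : j ∈ B
      · exact h2 j hj
      · exact h j hj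
    exact congrArg Subtype.val h4
  · intro g₀ g₁ hg₀ hg₁ hind
    obtain ⟨B₀, hB₀, hli⟩ := hind
    -- the induced maps on the quotient
    let κ : (v : MvPolynomial (Fin (t + 1)) ℂ × MvPolynomial (Fin (t + 1)) ℂ) →
        ((H → ℂ) ⧸ W) →ₗ[ℂ] MvPolynomial (Fin (t + 1)) ℂ := fun v =>
      if h : v.1.IsHomogeneous d ∧ v.2.IsHomogeneous d then
        W.liftQ (kap3 x L v.1 v.2) (range_le_ker3 x L hinterp h.1 h.2) else 0
    have hκ : ∀ v₀ v₁ : MvPolynomial (Fin (t + 1)) ℂ, v₀.IsHomogeneous d → v₁.IsHomogeneous d →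
        ∀ j : H, κ (v₀, v₁) (ē j) = wr (x j) v₀ v₁ * L j := by
      intro v₀ v₁ h0 h1 j
      have h2 : κ (v₀, v₁) = W.liftQ (kap3 x L v₀ v₁) (range_le_ker3 x L hinterp h0 h1) :=
        dif_pos ⟨h0, h1⟩
      rw [h2]
      show W.liftQ (kap3 x L v₀ v₁) _ (W.mkQ (Pi.single (j : H) 1)) = _
      rw [Submodule.mkQ_apply, Submodule.liftQ_apply, kap3_single]
    have hbas : ∀ B ∈ (Finset.univ.filter fun B : Finset H => LinearIndepOn ℂ ē (B : Set H) ∧
        Submodule.span ℂ (ē '' (B : Set H)) = ⊤), ∃ b : Basis B ℂ ((H → ℂ) ⧸ W),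
        ∀ i : B, b i = ē i := by
      intro B hB
      rw [Finset.mem_filter] at hB
      obtain ⟨-, hB1, hB2⟩ := hB
      exact ⟨Basis.mk (v := fun i : B => ē i) hB1 (by
        rw [← hB2]
        apply Submodule.span_mono
        rintro _ ⟨i, hi, rfl⟩
        exact ⟨⟨i, hi⟩, rfl⟩), fun i => Basis.mk_apply _ _ _⟩
    have hinj : LinearMap.ker (κ (g₀, g₁)) = ⊥ := by
      obtain ⟨b, hb⟩ := hbas B₀ hB₀
      rw [LinearMap.ker_eq_bot']
      intro v hv
      rw [← b.sum_repr v, map_sum] at hv
      rw [Fintype.linearIndependent_iff] at hli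
      have h1 := hli (fun j => b.repr v j) (by
        rw [← hv]
        refine Finset.sum_congr rfl fun j _ => ?_
        rw [map_smul, hb, hκ _ _ hg₀ hg₁])
      rw [← b.sum_repr v]
      exact Finset.sum_eq_zero fun j _ => by rw [h1 j, zero_smul]
    obtain ⟨ϕ, hϕ⟩ := LinearMap.exists_leftInverse_of_injective _ hinj
    refine ⟨fun v₀ v₁ => LinearMap.det (ϕ ∘ₗ κ (v₀, v₁)), ?_, ?_⟩
    · beta_reduce
      rw [hϕ]
      simp
    · intro B hB
      obtain ⟨b, hb⟩ := hbas B hB
      refine ⟨fun i => (b.coord i) ∘ₗ ϕ, ?_⟩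
      intro v₀ v₁ h0 h1
      beta_reduce
      rw [← LinearMap.det_toMatrix b]
      congr 1
      ext i j
      rw [LinearMap.toMatrix_apply, hb]
      simp only [Matrix.of_apply, LinearMap.comp_apply, Basis.coord_apply]
      rw [hκ _ _ h0 h1]

end

end Pool.Agent.Lib.GGL
end
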