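import Mathlib
import Pool.Agent.Lib.MP_8d161d_ag.CaseB
import Pool.Agent.Lib.MP_8d161d_ag.Mg.G042
import Pool.Agent.Lib.MP_8d161d_ag.Mg.G017

section

/-!
The growth argument for determinants of one-jets defined on a closed cone of pairs.
-/

open Filter Topology Metric

namespace Pool.Agent.Lib.GGL

/-- holomorphic functions of a pair of vectors -/
def Hol {n : ℕ} (α : (Fin (n + 1) → ℂ) → (Fin (n + 1) → ℂ) → ℂ) : Prop :=
  AnalyticOnNhd ℂ (fun q : (Fin (n + 1) → ℂ) × (Fin (n + 1) → ℂ) => α q.1 q.2) Set.univ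

/-- On pairs in `T` the function `G` is, for each `B` in `𝓑`, a determinant whose columns are
divisible by the equations of the hyperplanes in `B`. -/
def Fac {n : ℕ} {H : Type*} [DecidableEq H] (p : H → Fin (n + 1) → ℂ)
    (T : (Fin (n + 1) → ℂ) → (Fin (n + 1) → ℂ) → Prop) (𝓑 : Finset (Finset H))
    (G : (Fin (n + 1) → ℂ) → (Fin (n + 1) → ℂ) → ℂ) : Prop :=
  ∀ B ∈ 𝓑, ∃ α β : B → B → (Fin (n + 1) → ℂ) → (Fin (n + 1) → ℂ) → ℂ,
    (∀ i j, Hol (α i j)) ∧ (∀ i j, Hol (β i j)) ∧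
    ∀ y w, T y w → G y w = Matrix.det
      (Matrix.of fun i j : B => (p j ⬝ᵥ y) * α i j y w + (p j ⬝ᵥ w) * β i j y w)

lemma Hol.comp {n : ℕ} {α : (Fin (n + 1) → ℂ) → (Fin (n + 1) → ℂ) → ℂ} (hα : Hol α)
    {y w : ℂ → Fin (n + 1) → ℂ} {z₁ : ℂ} (hy : AnalyticAt ℂ y z₁) (hw : AnalyticAt ℂ w z₁) :
    AnalyticAt ℂ (fun z => α (y z) (w z)) z₁ :=
  AnalyticAt.comp (g := fun q : (Fin (n + 1) → ℂ) × (Fin (n + 1) → ℂ) => α q.1 q.2)
    (f := fun z => (y z, w z)) (hα _ (Set.mem_univ _)) (hy.prod hw)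

lemma Hol.bound {n : ℕ} {α : (Fin (n + 1) → ℂ) → (Fin (n + 1) → ℂ) → ℂ} (hα : Hol α) (R : ℝ) :
    ∃ C : ℝ, 0 ≤ C ∧ ∀ y w : Fin (n + 1) → ℂ, ‖y‖ ≤ R → ‖w‖ ≤ R → ‖α y w‖ ≤ C := by
  have hc : Continuous fun q : (Fin (n + 1) → ℂ) × (Fin (n + 1) → ℂ) => α q.1 q.2 := by
    rw [← continuousOn_univ]
    exact hα.continuousOn
  obtain ⟨C, hC⟩ := ((isCompact_closedBall (0 : (Fin (n + 1) → ℂ) × (Fin (n + 1) → ℂ)) R).image
    hc.norm).bddAbove
  refine ⟨max C 0, le_max_right _ _, ?_⟩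
  intro y w hy hw
  refine le_trans (hC ⟨(y, w), ?_, rfl⟩) (le_max_left _ _)
  rw [mem_closedBall_zero_iff, Prod.norm_def]
  exact max_le hy hw

section

variable {n : ℕ} {H : Type*} [Fintype H] [DecidableEq H] (p : H → Fin (n + 1) → ℂ)

/-- Local structure along a curve. -/
theorem local_structure3 {m : ℕ} (hm : 0 < m)
    {T : (Fin (n + 1) → ℂ) → (Fin (n + 1) → ℂ) → Prop} (𝓑 : Finset (Finset H))
    (G : (Fin (n + 1) → ℂ) → (Fin (n + 1) → ℂ) → ℂ) (hG : Fac p T 𝓑 G)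
    {z₁ : ℂ} {y : ℂ → Fin (n + 1) → ℂ} (hy : AnalyticAt ℂ y z₁)
    (hcov : ∃ B ∈ 𝓑, ∀ j, p j ⬝ᵥ y z₁ = 0 → j ∈ B)
    (hT : ∀ᶠ z in 𝓝 z₁, T (y z) (deriv y z))
    (htop : ∀ j, analyticOrderAt (fun z => p j ⬝ᵥ y z) z₁ ≠ ⊤)
    (hord : ∀ j, analyticOrderAt (fun z => p j ⬝ᵥ y z) z₁ = 0 ∨
      (m : ℕ∞) ≤ analyticOrderAt (fun z => p j ⬝ᵥ y z) z₁) :
    ∃ σ : ℂ → ℂ, AnalyticAt ℂ σ z₁ ∧
      (∀ᶠ z in 𝓝 z₁, G (y z) (deriv y z) ^ m = σ z * (∏ j, p j ⬝ᵥ y z) ^ (m - 1)) ∧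
      (σ z₁ ≠ 0 → ∃ x : ℂ → EuclideanSpace ℂ H, AnalyticAt ℂ x z₁ ∧
        ∀ᶠ z in 𝓝 z₁, ∀ j, p j ⬝ᵥ y z = x z j ^ m ∧
          p j ⬝ᵥ deriv y z = m * x z j ^ (m - 1) * deriv x z j) := by
  have hl : ∀ j, AnalyticAt ℂ (fun z => p j ⬝ᵥ y z) z₁ := fun j => analyticAt_dotProduct hy _
  have h1 : ∀ j, ∃ (μ : ℕ) (g : ℂ → ℂ), AnalyticAt ℂ g z₁ ∧ g z₁ ≠ 0 ∧
      (∀ᶠ z in 𝓝 z₁, p j ⬝ᵥ y z = (z - z₁) ^ μ * g z) ∧ (μ = 0 ∨ m ≤ μ) := by
    intro j
    obtain ⟨g, hg1, hg2, hg3⟩ := (hl j).analyticOrderAt_ne_top.mp (htop j)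
    refine ⟨analyticOrderNatAt (fun z => p j ⬝ᵥ y z) z₁, g, hg1, hg2, ?_, ?_⟩
    · filter_upwards [hg3] with z hz
      rw [hz, smul_eq_mul]
    · have h2 := Nat.cast_analyticOrderNatAt (htop j)
      rcases hord j with h | h
      · left
        rw [h] at h2
        exact_mod_cast h2
      · right
        rw [← h2] at h
        exact_mod_cast h
  choose μ g hg hg0 hlg hμ using h1
  choose a b ha hb hay hby using fun j => exists_kh (v := p j) hy (hg j) (hlg j)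
  obtain ⟨B, hB, hBz⟩ := hcov
  obtain ⟨α, β, hα, hβ, hGB⟩ := hG B hB
  have hμB : ∀ j, j ∉ B → μ j = 0 := by
    intro j hj
    by_contra hne
    apply hj
    apply hBz
    rw [(hlg j).self_of_nhds, sub_self, zero_pow hne, zero_mul]
  have hsub : AnalyticAt ℂ (fun z => z - z₁) z₁ := analyticAt_id.sub analyticAt_const
  obtain ⟨Gt, hGt⟩ : ∃ Gt : ℂ → ℂ, Gt = fun z => Matrix.det (Matrix.of fun i j : B =>
    a j z * α i j (y z) (deriv y z) + b j z * β i j (y z) (deriv y z)) := ⟨_, rfl⟩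
  have hGtan : AnalyticAt ℂ Gt z₁ := by
    rw [hGt]
    apply analyticAt_det
    intro i j
    simp only [Matrix.of_apply]
    exact ((ha j).mul ((hα i j).comp hy hy.deriv)).add ((hb j).mul ((hβ i j).comp hy hy.deriv))
  have hgprod : AnalyticAt ℂ (fun z => ∏ j, g j z) z₁ := by
    apply Finset.analyticAt_fun_prod
    intro j _
    exact hg j
  have hgprod0 : (∏ j, g j z₁) ≠ 0 := Finset.prod_ne_zero_iff.mpr fun j _ => hg0 j
  refine ⟨fun z => (z - z₁) ^ (∑ j, (μ j - m)) * Gt z ^ m / (∏ j, g j z) ^ (m - 1), ?_, ?_, ?_⟩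
  · exact ((hsub.pow _).mul (hGtan.pow _)).div (hgprod.pow _) (pow_ne_zero _ hgprod0)
  · have hall1 : ∀ᶠ z in 𝓝 z₁, ∀ j, p j ⬝ᵥ y z = (z - z₁) ^ μ j * g j z := by
      rw [Filter.eventually_all]; exact hlg
    have hall2 : ∀ᶠ z in 𝓝 z₁, ∀ j, p j ⬝ᵥ y z = (z - z₁) ^ (μ j - 1) * a j z := by
      rw [Filter.eventually_all]; exact hay
    have hall2' : ∀ᶠ z in 𝓝 z₁, ∀ j, p j ⬝ᵥ deriv y z = (z - z₁) ^ (μ j - 1) * b j z := by
      rw [Filter.eventually_all]; exact hby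
    have hall3 : ∀ᶠ z in 𝓝 z₁, (∏ j, g j z) ≠ 0 := hgprod.continuousAt.eventually_ne hgprod0
    filter_upwards [hall1, hall2, hall2', hall3, hT] with z g1 g2 g2' g3 g4
    have e1 : G (y z) (deriv y z) = (z - z₁) ^ (∑ j, (μ j - 1)) * Gt z := by
      rw [hGB _ _ g4, hGt]
      have e2 : (Matrix.of fun i j : B => (p j ⬝ᵥ y z) * α i j (y z) (deriv y z) +
          (p j ⬝ᵥ deriv y z) * β i j (y z) (deriv y z)) =
          Matrix.of fun i j : B => (z - z₁) ^ (μ j - 1) *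
            (Matrix.of fun i j : B =>
              a j z * α i j (y z) (deriv y z) + b j z * β i j (y z) (deriv y z)) i j := by
        ext i j
        simp only [Matrix.of_apply]
        rw [g2, g2']
        ring
      rw [e2, Matrix.det_mul_row]
      congr 1
      rw [Finset.prod_pow_eq_pow_sum]
      congr 1
      rw [Finset.sum_coe_sort B (fun j => μ j - 1)]
      apply Finset.sum_subset (Finset.subset_univ _)
      intro j _ hj
      rw [hμB j hj, Nat.zero_sub]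
    rw [e1]
    have e3 : (∏ j, p j ⬝ᵥ y z) = (z - z₁) ^ (∑ j, μ j) * ∏ j, g j z := by
      rw [← Finset.prod_pow_eq_pow_sum, ← Finset.prod_mul_distrib]
      exact Finset.prod_congr rfl fun j _ => g1 j
    rw [e3, mul_pow, mul_pow, ← pow_mul, ← pow_mul]
    have e4 : (∑ j, (μ j - 1)) * m = (∑ j, (μ j - m)) + (∑ j, μ j) * (m - 1) := by
      rw [Finset.sum_mul, Finset.sum_mul, ← Finset.sum_add_distrib]
      refine Finset.sum_congr rfl fun j _ => ?_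
      rcases hμ j with h | h
      · rw [h]; simp
      · obtain ⟨t, ht⟩ := Nat.exists_eq_add_of_le h
        obtain ⟨m', rfl⟩ : ∃ m', m = m' + 1 := ⟨m - 1, by omega⟩
        rw [ht]
        have h5 : m' + 1 + t - 1 = m' + t := by omega
        have h6 : m' + 1 + t - (m' + 1) = t := by omega
        rw [h5, h6, Nat.add_sub_cancel]
        ring
    rw [e4, pow_add]
    field_simp
  · intro hσ
    have e0 : ∑ j, (μ j - m) = 0 := by
      by_contra hne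
      apply hσ
      beta_reduce
      rw [sub_self, zero_pow hne, zero_mul, zero_div]
    have e1 : ∀ j, μ j = μ j / m * m := by
      intro j
      have h2 : μ j - m = 0 := by
        have := (Finset.sum_eq_zero_iff.mp e0) j (Finset.mem_univ _)
        exact this
      rcases hμ j with h | h
      · rw [h]; simp
      · have h3 : μ j = m := by omega
        rw [h3, Nat.div_self hm, one_mul]
    choose r hr hrg using fun j => exists_root (hg j) (hg0 j) hm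
    obtain ⟨x, hx⟩ : ∃ x : ℂ → EuclideanSpace ℂ H, x = fun z =>
      WithLp.toLp 2 (fun j => (z - z₁) ^ (μ j / m) * r j z) := ⟨_, rfl⟩
    have hxan : AnalyticAt ℂ x z₁ := by
      have h1 : AnalyticAt ℂ (fun z => fun j => (z - z₁) ^ (μ j / m) * r j z) z₁ := by
        rw [analyticAt_pi_iff]
        intro j
        exact (hsub.pow _).mul (hr j)
      have h2 : x = (EuclideanSpace.equiv H ℂ).symm ∘
        (fun z => fun j => (z - z₁) ^ (μ j / m) * r j z) := by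
        rw [hx]; rfl
      rw [h2]
      exact (((EuclideanSpace.equiv H ℂ).symm : (H → ℂ) →L[ℂ] EuclideanSpace ℂ H).analyticAt
        _).comp h1
    have hxj : ∀ z j, x z j = (z - z₁) ^ (μ j / m) * r j z := by
      intro z j
      rw [hx]
    have hpow : ∀ j, ∀ᶠ z in 𝓝 z₁, p j ⬝ᵥ y z = x z j ^ m := by
      intro j
      filter_upwards [hlg j, hrg j] with z g1 g2
      rw [g1, hxj, mul_pow, g2, ← pow_mul, ← e1]
    refine ⟨x, hxan, ?_⟩
    rw [Filter.eventually_all]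
    intro j
    have h5 : (fun z => p j ⬝ᵥ y z) =ᶠ[𝓝 z₁] fun z => x z j ^ m := hpow j
    filter_upwards [hpow j, h5.deriv, hxan.eventually_analyticAt, hy.eventually_analyticAt]
      with z g1 g2 g3 g4
    refine ⟨g1, ?_⟩
    rw [← deriv_dotProduct g4, g2]
    have h6 : HasDerivAt x (deriv x z) z := g3.differentiableAt.hasDerivAt
    have h7 : HasDerivAt (fun z => x z j) (deriv x z j) z := by
      have := (EuclideanSpace.proj (𝕜 := ℂ) j).hasFDerivAt.comp_hasDerivAt z h6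
      exact this
    exact (h7.pow m).deriv

/-- a lower bound on a closed cone -/
lemma lower_bound3 (hsep : ∀ y : Fin (n + 1) → ℂ, (∀ j, p j ⬝ᵥ y = 0) → y = 0)
    (m t : ℕ) (𝓑 : Finset (Finset H)) {Z : Set (Fin (n + 1) → ℂ)} (hZ : IsClosed Z)
    (hcov : ∀ y ∈ Z, y ≠ 0 → ∃ B ∈ 𝓑, ∀ j, p j ⬝ᵥ y = 0 → j ∈ B)
    (hm : 0 < m) :
    ∃ c : ℝ, 0 < c ∧ ∀ (x : EuclideanSpace ℂ H) (y : Fin (n + 1) → ℂ), ‖x‖ = 1 → y ∈ Z →
      (∀ j, p j ⬝ᵥ y = x j ^ m) → c ≤ ∑ B ∈ 𝓑, ∏ j ∈ Bᶜ, ‖x j‖ ^ t := by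
  have hinj : LinearMap.ker (evL p) = ⊥ := by
    rw [LinearMap.ker_eq_bot']
    intro y hy
    exact hsep y fun j => congrFun hy j
  obtain ⟨g, hg⟩ := LinearMap.exists_leftInverse_of_injective _ hinj
  have hgc : Continuous g := LinearMap.continuous_of_finiteDimensional g
  have hg' : ∀ y, g (evL p y) = y := fun y => by
    rw [← LinearMap.comp_apply, hg, LinearMap.id_apply]
  let K : Set (EuclideanSpace ℂ H) := (sphere 0 1 ∩
    {x | (fun j => x j ^ m) ∈ (LinearMap.range (evL p) : Set (H → ℂ))}) ∩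
    {x | g (fun j => x j ^ m) ∈ Z}
  have hxm : Continuous fun x : EuclideanSpace ℂ H => (fun j => x j ^ m : H → ℂ) := by fun_prop
  have hK : IsCompact K := by
    apply IsCompact.inter_right
    · apply (isCompact_sphere (0 : EuclideanSpace ℂ H) 1).inter_right
      have h1 : IsClosed (LinearMap.range (evL p) : Set (H → ℂ)) :=
        Submodule.closed_of_finiteDimensional _
      exact h1.preimage hxm
    · exact hZ.preimage (hgc.comp hxm)
  have hcont : Continuous fun x : EuclideanSpace ℂ H => ∑ B ∈ 𝓑, ∏ j ∈ Bᶜ, ‖x j‖ ^ t := by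
    fun_prop
  have hmem : ∀ (x : EuclideanSpace ℂ H) (y : Fin (n + 1) → ℂ), ‖x‖ = 1 → y ∈ Z →
      (∀ j, p j ⬝ᵥ y = x j ^ m) → x ∈ K := by
    intro x y hx hyZ hy
    have h1 : evL p y = fun j => x j ^ m := funext hy
    refine ⟨⟨by simpa using hx, y, h1⟩, ?_⟩
    show g (fun j => x j ^ m) ∈ Z
    rw [← h1, hg']
    exact hyZ
  have hpos : ∀ x ∈ K, 0 < ∑ B ∈ 𝓑, ∏ j ∈ Bᶜ, ‖x j‖ ^ t := by
    rintro x ⟨⟨hx1, y, hy⟩, hx2⟩
    have hx1' : ‖x‖ = 1 := by simpa using hx1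
    have hy' : ∀ j, p j ⬝ᵥ y = x j ^ m := fun j => congrFun hy j
    have hyZ : y ∈ Z := by
      have : g (fun j => x j ^ m) ∈ Z := hx2
      rwa [← hy, hg'] at this
    have hy0 : y ≠ 0 := by
      rintro rfl
      have : x = 0 := by
        ext j
        have := hy' j
        rw [dotProduct_zero] at this
        simpa using (pow_eq_zero_iff hm.ne').mp this.symm
      rw [this, norm_zero] at hx1'
      exact zero_ne_one hx1'
    obtain ⟨B, hB, hB2⟩ := hcov y hyZ hy0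
    apply Finset.sum_pos'
    · intro B _
      exact Finset.prod_nonneg fun j _ => by positivity
    · refine ⟨B, hB, ?_⟩
      apply Finset.prod_pos
      intro j hj
      have : x j ≠ 0 := by
        intro h
        rw [Finset.mem_compl] at hj
        apply hj
        apply hB2
        rw [hy', h, zero_pow hm.ne']
      positivity
  rcases K.eq_empty_or_nonempty with hne | hne
  · refine ⟨1, one_pos, ?_⟩
    intro x y hx hyZ hy
    have := hmem x y hx hyZ hy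
    rw [hne] at this
    exact absurd this (Set.notMem_empty _)
  · obtain ⟨x₀, hx₀, hmin⟩ := hK.exists_isMinOn hne hcont.continuousOn
    exact ⟨_, hpos x₀ hx₀, fun x y hx hyZ hy => hmin (hmem x y hx hyZ hy)⟩

/-- The estimate on the unit sphere. -/
lemma pointwise_unit3 (hsep : ∀ y : Fin (n + 1) → ℂ, (∀ j, p j ⬝ᵥ y = 0) → y = 0)
    {m : ℕ} (hm : 0 < m) (𝓑 : Finset (Finset H))
    {Z : Set (Fin (n + 1) → ℂ)} (hZ : IsClosed Z)
    {T : (Fin (n + 1) → ℂ) → (Fin (n + 1) → ℂ) → Prop} (hTZ : ∀ y w, T y w → y ∈ Z)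
    (hcov : ∀ y ∈ Z, y ≠ 0 → ∃ B ∈ 𝓑, ∀ j, p j ⬝ᵥ y = 0 → j ∈ B)
    (G : (Fin (n + 1) → ℂ) → (Fin (n + 1) → ℂ) → ℂ) (hG : Fac p T 𝓑 G) :
    ∃ C : ℝ, 0 ≤ C ∧ ∀ (x v : EuclideanSpace ℂ H) (y w : Fin (n + 1) → ℂ), ‖x‖ = 1 → ‖v‖ ≤ 1 →
      T y w → (∀ j, p j ⬝ᵥ y = x j ^ m) → (∀ j, p j ⬝ᵥ w = m * x j ^ (m - 1) * v j) →
        ‖G y w‖ ≤ C * ∏ j, ‖x j‖ ^ (m - 1) := by
  obtain ⟨c, hc, hlow⟩ := lower_bound3 p hsep m (m - 1) 𝓑 hZ hcov hm
  -- bound for `y` and `w`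
  have hinj : LinearMap.ker (evL p) = ⊥ := by
    rw [LinearMap.ker_eq_bot']
    intro y hy
    exact hsep y fun j => congrFun hy j
  obtain ⟨g, hg⟩ := LinearMap.exists_leftInverse_of_injective _ hinj
  have hg' : ∀ y, g (evL p y) = y := fun y => by
    rw [← LinearMap.comp_apply, hg, LinearMap.id_apply]
  let g' : (H → ℂ) →L[ℂ] (Fin (n + 1) → ℂ) := LinearMap.toContinuousLinearMap g
  have hbd : ∀ (y : Fin (n + 1) → ℂ) (r : ℝ), 0 ≤ r → (∀ j, ‖p j ⬝ᵥ y‖ ≤ r) → ‖y‖ ≤ ‖g'‖ * r := by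
    intro y r hr h
    calc ‖y‖ = ‖g' (evL p y)‖ := by
          show ‖y‖ = ‖g (evL p y)‖
          rw [hg']
      _ ≤ ‖g'‖ * ‖evL p y‖ := g'.le_opNorm _
      _ ≤ ‖g'‖ * r := by
        gcongr
        rw [pi_norm_le_iff_of_nonneg hr]
        exact h
  have hm1 : (1 : ℝ) ≤ m := by exact_mod_cast hm
  have hup : ∀ B ∈ 𝓑, ∃ C : ℝ, 0 ≤ C ∧ ∀ (x v : EuclideanSpace ℂ H) (y w : Fin (n + 1) → ℂ),
      ‖x‖ = 1 → ‖v‖ ≤ 1 → T y w → (∀ j, p j ⬝ᵥ y = x j ^ m) →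
      (∀ j, p j ⬝ᵥ w = m * x j ^ (m - 1) * v j) → ‖G y w‖ ≤ C * ∏ j ∈ B, ‖x j‖ ^ (m - 1) := by
    intro B hB
    obtain ⟨α, β, hα, hβ, hGB⟩ := hG B hB
    choose Cα hCα0 hCα using fun i j => (hα i j).bound (‖g'‖ * m)
    choose Cβ hCβ0 hCβ using fun i j => (hβ i j).bound (‖g'‖ * m)
    obtain ⟨D, hD⟩ : ∃ D : ℝ, D = ∑ i, ∑ j, (Cα i j + m * Cβ i j) := ⟨_, rfl⟩
    have hnn : ∀ i j, 0 ≤ Cα i j + m * Cβ i j := fun i j =>
      add_nonneg (hCα0 i j) (mul_nonneg (by positivity) (hCβ0 i j))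
    have hD0 : 0 ≤ D := by
      rw [hD]
      exact Finset.sum_nonneg fun i _ => Finset.sum_nonneg fun j _ => hnn i j
    have hCD : ∀ i j, Cα i j + m * Cβ i j ≤ D := by
      intro i j
      rw [hD]
      calc Cα i j + m * Cβ i j ≤ ∑ j, (Cα i j + m * Cβ i j) :=
            Finset.single_le_sum (f := fun j => Cα i j + m * Cβ i j)
              (fun j _ => hnn i j) (Finset.mem_univ j)
        _ ≤ ∑ i, ∑ j, (Cα i j + m * Cβ i j) := Finset.single_le_sum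
            (f := fun i => ∑ j, (Cα i j + m * Cβ i j))
            (fun i _ => Finset.sum_nonneg fun j _ => hnn i j) (Finset.mem_univ i)
    refine ⟨(B.card.factorial : ℝ) * D ^ B.card, by positivity, ?_⟩
    intro x v y w hx hv hT hxy hxw
    have hxj : ∀ j, ‖x j‖ ≤ 1 := fun j => (PiLp.norm_apply_le x j).trans hx.le
    have hvj : ∀ j, ‖v j‖ ≤ 1 := fun j => (PiLp.norm_apply_le v j).trans hv
    have hyb : ‖y‖ ≤ ‖g'‖ * m := by
      apply hbd y m (by positivity)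
      intro j
      rw [hxy, norm_pow]
      exact (pow_le_one₀ (norm_nonneg _) (hxj j)).trans hm1
    have hwb : ‖w‖ ≤ ‖g'‖ * m := by
      apply hbd w m (by positivity)
      intro j
      rw [hxw, norm_mul, norm_mul, norm_pow, Complex.norm_natCast]
      calc (m : ℝ) * ‖x j‖ ^ (m - 1) * ‖v j‖ ≤ m * 1 * 1 := by
            gcongr
            · exact pow_le_one₀ (norm_nonneg _) (hxj j)
            · exact hvj j
        _ = m := by ring
    have h1 : ∀ i j : B, ‖(Matrix.of fun i j : B =>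
        (p j ⬝ᵥ y) * α i j y w + (p j ⬝ᵥ w) * β i j y w) i j‖ ≤ D * ‖x j‖ ^ (m - 1) := by
      intro i j
      rw [Matrix.of_apply]
      have e1 : x j ^ m = x j ^ (m - 1) * x j := by
        rw [← pow_succ]
        congr 1
        omega
      have e2 : (p j ⬝ᵥ y) * α i j y w + (p j ⬝ᵥ w) * β i j y w =
          x j ^ (m - 1) * (x j * α i j y w + m * (v j * β i j y w)) := by
        rw [hxy, hxw, e1]
        ring
      rw [e2, norm_mul, norm_pow, mul_comm D]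
      have e3 : ‖x j * α i j y w + m * (v j * β i j y w)‖ ≤ Cα i j + m * Cβ i j := by
        refine (norm_add_le _ _).trans ?_
        rw [norm_mul, norm_mul, norm_mul, Complex.norm_natCast]
        have e4 := hCα i j y w hyb hwb
        have e5 := hCβ i j y w hyb hwb
        calc ‖x j‖ * ‖α i j y w‖ + m * (‖v j‖ * ‖β i j y w‖)
            ≤ 1 * Cα i j + m * (1 * Cβ i j) := by
              gcongr
              · exact hxj j
              · exact hvj j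
          _ = _ := by ring
      exact mul_le_mul_of_nonneg_left (e3.trans (hCD i j)) (by positivity)
    rw [hGB y w hT]
    refine (det_bound _ (fun j => D * ‖x j‖ ^ (m - 1)) h1).trans (le_of_eq ?_)
    rw [Finset.prod_mul_distrib, Finset.prod_const]
    ring
  choose! C hC0 hC using hup
  refine ⟨(∑ Z ∈ 𝓑, C Z) / c, ?_, ?_⟩
  · have : 0 ≤ ∑ Z ∈ 𝓑, C Z := Finset.sum_nonneg hC0
    positivity
  intro x v y w hx hv hT hxy hxw
  have h1 := hlow x y hx (hTZ y w hT) hxy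
  have hU : ∀ Z ∈ 𝓑, ‖G y w‖ * ∏ j ∈ Zᶜ, ‖x j‖ ^ (m - 1) ≤ C Z * ∏ j, ‖x j‖ ^ (m - 1) := by
    intro Z hZ
    have h2 := hC Z hZ x v y w hx hv hT hxy hxw
    calc ‖G y w‖ * ∏ j ∈ Zᶜ, ‖x j‖ ^ (m - 1)
        ≤ (C Z * ∏ j ∈ Z, ‖x j‖ ^ (m - 1)) * ∏ j ∈ Zᶜ, ‖x j‖ ^ (m - 1) :=
          mul_le_mul_of_nonneg_right h2 (Finset.prod_nonneg fun i _ => by positivity)
      _ = C Z * ((∏ j ∈ Z, ‖x j‖ ^ (m - 1)) * ∏ j ∈ Zᶜ, ‖x j‖ ^ (m - 1)) := by ring
      _ = _ := by rw [Finset.prod_mul_prod_compl]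
  have h3 : ‖G y w‖ * c ≤ (∑ Z ∈ 𝓑, C Z) * ∏ j, ‖x j‖ ^ (m - 1) := by
    calc ‖G y w‖ * c ≤ ‖G y w‖ * ∑ Z ∈ 𝓑, ∏ j ∈ Zᶜ, ‖x j‖ ^ (m - 1) :=
          mul_le_mul_of_nonneg_left h1 (norm_nonneg _)
      _ = ∑ Z ∈ 𝓑, ‖G y w‖ * ∏ j ∈ Zᶜ, ‖x j‖ ^ (m - 1) := by rw [Finset.mul_sum]
      _ ≤ ∑ Z ∈ 𝓑, C Z * ∏ j, ‖x j‖ ^ (m - 1) := Finset.sum_le_sum hU
      _ = _ := by rw [Finset.sum_mul]
  calc ‖G y w‖ = (‖G y w‖ * c) / c := by field_simp
    _ ≤ ((∑ Z ∈ 𝓑, C Z) * ∏ j, ‖x j‖ ^ (m - 1)) / c := by gcongr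
    _ = _ := by ring

/-- The main pointwise estimate. -/
theorem pointwise3 (hsep : ∀ y : Fin (n + 1) → ℂ, (∀ j, p j ⬝ᵥ y = 0) → y = 0)
    {m a e s : ℕ} (hm : 0 < m) (he : 0 < e) (𝓑 : Finset (Finset H))
    {Z : Set (Fin (n + 1) → ℂ)} (hZ : IsClosed Z)
    {T : (Fin (n + 1) → ℂ) → (Fin (n + 1) → ℂ) → Prop} (hTZ : ∀ y w, T y w → y ∈ Z)
    (hT : ∀ y w (l μ c : ℂ), l ≠ 0 → T y w → T (l • y) (c • (l • w + μ • y)))
    (hcov : ∀ y ∈ Z, y ≠ 0 → ∃ B ∈ 𝓑, ∀ j, p j ⬝ᵥ y = 0 → j ∈ B)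
    (hs : s + m * a = (m - 1) * Fintype.card H)
    (G : (Fin (n + 1) → ℂ) → (Fin (n + 1) → ℂ) → ℂ) (hG : Fac p T 𝓑 G)
    (hJ1 : ∀ y w (l μ : ℂ), l ≠ 0 → G (l • y) (l • w + μ • y) = l ^ a * G y w)
    (hJ2 : ∀ y w (c : ℂ), G y (c • w) = c ^ e * G y w) :
    ∃ C : ℝ, 0 ≤ C ∧ ∀ (x x' : EuclideanSpace ℂ H) (y w : Fin (n + 1) → ℂ), x ≠ 0 → T y w →
      (∀ j, p j ⬝ᵥ y = x j ^ m) → (∀ j, p j ⬝ᵥ w = m * x j ^ (m - 1) * x' j) → ∀ β : ℂ,
        ‖G y w‖ * ‖x‖ ^ s ≤ C * (∏ j, ‖x j‖ ^ (m - 1)) * (‖x' - β • x‖ / ‖x‖) ^ e := by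
  obtain ⟨C, hC0, hC⟩ := pointwise_unit3 p hsep hm 𝓑 hZ hTZ hcov G hG
  refine ⟨C, hC0, ?_⟩
  intro x x' y w hx hTyw hxy hxw β
  have hnx : 0 < ‖x‖ := norm_pos_iff.mpr hx
  obtain ⟨ρ, hρ⟩ : ∃ ρ, ρ = ‖x‖ := ⟨_, rfl⟩
  obtain ⟨u, hu⟩ : ∃ u, u = x' - β • x := ⟨_, rfl⟩
  obtain ⟨τ, hτ⟩ : ∃ τ, τ = ‖u‖ / ‖x‖ := ⟨_, rfl⟩
  have hτ0 : 0 ≤ τ := by rw [hτ]; positivity
  have hu' : ‖u‖ = τ * ρ := by rw [hτ, hρ]; field_simp
  rw [← hu, ← hτ, ← hρ]
  rw [← hρ] at hnx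
  obtain ⟨w1, hw1⟩ : ∃ w1, w1 = w + (-(m * β)) • y := ⟨_, rfl⟩
  have hTw1 : T y w1 := by
    have h1 := hT y w 1 (-(m * β)) 1 one_ne_zero hTyw
    rwa [one_smul, one_smul, one_smul, ← hw1] at h1
  have hGw : G y w1 = G y w := by
    have h1 := hJ1 y w 1 (-(m * β)) one_ne_zero
    rw [one_smul, one_smul, one_pow, one_mul] at h1
    rw [hw1, h1]
  have hpw1 : ∀ j, p j ⬝ᵥ w1 = m * x j ^ (m - 1) * u j := by
    intro j
    have h1 : x j ^ m = x j ^ (m - 1) * x j := by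
      rw [← pow_succ]
      congr 1
      omega
    rw [hw1, dotProduct_add, dotProduct_smul, hxw, hxy, hu, h1]
    simp only [PiLp.sub_apply, PiLp.smul_apply, smul_eq_mul]
    ring
  rw [← hGw]
  rcases hτ0.eq_or_lt with h0 | hpos
  · have hu0 : u = 0 := by
      rw [← norm_eq_zero, hu', ← h0, zero_mul]
    have hw10 : w1 = 0 := by
      apply hsep
      intro j
      rw [hpw1, hu0]
      simp
    have h1 : G y w1 = 0 := by
      have h2 := hJ2 y 0 0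
      rw [smul_zero, zero_pow he.ne', zero_mul] at h2
      rw [hw10, h2]
    rw [h1, norm_zero, zero_mul]
    positivity
  · have hρc : (ρ : ℂ) ≠ 0 := by exact_mod_cast hnx.ne'
    have hτc : (τ : ℂ) ≠ 0 := by exact_mod_cast hpos.ne'
    obtain ⟨l, hl⟩ : ∃ l : ℂ, l = ((ρ : ℂ) ^ m)⁻¹ := ⟨_, rfl⟩
    have hl0 : l ≠ 0 := by rw [hl]; positivity
    have h1 := hC ((ρ : ℂ)⁻¹ • x) (((ρ : ℂ)⁻¹ * (τ : ℂ)⁻¹) • u) (l • y)
      ((τ : ℂ)⁻¹ • (l • w1 + (0 : ℂ) • y)) (by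
        rw [norm_smul, norm_inv, Complex.norm_real, Real.norm_of_nonneg hnx.le, hρ,
          inv_mul_cancel₀ (hρ ▸ hnx).ne']) (by
        rw [norm_smul, norm_mul, norm_inv, norm_inv, Complex.norm_real, Complex.norm_real,
          Real.norm_of_nonneg hnx.le, Real.norm_of_nonneg hpos.le, hu']
        apply le_of_eq
        field_simp) (hT _ _ _ _ _ hl0 hTw1) (by
        intro j
        rw [dotProduct_smul, hxy j, PiLp.smul_apply, smul_eq_mul, smul_eq_mul, mul_pow, hl,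
          inv_pow]) (by
        intro j
        rw [zero_smul, add_zero, dotProduct_smul, dotProduct_smul, hpw1 j, PiLp.smul_apply,
          PiLp.smul_apply, smul_eq_mul, smul_eq_mul, smul_eq_mul, smul_eq_mul, mul_pow, hl]
        have h2 : ((ρ : ℂ) ^ m)⁻¹ = ((ρ : ℂ)⁻¹) ^ (m - 1) * (ρ : ℂ)⁻¹ := by
          rw [← pow_succ, ← inv_pow]
          congr 1
          omega
        rw [h2]
        ring)
    rw [hJ2, hJ1 y w1 l 0 hl0, norm_mul, norm_mul, norm_pow, norm_pow, norm_inv,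
      Complex.norm_real, Real.norm_of_nonneg hpos.le, hl, norm_inv, norm_pow, Complex.norm_real,
      Real.norm_of_nonneg hnx.le] at h1
    have h3 : ∏ j, ‖((ρ : ℂ)⁻¹ • x) j‖ ^ (m - 1) =
        (ρ⁻¹) ^ ((m - 1) * Fintype.card H) * ∏ j, ‖x j‖ ^ (m - 1) := by
      have h4 : ∀ j, ‖((ρ : ℂ)⁻¹ • x) j‖ ^ (m - 1) = (ρ⁻¹) ^ (m - 1) * ‖x j‖ ^ (m - 1) := by
        intro j
        rw [PiLp.smul_apply, norm_smul, norm_inv, Complex.norm_real, Real.norm_of_nonneg hnx.le,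
          mul_pow]
      rw [Finset.prod_congr rfl fun j _ => h4 j, Finset.prod_mul_distrib, Finset.prod_const,
        Finset.card_univ, ← pow_mul]
    rw [h3] at h1
    have h5 : (τ⁻¹) ^ e * ((((ρ ^ m)⁻¹) ^ a) * ‖G y w1‖) * (τ ^ e * ρ ^ (s + m * a)) ≤
        (C * ((ρ⁻¹) ^ ((m - 1) * Fintype.card H) * ∏ j, ‖x j‖ ^ (m - 1))) *
          (τ ^ e * ρ ^ (s + m * a)) := by gcongr
    have h6 : (τ⁻¹) ^ e * ((((ρ ^ m)⁻¹) ^ a) * ‖G y w1‖) * (τ ^ e * ρ ^ (s + m * a)) =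
        ‖G y w1‖ * ρ ^ s := by
      have h7 : (τ⁻¹) ^ e * τ ^ e = 1 := by
        rw [← mul_pow, inv_mul_cancel₀ hpos.ne', one_pow]
      have h8 : ((ρ ^ m)⁻¹) ^ a * ρ ^ (m * a) = 1 := by
        rw [pow_mul, ← mul_pow, inv_mul_cancel₀ (by positivity), one_pow]
      calc _ = ((τ⁻¹) ^ e * τ ^ e) * (((ρ ^ m)⁻¹) ^ a * ρ ^ (m * a)) *
          (‖G y w1‖ * ρ ^ s) := by rw [pow_add]; ring
        _ = _ := by rw [h7, h8, one_mul, one_mul]
    have h9 : (C * ((ρ⁻¹) ^ ((m - 1) * Fintype.card H) * ∏ j, ‖x j‖ ^ (m - 1))) *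
          (τ ^ e * ρ ^ (s + m * a)) = C * (∏ j, ‖x j‖ ^ (m - 1)) * τ ^ e := by
      have h10 : (ρ⁻¹) ^ ((m - 1) * Fintype.card H) * ρ ^ (s + m * a) = 1 := by
        rw [hs, ← mul_pow, inv_mul_cancel₀ hnx.ne', one_pow]
      calc _ = ((ρ⁻¹) ^ ((m - 1) * Fintype.card H) * ρ ^ (s + m * a)) *
          (C * (∏ j, ‖x j‖ ^ (m - 1)) * τ ^ e) := by ring
        _ = _ := by rw [h10, one_mul]
    rw [h6, h9] at h5
    exact h5

omit [DecidableEq H] in
lemma Phi_smul3 {m a s : ℕ} (hm : 0 < m) (hs : s + m * a = (m - 1) * Fintype.card H)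
    {G : (Fin (n + 1) → ℂ) → (Fin (n + 1) → ℂ) → ℂ}
    (hJ1 : ∀ y w (l μ : ℂ), l ≠ 0 → G (l • y) (l • w + μ • y) = l ^ a * G y w)
    (y w : Fin (n + 1) → ℂ) {l : ℂ} (hl : l ≠ 0) (μ : ℂ) :
    Phi p m (m * s) G (l • y) (l • w + μ • y) = Phi p m (m * s) G y w := by
  unfold Phi
  rw [hJ1 _ _ _ _ hl]
  obtain ⟨ρ, hρ⟩ : ∃ ρ : ℝ, ρ = ‖l‖ ^ ((m : ℝ)⁻¹) := ⟨_, rfl⟩
  have hρ0 : 0 < ρ := by
    rw [hρ]
    exact Real.rpow_pos_of_pos (norm_pos_iff.mpr hl) _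
  have hρm : ‖l‖ = ρ ^ m := by
    rw [hρ, Real.rpow_inv_natCast_pow (norm_nonneg _) hm.ne']
  have h1 : ∀ j, ‖p j ⬝ᵥ (l • y)‖ = ρ ^ m * ‖p j ⬝ᵥ y‖ := by
    intro j
    rw [dotProduct_smul, norm_smul, hρm]
  have h2 : ∀ j, (‖p j ⬝ᵥ (l • y)‖ ^ ((m : ℝ)⁻¹)) ^ 2 =
      ρ ^ 2 * (‖p j ⬝ᵥ y‖ ^ ((m : ℝ)⁻¹)) ^ 2 := by
    intro j
    rw [dotProduct_smul, norm_smul, Real.mul_rpow (norm_nonneg _) (norm_nonneg _), ← hρ, mul_pow]
  rw [Finset.sum_congr rfl fun j _ => h2 j, Finset.prod_congr rfl fun j _ => h1 j]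
  rw [Finset.prod_mul_distrib, Finset.prod_const, Finset.card_univ, ← Finset.mul_sum, norm_mul,
    norm_pow, hρm]
  rw [mul_pow, mul_pow, mul_pow]
  have h3 : (((ρ ^ m) ^ a) ^ (2 * m)) * ((ρ ^ 2) ^ (m * s)) =
      ((ρ ^ m) ^ Fintype.card H) ^ (2 * (m - 1)) := by
    simp only [← pow_mul, ← pow_add]
    congr 1
    calc m * a * (2 * m) + 2 * (m * s) = 2 * m * (s + m * a) := by ring
      _ = m * Fintype.card H * (2 * (m - 1)) := by rw [hs]; ring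
  rw [← h3]
  have h4 : 0 < ((ρ ^ m) ^ a) ^ (2 * m) := by positivity
  have h5 : 0 < (ρ ^ 2) ^ (m * s) := by positivity
  generalize ((ρ ^ m) ^ a) ^ (2 * m) = A at *
  generalize (ρ ^ 2) ^ (m * s) = A' at *
  rw [mul_div_mul_comm]
  have h6 : A / (A * A') = 1 / A' := by
    field_simp
  rw [h6]
  field_simp

/-- The contradiction for curves not contained in any of the hyperplanes. -/
theorem caseB3 {m a e s : ℕ} (hm : 0 < m) (he : 0 < e) (hs0 : 0 < s) {𝓑 : Finset (Finset H)}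
    {Z : Set (Fin (n + 1) → ℂ)} (hZ : IsClosed Z)
    {T : (Fin (n + 1) → ℂ) → (Fin (n + 1) → ℂ) → Prop} (hTZ : ∀ y w, T y w → y ∈ Z)
    (hT : ∀ y w (l μ c : ℂ), l ≠ 0 → T y w → T (l • y) (c • (l • w + μ • y)))
    (hcov : ∀ y ∈ Z, y ≠ 0 → ∃ B ∈ 𝓑, ∀ j, p j ⬝ᵥ y = 0 → j ∈ B)
    (hsep : ∀ y : Fin (n + 1) → ℂ, (∀ j, p j ⬝ᵥ y = 0) → y = 0)
    (hs : s + m * a = (m - 1) * Fintype.card H)
    {G : (Fin (n + 1) → ℂ) → (Fin (n + 1) → ℂ) → ℂ}
    (hG : Fac p T 𝓑 G)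
    (hJ1 : ∀ y w (l μ : ℂ), l ≠ 0 → G (l • y) (l • w + μ • y) = l ^ a * G y w)
    (hJ2 : ∀ y w (c : ℂ), G y (c • w) = c ^ e * G y w)
    {Y : ℂ → ℂ → Fin (n + 1) → ℂ} (hY : LiftFamily Y)
    (hTY : ∀ z₁, ∀ᶠ z in 𝓝 z₁, T (Y z₁ z) (deriv (Y z₁) z))
    (htop : ∀ j z₁, analyticOrderAt (fun z => p j ⬝ᵥ Y z₁ z) z₁ ≠ ⊤)
    (hord : ∀ j z₁, analyticOrderAt (fun z => p j ⬝ᵥ Y z₁ z) z₁ = 0 ∨
      (m : ℕ∞) ≤ analyticOrderAt (fun z => p j ⬝ᵥ Y z₁ z) z₁) (z₁ : ℂ) :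
    ∀ᶠ z in 𝓝 z₁, G (Y z₁ z) (deriv (Y z₁) z) = 0 := by
  obtain ⟨hYan, hY0, hYc⟩ := hY
  -- the function off the hyperplanes
  obtain ⟨P₀, hP₀⟩ : ∃ P₀ : ℂ → ℝ, P₀ = fun z => Phi p m (m * s) G (Y z z) (deriv (Y z) z) :=
    ⟨_, rfl⟩
  have hP₀loc : ∀ z₁, ∀ᶠ z in 𝓝 z₁, P₀ z = Phi p m (m * s) G (Y z₁ z) (deriv (Y z₁) z) := by
    intro z₁
    filter_upwards [hYc z₁, (hYan z₁).eventually_analyticAt] with z ⟨l, hl1, hl2, hl3⟩ han
    rw [hP₀]
    have h1 : Y z z = l z • Y z₁ z := hl3.self_of_nhds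
    have h2 : deriv (Y z) z = l z • deriv (Y z₁) z + deriv l z • Y z₁ z := by
      have h3 : Y z =ᶠ[𝓝 z] fun w => l w • Y z₁ w := hl3
      rw [h3.deriv_eq]
      exact (hl1.differentiableAt.hasDerivAt.smul han.differentiableAt.hasDerivAt).deriv
    beta_reduce
    rw [h1, h2, Phi_smul3 p hm hs hJ1 _ _ hl2]
  have hYZ : ∀ z₁, Y z₁ z₁ ∈ Z := fun z₁ => hTZ _ _ (hTY z₁).self_of_nhds
  choose σ hσan hσG hσx using fun z₁ => local_structure3 p hm 𝓑 G hG (hYan z₁)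
    (hcov _ (hYZ z₁) (hY0 z₁)) (hTY z₁) (fun j => htop j z₁) (fun j => hord j z₁)
  have hlan : ∀ z₁ j, AnalyticAt ℂ (fun z => p j ⬝ᵥ Y z₁ z) z₁ := fun z₁ j =>
    analyticAt_dotProduct (hYan z₁) _
  have hlne : ∀ z₁, ∀ᶠ z in 𝓝[≠] z₁, ∀ j, p j ⬝ᵥ Y z₁ z ≠ 0 := by
    intro z₁
    rw [Filter.eventually_all]
    intro j
    rcases (hlan z₁ j).eventually_eq_zero_or_eventually_ne_zero with h | h
    · exact absurd (analyticOrderAt_eq_top.mpr h) (htop j z₁)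
    · exact h
  obtain ⟨c, hc⟩ : ∃ c : ℂ → ℂ → ℝ, c = fun z₁ z => ‖σ z₁ z‖ ^ 2 *
    (∑ j, (‖p j ⬝ᵥ Y z₁ z‖ ^ ((m : ℝ)⁻¹)) ^ 2) ^ (m * s) := ⟨_, rfl⟩
  have hccont : ∀ z₁, ∀ᶠ z in 𝓝 z₁, ContinuousAt (c z₁) z := by
    intro z₁
    filter_upwards [(hσan z₁).eventually_analyticAt, (hYan z₁).eventually_analyticAt]
      with z h1 h2
    rw [hc]
    have h3 : ContinuousAt (σ z₁) z := h1.continuousAt
    have h4 : ∀ j, ContinuousAt (fun z => p j ⬝ᵥ Y z₁ z) z := fun j =>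
      (analyticAt_dotProduct h2 _).continuousAt
    have h5 : ∀ j, ContinuousAt (fun z => (‖p j ⬝ᵥ Y z₁ z‖ ^ ((m : ℝ)⁻¹)) ^ 2) z := fun j =>
      (((h4 j).norm).rpow_const (Or.inr (by positivity))).pow 2
    have h6 : ContinuousAt (fun z => ∑ j, (‖p j ⬝ᵥ Y z₁ z‖ ^ ((m : ℝ)⁻¹)) ^ 2) z :=
      tendsto_finsetSum _ fun j _ => h5 j
    exact ((h3.norm).pow 2).mul (h6.pow _)
  have hcP : ∀ z₁, ∀ᶠ z in 𝓝[≠] z₁, P₀ z = c z₁ z := by
    intro z₁
    filter_upwards [hlne z₁, (hP₀loc z₁).filter_mono nhdsWithin_le_nhds,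
      (hσG z₁).filter_mono nhdsWithin_le_nhds] with z h1 h2 h3
    rw [h2, hc, Phi]
    have h4 : 0 < (∏ j, ‖p j ⬝ᵥ Y z₁ z‖) ^ (2 * (m - 1)) := by
      apply pow_pos
      exact Finset.prod_pos fun j _ => norm_pos_iff.mpr (h1 j)
    have h5 : ‖G (Y z₁ z) (deriv (Y z₁) z)‖ ^ (2 * m) =
        ‖σ z₁ z‖ ^ 2 * (∏ j, ‖p j ⬝ᵥ Y z₁ z‖) ^ (2 * (m - 1)) := by
      rw [mul_comm 2 m, pow_mul, ← norm_pow, h3, norm_mul, mul_pow, norm_pow, ← norm_prod,
        ← pow_mul, mul_comm (m - 1) 2]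
    rw [h5, mul_div_assoc, div_self h4.ne', mul_one]
  obtain ⟨P, hPcont, hPc⟩ := glue P₀ fun z₁ => ⟨c z₁, hccont z₁, hcP z₁⟩
  have hPz : ∀ z₁, ∀ᶠ z in 𝓝 z₁, P z = c z₁ z := fun z₁ => hPc z₁ _ (hccont z₁) (hcP z₁)
  have hPnonneg : ∀ z, 0 ≤ P z := by
    intro z
    rw [(hPz z).self_of_nhds, hc]
    positivity
  obtain ⟨C, hC0, hC⟩ := pointwise3 p hsep hm he 𝓑 hZ hTZ hT hcov hs G hG hJ1 hJ2
  -- application of the growth lemma
  have hzero : ∀ z, P z = 0 := by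
    refine growth (E := EuclideanSpace ℂ H) hPcont hPnonneg (κ := m * e) (N := m * s)
      (Nat.mul_pos hm hs0) (Nat.mul_pos hm he) (C ^ (2 * m)) ?_
    intro z₁ hz₁
    have h1 := (hPz z₁).self_of_nhds
    have hσ0 : σ z₁ z₁ ≠ 0 := by
      intro h
      rw [h1, hc] at hz₁
      simp [h] at hz₁
    obtain ⟨x, hxan, hx⟩ := hσx z₁ hσ0
    have hnorm : ∀ z, (∀ j, p j ⬝ᵥ Y z₁ z = x z j ^ m) →
        ∑ j, (‖p j ⬝ᵥ Y z₁ z‖ ^ ((m : ℝ)⁻¹)) ^ 2 = ‖x z‖ ^ 2 := by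
      intro z hz
      rw [EuclideanSpace.norm_sq_eq]
      refine Finset.sum_congr rfl fun j _ => ?_
      rw [hz j, norm_pow, Real.pow_rpow_inv_natCast (norm_nonneg _) hm.ne']
    have hx0 : x z₁ ≠ 0 := by
      intro h0
      apply hY0 z₁
      apply hsep
      intro j
      rw [(hx.self_of_nhds j).1, h0]
      simp [hm.ne']
    refine ⟨σ z₁, x, hσan z₁, hxan, hx0, ?_, ?_⟩
    · filter_upwards [hPz z₁, hx] with z g1 g2
      rw [g1, hc]
      beta_reduce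
      rw [hnorm z fun j => (g2 j).1]
    · intro β
      have hx0' : ∀ᶠ z in 𝓝 z₁, x z ≠ 0 := hxan.continuousAt.eventually_ne hx0
      have hineq : ∀ᶠ z in 𝓝[≠] z₁, P z ≤
          C ^ (2 * m) * (‖deriv x z - β • x z‖ / ‖x z‖) ^ (2 * (m * e)) := by
        filter_upwards [hlne z₁, (hPz z₁).filter_mono nhdsWithin_le_nhds,
          (hσG z₁).filter_mono nhdsWithin_le_nhds, hx.filter_mono nhdsWithin_le_nhds,
          hx0'.filter_mono nhdsWithin_le_nhds, (hTY z₁).filter_mono nhdsWithin_le_nhds]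
          with z g1 g2 g3 g4 g5 gT
        rw [g2, hc]
        beta_reduce
        rw [hnorm z fun j => (g4 j).1]
        have g6 := hC (x z) (deriv x z) (Y z₁ z) (deriv (Y z₁) z) g5 gT (fun j => (g4 j).1)
          (fun j => (g4 j).2) β
        obtain ⟨τ, hτ⟩ : ∃ τ, τ = ‖deriv x z - β • x z‖ / ‖x z‖ := ⟨_, rfl⟩
        have hτ0 : 0 ≤ τ := by rw [hτ]; positivity
        rw [← hτ] at g6 ⊢
        have g7 : 0 < (∏ j, ‖x z j‖ ^ (m - 1)) ^ (2 * m) := by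
          apply pow_pos
          refine Finset.prod_pos fun j _ => ?_
          have : x z j ≠ 0 := by
            intro h
            apply g1 j
            rw [(g4 j).1, h, zero_pow hm.ne']
          positivity
        have g8 : (‖G (Y z₁ z) (deriv (Y z₁) z)‖ * ‖x z‖ ^ s) ^ (2 * m) ≤
            (C * (∏ j, ‖x z j‖ ^ (m - 1)) * τ ^ e) ^ (2 * m) := by gcongr
        have g9 : ‖G (Y z₁ z) (deriv (Y z₁) z)‖ ^ (2 * m) =
            ‖σ z₁ z‖ ^ 2 * (∏ j, ‖x z j‖ ^ (m - 1)) ^ (2 * m) := by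
          rw [mul_comm 2 m, pow_mul, ← norm_pow, g3, norm_mul, mul_pow, norm_pow]
          congr 1
          have : ∀ j, ‖p j ⬝ᵥ Y z₁ z‖ = ‖x z j‖ ^ m := fun j => by
            rw [(g4 j).1, norm_pow]
          rw [norm_prod, Finset.prod_congr rfl fun j _ => this j, Finset.prod_pow, Finset.prod_pow,
            ← pow_mul, ← pow_mul, ← pow_mul]
          congr 1
          ring
        have g10 : (‖σ z₁ z‖ ^ 2 * (‖x z‖ ^ 2) ^ (m * s)) *
            (∏ j, ‖x z j‖ ^ (m - 1)) ^ (2 * m) ≤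
            (C ^ (2 * m) * τ ^ (2 * (m * e))) * (∏ j, ‖x z j‖ ^ (m - 1)) ^ (2 * m) := by
          calc (‖σ z₁ z‖ ^ 2 * (‖x z‖ ^ 2) ^ (m * s)) * (∏ j, ‖x z j‖ ^ (m - 1)) ^ (2 * m)
              = (‖σ z₁ z‖ ^ 2 * (∏ j, ‖x z j‖ ^ (m - 1)) ^ (2 * m)) *
                (‖x z‖ ^ s) ^ (2 * m) := by
                  rw [← pow_mul, ← pow_mul]
                  have : 2 * (m * s) = s * (2 * m) := by ring
                  rw [this]
                  ring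
            _ = (‖G (Y z₁ z) (deriv (Y z₁) z)‖ * ‖x z‖ ^ s) ^ (2 * m) := by
                  rw [← g9, mul_pow]
            _ ≤ _ := g8
            _ = _ := by
                  rw [mul_pow, mul_pow, ← pow_mul τ]
                  have : e * (2 * m) = 2 * (m * e) := by ring
                  rw [this]
                  ring
        exact le_of_mul_le_mul_right g10 g7
      have hcont : ContinuousAt (fun z => C ^ (2 * m) *
          (‖deriv x z - β • x z‖ / ‖x z‖) ^ (2 * (m * e))) z₁ := by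
        have h2 : ContinuousAt x z₁ := hxan.continuousAt
        have h3 : ContinuousAt (deriv x) z₁ := hxan.deriv.continuousAt
        have h4 : ‖x z₁‖ ≠ 0 := norm_ne_zero_iff.mpr hx0
        exact continuousAt_const.mul (((h3.sub (h2.const_smul β)).norm.div h2.norm h4).pow _)
      exact le_of_tendsto_of_tendsto (hPcont.continuousAt.tendsto.mono_left nhdsWithin_le_nhds)
        (hcont.tendsto.mono_left nhdsWithin_le_nhds) hineq
  -- conclusion
  filter_upwards [hPz z₁, hσG z₁, (hYan z₁).continuousAt.eventually_ne (hY0 z₁)] with z h1 h2 h3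
  rw [hzero z, hc] at h1
  have h4 : 0 < ∑ j, (‖p j ⬝ᵥ Y z₁ z‖ ^ ((m : ℝ)⁻¹)) ^ 2 := by
    by_contra hcon
    apply h3
    apply hsep
    intro j
    have h5 : ∑ j, (‖p j ⬝ᵥ Y z₁ z‖ ^ ((m : ℝ)⁻¹)) ^ 2 = 0 :=
      le_antisymm (not_lt.mp hcon) (Finset.sum_nonneg fun j _ => by positivity)
    have h6 := (Finset.sum_eq_zero_iff_of_nonneg fun j _ => by positivity).mp h5 j
      (Finset.mem_univ _)
    have h7 : ‖p j ⬝ᵥ Y z₁ z‖ ^ ((m : ℝ)⁻¹) = 0 := by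
      exact pow_eq_zero_iff (two_ne_zero) |>.mp h6
    rw [Real.rpow_eq_zero (norm_nonneg _) (by positivity)] at h7
    exact norm_eq_zero.mp h7
  have h5 : σ z₁ z = 0 := by
    by_contra h6
    have h7 : 0 < ‖σ z₁ z‖ ^ 2 * (∑ j, (‖p j ⬝ᵥ Y z₁ z‖ ^ ((m : ℝ)⁻¹)) ^ 2) ^ (m * s) := by
      have := norm_pos_iff.mpr h6
      positivity
    exact h7.ne h1
  rw [h5, zero_mul] at h2
  exact (pow_eq_zero_iff hm.ne').mp h2

end

end Pool.Agent.Lib.GGL
end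

section

/-!
Interpolation over extensions of `ℂ`, division by a fixed form through interpolation, and a
criterion for linear dependence over a domain.
-/

open MvPolynomial

namespace Pool.Agent.Lib.GGL

/-- If all maximal minors vanish, then there is a nontrivial relation. -/
lemma exists_relation {R S : Type*} [CommRing R] [IsDomain R] :
    ∀ (m : ℕ) (v : Fin m → S → R), (∀ r : Fin m → S, (Matrix.of fun i j => v j (r i)).det = 0) →
      ∃ h : Fin m → R, h ≠ 0 ∧ ∀ s, ∑ j, h j * v j s = 0 := by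
  intro m
  induction m with
  | zero =>
    intro v hv
    have := hv (fun i => i.elim0)
    rw [Matrix.det_isEmpty] at this
    exact absurd this one_ne_zero
  | succ m ih =>
    intro v hv
    by_cases hr : ∀ r : Fin m → S, (Matrix.of fun i j : Fin m => v j.castSucc (r i)).det = 0
    · obtain ⟨h, h1, h2⟩ := ih (fun j => v j.castSucc) hr
      refine ⟨Fin.snoc h 0, ?_, ?_⟩
      · intro h0
        apply h1
        funext j
        have := congrFun h0 j.castSucc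
        rw [Fin.snoc_castSucc] at this
        exact this
      · intro s
        rw [Fin.sum_univ_castSucc]
        simp only [Fin.snoc_castSucc, Fin.snoc_last, zero_mul, add_zero]
        exact h2 s
    · push Not at hr
      obtain ⟨r, hr⟩ := hr
      obtain ⟨h, hh⟩ : ∃ h : Fin (m + 1) → R, h = fun j : Fin (m + 1) => (-1) ^ (m + (j : ℕ)) *
        (Matrix.of fun i j' : Fin m => v (j.succAbove j') (r i)).det := ⟨_, rfl⟩
      refine ⟨h, ?_, ?_⟩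
      · intro h0
        apply hr
        have h3 := congrFun h0 (Fin.last m)
        rw [hh] at h3
        simp only [Fin.succAbove_last, Pi.zero_apply] at h3
        rcases mul_eq_zero.mp h3 with h4 | h4
        · exact absurd h4 (pow_ne_zero _ (neg_ne_zero.mpr one_ne_zero))
        · exact h4
      · intro s
        have h3 := hv (Fin.snoc r s)
        rw [Matrix.det_succ_row _ (Fin.last m)] at h3
        rw [← h3, hh]
        refine Finset.sum_congr rfl fun j _ => ?_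
        simp only [Matrix.of_apply, Fin.snoc_last, Fin.val_last]
        have h5 : (Matrix.submatrix (Matrix.of fun (i : Fin (m + 1)) (j : Fin (m + 1)) =>
            v j ((Fin.snoc r s : Fin (m + 1) → S) i)) (Fin.last m).succAbove j.succAbove) =
            Matrix.of fun i j' : Fin m => v (j.succAbove j') (r i) := by
          ext i j'
          simp only [Matrix.submatrix_apply, Matrix.of_apply, Fin.succAbove_last,
            Fin.snoc_castSucc]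
        rw [h5]
        ring

section

variable {t : ℕ} {κ : Type*} [Fintype κ] (x : κ → Fin (t + 1) → ℂ)
  (L : κ → MvPolynomial (Fin (t + 1)) ℂ) {R : Type*} [CommRing R] [Algebra ℂ R]

lemma eval_map_algebraMap (x : Fin (t + 1) → ℂ) (P : MvPolynomial (Fin (t + 1)) ℂ) :
    eval (fun i => algebraMap ℂ R (x i)) (map (algebraMap ℂ R) P) = algebraMap ℂ R (eval x P) := by
  rw [eval_map]
  have h1 := eval₂_comp_left (algebraMap ℂ R) (RingHom.id ℂ) x P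
  rw [RingHom.comp_id] at h1
  exact h1.symm

/-- interpolation over an algebra over `ℂ` -/
lemma interp_map {D : ℕ} (h : ∀ Q : MvPolynomial (Fin (t + 1)) ℂ, Q.IsHomogeneous D →
      Q = ∑ j, eval (x j) Q • L j)
    {P : MvPolynomial (Fin (t + 1)) R} (hP : P.IsHomogeneous D) :
    P = ∑ j, C (eval (fun i => algebraMap ℂ R (x j i)) P) * map (algebraMap ℂ R) (L j) := by
  have h1 : ∀ m ∈ P.support, monomial m (coeff m P) =
      ∑ j, C (eval (fun i => algebraMap ℂ R (x j i)) (monomial m (coeff m P))) *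
        map (algebraMap ℂ R) (L j) := by
    intro m hm
    have h2 : (monomial m (1 : ℂ)).IsHomogeneous D := by
      apply isHomogeneous_monomial
      have h0 := hP (mem_support_iff.mp hm)
      rw [Finsupp.degree_eq_weight_one]
      exact h0
    have h3 := congrArg (map (algebraMap ℂ R)) (h _ h2)
    have h4 : monomial m (coeff m P) = C (coeff m P) * map (algebraMap ℂ R) (monomial m 1) := by
      rw [map_monomial, map_one, C_mul_monomial, mul_one]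
    rw [h4]
    conv_lhs => rw [h3, map_sum, Finset.mul_sum]
    refine Finset.sum_congr rfl fun j _ => ?_
    rw [map_mul, eval_C, eval_map_algebraMap, smul_eq_C_mul, map_mul, map_C, ← mul_assoc,
      ← C_mul]
  conv_lhs => rw [P.as_sum]
  rw [Finset.sum_congr rfl h1, Finset.sum_comm]
  refine Finset.sum_congr rfl fun j _ => ?_
  rw [← Finset.sum_mul, ← map_sum, ← map_sum, ← P.as_sum]

/-- division by `c` through interpolation -/
noncomputable def qt (c : MvPolynomial (Fin (t + 1)) ℂ) (P : MvPolynomial (Fin (t + 1)) R) :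
    MvPolynomial (Fin (t + 1)) R :=
  ∑ j, C (algebraMap ℂ R (eval (x j) c)⁻¹ * eval (fun i => algebraMap ℂ R (x j i)) P) *
    map (algebraMap ℂ R) (L j)

lemma qt_isHomogeneous {D : ℕ} (hL : ∀ j, (L j).IsHomogeneous D)
    (c : MvPolynomial (Fin (t + 1)) ℂ) (P : MvPolynomial (Fin (t + 1)) R) :
    (qt x L c P).IsHomogeneous D := by
  rw [qt]
  refine IsHomogeneous.sum _ _ _ fun j _ => ?_
  exact ((hL j).map _).C_mul _

lemma qt_mul {D : ℕ} (h : ∀ Q : MvPolynomial (Fin (t + 1)) ℂ, Q.IsHomogeneous D →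
      Q = ∑ j, eval (x j) Q • L j) {c : MvPolynomial (Fin (t + 1)) ℂ}
    (hc : ∀ j, eval (x j) c ≠ 0) {P : MvPolynomial (Fin (t + 1)) R} (hP : P.IsHomogeneous D) :
    qt x L c (map (algebraMap ℂ R) c * P) = P := by
  rw [qt]
  conv_rhs => rw [interp_map x L h hP]
  refine Finset.sum_congr rfl fun j _ => ?_
  have h1 : eval (fun i => algebraMap ℂ R (x j i)) (map (algebraMap ℂ R) c * P) =
      algebraMap ℂ R (eval (x j) c) * eval (fun i => algebraMap ℂ R (x j i)) P := by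
    rw [← eval_map_algebraMap]
    exact map_mul _ _ _
  rw [h1, ← mul_assoc (algebraMap ℂ R _), ← map_mul (algebraMap ℂ R), inv_mul_cancel₀ (hc j),
    map_one, one_mul]

lemma qt_add (c : MvPolynomial (Fin (t + 1)) ℂ) (P Q : MvPolynomial (Fin (t + 1)) R) :
    qt x L c (P + Q) = qt x L c P + qt x L c Q := by
  rw [qt, qt, qt, ← Finset.sum_add_distrib]
  refine Finset.sum_congr rfl fun j _ => ?_
  rw [map_add, mul_add, map_add, add_mul]

lemma qt_C_mul (c : MvPolynomial (Fin (t + 1)) ℂ) (r : R) (P : MvPolynomial (Fin (t + 1)) R) :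
    qt x L c (C r * P) = C r * qt x L c P := by
  rw [qt, qt, Finset.mul_sum]
  refine Finset.sum_congr rfl fun j _ => ?_
  have h1 : eval (fun i => algebraMap ℂ R (x j i)) (C r * P) =
      r * eval (fun i => algebraMap ℂ R (x j i)) P := by
    rw [map_mul, eval_C]
  rw [h1, ← mul_assoc (C r), ← C_mul]
  congr 2
  ring

lemma map_qt {S : Type*} [CommRing S] [Algebra ℂ S] (h : R →ₐ[ℂ] S)
    (c : MvPolynomial (Fin (t + 1)) ℂ) (P : MvPolynomial (Fin (t + 1)) R) :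
    map (h : R →+* S) (qt x L c P) = qt x L c (map (h : R →+* S) P) := by
  rw [qt, qt, map_sum]
  refine Finset.sum_congr rfl fun j _ => ?_
  rw [map_mul, map_C, map_map]
  have h1 : (h : R →+* S).comp (algebraMap ℂ R) = algebraMap ℂ S := h.comp_algebraMap
  have h2 : ∀ a : ℂ, (h : R →+* S) (algebraMap ℂ R a) = algebraMap ℂ S a := fun a => h.commutes a
  have h3 : eval (fun i => algebraMap ℂ S (x j i)) (map (h : R →+* S) P) =
      (h : R →+* S) (eval (fun i => algebraMap ℂ R (x j i)) P) := by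
    have h4 := eval₂_comp_left (h : R →+* S) (RingHom.id R)
      (fun i => algebraMap ℂ R (x j i)) P
    rw [RingHom.comp_id] at h4
    rw [eval_map]
    have h5 : (fun i => algebraMap ℂ S (x j i)) =
        (h : R →+* S) ∘ fun i => algebraMap ℂ R (x j i) := by
      funext i
      exact (h2 _).symm
    rw [h5]
    exact h4.symm
  rw [h1, map_mul, h2, h3]

end

end Pool.Agent.Lib.GGL
end
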