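import Mathlib
import Pool.Agent.Lib.MP_8d161d_ag.SM.Defs
import Pool.Agent.Lib.MP_8d161d_ag.LD.H1
import Pool.Agent.Lib.MP_8d161d_ag.NormData

section

/-!
The numbers.
-/

open Filter Topology MvPolynomial Module

namespace Pool.Agent.Lib.GGL.LD

theorem h2_final_aux {W c u N N₁ Q R σ t T P S : ℝ} (hW : 2 ≤ W) (hc : 6 ≤ c) (hn1 : 1 ≤ u)
    (hR : 1 ≤ R) (hNr : 25 * W ^ 2 * c * u ≤ N) (hN' : N = N₁ + 2 * u) (hN₁ : 0 ≤ N₁)
    (hQ : Q = 24 * W ^ 2 * c * u) (hs : σ = t + 3 * (Q * R))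
    (hs1 : (24 * W - 10) * (Q * R) < σ) (hP : 0 ≤ P) (hS : 0 ≤ S) (hT : 0 ≤ T)
    (h : N₁ * ((t - 2 * (2 * u * (2 * (24 * W) * R))) * T - S) ≤
      (Q * (2 * (24 * W) * R) - σ) * P) :
    (1 - 1 / W) * N * T ≤ P + N * S := by
  have hW0 : 0 < W := by linarith
  have hc0 : 0 < c := by linarith
  have hu0 : 0 < u := by linarith
  have hR0 : 0 < R := by linarith
  have hN0 : 0 ≤ N := by linarith
  have hWW : 1 ≤ W ^ 2 := one_le_pow₀ (by linarith)
  have hQ1 : 1 ≤ Q := by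
    rw [hQ]
    have h9 : 1 ≤ W ^ 2 * c := one_le_mul_of_one_le_of_one_le hWW (by linarith)
    have h10 : 1 ≤ W ^ 2 * c * u := one_le_mul_of_one_le_of_one_le h9 hn1
    linarith
  have hQ0 : 0 < Q := by linarith
  have hA : ((24 * W - 13) * (Q * R) - 8 * (24 * W) * u * R) * T ≤
      ((t - 2 * (2 * u * (2 * (24 * W) * R)))) * T := by
    apply mul_le_mul_of_nonneg_right _ hT
    linarith
  have h1 : N₁ * ((24 * W - 13) * (Q * R) - 8 * (24 * W) * u * R) * T ≤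
      (Q * (2 * (24 * W) * R) - σ) * P + N₁ * S := by
    have h2 := mul_le_mul_of_nonneg_left hA hN₁
    linarith
  have h2 : (Q * (2 * (24 * W) * R) - σ) * P ≤ (24 * W + 10) * (Q * R) * P := by
    apply mul_le_mul_of_nonneg_right _ hP
    linarith
  have h3 : N₁ * S ≤ (24 * W + 10) * (Q * R) * (N * S) := by
    have h4 : N₁ * S ≤ N * S := mul_le_mul_of_nonneg_right (by linarith) hS
    have h5 : 0 ≤ N * S := mul_nonneg hN0 hS
    have h6 : 1 ≤ (24 * W + 10) * (Q * R) :=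
      one_le_mul_of_one_le_of_one_le (by linarith) (one_le_mul_of_one_le_of_one_le hQ1 hR)
    calc N₁ * S ≤ 1 * (N * S) := by linarith
      _ ≤ (24 * W + 10) * (Q * R) * (N * S) := mul_le_mul_of_nonneg_right h6 h5
  have h4 : (24 * W + 10) * (Q * R) * ((1 - 1 / W) * N) ≤
      N₁ * ((24 * W - 13) * (Q * R) - 8 * (24 * W) * u * R) := by
    have h5 : (24 * W + 10) * (Q * R) * ((1 - 1 / W) * N) =
        24 * W * u * R * (c * (24 * W ^ 2 - 14 * W - 10) * N) := by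
      rw [hQ]
      field_simp
      ring
    have h6 : N₁ * ((24 * W - 13) * (Q * R) - 8 * (24 * W) * u * R) =
        24 * W * u * R * (((24 * W ^ 2 - 13 * W) * c - 8) * (N - 2 * u)) := by
      rw [hQ, hN']
      ring
    rw [h5, h6]
    apply mul_le_mul_of_nonneg_left _ (by positivity)
    have h7 : 64 ≤ (W + 10) * c - 8 := by nlinarith
    have h8 : 64 * N ≤ ((W + 10) * c - 8) * N := mul_le_mul_of_nonneg_right h7 hN0
    have h9 : 0 < W * c * u := by positivity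
    have h10 : 0 < W ^ 2 * c * u := by positivity
    nlinarith [h8, h9, h10, hNr, hu0]
  have h5 : (24 * W + 10) * (Q * R) * ((1 - 1 / W) * N * T) ≤
      (24 * W + 10) * (Q * R) * (P + N * S) := by
    have h6 := mul_le_mul_of_nonneg_right h4 hT
    have h7 : (24 * W + 10) * (Q * R) * ((1 - 1 / W) * N * T) =
      (24 * W + 10) * (Q * R) * ((1 - 1 / W) * N) * T := by ring
    rw [h7]
    linarith
  exact le_of_mul_le_mul_left h5 (by positivity)

/-- The numbers. -/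
theorem final_numbers_w {w k n N N' q r τ s t : ℕ} (hw : 2 ≤ w) (hk : k = 24 * w)
    (ht : t + 10 = k) (hq : q = 24 * w ^ 2 * (Nat.clog 2 w + 6) * (n + 1))
    (hN : LL w n ≤ N) (hN' : N = N' + 2 * (n + 1)) (hr : 1 ≤ r)
    (hs : s = τ + 3 * (q * r)) (hs1 : t * (q * r) < s) (hs2 : s ≤ q * (2 * k * r))
    {T P S : ℝ} (hP : 0 ≤ P) (hS : 0 ≤ S)
    (h : N' * (((τ : ℝ) - ((2 * ((2 * (n + 1)) * (2 * k * r)) : ℕ) : ℝ)) * T - S) ≤
      (((q * (2 * k * r) : ℕ) : ℝ) - (s : ℝ)) * P) :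
    (1 - 1 / (w : ℝ)) * N * T ≤ P + N * S := by
  have hW : (2 : ℝ) ≤ w := by exact_mod_cast hw
  rcases lt_or_ge T 0 with hT | hT
  · have h1 : 0 ≤ (1 - 1 / (w : ℝ)) := by
      rw [sub_nonneg, div_le_one (by linarith)]
      linarith
    have h2 : (1 - 1 / (w : ℝ)) * N * T ≤ 0 :=
      mul_nonpos_of_nonneg_of_nonpos (mul_nonneg h1 (Nat.cast_nonneg _)) hT.le
    have h3 : 0 ≤ P + N * S := add_nonneg hP (mul_nonneg (Nat.cast_nonneg _) hS)
    linarith
  have hn1 : (1 : ℝ) ≤ (n : ℝ) + 1 := by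
    have := Nat.cast_nonneg (α := ℝ) n
    linarith
  have hc : (6 : ℝ) ≤ (Nat.clog 2 w : ℝ) + 6 := by
    have := Nat.cast_nonneg (α := ℝ) (Nat.clog 2 w)
    linarith
  have hkr : (k : ℝ) = 24 * (w : ℝ) := by
    rw [hk]
    push_cast
    ring
  have htr : (t : ℝ) = 24 * (w : ℝ) - 10 := by
    have h1 : (t : ℝ) + 10 = k := by exact_mod_cast ht
    linarith
  have hs1r : (24 * (w : ℝ) - 10) * ((q : ℝ) * r) < s := by
    have h1 : ((t * (q * r) : ℕ) : ℝ) < s := by exact_mod_cast hs1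
    rw [Nat.cast_mul, Nat.cast_mul, htr] at h1
    exact h1
  have hNr : 25 * (w : ℝ) ^ 2 * ((Nat.clog 2 w : ℝ) + 6) * ((n : ℝ) + 1) ≤ N := by
    unfold LL at hN
    exact_mod_cast hN
  have hqr : (q : ℝ) = 24 * (w : ℝ) ^ 2 * ((Nat.clog 2 w : ℝ) + 6) * ((n : ℝ) + 1) := by
    exact_mod_cast hq
  push_cast at h
  rw [hkr] at h
  exact h2_final_aux (W := (w : ℝ)) (c := (Nat.clog 2 w : ℝ) + 6) (u := (n : ℝ) + 1) (R := (r : ℝ))
    (N₁ := (N' : ℝ)) (Q := (q : ℝ)) (σ := (s : ℝ)) (t := (τ : ℝ)) hW hc hn1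
    (by exact_mod_cast hr) hNr (by exact_mod_cast hN') (Nat.cast_nonneg _) hqr
    (by exact_mod_cast hs) hs1r hP hS hT h

end Pool.Agent.Lib.GGL.LD
end

section

/-!
Curves ramified over hyperplanes admitting a norm form: preparations.
-/

open MvPolynomial Module Filter Topology

namespace Pool.Agent.Lib.GGL

/-- norm form data -/
structure NData {n t : ℕ} {ι : Type*} (p : ι → Fin (n + 1) → ℂ) (x : ι → Fin (t + 1) → ℂ)
    (N : MvPolynomial (Fin (n + 1) ⊕ Fin (t + 1)) ℂ) (DY D b : ℕ) : Prop where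
  homY : IsWeightedHomogeneous (wY n t) N (DY + 1)
  homT : IsWeightedHomogeneous (wT n t) N D
  nz : ∀ y : Fin (n + 1) → ℂ, y ≠ 0 → sp y N ≠ 0
  dvd : ∀ j, DvdAt N (p j) (x j)
  dense : ∀ g : MvPolynomial (Fin (t + 1)) ℂ, g.IsHomogeneous b → (∀ j, eval (x j) g = 0) → g = 0

section

variable {n t : ℕ} {ι : Type*} {p : ι → Fin (n + 1) → ℂ} {x : ι → Fin (t + 1) → ℂ}
  {N : MvPolynomial (Fin (n + 1) ⊕ Fin (t + 1)) ℂ} {DY D b : ℕ}

lemma NData.dense_sub (h : NData p x N DY D b) {d e : ℕ} {Q P : MvPolynomial (Fin (t + 1)) ℂ}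
    (hP : P.IsHomogeneous e) (hP0 : P ≠ 0) (hQ : Q.IsHomogeneous d) (hde : d + e ≤ b)
    (hv : ∀ j, eval (x j) P ≠ 0 → eval (x j) Q = 0) : Q = 0 := by
  have h1 : Q * P * (X 0 : MvPolynomial (Fin (t + 1)) ℂ) ^ (b - (d + e)) = 0 := by
    apply h.dense
    · have := (hQ.mul hP).mul (isHomogeneous_X_pow (R := ℂ) (0 : Fin (t + 1)) (b - (d + e)))
      rwa [Nat.add_sub_cancel' hde] at this
    · intro j
      rw [map_mul, map_mul]
      by_cases hj : eval (x j) P = 0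
      · rw [hj, mul_zero, zero_mul]
      · rw [hv j hj, zero_mul, zero_mul]
  have h2 := (mul_eq_zero.mp h1).resolve_right (pow_ne_zero _ (X_ne_zero _))
  exact (mul_eq_zero.mp h2).resolve_right hP0

end

section

lemma eventually_map_eq_zero {σ : Type*} {z₁ : ℂ} {P : MvPolynomial σ (An z₁)}
    (h : map (tayHom z₁ : An z₁ →+* PowerSeries ℂ) P = 0) :
    ∀ᶠ z in 𝓝 z₁, map (evA z₁ z : An z₁ →+* ℂ) P = 0 := by
  have h1 : ∀ m ∈ P.support, ∀ᶠ z in 𝓝 z₁, evA z₁ z (coeff m P) = 0 := by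
    intro m _
    have h2 : tayHom z₁ (coeff m P) = tayHom z₁ 0 := by
      have := congrArg (coeff m) h
      rw [coeff_map, coeff_zero] at this
      rw [map_zero]
      exact this
    filter_upwards [eventually_of_tayHom h2] with z hz
    rw [hz, map_zero]
  rw [← Filter.eventually_all_finset] at h1
  filter_upwards [h1] with z hz
  ext m
  rw [coeff_map, coeff_zero]
  by_cases hm : m ∈ P.support
  · exact hz m hm
  · rw [notMem_support_iff.mp hm, map_zero]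

lemma map_tayHom_eq_zero {σ : Type*} {z₁ : ℂ} {P : MvPolynomial σ (An z₁)}
    (h : ∀ᶠ z in 𝓝 z₁, map (evA z₁ z : An z₁ →+* ℂ) P = 0) :
    map (tayHom z₁ : An z₁ →+* PowerSeries ℂ) P = 0 := by
  ext1 m
  rw [coeff_map, coeff_zero]
  have h2 : tay z₁ (coeff m P : An z₁) = tay z₁ (fun _ => 0) := by
    apply tay_congr
    filter_upwards [h] with z hz
    have := congrArg (coeff m) hz
    rw [coeff_map, coeff_zero] at this
    exact this
  rw [tay_const, map_zero] at h2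
  exact h2

variable {n : ℕ} {Y : ℂ → ℂ → Fin (n + 1) → ℂ}

/-- components of a local lift -/
noncomputable def yA (hY : LiftFamily Y) (z₁ : ℂ) (i : Fin (n + 1)) : An z₁ :=
  ⟨fun z => Y z₁ z i, (analyticAt_pi_iff.mp (hY.1 z₁)) i⟩

lemma evA_yA (hY : LiftFamily Y) (z₁ z : ℂ) : (fun i => evA z₁ z (yA hY z₁ i)) = Y z₁ z := rfl

lemma evA_derivA_yA (hY : LiftFamily Y) (z₁ : ℂ) :
    ∀ᶠ z in 𝓝 z₁, (fun i => evA z₁ z (derivA z₁ (yA hY z₁ i))) = deriv (Y z₁) z := by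
  filter_upwards [(hY.1 z₁).eventually_analyticAt] with z hz
  funext i
  have h1 : HasDerivAt (Y z₁) (deriv (Y z₁) z) z := hz.differentiableAt.hasDerivAt
  exact (hasDerivAt_pi.mp h1 i).deriv

lemma constantCoeff_yA (hY : LiftFamily Y) (z₁ : ℂ) (i : Fin (n + 1)) :
    PowerSeries.constantCoeff (tayHom z₁ (yA hY z₁ i)) = Y z₁ z₁ i := constantCoeff_tay _ _

end

section

variable {n t : ℕ} {κ : Type*} [Fintype κ] (x' : κ → Fin (t + 1) → ℂ)
  (L' : κ → MvPolynomial (Fin (t + 1)) ℂ) (c : MvPolynomial (Fin (t + 1)) ℂ)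
  (N : MvPolynomial (Fin (n + 1) ⊕ Fin (t + 1)) ℂ)

/-- the cone on which the norm form is divisible by `c` -/
def ZS : Set (Fin (n + 1) → ℂ) := {y | sp y N = c * qt x' L' c (sp y N)}

/-- its first prolongation -/
def TS (y w : Fin (n + 1) → ℂ) : Prop :=
  y ∈ ZS x' L' c N ∧ sp1 y w N = c * qt x' L' c (sp1 y w N)

lemma isClosed_ZS : IsClosed (ZS x' L' c N) := by
  have h1 : ZS x' L' c N = ⋂ m : Fin (t + 1) →₀ ℕ,
      {y | coeff m (sp y N) - coeff m (c * qt x' L' c (sp y N)) = 0} := by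
    ext y
    rw [Set.mem_iInter]
    show sp y N = c * qt x' L' c (sp y N) ↔
      ∀ m, coeff m (sp y N) - coeff m (c * qt x' L' c (sp y N)) = 0
    simp only [sub_eq_zero]
    exact MvPolynomial.ext_iff
  rw [h1]
  apply isClosed_iInter
  intro m
  have h2 : Hol (n := n) fun y _ => lcoeff ℂ m (sp y N) -
      (lcoeff ℂ m ∘ₗ LinearMap.mulLeft ℂ c) (qt x' L' c (sp y N)) :=
    (hol_sp N _).sub (hol_qt x' L' (Φ := fun y _ => sp y N) (hol_sp N) c _)
  have h3 : Continuous fun y : Fin (n + 1) → ℂ => coeff m (sp y N) -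
      coeff m (c * qt x' L' c (sp y N)) := by
    have h4 : Continuous fun q : (Fin (n + 1) → ℂ) × (Fin (n + 1) → ℂ) =>
        lcoeff ℂ m (sp q.1 N) - (lcoeff ℂ m ∘ₗ LinearMap.mulLeft ℂ c) (qt x' L' c (sp q.1 N)) := by
      rw [← continuousOn_univ]
      exact h2.continuousOn
    have h5 : Continuous fun y : Fin (n + 1) → ℂ => (y, (0 : Fin (n + 1) → ℂ)) := by fun_prop
    exact Continuous.comp (g := fun q : (Fin (n + 1) → ℂ) × (Fin (n + 1) → ℂ) =>
        lcoeff ℂ m (sp q.1 N) - (lcoeff ℂ m ∘ₗ LinearMap.mulLeft ℂ c) (qt x' L' c (sp q.1 N)))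
        (f := fun y => (y, (0 : Fin (n + 1) → ℂ))) h4 h5
  exact isClosed_singleton.preimage h3

variable {N} {DY : ℕ} (homY : IsWeightedHomogeneous (wY n t) N (DY + 1))

include homY in
lemma smul_mem_ZS {y : Fin (n + 1) → ℂ} {l : ℂ} (hy : y ∈ ZS x' L' c N) :
    l • y ∈ ZS x' L' c N := by
  show sp (l • y) N = _
  rw [sp_smul homY, qt_C_mul]
  have h : sp y N = c * qt x' L' c (sp y N) := hy
  conv_lhs => rw [h]
  ring

include homY in
lemma TS_scale {y w : Fin (n + 1) → ℂ} (l μ c' : ℂ) (h : TS x' L' c N y w) :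
    TS x' L' c N (l • y) (c' • (l • w + μ • y)) := by
  obtain ⟨h1, h2⟩ := h
  refine ⟨smul_mem_ZS x' L' c homY h1, ?_⟩
  rw [sp1_smul, sp1_scale homY, qt_C_mul, qt_add, qt_C_mul, qt_C_mul]
  have h1' : sp y N = c * qt x' L' c (sp y N) := h1
  conv_lhs => rw [h1', h2]
  ring

lemma eventually_TS {D' : ℕ}
    (hL' : ∀ Q : MvPolynomial (Fin (t + 1)) ℂ, Q.IsHomogeneous D' →
      Q = ∑ j, eval (x' j) Q • L' j) (hL'h : ∀ j, (L' j).IsHomogeneous D')
    (hc : ∀ j, eval (x' j) c ≠ 0)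
    {Y : ℂ → ℂ → Fin (n + 1) → ℂ} (hY : LiftFamily Y) {z₂ : ℂ}
    (h : ∀ᶠ z in 𝓝 z₂, Y z₂ z ∈ ZS x' L' c N) :
    ∀ᶠ z in 𝓝 z₂, TS x' L' c N (Y z₂ z) (deriv (Y z₂) z) := by
  -- Taylor expansion
  have hmapc : ∀ {S : Type} [CommRing S] [Algebra ℂ S] (f : An z₂ →ₐ[ℂ] S),
      map (f : An z₂ →+* S) (map (algebraMap ℂ (An z₂)) c) = map (algebraMap ℂ S) c := by
    intro S _ _ f
    rw [MvPolynomial.map_map]
    have h0 : (f : An z₂ →+* S).comp (algebraMap ℂ (An z₂)) = algebraMap ℂ S := f.comp_algebraMap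
    rw [h0]
  have h1 : map (tayHom z₂ : An z₂ →+* PowerSeries ℂ)
      (sp (yA hY z₂) N - map (algebraMap ℂ (An z₂)) c * qt x' L' c (sp (yA hY z₂) N)) = 0 := by
    apply map_tayHom_eq_zero
    filter_upwards [h] with z hz
    rw [map_sub, map_mul, map_qt, map_sp, evA_yA, hmapc, sub_eq_zero]
    have h2 : sp (Y z₂ z) N = c * qt x' L' c (sp (Y z₂ z) N) := hz
    simp only [Algebra.algebraMap_self, MvPolynomial.map_id]
    exact h2
  rw [map_sub, map_mul, map_qt, map_sp, sub_eq_zero, hmapc] at h1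
  obtain ⟨F, hF⟩ : ∃ F, F = qt x' L' c (sp (fun i => tayHom z₂ (yA hY z₂ i)) N) := ⟨_, rfl⟩
  rw [← hF] at h1
  have hFh : F.IsHomogeneous D' := by
    rw [hF]
    exact qt_isHomogeneous _ _ hL'h _ _
  have h3 : sp1 (fun i => tayHom z₂ (yA hY z₂ i)) (fun i => tayHom z₂ (derivA z₂ (yA hY z₂ i))) N =
      map (algebraMap ℂ (PowerSeries ℂ)) c * cd (PowerSeries.derivative ℂ) F := by
    have e2 := cd_sp (PowerSeries.derivative ℂ) (fun i => tayHom z₂ (yA hY z₂ i)) N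
    simp only [← tayHom_derivA] at e2
    rw [← e2, h1, cd_mul, cd_map, zero_mul, zero_add]
  have h4 : map (tayHom z₂ : An z₂ →+* PowerSeries ℂ)
      (sp1 (yA hY z₂) (fun i => derivA z₂ (yA hY z₂ i)) N -
        map (algebraMap ℂ (An z₂)) c *
          qt x' L' c (sp1 (yA hY z₂) (fun i => derivA z₂ (yA hY z₂ i)) N)) = 0 := by
    rw [map_sub, map_mul, map_qt, map_sp1, hmapc, h3, qt_mul x' L' hL' hc (cd_isHomogeneous _ hFh),
      sub_self]
  filter_upwards [h, eventually_map_eq_zero h4, evA_derivA_yA hY z₂] with z hz1 hz2 hz3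
  refine ⟨hz1, ?_⟩
  rw [map_sub, map_mul, map_qt, map_sp1, evA_yA, hmapc, sub_eq_zero] at hz2
  simp only [Algebra.algebraMap_self, MvPolynomial.map_id, hz3] at hz2
  exact hz2

include homY in
lemma ZS_identity
    {Y : ℂ → ℂ → Fin (n + 1) → ℂ} (hY : LiftFamily Y) {z₁ : ℂ}
    (h : ∀ᶠ z in 𝓝 z₁, Y z₁ z ∈ ZS x' L' c N) (z₂ : ℂ) :
    ∀ᶠ z in 𝓝 z₂, Y z₂ z ∈ ZS x' L' c N := by
  have h1 : ∀ m : Fin (t + 1) →₀ ℕ, ∀ᶠ z in 𝓝 z₂, coeff m (sp (Y z₂ z) N) -
      coeff m (c * qt x' L' c (sp (Y z₂ z) N)) = 0 := by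
    intro m
    have h2 : Hol (n := n) fun y _ => lcoeff ℂ m (sp y N) -
        (lcoeff ℂ m ∘ₗ LinearMap.mulLeft ℂ c) (qt x' L' c (sp y N)) :=
      (hol_sp N _).sub (hol_qt x' L' (Φ := fun y _ => sp y N) (hol_sp N) c _)
    have h3 : AnalyticOnNhd ℂ (fun y : Fin (n + 1) → ℂ => coeff m (sp y N) -
        coeff m (c * qt x' L' c (sp y N))) Set.univ := by
      intro y _
      have h4 := h2 (y, (0 : Fin (n + 1) → ℂ)) (Set.mem_univ _)
      exact AnalyticAt.comp (g := fun q : (Fin (n + 1) → ℂ) × (Fin (n + 1) → ℂ) =>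
        lcoeff ℂ m (sp q.1 N) - (lcoeff ℂ m ∘ₗ LinearMap.mulLeft ℂ c) (qt x' L' c (sp q.1 N)))
        (f := fun y => (y, (0 : Fin (n + 1) → ℂ))) h4 (analyticAt_id.prod analyticAt_const)
    refine hY.identity (E := fun y => coeff m (sp y N) - coeff m (c * qt x' L' c (sp y N)))
      h3 ?_ (z₁ := z₁) ?_ z₂
    · intro y l hl
      rw [sp_smul homY, qt_C_mul, coeff_C_mul, mul_left_comm, coeff_C_mul, ← mul_sub]
      constructor
      · intro h5
        exact (mul_eq_zero.mp h5).resolve_left (pow_ne_zero _ hl)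
      · intro h5
        rw [h5, mul_zero]
    · filter_upwards [h] with z hz
      have h5 : sp (Y z₁ z) N = c * qt x' L' c (sp (Y z₁ z) N) := hz
      rw [← h5, sub_self]
  obtain ⟨P, hP⟩ : ∃ P : MvPolynomial (Fin (t + 1)) (An z₂),
    P = sp (yA hY z₂) N - map (algebraMap ℂ (An z₂)) c * qt x' L' c (sp (yA hY z₂) N) := ⟨_, rfl⟩
  have hPz : ∀ z, map (evA z₂ z : An z₂ →+* ℂ) P =
      sp (Y z₂ z) N - c * qt x' L' c (sp (Y z₂ z) N) := by
    intro z
    rw [hP, map_sub, map_mul, map_qt, map_sp, evA_yA, MvPolynomial.map_map]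
    have h6 : (evA z₂ z : An z₂ →+* ℂ).comp (algebraMap ℂ (An z₂)) = algebraMap ℂ ℂ :=
      (evA z₂ z).comp_algebraMap
    rw [h6]
    simp only [Algebra.algebraMap_self, MvPolynomial.map_id]
  have h7 : ∀ᶠ z in 𝓝 z₂, ∀ m ∈ P.support, coeff m (sp (Y z₂ z) N) -
      coeff m (c * qt x' L' c (sp (Y z₂ z) N)) = 0 := by
    rw [Filter.eventually_all_finset]
    exact fun m _ => h1 m
  filter_upwards [h7] with z hz
  show sp (Y z₂ z) N = c * qt x' L' c (sp (Y z₂ z) N)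
  rw [← sub_eq_zero]
  ext m
  rw [coeff_zero]
  by_cases hm : m ∈ P.support
  · rw [coeff_sub]
    exact hz m hm
  · rw [← hPz z, coeff_map, notMem_support_iff.mp hm, map_zero]

end

end Pool.Agent.Lib.GGL
end

section

/-!
Curves ramified over hyperplanes admitting a norm form are constant, unless the norm form acquires
a square factor along the curve.
-/

open MvPolynomial Module Filter Topology Metric

namespace Pool.Agent.Lib.GGL

section

/-- A curve in a closed cone off a hyperplane is constant. -/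
lemma const_of_cone {n : ℕ} {Y : ℂ → ℂ → Fin (n + 1) → ℂ} (hY : LiftFamily Y)
    {Z : Set (Fin (n + 1) → ℂ)} (hZ : IsClosed Z) (hZs : ∀ y ∈ Z, ∀ l : ℂ, l • y ∈ Z)
    {v₀ : Fin (n + 1) → ℂ} (hv : ∀ y ∈ Z, y ≠ 0 → v₀ ⬝ᵥ y ≠ 0) (hYZ : ∀ z, Y z z ∈ Z) (z w : ℂ) :
    ∃ c : ℂ, c ≠ 0 ∧ Y z z = c • Y w w := by
  obtain ⟨hYan, hY0, hYc⟩ := hY
  -- lower bound on the cone
  obtain ⟨δ, hδ0, hδ⟩ : ∃ δ : ℝ, 0 < δ ∧ ∀ y ∈ Z, δ * ‖y‖ ≤ ‖v₀ ⬝ᵥ y‖ := by
    have hK : IsCompact (sphere (0 : Fin (n + 1) → ℂ) 1 ∩ Z) := (isCompact_sphere _ _).inter_right hZ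
    have hcont : Continuous fun y : Fin (n + 1) → ℂ => ‖v₀ ⬝ᵥ y‖ := by
      apply Continuous.norm
      exact Continuous.dotProduct continuous_const continuous_id
    rcases (sphere (0 : Fin (n + 1) → ℂ) 1 ∩ Z).eq_empty_or_nonempty with hne | hne
    · refine ⟨1, one_pos, ?_⟩
      intro y hy
      have hy0 : y = 0 := by
        by_contra h0
        have h1 : ((‖y‖ : ℂ)⁻¹) • y ∈ sphere (0 : Fin (n + 1) → ℂ) 1 ∩ Z := by
          refine ⟨?_, hZs y hy _⟩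
          rw [mem_sphere_zero_iff_norm, norm_smul, norm_inv, Complex.norm_real, norm_norm,
            inv_mul_cancel₀ (norm_ne_zero_iff.mpr h0)]
        rw [hne] at h1
        exact h1
      rw [hy0]
      simp
    · obtain ⟨y₀, hy₀, hmin⟩ := hK.exists_isMinOn hne hcont.continuousOn
      have hy₀0 : y₀ ≠ 0 := by
        rintro rfl
        have := hy₀.1
        rw [mem_sphere_zero_iff_norm, norm_zero] at this
        exact zero_ne_one this
      refine ⟨‖v₀ ⬝ᵥ y₀‖, norm_pos_iff.mpr (hv _ hy₀.2 hy₀0), ?_⟩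
      intro y hy
      rcases eq_or_ne y 0 with h0 | h0
      · rw [h0]; simp
      · have h1 : ((‖y‖ : ℂ)⁻¹) • y ∈ sphere (0 : Fin (n + 1) → ℂ) 1 ∩ Z := by
          refine ⟨?_, hZs y hy _⟩
          rw [mem_sphere_zero_iff_norm, norm_smul, norm_inv, Complex.norm_real, norm_norm,
            inv_mul_cancel₀ (norm_ne_zero_iff.mpr h0)]
        have h2 := hmin h1
        have h3 : ‖v₀ ⬝ᵥ y₀‖ ≤ ‖v₀ ⬝ᵥ (((‖y‖ : ℂ)⁻¹) • y)‖ := h2
        rw [dotProduct_smul, norm_smul, norm_inv, Complex.norm_real, norm_norm] at h3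
        have h4 : 0 < ‖y‖ := norm_pos_iff.mpr h0
        calc ‖v₀ ⬝ᵥ y₀‖ * ‖y‖ ≤ (‖y‖⁻¹ * ‖v₀ ⬝ᵥ y‖) * ‖y‖ := by gcongr
          _ = ‖v₀ ⬝ᵥ y‖ := by field_simp
  have hne : ∀ z, v₀ ⬝ᵥ Y z z ≠ 0 := fun z => hv _ (hYZ z) (hY0 z)
  -- the coordinates
  have hcoord : ∀ i : Fin (n + 1), ∀ z w, Y z z i / (v₀ ⬝ᵥ Y z z) = Y w w i / (v₀ ⬝ᵥ Y w w) := by
    intro i
    have hdiff : Differentiable ℂ fun z => Y z z i / (v₀ ⬝ᵥ Y z z) := by
      intro z₁
      have h1 : (fun z => Y z z i / (v₀ ⬝ᵥ Y z z)) =ᶠ[𝓝 z₁]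
          fun z => Y z₁ z i / (v₀ ⬝ᵥ Y z₁ z) := by
        filter_upwards [hYc z₁] with z ⟨l, hl1, hl2, hl3⟩
        have h2 : Y z z = l z • Y z₁ z := hl3.self_of_nhds
        rw [h2, dotProduct_smul, Pi.smul_apply, smul_eq_mul, smul_eq_mul,
          mul_div_mul_left _ _ hl2]
      have h3 : AnalyticAt ℂ (fun z => Y z₁ z i / (v₀ ⬝ᵥ Y z₁ z)) z₁ :=
        ((analyticAt_pi_iff.mp (hYan z₁)) i).div (analyticAt_dotProduct (hYan z₁) v₀) (hne z₁)
      exact (h3.congr h1.symm).differentiableAt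
    have hbd : Bornology.IsBounded (Set.range fun z => Y z z i / (v₀ ⬝ᵥ Y z z)) := by
      rw [isBounded_iff_forall_norm_le]
      refine ⟨δ⁻¹, ?_⟩
      rintro _ ⟨z, rfl⟩
      rw [norm_div, div_le_iff₀ (norm_pos_iff.mpr (hne z))]
      have h1 := hδ _ (hYZ z)
      have h2 : ‖Y z z i‖ ≤ ‖Y z z‖ := norm_le_pi_norm _ i
      calc ‖Y z z i‖ ≤ ‖Y z z‖ := h2
        _ = δ⁻¹ * (δ * ‖Y z z‖) := by field_simp
        _ ≤ δ⁻¹ * ‖v₀ ⬝ᵥ Y z z‖ := by gcongr
    intro z w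
    exact hdiff.apply_eq_apply_of_bounded hbd z w
  refine ⟨(v₀ ⬝ᵥ Y z z) / (v₀ ⬝ᵥ Y w w), div_ne_zero (hne z) (hne w), ?_⟩
  funext i
  have h1 := hcoord i z w
  have h2 := hne z
  have h3 := hne w
  rw [Pi.smul_apply, smul_eq_mul]
  field_simp at h1 ⊢
  linear_combination h1

lemma totalDegree_map_algebraMap {σ : Type*} (P : MvPolynomial σ ℂ) :
    (map (algebraMap ℂ (PowerSeries ℂ)) P).totalDegree = P.totalDegree := by
  have h : Function.Injective (algebraMap ℂ (PowerSeries ℂ)) := FaithfulSMul.algebraMap_injective _ _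
  rw [totalDegree, totalDegree, support_map_of_injective _ h]

/-- extraction of the factors with constant coefficients -/
lemma exists_const_factor {σ : Type*} (d : ℕ) :
    ∀ F : MvPolynomial σ (PowerSeries ℂ), F ≠ 0 → F.totalDegree ≤ d →
    ∃ (c : MvPolynomial σ ℂ) (F' : MvPolynomial σ (PowerSeries ℂ)),
      F = map (algebraMap ℂ (PowerSeries ℂ)) c * F' ∧
      ∀ π₀ : MvPolynomial σ ℂ, π₀.totalDegree ≠ 0 →
        ¬ map (algebraMap ℂ (PowerSeries ℂ)) π₀ ∣ F' := by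
  induction d with
  | zero =>
    intro F hF hd
    refine ⟨1, F, by rw [map_one, one_mul], ?_⟩
    rintro π₀ hπ ⟨G, hG⟩
    have hG0 : G ≠ 0 := by
      rintro rfl
      rw [mul_zero] at hG
      exact hF hG
    have hπ0 : map (algebraMap ℂ (PowerSeries ℂ)) π₀ ≠ 0 := by
      intro h0
      rw [h0, zero_mul] at hG
      exact hF hG
    have h1 := totalDegree_mul_of_isDomain hπ0 hG0
    rw [← hG, totalDegree_map_algebraMap] at h1
    omega
  | succ d ih =>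
    intro F hF hd
    by_cases h : ∀ π₀ : MvPolynomial σ ℂ, π₀.totalDegree ≠ 0 →
        ¬ map (algebraMap ℂ (PowerSeries ℂ)) π₀ ∣ F
    · exact ⟨1, F, by rw [map_one, one_mul], h⟩
    · push Not at h
      obtain ⟨π₀, hπ, G, hG⟩ := h
      have hG0 : G ≠ 0 := by
        rintro rfl
        rw [mul_zero] at hG
        exact hF hG
      have hπ0 : map (algebraMap ℂ (PowerSeries ℂ)) π₀ ≠ 0 := by
        intro h0
        rw [h0, zero_mul] at hG
        exact hF hG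
      have h1 := totalDegree_mul_of_isDomain hπ0 hG0
      rw [← hG, totalDegree_map_algebraMap] at h1
      obtain ⟨c, F', h2, h3⟩ := ih G hG0 (by omega)
      exact ⟨π₀ * c, F', by rw [hG, h2, map_mul, mul_assoc], h3⟩

end

end Pool.Agent.Lib.GGL
end
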