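import Mathlib
import Pool.Agent.Lib.MP_8d161d_ag.Prim
import Pool.Agent.Lib.MP_8d161d_ag.NormData
import Pool.Agent.Lib.MP_8d161d_ag.Cover
import Pool.Agent.Lib.MP_8d161d_ag.GrowH
import Pool.Agent.Lib.MP_8d161d_ag.Mg.G022

section

/-!
The norm form as a resultant.
-/

open MvPolynomial Module

namespace Pool.Agent.Lib.GGL

section

variable {σ R : Type*} [CommRing R]

/-- scaling of the coefficients as scaling of the roots -/
lemma map_Lam_eq {w : σ → ℕ} {g : Polynomial (MvPolynomial σ R)} {a : ℕ}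
    (hg : ∀ i, i ≤ a → IsWeightedHomogeneous w (g.coeff i) (a - i)) (hd : g.natDegree ≤ a) :
    g.map (Lam w : MvPolynomial σ R →ₐ[R] _).toRingHom =
      Polynomial.C ((Polynomial.X : Polynomial (MvPolynomial σ R)) ^ (a - g.natDegree)) *
        (g.map Polynomial.C).scaleRoots Polynomial.X := by
  ext i : 1
  rw [Polynomial.coeff_map, Polynomial.coeff_C_mul, Polynomial.coeff_scaleRoots,
    Polynomial.coeff_map, Polynomial.natDegree_map_eq_of_injective Polynomial.C_injective]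
  by_cases hi : i ≤ g.natDegree
  · have h1 := (Lam_eq_iff w _ _).mp (hg i (hi.trans hd))
    have h2 : (Lam w : MvPolynomial σ R →ₐ[R] _).toRingHom (g.coeff i) =
        Lam w (g.coeff i) := rfl
    rw [h2, h1, mul_left_comm, ← pow_add]
    congr 2
    omega
  · have h1 : g.coeff i = 0 := Polynomial.coeff_eq_zero_of_natDegree_lt (by omega)
    rw [h1, map_zero, Polynomial.C_0, zero_mul, mul_zero]

/-- homogeneity of resultants -/
lemma resultant_isWeightedHomogeneous {w : σ → ℕ} {f g : Polynomial (MvPolynomial σ R)} {a b : ℕ}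
    (hf : ∀ i, i ≤ a → IsWeightedHomogeneous w (f.coeff i) (a - i)) (hfd : f.natDegree ≤ a)
    (hg : ∀ i, i ≤ b → IsWeightedHomogeneous w (g.coeff i) (b - i)) (hgd : g.natDegree ≤ b) :
    IsWeightedHomogeneous w (Polynomial.resultant f g)
      ((a - f.natDegree) * g.natDegree + (b - g.natDegree) * f.natDegree +
        f.natDegree * g.natDegree) := by
  rw [Lam_eq_iff]
  have h1 := Polynomial.resultant_map_map f g f.natDegree g.natDegree
    (Lam w : MvPolynomial σ R →ₐ[R] _).toRingHom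
  have h2 : (Lam w : MvPolynomial σ R →ₐ[R] _).toRingHom (Polynomial.resultant f g) =
      Lam w (Polynomial.resultant f g) := rfl
  rw [h2, map_Lam_eq hf hfd, map_Lam_eq hg hgd, Polynomial.resultant_C_mul_right,
    Polynomial.resultant_C_mul_left] at h1
  have h3 := Polynomial.resultant_scaleRoots (f.map Polynomial.C) (g.map Polynomial.C)
    (Polynomial.X : Polynomial (MvPolynomial σ R))
  rw [Polynomial.natDegree_scaleRoots, Polynomial.natDegree_scaleRoots,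
    Polynomial.natDegree_map_eq_of_injective Polynomial.C_injective,
    Polynomial.natDegree_map_eq_of_injective Polynomial.C_injective,
    Polynomial.resultant_map_map] at h3
  rw [← h1, h3]
  ring

end

section

variable {n t : ℕ} {ι : Type*} {p : ι → Fin (n + 1) → ℂ}

/-- The norm form. -/
theorem exists_norm_gen {Good : (Fin (n + 1) → ℂ) → Prop} {J : Finset ι} {x : ι → Fin (t + 1) → ℂ} {δ D₁ : ℕ}
    {y₀ : Fin (n + 1) → ℂ} {F₁ : MvPolynomial (Fin (t + 1 + 1)) ℂ}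
    {E : Fin (n + 1) → MvPolynomial (Fin (t + 1 + 1)) ℂ}
    (hirr : Irreducible F₁) (hF₁ : F₁.IsHomogeneous D₁) (hD₁ : D₁ ≤ δ)
    (hdense : ∀ g : MvPolynomial (Fin (t + 1)) ℂ, g.IsHomogeneous δ →
      (∀ j ∈ J, eval (x j) g = 0) → g = 0)
    (hFJ : ∀ j ∈ J, eval (Fin.cons (p j ⬝ᵥ y₀) (x j) : Fin (t + 1 + 1) → ℂ) F₁ = 0)
    (hE : ∀ i, (E i).IsHomogeneous δ)
    (hEJ : ∀ (y : Fin (n + 1) → ℂ), ∀ j ∈ J, p j ⬝ᵥ y = 0 →
      eval (Fin.cons (p j ⬝ᵥ y₀) (x j) : Fin (t + 1 + 1) → ℂ) (∑ i, C (y i) * E i) = 0)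
    (hnd : ∀ y : Fin (n + 1) → ℂ, Good y → ¬ F₁ ∣ ∑ i, C (y i) * E i) :
    ∃ (N : MvPolynomial (Fin (n + 1) ⊕ Fin (t + 1)) ℂ) (DY D : ℕ), DY ≤ δ ∧ D ≤ δ * δ ∧
      IsWeightedHomogeneous (wY n t) N DY ∧ IsWeightedHomogeneous (wT n t) N D ∧
      (∀ y : Fin (n + 1) → ℂ, Good y → sp y N ≠ 0) ∧
      ∀ j ∈ J, ∀ y : Fin (n + 1) → ℂ, p j ⬝ᵥ y = 0 → eval (Sum.elim y (x j)) N = 0 := by
  classical
  obtain ⟨f₁, hf₁⟩ : ∃ f₁, f₁ = MvPolynomial.finSuccEquiv ℂ (t + 1) F₁ := ⟨_, rfl⟩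
  obtain ⟨ρ, hρ⟩ : ∃ ρ : MvPolynomial (Fin (t + 1)) ℂ →ₐ[ℂ]
    MvPolynomial (Fin (n + 1) ⊕ Fin (t + 1)) ℂ, ρ = rename Sum.inr := ⟨_, rfl⟩
  have hρinj : Function.Injective (ρ : MvPolynomial (Fin (t + 1)) ℂ →+*
      MvPolynomial (Fin (n + 1) ⊕ Fin (t + 1)) ℂ) := by
    rw [hρ]
    exact rename_injective _ Sum.inr_injective
  -- degree
  have hdegle : f₁.natDegree ≤ D₁ := by
    rw [hf₁, natDegree_finSuccEquiv]
    exact (degreeOf_le_totalDegree _ _).trans hF₁.totalDegree_le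
  have hdeg0 : f₁.natDegree ≠ 0 := by
    intro h0
    rw [Polynomial.natDegree_eq_zero] at h0
    obtain ⟨g, hg⟩ := h0
    have hgh : g.IsHomogeneous D₁ := by
      have h1 := hF₁.finSuccEquiv_coeff_isHomogeneous 0 D₁ (by omega)
      rwa [← hf₁, ← hg, Polynomial.coeff_C_zero] at h1
    have hg0 : g * X 0 ^ (δ - D₁) = 0 := by
      apply hdense
      · have h1 := hgh.mul (isHomogeneous_X_pow (R := ℂ) (0 : Fin (t + 1)) (δ - D₁))
        rwa [show D₁ + (δ - D₁) = δ by omega] at h1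
      · intro j hj
        have h1 := hFJ j hj
        rw [eval_eq_eval_mv_eval', ← hf₁, ← hg, Polynomial.map_C, Polynomial.eval_C] at h1
        rw [map_mul, h1, zero_mul]
    have hg0' : g = 0 := (mul_eq_zero.mp hg0).resolve_right (pow_ne_zero _ (X_ne_zero _))
    apply hirr.ne_zero
    rw [hg0', Polynomial.C_0] at hg
    exact (MvPolynomial.finSuccEquiv _ _).injective ((hf₁.symm.trans hg.symm).trans
      (map_zero _).symm)
  have hf₁irr : Irreducible f₁ := by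
    rw [hf₁]
    exact (MulEquiv.irreducible_iff (MvPolynomial.finSuccEquiv ℂ (t + 1))).mpr hirr
  have hprim : f₁.IsPrimitive := hf₁irr.isPrimitive hdeg0
  have hirrK := (hprim.irreducible_iff_irreducible_map_fraction_map
    (K := FractionRing (MvPolynomial (Fin (t + 1)) ℂ))).mp hf₁irr
  -- the two polynomials
  obtain ⟨fM, hfM⟩ : ∃ fM, fM = f₁.map (ρ : MvPolynomial (Fin (t + 1)) ℂ →+*
      MvPolynomial (Fin (n + 1) ⊕ Fin (t + 1)) ℂ) := ⟨_, rfl⟩
  obtain ⟨e, he⟩ : ∃ e : Fin (n + 1) → Polynomial (MvPolynomial (Fin (t + 1)) ℂ),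
    e = fun i => MvPolynomial.finSuccEquiv ℂ (t + 1) (E i) := ⟨_, rfl⟩
  obtain ⟨EM, hEM⟩ : ∃ EM, EM = ∑ i, Polynomial.C (X (Sum.inl i)) *
      (e i).map (ρ : MvPolynomial (Fin (t + 1)) ℂ →+*
        MvPolynomial (Fin (n + 1) ⊕ Fin (t + 1)) ℂ) := ⟨_, rfl⟩
  have hfMd : fM.natDegree = f₁.natDegree := by
    rw [hfM, Polynomial.natDegree_map_eq_of_injective hρinj]
  have hed : ∀ i, (e i).natDegree ≤ δ := by
    intro i
    rw [he]
    beta_reduce
    rw [natDegree_finSuccEquiv]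
    exact (degreeOf_le_totalDegree _ _).trans (hE i).totalDegree_le
  have hEMd : EM.natDegree ≤ δ := by
    rw [hEM]
    apply Polynomial.natDegree_sum_le_of_forall_le
    intro i _
    refine (Polynomial.natDegree_C_mul_le _ _).trans ?_
    exact Polynomial.natDegree_map_le.trans (hed i)
  -- coefficients
  have hfc : ∀ i, fM.coeff i = ρ (f₁.coeff i) := by
    intro i
    rw [hfM, Polynomial.coeff_map]
    rfl
  have hec : ∀ i, EM.coeff i = ∑ l, X (Sum.inl l) * ρ ((e l).coeff i) := by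
    intro i
    rw [hEM, Polynomial.finsetSum_coeff]
    refine Finset.sum_congr rfl fun l _ => ?_
    rw [Polynomial.coeff_C_mul, Polynomial.coeff_map]
    rfl
  have hρY : ∀ a : MvPolynomial (Fin (t + 1)) ℂ, IsWeightedHomogeneous (wY n t) (ρ a) 0 := by
    intro a
    rw [hρ]
    intro d hd
    obtain ⟨u, hu, -⟩ := coeff_rename_ne_zero _ _ _ hd
    rw [← hu, Finsupp.weight_apply, Finsupp.sum]
    apply Finset.sum_eq_zero
    intro i hi
    have h1 := Finsupp.mapDomain_support hi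
    rw [Finset.mem_image] at h1
    obtain ⟨l, -, rfl⟩ := h1
    rw [wY, Sum.elim_inr, smul_zero]
  have hρT : ∀ (a : MvPolynomial (Fin (t + 1)) ℂ) (k : ℕ), a.IsHomogeneous k →
      IsWeightedHomogeneous (wT n t) (ρ a) k := by
    intro a k ha
    rw [hρ]
    intro d hd
    obtain ⟨u, hu, hu0⟩ := coeff_rename_ne_zero _ _ _ hd
    have h1 := ha hu0
    rw [← h1, ← hu, Finsupp.weight_apply, Finsupp.weight_apply, Finsupp.sum_mapDomain_index]
    · rfl
    · intro i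
      rw [zero_smul]
    · intro i a b
      rw [add_smul]
  -- specialisation
  have hspρ : ∀ (y : Fin (n + 1) → ℂ) (a : MvPolynomial (Fin (t + 1)) ℂ), sp y (ρ a) = a := by
    intro y a
    rw [hρ]
    have h1 : (sp y : MvPolynomial (Fin (n + 1) ⊕ Fin (t + 1)) ℂ →ₐ[ℂ] _).comp
        (rename Sum.inr) = AlgHom.id ℂ (MvPolynomial (Fin (t + 1)) ℂ) := by
      apply MvPolynomial.algHom_ext
      intro i
      rw [AlgHom.comp_apply, rename_X, sp_inr]
      rfl
    exact congrArg (fun F => F a) h1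
  obtain ⟨g, hg⟩ : ∃ g : (Fin (n + 1) → ℂ) → Polynomial (MvPolynomial (Fin (t + 1)) ℂ),
    g = fun y => MvPolynomial.finSuccEquiv ℂ (t + 1) (∑ i, C (y i) * E i) := ⟨_, rfl⟩
  obtain ⟨spR, hspR⟩ : ∃ spR : (Fin (n + 1) → ℂ) →
      (MvPolynomial (Fin (n + 1) ⊕ Fin (t + 1)) ℂ →+* MvPolynomial (Fin (t + 1)) ℂ),
      ∀ y Q, spR y Q = sp y Q := ⟨fun y => (sp (t := t) y).toRingHom, fun _ _ => rfl⟩
  have hfsp : ∀ y : Fin (n + 1) → ℂ, fM.map (spR y) = f₁ := by
    intro y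
    ext i : 1
    rw [Polynomial.coeff_map, hfc, hspR]
    exact hspρ y _
  have hfsC : ∀ a : ℂ, MvPolynomial.finSuccEquiv ℂ (t + 1) (C a) = Polynomial.C (C a) := by
    intro a
    rw [finSuccEquiv_apply, eval₂Hom_C]
    rfl
  have hEsp : ∀ y : Fin (n + 1) → ℂ, EM.map (spR y) = g y := by
    intro y
    rw [hg]
    beta_reduce
    rw [map_sum]
    ext i : 1
    rw [Polynomial.coeff_map, hec, Polynomial.finsetSum_coeff, hspR, map_sum]
    refine Finset.sum_congr rfl fun l _ => ?_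
    rw [map_mul, sp_inl, hspρ, map_mul, hfsC, Polynomial.coeff_C_mul, he]
  obtain ⟨N, hN⟩ : ∃ N, N = Polynomial.resultant fM EM := ⟨_, rfl⟩
  have hsp : ∀ y : Fin (n + 1) → ℂ,
      sp y N = Polynomial.resultant f₁ (g y) f₁.natDegree EM.natDegree := by
    intro y
    have h1 := Polynomial.resultant_map_map fM EM f₁.natDegree EM.natDegree (spR y)
    rw [hfsp y, hEsp y, hspR] at h1
    rw [h1, hN, hfMd]
  have hgd : ∀ y, (g y).natDegree ≤ EM.natDegree := by
    intro y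
    rw [← hEsp y]
    exact Polynomial.natDegree_map_le
  refine ⟨N, f₁.natDegree, (D₁ - f₁.natDegree) * EM.natDegree +
    (δ - EM.natDegree) * f₁.natDegree + f₁.natDegree * EM.natDegree, hdegle.trans hD₁, ?_,
    ?_, ?_, ?_, ?_⟩
  · obtain ⟨a', ha'⟩ := Nat.exists_eq_add_of_le hdegle
    obtain ⟨b', hb'⟩ := Nat.exists_eq_add_of_le hEMd
    obtain ⟨c', hc'⟩ := Nat.exists_eq_add_of_le hD₁
    have h1 : D₁ - f₁.natDegree = a' := by omega
    have h2 : δ - EM.natDegree = b' := by omega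
    rw [h1, h2]
    have h3 : D₁ * δ ≤ δ * δ := Nat.mul_le_mul_right _ hD₁
    have h4 : D₁ * δ = (f₁.natDegree + a') * (EM.natDegree + b') := by
      rw [← ha', ← hb']
    have h5 : (f₁.natDegree + a') * (EM.natDegree + b') =
      (a' * EM.natDegree + b' * f₁.natDegree + f₁.natDegree * EM.natDegree) + a' * b' := by ring
    omega
  · -- degree in the first group
    rw [Lam_eq_iff]
    have h1 := Polynomial.resultant_map_map fM EM fM.natDegree EM.natDegree
      (Lam (wY n t) : MvPolynomial (Fin (n + 1) ⊕ Fin (t + 1)) ℂ →ₐ[ℂ] _).toRingHom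
    have h2 : fM.map (Lam (wY n t) : MvPolynomial (Fin (n + 1) ⊕ Fin (t + 1)) ℂ →ₐ[ℂ]
        _).toRingHom = fM.map Polynomial.C := by
      ext i : 1
      rw [Polynomial.coeff_map, Polynomial.coeff_map, hfc]
      have h3 := (Lam_eq_iff _ _ _).mp (hρY (f₁.coeff i))
      rw [pow_zero, mul_one] at h3
      exact h3
    have h3 : EM.map (Lam (wY n t) : MvPolynomial (Fin (n + 1) ⊕ Fin (t + 1)) ℂ →ₐ[ℂ]
        _).toRingHom = Polynomial.C Polynomial.X * EM.map Polynomial.C := by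
      ext i : 1
      rw [Polynomial.coeff_map, Polynomial.coeff_C_mul, Polynomial.coeff_map, hec]
      have h4 : (Lam (wY n t) : MvPolynomial (Fin (n + 1) ⊕ Fin (t + 1)) ℂ →ₐ[ℂ]
          _).toRingHom (∑ l, X (Sum.inl l) * ρ ((e l).coeff i)) =
          Lam (wY n t) (∑ l, X (Sum.inl l) * ρ ((e l).coeff i)) := rfl
      rw [h4, map_sum, map_sum, Finset.mul_sum]
      refine Finset.sum_congr rfl fun l _ => ?_
      rw [map_mul, (Lam_eq_iff _ _ _).mp (hρY ((e l).coeff i)), Lam_X, pow_zero, mul_one,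
        Polynomial.C_mul, wY, Sum.elim_inl, pow_one]
      ring
    rw [h2, h3, Polynomial.resultant_C_mul_right, Polynomial.resultant_map_map, ← hN] at h1
    have h4 : (Lam (wY n t) : MvPolynomial (Fin (n + 1) ⊕ Fin (t + 1)) ℂ →ₐ[ℂ]
          _).toRingHom N = Lam (wY n t) N := rfl
    rw [← h4, ← h1, hfMd, mul_comm]
  · -- degree in the second group
    have h1 := resultant_isWeightedHomogeneous (w := wT n t) (f := fM) (g := EM) (a := D₁)
      (b := δ) (by
        intro i hi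
        rw [hfc]
        apply hρT
        rw [hf₁]
        exact hF₁.finSuccEquiv_coeff_isHomogeneous i (D₁ - i) (by omega))
      (by rw [hfMd]; exact hdegle) (by
        intro i hi
        rw [hec]
        apply IsWeightedHomogeneous.sum
        intro l _
        have h2 := (isWeightedHomogeneous_X ℂ (wT n t) (Sum.inl l)).mul
          (hρT _ _ ((hE l).finSuccEquiv_coeff_isHomogeneous i (δ - i) (by omega)))
        rw [wT, Sum.elim_inl, zero_add] at h2
        rw [he]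
        exact h2) hEMd
    rw [← hN, hfMd] at h1
    exact h1
  · -- nonvanishing
    intro y hy h0
    rw [hsp] at h0
    have h1 : ¬ f₁ ∣ g y := by
      intro hd
      apply hnd y hy
      rw [hf₁, hg] at hd
      exact (map_dvd_iff (MvPolynomial.finSuccEquiv ℂ (t + 1))).mp hd
    have h2 : ¬ (f₁.map (algebraMap _ (FractionRing (MvPolynomial (Fin (t + 1)) ℂ)))) ∣
        (g y).map (algebraMap _ (FractionRing (MvPolynomial (Fin (t + 1)) ℂ))) := fun hd =>
      h1 (hprim.dvd_of_fraction_map_dvd_fraction_map hd)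
    have h3 : IsCoprime (f₁.map (algebraMap _ (FractionRing (MvPolynomial (Fin (t + 1)) ℂ))))
        ((g y).map (algebraMap _ (FractionRing (MvPolynomial (Fin (t + 1)) ℂ)))) :=
      (hirrK.coprime_iff_not_dvd).mpr h2
    have h4 := Polynomial.resultant_ne_zero _ _ h3
    have hinj : Function.Injective (algebraMap (MvPolynomial (Fin (t + 1)) ℂ)
        (FractionRing (MvPolynomial (Fin (t + 1)) ℂ))) := IsFractionRing.injective _ _
    rw [Polynomial.natDegree_map_eq_of_injective hinj,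
      Polynomial.natDegree_map_eq_of_injective hinj, Polynomial.resultant_map_map] at h4
    obtain ⟨k, hk⟩ := Nat.exists_eq_add_of_le (hgd y)
    rw [hk, Polynomial.resultant_add_right_deg _ _ _ _ _ le_rfl] at h0
    rcases mul_eq_zero.mp h0 with h5 | h5
    · have h6 : f₁.coeff f₁.natDegree = 0 := eq_zero_of_pow_eq_zero h5
      rw [Polynomial.coeff_natDegree, Polynomial.leadingCoeff_eq_zero] at h6
      exact hf₁irr.ne_zero h6
    · apply h4
      rw [h5, map_zero]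
  · -- vanishing
    intro j hj y hpy
    have h1 := eval_sp y (x j) N
    have h2 : (aeval (Sum.elim y (x j)) N : ℂ) = eval (Sum.elim y (x j)) N := by
      rw [aeval_def, Algebra.algebraMap_self, eval₂_eq_eval_map, map_id]
    rw [← h2, ← h1, hsp]
    obtain ⟨a, b, -, -, hab⟩ := Polynomial.exists_mul_add_mul_eq_C_resultant
      f₁ (g y) (le_refl f₁.natDegree) (hgd y) (Or.inl hdeg0)
    have h3 := congrArg (fun P => Polynomial.eval (p j ⬝ᵥ y₀)
      (Polynomial.map (MvPolynomial.eval (x j)) P)) hab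
    simp only [Polynomial.map_add, Polynomial.map_mul, Polynomial.eval_add, Polynomial.eval_mul,
      Polynomial.map_C, Polynomial.eval_C] at h3
    have h4 := hFJ j hj
    rw [eval_eq_eval_mv_eval', ← hf₁] at h4
    have h5 := hEJ y j hj hpy
    rw [eval_eq_eval_mv_eval'] at h5
    have h6 : g y = MvPolynomial.finSuccEquiv ℂ (t + 1) (∑ i, C (y i) * E i) := by rw [hg]
    rw [← h6] at h5
    rw [h4, h5, zero_mul, zero_mul, zero_add] at h3
    exact h3.symm

/-- The norm form, general position. -/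
theorem exists_norm {J : Finset ι} {x : ι → Fin (t + 1) → ℂ} {δ D₁ : ℕ}
    {y₀ : Fin (n + 1) → ℂ} {F₁ : MvPolynomial (Fin (t + 1 + 1)) ℂ}
    {E : Fin (n + 1) → MvPolynomial (Fin (t + 1 + 1)) ℂ}
    (hirr : Irreducible F₁) (hF₁ : F₁.IsHomogeneous D₁) (hD₁ : D₁ ≤ δ)
    (hdense : ∀ g : MvPolynomial (Fin (t + 1)) ℂ, g.IsHomogeneous δ →
      (∀ j ∈ J, eval (x j) g = 0) → g = 0)
    (hFJ : ∀ j ∈ J, eval (Fin.cons (p j ⬝ᵥ y₀) (x j) : Fin (t + 1 + 1) → ℂ) F₁ = 0)
    (hE : ∀ i, (E i).IsHomogeneous δ)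
    (hEJ : ∀ (y : Fin (n + 1) → ℂ), ∀ j ∈ J, p j ⬝ᵥ y = 0 →
      eval (Fin.cons (p j ⬝ᵥ y₀) (x j) : Fin (t + 1 + 1) → ℂ) (∑ i, C (y i) * E i) = 0)
    (hnd : ∀ y : Fin (n + 1) → ℂ, y ≠ 0 → ¬ F₁ ∣ ∑ i, C (y i) * E i) :
    ∃ (N : MvPolynomial (Fin (n + 1) ⊕ Fin (t + 1)) ℂ) (DY D : ℕ), DY ≤ δ ∧ D ≤ δ * δ ∧
      IsWeightedHomogeneous (wY n t) N DY ∧ IsWeightedHomogeneous (wT n t) N D ∧
      (∀ y : Fin (n + 1) → ℂ, y ≠ 0 → sp y N ≠ 0) ∧
      ∀ j ∈ J, ∀ y : Fin (n + 1) → ℂ, p j ⬝ᵥ y = 0 → eval (Sum.elim y (x j)) N = 0 :=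
  exists_norm_gen (Good := fun y => y ≠ 0) hirr hF₁ hD₁ hdense hFJ hE hEJ hnd

end

end Pool.Agent.Lib.GGL
end

section

/-!
Forms of arbitrary degree: derivatives in a direction.
-/

open MvPolynomial Filter Topology

namespace Pool.Agent.Lib.GGL

section dev

variable {n : ℕ}

/-- derivative of a form in a direction -/
noncomputable def dev (P : MvPolynomial (Fin (n + 1)) ℂ) (y w : Fin (n + 1) → ℂ) : ℂ :=
  ∑ i, w i * eval y (pderiv i P)

lemma dev_add (P : MvPolynomial (Fin (n + 1)) ℂ) (y w w' : Fin (n + 1) → ℂ) :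
    dev P y (w + w') = dev P y w + dev P y w' := by
  rw [dev, dev, dev, ← Finset.sum_add_distrib]
  refine Finset.sum_congr rfl fun i _ => ?_
  rw [Pi.add_apply, add_mul]

lemma dev_smul (P : MvPolynomial (Fin (n + 1)) ℂ) (y w : Fin (n + 1) → ℂ) (c : ℂ) :
    dev P y (c • w) = c * dev P y w := by
  rw [dev, dev, Finset.mul_sum]
  refine Finset.sum_congr rfl fun i _ => ?_
  rw [Pi.smul_apply, smul_eq_mul, mul_assoc]

lemma dev_sub (P : MvPolynomial (Fin (n + 1)) ℂ) (y w w' : Fin (n + 1) → ℂ) :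
    dev P y (w - w') = dev P y w - dev P y w' := by
  have h1 : w - w' = w + (-1 : ℂ) • w' := by
    rw [neg_one_smul]
    abel
  rw [h1, dev_add, dev_smul]
  ring

lemma dev_self {P : MvPolynomial (Fin (n + 1)) ℂ} {e : ℕ} (hP : P.IsHomogeneous e)
    (y : Fin (n + 1) → ℂ) : dev P y y = e * eval y P := by
  have h1 := congrArg (eval y) hP.sum_X_mul_pderiv
  rw [map_sum, map_nsmul, nsmul_eq_mul] at h1
  rw [dev, ← h1]
  refine Finset.sum_congr rfl fun i _ => ?_
  rw [map_mul, eval_X]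

lemma dev_scale {P : MvPolynomial (Fin (n + 1)) ℂ} {e : ℕ} (hP : P.IsHomogeneous (e + 1))
    (l : ℂ) (y w : Fin (n + 1) → ℂ) : dev P (l • y) (l • w) = l ^ (e + 1) * dev P y w := by
  rw [dev, dev, Finset.mul_sum]
  refine Finset.sum_congr rfl fun i _ => ?_
  have h1 : (pderiv i P).IsHomogeneous e := by
    have := hP.pderiv (i := i)
    rwa [Nat.add_sub_cancel] at this
  rw [eval_smul_of_homogeneous h1, Pi.smul_apply, smul_eq_mul]
  ring

lemma hol_eval (Q : MvPolynomial (Fin (n + 1)) ℂ) : Hol (n := n) fun y _ => eval y Q := by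
  induction Q using MvPolynomial.induction_on with
  | C r =>
    simp only [eval_C]
    exact hol_const _
  | add p q hp hq =>
    simp only [map_add]
    exact hp.add hq
  | mul_X p j hp =>
    simp only [map_mul, eval_X]
    exact hp.mul (hol_fst j)

lemma hol_dev (Q : MvPolynomial (Fin (n + 1)) ℂ) : Hol (n := n) fun y w => dev Q y w := by
  unfold dev
  exact Hol.sum _ fun i _ => (hol_snd i).mul (hol_eval _)

lemma continuous_eval (Q : MvPolynomial (Fin (n + 1)) ℂ) :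
    Continuous fun y : Fin (n + 1) → ℂ => eval y Q := MvPolynomial.continuous_eval Q

lemma hasDerivAt_eval {y : ℂ → Fin (n + 1) → ℂ} {z : ℂ} {y' : Fin (n + 1) → ℂ}
    (hy : HasDerivAt y y' z) (Q : MvPolynomial (Fin (n + 1)) ℂ) :
    HasDerivAt (fun z => eval (y z) Q) (dev Q (y z) y') z := by
  have hi := hasDerivAt_pi.mp hy
  induction Q using MvPolynomial.induction_on with
  | C r =>
    simp only [eval_C]
    have h1 : dev (C r) (y z) y' = 0 := by
      rw [dev]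
      apply Finset.sum_eq_zero
      intro i _
      rw [pderiv_C, map_zero, mul_zero]
    rw [h1]
    exact hasDerivAt_const _ _
  | add p q hp hq =>
    simp only [map_add]
    have h1 : dev (p + q) (y z) y' = dev p (y z) y' + dev q (y z) y' := by
      rw [dev, dev, dev, ← Finset.sum_add_distrib]
      refine Finset.sum_congr rfl fun i _ => ?_
      rw [map_add, map_add, mul_add]
    rw [h1]
    exact hp.add hq
  | mul_X p j hp =>
    simp only [map_mul, eval_X]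
    have h1 : dev (p * X j) (y z) y' = dev p (y z) y' * y z j + eval (y z) p * y' j := by
      rw [dev, dev, Finset.sum_mul]
      have h2 : ∀ i, y' i * eval (y z) (pderiv i (p * X j)) =
          y' i * eval (y z) (pderiv i p) * y z j + (if i = j then y' i * eval (y z) p else 0) := by
        intro i
        rw [Derivation.leibniz, smul_eq_mul, smul_eq_mul, map_add, map_mul, map_mul, eval_X]
        by_cases hij : i = j
        · subst hij
          rw [if_pos rfl, pderiv_X_self, map_one]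
          ring
        · rw [if_neg hij, pderiv_X_of_ne (Ne.symm hij), map_zero]
          ring
      rw [Finset.sum_congr rfl fun i _ => h2 i, Finset.sum_add_distrib, Finset.sum_ite_eq',
        if_pos (Finset.mem_univ _), mul_comm (eval (y z) p)]
    rw [h1]
    exact hp.mul (hi j)

lemma deriv_eval {y : ℂ → Fin (n + 1) → ℂ} {z : ℂ} (hy : AnalyticAt ℂ y z)
    (Q : MvPolynomial (Fin (n + 1)) ℂ) :
    deriv (fun z => eval (y z) Q) z = dev Q (y z) (deriv y z) :=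
  (hasDerivAt_eval hy.differentiableAt.hasDerivAt Q).deriv

/-- divisibility of the value at `x` by a form -/
def DvdH {t : ℕ} (N : MvPolynomial (Fin (n + 1) ⊕ Fin (t + 1)) ℂ)
    (P : MvPolynomial (Fin (n + 1)) ℂ) (x : Fin (t + 1) → ℂ) : Prop :=
  P ∣ aeval (Sum.elim X (fun i => C (x i)) : _ → MvPolynomial (Fin (n + 1)) ℂ) N

lemma DvdH.eval {t : ℕ} {N : MvPolynomial (Fin (n + 1) ⊕ Fin (t + 1)) ℂ}
    {P : MvPolynomial (Fin (n + 1)) ℂ} {x : Fin (t + 1) → ℂ} (h : DvdH N P x) :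
    ∃ u v : (Fin (n + 1) → ℂ) → (Fin (n + 1) → ℂ) → ℂ, Hol u ∧ Hol v ∧
      ∀ y w : Fin (n + 1) → ℂ, MvPolynomial.eval x (sp y N) = MvPolynomial.eval y P * u y w ∧
        MvPolynomial.eval x (sp1 y w N) = dev P y w * u y w + MvPolynomial.eval y P * v y w := by
  obtain ⟨U, hU⟩ := h
  refine ⟨fun y _ => MvPolynomial.eval y U, fun y w => dev U y w, hol_eval U, hol_dev U, ?_⟩
  intro y w
  -- evaluation at `y`
  have h1 : ∀ Q : MvPolynomial (Fin (n + 1) ⊕ Fin (t + 1)) ℂ,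
      MvPolynomial.eval y (aeval (Sum.elim X (fun i => C (x i)) :
        _ → MvPolynomial (Fin (n + 1)) ℂ) Q) = MvPolynomial.eval x (sp y Q) := by
    intro Q
    rw [eval_sp]
    induction Q using MvPolynomial.induction_on with
    | C a => rw [aeval_C, aeval_C]; simp
    | add p q hp hq => rw [map_add, map_add, hp, hq, map_add]
    | mul_X p j hp =>
      rw [map_mul, map_mul, hp, map_mul, aeval_X, aeval_X]
      congr 1
      rcases j with j | j
      · rw [Sum.elim_inl, eval_X, Sum.elim_inl]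
      · rw [Sum.elim_inr, eval_C, Sum.elim_inr]
  have hder : ∀ i, pderiv i (aeval (Sum.elim X (fun i => C (x i)) :
      _ → MvPolynomial (Fin (n + 1)) ℂ) N) =
      aeval (Sum.elim X (fun i => C (x i)) : _ → MvPolynomial (Fin (n + 1)) ℂ)
        (pderiv (Sum.inl i) N) := by
    intro i
    clear hU
    induction N using MvPolynomial.induction_on with
    | C a =>
      rw [aeval_C]
      have : algebraMap ℂ (MvPolynomial (Fin (n + 1)) ℂ) a = C a := rfl
      rw [this, pderiv_C, pderiv_C, map_zero]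
    | add p q hp hq => simp only [map_add, hp, hq]
    | mul_X p j hp =>
      rw [map_mul, Derivation.leibniz, Derivation.leibniz, hp, aeval_X, map_add, smul_eq_mul,
        smul_eq_mul, smul_eq_mul, smul_eq_mul, map_mul, map_mul, aeval_X]
      rcases j with j | j
      · rw [Sum.elim_inl, pderiv_X, pderiv_X]
        by_cases hij : i = j
        · subst hij
          simp
        · rw [Pi.single_eq_of_ne (Ne.symm hij), Pi.single_eq_of_ne (by simpa using Ne.symm hij)]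
          simp
      · rw [Sum.elim_inr, pderiv_C, pderiv_X, Pi.single_eq_of_ne (by simp)]
        simp
  constructor
  · rw [← h1, hU, map_mul]
  · rw [sp1, map_sum]
    have h2 : ∀ i, MvPolynomial.eval x (C (w i) * sp y (pderiv (Sum.inl i) N)) =
        w i * MvPolynomial.eval y (pderiv i P) * MvPolynomial.eval y U +
          MvPolynomial.eval y P * (w i * MvPolynomial.eval y (pderiv i U)) := by
      intro i
      rw [map_mul, eval_C, ← h1, ← hder, hU, Derivation.leibniz, smul_eq_mul, smul_eq_mul, map_add,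
        map_mul, map_mul]
      ring
    rw [Finset.sum_congr rfl fun i _ => h2 i, Finset.sum_add_distrib, ← Finset.sum_mul,
      ← Finset.mul_sum]
    rfl

end dev

end Pool.Agent.Lib.GGL
end

section

/-!
The growth argument for determinants of one-jets: forms of arbitrary degree.
-/

open Filter Topology Metric MvPolynomial

namespace Pool.Agent.Lib.GGL

lemma exists_khH {L L' : ℂ → ℂ} {z₁ : ℂ} (hL : ∀ᶠ z in 𝓝 z₁, deriv L z = L' z)
    {μ : ℕ} {g : ℂ → ℂ} (hg : AnalyticAt ℂ g z₁)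
    (h : ∀ᶠ z in 𝓝 z₁, L z = (z - z₁) ^ μ * g z) :
    ∃ a b : ℂ → ℂ, AnalyticAt ℂ a z₁ ∧ AnalyticAt ℂ b z₁ ∧
      (∀ᶠ z in 𝓝 z₁, L z = (z - z₁) ^ (μ - 1) * a z) ∧
      ∀ᶠ z in 𝓝 z₁, L' z = (z - z₁) ^ (μ - 1) * b z := by
  have hdl : ∀ᶠ z in 𝓝 z₁, L' z = deriv (fun z => (z - z₁) ^ μ * g z) z := by
    have h1 : L =ᶠ[𝓝 z₁] fun z => (z - z₁) ^ μ * g z := h
    filter_upwards [h1.deriv, hL] with z h2 h3
    rw [← h2, h3]
  have hgd : AnalyticAt ℂ (deriv g) z₁ := hg.deriv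
  have hsub : AnalyticAt ℂ (fun z => z - z₁) z₁ := analyticAt_id.sub analyticAt_const
  rcases Nat.eq_zero_or_pos μ with hμ | hμ
  · subst hμ
    refine ⟨g, deriv g, hg, hgd, ?_, ?_⟩
    · filter_upwards [h] with z hz
      rw [hz]
    · filter_upwards [hdl] with z hz
      rw [hz]
      simp
  · refine ⟨fun z => (z - z₁) * g z, fun z => μ * g z + (z - z₁) * deriv g z, hsub.mul hg,
      (analyticAt_const.mul hg).add (hsub.mul hgd), ?_, ?_⟩
    · filter_upwards [h] with z hz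
      rw [hz, ← mul_assoc, ← pow_succ]
      congr 2
      omega
    · filter_upwards [hdl, hg.eventually_analyticAt] with z h2 h3
      have h4 : HasDerivAt (fun z => (z - z₁) ^ μ * g z)
          (μ * (z - z₁) ^ (μ - 1) * g z + (z - z₁) ^ μ * deriv g z) z := by
        have h5 : HasDerivAt (fun z => (z - z₁) ^ μ) (μ * (z - z₁) ^ (μ - 1)) z := by
          have h7 := ((hasDerivAt_id z).sub_const z₁).pow μ
          have h8 : (μ * (z - z₁) ^ (μ - 1) : ℂ) = μ * (id z - z₁) ^ (μ - 1) * 1 := by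
            rw [mul_one, id]
          rw [h8]
          exact h7
        exact h5.mul h3.differentiableAt.hasDerivAt
      rw [h4.deriv] at h2
      have h6 : (z - z₁) ^ μ = (z - z₁) ^ (μ - 1) * (z - z₁) := by
        rw [← pow_succ]
        congr 1
        omega
      rw [h2, h6]
      ring

/-- On pairs in `T` the function `G` is, for each `B` in `𝓑`, a determinant whose columns are
divisible by the forms in `B`. -/
def FacH {n : ℕ} {H : Type*} [DecidableEq H] (P : H → MvPolynomial (Fin (n + 1)) ℂ)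
    (T : (Fin (n + 1) → ℂ) → (Fin (n + 1) → ℂ) → Prop) (𝓑 : Finset (Finset H))
    (G : (Fin (n + 1) → ℂ) → (Fin (n + 1) → ℂ) → ℂ) : Prop :=
  ∀ B ∈ 𝓑, ∃ α β : B → B → (Fin (n + 1) → ℂ) → (Fin (n + 1) → ℂ) → ℂ,
    (∀ i j, Hol (α i j)) ∧ (∀ i j, Hol (β i j)) ∧
    ∀ y w, T y w → G y w = Matrix.det
      (Matrix.of fun i j : B => eval y (P j) * α i j y w + dev (P j) y w * β i j y w)

section

variable {n : ℕ} {H : Type*} [Fintype H] [DecidableEq H] (P : H → MvPolynomial (Fin (n + 1)) ℂ)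

/-- Local structure along a curve. -/
theorem local_structureH {m : ℕ} (hm : 0 < m)
    {T : (Fin (n + 1) → ℂ) → (Fin (n + 1) → ℂ) → Prop} (𝓑 : Finset (Finset H))
    (G : (Fin (n + 1) → ℂ) → (Fin (n + 1) → ℂ) → ℂ) (hG : FacH P T 𝓑 G)
    {z₁ : ℂ} {y : ℂ → Fin (n + 1) → ℂ} (hy : AnalyticAt ℂ y z₁)
    (hcov : ∃ B ∈ 𝓑, ∀ j, eval (y z₁) (P j) = 0 → j ∈ B)
    (hT : ∀ᶠ z in 𝓝 z₁, T (y z) (deriv y z))
    (htop : ∀ j, analyticOrderAt (fun z => eval (y z) (P j)) z₁ ≠ ⊤)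
    (hord : ∀ j, analyticOrderAt (fun z => eval (y z) (P j)) z₁ = 0 ∨
      (m : ℕ∞) ≤ analyticOrderAt (fun z => eval (y z) (P j)) z₁) :
    ∃ σ : ℂ → ℂ, AnalyticAt ℂ σ z₁ ∧
      (∀ᶠ z in 𝓝 z₁, G (y z) (deriv y z) ^ m = σ z * (∏ j, eval (y z) (P j)) ^ (m - 1)) ∧
      (σ z₁ ≠ 0 → ∃ x : ℂ → EuclideanSpace ℂ H, AnalyticAt ℂ x z₁ ∧
        ∀ᶠ z in 𝓝 z₁, ∀ j, eval (y z) (P j) = x z j ^ m ∧
          dev (P j) (y z) (deriv y z) = m * x z j ^ (m - 1) * deriv x z j) := by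
  have hl : ∀ j, AnalyticAt ℂ (fun z => eval (y z) (P j)) z₁ := fun j => analyticAt_eval hy _
  have h1 : ∀ j, ∃ (μ : ℕ) (g : ℂ → ℂ), AnalyticAt ℂ g z₁ ∧ g z₁ ≠ 0 ∧
      (∀ᶠ z in 𝓝 z₁, eval (y z) (P j) = (z - z₁) ^ μ * g z) ∧ (μ = 0 ∨ m ≤ μ) := by
    intro j
    obtain ⟨g, hg1, hg2, hg3⟩ := (hl j).analyticOrderAt_ne_top.mp (htop j)
    refine ⟨analyticOrderNatAt (fun z => eval (y z) (P j)) z₁, g, hg1, hg2, ?_, ?_⟩
    · filter_upwards [hg3] with z hz
      rw [hz, smul_eq_mul]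
    · have h2 := Nat.cast_analyticOrderNatAt (htop j)
      rcases hord j with h | h
      · left
        rw [h] at h2
        exact_mod_cast h2
      · right
        rw [← h2] at h
        exact_mod_cast h
  choose μ g hg hg0 hlg hμ using h1
  have hdl : ∀ j, ∀ᶠ z in 𝓝 z₁, deriv (fun z => eval (y z) (P j)) z =
      dev (P j) (y z) (deriv y z) := by
    intro j
    filter_upwards [hy.eventually_analyticAt] with z hz
    exact deriv_eval hz _
  choose a b ha hb hay hby using fun j => exists_khH (hdl j) (hg j) (hlg j)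
  obtain ⟨B, hB, hBz⟩ := hcov
  obtain ⟨α, β, hα, hβ, hGB⟩ := hG B hB
  have hμB : ∀ j, j ∉ B → μ j = 0 := by
    intro j hj
    by_contra hne
    apply hj
    apply hBz
    rw [(hlg j).self_of_nhds, sub_self, zero_pow hne, zero_mul]
  have hsub : AnalyticAt ℂ (fun z => z - z₁) z₁ := analyticAt_id.sub analyticAt_const
  obtain ⟨Gt, hGt⟩ : ∃ Gt : ℂ → ℂ, Gt = fun z => Matrix.det (Matrix.of fun i j : B =>
    a j z * α i j (y z) (deriv y z) + b j z * β i j (y z) (deriv y z)) := ⟨_, rfl⟩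
  have hGtan : AnalyticAt ℂ Gt z₁ := by
    rw [hGt]
    apply analyticAt_det
    intro i j
    simp only [Matrix.of_apply]
    exact ((ha j).mul ((hα i j).comp hy hy.deriv)).add ((hb j).mul ((hβ i j).comp hy hy.deriv))
  have hgprod : AnalyticAt ℂ (fun z => ∏ j, g j z) z₁ := by
    apply Finset.analyticAt_fun_prod
    intro j _
    exact hg j
  have hgprod0 : (∏ j, g j z₁) ≠ 0 := Finset.prod_ne_zero_iff.mpr fun j _ => hg0 j
  refine ⟨fun z => (z - z₁) ^ (∑ j, (μ j - m)) * Gt z ^ m / (∏ j, g j z) ^ (m - 1), ?_, ?_, ?_⟩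
  · exact ((hsub.pow _).mul (hGtan.pow _)).div (hgprod.pow _) (pow_ne_zero _ hgprod0)
  · have hall1 : ∀ᶠ z in 𝓝 z₁, ∀ j, eval (y z) (P j) = (z - z₁) ^ μ j * g j z := by
      rw [Filter.eventually_all]; exact hlg
    have hall2 : ∀ᶠ z in 𝓝 z₁, ∀ j, eval (y z) (P j) = (z - z₁) ^ (μ j - 1) * a j z := by
      rw [Filter.eventually_all]; exact hay
    have hall2' : ∀ᶠ z in 𝓝 z₁, ∀ j, dev (P j) (y z) (deriv y z) =
        (z - z₁) ^ (μ j - 1) * b j z := by
      rw [Filter.eventually_all]; exact hby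
    have hall3 : ∀ᶠ z in 𝓝 z₁, (∏ j, g j z) ≠ 0 := hgprod.continuousAt.eventually_ne hgprod0
    filter_upwards [hall1, hall2, hall2', hall3, hT] with z g1 g2 g2' g3 g4
    have e1 : G (y z) (deriv y z) = (z - z₁) ^ (∑ j, (μ j - 1)) * Gt z := by
      rw [hGB _ _ g4, hGt]
      have e2 : (Matrix.of fun i j : B => eval (y z) (P j) * α i j (y z) (deriv y z) +
          dev (P j) (y z) (deriv y z) * β i j (y z) (deriv y z)) =
          Matrix.of fun i j : B => (z - z₁) ^ (μ j - 1) *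
            (Matrix.of fun i j : B =>
              a j z * α i j (y z) (deriv y z) + b j z * β i j (y z) (deriv y z)) i j := by
        ext i j
        simp only [Matrix.of_apply]
        rw [g2, g2']
        ring
      rw [e2, Matrix.det_mul_row]
      congr 1
      rw [Finset.prod_pow_eq_pow_sum]
      congr 1
      rw [Finset.sum_coe_sort B (fun j => μ j - 1)]
      apply Finset.sum_subset (Finset.subset_univ _)
      intro j _ hj
      rw [hμB j hj, Nat.zero_sub]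
    rw [e1]
    have e3 : (∏ j, eval (y z) (P j)) = (z - z₁) ^ (∑ j, μ j) * ∏ j, g j z := by
      rw [← Finset.prod_pow_eq_pow_sum, ← Finset.prod_mul_distrib]
      exact Finset.prod_congr rfl fun j _ => g1 j
    rw [e3, mul_pow, mul_pow, ← pow_mul, ← pow_mul]
    have e4 : (∑ j, (μ j - 1)) * m = (∑ j, (μ j - m)) + (∑ j, μ j) * (m - 1) := by
      rw [Finset.sum_mul, Finset.sum_mul, ← Finset.sum_add_distrib]
      refine Finset.sum_congr rfl fun j _ => ?_
      rcases hμ j with h | h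
      · rw [h]; simp
      · obtain ⟨t, ht⟩ := Nat.exists_eq_add_of_le h
        obtain ⟨m', rfl⟩ : ∃ m', m = m' + 1 := ⟨m - 1, by omega⟩
        rw [ht]
        have h5 : m' + 1 + t - 1 = m' + t := by omega
        have h6 : m' + 1 + t - (m' + 1) = t := by omega
        rw [h5, h6, Nat.add_sub_cancel]
        ring
    rw [e4, pow_add]
    field_simp
  · intro hσ
    have e0 : ∑ j, (μ j - m) = 0 := by
      by_contra hne
      apply hσ
      beta_reduce
      rw [sub_self, zero_pow hne, zero_mul, zero_div]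
    have e1 : ∀ j, μ j = μ j / m * m := by
      intro j
      have h2 : μ j - m = 0 := by
        have := (Finset.sum_eq_zero_iff.mp e0) j (Finset.mem_univ _)
        exact this
      rcases hμ j with h | h
      · rw [h]; simp
      · have h3 : μ j = m := by omega
        rw [h3, Nat.div_self hm, one_mul]
    choose r hr hrg using fun j => exists_root (hg j) (hg0 j) hm
    obtain ⟨x, hx⟩ : ∃ x : ℂ → EuclideanSpace ℂ H, x = fun z =>
      WithLp.toLp 2 (fun j => (z - z₁) ^ (μ j / m) * r j z) := ⟨_, rfl⟩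
    have hxan : AnalyticAt ℂ x z₁ := by
      have h1 : AnalyticAt ℂ (fun z => fun j => (z - z₁) ^ (μ j / m) * r j z) z₁ := by
        rw [analyticAt_pi_iff]
        intro j
        exact (hsub.pow _).mul (hr j)
      have h2 : x = (EuclideanSpace.equiv H ℂ).symm ∘
        (fun z => fun j => (z - z₁) ^ (μ j / m) * r j z) := by
        rw [hx]; rfl
      rw [h2]
      exact (((EuclideanSpace.equiv H ℂ).symm : (H → ℂ) →L[ℂ] EuclideanSpace ℂ H).analyticAt
        _).comp h1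
    have hxj : ∀ z j, x z j = (z - z₁) ^ (μ j / m) * r j z := by
      intro z j
      rw [hx]
    have hpow : ∀ j, ∀ᶠ z in 𝓝 z₁, eval (y z) (P j) = x z j ^ m := by
      intro j
      filter_upwards [hlg j, hrg j] with z g1 g2
      rw [g1, hxj, mul_pow, g2, ← pow_mul, ← e1]
    refine ⟨x, hxan, ?_⟩
    rw [Filter.eventually_all]
    intro j
    have h5 : (fun z => eval (y z) (P j)) =ᶠ[𝓝 z₁] fun z => x z j ^ m := hpow j
    filter_upwards [hpow j, h5.deriv, hxan.eventually_analyticAt, hdl j]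
      with z g1 g2 g3 g4
    refine ⟨g1, ?_⟩
    rw [← g4, g2]
    have h6 : HasDerivAt x (deriv x z) z := g3.differentiableAt.hasDerivAt
    have h7 : HasDerivAt (fun z => x z j) (deriv x z j) z := by
      have := (EuclideanSpace.proj (𝕜 := ℂ) j).hasFDerivAt.comp_hasDerivAt z h6
      exact this
    exact (h7.pow m).deriv

/-- a lower bound on a closed cone -/
lemma lower_boundH {m : ℕ} (hm : 0 < m) (t : ℕ) (𝓑 : Finset (Finset H))
    {Z : Set (Fin (n + 1) → ℂ)} (hZ : IsClosed Z)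
    (hcov : ∀ y ∈ Z, y ≠ 0 → ∃ B ∈ 𝓑, ∀ j, eval y (P j) = 0 → j ∈ B) :
    ∃ c : ℝ, 0 < c ∧ ∀ (x : EuclideanSpace ℂ H) (y : Fin (n + 1) → ℂ), ‖y‖ = 1 → y ∈ Z →
      (∀ j, eval y (P j) = x j ^ m) → c ≤ ∑ B ∈ 𝓑, ∏ j ∈ Bᶜ, ‖x j‖ ^ t := by
  obtain ⟨F, hF⟩ : ∃ F : (Fin (n + 1) → ℂ) → ℝ, F = fun y =>
    ∑ B ∈ 𝓑, ∏ j ∈ Bᶜ, (‖eval y (P j)‖ ^ ((m : ℝ)⁻¹)) ^ t := ⟨_, rfl⟩
  have hFc : Continuous F := by
    rw [hF]
    apply continuous_finsetSum
    intro B _
    apply continuous_finsetProd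
    intro j _
    exact ((continuous_eval (P j)).norm.rpow_const (fun _ => Or.inr (by positivity))).pow _
  have hxF : ∀ (x : EuclideanSpace ℂ H) (y : Fin (n + 1) → ℂ), (∀ j, eval y (P j) = x j ^ m) →
      F y = ∑ B ∈ 𝓑, ∏ j ∈ Bᶜ, ‖x j‖ ^ t := by
    intro x y hxy
    rw [hF]
    beta_reduce
    refine Finset.sum_congr rfl fun B _ => Finset.prod_congr rfl fun j _ => ?_
    rw [hxy, norm_pow, Real.pow_rpow_inv_natCast (norm_nonneg _) hm.ne']
  have hpos : ∀ y ∈ sphere (0 : Fin (n + 1) → ℂ) 1 ∩ Z, 0 < F y := by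
    rintro y ⟨hy1, hyZ⟩
    have hy0 : y ≠ 0 := by
      rintro rfl
      rw [mem_sphere_zero_iff_norm, norm_zero] at hy1
      exact zero_ne_one hy1
    obtain ⟨B, hB, hB2⟩ := hcov y hyZ hy0
    rw [hF]
    apply Finset.sum_pos'
    · intro B _
      exact Finset.prod_nonneg fun j _ => by positivity
    · refine ⟨B, hB, ?_⟩
      apply Finset.prod_pos
      intro j hj
      have : eval y (P j) ≠ 0 := by
        intro h
        rw [Finset.mem_compl] at hj
        exact hj (hB2 j h)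
      have h1 : 0 < ‖eval y (P j)‖ := norm_pos_iff.mpr this
      positivity
  have hK : IsCompact (sphere (0 : Fin (n + 1) → ℂ) 1 ∩ Z) := (isCompact_sphere _ _).inter_right hZ
  rcases (sphere (0 : Fin (n + 1) → ℂ) 1 ∩ Z).eq_empty_or_nonempty with hne | hne
  · refine ⟨1, one_pos, ?_⟩
    intro x y hy hyZ _
    have : y ∈ sphere (0 : Fin (n + 1) → ℂ) 1 ∩ Z := ⟨by rwa [mem_sphere_zero_iff_norm], hyZ⟩
    rw [hne] at this
    exact absurd this (Set.notMem_empty _)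
  · obtain ⟨y₀, hy₀, hmin⟩ := hK.exists_isMinOn hne hFc.continuousOn
    refine ⟨F y₀, hpos y₀ hy₀, ?_⟩
    intro x y hy hyZ hxy
    rw [← hxF x y hxy]
    exact hmin ⟨by rwa [mem_sphere_zero_iff_norm], hyZ⟩

omit [DecidableEq H] in
/-- one of the coordinates is large -/
lemma max_boundH {m : ℕ} (hm : 0 < m)
    (hsep : ∀ y : Fin (n + 1) → ℂ, (∀ j, eval y (P j) = 0) → y = 0) :
    ∃ c : ℝ, 0 < c ∧ ∀ (x : EuclideanSpace ℂ H) (y : Fin (n + 1) → ℂ), ‖y‖ = 1 →
      (∀ j, eval y (P j) = x j ^ m) → ∃ j, c ≤ ‖x j‖ := by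
  classical
  obtain ⟨F, hF⟩ : ∃ F : (Fin (n + 1) → ℂ) → ℝ, F = fun y => ∑ j, ‖eval y (P j)‖ := ⟨_, rfl⟩
  have hFc : Continuous F := by
    rw [hF]
    apply continuous_finsetSum
    intro j _
    exact (continuous_eval (P j)).norm
  have hKne : (sphere (0 : Fin (n + 1) → ℂ) 1).Nonempty := by
    refine ⟨fun _ => 1, ?_⟩
    rw [mem_sphere_zero_iff_norm, pi_norm_const, norm_one]
  obtain ⟨y₀, hy₀, hmin⟩ := (isCompact_sphere (0 : Fin (n + 1) → ℂ) 1).exists_isMinOn hKne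
    hFc.continuousOn
  have hF0 : 0 < F y₀ := by
    have h0 : 0 ≤ F y₀ := by
      rw [hF]
      exact Finset.sum_nonneg fun j _ => norm_nonneg _
    rcases h0.lt_or_eq with h | h
    · exact h
    · exfalso
      rw [hF] at h
      have h2 := (Finset.sum_eq_zero_iff_of_nonneg fun j _ => norm_nonneg _).mp h.symm
      have h3 := hsep y₀ fun j => norm_eq_zero.mp (h2 j (Finset.mem_univ _))
      rw [h3, mem_sphere_zero_iff_norm, norm_zero] at hy₀
      exact zero_ne_one hy₀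
  obtain ⟨h, hh⟩ : ∃ h : ℝ, h = Fintype.card H := ⟨_, rfl⟩
  have hh0 : 0 < h := by
    rw [hh]
    have : Nonempty H := by
      by_contra hcon
      rw [not_nonempty_iff] at hcon
      rw [hF] at hF0
      simp at hF0
    exact_mod_cast Fintype.card_pos
  refine ⟨min 1 (F y₀ / h), by positivity, ?_⟩
  intro x y hy hxy
  by_contra hcon
  push Not at hcon
  have h1 : ∀ j, ‖eval y (P j)‖ < F y₀ / h := by
    intro j
    rw [hxy, norm_pow]
    have h2 := hcon j
    have h3 : ‖x j‖ < 1 := h2.trans_le (min_le_left _ _)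
    calc ‖x j‖ ^ m ≤ ‖x j‖ ^ 1 := pow_le_pow_of_le_one (norm_nonneg _) h3.le hm
      _ = ‖x j‖ := pow_one _
      _ < F y₀ / h := h2.trans_le (min_le_right _ _)
  have h2 : F y ≤ F y₀ := by
    rw [hF]
    beta_reduce
    have h4 : ∑ j, ‖eval y (P j)‖ ≤ ∑ _j : H, F y₀ / h := Finset.sum_le_sum fun j _ => (h1 j).le
    rw [Finset.sum_const, Finset.card_univ, nsmul_eq_mul, ← hh, mul_div_cancel₀ _ hh0.ne', hF] at h4
    exact h4
  have h3 : F y₀ ≤ F y := hmin (by rwa [mem_sphere_zero_iff_norm])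
  have h4 : F y < F y₀ := by
    have hne : (Finset.univ : Finset H).Nonempty := by
      rw [Finset.univ_nonempty_iff]
      by_contra hc
      rw [not_nonempty_iff] at hc
      rw [hh] at hh0
      simp at hh0
    have h5 : ∑ j, ‖eval y (P j)‖ < ∑ _j : H, F y₀ / h :=
      Finset.sum_lt_sum_of_nonempty hne fun j _ => h1 j
    rw [Finset.sum_const, Finset.card_univ, nsmul_eq_mul, ← hh, mul_div_cancel₀ _ hh0.ne'] at h5
    have h6 : F y = ∑ j, ‖eval y (P j)‖ := by rw [hF]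
    rw [h6]
    exact h5
  linarith

omit [DecidableEq H] in
/-- the coordinates are bounded -/
lemma up_boundH {m : ℕ} (hm : 0 < m) :
    ∃ K : ℝ, 1 ≤ K ∧ (∀ (x : EuclideanSpace ℂ H) (y : Fin (n + 1) → ℂ), ‖y‖ = 1 →
      (∀ j, eval y (P j) = x j ^ m) → ‖x‖ ≤ K) ∧
      ∀ (y w : Fin (n + 1) → ℂ) (j : H), ‖y‖ = 1 → ‖dev (P j) y w‖ ≤ K * ‖w‖ := by
  classical
  have h1 : ∀ j, ∃ M : ℝ, 1 ≤ M ∧ ∀ y : Fin (n + 1) → ℂ, ‖y‖ = 1 → ‖eval y (P j)‖ ≤ M := by
    intro j
    obtain ⟨C, hC⟩ := ((isCompact_sphere (0 : Fin (n + 1) → ℂ) 1).image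
      (continuous_eval (P j)).norm).bddAbove
    refine ⟨max 1 C, le_max_left _ _, ?_⟩
    intro y hy
    exact (hC ⟨y, by rwa [mem_sphere_zero_iff_norm], rfl⟩).trans (le_max_right _ _)
  choose M hM1 hM using h1
  have h2 : ∀ j, ∃ M' : ℝ, 0 ≤ M' ∧ ∀ y : Fin (n + 1) → ℂ, ‖y‖ = 1 →
      ∑ i, ‖eval y (pderiv i (P j))‖ ≤ M' := by
    intro j
    have hc : Continuous fun y : Fin (n + 1) → ℂ => ∑ i, ‖eval y (pderiv i (P j))‖ := by
      apply continuous_finsetSum
      intro i _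
      exact (continuous_eval _).norm
    obtain ⟨C, hC⟩ := ((isCompact_sphere (0 : Fin (n + 1) → ℂ) 1).image hc).bddAbove
    refine ⟨max 0 C, le_max_left _ _, ?_⟩
    intro y hy
    exact (hC ⟨y, by rwa [mem_sphere_zero_iff_norm], rfl⟩).trans (le_max_right _ _)
  choose M' hM'0 hM' using h2
  refine ⟨1 + ∑ j, M j + ∑ j, M' j, ?_, ?_, ?_⟩
  · have e1 : 0 ≤ ∑ j, M j := Finset.sum_nonneg fun j _ => (zero_le_one.trans (hM1 j))
    have e2 : 0 ≤ ∑ j, M' j := Finset.sum_nonneg fun j _ => hM'0 j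
    linarith
  · intro x y hy hxy
    have h3 : ∀ j, ‖x j‖ ≤ M j := by
      intro j
      by_cases h4 : ‖x j‖ ≤ 1
      · exact h4.trans (hM1 j)
      · push Not at h4
        calc ‖x j‖ = ‖x j‖ ^ 1 := (pow_one _).symm
          _ ≤ ‖x j‖ ^ m := pow_le_pow_right₀ h4.le hm
          _ = ‖eval y (P j)‖ := by rw [hxy, norm_pow]
          _ ≤ M j := hM j y hy
    have h4 : ‖x‖ ≤ ∑ j, ‖x j‖ := by
      have h5 : ‖x‖ ^ 2 ≤ (∑ j, ‖x j‖) ^ 2 := by
        rw [EuclideanSpace.norm_sq_eq, sq (∑ j, ‖x j‖), Finset.sum_mul]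
        apply Finset.sum_le_sum
        intro j _
        rw [sq]
        exact mul_le_mul_of_nonneg_left (Finset.single_le_sum (f := fun j => ‖x j‖)
          (fun j _ => norm_nonneg _) (Finset.mem_univ j)) (norm_nonneg _)
      exact le_of_sq_le_sq h5 (Finset.sum_nonneg fun j _ => norm_nonneg _)
    have e2 : 0 ≤ ∑ j, M' j := Finset.sum_nonneg fun j _ => hM'0 j
    have e3 : ∑ j, ‖x j‖ ≤ ∑ j, M j := Finset.sum_le_sum fun j _ => h3 j
    linarith
  · intro y w j hy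
    have h3 : ‖dev (P j) y w‖ ≤ M' j * ‖w‖ := by
      rw [dev]
      refine (norm_sum_le _ _).trans ?_
      calc ∑ i, ‖w i * eval y (pderiv i (P j))‖
          ≤ ∑ i, ‖w‖ * ‖eval y (pderiv i (P j))‖ := by
            apply Finset.sum_le_sum
            intro i _
            rw [norm_mul]
            exact mul_le_mul_of_nonneg_right (norm_le_pi_norm _ i) (norm_nonneg _)
        _ = ‖w‖ * ∑ i, ‖eval y (pderiv i (P j))‖ := by rw [Finset.mul_sum]
        _ ≤ ‖w‖ * M' j := by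
            exact mul_le_mul_of_nonneg_left (hM' j y hy) (norm_nonneg _)
        _ = M' j * ‖w‖ := mul_comm _ _
    refine h3.trans ?_
    have e1 : 0 ≤ ∑ j, M j := Finset.sum_nonneg fun j _ => (zero_le_one.trans (hM1 j))
    have e2 : M' j ≤ ∑ j, M' j := Finset.single_le_sum (f := M') (fun j _ => hM'0 j)
      (Finset.mem_univ j)
    gcongr
    linarith

/-- The estimate on the unit sphere. -/
lemma pointwise_unitH {ed : ℕ} (hP : ∀ j, (P j).IsHomogeneous ed)
    (hsep : ∀ y : Fin (n + 1) → ℂ, (∀ j, eval y (P j) = 0) → y = 0)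
    {m e : ℕ} (hm : 0 < m) (he : 0 < e) (𝓑 : Finset (Finset H))
    {Z : Set (Fin (n + 1) → ℂ)} (hZ : IsClosed Z)
    {T : (Fin (n + 1) → ℂ) → (Fin (n + 1) → ℂ) → Prop} (hTZ : ∀ y w, T y w → y ∈ Z)
    (hT : ∀ y w (l μ c : ℂ), l ≠ 0 → T y w → T (l • y) (c • (l • w + μ • y)))
    (hcov : ∀ y ∈ Z, y ≠ 0 → ∃ B ∈ 𝓑, ∀ j, eval y (P j) = 0 → j ∈ B)
    (G : (Fin (n + 1) → ℂ) → (Fin (n + 1) → ℂ) → ℂ) (hG : FacH P T 𝓑 G)
    (hJ1 : ∀ y w (μ : ℂ), G y (w + μ • y) = G y w)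
    (hJ2 : ∀ y w (c : ℂ), G y (c • w) = c ^ e * G y w) :
    ∃ C : ℝ, 0 ≤ C ∧ ∀ (x x' : EuclideanSpace ℂ H) (y w : Fin (n + 1) → ℂ) (β β' : ℂ) (τ : ℝ),
      ‖y‖ = 1 → T y w → (∀ j, eval y (P j) = x j ^ m) →
      (∀ j, dev (P j) y w = m * x j ^ (m - 1) * x' j) → 0 ≤ τ → ‖x' - β • x‖ ≤ τ * ‖x‖ →
      ‖w - β' • y‖ ≤ τ → ‖G y w‖ ≤ C * (∏ j, ‖x j‖ ^ (m - 1)) * τ ^ e := by
  obtain ⟨c, hc, hlow⟩ := lower_boundH P hm (m - 1) 𝓑 hZ hcov
  obtain ⟨c₁, hc₁, hmax⟩ := max_boundH P hm hsep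
  obtain ⟨K, hK1, hKx, hKd⟩ := up_boundH P hm
  have hK0 : 0 < K := by linarith
  -- bound for `v`
  obtain ⟨K₂, hK₂⟩ : ∃ K₂ : ℝ, K₂ = K + (K / (m * c₁ ^ (m - 1)) + K) / c₁ * K := ⟨_, rfl⟩
  have hm0 : (0 : ℝ) < m := by exact_mod_cast hm
  have hK₂0 : 0 < K₂ := by rw [hK₂]; positivity
  have hup : ∀ B ∈ 𝓑, ∃ C : ℝ, 0 ≤ C ∧ ∀ (x v : EuclideanSpace ℂ H) (y w : Fin (n + 1) → ℂ),
      ‖y‖ = 1 → ‖w‖ ≤ 1 → ‖v‖ ≤ K₂ → T y w → (∀ j, eval y (P j) = x j ^ m) →
      (∀ j, dev (P j) y w = m * x j ^ (m - 1) * v j) →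
      ‖G y w‖ ≤ C * ∏ j ∈ B, ‖x j‖ ^ (m - 1) := by
    intro B hB
    obtain ⟨α, β, hα, hβ, hGB⟩ := hG B hB
    choose Cα hCα0 hCα using fun i j => (hα i j).bound 1
    choose Cβ hCβ0 hCβ using fun i j => (hβ i j).bound 1
    obtain ⟨D, hD⟩ : ∃ D : ℝ, D = ∑ i, ∑ j, (K * Cα i j + m * (K₂ * Cβ i j)) := ⟨_, rfl⟩
    have hnn : ∀ i j, 0 ≤ K * Cα i j + m * (K₂ * Cβ i j) := fun i j =>
      add_nonneg (mul_nonneg hK0.le (hCα0 i j))
        (mul_nonneg hm0.le (mul_nonneg hK₂0.le (hCβ0 i j)))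
    have hD0 : 0 ≤ D := by
      rw [hD]
      exact Finset.sum_nonneg fun i _ => Finset.sum_nonneg fun j _ => hnn i j
    have hCD : ∀ i j, K * Cα i j + m * (K₂ * Cβ i j) ≤ D := by
      intro i j
      rw [hD]
      calc K * Cα i j + m * (K₂ * Cβ i j) ≤ ∑ j, (K * Cα i j + m * (K₂ * Cβ i j)) :=
            Finset.single_le_sum (f := fun j => K * Cα i j + m * (K₂ * Cβ i j))
              (fun j _ => hnn i j) (Finset.mem_univ j)
        _ ≤ ∑ i, ∑ j, (K * Cα i j + m * (K₂ * Cβ i j)) := Finset.single_le_sum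
            (f := fun i => ∑ j, (K * Cα i j + m * (K₂ * Cβ i j)))
            (fun i _ => Finset.sum_nonneg fun j _ => hnn i j) (Finset.mem_univ i)
    refine ⟨(B.card.factorial : ℝ) * D ^ B.card, by positivity, ?_⟩
    intro x v y w hy hw hv hTyw hxy hxw
    have hxj : ∀ j, ‖x j‖ ≤ K := fun j => (PiLp.norm_apply_le x j).trans (hKx x y hy hxy)
    have hvj : ∀ j, ‖v j‖ ≤ K₂ := fun j => (PiLp.norm_apply_le v j).trans hv
    have h1 : ∀ i j : B, ‖(Matrix.of fun i j : B =>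
        eval y (P j) * α i j y w + dev (P j) y w * β i j y w) i j‖ ≤ D * ‖x j‖ ^ (m - 1) := by
      intro i j
      rw [Matrix.of_apply]
      have e1 : x j ^ m = x j ^ (m - 1) * x j := by
        rw [← pow_succ]
        congr 1
        omega
      have e2 : eval y (P j) * α i j y w + dev (P j) y w * β i j y w =
          x j ^ (m - 1) * (x j * α i j y w + m * (v j * β i j y w)) := by
        rw [hxy, hxw, e1]
        ring
      rw [e2, norm_mul, norm_pow, mul_comm D]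
      have e3 : ‖x j * α i j y w + m * (v j * β i j y w)‖ ≤ K * Cα i j + m * (K₂ * Cβ i j) := by
        refine (norm_add_le _ _).trans ?_
        rw [norm_mul, norm_mul, norm_mul, Complex.norm_natCast]
        have e4 := hCα i j y w hy.le hw
        have e5 := hCβ i j y w hy.le hw
        gcongr
        · exact hxj j
        · exact hvj j
      exact mul_le_mul_of_nonneg_left (e3.trans (hCD i j)) (by positivity)
    rw [hGB y w hTyw]
    refine (det_bound _ (fun j => D * ‖x j‖ ^ (m - 1)) h1).trans (le_of_eq ?_)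
    rw [Finset.prod_mul_distrib, Finset.prod_const]
    ring
  choose! C hC0 hC using hup
  have hCs : 0 ≤ ∑ Z ∈ 𝓑, C Z := Finset.sum_nonneg hC0
  refine ⟨(∑ Z ∈ 𝓑, C Z) / c, by positivity, ?_⟩
  intro x x' y w β β' τ hy hTyw hxy hxw hτ hx' hw
  -- shift
  obtain ⟨w₁, hw₁⟩ : ∃ w₁, w₁ = w - β' • y := ⟨_, rfl⟩
  obtain ⟨v, hv⟩ : ∃ v, v = x' - (ed * β' / m) • x := ⟨_, rfl⟩
  rw [← hw₁] at hw
  have hmc : (m : ℂ) ≠ 0 := by exact_mod_cast hm.ne'
  have hw₁' : w₁ = w + (-β') • y := by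
    rw [hw₁, neg_smul, sub_eq_add_neg]
  have hTw₁ : T y w₁ := by
    have h1 := hT y w 1 (-β') 1 one_ne_zero hTyw
    rwa [one_smul, one_smul, one_smul, ← hw₁'] at h1
  have hGw : G y w₁ = G y w := by rw [hw₁', hJ1]
  have hdw₁ : ∀ j, dev (P j) y w₁ = m * x j ^ (m - 1) * v j := by
    intro j
    have h1 : x j ^ m = x j ^ (m - 1) * x j := by
      rw [← pow_succ]
      congr 1
      omega
    rw [hw₁, dev_sub, dev_smul, dev_self (hP j), hxw, hxy, hv, h1]
    simp only [PiLp.sub_apply, PiLp.smul_apply, smul_eq_mul]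
    field_simp
  have hxK := hKx x y hy hxy
  have hxpos : 0 < ‖x‖ := by
    obtain ⟨j, hj⟩ := hmax x y hy hxy
    exact (hc₁.trans_le hj).trans_le (PiLp.norm_apply_le x j)
  have hvb : ‖v‖ ≤ K₂ * τ := by
    obtain ⟨j, hj⟩ := hmax x y hy hxy
    have hxj : 0 < ‖x j‖ := hc₁.trans_le hj
    obtain ⟨ν, hν⟩ : ∃ ν : ℂ, ν = β - ed * β' / m := ⟨_, rfl⟩
    have e1 : v = (x' - β • x) + ν • x := by
      rw [hv, hν, sub_smul]
      abel
    have e2 : ‖v j‖ ≤ K / (m * c₁ ^ (m - 1)) * τ := by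
      have e3 := hKd y w₁ j hy
      rw [hdw₁, norm_mul, norm_mul, norm_pow, Complex.norm_natCast] at e3
      have e4 : (m * c₁ ^ (m - 1)) * ‖v j‖ ≤ K * τ := by
        calc (m * c₁ ^ (m - 1)) * ‖v j‖ ≤ (m * ‖x j‖ ^ (m - 1)) * ‖v j‖ := by gcongr
          _ ≤ K * ‖w₁‖ := e3
          _ ≤ K * τ := by gcongr
      have e5 : 0 < m * c₁ ^ (m - 1) := by positivity
      rw [div_mul_eq_mul_div, le_div_iff₀ e5]
      linarith
    have e3 : ‖ν‖ * ‖x j‖ ≤ K / (m * c₁ ^ (m - 1)) * τ + K * τ := by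
      have e4 : ν * x j = v j - (x' - β • x) j := by
        rw [e1]
        simp only [PiLp.add_apply, PiLp.smul_apply, smul_eq_mul]
        ring
      rw [← norm_mul, e4]
      refine (norm_sub_le _ _).trans ?_
      have e5 : ‖(x' - β • x) j‖ ≤ K * τ := by
        refine (PiLp.norm_apply_le _ j).trans (hx'.trans ?_)
        rw [mul_comm]
        gcongr
      linarith
    have e4 : ‖ν‖ ≤ (K / (m * c₁ ^ (m - 1)) + K) / c₁ * τ := by
      rw [div_mul_eq_mul_div, le_div_iff₀ hc₁]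
      calc ‖ν‖ * c₁ ≤ ‖ν‖ * ‖x j‖ := by gcongr
        _ ≤ K / (m * c₁ ^ (m - 1)) * τ + K * τ := e3
        _ = _ := by ring
    rw [e1, hK₂]
    refine (norm_add_le _ _).trans ?_
    rw [norm_smul]
    calc ‖x' - β • x‖ + ‖ν‖ * ‖x‖
        ≤ τ * K + ((K / (m * c₁ ^ (m - 1)) + K) / c₁ * τ) * K := by
          gcongr
          exact hx'.trans (by gcongr)
      _ = _ := by ring
  rw [← hGw]
  rcases hτ.eq_or_lt with h0 | hpos
  · have hw10 : w₁ = 0 := by
      rw [← norm_le_zero_iff, h0]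
      exact hw
    have h1 : G y w₁ = 0 := by
      have h2 := hJ2 y 0 0
      rw [smul_zero, zero_pow he.ne', zero_mul] at h2
      rw [hw10, h2]
    rw [h1, norm_zero]
    positivity
  · have hτc : (τ : ℂ) ≠ 0 := by exact_mod_cast hpos.ne'
    obtain ⟨w₂, hw₂⟩ : ∃ w₂, w₂ = (τ : ℂ)⁻¹ • w₁ := ⟨_, rfl⟩
    have hT₂ : T y w₂ := by
      have h1 := hT y w₁ 1 0 (τ : ℂ)⁻¹ one_ne_zero hTw₁
      rwa [one_smul, one_smul, zero_smul, add_zero, ← hw₂] at h1
    have hw₂n : ‖w₂‖ ≤ 1 := by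
      rw [hw₂, norm_smul, norm_inv, Complex.norm_real, Real.norm_of_nonneg hτ]
      rw [inv_mul_le_iff₀ hpos, mul_one]
      exact hw
    have hv₂n : ‖(τ : ℂ)⁻¹ • v‖ ≤ K₂ := by
      rw [norm_smul, norm_inv, Complex.norm_real, Real.norm_of_nonneg hτ,
        inv_mul_le_iff₀ hpos, mul_comm]
      exact hvb
    have hd₂ : ∀ j, dev (P j) y w₂ = m * x j ^ (m - 1) * ((τ : ℂ)⁻¹ • v) j := by
      intro j
      rw [hw₂, dev_smul, hdw₁, PiLp.smul_apply, smul_eq_mul]
      ring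
    have hG₂ : G y w₁ = (τ : ℂ) ^ e * G y w₂ := by
      rw [hw₂, hJ2, ← mul_assoc, ← mul_pow, mul_inv_cancel₀ hτc, one_pow, one_mul]
    have h1 := hlow x y hy (hTZ y w hTyw) hxy
    have hU : ∀ Z ∈ 𝓑, ‖G y w₂‖ * ∏ j ∈ Zᶜ, ‖x j‖ ^ (m - 1) ≤
        C Z * ∏ j, ‖x j‖ ^ (m - 1) := by
      intro Z hZ
      have h2 := hC Z hZ x _ y w₂ hy hw₂n hv₂n hT₂ hxy hd₂
      calc ‖G y w₂‖ * ∏ j ∈ Zᶜ, ‖x j‖ ^ (m - 1)
          ≤ (C Z * ∏ j ∈ Z, ‖x j‖ ^ (m - 1)) * ∏ j ∈ Zᶜ, ‖x j‖ ^ (m - 1) :=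
            mul_le_mul_of_nonneg_right h2 (Finset.prod_nonneg fun i _ => by positivity)
        _ = C Z * ((∏ j ∈ Z, ‖x j‖ ^ (m - 1)) * ∏ j ∈ Zᶜ, ‖x j‖ ^ (m - 1)) := by ring
        _ = _ := by rw [Finset.prod_mul_prod_compl]
    have h3 : ‖G y w₂‖ * c ≤ (∑ Z ∈ 𝓑, C Z) * ∏ j, ‖x j‖ ^ (m - 1) := by
      calc ‖G y w₂‖ * c ≤ ‖G y w₂‖ * ∑ Z ∈ 𝓑, ∏ j ∈ Zᶜ, ‖x j‖ ^ (m - 1) :=
            mul_le_mul_of_nonneg_left h1 (norm_nonneg _)
        _ = ∑ Z ∈ 𝓑, ‖G y w₂‖ * ∏ j ∈ Zᶜ, ‖x j‖ ^ (m - 1) := by rw [Finset.mul_sum]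
        _ ≤ ∑ Z ∈ 𝓑, C Z * ∏ j, ‖x j‖ ^ (m - 1) := Finset.sum_le_sum hU
        _ = _ := by rw [Finset.sum_mul]
    rw [hG₂, norm_mul, norm_pow, Complex.norm_real, Real.norm_of_nonneg hτ]
    calc τ ^ e * ‖G y w₂‖ = τ ^ e * ((‖G y w₂‖ * c) / c) := by field_simp
      _ ≤ τ ^ e * (((∑ Z ∈ 𝓑, C Z) * ∏ j, ‖x j‖ ^ (m - 1)) / c) := by gcongr
      _ = _ := by ring

end

end Pool.Agent.Lib.GGL
end
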