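import Mathlib
import Pool.Agent.Lib.MP_8d161d_ag.Mg.G024

section

/-!
The growth argument for determinants of one-jets: forms of arbitrary degree, conclusion.
-/

open Filter Topology Metric MvPolynomial

namespace Pool.Agent.Lib.GGL

section

variable {n : ℕ}

/-- the vector with the euclidean norm -/
noncomputable def ye (y : Fin (n + 1) → ℂ) : EuclideanSpace ℂ (Fin (n + 1)) := WithLp.toLp 2 y

lemma ye_smul (l : ℂ) (y : Fin (n + 1) → ℂ) : ye (l • y) = l • ye y := rfl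

lemma ye_sub (y w : Fin (n + 1) → ℂ) : ye (w - y) = ye w - ye y := rfl

lemma norm_le_ye (y : Fin (n + 1) → ℂ) : ‖y‖ ≤ ‖ye y‖ := by
  rw [pi_norm_le_iff_of_nonneg (norm_nonneg _)]
  intro i
  exact PiLp.norm_apply_le (ye y) i

lemma analyticAt_ye {y : ℂ → Fin (n + 1) → ℂ} {z₁ : ℂ} (hy : AnalyticAt ℂ y z₁) :
    AnalyticAt ℂ (fun z => ye (y z)) z₁ := by
  have h2 : (fun z => ye (y z)) = (EuclideanSpace.equiv (Fin (n + 1)) ℂ).symm ∘ y := rfl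
  rw [h2]
  exact (((EuclideanSpace.equiv (Fin (n + 1)) ℂ).symm :
    (Fin (n + 1) → ℂ) →L[ℂ] EuclideanSpace ℂ (Fin (n + 1))).analyticAt _).comp hy

lemma deriv_ye {y : ℂ → Fin (n + 1) → ℂ} {z : ℂ} (hy : AnalyticAt ℂ y z) :
    deriv (fun z => ye (y z)) z = ye (deriv y z) := by
  have h1 : HasDerivAt y (deriv y z) z := hy.differentiableAt.hasDerivAt
  have h2 := ((EuclideanSpace.equiv (Fin (n + 1)) ℂ).symm :
    (Fin (n + 1) → ℂ) →L[ℂ] EuclideanSpace ℂ (Fin (n + 1))).hasFDerivAt.comp_hasDerivAt z h1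
  exact h2.deriv

lemma ye_bound (n : ℕ) : ∃ K : ℝ, 1 ≤ K ∧ ∀ y : Fin (n + 1) → ℂ, ‖ye y‖ ≤ K * ‖y‖ := by
  obtain ⟨L, hL⟩ : ∃ L : (Fin (n + 1) → ℂ) →L[ℂ] EuclideanSpace ℂ (Fin (n + 1)),
    ∀ y, L y = ye y := ⟨((EuclideanSpace.equiv (Fin (n + 1)) ℂ).symm :
      (Fin (n + 1) → ℂ) →L[ℂ] EuclideanSpace ℂ (Fin (n + 1))), fun _ => rfl⟩
  refine ⟨max 1 ‖L‖, le_max_left _ _, ?_⟩
  intro y
  rw [← hL]
  refine (L.le_opNorm y).trans ?_
  gcongr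
  exact le_max_right _ _

end

section

variable {n : ℕ} {H : Type*} [Fintype H] [DecidableEq H] (P : H → MvPolynomial (Fin (n + 1)) ℂ)

/-- The main pointwise estimate. -/
theorem pointwiseH {ed : ℕ} (hed : 0 < ed) (hP : ∀ j, (P j).IsHomogeneous ed)
    (hsep : ∀ y : Fin (n + 1) → ℂ, (∀ j, eval y (P j) = 0) → y = 0)
    {m a e N₂ : ℕ} (hm : 0 < m) (he : 0 < e) (𝓑 : Finset (Finset H))
    {Z : Set (Fin (n + 1) → ℂ)} (hZ : IsClosed Z)
    {T : (Fin (n + 1) → ℂ) → (Fin (n + 1) → ℂ) → Prop} (hTZ : ∀ y w, T y w → y ∈ Z)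
    (hT : ∀ y w (l μ c : ℂ), l ≠ 0 → T y w → T (l • y) (c • (l • w + μ • y)))
    (hcov : ∀ y ∈ Z, y ≠ 0 → ∃ B ∈ 𝓑, ∀ j, eval y (P j) = 0 → j ∈ B)
    (hs : N₂ + ed + m * a = (m - 1) * ed * Fintype.card H)
    (G : (Fin (n + 1) → ℂ) → (Fin (n + 1) → ℂ) → ℂ) (hG : FacH P T 𝓑 G)
    (hJ1 : ∀ y w (l μ : ℂ), l ≠ 0 → G (l • y) (l • w + μ • y) = l ^ a * G y w)
    (hJ2 : ∀ y w (c : ℂ), G y (c • w) = c ^ e * G y w) :
    ∃ C : ℝ, 0 ≤ C ∧ ∀ (x x' : EuclideanSpace ℂ H) (y w : Fin (n + 1) → ℂ), y ≠ 0 → T y w →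
      (∀ j, eval y (P j) = x j ^ m) → (∀ j, dev (P j) y w = m * x j ^ (m - 1) * x' j) →
      ∀ β β' : ℂ,
        ‖G y w‖ ^ (2 * m) * ((‖x‖ ^ 2) ^ m * (‖ye y‖ ^ 2) ^ N₂) ≤
          C * (∏ j, ‖x j‖ ^ (m - 1)) ^ (2 * m) *
            (‖x' - β • x‖ / ‖x‖ + ‖ye w - β' • ye y‖ / ‖ye y‖) ^ (2 * (m * e)) := by
  obtain ⟨C₀, hC₀, hC⟩ := pointwise_unitH P hP hsep hm he 𝓑 hZ hTZ hT hcov G hG
    (fun y w μ => by
      have h1 := hJ1 y w 1 μ one_ne_zero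
      rwa [one_smul, one_smul, one_pow, one_mul] at h1) hJ2
  obtain ⟨K, hK1, hKx, -⟩ := up_boundH P hm
  obtain ⟨K', hK'1, hK'⟩ := ye_bound n
  have hK0 : 0 < K := by linarith
  have hK'0 : 0 < K' := by linarith
  refine ⟨(K ^ 2) ^ m * (K' ^ 2) ^ N₂ * C₀ ^ (2 * m) * K' ^ (2 * (m * e)), by positivity, ?_⟩
  intro x x' y w hy0 hTyw hxy hxw β β'
  obtain ⟨e', he'⟩ : ∃ e', ed = e' + 1 := ⟨ed - 1, by omega⟩
  have hx0 : x ≠ 0 := by
    rintro rfl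
    apply hy0
    apply hsep
    intro j
    rw [hxy]
    simp [hm.ne']
  have hnx : 0 < ‖x‖ := norm_pos_iff.mpr hx0
  obtain ⟨ρ, hρ⟩ : ∃ ρ, ρ = ‖y‖ := ⟨_, rfl⟩
  have hρ0 : 0 < ρ := by rw [hρ]; exact norm_pos_iff.mpr hy0
  obtain ⟨r, hr⟩ : ∃ r : ℝ, r = (ρ ^ ed) ^ ((m : ℝ)⁻¹) := ⟨_, rfl⟩
  have hr0 : 0 < r := by rw [hr]; exact Real.rpow_pos_of_pos (by positivity) _
  have hrm : r ^ m = ρ ^ ed := by
    rw [hr, Real.rpow_inv_natCast_pow (by positivity) hm.ne']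
  have hρc : (ρ : ℂ) ≠ 0 := by exact_mod_cast hρ0.ne'
  have hrc : (r : ℂ) ≠ 0 := by exact_mod_cast hr0.ne'
  have hrmc : (r : ℂ) ^ m = (ρ : ℂ) ^ ed := by exact_mod_cast hrm
  -- the number `τ` for the sup norm
  obtain ⟨τ, hτ⟩ : ∃ τ, τ = ‖x' - β • x‖ / ‖x‖ + ‖w - β' • y‖ / ρ := ⟨_, rfl⟩
  obtain ⟨τ', hτ'⟩ : ∃ τ', τ' = ‖x' - β • x‖ / ‖x‖ + ‖ye w - β' • ye y‖ / ‖ye y‖ := ⟨_, rfl⟩
  have hτ0 : 0 ≤ τ := by rw [hτ]; positivity
  have hτ'0 : 0 ≤ τ' := by rw [hτ']; positivity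
  rw [← hτ']
  have hye0 : 0 < ‖ye y‖ := (hρ ▸ hρ0 : 0 < ‖y‖).trans_le (norm_le_ye y)
  have hττ' : τ ≤ K' * τ' := by
    have e1 : ‖x' - β • x‖ / ‖x‖ ≤ K' * (‖x' - β • x‖ / ‖x‖) := le_mul_of_one_le_left (by positivity) hK'1
    have e2 : ‖w - β' • y‖ / ρ ≤ K' * (‖ye w - β' • ye y‖ / ‖ye y‖) := by
      rw [← mul_div_assoc, div_le_div_iff₀ hρ0 hye0]
      have e3 : ‖w - β' • y‖ ≤ ‖ye w - β' • ye y‖ := by
        rw [← ye_smul, ← ye_sub]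
        exact norm_le_ye _
      have e4 := hK' y
      rw [← hρ] at e4
      calc ‖w - β' • y‖ * ‖ye y‖ ≤ ‖ye w - β' • ye y‖ * (K' * ρ) := by gcongr
        _ = _ := by ring
    rw [hτ, hτ', mul_add]
    linarith
  -- normalisation
  have hinv : ∀ s : ℝ, 0 < s → ‖((s : ℂ)⁻¹)‖ = s⁻¹ := by
    intro s hs
    rw [norm_inv, Complex.norm_real, Real.norm_of_nonneg hs.le]
  have hmain := hC ((r : ℂ)⁻¹ • x) ((r : ℂ)⁻¹ • x') ((ρ : ℂ)⁻¹ • y) ((ρ : ℂ)⁻¹ • w) β β' τ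
    (by rw [norm_smul, hinv ρ hρ0, ← hρ, inv_mul_cancel₀ hρ0.ne'])
    (by
      have h1 := hT y w (ρ : ℂ)⁻¹ 0 1 (inv_ne_zero hρc) hTyw
      rwa [one_smul, zero_smul, add_zero] at h1)
    (by
      intro j
      rw [eval_smul_of_homogeneous (hP j), PiLp.smul_apply, smul_eq_mul, mul_pow, hxy, inv_pow,
        inv_pow, hrmc])
    (by
      intro j
      have h1 := hP j
      rw [he'] at h1
      rw [dev_scale h1, ← he', hxw, PiLp.smul_apply, PiLp.smul_apply, smul_eq_mul, smul_eq_mul,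
        mul_pow, inv_pow, ← hrmc]
      have h2 : ((r : ℂ) ^ m)⁻¹ = ((r : ℂ)⁻¹) ^ (m - 1) * (r : ℂ)⁻¹ := by
        rw [← pow_succ, ← inv_pow]
        congr 1
        omega
      rw [h2]
      ring)
    hτ0
    (by
      have h1 : (r : ℂ)⁻¹ • x' - β • ((r : ℂ)⁻¹ • x) = (r : ℂ)⁻¹ • (x' - β • x) := by
        rw [smul_sub, smul_comm]
      rw [h1, norm_smul, norm_smul, hinv r hr0]
      have h2 : ‖x' - β • x‖ ≤ τ * ‖x‖ := by
        have h3 : ‖x' - β • x‖ / ‖x‖ ≤ τ := by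
          rw [hτ]
          have : 0 ≤ ‖w - β' • y‖ / ρ := by positivity
          linarith
        rwa [div_le_iff₀ hnx] at h3
      calc r⁻¹ * ‖x' - β • x‖ ≤ r⁻¹ * (τ * ‖x‖) := by gcongr
        _ = _ := by ring)
    (by
      have h1 : (ρ : ℂ)⁻¹ • w - β' • ((ρ : ℂ)⁻¹ • y) = (ρ : ℂ)⁻¹ • (w - β' • y) := by
        rw [smul_sub, smul_comm]
      rw [h1, norm_smul, hinv ρ hρ0]
      rw [hτ]
      have h2 : 0 ≤ ‖x' - β • x‖ / ‖x‖ := by positivity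
      have h3 : ρ⁻¹ * ‖w - β' • y‖ = ‖w - β' • y‖ / ρ := by
        rw [div_eq_inv_mul]
      rw [h3]
      linarith)
  have hG1 : G ((ρ : ℂ)⁻¹ • y) ((ρ : ℂ)⁻¹ • w) = ((ρ : ℂ)⁻¹) ^ a * G y w := by
    have h1 := hJ1 y w (ρ : ℂ)⁻¹ 0 (inv_ne_zero hρc)
    rwa [zero_smul, add_zero] at h1
  have hprod : ∏ j, ‖((r : ℂ)⁻¹ • x) j‖ ^ (m - 1) =
      (r⁻¹) ^ ((m - 1) * Fintype.card H) * ∏ j, ‖x j‖ ^ (m - 1) := by
    have h4 : ∀ j, ‖((r : ℂ)⁻¹ • x) j‖ ^ (m - 1) = (r⁻¹) ^ (m - 1) * ‖x j‖ ^ (m - 1) := by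
      intro j
      rw [PiLp.smul_apply, norm_smul, hinv r hr0, mul_pow]
    rw [Finset.prod_congr rfl fun j _ => h4 j, Finset.prod_mul_distrib, Finset.prod_const,
      Finset.card_univ, ← pow_mul]
  rw [hG1, norm_mul, norm_pow, hinv ρ hρ0, hprod] at hmain
  obtain ⟨pr, hpr⟩ : ∃ pr, pr = ∏ j, ‖x j‖ ^ (m - 1) := ⟨_, rfl⟩
  have hpr0 : 0 ≤ pr := by
    rw [hpr]
    exact Finset.prod_nonneg fun j _ => by positivity
  obtain ⟨g, hg⟩ : ∃ g, g = ‖G y w‖ := ⟨_, rfl⟩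
  have hg0 : 0 ≤ g := by rw [hg]; exact norm_nonneg _
  rw [← hpr, ← hg] at hmain
  rw [← hpr, ← hg]
  -- powers
  have h5 : g ^ (2 * m) * ρ ^ (2 * (N₂ + ed)) ≤ C₀ ^ (2 * m) * pr ^ (2 * m) * τ ^ (2 * (m * e)) := by
    have h6 : (ρ⁻¹ ^ a * g) ^ (2 * m) ≤
        (C₀ * (r⁻¹ ^ ((m - 1) * Fintype.card H) * pr) * τ ^ e) ^ (2 * m) := by gcongr
    have h7 : (ρ⁻¹ ^ a * g) ^ (2 * m) * (ρ ^ (2 * (N₂ + ed)) * ρ ^ (2 * (m * a))) =
        g ^ (2 * m) * ρ ^ (2 * (N₂ + ed)) := by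
      have h8 : (ρ⁻¹ ^ a) ^ (2 * m) * ρ ^ (2 * (m * a)) = 1 := by
        rw [← pow_mul, show a * (2 * m) = 2 * (m * a) by ring, ← mul_pow,
          inv_mul_cancel₀ hρ0.ne', one_pow]
      rw [mul_pow]
      calc (ρ⁻¹ ^ a) ^ (2 * m) * g ^ (2 * m) * (ρ ^ (2 * (N₂ + ed)) * ρ ^ (2 * (m * a)))
          = ((ρ⁻¹ ^ a) ^ (2 * m) * ρ ^ (2 * (m * a))) * (g ^ (2 * m) * ρ ^ (2 * (N₂ + ed))) := by
            ring
        _ = _ := by rw [h8, one_mul]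
    have h9 : ρ ^ (2 * (N₂ + ed)) * ρ ^ (2 * (m * a)) =
        (r ^ ((m - 1) * Fintype.card H)) ^ (2 * m) := by
      rw [← pow_add, ← pow_mul]
      have e1 : (m - 1) * Fintype.card H * (2 * m) = m * (2 * ((m - 1) * Fintype.card H)) := by ring
      rw [e1, pow_mul r m, hrm, ← pow_mul]
      congr 1
      calc 2 * (N₂ + ed) + 2 * (m * a) = 2 * (N₂ + ed + m * a) := by ring
        _ = 2 * ((m - 1) * ed * Fintype.card H) := by rw [hs]
        _ = ed * (2 * ((m - 1) * Fintype.card H)) := by ring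
    have h10 : (C₀ * (r⁻¹ ^ ((m - 1) * Fintype.card H) * pr) * τ ^ e) ^ (2 * m) *
        (ρ ^ (2 * (N₂ + ed)) * ρ ^ (2 * (m * a))) =
        C₀ ^ (2 * m) * pr ^ (2 * m) * τ ^ (2 * (m * e)) := by
      rw [h9, ← mul_pow]
      have e1 : C₀ * (r⁻¹ ^ ((m - 1) * Fintype.card H) * pr) * τ ^ e *
          r ^ ((m - 1) * Fintype.card H) = C₀ * pr * τ ^ e := by
        have e2 : r⁻¹ ^ ((m - 1) * Fintype.card H) * r ^ ((m - 1) * Fintype.card H) = 1 := by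
          rw [← mul_pow, inv_mul_cancel₀ hr0.ne', one_pow]
        calc _ = C₀ * pr * τ ^ e * (r⁻¹ ^ ((m - 1) * Fintype.card H) *
            r ^ ((m - 1) * Fintype.card H)) := by ring
          _ = _ := by rw [e2, mul_one]
      rw [e1, mul_pow, mul_pow, ← pow_mul τ, show e * (2 * m) = 2 * (m * e) by ring]
    rw [← h7, ← h10]
    gcongr
  have h6 : (‖x‖ ^ 2) ^ m ≤ (K ^ 2) ^ m * ρ ^ (2 * ed) := by
    have h7 := hKx ((r : ℂ)⁻¹ • x) ((ρ : ℂ)⁻¹ • y)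
      (by rw [norm_smul, hinv ρ hρ0, ← hρ, inv_mul_cancel₀ hρ0.ne'])
      (by
        intro j
        rw [eval_smul_of_homogeneous (hP j), PiLp.smul_apply, smul_eq_mul, mul_pow, hxy, inv_pow,
          inv_pow, hrmc])
    rw [norm_smul, hinv r hr0, inv_mul_le_iff₀ hr0] at h7
    calc (‖x‖ ^ 2) ^ m ≤ ((r * K) ^ 2) ^ m := by gcongr
      _ = (K ^ 2) ^ m * (r ^ m) ^ 2 := by ring
      _ = (K ^ 2) ^ m * ρ ^ (2 * ed) := by rw [hrm]; ring
  have h7 : (‖ye y‖ ^ 2) ^ N₂ ≤ (K' ^ 2) ^ N₂ * ρ ^ (2 * N₂) := by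
    have h8 := hK' y
    rw [← hρ] at h8
    calc (‖ye y‖ ^ 2) ^ N₂ ≤ ((K' * ρ) ^ 2) ^ N₂ := by gcongr
      _ = _ := by ring
  calc g ^ (2 * m) * ((‖x‖ ^ 2) ^ m * (‖ye y‖ ^ 2) ^ N₂)
      ≤ g ^ (2 * m) * (((K ^ 2) ^ m * ρ ^ (2 * ed)) * ((K' ^ 2) ^ N₂ * ρ ^ (2 * N₂))) := by gcongr
    _ = (K ^ 2) ^ m * (K' ^ 2) ^ N₂ * (g ^ (2 * m) * ρ ^ (2 * (N₂ + ed))) := by ring
    _ ≤ (K ^ 2) ^ m * (K' ^ 2) ^ N₂ *
        (C₀ ^ (2 * m) * pr ^ (2 * m) * τ ^ (2 * (m * e))) := by gcongr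
    _ ≤ (K ^ 2) ^ m * (K' ^ 2) ^ N₂ *
        (C₀ ^ (2 * m) * pr ^ (2 * m) * (K' * τ') ^ (2 * (m * e))) := by gcongr
    _ = _ := by
        rw [mul_pow]
        ring

/-- The auxiliary function. -/
noncomputable def PhiH (m N₂ : ℕ) (G : (Fin (n + 1) → ℂ) → (Fin (n + 1) → ℂ) → ℂ)
    (y w : Fin (n + 1) → ℂ) : ℝ :=
  ‖G y w‖ ^ (2 * m) / (∏ j, ‖eval y (P j)‖) ^ (2 * (m - 1)) *
    ((∑ j, (‖eval y (P j)‖ ^ ((m : ℝ)⁻¹)) ^ 2) ^ m * (‖ye y‖ ^ 2) ^ N₂)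

omit [DecidableEq H] in
lemma PhiH_smul {ed : ℕ} (hP : ∀ j, (P j).IsHomogeneous ed) {m a N₂ : ℕ} (hm : 0 < m)
    (hs : N₂ + ed + m * a = (m - 1) * ed * Fintype.card H)
    {G : (Fin (n + 1) → ℂ) → (Fin (n + 1) → ℂ) → ℂ}
    (hJ1 : ∀ y w (l μ : ℂ), l ≠ 0 → G (l • y) (l • w + μ • y) = l ^ a * G y w)
    (y w : Fin (n + 1) → ℂ) {l : ℂ} (hl : l ≠ 0) (μ : ℂ) :
    PhiH P m N₂ G (l • y) (l • w + μ • y) = PhiH P m N₂ G y w := by
  unfold PhiH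
  rw [hJ1 _ _ _ _ hl]
  obtain ⟨ρ, hρ⟩ : ∃ ρ : ℝ, ρ = ‖l‖ ^ ((m : ℝ)⁻¹) := ⟨_, rfl⟩
  have hρ0 : 0 < ρ := by
    rw [hρ]
    exact Real.rpow_pos_of_pos (norm_pos_iff.mpr hl) _
  have hρm : ‖l‖ = ρ ^ m := by
    rw [hρ, Real.rpow_inv_natCast_pow (norm_nonneg _) hm.ne']
  have h1 : ∀ j, ‖eval (l • y) (P j)‖ = (ρ ^ m) ^ ed * ‖eval y (P j)‖ := by
    intro j
    rw [eval_smul_of_homogeneous (hP j), norm_mul, norm_pow, hρm]
  have h2 : ∀ j, (‖eval (l • y) (P j)‖ ^ ((m : ℝ)⁻¹)) ^ 2 =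
      (ρ ^ ed) ^ 2 * (‖eval y (P j)‖ ^ ((m : ℝ)⁻¹)) ^ 2 := by
    intro j
    rw [h1, Real.mul_rpow (by positivity) (norm_nonneg _), mul_pow]
    congr 2
    rw [← pow_mul, mul_comm m ed, pow_mul, Real.pow_rpow_inv_natCast (by positivity) hm.ne']
  rw [Finset.sum_congr rfl fun j _ => h2 j, Finset.prod_congr rfl fun j _ => h1 j]
  rw [Finset.prod_mul_distrib, Finset.prod_const, Finset.card_univ, ← Finset.mul_sum, norm_mul,
    norm_pow, hρm, ye_smul, norm_smul, hρm]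
  rw [mul_pow, mul_pow, mul_pow, mul_pow (ρ ^ m) ‖ye y‖, mul_pow _ (‖ye y‖ ^ 2) N₂]
  have h3 : (((ρ ^ m) ^ a) ^ (2 * m)) * (((ρ ^ ed) ^ 2) ^ m * ((ρ ^ m) ^ 2) ^ N₂) =
      (((ρ ^ m) ^ ed) ^ Fintype.card H) ^ (2 * (m - 1)) := by
    simp only [← pow_mul, ← pow_add]
    congr 1
    calc m * a * (2 * m) + (ed * 2 * m + m * 2 * N₂) = 2 * m * (N₂ + ed + m * a) := by ring
      _ = m * ed * Fintype.card H * (2 * (m - 1)) := by rw [hs]; ring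
  rw [← h3]
  have h4 : 0 < ((ρ ^ m) ^ a) ^ (2 * m) := by positivity
  have h5 : 0 < ((ρ ^ ed) ^ 2) ^ m := by positivity
  have h6 : 0 < ((ρ ^ m) ^ 2) ^ N₂ := by positivity
  generalize ((ρ ^ m) ^ a) ^ (2 * m) = A at *
  generalize ((ρ ^ ed) ^ 2) ^ m = A' at *
  generalize ((ρ ^ m) ^ 2) ^ N₂ = A'' at *
  rw [mul_div_mul_comm]
  have h7 : A / (A * (A' * A'')) = 1 / (A' * A'') := by
    field_simp
  rw [h7]
  field_simp

/-- The contradiction for curves not contained in any of the hypersurfaces. -/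
theorem caseH {ed : ℕ} (hed : 0 < ed) (hP : ∀ j, (P j).IsHomogeneous ed)
    {m a e N₂ : ℕ} (hm : 0 < m) (he : 0 < e) (hN₂ : 0 < N₂) {𝓑 : Finset (Finset H)}
    {Z : Set (Fin (n + 1) → ℂ)} (hZ : IsClosed Z)
    {T : (Fin (n + 1) → ℂ) → (Fin (n + 1) → ℂ) → Prop} (hTZ : ∀ y w, T y w → y ∈ Z)
    (hT : ∀ y w (l μ c : ℂ), l ≠ 0 → T y w → T (l • y) (c • (l • w + μ • y)))
    (hcov : ∀ y ∈ Z, y ≠ 0 → ∃ B ∈ 𝓑, ∀ j, eval y (P j) = 0 → j ∈ B)
    (hsep : ∀ y : Fin (n + 1) → ℂ, (∀ j, eval y (P j) = 0) → y = 0)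
    (hs : N₂ + ed + m * a = (m - 1) * ed * Fintype.card H)
    {G : (Fin (n + 1) → ℂ) → (Fin (n + 1) → ℂ) → ℂ}
    (hG : FacH P T 𝓑 G)
    (hJ1 : ∀ y w (l μ : ℂ), l ≠ 0 → G (l • y) (l • w + μ • y) = l ^ a * G y w)
    (hJ2 : ∀ y w (c : ℂ), G y (c • w) = c ^ e * G y w)
    {Y : ℂ → ℂ → Fin (n + 1) → ℂ} (hY : LiftFamily Y)
    (hTY : ∀ z₁, ∀ᶠ z in 𝓝 z₁, T (Y z₁ z) (deriv (Y z₁) z))
    (htop : ∀ j z₁, analyticOrderAt (fun z => eval (Y z₁ z) (P j)) z₁ ≠ ⊤)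
    (hord : ∀ j z₁, analyticOrderAt (fun z => eval (Y z₁ z) (P j)) z₁ = 0 ∨
      (m : ℕ∞) ≤ analyticOrderAt (fun z => eval (Y z₁ z) (P j)) z₁) (z₁ : ℂ) :
    ∀ᶠ z in 𝓝 z₁, G (Y z₁ z) (deriv (Y z₁) z) = 0 := by
  obtain ⟨hYan, hY0, hYc⟩ := hY
  -- the function off the hypersurfaces
  obtain ⟨P₀, hP₀⟩ : ∃ P₀ : ℂ → ℝ, P₀ = fun z => PhiH P m N₂ G (Y z z) (deriv (Y z) z) :=
    ⟨_, rfl⟩
  have hP₀loc : ∀ z₁, ∀ᶠ z in 𝓝 z₁, P₀ z = PhiH P m N₂ G (Y z₁ z) (deriv (Y z₁) z) := by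
    intro z₁
    filter_upwards [hYc z₁, (hYan z₁).eventually_analyticAt] with z ⟨l, hl1, hl2, hl3⟩ han
    rw [hP₀]
    have h1 : Y z z = l z • Y z₁ z := hl3.self_of_nhds
    have h2 : deriv (Y z) z = l z • deriv (Y z₁) z + deriv l z • Y z₁ z := by
      have h3 : Y z =ᶠ[𝓝 z] fun w => l w • Y z₁ w := hl3
      rw [h3.deriv_eq]
      exact (hl1.differentiableAt.hasDerivAt.smul han.differentiableAt.hasDerivAt).deriv
    beta_reduce
    rw [h1, h2, PhiH_smul P hP hm hs hJ1 _ _ hl2]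
  have hYZ : ∀ z₁, Y z₁ z₁ ∈ Z := fun z₁ => hTZ _ _ (hTY z₁).self_of_nhds
  choose σ hσan hσG hσx using fun z₁ => local_structureH P hm 𝓑 G hG (hYan z₁)
    (hcov _ (hYZ z₁) (hY0 z₁)) (hTY z₁) (fun j => htop j z₁) (fun j => hord j z₁)
  have hlan : ∀ z₁ j, AnalyticAt ℂ (fun z => eval (Y z₁ z) (P j)) z₁ := fun z₁ j =>
    analyticAt_eval (hYan z₁) _
  have hlne : ∀ z₁, ∀ᶠ z in 𝓝[≠] z₁, ∀ j, eval (Y z₁ z) (P j) ≠ 0 := by
    intro z₁
    rw [Filter.eventually_all]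
    intro j
    rcases (hlan z₁ j).eventually_eq_zero_or_eventually_ne_zero with h | h
    · exact absurd (analyticOrderAt_eq_top.mpr h) (htop j z₁)
    · exact h
  obtain ⟨c, hc⟩ : ∃ c : ℂ → ℂ → ℝ, c = fun z₁ z => ‖σ z₁ z‖ ^ 2 *
    ((∑ j, (‖eval (Y z₁ z) (P j)‖ ^ ((m : ℝ)⁻¹)) ^ 2) ^ m * (‖ye (Y z₁ z)‖ ^ 2) ^ N₂) := ⟨_, rfl⟩
  have hccont : ∀ z₁, ∀ᶠ z in 𝓝 z₁, ContinuousAt (c z₁) z := by
    intro z₁
    filter_upwards [(hσan z₁).eventually_analyticAt, (hYan z₁).eventually_analyticAt]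
      with z h1 h2
    rw [hc]
    have h3 : ContinuousAt (σ z₁) z := h1.continuousAt
    have h4 : ∀ j, ContinuousAt (fun z => eval (Y z₁ z) (P j)) z := fun j =>
      (analyticAt_eval h2 _).continuousAt
    have h5 : ∀ j, ContinuousAt (fun z => (‖eval (Y z₁ z) (P j)‖ ^ ((m : ℝ)⁻¹)) ^ 2) z := fun j =>
      (((h4 j).norm).rpow_const (Or.inr (by positivity))).pow 2
    have h6 : ContinuousAt (fun z => ∑ j, (‖eval (Y z₁ z) (P j)‖ ^ ((m : ℝ)⁻¹)) ^ 2) z :=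
      tendsto_finsetSum _ fun j _ => h5 j
    have h7 : ContinuousAt (fun z => ye (Y z₁ z)) z := (analyticAt_ye h2).continuousAt
    exact ((h3.norm).pow 2).mul ((h6.pow _).mul ((h7.norm.pow 2).pow _))
  have hcP : ∀ z₁, ∀ᶠ z in 𝓝[≠] z₁, P₀ z = c z₁ z := by
    intro z₁
    filter_upwards [hlne z₁, (hP₀loc z₁).filter_mono nhdsWithin_le_nhds,
      (hσG z₁).filter_mono nhdsWithin_le_nhds] with z h1 h2 h3
    rw [h2, hc, PhiH]
    have h4 : 0 < (∏ j, ‖eval (Y z₁ z) (P j)‖) ^ (2 * (m - 1)) := by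
      apply pow_pos
      exact Finset.prod_pos fun j _ => norm_pos_iff.mpr (h1 j)
    have h5 : ‖G (Y z₁ z) (deriv (Y z₁) z)‖ ^ (2 * m) =
        ‖σ z₁ z‖ ^ 2 * (∏ j, ‖eval (Y z₁ z) (P j)‖) ^ (2 * (m - 1)) := by
      rw [mul_comm 2 m, pow_mul, ← norm_pow, h3, norm_mul, mul_pow, norm_pow, ← norm_prod,
        ← pow_mul, mul_comm (m - 1) 2]
    rw [h5, mul_div_assoc, div_self h4.ne', mul_one]
  obtain ⟨Q, hQcont, hQc⟩ := glue P₀ fun z₁ => ⟨c z₁, hccont z₁, hcP z₁⟩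
  have hQz : ∀ z₁, ∀ᶠ z in 𝓝 z₁, Q z = c z₁ z := fun z₁ => hQc z₁ _ (hccont z₁) (hcP z₁)
  have hQnonneg : ∀ z, 0 ≤ Q z := by
    intro z
    rw [(hQz z).self_of_nhds, hc]
    positivity
  obtain ⟨C, hC0, hC⟩ := pointwiseH P hed hP hsep hm he 𝓑 hZ hTZ hT hcov hs G hG hJ1 hJ2
  -- application of the growth lemma
  have hzero : ∀ z, Q z = 0 := by
    refine growth2 (E := EuclideanSpace ℂ H) (E' := EuclideanSpace ℂ (Fin (n + 1))) hQcont
      hQnonneg (κ := m * e) (N := m) (N' := N₂) hm hN₂ (Nat.mul_pos hm he) C ?_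
    intro z₁ hz₁
    have h1 := (hQz z₁).self_of_nhds
    have hσ0 : σ z₁ z₁ ≠ 0 := by
      intro h
      rw [h1, hc] at hz₁
      simp [h] at hz₁
    obtain ⟨x, hxan, hx⟩ := hσx z₁ hσ0
    have hnorm : ∀ z, (∀ j, eval (Y z₁ z) (P j) = x z j ^ m) →
        ∑ j, (‖eval (Y z₁ z) (P j)‖ ^ ((m : ℝ)⁻¹)) ^ 2 = ‖x z‖ ^ 2 := by
      intro z hz
      rw [EuclideanSpace.norm_sq_eq]
      refine Finset.sum_congr rfl fun j _ => ?_
      rw [hz j, norm_pow, Real.pow_rpow_inv_natCast (norm_nonneg _) hm.ne']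
    have hx0 : x z₁ ≠ 0 := by
      intro h0
      apply hY0 z₁
      apply hsep
      intro j
      rw [(hx.self_of_nhds j).1, h0]
      simp [hm.ne']
    have hyan := analyticAt_ye (hYan z₁)
    have hy0 : ye (Y z₁ z₁) ≠ 0 := by
      rw [← norm_pos_iff]
      exact (norm_pos_iff.mpr (hY0 z₁)).trans_le (norm_le_ye _)
    refine ⟨σ z₁, x, fun z => ye (Y z₁ z), hσan z₁, hxan, hyan, hx0, hy0, ?_, ?_⟩
    · filter_upwards [hQz z₁, hx] with z g1 g2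
      rw [g1, hc]
      beta_reduce
      rw [hnorm z fun j => (g2 j).1]
    · intro β β'
      have hx0' : ∀ᶠ z in 𝓝 z₁, x z ≠ 0 := hxan.continuousAt.eventually_ne hx0
      have hY0' : ∀ᶠ z in 𝓝 z₁, Y z₁ z ≠ 0 := (hYan z₁).continuousAt.eventually_ne (hY0 z₁)
      have hineq : ∀ᶠ z in 𝓝[≠] z₁, Q z ≤
          C * (‖deriv x z - β • x z‖ / ‖x z‖ +
            ‖ye (deriv (Y z₁) z) - β' • ye (Y z₁ z)‖ / ‖ye (Y z₁ z)‖) ^ (2 * (m * e)) := by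
        filter_upwards [hlne z₁, (hQz z₁).filter_mono nhdsWithin_le_nhds,
          (hσG z₁).filter_mono nhdsWithin_le_nhds, hx.filter_mono nhdsWithin_le_nhds,
          hY0'.filter_mono nhdsWithin_le_nhds, (hTY z₁).filter_mono nhdsWithin_le_nhds]
          with z g1 g2 g3 g4 g5 gT
        rw [g2, hc]
        beta_reduce
        rw [hnorm z fun j => (g4 j).1]
        have g6 := hC (x z) (deriv x z) (Y z₁ z) (deriv (Y z₁) z) g5 gT (fun j => (g4 j).1)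
          (fun j => (g4 j).2) β β'
        have g7 : 0 < (∏ j, ‖x z j‖ ^ (m - 1)) ^ (2 * m) := by
          apply pow_pos
          refine Finset.prod_pos fun j _ => ?_
          have : x z j ≠ 0 := by
            intro h
            apply g1 j
            rw [(g4 j).1, h, zero_pow hm.ne']
          positivity
        have g9 : ‖G (Y z₁ z) (deriv (Y z₁) z)‖ ^ (2 * m) =
            ‖σ z₁ z‖ ^ 2 * (∏ j, ‖x z j‖ ^ (m - 1)) ^ (2 * m) := by
          rw [mul_comm 2 m, pow_mul, ← norm_pow, g3, norm_mul, mul_pow, norm_pow]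
          congr 1
          have : ∀ j, ‖eval (Y z₁ z) (P j)‖ = ‖x z j‖ ^ m := fun j => by
            rw [(g4 j).1, norm_pow]
          rw [norm_prod, Finset.prod_congr rfl fun j _ => this j, Finset.prod_pow, Finset.prod_pow,
            ← pow_mul, ← pow_mul, ← pow_mul]
          congr 1
          ring
        rw [g9] at g6
        have g10 : (‖σ z₁ z‖ ^ 2 * ((‖x z‖ ^ 2) ^ m * (‖ye (Y z₁ z)‖ ^ 2) ^ N₂)) *
            (∏ j, ‖x z j‖ ^ (m - 1)) ^ (2 * m) ≤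
            (C * (‖deriv x z - β • x z‖ / ‖x z‖ +
              ‖ye (deriv (Y z₁) z) - β' • ye (Y z₁ z)‖ / ‖ye (Y z₁ z)‖) ^ (2 * (m * e))) *
                (∏ j, ‖x z j‖ ^ (m - 1)) ^ (2 * m) := by
          refine le_trans (le_of_eq ?_) (g6.trans (le_of_eq ?_))
          · ring
          · ring
        exact le_of_mul_le_mul_right g10 g7
      have hder : ∀ᶠ z in 𝓝 z₁, deriv (fun z => ye (Y z₁ z)) z = ye (deriv (Y z₁) z) := by
        filter_upwards [(hYan z₁).eventually_analyticAt] with z hz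
        exact deriv_ye hz
      have hineq' : ∀ᶠ z in 𝓝[≠] z₁, Q z ≤
          C * (‖deriv x z - β • x z‖ / ‖x z‖ +
            ‖deriv (fun z => ye (Y z₁ z)) z - β' • ye (Y z₁ z)‖ / ‖ye (Y z₁ z)‖) ^
              (2 * (m * e)) := by
        filter_upwards [hineq, hder.filter_mono nhdsWithin_le_nhds] with z g1 g2
        rw [g2]
        exact g1
      have hcont : ContinuousAt (fun z => C * (‖deriv x z - β • x z‖ / ‖x z‖ +
            ‖deriv (fun z => ye (Y z₁ z)) z - β' • ye (Y z₁ z)‖ / ‖ye (Y z₁ z)‖) ^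
              (2 * (m * e))) z₁ := by
        have h2 : ContinuousAt x z₁ := hxan.continuousAt
        have h3 : ContinuousAt (deriv x) z₁ := hxan.deriv.continuousAt
        have h4 : ‖x z₁‖ ≠ 0 := norm_ne_zero_iff.mpr hx0
        have h5 : ContinuousAt (fun z => ye (Y z₁ z)) z₁ := hyan.continuousAt
        have h6 : ContinuousAt (deriv fun z => ye (Y z₁ z)) z₁ := hyan.deriv.continuousAt
        have h7 : ‖ye (Y z₁ z₁)‖ ≠ 0 := norm_ne_zero_iff.mpr hy0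
        exact continuousAt_const.mul ((((h3.sub (h2.const_smul β)).norm.div h2.norm h4).add
          ((h6.sub (h5.const_smul β')).norm.div h5.norm h7)).pow _)
      exact le_of_tendsto_of_tendsto (hQcont.continuousAt.tendsto.mono_left nhdsWithin_le_nhds)
        (hcont.tendsto.mono_left nhdsWithin_le_nhds) hineq'
  -- conclusion
  filter_upwards [hQz z₁, hσG z₁, (hYan z₁).continuousAt.eventually_ne (hY0 z₁)] with z h1 h2 h3
  rw [hzero z, hc] at h1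
  have h4 : 0 < ∑ j, (‖eval (Y z₁ z) (P j)‖ ^ ((m : ℝ)⁻¹)) ^ 2 := by
    by_contra hcon
    apply h3
    apply hsep
    intro j
    have h5 : ∑ j, (‖eval (Y z₁ z) (P j)‖ ^ ((m : ℝ)⁻¹)) ^ 2 = 0 :=
      le_antisymm (not_lt.mp hcon) (Finset.sum_nonneg fun j _ => by positivity)
    have h6 := (Finset.sum_eq_zero_iff_of_nonneg fun j _ => by positivity).mp h5 j
      (Finset.mem_univ _)
    have h7 : ‖eval (Y z₁ z) (P j)‖ ^ ((m : ℝ)⁻¹) = 0 := by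
      exact pow_eq_zero_iff (two_ne_zero) |>.mp h6
    rw [Real.rpow_eq_zero (norm_nonneg _) (by positivity)] at h7
    exact norm_eq_zero.mp h7
  have h4' : 0 < ‖ye (Y z₁ z)‖ := (norm_pos_iff.mpr h3).trans_le (norm_le_ye _)
  have h5 : σ z₁ z = 0 := by
    by_contra h6
    have h7 : 0 < ‖σ z₁ z‖ ^ 2 * ((∑ j, (‖eval (Y z₁ z) (P j)‖ ^ ((m : ℝ)⁻¹)) ^ 2) ^ m *
        (‖ye (Y z₁ z)‖ ^ 2) ^ N₂) := by
      have := norm_pos_iff.mpr h6
      positivity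
    exact h7.ne h1
  rw [h5, zero_mul] at h2
  exact (pow_eq_zero_iff hm.ne').mp h2

end

end Pool.Agent.Lib.GGL
end

section

/-!
Weighted scaling.
-/

open MvPolynomial Filter Topology Metric

namespace Pool.Agent.Lib.GGL

section

variable {n : ℕ} (wt : Fin (n + 1) → ℕ)

/-- weighted scaling -/
def sc (l : ℂ) (y : Fin (n + 1) → ℂ) : Fin (n + 1) → ℂ := fun i => l ^ wt i * y i

/-- the Euler vector -/
def eu (y : Fin (n + 1) → ℂ) : Fin (n + 1) → ℂ := fun i => (wt i : ℂ) * y i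

/-- the norm of the coordinates of weight one -/
noncomputable def n1 (y : Fin (n + 1) → ℂ) : ℝ := ‖fun i : {i // wt i = 1} => y i‖

lemma n1_nonneg (y : Fin (n + 1) → ℂ) : 0 ≤ n1 wt y := norm_nonneg _

lemma norm_le_n1 (y : Fin (n + 1) → ℂ) {i : Fin (n + 1)} (hi : wt i = 1) : ‖y i‖ ≤ n1 wt y :=
  norm_le_pi_norm (fun i : {i // wt i = 1} => y i) ⟨i, hi⟩

lemma n1_le_norm (y : Fin (n + 1) → ℂ) : n1 wt y ≤ ‖y‖ := by
  rw [n1, pi_norm_le_iff_of_nonneg (norm_nonneg _)]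
  intro i
  exact norm_le_pi_norm y _

lemma continuous_n1 : Continuous (n1 wt) := by
  unfold n1
  fun_prop

lemma exists_norm_eq_n1 {y : Fin (n + 1) → ℂ} (hy : n1 wt y ≠ 0) :
    ∃ i, wt i = 1 ∧ ‖y i‖ = n1 wt y := by
  have hne : Nonempty {i // wt i = 1} := by
    by_contra hcon
    rw [not_nonempty_iff] at hcon
    apply hy
    rw [n1]
    exact norm_eq_zero.mpr (Subsingleton.elim _ _)
  obtain ⟨i, hi⟩ := Finite.exists_max fun i : {i // wt i = 1} => ‖y i‖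
  refine ⟨i, i.2, le_antisymm (norm_le_n1 wt y i.2) ?_⟩
  rw [n1, pi_norm_le_iff_of_nonneg (norm_nonneg _)]
  exact hi

lemma n1_sc (l : ℂ) (y : Fin (n + 1) → ℂ) : n1 wt (sc wt l y) = ‖l‖ * n1 wt y := by
  have h1 : (fun i : {i // wt i = 1} => sc wt l y i) = l • fun i : {i // wt i = 1} => y i := by
    funext i
    rw [sc, i.2, pow_one]
    rfl
  rw [n1, h1, norm_smul]
  rfl

lemma sc_one (y : Fin (n + 1) → ℂ) : sc wt 1 y = y := by
  funext i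
  rw [sc, one_pow, one_mul]

lemma sc_sc (l μ : ℂ) (y : Fin (n + 1) → ℂ) : sc wt l (sc wt μ y) = sc wt (l * μ) y := by
  funext i
  rw [sc, sc, sc, mul_pow, mul_assoc]

lemma sc_add (l : ℂ) (y w : Fin (n + 1) → ℂ) : sc wt l (y + w) = sc wt l y + sc wt l w := by
  funext i
  rw [Pi.add_apply, sc, sc, sc, Pi.add_apply, mul_add]

lemma sc_smul (l c : ℂ) (y : Fin (n + 1) → ℂ) : sc wt l (c • y) = c • sc wt l y := by
  funext i
  rw [Pi.smul_apply, sc, sc, Pi.smul_apply, smul_eq_mul, smul_eq_mul]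
  ring

lemma sc_eu (l : ℂ) (y : Fin (n + 1) → ℂ) : sc wt l (eu wt y) = eu wt (sc wt l y) := by
  funext i
  rw [sc, eu, eu, sc]
  ring

lemma aeval_complex (u : Fin (n + 1) → ℂ) (P : MvPolynomial (Fin (n + 1)) ℂ) :
    aeval u P = eval u P := by
  rw [aeval_def, Algebra.algebraMap_self, eval₂_eq_eval_map, MvPolynomial.map_id]

variable {wt}

lemma eval_sc {P : MvPolynomial (Fin (n + 1)) ℂ} {e : ℕ} (hP : IsWeightedHomogeneous wt P e)
    (l : ℂ) (y : Fin (n + 1) → ℂ) : eval (sc wt l y) P = l ^ e * eval y P := by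
  have h1 := aeval_weight (S := ℂ) wt hP y l
  rw [aeval_complex, aeval_complex] at h1
  exact h1

lemma dev_eu {P : MvPolynomial (Fin (n + 1)) ℂ} {e : ℕ} (hP : IsWeightedHomogeneous wt P e)
    (y : Fin (n + 1) → ℂ) : dev P y (eu wt y) = e * eval y P := by
  have h1 := congrArg (eval y) hP.sum_weight_X_mul_pderiv
  rw [map_sum, map_nsmul, nsmul_eq_mul] at h1
  rw [dev, ← h1]
  refine Finset.sum_congr rfl fun i _ => ?_
  rw [map_nsmul, map_mul, eval_X, nsmul_eq_mul, eu]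
  ring

lemma dev_sc {P : MvPolynomial (Fin (n + 1)) ℂ} {e : ℕ} (hP : IsWeightedHomogeneous wt P e)
    (l : ℂ) (y w : Fin (n + 1) → ℂ) : dev P (sc wt l y) (sc wt l w) = l ^ e * dev P y w := by
  have h1 : HasDerivAt (fun s : ℂ => y + s • w) w 0 := by
    have h2 := ((hasDerivAt_id (0 : ℂ)).smul_const w).const_add y
    simpa using h2
  have h2 : HasDerivAt (fun s : ℂ => sc wt l (y + s • w)) (sc wt l w) 0 := by
    rw [hasDerivAt_pi]
    intro i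
    have h3 := (hasDerivAt_pi.mp h1 i).const_mul (l ^ wt i)
    exact h3
  have h3 := hasDerivAt_eval h2 P
  have h4 := (hasDerivAt_eval h1 P).const_mul (l ^ e)
  have h5 : (fun s : ℂ => eval (sc wt l (y + s • w)) P) =
      fun s : ℂ => l ^ e * eval (y + s • w) P := by
    funext s
    rw [eval_sc hP]
  rw [h5] at h3
  have h6 := h3.unique h4
  simpa using h6

end

section lift

variable {n : ℕ} (wt : Fin (n + 1) → ℕ)

/-- a family of local lifts, for weighted scaling -/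
def WLift (Y : ℂ → ℂ → Fin (n + 1) → ℂ) : Prop :=
  (∀ z₁, AnalyticAt ℂ (Y z₁) z₁) ∧ (∀ z₁, n1 wt (Y z₁ z₁) ≠ 0) ∧
  ∀ z₁, ∀ᶠ z in 𝓝 z₁, ∃ l : ℂ → ℂ, AnalyticAt ℂ l z ∧ l z ≠ 0 ∧ ∀ᶠ w in 𝓝 z,
    Y z w = sc wt (l w) (Y z₁ w)

lemma hasDerivAt_sc {l : ℂ → ℂ} {y : ℂ → Fin (n + 1) → ℂ} {z : ℂ} (hl : AnalyticAt ℂ l z)
    (hl0 : l z ≠ 0) (hy : AnalyticAt ℂ y z) :
    deriv (fun w => sc wt (l w) (y w)) z =
      sc wt (l z) (deriv y z + (deriv l z / l z) • eu wt (y z)) := by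
  have h1 : HasDerivAt l (deriv l z) z := hl.differentiableAt.hasDerivAt
  have h2 : HasDerivAt y (deriv y z) z := hy.differentiableAt.hasDerivAt
  have h3 : HasDerivAt (fun w => sc wt (l w) (y w))
      (sc wt (l z) (deriv y z + (deriv l z / l z) • eu wt (y z))) z := by
    rw [hasDerivAt_pi]
    intro i
    have h4 := (h1.pow (wt i)).mul (hasDerivAt_pi.mp h2 i)
    have h5 : sc wt (l z) (deriv y z + (deriv l z / l z) • eu wt (y z)) i =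
        ((wt i : ℂ) * l z ^ (wt i - 1) * deriv l z) * y z i + l z ^ wt i * deriv y z i := by
      rw [sc, Pi.add_apply, Pi.smul_apply, eu, smul_eq_mul]
      rcases Nat.eq_zero_or_pos (wt i) with h0 | h0
      · rw [h0]
        simp
      · have h6 : l z ^ wt i = l z ^ (wt i - 1) * l z := by
          rw [← pow_succ]
          congr 1
          omega
        rw [h6]
        field_simp
        ring
    rw [h5]
    exact h4
  exact h3.deriv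

lemma WLift.deriv_eq {wt} {Y : ℂ → ℂ → Fin (n + 1) → ℂ} {z₁ z : ℂ} {l : ℂ → ℂ}
    (hl1 : AnalyticAt ℂ l z) (hl2 : l z ≠ 0) (hl3 : ∀ᶠ w in 𝓝 z, Y z w = sc wt (l w) (Y z₁ w))
    (han : AnalyticAt ℂ (Y z₁) z) :
    Y z z = sc wt (l z) (Y z₁ z) ∧
      deriv (Y z) z = sc wt (l z) (deriv (Y z₁) z + (deriv l z / l z) • eu wt (Y z₁ z)) := by
  refine ⟨hl3.self_of_nhds, ?_⟩
  have h3 : Y z =ᶠ[𝓝 z] fun w => sc wt (l w) (Y z₁ w) := hl3
  rw [h3.deriv_eq]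
  exact hasDerivAt_sc wt hl1 hl2 han

/-- identity theorem for homogeneous analytic conditions -/
lemma WLift.identity {wt} {Y : ℂ → ℂ → Fin (n + 1) → ℂ} (hY : WLift wt Y)
    {E : (Fin (n + 1) → ℂ) → ℂ}
    (hE : AnalyticOnNhd ℂ E Set.univ) (hEs : ∀ y (l : ℂ), l ≠ 0 → (E (sc wt l y) = 0 ↔ E y = 0))
    {z₁ : ℂ} (h : ∀ᶠ z in 𝓝 z₁, E (Y z₁ z) = 0) (z₂ : ℂ) : ∀ᶠ z in 𝓝 z₂, E (Y z₂ z) = 0 := by
  obtain ⟨hYan, hY0, hYc⟩ := hY
  have han : ∀ z₁, AnalyticAt ℂ (fun z => E (Y z₁ z)) z₁ := fun z₁ =>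
    (hE _ (Set.mem_univ _)).comp (hYan z₁)
  have hloc : IsLocallyConstant fun z₁ => ∀ᶠ z in 𝓝 z₁, E (Y z₁ z) = 0 := by
    rw [IsLocallyConstant.iff_eventually_eq]
    intro z₁
    by_cases htop : ∀ᶠ z in 𝓝 z₁, E (Y z₁ z) = 0
    · have h1 := htop.eventually_nhds
      filter_upwards [h1, hYc z₁] with z hz ⟨l, hl1, hl2, hl3⟩
      rw [eq_iff_iff]
      refine iff_of_true ?_ htop
      filter_upwards [hz, hl3, hl1.continuousAt.eventually_ne hl2] with w hw1 hw2 hw3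
      rw [hw2, hEs _ _ hw3]
      exact hw1
    · have h1 : ∀ᶠ z in 𝓝[≠] z₁, E (Y z₁ z) ≠ 0 := by
        rcases (han z₁).eventually_eq_zero_or_eventually_ne_zero with h | h
        · exact absurd h htop
        · exact h
      rw [eventually_nhdsWithin_iff] at h1
      filter_upwards [h1, hYc z₁] with z hz ⟨l, hl1, hl2, hl3⟩
      rw [eq_iff_iff]
      refine iff_of_false ?_ htop
      rcases eq_or_ne z z₁ with rfl | hne
      · exact htop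
      · intro h2
        have h3 := h2.self_of_nhds
        rw [hl3.self_of_nhds, hEs _ _ hl2] at h3
        exact hz hne h3
  have h5 := hloc.apply_eq_of_preconnectedSpace z₂ z₁
  beta_reduce at h5
  rw [h5]
  exact h

end lift

section vec

variable {n : ℕ} (wt : Fin (n + 1) → ℕ) (A : ℕ)

/-- the vector of products of weighted degree `A` -/
noncomputable def ff (y : Fin (n + 1) → ℂ) :
    EuclideanSpace ℂ (Fin (n + 1) × {k : Fin (n + 1) // wt k = 1}) :=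
  WithLp.toLp 2 fun q => y q.1 * y q.2 ^ (A - wt q.1)

/-- its derivative -/
noncomputable def dff (y w : Fin (n + 1) → ℂ) :
    EuclideanSpace ℂ (Fin (n + 1) × {k : Fin (n + 1) // wt k = 1}) :=
  WithLp.toLp 2 fun q => w q.1 * y q.2 ^ (A - wt q.1) +
    y q.1 * ((A - wt q.1 : ℕ) * y q.2 ^ (A - wt q.1 - 1) * w q.2)

lemma ff_apply (y : Fin (n + 1) → ℂ) (q) : ff wt A y q = y q.1 * y q.2 ^ (A - wt q.1) := rfl

lemma dff_apply (y w : Fin (n + 1) → ℂ) (q) : dff wt A y w q = w q.1 * y q.2 ^ (A - wt q.1) +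
    y q.1 * ((A - wt q.1 : ℕ) * y q.2 ^ (A - wt q.1 - 1) * w q.2) := rfl

lemma analyticAt_ff {y : ℂ → Fin (n + 1) → ℂ} {z₁ : ℂ} (hy : AnalyticAt ℂ y z₁) :
    AnalyticAt ℂ (fun z => ff wt A (y z)) z₁ := by
  have h1 : AnalyticAt ℂ (fun z => fun q : Fin (n + 1) × {k : Fin (n + 1) // wt k = 1} =>
      y z q.1 * y z q.2 ^ (A - wt q.1)) z₁ := by
    rw [analyticAt_pi_iff]
    intro q
    exact ((analyticAt_pi_iff.mp hy) q.1).mul (((analyticAt_pi_iff.mp hy) q.2).pow _)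
  have h2 : (fun z => ff wt A (y z)) =
      (EuclideanSpace.equiv (Fin (n + 1) × {k : Fin (n + 1) // wt k = 1}) ℂ).symm ∘
        (fun z => fun q : Fin (n + 1) × {k : Fin (n + 1) // wt k = 1} =>
          y z q.1 * y z q.2 ^ (A - wt q.1)) := rfl
  rw [h2]
  exact (((EuclideanSpace.equiv (Fin (n + 1) × {k : Fin (n + 1) // wt k = 1}) ℂ).symm :
    (Fin (n + 1) × {k : Fin (n + 1) // wt k = 1} → ℂ) →L[ℂ]
      EuclideanSpace ℂ (Fin (n + 1) × {k : Fin (n + 1) // wt k = 1})).analyticAt _).comp h1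

lemma deriv_ff {y : ℂ → Fin (n + 1) → ℂ} {z : ℂ} (hy : AnalyticAt ℂ y z) :
    deriv (fun z => ff wt A (y z)) z = dff wt A (y z) (deriv y z) := by
  have hy' : HasDerivAt y (deriv y z) z := hy.differentiableAt.hasDerivAt
  have h1 : HasDerivAt (fun z => fun q : Fin (n + 1) × {k : Fin (n + 1) // wt k = 1} =>
      y z q.1 * y z q.2 ^ (A - wt q.1)) (fun q => deriv y z q.1 * y z q.2 ^ (A - wt q.1) +
    y z q.1 * ((A - wt q.1 : ℕ) * y z q.2 ^ (A - wt q.1 - 1) * deriv y z q.2)) z := by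
    rw [hasDerivAt_pi]
    intro q
    exact (hasDerivAt_pi.mp hy' q.1).mul ((hasDerivAt_pi.mp hy' q.2).pow _)
  have h2 := ((EuclideanSpace.equiv (Fin (n + 1) × {k : Fin (n + 1) // wt k = 1}) ℂ).symm :
    (Fin (n + 1) × {k : Fin (n + 1) // wt k = 1} → ℂ) →L[ℂ]
      EuclideanSpace ℂ (Fin (n + 1) × {k : Fin (n + 1) // wt k = 1})).hasFDerivAt.comp_hasDerivAt
        z h1
  exact h2.deriv

variable {wt A} (hA : ∀ i, wt i ≤ A)
include hA

lemma ff_sc (l : ℂ) (y : Fin (n + 1) → ℂ) : ff wt A (sc wt l y) = l ^ A • ff wt A y := by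
  ext q
  rw [PiLp.smul_apply, ff_apply, ff_apply, sc, sc, q.2.2, pow_one, smul_eq_mul, mul_pow]
  have h1 : l ^ A = l ^ wt q.1 * l ^ (A - wt q.1) := by
    rw [← pow_add, Nat.add_sub_cancel' (hA q.1)]
  rw [h1]
  ring

lemma dff_sc (l : ℂ) (y w : Fin (n + 1) → ℂ) :
    dff wt A (sc wt l y) (sc wt l w) = l ^ A • dff wt A y w := by
  ext q
  rw [PiLp.smul_apply, dff_apply, dff_apply, sc, sc, sc, sc, q.2.2, pow_one, smul_eq_mul, mul_pow,
    mul_pow]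
  have h1 : l ^ A = l ^ wt q.1 * l ^ (A - wt q.1) := by
    rw [← pow_add, Nat.add_sub_cancel' (hA q.1)]
  rcases Nat.eq_zero_or_pos (A - wt q.1) with h0 | h0
  · rw [h1, h0]
    simp
  · have h2 : l ^ (A - wt q.1) = l ^ (A - wt q.1 - 1) * l := by
      rw [← pow_succ]
      congr 1
      omega
    rw [h1, h2]
    ring

omit hA in
lemma n1_pow_le_ff (hA1 : 1 ≤ A) (y : Fin (n + 1) → ℂ) : n1 wt y ^ A ≤ ‖ff wt A y‖ := by
  by_cases h : n1 wt y = 0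
  · rw [h, zero_pow (by omega)]
    exact norm_nonneg _
  · obtain ⟨i, hi, hyi⟩ := exists_norm_eq_n1 wt h
    have h1 := PiLp.norm_apply_le (ff wt A y) (i, ⟨i, hi⟩)
    rw [ff_apply] at h1
    simp only [hi] at h1
    rw [norm_mul, norm_pow, hyi, ← pow_succ', Nat.sub_add_cancel hA1] at h1
    exact h1

/-- a small derivative of the vector forces a small derivative up to scaling -/
lemma exists_dff_bound (hA1 : 1 ≤ A) (K : ℝ) (hK : 1 ≤ K) :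
    ∃ C : ℝ, 1 ≤ C ∧ ∀ (y w : Fin (n + 1) → ℂ) (β : ℂ) (τ : ℝ), n1 wt y = 1 → ‖y‖ ≤ K →
      ‖dff wt A y w - β • ff wt A y‖ ≤ τ → ‖w - (β / A) • eu wt y‖ ≤ C * τ := by
  have hA0 : (A : ℂ) ≠ 0 := by exact_mod_cast (by omega : A ≠ 0)
  have hAr : (0 : ℝ) < A := by exact_mod_cast (by omega : 0 < A)
  refine ⟨1 + A * K, by nlinarith, ?_⟩
  intro y w β τ hy hyK hτ
  have hτ0 : 0 ≤ τ := (norm_nonneg _).trans hτ
  obtain ⟨k, hk, hyk⟩ := exists_norm_eq_n1 wt (by rw [hy]; exact one_ne_zero)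
  rw [hy] at hyk
  have hyk0 : y k ≠ 0 := by
    intro h0
    rw [h0, norm_zero] at hyk
    exact zero_ne_one hyk
  have hcoord : ∀ i : Fin (n + 1), ‖w i * y k ^ (A - wt i) +
      y i * ((A - wt i : ℕ) * y k ^ (A - wt i - 1) * w k) - β * (y i * y k ^ (A - wt i))‖ ≤ τ := by
    intro i
    have h1 := (PiLp.norm_apply_le (dff wt A y w - β • ff wt A y) (i, ⟨k, hk⟩)).trans hτ
    rw [PiLp.sub_apply, PiLp.smul_apply, dff_apply, ff_apply, smul_eq_mul] at h1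
    exact h1
  have hpow : ∀ m : ℕ, ‖y k ^ m‖ = 1 := fun m => by rw [norm_pow, hyk, one_pow]
  -- the coordinate `k`
  have h1 : ‖w k - β / A * y k‖ ≤ τ := by
    have h2 := hcoord k
    have h3 : w k * y k ^ (A - wt k) + y k * ((A - wt k : ℕ) * y k ^ (A - wt k - 1) * w k) -
        β * (y k * y k ^ (A - wt k)) = A * y k ^ (A - 1) * (w k - β / A * y k) := by
      rw [hk]
      have h4 : ((A - 1 : ℕ) : ℂ) = A - 1 := by
        rw [Nat.cast_sub hA1, Nat.cast_one]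
      rcases Nat.eq_zero_or_pos (A - 1) with h0 | h0
      · have hA' : A = 1 := by omega
        subst hA'
        simp
      · have h5 : y k ^ (A - 1) = y k ^ (A - 1 - 1) * y k := by
          rw [← pow_succ]
          congr 1
          omega
        rw [h4, h5]
        field_simp
        ring
    rw [h3, norm_mul, norm_mul, hpow, Complex.norm_natCast, mul_one] at h2
    have h4 : (1 : ℝ) ≤ A := by exact_mod_cast hA1
    calc ‖w k - β / A * y k‖ = 1 * ‖w k - β / A * y k‖ := (one_mul _).symm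
      _ ≤ A * ‖w k - β / A * y k‖ := by gcongr
      _ ≤ τ := h2
  rw [pi_norm_le_iff_of_nonneg (by positivity)]
  intro i
  rw [Pi.sub_apply, Pi.smul_apply, eu, smul_eq_mul]
  have h2 := hcoord i
  have h3 : (A : ℂ) = wt i + (A - wt i : ℕ) := by
    rw [← Nat.cast_add, Nat.add_sub_cancel' (hA i)]
  -- the identity
  have h4 : w i * y k ^ (A - wt i) + y i * ((A - wt i : ℕ) * y k ^ (A - wt i - 1) * w k) -
      β * (y i * y k ^ (A - wt i)) = y k ^ (A - wt i) * (w i - β / A * (wt i * y i)) +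
        y i * ((A - wt i : ℕ) * y k ^ (A - wt i - 1) * (w k - β / A * y k)) := by
    rcases Nat.eq_zero_or_pos (A - wt i) with h0 | h0
    · have h5 : (A : ℂ) = wt i := by
        rw [h3, h0, Nat.cast_zero, add_zero]
      rw [h0, ← h5]
      simp only [pow_zero, Nat.cast_zero]
      field_simp
      ring
    · have h5 : y k ^ (A - wt i) = y k ^ (A - wt i - 1) * y k := by
        rw [← pow_succ]
        congr 1
        omega
      have h6 : ((A - wt i : ℕ) : ℂ) = A - wt i := by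
        rw [Nat.cast_sub (hA i)]
      rw [h5, h6]
      field_simp
      ring
  rw [h4] at h2
  have h5 : ‖y i * ((A - wt i : ℕ) * y k ^ (A - wt i - 1) * (w k - β / A * y k))‖ ≤
      A * K * τ := by
    rw [norm_mul, norm_mul, norm_mul, hpow, Complex.norm_natCast, mul_one]
    have h6 : ‖y i‖ ≤ K := (norm_le_pi_norm y i).trans hyK
    have h7 : ((A - wt i : ℕ) : ℝ) ≤ A := by exact_mod_cast Nat.sub_le _ _
    calc ‖y i‖ * (((A - wt i : ℕ) : ℝ) * ‖w k - β / A * y k‖) ≤ K * (A * τ) := by gcongr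
      _ = A * K * τ := by ring
  have h6 : ‖y k ^ (A - wt i) * (w i - β / A * (wt i * y i))‖ = ‖w i - β / A * (wt i * y i)‖ := by
    rw [norm_mul, hpow, one_mul]
  rw [← h6]
  have h7 : y k ^ (A - wt i) * (w i - β / A * (wt i * y i)) =
      (y k ^ (A - wt i) * (w i - β / A * (wt i * y i)) +
        y i * ((A - wt i : ℕ) * y k ^ (A - wt i - 1) * (w k - β / A * y k))) -
        y i * ((A - wt i : ℕ) * y k ^ (A - wt i - 1) * (w k - β / A * y k)) := by ring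
  rw [h7]
  refine (norm_sub_le _ _).trans ?_
  calc _ ≤ τ + A * K * τ := by gcongr
    _ = (1 + A * K) * τ := by ring

end vec

end Pool.Agent.Lib.GGL
end

section

/-!
The growth argument on weighted cones.
-/

open Filter Topology Metric MvPolynomial

namespace Pool.Agent.Lib.GGL

section

variable {n : ℕ} {H : Type*} [Fintype H] [DecidableEq H] (P : H → MvPolynomial (Fin (n + 1)) ℂ)
  (wt : Fin (n + 1) → ℕ)

/-- the compact section of the cone -/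
lemma isCompact_section {Z : Set (Fin (n + 1) → ℂ)} (hZ : IsClosed Z) {K₀ : ℝ}
    (hbd : ∀ y ∈ Z, n1 wt y = 1 → ‖y‖ ≤ K₀) : IsCompact ({y | n1 wt y = 1} ∩ Z) := by
  apply Metric.isCompact_of_isClosed_isBounded
  · exact (isClosed_eq (continuous_n1 wt) continuous_const).inter hZ
  · rw [isBounded_iff_forall_norm_le]
    exact ⟨K₀, fun y hy => hbd y hy.2 hy.1⟩

/-- a lower bound on a closed cone -/
lemma lower_boundW {m : ℕ} (hm : 0 < m) (t : ℕ) (𝓑 : Finset (Finset H))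
    {Z : Set (Fin (n + 1) → ℂ)} (hZ : IsClosed Z) {K₀ : ℝ}
    (hbd : ∀ y ∈ Z, n1 wt y = 1 → ‖y‖ ≤ K₀)
    (hcov : ∀ y ∈ Z, n1 wt y ≠ 0 → ∃ B ∈ 𝓑, ∀ j, eval y (P j) = 0 → j ∈ B) :
    ∃ c : ℝ, 0 < c ∧ ∀ (x : EuclideanSpace ℂ H) (y : Fin (n + 1) → ℂ), n1 wt y = 1 → y ∈ Z →
      (∀ j, eval y (P j) = x j ^ m) → c ≤ ∑ B ∈ 𝓑, ∏ j ∈ Bᶜ, ‖x j‖ ^ t := by
  obtain ⟨F, hF⟩ : ∃ F : (Fin (n + 1) → ℂ) → ℝ, F = fun y =>
    ∑ B ∈ 𝓑, ∏ j ∈ Bᶜ, (‖eval y (P j)‖ ^ ((m : ℝ)⁻¹)) ^ t := ⟨_, rfl⟩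
  have hFc : Continuous F := by
    rw [hF]
    apply continuous_finsetSum
    intro B _
    apply continuous_finsetProd
    intro j _
    exact ((continuous_eval (P j)).norm.rpow_const (fun _ => Or.inr (by positivity))).pow _
  have hxF : ∀ (x : EuclideanSpace ℂ H) (y : Fin (n + 1) → ℂ), (∀ j, eval y (P j) = x j ^ m) →
      F y = ∑ B ∈ 𝓑, ∏ j ∈ Bᶜ, ‖x j‖ ^ t := by
    intro x y hxy
    rw [hF]
    beta_reduce
    refine Finset.sum_congr rfl fun B _ => Finset.prod_congr rfl fun j _ => ?_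
    rw [hxy, norm_pow, Real.pow_rpow_inv_natCast (norm_nonneg _) hm.ne']
  have hpos : ∀ y ∈ {y | n1 wt y = 1} ∩ Z, 0 < F y := by
    rintro y ⟨hy1, hyZ⟩
    have hy0 : n1 wt y ≠ 0 := by
      rw [hy1]
      exact one_ne_zero
    obtain ⟨B, hB, hB2⟩ := hcov y hyZ hy0
    rw [hF]
    apply Finset.sum_pos'
    · intro B _
      exact Finset.prod_nonneg fun j _ => by positivity
    · refine ⟨B, hB, ?_⟩
      apply Finset.prod_pos
      intro j hj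
      have : eval y (P j) ≠ 0 := by
        intro h
        rw [Finset.mem_compl] at hj
        exact hj (hB2 j h)
      have h1 : 0 < ‖eval y (P j)‖ := norm_pos_iff.mpr this
      positivity
  have hK := isCompact_section wt hZ hbd
  rcases ({y | n1 wt y = 1} ∩ Z).eq_empty_or_nonempty with hne | hne
  · refine ⟨1, one_pos, ?_⟩
    intro x y hy hyZ _
    have : y ∈ {y | n1 wt y = 1} ∩ Z := ⟨hy, hyZ⟩
    rw [hne] at this
    exact absurd this (Set.notMem_empty _)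
  · obtain ⟨y₀, hy₀, hmin⟩ := hK.exists_isMinOn hne hFc.continuousOn
    refine ⟨F y₀, hpos y₀ hy₀, ?_⟩
    intro x y hy hyZ hxy
    rw [← hxF x y hxy]
    exact hmin ⟨hy, hyZ⟩

omit [DecidableEq H] in
/-- one of the coordinates is large -/
lemma max_boundW {m : ℕ} (hm : 0 < m) {Z : Set (Fin (n + 1) → ℂ)} (hZ : IsClosed Z) {K₀ : ℝ}
    (hbd : ∀ y ∈ Z, n1 wt y = 1 → ‖y‖ ≤ K₀)
    (hsep : ∀ y ∈ Z, n1 wt y ≠ 0 → ∃ j, eval y (P j) ≠ 0) :
    ∃ c : ℝ, 0 < c ∧ ∀ (x : EuclideanSpace ℂ H) (y : Fin (n + 1) → ℂ), n1 wt y = 1 → y ∈ Z →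
      (∀ j, eval y (P j) = x j ^ m) → ∃ j, c ≤ ‖x j‖ := by
  classical
  obtain ⟨F, hF⟩ : ∃ F : (Fin (n + 1) → ℂ) → ℝ, F = fun y => ∑ j, ‖eval y (P j)‖ := ⟨_, rfl⟩
  have hFc : Continuous F := by
    rw [hF]
    apply continuous_finsetSum
    intro j _
    exact (continuous_eval (P j)).norm
  have hK := isCompact_section wt hZ hbd
  rcases ({y | n1 wt y = 1} ∩ Z).eq_empty_or_nonempty with hne | hne
  · refine ⟨1, one_pos, ?_⟩
    intro x y hy hyZ _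
    have : y ∈ {y | n1 wt y = 1} ∩ Z := ⟨hy, hyZ⟩
    rw [hne] at this
    exact absurd this (Set.notMem_empty _)
  obtain ⟨y₀, hy₀, hmin⟩ := hK.exists_isMinOn hne hFc.continuousOn
  have hF0 : 0 < F y₀ := by
    have h0 : 0 ≤ F y₀ := by
      rw [hF]
      exact Finset.sum_nonneg fun j _ => norm_nonneg _
    rcases h0.lt_or_eq with h | h
    · exact h
    · exfalso
      rw [hF] at h
      have h2 := (Finset.sum_eq_zero_iff_of_nonneg fun j _ => norm_nonneg _).mp h.symm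
      obtain ⟨j, hj⟩ := hsep y₀ hy₀.2 (by rw [hy₀.1]; exact one_ne_zero)
      exact hj (norm_eq_zero.mp (h2 j (Finset.mem_univ _)))
  obtain ⟨h, hh⟩ : ∃ h : ℝ, h = Fintype.card H := ⟨_, rfl⟩
  have hh0 : 0 < h := by
    rw [hh]
    have : Nonempty H := by
      by_contra hcon
      rw [not_nonempty_iff] at hcon
      rw [hF] at hF0
      simp at hF0
    exact_mod_cast Fintype.card_pos
  refine ⟨min 1 (F y₀ / h), by positivity, ?_⟩
  intro x y hy hyZ hxy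
  by_contra hcon
  push Not at hcon
  have h1 : ∀ j, ‖eval y (P j)‖ < F y₀ / h := by
    intro j
    rw [hxy, norm_pow]
    have h2 := hcon j
    have h3 : ‖x j‖ < 1 := h2.trans_le (min_le_left _ _)
    calc ‖x j‖ ^ m ≤ ‖x j‖ ^ 1 := pow_le_pow_of_le_one (norm_nonneg _) h3.le hm
      _ = ‖x j‖ := pow_one _
      _ < F y₀ / h := h2.trans_le (min_le_right _ _)
  have h3 : F y₀ ≤ F y := hmin ⟨hy, hyZ⟩
  have h4 : F y < F y₀ := by
    have hne : (Finset.univ : Finset H).Nonempty := by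
      rw [Finset.univ_nonempty_iff]
      by_contra hc
      rw [not_nonempty_iff] at hc
      rw [hh] at hh0
      simp at hh0
    have h5 : ∑ j, ‖eval y (P j)‖ < ∑ _j : H, F y₀ / h :=
      Finset.sum_lt_sum_of_nonempty hne fun j _ => h1 j
    rw [Finset.sum_const, Finset.card_univ, nsmul_eq_mul, ← hh, mul_div_cancel₀ _ hh0.ne'] at h5
    have h6 : F y = ∑ j, ‖eval y (P j)‖ := by rw [hF]
    rw [h6]
    exact h5
  linarith

omit [DecidableEq H] in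
/-- the coordinates are bounded -/
lemma up_boundW {m : ℕ} (hm : 0 < m) (K₀ : ℝ) :
    ∃ K : ℝ, 1 ≤ K ∧ (∀ (x : EuclideanSpace ℂ H) (y : Fin (n + 1) → ℂ), ‖y‖ ≤ K₀ →
      (∀ j, eval y (P j) = x j ^ m) → ‖x‖ ≤ K) ∧
      ∀ (y w : Fin (n + 1) → ℂ) (j : H), ‖y‖ ≤ K₀ → ‖dev (P j) y w‖ ≤ K * ‖w‖ := by
  classical
  have h1 : ∀ j, ∃ M : ℝ, 1 ≤ M ∧ ∀ y : Fin (n + 1) → ℂ, ‖y‖ ≤ K₀ → ‖eval y (P j)‖ ≤ M := by
    intro j
    obtain ⟨C, hC⟩ := ((isCompact_closedBall (0 : Fin (n + 1) → ℂ) K₀).image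
      (continuous_eval (P j)).norm).bddAbove
    refine ⟨max 1 C, le_max_left _ _, ?_⟩
    intro y hy
    exact (hC ⟨y, by rwa [mem_closedBall_zero_iff], rfl⟩).trans (le_max_right _ _)
  choose M hM1 hM using h1
  have h2 : ∀ j, ∃ M' : ℝ, 0 ≤ M' ∧ ∀ y : Fin (n + 1) → ℂ, ‖y‖ ≤ K₀ →
      ∑ i, ‖eval y (pderiv i (P j))‖ ≤ M' := by
    intro j
    have hc : Continuous fun y : Fin (n + 1) → ℂ => ∑ i, ‖eval y (pderiv i (P j))‖ := by
      apply continuous_finsetSum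
      intro i _
      exact (continuous_eval _).norm
    obtain ⟨C, hC⟩ := ((isCompact_closedBall (0 : Fin (n + 1) → ℂ) K₀).image hc).bddAbove
    refine ⟨max 0 C, le_max_left _ _, ?_⟩
    intro y hy
    exact (hC ⟨y, by rwa [mem_closedBall_zero_iff], rfl⟩).trans (le_max_right _ _)
  choose M' hM'0 hM' using h2
  refine ⟨1 + ∑ j, M j + ∑ j, M' j, ?_, ?_, ?_⟩
  · have e1 : 0 ≤ ∑ j, M j := Finset.sum_nonneg fun j _ => (zero_le_one.trans (hM1 j))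
    have e2 : 0 ≤ ∑ j, M' j := Finset.sum_nonneg fun j _ => hM'0 j
    linarith
  · intro x y hy hxy
    have h3 : ∀ j, ‖x j‖ ≤ M j := by
      intro j
      by_cases h4 : ‖x j‖ ≤ 1
      · exact h4.trans (hM1 j)
      · push Not at h4
        calc ‖x j‖ = ‖x j‖ ^ 1 := (pow_one _).symm
          _ ≤ ‖x j‖ ^ m := pow_le_pow_right₀ h4.le hm
          _ = ‖eval y (P j)‖ := by rw [hxy, norm_pow]
          _ ≤ M j := hM j y hy
    have h4 : ‖x‖ ≤ ∑ j, ‖x j‖ := by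
      have h5 : ‖x‖ ^ 2 ≤ (∑ j, ‖x j‖) ^ 2 := by
        rw [EuclideanSpace.norm_sq_eq, sq (∑ j, ‖x j‖), Finset.sum_mul]
        apply Finset.sum_le_sum
        intro j _
        rw [sq]
        exact mul_le_mul_of_nonneg_left (Finset.single_le_sum (f := fun j => ‖x j‖)
          (fun j _ => norm_nonneg _) (Finset.mem_univ j)) (norm_nonneg _)
      exact le_of_sq_le_sq h5 (Finset.sum_nonneg fun j _ => norm_nonneg _)
    have e2 : 0 ≤ ∑ j, M' j := Finset.sum_nonneg fun j _ => hM'0 j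
    have e3 : ∑ j, ‖x j‖ ≤ ∑ j, M j := Finset.sum_le_sum fun j _ => h3 j
    linarith
  · intro y w j hy
    have h3 : ‖dev (P j) y w‖ ≤ M' j * ‖w‖ := by
      rw [dev]
      refine (norm_sum_le _ _).trans ?_
      calc ∑ i, ‖w i * eval y (pderiv i (P j))‖
          ≤ ∑ i, ‖w‖ * ‖eval y (pderiv i (P j))‖ := by
            apply Finset.sum_le_sum
            intro i _
            rw [norm_mul]
            exact mul_le_mul_of_nonneg_right (norm_le_pi_norm _ i) (norm_nonneg _)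
        _ = ‖w‖ * ∑ i, ‖eval y (pderiv i (P j))‖ := by rw [Finset.mul_sum]
        _ ≤ ‖w‖ * M' j := by
            exact mul_le_mul_of_nonneg_left (hM' j y hy) (norm_nonneg _)
        _ = M' j * ‖w‖ := mul_comm _ _
    refine h3.trans ?_
    have e1 : 0 ≤ ∑ j, M j := Finset.sum_nonneg fun j _ => (zero_le_one.trans (hM1 j))
    have e2 : M' j ≤ ∑ j, M' j := Finset.single_le_sum (f := M') (fun j _ => hM'0 j)
      (Finset.mem_univ j)
    gcongr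
    linarith

/-- The estimate on the section of the cone. -/
lemma pointwise_unitW {ed : ℕ} (hP : ∀ j, IsWeightedHomogeneous wt (P j) ed)
    {m e : ℕ} (hm : 0 < m) (he : 0 < e) (𝓑 : Finset (Finset H))
    {Z : Set (Fin (n + 1) → ℂ)} (hZ : IsClosed Z) {K₀ : ℝ}
    (hbd : ∀ y ∈ Z, n1 wt y = 1 → ‖y‖ ≤ K₀)
    (hsep : ∀ y ∈ Z, n1 wt y ≠ 0 → ∃ j, eval y (P j) ≠ 0)
    {T : (Fin (n + 1) → ℂ) → (Fin (n + 1) → ℂ) → Prop} (hTZ : ∀ y w, T y w → y ∈ Z)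
    (hT : ∀ y w (l μ c : ℂ), l ≠ 0 → T y w → T (sc wt l y) (c • sc wt l (w + μ • eu wt y)))
    (hcov : ∀ y ∈ Z, n1 wt y ≠ 0 → ∃ B ∈ 𝓑, ∀ j, eval y (P j) = 0 → j ∈ B)
    (G : (Fin (n + 1) → ℂ) → (Fin (n + 1) → ℂ) → ℂ) (hG : FacH P T 𝓑 G)
    (hJ1 : ∀ y w (μ : ℂ), G y (w + μ • eu wt y) = G y w)
    (hJ2 : ∀ y w (c : ℂ), G y (c • w) = c ^ e * G y w) :
    ∃ C : ℝ, 0 ≤ C ∧ ∀ (x x' : EuclideanSpace ℂ H) (y w : Fin (n + 1) → ℂ) (β β' : ℂ) (τ : ℝ),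
      n1 wt y = 1 → T y w → (∀ j, eval y (P j) = x j ^ m) →
      (∀ j, dev (P j) y w = m * x j ^ (m - 1) * x' j) → 0 ≤ τ → ‖x' - β • x‖ ≤ τ * ‖x‖ →
      ‖w - β' • eu wt y‖ ≤ τ → ‖G y w‖ ≤ C * (∏ j, ‖x j‖ ^ (m - 1)) * τ ^ e := by
  obtain ⟨c, hc, hlow⟩ := lower_boundW P wt hm (m - 1) 𝓑 hZ hbd hcov
  obtain ⟨c₁, hc₁, hmax⟩ := max_boundW P wt hm hZ hbd hsep
  obtain ⟨K, hK1, hKx, hKd⟩ := up_boundW P hm K₀
  have hK0 : 0 < K := by linarith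
  -- bound for `v`
  obtain ⟨K₂, hK₂⟩ : ∃ K₂ : ℝ, K₂ = K + (K / (m * c₁ ^ (m - 1)) + K) / c₁ * K := ⟨_, rfl⟩
  have hm0 : (0 : ℝ) < m := by exact_mod_cast hm
  have hK₂0 : 0 < K₂ := by rw [hK₂]; positivity
  have hup : ∀ B ∈ 𝓑, ∃ C : ℝ, 0 ≤ C ∧ ∀ (x v : EuclideanSpace ℂ H) (y w : Fin (n + 1) → ℂ),
      ‖y‖ ≤ K₀ → ‖w‖ ≤ 1 → ‖v‖ ≤ K₂ → T y w → (∀ j, eval y (P j) = x j ^ m) →
      (∀ j, dev (P j) y w = m * x j ^ (m - 1) * v j) →
      ‖G y w‖ ≤ C * ∏ j ∈ B, ‖x j‖ ^ (m - 1) := by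
    intro B hB
    obtain ⟨α, β, hα, hβ, hGB⟩ := hG B hB
    choose Cα hCα0 hCα using fun i j => (hα i j).bound (max K₀ 1)
    choose Cβ hCβ0 hCβ using fun i j => (hβ i j).bound (max K₀ 1)
    obtain ⟨D, hD⟩ : ∃ D : ℝ, D = ∑ i, ∑ j, (K * Cα i j + m * (K₂ * Cβ i j)) := ⟨_, rfl⟩
    have hnn : ∀ i j, 0 ≤ K * Cα i j + m * (K₂ * Cβ i j) := fun i j =>
      add_nonneg (mul_nonneg hK0.le (hCα0 i j))
        (mul_nonneg hm0.le (mul_nonneg hK₂0.le (hCβ0 i j)))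
    have hD0 : 0 ≤ D := by
      rw [hD]
      exact Finset.sum_nonneg fun i _ => Finset.sum_nonneg fun j _ => hnn i j
    have hCD : ∀ i j, K * Cα i j + m * (K₂ * Cβ i j) ≤ D := by
      intro i j
      rw [hD]
      calc K * Cα i j + m * (K₂ * Cβ i j) ≤ ∑ j, (K * Cα i j + m * (K₂ * Cβ i j)) :=
            Finset.single_le_sum (f := fun j => K * Cα i j + m * (K₂ * Cβ i j))
              (fun j _ => hnn i j) (Finset.mem_univ j)
        _ ≤ ∑ i, ∑ j, (K * Cα i j + m * (K₂ * Cβ i j)) := Finset.single_le_sum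
            (f := fun i => ∑ j, (K * Cα i j + m * (K₂ * Cβ i j)))
            (fun i _ => Finset.sum_nonneg fun j _ => hnn i j) (Finset.mem_univ i)
    refine ⟨(B.card.factorial : ℝ) * D ^ B.card, by positivity, ?_⟩
    intro x v y w hy hw hv hTyw hxy hxw
    have hxj : ∀ j, ‖x j‖ ≤ K := fun j => (PiLp.norm_apply_le x j).trans (hKx x y hy hxy)
    have hvj : ∀ j, ‖v j‖ ≤ K₂ := fun j => (PiLp.norm_apply_le v j).trans hv
    have h1 : ∀ i j : B, ‖(Matrix.of fun i j : B =>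
        eval y (P j) * α i j y w + dev (P j) y w * β i j y w) i j‖ ≤ D * ‖x j‖ ^ (m - 1) := by
      intro i j
      rw [Matrix.of_apply]
      have e1 : x j ^ m = x j ^ (m - 1) * x j := by
        rw [← pow_succ]
        congr 1
        omega
      have e2 : eval y (P j) * α i j y w + dev (P j) y w * β i j y w =
          x j ^ (m - 1) * (x j * α i j y w + m * (v j * β i j y w)) := by
        rw [hxy, hxw, e1]
        ring
      rw [e2, norm_mul, norm_pow, mul_comm D]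
      have e3 : ‖x j * α i j y w + m * (v j * β i j y w)‖ ≤ K * Cα i j + m * (K₂ * Cβ i j) := by
        refine (norm_add_le _ _).trans ?_
        rw [norm_mul, norm_mul, norm_mul, Complex.norm_natCast]
        have e4 := hCα i j y w (hy.trans (le_max_left _ _)) (hw.trans (le_max_right _ _))
        have e5 := hCβ i j y w (hy.trans (le_max_left _ _)) (hw.trans (le_max_right _ _))
        gcongr
        · exact hxj j
        · exact hvj j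
      exact mul_le_mul_of_nonneg_left (e3.trans (hCD i j)) (by positivity)
    rw [hGB y w hTyw]
    refine (det_bound _ (fun j => D * ‖x j‖ ^ (m - 1)) h1).trans (le_of_eq ?_)
    rw [Finset.prod_mul_distrib, Finset.prod_const]
    ring
  choose! C hC0 hC using hup
  have hCs : 0 ≤ ∑ Z ∈ 𝓑, C Z := Finset.sum_nonneg hC0
  refine ⟨(∑ Z ∈ 𝓑, C Z) / c, by positivity, ?_⟩
  intro x x' y w β β' τ hy hTyw hxy hxw hτ hx' hw
  have hyZ : y ∈ Z := hTZ y w hTyw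
  have hyK : ‖y‖ ≤ K₀ := hbd y hyZ hy
  -- shift
  obtain ⟨w₁, hw₁⟩ : ∃ w₁, w₁ = w - β' • eu wt y := ⟨_, rfl⟩
  obtain ⟨v, hv⟩ : ∃ v, v = x' - (ed * β' / m) • x := ⟨_, rfl⟩
  rw [← hw₁] at hw
  have hmc : (m : ℂ) ≠ 0 := by exact_mod_cast hm.ne'
  have hw₁' : w₁ = w + (-β') • eu wt y := by
    rw [hw₁, neg_smul, sub_eq_add_neg]
  have hTw₁ : T y w₁ := by
    have h1 := hT y w 1 (-β') 1 one_ne_zero hTyw
    rwa [sc_one, sc_one, one_smul, ← hw₁'] at h1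
  have hGw : G y w₁ = G y w := by rw [hw₁', hJ1]
  have hdw₁ : ∀ j, dev (P j) y w₁ = m * x j ^ (m - 1) * v j := by
    intro j
    have h1 : x j ^ m = x j ^ (m - 1) * x j := by
      rw [← pow_succ]
      congr 1
      omega
    rw [hw₁, dev_sub, dev_smul, dev_eu (hP j), hxw, hxy, hv, h1]
    simp only [PiLp.sub_apply, PiLp.smul_apply, smul_eq_mul]
    field_simp
  have hxK := hKx x y hyK hxy
  have hxpos : 0 < ‖x‖ := by
    obtain ⟨j, hj⟩ := hmax x y hy hyZ hxy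
    exact (hc₁.trans_le hj).trans_le (PiLp.norm_apply_le x j)
  have hvb : ‖v‖ ≤ K₂ * τ := by
    obtain ⟨j, hj⟩ := hmax x y hy hyZ hxy
    have hxj : 0 < ‖x j‖ := hc₁.trans_le hj
    obtain ⟨ν, hν⟩ : ∃ ν : ℂ, ν = β - ed * β' / m := ⟨_, rfl⟩
    have e1 : v = (x' - β • x) + ν • x := by
      rw [hv, hν, sub_smul]
      abel
    have e2 : ‖v j‖ ≤ K / (m * c₁ ^ (m - 1)) * τ := by
      have e3 := hKd y w₁ j hyK
      rw [hdw₁, norm_mul, norm_mul, norm_pow, Complex.norm_natCast] at e3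
      have e4 : (m * c₁ ^ (m - 1)) * ‖v j‖ ≤ K * τ := by
        calc (m * c₁ ^ (m - 1)) * ‖v j‖ ≤ (m * ‖x j‖ ^ (m - 1)) * ‖v j‖ := by gcongr
          _ ≤ K * ‖w₁‖ := e3
          _ ≤ K * τ := by gcongr
      have e5 : 0 < m * c₁ ^ (m - 1) := by positivity
      rw [div_mul_eq_mul_div, le_div_iff₀ e5]
      linarith
    have e3 : ‖ν‖ * ‖x j‖ ≤ K / (m * c₁ ^ (m - 1)) * τ + K * τ := by
      have e4 : ν * x j = v j - (x' - β • x) j := by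
        rw [e1]
        simp only [PiLp.add_apply, PiLp.smul_apply, smul_eq_mul]
        ring
      rw [← norm_mul, e4]
      refine (norm_sub_le _ _).trans ?_
      have e5 : ‖(x' - β • x) j‖ ≤ K * τ := by
        refine (PiLp.norm_apply_le _ j).trans (hx'.trans ?_)
        rw [mul_comm]
        gcongr
      linarith
    have e4 : ‖ν‖ ≤ (K / (m * c₁ ^ (m - 1)) + K) / c₁ * τ := by
      rw [div_mul_eq_mul_div, le_div_iff₀ hc₁]
      calc ‖ν‖ * c₁ ≤ ‖ν‖ * ‖x j‖ := by gcongr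
        _ ≤ K / (m * c₁ ^ (m - 1)) * τ + K * τ := e3
        _ = _ := by ring
    rw [e1, hK₂]
    refine (norm_add_le _ _).trans ?_
    rw [norm_smul]
    calc ‖x' - β • x‖ + ‖ν‖ * ‖x‖
        ≤ τ * K + ((K / (m * c₁ ^ (m - 1)) + K) / c₁ * τ) * K := by
          gcongr
          exact hx'.trans (by gcongr)
      _ = _ := by ring
  rw [← hGw]
  rcases hτ.eq_or_lt with h0 | hpos
  · have hw10 : w₁ = 0 := by
      rw [← norm_le_zero_iff, h0]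
      exact hw
    have h1 : G y w₁ = 0 := by
      have h2 := hJ2 y 0 0
      rw [smul_zero, zero_pow he.ne', zero_mul] at h2
      rw [hw10, h2]
    rw [h1, norm_zero]
    positivity
  · have hτc : (τ : ℂ) ≠ 0 := by exact_mod_cast hpos.ne'
    obtain ⟨w₂, hw₂⟩ : ∃ w₂, w₂ = (τ : ℂ)⁻¹ • w₁ := ⟨_, rfl⟩
    have hT₂ : T y w₂ := by
      have h1 := hT y w₁ 1 0 (τ : ℂ)⁻¹ one_ne_zero hTw₁
      rwa [sc_one, sc_one, zero_smul, add_zero, ← hw₂] at h1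
    have hw₂n : ‖w₂‖ ≤ 1 := by
      rw [hw₂, norm_smul, norm_inv, Complex.norm_real, Real.norm_of_nonneg hτ]
      rw [inv_mul_le_iff₀ hpos, mul_one]
      exact hw
    have hv₂n : ‖(τ : ℂ)⁻¹ • v‖ ≤ K₂ := by
      rw [norm_smul, norm_inv, Complex.norm_real, Real.norm_of_nonneg hτ,
        inv_mul_le_iff₀ hpos, mul_comm]
      exact hvb
    have hd₂ : ∀ j, dev (P j) y w₂ = m * x j ^ (m - 1) * ((τ : ℂ)⁻¹ • v) j := by
      intro j
      rw [hw₂, dev_smul, hdw₁, PiLp.smul_apply, smul_eq_mul]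
      ring
    have hG₂ : G y w₁ = (τ : ℂ) ^ e * G y w₂ := by
      rw [hw₂, hJ2, ← mul_assoc, ← mul_pow, mul_inv_cancel₀ hτc, one_pow, one_mul]
    have h1 := hlow x y hy hyZ hxy
    have hU : ∀ Z ∈ 𝓑, ‖G y w₂‖ * ∏ j ∈ Zᶜ, ‖x j‖ ^ (m - 1) ≤
        C Z * ∏ j, ‖x j‖ ^ (m - 1) := by
      intro Z hZ
      have h2 := hC Z hZ x _ y w₂ hyK hw₂n hv₂n hT₂ hxy hd₂
      calc ‖G y w₂‖ * ∏ j ∈ Zᶜ, ‖x j‖ ^ (m - 1)
          ≤ (C Z * ∏ j ∈ Z, ‖x j‖ ^ (m - 1)) * ∏ j ∈ Zᶜ, ‖x j‖ ^ (m - 1) :=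
            mul_le_mul_of_nonneg_right h2 (Finset.prod_nonneg fun i _ => by positivity)
        _ = C Z * ((∏ j ∈ Z, ‖x j‖ ^ (m - 1)) * ∏ j ∈ Zᶜ, ‖x j‖ ^ (m - 1)) := by ring
        _ = _ := by rw [Finset.prod_mul_prod_compl]
    have h3 : ‖G y w₂‖ * c ≤ (∑ Z ∈ 𝓑, C Z) * ∏ j, ‖x j‖ ^ (m - 1) := by
      calc ‖G y w₂‖ * c ≤ ‖G y w₂‖ * ∑ Z ∈ 𝓑, ∏ j ∈ Zᶜ, ‖x j‖ ^ (m - 1) :=
            mul_le_mul_of_nonneg_left h1 (norm_nonneg _)
        _ = ∑ Z ∈ 𝓑, ‖G y w₂‖ * ∏ j ∈ Zᶜ, ‖x j‖ ^ (m - 1) := by rw [Finset.mul_sum]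
        _ ≤ ∑ Z ∈ 𝓑, C Z * ∏ j, ‖x j‖ ^ (m - 1) := Finset.sum_le_sum hU
        _ = _ := by rw [Finset.sum_mul]
    rw [hG₂, norm_mul, norm_pow, Complex.norm_real, Real.norm_of_nonneg hτ]
    calc τ ^ e * ‖G y w₂‖ = τ ^ e * ((‖G y w₂‖ * c) / c) := by field_simp
      _ ≤ τ ^ e * (((∑ Z ∈ 𝓑, C Z) * ∏ j, ‖x j‖ ^ (m - 1)) / c) := by gcongr
      _ = _ := by ring

end

end Pool.Agent.Lib.GGL
end
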