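import Mathlib
import Pool.Agent.Lib.MP_8d161d_ag.Mg.G020
import Pool.Agent.Lib.MP_8d161d_ag.Strong
import Pool.Agent.Lib.MP_8d161d_ag.Mg.G021
import Pool.Agent.Lib.MP_8d161d_ag.Cover
import Pool.Agent.Lib.MP_8d161d_ag.Mg.G025

section

/-!
The main theorem on curves ramified over hyperplanes admitting a norm form.
-/

open MvPolynomial Module Filter Topology Metric

namespace Pool.Agent.Lib.GGL

lemma choose_lt_aux {t k D' : ℕ} (ht : 1 ≤ t) (hD' : 1 ≤ D') :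
    (t + k).choose k < (t + (k + D')).choose (k + D') := by
  have h1 : (t + k).choose k = (t + k).choose t := by
    rw [Nat.choose_symm_add]
  have h2 : (t + (k + D')).choose (k + D') = (t + (k + D')).choose t := by
    rw [Nat.choose_symm_add]
  rw [h1, h2]
  obtain ⟨t', rfl⟩ : ∃ t', t = t' + 1 := ⟨t - 1, by omega⟩
  have h3 : (t' + 1 + k + 1).choose (t' + 1) =
      (t' + 1 + k).choose t' + (t' + 1 + k).choose (t' + 1) := Nat.choose_succ_succ _ _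
  have h4 : 0 < (t' + 1 + k).choose t' := Nat.choose_pos (by omega)
  have h5 : (t' + 1 + k + 1).choose (t' + 1) ≤ (t' + 1 + (k + D')).choose (t' + 1) :=
    Nat.choose_le_choose _ (by omega)
  omega

section

variable {t : ℕ}

lemma wr_scale (x : Fin (t + 1) → ℂ) (v₀ v₁ : MvPolynomial (Fin (t + 1)) ℂ) (α β : ℂ) :
    wr x (C α * v₀) (C α * v₁ + C β * v₀) = C (α ^ 2) * wr x v₀ v₁ := by
  rw [wr, wr]
  simp only [map_mul, map_add, eval_C, map_pow]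
  ring

lemma wr_smul (x : Fin (t + 1) → ℂ) (v₀ v₁ : MvPolynomial (Fin (t + 1)) ℂ) (α : ℂ) :
    wr x v₀ (C α * v₁) = C α * wr x v₀ v₁ := by
  rw [wr, wr]
  simp only [map_mul, eval_C]
  ring

/-- constant coefficient as an algebra homomorphism -/
noncomputable def ccA : PowerSeries ℂ →ₐ[ℂ] ℂ :=
  { (PowerSeries.constantCoeff : PowerSeries ℂ →+* ℂ) with
    commutes' := fun r => PowerSeries.constantCoeff_C r }

lemma ccA_apply (f : PowerSeries ℂ) : ccA f = PowerSeries.constantCoeff f := rfl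

end

/-- A curve ramified over hyperplanes admitting a norm form is constant, if the norm form does not
acquire a square factor along the curve. -/
theorem curve_const {n t : ℕ} {ι : Type} [Finite ι] {p : ι → Fin (n + 1) → ℂ}
    {x : ι → Fin (t + 1) → ℂ} {N : MvPolynomial (Fin (n + 1) ⊕ Fin (t + 1)) ℂ} {DY D b k : ℕ}
    (h : NData p x N DY D b) (ht : 1 ≤ t) (hDk : D ≤ k) (hkb : k + 3 * D ≤ b)
    (hnum : ∀ D', 1 ≤ D' → D' ≤ D →
      4 * (DY + 1) * ((t + (k + D')).choose (k + D') - (t + k).choose k) <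
        (t + (k + D')).choose (k + D'))
    {Y : ℂ → ℂ → Fin (n + 1) → ℂ} (hY : LiftFamily Y)
    (htop : ∀ j z₁, analyticOrderAt (fun z => p j ⬝ᵥ Y z₁ z) z₁ ≠ ⊤)
    (hord : ∀ j z₁, analyticOrderAt (fun z => p j ⬝ᵥ Y z₁ z) z₁ = 0 ∨
      (2 : ℕ∞) ≤ analyticOrderAt (fun z => p j ⬝ᵥ Y z₁ z) z₁)
    {z₁ : ℂ} (hsq : ∀ π : MvPolynomial (Fin (t + 1)) (PowerSeries ℂ), π.totalDegree ≠ 0 →
      ¬ π ^ 2 ∣ sp (fun i => tayHom z₁ (yA hY z₁ i)) N)
    (z w : ℂ) : ∃ c : ℂ, c ≠ 0 ∧ Y z z = c • Y w w := by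
  classical
  have hfin : Fintype ι := Fintype.ofFinite ι
  obtain ⟨F₀, hF₀⟩ : ∃ F₀, F₀ = sp (fun i => tayHom z₁ (yA hY z₁ i)) N := ⟨_, rfl⟩
  have hF₀h : F₀.IsHomogeneous D := by
    rw [hF₀]
    exact sp_isHomogeneous h.homT _
  have hcc : map (ccA : PowerSeries ℂ →+* ℂ) F₀ = sp (Y z₁ z₁) N := by
    rw [hF₀, map_sp]
    congr 1
    congr 1
    funext i
    exact constantCoeff_yA hY z₁ i
  have hF₀0 : F₀ ≠ 0 := by
    intro h0
    rw [h0, map_zero] at hcc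
    exact h.nz _ (hY.2.1 z₁) hcc.symm
  obtain ⟨c, F, hF, hconst⟩ := exists_const_factor D F₀ hF₀0 hF₀h.totalDegree_le
  have hF0 : F ≠ 0 := by
    rintro rfl
    rw [mul_zero] at hF
    exact hF₀0 hF
  have hc0 : c ≠ 0 := by
    rintro rfl
    rw [map_zero, zero_mul] at hF
    exact hF₀0 hF
  have hmc0 : map (algebraMap ℂ (PowerSeries ℂ)) c ≠ 0 := by
    intro h0
    rw [h0, zero_mul] at hF
    exact hF₀0 hF
  obtain ⟨dc, hdc⟩ := isHomogeneous_of_dvd hF₀h hF₀0 ⟨F, hF⟩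
  have hch : c.IsHomogeneous dc := hdc.of_map (FaithfulSMul.algebraMap_injective _ _)
  obtain ⟨D', hFh⟩ := isHomogeneous_of_dvd hF₀h hF₀0 (Dvd.intro_left _ hF.symm)
  have hDD : dc + D' = D := by
    have h1 := hdc.mul hFh
    rw [← hF] at h1
    exact h1.inj_right hF₀h hF₀0
  have hsq' : ∀ π : MvPolynomial (Fin (t + 1)) (PowerSeries ℂ), π.totalDegree ≠ 0 →
      ¬ π ^ 2 ∣ F := by
    intro π hπ hdv
    apply hsq π hπ
    rw [← hF₀, hF]
    exact hdv.mul_left _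
  -- division by `c`
  obtain ⟨H', L', -, hL'h, -, hL'⟩ := exists_interp (d := D')
    (fun j : {j // eval (x j) c ≠ 0} => x j) (fun Q hQ hv =>
      h.dense_sub hch hc0 hQ (by omega) fun j hj => hv ⟨j, hj⟩)
  obtain ⟨x', hx'⟩ : ∃ x' : H' → Fin (t + 1) → ℂ, x' = fun j => x j.1.1 := ⟨_, rfl⟩
  obtain ⟨Lc, hLc⟩ : ∃ Lc : H' → MvPolynomial (Fin (t + 1)) ℂ, Lc = fun j => L' j.1 := ⟨_, rfl⟩
  have hLch : ∀ j, (Lc j).IsHomogeneous D' := by
    intro j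
    rw [hLc]
    exact hL'h _
  have hLcI : ∀ Q : MvPolynomial (Fin (t + 1)) ℂ, Q.IsHomogeneous D' →
      Q = ∑ j, eval (x' j) Q • Lc j := by
    intro Q hQ
    have h1 := hL' Q hQ
    rw [← Finset.sum_coe_sort] at h1
    rw [hx', hLc]
    exact h1
  have hcx' : ∀ j, eval (x' j) c ≠ 0 := by
    intro j
    rw [hx']
    exact j.1.2
  -- the curve lies in the cone
  have hZ₁ : ∀ᶠ z in 𝓝 z₁, Y z₁ z ∈ ZS x' Lc c N := by
    have hmapc : ∀ {S : Type} [CommRing S] [Algebra ℂ S] (f : An z₁ →ₐ[ℂ] S),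
        map (f : An z₁ →+* S) (map (algebraMap ℂ (An z₁)) c) = map (algebraMap ℂ S) c := by
      intro S _ _ f
      rw [MvPolynomial.map_map]
      have h0 : (f : An z₁ →+* S).comp (algebraMap ℂ (An z₁)) = algebraMap ℂ S :=
        f.comp_algebraMap
      rw [h0]
    have h1 : map (tayHom z₁ : An z₁ →+* PowerSeries ℂ)
        (sp (yA hY z₁) N - map (algebraMap ℂ (An z₁)) c * qt x' Lc c (sp (yA hY z₁) N)) = 0 := by
      rw [map_sub, map_mul, map_qt, map_sp, hmapc, ← hF₀]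
      conv_lhs => rw [hF]
      rw [qt_mul x' Lc hLcI hcx' hFh, sub_self]
    filter_upwards [eventually_map_eq_zero h1] with z hz
    rw [map_sub, map_mul, map_qt, map_sp, evA_yA, hmapc, sub_eq_zero] at hz
    simp only [Algebra.algebraMap_self, MvPolynomial.map_id] at hz
    exact hz
  have hZall := ZS_identity x' Lc c h.homY hY hZ₁
  have hTall := fun z₂ => eventually_TS x' Lc c (N := N) hLcI hLch hcx' hY (hZall z₂)
  have hYZ : ∀ z, Y z z ∈ ZS x' Lc c N := fun z => (hZall z).self_of_nhds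
  have hZclosed : IsClosed (ZS x' Lc c N) := isClosed_ZS x' Lc c N
  -- values at the points
  have hval : ∀ (y : Fin (n + 1) → ℂ) (j : ι), p j ⬝ᵥ y = 0 → eval (x j) (sp y N) = 0 := by
    intro y j hj
    obtain ⟨u, v, -, -, huv⟩ := (h.dvd j).eval
    rw [(huv y 0).1, hj, zero_mul]
  by_cases hD' : D' = 0
  · -- the value of the norm form is constant up to a factor
    subst hD'
    obtain ⟨j₀, hj₀⟩ : ∃ j, eval (x j) c ≠ 0 := by
      by_contra hcon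
      push Not at hcon
      have h1 : (1 : MvPolynomial (Fin (t + 1)) ℂ) = 0 :=
        h.dense_sub hch hc0 (isHomogeneous_one _ _) (by omega) fun j hj => absurd (hcon j) hj
      exact one_ne_zero h1
    apply const_of_cone hY hZclosed (fun y hy l => smul_mem_ZS x' Lc c h.homY hy)
      (v₀ := p j₀) ?_ hYZ
    intro y hy hy0 hpy
    have h1 : sp y N = c * qt x' Lc c (sp y N) := hy
    have h2 : (qt x' Lc c (sp y N)).IsHomogeneous 0 := qt_isHomogeneous _ _ hLch _ _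
    have h3 : (qt x' Lc c (sp y N)) = C (coeff 0 (qt x' Lc c (sp y N))) := by
      rw [← totalDegree_eq_zero_iff_eq_C]
      exact Nat.le_zero.mp h2.totalDegree_le
    have h4 := hval y j₀ hpy
    rw [h1, map_mul] at h4
    have h5 := (mul_eq_zero.mp h4).resolve_left hj₀
    rw [h3, eval_C] at h5
    rw [h5, C_0] at h3
    apply h.nz y hy0
    rw [h1, h3, mul_zero]
  · exfalso
    have hD'1 : 1 ≤ D' := Nat.one_le_iff_ne_zero.mpr hD'
    -- the points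
    have hP₂h : (sp (Y z₁ z₁) N).IsHomogeneous D := sp_isHomogeneous h.homT _
    have hP₂0 : sp (Y z₁ z₁) N ≠ 0 := h.nz _ (hY.2.1 z₁)
    obtain ⟨H, L, hHcard, hLh', hLδ, hLI⟩ := exists_interp (d := k + D')
      (fun j : {j // eval (x j) (sp (Y z₁ z₁) N) ≠ 0} => x j) (fun Q hQ hv =>
        h.dense_sub hP₂h hP₂0 hQ (by omega) fun j hj => hv ⟨j, hj⟩)
    obtain ⟨xH, hxH⟩ : ∃ xH : H → Fin (t + 1) → ℂ, xH = fun j => x j.1.1 := ⟨_, rfl⟩
    obtain ⟨LH, hLH⟩ : ∃ LH : H → MvPolynomial (Fin (t + 1)) ℂ, LH = fun j => L j.1 := ⟨_, rfl⟩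
    obtain ⟨pH, hpH⟩ : ∃ pH : H → Fin (n + 1) → ℂ, pH = fun j => p j.1.1 := ⟨_, rfl⟩
    have hLHh : ∀ j, (LH j).IsHomogeneous (k + D') := by
      intro j
      rw [hLH]
      exact hLh' _
    have hinterp : ∀ Q : MvPolynomial (Fin (t + 1)) ℂ, Q.IsHomogeneous (k + D') →
        Q = ∑ j, eval (xH j) Q • LH j := by
      intro Q hQ
      have h1 := hLI Q hQ
      rw [← Finset.sum_coe_sort] at h1
      rw [hxH, hLH]
      exact h1
    have hδ : ∀ i j, eval (xH j) (LH i) = if i = j then 1 else 0 := by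
      intro i j
      have h1 := hLδ i i.2 j j.2
      rw [hxH, hLH]
      simp only [Subtype.ext_iff] at h1 ⊢
      exact h1
    have hvalH : ∀ (y : Fin (n + 1) → ℂ) (j : H), pH j ⬝ᵥ y = 0 → eval (xH j) (sp y N) = 0 := by
      intro y j hj
      rw [hpH] at hj
      rw [hxH]
      exact hval y _ hj
    have hcH : ∀ j, eval (xH j) c ≠ 0 := by
      intro j hj
      have h1 : eval (xH j) (sp (Y z₁ z₁) N) ≠ 0 := by
        rw [hxH]
        exact j.1.2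
      apply h1
      have h2 : sp (Y z₁ z₁) N = c * qt x' Lc c (sp (Y z₁ z₁) N) := hYZ z₁
      rw [h2, map_mul, hj, zero_mul]
    obtain ⟨𝓑, h𝓑card, h𝓑cov, h𝓑inj, h𝓑G⟩ := exists_jetForm3 xH LH hinterp
    -- separation
    have hsep : ∀ y : Fin (n + 1) → ℂ, (∀ j, pH j ⬝ᵥ y = 0) → y = 0 := by
      intro y hy
      by_contra hy0
      apply h.nz y hy0
      have h1 : sp y N * (X 0 : MvPolynomial (Fin (t + 1)) ℂ) ^ (k + D' - D) = 0 := by
        apply eq_zero_of_vanish3 xH LH hinterp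
        · have h2 := (sp_isHomogeneous (R := ℂ) h.homT y).mul
            (isHomogeneous_X_pow (R := ℂ) (0 : Fin (t + 1)) (k + D' - D))
          rwa [Nat.add_sub_cancel' (by omega)] at h2
        · intro j
          rw [map_mul, hvalH y j (hy j), zero_mul]
      exact (mul_eq_zero.mp h1).resolve_right (pow_ne_zero _ (X_ne_zero _))
    -- covering
    have hcov : ∀ y ∈ ZS x' Lc c N, y ≠ 0 → ∃ B ∈ 𝓑, ∀ j, pH j ⬝ᵥ y = 0 → j ∈ B := by
      intro y hy hy0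
      have h1 : sp y N = c * qt x' Lc c (sp y N) := hy
      have hq0 : qt x' Lc c (sp y N) ≠ 0 := by
        intro h0
        rw [h0, mul_zero] at h1
        exact h.nz y hy0 h1
      obtain ⟨B, hB, hSB⟩ := h𝓑cov (Finset.univ.filter fun j => pH j ⬝ᵥ y = 0) (by
        intro c' hc' hv
        have h2 : c' * qt x' Lc c (sp y N) = 0 := by
          apply eq_zero_of_vanish3 xH LH hinterp
            (hc'.mul (qt_isHomogeneous x' Lc hLch c (sp y N)))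
          intro j
          rw [map_mul]
          by_cases hj : pH j ⬝ᵥ y = 0
          · have h3 := hvalH y j hj
            rw [h1, map_mul] at h3
            rw [(mul_eq_zero.mp h3).resolve_left (hcH j), mul_zero]
          · rw [hv j (by
              rw [Finset.mem_filter]
              exact fun h4 => hj h4.2), zero_mul]
        exact (mul_eq_zero.mp h2).resolve_right hq0)
      refine ⟨B, hB, fun j hj => hSB ?_⟩
      rw [Finset.mem_filter]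
      exact ⟨Finset.mem_univ _, hj⟩
    obtain ⟨B₀, hB₀, -⟩ := hcov _ (hYZ z₁) (hY.2.1 z₁)
    -- generic independence
    have hfreq := frequently_indep xH LH hLHh hδ B₀ (h𝓑inj B₀ hB₀) x' Lc hLcI hcx' N z₁
      (yA hY z₁) hFh hF0 (by rw [← hF₀, hF]) hsq' hconst (by
        intro j hj
        have h1 : eval (fun i => algebraMap ℂ (PowerSeries ℂ) (xH j i)) F₀ = 0 := by
          rw [hF, map_mul, hj, mul_zero]
        have h2 := congrArg (ccA : PowerSeries ℂ →+* ℂ) h1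
        rw [map_eval, map_zero, hcc] at h2
        have h3 : (fun i => (ccA : PowerSeries ℂ →+* ℂ) (algebraMap ℂ (PowerSeries ℂ) (xH j i))) =
            xH j := by
          funext i
          exact ccA.commutes _
        have h4 : eval (xH j) (sp (Y z₁ z₁) N) = 0 := by
          rw [← h3]
          exact h2
        rw [hxH] at h4
        exact j.1.2 h4)
    obtain ⟨z₀, hli, ⟨l, hl1, hl2, hl3⟩, hder, han⟩ :=
      (hfreq.and_eventually ((hY.2.2 z₁).and ((evA_derivA_yA hY z₁).and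
        (hY.1 z₁).eventually_analyticAt))).exists
    rw [evA_yA, hder] at hli
    obtain ⟨nf, hnf⟩ : ∃ nf : (Fin (n + 1) → ℂ) → MvPolynomial (Fin (t + 1)) ℂ,
      nf = fun y => qt x' Lc c (sp y N) := ⟨_, rfl⟩
    obtain ⟨nf1, hnf1⟩ : ∃ nf1 : (Fin (n + 1) → ℂ) → (Fin (n + 1) → ℂ) →
      MvPolynomial (Fin (t + 1)) ℂ, nf1 = fun y w => qt x' Lc c (sp1 y w N) := ⟨_, rfl⟩
    have hnfh : ∀ y, (nf y).IsHomogeneous D' := by
      intro y
      rw [hnf]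
      exact qt_isHomogeneous _ _ hLch _ _
    have hnf1h : ∀ y w, (nf1 y w).IsHomogeneous D' := by
      intro y w
      rw [hnf1]
      exact qt_isHomogeneous _ _ hLch _ _
    obtain ⟨G, hG0, hG⟩ := h𝓑G (nf (Y z₁ z₀)) (nf1 (Y z₁ z₀) (deriv (Y z₁) z₀)) (hnfh _)
      (hnf1h _ _) ⟨B₀, hB₀, by rw [hnf, hnf1]; exact hli⟩
    obtain ⟨e, he⟩ : ∃ e, e = B₀.card := ⟨_, rfl⟩
    have hcardH : Fintype.card H = (t + (k + D')).choose (k + D') := by
      rw [Fintype.card_coe, hHcard, finrank_homogeneousSubmodule]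
    have heq : e + (t + k).choose k = (t + (k + D')).choose (k + D') := by
      have h1 := h𝓑card B₀ hB₀
      rw [finrank_homogeneousSubmodule, hcardH] at h1
      rw [he, h1]
    have he0 : 0 < e := by
      have := choose_lt_aux (t := t) (k := k) ht hD'1
      omega
    -- scaling of `G`
    have hGs : ∀ (v₀ v₁ : MvPolynomial (Fin (t + 1)) ℂ) (α β : ℂ), v₀.IsHomogeneous D' →
        v₁.IsHomogeneous D' → G (C α * v₀) (C α * v₁ + C β * v₀) = (α ^ 2) ^ e * G v₀ v₁ := by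
      intro v₀ v₁ α β h0 h1
      obtain ⟨a, ha⟩ := hG B₀ hB₀
      rw [ha _ _ (h0.C_mul _) ((h1.C_mul _).add (h0.C_mul _)), ha _ _ h0 h1]
      have h2 : (Matrix.of fun i j : B₀ =>
          a i (wr (xH j) (C α * v₀) (C α * v₁ + C β * v₀) * LH j)) =
          α ^ 2 • (Matrix.of fun i j : B₀ => a i (wr (xH j) v₀ v₁ * LH j)) := by
        ext i j
        rw [Matrix.smul_apply, Matrix.of_apply, Matrix.of_apply, wr_scale, mul_assoc,
          ← smul_eq_C_mul, map_smul]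
      rw [h2, Matrix.det_smul, Fintype.card_coe, he]
    have hGc : ∀ (v₀ v₁ : MvPolynomial (Fin (t + 1)) ℂ) (α : ℂ), v₀.IsHomogeneous D' →
        v₁.IsHomogeneous D' → G v₀ (C α * v₁) = α ^ e * G v₀ v₁ := by
      intro v₀ v₁ α h0 h1
      obtain ⟨a, ha⟩ := hG B₀ hB₀
      rw [ha _ _ h0 (h1.C_mul _), ha _ _ h0 h1]
      have h2 : (Matrix.of fun i j : B₀ => a i (wr (xH j) v₀ (C α * v₁) * LH j)) =
          α • (Matrix.of fun i j : B₀ => a i (wr (xH j) v₀ v₁ * LH j)) := by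
        ext i j
        rw [Matrix.smul_apply, Matrix.of_apply, Matrix.of_apply, wr_smul, mul_assoc,
          ← smul_eq_C_mul, map_smul]
      rw [h2, Matrix.det_smul, Fintype.card_coe, he]
    obtain ⟨Gf, hGf⟩ : ∃ Gf : (Fin (n + 1) → ℂ) → (Fin (n + 1) → ℂ) → ℂ,
      Gf = fun y w => G (nf y) (nf1 y w) := ⟨_, rfl⟩
    obtain ⟨a, ha⟩ : ∃ a, a = 2 * (DY + 1) * e := ⟨_, rfl⟩
    have hJ1 : ∀ y w (l μ : ℂ), l ≠ 0 → Gf (l • y) (l • w + μ • y) = l ^ a * Gf y w := by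
      intro y w l μ _
      rw [hGf]
      beta_reduce
      have h1 : nf (l • y) = C (l ^ (DY + 1)) * nf y := by
        rw [hnf]
        beta_reduce
        rw [sp_smul h.homY, qt_C_mul]
      have h2 : nf1 (l • y) (l • w + μ • y) = C (l ^ (DY + 1)) * nf1 y w +
          C (μ * l ^ DY * (DY + 1 : ℕ)) * nf y := by
        rw [hnf, hnf1]
        beta_reduce
        rw [sp1_scale h.homY, qt_add, qt_C_mul, qt_C_mul]
      rw [h1, h2, hGs _ _ _ _ (hnfh _) (hnf1h _ _), ha]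
      congr 1
      rw [← pow_mul, ← pow_mul]
      congr 1
      ring
    have hJ2 : ∀ y w (c : ℂ), Gf y (c • w) = c ^ e * Gf y w := by
      intro y w c'
      rw [hGf]
      beta_reduce
      have h2 : nf1 y (c' • w) = C c' * nf1 y w := by
        rw [hnf1]
        beta_reduce
        rw [sp1_smul, qt_C_mul]
      rw [h2, hGc _ _ _ (hnfh _) (hnf1h _ _)]
    -- factorisation
    have hFac : Fac pH (TS x' Lc c N) 𝓑 Gf := by
      intro B hB
      obtain ⟨a', ha'⟩ := hG B hB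
      choose u v hu hv huv using fun j => (h.dvd j).eval
      refine ⟨fun i j y w => (eval (xH j) c)⁻¹ *
          (u j.1.1.1 y w * (a' i ∘ₗ LinearMap.mulRight ℂ (LH j)) (nf1 y w) -
            v j.1.1.1 y w * (a' i ∘ₗ LinearMap.mulRight ℂ (LH j)) (nf y)),
        fun i j y w => -((eval (xH j) c)⁻¹ *
          (u j.1.1.1 y w * (a' i ∘ₗ LinearMap.mulRight ℂ (LH j)) (nf y))), ?_, ?_, ?_⟩
      · intro i j
        rw [hnf, hnf1]
        exact (hol_const _).mul (((hu _).mul (hol_qt x' Lc (hol_sp1 N) c _)).sub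
          ((hv _).mul (hol_qt x' Lc (Φ := fun y _ => sp y N) (hol_sp N) c _)))
      · intro i j
        rw [hnf]
        exact ((hol_const _).mul ((hu _).mul
          (hol_qt x' Lc (Φ := fun y _ => sp y N) (hol_sp N) c _))).neg
      · intro y w hT
        rw [hGf]
        beta_reduce
        rw [ha' _ _ (hnfh _) (hnf1h _ _)]
        congr 1
        ext i j
        rw [Matrix.of_apply, Matrix.of_apply]
        obtain ⟨hT1, hT2⟩ := hT
        have e1 : eval (xH j) (nf y) = (eval (xH j) c)⁻¹ * ((pH j ⬝ᵥ y) * u j.1.1.1 y w) := by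
          have h1 : sp y N = c * nf y := by rw [hnf]; exact hT1
          have h2 := congrArg (eval (xH j)) h1
          rw [map_mul] at h2
          have h3 := (huv j.1.1.1 y w).1
          have h4 : eval (xH j) (sp y N) = (pH j ⬝ᵥ y) * u j.1.1.1 y w := by
            rw [hxH, hpH]
            exact h3
          rw [← h4, h2, ← mul_assoc, inv_mul_cancel₀ (hcH j), one_mul]
        have e2 : eval (xH j) (nf1 y w) = (eval (xH j) c)⁻¹ *
            ((pH j ⬝ᵥ w) * u j.1.1.1 y w + (pH j ⬝ᵥ y) * v j.1.1.1 y w) := by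
          have h1 : sp1 y w N = c * nf1 y w := by rw [hnf1]; exact hT2
          have h2 := congrArg (eval (xH j)) h1
          rw [map_mul] at h2
          have h3 := (huv j.1.1.1 y w).2
          have h4 : eval (xH j) (sp1 y w N) =
              (pH j ⬝ᵥ w) * u j.1.1.1 y w + (pH j ⬝ᵥ y) * v j.1.1.1 y w := by
            rw [hxH, hpH]
            exact h3
          rw [← h4, h2, ← mul_assoc, inv_mul_cancel₀ (hcH j), one_mul]
        have e3 : wr (xH j) (nf y) (nf1 y w) * LH j =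
            eval (xH j) (nf y) • (nf1 y w * LH j) - eval (xH j) (nf1 y w) • (nf y * LH j) := by
          rw [wr, smul_eq_C_mul, smul_eq_C_mul]
          ring
        rw [e3, map_sub, map_smul, map_smul, e1, e2]
        simp only [LinearMap.comp_apply, LinearMap.mulRight_apply, smul_eq_mul]
        ring
    -- conclusion
    obtain ⟨s, hs⟩ : ∃ s, s = Fintype.card H - 2 * a := ⟨_, rfl⟩
    have hn1 := hnum D' hD'1 (by omega)
    have hae : 2 * a < Fintype.card H := by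
      rw [hcardH, ha]
      have h1 : (t + (k + D')).choose (k + D') - (t + k).choose k = e := by omega
      rw [h1] at hn1
      calc 2 * (2 * (DY + 1) * e) = 4 * (DY + 1) * e := by ring
        _ < _ := hn1
    have hfinal := caseB3 pH (m := 2) (a := a) (e := e) (s := s) (by norm_num) he0 (by omega)
      hZclosed (T := TS x' Lc c N) (fun y w hT => hT.1)
      (fun y w l μ c' _ hT => TS_scale x' Lc c h.homY l μ c' hT) hcov hsep
      (by rw [hs]; omega) hFac hJ1 hJ2 hY hTall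
      (fun j z₁ => by rw [hpH]; exact htop _ _) (fun j z₁ => by rw [hpH]; exact hord _ _) z₀
    have h1 : Y z₀ z₀ = l z₀ • Y z₁ z₀ := hl3.self_of_nhds
    have h2 : deriv (Y z₀) z₀ = l z₀ • deriv (Y z₁) z₀ + deriv l z₀ • Y z₁ z₀ := by
      have h3 : Y z₀ =ᶠ[𝓝 z₀] fun w => l w • Y z₁ w := hl3
      rw [h3.deriv_eq]
      exact (hl1.differentiableAt.hasDerivAt.smul han.differentiableAt.hasDerivAt).deriv
    have h3 := hfinal.self_of_nhds
    rw [h1, h2, hJ1 _ _ _ _ hl2] at h3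
    rcases mul_eq_zero.mp h3 with h4 | h4
    · exact pow_ne_zero _ hl2 h4
    · rw [hGf] at h4
      exact hG0 h4

end Pool.Agent.Lib.GGL
end

section

/-!
The exceptional hypersurface.
-/

open MvPolynomial Module Filter Topology

namespace Pool.Agent.Lib.GGL

lemma LiftFamily.smul {n : ℕ} {Y : ℂ → ℂ → Fin (n + 1) → ℂ} (hY : LiftFamily Y) {c : ℂ}
    (hc : c ≠ 0) : LiftFamily fun z₁ z => c • Y z₁ z := by
  refine ⟨fun z₁ => ?_, fun z₁ => smul_ne_zero hc (hY.2.1 z₁), fun z₁ => ?_⟩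
  · rw [analyticAt_pi_iff]
    intro i
    exact analyticAt_const.mul ((analyticAt_pi_iff.mp (hY.1 z₁)) i)
  · filter_upwards [hY.2.2 z₁] with z ⟨l, hl1, hl2, hl3⟩
    refine ⟨l, hl1, hl2, ?_⟩
    filter_upwards [hl3] with w hw
    rw [hw, smul_comm]

/-- a nonzero value of a homogeneous component gives a nonzero value on the line -/
lemma exists_scale {σ : Type*} {Δ₀ : MvPolynomial σ ℂ} {d : ℕ} {v : σ → ℂ}
    (h : eval v (homogeneousComponent d Δ₀) ≠ 0) : ∃ c : ℂ, c ≠ 0 ∧ eval (c • v) Δ₀ ≠ 0 := by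
  classical
  by_contra hcon
  push Not at hcon
  obtain ⟨q, hq⟩ : ∃ q : Polynomial ℂ, q = ∑ k ∈ Finset.range (Δ₀.totalDegree + 1),
    Polynomial.monomial k (eval v (homogeneousComponent k Δ₀)) := ⟨_, rfl⟩
  have hev : ∀ c : ℂ, q.eval c = eval (c • v) Δ₀ := by
    intro c
    rw [hq, Polynomial.eval_finsetSum]
    conv_rhs => rw [← sum_homogeneousComponent Δ₀, map_sum]
    refine Finset.sum_congr rfl fun k _ => ?_
    rw [Polynomial.eval_monomial]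
    have h1 := aeval_weight (S := ℂ) (1 : σ → ℕ) (homogeneousComponent_isHomogeneous k Δ₀) v c
    have h2 : (fun i => c ^ (1 : σ → ℕ) i * v i) = c • v := by
      funext i
      simp
    rw [h2] at h1
    have h3 : ∀ (u : σ → ℂ) (P : MvPolynomial σ ℂ), aeval u P = eval u P := by
      intro u P
      rw [aeval_def, Algebra.algebraMap_self, eval₂_eq_eval_map, MvPolynomial.map_id]
    rw [h3, h3] at h1
    rw [h1, mul_comm]
  have hq0 : q = 0 := by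
    apply Polynomial.eq_zero_of_infinite_isRoot
    apply Set.Infinite.mono (s := {0}ᶜ)
    · intro c hc
      show q.eval c = 0
      rw [hev]
      exact hcon c hc
    · exact (Set.finite_singleton (0 : ℂ)).infinite_compl
  apply h
  by_cases hd : d ∈ Finset.range (Δ₀.totalDegree + 1)
  · have h1 := congrArg (fun P => Polynomial.coeff P d) hq0
    simp only [hq, Polynomial.finsetSum_coeff, Polynomial.coeff_monomial, Polynomial.coeff_zero]
      at h1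
    rw [Finset.sum_eq_single d] at h1
    · rwa [if_pos rfl] at h1
    · intro k _ hk
      rw [if_neg hk]
    · intro hd'
      exact absurd hd hd'
  · rw [homogeneousComponent_eq_zero _ _ (by
      rw [Finset.mem_range] at hd
      omega), map_zero]

/-- The exceptional hypersurface of a family of hyperplanes. -/
theorem family_strong {n N₀ : ℕ} {ι : Type} [Finite ι] (hn : 1 ≤ n)
    (p : ι → Fin (n + 1) → ℂ) (hp : ∀ j, p j ≠ 0)
    (hgp : ∀ y : Fin (n + 1) → ℂ, y ≠ 0 → {j | p j ⬝ᵥ y = 0}.ncard ≤ N₀)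
    (hcard : numQ n N₀ ≤ Nat.card ι) :
    ∃ (d : ℕ) (Δ : MvPolynomial (Fin (n + 1)) ℂ), Δ.IsHomogeneous d ∧ Δ ≠ 0 ∧
      ∀ Y : ℂ → ℂ → Fin (n + 1) → ℂ, LiftFamily Y →
        (∀ j z₁, analyticOrderAt (fun z => p j ⬝ᵥ Y z₁ z) z₁ = 0 ∨
          (2 : ℕ∞) ≤ analyticOrderAt (fun z => p j ⬝ᵥ Y z₁ z) z₁) →
        ∀ z₁, eval (Y z₁ z₁) Δ ≠ 0 → ∀ z w, ∃ c : ℂ, c ≠ 0 ∧ Y z z = c • Y w w := by
  classical
  have := Fintype.ofFinite ι
  obtain ⟨J, t, x, N, DY, D, b, k, ht, hDk, hkb, hnum, hirr, hN⟩ := exists_normData hn p hp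
    (by
      intro y hy
      have h1 := hgp y hy
      rw [Set.ncard_eq_toFinset_card', Set.toFinset_ofPred] at h1
      exact h1)
    (by rwa [Nat.card_eq_fintype_card] at hcard)
  obtain ⟨Δ₁, hΔ₁, hΔ₁s⟩ := exists_disc hirr hN.homT
  obtain ⟨Δ₀, hΔ₀⟩ : ∃ Δ₀, Δ₀ = Δ₁ * ∏ j ∈ J, linForm (p j) := ⟨_, rfl⟩
  have hΔ₀0 : Δ₀ ≠ 0 := by
    rw [hΔ₀]
    apply mul_ne_zero hΔ₁
    rw [Finset.prod_ne_zero_iff]
    intro j _
    exact linForm_ne_zero (hp j)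
  obtain ⟨d, hd⟩ : ∃ d, homogeneousComponent d Δ₀ ≠ 0 := by
    by_contra hcon
    push Not at hcon
    apply hΔ₀0
    rw [← sum_homogeneousComponent Δ₀]
    exact Finset.sum_eq_zero fun k _ => hcon k
  refine ⟨d, homogeneousComponent d Δ₀, homogeneousComponent_isHomogeneous d Δ₀, hd, ?_⟩
  intro Y hY hord z₁ hz₁ z w
  obtain ⟨c, hc, hcz⟩ := exists_scale hz₁
  rw [hΔ₀, map_mul, map_prod] at hcz
  have hcz1 := left_ne_zero_of_mul hcz
  have hcz2 := right_ne_zero_of_mul hcz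
  rw [Finset.prod_ne_zero_iff] at hcz2
  have hYc := hY.smul hc
  have hpc : ∀ (j : ι) (z₁ : ℂ), analyticOrderAt (fun z => p j ⬝ᵥ (c • Y z₁ z)) z₁ =
      analyticOrderAt (fun z => p j ⬝ᵥ Y z₁ z) z₁ := by
    intro j z₁
    have h1 : (fun z => p j ⬝ᵥ (c • Y z₁ z)) = (fun _ => c) * fun z => p j ⬝ᵥ Y z₁ z := by
      funext z
      rw [dotProduct_smul, smul_eq_mul, Pi.mul_apply]
    have h2 : AnalyticAt ℂ (fun z => p j ⬝ᵥ Y z₁ z) z₁ := by
      have h3 : (fun z => p j ⬝ᵥ Y z₁ z) = fun z => ∑ i, p j i * Y z₁ z i := rfl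
      rw [h3]
      exact Finset.analyticAt_fun_sum _ fun i _ =>
        analyticAt_const.mul ((analyticAt_pi_iff.mp (hY.1 z₁)) i)
    rw [h1, analyticOrderAt_mul analyticAt_const h2]
    have h4 : analyticOrderAt (fun _ : ℂ => c) z₁ = 0 := by
      rw [AnalyticAt.analyticOrderAt_eq_zero analyticAt_const]
      exact hc
    rw [h4, zero_add]
  obtain ⟨c', hc', hcc⟩ := curve_const hN ht hDk hkb hnum hYc
    (by
      rintro ⟨j, hj⟩ z₂
      rcases hYc.top_or (p j) with h | h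
      · exact h z₂
      · exfalso
        apply hcz2 j hj
        rw [eval_linForm']
        exact h z₁)
    (by
      rintro ⟨j, hj⟩ z₂
      rw [hpc]
      exact hord j z₂)
    (z₁ := z₁) (by
      apply hΔ₁s
      intro h0
      apply hcz1
      have h1 := congrArg (ccA : PowerSeries ℂ →ₐ[ℂ] ℂ) h0
      rw [map_zero, MvPolynomial.comp_aeval_apply] at h1
      have h2 : (fun i => ccA ((tayHom z₁) (yA hYc z₁ i))) = c • Y z₁ z₁ := by
        funext i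
        exact constantCoeff_yA hYc z₁ i
      rw [h2, aeval_def, Algebra.algebraMap_self, eval₂_eq_eval_map, MvPolynomial.map_id] at h1
      exact h1) z w
  refine ⟨c', hc', ?_⟩
  have h1 : c • Y z z = c • (c' • Y w w) := by
    rw [hcc, smul_comm]
  exact smul_right_injective _ hc h1

/-- Strong form of the conjecture for covers ramified over hyperplanes. -/
theorem strong (n N₀ : ℕ) : ∃ Q : ℕ, ∀ (ι : Type) [Finite ι] (p : ι → Fin (n + 1) → ℂ),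
    (∀ j, p j ≠ 0) → (∀ y : Fin (n + 1) → ℂ, y ≠ 0 → {j | p j ⬝ᵥ y = 0}.ncard ≤ N₀) →
    Q ≤ Nat.card ι →
    ∃ (d : ℕ) (Δ : MvPolynomial (Fin (n + 1)) ℂ), Δ.IsHomogeneous d ∧ Δ ≠ 0 ∧
      ∀ (M : ℕ) (X : Set (PSpace M)) (φ : PSpace M → PSpace n), IsRegularOn X φ →
        (∀ j, RamifiedOver X φ (p j) 2) →
        ∀ f : ℂ → PSpace M, (∀ z, HolomorphicNear f z) → (∀ z, f z ∈ X) →
          ((∀ z w, φ (f z) = φ (f w)) ∨ ∀ z, eval (φ (f z)).rep Δ = 0) ∧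
          ∀ Y : Set (PSpace M), (∀ x ∈ X, x ∉ Y →
              eval (φ x).rep Δ ≠ 0 ∧ {y ∈ X | φ y = φ x}.Finite) →
            (∃ z w, f z ≠ f w) → ∀ z, f z ∈ Y := by
  refine ⟨numQ n N₀, ?_⟩
  intro ι _ p hp hgp hcard
  obtain ⟨d, Δ, hΔh, hΔ0, hΔ⟩ : ∃ (d : ℕ) (Δ : MvPolynomial (Fin (n + 1)) ℂ),
      Δ.IsHomogeneous d ∧ Δ ≠ 0 ∧
      ∀ Y : ℂ → ℂ → Fin (n + 1) → ℂ, LiftFamily Y →
        (∀ j z₁, analyticOrderAt (fun z => p j ⬝ᵥ Y z₁ z) z₁ = 0 ∨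
          (2 : ℕ∞) ≤ analyticOrderAt (fun z => p j ⬝ᵥ Y z₁ z) z₁) →
        ∀ z₁, eval (Y z₁ z₁) Δ ≠ 0 → ∀ z w, ∃ c : ℂ, c ≠ 0 ∧ Y z z = c • Y w w := by
    rcases Nat.eq_zero_or_pos n with hn | hn
    · subst hn
      refine ⟨0, 1, isHomogeneous_one _ _, one_ne_zero, ?_⟩
      intro Y hY _ _ _ z w
      have hne : ∀ z, Y z z 0 ≠ 0 := by
        intro z h
        apply hY.2.1 z
        funext i
        have hi : i = 0 := Fin.ext (by omega)
        rw [hi, h]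
        rfl
      refine ⟨Y z z 0 / Y w w 0, div_ne_zero (hne z) (hne w), ?_⟩
      funext i
      have hi : i = 0 := Fin.ext (by omega)
      rw [hi, Pi.smul_apply, smul_eq_mul, div_mul_cancel₀ _ (hne w)]
    · exact family_strong hn p hp hgp hcard
  refine ⟨d, Δ, hΔh, hΔ0, ?_⟩
  intro M X φ hφ hram f hf hfX
  have hg : ∀ z, HolomorphicNear (fun z => φ (f z)) z := fun z =>
    holomorphicNear_comp hφ (hf z) (Filter.Eventually.of_forall hfX)
  choose Y hYl using hg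
  have h3 : (∀ z w, φ (f z) = φ (f w)) ∨ ∀ z, eval (φ (f z)).rep Δ = 0 := by
    by_cases hz : ∀ z, eval (φ (f z)).rep Δ = 0
    · exact Or.inr hz
    · left
      push Not at hz
      obtain ⟨z₁, hz₁⟩ := hz
      intro z w
      obtain ⟨g1, g2⟩ := (hYl z₁).2.self_of_nhds
      have hz₁' : eval (Y z₁ z₁) Δ ≠ 0 := by
        intro h0
        apply hz₁
        obtain ⟨a, ha⟩ := Projectivization.exists_smul_eq_mk_rep ℂ (Y z₁ z₁) g1
        beta_reduce at g2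
        rw [g2, ← ha]
        have h5 := eval_smul_of_homogeneous hΔh (a : ℂ) (Y z₁ z₁)
        rw [h0, mul_zero] at h5
        exact h5
      obtain ⟨c, hc, hcz⟩ := hΔ Y (liftFamily_of_lifts hYl)
        (fun j z₁ => hram j f z₁ (hf z₁) (Filter.Eventually.of_forall hfX) _ (hYl z₁)) z₁ hz₁' z w
      obtain ⟨g1, g2⟩ := (hYl z).2.self_of_nhds
      obtain ⟨g3, g4⟩ := (hYl w).2.self_of_nhds
      beta_reduce at g2 g4
      rw [g2, g4, Projectivization.mk_eq_mk_iff']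
      exact ⟨c, hcz.symm⟩
  refine ⟨h3, ?_⟩
  intro Y' hY' hne z
  by_contra hz
  obtain ⟨w₁, w₂, hw⟩ := hne
  apply hw
  obtain ⟨h4, h5⟩ := hY' (f z) (hfX z) hz
  have h6 : ∀ z w, φ (f z) = φ (f w) := by
    rcases h3 with h | h
    · exact h
    · exact absurd (h z) h4
  apply const_of_finite hf
  apply h5.subset
  rintro _ ⟨w, rfl⟩
  exact ⟨hfX w, h6 w z⟩

end Pool.Agent.Lib.GGL
end

section

/-!
The growth argument on weighted cones: conclusion.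
-/

open Filter Topology Metric MvPolynomial

namespace Pool.Agent.Lib.GGL

section

variable {n : ℕ} {H : Type*} [Fintype H] [DecidableEq H] (P : H → MvPolynomial (Fin (n + 1)) ℂ)
  (wt : Fin (n + 1) → ℕ)

omit [Fintype H] [DecidableEq H] in
/-- the vector is bounded on bounded sets -/
lemma ff_bound (A : ℕ) (K₀ : ℝ) : ∃ K : ℝ, 1 ≤ K ∧ ∀ y : Fin (n + 1) → ℂ, ‖y‖ ≤ K₀ →
    ‖ff wt A y‖ ≤ K := by
  have hc : Continuous fun y : Fin (n + 1) → ℂ => ‖ff wt A y‖ := by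
    unfold ff
    fun_prop
  obtain ⟨C, hC⟩ := ((isCompact_closedBall (0 : Fin (n + 1) → ℂ) K₀).image hc).bddAbove
  refine ⟨max 1 C, le_max_left _ _, ?_⟩
  intro y hy
  exact (hC ⟨y, by rwa [mem_closedBall_zero_iff], rfl⟩).trans (le_max_right _ _)

/-- The main pointwise estimate. -/
theorem pointwiseW {ed : ℕ} (hP : ∀ j, IsWeightedHomogeneous wt (P j) ed)
    {m a e N₂ A : ℕ} (hm : 0 < m) (he : 0 < e) (hA : ∀ i, wt i ≤ A) (hA1 : 1 ≤ A)
    (𝓑 : Finset (Finset H))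
    {Z : Set (Fin (n + 1) → ℂ)} (hZ : IsClosed Z) {K₀ : ℝ}
    (hbd : ∀ y ∈ Z, n1 wt y = 1 → ‖y‖ ≤ K₀)
    (hsep : ∀ y ∈ Z, n1 wt y ≠ 0 → ∃ j, eval y (P j) ≠ 0)
    {T : (Fin (n + 1) → ℂ) → (Fin (n + 1) → ℂ) → Prop} (hTZ : ∀ y w, T y w → y ∈ Z)
    (hT : ∀ y w (l μ c : ℂ), l ≠ 0 → T y w → T (sc wt l y) (c • sc wt l (w + μ • eu wt y)))
    (hcov : ∀ y ∈ Z, n1 wt y ≠ 0 → ∃ B ∈ 𝓑, ∀ j, eval y (P j) = 0 → j ∈ B)
    (hs : N₂ + ed + m * a = (m - 1) * ed * Fintype.card H)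
    (G : (Fin (n + 1) → ℂ) → (Fin (n + 1) → ℂ) → ℂ) (hG : FacH P T 𝓑 G)
    (hJ1 : ∀ y w (l μ : ℂ), l ≠ 0 → G (sc wt l y) (sc wt l (w + μ • eu wt y)) = l ^ a * G y w)
    (hJ2 : ∀ y w (c : ℂ), G y (c • w) = c ^ e * G y w) :
    ∃ C : ℝ, 0 ≤ C ∧ ∀ (x x' : EuclideanSpace ℂ H) (y w : Fin (n + 1) → ℂ), n1 wt y ≠ 0 → T y w →
      (∀ j, eval y (P j) = x j ^ m) → (∀ j, dev (P j) y w = m * x j ^ (m - 1) * x' j) →
      ∀ β β' : ℂ,
        ‖G y w‖ ^ (2 * (m * A)) * ((‖x‖ ^ 2) ^ (m * A) * (‖ff wt A y‖ ^ 2) ^ N₂) ≤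
          C * (∏ j, ‖x j‖ ^ (m - 1)) ^ (2 * (m * A)) *
            (‖x' - β • x‖ / ‖x‖ + ‖dff wt A y w - β' • ff wt A y‖ / ‖ff wt A y‖) ^
              (2 * (m * e * A)) := by
  obtain ⟨C₀, hC₀, hC⟩ := pointwise_unitW P wt hP hm he 𝓑 hZ hbd hsep hTZ hT hcov G hG
    (fun y w μ => by
      have h1 := hJ1 y w 1 μ one_ne_zero
      rwa [sc_one, sc_one, one_pow, one_mul] at h1) hJ2
  obtain ⟨K, hK1, hKx, -⟩ := up_boundW P hm (max K₀ 1)
  obtain ⟨K', hK'1, hK'⟩ := ff_bound wt A (max K₀ 1)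
  obtain ⟨C₁, hC₁1, hC₁⟩ := exists_dff_bound hA hA1 (max K₀ 1) (le_max_right _ _)
  have hK0 : 0 < K := by linarith
  have hK'0 : 0 < K' := by linarith
  have hC₁0 : 0 < C₁ := by linarith
  obtain ⟨K'', hK''⟩ : ∃ K'' : ℝ, K'' = C₁ * K' := ⟨_, rfl⟩
  have hK''1 : 1 ≤ K'' := by
    rw [hK'']
    nlinarith
  have hK''0 : 0 < K'' := by linarith
  refine ⟨(K ^ 2) ^ (m * A) * (K' ^ 2) ^ N₂ * C₀ ^ (2 * (m * A)) * K'' ^ (2 * (m * e * A)),
    by positivity, ?_⟩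
  intro x x' y w hy0 hTyw hxy hxw β β'
  have hyZ := hTZ y w hTyw
  have hx0 : x ≠ 0 := by
    rintro rfl
    obtain ⟨j, hj⟩ := hsep y hyZ hy0
    apply hj
    rw [hxy]
    simp [hm.ne']
  have hnx : 0 < ‖x‖ := norm_pos_iff.mpr hx0
  obtain ⟨ρ, hρ⟩ : ∃ ρ, ρ = n1 wt y := ⟨_, rfl⟩
  have hρ0 : 0 < ρ := by rw [hρ]; exact lt_of_le_of_ne (n1_nonneg wt y) (Ne.symm hy0)
  obtain ⟨r, hr⟩ : ∃ r : ℝ, r = (ρ ^ ed) ^ ((m : ℝ)⁻¹) := ⟨_, rfl⟩
  have hr0 : 0 < r := by rw [hr]; exact Real.rpow_pos_of_pos (by positivity) _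
  have hrm : r ^ m = ρ ^ ed := by
    rw [hr, Real.rpow_inv_natCast_pow (by positivity) hm.ne']
  have hρc : (ρ : ℂ) ≠ 0 := by exact_mod_cast hρ0.ne'
  have hrc : (r : ℂ) ≠ 0 := by exact_mod_cast hr0.ne'
  have hrmc : (r : ℂ) ^ m = (ρ : ℂ) ^ ed := by exact_mod_cast hrm
  have hinv : ∀ s : ℝ, 0 < s → ‖((s : ℂ)⁻¹)‖ = s⁻¹ := by
    intro s hs
    rw [norm_inv, Complex.norm_real, Real.norm_of_nonneg hs.le]
  -- the normalised point
  obtain ⟨y₁, hy₁⟩ : ∃ y₁, y₁ = sc wt (ρ : ℂ)⁻¹ y := ⟨_, rfl⟩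
  obtain ⟨w₁, hw₁⟩ : ∃ w₁, w₁ = sc wt (ρ : ℂ)⁻¹ w := ⟨_, rfl⟩
  have hn₁ : n1 wt y₁ = 1 := by
    rw [hy₁, n1_sc, hinv ρ hρ0, ← hρ, inv_mul_cancel₀ hρ0.ne']
  have hT₁ : T y₁ w₁ := by
    have h1 := hT y w (ρ : ℂ)⁻¹ 0 1 (inv_ne_zero hρc) hTyw
    rwa [one_smul, zero_smul, add_zero, ← hy₁, ← hw₁] at h1
  have hyK : ‖y₁‖ ≤ max K₀ 1 := (hbd y₁ (hTZ _ _ hT₁) hn₁).trans (le_max_left _ _)
  have hffy : ff wt A y₁ = ((ρ : ℂ)⁻¹) ^ A • ff wt A y := by rw [hy₁, ff_sc hA]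
  have hdffy : dff wt A y₁ w₁ = ((ρ : ℂ)⁻¹) ^ A • dff wt A y w := by rw [hy₁, hw₁, dff_sc hA]
  have hff0 : 0 < ‖ff wt A y‖ := by
    refine lt_of_lt_of_le ?_ (n1_pow_le_ff hA1 y)
    rw [← hρ]
    positivity
  have hffK : ‖ff wt A y‖ ≤ K' * ρ ^ A := by
    have h1 := hK' y₁ hyK
    rw [hffy, norm_smul, norm_pow, hinv ρ hρ0, inv_pow, inv_mul_le_iff₀ (by positivity)] at h1
    rw [mul_comm]
    exact h1
  -- the number `τ`
  obtain ⟨τ', hτ'⟩ : ∃ τ', τ' = ‖x' - β • x‖ / ‖x‖ +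
    ‖dff wt A y w - β' • ff wt A y‖ / ‖ff wt A y‖ := ⟨_, rfl⟩
  obtain ⟨τ, hτ⟩ : ∃ τ, τ = K'' * τ' := ⟨_, rfl⟩
  have hτ'0 : 0 ≤ τ' := by rw [hτ']; positivity
  have hτ0 : 0 ≤ τ := by rw [hτ]; positivity
  rw [← hτ']
  have hmain := hC ((r : ℂ)⁻¹ • x) ((r : ℂ)⁻¹ • x') y₁ w₁ β (β' / A) τ hn₁ hT₁
    (by
      intro j
      rw [hy₁, eval_sc (hP j), PiLp.smul_apply, smul_eq_mul, mul_pow, hxy, inv_pow,
        inv_pow, hrmc])
    (by
      intro j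
      rw [hy₁, hw₁, dev_sc (hP j), hxw, PiLp.smul_apply, PiLp.smul_apply, smul_eq_mul, smul_eq_mul,
        mul_pow, inv_pow, ← hrmc]
      have h2 : ((r : ℂ) ^ m)⁻¹ = ((r : ℂ)⁻¹) ^ (m - 1) * (r : ℂ)⁻¹ := by
        rw [← pow_succ, ← inv_pow]
        congr 1
        omega
      rw [h2]
      ring)
    hτ0
    (by
      have h1 : (r : ℂ)⁻¹ • x' - β • ((r : ℂ)⁻¹ • x) = (r : ℂ)⁻¹ • (x' - β • x) := by
        rw [smul_sub, smul_comm]
      rw [h1, norm_smul, norm_smul, hinv r hr0]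
      have h2 : ‖x' - β • x‖ ≤ τ * ‖x‖ := by
        have h3 : ‖x' - β • x‖ / ‖x‖ ≤ τ := by
          have h4 : ‖x' - β • x‖ / ‖x‖ ≤ τ' := by
            rw [hτ']
            have : 0 ≤ ‖dff wt A y w - β' • ff wt A y‖ / ‖ff wt A y‖ := by positivity
            linarith
          refine h4.trans ?_
          rw [hτ]
          exact le_mul_of_one_le_left hτ'0 hK''1
        rwa [div_le_iff₀ hnx] at h3
      calc r⁻¹ * ‖x' - β • x‖ ≤ r⁻¹ * (τ * ‖x‖) := by gcongr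
        _ = _ := by ring)
    (by
      have h1 : ‖dff wt A y₁ w₁ - β' • ff wt A y₁‖ ≤ K' * τ' := by
        have h2 : dff wt A y₁ w₁ - β' • ff wt A y₁ =
            ((ρ : ℂ)⁻¹) ^ A • (dff wt A y w - β' • ff wt A y) := by
          rw [hdffy, hffy, smul_sub, smul_comm β']
        rw [h2, norm_smul, norm_pow, hinv ρ hρ0, inv_pow, inv_mul_le_iff₀ (by positivity)]
        have h3 : ‖dff wt A y w - β' • ff wt A y‖ ≤ τ' * ‖ff wt A y‖ := by
          rw [← div_le_iff₀ hff0, hτ']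
          have : 0 ≤ ‖x' - β • x‖ / ‖x‖ := by positivity
          linarith
        calc ‖dff wt A y w - β' • ff wt A y‖ ≤ τ' * ‖ff wt A y‖ := h3
          _ ≤ τ' * (K' * ρ ^ A) := by gcongr
          _ = _ := by ring
      have h2 := hC₁ y₁ w₁ β' (K' * τ') hn₁ hyK h1
      refine h2.trans (le_of_eq ?_)
      rw [hτ, hK'']
      ring)
  have hG1 : G y₁ w₁ = ((ρ : ℂ)⁻¹) ^ a * G y w := by
    have h1 := hJ1 y w (ρ : ℂ)⁻¹ 0 (inv_ne_zero hρc)
    rwa [zero_smul, add_zero, ← hy₁, ← hw₁] at h1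
  have hprod : ∏ j, ‖((r : ℂ)⁻¹ • x) j‖ ^ (m - 1) =
      (r⁻¹) ^ ((m - 1) * Fintype.card H) * ∏ j, ‖x j‖ ^ (m - 1) := by
    have h4 : ∀ j, ‖((r : ℂ)⁻¹ • x) j‖ ^ (m - 1) = (r⁻¹) ^ (m - 1) * ‖x j‖ ^ (m - 1) := by
      intro j
      rw [PiLp.smul_apply, norm_smul, hinv r hr0, mul_pow]
    rw [Finset.prod_congr rfl fun j _ => h4 j, Finset.prod_mul_distrib, Finset.prod_const,
      Finset.card_univ, ← pow_mul]
  rw [hG1, norm_mul, norm_pow, hinv ρ hρ0, hprod] at hmain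
  obtain ⟨pr, hpr⟩ : ∃ pr, pr = ∏ j, ‖x j‖ ^ (m - 1) := ⟨_, rfl⟩
  have hpr0 : 0 ≤ pr := by
    rw [hpr]
    exact Finset.prod_nonneg fun j _ => by positivity
  obtain ⟨g, hg⟩ : ∃ g, g = ‖G y w‖ := ⟨_, rfl⟩
  have hg0 : 0 ≤ g := by rw [hg]; exact norm_nonneg _
  rw [← hpr, ← hg] at hmain
  rw [← hpr, ← hg]
  -- powers
  have h5 : g ^ (2 * (m * A)) * ρ ^ (2 * (A * (N₂ + ed))) ≤
      C₀ ^ (2 * (m * A)) * pr ^ (2 * (m * A)) * τ ^ (2 * (m * e * A)) := by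
    have h6 : (ρ⁻¹ ^ a * g) ^ (2 * (m * A)) ≤
        (C₀ * (r⁻¹ ^ ((m - 1) * Fintype.card H) * pr) * τ ^ e) ^ (2 * (m * A)) := by gcongr
    have h7 : (ρ⁻¹ ^ a * g) ^ (2 * (m * A)) *
        (ρ ^ (2 * (A * (N₂ + ed))) * ρ ^ (2 * (A * (m * a)))) =
        g ^ (2 * (m * A)) * ρ ^ (2 * (A * (N₂ + ed))) := by
      have h8 : (ρ⁻¹ ^ a) ^ (2 * (m * A)) * ρ ^ (2 * (A * (m * a))) = 1 := by
        rw [← pow_mul, show a * (2 * (m * A)) = 2 * (A * (m * a)) by ring, ← mul_pow,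
          inv_mul_cancel₀ hρ0.ne', one_pow]
      rw [mul_pow]
      calc (ρ⁻¹ ^ a) ^ (2 * (m * A)) * g ^ (2 * (m * A)) *
            (ρ ^ (2 * (A * (N₂ + ed))) * ρ ^ (2 * (A * (m * a))))
          = ((ρ⁻¹ ^ a) ^ (2 * (m * A)) * ρ ^ (2 * (A * (m * a)))) *
            (g ^ (2 * (m * A)) * ρ ^ (2 * (A * (N₂ + ed)))) := by
            ring
        _ = _ := by rw [h8, one_mul]
    have h9 : ρ ^ (2 * (A * (N₂ + ed))) * ρ ^ (2 * (A * (m * a))) =
        (r ^ ((m - 1) * Fintype.card H)) ^ (2 * (m * A)) := by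
      rw [← pow_add, ← pow_mul]
      have e1 : (m - 1) * Fintype.card H * (2 * (m * A)) =
        m * (2 * (A * ((m - 1) * Fintype.card H))) := by ring
      rw [e1, pow_mul r m, hrm, ← pow_mul]
      congr 1
      calc 2 * (A * (N₂ + ed)) + 2 * (A * (m * a)) = 2 * (A * (N₂ + ed + m * a)) := by ring
        _ = 2 * (A * ((m - 1) * ed * Fintype.card H)) := by rw [hs]
        _ = ed * (2 * (A * ((m - 1) * Fintype.card H))) := by ring
    have h10 : (C₀ * (r⁻¹ ^ ((m - 1) * Fintype.card H) * pr) * τ ^ e) ^ (2 * (m * A)) *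
        (ρ ^ (2 * (A * (N₂ + ed))) * ρ ^ (2 * (A * (m * a)))) =
        C₀ ^ (2 * (m * A)) * pr ^ (2 * (m * A)) * τ ^ (2 * (m * e * A)) := by
      rw [h9, ← mul_pow]
      have e1 : C₀ * (r⁻¹ ^ ((m - 1) * Fintype.card H) * pr) * τ ^ e *
          r ^ ((m - 1) * Fintype.card H) = C₀ * pr * τ ^ e := by
        have e2 : r⁻¹ ^ ((m - 1) * Fintype.card H) * r ^ ((m - 1) * Fintype.card H) = 1 := by
          rw [← mul_pow, inv_mul_cancel₀ hr0.ne', one_pow]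
        calc _ = C₀ * pr * τ ^ e * (r⁻¹ ^ ((m - 1) * Fintype.card H) *
            r ^ ((m - 1) * Fintype.card H)) := by ring
          _ = _ := by rw [e2, mul_one]
      rw [e1, mul_pow, mul_pow, ← pow_mul τ, show e * (2 * (m * A)) = 2 * (m * e * A) by ring]
    rw [← h7, ← h10]
    gcongr
  have h6 : (‖x‖ ^ 2) ^ (m * A) ≤ (K ^ 2) ^ (m * A) * ρ ^ (2 * (A * ed)) := by
    have h7 := hKx ((r : ℂ)⁻¹ • x) y₁ hyK
      (by
        intro j
        rw [hy₁, eval_sc (hP j), PiLp.smul_apply, smul_eq_mul, mul_pow, hxy, inv_pow,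
          inv_pow, hrmc])
    rw [norm_smul, hinv r hr0, inv_mul_le_iff₀ hr0] at h7
    calc (‖x‖ ^ 2) ^ (m * A) ≤ ((r * K) ^ 2) ^ (m * A) := by gcongr
      _ = (K ^ 2) ^ (m * A) * ((r ^ m) ^ A) ^ 2 := by ring
      _ = (K ^ 2) ^ (m * A) * ρ ^ (2 * (A * ed)) := by rw [hrm]; ring
  have h7 : (‖ff wt A y‖ ^ 2) ^ N₂ ≤ (K' ^ 2) ^ N₂ * ρ ^ (2 * (A * N₂)) := by
    calc (‖ff wt A y‖ ^ 2) ^ N₂ ≤ ((K' * ρ ^ A) ^ 2) ^ N₂ := by gcongr
      _ = _ := by ring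
  calc g ^ (2 * (m * A)) * ((‖x‖ ^ 2) ^ (m * A) * (‖ff wt A y‖ ^ 2) ^ N₂)
      ≤ g ^ (2 * (m * A)) * (((K ^ 2) ^ (m * A) * ρ ^ (2 * (A * ed))) *
        ((K' ^ 2) ^ N₂ * ρ ^ (2 * (A * N₂)))) := by gcongr
    _ = (K ^ 2) ^ (m * A) * (K' ^ 2) ^ N₂ *
        (g ^ (2 * (m * A)) * ρ ^ (2 * (A * (N₂ + ed)))) := by ring
    _ ≤ (K ^ 2) ^ (m * A) * (K' ^ 2) ^ N₂ *
        (C₀ ^ (2 * (m * A)) * pr ^ (2 * (m * A)) * τ ^ (2 * (m * e * A))) := by gcongr
    _ = _ := by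
        rw [hτ, mul_pow]
        ring

/-- The auxiliary function. -/
noncomputable def PhiW (A m N₂ : ℕ) (G : (Fin (n + 1) → ℂ) → (Fin (n + 1) → ℂ) → ℂ)
    (y w : Fin (n + 1) → ℂ) : ℝ :=
  (‖G y w‖ ^ (2 * m) / (∏ j, ‖eval y (P j)‖) ^ (2 * (m - 1)) *
    (∑ j, (‖eval y (P j)‖ ^ ((m : ℝ)⁻¹)) ^ 2) ^ m) ^ A * (‖ff wt A y‖ ^ 2) ^ N₂

omit [DecidableEq H] in
lemma PhiW_sc {ed : ℕ} (hP : ∀ j, IsWeightedHomogeneous wt (P j) ed) {m a N₂ A : ℕ} (hm : 0 < m)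
    (hA : ∀ i, wt i ≤ A)
    (hs : N₂ + ed + m * a = (m - 1) * ed * Fintype.card H)
    {G : (Fin (n + 1) → ℂ) → (Fin (n + 1) → ℂ) → ℂ}
    (hJ1 : ∀ y w (l μ : ℂ), l ≠ 0 → G (sc wt l y) (sc wt l (w + μ • eu wt y)) = l ^ a * G y w)
    (y w : Fin (n + 1) → ℂ) {l : ℂ} (hl : l ≠ 0) (μ : ℂ) :
    PhiW P wt A m N₂ G (sc wt l y) (sc wt l (w + μ • eu wt y)) = PhiW P wt A m N₂ G y w := by
  unfold PhiW
  rw [hJ1 _ _ _ _ hl]
  obtain ⟨ρ, hρ⟩ : ∃ ρ : ℝ, ρ = ‖l‖ ^ ((m : ℝ)⁻¹) := ⟨_, rfl⟩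
  have hρ0 : 0 < ρ := by
    rw [hρ]
    exact Real.rpow_pos_of_pos (norm_pos_iff.mpr hl) _
  have hρm : ‖l‖ = ρ ^ m := by
    rw [hρ, Real.rpow_inv_natCast_pow (norm_nonneg _) hm.ne']
  have h1 : ∀ j, ‖eval (sc wt l y) (P j)‖ = (ρ ^ m) ^ ed * ‖eval y (P j)‖ := by
    intro j
    rw [eval_sc (hP j), norm_mul, norm_pow, hρm]
  have h2 : ∀ j, (‖eval (sc wt l y) (P j)‖ ^ ((m : ℝ)⁻¹)) ^ 2 =
      (ρ ^ ed) ^ 2 * (‖eval y (P j)‖ ^ ((m : ℝ)⁻¹)) ^ 2 := by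
    intro j
    rw [h1, Real.mul_rpow (by positivity) (norm_nonneg _), mul_pow]
    congr 2
    rw [← pow_mul, mul_comm m ed, pow_mul, Real.pow_rpow_inv_natCast (by positivity) hm.ne']
  rw [Finset.sum_congr rfl fun j _ => h2 j, Finset.prod_congr rfl fun j _ => h1 j]
  rw [Finset.prod_mul_distrib, Finset.prod_const, Finset.card_univ, ← Finset.mul_sum, norm_mul,
    norm_pow, hρm, ff_sc hA, norm_smul, norm_pow, hρm]
  obtain ⟨g, hg⟩ : ∃ g, g = ‖G y w‖ := ⟨_, rfl⟩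
  obtain ⟨p, hp⟩ : ∃ p, p = ∏ j, ‖eval y (P j)‖ := ⟨_, rfl⟩
  obtain ⟨s, hs'⟩ : ∃ s, s = ∑ j, (‖eval y (P j)‖ ^ ((m : ℝ)⁻¹)) ^ 2 := ⟨_, rfl⟩
  obtain ⟨f, hf⟩ : ∃ f, f = ‖ff wt A y‖ := ⟨_, rfl⟩
  rw [← hg, ← hp, ← hs', ← hf]
  have h3 : (((ρ ^ m) ^ a * g) ^ (2 * m) / (((ρ ^ m) ^ ed) ^ Fintype.card H * p) ^ (2 * (m - 1)) *
      ((ρ ^ ed) ^ 2 * s) ^ m) =
      (g ^ (2 * m) / p ^ (2 * (m - 1)) * s ^ m) / ρ ^ (2 * (m * N₂)) := by
    have h4 : ρ ^ (2 * (m * N₂)) * (((ρ ^ m) ^ a) ^ (2 * m) * ((ρ ^ ed) ^ 2) ^ m) =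
        (((ρ ^ m) ^ ed) ^ Fintype.card H) ^ (2 * (m - 1)) := by
      simp only [← pow_mul, ← pow_add]
      congr 1
      calc 2 * (m * N₂) + (m * a * (2 * m) + ed * 2 * m) = 2 * m * (N₂ + ed + m * a) := by ring
        _ = m * ed * Fintype.card H * (2 * (m - 1)) := by rw [hs]; ring
    rw [mul_pow, mul_pow (((ρ ^ m) ^ ed) ^ Fintype.card H), mul_pow ((ρ ^ ed) ^ 2), ← h4]
    have h5 : 0 < ((ρ ^ m) ^ a) ^ (2 * m) := by positivity
    have h6 : 0 < ((ρ ^ ed) ^ 2) ^ m := by positivity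
    have h7 : 0 < ρ ^ (2 * (m * N₂)) := by positivity
    generalize ((ρ ^ m) ^ a) ^ (2 * m) = B at *
    generalize ((ρ ^ ed) ^ 2) ^ m = B' at *
    generalize ρ ^ (2 * (m * N₂)) = B'' at *
    generalize g ^ (2 * m) = g' at *
    generalize p ^ (2 * (m - 1)) = p' at *
    generalize s ^ m = s'
    rw [mul_div_mul_comm]
    have h8 : B / (B'' * (B * B')) = 1 / (B'' * B') := by
      field_simp
    rw [h8]
    field_simp
  rw [h3, div_pow]
  have h4 : (((ρ ^ m) ^ A * f) ^ 2) ^ N₂ = (ρ ^ (2 * (m * N₂))) ^ A * (f ^ 2) ^ N₂ := by ring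
  rw [h4]
  have h5 : 0 < (ρ ^ (2 * (m * N₂))) ^ A := by positivity
  field_simp

/-- The contradiction for curves not contained in any of the hypersurfaces. -/
theorem caseW {ed : ℕ} (hP : ∀ j, IsWeightedHomogeneous wt (P j) ed)
    {m a e N₂ : ℕ} (hm : 0 < m) (he : 0 < e) (hN₂ : 0 < N₂) {𝓑 : Finset (Finset H)}
    {Z : Set (Fin (n + 1) → ℂ)} (hZ : IsClosed Z) {K₀ : ℝ}
    (hbd : ∀ y ∈ Z, n1 wt y = 1 → ‖y‖ ≤ K₀)
    {T : (Fin (n + 1) → ℂ) → (Fin (n + 1) → ℂ) → Prop} (hTZ : ∀ y w, T y w → y ∈ Z)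
    (hT : ∀ y w (l μ c : ℂ), l ≠ 0 → T y w → T (sc wt l y) (c • sc wt l (w + μ • eu wt y)))
    (hcov : ∀ y ∈ Z, n1 wt y ≠ 0 → ∃ B ∈ 𝓑, ∀ j, eval y (P j) = 0 → j ∈ B)
    (hsep : ∀ y ∈ Z, n1 wt y ≠ 0 → ∃ j, eval y (P j) ≠ 0)
    (hs : N₂ + ed + m * a = (m - 1) * ed * Fintype.card H)
    {G : (Fin (n + 1) → ℂ) → (Fin (n + 1) → ℂ) → ℂ}
    (hG : FacH P T 𝓑 G)
    (hJ1 : ∀ y w (l μ : ℂ), l ≠ 0 → G (sc wt l y) (sc wt l (w + μ • eu wt y)) = l ^ a * G y w)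
    (hJ2 : ∀ y w (c : ℂ), G y (c • w) = c ^ e * G y w)
    {Y : ℂ → ℂ → Fin (n + 1) → ℂ} (hY : WLift wt Y)
    (hTY : ∀ z₁, ∀ᶠ z in 𝓝 z₁, T (Y z₁ z) (deriv (Y z₁) z))
    (htop : ∀ j z₁, analyticOrderAt (fun z => eval (Y z₁ z) (P j)) z₁ ≠ ⊤)
    (hord : ∀ j z₁, analyticOrderAt (fun z => eval (Y z₁ z) (P j)) z₁ = 0 ∨
      (m : ℕ∞) ≤ analyticOrderAt (fun z => eval (Y z₁ z) (P j)) z₁) (z₁ : ℂ) :
    ∀ᶠ z in 𝓝 z₁, G (Y z₁ z) (deriv (Y z₁) z) = 0 := by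
  obtain ⟨hYan, hY0, hYc⟩ := hY
  obtain ⟨A, hA1, hA⟩ : ∃ A, 1 ≤ A ∧ ∀ i, wt i ≤ A :=
    ⟨1 + ∑ i, wt i, by omega, fun i => (Finset.single_le_sum (f := wt) (fun _ _ => Nat.zero_le _)
      (Finset.mem_univ i)).trans (Nat.le_add_left _ _)⟩
  have hY0' : ∀ z₁, ∀ᶠ z in 𝓝 z₁, n1 wt (Y z₁ z) ≠ 0 := by
    intro z₁
    have h1 : ContinuousAt (fun z => n1 wt (Y z₁ z)) z₁ :=
      (continuous_n1 wt).continuousAt.comp (hYan z₁).continuousAt
    exact h1.eventually_ne (hY0 z₁)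
  -- the function off the hypersurfaces
  obtain ⟨P₀, hP₀⟩ : ∃ P₀ : ℂ → ℝ, P₀ = fun z => PhiW P wt A m N₂ G (Y z z) (deriv (Y z) z) :=
    ⟨_, rfl⟩
  have hP₀loc : ∀ z₁, ∀ᶠ z in 𝓝 z₁, P₀ z = PhiW P wt A m N₂ G (Y z₁ z) (deriv (Y z₁) z) := by
    intro z₁
    filter_upwards [hYc z₁, (hYan z₁).eventually_analyticAt] with z ⟨l, hl1, hl2, hl3⟩ han
    rw [hP₀]
    obtain ⟨h1, h2⟩ := WLift.deriv_eq hl1 hl2 hl3 han
    beta_reduce
    rw [h1, h2, PhiW_sc P wt hP hm hA hs hJ1 _ _ hl2]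
  have hYZ : ∀ z₁, Y z₁ z₁ ∈ Z := fun z₁ => hTZ _ _ (hTY z₁).self_of_nhds
  choose σ hσan hσG hσx using fun z₁ => local_structureH P hm 𝓑 G hG (hYan z₁)
    (hcov _ (hYZ z₁) (hY0 z₁)) (hTY z₁) (fun j => htop j z₁) (fun j => hord j z₁)
  have hlan : ∀ z₁ j, AnalyticAt ℂ (fun z => eval (Y z₁ z) (P j)) z₁ := fun z₁ j =>
    analyticAt_eval (hYan z₁) _
  have hlne : ∀ z₁, ∀ᶠ z in 𝓝[≠] z₁, ∀ j, eval (Y z₁ z) (P j) ≠ 0 := by
    intro z₁
    rw [Filter.eventually_all]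
    intro j
    rcases (hlan z₁ j).eventually_eq_zero_or_eventually_ne_zero with h | h
    · exact absurd (analyticOrderAt_eq_top.mpr h) (htop j z₁)
    · exact h
  obtain ⟨c, hc⟩ : ∃ c : ℂ → ℂ → ℝ, c = fun z₁ z => (‖σ z₁ z‖ ^ 2 *
    (∑ j, (‖eval (Y z₁ z) (P j)‖ ^ ((m : ℝ)⁻¹)) ^ 2) ^ m) ^ A *
      (‖ff wt A (Y z₁ z)‖ ^ 2) ^ N₂ := ⟨_, rfl⟩
  have hccont : ∀ z₁, ∀ᶠ z in 𝓝 z₁, ContinuousAt (c z₁) z := by
    intro z₁
    filter_upwards [(hσan z₁).eventually_analyticAt, (hYan z₁).eventually_analyticAt]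
      with z h1 h2
    rw [hc]
    have h3 : ContinuousAt (σ z₁) z := h1.continuousAt
    have h4 : ∀ j, ContinuousAt (fun z => eval (Y z₁ z) (P j)) z := fun j =>
      (analyticAt_eval h2 _).continuousAt
    have h5 : ∀ j, ContinuousAt (fun z => (‖eval (Y z₁ z) (P j)‖ ^ ((m : ℝ)⁻¹)) ^ 2) z := fun j =>
      (((h4 j).norm).rpow_const (Or.inr (by positivity))).pow 2
    have h6 : ContinuousAt (fun z => ∑ j, (‖eval (Y z₁ z) (P j)‖ ^ ((m : ℝ)⁻¹)) ^ 2) z :=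
      tendsto_finsetSum _ fun j _ => h5 j
    have h7 : ContinuousAt (fun z => ff wt A (Y z₁ z)) z := (analyticAt_ff wt A h2).continuousAt
    exact ((((h3.norm).pow 2).mul (h6.pow _)).pow _).mul ((h7.norm.pow 2).pow _)
  have hcP : ∀ z₁, ∀ᶠ z in 𝓝[≠] z₁, P₀ z = c z₁ z := by
    intro z₁
    filter_upwards [hlne z₁, (hP₀loc z₁).filter_mono nhdsWithin_le_nhds,
      (hσG z₁).filter_mono nhdsWithin_le_nhds] with z h1 h2 h3
    rw [h2, hc, PhiW]
    have h4 : 0 < (∏ j, ‖eval (Y z₁ z) (P j)‖) ^ (2 * (m - 1)) := by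
      apply pow_pos
      exact Finset.prod_pos fun j _ => norm_pos_iff.mpr (h1 j)
    have h5 : ‖G (Y z₁ z) (deriv (Y z₁) z)‖ ^ (2 * m) =
        ‖σ z₁ z‖ ^ 2 * (∏ j, ‖eval (Y z₁ z) (P j)‖) ^ (2 * (m - 1)) := by
      rw [mul_comm 2 m, pow_mul, ← norm_pow, h3, norm_mul, mul_pow, norm_pow, ← norm_prod,
        ← pow_mul, mul_comm (m - 1) 2]
    rw [h5, mul_div_assoc, div_self h4.ne', mul_one]
  obtain ⟨Q, hQcont, hQc⟩ := glue P₀ fun z₁ => ⟨c z₁, hccont z₁, hcP z₁⟩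
  have hQz : ∀ z₁, ∀ᶠ z in 𝓝 z₁, Q z = c z₁ z := fun z₁ => hQc z₁ _ (hccont z₁) (hcP z₁)
  have hQnonneg : ∀ z, 0 ≤ Q z := by
    intro z
    rw [(hQz z).self_of_nhds, hc]
    positivity
  obtain ⟨C, hC0, hC⟩ := pointwiseW P wt hP hm he hA hA1 𝓑 hZ hbd hsep hTZ hT hcov hs G hG hJ1 hJ2
  have hff0 : ∀ y, n1 wt y ≠ 0 → ff wt A y ≠ 0 := by
    intro y hy h0
    have h1 := n1_pow_le_ff (wt := wt) hA1 y
    rw [h0, norm_zero] at h1
    have h2 : 0 < n1 wt y ^ A := pow_pos (lt_of_le_of_ne (n1_nonneg wt y) (Ne.symm hy)) _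
    linarith
  -- application of the growth lemma
  have hzero : ∀ z, Q z = 0 := by
    refine growth2 (E := EuclideanSpace ℂ H)
      (E' := EuclideanSpace ℂ (Fin (n + 1) × {k : Fin (n + 1) // wt k = 1})) hQcont
      hQnonneg (κ := m * e * A) (N := m * A) (N' := N₂) (by positivity) hN₂ (by positivity) C ?_
    intro z₁ hz₁
    have h1 := (hQz z₁).self_of_nhds
    have hσ0 : σ z₁ z₁ ≠ 0 := by
      intro h
      rw [h1, hc] at hz₁
      simp [h, show A ≠ 0 by omega] at hz₁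
    obtain ⟨x, hxan, hx⟩ := hσx z₁ hσ0
    have hnorm : ∀ z, (∀ j, eval (Y z₁ z) (P j) = x z j ^ m) →
        ∑ j, (‖eval (Y z₁ z) (P j)‖ ^ ((m : ℝ)⁻¹)) ^ 2 = ‖x z‖ ^ 2 := by
      intro z hz
      rw [EuclideanSpace.norm_sq_eq]
      refine Finset.sum_congr rfl fun j _ => ?_
      rw [hz j, norm_pow, Real.pow_rpow_inv_natCast (norm_nonneg _) hm.ne']
    have hx0 : x z₁ ≠ 0 := by
      intro h0
      obtain ⟨j, hj⟩ := hsep _ (hYZ z₁) (hY0 z₁)
      apply hj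
      rw [(hx.self_of_nhds j).1, h0]
      simp [hm.ne']
    have hyan := analyticAt_ff wt A (hYan z₁)
    have hy0 : ff wt A (Y z₁ z₁) ≠ 0 := hff0 _ (hY0 z₁)
    refine ⟨fun z => σ z₁ z ^ A, x, fun z => ff wt A (Y z₁ z), (hσan z₁).pow A, hxan, hyan, hx0,
      hy0, ?_, ?_⟩
    · filter_upwards [hQz z₁, hx] with z g1 g2
      rw [g1, hc]
      beta_reduce
      rw [hnorm z fun j => (g2 j).1, norm_pow, mul_pow]
      ring
    · intro β β'
      have hx0' : ∀ᶠ z in 𝓝 z₁, x z ≠ 0 := hxan.continuousAt.eventually_ne hx0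
      have hineq : ∀ᶠ z in 𝓝[≠] z₁, Q z ≤
          C * (‖deriv x z - β • x z‖ / ‖x z‖ +
            ‖dff wt A (Y z₁ z) (deriv (Y z₁) z) - β' • ff wt A (Y z₁ z)‖ /
              ‖ff wt A (Y z₁ z)‖) ^ (2 * (m * e * A)) := by
        filter_upwards [hlne z₁, (hQz z₁).filter_mono nhdsWithin_le_nhds,
          (hσG z₁).filter_mono nhdsWithin_le_nhds, hx.filter_mono nhdsWithin_le_nhds,
          (hY0' z₁).filter_mono nhdsWithin_le_nhds, (hTY z₁).filter_mono nhdsWithin_le_nhds]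
          with z g1 g2 g3 g4 g5 gT
        rw [g2, hc]
        beta_reduce
        rw [hnorm z fun j => (g4 j).1]
        have g6 := hC (x z) (deriv x z) (Y z₁ z) (deriv (Y z₁) z) g5 gT (fun j => (g4 j).1)
          (fun j => (g4 j).2) β β'
        have g7 : 0 < (∏ j, ‖x z j‖ ^ (m - 1)) ^ (2 * (m * A)) := by
          apply pow_pos
          refine Finset.prod_pos fun j _ => ?_
          have : x z j ≠ 0 := by
            intro h
            apply g1 j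
            rw [(g4 j).1, h, zero_pow hm.ne']
          positivity
        have g9 : ‖G (Y z₁ z) (deriv (Y z₁) z)‖ ^ (2 * (m * A)) =
            (‖σ z₁ z‖ ^ 2) ^ A * (∏ j, ‖x z j‖ ^ (m - 1)) ^ (2 * (m * A)) := by
          have g10 : ‖G (Y z₁ z) (deriv (Y z₁) z)‖ ^ (2 * m) =
              ‖σ z₁ z‖ ^ 2 * (∏ j, ‖x z j‖ ^ (m - 1)) ^ (2 * m) := by
            rw [mul_comm 2 m, pow_mul, ← norm_pow, g3, norm_mul, mul_pow, norm_pow]
            congr 1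
            have : ∀ j, ‖eval (Y z₁ z) (P j)‖ = ‖x z j‖ ^ m := fun j => by
              rw [(g4 j).1, norm_pow]
            rw [norm_prod, Finset.prod_congr rfl fun j _ => this j, Finset.prod_pow,
              Finset.prod_pow, ← pow_mul, ← pow_mul, ← pow_mul]
            congr 1
            ring
          rw [show 2 * (m * A) = 2 * m * A by ring, pow_mul, g10, mul_pow, ← pow_mul (∏ j, _)]
        rw [g9] at g6
        have g10 : ((‖σ z₁ z‖ ^ 2 * (‖x z‖ ^ 2) ^ m) ^ A * (‖ff wt A (Y z₁ z)‖ ^ 2) ^ N₂) *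
            (∏ j, ‖x z j‖ ^ (m - 1)) ^ (2 * (m * A)) ≤
            (C * (‖deriv x z - β • x z‖ / ‖x z‖ +
              ‖dff wt A (Y z₁ z) (deriv (Y z₁) z) - β' • ff wt A (Y z₁ z)‖ /
                ‖ff wt A (Y z₁ z)‖) ^ (2 * (m * e * A))) *
                (∏ j, ‖x z j‖ ^ (m - 1)) ^ (2 * (m * A)) := by
          refine le_trans (le_of_eq ?_) (g6.trans (le_of_eq ?_))
          · rw [mul_pow, pow_mul (‖x z‖ ^ 2) m A]
            ring
          · ring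
        exact le_of_mul_le_mul_right g10 g7
      have hder : ∀ᶠ z in 𝓝 z₁, deriv (fun z => ff wt A (Y z₁ z)) z =
          dff wt A (Y z₁ z) (deriv (Y z₁) z) := by
        filter_upwards [(hYan z₁).eventually_analyticAt] with z hz
        exact deriv_ff wt A hz
      have hineq' : ∀ᶠ z in 𝓝[≠] z₁, Q z ≤
          C * (‖deriv x z - β • x z‖ / ‖x z‖ +
            ‖deriv (fun z => ff wt A (Y z₁ z)) z - β' • ff wt A (Y z₁ z)‖ /
              ‖ff wt A (Y z₁ z)‖) ^ (2 * (m * e * A)) := by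
        filter_upwards [hineq, hder.filter_mono nhdsWithin_le_nhds] with z g1 g2
        rw [g2]
        exact g1
      have hcont : ContinuousAt (fun z => C * (‖deriv x z - β • x z‖ / ‖x z‖ +
            ‖deriv (fun z => ff wt A (Y z₁ z)) z - β' • ff wt A (Y z₁ z)‖ /
              ‖ff wt A (Y z₁ z)‖) ^ (2 * (m * e * A))) z₁ := by
        have h2 : ContinuousAt x z₁ := hxan.continuousAt
        have h3 : ContinuousAt (deriv x) z₁ := hxan.deriv.continuousAt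
        have h4 : ‖x z₁‖ ≠ 0 := norm_ne_zero_iff.mpr hx0
        have h5 : ContinuousAt (fun z => ff wt A (Y z₁ z)) z₁ := hyan.continuousAt
        have h6 : ContinuousAt (deriv fun z => ff wt A (Y z₁ z)) z₁ := hyan.deriv.continuousAt
        have h7 : ‖ff wt A (Y z₁ z₁)‖ ≠ 0 := norm_ne_zero_iff.mpr hy0
        exact continuousAt_const.mul ((((h3.sub (h2.const_smul β)).norm.div h2.norm h4).add
          ((h6.sub (h5.const_smul β')).norm.div h5.norm h7)).pow _)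
      exact le_of_tendsto_of_tendsto (hQcont.continuousAt.tendsto.mono_left nhdsWithin_le_nhds)
        (hcont.tendsto.mono_left nhdsWithin_le_nhds) hineq'
  -- conclusion
  filter_upwards [hQz z₁, hσG z₁, hY0' z₁, hTY z₁] with z h1 h2 h3 h3'
  rw [hzero z, hc] at h1
  have h4 : 0 < ∑ j, (‖eval (Y z₁ z) (P j)‖ ^ ((m : ℝ)⁻¹)) ^ 2 := by
    by_contra hcon
    obtain ⟨j, hj⟩ := hsep _ (hTZ _ _ h3') h3
    apply hj
    have h5 : ∑ j, (‖eval (Y z₁ z) (P j)‖ ^ ((m : ℝ)⁻¹)) ^ 2 = 0 :=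
      le_antisymm (not_lt.mp hcon) (Finset.sum_nonneg fun j _ => by positivity)
    have h6 := (Finset.sum_eq_zero_iff_of_nonneg fun j _ => by positivity).mp h5 j
      (Finset.mem_univ _)
    have h7 : ‖eval (Y z₁ z) (P j)‖ ^ ((m : ℝ)⁻¹) = 0 := by
      exact pow_eq_zero_iff (two_ne_zero) |>.mp h6
    rw [Real.rpow_eq_zero (norm_nonneg _) (by positivity)] at h7
    exact norm_eq_zero.mp h7
  have h4' : 0 < ‖ff wt A (Y z₁ z)‖ := norm_pos_iff.mpr (hff0 _ h3)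
  have h5 : σ z₁ z = 0 := by
    by_contra h6
    have h7 : 0 < (‖σ z₁ z‖ ^ 2 * (∑ j, (‖eval (Y z₁ z) (P j)‖ ^ ((m : ℝ)⁻¹)) ^ 2) ^ m) ^ A *
        (‖ff wt A (Y z₁ z)‖ ^ 2) ^ N₂ := by
      have := norm_pos_iff.mpr h6
      positivity
    exact h7.ne h1
  rw [h5, zero_mul] at h2
  exact (pow_eq_zero_iff hm.ne').mp h2

end

end Pool.Agent.Lib.GGL
end
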