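import Mathlib
import Pool.Agent.Lib.MP_8d161d_ag.Vero
import Pool.Agent.Lib.MP_8d161d_ag.Mg.G017
import Pool.Agent.Lib.MP_8d161d_ag.WData
import Pool.Agent.Lib.MP_8d161d_ag.Mg.G023

section

/-!
The field of rational functions on a cone and its scaling automorphisms.
-/

open MvPolynomial Module

namespace Pool.Agent.Lib.GGL

section

variable {σ : Type*}

lemma exists_sum_whc (w : σ → ℕ) (φ : MvPolynomial σ ℂ) :
    ∃ M : ℕ, φ = ∑ k ∈ Finset.range M, weightedHomogeneousComponent w k φ := by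
  classical
  refine ⟨weightedTotalDegree w φ + 1, ?_⟩
  ext d
  rw [coeff_sum]
  simp only [coeff_weightedHomogeneousComponent]
  by_cases hd : d ∈ φ.support
  · rw [Finset.sum_eq_single (Finsupp.weight w d)]
    · rw [if_pos rfl]
    · intro k _ hk
      rw [if_neg hk.symm]
    · intro hk
      exfalso
      apply hk
      rw [Finset.mem_range]
      have := le_weightedTotalDegree w hd
      omega
  · rw [notMem_support_iff.mp hd]
    simp

variable {K : Type*} [Field K] [Algebra ℂ K]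

/-- the relations of a weighted homogeneous point are weighted homogeneous -/
lemma aeval_component_eq_zero {v : σ → K} {wt : σ → ℕ}
    (h : ∀ l : ℂ, l ≠ 0 → ∃ s : K ≃ₐ[ℂ] K, ∀ i, s (v i) = algebraMap ℂ K l ^ wt i * v i)
    {f : MvPolynomial σ ℂ} (hf : aeval v f = 0) (k : ℕ) :
    aeval v (weightedHomogeneousComponent wt k f) = 0 := by
  classical
  obtain ⟨M, hM⟩ := exists_sum_whc wt f
  obtain ⟨q, hq⟩ : ∃ q : Polynomial K, q = ∑ k ∈ Finset.range M,
    Polynomial.monomial k (aeval v (weightedHomogeneousComponent wt k f)) := ⟨_, rfl⟩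
  have hev : ∀ l : ℂ, l ≠ 0 → q.eval (algebraMap ℂ K l) = 0 := by
    intro l hl
    obtain ⟨s, hs⟩ := h l hl
    have h1 : s (aeval v f) = aeval (fun i => algebraMap ℂ K l ^ wt i * v i) f := by
      have h2 : (s : K →ₐ[ℂ] K).comp (aeval v) =
          aeval (fun i => algebraMap ℂ K l ^ wt i * v i) := by
        apply MvPolynomial.algHom_ext
        intro i
        rw [AlgHom.comp_apply, aeval_X, aeval_X]
        exact hs i
      exact congrArg (fun F => F f) h2
    rw [hf, map_zero] at h1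
    rw [h1]
    conv_rhs => rw [hM, map_sum]
    rw [hq, Polynomial.eval_finsetSum]
    refine Finset.sum_congr rfl fun k _ => ?_
    rw [Polynomial.eval_monomial, aeval_weight wt
      (weightedHomogeneousComponent_isWeightedHomogeneous k f) v (algebraMap ℂ K l), mul_comm]
  have hq0 : q = 0 := by
    apply Polynomial.eq_zero_of_infinite_isRoot
    apply Set.Infinite.mono (s := (algebraMap ℂ K) '' {0}ᶜ)
    · rintro _ ⟨l, hl, rfl⟩
      exact hev l hl
    · apply Set.Infinite.image (algebraMap ℂ K).injective.injOn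
      exact (Set.finite_singleton (0 : ℂ)).infinite_compl
  by_cases hk : k ∈ Finset.range M
  · have h1 := congrArg (fun P => Polynomial.coeff P k) hq0
    simp only [hq, Polynomial.finsetSum_coeff, Polynomial.coeff_monomial, Polynomial.coeff_zero]
      at h1
    rw [Finset.sum_eq_single k] at h1
    · rwa [if_pos rfl] at h1
    · intro j _ hj
      rw [if_neg hj]
    · intro hk'
      exact absurd hk hk'
  · have h1 : weightedHomogeneousComponent wt k f = 0 := by
      conv_lhs => rw [hM]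
      rw [map_sum]
      apply Finset.sum_eq_zero
      intro j hj
      apply (weightedHomogeneousComponent_isWeightedHomogeneous j
        f).weightedHomogeneousComponent_ne
      rintro rfl
      exact hk hj
    rw [h1, map_zero]

end

section

variable {n : ℕ} (I : Ideal (MvPolynomial (Fin (n + 1)) ℂ))

/-- homogeneous ideals -/
def HomIdeal : Prop := ∀ g ∈ I, ∀ k, homogeneousComponent k g ∈ I

/-- scaling of the variables -/
noncomputable def scA (l : ℂ) : MvPolynomial (Fin (n + 1)) ℂ →ₐ[ℂ] MvPolynomial (Fin (n + 1)) ℂ :=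
  aeval fun i => C l * X i

lemma scA_homogeneous {P : MvPolynomial (Fin (n + 1)) ℂ} {e : ℕ} (hP : P.IsHomogeneous e)
    (l : ℂ) : scA l P = C (l ^ e) * P := by
  have h1 := aeval_weight (S := MvPolynomial (Fin (n + 1)) ℂ) (1 : Fin (n + 1) → ℕ) hP X (C l)
  rw [aeval_X_left] at h1
  rw [scA, C_pow]
  simp only [Pi.one_apply, pow_one] at h1
  exact h1

variable {I}

lemma scA_mem (hI : HomIdeal I) (l : ℂ) {g : MvPolynomial (Fin (n + 1)) ℂ} (hg : g ∈ I) :
    scA l g ∈ I := by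
  rw [← sum_homogeneousComponent g, map_sum]
  apply Ideal.sum_mem
  intro k _
  rw [scA_homogeneous (homogeneousComponent_isHomogeneous k g)]
  exact I.mul_mem_left _ (hI g hg k)

lemma scA_comp (l l' : ℂ) (h : l * l' = 1) :
    (scA l).comp (scA l') = AlgHom.id ℂ (MvPolynomial (Fin (n + 1)) ℂ) := by
  apply MvPolynomial.algHom_ext
  intro i
  have h2 : ∀ (l : ℂ), scA l (X i) = C l * X i := by
    intro l
    rw [scA, aeval_X]
  have h3 : scA (n := n) l (C l') = C l' := by
    rw [scA, aeval_C]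
    rfl
  rw [AlgHom.comp_apply, h2, map_mul, h2, h3, ← mul_assoc, ← C_mul, mul_comm l', h, C_1, one_mul]
  rfl

/-- scaling on the ring of the cone -/
noncomputable def scS (hI : HomIdeal I) (l : ℂ) :
    (MvPolynomial (Fin (n + 1)) ℂ ⧸ I) →ₐ[ℂ] (MvPolynomial (Fin (n + 1)) ℂ ⧸ I) :=
  Ideal.quotientMapₐ I (scA l) fun _ hg => scA_mem hI l hg

lemma scS_mk (hI : HomIdeal I) (l : ℂ) (g : MvPolynomial (Fin (n + 1)) ℂ) :
    scS hI l (Ideal.Quotient.mk I g) = Ideal.Quotient.mk I (scA l g) := rfl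

lemma scS_comp (hI : HomIdeal I) (l l' : ℂ) (h : l * l' = 1) :
    (scS hI l).comp (scS hI l') = AlgHom.id ℂ (MvPolynomial (Fin (n + 1)) ℂ ⧸ I) := by
  apply AlgHom.ext
  intro x
  obtain ⟨g, rfl⟩ := Ideal.Quotient.mk_surjective x
  rw [AlgHom.comp_apply, scS_mk, scS_mk]
  have h1 := congrArg (fun F => F g) (scA_comp (n := n) l l' h)
  have h2 : scA l (scA l' g) = g := h1
  rw [h2]
  rfl

variable (I)

/-- the field of rational functions on the cone -/
abbrev KK : Type := FractionRing (MvPolynomial (Fin (n + 1)) ℂ ⧸ I)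

/-- the coordinates as rational functions -/
noncomputable def gen (i : Fin (n + 1)) : KK I :=
  algebraMap (MvPolynomial (Fin (n + 1)) ℂ ⧸ I) (KK I) (Ideal.Quotient.mk I (X i))

lemma aeval_gen (f : MvPolynomial (Fin (n + 1)) ℂ) :
    aeval (gen I) f = algebraMap (MvPolynomial (Fin (n + 1)) ℂ ⧸ I) (KK I)
      (Ideal.Quotient.mk I f) := by
  have h1 : aeval (gen I) = ((IsScalarTower.toAlgHom ℂ (MvPolynomial (Fin (n + 1)) ℂ ⧸ I)
      (KK I)).comp (Ideal.Quotient.mkₐ ℂ I)) := by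
    apply MvPolynomial.algHom_ext
    intro i
    rw [aeval_X]
    rfl
  rw [h1]
  rfl

lemma aeval_gen_eq_zero [I.IsPrime] {f : MvPolynomial (Fin (n + 1)) ℂ} : aeval (gen I) f = 0 ↔ f ∈ I := by
  rw [aeval_gen, FaithfulSMul.algebraMap_eq_zero_iff, Ideal.Quotient.eq_zero_iff_mem]

variable {I}

/-- the scaling automorphisms -/
theorem exists_auto (hI : HomIdeal I) {l : ℂ} (hl : l ≠ 0) :
    ∃ s : KK I ≃ₐ[ℂ] KK I, ∀ i, s (gen I i) = algebraMap ℂ (KK I) l * gen I i := by
  let eS : (MvPolynomial (Fin (n + 1)) ℂ ⧸ I) ≃ₐ[ℂ] (MvPolynomial (Fin (n + 1)) ℂ ⧸ I) :=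
    AlgEquiv.ofAlgHom (scS hI l) (scS hI l⁻¹) (scS_comp hI _ _ (mul_inv_cancel₀ hl))
      (scS_comp hI _ _ (inv_mul_cancel₀ hl))
  refine ⟨IsFractionRing.algEquivOfAlgEquiv eS, ?_⟩
  intro i
  rw [gen, IsFractionRing.algEquivOfAlgEquiv_algebraMap]
  have h1 : eS (Ideal.Quotient.mk I (X i)) = Ideal.Quotient.mk I (C l) * Ideal.Quotient.mk I (X i) := by
    have h2 : eS (Ideal.Quotient.mk I (X i)) = scS hI l (Ideal.Quotient.mk I (X i)) := rfl
    rw [h2, scS_mk, scA, aeval_X, map_mul]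
  rw [h1, map_mul]
  rfl

end

end Pool.Agent.Lib.GGL
end

section

/-!
The squarefree part of the norm form over the field of rational functions.
-/

open MvPolynomial Module

namespace Pool.Agent.Lib.GGL

section

variable {n t : ℕ} {I : Ideal (MvPolynomial (Fin (n + 1)) ℂ)}

/-- the form generates a radical ideal on the normalisation of the cone -/
def RedOn (I : Ideal (MvPolynomial (Fin (n + 1)) ℂ)) (P : MvPolynomial (Fin (n + 1)) ℂ) : Prop :=
  (Ideal.span {algebraMap (MvPolynomial (Fin (n + 1)) ℂ ⧸ I)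
    (integralClosure (MvPolynomial (Fin (n + 1)) ℂ ⧸ I)
      (FractionRing (MvPolynomial (Fin (n + 1)) ℂ ⧸ I))) (Ideal.Quotient.mk I P)}).IsRadical

lemma isIntegral_coeff_sp (N : MvPolynomial (Fin (n + 1) ⊕ Fin (t + 1)) ℂ)
    (m : Fin (t + 1) →₀ ℕ) :
    IsIntegral (MvPolynomial (Fin (n + 1)) ℂ ⧸ I) (coeff m (sp (gen I) N)) := by
  have h1 : sp (gen I) N = map ((IsScalarTower.toAlgHom ℂ (MvPolynomial (Fin (n + 1)) ℂ ⧸ I)
      (KK I) : (MvPolynomial (Fin (n + 1)) ℂ ⧸ I) →ₐ[ℂ] KK I) :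
        (MvPolynomial (Fin (n + 1)) ℂ ⧸ I) →+* KK I)
      (sp (fun i => Ideal.Quotient.mk I (X i)) N) := by
    rw [map_sp]
    rfl
  rw [h1, coeff_map]
  exact isIntegral_algebraMap

lemma isIntegral_aeval_gen (P : MvPolynomial (Fin (n + 1)) ℂ) :
    IsIntegral (MvPolynomial (Fin (n + 1)) ℂ ⧸ I) (aeval (gen I) P) := by
  rw [aeval_gen]
  exact isIntegral_algebraMap

/-- the squarefree part and the integral cofactors -/
theorem exists_cofactor_data [I.IsPrime] (hI : HomIdeal I)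
    {N : MvPolynomial (Fin (n + 1) ⊕ Fin (t + 1)) ℂ} {a D ed : ℕ}
    (homY : IsWeightedHomogeneous (wY n t) N a) (homT : IsWeightedHomogeneous (wT n t) N D)
    (hN0 : sp (gen I) N ≠ 0) (ha : ed ≤ a) {ι : Type*} (J : Finset ι)
    {P : ι → MvPolynomial (Fin (n + 1)) ℂ} {x : ι → Fin (t + 1) → ℂ}
    (hPh : ∀ j ∈ J, (P j).IsHomogeneous ed) (hPI : ∀ j ∈ J, P j ∉ I)
    (hrad : ∀ j ∈ J, RedOn I (P j)) (hdvd : ∀ j ∈ J, P j ∣ nx N (x j)) :
    ∃ (D₁ D₂ : ℕ) (G G' : MvPolynomial (Fin (t + 1)) (KK I))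
      (u : ι → (Fin (t + 1) →₀ ℕ) → KK I),
      D₁ + D₂ = D ∧ G.IsHomogeneous D₁ ∧ G'.IsHomogeneous D₂ ∧ G ≠ 0 ∧ G' ≠ 0 ∧
      Squarefree G ∧ sp (gen I) N = G * G' ∧
      (∀ j ∈ J, ∀ m, IsIntegral (MvPolynomial (Fin (n + 1)) ℂ ⧸ I) (u j m)) ∧
      (∀ j ∈ J, ∀ m, eval (fun i => algebraMap ℂ (KK I) (x j i)) G * coeff m G' =
        aeval (gen I) (P j) * u j m) ∧
      ∀ l : ℂ, l ≠ 0 → ∃ s : KK I ≃ₐ[ℂ] KK I,
        (∀ i, s (gen I i) = algebraMap ℂ (KK I) l * gen I i) ∧
        ∀ j ∈ J, ∀ m, s (u j m) = algebraMap ℂ (KK I) l ^ (a - ed) * u j m := by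
  classical
  obtain ⟨G, G', M, hG, hNG, hNM⟩ := exists_squarefree_part hN0
  have hG0 : G ≠ 0 := by
    rintro rfl
    rw [zero_mul] at hNG
    exact hN0 hNG
  have hG'0 : G' ≠ 0 := by
    rintro rfl
    rw [mul_zero] at hNG
    exact hN0 hNG
  have hNh : (sp (gen I) N).IsHomogeneous D := sp_isHomogeneous homT _
  obtain ⟨D₁, hD₁⟩ := isHomogeneous_of_dvd hNh hN0 ⟨G', hNG⟩
  obtain ⟨D₂, hD₂⟩ := isHomogeneous_of_dvd hNh hN0 (Dvd.intro_left _ hNG.symm)
  have hDD : D₁ + D₂ = D := by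
    have h1 := hD₁.mul hD₂
    rw [← hNG] at h1
    exact h1.inj_right hNh hN0
  have hint : ∀ m, IsIntegral (MvPolynomial (Fin (n + 1)) ℂ ⧸ I) (coeff m (sp (gen I) N)) :=
    fun m => isIntegral_coeff_sp N m
  obtain ⟨xK, hxK⟩ : ∃ xK : ι → Fin (t + 1) → KK I,
    xK = fun j i => algebraMap ℂ (KK I) (x j i) := ⟨_, rfl⟩
  have hxint : ∀ j i, IsIntegral (MvPolynomial (Fin (n + 1)) ℂ ⧸ I) (xK j i) := by
    intro j i
    rw [hxK]
    have h1 : algebraMap ℂ (KK I) (x j i) =
        algebraMap (MvPolynomial (Fin (n + 1)) ℂ ⧸ I) (KK I)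
          (algebraMap ℂ (MvPolynomial (Fin (n + 1)) ℂ ⧸ I) (x j i)) :=
      IsScalarTower.algebraMap_apply _ _ _ _
    beta_reduce
    rw [h1]
    exact isIntegral_algebraMap
  -- integrality of the products
  have hw : ∀ j m, IsIntegral (MvPolynomial (Fin (n + 1)) ℂ ⧸ I)
      (eval (xK j) G * coeff m G') := by
    intro j m
    have h1 : eval (xK j) G * coeff m G' = eval (xK j) (C (coeff m G') * G) := by
      rw [map_mul, eval_C, mul_comm]
    rw [h1]
    apply isIntegral_eval _ (hxint j)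
    intro k
    rw [coeff_C_mul, mul_comm]
    exact kronecker (f := G) (g := G') (fun r => by rw [← hNG]; exact hint r) k m
  have hex : ∀ j ∈ J, ∀ m, ∃ u : KK I, IsIntegral (MvPolynomial (Fin (n + 1)) ℂ ⧸ I) u ∧
      eval (xK j) G * coeff m G' = aeval (gen I) (P j) * u := by
    intro j hj m
    obtain ⟨ε, hε1, hε2⟩ := exists_integral_cofactor hG0 hNG hNM hint m
    obtain ⟨U, hU⟩ := hdvd j hj
    have h1 : eval (xK j) (sp (gen I) N) = aeval (gen I) (P j) * aeval (gen I) U := by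
      rw [← map_mul, ← hU, aeval_nx, hxK]
    have h2 : (eval (xK j) G * coeff m G') ^ (M + 1) =
        aeval (gen I) (P j) * (aeval (gen I) U * eval (xK j) ε) := by
      have h3 := congrArg (eval (xK j)) hε2
      rw [map_pow, map_mul, map_mul, eval_C, h1] at h3
      rw [mul_comm (eval (xK j) G), h3]
      ring
    have h3 : IsIntegral (MvPolynomial (Fin (n + 1)) ℂ ⧸ I)
        (aeval (gen I) U * eval (xK j) ε) :=
      (isIntegral_aeval_gen U).mul (isIntegral_eval hε1 (hxint j))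
    let W : integralClosure (MvPolynomial (Fin (n + 1)) ℂ ⧸ I) (KK I) := ⟨_, hw j m⟩
    let V : integralClosure (MvPolynomial (Fin (n + 1)) ℂ ⧸ I) (KK I) := ⟨_, h3⟩
    have hcoe : ((algebraMap (MvPolynomial (Fin (n + 1)) ℂ ⧸ I)
        (integralClosure (MvPolynomial (Fin (n + 1)) ℂ ⧸ I) (KK I))
        (Ideal.Quotient.mk I (P j)) : integralClosure (MvPolynomial (Fin (n + 1)) ℂ ⧸ I) (KK I)) :
          KK I) = aeval (gen I) (P j) := by
      rw [aeval_gen]
      rfl
    have h4 : W ∈ Ideal.span {algebraMap (MvPolynomial (Fin (n + 1)) ℂ ⧸ I)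
        (integralClosure (MvPolynomial (Fin (n + 1)) ℂ ⧸ I)
          (FractionRing (MvPolynomial (Fin (n + 1)) ℂ ⧸ I))) (Ideal.Quotient.mk I (P j))} := by
      apply hrad j hj
      refine ⟨M + 1, ?_⟩
      rw [Ideal.mem_span_singleton']
      refine ⟨V, ?_⟩
      apply Subtype.ext
      show (aeval (gen I) U * eval (xK j) ε) * _ = (eval (xK j) G * coeff m G') ^ (M + 1)
      rw [h2, mul_comm]
      congr 1
    rw [Ideal.mem_span_singleton'] at h4
    obtain ⟨A, hA⟩ := h4
    refine ⟨A, A.2, ?_⟩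
    have h5 := congrArg (Subtype.val) hA
    have h6 : (A : KK I) * aeval (gen I) (P j) = eval (xK j) G * coeff m G' := by
      rw [← hcoe]
      exact h5
    rw [← h6, mul_comm]
  choose! u hu1 hu2 using hex
  refine ⟨D₁, D₂, G, G', u, hDD, hD₁, hD₂, hG0, hG'0, hG, hNG, hu1, ?_, ?_⟩
  · intro j hj m
    have := hu2 j hj m
    rwa [hxK] at this
  · intro l hl
    obtain ⟨s, hs⟩ := exists_auto hI hl
    refine ⟨s, hs, ?_⟩
    have hc : (algebraMap ℂ (KK I) l) ^ a ≠ 0 := by
      apply pow_ne_zero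
      intro h0
      exact hl ((algebraMap ℂ (KK I)).injective (h0.trans (map_zero _).symm))
    have hl0 : algebraMap ℂ (KK I) l ≠ 0 := by
      intro h0
      exact hl ((algebraMap ℂ (KK I)).injective (h0.trans (map_zero _).symm))
    have hsN : map ((s : KK I ≃+* KK I) : KK I →+* KK I) (sp (gen I) N) =
        C ((algebraMap ℂ (KK I) l) ^ a) * sp (gen I) N := by
      have h1 := map_sp s.toAlgHom (gen I) N
      have h2 : (fun i => s.toAlgHom (gen I i)) =
          (algebraMap ℂ (KK I) l) • gen I := by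
        funext i
        rw [Pi.smul_apply, smul_eq_mul]
        exact hs i
      rw [h2, sp_smul homY] at h1
      exact h1
    obtain ⟨v, hv0, hvG, hvG'⟩ := exists_scale_squarefree (s : KK I ≃+* KK I) hN0 hG hNG hNM hc hsN
    have hsx : ∀ j, (fun i => s (xK j i)) = xK j := by
      intro j
      funext i
      rw [hxK]
      exact s.commutes _
    have hsG : ∀ j, s (eval (xK j) G) = v * eval (xK j) G := by
      intro j
      have h1 := map_eval ((s : KK I ≃+* KK I) : KK I →+* KK I) (xK j) G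
      rw [hvG, map_mul, eval_C] at h1
      have h2 : (((s : KK I ≃+* KK I) : KK I →+* KK I) ∘ (xK j)) = xK j := hsx j
      rw [h2] at h1
      exact h1
    have hsG' : ∀ m, s (coeff m G') = v⁻¹ * (algebraMap ℂ (KK I) l) ^ a * coeff m G' := by
      intro m
      have h1 := congrArg (coeff m) hvG'
      rw [coeff_map, coeff_C_mul] at h1
      exact h1
    have hsP : ∀ j ∈ J, s (aeval (gen I) (P j)) =
        (algebraMap ℂ (KK I) l) ^ ed * aeval (gen I) (P j) := by
      intro j hj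
      have h1 := aeval_weight (S := KK I) (1 : Fin (n + 1) → ℕ) (hPh j hj) (gen I)
        (algebraMap ℂ (KK I) l)
      rw [← h1]
      have h2 : (s : KK I →ₐ[ℂ] KK I).comp (aeval (gen I)) =
          aeval (fun i => algebraMap ℂ (KK I) l ^ (1 : Fin (n + 1) → ℕ) i * gen I i) := by
        apply MvPolynomial.algHom_ext
        intro i
        rw [AlgHom.comp_apply, aeval_X, aeval_X, Pi.one_apply, pow_one]
        exact hs i
      exact congrArg (fun F => F (P j)) h2
    intro j hj m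
    have hPj : aeval (gen I) (P j) ≠ 0 := by
      intro h0
      rw [aeval_gen_eq_zero] at h0
      exact hPI j hj h0
    have h1 := congrArg s (hu2 j hj m)
    rw [map_mul, map_mul, hsG, hsG', hsP j hj] at h1
    have h2 : (algebraMap ℂ (KK I) l) ^ a =
        (algebraMap ℂ (KK I) l) ^ ed * (algebraMap ℂ (KK I) l) ^ (a - ed) := by
      rw [← pow_add, Nat.add_sub_cancel' ha]
    have h3 : (algebraMap ℂ (KK I) l) ^ ed * aeval (gen I) (P j) ≠ 0 :=
      mul_ne_zero (pow_ne_zero _ hl0) hPj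
    apply mul_left_cancel₀ h3
    rw [← h1]
    have h4 : v * eval (xK j) G * (v⁻¹ * (algebraMap ℂ (KK I) l) ^ a * coeff m G') =
        (v * v⁻¹) * (algebraMap ℂ (KK I) l) ^ a * (eval (xK j) G * coeff m G') := by ring
    rw [h4, mul_inv_cancel₀ hv0, one_mul, hu2 j hj m, h2]
    ring

end

end Pool.Agent.Lib.GGL
end

section

/-!
Density of the product of a dense family of points and a grid.
-/

open MvPolynomial Module

namespace Pool.Agent.Lib.GGL

section

/-- a nonzero value of a weighted component gives a nonzero value on the orbit -/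
lemma component_eq_zero {σ : Type*} {w : σ → ℕ} {f : MvPolynomial σ ℂ} {v : σ → ℂ}
    (h : ∀ c : ℂ, c ≠ 0 → eval (fun i => c ^ w i * v i) f = 0) (d : ℕ) :
    eval v (weightedHomogeneousComponent w d f) = 0 := by
  classical
  obtain ⟨M, hM⟩ := exists_sum_whc w f
  obtain ⟨q, hq⟩ : ∃ q : Polynomial ℂ, q = ∑ k ∈ Finset.range M,
    Polynomial.monomial k (eval v (weightedHomogeneousComponent w k f)) := ⟨_, rfl⟩
  have h3 : ∀ (u : σ → ℂ) (P : MvPolynomial σ ℂ), aeval u P = eval u P := by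
    intro u P
    rw [aeval_def, Algebra.algebraMap_self, eval₂_eq_eval_map, MvPolynomial.map_id]
  have hev : ∀ c : ℂ, c ≠ 0 → q.eval c = 0 := by
    intro c hc
    rw [← h c hc]
    conv_rhs => rw [hM, map_sum]
    rw [hq, Polynomial.eval_finsetSum]
    refine Finset.sum_congr rfl fun k _ => ?_
    rw [Polynomial.eval_monomial]
    have h1 := aeval_weight (S := ℂ) w
      (weightedHomogeneousComponent_isWeightedHomogeneous k f) v c
    rw [h3, h3] at h1
    rw [h1, mul_comm]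
  have hq0 : q = 0 := by
    apply Polynomial.eq_zero_of_infinite_isRoot
    apply Set.Infinite.mono (s := {0}ᶜ)
    · intro c hc
      exact hev c hc
    · exact (Set.finite_singleton (0 : ℂ)).infinite_compl
  by_cases hd : d ∈ Finset.range M
  · have h1 := congrArg (fun P => Polynomial.coeff P d) hq0
    simp only [hq, Polynomial.finsetSum_coeff, Polynomial.coeff_monomial, Polynomial.coeff_zero]
      at h1
    rw [Finset.sum_eq_single d] at h1
    · rwa [if_pos rfl] at h1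
    · intro k _ hk
      rw [if_neg hk]
    · intro hd'
      exact absurd hd hd'
  · have h1 : weightedHomogeneousComponent w d f = 0 := by
      conv_lhs => rw [hM]
      rw [map_sum]
      apply Finset.sum_eq_zero
      intro j hj
      apply (weightedHomogeneousComponent_isWeightedHomogeneous j
        f).weightedHomogeneousComponent_ne
      rintro rfl
      exact hd hj
    rw [h1, map_zero]

/-- degree of a substitution of polynomials of degree at most one -/
lemma totalDegree_aeval_le {σ τ : Type*} {f : σ → MvPolynomial τ ℂ}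
    (hf : ∀ i, (f i).totalDegree ≤ 1) (g : MvPolynomial σ ℂ) :
    (aeval f g).totalDegree ≤ g.totalDegree := by
  rw [aeval_def, eval₂_eq]
  apply totalDegree_finsetSum_le
  intro d hd
  refine (totalDegree_mul _ _).trans ?_
  have h1 : (algebraMap ℂ (MvPolynomial τ ℂ)) (coeff d g) = C (coeff d g) := rfl
  rw [h1, totalDegree_C, zero_add]
  refine (totalDegree_finsetProd _ _).trans ?_
  refine le_trans ?_ (le_totalDegree hd)
  rw [Finsupp.sum]
  apply Finset.sum_le_sum
  intro i _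
  refine (totalDegree_pow _ _).trans ?_
  calc d i * (f i).totalDegree ≤ d i * 1 := Nat.mul_le_mul_left _ (hf i)
    _ = d i := mul_one _

variable {t : ℕ} {B : Type*} [Fintype B] {J : Type*} (x : J → Fin (t + 1) → ℂ)

theorem dense_grid {b : ℕ}
    (hdense : ∀ b' ≤ b, ∀ g : MvPolynomial (Fin (t + 1)) ℂ, g.IsHomogeneous b' →
      (∀ j, eval (x j) g = 0) → g = 0)
    {g : MvPolynomial (B ⊕ Fin (t + 1)) ℂ} (hg : g.IsHomogeneous b)
    (hv : ∀ j, ∀ τ : B → Fin (b + 1),
      eval (Sum.elim (fun m => ((τ m : ℕ) : ℂ)) (x j)) g = 0) : g = 0 := by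
  classical
  -- all values of the first group
  have hall : ∀ j, ∀ τ : B → ℂ, eval (Sum.elim τ (x j)) g = 0 := by
    intro j
    obtain ⟨q, hq⟩ : ∃ q : MvPolynomial B ℂ, q = aeval (Sum.elim X fun i => C (x j i)) g :=
      ⟨_, rfl⟩
    have hqe : ∀ τ : B → ℂ, eval τ q = eval (Sum.elim τ (x j)) g := by
      intro τ
      have h2 : ((aeval τ : MvPolynomial B ℂ →ₐ[ℂ] ℂ).comp
          (aeval (Sum.elim X fun i => C (x j i)) :
            MvPolynomial (B ⊕ Fin (t + 1)) ℂ →ₐ[ℂ] MvPolynomial B ℂ)) =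
          aeval (Sum.elim τ (x j)) := by
        apply MvPolynomial.algHom_ext
        rintro (i | i)
        · rw [AlgHom.comp_apply, aeval_X, aeval_X, Sum.elim_inl, aeval_X, Sum.elim_inl]
        · rw [AlgHom.comp_apply, aeval_X, aeval_X, Sum.elim_inr, aeval_C, Sum.elim_inr]
          rfl
      have h3 := congrArg (fun F => F g) h2
      rw [hq]
      exact h3
    have hq0 : q = 0 := by
      have hdeg : ∀ i, q.degreeOf i < ((Finset.range (b + 1)).image
          (fun k : ℕ => (k : ℂ))).card := by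
        intro i
        rw [Finset.card_image_of_injective _ Nat.cast_injective, Finset.card_range]
        have h1 := degreeOf_le_totalDegree q i
        have h2 : q.totalDegree ≤ g.totalDegree := by
          rw [hq]
          apply totalDegree_aeval_le
          rintro (i | i)
          · rw [Sum.elim_inl, totalDegree_X]
          · rw [Sum.elim_inr, totalDegree_C]
            exact Nat.zero_le _
        have h3 := hg.totalDegree_le
        omega
      apply MvPolynomial.eq_zero_of_eval_zero_at_prod_finset q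
        (fun _ => (Finset.range (b + 1)).image (fun k : ℕ => (k : ℂ))) hdeg
      intro τ hτ
      have h1 : ∀ i, ∃ k : Fin (b + 1), ((k : ℕ) : ℂ) = τ i := by
        intro i
        have h2 := hτ i
        rw [Finset.mem_image] at h2
        obtain ⟨k, hk, hk'⟩ := h2
        rw [Finset.mem_range] at hk
        exact ⟨⟨k, hk⟩, hk'⟩
      choose k hk using h1
      rw [hqe]
      have h2 : τ = fun m => ((k m : ℕ) : ℂ) := by
        funext m
        rw [hk]
      rw [h2]
      exact hv j k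
    intro τ
    rw [← hqe, hq0, map_zero]
  -- the components
  obtain ⟨w, hw⟩ : ∃ w : B ⊕ Fin (t + 1) → ℕ, w = Sum.elim (fun _ => 1) (fun _ => 0) := ⟨_, rfl⟩
  have hcomp : ∀ k, weightedHomogeneousComponent w k g = 0 := by
    intro k
    obtain ⟨gk, hgk⟩ : ∃ gk, gk = weightedHomogeneousComponent w k g := ⟨_, rfl⟩
    rw [← hgk]
    by_cases hkb : k ≤ b
    · -- degree in the second group
      have hT : IsWeightedHomogeneous (Sum.elim (fun _ => 0) (fun _ => 1) :
          B ⊕ Fin (t + 1) → ℕ) gk (b - k) := by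
        intro d hd
        rw [hgk, coeff_weightedHomogeneousComponent] at hd
        have hdw : Finsupp.weight w d = k := by
          by_contra hcon
          rw [if_neg hcon] at hd
          exact hd rfl
        rw [if_pos hdw] at hd
        have h1 := hg hd
        rw [Finsupp.weight_apply, Finsupp.sum_fintype _ _ (by simp)] at h1 hdw ⊢
        rw [Fintype.sum_sum_type] at h1 hdw ⊢
        rw [hw] at hdw
        simp only [Sum.elim_inl, Sum.elim_inr, Pi.one_apply, smul_eq_mul, mul_one, mul_zero,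
          Finset.sum_const_zero, add_zero, zero_add] at h1 hdw ⊢
        omega
      apply MvPolynomial.funext
      intro v
      rw [map_zero]
      have h1 : (aeval (Sum.elim (fun m => C (v (Sum.inl m))) X) gk :
          MvPolynomial (Fin (t + 1)) ℂ) = 0 := by
        apply hdense (b - k) (by omega)
        · apply aeval_isHomogeneous _ hT
          rintro (i | i)
          · exact isHomogeneous_C _ _
          · exact isHomogeneous_X _ _
        · intro j
          have h2 : ((aeval (x j) : MvPolynomial (Fin (t + 1)) ℂ →ₐ[ℂ] ℂ).comp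
              (aeval (Sum.elim (fun m => C (v (Sum.inl m))) X) :
                MvPolynomial (B ⊕ Fin (t + 1)) ℂ →ₐ[ℂ] MvPolynomial (Fin (t + 1)) ℂ)) =
              aeval (Sum.elim (fun m => v (Sum.inl m)) (x j)) := by
            apply MvPolynomial.algHom_ext
            rintro (i | i)
            · rw [AlgHom.comp_apply, aeval_X, aeval_X, Sum.elim_inl, aeval_C, Sum.elim_inl]
              rfl
            · rw [AlgHom.comp_apply, aeval_X, aeval_X, Sum.elim_inr, aeval_X, Sum.elim_inr]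
          have h3 := congrArg (fun F => F gk) h2
          have h4 : eval (x j) (aeval (Sum.elim (fun m => C (v (Sum.inl m))) X) gk) =
              eval (Sum.elim (fun m => v (Sum.inl m)) (x j)) gk := h3
          rw [h4, hgk]
          apply component_eq_zero
          intro c _
          have h5 : (fun i => c ^ w i * (Sum.elim (fun m => v (Sum.inl m)) (x j) :
              B ⊕ Fin (t + 1) → ℂ) i) = Sum.elim (fun m => c * v (Sum.inl m)) (x j) := by
            funext i
            rw [hw]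
            rcases i with i | i
            · simp
            · simp
          rw [h5]
          exact hall j _
      have h2 : ((aeval (fun i => v (Sum.inr i)) : MvPolynomial (Fin (t + 1)) ℂ →ₐ[ℂ] ℂ).comp
          (aeval (Sum.elim (fun m => C (v (Sum.inl m))) X) :
            MvPolynomial (B ⊕ Fin (t + 1)) ℂ →ₐ[ℂ] MvPolynomial (Fin (t + 1)) ℂ)) =
          aeval v := by
        apply MvPolynomial.algHom_ext
        rintro (i | i)
        · rw [AlgHom.comp_apply, aeval_X, aeval_X, Sum.elim_inl, aeval_C]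
          rfl
        · rw [AlgHom.comp_apply, aeval_X, aeval_X, Sum.elim_inr, aeval_X]
      have h3 := congrArg (fun F => F gk) h2
      have h4 : eval v gk = aeval (fun i => v (Sum.inr i))
          (aeval (Sum.elim (fun m => C (v (Sum.inl m))) X) gk :
            MvPolynomial (Fin (t + 1)) ℂ) := h3.symm
      rw [h4, h1, map_zero]
    · rw [hgk]
      apply weightedHomogeneousComponent_eq_zero'
      intro d hd hdk
      apply hkb
      rw [← hdk]
      have h1 := hg (mem_support_iff.mp hd)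
      rw [← h1, Finsupp.weight_apply, Finsupp.weight_apply, Finsupp.sum, Finsupp.sum]
      apply Finset.sum_le_sum
      intro i _
      apply Nat.mul_le_mul_left
      rw [hw]
      rcases i with i | i
      · simp
      · simp
  obtain ⟨M, hM⟩ := exists_sum_whc w g
  rw [hM]
  exact Finset.sum_eq_zero fun k _ => hcomp k

end

end Pool.Agent.Lib.GGL
end

section

/-!
Curves ramified over hypersurfaces of a weighted cone admitting a norm form.
-/

open MvPolynomial Module Filter Topology Metric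

namespace Pool.Agent.Lib.GGL

section dev

variable {n : ℕ}

lemma dev_polysub (P Q : MvPolynomial (Fin (n + 1)) ℂ) (y w : Fin (n + 1) → ℂ) :
    dev (P - Q) y w = dev P y w - dev Q y w := by
  rw [dev, dev, dev, ← Finset.sum_sub_distrib]
  refine Finset.sum_congr rfl fun i _ => ?_
  rw [map_sub, map_sub, mul_sub]

lemma dev_polymul (P Q : MvPolynomial (Fin (n + 1)) ℂ) (y w : Fin (n + 1) → ℂ) :
    dev (P * Q) y w = dev P y w * eval y Q + eval y P * dev Q y w := by
  rw [dev, dev, dev, Finset.sum_mul, Finset.mul_sum, ← Finset.sum_add_distrib]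
  refine Finset.sum_congr rfl fun i _ => ?_
  rw [Derivation.leibniz, smul_eq_mul, smul_eq_mul, map_add, map_mul, map_mul]
  ring

end dev

/-- norm form data on a weighted cone -/
structure NDataW {n t : ℕ} {ι : Type*} (wt : Fin (n + 1) → ℕ)
    (𝔣 : Set (MvPolynomial (Fin (n + 1)) ℂ)) (P : ι → MvPolynomial (Fin (n + 1)) ℂ)
    (x : ι → Fin (t + 1) → ℂ)
    (N : MvPolynomial (Fin (n + 1) ⊕ Fin (t + 1)) ℂ) (a D b : ℕ) : Prop where
  wF : ∀ f ∈ 𝔣, ∃ e, IsWeightedHomogeneous wt f e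
  homY : IsWeightedHomogeneous (wU wt t) N a
  homT : IsWeightedHomogeneous (wT n t) N D
  nz : ∀ y ∈ ZF 𝔣, n1 wt y ≠ 0 → sp y N ≠ 0
  dvd : ∀ j, ∃ U, nx N (x j) - P j * U ∈ 𝔣
  dense : ∀ g : MvPolynomial (Fin (t + 1)) ℂ, g.IsHomogeneous b → (∀ j, eval (x j) g = 0) → g = 0
  bd : ∃ K₀ : ℝ, ∀ y ∈ ZF 𝔣, n1 wt y = 1 → ‖y‖ ≤ K₀

section

variable {n t : ℕ} {ι : Type*} {wt : Fin (n + 1) → ℕ} {𝔣 : Set (MvPolynomial (Fin (n + 1)) ℂ)}
  {P : ι → MvPolynomial (Fin (n + 1)) ℂ} {x : ι → Fin (t + 1) → ℂ}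
  {N : MvPolynomial (Fin (n + 1) ⊕ Fin (t + 1)) ℂ} {a D b : ℕ}

lemma NDataW.dense_sub (h : NDataW wt 𝔣 P x N a D b) {d e : ℕ}
    {Q R : MvPolynomial (Fin (t + 1)) ℂ}
    (hR : R.IsHomogeneous e) (hR0 : R ≠ 0) (hQ : Q.IsHomogeneous d) (hde : d + e ≤ b)
    (hv : ∀ j, eval (x j) R ≠ 0 → eval (x j) Q = 0) : Q = 0 := by
  have h1 : Q * R * (X 0 : MvPolynomial (Fin (t + 1)) ℂ) ^ (b - (d + e)) = 0 := by
    apply h.dense
    · have := (hQ.mul hR).mul (isHomogeneous_X_pow (R := ℂ) (0 : Fin (t + 1)) (b - (d + e)))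
      rwa [Nat.add_sub_cancel' hde] at this
    · intro j
      rw [map_mul, map_mul]
      by_cases hj : eval (x j) R = 0
      · rw [hj, mul_zero, zero_mul]
      · rw [hv j hj, zero_mul, zero_mul]
  have h2 := (mul_eq_zero.mp h1).resolve_right (pow_ne_zero _ (X_ne_zero _))
  exact (mul_eq_zero.mp h2).resolve_right hR0

lemma NDataW.evalU (h : NDataW wt 𝔣 P x N a D b) (j : ι) :
    ∃ u v : (Fin (n + 1) → ℂ) → (Fin (n + 1) → ℂ) → ℂ, Hol u ∧ Hol v ∧
      (∀ y w : Fin (n + 1) → ℂ, y ∈ ZF 𝔣 →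
        MvPolynomial.eval (x j) (sp y N) = MvPolynomial.eval y (P j) * u y w) ∧
      ∀ y w : Fin (n + 1) → ℂ, TF 𝔣 y w →
        MvPolynomial.eval (x j) (sp1 y w N) =
          dev (P j) y w * u y w + MvPolynomial.eval y (P j) * v y w := by
  obtain ⟨U, hU⟩ := h.dvd j
  refine ⟨fun y _ => MvPolynomial.eval y U, fun y w => dev U y w, hol_eval U, hol_dev U, ?_, ?_⟩
  · intro y w hy
    have h1 := hy _ hU
    rw [map_sub, map_mul, sub_eq_zero, eval_nx] at h1
    exact h1
  · intro y w hy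
    have h1 := hy.2 _ hU
    rw [dev_polysub, dev_polymul, sub_eq_zero, dev_nx] at h1
    exact h1

end

/-- A curve in a closed weighted cone off a hypersurface is constant. -/
lemma const_of_coneW {n : ℕ} {wt : Fin (n + 1) → ℕ} {Y : ℂ → ℂ → Fin (n + 1) → ℂ}
    (hY : WLift wt Y)
    {Z : Set (Fin (n + 1) → ℂ)} (hZ : IsClosed Z)
    (hZs : ∀ y ∈ Z, ∀ l : ℂ, l ≠ 0 → sc wt l y ∈ Z) {K₀ : ℝ}
    (hbd : ∀ y ∈ Z, n1 wt y = 1 → ‖y‖ ≤ K₀)
    {ed : ℕ} (hed : 0 < ed) {Q : MvPolynomial (Fin (n + 1)) ℂ}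
    (hQ : IsWeightedHomogeneous wt Q ed)
    (hv : ∀ y ∈ Z, n1 wt y ≠ 0 → eval y Q ≠ 0) (hYZ : ∀ z, Y z z ∈ Z) (z w : ℂ) :
    ∃ c : ℂ, c ≠ 0 ∧ ∀ i, wt i = 1 → Y z z i = c * Y w w i := by
  obtain ⟨hYan, hY0, hYc⟩ := hY
  obtain ⟨e', rfl⟩ : ∃ e', ed = e' + 1 := ⟨ed - 1, by omega⟩
  -- lower bound on the cone
  obtain ⟨δ, hδ0, hδ⟩ : ∃ δ : ℝ, 0 < δ ∧ ∀ y ∈ Z, n1 wt y ≠ 0 →
      δ * n1 wt y ^ (e' + 1) ≤ ‖eval y Q‖ := by
    have hK := isCompact_section wt hZ hbd
    have hcont : Continuous fun y : Fin (n + 1) → ℂ => ‖eval y Q‖ := (continuous_eval Q).norm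
    have hsc : ∀ y ∈ Z, n1 wt y ≠ 0 →
        sc wt ((n1 wt y : ℂ)⁻¹) y ∈ ({y | n1 wt y = 1} ∩ Z) := by
      intro y hy h0
      refine ⟨?_, hZs y hy _ ?_⟩
      · show n1 wt (sc wt ((n1 wt y : ℂ)⁻¹) y) = 1
        rw [n1_sc, norm_inv, Complex.norm_real, Real.norm_of_nonneg (n1_nonneg wt y),
          inv_mul_cancel₀ h0]
      · rw [Ne, inv_eq_zero, Complex.ofReal_eq_zero]
        exact h0
    rcases ({y | n1 wt y = 1} ∩ Z).eq_empty_or_nonempty with hne | hne
    · refine ⟨1, one_pos, ?_⟩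
      intro y hy h0
      have h1 := hsc y hy h0
      rw [hne] at h1
      exact absurd h1 (Set.notMem_empty _)
    · obtain ⟨y₀, hy₀, hmin⟩ := hK.exists_isMinOn hne hcont.continuousOn
      have hy₀0 : n1 wt y₀ ≠ 0 := by
        have h1 : n1 wt y₀ = 1 := hy₀.1
        rw [h1]
        exact one_ne_zero
      refine ⟨‖eval y₀ Q‖, norm_pos_iff.mpr (hv _ hy₀.2 hy₀0), ?_⟩
      intro y hy h0
      have h2 := hmin (hsc y hy h0)
      have h3 : ‖eval y₀ Q‖ ≤ ‖eval (sc wt ((n1 wt y : ℂ)⁻¹) y) Q‖ := h2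
      rw [eval_sc hQ, norm_mul, norm_pow, norm_inv, Complex.norm_real,
        Real.norm_of_nonneg (n1_nonneg wt y)] at h3
      have h4 : 0 < n1 wt y := lt_of_le_of_ne (n1_nonneg wt y) (Ne.symm h0)
      calc ‖eval y₀ Q‖ * n1 wt y ^ (e' + 1)
          ≤ ((n1 wt y)⁻¹ ^ (e' + 1) * ‖eval y Q‖) * n1 wt y ^ (e' + 1) := by gcongr
        _ = ((n1 wt y)⁻¹ * n1 wt y) ^ (e' + 1) * ‖eval y Q‖ := by rw [mul_pow]; ring
        _ = ‖eval y Q‖ := by rw [inv_mul_cancel₀ h4.ne', one_pow, one_mul]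
  have hne : ∀ z, eval (Y z z) Q ≠ 0 := fun z => hv _ (hYZ z) (hY0 z)
  -- the monomials
  have hcoord : ∀ i j : Fin (n + 1), wt i = 1 → wt j = 1 → ∀ z w,
      Y z z i ^ e' * Y z z j / (eval (Y z z) Q) =
      Y w w i ^ e' * Y w w j / (eval (Y w w) Q) := by
    intro i j hi hj
    have hdiff : Differentiable ℂ fun z => Y z z i ^ e' * Y z z j / (eval (Y z z) Q) := by
      intro z₁
      have h1 : (fun z => Y z z i ^ e' * Y z z j / (eval (Y z z) Q)) =ᶠ[𝓝 z₁]
          fun z => Y z₁ z i ^ e' * Y z₁ z j / (eval (Y z₁ z) Q) := by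
        filter_upwards [hYc z₁] with z ⟨l, hl1, hl2, hl3⟩
        have h2 : Y z z = sc wt (l z) (Y z₁ z) := hl3.self_of_nhds
        rw [h2, eval_sc hQ, sc, sc, hi, hj, pow_one]
        have h3 : (l z * Y z₁ z i) ^ e' * (l z * Y z₁ z j) =
            l z ^ (e' + 1) * (Y z₁ z i ^ e' * Y z₁ z j) := by ring
        rw [h3, mul_div_mul_left _ _ (pow_ne_zero _ hl2)]
      have h4 := fun i => (analyticAt_pi_iff.mp (hYan z₁)) i
      have h3 : AnalyticAt ℂ (fun z => Y z₁ z i ^ e' * Y z₁ z j / (eval (Y z₁ z) Q)) z₁ :=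
        (((h4 i).pow e').mul (h4 j)).div (analyticAt_eval (hYan z₁) Q) (hne z₁)
      exact (h3.congr h1.symm).differentiableAt
    have hbd : Bornology.IsBounded
        (Set.range fun z => Y z z i ^ e' * Y z z j / (eval (Y z z) Q)) := by
      rw [isBounded_iff_forall_norm_le]
      refine ⟨δ⁻¹, ?_⟩
      rintro _ ⟨z, rfl⟩
      beta_reduce
      rw [norm_div, div_le_iff₀ (norm_pos_iff.mpr (hne z)), norm_mul, norm_pow]
      have h1 := hδ _ (hYZ z) (hY0 z)
      have h2i := norm_le_n1 wt (Y z z) hi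
      have h2j := norm_le_n1 wt (Y z z) hj
      calc ‖Y z z i‖ ^ e' * ‖Y z z j‖ ≤ n1 wt (Y z z) ^ e' * n1 wt (Y z z) := by
            gcongr
            exact pow_nonneg (n1_nonneg wt _) _
        _ = δ⁻¹ * (δ * n1 wt (Y z z) ^ (e' + 1)) := by
            field_simp
            ring
        _ ≤ δ⁻¹ * ‖eval (Y z z) Q‖ := by gcongr
    intro z w
    exact hdiff.apply_eq_apply_of_bounded hbd z w
  obtain ⟨i, hi1, hi⟩ : ∃ i, wt i = 1 ∧ Y w w i ≠ 0 := by
    obtain ⟨i, hi1, hi2⟩ := exists_norm_eq_n1 wt (hY0 w)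
    refine ⟨i, hi1, ?_⟩
    intro h0
    apply hY0 w
    rw [← hi2, h0, norm_zero]
  have hi' : Y z z i ≠ 0 := by
    intro h0
    have h1 := hcoord i i hi1 hi1 z w
    rw [h0, mul_zero, zero_div] at h1
    have h2 : Y w w i ^ e' * Y w w i / (eval (Y w w) Q) ≠ 0 :=
      div_ne_zero (mul_ne_zero (pow_ne_zero _ hi) hi) (hne w)
    exact h2 h1.symm
  refine ⟨Y z z i / Y w w i, div_ne_zero hi' hi, ?_⟩
  intro j hj1
  have h1 := hcoord i j hi1 hj1 z w
  have h2 := hcoord i i hi1 hi1 z w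
  have hz := hne z
  have hw := hne w
  rw [div_eq_div_iff hz hw] at h1 h2
  rw [div_mul_eq_mul_div, eq_div_iff hi]
  have h3 : (Y z z i ^ e' * Y w w i ^ e' * eval (Y z z) Q * eval (Y w w) Q) *
      (Y z z j * Y w w i) =
      (Y z z i ^ e' * Y w w i ^ e' * eval (Y z z) Q * eval (Y w w) Q) * (Y z z i * Y w w j) := by
    calc _ = (Y z z i ^ e' * Y z z j * eval (Y w w) Q) *
          (Y w w i ^ e' * Y w w i * eval (Y z z) Q) := by ring
      _ = (Y w w i ^ e' * Y w w j * eval (Y z z) Q) *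
          (Y z z i ^ e' * Y z z i * eval (Y w w) Q) := by rw [h1, h2]
      _ = _ := by ring
  exact mul_left_cancel₀ (mul_ne_zero (mul_ne_zero (mul_ne_zero (pow_ne_zero _ hi')
    (pow_ne_zero _ hi)) hz) hw) h3


/-- A curve ramified over hypersurfaces of a weighted cone admitting a norm form is constant, if
the norm form does not acquire a square factor along the curve. -/
theorem curve_constW {n t : ℕ} {ι : Type} [Finite ι] {wt : Fin (n + 1) → ℕ}
    {𝔣 : Set (MvPolynomial (Fin (n + 1)) ℂ)} {P : ι → MvPolynomial (Fin (n + 1)) ℂ}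
    {ed : ℕ} (hed : 0 < ed) (hP : ∀ j, IsWeightedHomogeneous wt (P j) ed)
    {x : ι → Fin (t + 1) → ℂ} {N : MvPolynomial (Fin (n + 1) ⊕ Fin (t + 1)) ℂ} {a D b k : ℕ}
    (h : NDataW wt 𝔣 P x N a D b) (ht : 1 ≤ t) (hDk : D ≤ k) (hkb : k + 3 * D ≤ b)
    (hnum : ∀ D', 1 ≤ D' → D' ≤ D →
      ed + 4 * a * ((t + (k + D')).choose (k + D') - (t + k).choose k) <
        ed * (t + (k + D')).choose (k + D'))
    {Y : ℂ → ℂ → Fin (n + 1) → ℂ} (hY : WLift wt Y)
    (hYF : ∀ z₁, ∀ᶠ z in 𝓝 z₁, Y z₁ z ∈ ZF 𝔣)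
    (htop : ∀ j z₁, analyticOrderAt (fun z => eval (Y z₁ z) (P j)) z₁ ≠ ⊤)
    (hord : ∀ j z₁, analyticOrderAt (fun z => eval (Y z₁ z) (P j)) z₁ = 0 ∨
      (2 : ℕ∞) ≤ analyticOrderAt (fun z => eval (Y z₁ z) (P j)) z₁)
    {z₁ : ℂ} (hsq : ∀ π : MvPolynomial (Fin (t + 1)) (PowerSeries ℂ), π.totalDegree ≠ 0 →
      ¬ π ^ 2 ∣ sp (fun i => tayHom z₁ (yB hY.1 z₁ i)) N)
    (z w : ℂ) : ∃ c : ℂ, c ≠ 0 ∧ ∀ i, wt i = 1 → Y z z i = c * Y w w i := by
  classical
  have hfin : Fintype ι := Fintype.ofFinite ι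
  have hYFz : ∀ z, Y z z ∈ ZF 𝔣 := fun z => (hYF z).self_of_nhds
  obtain ⟨K₀, hK₀⟩ := h.bd
  obtain ⟨F₀, hF₀⟩ : ∃ F₀, F₀ = sp (fun i => tayHom z₁ (yB hY.1 z₁ i)) N := ⟨_, rfl⟩
  have hF₀h : F₀.IsHomogeneous D := by
    rw [hF₀]
    exact sp_isHomogeneous h.homT _
  have hcc : map (ccA : PowerSeries ℂ →+* ℂ) F₀ = sp (Y z₁ z₁) N := by
    rw [hF₀, map_sp]
    congr 1
    congr 1
    funext i
    exact constantCoeff_yB hY.1 z₁ i
  have hF₀0 : F₀ ≠ 0 := by
    intro h0
    rw [h0, map_zero] at hcc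
    exact h.nz _ (hYFz z₁) (hY.2.1 z₁) hcc.symm
  obtain ⟨c, F, hF, hconst⟩ := exists_const_factor D F₀ hF₀0 hF₀h.totalDegree_le
  have hF0 : F ≠ 0 := by
    rintro rfl
    rw [mul_zero] at hF
    exact hF₀0 hF
  have hc0 : c ≠ 0 := by
    rintro rfl
    rw [map_zero, zero_mul] at hF
    exact hF₀0 hF
  have hmc0 : map (algebraMap ℂ (PowerSeries ℂ)) c ≠ 0 := by
    intro h0
    rw [h0, zero_mul] at hF
    exact hF₀0 hF
  obtain ⟨dc, hdc⟩ := isHomogeneous_of_dvd hF₀h hF₀0 ⟨F, hF⟩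
  have hch : c.IsHomogeneous dc := hdc.of_map (FaithfulSMul.algebraMap_injective _ _)
  obtain ⟨D', hFh⟩ := isHomogeneous_of_dvd hF₀h hF₀0 (Dvd.intro_left _ hF.symm)
  have hDD : dc + D' = D := by
    have h1 := hdc.mul hFh
    rw [← hF] at h1
    exact h1.inj_right hF₀h hF₀0
  have hsq' : ∀ π : MvPolynomial (Fin (t + 1)) (PowerSeries ℂ), π.totalDegree ≠ 0 →
      ¬ π ^ 2 ∣ F := by
    intro π hπ hdv
    apply hsq π hπ
    rw [← hF₀, hF]
    exact hdv.mul_left _
  -- division by `c`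
  obtain ⟨H', L', -, hL'h, -, hL'⟩ := exists_interp (d := D')
    (fun j : {j // eval (x j) c ≠ 0} => x j) (fun Q hQ hv =>
      h.dense_sub hch hc0 hQ (by omega) fun j hj => hv ⟨j, hj⟩)
  obtain ⟨x', hx'⟩ : ∃ x' : H' → Fin (t + 1) → ℂ, x' = fun j => x j.1.1 := ⟨_, rfl⟩
  obtain ⟨Lc, hLc⟩ : ∃ Lc : H' → MvPolynomial (Fin (t + 1)) ℂ, Lc = fun j => L' j.1 := ⟨_, rfl⟩
  have hLch : ∀ j, (Lc j).IsHomogeneous D' := by
    intro j
    rw [hLc]
    exact hL'h _
  have hLcI : ∀ Q : MvPolynomial (Fin (t + 1)) ℂ, Q.IsHomogeneous D' →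
      Q = ∑ j, eval (x' j) Q • Lc j := by
    intro Q hQ
    have h1 := hL' Q hQ
    rw [← Finset.sum_coe_sort] at h1
    rw [hx', hLc]
    exact h1
  have hcx' : ∀ j, eval (x' j) c ≠ 0 := by
    intro j
    rw [hx']
    exact j.1.2
  -- the curve lies in the cone
  have hZ₁ : ∀ᶠ z in 𝓝 z₁, Y z₁ z ∈ ZS x' Lc c N := by
    have hmapc : ∀ {S : Type} [CommRing S] [Algebra ℂ S] (f : An z₁ →ₐ[ℂ] S),
        map (f : An z₁ →+* S) (map (algebraMap ℂ (An z₁)) c) = map (algebraMap ℂ S) c := by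
      intro S _ _ f
      rw [MvPolynomial.map_map]
      have h0 : (f : An z₁ →+* S).comp (algebraMap ℂ (An z₁)) = algebraMap ℂ S :=
        f.comp_algebraMap
      rw [h0]
    have h1 : map (tayHom z₁ : An z₁ →+* PowerSeries ℂ)
        (sp (yB hY.1 z₁) N -
          map (algebraMap ℂ (An z₁)) c * qt x' Lc c (sp (yB hY.1 z₁) N)) = 0 := by
      rw [map_sub, map_mul, map_qt, map_sp, hmapc, ← hF₀]
      conv_lhs => rw [hF]
      rw [qt_mul x' Lc hLcI hcx' hFh, sub_self]
    filter_upwards [eventually_map_eq_zero h1] with z hz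
    rw [map_sub, map_mul, map_qt, map_sp, evA_yB, hmapc, sub_eq_zero] at hz
    simp only [Algebra.algebraMap_self, MvPolynomial.map_id] at hz
    exact hz
  have hZall := ZS_identityW x' Lc c h.homY hY hZ₁
  have hTall₁ := fun z₂ => eventually_TSB x' Lc c (N := N) hLcI hLch hcx' hY.1 (hZall z₂)
  have hTall₂ := fun z₂ => eventually_TF (hY.1 z₂) (hYF z₂)
  obtain ⟨Z, hZdef⟩ : ∃ Z : Set (Fin (n + 1) → ℂ), Z = ZS x' Lc c N ∩ ZF 𝔣 := ⟨_, rfl⟩
  obtain ⟨TT, hTT⟩ : ∃ TT : (Fin (n + 1) → ℂ) → (Fin (n + 1) → ℂ) → Prop,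
    TT = fun y w => TS x' Lc c N y w ∧ TF 𝔣 y w := ⟨_, rfl⟩
  have hTTZ : ∀ y w, TT y w → y ∈ Z := by
    intro y w hyw
    rw [hTT] at hyw
    rw [hZdef]
    exact ⟨hyw.1.1, hyw.2.1⟩
  have hTTs : ∀ y w (l μ c' : ℂ), l ≠ 0 → TT y w →
      TT (sc wt l y) (c' • sc wt l (w + μ • eu wt y)) := by
    intro y w l μ c' _ hyw
    rw [hTT] at hyw ⊢
    exact ⟨TS_sc x' Lc c h.homY l μ c' hyw.1, TF_sc h.wF l μ c' hyw.2⟩
  have hTTY : ∀ z₁, ∀ᶠ z in 𝓝 z₁, TT (Y z₁ z) (deriv (Y z₁) z) := by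
    intro z₂
    filter_upwards [hTall₁ z₂, hTall₂ z₂] with z g1 g2
    rw [hTT]
    exact ⟨g1, g2⟩
  have hYZ : ∀ z, Y z z ∈ Z := by
    intro z
    rw [hZdef]
    exact ⟨(hZall z).self_of_nhds, hYFz z⟩
  have hZclosed : IsClosed Z := by
    rw [hZdef]
    exact (isClosed_ZS x' Lc c N).inter isClosed_ZF
  have hZsc : ∀ y ∈ Z, ∀ l : ℂ, l ≠ 0 → sc wt l y ∈ Z := by
    intro y hy l _
    rw [hZdef] at hy ⊢
    exact ⟨sc_mem_ZS x' Lc c h.homY hy.1, sc_mem_ZF h.wF hy.2⟩
  have hZS : ∀ y ∈ Z, sp y N = c * qt x' Lc c (sp y N) := by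
    intro y hy
    rw [hZdef] at hy
    exact hy.1
  have hZF' : ∀ y ∈ Z, y ∈ ZF 𝔣 := by
    intro y hy
    rw [hZdef] at hy
    exact hy.2
  have hZbd : ∀ y ∈ Z, n1 wt y = 1 → ‖y‖ ≤ K₀ := fun y hy => hK₀ y (hZF' y hy)
  -- values at the points
  have hval : ∀ y ∈ ZF 𝔣, ∀ (j : ι), eval y (P j) = 0 → eval (x j) (sp y N) = 0 := by
    intro y hy j hj
    obtain ⟨u, v, -, -, huv, -⟩ := h.evalU j
    rw [huv y 0 hy, hj, zero_mul]
  by_cases hD' : D' = 0
  · -- the value of the norm form is constant up to a factor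
    subst hD'
    obtain ⟨j₀, hj₀⟩ : ∃ j, eval (x j) c ≠ 0 := by
      by_contra hcon
      push Not at hcon
      have h1 : (1 : MvPolynomial (Fin (t + 1)) ℂ) = 0 :=
        h.dense_sub hch hc0 (isHomogeneous_one _ _) (by omega) fun j hj => absurd (hcon j) hj
      exact one_ne_zero h1
    apply const_of_coneW hY hZclosed hZsc hZbd hed (hP j₀) ?_ hYZ
    intro y hy hy0 hpy
    have h1 := hZS y hy
    have h2 : (qt x' Lc c (sp y N)).IsHomogeneous 0 := qt_isHomogeneous _ _ hLch _ _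
    have h3 : (qt x' Lc c (sp y N)) = C (coeff 0 (qt x' Lc c (sp y N))) := by
      rw [← totalDegree_eq_zero_iff_eq_C]
      exact Nat.le_zero.mp h2.totalDegree_le
    have h4 := hval y (hZF' y hy) j₀ hpy
    rw [h1, map_mul] at h4
    have h5 := (mul_eq_zero.mp h4).resolve_left hj₀
    rw [h3, eval_C] at h5
    rw [h5, C_0] at h3
    apply h.nz y (hZF' y hy) hy0
    rw [h1, h3, mul_zero]
  · exfalso
    have hD'1 : 1 ≤ D' := Nat.one_le_iff_ne_zero.mpr hD'
    -- the points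
    have hP₂h : (sp (Y z₁ z₁) N).IsHomogeneous D := sp_isHomogeneous h.homT _
    have hP₂0 : sp (Y z₁ z₁) N ≠ 0 := h.nz _ (hYFz z₁) (hY.2.1 z₁)
    obtain ⟨H, L, hHcard, hLh', hLδ, hLI⟩ := exists_interp (d := k + D')
      (fun j : {j // eval (x j) (sp (Y z₁ z₁) N) ≠ 0} => x j) (fun Q hQ hv =>
        h.dense_sub hP₂h hP₂0 hQ (by omega) fun j hj => hv ⟨j, hj⟩)
    obtain ⟨xH, hxH⟩ : ∃ xH : H → Fin (t + 1) → ℂ, xH = fun j => x j.1.1 := ⟨_, rfl⟩
    obtain ⟨LH, hLH⟩ : ∃ LH : H → MvPolynomial (Fin (t + 1)) ℂ, LH = fun j => L j.1 := ⟨_, rfl⟩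
    obtain ⟨PH, hPH⟩ : ∃ PH : H → MvPolynomial (Fin (n + 1)) ℂ, PH = fun j => P j.1.1 := ⟨_, rfl⟩
    have hPHh : ∀ j, IsWeightedHomogeneous wt (PH j) ed := by
      intro j
      rw [hPH]
      exact hP _
    have hLHh : ∀ j, (LH j).IsHomogeneous (k + D') := by
      intro j
      rw [hLH]
      exact hLh' _
    have hinterp : ∀ Q : MvPolynomial (Fin (t + 1)) ℂ, Q.IsHomogeneous (k + D') →
        Q = ∑ j, eval (xH j) Q • LH j := by
      intro Q hQ
      have h1 := hLI Q hQ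
      rw [← Finset.sum_coe_sort] at h1
      rw [hxH, hLH]
      exact h1
    have hδ : ∀ i j, eval (xH j) (LH i) = if i = j then 1 else 0 := by
      intro i j
      have h1 := hLδ i i.2 j j.2
      rw [hxH, hLH]
      simp only [Subtype.ext_iff] at h1 ⊢
      exact h1
    have hvalH : ∀ y ∈ ZF 𝔣, ∀ (j : H), eval y (PH j) = 0 → eval (xH j) (sp y N) = 0 := by
      intro y hy j hj
      rw [hPH] at hj
      rw [hxH]
      exact hval y hy _ hj
    have hcH : ∀ j, eval (xH j) c ≠ 0 := by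
      intro j hj
      have h1 : eval (xH j) (sp (Y z₁ z₁) N) ≠ 0 := by
        rw [hxH]
        exact j.1.2
      apply h1
      have h2 := hZS _ (hYZ z₁)
      rw [h2, map_mul, hj, zero_mul]
    obtain ⟨𝓑, h𝓑card, h𝓑cov, h𝓑inj, h𝓑G⟩ := exists_jetForm3 xH LH hinterp
    -- separation
    have hsep : ∀ y ∈ Z, n1 wt y ≠ 0 → ∃ j, eval y (PH j) ≠ 0 := by
      intro y hy hy0
      by_contra hcon
      push Not at hcon
      apply h.nz y (hZF' y hy) hy0
      have h1 : sp y N * (X 0 : MvPolynomial (Fin (t + 1)) ℂ) ^ (k + D' - D) = 0 := by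
        apply eq_zero_of_vanish3 xH LH hinterp
        · have h2 := (sp_isHomogeneous (R := ℂ) h.homT y).mul
            (isHomogeneous_X_pow (R := ℂ) (0 : Fin (t + 1)) (k + D' - D))
          rwa [Nat.add_sub_cancel' (by omega)] at h2
        · intro j
          rw [map_mul, hvalH y (hZF' y hy) j (hcon j), zero_mul]
      exact (mul_eq_zero.mp h1).resolve_right (pow_ne_zero _ (X_ne_zero _))
    -- covering
    have hcov : ∀ y ∈ Z, n1 wt y ≠ 0 → ∃ B ∈ 𝓑, ∀ j, eval y (PH j) = 0 → j ∈ B := by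
      intro y hy hy0
      have h1 := hZS y hy
      have hq0 : qt x' Lc c (sp y N) ≠ 0 := by
        intro h0
        rw [h0, mul_zero] at h1
        exact h.nz y (hZF' y hy) hy0 h1
      obtain ⟨B, hB, hSB⟩ := h𝓑cov (Finset.univ.filter fun j => eval y (PH j) = 0) (by
        intro c' hc' hv
        have h2 : c' * qt x' Lc c (sp y N) = 0 := by
          apply eq_zero_of_vanish3 xH LH hinterp
            (hc'.mul (qt_isHomogeneous x' Lc hLch c (sp y N)))
          intro j
          rw [map_mul]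
          by_cases hj : eval y (PH j) = 0
          · have h3 := hvalH y (hZF' y hy) j hj
            rw [h1, map_mul] at h3
            rw [(mul_eq_zero.mp h3).resolve_left (hcH j), mul_zero]
          · rw [hv j (by
              rw [Finset.mem_filter]
              exact fun h4 => hj h4.2), zero_mul]
        exact (mul_eq_zero.mp h2).resolve_right hq0)
      refine ⟨B, hB, fun j hj => hSB ?_⟩
      rw [Finset.mem_filter]
      exact ⟨Finset.mem_univ _, hj⟩
    obtain ⟨B₀, hB₀, -⟩ := hcov _ (hYZ z₁) (hY.2.1 z₁)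
    -- generic independence
    have hfreq := frequently_indep xH LH hLHh hδ B₀ (h𝓑inj B₀ hB₀) x' Lc hLcI hcx' N z₁
      (yB hY.1 z₁) hFh hF0 (by rw [← hF₀, hF]) hsq' hconst (by
        intro j hj
        have h1 : eval (fun i => algebraMap ℂ (PowerSeries ℂ) (xH j i)) F₀ = 0 := by
          rw [hF, map_mul, hj, mul_zero]
        have h2 := congrArg (ccA : PowerSeries ℂ →+* ℂ) h1
        rw [map_eval, map_zero, hcc] at h2
        have h3 : (fun i => (ccA : PowerSeries ℂ →+* ℂ) (algebraMap ℂ (PowerSeries ℂ) (xH j i))) =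
            xH j := by
          funext i
          exact ccA.commutes _
        have h4 : eval (xH j) (sp (Y z₁ z₁) N) = 0 := by
          rw [← h3]
          exact h2
        rw [hxH] at h4
        exact j.1.2 h4)
    obtain ⟨z₀, hli, ⟨l, hl1, hl2, hl3⟩, hder, han⟩ :=
      (hfreq.and_eventually ((hY.2.2 z₁).and ((evA_derivA_yB hY.1 z₁).and
        (hY.1 z₁).eventually_analyticAt))).exists
    rw [evA_yB, hder] at hli
    obtain ⟨nf, hnf⟩ : ∃ nf : (Fin (n + 1) → ℂ) → MvPolynomial (Fin (t + 1)) ℂ,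
      nf = fun y => qt x' Lc c (sp y N) := ⟨_, rfl⟩
    obtain ⟨nf1, hnf1⟩ : ∃ nf1 : (Fin (n + 1) → ℂ) → (Fin (n + 1) → ℂ) →
      MvPolynomial (Fin (t + 1)) ℂ, nf1 = fun y w => qt x' Lc c (sp1 y w N) := ⟨_, rfl⟩
    have hnfh : ∀ y, (nf y).IsHomogeneous D' := by
      intro y
      rw [hnf]
      exact qt_isHomogeneous _ _ hLch _ _
    have hnf1h : ∀ y w, (nf1 y w).IsHomogeneous D' := by
      intro y w
      rw [hnf1]
      exact qt_isHomogeneous _ _ hLch _ _
    obtain ⟨G, hG0, hG⟩ := h𝓑G (nf (Y z₁ z₀)) (nf1 (Y z₁ z₀) (deriv (Y z₁) z₀)) (hnfh _)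
      (hnf1h _ _) ⟨B₀, hB₀, by rw [hnf, hnf1]; exact hli⟩
    obtain ⟨e, he⟩ : ∃ e, e = B₀.card := ⟨_, rfl⟩
    have hcardH : Fintype.card H = (t + (k + D')).choose (k + D') := by
      rw [Fintype.card_coe, hHcard, finrank_homogeneousSubmodule]
    have heq : e + (t + k).choose k = (t + (k + D')).choose (k + D') := by
      have h1 := h𝓑card B₀ hB₀
      rw [finrank_homogeneousSubmodule, hcardH] at h1
      rw [he, h1]
    have he0 : 0 < e := by
      have := choose_lt_aux (t := t) (k := k) ht hD'1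
      omega
    -- scaling of `G`
    have hGs : ∀ (v₀ v₁ : MvPolynomial (Fin (t + 1)) ℂ) (α β : ℂ), v₀.IsHomogeneous D' →
        v₁.IsHomogeneous D' → G (C α * v₀) (C α * v₁ + C β * v₀) = (α ^ 2) ^ e * G v₀ v₁ := by
      intro v₀ v₁ α β h0 h1
      obtain ⟨a, ha⟩ := hG B₀ hB₀
      rw [ha _ _ (h0.C_mul _) ((h1.C_mul _).add (h0.C_mul _)), ha _ _ h0 h1]
      have h2 : (Matrix.of fun i j : B₀ =>
          a i (wr (xH j) (C α * v₀) (C α * v₁ + C β * v₀) * LH j)) =
          α ^ 2 • (Matrix.of fun i j : B₀ => a i (wr (xH j) v₀ v₁ * LH j)) := by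
        ext i j
        rw [Matrix.smul_apply, Matrix.of_apply, Matrix.of_apply, wr_scale, mul_assoc,
          ← smul_eq_C_mul, map_smul]
      rw [h2, Matrix.det_smul, Fintype.card_coe, he]
    have hGc : ∀ (v₀ v₁ : MvPolynomial (Fin (t + 1)) ℂ) (α : ℂ), v₀.IsHomogeneous D' →
        v₁.IsHomogeneous D' → G v₀ (C α * v₁) = α ^ e * G v₀ v₁ := by
      intro v₀ v₁ α h0 h1
      obtain ⟨a, ha⟩ := hG B₀ hB₀
      rw [ha _ _ h0 (h1.C_mul _), ha _ _ h0 h1]
      have h2 : (Matrix.of fun i j : B₀ => a i (wr (xH j) v₀ (C α * v₁) * LH j)) =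
          α • (Matrix.of fun i j : B₀ => a i (wr (xH j) v₀ v₁ * LH j)) := by
        ext i j
        rw [Matrix.smul_apply, Matrix.of_apply, Matrix.of_apply, wr_smul, mul_assoc,
          ← smul_eq_C_mul, map_smul]
      rw [h2, Matrix.det_smul, Fintype.card_coe, he]
    obtain ⟨Gf, hGf⟩ : ∃ Gf : (Fin (n + 1) → ℂ) → (Fin (n + 1) → ℂ) → ℂ,
      Gf = fun y w => G (nf y) (nf1 y w) := ⟨_, rfl⟩
    obtain ⟨aG, haG⟩ : ∃ aG, aG = 2 * a * e := ⟨_, rfl⟩
    have hJ1 : ∀ y w (l μ : ℂ), l ≠ 0 →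
        Gf (sc wt l y) (sc wt l (w + μ • eu wt y)) = l ^ aG * Gf y w := by
      intro y w l μ _
      rw [hGf]
      beta_reduce
      have h1 : nf (sc wt l y) = C (l ^ a) * nf y := by
        rw [hnf]
        beta_reduce
        rw [sp_sc h.homY, qt_C_mul]
      have h2 : nf1 (sc wt l y) (sc wt l (w + μ • eu wt y)) = C (l ^ a) * nf1 y w +
          C (μ * l ^ a * a) * nf y := by
        rw [hnf, hnf1]
        beta_reduce
        rw [sp1_sc h.homY, qt_add, qt_C_mul, qt_C_mul]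
      rw [h1, h2, hGs _ _ _ _ (hnfh _) (hnf1h _ _), haG]
      congr 1
      rw [← pow_mul, ← pow_mul]
      congr 1
      ring
    have hJ2 : ∀ y w (c : ℂ), Gf y (c • w) = c ^ e * Gf y w := by
      intro y w c'
      rw [hGf]
      beta_reduce
      have h2 : nf1 y (c' • w) = C c' * nf1 y w := by
        rw [hnf1]
        beta_reduce
        rw [sp1_smul, qt_C_mul]
      rw [h2, hGc _ _ _ (hnfh _) (hnf1h _ _)]
    -- factorisation
    have hFac : FacH PH TT 𝓑 Gf := by
      intro B hB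
      obtain ⟨a', ha'⟩ := hG B hB
      choose u v hu hv huv huv' using h.evalU
      refine ⟨fun i j y w => (eval (xH j) c)⁻¹ *
          (u j.1.1.1 y w * (a' i ∘ₗ LinearMap.mulRight ℂ (LH j)) (nf1 y w) -
            v j.1.1.1 y w * (a' i ∘ₗ LinearMap.mulRight ℂ (LH j)) (nf y)),
        fun i j y w => -((eval (xH j) c)⁻¹ *
          (u j.1.1.1 y w * (a' i ∘ₗ LinearMap.mulRight ℂ (LH j)) (nf y))), ?_, ?_, ?_⟩
      · intro i j
        rw [hnf, hnf1]
        exact (hol_const _).mul (((hu _).mul (hol_qt x' Lc (hol_sp1 N) c _)).sub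
          ((hv _).mul (hol_qt x' Lc (Φ := fun y _ => sp y N) (hol_sp N) c _)))
      · intro i j
        rw [hnf]
        exact ((hol_const _).mul ((hu _).mul
          (hol_qt x' Lc (Φ := fun y _ => sp y N) (hol_sp N) c _))).neg
      · intro y w hT
        rw [hGf]
        beta_reduce
        rw [ha' _ _ (hnfh _) (hnf1h _ _)]
        congr 1
        ext i j
        rw [Matrix.of_apply, Matrix.of_apply]
        rw [hTT] at hT
        obtain ⟨⟨hT1, hT2⟩, hT3⟩ := hT
        have e1 : eval (xH j) (nf y) = (eval (xH j) c)⁻¹ * ((eval y (PH j)) * u j.1.1.1 y w) := by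
          have h1 : sp y N = c * nf y := by rw [hnf]; exact hT1
          have h2 := congrArg (eval (xH j)) h1
          rw [map_mul] at h2
          have h3 := huv j.1.1.1 y w hT3.1
          have h4 : eval (xH j) (sp y N) = (eval y (PH j)) * u j.1.1.1 y w := by
            rw [hxH, hPH]
            exact h3
          rw [← h4, h2, ← mul_assoc, inv_mul_cancel₀ (hcH j), one_mul]
        have e2 : eval (xH j) (nf1 y w) = (eval (xH j) c)⁻¹ *
            ((dev (PH j) y w) * u j.1.1.1 y w + (eval y (PH j)) * v j.1.1.1 y w) := by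
          have h1 : sp1 y w N = c * nf1 y w := by rw [hnf1]; exact hT2
          have h2 := congrArg (eval (xH j)) h1
          rw [map_mul] at h2
          have h3 := huv' j.1.1.1 y w hT3
          have h4 : eval (xH j) (sp1 y w N) =
              (dev (PH j) y w) * u j.1.1.1 y w + (eval y (PH j)) * v j.1.1.1 y w := by
            rw [hxH, hPH]
            exact h3
          rw [← h4, h2, ← mul_assoc, inv_mul_cancel₀ (hcH j), one_mul]
        have e3 : wr (xH j) (nf y) (nf1 y w) * LH j =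
            eval (xH j) (nf y) • (nf1 y w * LH j) - eval (xH j) (nf1 y w) • (nf y * LH j) := by
          rw [wr, smul_eq_C_mul, smul_eq_C_mul]
          ring
        rw [e3, map_sub, map_smul, map_smul, e1, e2]
        simp only [LinearMap.comp_apply, LinearMap.mulRight_apply, smul_eq_mul]
        ring
    -- conclusion
    have hn1 := hnum D' hD'1 (by omega)
    have hae : ed + 2 * aG < ed * Fintype.card H := by
      rw [hcardH, haG]
      have h1 : (t + (k + D')).choose (k + D') - (t + k).choose k = e := by omega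
      rw [h1] at hn1
      calc ed + 2 * (2 * a * e) = ed + 4 * a * e := by ring
        _ < _ := hn1
    obtain ⟨s, hs⟩ : ∃ s, s = ed * Fintype.card H - (ed + 2 * aG) := ⟨_, rfl⟩
    have hs' : s + ed + 2 * aG = (2 - 1) * ed * Fintype.card H := by
      rw [show (2 : ℕ) - 1 = 1 from rfl, one_mul, hs]
      omega
    have hfinal := caseW PH wt hPHh (m := 2) (a := aG) (e := e) (N₂ := s) (by norm_num) he0
      (by omega) hZclosed hZbd hTTZ hTTs hcov hsep hs' hFac hJ1 hJ2 hY hTTY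
      (fun j z₁ => by rw [hPH]; exact htop _ _) (fun j z₁ => by rw [hPH]; exact hord _ _) z₀
    obtain ⟨h1, h2⟩ := WLift.deriv_eq hl1 hl2 hl3 han
    have h3 := hfinal.self_of_nhds
    rw [h1, h2, hJ1 _ _ _ _ hl2] at h3
    rcases mul_eq_zero.mp h3 with h4 | h4
    · exact pow_ne_zero _ hl2 h4
    · rw [hGf] at h4
      exact hG0 h4

end Pool.Agent.Lib.GGL
end

section

/-!
Equations of a weighted homogeneous point; bounds for integral coordinates.
-/

open MvPolynomial Module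

namespace Pool.Agent.Lib.GGL

section

variable {N : ℕ} {K : Type*} [Field K] [Algebra ℂ K]

/-- the weighted homogeneous equations of a point -/
def eqs (v : Fin (N + 1) → K) (wt : Fin (N + 1) → ℕ) : Set (MvPolynomial (Fin (N + 1)) ℂ) :=
  {f | aeval v f = 0 ∧ ∃ e, IsWeightedHomogeneous wt f e}

/-- scaling automorphisms -/
def Auto (v : Fin (N + 1) → K) (wt : Fin (N + 1) → ℕ) : Prop :=
  ∀ l : ℂ, l ≠ 0 → ∃ s : K ≃ₐ[ℂ] K, ∀ i, s (v i) = algebraMap ℂ K l ^ wt i * v i

variable {v : Fin (N + 1) → K} {wt : Fin (N + 1) → ℕ}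

/-- all equations vanish on the common zeros of the weighted homogeneous ones -/
lemma eval_eq_zero_of_mem (h : Auto v wt) {y : Fin (N + 1) → ℂ} (hy : y ∈ ZF (eqs v wt))
    {f : MvPolynomial (Fin (N + 1)) ℂ} (hf : aeval v f = 0) : eval y f = 0 := by
  obtain ⟨M, hM⟩ := exists_sum_whc wt f
  rw [hM, map_sum]
  apply Finset.sum_eq_zero
  intro k _
  exact hy _ ⟨aeval_component_eq_zero h hf k, k,
    weightedHomogeneousComponent_isWeightedHomogeneous k f⟩

lemma mem_ZF_iff (h : Auto v wt) {y : Fin (N + 1) → ℂ} :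
    y ∈ ZF (eqs v wt) ↔ ∀ f : MvPolynomial (Fin (N + 1)) ℂ, aeval v f = 0 → eval y f = 0 :=
  ⟨fun hy _ hf => eval_eq_zero_of_mem h hy hf, fun hy f hf => hy f hf.1⟩

lemma sp_eq_zero_of_mem {t a : ℕ} {F : MvPolynomial (Fin (N + 1) ⊕ Fin (t + 1)) ℂ}
    (hF : IsWeightedHomogeneous (wU wt t) F a) (h0 : sp v F = 0) {y : Fin (N + 1) → ℂ}
    (hy : y ∈ ZF (eqs v wt)) : sp y F = 0 := by
  apply MvPolynomial.funext
  intro x
  rw [map_zero, ← eval_nx]
  apply hy
  refine ⟨?_, a, nx_weighted hF x⟩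
  rw [aeval_nx, h0, map_zero]

end

section

variable {n t N : ℕ} {R : Type*} [CommRing R] [Algebra ℂ R]

lemma sp_rename_inl (g : Fin (n + 1) → Fin (N + 1)) (y : Fin (N + 1) → R)
    (P : MvPolynomial (Fin (n + 1)) ℂ) :
    sp (t := t) y (rename (fun i => Sum.inl (g i)) P) = C (aeval (fun i => y (g i)) P) := by
  induction P using MvPolynomial.induction_on with
  | C a => rw [rename_C, sp_C, aeval_C]
  | add p q hp hq => rw [map_add, map_add, hp, hq, map_add, C_add]
  | mul_X p j hp => rw [map_mul, map_mul, hp, rename_X, sp_inl, map_mul, aeval_X, C_mul]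

lemma sp_rename_inr {t' : ℕ} (g : Fin (t + 1) → Fin (t' + 1)) (y : Fin (N + 1) → R)
    (P : MvPolynomial (Fin (t + 1)) ℂ) :
    sp y (rename (fun i => Sum.inr (g i)) P) = rename g (map (algebraMap ℂ R) P) := by
  induction P using MvPolynomial.induction_on with
  | C a => rw [rename_C, sp_C, map_C, rename_C]
  | add p q hp hq => rw [map_add, map_add, hp, hq, map_add, map_add]
  | mul_X p j hp => rw [map_mul, map_mul, hp, rename_X, sp_inr, map_mul, map_mul, map_X, rename_X]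

lemma sp_rename_map (g : Fin (n + 1) → Fin (N + 1)) (y : Fin (N + 1) → R)
    (F : MvPolynomial (Fin (n + 1) ⊕ Fin (t + 1)) ℂ) :
    sp y (rename (Sum.map g id) F) = sp (fun i => y (g i)) F := by
  induction F using MvPolynomial.induction_on with
  | C a => rw [rename_C, sp_C, sp_C]
  | add p q hp hq => rw [map_add, map_add, hp, hq, map_add]
  | mul_X p j hp =>
    rw [map_mul, map_mul, hp, rename_X, map_mul]
    rcases j with j | j
    · rw [Sum.map_inl, sp_inl, sp_inl]
    · rw [Sum.map_inr, sp_inr, sp_inr]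
      rfl

end

section integral

variable {n : ℕ} {I : Ideal (MvPolynomial (Fin (n + 1)) ℂ)} [I.IsPrime]

/-- an integral equation with polynomial coefficients -/
lemma exists_integral_eq {u : KK I} (hu : IsIntegral (MvPolynomial (Fin (n + 1)) ℂ ⧸ I) u) :
    ∃ (r : ℕ) (c : ℕ → MvPolynomial (Fin (n + 1)) ℂ), 0 < r ∧
      u ^ r + ∑ i ∈ Finset.range r, aeval (gen I) (c i) * u ^ i = 0 := by
  obtain ⟨p, hp, hpu⟩ := hu
  choose c hc using fun i => Ideal.Quotient.mk_surjective (I := I) (p.coeff i)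
  have h1 : u ^ p.natDegree + ∑ i ∈ Finset.range p.natDegree, aeval (gen I) (c i) * u ^ i = 0 := by
    rw [← hpu]
    conv_rhs => rw [hp.as_sum]
    rw [Polynomial.eval₂_add, Polynomial.eval₂_X_pow, Polynomial.eval₂_finsetSum]
    congr 1
    refine Finset.sum_congr rfl fun i _ => ?_
    rw [Polynomial.eval₂_mul, Polynomial.eval₂_C, Polynomial.eval₂_X_pow, aeval_gen, hc]
  refine ⟨p.natDegree, c, ?_, h1⟩
  apply Nat.pos_of_ne_zero
  intro h0
  rw [h0] at h1
  simp at h1

end integral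

section bound

/-- a bound for the roots of a monic polynomial -/
lemma root_bound {r : ℕ} (hr : 0 < r) {c : ℕ → ℂ} {C : ℝ} (hC : 1 ≤ C)
    (hc : ∀ i, i < r → ‖c i‖ ≤ C) {w : ℂ} (hw : w ^ r + ∑ i ∈ Finset.range r, c i * w ^ i = 0) :
    ‖w‖ ≤ r * C := by
  have hr1 : (1 : ℝ) ≤ r := by exact_mod_cast hr
  by_cases hw1 : ‖w‖ ≤ 1
  · nlinarith
  · push Not at hw1
    have hw0 : 0 < ‖w‖ := by linarith
    have h1 : ‖w‖ ^ r ≤ ∑ i ∈ Finset.range r, C * ‖w‖ ^ (r - 1) := by
      have h2 : w ^ r = - ∑ i ∈ Finset.range r, c i * w ^ i := eq_neg_of_add_eq_zero_left hw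
      rw [← norm_pow, h2, norm_neg]
      refine (norm_sum_le _ _).trans ?_
      apply Finset.sum_le_sum
      intro i hi
      rw [Finset.mem_range] at hi
      rw [norm_mul, norm_pow]
      apply mul_le_mul (hc i hi) _ (by positivity) (by linarith)
      exact pow_le_pow_right₀ hw1.le (by omega)
    rw [Finset.sum_const, Finset.card_range, nsmul_eq_mul] at h1
    have h2 : ‖w‖ ^ r = ‖w‖ ^ (r - 1) * ‖w‖ := by
      rw [← pow_succ]
      congr 1
      omega
    rw [h2] at h1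
    have h3 : 0 < ‖w‖ ^ (r - 1) := by positivity
    have h4 : ‖w‖ ^ (r - 1) * ‖w‖ ≤ ‖w‖ ^ (r - 1) * (r * C) := by
      calc _ ≤ _ := h1
        _ = _ := by ring
    exact le_of_mul_le_mul_left h4 h3

end bound

end Pool.Agent.Lib.GGL
end
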