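import Mathlib
import Pool.Agent.Lib.MP_8d161d_ag.Mg.G026
import Pool.Agent.Lib.MP_8d161d_ag.Sqf

section

/-!
The norm form over the field of rational functions of a cone.
-/

open MvPolynomial Module

namespace Pool.Agent.Lib.GGL

/-- The new norm form. -/
theorem exists_newN {n t : ℕ} {I : Ideal (MvPolynomial (Fin (n + 1)) ℂ)} [I.IsPrime]
    (hI : HomIdeal I)
    {N : MvPolynomial (Fin (n + 1) ⊕ Fin (t + 1)) ℂ} {a D ed b : ℕ}
    (homY : IsWeightedHomogeneous (wY n t) N a) (homT : IsWeightedHomogeneous (wT n t) N D)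
    (hN0 : sp (gen I) N ≠ 0) (ha : ed ≤ a)
    (hnz : ∀ y : Fin (n + 1) → ℂ, (∀ g ∈ I, eval y g = 0) → y ≠ 0 → sp y N ≠ 0)
    {J : Type} [Finite J]
    {P : J → MvPolynomial (Fin (n + 1)) ℂ} {x : J → Fin (t + 1) → ℂ}
    (hPh : ∀ j, (P j).IsHomogeneous ed) (hPI : ∀ j, P j ∉ I)
    (hrad : ∀ j, RedOn I (P j)) (hdvd : ∀ j, P j ∣ nx N (x j))
    (hdense : ∀ b' ≤ b, ∀ g : MvPolynomial (Fin (t + 1)) ℂ, g.IsHomogeneous b' →
      (∀ j, eval (x j) g = 0) → g = 0) (hDb : D ≤ b) :
    ∃ (N' t' D' : ℕ) (wt : Fin (N' + 1) → ℕ) (eY : Fin (n + 1) → Fin (N' + 1))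
      (v : Fin (N' + 1) → KK I) (ι' : Type) (_ : Finite ι') (pr : ι' → J)
      (x' : ι' → Fin (t' + 1) → ℂ)
      (F : MvPolynomial (Fin (N' + 1) ⊕ Fin (t' + 1)) ℂ),
      t ≤ t' ∧ t' ≤ t + (D + 1) ^ (t + 1) ∧ D' ≤ D + 1 ∧
      (∀ i, wt (eY i) = 1) ∧ (∀ i, v (eY i) = gen I i) ∧
      (∀ i, IsIntegral (MvPolynomial (Fin (n + 1)) ℂ ⧸ I) (v i)) ∧
      Auto v wt ∧ NDataW wt (eqs v wt) (fun q => rename eY (P (pr q))) x' F a D' b ∧
      sp v F ≠ 0 ∧ Squarefree (sp v F) := by
  classical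
  have := Fintype.ofFinite J
  obtain ⟨D₁, D₂, G, G', u, hDD, hGh, hG'h, hG0, hG'0, hGsq, hNG, hu1, hu2, hauto⟩ :=
    exists_cofactor_data hI homY homT hN0 ha (Finset.univ : Finset J) (fun j _ => hPh j)
      (fun j _ => hPI j) (fun j _ => hrad j) (fun j _ => hdvd j)
  -- exponents
  obtain ⟨E₂, hE₂⟩ : ∃ E : Finset (Fin (t + 1) →₀ ℕ),
    E = Finset.finsuppAntidiag Finset.univ D₂ := ⟨_, rfl⟩
  have hmemE : ∀ m : Fin (t + 1) →₀ ℕ, m ∈ E₂ ↔ m.degree = D₂ := by
    intro m
    rw [hE₂, Finset.mem_finsuppAntidiag, Finsupp.degree_eq_sum]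
    simp
  have hcardE : Fintype.card E₂ ≤ (D + 1) ^ (t + 1) := by
    have h1 : ∀ m : E₂, ∀ i, (m : Fin (t + 1) →₀ ℕ) i < D + 1 := by
      intro m i
      have h2 := (hmemE m).mp m.2
      have h3 := Finsupp.le_degree i (m : Fin (t + 1) →₀ ℕ)
      omega
    have h2 := Fintype.card_le_of_injective
      (fun m : E₂ => fun i => (⟨(m : Fin (t + 1) →₀ ℕ) i, h1 m i⟩ : Fin (D + 1))) (by
        intro m m' hmm
        apply Subtype.ext
        ext i
        have := congrFun hmm i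
        simpa using this)
    simpa using h2
  -- variables
  let eU : (J × E₂) ⊕ Fin (n + 1) ≃ Fin (Fintype.card (J × E₂) + n + 1) :=
    Fintype.equivFinOfCardEq (by rw [Fintype.card_sum, Fintype.card_fin]; ring)
  let eT : E₂ ⊕ Fin (t + 1) ≃ Fin (Fintype.card E₂ + t + 1) :=
    Fintype.equivFinOfCardEq (by rw [Fintype.card_sum, Fintype.card_fin]; ring)
  obtain ⟨wt, hwt⟩ : ∃ wt : Fin (Fintype.card (J × E₂) + n + 1) → ℕ,
    wt = fun i => Sum.elim (fun _ => a - ed) (fun _ => 1) (eU.symm i) := ⟨_, rfl⟩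
  obtain ⟨v, hv⟩ : ∃ v : Fin (Fintype.card (J × E₂) + n + 1) → KK I,
    v = fun i => Sum.elim (fun q : J × E₂ => u q.1 q.2) (gen I) (eU.symm i) := ⟨_, rfl⟩
  obtain ⟨eY, heY⟩ : ∃ eY : Fin (n + 1) → Fin (Fintype.card (J × E₂) + n + 1),
    eY = fun i => eU (Sum.inr i) := ⟨_, rfl⟩
  have hwtY : ∀ i, wt (eY i) = 1 := by
    intro i
    rw [hwt, heY]
    simp
  have hwtU : ∀ q, wt (eU (Sum.inl q)) = a - ed := by
    intro q
    rw [hwt]
    simp
  have hvY : ∀ i, v (eY i) = gen I i := by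
    intro i
    rw [hv, heY]
    simp
  have hvU : ∀ q, v (eU (Sum.inl q)) = u q.1 q.2 := by
    intro q
    rw [hv]
    simp
  have hvYf : (fun i => v (eY i)) = gen I := funext hvY
  have hcases : ∀ i, (∃ q, i = eU (Sum.inl q)) ∨ ∃ k, i = eY k := by
    intro i
    rcases h : eU.symm i with q | k
    · left
      exact ⟨q, by rw [← h, Equiv.apply_symm_apply]⟩
    · right
      refine ⟨k, ?_⟩
      rw [heY]
      beta_reduce
      rw [← h, Equiv.apply_symm_apply]
  have hvint : ∀ i, IsIntegral (MvPolynomial (Fin (n + 1)) ℂ ⧸ I) (v i) := by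
    intro i
    rcases hcases i with ⟨q, rfl⟩ | ⟨k, rfl⟩
    · rw [hvU]
      exact hu1 _ (Finset.mem_univ _) _
    · rw [hvY]
      exact isIntegral_algebraMap
  have hAuto : Auto v wt := by
    intro l hl
    obtain ⟨s, hs1, hs2⟩ := hauto l hl
    refine ⟨s, fun i => ?_⟩
    rcases hcases i with ⟨q, rfl⟩ | ⟨k, rfl⟩
    · rw [hvU, hwtU]
      exact hs2 _ (Finset.mem_univ _) _
    · rw [hvY, hwtY, pow_one]
      exact hs1 _
  -- interpolation
  obtain ⟨H, L, -, hLh, -, hLI⟩ := exists_interp (d := D₁) x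
    (fun Q hQ hv => hdense D₁ (by omega) Q hQ hv)
  have hGI : G = ∑ h : H, C (eval (fun i => algebraMap ℂ (KK I) (x h i)) G) *
      map (algebraMap ℂ (KK I)) (L h) :=
    interp_map (fun j : H => x j) (fun j : H => L j) (fun Q hQ => by
      rw [Finset.sum_coe_sort H (fun j => eval (x j) Q • L j)]
      exact hLI Q hQ) hGh
  -- the form
  obtain ⟨F, hF⟩ : ∃ F : MvPolynomial (Fin (Fintype.card (J × E₂) + n + 1) ⊕
      Fin (Fintype.card E₂ + t + 1)) ℂ,
    F = ∑ h : H, ∑ m : E₂, (rename (fun i => Sum.inl (eY i)) (P h) *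
      X (Sum.inl (eU (Sum.inl ((h : J), m))))) *
      (rename (fun i => Sum.inr (eT (Sum.inr i))) (L h) * X (Sum.inr (eT (Sum.inl m)))) := ⟨_, rfl⟩
  have hspF : ∀ {R : Type} [CommRing R] [Algebra ℂ R]
      (y : Fin (Fintype.card (J × E₂) + n + 1) → R),
      sp y F = ∑ h : H, ∑ m : E₂, (C (aeval (fun i => y (eY i)) (P h)) *
        C (y (eU (Sum.inl ((h : J), m))))) *
        (rename (fun i => eT (Sum.inr i)) (map (algebraMap ℂ R) (L h)) * X (eT (Sum.inl m))) := by
    intro R _ _ y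
    rw [hF, map_sum]
    refine Finset.sum_congr rfl fun h _ => ?_
    rw [map_sum]
    refine Finset.sum_congr rfl fun m _ => ?_
    rw [map_mul, map_mul, map_mul, sp_rename_inl, sp_inl, sp_rename_inr, sp_inr]
  have hspv : sp v F = rename (fun i => eT (Sum.inr i)) G *
      ∑ m : E₂, C (coeff (m : Fin (t + 1) →₀ ℕ) G') * X (eT (Sum.inl m)) := by
    rw [hspF, hvYf, Finset.sum_comm, Finset.mul_sum]
    refine Finset.sum_congr rfl fun m _ => ?_
    conv_rhs => rw [hGI, map_sum, Finset.sum_mul]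
    refine Finset.sum_congr rfl fun h _ => ?_
    rw [hvU, map_mul, rename_C, ← C_mul, ← hu2 _ (Finset.mem_univ _), C_mul]
    ring
  obtain ⟨m₀, hm₀⟩ : ∃ m₀ : E₂, coeff (m₀ : Fin (t + 1) →₀ ℕ) G' ≠ 0 := by
    obtain ⟨m, hm⟩ : ∃ m, coeff m G' ≠ 0 := by
      by_contra hcon
      push Not at hcon
      exact hG'0 (MvPolynomial.ext _ _ fun m => by rw [hcon, coeff_zero])
    refine ⟨⟨m, ?_⟩, hm⟩
    rw [hmemE, Finsupp.degree_eq_weight_one]
    exact hG'h hm
  have hsqf : Squarefree (sp v F) := by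
    rw [hspv]
    exact squarefree_rename_mul eT hG0 hGsq (g := fun m : E₂ => coeff (m : Fin (t + 1) →₀ ℕ) G') hm₀
  have hspv0 : sp v F ≠ 0 := hsqf.ne_zero
  -- weighted homogeneity
  have hhomY : IsWeightedHomogeneous (wU wt (Fintype.card E₂ + t)) F a := by
    rw [hF]
    refine IsWeightedHomogeneous.sum _ _ _ fun h _ => IsWeightedHomogeneous.sum _ _ _ fun m _ => ?_
    have e1 : IsWeightedHomogeneous (wU wt (Fintype.card E₂ + t))
        (rename (fun i => Sum.inl (eY i)) (P h) : MvPolynomial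
          (Fin (Fintype.card (J × E₂) + n + 1) ⊕ Fin (Fintype.card E₂ + t + 1)) ℂ) ed := by
      apply rename_isWeighted
      have h2 : (fun i => wU wt (Fintype.card E₂ + t) (Sum.inl (eY i))) = 1 := by
        funext i
        exact hwtY i
      rw [h2]
      exact hPh h
    have e2 : IsWeightedHomogeneous (wU wt (Fintype.card E₂ + t))
        (X (Sum.inl (eU (Sum.inl ((h : J), m)))) : MvPolynomial
          (Fin (Fintype.card (J × E₂) + n + 1) ⊕ Fin (Fintype.card E₂ + t + 1)) ℂ) (a - ed) := by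
      have h2 := isWeightedHomogeneous_X ℂ (wU wt (Fintype.card E₂ + t))
        (Sum.inl (eU (Sum.inl ((h : J), m))))
      have h3 : wU wt (Fintype.card E₂ + t) (Sum.inl (eU (Sum.inl ((h : J), m)))) = a - ed :=
        hwtU _
      rw [h3] at h2
      exact h2
    have e3 : IsWeightedHomogeneous (wU wt (Fintype.card E₂ + t))
        (rename (fun i => Sum.inr (eT (Sum.inr i))) (L h) : MvPolynomial
          (Fin (Fintype.card (J × E₂) + n + 1) ⊕ Fin (Fintype.card E₂ + t + 1)) ℂ) 0 := by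
      apply rename_isWeighted
      exact isWeighted_zero (fun _ => rfl) _
    have e4 : IsWeightedHomogeneous (wU wt (Fintype.card E₂ + t))
        (X (Sum.inr (eT (Sum.inl m))) : MvPolynomial
          (Fin (Fintype.card (J × E₂) + n + 1) ⊕ Fin (Fintype.card E₂ + t + 1)) ℂ) 0 :=
      isWeightedHomogeneous_X ℂ (wU wt (Fintype.card E₂ + t)) (Sum.inr (eT (Sum.inl m)))
    have h5 := (e1.mul e2).mul (e3.mul e4)
    rwa [Nat.add_sub_cancel' ha] at h5
  have hhomT : IsWeightedHomogeneous (wT (Fintype.card (J × E₂) + n) (Fintype.card E₂ + t)) F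
      (D₁ + 1) := by
    rw [hF]
    refine IsWeightedHomogeneous.sum _ _ _ fun h _ => IsWeightedHomogeneous.sum _ _ _ fun m _ => ?_
    have e1 : IsWeightedHomogeneous (wT (Fintype.card (J × E₂) + n) (Fintype.card E₂ + t))
        (rename (fun i => Sum.inl (eY i)) (P h) : MvPolynomial
          (Fin (Fintype.card (J × E₂) + n + 1) ⊕ Fin (Fintype.card E₂ + t + 1)) ℂ) 0 := by
      apply rename_isWeighted
      exact isWeighted_zero (fun _ => rfl) _
    have e2 : IsWeightedHomogeneous (wT (Fintype.card (J × E₂) + n) (Fintype.card E₂ + t))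
        (X (Sum.inl (eU (Sum.inl ((h : J), m)))) : MvPolynomial
          (Fin (Fintype.card (J × E₂) + n + 1) ⊕ Fin (Fintype.card E₂ + t + 1)) ℂ) 0 :=
      isWeightedHomogeneous_X ℂ (wT (Fintype.card (J × E₂) + n) (Fintype.card E₂ + t))
        (Sum.inl (eU (Sum.inl ((h : J), m))))
    have e3 : IsWeightedHomogeneous (wT (Fintype.card (J × E₂) + n) (Fintype.card E₂ + t))
        (rename (fun i => Sum.inr (eT (Sum.inr i))) (L h) : MvPolynomial
          (Fin (Fintype.card (J × E₂) + n + 1) ⊕ Fin (Fintype.card E₂ + t + 1)) ℂ) D₁ := by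
      apply rename_isWeighted
      exact hLh h
    have e4 : IsWeightedHomogeneous (wT (Fintype.card (J × E₂) + n) (Fintype.card E₂ + t))
        (X (Sum.inr (eT (Sum.inl m))) : MvPolynomial
          (Fin (Fintype.card (J × E₂) + n + 1) ⊕ Fin (Fintype.card E₂ + t + 1)) ℂ) 1 :=
      isWeightedHomogeneous_X ℂ (wT (Fintype.card (J × E₂) + n) (Fintype.card E₂ + t))
        (Sum.inr (eT (Sum.inl m)))
    have h5 := (e1.mul e2).mul (e3.mul e4)
    rwa [zero_add, zero_add] at h5
  -- the specialisation of the second group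
  obtain ⟨F₂, hF₂⟩ : ∃ F₂ : MvPolynomial (Fin (Fintype.card (J × E₂) + n + 1) ⊕
      Fin (t + 1)) ℂ,
    F₂ = (∑ h : H, ∑ m : E₂, (rename (fun i => Sum.inl (eY i)) (P h) *
      X (Sum.inl (eU (Sum.inl ((h : J), m))))) *
      (rename (fun i => Sum.inr (id i)) (L h) *
        rename (fun i => Sum.inr (id i)) (monomial (m : Fin (t + 1) →₀ ℕ) (1 : ℂ)))) -
      rename (Sum.map eY id) N := ⟨_, rfl⟩
  have hspF₂ : ∀ {R : Type} [CommRing R] [Algebra ℂ R]
      (y : Fin (Fintype.card (J × E₂) + n + 1) → R),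
      sp y F₂ = (∑ h : H, ∑ m : E₂, (C (aeval (fun i => y (eY i)) (P h)) *
        C (y (eU (Sum.inl ((h : J), m))))) *
        (map (algebraMap ℂ R) (L h) * monomial (m : Fin (t + 1) →₀ ℕ) (1 : R))) -
        sp (fun i => y (eY i)) N := by
    intro R _ _ y
    rw [hF₂, map_sub, map_sum, sp_rename_map]
    congr 1
    refine Finset.sum_congr rfl fun h _ => ?_
    rw [map_sum]
    refine Finset.sum_congr rfl fun m _ => ?_
    rw [map_mul, map_mul, map_mul, sp_rename_inl, sp_inl, sp_rename_inr, sp_rename_inr,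
      rename_id, map_monomial, map_one]
    rfl
  have hspv₂ : sp v F₂ = 0 := by
    rw [hspF₂, hvYf, hNG, sub_eq_zero, Finset.sum_comm]
    have h1 : G' = ∑ m : E₂, C (coeff (m : Fin (t + 1) →₀ ℕ) G') *
        monomial (m : Fin (t + 1) →₀ ℕ) (1 : KK I) := by
      conv_lhs => rw [G'.as_sum]
      have h2 : G'.support ⊆ E₂ := by
        intro d hd
        rw [hmemE, Finsupp.degree_eq_weight_one]
        exact hG'h (mem_support_iff.mp hd)
      rw [Finset.sum_subset h2, ← Finset.sum_coe_sort E₂]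
      · refine Finset.sum_congr rfl fun m _ => ?_
        rw [C_mul_monomial, mul_one]
      · intro d _ hd
        rw [notMem_support_iff.mp hd, monomial_zero]
    conv_rhs => rw [h1, Finset.mul_sum]
    refine Finset.sum_congr rfl fun m _ => ?_
    conv_rhs => rw [hGI, Finset.sum_mul]
    refine Finset.sum_congr rfl fun h _ => ?_
    rw [hvU, ← C_mul, ← hu2 _ (Finset.mem_univ _), C_mul]
    ring
  have hhomY₂ : IsWeightedHomogeneous (wU wt t) F₂ a := by
    rw [hF₂]
    apply IsWeightedHomogeneous.sub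
    · refine IsWeightedHomogeneous.sum _ _ _ fun h _ =>
        IsWeightedHomogeneous.sum _ _ _ fun m _ => ?_
      have e1 : IsWeightedHomogeneous (wU wt t)
          (rename (fun i => Sum.inl (eY i)) (P h) : MvPolynomial
            (Fin (Fintype.card (J × E₂) + n + 1) ⊕ Fin (t + 1)) ℂ) ed := by
        apply rename_isWeighted
        have h2 : (fun i => wU wt t (Sum.inl (eY i))) = 1 := by
          funext i
          exact hwtY i
        rw [h2]
        exact hPh h
      have e2 : IsWeightedHomogeneous (wU wt t)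
          (X (Sum.inl (eU (Sum.inl ((h : J), m)))) : MvPolynomial
            (Fin (Fintype.card (J × E₂) + n + 1) ⊕ Fin (t + 1)) ℂ) (a - ed) := by
        have h2 := isWeightedHomogeneous_X ℂ (wU wt t) (Sum.inl (eU (Sum.inl ((h : J), m))))
        have h3 : wU wt t (Sum.inl (eU (Sum.inl ((h : J), m)))) = a - ed := hwtU _
        rw [h3] at h2
        exact h2
      have e3 : ∀ Q : MvPolynomial (Fin (t + 1)) ℂ, IsWeightedHomogeneous (wU wt t)
          (rename (fun i => Sum.inr (id i)) Q : MvPolynomial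
            (Fin (Fintype.card (J × E₂) + n + 1) ⊕ Fin (t + 1)) ℂ) 0 := by
        intro Q
        apply rename_isWeighted
        exact isWeighted_zero (fun _ => rfl) _
      have h5 := (e1.mul e2).mul ((e3 (L h)).mul (e3 (monomial (m : Fin (t + 1) →₀ ℕ) (1 : ℂ))))
      rwa [Nat.add_sub_cancel' ha] at h5
    · apply rename_isWeighted
      have h2 : (fun i => wU wt t (Sum.map eY id i)) = wY n t := by
        funext i
        rcases i with i | i
        · exact hwtY i
        · rfl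
      rw [h2]
      exact homY
  obtain ⟨ρ, hρ⟩ : ∃ ρ : MvPolynomial (Fin (Fintype.card E₂ + t + 1)) ℂ →ₐ[ℂ]
    MvPolynomial (Fin (t + 1)) ℂ, ρ = aeval (fun i => Sum.elim
      (fun m : E₂ => monomial (m : Fin (t + 1) →₀ ℕ) (1 : ℂ)) X (eT.symm i)) := ⟨_, rfl⟩
  have hρX : ∀ m, ρ (X (eT (Sum.inl m))) = monomial (m : Fin (t + 1) →₀ ℕ) (1 : ℂ) := by
    intro m
    rw [hρ, aeval_X, Equiv.symm_apply_apply, Sum.elim_inl]
  have hρR : ∀ Q : MvPolynomial (Fin (t + 1)) ℂ, ρ (rename (fun i => eT (Sum.inr i)) Q) = Q := by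
    intro Q
    rw [hρ, aeval_rename]
    have h1 : ((fun i => Sum.elim (fun m : E₂ => monomial (m : Fin (t + 1) →₀ ℕ) (1 : ℂ)) X
        (eT.symm i)) ∘ fun i => eT (Sum.inr i)) = (X : Fin (t + 1) → _) := by
      funext i
      rw [Function.comp_apply, Equiv.symm_apply_apply, Sum.elim_inr]
    rw [h1, aeval_X_left]
    rfl
  have hρC : ∀ c : ℂ, ρ (C c) = C c := by
    intro c
    rw [hρ, aeval_C]
    rfl
  have hρsp : ∀ y : Fin (Fintype.card (J × E₂) + n + 1) → ℂ,
      ρ (sp y F) = sp y F₂ + sp (fun i => y (eY i)) N := by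
    intro y
    rw [hspF, hspF₂, sub_add_cancel, map_sum]
    refine Finset.sum_congr rfl fun h _ => ?_
    rw [map_sum]
    refine Finset.sum_congr rfl fun m _ => ?_
    rw [map_mul, map_mul, map_mul, hρX, hρC, hρC, hρR]
  -- points of the cone
  have hrenY : ∀ g : MvPolynomial (Fin (n + 1)) ℂ, aeval v (rename eY g) = aeval (gen I) g := by
    intro g
    rw [aeval_rename]
    have h1 : v ∘ eY = gen I := hvYf
    rw [h1]
  have hevY : ∀ (y : Fin (Fintype.card (J × E₂) + n + 1) → ℂ) (g : MvPolynomial (Fin (n + 1)) ℂ),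
      eval y (rename eY g) = eval (fun i => y (eY i)) g := by
    intro y g
    rw [eval_rename]
    rfl
  have hZI : ∀ y ∈ ZF (eqs v wt), ∀ g ∈ I, eval (fun i => y (eY i)) g = 0 := by
    intro y hy g hg
    rw [← hevY]
    apply eval_eq_zero_of_mem hAuto hy
    rw [hrenY, aeval_gen_eq_zero]
    exact hg
  -- integral equations
  have hinteq : ∀ i, ∃ (r : ℕ) (c : ℕ → MvPolynomial (Fin (n + 1)) ℂ), 0 < r ∧
      ∀ y ∈ ZF (eqs v wt),
        y i ^ r + ∑ k ∈ Finset.range r, eval (fun i => y (eY i)) (c k) * y i ^ k = 0 := by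
    intro i
    obtain ⟨r, c, hr, hrc⟩ := exists_integral_eq (hvint i)
    refine ⟨r, c, hr, ?_⟩
    intro y hy
    have h1 : aeval v (X i ^ r + ∑ k ∈ Finset.range r, rename eY (c k) * X i ^ k) = 0 := by
      rw [map_add, map_pow, aeval_X, map_sum, ← hrc]
      congr 1
      refine Finset.sum_congr rfl fun k _ => ?_
      rw [map_mul, map_pow, aeval_X, hrenY]
    have h2 := eval_eq_zero_of_mem hAuto hy h1
    rw [map_add, map_pow, eval_X, map_sum] at h2
    rw [← h2]
    congr 1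
    refine Finset.sum_congr rfl fun k _ => ?_
    rw [map_mul, map_pow, eval_X, hevY]
  have hwF : ∀ f ∈ eqs v wt, ∃ e, IsWeightedHomogeneous wt f e := fun f hf => hf.2
  have hnY : ∀ y ∈ ZF (eqs v wt), n1 wt y ≠ 0 → (fun i => y (eY i)) ≠ 0 := by
    intro y hy hy1 h0
    apply hy1
    have h1 : (fun i : {i // wt i = 1} => y i) = 0 := by
      funext ⟨i, hi⟩
      rw [Pi.zero_apply]
      rcases hcases i with ⟨q, rfl⟩ | ⟨k, rfl⟩
      · by_contra hne
        obtain ⟨r, c, hr, hrc⟩ := hinteq (eU (Sum.inl q))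
        obtain ⟨C₀, hC₀⟩ : ∃ C₀ : ℝ, C₀ = 1 + ∑ k ∈ Finset.range r,
          ‖eval (0 : Fin (n + 1) → ℂ) (c k)‖ := ⟨_, rfl⟩
        have hC1 : 1 ≤ C₀ := by
          rw [hC₀]
          have : 0 ≤ ∑ k ∈ Finset.range r, ‖eval (0 : Fin (n + 1) → ℂ) (c k)‖ :=
            Finset.sum_nonneg fun _ _ => norm_nonneg _
          linarith
        have hCk : ∀ k, k < r → ‖eval (0 : Fin (n + 1) → ℂ) (c k)‖ ≤ C₀ := by
          intro k hk
          rw [hC₀]
          have := Finset.single_le_sum (f := fun k => ‖eval (0 : Fin (n + 1) → ℂ) (c k)‖)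
            (fun _ _ => norm_nonneg _) (Finset.mem_range.mpr hk)
          linarith
        have hall : ∀ l : ℂ, ‖l * y (eU (Sum.inl q))‖ ≤ r * C₀ := by
          intro l
          have h2 := hrc _ (sc_mem_ZF hwF (l := l) hy)
          have h3 : (fun i => sc wt l y (eY i)) = 0 := by
            funext i
            rw [sc, congrFun h0 i, Pi.zero_apply, mul_zero]
          have h4 : sc wt l y (eU (Sum.inl q)) = l * y (eU (Sum.inl q)) := by
            rw [sc, hi, pow_one]
          rw [h3, h4] at h2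
          exact root_bound hr hC1 hCk h2
        have h5 := hall (((r * C₀ + 1 : ℝ) : ℂ) / y (eU (Sum.inl q)))
        rw [div_mul_cancel₀ _ hne, Complex.norm_real, Real.norm_eq_abs] at h5
        have h6 := le_abs_self (r * C₀ + 1)
        linarith
      · exact congrFun h0 k
    rw [n1, h1, norm_zero]
  have hNZ : ∀ y ∈ ZF (eqs v wt), n1 wt y ≠ 0 → sp y F ≠ 0 := by
    intro y hy hy1 h0
    apply hnz (fun i => y (eY i)) (hZI y hy) (hnY y hy hy1)
    have h1 := hρsp y
    rw [h0, map_zero, sp_eq_zero_of_mem hhomY₂ hspv₂ hy, zero_add] at h1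
    exact h1.symm
  have hBD : ∃ K₀ : ℝ, ∀ y ∈ ZF (eqs v wt), n1 wt y = 1 → ‖y‖ ≤ K₀ := by
    have h1 : ∀ i, ∃ K : ℝ, 0 ≤ K ∧ ∀ y ∈ ZF (eqs v wt), n1 wt y = 1 → ‖y i‖ ≤ K := by
      intro i
      obtain ⟨r, c, hr, hrc⟩ := hinteq i
      have h2 : ∀ k, ∃ Ck : ℝ, 0 ≤ Ck ∧ ∀ z : Fin (n + 1) → ℂ, ‖z‖ ≤ 1 → ‖eval z (c k)‖ ≤ Ck := by
        intro k
        have hcont : Continuous fun z : Fin (n + 1) → ℂ => ‖eval z (c k)‖ :=
          (continuous_eval (c k)).norm
        obtain ⟨Ck, hCk⟩ := ((isCompact_closedBall (0 : Fin (n + 1) → ℂ) 1).image hcont).bddAbove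
        refine ⟨max Ck 0, le_max_right _ _, ?_⟩
        intro z hz
        exact (hCk ⟨z, by rwa [mem_closedBall_zero_iff], rfl⟩).trans (le_max_left _ _)
      choose Ck hCk0 hCk using h2
      obtain ⟨C₀, hC₀⟩ : ∃ C₀ : ℝ, C₀ = 1 + ∑ k ∈ Finset.range r, Ck k := ⟨_, rfl⟩
      have hC1 : 1 ≤ C₀ := by
        rw [hC₀]
        have : 0 ≤ ∑ k ∈ Finset.range r, Ck k := Finset.sum_nonneg fun _ _ => hCk0 _
        linarith
      refine ⟨r * C₀, by positivity, ?_⟩
      intro y hy hy1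
      apply root_bound hr hC1 _ (hrc y hy)
      intro k hk
      have h3 : ‖fun i => y (eY i)‖ ≤ 1 := by
        rw [pi_norm_le_iff_of_nonneg zero_le_one]
        intro i
        rw [← hy1]
        exact norm_le_n1 wt y (hwtY i)
      refine (hCk k _ h3).trans ?_
      rw [hC₀]
      have := Finset.single_le_sum (f := Ck) (fun _ _ => hCk0 _) (Finset.mem_range.mpr hk)
      linarith
    choose K hK0 hK using h1
    refine ⟨∑ i, K i, ?_⟩
    intro y hy hy1
    rw [pi_norm_le_iff_of_nonneg (Finset.sum_nonneg fun i _ => hK0 i)]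
    intro i
    exact (hK i y hy hy1).trans (Finset.single_le_sum (f := K) (fun i _ => hK0 i)
      (Finset.mem_univ i))
  -- the points
  obtain ⟨x', hx'⟩ : ∃ x' : J × (E₂ → Fin (b + 1)) → Fin (Fintype.card E₂ + t + 1) → ℂ,
    x' = fun q i => Sum.elim (fun m => ((q.2 m : ℕ) : ℂ)) (x q.1) (eT.symm i) := ⟨_, rfl⟩
  have hx'l : ∀ q m, x' q (eT (Sum.inl m)) = ((q.2 m : ℕ) : ℂ) := by
    intro q m
    rw [hx']
    simp
  have hx'r : ∀ q i, x' q (eT (Sum.inr i)) = x q.1 i := by
    intro q m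
    rw [hx']
    simp
  have hDVD : ∀ q : J × (E₂ → Fin (b + 1)), ∃ U, nx F (x' q) - rename eY (P q.1) * U ∈ eqs v wt := by
    intro q
    refine ⟨∑ m : E₂, C ((q.2 m : ℕ) : ℂ) * X (eU (Sum.inl (q.1, m))), ?_, a, ?_⟩
    · rw [map_sub, aeval_nx, hspv, map_mul, map_mul, hrenY, sub_eq_zero, eval_rename]
      have h1 : ((fun i => algebraMap ℂ (KK I) (x' q i)) ∘ fun i => eT (Sum.inr i)) =
          fun i => algebraMap ℂ (KK I) (x q.1 i) := by
        funext i
        rw [Function.comp_apply, hx'r]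
      rw [h1, map_sum, map_sum, Finset.mul_sum, Finset.mul_sum]
      refine Finset.sum_congr rfl fun m _ => ?_
      rw [map_mul, eval_C, eval_X, map_mul, aeval_C, aeval_X, hvU, hx'l, ← mul_assoc,
        hu2 _ (Finset.mem_univ _)]
      ring
    · apply IsWeightedHomogeneous.sub (nx_weighted hhomY _)
      have e1 : IsWeightedHomogeneous wt (rename eY (P q.1)) ed := by
        apply rename_isWeighted
        have h2 : (fun i => wt (eY i)) = 1 := by
          funext i
          exact hwtY i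
        rw [h2]
        exact hPh q.1
      have e2 : IsWeightedHomogeneous wt (∑ m : E₂, C ((q.2 m : ℕ) : ℂ) *
          (X (eU (Sum.inl (q.1, m))) :
            MvPolynomial (Fin (Fintype.card (J × E₂) + n + 1)) ℂ)) (a - ed) := by
        refine IsWeightedHomogeneous.sum _ _ _ fun m _ => ?_
        apply IsWeightedHomogeneous.C_mul
        have h2 := isWeightedHomogeneous_X ℂ wt (eU (Sum.inl (q.1, m)))
        rw [hwtU] at h2
        exact h2
      have h3 := e1.mul e2
      rwa [Nat.add_sub_cancel' ha] at h3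
  have hDENSE : ∀ g : MvPolynomial (Fin (Fintype.card E₂ + t + 1)) ℂ, g.IsHomogeneous b →
      (∀ q, eval (x' q) g = 0) → g = 0 := by
    intro g hg hv
    have h1 : rename eT.symm g = 0 := by
      apply dense_grid x hdense (hg.rename_isHomogeneous)
      intro j τ
      rw [eval_rename]
      have h2 := hv (j, τ)
      rw [hx'] at h2
      exact h2
    have h2 := congrArg (rename eT) h1
    rw [map_zero, rename_rename] at h2
    have h3 : (eT ∘ eT.symm : Fin (Fintype.card E₂ + t + 1) → _) = id := by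
      funext i
      simp
    rw [h3, rename_id] at h2
    exact h2
  refine ⟨Fintype.card (J × E₂) + n, Fintype.card E₂ + t, D₁ + 1, wt, eY, v,
    J × (E₂ → Fin (b + 1)), inferInstance, fun q => q.1, x', F, Nat.le_add_left _ _, by omega,
    by omega, hwtY, hvY, hvint, hAuto, ⟨hwF, hhomY, hhomT, hNZ, hDVD, hDENSE, hBD⟩, hspv0, hsqf⟩

end Pool.Agent.Lib.GGL
end

section

/-!
Lifting curves to a finite birational modification of the cone.
-/

open MvPolynomial Module Filter Topology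

namespace Pool.Agent.Lib.GGL

section comp

variable {n N : ℕ} {wt : Fin (N + 1) → ℕ} {eY : Fin (n + 1) → Fin (N + 1)}

lemma whc_rename_mul (hwt : ∀ i, wt (eY i) = 1) (c : MvPolynomial (Fin (n + 1)) ℂ)
    {Q : MvPolynomial (Fin (N + 1)) ℂ} {w : ℕ} (hQ : IsWeightedHomogeneous wt Q w) (k : ℕ) :
    weightedHomogeneousComponent wt (k + w) (rename eY c * Q) =
      rename eY (homogeneousComponent k c) * Q := by
  classical
  have hterm : ∀ j, IsWeightedHomogeneous wt (rename eY (homogeneousComponent j c) * Q)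
      (j + w) := by
    intro j
    apply IsWeightedHomogeneous.mul _ hQ
    apply rename_isWeighted
    have h2 : (fun i => wt (eY i)) = 1 := by
      funext i
      exact hwt i
    rw [h2]
    exact homogeneousComponent_isHomogeneous j c
  have h1 : rename eY c * Q = ∑ j ∈ Finset.range (c.totalDegree + 1),
      rename eY (homogeneousComponent j c) * Q := by
    rw [← Finset.sum_mul, ← map_sum, sum_homogeneousComponent]
  rw [h1, map_sum]
  by_cases hk : k ∈ Finset.range (c.totalDegree + 1)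
  · rw [Finset.sum_eq_single k]
    · exact (hterm k).weightedHomogeneousComponent_same
    · intro j _ hj
      apply (hterm j).weightedHomogeneousComponent_ne
      omega
    · intro h
      exact absurd hk h
  · have h2 : homogeneousComponent k c = 0 := by
      apply homogeneousComponent_eq_zero
      rw [Finset.mem_range] at hk
      omega
    rw [h2, map_zero, zero_mul]
    apply Finset.sum_eq_zero
    intro j hj
    apply (hterm j).weightedHomogeneousComponent_ne
    intro h3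
    have : j = k := by omega
    rw [this] at hj
    exact hk hj

variable {I : Ideal (MvPolynomial (Fin (n + 1)) ℂ)} [I.IsPrime] {v : Fin (N + 1) → KK I}

/-- homogeneous denominators -/
lemma exists_denom (hwt : ∀ i, wt (eY i) = 1)
    (hv : ∀ i, v (eY i) = gen I i) (hA : Auto v wt) (i : Fin (N + 1)) :
    ∃ (e : ℕ) (c A : MvPolynomial (Fin (n + 1)) ℂ), c.IsHomogeneous e ∧
      A.IsHomogeneous (e + wt i) ∧ c ∉ I ∧ aeval (gen I) c * v i = aeval (gen I) A := by
  obtain ⟨x, y, hy, hxy⟩ := IsFractionRing.div_surjective (MvPolynomial (Fin (n + 1)) ℂ ⧸ I) (v i)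
  obtain ⟨A₀, rfl⟩ := Ideal.Quotient.mk_surjective x
  obtain ⟨c₀, rfl⟩ := Ideal.Quotient.mk_surjective y
  rw [← aeval_gen, ← aeval_gen] at hxy
  have hc₀ : c₀ ∉ I := by
    intro h
    have h1 : Ideal.Quotient.mk I c₀ = 0 := Ideal.Quotient.eq_zero_iff_mem.mpr h
    rw [h1] at hy
    exact nonZeroDivisors.ne_zero hy rfl
  have hc₀' : aeval (gen I) c₀ ≠ 0 := by
    rw [Ne, aeval_gen_eq_zero]
    exact hc₀
  have hvf : v ∘ eY = gen I := funext hv
  have hren : ∀ g : MvPolynomial (Fin (n + 1)) ℂ, aeval v (rename eY g) = aeval (gen I) g := by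
    intro g
    rw [aeval_rename, hvf]
  have h0 : aeval v (rename eY c₀ * X i - rename eY A₀ * 1) = 0 := by
    rw [map_sub, map_mul, map_mul, hren, hren, aeval_X, map_one, mul_one, ← hxy,
      mul_div_cancel₀ _ hc₀', sub_self]
  obtain ⟨k, hk⟩ : ∃ k, homogeneousComponent k c₀ ∉ I := by
    by_contra hcon
    push Not at hcon
    apply hc₀
    rw [← sum_homogeneousComponent c₀]
    exact Ideal.sum_mem _ fun k _ => hcon k
  refine ⟨k, homogeneousComponent k c₀, homogeneousComponent (k + wt i) A₀,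
    homogeneousComponent_isHomogeneous _ _, homogeneousComponent_isHomogeneous _ _, hk, ?_⟩
  have h1 := aeval_component_eq_zero hA h0 (k + wt i)
  have h2 := whc_rename_mul hwt c₀ (isWeightedHomogeneous_X ℂ wt i) k
  have h3 := whc_rename_mul hwt A₀ (isWeightedHomogeneous_one ℂ wt) (k + wt i)
  rw [add_zero] at h3
  rw [map_sub, h2, h3, map_sub, map_mul, map_mul, hren, hren, aeval_X, map_one, mul_one,
    sub_eq_zero] at h1
  exact h1

/-- clearing denominators -/
lemma exists_clear (c A : Fin (N + 1) → MvPolynomial (Fin (n + 1)) ℂ)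
    (R : MvPolynomial (Fin (N + 1)) ℂ) :
    ∃ (M : ℕ) (R' : MvPolynomial (Fin (n + 1)) ℂ), ∀ (B : Type) [CommRing B] [Algebra ℂ B]
      (y : Fin (n + 1) → B) (w : Fin (N + 1) → B), (∀ i, aeval y (c i) * w i = aeval y (A i)) →
        (∏ i, aeval y (c i)) ^ M * aeval w R = aeval y R' := by
  classical
  induction R using MvPolynomial.induction_on with
  | C r =>
    refine ⟨0, C r, ?_⟩
    intro B _ _ y w _
    rw [pow_zero, one_mul, aeval_C, aeval_C]
  | add p q hp hq =>
    obtain ⟨M₁, R₁, h1⟩ := hp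
    obtain ⟨M₂, R₂, h2⟩ := hq
    refine ⟨M₁ + M₂, (∏ i, c i) ^ M₂ * R₁ + (∏ i, c i) ^ M₁ * R₂, ?_⟩
    intro B _ _ y w hw
    rw [map_add, map_add, map_mul, map_mul, map_pow, map_pow, map_prod, ← h1 B y w hw,
      ← h2 B y w hw, pow_add]
    ring
  | mul_X p i hp =>
    obtain ⟨M, R₁, h1⟩ := hp
    refine ⟨M + 1, R₁ * (∏ j ∈ Finset.univ.erase i, c j) * A i, ?_⟩
    intro B _ _ y w hw
    rw [map_mul, map_mul, map_mul, aeval_X, map_prod, ← h1 B y w hw, ← hw i, pow_succ,
      ← Finset.mul_prod_erase Finset.univ (fun j => aeval y (c j)) (Finset.mem_univ i)]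
    ring

end comp

section ext

/-- a bounded quotient of analytic functions extends -/
lemma exists_ext {A c : ℂ → ℂ} {z₁ : ℂ} (hA : AnalyticAt ℂ A z₁) (hc : AnalyticAt ℂ c z₁)
    (hc0 : ¬ ∀ᶠ z in 𝓝 z₁, c z = 0) (C : ℝ) (hb : ∀ᶠ z in 𝓝[≠] z₁, ‖A z‖ ≤ C * ‖c z‖) :
    ∃ u : ℂ → ℂ, AnalyticAt ℂ u z₁ ∧ ∀ᶠ z in 𝓝 z₁, c z * u z = A z := by
  by_cases hA0 : ∀ᶠ z in 𝓝 z₁, A z = 0
  · refine ⟨fun _ => 0, analyticAt_const, ?_⟩
    filter_upwards [hA0] with z hz
    rw [hz, mul_zero]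
  obtain ⟨j, A', hA'an, hA'0, hA'⟩ := hA.exists_eventuallyEq_pow_smul_nonzero_iff.mpr hA0
  obtain ⟨k, c', hc'an, hc'0, hc'⟩ := hc.exists_eventuallyEq_pow_smul_nonzero_iff.mpr hc0
  have hjk : k ≤ j := by
    by_contra hcon
    push Not at hcon
    have h1 : ∀ᶠ z in 𝓝[≠] z₁, ‖A' z‖ ≤ C * (‖z - z₁‖ ^ (k - j) * ‖c' z‖) := by
      filter_upwards [hb, hA'.filter_mono nhdsWithin_le_nhds,
        hc'.filter_mono nhdsWithin_le_nhds, self_mem_nhdsWithin] with z h1 h2 h3 h4
      have hz : 0 < ‖z - z₁‖ := norm_pos_iff.mpr (sub_ne_zero.mpr h4)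
      rw [h2, h3, smul_eq_mul, smul_eq_mul, norm_mul, norm_mul, norm_pow, norm_pow] at h1
      have h5 : ‖z - z₁‖ ^ k = ‖z - z₁‖ ^ j * ‖z - z₁‖ ^ (k - j) := by
        rw [← pow_add]
        congr 1
        omega
      rw [h5] at h1
      have h6 : 0 < ‖z - z₁‖ ^ j := by positivity
      have h7 : ‖z - z₁‖ ^ j * ‖A' z‖ ≤ ‖z - z₁‖ ^ j * (C * (‖z - z₁‖ ^ (k - j) * ‖c' z‖)) := by
        calc _ ≤ _ := h1
          _ = _ := by ring
      exact le_of_mul_le_mul_left h7 h6
    have h2 : Tendsto (fun z => ‖A' z‖) (𝓝[≠] z₁) (𝓝 ‖A' z₁‖) :=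
      (hA'an.continuousAt.norm.tendsto).mono_left nhdsWithin_le_nhds
    have h3 : Tendsto (fun z => C * (‖z - z₁‖ ^ (k - j) * ‖c' z‖)) (𝓝[≠] z₁)
        (𝓝 (C * (‖z₁ - z₁‖ ^ (k - j) * ‖c' z₁‖))) := by
      have h4 : ContinuousAt (fun z => C * (‖z - z₁‖ ^ (k - j) * ‖c' z‖)) z₁ := by
        have h5 := hc'an.continuousAt
        fun_prop
      exact h4.tendsto.mono_left nhdsWithin_le_nhds
    have h4 := le_of_tendsto_of_tendsto h2 h3 h1
    rw [sub_self, norm_zero, zero_pow (by omega), zero_mul, mul_zero] at h4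
    exact hA'0 (norm_eq_zero.mp (le_antisymm h4 (norm_nonneg _)))
  refine ⟨fun z => (z - z₁) ^ (j - k) * A' z / c' z, ?_, ?_⟩
  · exact (((analyticAt_id.sub analyticAt_const).pow _).mul hA'an).div hc'an hc'0
  · filter_upwards [hA', hc', hc'an.continuousAt.eventually_ne hc'0] with z h1 h2 h3
    rw [h1, h2, smul_eq_mul, smul_eq_mul]
    have h5 : (z - z₁) ^ j = (z - z₁) ^ k * (z - z₁) ^ (j - k) := by
      rw [← pow_add]
      congr 1
      omega
    rw [h5]
    field_simp

end ext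

end Pool.Agent.Lib.GGL
end
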