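import Mathlib
import Pool.Agent.Lib.MP_8d161d_ag.Mg.G027
import Pool.Agent.Lib.MP_8d161d_ag.Mg.G021
import Pool.Agent.Lib.MP_8d161d_ag.Mg.G023

section

/-!
Lifting curves to a finite birational modification of the cone: the lift.
-/

open MvPolynomial Module Filter Topology

namespace Pool.Agent.Lib.GGL

/-- homogeneous denominators of a point -/
structure Denom {n N : ℕ} (I : Ideal (MvPolynomial (Fin (n + 1)) ℂ)) [I.IsPrime]
    (wt : Fin (N + 1) → ℕ) (v : Fin (N + 1) → KK I) (e : Fin (N + 1) → ℕ)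
    (c A : Fin (N + 1) → MvPolynomial (Fin (n + 1)) ℂ) : Prop where
  homc : ∀ i, (c i).IsHomogeneous (e i)
  homA : ∀ i, (A i).IsHomogeneous (e i + wt i)
  notMem : ∀ i, c i ∉ I
  eq : ∀ i, aeval (gen I) (c i) * v i = aeval (gen I) (A i)

section

variable {n N : ℕ} {wt : Fin (N + 1) → ℕ} {eY : Fin (n + 1) → Fin (N + 1)}
  {I : Ideal (MvPolynomial (Fin (n + 1)) ℂ)} [I.IsPrime] {v : Fin (N + 1) → KK I}
  {e : Fin (N + 1) → ℕ} {c A : Fin (N + 1) → MvPolynomial (Fin (n + 1)) ℂ}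

lemma Denom.prod_ne_zero (h : Denom I wt v e c A) : ∏ i, aeval (gen I) (c i) ≠ 0 := by
  rw [Finset.prod_ne_zero_iff]
  intro i _
  rw [Ne, aeval_gen_eq_zero]
  exact h.notMem i

lemma Denom.mem_ZF (h : Denom I wt v e c A) {y : Fin (n + 1) → ℂ} {w : Fin (N + 1) → ℂ}
    (hy : ∀ g ∈ I, eval y g = 0) (hc : ∀ i, eval y (c i) ≠ 0)
    (hw : ∀ i, eval y (c i) * w i = eval y (A i)) : w ∈ ZF (eqs v wt) := by
  rintro f ⟨hf, -⟩
  obtain ⟨M, f', hf'⟩ := exists_clear c A f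
  have h1 := hf' (KK I) (gen I) v h.eq
  rw [hf, mul_zero] at h1
  have h2 : f' ∈ I := (aeval_gen_eq_zero I).mp h1.symm
  have h3 := hf' ℂ y w (by
    intro i
    rw [aeval_complex, aeval_complex]
    exact hw i)
  rw [aeval_complex, aeval_complex, hy f' h2] at h3
  rcases mul_eq_zero.mp h3 with h4 | h4
  · exfalso
    apply pow_ne_zero _ _ h4
    rw [Finset.prod_ne_zero_iff]
    intro i _
    rw [aeval_complex]
    exact hc i
  · exact h4

/-- transfer of a polynomial to the base -/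
lemma Denom.exists_transfer (h : Denom I wt v e c A) {Δ : MvPolynomial (Fin (N + 1)) ℂ}
    (hΔ : aeval v Δ ≠ 0) : ∃ Δ' : MvPolynomial (Fin (n + 1)) ℂ, Δ' ∉ I ∧
      ∀ (y : Fin (n + 1) → ℂ) (w : Fin (N + 1) → ℂ),
        (∀ i, eval y (c i) * w i = eval y (A i)) → eval y Δ' ≠ 0 → eval w Δ ≠ 0 := by
  obtain ⟨M, f', hf'⟩ := exists_clear c A Δ
  refine ⟨f', ?_, ?_⟩
  · intro h1
    have h2 := hf' (KK I) (gen I) v h.eq
    rw [(aeval_gen_eq_zero I).mpr h1] at h2
    exact mul_ne_zero (pow_ne_zero _ h.prod_ne_zero) hΔ h2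
  · intro y w hw h1 h2
    apply h1
    have h3 := hf' ℂ y w (by
      intro i
      rw [aeval_complex, aeval_complex]
      exact hw i)
    rw [aeval_complex, aeval_complex, h2, mul_zero] at h3
    exact h3.symm

lemma Denom.coord (h : Denom I wt v e c A) (hv : ∀ i, v (eY i) = gen I i)
    {y : Fin (n + 1) → ℂ} {w : Fin (N + 1) → ℂ}
    (hy : ∀ g ∈ I, eval y g = 0) {k : Fin (n + 1)} (hc : eval y (c (eY k)) ≠ 0)
    (hw : eval y (c (eY k)) * w (eY k) = eval y (A (eY k))) : w (eY k) = y k := by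
  have h1 : c (eY k) * X k - A (eY k) ∈ I := by
    rw [← aeval_gen_eq_zero, map_sub, map_mul, aeval_X, ← h.eq (eY k), hv, sub_self]
  have h2 := hy _ h1
  rw [map_sub, map_mul, eval_X, sub_eq_zero] at h2
  rw [← hw] at h2
  exact (mul_left_cancel₀ hc h2).symm

/-- the lift of a family of local lifts -/
theorem Denom.exists_lift (h : Denom I wt v e c A) (hwt : ∀ i, wt (eY i) = 1)
    (hv : ∀ i, v (eY i) = gen I i) (hA : Auto v wt)
    (hint : ∀ i, IsIntegral (MvPolynomial (Fin (n + 1)) ℂ ⧸ I) (v i))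
    {Y : ℂ → ℂ → Fin (n + 1) → ℂ} (hY : LiftFamily Y)
    (hYI : ∀ z₁, ∀ᶠ z in 𝓝 z₁, ∀ g ∈ I, eval (Y z₁ z) g = 0)
    (hYc : ∀ i z₁, ¬ ∀ᶠ z in 𝓝 z₁, eval (Y z₁ z) (c i) = 0) :
    ∃ Y' : ℂ → ℂ → Fin (N + 1) → ℂ, WLift wt Y' ∧
      (∀ z₁, ∀ᶠ z in 𝓝 z₁, Y' z₁ z ∈ ZF (eqs v wt)) ∧
      (∀ z₁, ∀ᶠ z in 𝓝 z₁, ∀ k, Y' z₁ z (eY k) = Y z₁ z k) ∧
      ∀ z₁, ∀ᶠ z in 𝓝 z₁, ∀ i, eval (Y z₁ z) (c i) * Y' z₁ z i = eval (Y z₁ z) (A i) := by
  classical
  obtain ⟨hYan, hY0, hYl⟩ := hY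
  have hevan : ∀ (P : MvPolynomial (Fin (n + 1)) ℂ) z₁,
      AnalyticAt ℂ (fun z => eval (Y z₁ z) P) z₁ := fun P z₁ => analyticAt_eval (hYan z₁) P
  have hne : ∀ z₁, ∀ᶠ z in 𝓝[≠] z₁, ∀ i, eval (Y z₁ z) (c i) ≠ 0 := by
    intro z₁
    rw [eventually_all]
    intro i
    rcases (hevan (c i) z₁).eventually_eq_zero_or_eventually_ne_zero with h1 | h1
    · exact absurd h1 (hYc i z₁)
    · exact h1
  have hren : ∀ g : MvPolynomial (Fin (n + 1)) ℂ, aeval v (rename eY g) = aeval (gen I) g := by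
    intro g
    have hvf : v ∘ eY = gen I := funext hv
    rw [aeval_rename, hvf]
  -- the quotients lie on the cone
  have hmem : ∀ z₁, ∀ᶠ z in 𝓝[≠] z₁,
      (fun i => eval (Y z₁ z) (A i) / eval (Y z₁ z) (c i)) ∈ ZF (eqs v wt) := by
    intro z₁
    filter_upwards [hne z₁, (hYI z₁).filter_mono nhdsWithin_le_nhds] with z h1 h2
    exact h.mem_ZF h2 h1 fun i => mul_div_cancel₀ _ (h1 i)
  -- the quotients are bounded
  have hbd : ∀ z₁ i, ∃ C : ℝ, ∀ᶠ z in 𝓝[≠] z₁,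
      ‖eval (Y z₁ z) (A i)‖ ≤ C * ‖eval (Y z₁ z) (c i)‖ := by
    intro z₁ i
    obtain ⟨r, q, hr, hq⟩ := exists_integral_eq (hint i)
    obtain ⟨C₀, hC₀⟩ : ∃ C₀ : ℝ, C₀ = 1 + ∑ k ∈ Finset.range r,
      (‖eval (Y z₁ z₁) (q k)‖ + 1) := ⟨_, rfl⟩
    have hpos : ∀ k ∈ Finset.range r, 0 ≤ ‖eval (Y z₁ z₁) (q k)‖ + 1 :=
      fun k _ => by positivity
    have hC1 : 1 ≤ C₀ := by
      rw [hC₀]
      have := Finset.sum_nonneg hpos
      linarith
    have hk : ∀ k ∈ Finset.range r, ∀ᶠ z in 𝓝 z₁, ‖eval (Y z₁ z) (q k)‖ ≤ C₀ := by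
      intro k hk
      have h1 : ContinuousAt (fun z => ‖eval (Y z₁ z) (q k)‖) z₁ :=
        (hevan (q k) z₁).continuousAt.norm
      have h2 : ‖eval (Y z₁ z₁) (q k)‖ < ‖eval (Y z₁ z₁) (q k)‖ + 1 := by linarith
      filter_upwards [h1.eventually_lt_const h2] with z hz
      have h3 := Finset.single_le_sum hpos hk
      rw [hC₀]
      linarith
    rw [← Filter.eventually_all_finset] at hk
    refine ⟨r * C₀, ?_⟩
    filter_upwards [hne z₁, hmem z₁, hk.filter_mono nhdsWithin_le_nhds,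
      (hYI z₁).filter_mono nhdsWithin_le_nhds] with z h1 h2 h3 h4
    have h5 : aeval v (X i ^ r + ∑ k ∈ Finset.range r, rename eY (q k) * X i ^ k) = 0 := by
      rw [map_add, map_pow, aeval_X, map_sum, ← hq]
      congr 1
      refine Finset.sum_congr rfl fun k _ => ?_
      rw [map_mul, map_pow, aeval_X, hren]
    have h6 := eval_eq_zero_of_mem hA h2 h5
    rw [map_add, map_pow, eval_X, map_sum] at h6
    have h7 : ∀ k, eval (fun i => eval (Y z₁ z) (A i) / eval (Y z₁ z) (c i))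
        (rename eY (q k) * X i ^ k) = eval (Y z₁ z) (q k) *
          (eval (Y z₁ z) (A i) / eval (Y z₁ z) (c i)) ^ k := by
      intro k
      rw [map_mul, map_pow, eval_X, eval_rename]
      congr 2
      congr 1
      funext k
      exact h.coord (w := fun i => eval (Y z₁ z) (A i) / eval (Y z₁ z) (c i)) hv h4 (h1 _)
        (mul_div_cancel₀ _ (h1 _))
    rw [Finset.sum_congr rfl fun k _ => h7 k] at h6
    have h8 := root_bound hr hC1 (fun k hk => h3 k (Finset.mem_range.mpr hk)) h6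
    rw [norm_div, div_le_iff₀ (norm_pos_iff.mpr (h1 i))] at h8
    exact h8
  have hext : ∀ z₁ i, ∃ u : ℂ → ℂ, AnalyticAt ℂ u z₁ ∧
      ∀ᶠ z in 𝓝 z₁, eval (Y z₁ z) (c i) * u z = eval (Y z₁ z) (A i) := by
    intro z₁ i
    obtain ⟨C, hC⟩ := hbd z₁ i
    exact exists_ext (hevan (A i) z₁) (hevan (c i) z₁) (hYc i z₁) C hC
  choose u huan hueq using hext
  have hu : ∀ z₁, ∀ᶠ z in 𝓝 z₁, ∀ i, eval (Y z₁ z) (c i) * u z₁ i z = eval (Y z₁ z) (A i) := by
    intro z₁
    rw [eventually_all]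
    exact fun i => hueq z₁ i
  have hY'an : ∀ z₁, AnalyticAt ℂ (fun z i => u z₁ i z) z₁ := by
    intro z₁
    rw [analyticAt_pi_iff]
    exact fun i => huan z₁ i
  -- extension over the centre
  have hext' : ∀ (z₁ : ℂ) (S : Set (Fin (N + 1) → ℂ)), IsClosed S →
      (∀ᶠ z in 𝓝[≠] z₁, (fun i => u z₁ i z) ∈ S) → ∀ᶠ z in 𝓝 z₁, (fun i => u z₁ i z) ∈ S := by
    intro z₁ S hS h1
    have h2 : (fun i => u z₁ i z₁) ∈ S := by
      apply hS.mem_of_tendsto _ h1
      exact (hY'an z₁).continuousAt.tendsto.mono_left nhdsWithin_le_nhds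
    rw [eventually_nhdsWithin_iff] at h1
    filter_upwards [h1] with z hz
    rcases eq_or_ne z z₁ with rfl | hne
    · exact h2
    · exact hz hne
  have hZF : ∀ z₁, ∀ᶠ z in 𝓝 z₁, (fun i => u z₁ i z) ∈ ZF (eqs v wt) := by
    intro z₁
    apply hext' z₁ _ isClosed_ZF
    filter_upwards [hne z₁, (hYI z₁).filter_mono nhdsWithin_le_nhds,
      (hu z₁).filter_mono nhdsWithin_le_nhds] with z h1 h2 h3
    exact h.mem_ZF h2 h1 h3
  have hcoord : ∀ z₁, ∀ᶠ z in 𝓝 z₁, ∀ k, u z₁ (eY k) z = Y z₁ z k := by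
    intro z₁
    rw [eventually_all]
    intro k
    have h1 : AnalyticAt ℂ (fun z => u z₁ (eY k) z - Y z₁ z k) z₁ :=
      (huan z₁ (eY k)).sub ((analyticAt_pi_iff.mp (hYan z₁)) k)
    rcases h1.eventually_eq_zero_or_eventually_ne_zero with h2 | h2
    · filter_upwards [h2] with z hz
      exact sub_eq_zero.mp hz
    · exfalso
      obtain ⟨z, g1, g2, g3, g4⟩ := (h2.and ((hne z₁).and
        (((hYI z₁).filter_mono nhdsWithin_le_nhds).and
          ((hu z₁).filter_mono nhdsWithin_le_nhds)))).exists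
      apply g1
      rw [sub_eq_zero]
      exact h.coord (w := fun i => u z₁ i z) hv g3 (g2 _) (g4 _)
  refine ⟨fun z₁ z i => u z₁ i z, ⟨hY'an, ?_, ?_⟩, hZF, hcoord, hu⟩
  · intro z₁ h0
    apply hY0 z₁
    funext k
    have h1 := norm_le_n1 wt (fun i => u z₁ i z₁) (hwt k)
    rw [h0, (hcoord z₁).self_of_nhds k] at h1
    rw [Pi.zero_apply]
    exact norm_le_zero_iff.mp h1
  · intro z₁
    filter_upwards [hYl z₁, (hu z₁).eventually_nhds, (hY'an z₁).eventually_analyticAt,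
      (hYan z₁).eventually_analyticAt] with z ⟨l, hl1, hl2, hl3⟩ h2 h3 h4
    refine ⟨l, hl1, hl2, ?_⟩
    have h5 : ∀ i, ∀ᶠ w in 𝓝 z, u z i w = l w ^ wt i * u z₁ i w := by
      intro i
      have h6 : AnalyticAt ℂ (fun w => u z i w - l w ^ wt i * u z₁ i w) z :=
        (huan z i).sub ((hl1.pow _).mul ((analyticAt_pi_iff.mp h3) i))
      rcases h6.eventually_eq_zero_or_eventually_ne_zero with h7 | h7
      · filter_upwards [h7] with w hw
        exact sub_eq_zero.mp hw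
      · exfalso
        obtain ⟨w, g1, g2, g3, g4, g5, g6⟩ := (h7.and ((hne z).and
          ((h2.filter_mono nhdsWithin_le_nhds).and
            (((hu z).filter_mono nhdsWithin_le_nhds).and
              ((hl3.filter_mono nhdsWithin_le_nhds).and
                ((hl1.continuousAt.eventually_ne hl2).filter_mono nhdsWithin_le_nhds)))))).exists
        apply g1
        rw [sub_eq_zero]
        have e1 := g4 i
        have e2 := g3 i
        have e3 := g2 i
        rw [g5, eval_smul_of_homogeneous (h.homc i)] at e3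
        rw [g5, eval_smul_of_homogeneous (h.homc i), eval_smul_of_homogeneous (h.homA i), ← e2]
          at e1
        apply mul_left_cancel₀ e3
        rw [e1, pow_add]
        ring
    filter_upwards [eventually_all.mpr h5] with w hw
    funext i
    exact hw i

end

end Pool.Agent.Lib.GGL
end

section

/-!
The exceptional hypersurface of a family of forms on a projective variety: one degree.
-/

open MvPolynomial Module Filter Topology

namespace Pool.Agent.Lib.GGL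

/-- The exceptional hypersurface, forms of one degree having zeros. -/
theorem family_base {n m N₀ ed : ℕ} (hed : 0 < ed) {vv : Fin (m + 1) → MvPolynomial (Fin (n + 1)) ℂ}
    (hvv : ∀ i, (vv i).IsHomogeneous ed) {I : Ideal (MvPolynomial (Fin (n + 1)) ℂ)} [I.IsPrime]
    (hI : HomIdeal I) {ι : Type} [Fintype ι] [DecidableEq ι]
    {P : ι → MvPolynomial (Fin (n + 1)) ℂ} (q : ι → Fin (m + 1) → ℂ)
    (hPq : ∀ j, P j = ∑ i, C (q j i) * vv i) (hPI : ∀ j, P j ∉ I) (hrad : ∀ j, RedOn I (P j))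
    (hgp : ∀ y : Fin (n + 1) → ℂ, y ≠ 0 → (∀ g ∈ I, eval y g = 0) →
      ∀ S : Finset ι, (∀ j ∈ S, eval y (P j) = 0) → S.card ≤ N₀)
    (hzero : ∀ j, ∃ y : Fin (n + 1) → ℂ, y ≠ 0 ∧ (∀ g ∈ I, eval y g = 0) ∧ eval y (P j) = 0)
    (hcard : numR m N₀ ≤ Fintype.card ι) :
    ∃ Δ₀ : MvPolynomial (Fin (n + 1)) ℂ, Δ₀ ∉ I ∧
      ∀ Y : ℂ → ℂ → Fin (n + 1) → ℂ, LiftFamily Y →
        (∀ z₁, ∀ᶠ z in 𝓝 z₁, ∀ g ∈ I, eval (Y z₁ z) g = 0) →
        (∀ j z₁, analyticOrderAt (fun z => eval (Y z₁ z) (P j)) z₁ = 0 ∨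
          (2 : ℕ∞) ≤ analyticOrderAt (fun z => eval (Y z₁ z) (P j)) z₁) →
        ∀ z₁, eval (Y z₁ z₁) Δ₀ ≠ 0 → ∀ z w, ∃ c : ℂ, c ≠ 0 ∧ Y z z = c • Y w w := by
  classical
  have hPh : ∀ j, (P j).IsHomogeneous ed := by
    intro j
    rw [hPq]
    exact IsHomogeneous.sum _ _ _ fun i _ => (hvv i).C_mul _
  have hP0 : ∀ j, P j ≠ 0 := by
    intro j h0
    apply hPI j
    rw [h0]
    exact I.zero_mem
  have hq0 : ∀ j, q j ≠ 0 := by
    intro j h0
    apply hP0 j
    rw [hPq, h0]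
    simp
  have hcl : ∀ j, ∀ S : Finset ι, (∀ j' ∈ S, ∃ c : ℂ, q j' = c • q j) → S.card ≤ N₀ := by
    intro j S hS
    obtain ⟨y, hy0, hyI, hyj⟩ := hzero j
    apply hgp y hy0 hyI S
    intro j' hj'
    obtain ⟨c, hc⟩ := hS j' hj'
    have h1 : P j' = C c * P j := by
      rw [hPq j', hPq j, hc, Finset.mul_sum]
      refine Finset.sum_congr rfl fun i _ => ?_
      rw [Pi.smul_apply, smul_eq_mul, C_mul, mul_assoc]
    rw [h1, map_mul, hyj, mul_zero]
  obtain ⟨J, t, x, N, δ, DY, D, ht1, htm, hδ, hDY, hD, hJ2, homY, homT, hnz, hdvdAt, hdense⟩ :=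
    exists_amb q hq0 hcl hcard
  have hJne : J.Nonempty := by
    rw [← Finset.card_pos]
    omega
  obtain ⟨j₀, hj₀⟩ := hJne
  obtain ⟨y₀, hy₀0, hy₀I, -⟩ := hzero j₀
  obtain ⟨N', hN'⟩ : ∃ N', N' = vsub vv N := ⟨_, rfl⟩
  have homY' : IsWeightedHomogeneous (wY n t) N' (ed * DY) := by
    rw [hN']
    exact vsub_homY hvv homY
  have homT' : IsWeightedHomogeneous (wT n t) N' D := by
    rw [hN']
    exact vsub_homT homT
  have hnz' : ∀ y : Fin (n + 1) → ℂ, (∀ g ∈ I, eval y g = 0) → y ≠ 0 → sp y N' ≠ 0 := by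
    intro y hyI hy0
    rw [hN', sp_vsub]
    apply hnz
    have h1 : (J.filter fun j => q j ⬝ᵥ (fun i => aeval y (vv i)) = 0).card ≤ N₀ := by
      apply hgp y hy0 hyI
      intro j hj
      rw [Finset.mem_filter] at hj
      rw [hPq, map_sum, ← hj.2, dotProduct]
      refine Finset.sum_congr rfl fun i _ => ?_
      rw [map_mul, eval_C, aeval_complex]
    omega
  have hdvd' : ∀ j : J, P j ∣ nx N' (x j) := by
    intro j
    rw [hN', hPq]
    exact vsub_dvd (hdvdAt j j.2)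
  have hN0 : sp (gen I) N' ≠ 0 := by
    intro h0
    apply hnz' y₀ hy₀I hy₀0
    apply MvPolynomial.funext
    intro x
    rw [map_zero, ← eval_nx]
    apply hy₀I
    rw [← aeval_gen_eq_zero, aeval_nx, h0, map_zero]
  have hdense' : ∀ b' ≤ phiR m δ, ∀ g : MvPolynomial (Fin (t + 1)) ℂ, g.IsHomogeneous b' →
      (∀ j : J, eval (x j) g = 0) → g = 0 := by
    intro b' hb' g hg hv
    have h1 : g * (X 0 : MvPolynomial (Fin (t + 1)) ℂ) ^ (phiR m δ - b') = 0 := by
      apply hdense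
      · have := hg.mul (isHomogeneous_X_pow (R := ℂ) (0 : Fin (t + 1)) (phiR m δ - b'))
        rwa [Nat.add_sub_cancel' hb'] at this
      · intro j hj
        rw [map_mul, hv ⟨j, hj⟩, zero_mul]
    exact (mul_eq_zero.mp h1).resolve_right (pow_ne_zero _ (X_ne_zero _))
  have hDphi : D ≤ phiR m δ := by
    rw [phiR]
    have := Nat.zero_le (4 * (δ + 1) * (δ * δ + 1) * TR m δ)
    omega
  have hDY1 : 1 ≤ DY := by
    by_contra hcon
    have h0 : DY = 0 := by omega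
    have h1 : ∀ j : J, nx N' (x j) = 0 := by
      intro j
      by_contra hne
      have h2 : (nx N' (x j)).IsHomogeneous 0 := by
        have h3 : IsWeightedHomogeneous (wU (1 : Fin (n + 1) → ℕ) t) N' 0 := by
          rw [h0, mul_zero] at homY'
          exact homY'
        exact nx_weighted h3 (x j)
      obtain ⟨U, hU⟩ := hdvd' j
      have hU0 : U ≠ 0 := by
        rintro rfl
        rw [mul_zero] at hU
        exact hne hU
      have h3 := h2.totalDegree hne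
      rw [hU, totalDegree_mul_of_isDomain (hP0 j) hU0, (hPh j).totalDegree (hP0 j)] at h3
      omega
    apply hnz' y₀ hy₀I hy₀0
    apply hdense' D hDphi _ (sp_isHomogeneous homT' y₀)
    intro j
    rw [← eval_nx, h1, map_zero]
  obtain ⟨N₁, t', D', wt, eY, v, ι', hι', pr, x', F, htt', ht'le, hD'le, hwtY, hvY, hvint, hAuto,
      hF, hF0, hFsq⟩ := exists_newN hI homY' homT' hN0 (Nat.le_mul_of_pos_right ed hDY1) hnz'
    (fun j : J => hPh j) (fun j => hPI j) (fun j => hrad j) hdvd' hdense' hDphi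
  -- denominators
  choose e c A hce hAe hcI hcA using exists_denom hwtY hvY hAuto
  have hden : Denom I wt v e c A := ⟨hce, hAe, hcI, hcA⟩
  -- the discriminant
  obtain ⟨Δ₁, hΔ₁, hΔ₁s⟩ := exists_discK hF.homT v hF0 hFsq
  obtain ⟨Δ₂, hΔ₂, hΔ₂s⟩ := hden.exists_transfer hΔ₁
  have hprod1 : ∏ i, c i ∉ I := by
    intro h
    rw [(inferInstance : I.IsPrime).prod_mem_iff] at h
    obtain ⟨i, -, hi⟩ := h
    exact hcI i hi
  have hprod2 : ∏ j ∈ J, P j ∉ I := by
    intro h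
    rw [(inferInstance : I.IsPrime).prod_mem_iff] at h
    obtain ⟨j, -, hj⟩ := h
    exact hPI j hj
  refine ⟨Δ₂ * (∏ i, c i) * ∏ j ∈ J, P j, ?_, ?_⟩
  · intro h
    rcases (inferInstance : I.IsPrime).mem_or_mem h with h1 | h1
    · rcases (inferInstance : I.IsPrime).mem_or_mem h1 with h2 | h2
      · exact hΔ₂ h2
      · exact hprod1 h2
    · exact hprod2 h1
  intro Y hY hYI hord z₁ hz₁ z w
  rw [map_mul, map_mul, map_prod, map_prod] at hz₁
  have hz₁P := right_ne_zero_of_mul hz₁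
  have hz₁c := right_ne_zero_of_mul (left_ne_zero_of_mul hz₁)
  have hz₁Δ := left_ne_zero_of_mul (left_ne_zero_of_mul hz₁)
  rw [Finset.prod_ne_zero_iff] at hz₁P hz₁c
  -- identity theorem for forms
  have hident : ∀ (Q : MvPolynomial (Fin (n + 1)) ℂ) (d : ℕ), Q.IsHomogeneous d →
      eval (Y z₁ z₁) Q ≠ 0 → ∀ z₂, ¬ ∀ᶠ z in 𝓝 z₂, eval (Y z₂ z) Q = 0 := by
    intro Q d hQ hQ0 z₂ h1
    have h2 := hY.identity (E := fun y => eval y Q) (by
      intro y _
      have h3 : AnalyticAt ℂ (fun y : Fin (n + 1) → ℂ => eval y Q) y := by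
        have h4 := hol_eval Q (y, (0 : Fin (n + 1) → ℂ)) (Set.mem_univ _)
        exact AnalyticAt.comp (g := fun q : (Fin (n + 1) → ℂ) × (Fin (n + 1) → ℂ) => eval q.1 Q)
          (f := fun y => (y, (0 : Fin (n + 1) → ℂ))) h4 (analyticAt_id.prod analyticAt_const)
      exact h3) (by
      intro y l hl
      rw [eval_smul_of_homogeneous hQ]
      constructor
      · intro h5
        exact (mul_eq_zero.mp h5).resolve_left (pow_ne_zero _ hl)
      · intro h5
        rw [h5, mul_zero]) h1 z₁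
    exact hQ0 h2.self_of_nhds
  have hYc : ∀ i z₂, ¬ ∀ᶠ z in 𝓝 z₂, eval (Y z₂ z) (c i) = 0 := fun i z₂ =>
    hident (c i) (e i) (hce i) (hz₁c i (Finset.mem_univ i)) z₂
  obtain ⟨Y', hY'W, hY'F, hY'Y, hY'c⟩ := hden.exists_lift hwtY hvY hAuto hvint hY hYI hYc
  have hevP : ∀ (Q : MvPolynomial (Fin (n + 1)) ℂ) z₂, (fun z => eval (Y' z₂ z) (rename eY Q)) =ᶠ[𝓝 z₂]
      fun z => eval (Y z₂ z) Q := by
    intro Q z₂
    filter_upwards [hY'Y z₂] with z hz
    rw [eval_rename]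
    congr 2
    funext k
    exact hz k
  have hPw : ∀ q, IsWeightedHomogeneous wt (rename eY (P (pr q))) ed := by
    intro q
    apply rename_isWeighted
    have h2 : (fun i => wt (eY i)) = 1 := by
      funext i
      exact hwtY i
    rw [h2]
    exact hPh _
  -- the parameters
  obtain ⟨k, hk⟩ : ∃ k, k = 4 * (δ + 1) * (δ * δ + 1) * TR m δ + (δ * δ + 1) := ⟨_, rfl⟩
  have hDm : D' ≤ δ * δ + 1 := by omega
  have ht'TR : t' ≤ TR m δ := by
    rw [TR]
    have h1 : (D + 1) ^ (t + 1) ≤ (δ * δ + 1) ^ (m + 1) := by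
      calc (D + 1) ^ (t + 1) ≤ (δ * δ + 1) ^ (t + 1) := Nat.pow_le_pow_left (by omega) _
        _ ≤ (δ * δ + 1) ^ (m + 1) := Nat.pow_le_pow_right (by omega) (by omega)
    omega
  obtain ⟨c', hc', hcc⟩ := curve_constW (k := k) hed hPw hF (by omega) (by omega)
    (by rw [hk, phiR]; omega)
    (by
      intro D'' h1 h2
      have h3 := numericR (DY := DY) (δ := δ) (k := k) ht'TR hDY hDm
        (by rw [hk]; exact Nat.le_add_right _ _) D'' h2
      have h4 := choose_lt_aux (t := t') (k := k) (by omega) h1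
      obtain ⟨E, hE⟩ := Nat.exists_eq_add_of_lt h4
      rw [hE] at h3 ⊢
      have h5 : (t' + k).choose k + E + 1 - (t' + k).choose k = E + 1 := by omega
      rw [h5] at h3 ⊢
      calc ed + 4 * (ed * DY) * (E + 1) = ed * (1 + 4 * DY * (E + 1)) := by ring
        _ < ed * ((t' + k).choose k + E + 1) := by
          apply Nat.mul_lt_mul_of_pos_left _ hed
          have h6 : 1 + 4 * DY * (E + 1) ≤ 4 * (DY + 1) * (E + 1) := by nlinarith
          omega)
    hY'W hY'F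
    (by
      intro q z₂ htop
      rw [analyticOrderAt_eq_top] at htop
      refine hident (P (pr q)) ed (hPh _) (hz₁P _ (pr q).2) z₂ ?_
      filter_upwards [htop, hevP (P (pr q)) z₂] with z h1 h2
      rw [← h2]
      exact h1)
    (by
      intro q z₂
      rw [analyticOrderAt_congr (hevP (P (pr q)) z₂)]
      exact hord _ z₂)
    (z₁ := z₁) (by
      apply hΔ₁s
      intro h0
      have h1 : eval (Y' z₁ z₁) Δ₁ ≠ 0 := hΔ₂s (Y z₁ z₁) (Y' z₁ z₁) (hY'c z₁).self_of_nhds hz₁Δ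
      apply h1
      have h2 := congrArg (ccA : PowerSeries ℂ →ₐ[ℂ] ℂ) h0
      rw [map_zero, MvPolynomial.comp_aeval_apply] at h2
      have h3 : (fun i => ccA ((tayHom z₁) (yB hY'W.1 z₁ i))) = Y' z₁ z₁ := by
        funext i
        exact constantCoeff_yB hY'W.1 z₁ i
      rw [h3, aeval_complex] at h2
      exact h2) z w
  refine ⟨c', hc', ?_⟩
  funext i
  have h1 := hcc (eY i) (hwtY i)
  rw [(hY'Y z).self_of_nhds i, (hY'Y w).self_of_nhds i] at h1
  rw [h1, Pi.smul_apply, smul_eq_mul]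

end Pool.Agent.Lib.GGL
end
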